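import Pool.Agent.Lib.MP_ca3eb1_co.Basic

/-! # Abstract rank functions: rank, closure, flats, Mason families

The same notions and lemma names as in `Defs` and `Basic`, for an abstract matroid given by its
rank function.  `sp N X` is the closure as a set, so `e ∈ sp N X` replaces `v e ∈ sp K v X`. -/

set_option linter.unusedSectionVars false

namespace Ca3.Ab

open Finset

/-- A matroid rank function on the finite subsets of `E`. -/
structure RF (E : Type*) [DecidableEq E] where
  toFun : Finset E → ℕ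
  empty' : toFun ∅ = 0
  insert_le' : ∀ e X, toFun (insert e X) ≤ toFun X + 1
  mono' : ∀ ⦃X Y : Finset E⦄, X ⊆ Y → toFun X ≤ toFun Y
  submod' : ∀ X Y, toFun (X ∪ Y) + toFun (X ∩ Y) ≤ toFun X + toFun Y

section defs

variable {E : Type*} [DecidableEq E]

/-- rank -/
def rk (N : RF E) (X : Finset E) : ℕ := N.toFun X

/-- closure, as a set -/
def sp (N : RF E) (X : Finset E) : Set E := {e | rk N (insert e X) = rk N X}

/-- Independent finite sets. -/
def Ind (N : RF E) (X : Finset E) : Prop := rk N X = X.card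

/-- No loop, no two parallel elements. -/
def Simple (N : RF E) : Prop :=
  (∀ e, rk N {e} = 1) ∧ ∀ e f, e ∈ sp N {f} → e = f

variable [Fintype E]

open Classical in
/-- Closure. -/
noncomputable def cl (N : RF E) (X : Finset E) : Finset E :=
  univ.filter (fun e => e ∈ sp N X)

/-- Flats. -/
def IsFl (N : RF E) (X : Finset E) : Prop := cl N X = X

/-- Mason family for `Y ⊆ Z ⊆ T`: the number of `A i` inside `Z` is at most the nullity
of `Z`, with equality for flats `Z`. -/
def IsMason (N : RF E) (Y T : Finset E) {ι : Type*} [Fintype ι] (A : ι → Finset E) : Prop :=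
  ∀ Z : Finset E, Y ⊆ Z → Z ⊆ T →
    cnt A Z + rk N Z ≤ Z.card ∧ (IsFl N Z → cnt A Z + rk N Z = Z.card)

/-- `N / Y` restricted to `T` is a strict gammoid (Mason's criterion). -/
def SG (N : RF E) (Y T : Finset E) : Prop :=
  ∃ (n : ℕ) (A : Fin n → Finset E), IsMason N Y T A

end defs

section rank

variable {E : Type*} [DecidableEq E] {N : RF E} {X Y Z : Finset E} {e f : E}

lemma rk_mono (h : X ⊆ Y) : rk N X ≤ rk N Y := N.mono' h

@[simp] lemma rk_empty : rk N (∅ : Finset E) = 0 := N.empty'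

lemma rk_insert_le : rk N (insert e X) ≤ rk N X + 1 := N.insert_le' e X

lemma rk_union_add_rk_inter : rk N (X ∪ Y) + rk N (X ∩ Y) ≤ rk N X + rk N Y := N.submod' X Y

lemma rk_le_card : rk N X ≤ X.card := by
  induction X using Finset.induction_on with
  | empty => simp
  | insert a s ha ih =>
    have := rk_insert_le (N := N) (e := a) (X := s)
    rw [card_insert_of_notMem ha]
    omega

lemma mem_sp_iff : e ∈ sp N X ↔ rk N (insert e X) = rk N X := Iff.rfl

lemma rk_insert_of_mem_sp (h : e ∈ sp N X) : rk N (insert e X) = rk N X := h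

lemma rk_insert_of_not_mem_sp (h : e ∉ sp N X) : rk N (insert e X) = rk N X + 1 := by
  have h1 : rk N (insert e X) ≠ rk N X := h
  have h2 := rk_insert_le (N := N) (e := e) (X := X)
  have h3 := rk_mono (N := N) (subset_insert e X)
  omega

lemma rk_insert_eq_iff : rk N (insert e X) = rk N X ↔ e ∈ sp N X := Iff.rfl

lemma mem_sp (h : e ∈ X) : e ∈ sp N X := by
  rw [mem_sp_iff, insert_eq_self.2 h]

lemma mem_sp_of_subset (h : X ⊆ Y) (he : e ∈ sp N X) : e ∈ sp N Y := by
  rw [mem_sp_iff] at *
  have h1 := rk_union_add_rk_inter (N := N) (X := Y) (Y := insert e X)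
  have h2 : Y ∪ insert e X = insert e Y := by
    rw [union_insert, union_eq_left.2 h]
  have h3 : X ⊆ Y ∩ insert e X := subset_inter h (subset_insert _ _)
  have h4 := rk_mono (N := N) h3
  have h5 := rk_mono (N := N) (subset_insert e Y)
  rw [h2] at h1
  omega

lemma rk_union_of_forall_mem_sp (h : ∀ e ∈ Y, e ∈ sp N X) : rk N (X ∪ Y) = rk N X := by
  induction Y using Finset.induction_on with
  | empty => simp
  | insert a s ha ih =>
    rw [union_insert]
    have h1 : a ∈ sp N (X ∪ s) := mem_sp_of_subset subset_union_left (h a (mem_insert_self _ _))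
    rw [rk_insert_of_mem_sp h1]
    exact ih (fun e he => h e (mem_insert_of_mem he))

/-- transitivity of closure -/
lemma mem_sp_trans (h : ∀ e ∈ X, e ∈ sp N Y) (hf : f ∈ sp N X) : f ∈ sp N Y := by
  have h1 := rk_union_of_forall_mem_sp h
  have h2 : f ∈ sp N (Y ∪ X) := mem_sp_of_subset subset_union_right hf
  rw [mem_sp_iff] at h2 ⊢
  have h3 := rk_mono (N := N) (insert_subset_insert f (subset_union_left (s₁ := Y) (s₂ := X)))
  have h4 := rk_mono (N := N) (subset_insert f Y)
  omega

lemma sp_le_iff : sp N X ≤ sp N Y ↔ ∀ e ∈ X, e ∈ sp N Y := by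
  constructor
  · intro h e he
    exact h (mem_sp he)
  · intro h f hf
    exact mem_sp_trans h hf

lemma sp_mono (h : X ⊆ Y) : sp N X ≤ sp N Y := fun _ he => mem_sp_of_subset h he

lemma sp_insert_of_mem_sp (h : e ∈ sp N X) : sp N (insert e X) = sp N X := by
  apply le_antisymm
  · rw [sp_le_iff]
    intro g hg
    rcases mem_insert.1 hg with rfl | hg
    · exact h
    · exact mem_sp hg
  · exact sp_mono (subset_insert _ _)

/-- exchange property -/
lemma mem_sp_insert_exchange (h : f ∈ sp N (insert e X)) (h' : f ∉ sp N X) :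
    e ∈ sp N (insert f X) := by
  have h1 := rk_insert_of_not_mem_sp h'
  rw [mem_sp_iff] at h ⊢
  rw [insert_comm] at h
  have h2 := rk_insert_le (N := N) (e := e) (X := X)
  have h3 := rk_mono (N := N) (subset_insert e (insert f X))
  omega

lemma rk_le_of_sp_le (h : sp N X ≤ sp N Y) : rk N X ≤ rk N Y := by
  have h1 := rk_union_of_forall_mem_sp (sp_le_iff.1 h)
  have h2 := rk_mono (N := N) (subset_union_right (s₁ := Y) (s₂ := X))
  omega

lemma rk_congr (h : sp N X = sp N Y) : rk N X = rk N Y :=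
  le_antisymm (rk_le_of_sp_le h.le) (rk_le_of_sp_le h.ge)

lemma sp_eq_of_subset_of_rk_le (h : X ⊆ Y) (h' : rk N Y ≤ rk N X) : sp N X = sp N Y := by
  apply le_antisymm (sp_mono h)
  rw [sp_le_iff]
  intro e he
  rw [mem_sp_iff]
  have h1 := rk_mono (N := N) (insert_subset he h)
  have h2 := rk_mono (N := N) (subset_insert e X)
  omega

/-- nullity is monotone -/
lemma card_add_rk_le (h : X ⊆ Y) : X.card + rk N Y ≤ Y.card + rk N X := by
  have h1 : rk N Y ≤ rk N X + rk N (Y \ X) := by
    have h2 := rk_union_add_rk_inter (N := N) (X := X) (Y := Y \ X)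
    rw [union_sdiff_of_subset h] at h2
    omega
  have h2 : rk N (Y \ X) ≤ (Y \ X).card := rk_le_card
  have h3 := card_sdiff_add_card_eq_card h
  omega

lemma rk_union_le : rk N (X ∪ Y) ≤ rk N X + rk N Y := by
  have := rk_union_add_rk_inter (N := N) (X := X) (Y := Y)
  omega

end rank

section closure

variable {E : Type*} [DecidableEq E] [Fintype E] {N : RF E} {X Y Z F G : Finset E} {e f : E}

lemma mem_cl : e ∈ cl N X ↔ e ∈ sp N X := by
  classical
  simp [cl]

lemma subset_cl : X ⊆ cl N X := fun _ he => mem_cl.2 (mem_sp he)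

@[simp] lemma sp_cl : sp N (cl N X) = sp N X :=
  le_antisymm (sp_le_iff.2 fun _ he => mem_cl.1 he) (sp_mono subset_cl)

@[simp] lemma rk_cl : rk N (cl N X) = rk N X := rk_congr sp_cl

lemma cl_mono_sp (h : sp N X ≤ sp N Y) : cl N X ⊆ cl N Y :=
  fun _ he => mem_cl.2 (h (mem_cl.1 he))

lemma cl_mono (h : X ⊆ Y) : cl N X ⊆ cl N Y := cl_mono_sp (sp_mono h)

lemma isFl_cl : IsFl N (cl N X) := by
  unfold IsFl
  apply subset_antisymm _ subset_cl
  exact cl_mono_sp sp_cl.le

lemma isFl_univ : IsFl N (univ : Finset E) :=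
  subset_antisymm (subset_univ _) subset_cl

lemma IsFl.mem_iff (h : IsFl N F) : e ∈ F ↔ e ∈ sp N F := by
  conv_lhs => rw [← h]
  exact mem_cl

lemma IsFl.mem (h : IsFl N F) (he : e ∈ sp N F) : e ∈ F := h.mem_iff.2 he

lemma IsFl.cl_subset (hF : IsFl N F) (h : X ⊆ F) : cl N X ⊆ F := by
  rw [← hF]; exact cl_mono h

lemma IsFl.cl_subset_iff (hF : IsFl N F) : cl N X ⊆ F ↔ X ⊆ F :=
  ⟨fun h => subset_cl.trans h, hF.cl_subset⟩

lemma IsFl.inter (hF : IsFl N F) (hG : IsFl N G) : IsFl N (F ∩ G) := by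
  apply subset_antisymm _ subset_cl
  exact subset_inter (hF.cl_subset inter_subset_left) (hG.cl_subset inter_subset_right)

lemma IsFl.sp_le_iff_subset (hG : IsFl N G) : sp N X ≤ sp N G ↔ X ⊆ G :=
  ⟨fun h _ he => hG.mem (h (mem_sp he)), sp_mono⟩

lemma IsFl.eq_of_subset_of_rk_le (hF : IsFl N F) (h : F ⊆ G) (h' : rk N G ≤ rk N F) :
    F = G := by
  apply subset_antisymm h
  rw [← hF.sp_le_iff_subset]
  exact (sp_eq_of_subset_of_rk_le h h').ge

lemma IsFl.rk_lt_of_ssubset (hF : IsFl N F) (h : F ⊂ G) : rk N F < rk N G := by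
  by_contra hc
  exact h.ne (hF.eq_of_subset_of_rk_le h.subset (not_lt.1 hc))

lemma IsFl.cl_eq (hF : IsFl N F) (h : X ⊆ F) (h' : rk N F ≤ rk N X) : cl N X = F :=
  isFl_cl.eq_of_subset_of_rk_le (hF.cl_subset h) (by simpa using h')

lemma cl_eq_cl_iff : cl N X = cl N Y ↔ sp N X = sp N Y := by
  constructor
  · intro h
    rw [← sp_cl (X := X), h, sp_cl]
  · intro h
    exact subset_antisymm (cl_mono_sp h.le) (cl_mono_sp h.ge)

lemma coe_cl : (cl N X : Set E) = sp N X := by
  ext e; exact mem_cl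

/-- rank of a union of flats, computed with closures -/
lemma cl_union_cl_left : cl N (cl N X ∪ Y) = cl N (X ∪ Y) := by
  apply subset_antisymm
  · apply isFl_cl.cl_subset
    exact union_subset (cl_mono subset_union_left) (subset_union_right.trans subset_cl)
  · exact cl_mono (union_subset_union_left subset_cl)

lemma rk_union_cl_left : rk N (cl N X ∪ Y) = rk N (X ∪ Y) := by
  rw [← rk_cl (X := cl N X ∪ Y), cl_union_cl_left, rk_cl]

lemma rk_union_cl_right : rk N (X ∪ cl N Y) = rk N (X ∪ Y) := by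
  rw [union_comm, rk_union_cl_left, union_comm]

/-- submodularity for closures: the intersection of the closures of `X` and `Y` -/
lemma rk_union_add_rk_cl_inter_cl :
    rk N (X ∪ Y) + rk N (cl N X ∩ cl N Y) ≤ rk N X + rk N Y := by
  have h := rk_union_add_rk_inter (N := N) (X := cl N X) (Y := cl N Y)
  rw [rk_union_cl_left, rk_union_cl_right, rk_cl, rk_cl] at h
  exact h

end closure

section indep

variable {E : Type*} [DecidableEq E] {N : RF E} {X Y Z I : Finset E} {e f : E}

@[simp] lemma ind_empty : Ind N (∅ : Finset E) := by simp [Ind]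

lemma Ind.subset (h : Ind N Y) (hXY : X ⊆ Y) : Ind N X := by
  have h1 := card_add_rk_le (N := N) hXY
  have h2 : rk N X ≤ X.card := rk_le_card
  unfold Ind at *
  omega

lemma Ind.insert (h : Ind N X) (he : e ∉ sp N X) : Ind N (insert e X) := by
  unfold Ind at *
  rw [rk_insert_of_not_mem_sp he, h, card_insert_of_notMem]
  exact fun h' => he (mem_sp h')

lemma Ind.not_mem_sp_erase (h : Ind N X) (he : e ∈ X) : e ∉ sp N (X.erase e) := by
  intro h'
  have h1 := rk_insert_of_mem_sp h'
  rw [insert_erase he] at h1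
  have h2 : rk N (X.erase e) ≤ (X.erase e).card := rk_le_card
  rw [card_erase_of_mem he] at h2
  have : 0 < X.card := card_pos.2 ⟨e, he⟩
  unfold Ind at h
  omega

/-- Extend an independent subset of `X` to a basis of `X`. -/
lemma exists_basis_extend (hI : Ind N I) (h : I ⊆ X) :
    ∃ B, I ⊆ B ∧ B ⊆ X ∧ Ind N B ∧ sp N B = sp N X := by
  classical
  obtain ⟨B, hB⟩ := ((X.powerset.filter (fun B => I ⊆ B ∧ Ind N B))).exists_max_image card
    ⟨I, by simp [h, hI]⟩
  simp only [mem_filter, mem_powerset, and_imp] at hB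
  obtain ⟨⟨hBX, hIB, hB⟩, hmax⟩ := hB
  refine ⟨B, hIB, hBX, hB, le_antisymm (sp_mono hBX) (sp_le_iff.2 fun e he => ?_)⟩
  by_contra hc
  have heB : e ∉ B := fun h' => hc (mem_sp h')
  have := hmax (insert e B) (insert_subset he hBX) (hIB.trans (subset_insert _ _)) (hB.insert hc)
  rw [card_insert_of_notMem heB] at this
  omega

lemma exists_basis (X : Finset E) : ∃ B, B ⊆ X ∧ Ind N B ∧ sp N B = sp N X := by
  obtain ⟨B, -, h⟩ := exists_basis_extend (N := N) (I := ∅) (X := X) (by simp) (by simp)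
  exact ⟨B, h⟩

lemma Ind.rk_eq_card (h : Ind N X) : rk N X = X.card := h

/-- Extend an independent subset of `X` inside `X` to a set of any size up to the rank. -/
lemma exists_ind_card {n : ℕ} (hI : Ind N I) (h : I ⊆ X) (h1 : I.card ≤ n)
    (h2 : n ≤ rk N X) : ∃ B, I ⊆ B ∧ B ⊆ X ∧ Ind N B ∧ B.card = n := by
  obtain ⟨B, hIB, hBX, hB, hs⟩ := exists_basis_extend hI h
  have hc : B.card = rk N X := by rw [← hB.rk_eq_card, rk_congr hs]
  obtain ⟨C, hIC, hCB, hC⟩ := exists_subsuperset_card_eq hIB h1 (by omega)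
  exact ⟨C, hIC, hCB.trans hBX, hB.subset hCB, hC⟩

end indep

section simple

variable {E : Type*} [DecidableEq E] {N : RF E} {X Y Z F : Finset E} {e f : E}

lemma Simple.rk_singleton (h : Simple N) : rk N {e} = 1 := h.1 e

lemma Simple.rk_pair (h : Simple N) (hef : e ≠ f) : rk N {e, f} = 2 := by
  rw [rk_insert_of_not_mem_sp, h.rk_singleton]
  exact fun h' => hef (h.2 e f h')

lemma Simple.ind_of_card_le_two (h : Simple N) (hX : X.card ≤ 2) : Ind N X := by
  classical
  unfold Ind
  have h3 : X.card = 0 ∨ X.card = 1 ∨ X.card = 2 := by omega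
  rcases h3 with h3 | h3 | h3
  · rw [card_eq_zero] at h3
    subst h3; simp
  · rw [h3]
    obtain ⟨a, rfl⟩ := card_eq_one.1 h3
    exact h.rk_singleton
  · rw [h3]
    obtain ⟨a, b, hab, rfl⟩ := card_eq_two.1 h3
    exact h.rk_pair hab

lemma Simple.two_le_rk (h : Simple N) (hX : 2 ≤ X.card) : 2 ≤ rk N X := by
  classical
  obtain ⟨C, hCX, hC⟩ := exists_subset_card_eq hX
  have := (h.ind_of_card_le_two (X := C) (by omega)).rk_eq_card
  have := rk_mono (N := N) hCX
  omega

lemma Simple.card_le_one (h : Simple N) (hX : rk N X ≤ 1) : X.card ≤ 1 := by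
  by_contra hc
  have := h.two_le_rk (X := X) (by omega)
  omega

lemma Simple.isFl_empty [Fintype E] (h : Simple N) : IsFl N (∅ : Finset E) := by
  rw [IsFl, eq_empty_iff_forall_notMem]
  intro e he
  rw [mem_cl, mem_sp_iff, rk_empty] at he
  have := h.1 e
  rw [← insert_empty_eq] at this
  omega

lemma Simple.isFl_singleton [Fintype E] (h : Simple N) (e : E) : IsFl N {e} := by
  apply subset_antisymm _ subset_cl
  intro f hf
  rw [mem_cl] at hf
  rw [mem_singleton]
  exact h.2 _ _ hf

end simple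

section mason

variable {E : Type*} [DecidableEq E] [Fintype E] {N : RF E}
  {X Y Z F T Y' T' : Finset E} {e f : E}
  {ι κ : Type*} [Fintype ι] [Fintype κ] {A : ι → Finset E}

lemma IsMason.sg (h : IsMason N Y T A) : SG N Y T := by
  refine ⟨Fintype.card ι, fun i => A ((Fintype.equivFin ι).symm i), ?_⟩
  intro Z hYZ hZT
  rw [cnt_reindex (A := A) (Fintype.equivFin ι).symm]
  exact h Z hYZ hZT

/-- reindexing a Mason family by `Fin n` -/
lemma IsMason.exists_fin (h : IsMason N Y T A) :
    ∃ (n : ℕ) (A' : Fin n → Finset E), IsMason N Y T A' ∧ ∀ i, ∃ j, A' j = A i := by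
  refine ⟨Fintype.card ι, fun i => A ((Fintype.equivFin ι).symm i), ?_, fun i =>
    ⟨Fintype.equivFin ι i, by simp⟩⟩
  intro Z hYZ hZT
  rw [cnt_reindex (A := A) (Fintype.equivFin ι).symm]
  exact h Z hYZ hZT

lemma IsMason.mono (h : IsMason N Y T A) (hY : Y ⊆ Y') (hT : T' ⊆ T) :
    IsMason N Y' T' A :=
  fun Z h1 h2 => h Z (hY.trans h1) (h2.trans hT)

lemma SG.mono (h : SG N Y T) (hY : Y ⊆ Y') (hT : T' ⊆ T) : SG N Y' T' := by
  obtain ⟨n, A, hA⟩ := h
  exact ⟨n, A, hA.mono hY hT⟩

lemma IsMason.le (h : IsMason N Y T A) (hY : Y ⊆ Z) (hT : Z ⊆ T) :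
    cnt A Z + rk N Z ≤ Z.card := (h Z hY hT).1

lemma IsMason.eq (h : IsMason N Y T A) (hY : Y ⊆ Z) (hT : Z ⊆ T) (hZ : IsFl N Z) :
    cnt A Z + rk N Z = Z.card := (h Z hY hT).2 hZ

/-- Closing the members of a Mason family. -/
lemma IsMason.closure (h : IsMason N Y T A) :
    IsMason N Y T (fun i => cl N (A i ∪ Y)) := by
  intro Z hYZ hZT
  have h1 : ∀ i, cl N (A i ∪ Y) ⊆ Z → A i ⊆ Z := fun i hi =>
    (subset_union_left.trans subset_cl).trans hi
  have h2 : cnt (fun i => cl N (A i ∪ Y)) Z ≤ cnt A Z := by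
    unfold cnt
    apply card_le_card
    intro i hi
    simp only [mem_filter, mem_univ, true_and] at *
    exact h1 i hi
  refine ⟨by have := h.le hYZ hZT; omega, fun hZ => ?_⟩
  have h3 : cnt (fun i => cl N (A i ∪ Y)) Z = cnt A Z := by
    apply le_antisymm h2
    unfold cnt
    apply card_le_card
    intro i hi
    simp only [mem_filter, mem_univ, true_and] at *
    exact hZ.cl_subset (union_subset hi hYZ)
  rw [h3]
  exact h.eq hYZ hZT hZ

/-- M3: the inequality for three flats. -/
theorem M3 (h : SG N Y T) {F1 F2 F3 : Finset E} (h1 : IsFl N F1) (h2 : IsFl N F2)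
    (h3 : IsFl N F3) (hY1 : Y ⊆ F1) (hY2 : Y ⊆ F2) (hY3 : Y ⊆ F3)
    (hT : F1 ∪ F2 ∪ F3 ⊆ T) :
    rk N (F1 ∪ F2 ∪ F3) + rk N (F1 ∩ F2) + rk N (F1 ∩ F3) + rk N (F2 ∩ F3) ≤
      rk N F1 + rk N F2 + rk N F3 + rk N (F1 ∩ F2 ∩ F3) := by
  obtain ⟨n, A, hA⟩ := h
  have e1 := hA.eq hY1 (subset_union_left.trans (subset_union_left.trans hT)) h1
  have e2 := hA.eq hY2 (subset_union_right.trans (subset_union_left.trans hT)) h2
  have e3 := hA.eq hY3 (subset_union_right.trans hT) h3
  have e12 := hA.eq (subset_inter hY1 hY2)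
    ((inter_subset_left.trans subset_union_left).trans (subset_union_left.trans hT))
    (h1.inter h2)
  have e13 := hA.eq (subset_inter hY1 hY3)
    ((inter_subset_left.trans subset_union_left).trans (subset_union_left.trans hT))
    (h1.inter h3)
  have e23 := hA.eq (subset_inter hY2 hY3)
    (inter_subset_right.trans (subset_union_right.trans hT)) (h2.inter h3)
  have e123 := hA.eq (subset_inter (subset_inter hY1 hY2) hY3)
    (inter_subset_right.trans (subset_union_right.trans hT)) ((h1.inter h2).inter h3)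
  have eU := hA.le (hY1.trans (subset_union_left.trans subset_union_left)) hT
  have hc := cnt_three A F1 F2 F3
  have hcard : (F1 ∪ F2 ∪ F3).card + (F1 ∩ F2).card + (F1 ∩ F3).card + (F2 ∩ F3).card =
      F1.card + F2.card + F3.card + (F1 ∩ F2 ∩ F3).card := by
    have c1 := card_union_add_card_inter F1 F2
    have c2 := card_union_add_card_inter (F1 ∪ F2) F3
    have c3 := card_union_add_card_inter (F1 ∩ F3) (F2 ∩ F3)
    have c4 : (F1 ∪ F2) ∩ F3 = (F1 ∩ F3) ∪ (F2 ∩ F3) := union_inter_distrib_right _ _ _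
    have c5 : (F1 ∩ F3) ∩ (F2 ∩ F3) = F1 ∩ F2 ∩ F3 := by
      ext x; simp only [mem_inter]; tauto
    rw [c4] at c2
    rw [c5] at c3
    omega
  omega

end mason

section restrict

variable {E : Type*} [DecidableEq E]

/-- Restriction of a rank function to a subset, as a rank function on the subtype. -/
def RF.restrict (N : RF E) (F : Finset E) : RF F where
  toFun Z := rk N (Z.map (Function.Embedding.subtype _))
  empty' := by simp
  insert_le' e X := by
    rw [map_insert]
    exact rk_insert_le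
  mono' X Y h := rk_mono (map_subset_map.2 h)
  submod' X Y := by
    rw [map_union, map_inter]
    exact rk_union_add_rk_inter

/-- The rank function of a vector configuration. -/
noncomputable def RF.ofVec (K : Type*) {V : Type*} [Field K] [AddCommGroup V] [Module K V]
    [FiniteDimensional K V] (v : E → V) : RF E where
  toFun Z := Ca3.rk K v Z
  empty' := Ca3.rk_empty
  insert_le' _ _ := Ca3.rk_insert_le
  mono' _ _ h := Ca3.rk_mono h
  submod' _ _ := Ca3.rk_union_add_rk_inter

end restrict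

end Ca3.Ab
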