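import Pool.Agent.Lib.MP_ca3eb1_co.AbLegs

/-! # Theorem L: a hole gives a partition into pairwise coplanar lines (purely abstract) -/

set_option linter.unusedSectionVars false

namespace Ca3.Ab

open Finset

variable {E : Type*} [DecidableEq E] [Fintype E] {N : RF E}

/-! ### Rank calculus -/

/-- submodularity for closures -/
lemma hl_inter {X Y L : Finset E} (hX : L ⊆ cl N X) (hY : L ⊆ cl N Y) :
    rk N (X ∪ Y) + rk N L ≤ rk N X + rk N Y := by
  have h1 := rk_union_add_rk_cl_inter_cl (N := N) (X := X) (Y := Y)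
  have h2 := rk_mono (N := N) (subset_inter hX hY)
  omega

lemma hl_union {A B C : Finset E} :
    rk N (A ∪ B ∪ C) + rk N C ≤ rk N (A ∪ C) + rk N (B ∪ C) := by
  have h1 := rk_union_add_rk_inter (N := N) (X := A ∪ C) (Y := B ∪ C)
  have h2 : (A ∪ C) ∪ (B ∪ C) = A ∪ B ∪ C := by
    ext e; simp only [mem_union]; tauto
  have h3 : rk N C ≤ rk N ((A ∪ C) ∩ (B ∪ C)) :=
    rk_mono (subset_inter subset_union_right subset_union_right)
  rw [h2] at h1
  omega

/-- if `L` lies in the closure of `X` then it can be absorbed -/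
lemma hl_absorb {X Y L : Finset E} (h : L ⊆ cl N X) (hXY : X ⊆ Y) :
    rk N (L ∪ Y) = rk N Y := by
  rw [union_comm]
  apply rk_union_of_forall_mem_sp
  intro e he
  exact sp_mono hXY (mem_cl.1 (h he))

lemma hl_mono_cl {X Y : Finset E} (h : X ⊆ cl N Y) : rk N X ≤ rk N Y := by
  have := rk_mono (N := N) h
  rwa [rk_cl] at this

/-- the exchange inequality for a subset `Z` of the closure of `X` -/
lemma hl_sub {X Y Z : Finset E} (h : Z ⊆ cl N X) :
    rk N (X ∪ Y) + rk N Z ≤ rk N X + rk N (Z ∪ Y) := by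
  have h1 := rk_union_add_rk_inter (N := N) (X := cl N X) (Y := Z ∪ Y)
  have h2 : rk N (X ∪ Y) ≤ rk N (cl N X ∪ (Z ∪ Y)) := by
    apply rk_mono
    exact union_subset (subset_cl.trans subset_union_left)
      (subset_union_right.trans subset_union_right)
  have h3 : rk N Z ≤ rk N (cl N X ∩ (Z ∪ Y)) :=
    rk_mono (subset_inter h subset_union_left)
  rw [rk_cl] at h1
  omega

lemma mem_sp_of_rk_le {e : E} {X Y : Finset E} (he : e ∈ Y) (hXY : X ⊆ Y)
    (h : rk N Y ≤ rk N X) : e ∈ sp N X := by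
  rw [sp_eq_of_subset_of_rk_le hXY h]
  exact mem_sp he

/-- Hole lemma: three flats through `x` whose spans share a line have a further common
element. -/
theorem hole_lemma {x : E} (hN : Simple N) (hs : SG N {x} univ) {F1 F2 F3 : Finset E}
    (h1 : IsFl N F1) (h2 : IsFl N F2) (h3 : IsFl N F3) (hx1 : x ∈ F1) (hx2 : x ∈ F2)
    (hx3 : x ∈ F3) (h12 : rk N (F1 ∪ F2) + 2 = rk N F1 + rk N F2)
    (h13 : rk N (F1 ∪ F3) + 2 = rk N F1 + rk N F3)
    (h23 : rk N (F2 ∪ F3) + 2 = rk N F2 + rk N F3)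
    (h123 : rk N (F1 ∪ F2 ∪ F3) + 4 = rk N F1 + rk N F2 + rk N F3) :
    ∃ e, e ≠ x ∧ e ∈ F1 ∧ e ∈ F2 ∧ e ∈ F3 := by
  have e1 : F1 = cl N (F1 ∪ F2) ∩ cl N (F1 ∪ F3) := by
    apply h1.eq_of_subset_of_rk_le
      (subset_inter (subset_union_left.trans subset_cl) (subset_union_left.trans subset_cl))
    have h4 := rk_union_add_rk_cl_inter_cl (N := N) (X := F1 ∪ F2) (Y := F1 ∪ F3)
    have h5 : F1 ∪ F2 ∪ (F1 ∪ F3) = F1 ∪ F2 ∪ F3 := by
      ext e; simp only [mem_union]; tauto
    rw [h5] at h4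
    omega
  have e2 : F2 = cl N (F1 ∪ F2) ∩ cl N (F2 ∪ F3) := by
    apply h2.eq_of_subset_of_rk_le
      (subset_inter (subset_union_right.trans subset_cl) (subset_union_left.trans subset_cl))
    have h4 := rk_union_add_rk_cl_inter_cl (N := N) (X := F1 ∪ F2) (Y := F2 ∪ F3)
    have h5 : F1 ∪ F2 ∪ (F2 ∪ F3) = F1 ∪ F2 ∪ F3 := by
      ext e; simp only [mem_union]; tauto
    rw [h5] at h4
    omega
  have e3 : F3 = cl N (F1 ∪ F3) ∩ cl N (F2 ∪ F3) := by
    apply h3.eq_of_subset_of_rk_le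
      (subset_inter (subset_union_right.trans subset_cl) (subset_union_right.trans subset_cl))
    have h4 := rk_union_add_rk_cl_inter_cl (N := N) (X := F1 ∪ F3) (Y := F2 ∪ F3)
    have h5 : F1 ∪ F3 ∪ (F2 ∪ F3) = F1 ∪ F2 ∪ F3 := by
      ext e; simp only [mem_union]; tauto
    rw [h5] at h4
    omega
  have hY : ∀ {F G : Finset E}, x ∈ F → ({x} : Finset E) ⊆ cl N (F ∪ G) := fun h =>
    singleton_subset_iff.2 (subset_cl (mem_union_left _ h))
  have hM := M3 hs (isFl_cl (N := N) (X := F1 ∪ F2)) (isFl_cl (N := N) (X := F1 ∪ F3))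
    (isFl_cl (N := N) (X := F2 ∪ F3)) (hY hx1) (hY hx1) (hY hx2) (subset_univ _)
  rw [← e1, ← e2, ← e3] at hM
  have e4 : F1 ∩ cl N (F2 ∪ F3) = F1 ∩ F2 ∩ F3 := by
    ext e
    have a1 : e ∈ F1 ↔ e ∈ cl N (F1 ∪ F2) ∧ e ∈ cl N (F1 ∪ F3) := by
      rw [← mem_inter, ← e1]
    have a2 : e ∈ F2 ↔ e ∈ cl N (F1 ∪ F2) ∧ e ∈ cl N (F2 ∪ F3) := by
      rw [← mem_inter, ← e2]
    have a3 : e ∈ F3 ↔ e ∈ cl N (F1 ∪ F3) ∧ e ∈ cl N (F2 ∪ F3) := by
      rw [← mem_inter, ← e3]
    simp only [mem_inter]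
    tauto
  rw [e4, rk_cl, rk_cl, rk_cl] at hM
  have e5 : rk N (F1 ∪ F2 ∪ F3) ≤
      rk N (cl N (F1 ∪ F2) ∪ cl N (F1 ∪ F3) ∪ cl N (F2 ∪ F3)) := by
    apply rk_mono
    have a1 : F1 ∪ F2 ⊆ cl N (F1 ∪ F2) := subset_cl
    have a2 : F3 ⊆ cl N (F2 ∪ F3) := subset_union_right.trans subset_cl
    exact union_subset (a1.trans (subset_union_left.trans subset_union_left))
      (a2.trans subset_union_right)
  have h6 : 2 ≤ rk N (F1 ∩ F2 ∩ F3) := by omega
  by_contra hc
  push Not at hc
  have h7 : F1 ∩ F2 ∩ F3 ⊆ {x} := by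
    intro e he
    simp only [mem_inter] at he
    rw [mem_singleton]
    by_contra hne
    exact hc e hne he.1.1 he.1.2 he.2
  have h8 := rk_mono (N := N) h7
  rw [hN.rk_singleton] at h8
  omega

/-- the hole lemma outside the three sets -/
lemma hl_outside (hN : Simple N) (hs : ∀ x, SG N {x} univ) {X1 X2 X3 : Finset E} {x : E}
    (h12 : rk N (X1 ∪ X2) + 1 = rk N X1 + rk N X2)
    (h13 : rk N (X1 ∪ X3) + 1 = rk N X1 + rk N X3)
    (h23 : rk N (X2 ∪ X3) + 1 = rk N X2 + rk N X3)
    (h123 : rk N (X1 ∪ X2 ∪ X3) + 2 = rk N X1 + rk N X2 + rk N X3)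
    (hx : x ∉ sp N (X1 ∪ X2 ∪ X3)) :
    ∃ e, e ≠ x ∧ e ∈ sp N (insert x X1) ∧ e ∈ sp N (insert x X2) ∧ e ∈ sp N (insert x X3) := by
  have hn : ∀ {Y : Finset E}, Y ⊆ X1 ∪ X2 ∪ X3 → rk N (insert x Y) = rk N Y + 1 := by
    intro Y hY
    exact rk_insert_of_not_mem_sp (fun h => hx (sp_mono hY h))
  have hu : ∀ A B : Finset E, rk N (cl N (insert x A) ∪ cl N (insert x B)) =
      rk N (insert x (A ∪ B)) := by
    intro A B
    rw [rk_union_cl_left, rk_union_cl_right]
    congr 1
    ext e; simp only [mem_union, mem_insert]; tauto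
  have hu3 : rk N (cl N (insert x X1) ∪ cl N (insert x X2) ∪ cl N (insert x X3)) =
      rk N (insert x (X1 ∪ X2 ∪ X3)) := by
    rw [rk_union_cl_right, union_assoc, rk_union_cl_left, union_left_comm, rk_union_cl_left]
    congr 1
    ext e; simp only [mem_union, mem_insert]; tauto
  have s1 : X1 ⊆ X1 ∪ X2 ∪ X3 := subset_union_left.trans subset_union_left
  have s2 : X2 ⊆ X1 ∪ X2 ∪ X3 := subset_union_right.trans subset_union_left
  have s3 : X3 ⊆ X1 ∪ X2 ∪ X3 := subset_union_right
  have k1 := hn s1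
  have k2 := hn s2
  have k3 := hn s3
  have k12 := hn (union_subset s1 s2)
  have k13 := hn (union_subset s1 s3)
  have k23 := hn (union_subset s2 s3)
  have k123 := hn (subset_refl _)
  obtain ⟨e, he, he1, he2, he3⟩ := hole_lemma hN (hs x) (isFl_cl (N := N) (X := insert x X1))
    (isFl_cl (N := N) (X := insert x X2)) (isFl_cl (N := N) (X := insert x X3))
    (subset_cl (mem_insert_self _ _)) (subset_cl (mem_insert_self _ _))
    (subset_cl (mem_insert_self _ _))
    (by rw [hu, rk_cl, rk_cl]; omega) (by rw [hu, rk_cl, rk_cl]; omega)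
    (by rw [hu, rk_cl, rk_cl]; omega) (by rw [hu3, rk_cl, rk_cl, rk_cl]; omega)
  exact ⟨e, he, mem_cl.1 he1, mem_cl.1 he2, mem_cl.1 he3⟩

lemma Hole.perm {X1 X2 X3 : Finset E} (h : Hole N X1 X2 X3) : Hole N X2 X3 X1 := by
  obtain ⟨r1, r2, r3, r12, r13, r23, r123, no⟩ := h
  refine ⟨r2, r3, r1, r23, ?_, ?_, ?_, ?_⟩
  · rw [union_comm]; omega
  · rw [union_comm]; omega
  · have : X2 ∪ X3 ∪ X1 = X1 ∪ X2 ∪ X3 := by
      ext e; simp only [mem_union]; tauto
    rw [this]; omega
  · rintro e ⟨a, b, c⟩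
    exact no e ⟨c, a, b⟩

/-- the hole lemma at an element of `X1` -/
lemma Hole.inside {X1 X2 X3 : Finset E} (h : Hole N X1 X2 X3) (hN : Simple N)
    (hs : ∀ x, SG N {x} univ) {x : E} (hx : x ∈ sp N X1) :
    ∃ e, e ≠ x ∧ e ∈ sp N X1 ∧ e ∈ sp N (insert x X2) ∧ e ∈ sp N (insert x X3) ∧
      x ∉ sp N X2 ∧ x ∉ sp N X3 := by
  obtain ⟨r1, r2, r3, r12, r13, r23, r123, no⟩ := h
  have hxs : ∀ {Y : Finset E}, X1 ⊆ Y → ({x} : Finset E) ⊆ cl N Y := fun hY =>
    singleton_subset_iff.2 (mem_cl.2 (sp_mono hY hx))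
  -- `x` is not in two closures
  have hA : ∀ A B : Finset E, rk N (X1 ∪ A) + 1 = rk N X1 + rk N A →
      rk N (A ∪ B) + 1 = rk N A + rk N B →
      rk N (X1 ∪ A ∪ B) + 2 = rk N X1 + rk N A + rk N B →
      x ∈ sp N (A ∪ B) → x ∈ sp N A := by
    intro A B h1 h2 h3 hxAB
    have h4 := hl_inter (N := N) (X := X1 ∪ A) (Y := A ∪ B) (L := insert x A)
      (insert_subset (mem_cl.2 (sp_mono subset_union_left hx))
        (subset_union_right.trans subset_cl))
      (insert_subset (mem_cl.2 hxAB) (subset_union_left.trans subset_cl))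
    have h5 : X1 ∪ A ∪ (A ∪ B) = X1 ∪ A ∪ B := by
      ext e; simp only [mem_union]; tauto
    rw [h5] at h4
    have h6 := rk_mono (N := N) (subset_insert x A)
    rw [mem_sp_iff]
    omega
  have e1 : X2 ∪ X3 = X3 ∪ X2 := union_comm _ _
  have e2 : X1 ∪ X2 ∪ X3 = X1 ∪ X3 ∪ X2 := by
    ext e; simp only [mem_union]; tauto
  have h23 : x ∉ sp N (X2 ∪ X3) := by
    intro h0
    apply no x
    refine ⟨hx, hA X2 X3 r12 r23 r123 h0, hA X3 X2 r13 (by rw [← e1]; omega)
      (by rw [← e2]; omega) (by rw [← e1]; exact h0)⟩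
  have h2 : x ∉ sp N X2 := fun h0 => h23 (sp_mono subset_union_left h0)
  have h3 : x ∉ sp N X3 := fun h0 => h23 (sp_mono subset_union_right h0)
  have k2 := rk_insert_of_not_mem_sp h2
  have k3 := rk_insert_of_not_mem_sp h3
  have k23 := rk_insert_of_not_mem_sp h23
  have u2 : rk N (cl N X1 ∪ cl N (insert x X2)) = rk N (X1 ∪ X2) := by
    rw [rk_union_cl_left, rk_union_cl_right, union_insert]
    exact rk_insert_of_mem_sp (sp_mono subset_union_left hx)
  have u3 : rk N (cl N X1 ∪ cl N (insert x X3)) = rk N (X1 ∪ X3) := by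
    rw [rk_union_cl_left, rk_union_cl_right, union_insert]
    exact rk_insert_of_mem_sp (sp_mono subset_union_left hx)
  have u23 : rk N (cl N (insert x X2) ∪ cl N (insert x X3)) = rk N (insert x (X2 ∪ X3)) := by
    rw [rk_union_cl_left, rk_union_cl_right]
    congr 1
    ext e; simp only [mem_union, mem_insert]; tauto
  have u123 : rk N (cl N X1 ∪ cl N (insert x X2) ∪ cl N (insert x X3)) =
      rk N (X1 ∪ X2 ∪ X3) := by
    rw [rk_union_cl_right, union_assoc, rk_union_cl_left, union_left_comm, rk_union_cl_left]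
    have : insert x X2 ∪ (X1 ∪ insert x X3) = insert x (X1 ∪ X2 ∪ X3) := by
      ext e; simp only [mem_union, mem_insert]; tauto
    rw [this]
    exact rk_insert_of_mem_sp (sp_mono (subset_union_left.trans subset_union_left) hx)
  obtain ⟨e, he, he1, he2, he3⟩ := hole_lemma hN (hs x) (isFl_cl (N := N) (X := X1))
    (isFl_cl (N := N) (X := insert x X2)) (isFl_cl (N := N) (X := insert x X3))
    (mem_cl.2 hx) (subset_cl (mem_insert_self _ _)) (subset_cl (mem_insert_self _ _))
    (by rw [u2, rk_cl, rk_cl]; omega) (by rw [u3, rk_cl, rk_cl]; omega)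
    (by rw [u23, rk_cl, rk_cl]; omega) (by rw [u123, rk_cl, rk_cl, rk_cl]; omega)
  exact ⟨e, he, mem_cl.1 he1, mem_cl.1 he2, mem_cl.1 he3, h2, h3⟩

/-- three lines forming a hole -/
lemma Hole.lines {X1 X2 X3 : Finset E} (h : Hole N X1 X2 X3) (hN : Simple N)
    (hs : ∀ x, SG N {x} univ) :
    ∃ L1 L2 L3, Hole N L1 L2 L3 ∧ rk N L1 = 2 ∧ rk N L2 = 2 ∧ rk N L3 = 2 := by
  have hne : ∀ {X : Finset E}, 2 ≤ rk N X → X.Nonempty := by
    intro X hX
    rw [nonempty_iff_ne_empty]
    rintro rfl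
    rw [rk_empty] at hX
    omega
  have h' := h.perm
  have h'' := h'.perm
  obtain ⟨x1, hx1⟩ := hne h.r1
  obtain ⟨x2, hx2⟩ := hne h.r2
  obtain ⟨x3, hx3⟩ := hne h.r3
  obtain ⟨e1, hne1, he1, he12, he13, hn12, hn13⟩ := h.inside hN hs (mem_sp hx1)
  obtain ⟨e2, hne2, he2, he23, he21, hn23, hn21⟩ := h'.inside hN hs (mem_sp hx2)
  obtain ⟨e3, hne3, he3, he31, he32, hn31, hn32⟩ := h''.inside hN hs (mem_sp hx3)
  obtain ⟨r1, r2, r3, r12, r13, r23, r123, no⟩ := h
  have k1 : rk N {x1, e1} = 2 := hN.rk_pair (Ne.symm hne1)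
  have k2 : rk N {x2, e2} = 2 := hN.rk_pair (Ne.symm hne2)
  have k3 : rk N {x3, e3} = 2 := hN.rk_pair (Ne.symm hne3)
  have c1 : ({x1, e1} : Finset E) ⊆ cl N X1 :=
    insert_subset (subset_cl hx1) (singleton_subset_iff.2 (mem_cl.2 he1))
  have c2 : ({x2, e2} : Finset E) ⊆ cl N X2 :=
    insert_subset (subset_cl hx2) (singleton_subset_iff.2 (mem_cl.2 he2))
  have c3 : ({x3, e3} : Finset E) ⊆ cl N X3 :=
    insert_subset (subset_cl hx3) (singleton_subset_iff.2 (mem_cl.2 he3))
  -- a `p`-line raises the rank of the other sets by one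
  have hup : ∀ {x e : E} {X : Finset E}, e ∈ sp N (insert x X) →
      rk N ({x, e} ∪ X) ≤ rk N X + 1 := by
    intro x e X he
    have : ({x, e} : Finset E) ∪ X = insert e (insert x X) := by
      ext z; simp only [mem_union, mem_insert, mem_singleton]; tauto
    rw [this, rk_insert_of_mem_sp he]
    exact rk_insert_le
  have a12 := hup he12
  have a13 := hup he13
  have a21 := hup he21
  have a23 := hup he23
  have a31 := hup he31
  have a32 := hup he32
  -- two lines in different sets are coplanar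
  have hpair : ∀ {A B X Y : Finset E}, A ⊆ cl N X → B ⊆ cl N Y →
      rk N (A ∪ Y) ≤ rk N Y + 1 → rk N (B ∪ X) ≤ rk N X + 1 →
      rk N (X ∪ Y) + 1 = rk N X + rk N Y → rk N (A ∪ B) ≤ 3 := by
    intro A B X Y hA hB h1 h2 h3
    have h4 := hl_inter (N := N) (X := A ∪ Y) (Y := B ∪ X) (L := A ∪ B)
      (union_subset (subset_union_left.trans subset_cl) (hB.trans (cl_mono subset_union_right)))
      (union_subset (hA.trans (cl_mono subset_union_right)) (subset_union_left.trans subset_cl))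
    have h5 : rk N (X ∪ Y) ≤ rk N (A ∪ Y ∪ (B ∪ X)) := by
      apply rk_mono
      exact union_subset (subset_union_right.trans subset_union_right)
        (subset_union_right.trans subset_union_left)
    omega
  have b12 : rk N (({x1, e1} : Finset E) ∪ {x2, e2}) ≤ 3 := hpair c1 c2 a12 a21 r12
  have b13 : rk N (({x1, e1} : Finset E) ∪ {x3, e3}) ≤ 3 := hpair c1 c3 a13 a31 r13
  have b23 : rk N (({x2, e2} : Finset E) ∪ {x3, e3}) ≤ 3 := hpair c2 c3 a23 a32 r23
  -- the lower bound for the total rank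
  have t1 := hl_sub (N := N) (Y := X2 ∪ X3) c1
  have t2 := hl_sub (N := N) (Y := {x1, e1} ∪ X3) c2
  have t3 := hl_sub (N := N) (Y := {x1, e1} ∪ {x2, e2}) c3
  have q1 : X1 ∪ (X2 ∪ X3) = X1 ∪ X2 ∪ X3 := by rw [union_assoc]
  have q2 : X2 ∪ ({x1, e1} ∪ X3) = {x1, e1} ∪ (X2 ∪ X3) := by rw [union_left_comm]
  have q3 : X3 ∪ ({x1, e1} ∪ {x2, e2}) = {x2, e2} ∪ ({x1, e1} ∪ X3) := by
    ext z; simp only [mem_union]; tauto
  have q4 : ({x3, e3} : Finset E) ∪ ({x1, e1} ∪ {x2, e2}) =
      {x1, e1} ∪ {x2, e2} ∪ {x3, e3} := by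
    rw [union_comm]
  rw [q1] at t1
  rw [q2] at t2
  rw [q3, q4] at t3
  have t4 := hl_union (N := N) (A := {x1, e1}) (B := {x2, e2}) (C := {x3, e3})
  have t5 := hl_union (N := N) (A := {x2, e2}) (B := {x3, e3}) (C := {x1, e1})
  have q5 : ({x2, e2} : Finset E) ∪ {x3, e3} ∪ {x1, e1} = {x1, e1} ∪ {x2, e2} ∪ {x3, e3} := by
    ext z; simp only [mem_union]; tauto
  have q6 : ({x2, e2} : Finset E) ∪ {x1, e1} = {x1, e1} ∪ {x2, e2} := union_comm _ _
  have q7 : ({x3, e3} : Finset E) ∪ {x1, e1} = {x1, e1} ∪ {x3, e3} := union_comm _ _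
  rw [q5, q6, q7] at t5
  refine ⟨{x1, e1}, {x2, e2}, {x3, e3}, ⟨by omega, by omega, by omega, by omega, by omega,
    by omega, by omega, ?_⟩, k1, k2, k3⟩
  rintro e ⟨f1, f2, f3⟩
  apply no e
  have hmono : ∀ {A X : Finset E}, A ⊆ cl N X → e ∈ sp N A → e ∈ sp N X := by
    intro A X hA he
    rw [← sp_cl (X := X)]
    exact sp_mono hA he
  exact ⟨hmono c1 f1, hmono c2 f2, hmono c3 f3⟩

/-! ### Four lines -/

/-- Four pairwise coplanar lines of total rank five without a common element. -/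
structure Four (N : RF E) (L : Fin 4 → Finset E) : Prop where
  one : ∀ i, rk N (L i) = 2
  pair : ∀ i j, rk N (L i ∪ L j) ≤ 3
  tot : 5 ≤ rk N (univ.biUnion L)
  no : ∀ e, ¬ ∀ i, e ∈ sp N (L i)

section four

variable {L : Fin 4 → Finset E}

lemma Four.insert_le (h : Four N L) {S : Finset (Fin 4)} (hS : S.Nonempty) (i : Fin 4) :
    rk N ((insert i S).biUnion L) ≤ rk N (S.biUnion L) + 1 := by
  obtain ⟨j, hj⟩ := hS
  have h1 : L j ⊆ S.biUnion L := subset_biUnion_of_mem L hj
  have h2 := hl_union (N := N) (A := S.biUnion L) (B := L i) (C := L j)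
  have h3 : S.biUnion L ∪ L i ∪ L j = (insert i S).biUnion L := by
    rw [biUnion_insert, union_right_comm, union_eq_left.2 h1, union_comm]
  have h4 : S.biUnion L ∪ L j = S.biUnion L := union_eq_left.2 h1
  have h5 := h.pair i j
  have h6 := h.one j
  rw [h3, h4] at h2
  omega

lemma Four.rk_biUnion (h : Four N L) {S : Finset (Fin 4)} (hS : S.Nonempty) :
    rk N (S.biUnion L) = S.card + 1 := by
  have hle : ∀ T : Finset (Fin 4), rk N ((S ∪ T).biUnion L) ≤ rk N (S.biUnion L) + T.card := by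
    intro T
    induction T using Finset.induction_on with
    | empty => simp
    | insert a s ha ih =>
      rw [card_insert_of_notMem ha, union_insert]
      have := h.insert_le (hS.mono (subset_union_left (s₂ := s))) a
      omega
  have hup : ∀ T : Finset (Fin 4), T.Nonempty → rk N (T.biUnion L) ≤ T.card + 1 := by
    intro T hT
    induction hT using Finset.Nonempty.cons_induction with
    | singleton a =>
      rw [singleton_biUnion, h.one, card_singleton]
    | cons a s ha hs ih =>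
      rw [cons_eq_insert, card_insert_of_notMem ha]
      have := h.insert_le hs a
      omega
  have h1 := hup S hS
  have h2 := hle Sᶜ
  rw [union_compl] at h2
  have h3 := h.tot
  have h4 : S.card + Sᶜ.card = 4 := by
    rw [card_add_card_compl]; simp
  omega

/-- intersections of closures -/
lemma Four.cap (h : Four N L) {S T : Finset (Fin 4)} (hST : (S ∩ T).Nonempty) {x : E}
    (hS : x ∈ sp N (S.biUnion L)) (hT : x ∈ sp N (T.biUnion L)) :
    x ∈ sp N ((S ∩ T).biUnion L) := by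
  have h1 := hl_inter (N := N) (X := S.biUnion L) (Y := T.biUnion L)
    (L := insert x ((S ∩ T).biUnion L))
    (insert_subset (mem_cl.2 hS)
      ((biUnion_subset_biUnion_of_subset_left L inter_subset_left).trans subset_cl))
    (insert_subset (mem_cl.2 hT)
      ((biUnion_subset_biUnion_of_subset_left L inter_subset_right).trans subset_cl))
  have h2 := h.rk_biUnion (hST.mono inter_subset_left)
  have h3 := h.rk_biUnion (hST.mono inter_subset_right)
  have h4 := h.rk_biUnion hST
  have h5 := h.rk_biUnion (hST.mono inter_subset_union)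
  have h6 : S.biUnion L ∪ T.biUnion L = (S ∪ T).biUnion L := by
    ext e; simp only [mem_union, mem_biUnion]; aesop
  have h7 := card_union_add_card_inter S T
  have h8 := rk_mono (N := N) (subset_insert x ((S ∩ T).biUnion L))
  rw [h6] at h1
  rw [mem_sp_iff]
  omega

lemma Four.exists_notMem (h : Four N L) (x : E) :
    ∃ l, x ∉ sp N ((univ.erase l).biUnion L) := by
  by_contra hc
  push Not at hc
  apply h.no x
  intro i
  obtain ⟨a, b, c, h1, h2⟩ : ∃ a b c : Fin 4, (univ.erase a ∩ univ.erase b).Nonempty ∧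
      univ.erase a ∩ univ.erase b ∩ univ.erase c = {i} := by
    revert i
    decide
  have h3 := h.cap h1 (hc a) (hc b)
  have h4 := h.cap (by rw [h2]; exact singleton_nonempty i) h3 (hc c)
  rwa [h2, singleton_biUnion] at h4

/-- `{x, e}` is coplanar with the four lines -/
def Four.P (_ : Four N L) (x e : E) : Prop := e ≠ x ∧ ∀ i, rk N ({x, e} ∪ L i) ≤ 3

/-- coplanarity with three of the lines gives the fourth -/
lemma Four.fourth (h : Four N L) {M : Finset E} (hM : rk N M = 2) {i j k l : Fin 4}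
    (hij : i ≠ j) (hik : i ≠ k) (hjk : j ≠ k) (hil : i ≠ l) (hjl : j ≠ l) (hkl : k ≠ l)
    (h1 : rk N (M ∪ L i) ≤ 3) (h2 : rk N (M ∪ L j) ≤ 3) (h3 : rk N (M ∪ L k) ≤ 3) :
    rk N (M ∪ L l) ≤ 3 := by
  have hoi := h.one i
  have hoj := h.one j
  have hok := h.one k
  have hol := h.one l
  have r3 : ∀ {a b c : Fin 4}, a ≠ b → a ≠ c → b ≠ c → rk N (L a ∪ L b ∪ L c) = 4 := by
    intro a b c hab hac hbc
    have h4 := h.rk_biUnion (S := {a, b, c}) (by simp)
    rw [card_eq_three.2 ⟨a, b, c, hab, hac, hbc, rfl⟩] at h4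
    simpa [union_assoc] using h4
  have r2 : ∀ {a b : Fin 4}, a ≠ b → rk N (L a ∪ L b) = 3 := by
    intro a b hab
    have h4 := h.rk_biUnion (S := {a, b}) (by simp)
    rw [card_pair hab] at h4
    simpa using h4
  have r4 : rk N (L i ∪ L j ∪ L k ∪ L l) = 5 := by
    have h4 := h.rk_biUnion (S := {i, j, k, l}) (by simp)
    have h5 : ({i, j, k, l} : Finset (Fin 4)).card = 4 := by
      rw [card_insert_of_notMem (by simp [hij, hik, hil]),
        card_insert_of_notMem (by simp [hjk, hjl]), card_pair hkl]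
    rw [h5] at h4
    simpa [union_assoc] using h4
  by_contra hc
  push Not at hc
  -- `M` is inside the closure of `L l` and two of the others
  have key : ∀ {a b : Fin 4}, a ≠ b → a ≠ l → b ≠ l → rk N (M ∪ L a) ≤ 3 →
      rk N (M ∪ L b) ≤ 3 → M ⊆ cl N (L a ∪ L b ∪ L l) := by
    intro a b hab hal hbl ha hb
    have t1 := hl_union (N := N) (A := M) (B := L l) (C := L a)
    have t2 := hl_union (N := N) (A := M) (B := L l) (C := L b)
    have t3 := hl_union (N := N) (A := L a) (B := L b) (C := M ∪ L l)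
    have t4 : L a ∪ (M ∪ L l) = M ∪ L l ∪ L a := by
      ext e; simp only [mem_union]; tauto
    have t5 : L b ∪ (M ∪ L l) = M ∪ L l ∪ L b := by
      ext e; simp only [mem_union]; tauto
    have t6 := r2 hal
    have t7 := r2 hbl
    have t8 := r3 hab hal hbl
    have t9 := h.one a
    have t10 := h.one b
    rw [t4, t5] at t3
    rw [union_comm (L l)] at t1 t2
    have t11 : rk N (L a ∪ L b ∪ (M ∪ L l)) ≤ rk N (L a ∪ L b ∪ L l) := by omega
    intro e he
    rw [mem_cl]
    have t12 : sp N (L a ∪ L b ∪ L l) = sp N (L a ∪ L b ∪ (M ∪ L l)) := by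
      apply sp_eq_of_subset_of_rk_le _ t11
      exact union_subset_union_right subset_union_right
    rw [t12]
    exact mem_sp (mem_union_right _ (mem_union_left _ he))
  have k1 := key hij hil hjl h1 h2
  have k2 := key hik hil hkl h1 h3
  have k3 := key hjk hjl hkl h2 h3
  -- intersect
  have m1 := hl_inter (N := N) (X := L i ∪ L j ∪ L l) (Y := L i ∪ L k ∪ L l)
    (L := M ∪ (L i ∪ L l))
    (union_subset k1 ((union_subset_union_left subset_union_left).trans subset_cl))
    (union_subset k2 ((union_subset_union_left subset_union_left).trans subset_cl))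
  have m2 := hl_inter (N := N) (X := L i ∪ L j ∪ L l) (Y := L j ∪ L k ∪ L l)
    (L := M ∪ (L j ∪ L l))
    (union_subset k1 ((union_subset_union_left subset_union_right).trans subset_cl))
    (union_subset k3 ((union_subset_union_left subset_union_left).trans subset_cl))
  have q1 : L i ∪ L j ∪ L l ∪ (L i ∪ L k ∪ L l) = L i ∪ L j ∪ L k ∪ L l := by
    ext e; simp only [mem_union]; tauto
  have q2 : L i ∪ L j ∪ L l ∪ (L j ∪ L k ∪ L l) = L i ∪ L j ∪ L k ∪ L l := by
    ext e; simp only [mem_union]; tauto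
  rw [q1, r4, r3 hij hil hjl, r3 hik hil hkl] at m1
  rw [q2, r4, r3 hij hil hjl, r3 hjk hjl hkl] at m2
  have m3 := hl_inter (N := N) (X := M ∪ (L i ∪ L l)) (Y := M ∪ (L j ∪ L l)) (L := M ∪ L l)
    ((union_subset_union_right subset_union_right).trans subset_cl)
    ((union_subset_union_right subset_union_right).trans subset_cl)
  have m4 : rk N (L i ∪ L j ∪ L l) ≤ rk N (M ∪ (L i ∪ L l) ∪ (M ∪ (L j ∪ L l))) := by
    apply rk_mono
    intro e; simp only [mem_union]; tauto
  rw [r3 hij hil hjl] at m4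
  omega

lemma Four.exists_partner (h : Four N L) (hN : Simple N) (hs : ∀ x, SG N {x} univ) (x : E) :
    ∃ e, h.P x e := by
  have hdec : ∀ l : Fin 4, ∃ i j k : Fin 4, i ≠ j ∧ i ≠ k ∧ j ≠ k ∧
      i ≠ l ∧ j ≠ l ∧ k ≠ l ∧ univ.erase l = {i, j, k} ∧ ∀ m, m = i ∨ m = j ∨ m = k ∨ m = l := by
    decide
  obtain ⟨l, hl⟩ := h.exists_notMem x
  obtain ⟨i, j, k, hij, hik, hjk, hil, hjl, hkl, hu, hall⟩ := hdec l
  have r3 := h.rk_biUnion (S := {i, j, k}) (by simp)
  rw [card_eq_three.2 ⟨i, j, k, hij, hik, hjk, rfl⟩] at r3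
  have e3 : ({i, j, k} : Finset (Fin 4)).biUnion L = L i ∪ L j ∪ L k := by
    simp [union_assoc]
  rw [e3] at r3
  rw [hu, e3] at hl
  have r2 : ∀ {a b : Fin 4}, a ≠ b → rk N (L a ∪ L b) = 3 := by
    intro a b hab
    have h4 := h.rk_biUnion (S := {a, b}) (by simp)
    rw [card_pair hab] at h4
    simpa using h4
  have hoi := h.one i
  have hoj := h.one j
  have hok := h.one k
  obtain ⟨e, hne, he1, he2, he3⟩ := hl_outside hN hs (by rw [r2 hij]; omega)
    (by rw [r2 hik]; omega) (by rw [r2 hjk]; omega) (by rw [r3]; omega) hl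
  have hup : ∀ {X : Finset E}, e ∈ sp N (insert x X) → rk N ({x, e} ∪ X) ≤ rk N X + 1 := by
    intro X he
    have : ({x, e} : Finset E) ∪ X = insert e (insert x X) := by
      ext z; simp only [mem_union, mem_insert, mem_singleton]; tauto
    rw [this, rk_insert_of_mem_sp he]
    exact rk_insert_le
  have u1 := hup he1
  have u2 := hup he2
  have u3 := hup he3
  refine ⟨e, hne, fun m => ?_⟩
  rcases hall m with rfl | rfl | rfl | rfl
  · omega
  · omega
  · omega
  · exact h.fourth (hN.rk_pair hne.symm) hij hik hjk hil hjl hkl (by omega) (by omega) (by omega)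

/-- two `P`-pairs are coplanar -/
lemma Four.coplanar (h : Four N L) (hN : Simple N) {x e x' e' : E} (h1 : h.P x e)
    (h2 : h.P x' e') : rk N ({x, e} ∪ {x', e'}) ≤ 3 := by
  by_contra hc
  push Not at hc
  have r1 : rk N ({x, e} : Finset E) = 2 := hN.rk_pair h1.1.symm
  have r2 : rk N ({x', e'} : Finset E) = 2 := hN.rk_pair h2.1.symm
  have hu := rk_union_le (N := N) (X := {x, e}) (Y := {x', e'})
  have hin : ∀ i, L i ⊆ cl N ({x, e} ∪ {x', e'}) := by
    intro i
    have t1 := hl_union (N := N) (A := {x, e}) (B := {x', e'}) (C := L i)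
    have t2 := h1.2 i
    have t3 := h2.2 i
    have t4 := h.one i
    have t5 : sp N ({x, e} ∪ {x', e'}) = sp N ({x, e} ∪ {x', e'} ∪ L i) :=
      sp_eq_of_subset_of_rk_le subset_union_left (by omega)
    intro z hz
    rw [mem_cl, t5]
    exact mem_sp (mem_union_right _ hz)
  have h3 : univ.biUnion L ⊆ cl N ({x, e} ∪ {x', e'}) :=
    biUnion_subset.2 fun i _ => hin i
  have h4 := hl_mono_cl h3
  have h5 := h.tot
  omega

/-- partners of `x` are collinear with `x` -/
lemma Four.collinear (h : Four N L) (hN : Simple N) {x e e' : E} (h1 : h.P x e)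
    (h2 : h.P x e') : e' ∈ sp N {x, e} := by
  by_contra hc
  have r0 : rk N (insert e' {x, e}) = 3 := by
    rw [rk_insert_of_not_mem_sp hc, hN.rk_pair h1.1.symm]
  have ht : ∀ i, L i ⊆ cl N (insert e' {x, e}) ∨ x ∈ sp N (L i) := by
    intro i
    by_cases h3 : rk N (insert e' {x, e} ∪ L i) ≤ 3
    · left
      intro z hz
      have t5 : sp N (insert e' {x, e}) = sp N (insert e' {x, e} ∪ L i) :=
        sp_eq_of_subset_of_rk_le subset_union_left (by omega)
      rw [mem_cl, t5]
      exact mem_sp (mem_union_right _ hz)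
    · right
      have t1 := hl_inter (N := N) (X := {x, e} ∪ L i) (Y := {x, e'} ∪ L i)
        (L := insert x (L i))
        ((insert_subset (by simp) subset_union_right).trans subset_cl)
        ((insert_subset (by simp) subset_union_right).trans subset_cl)
      have t2 : ({x, e} : Finset E) ∪ L i ∪ ({x, e'} ∪ L i) = insert e' {x, e} ∪ L i := by
        ext z; simp only [mem_union, mem_insert, mem_singleton]; tauto
      have t3 := h1.2 i
      have t4 := h2.2 i
      have t5 := h.one i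
      have t6 := rk_mono (N := N) (subset_insert x (L i))
      rw [t2] at t1
      rw [mem_sp_iff]
      omega
  -- `x` is in at most one closure
  have hx1 : ∀ {i j : Fin 4}, i ≠ j → ¬ (x ∈ sp N (L i) ∧ x ∈ sp N (L j)) := by
    rintro i j hij ⟨hi, hj⟩
    apply h.no x
    intro m
    by_cases hm1 : m = i
    · rw [hm1]; exact hi
    by_cases hm2 : m = j
    · rw [hm2]; exact hj
    have t1 := h.cap (S := {m, i}) (T := {m, j}) (x := x) ⟨m, by simp⟩
      (sp_mono (by simp) hi) (sp_mono (by simp) hj)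
    have t2 : ({m, i} : Finset (Fin 4)) ∩ {m, j} = {m} := by
      ext z
      simp only [mem_inter, mem_insert, mem_singleton]
      constructor
      · rintro ⟨rfl | rfl, h | h⟩
        · rfl
        · rfl
        · exact h
        · exact absurd h hij
      · rintro rfl
        exact ⟨Or.inl rfl, Or.inl rfl⟩
    rwa [t2, singleton_biUnion] at t1
  -- at most two lines are inside a plane
  have hx2 : ∀ {i j k : Fin 4}, i ≠ j → i ≠ k → j ≠ k → ¬ (L i ⊆ cl N (insert e' {x, e}) ∧
      L j ⊆ cl N (insert e' {x, e}) ∧ L k ⊆ cl N (insert e' {x, e})) := by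
    rintro i j k hij hik hjk ⟨hi, hj, hk⟩
    have h4 := h.rk_biUnion (S := {i, j, k}) (by simp)
    rw [card_eq_three.2 ⟨i, j, k, hij, hik, hjk, rfl⟩] at h4
    have h5 : ({i, j, k} : Finset (Fin 4)).biUnion L ⊆ cl N (insert e' {x, e}) := by
      rw [biUnion_subset]
      intro m hm
      simp only [mem_insert, mem_singleton] at hm
      rcases hm with rfl | rfl | rfl
      · exact hi
      · exact hj
      · exact hk
    have h6 := hl_mono_cl h5
    omega
  have a01 : ¬ (x ∈ sp N (L 0) ∧ x ∈ sp N (L 1)) := hx1 (by decide)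
  have a02 : ¬ (x ∈ sp N (L 0) ∧ x ∈ sp N (L 2)) := hx1 (by decide)
  have a03 : ¬ (x ∈ sp N (L 0) ∧ x ∈ sp N (L 3)) := hx1 (by decide)
  have a12 : ¬ (x ∈ sp N (L 1) ∧ x ∈ sp N (L 2)) := hx1 (by decide)
  have a13 : ¬ (x ∈ sp N (L 1) ∧ x ∈ sp N (L 3)) := hx1 (by decide)
  have a23 : ¬ (x ∈ sp N (L 2) ∧ x ∈ sp N (L 3)) := hx1 (by decide)
  have b0 := hx2 (i := 1) (j := 2) (k := 3) (by decide) (by decide) (by decide)
  have b1 := hx2 (i := 0) (j := 2) (k := 3) (by decide) (by decide) (by decide)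
  have b2 := hx2 (i := 0) (j := 1) (k := 3) (by decide) (by decide) (by decide)
  have b3 := hx2 (i := 0) (j := 1) (k := 2) (by decide) (by decide) (by decide)
  have c0 := ht 0
  have c1 := ht 1
  have c2 := ht 2
  have c3 := ht 3
  rcases c0 with c0 | c0
  · rcases c1 with c1 | c1
    · rcases c2 with c2 | c2
      · exact b3 ⟨c0, c1, c2⟩
      · rcases c3 with c3 | c3
        · exact b2 ⟨c0, c1, c3⟩
        · exact a23 ⟨c2, c3⟩
    · rcases c2 with c2 | c2
      · rcases c3 with c3 | c3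
        · exact b1 ⟨c0, c2, c3⟩
        · exact a13 ⟨c1, c3⟩
      · exact a12 ⟨c1, c2⟩
  · rcases c1 with c1 | c1
    · rcases c2 with c2 | c2
      · rcases c3 with c3 | c3
        · exact b0 ⟨c1, c2, c3⟩
        · exact a03 ⟨c0, c3⟩
      · exact a02 ⟨c0, c2⟩
    · exact a01 ⟨c0, c1⟩

lemma Four.symm (h : Four N L) {x e : E} (h1 : h.P x e) : h.P e x := by
  refine ⟨h1.1.symm, fun i => ?_⟩
  rw [pair_comm]
  exact h1.2 i

lemma Four.of_mem (h : Four N L) {x e y : E} (h1 : h.P x e) (hy : y ∈ sp N {x, e})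
    (hne : y ≠ x) : h.P x y := by
  refine ⟨hne, fun i => ?_⟩
  have h2 : rk N ({x, y} ∪ L i) ≤ rk N (insert y ({x, e} ∪ L i)) := by
    apply rk_mono
    intro z; simp only [mem_union, mem_insert, mem_singleton]; tauto
  rw [rk_insert_of_mem_sp (sp_mono subset_union_left hy)] at h2
  exact h2.trans (h1.2 i)

lemma Four.trans (h : Four N L) (hN : Simple N) {x y z : E} (h1 : h.P x y) (h2 : h.P y z)
    (hne : x ≠ z) : h.P x z := by
  have h3 : z ∈ sp N {y, x} := h.collinear hN (h.symm h1) h2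
  rw [pair_comm] at h3
  exact h.of_mem h1 h3 hne.symm

/-- collinearity classes -/
def Four.setoid (h : Four N L) (hN : Simple N) : Setoid E where
  r x y := x = y ∨ h.P x y
  iseqv :=
    { refl := fun _ => Or.inl rfl
      symm := by
        rintro x y (h1 | h1)
        · exact Or.inl h1.symm
        · exact Or.inr (h.symm h1)
      trans := by
        rintro x y z (h1 | h1) (h2 | h2)
        · exact Or.inl (h1.trans h2)
        · subst h1; exact Or.inr h2
        · subst h2; exact Or.inr h1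
        · by_cases hxz : x = z
          · exact Or.inl hxz
          · exact Or.inr (h.trans hN h1 h2 hxz) }

theorem Four.legs (h : Four N L) (hN : Simple N) (hs : ∀ x, SG N {x} univ) :
    ∃ (n : ℕ) (leg : E → Fin n), Legs N leg := by
  classical
  letI st := h.setoid hN
  letI : Fintype (Quotient st) := Fintype.ofSurjective (Quotient.mk st) Quotient.mk_surjective
  let φ := Fintype.equivFin (Quotient st)
  let leg : E → Fin (Fintype.card (Quotient st)) := fun e => φ (Quotient.mk st e)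
  have hleg : ∀ {x y : E}, leg x = leg y ↔ (x = y ∨ h.P x y) := by
    intro x y
    constructor
    · intro h1
      exact Quotient.exact (φ.injective h1)
    · intro h1
      exact congrArg φ (Quotient.sound (s := st) h1)
  -- the leg of `x` is the line of `x` and a partner
  have hline : ∀ {x e : E}, h.P x e → LS leg {leg x} = cl N {x, e} := by
    intro x e hxe
    ext y
    rw [mem_LS, mem_singleton, mem_cl, hleg]
    constructor
    · rintro (rfl | h1)
      · exact mem_sp (by simp)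
      · exact h.collinear hN hxe (h.symm h1)
    · intro h1
      by_cases hyx : y = x
      · exact Or.inl hyx
      · exact Or.inr (h.symm (h.of_mem hxe h1 hyx))
  have hsurj : ∀ i, ∃ e, leg e = i := by
    intro i
    obtain ⟨e, he⟩ := Quotient.mk_surjective (s := st) (φ.symm i)
    refine ⟨e, ?_⟩
    change φ (Quotient.mk st e) = i
    rw [he, Equiv.apply_symm_apply]
  refine ⟨Fintype.card (Quotient st), leg, ?_, hsurj, ?_, ?_, ?_, hN⟩
  · intro e
    obtain ⟨f, hf⟩ := h.exists_partner hN hs e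
    exact ⟨f, hf.1, (hleg.2 (Or.inr hf)).symm⟩
  · intro i
    obtain ⟨x, rfl⟩ := hsurj i
    obtain ⟨f, hf⟩ := h.exists_partner hN hs x
    rw [hline hf, rk_cl, hN.rk_pair hf.1.symm]
  · intro i
    obtain ⟨x, rfl⟩ := hsurj i
    obtain ⟨f, hf⟩ := h.exists_partner hN hs x
    rw [hline hf]
    exact isFl_cl
  · intro i j
    obtain ⟨x, rfl⟩ := hsurj i
    obtain ⟨y, rfl⟩ := hsurj j
    obtain ⟨f, hf⟩ := h.exists_partner hN hs x
    obtain ⟨g, hg⟩ := h.exists_partner hN hs y
    rw [LS_insert, hline hf, hline hg, rk_union_cl_left, rk_union_cl_right]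
    exact h.coplanar hN hf hg

end four

/-- Theorem L. -/
theorem legs_of_hole (hN : Simple N) (hs : ∀ x, SG N {x} univ) (h5 : 5 ≤ rk N univ)
    {X1 X2 X3 : Finset E} (h : Hole N X1 X2 X3) :
    ∃ (n : ℕ) (leg : E → Fin n), Legs N leg := by
  obtain ⟨L1, L2, L3, hL, k1, k2, k3⟩ := h.lines hN hs
  obtain ⟨r1, r2, r3, r12, r13, r23, r123, no⟩ := hL
  obtain ⟨x, hx⟩ : ∃ x, x ∉ sp N (L1 ∪ L2 ∪ L3) := by
    by_contra hc
    push Not at hc
    have h1 : (univ : Finset E) ⊆ cl N (L1 ∪ L2 ∪ L3) := fun e _ => mem_cl.2 (hc e)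
    have h2 := hl_mono_cl h1
    omega
  obtain ⟨e, hne, he1, he2, he3⟩ := hl_outside hN hs r12 r13 r23 r123 hx
  have hup : ∀ {X : Finset E}, e ∈ sp N (insert x X) → rk N ({x, e} ∪ X) ≤ rk N X + 1 := by
    intro X he
    have : ({x, e} : Finset E) ∪ X = insert e (insert x X) := by
      ext z; simp only [mem_union, mem_insert, mem_singleton]; tauto
    rw [this, rk_insert_of_mem_sp he]
    exact rk_insert_le
  have u1 := hup he1
  have u2 := hup he2
  have u3 := hup he3
  have hp : ∀ i j : Fin 4, i < j →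
      rk N ((![L1, L2, L3, {x, e}] : Fin 4 → Finset E) i ∪ ![L1, L2, L3, {x, e}] j) ≤ 3 := by
    intro i j hij
    fin_cases i <;> fin_cases j <;> first | (exact absurd hij (by decide)) | skip
    · change rk N (L1 ∪ L2) ≤ 3; omega
    · change rk N (L1 ∪ L3) ≤ 3; omega
    · change rk N (L1 ∪ {x, e}) ≤ 3; rw [union_comm]; omega
    · change rk N (L2 ∪ L3) ≤ 3; omega
    · change rk N (L2 ∪ {x, e}) ≤ 3; rw [union_comm]; omega
    · change rk N (L3 ∪ {x, e}) ≤ 3; rw [union_comm]; omega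
  have ho : ∀ i : Fin 4, rk N ((![L1, L2, L3, {x, e}] : Fin 4 → Finset E) i) = 2 := by
    intro i
    fin_cases i
    · exact k1
    · exact k2
    · exact k3
    · exact hN.rk_pair hne.symm
  have hF : Four N (![L1, L2, L3, {x, e}] : Fin 4 → Finset E) := by
    refine ⟨ho, ?_, ?_, ?_⟩
    · intro i j
      rcases lt_trichotomy i j with hij | rfl | hij
      · exact hp i j hij
      · rw [union_self, ho]; omega
      · rw [union_comm]; exact hp j i hij
    · have h1 := rk_insert_of_not_mem_sp hx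
      have h2 : rk N (insert x (L1 ∪ L2 ∪ L3)) ≤
          rk N (univ.biUnion (![L1, L2, L3, {x, e}] : Fin 4 → Finset E)) := by
        apply rk_mono
        intro z hz
        rw [mem_biUnion]
        simp only [mem_insert, mem_union] at hz
        rcases hz with rfl | (hz | hz) | hz
        · exact ⟨3, mem_univ _, by simp⟩
        · exact ⟨0, mem_univ _, hz⟩
        · exact ⟨1, mem_univ _, hz⟩
        · exact ⟨2, mem_univ _, hz⟩
      omega
    · intro z hz
      exact no z ⟨hz 0, hz 1, hz 2⟩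
  exact hF.legs hN hs

end Ca3.Ab
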