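import Pool.Agent.Lib.MP_ca3eb1_co.AbLegs

/-! # Ranks of sets of elements and of sets of legs -/

set_option linter.unusedSectionVars false

namespace Ca3.Ab

open Finset

variable {E : Type*} [DecidableEq E] [Fintype E] {N : RF E} {n : ℕ} {leg : E → Fin n}

theorem subset_LS_image (X : Finset E) : X ⊆ LS leg (X.image leg) :=
  fun _ he => mem_LS.2 (mem_image_of_mem _ he)

/-- the rank of a set of elements is the rank of its legs, or one more -/
theorem Legs.rk_image_le (h : Legs N leg) (X : Finset E) :
    rk h.Q (X.image leg) ≤ rk N X ∧ rk N X ≤ rk h.Q (X.image leg) + 1 := by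
  constructor
  · induction X using Finset.induction_on with
    | empty => simp
    | insert e X he ih =>
      rw [image_insert]
      by_cases hs : e ∈ sp N X
      · rcases X.eq_empty_or_nonempty with rfl | hX
        · exact absurd (h.simple.isFl_empty.mem hs) (notMem_empty _)
        · have h1 : leg e ∈ sp h.Q (X.image leg) :=
            (h.mem_sp_Q (hX.image leg)).2 (sp_mono (subset_LS_image X) hs)
          rw [rk_insert_of_mem_sp h1, rk_insert_of_mem_sp hs]
          exact ih
      · have h1 : rk h.Q (insert (leg e) (X.image leg)) ≤ rk h.Q (X.image leg) + 1 :=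
          Ca3.Ab.rk_insert_le
        rw [rk_insert_of_not_mem_sp hs]
        omega
  · rcases X.eq_empty_or_nonempty with rfl | hX
    · simp
    · rw [h.rk_Q (hX.image leg)]
      exact rk_mono (subset_LS_image X)

/-- if two elements of a leg are in the closure, then so are all elements of the legs of the
set -/
theorem Legs.LS_image_mem_sp (h : Legs N leg) {X : Finset E} {e f : E} (hef : e ≠ f)
    (hl : leg e = leg f) (he : e ∈ sp N X) (hf : f ∈ sp N X) :
    ∀ g ∈ LS leg (X.image leg), g ∈ sp N X := by
  -- the leg of `e`
  have h1 : ∀ g ∈ LS leg {leg e}, g ∈ sp N X := by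
    intro g hg
    have h2 : sp N ({e, f} : Finset E) = sp N (LS leg {leg e}) := by
      apply sp_eq_of_subset_of_rk_le
      · intro x hx
        rcases mem_insert.1 hx with rfl | hx
        · simp
        · rw [mem_singleton] at hx
          subst hx
          simp [hl]
      · rw [h.rk_leg, h.simple.rk_pair hef]
    have h3 : g ∈ sp N ({e, f} : Finset E) := by
      rw [h2]
      exact mem_sp hg
    refine mem_sp_trans ?_ h3
    intro x hx
    rcases mem_insert.1 hx with rfl | hx
    · exact he
    · rw [mem_singleton] at hx
      subst hx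
      exact hf
  intro g hg
  obtain ⟨x, hx, hxg⟩ := mem_image.1 (mem_LS.1 hg)
  by_cases hxe : leg x = leg e
  · exact h1 g (mem_LS.2 (mem_singleton.2 (hxg ▸ hxe)))
  · have h2 : rk N (insert x (LS leg {leg e})) = 3 := by
      rw [rk_insert_of_not_mem_sp, h.rk_leg]
      intro h3
      have h4 := (h.flat (leg e)).mem h3
      rw [mem_LS, mem_singleton] at h4
      exact hxe h4
    have h3 : sp N (insert x (LS leg {leg e})) = sp N (LS leg {leg x, leg e}) := by
      apply sp_eq_of_subset_of_rk_le
      · intro y hy
        rcases mem_insert.1 hy with rfl | hy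
        · simp
        · rw [mem_LS, mem_singleton] at hy
          simp [hy]
      · rw [h2]
        exact h.coplanar _ _
    have h4 : g ∈ sp N (insert x (LS leg {leg e})) := by
      rw [h3]
      exact mem_sp (by simp [← hxg])
    refine mem_sp_trans ?_ h4
    intro y hy
    rcases mem_insert.1 hy with rfl | hy
    · exact mem_sp hx
    · exact h1 y hy

/-- if two elements of a leg are in the closure, so are all elements of the legs in the
closure of the legs -/
theorem Legs.mem_sp_of_two (h : Legs N leg) {X : Finset E} {e f : E} (hef : e ≠ f)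
    (hl : leg e = leg f) (he : e ∈ sp N X) (hf : f ∈ sp N X) {g : E}
    (hg : leg g ∈ sp h.Q (X.image leg)) : g ∈ sp N X := by
  rcases X.eq_empty_or_nonempty with rfl | hX
  · exact absurd (h.simple.isFl_empty.mem he) (notMem_empty _)
  · exact mem_sp_trans (h.LS_image_mem_sp hef hl he hf) ((h.mem_sp_Q (hX.image leg)).1 hg)

theorem Legs.rk_of_two (h : Legs N leg) {X : Finset E} {e f : E} (hef : e ≠ f)
    (hl : leg e = leg f) (he : e ∈ sp N X) (hf : f ∈ sp N X) :
    rk N X = rk h.Q (X.image leg) + 1 := by
  rcases X.eq_empty_or_nonempty with rfl | hX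
  · exact absurd (h.simple.isFl_empty.mem he) (notMem_empty _)
  · rw [h.rk_Q (hX.image leg)]
    exact le_antisymm (rk_mono (subset_LS_image X))
      (rk_le_of_sp_le (sp_le_iff.2 (h.LS_image_mem_sp hef hl he hf)))

/-- conversely, if the rank is one more than the rank of the legs then the closure contains
the legs -/
theorem Legs.mem_sp_of_rk (h : Legs N leg) {X : Finset E}
    (hr : rk N X = rk h.Q (X.image leg) + 1) {g : E}
    (hg : leg g ∈ sp h.Q (X.image leg)) : g ∈ sp N X := by
  rcases X.eq_empty_or_nonempty with rfl | hX
  · simp at hr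
  · rw [h.rk_Q (hX.image leg)] at hr
    have h1 : sp N X = sp N (LS leg (X.image leg)) :=
      sp_eq_of_subset_of_rk_le (subset_LS_image X) hr.ge
    rw [h1]
    exact (h.mem_sp_Q (hX.image leg)).1 hg

/-- a transversal of an independent set of legs is independent -/
theorem Legs.ind_image (h : Legs N leg) {z : Fin n → E} (hz : ∀ i, leg (z i) = i)
    {U : Finset (Fin n)} (hU : Ind h.Q U) : Ind N (U.image z) := by
  have h1 : (U.image z).image leg = U := by
    rw [image_image]
    have : leg ∘ z = id := funext hz
    rw [this, image_id]
  have h2 := (h.rk_image_le (U.image z)).1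
  rw [h1, hU.rk_eq_card] at h2
  have h3 : rk N (U.image z) ≤ (U.image z).card := rk_le_card
  have h4 : (U.image z).card ≤ U.card := card_image_le
  unfold Ind
  omega

/-- fundamental circuits: `i ∈ sp Q X` iff the support of `i` is inside `X` -/
theorem mem_sp_iff_supp {Q : RF (Fin n)} {B X : Finset (Fin n)} (hB : Ind Q B) {i : Fin n}
    (hi : i ∈ sp Q B) (hX : X ⊆ B) :
    i ∈ sp Q X ↔ ∀ u ∈ B, i ∉ sp Q (B.erase u) → u ∈ X := by
  constructor
  · intro h u hu hn
    by_contra hc
    refine hn (sp_mono ?_ h)
    intro x hx
    exact mem_erase.2 ⟨fun hxu => hc (hxu ▸ hx), hX hx⟩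
  · intro h
    have key : ∀ T : Finset (Fin n), T ⊆ B \ X → i ∈ sp Q (B \ T) := by
      intro T
      induction T using Finset.induction_on with
      | empty =>
        intro _
        rw [sdiff_empty]
        exact hi
      | insert u T hu ih =>
        intro hT
        have h1 := ih ((subset_insert _ _).trans hT)
        have h2 := mem_sdiff.1 (hT (mem_insert_self _ _))
        have h3 : i ∈ sp Q (B.erase u) := by
          by_contra hc
          exact h2.2 (h u h2.1 hc)
        by_contra hc
        have h4 : B \ T = insert u (B \ insert u T) := by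
          ext x
          simp only [mem_sdiff, mem_insert]
          constructor
          · rintro ⟨hxB, hxT⟩
            by_cases hxu : x = u
            · exact Or.inl hxu
            · refine Or.inr ⟨hxB, ?_⟩
              rintro (hx | hx)
              · exact hxu hx
              · exact hxT hx
          · rintro (rfl | ⟨hxB, hx⟩)
            · exact ⟨h2.1, hu⟩
            · exact ⟨hxB, fun hxT => hx (Or.inr hxT)⟩
        rw [h4] at h1
        have h5 := mem_sp_insert_exchange h1 hc
        refine hB.not_mem_sp_erase h2.1 (mem_sp_trans ?_ h5)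
        intro x hx
        rcases mem_insert.1 hx with rfl | hx
        · exact h3
        · apply mem_sp
          rw [mem_sdiff, mem_insert, not_or] at hx
          exact mem_erase.2 ⟨hx.2.1, hx.1⟩
    have := key (B \ X) subset_rfl
    rwa [Finset.sdiff_sdiff_eq_self hX] at this

end Ca3.Ab
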