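import Pool.Agent.Lib.MP_ca3eb1_co.Basic

/-! # Ring data: legs and circuits of legs -/

namespace Ca3

open Finset

/-- Legs of size 2, 3, 4 and disjoint circuits (at least three legs of size 2 each). -/
structure IsRingData {E : Type*} [Fintype E] [DecidableEq E] {n : ℕ} (leg : E → Fin n)
    (C : Finset (Finset (Fin n))) : Prop where
  three_le : ∀ c ∈ C, 3 ≤ c.card
  disj : ∀ c ∈ C, ∀ d ∈ C, c ≠ d → Disjoint c d
  two_le_leg : ∀ i, 2 ≤ (univ.filter (fun e => leg e = i)).card
  leg_le_four : ∀ i, (univ.filter (fun e => leg e = i)).card ≤ 4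
  leg_eq_two : ∀ c ∈ C, ∀ i ∈ c, (univ.filter (fun e => leg e = i)).card = 2

/-- `|I| - #legs(I) + #{circuits inside legs(I)} ≤ 1`. -/
def ExcLe {E : Type*} {n : ℕ} (leg : E → Fin n) (C : Finset (Finset (Fin n)))
    (I : Finset E) : Prop :=
  I.card + (C.filter (fun c => c ⊆ I.image leg)).card ≤ (I.image leg).card + 1

end Ca3
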