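import Pool.Agent.Lib.MP_ca3eb1_co.AbStructureCore
import Pool.Agent.Lib.MP_ca3eb1_co.Ring

/-! # The excess rule (abstract legs) -/

set_option linter.unusedSectionVars false

namespace Ca3.Ab

open Finset

variable {E : Type*} [DecidableEq E] [Fintype E] {N : RF E} {n : ℕ} {leg : E → Fin n}

open Classical in
/-- the circuits of legs -/
noncomputable def circs (Q : RF (Fin n)) (B : Finset (Fin n)) : Finset (Finset (Fin n)) :=
  (univ \ B).image (fun h => insert h (supp Q B h))

private lemma rr_mem_sp_supp {Q : RF (Fin n)} {B : Finset (Fin n)} (hB : Ind Q B)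
    (hBs : ∀ i, i ∈ sp Q B) (h : Fin n) : h ∈ sp Q (supp Q B h) := by
  classical
  refine (mem_sp_iff_supp (X := supp Q B h) hB (hBs h) (filter_subset _ _)).2 ?_
  intro u hu h'
  exact mem_filter.2 ⟨hu, h'⟩

/-- the rank of a set of legs -/
theorem leg_rank {Q : RF (Fin n)} {B : Finset (Fin n)} (hB : Ind Q B)
    (hBs : ∀ i, i ∈ sp Q B) (hne : ∀ h, h ∉ B → (supp Q B h).Nonempty)
    (hd : ∀ h, h ∉ B → ∀ h', h' ∉ B → h ≠ h' → Disjoint (supp Q B h) (supp Q B h'))
    (S : Finset (Fin n)) :
    rk Q S + ((circs Q B).filter (fun c => c ⊆ S)).card = S.card := by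
  classical
  set H1 : Finset (Fin n) := (S \ B).filter (fun h => supp Q B h ⊆ S) with hH1
  set H2 : Finset (Fin n) := (S \ B).filter (fun h => ¬ supp Q B h ⊆ S) with hH2
  have hcard : (S ∩ B).card + (H1.card + H2.card) = S.card := by
    rw [hH1, hH2, card_filter_add_card_filter_not, card_inter_add_card_sdiff]
  have hsB : ∀ h, supp Q B h ⊆ B := fun h => filter_subset _ _
  -- the number of circuits
  have hcirc : ((circs Q B).filter (fun c => c ⊆ S)).card = H1.card := by
    symm
    apply card_bij (fun h _ => insert h (supp Q B h))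
    · intro h hh
      simp only [hH1, mem_filter, mem_sdiff] at hh
      rw [mem_filter, circs, mem_image]
      exact ⟨⟨h, mem_sdiff.2 ⟨mem_univ _, hh.1.2⟩, rfl⟩, insert_subset hh.1.1 hh.2⟩
    · intro h hh h' hh' he
      simp only [hH1, mem_filter, mem_sdiff] at hh hh'
      have : h ∈ insert h' (supp Q B h') := by rw [← he]; exact mem_insert_self _ _
      rcases mem_insert.1 this with h1 | h1
      · exact h1
      · exact absurd (hsB h' h1) hh.1.2
    · intro c hc
      rw [mem_filter, circs, mem_image] at hc
      obtain ⟨⟨h, hhB, rfl⟩, hcS⟩ := hc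
      refine ⟨h, ?_, rfl⟩
      simp only [hH1, mem_filter, mem_sdiff]
      exact ⟨⟨hcS (mem_insert_self _ _), (mem_sdiff.1 hhB).2⟩, (subset_insert _ _).trans hcS⟩
  -- upper bound
  have hup : rk Q S ≤ (S ∩ B).card + H2.card := by
    have h1 : rk Q S ≤ rk Q ((S ∩ B) ∪ H2) := by
      apply rk_le_of_sp_le
      rw [sp_le_iff]
      intro u hu
      by_cases huB : u ∈ B
      · exact mem_sp (mem_union_left _ (mem_inter.2 ⟨hu, huB⟩))
      by_cases hs : supp Q B u ⊆ S
      · exact mem_sp_of_subset ((subset_inter hs (hsB u)).trans subset_union_left)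
          (rr_mem_sp_supp hB hBs u)
      · exact mem_sp (mem_union_right _ (mem_filter.2 ⟨mem_sdiff.2 ⟨hu, huB⟩, hs⟩))
    have h2 := rk_le_card (N := Q) (X := (S ∩ B) ∪ H2)
    have h3 := card_union_le (S ∩ B) H2
    omega
  -- lower bound
  have hlow : (S ∩ B).card + H2.card ≤ rk Q S := by
    have hex : ∀ h : Fin n, h ∈ H2 → ∃ w, w ∈ supp Q B h ∧ w ∉ S := by
      intro h hh
      simp only [hH2, mem_filter, mem_sdiff] at hh
      obtain ⟨w, hw, hwS⟩ := not_subset.1 hh.2
      exact ⟨w, hw, hwS⟩
    choose! w hws hwS using hex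
    have hH2B : ∀ h ∈ H2, h ∉ B := by
      intro h hh
      simp only [hH2, mem_filter, mem_sdiff] at hh
      exact hh.1.2
    have hH2S : ∀ h ∈ H2, h ∈ S := by
      intro h hh
      simp only [hH2, mem_filter, mem_sdiff] at hh
      exact hh.1.1
    have hinj : ∀ h ∈ H2, ∀ h' ∈ H2, w h' ∈ supp Q B h → h = h' := by
      intro h hh h' hh' he
      by_contra hne'
      exact (disjoint_left.1 (hd h (hH2B h hh) h' (hH2B h' hh') hne') he) (hws h' hh')
    have himg : (H2.image w).card = H2.card := by
      apply card_image_of_injOn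
      intro h hh h' hh' he
      have hh : h ∈ H2 := by simpa using hh
      have hh' : h' ∈ H2 := by simpa using hh'
      exact hinj h hh h' hh' (he ▸ hws h hh)
    have hsub : H2.image w ⊆ B \ S := by
      intro x hx
      obtain ⟨h, hh, rfl⟩ := mem_image.1 hx
      exact mem_sdiff.2 ⟨hsB h (hws h hh), hwS h hh⟩
    set T : Finset (Fin n) := (B \ S) \ H2.image w with hT
    have hTc : T.card + H2.card + (S ∩ B).card = B.card := by
      have h1 := card_sdiff_add_card_eq_card hsub
      have h2 := card_inter_add_card_sdiff B S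
      rw [himg, ← hT] at h1
      rw [inter_comm] at h2
      omega
    have hle : rk Q B ≤ rk Q (S ∪ T) := by
      apply rk_le_of_sp_le
      rw [sp_le_iff]
      intro u hu
      by_cases huS : u ∈ S
      · exact mem_sp (mem_union_left _ huS)
      by_cases huW : u ∈ H2.image w
      · obtain ⟨h, hh, rfl⟩ := mem_image.1 huW
        have hwm := hws h hh
        have e1 : h ∈ sp Q (insert (w h) ((supp Q B h).erase (w h))) := by
          rw [insert_erase hwm]
          exact rr_mem_sp_supp hB hBs h
        have e2 : h ∉ sp Q ((supp Q B h).erase (w h)) := fun h' =>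
          (mem_filter.1 hwm).2 (mem_sp_of_subset (erase_subset_erase _ (hsB h)) h')
        refine mem_sp_of_subset ?_ (mem_sp_insert_exchange e1 e2)
        intro x hx
        rcases mem_insert.1 hx with rfl | hx
        · exact mem_union_left _ (hH2S x hh)
        · rw [mem_erase] at hx
          by_cases hxS : x ∈ S
          · exact mem_union_left _ hxS
          · refine mem_union_right _ ?_
            rw [hT, mem_sdiff, mem_sdiff]
            refine ⟨⟨hsB h hx.2, hxS⟩, fun hxi => ?_⟩
            obtain ⟨h', hh', rfl⟩ := mem_image.1 hxi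
            have := hinj h hh h' hh' hx.2
            subst this
            exact hx.1 rfl
      · refine mem_sp (mem_union_right _ ?_)
        rw [hT, mem_sdiff, mem_sdiff]
        exact ⟨⟨hu, huS⟩, huW⟩
    have h3 := rk_union_le (N := Q) (X := S) (Y := T)
    have h4 := rk_le_card (N := Q) (X := T)
    have h5 : rk Q B = B.card := hB
    omega
  omega

/-- The excess rule. -/
theorem ring_rule (hN : Simple N) (hl : Legs N leg) {C : Finset (Finset (Fin n))}
    (hC : ∀ S, rk hl.Q S + (C.filter (fun c => c ⊆ S)).card = S.card)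
    (h3 : ∀ c ∈ C, ∀ z : Fin n → E, (∀ i, leg (z i) = i) → Ind N (c.image z))
    (I : Finset E) : Ind N I ↔ ExcLe leg C I := by
  classical
  have hS := hC (I.image leg)
  have hle := hl.rk_image_le I
  have hSI : (I.image leg).card ≤ I.card := card_image_le
  have hrk : rk N I ≤ I.card := rk_le_card
  unfold ExcLe Ind
  constructor
  · intro h
    omega
  · intro h
    by_contra hc
    -- then the rank of `I` is the rank of the legs, and `|I|` is one more
    have e1 : rk N I = rk hl.Q (I.image leg) := by omega
    have e2 : I.card = rk hl.Q (I.image leg) + 1 := by omega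
    by_cases hinj : Set.InjOn leg (I : Set E)
    · have hcI : (I.image leg).card = I.card := card_image_of_injOn hinj
      have hpos : 0 < (C.filter (fun c => c ⊆ I.image leg)).card := by omega
      obtain ⟨c, hc'⟩ := card_pos.1 hpos
      rw [mem_filter] at hc'
      -- the transversal
      have hz : ∀ u : Fin n, ∃ e, leg e = u ∧ (u ∈ I.image leg → e ∈ I) := by
        intro u
        by_cases hu : u ∈ I.image leg
        · obtain ⟨e, he, rfl⟩ := mem_image.1 hu
          exact ⟨e, rfl, fun _ => he⟩
        · obtain ⟨e, he⟩ := hl.surj u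
          exact ⟨e, he, fun h => absurd h hu⟩
      choose z hz1 hz2 using hz
      have h6 := h3 c hc'.1 z hz1
      have hzi : Function.Injective z := fun a b hab => by rw [← hz1 a, ← hz1 b, hab]
      have hX : (c.image z).image leg = c := by
        ext i
        simp only [mem_image]
        constructor
        · rintro ⟨e, ⟨j, hj, rfl⟩, rfl⟩
          rwa [hz1]
        · intro hi
          exact ⟨z i, ⟨i, hi, rfl⟩, hz1 i⟩
      have hcc : (c.image z).card = c.card := card_image_of_injective _ hzi
      have h7 : rk N (c.image z) = c.card := by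
        rw [← hcc]
        exact h6
      have h8 := hC c
      have h9 : 0 < (C.filter (fun d => d ⊆ c)).card :=
        card_pos.2 ⟨c, mem_filter.2 ⟨hc'.1, Subset.refl _⟩⟩
      have h10 := hl.rk_image_le (c.image z)
      rw [hX] at h10
      have h11 : rk N (c.image z) = rk hl.Q ((c.image z).image leg) + 1 := by
        rw [hX]
        omega
      have hsubI : c.image z ⊆ I := by
        intro e he
        obtain ⟨i, hi, rfl⟩ := mem_image.1 he
        exact hz2 i (hc'.2 hi)
      obtain ⟨i, hi⟩ : c.Nonempty := by
        rw [← card_pos]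
        omega
      obtain ⟨f, hfne, hf⟩ := hl.two (z i)
      have hfs : f ∈ sp N (c.image z) := by
        apply hl.mem_sp_of_rk h11
        rw [hX, hf, hz1]
        exact mem_sp hi
      have hzs : z i ∈ sp N (c.image z) := mem_sp (mem_image_of_mem _ hi)
      have h12 := hl.rk_of_two (X := I) hfne hf (mem_sp_of_subset hsubI hfs)
        (mem_sp_of_subset hsubI hzs)
      omega
    · -- two elements on the same leg
      unfold Set.InjOn at hinj
      push Not at hinj
      obtain ⟨e, he, f, hf, hef, hne⟩ := hinj
      have he : e ∈ I := by simpa using he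
      have hf : f ∈ I := by simpa using hf
      have h12 := hl.rk_of_two (X := I) hne hef (mem_sp he) (mem_sp hf)
      omega

end Ca3.Ab
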