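import Pool.Agent.Lib.MP_ca3eb1_co.AbExistsHole
import Pool.Agent.Lib.MP_ca3eb1_co.AbHoleLegs
import Pool.Agent.Lib.MP_ca3eb1_co.AbRingRule
import Pool.Agent.Lib.MP_ca3eb1_co.AbLegLib

/-! # Case (i): all contractions quaternary strict gammoids, `N` not a strict gammoid -/

set_option linter.unusedSectionVars false

namespace Ca3.Ab

open Finset

variable {K E : Type*} [Field K] [Fintype K] [DecidableEq E] [Fintype E] {N : RF E}

theorem ring_structure (hK : Fintype.card K = 4) (hN : Simple N) (hq : RepC K N)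
    (hs : ∀ x, SG N {x} univ) (h5 : 5 ≤ rk N univ) {n : ℕ} {leg : E → Fin n}
    (hl : Legs N leg) : ∃ C : Finset (Finset (Fin n)), IsRingData leg C ∧
      ∀ I, Ind N I ↔ ExcLe leg C I := by
  classical
  obtain ⟨B, -, hB, hsp⟩ := exists_basis (N := hl.Q) (univ : Finset (Fin n))
  have hBs : ∀ i, i ∈ sp hl.Q B := by
    intro i
    rw [hsp]
    exact mem_sp (mem_univ i)
  have hLS : ∀ i, LS leg {i} = univ.filter (fun e => leg e = i) := by
    intro i
    ext e
    simp [LS]
  have hBc : B.card + 1 = rk N univ := by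
    have h1 : rk hl.Q B = B.card := hB
    have h2 : rk hl.Q B = rk hl.Q univ := rk_congr hsp
    have h3 : rk hl.Q (univ : Finset (Fin n)) = rk N univ - 1 := by
      change rk N (LS leg univ) - 1 = _
      rw [LS_univ]
    omega
  obtain ⟨c1, c2, c3, c4, c5⟩ := structure_core hK hN hq hs h5 hl hB hBc
  have hCmem : ∀ c, c ∈ circs hl.Q B ↔ ∃ h, h ∉ B ∧ insert h (supp hl.Q B h) = c := by
    intro c
    simp only [circs, mem_image, mem_sdiff, mem_univ, true_and]
  have hsB : ∀ h, supp hl.Q B h ⊆ B := fun h => filter_subset _ _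
  refine ⟨circs hl.Q B, ⟨?_, ?_, ?_, ?_, ?_⟩, ?_⟩
  · -- at least three legs
    intro c hc
    obtain ⟨h, hh, rfl⟩ := (hCmem c).1 hc
    have hns : h ∉ supp hl.Q B h := fun h' => hh (hsB h h')
    rw [card_insert_of_notMem hns]
    have := c1 h hh
    omega
  · -- disjointness
    intro c hc d hd hcd
    obtain ⟨h, hh, rfl⟩ := (hCmem c).1 hc
    obtain ⟨h', hh', rfl⟩ := (hCmem d).1 hd
    have hne : h ≠ h' := fun h0 => hcd (by rw [h0])
    rw [Finset.disjoint_left]
    intro u hu hu'
    rcases mem_insert.1 hu with rfl | hu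
    · rcases mem_insert.1 hu' with h0 | hu'
      · exact hne h0
      · exact hh (hsB _ hu')
    · rcases mem_insert.1 hu' with rfl | hu'
      · exact hh' (hsB _ hu)
      · exact Finset.disjoint_left.1 (c2 h hh h' hh' hne) hu hu'
  · -- at least two elements
    intro i
    obtain ⟨e, rfl⟩ := hl.surj i
    obtain ⟨f, hf1, hf2⟩ := hl.two e
    have h7 : ({e, f} : Finset E) ⊆ univ.filter (fun e' => leg e' = leg e) := by
      intro x hx
      rcases mem_insert.1 hx with rfl | hx
      · exact mem_filter.2 ⟨mem_univ _, rfl⟩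
      · rw [mem_singleton.1 hx]
        exact mem_filter.2 ⟨mem_univ _, hf2⟩
    have h8 := card_le_card h7
    rw [card_pair hf1.symm] at h8
    exact h8
  · -- at most four elements
    intro i
    have := leg_card_le_four hK hN hq (by omega) hl i
    rwa [hLS] at this
  · -- legs of circuits
    intro c hc i hi
    obtain ⟨h, hh, rfl⟩ := (hCmem c).1 hc
    rw [← hLS]
    rcases mem_insert.1 hi with rfl | hi
    · exact c3 i hh
    · exact c4 h hh i hi
  · -- the rule
    intro I
    refine ring_rule hN hl (leg_rank hB hBs ?_ c2) ?_ I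
    · intro h hh
      have := c1 h hh
      exact card_pos.1 (by omega)
    · intro c hc z hz
      obtain ⟨h, hh, rfl⟩ := (hCmem c).1 hc
      have h1 : Ind N (insert (z h) (B.image z)) := (hl.ind_image hz hB).insert (c5 h hh z hz)
      refine h1.subset ?_
      rw [image_insert]
      exact insert_subset_insert _ (image_subset_image (hsB h))

theorem case_one (hK : Fintype.card K = 4) (hN : Simple N) (hq : RepC K N)
    (h5 : 5 ≤ rk N univ) (hs : ∀ x, SG N {x} univ) (hn : ¬ SG N ∅ univ) :
    ∃ (n : ℕ) (leg : E → Fin n) (C : Finset (Finset (Fin n))), IsRingData leg C ∧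
      ∀ I, Ind N I ↔ ExcLe leg C I := by
  obtain ⟨X1, X2, X3, h⟩ := exists_hole hK hN hq h5 hs hn
  obtain ⟨n, leg, hl⟩ := legs_of_hole hN hs h5 h
  obtain ⟨C, h1, h2⟩ := ring_structure hK hN hq hs h5 hl
  exact ⟨n, leg, C, h1, h2⟩

end Ca3.Ab
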