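import Pool.Agent.Lib.MP_ca3eb1_co.Basic

/-! # Reps: contraction of `Y` as a simple configuration in the quotient space

Module M2a.  `R` is a set of representatives of the parallel classes of `N / Y` restricted to `T`;
`qc K v Y R : R → V ⧸ sp K v Y` is the simple configuration. -/

set_option linter.unusedSectionVars false

namespace Ca3

open Finset Submodule

variable (K : Type*) {V E : Type*} [Field K] [AddCommGroup V] [Module K V] [FiniteDimensional K V]
  [Fintype E] [DecidableEq E]

/-- `R` is a set of representatives of the parallel classes of `N / Y` restricted to `T`. -/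
structure IsReps (v : E → V) (Y T R : Finset E) : Prop where
  sub : R ⊆ T
  not_mem : ∀ r ∈ R, v r ∉ sp K v Y
  ex : ∀ e ∈ T, v e ∉ sp K v Y → ∃ r ∈ R, v r ∈ sp K v (insert e Y)
  uniq : ∀ r ∈ R, ∀ s ∈ R, v r ∈ sp K v (insert s Y) → r = s

/-- The configuration `R → V ⧸ sp K v Y`. -/
def qc (v : E → V) (Y R : Finset E) : R → V ⧸ sp K v Y := fun r => (sp K v Y).mkQ (v r)

/-- The trace of a set on `R`. -/
def tr (R F : Finset E) : Finset R := univ.filter (fun r => (r : E) ∈ F)

/-- The members of a family contained in `T` with rank at least two over `Y`. -/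
def BigIdx {ι : Type*} (v : E → V) (Y T : Finset E) (A : ι → Finset E) : Type _ :=
  {i : ι // A i ⊆ T ∧ rk K v Y + 2 ≤ rk K v (A i ∪ Y)}

noncomputable instance {ι : Type*} [Fintype ι] (v : E → V) (Y T : Finset E) (A : ι → Finset E) :
    Fintype (BigIdx K v Y T A) := by
  classical
  unfold BigIdx
  infer_instance

variable {K} {v : E → V} {Y T R F Z : Finset E}

/-- the span of the quotient configuration -/
lemma sp_qc (Z : Finset R) : sp K (qc K v Y R) Z =
    (sp K v (Z.map (Function.Embedding.subtype _))).map (sp K v Y).mkQ := by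
  have h1 : sp K (qc K v Y R) Z = span K (qc K v Y R '' (Z : Set R)) := rfl
  have h2 : sp K v (Z.map (Function.Embedding.subtype _)) =
    span K (v '' ((Z.map (Function.Embedding.subtype _) : Finset E) : Set E)) := rfl
  rw [h1, h2, map_span]
  congr 1
  ext x
  constructor
  · rintro ⟨r, hr, rfl⟩
    exact ⟨v r, ⟨r, by simpa using hr, rfl⟩, rfl⟩
  · rintro ⟨_, ⟨e, he, rfl⟩, rfl⟩
    rw [coe_map] at he
    obtain ⟨r, hr, rfl⟩ := he
    exact ⟨r, hr, rfl⟩

/-- membership of a class in a span of the quotient space -/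
lemma mkQ_mem_map {x : V} {X : Finset E} :
    (sp K v Y).mkQ x ∈ (sp K v X).map (sp K v Y).mkQ ↔ x ∈ sp K v (X ∪ Y) := by
  rw [← Submodule.mem_comap, Submodule.comap_map_mkQ, sp_union, sup_comm]

/-- an element is in the span of a representative of its class -/
lemma IsReps.exists_mem (h : IsReps K v Y T R) {e : E} (he : e ∈ T) (he' : v e ∉ sp K v Y) :
    ∃ r ∈ R, v r ∈ sp K v (insert e Y) ∧ v e ∈ sp K v (insert r Y) := by
  obtain ⟨r, hr, h1⟩ := h.ex e he he'
  exact ⟨r, hr, h1, mem_sp_insert_exchange h1 (h.not_mem r hr)⟩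

lemma sp_tr (h : IsReps K v Y T R) (hF : IsFl K v F) (hYF : Y ⊆ F) (hFT : F ⊆ T) :
    sp K v ((tr R F).map (Function.Embedding.subtype _) ∪ Y) = sp K v F := by
  have hsub : (tr R F).map (Function.Embedding.subtype _) ⊆ F := by
    intro e he
    simp only [tr, mem_map, mem_filter, mem_univ, true_and] at he
    obtain ⟨r, hr, rfl⟩ := he
    exact hr
  apply le_antisymm (sp_mono (union_subset hsub hYF))
  rw [sp_le_iff]
  intro e he
  by_cases h0 : v e ∈ sp K v Y
  · exact sp_mono subset_union_right h0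
  obtain ⟨r, hr, h1, h2⟩ := h.exists_mem (hFT he) h0
  have hrF : r ∈ F := hF.mem (sp_mono (insert_subset he hYF) h1)
  refine sp_mono (insert_subset ?_ subset_union_right) h2
  apply mem_union_left
  rw [mem_map]
  exact ⟨⟨r, hr⟩, by simp [tr, hrF], rfl⟩

/-- a partial system of representatives extends -/
theorem exists_reps {R₀ : Finset E} (h0 : R₀ ⊆ T) (h1 : ∀ r ∈ R₀, v r ∉ sp K v Y)
    (h2 : ∀ r ∈ R₀, ∀ s ∈ R₀, v r ∈ sp K v (insert s Y) → r = s) :
    ∃ R, R₀ ⊆ R ∧ IsReps K v Y T R := by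
  classical
  obtain ⟨R, hR⟩ := ((T.powerset.filter (fun R => R₀ ⊆ R ∧ (∀ r ∈ R, v r ∉ sp K v Y) ∧
    ∀ r ∈ R, ∀ s ∈ R, v r ∈ sp K v (insert s Y) → r = s))).exists_max_image card
    ⟨R₀, by simp only [mem_filter, mem_powerset]; exact ⟨h0, Subset.refl _, h1, h2⟩⟩
  simp only [mem_filter, mem_powerset] at hR
  obtain ⟨⟨hRT, hR₀, hR1, hR2⟩, hmax⟩ := hR
  refine ⟨R, hR₀, hRT, hR1, fun e he he' => ?_, hR2⟩
  by_contra hc
  push Not at hc
  have heR : e ∉ R := fun h' => hc e h' (mem_sp (mem_insert_self _ _))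
  have := hmax (insert e R) ⟨insert_subset he hRT, hR₀.trans (subset_insert _ _), ?_, ?_⟩
  · rw [card_insert_of_notMem heR] at this
    omega
  · intro r hr
    rcases mem_insert.1 hr with rfl | hr
    · exact he'
    · exact hR1 r hr
  · intro r hr s hs hrs
    rcases mem_insert.1 hr with hr' | hr' <;> rcases mem_insert.1 hs with hs' | hs'
    · rw [hr', hs']
    · subst hr'
      exact absurd (mem_sp_insert_exchange hrs he') (hc s hs')
    · subst hs'
      exact absurd hrs (hc r hr')
    · exact hR2 r hr' s hs' hrs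

theorem qc_simple (h : IsReps K v Y T R) : Simple K (qc K v Y R) := by
  constructor
  · intro r hr
    apply h.not_mem r r.2
    simpa [qc] using hr
  · intro r s hrs
    have h1 : (sp K v Y).mkQ (v r) ∈ (sp K v {(s : E)}).map (sp K v Y).mkQ := by
      rw [sp_singleton, map_span, Set.image_singleton]
      exact hrs
    rw [mkQ_mem_map] at h1
    have h2 := h.uniq r r.2 s s.2 (by rwa [insert_eq])
    exact Subtype.ext h2

theorem mem_sp_qc {Z : Finset R} {r : R} :
    qc K v Y R r ∈ sp K (qc K v Y R) Z ↔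
      v r ∈ sp K v (Z.map (Function.Embedding.subtype _) ∪ Y) := by
  rw [sp_qc]
  exact mkQ_mem_map

theorem rk_qc (Z : Finset R) :
    rk K (qc K v Y R) Z + rk K v Y = rk K v (Z.map (Function.Embedding.subtype _) ∪ Y) := by
  induction Z using Finset.induction_on with
  | empty => simp
  | insert r Z hr ih =>
    rw [map_insert, insert_union]
    by_cases h : qc K v Y R r ∈ sp K (qc K v Y R) Z
    · rw [rk_insert_of_mem_sp h, ih]
      exact (rk_insert_of_mem_sp (mem_sp_qc.1 h)).symm
    · have h' : v (r : E) ∉ sp K v (Z.map (Function.Embedding.subtype _) ∪ Y) :=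
        fun h' => h (mem_sp_qc.2 h')
      have h2 := rk_insert_of_not_mem_sp h'
      rw [rk_insert_of_not_mem_sp h]
      have h3 : (Function.Embedding.subtype fun x => x ∈ R) r = (r : E) := rfl
      rw [h3, h2]
      omega

theorem rk_tr (h : IsReps K v Y T R) (hF : IsFl K v F) (hYF : Y ⊆ F) (hFT : F ⊆ T) :
    rk K (qc K v Y R) (tr R F) + rk K v Y = rk K v F := by
  rw [rk_qc]
  exact rk_congr (sp_tr h hF hYF hFT)

theorem rk_qc_univ (h : IsReps K v Y T R) (hYT : Y ⊆ T) :
    rk K (qc K v Y R) univ + rk K v Y = rk K v T := by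
  rw [rk_qc]
  apply rk_congr
  rw [univ_eq_attach, attach_map_val]
  apply le_antisymm (sp_mono (union_subset h.sub hYT))
  rw [sp_le_iff]
  intro e he
  by_cases h0 : v e ∈ sp K v Y
  · exact sp_mono subset_union_right h0
  obtain ⟨r, hr, h1, h2⟩ := h.exists_mem he h0
  exact sp_mono (insert_subset (mem_union_left _ hr) subset_union_right) h2

theorem isFl_tr (h : IsReps K v Y T R) (hF : IsFl K v F) (hYF : Y ⊆ F) (hFT : F ⊆ T) :
    IsFl K (qc K v Y R) (tr R F) := by
  apply subset_antisymm _ subset_cl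
  intro r hr
  rw [mem_cl, mem_sp_qc, sp_tr h hF hYF hFT] at hr
  simpa [tr] using hF.mem hr

theorem tr_inj {F' : Finset E} (h : IsReps K v Y T R) (hF : IsFl K v F) (hYF : Y ⊆ F)
    (hFT : F ⊆ T) (hF' : IsFl K v F') (hYF' : Y ⊆ F') (hFT' : F' ⊆ T)
    (he : tr R F = tr R F') : F = F' := by
  have h1 : sp K v F = sp K v F' := by
    rw [← sp_tr h hF hYF hFT, ← sp_tr h hF' hYF' hFT', he]
  ext e
  rw [hF.mem_iff, hF'.mem_iff, h1]

/-- Every flat of the quotient configuration is a trace. -/
theorem exists_flat_tr (h : IsReps K v Y T R) (hT : IsFl K v T) (hYT : Y ⊆ T) {Z : Finset R}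
    (hZ : IsFl K (qc K v Y R) Z) :
    ∃ F, IsFl K v F ∧ Y ⊆ F ∧ F ⊆ T ∧ tr R F = Z := by
  refine ⟨cl K v (Z.map (Function.Embedding.subtype _) ∪ Y), isFl_cl,
    subset_union_right.trans subset_cl, hT.cl_subset (union_subset ?_ hYT), ?_⟩
  · intro e he
    rw [mem_map] at he
    obtain ⟨r, -, rfl⟩ := he
    exact h.sub r.2
  · ext r
    rw [hZ.mem_iff, mem_sp_qc]
    simp only [tr, mem_filter, mem_univ, true_and, mem_cl]

end Ca3
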