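import Pool.Agent.Lib.MP_ca3eb1_co.ThmTDefs

/-! # The three-colour lemma: base in rank three

`w` represents the same matroid as `v`, and `u` is a vector placed freely on the line through
`a` and `b`.  Then in `v` not all three colours occur. -/

set_option linter.unusedSectionVars false

namespace Ca3

open Finset Submodule

section t3basic

variable {K V : Type*} [Field K] [AddCommGroup V] [Module K V]

private lemma t3_symm {p q : V} (hp : p ≠ 0) (h : p ∈ span K {q}) : q ∈ span K {p} := by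
  rw [mem_span_singleton] at h ⊢
  obtain ⟨c, rfl⟩ := h
  have hc : c ≠ 0 := by rintro rfl; simp at hp
  exact ⟨c⁻¹, by rw [smul_smul, inv_mul_cancel₀ hc, one_smul]⟩

private lemma t3_trans {p q : V} {S : Submodule K V} (h : p ∈ span K {q}) (h' : q ∈ S) :
    p ∈ S := by
  rw [mem_span_singleton] at h
  obtain ⟨c, rfl⟩ := h
  exact S.smul_mem c h'

private lemma t3_two [Fintype K] (hK : Fintype.card K = 4) : (2 : K) = 0 := by
  have h : ((Fintype.card K : ℕ) : K) = 0 := FiniteField.cast_card_eq_zero K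
  rw [hK] at h
  have h2 : (2 : K) * 2 = 0 := by
    have : ((4 : ℕ) : K) = 2 * 2 := by norm_num
    rw [← this]; exact h
  rcases mul_eq_zero.1 h2 with h | h <;> exact h

private lemma t3_dbl (h2 : (2 : K) = 0) (x : V) : x + x = 0 := by
  rw [← two_smul K x, h2, zero_smul]

private lemma t3_eq (h2 : (2 : K) = 0) {x y : V} (h : x + y = 0) : x = y := by
  have : x + y + y = 0 + y := by rw [h]
  rwa [add_assoc, t3_dbl h2 y, add_zero, zero_add] at this

private lemma t3_fun {p : Submodule K V} {x : V} (hx : x ∉ p) :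
    ∃ f : V →ₗ[K] K, (∀ y ∈ p, f y = 0) ∧ f x ≠ 0 := by
  have h0 : p.mkQ x ≠ 0 := by
    rw [ne_eq, mkQ_apply, Quotient.mk_eq_zero]; exact hx
  obtain ⟨g, hg⟩ : ∃ g : (V ⧸ p) →ₗ[K] K, g (p.mkQ x) ≠ 0 := by
    by_contra hc
    push Not at hc
    exact h0 ((Module.forall_dual_apply_eq_zero_iff K _).1 hc)
  refine ⟨g.comp p.mkQ, fun y hy => ?_, hg⟩
  have : p.mkQ y = 0 := by rw [mkQ_apply, Quotient.mk_eq_zero]; exact hy
  rw [LinearMap.comp_apply, this, map_zero]

/-- Among four vectors in the span of `p` and `q`, not multiples of `p` or `q`, two are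
proportional (over a field with four elements). -/
private lemma t3_four [Fintype K] (hK : Fintype.card K = 4) {p q : V} {ι : Type*} [Fintype ι]
    (hι : 4 ≤ Fintype.card ι) (d : ι → V) (hd : ∀ i, d i ∈ span K {p, q})
    (hp : ∀ i, d i ∉ span K {p}) (hq : ∀ i, d i ∉ span K {q}) :
    ∃ i j, i ≠ j ∧ d i ∈ span K {d j} := by
  classical
  have h1 : ∀ i, ∃ α β : K, α • p + β • q = d i := fun i => mem_span_pair.1 (hd i)
  choose α β hαβ using h1
  have hα : ∀ i, α i ≠ 0 := by
    intro i h
    apply hq i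
    rw [← hαβ i, h, zero_smul, zero_add]
    exact smul_mem _ _ (mem_span_singleton_self _)
  have hβ : ∀ i, β i ≠ 0 := by
    intro i h
    apply hp i
    rw [← hαβ i, h, zero_smul, add_zero]
    exact smul_mem _ _ (mem_span_singleton_self _)
  let r : ι → {c : K // c ≠ 0} := fun i => ⟨β i / α i, div_ne_zero (hβ i) (hα i)⟩
  have hc : Fintype.card {c : K // c ≠ 0} < Fintype.card ι := by
    have : Fintype.card {c : K // c ≠ 0} = 3 := by
      rw [Fintype.card_subtype_compl, hK]
      simp
    omega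
  obtain ⟨i, j, hij, h⟩ := Fintype.exists_ne_map_eq_of_card_lt r hc
  refine ⟨i, j, hij, ?_⟩
  have h' : β i / α i = β j / α j := congrArg Subtype.val h
  rw [mem_span_singleton]
  refine ⟨α i / α j, ?_⟩
  rw [← hαβ i, ← hαβ j, smul_add, smul_smul, smul_smul, div_mul_cancel₀ _ (hα j)]
  congr 2
  have hj := hα j
  have hi := hα i
  field_simp at h' ⊢
  linear_combination -h'

end t3basic

/-- Normalised vectors off the line through `a` and `b`. -/
structure T3N (K : Type*) {V E : Type*} [Field K] [AddCommGroup V] [Module K V] [DecidableEq E]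
    (v : E → V) (a b : E) (n : E → V) : Prop where
  line : ∀ x y, v x ∉ sp K v {a, b} → v y ∉ sp K v {a, b} → n x + n y ∈ sp K v {a, b}
  mem : ∀ x Z, v x ∉ sp K v {a, b} → x ∈ Z → n x ∈ sp K v Z
  k1 : ∀ x y d, v x ∉ sp K v {a, b} → v y ∉ sp K v {a, b} → d ∈ sp K v {a, b} →
    d ∈ sp K v {x, y} → d ∈ span K {n x + n y}
  k2 : ∀ x y z, v x ∉ sp K v {a, b} → v y ∉ sp K v {a, b} → v z ∉ sp K v {a, b} →
    (v z ∈ sp K v {x, y} ↔ n x + n z ∈ span K {n x + n y})
  col : ∀ Z d, d ≠ 0 → d ∈ sp K v {a, b} → d ∈ sp K v Z →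
    (∃ e ∈ Z, v e ≠ 0 ∧ v e ∈ sp K v {a, b}) ∨
    ∃ x ∈ Z, ∃ y ∈ Z, v x ∉ sp K v {a, b} ∧ v y ∉ sp K v {a, b} ∧ n x + n y ≠ 0

section t3norm

variable {K V E : Type*} [Field K] [Fintype K] [AddCommGroup V] [Module K V]
  [FiniteDimensional K V] [Fintype E] [DecidableEq E] {v : E → V} {a b : E}

lemma t3_norm (h2 : (2 : K) = 0) (hab : rk K v {a, b} = 2) (h3 : rk K v univ = 3) :
    ∃ n, T3N K v a b n := by
  classical
  obtain ⟨e0, he0⟩ : ∃ e, v e ∉ sp K v {a, b} := by
    by_contra hc
    push Not at hc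
    have : rk K v univ ≤ rk K v {a, b} := rk_le_of_sp_le (sp_le_iff.2 fun e _ => hc e)
    omega
  obtain ⟨f, hf, hf0⟩ := t3_fun he0
  have hP : sp K v (insert e0 {a, b}) = sp K v univ := by
    refine sp_eq_of_subset_of_rk_le (subset_univ _) ?_
    rw [rk_insert_of_not_mem_sp he0, hab, h3]
  have hL : ∀ x ∈ sp K v univ, (f x = 0 ↔ x ∈ sp K v {a, b}) := by
    intro x hx
    refine ⟨fun h => ?_, hf x⟩
    rw [← hP, sp_insert, Submodule.mem_sup] at hx
    obtain ⟨y, hy, z, hz, rfl⟩ := hx
    rw [mem_span_singleton] at hy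
    obtain ⟨c, rfl⟩ := hy
    rw [map_add, hf z hz, add_zero, map_smul, smul_eq_mul, mul_eq_zero] at h
    rcases h with h | h
    · rw [h, zero_smul, zero_add]; exact hz
    · exact absurd h hf0
  have hoff : ∀ e, v e ∉ sp K v {a, b} → f (v e) ≠ 0 := fun e he h =>
    he ((hL _ (mem_sp (mem_univ e))).1 h)
  obtain ⟨n, hn⟩ : ∃ n : E → V, ∀ e, n e = (f (v e))⁻¹ • v e := ⟨_, fun _ => rfl⟩
  have hn1 : ∀ e, v e ∉ sp K v {a, b} → f (n e) = 1 := by
    intro e he
    rw [hn, map_smul, smul_eq_mul]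
    exact inv_mul_cancel₀ (hoff e he)
  have hn2 : ∀ e, v e ∉ sp K v {a, b} → v e = f (v e) • n e := by
    intro e he
    rw [hn, smul_smul, mul_inv_cancel₀ (hoff e he), one_smul]
  have hmem : ∀ x Z, x ∈ Z → n x ∈ sp K v Z := fun x Z hx => by
    rw [hn]; exact smul_mem _ _ (mem_sp hx)
  have hone : (1 : K) + 1 = 0 := by rw [one_add_one_eq_two]; exact h2
  refine ⟨n, ?_, fun x Z _ hx => hmem x Z hx, ?_, ?_, ?_⟩
  · intro x y hx hy
    refine (hL _ (add_mem (hmem x _ (mem_univ x)) (hmem y _ (mem_univ y)))).1 ?_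
    rw [map_add, hn1 x hx, hn1 y hy, hone]
  · intro x y d hx hy hd h
    rw [sp_pair, mem_span_pair] at h
    obtain ⟨α, β, rfl⟩ := h
    have hd0 := hf _ hd
    rw [hn2 x hx, hn2 y hy] at hd0 ⊢
    simp only [map_add, map_smul, smul_eq_mul, hn1 x hx, hn1 y hy, mul_one] at hd0 ⊢
    rw [mem_span_singleton]
    refine ⟨α * f (v x), ?_⟩
    have : β * f (v y) = α * f (v x) := by
      have := t3_eq h2 hd0
      exact this.symm
    rw [smul_smul, smul_smul, this, smul_add]
  · intro x y z hx hy hz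
    constructor
    · intro h
      rw [sp_pair, mem_span_pair] at h
      obtain ⟨α, β, h⟩ := h
      have h1 : n z = ((f (v z))⁻¹ * α * f (v x)) • n x + ((f (v z))⁻¹ * β * f (v y)) • n y := by
        rw [mul_smul, mul_smul, ← hn2 x hx, mul_smul, mul_smul, ← hn2 y hy, ← smul_add, h, hn z]
      set A := (f (v z))⁻¹ * α * f (v x) with hA
      set B := (f (v z))⁻¹ * β * f (v y) with hB
      have h3 : A + B = 1 := by
        have := congrArg f h1
        rw [map_add, map_smul, map_smul, hn1 x hx, hn1 y hy, hn1 z hz, smul_eq_mul, smul_eq_mul,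
          mul_one, mul_one] at this
        exact this.symm
      rw [mem_span_singleton]
      refine ⟨B, ?_⟩
      have h4 : (1 : K) + A = B := by linear_combination A * h2 - h3
      rw [h1, smul_add, ← add_assoc]
      congr 1
      rw [← h4, add_smul, one_smul]
    · intro h
      rw [mem_span_singleton] at h
      obtain ⟨c, h⟩ := h
      have h1 : n z = n x + c • (n x + n y) := by
        rw [h, ← add_assoc, t3_dbl h2, zero_add]
      have hx' : n x ∈ sp K v {x, y} := hmem x _ (by simp)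
      have hy' : n y ∈ sp K v {x, y} := hmem y _ (by simp)
      rw [hn2 z hz, h1]
      exact smul_mem _ _ (add_mem hx' (smul_mem _ _ (add_mem hx' hy')))
  · intro Z d hd0 hdL hdZ
    by_contra hc
    push Not at hc
    obtain ⟨hc1, hc2⟩ := hc
    by_cases hx : ∃ x ∈ Z, v x ∉ sp K v {a, b}
    · obtain ⟨x, hxZ, hx⟩ := hx
      have hle : sp K v Z ≤ span K {n x} := by
        rw [sp_le_iff]
        intro y hy
        by_cases hyL : v y ∈ sp K v {a, b}
        · have : v y = 0 := by
            by_contra h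
            exact hc1 y hy h hyL
          rw [this]; exact zero_mem _
        · have := t3_eq h2 (hc2 x hxZ y hy hx hyL)
          rw [hn2 y hyL, ← this]
          exact smul_mem _ _ (mem_span_singleton_self _)
      have hd := hle hdZ
      rw [mem_span_singleton] at hd
      obtain ⟨c, rfl⟩ := hd
      have := hf _ hdL
      rw [map_smul, hn1 x hx, smul_eq_mul, mul_one] at this
      rw [this, zero_smul] at hd0
      exact hd0 rfl
    · push Not at hx
      have hle : sp K v Z ≤ ⊥ := by
        rw [sp_le_iff]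
        intro y hy
        rw [mem_bot]
        by_contra h
        exact hc1 y hy h (hx y hy)
      exact hd0 ((mem_bot K).1 (hle hdZ))

end t3norm

/-- Two pairs of points which in `w` meet the line through `a`, `b` in the same point (with equal
normalised vectors), and in `v` in different points. -/
structure T3C (K : Type*) {V W E : Type*} [Field K] [AddCommGroup V] [Module K V]
    [AddCommGroup W] [Module K W] [DecidableEq E]
    (v : E → V) (a b : E) (n : E → V) (m : E → W) (x y z s : E) : Prop where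
  hx : v x ∉ sp K v {a, b}
  hy : v y ∉ sp K v {a, b}
  hz : v z ∉ sp K v {a, b}
  hs : v s ∉ sp K v {a, b}
  par : m x + m y = m z + m s
  ne : n x + n y ∉ span K {n z + n s}
  ne' : n z + n s ∉ span K {n x + n y}
  a1 : n x + n y ∉ span K {v a}
  b1 : n x + n y ∉ span K {v b}
  a2 : n z + n s ∉ span K {v a}
  b2 : n z + n s ∉ span K {v b}

section t3config

variable {K V W E : Type*} [Field K] [Fintype K] [AddCommGroup V] [Module K V]
  [AddCommGroup W] [Module K W] [DecidableEq E] {v : E → V} {w : E → W} {a b : E}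
  {n : E → V} {m : E → W} {x y z s : E}

lemma T3C.swap1 (C : T3C K v a b n m x y z s) : T3C K v a b n m y x z s := by
  obtain ⟨hx, hy, hz, hs, par, ne, ne', a1, b1, a2, b2⟩ := C
  rw [add_comm (n x)] at *
  rw [add_comm (m x)] at *
  exact ⟨hy, hx, hz, hs, par, ne, ne', a1, b1, a2, b2⟩

lemma T3C.swap2 (C : T3C K v a b n m x y z s) : T3C K v a b n m x y s z := by
  obtain ⟨hx, hy, hz, hs, par, ne, ne', a1, b1, a2, b2⟩ := C
  rw [add_comm (n z)] at *
  rw [add_comm (m z)] at *
  exact ⟨hx, hy, hs, hz, par, ne, ne', a1, b1, a2, b2⟩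

lemma T3C.swap3 (C : T3C K v a b n m x y z s) : T3C K v a b n m z s x y :=
  ⟨C.hz, C.hs, C.hx, C.hy, C.par.symm, C.ne', C.ne, C.a2, C.b2, C.a1, C.b1⟩

variable (h2 : (2 : K) = 0) (N : T3N K v a b n) (M : T3N K w a b m)
  (tr : ∀ e Z, v e ∈ sp K v Z ↔ w e ∈ sp K w Z)

include h2 N M tr

/-- Transfer of collinearity. -/
lemma t3_k2 (hx : v x ∉ sp K v {a, b}) (hy : v y ∉ sp K v {a, b}) (hz : v z ∉ sp K v {a, b}) :
    n x + n z ∈ span K {n x + n y} ↔ m x + m z ∈ span K {m x + m y} := by
  rw [← N.k2 x y z hx hy hz, ← M.k2 x y z (fun h => hx ((tr _ _).2 h)) (fun h => hy ((tr _ _).2 h))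
    (fun h => hz ((tr _ _).2 h))]
  exact tr z _

lemma T3C.nc (C : T3C K v a b n m x y z s) : n x + n z ∉ span K {n x + n y} := by
  intro h
  have h3 := (t3_k2 h2 N M tr C.hx C.hy C.hz).1 h
  have h4 : m x + m s ∈ span K {m x + m y} := by
    have : m x + m s = (m x + m y) + (m x + m z) := by
      rw [C.par]
      calc m x + m s = m x + m s + 0 := (add_zero _).symm
        _ = m x + m s + (m z + m z) := by rw [t3_dbl h2 (m z)]
        _ = m z + m s + (m x + m z) := by abel
    rw [this]
    exact add_mem (mem_span_singleton_self _) h3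
  have h5 := (t3_k2 h2 N M tr C.hx C.hy C.hs).2 h4
  apply C.ne'
  have : n z + n s = (n x + n z) + (n x + n s) := by
    calc n z + n s = n z + n s + 0 := (add_zero _).symm
      _ = n z + n s + (n x + n x) := by rw [t3_dbl h2 (n x)]
      _ = _ := by abel
  rw [this]
  exact add_mem h h5

/-- The second pairing. -/
lemma T3C.par2 (C : T3C K v a b n m x y z s) : m x + m z = m y + m s := by
  apply t3_eq h2
  calc m x + m z + (m y + m s) = (m x + m y) + (m z + m s) := by abel
    _ = 0 := by rw [C.par, t3_dbl h2]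

/-- An element of the line on one diagonal is on the opposite one. -/
lemma T3C.thr (C : T3C K v a b n m x y z s) {p : E} (hp : v p ∈ sp K v {a, b})
    (h : v p ∈ span K {n x + n z}) : v p ∈ span K {n y + n s} := by
  have hle : ∀ {Z : Finset E}, x ∈ Z → z ∈ Z → v p ∈ sp K v Z := fun {Z} h1 h3 =>
    t3_trans h (add_mem (N.mem x Z C.hx h1) (N.mem z Z C.hz h3))
  have h1 : w p ∈ sp K w {x, z} := (tr _ _).1 (hle (by simp) (by simp))
  have hwx : w x ∉ sp K w {a, b} := fun h => C.hx ((tr _ _).2 h)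
  have hwy : w y ∉ sp K w {a, b} := fun h => C.hy ((tr _ _).2 h)
  have hwz : w z ∉ sp K w {a, b} := fun h => C.hz ((tr _ _).2 h)
  have hws : w s ∉ sp K w {a, b} := fun h => C.hs ((tr _ _).2 h)
  have h3 := M.k1 x z (w p) hwx hwz ((tr _ _).1 hp) h1
  rw [C.par2 h2 N M tr] at h3
  have h4 : w p ∈ sp K w {y, s} :=
    t3_trans h3 (add_mem (M.mem y _ hwy (by simp)) (M.mem s _ hws (by simp)))
  exact N.k1 y s (v p) C.hy C.hs hp ((tr _ _).2 h4)

lemma T3C.nc2 (C : T3C K v a b n m x y z s) : n y + n s ∉ span K {n x + n y} := by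
  have := C.swap1.swap2.nc h2 N M tr
  rwa [add_comm (n y) (n x)] at this

lemma T3C.nc3 (C : T3C K v a b n m x y z s) : n x + n z ∉ span K {n z + n s} := by
  have := C.swap3.nc h2 N M tr
  rwa [add_comm (n z) (n x)] at this

lemma T3C.nc4 (C : T3C K v a b n m x y z s) : n y + n s ∉ span K {n z + n s} := by
  have := C.swap3.swap1.swap2.nc h2 N M tr
  rwa [add_comm (n s) (n y), add_comm (n s) (n z)] at this

lemma T3C.diag (hK : Fintype.card K = 4) (C : T3C K v a b n m x y z s)
    (hva : v a ≠ 0) (hvb : v b ≠ 0) : n x + n z ∈ span K {n y + n s} := by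
  have hB1 : n x + n z ≠ 0 := fun h => C.nc h2 N M tr (by rw [h]; exact zero_mem _)
  have hB2 : n y + n s ≠ 0 := fun h => C.nc2 h2 N M tr (by rw [h]; exact zero_mem _)
  have hA1 : n x + n y ≠ 0 := fun h => C.a1 (by rw [h]; exact zero_mem _)
  have hA2 : n z + n s ≠ 0 := fun h => C.a2 (by rw [h]; exact zero_mem _)
  have key : ∀ p : E, v p ∈ sp K v {a, b} → v p ≠ 0 → (n x + n z ∈ span K {v p} ∨
      n y + n s ∈ span K {v p}) → n x + n z ∈ span K {n y + n s} := by
    intro p hpL hp0 h
    rcases h with h | h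
    · exact t3_trans h (C.thr h2 N M tr hpL (t3_symm hB1 h))
    · have h1 := t3_symm hB2 h
      have h3 := C.swap1.swap2.thr h2 N M tr hpL h1
      exact t3_trans (t3_symm hp0 h3) h1
  have haL : v a ∈ sp K v {a, b} := mem_sp (by simp)
  have hbL : v b ∈ sp K v {a, b} := mem_sp (by simp)
  by_contra hcon
  obtain ⟨i, j, hij, h⟩ := t3_four hK (p := v a) (q := v b) (ι := Fin 4) (by simp)
    ![n x + n y, n z + n s, n x + n z, n y + n s]
    (by
      rw [← sp_pair (K := K)]
      intro i
      fin_cases i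
      · exact N.line x y C.hx C.hy
      · exact N.line z s C.hz C.hs
      · exact N.line x z C.hx C.hz
      · exact N.line y s C.hy C.hs)
    (by
      intro i
      fin_cases i
      · exact C.a1
      · exact C.a2
      · exact fun h => hcon (key a haL hva (Or.inl h))
      · exact fun h => hcon (key a haL hva (Or.inr h)))
    (by
      intro i
      fin_cases i
      · exact C.b1
      · exact C.b2
      · exact fun h => hcon (key b hbL hvb (Or.inl h))
      · exact fun h => hcon (key b hbL hvb (Or.inr h)))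
  fin_cases i <;> fin_cases j
  · exact hij rfl
  · exact C.ne h
  · exact C.nc h2 N M tr (t3_symm hA1 h)
  · exact C.nc2 h2 N M tr (t3_symm hA1 h)
  · exact C.ne' h
  · exact hij rfl
  · exact C.nc3 h2 N M tr (t3_symm hA2 h)
  · exact C.nc4 h2 N M tr (t3_symm hA2 h)
  · exact C.nc h2 N M tr h
  · exact C.nc3 h2 N M tr h
  · exact hij rfl
  · exact hcon h
  · exact C.nc2 h2 N M tr h
  · exact C.nc4 h2 N M tr h
  · exact hcon (t3_symm hB2 h)
  · exact hij rfl

lemma T3C.false (hK : Fintype.card K = 4) (C : T3C K v a b n m x y z s)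
    (hva : v a ≠ 0) (hvb : v b ≠ 0) : False := by
  have h1 := C.diag h2 N M tr hK hva hvb
  have h3 := C.swap2.diag h2 N M tr hK hva hvb
  rw [mem_span_singleton] at h1 h3
  obtain ⟨l, hl⟩ := h1
  obtain ⟨μ, hμ⟩ := h3
  -- `n y + n s` is not a multiple of `n y + n z`
  have hnc : n y + n s ∉ span K {n y + n z} := by
    intro h
    have hA2 : n z + n s ∈ span K {n y + n z} := by
      have : n z + n s = (n y + n z) + (n y + n s) := by
        calc n z + n s = n z + n s + 0 := (add_zero _).symm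
          _ = n z + n s + (n y + n y) := by rw [t3_dbl h2 (n y)]
          _ = _ := by abel
      rw [this]
      exact add_mem (mem_span_singleton_self _) h
    have hA0 : n z + n s ≠ 0 := fun h => C.a2 (by rw [h]; exact zero_mem _)
    have h4 := t3_symm hA0 hA2
    exact C.nc4 h2 N M tr (t3_trans h h4)
  have h4 : (l + 1) • (n y + n s) = (μ + 1) • (n y + n z) := by
    rw [add_smul, add_smul, one_smul, one_smul, hl, hμ]
    abel
  have hl1 : l + 1 = 0 := by
    by_contra h0
    apply hnc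
    rw [mem_span_singleton]
    refine ⟨(l + 1)⁻¹ * (μ + 1), ?_⟩
    rw [mul_smul, ← h4, smul_smul, inv_mul_cancel₀ h0, one_smul]
  have hl1' : l = 1 := t3_eq h2 hl1
  rw [hl1', one_smul] at hl
  apply C.ne
  have : n x + n y = n z + n s := by
    apply t3_eq h2
    calc n x + n y + (n z + n s) = (n x + n z) + (n y + n s) := by abel
      _ = 0 := by rw [← hl, t3_dbl h2]
  rw [this]
  exact mem_span_singleton_self _

end t3config

section t3lemmaA

variable {K V W E : Type*} [Field K] [Fintype K] [AddCommGroup V] [Module K V]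
  [AddCommGroup W] [Module K W] [DecidableEq E] {v : E → V} {w : E → W} {a b : E}
  {n : E → V} {m : E → W} {x y z s : E}

private lemma t3_phi {p q u t : W} {f : W →ₗ[K] K} (hu : u ∈ span K {p, q})
    (hup : u ∉ span K {p}) (hfu : f u = 0) (hfp : f p ≠ 0) (ht : t ∈ span K {p, q})
    (hft : f t = 0) : t ∈ span K {u} := by
  rw [mem_span_pair] at hu ht
  obtain ⟨α, β, rfl⟩ := hu
  obtain ⟨γ, δ, rfl⟩ := ht
  have hβ : β ≠ 0 := by
    rintro rfl
    apply hup
    rw [zero_smul, add_zero]
    exact smul_mem _ _ (mem_span_singleton_self _)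
  simp only [map_add, map_smul, smul_eq_mul] at hfu hft
  have h : γ = δ / β * α := by
    have h1 : (γ - δ / β * α) * f p = 0 := by
      field_simp
      linear_combination β * hft - δ * hfu
    rcases mul_eq_zero.1 h1 with h1 | h1
    · linear_combination h1
    · exact absurd h1 hfp
  rw [mem_span_singleton]
  refine ⟨δ / β, ?_⟩
  rw [smul_add, smul_smul, smul_smul, ← h, div_mul_cancel₀ _ hβ]

variable (h2 : (2 : K) = 0) (N : T3N K v a b n) (M : T3N K w a b m)
  (tr : ∀ e Z, v e ∈ sp K v Z ↔ w e ∈ sp K w Z)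

include h2 N M tr

lemma t3_meq (hx : v x ∉ sp K v {a, b}) (hy : v y ∉ sp K v {a, b}) (h : m x = m y) :
    n x = n y := by
  have h1 := (t3_k2 h2 N M tr hx hx hy).2 (by rw [h, t3_dbl h2]; exact zero_mem _)
  rw [t3_dbl h2 (n x), mem_span_singleton] at h1
  obtain ⟨c, hc⟩ := h1
  rw [smul_zero] at hc
  exact t3_eq h2 hc.symm

lemma t3_share (hx : v x ∉ sp K v {a, b}) (hy : v y ∉ sp K v {a, b}) (hz : v z ∉ sp K v {a, b})
    (hs : v s ∉ sp K v {a, b}) (h : m x = m z) (h' : m x + m y ∈ span K {m z + m s}) :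
    n x + n y ∈ span K {n z + n s} := by
  have h1 := t3_meq h2 N M tr hx hz h
  rw [← h] at h'
  rw [← h1]
  exact (t3_k2 h2 N M tr hx hs hy).2 h'

variable {u : W} (hu : ∀ Z, u ∈ sp K w Z ↔ v a ∈ sp K v Z ∧ v b ∈ sp K v Z)
  (hva : v a ≠ 0) (hvb : v b ≠ 0) (hab : v b ∉ span K {v a})

include hu hva hvb hab

lemma t3_upair (hx : v x ∉ sp K v {a, b}) (hy : v y ∉ sp K v {a, b}) :
    u ∉ span K {m x + m y} := by
  intro h
  have h1 : u ∈ sp K w {x, y} := t3_trans h (add_mem
    (M.mem x _ (fun h => hx ((tr _ _).2 h)) (by simp))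
    (M.mem y _ (fun h => hy ((tr _ _).2 h)) (by simp)))
  obtain ⟨h3, h4⟩ := (hu _).1 h1
  have h5 := N.k1 x y _ hx hy (mem_sp (by simp)) h3
  have h6 := N.k1 x y _ hx hy (mem_sp (by simp)) h4
  exact hab (t3_trans h6 (t3_symm hva h5))

lemma t3_uel (e : E) : u ∉ span K {w e} := by
  intro h
  rw [← sp_singleton (K := K)] at h
  obtain ⟨h3, h4⟩ := (hu _).1 h
  rw [sp_singleton] at h3 h4
  exact hab (t3_trans h4 (t3_symm hva h3))

lemma t3_u0 : u ≠ 0 := by
  intro h
  apply t3_uel h2 N M tr hu hva hvb hab a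
  rw [h]; exact zero_mem _

lemma t3_uL : u ∈ sp K w {a, b} := (hu _).2 ⟨mem_sp (by simp), mem_sp (by simp)⟩

lemma t3_lemmaA (hK : Fintype.card K = 4)
    (hx : v x ∉ sp K v {a, b}) (hy : v y ∉ sp K v {a, b}) (hz : v z ∉ sp K v {a, b})
    (hs : v s ∉ sp K v {a, b}) (ne : n x + n y ∉ span K {n z + n s})
    (ne' : n z + n s ∉ span K {n x + n y}) (a1 : n x + n y ∉ span K {v a})
    (b1 : n x + n y ∉ span K {v b}) (a2 : n z + n s ∉ span K {v a})
    (b2 : n z + n s ∉ span K {v b}) : m x + m y ∉ span K {m z + m s} := by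
  intro h
  have hxy : m x ≠ m y := by
    intro h
    apply a1
    rw [t3_meq h2 N M tr hx hy h, t3_dbl h2]; exact zero_mem _
  have hzs : m z ≠ m s := by
    intro h
    apply a2
    rw [t3_meq h2 N M tr hz hs h, t3_dbl h2]; exact zero_mem _
  have hxz : m x ≠ m z := fun h' => ne (t3_share h2 N M tr hx hy hz hs h' h)
  have hxs : m x ≠ m s := by
    intro h'
    rw [add_comm (m z)] at h
    rw [add_comm (n z)] at ne
    exact ne (t3_share h2 N M tr hx hy hs hz h' h)
  have hyz : m y ≠ m z := by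
    intro h'
    rw [add_comm (m x)] at h
    rw [add_comm (n x)] at ne
    exact ne (t3_share h2 N M tr hy hx hz hs h' h)
  have hys : m y ≠ m s := by
    intro h'
    rw [add_comm (m x), add_comm (m z)] at h
    rw [add_comm (n x), add_comm (n z)] at ne
    exact ne (t3_share h2 N M tr hy hx hs hz h' h)
  -- the functional
  have hwa : w a ∉ span K {u} := by
    intro h'
    have hwa0 : w a ≠ 0 := by
      intro h0
      have : w a ∈ sp K w ∅ := by rw [h0]; exact zero_mem _
      have := (tr a ∅).2 this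
      rw [sp_empty, mem_bot] at this
      exact hva this
    exact t3_uel h2 N M tr hu hva hvb hab a (t3_symm hwa0 h')
  obtain ⟨f, hf, hfa⟩ := t3_fun hwa
  have hfu : f u = 0 := hf u (mem_span_singleton_self _)
  have huL := t3_uL h2 N M tr hu hva hvb hab
  rw [sp_pair] at huL
  have hinj : ∀ p q, v p ∉ sp K v {a, b} → v q ∉ sp K v {a, b} → m p ≠ m q →
      f (m p) ≠ f (m q) := by
    intro p q hp hq hpq hfe
    have h0 : m p + m q ≠ 0 := fun h0 => hpq (t3_eq h2 h0)
    have h1 : f (m p + m q) = 0 := by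
      rw [map_add, hfe, t3_dbl h2]
    have hL : m p + m q ∈ sp K w {a, b} :=
      M.line p q (fun h => hp ((tr _ _).2 h)) (fun h => hq ((tr _ _).2 h))
    rw [sp_pair] at hL
    have h3 := t3_phi huL (t3_uel h2 N M tr hu hva hvb hab a) hfu hfa hL h1
    exact t3_upair h2 N M tr hu hva hvb hab hp hq (t3_symm h0 h3)
  -- the four values are all the elements of the field
  have hsum : f (m x) + f (m y) + f (m z) + f (m s) = 0 := by
    let g : Fin 4 → K := ![f (m x), f (m y), f (m z), f (m s)]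
    have hg : Function.Injective g := by
      intro i j hij
      fin_cases i <;> fin_cases j
      · rfl
      · exact absurd hij (hinj x y hx hy hxy)
      · exact absurd hij (hinj x z hx hz hxz)
      · exact absurd hij (hinj x s hx hs hxs)
      · exact absurd hij (hinj x y hx hy hxy).symm
      · rfl
      · exact absurd hij (hinj y z hy hz hyz)
      · exact absurd hij (hinj y s hy hs hys)
      · exact absurd hij (hinj x z hx hz hxz).symm
      · exact absurd hij (hinj y z hy hz hyz).symm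
      · rfl
      · exact absurd hij (hinj z s hz hs hzs)
      · exact absurd hij (hinj x s hx hs hxs).symm
      · exact absurd hij (hinj y s hy hs hys).symm
      · exact absurd hij (hinj z s hz hs hzs).symm
      · rfl
    have hb : Function.Bijective g :=
      (Fintype.bijective_iff_injective_and_card g).2 ⟨hg, by rw [hK]; simp⟩
    have h1 : ∑ k : K, k ^ 1 = 0 := FiniteField.sum_pow_lt_card_sub_one K 1 (by rw [hK]; norm_num)
    have h3 : ∑ i, g i = ∑ k : K, k ^ 1 := hb.sum_comp (fun k => k ^ 1) |>.symm ▸ by simp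
    rw [h1, Fin.sum_univ_four] at h3
    exact h3
  rw [mem_span_singleton] at h
  obtain ⟨l, hl⟩ := h
  have hl1 : (l + 1) * (f (m z) + f (m s)) = 0 := by
    have := congrArg f hl
    rw [map_smul, map_add, map_add, smul_eq_mul] at this
    rw [add_mul, this, one_mul]
    linear_combination hsum
  have hl2 : f (m z) + f (m s) ≠ 0 := fun h0 => hinj z s hz hs hzs (t3_eq h2 h0)
  have hl3 : l = 1 := t3_eq h2 ((mul_eq_zero.1 hl1).resolve_right hl2)
  rw [hl3, one_smul] at hl
  exact T3C.false h2 N M tr hK ⟨hx, hy, hz, hs, hl.symm, ne, ne', a1, b1, a2, b2⟩ hva hvb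

end t3lemmaA

/-- `P` (in `v`) and `D` (in `w`) are the same point of the line through `a`, `b`: an element, or
the intersection with the line through two elements. -/
def T3G (K : Type*) {V W E : Type*} [Field K] [AddCommGroup V] [Module K V]
    [AddCommGroup W] [Module K W] [DecidableEq E]
    (v : E → V) (w : E → W) (a b : E) (n : E → V) (m : E → W) (P : V) (D : W) : Prop :=
  (∃ e, v e ∈ sp K v {a, b} ∧ P = v e ∧ D = w e) ∨
  ∃ x y, v x ∉ sp K v {a, b} ∧ v y ∉ sp K v {a, b} ∧ P = n x + n y ∧ D = m x + m y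

section t3colour

variable {K V W E : Type*} [Field K] [Fintype K] [AddCommGroup V] [Module K V]
  [AddCommGroup W] [Module K W] [DecidableEq E] {v : E → V} {w : E → W} {a b : E}
  {n : E → V} {m : E → W} {P P' : V} {D D' : W}

lemma T3G.exists_of_col (N : T3N K v a b n) {c : K} (hc : c ≠ 0) {Z : Finset E}
    (hind : v a + c • v b ≠ 0) (h : Col K v a b c Z) :
    ∃ P D, T3G K v w a b n m P D ∧ P ≠ 0 ∧ P ∈ span K {v a + c • v b} := by
  have key : ∀ P, P ∈ sp K v {a, b} → P ∈ sp K v Z → P ∈ span K {v a + c • v b} := by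
    intro P hPL hPZ
    rw [sp_pair, mem_span_pair] at hPL
    obtain ⟨α, β, rfl⟩ := hPL
    have h1 : α • v a + β • v b - (β / c) • (v a + c • v b) ∈ sp K v Z :=
      sub_mem hPZ (smul_mem _ _ h.1)
    have h2 : α • v a + β • v b - (β / c) • (v a + c • v b) = (α - β / c) • v a := by
      rw [smul_add, smul_smul, div_mul_cancel₀ _ hc, sub_smul]
      abel
    rw [h2] at h1
    have h3 : α - β / c = 0 := by
      by_contra h0
      exact h.2 ((smul_mem_iff _ h0).1 h1)
    rw [mem_span_singleton]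
    refine ⟨β / c, ?_⟩
    rw [← sub_eq_zero, ← neg_sub, h2, h3, zero_smul, neg_zero]
  have hL : v a + c • v b ∈ sp K v {a, b} :=
    add_mem (mem_sp (by simp)) (smul_mem _ _ (mem_sp (by simp)))
  rcases N.col Z _ hind hL h.1 with ⟨e, he, he0, heL⟩ | ⟨x, hx, y, hy, hxL, hyL, hxy⟩
  · exact ⟨v e, w e, Or.inl ⟨e, heL, rfl, rfl⟩, he0, key _ heL (mem_sp he)⟩
  · exact ⟨n x + n y, m x + m y, Or.inr ⟨x, y, hxL, hyL, rfl, rfl⟩, hxy,
      key _ (N.line x y hxL hyL) (add_mem (N.mem x Z hxL hx) (N.mem y Z hyL hy))⟩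

variable (h2 : (2 : K) = 0) (N : T3N K v a b n) (M : T3N K w a b m)
  (tr : ∀ e Z, v e ∈ sp K v Z ↔ w e ∈ sp K w Z)

include h2 N M tr

lemma T3G.ne_zero (h : T3G K v w a b n m P D) (hP : P ≠ 0) : D ≠ 0 := by
  rintro rfl
  rcases h with ⟨e, he, rfl, h0⟩ | ⟨x, y, hx, hy, rfl, h0⟩
  · have : w e ∈ sp K w ∅ := by rw [← h0]; exact zero_mem _
    have := (tr e ∅).2 this
    rw [sp_empty, mem_bot] at this
    exact hP this
  · apply hP
    rw [t3_meq h2 N M tr hx hy (t3_eq h2 h0.symm), t3_dbl h2]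

lemma T3G.memL (h : T3G K v w a b n m P D) : D ∈ span K {w a, w b} := by
  rw [← sp_pair (K := K)]
  rcases h with ⟨e, he, rfl, rfl⟩ | ⟨x, y, hx, hy, rfl, rfl⟩
  · exact (tr _ _).1 he
  · exact M.line x y (fun h => hx ((tr _ _).2 h)) (fun h => hy ((tr _ _).2 h))

/-- An element on the line is not proportional to the vector `D`. -/
lemma T3G.not_el (h : T3G K v w a b n m P D) {e : E} (he : v e ∈ sp K v {a, b})
    (hPe : v e ∉ span K {P}) : w e ∉ span K {D} := by
  intro hD
  apply hPe
  rcases h with ⟨e', he', rfl, rfl⟩ | ⟨x, y, hx, hy, rfl, rfl⟩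
  · rw [← sp_singleton (K := K)] at hD ⊢
    exact (tr _ _).2 hD
  · refine N.k1 x y _ hx hy he ((tr _ _).2 ?_)
    exact t3_trans hD (add_mem (M.mem x _ (fun h => hx ((tr _ _).2 h)) (by simp))
      (M.mem y _ (fun h => hy ((tr _ _).2 h)) (by simp)))

variable {u : W} (hu : ∀ Z, u ∈ sp K w Z ↔ v a ∈ sp K v Z ∧ v b ∈ sp K v Z)
  (hva : v a ≠ 0) (hvb : v b ≠ 0) (hab : v b ∉ span K {v a})

include hu hva hvb hab

lemma T3G.not_u (h : T3G K v w a b n m P D) : u ∉ span K {D} := by
  rcases h with ⟨e, he, rfl, rfl⟩ | ⟨x, y, hx, hy, rfl, rfl⟩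
  · exact t3_uel h2 N M tr hu hva hvb hab e
  · exact t3_upair h2 N M tr hu hva hvb hab hx hy

lemma T3G.pair (hK : Fintype.card K = 4) (h : T3G K v w a b n m P D)
    (h' : T3G K v w a b n m P' D') (hP : P ≠ 0) (hP' : P' ≠ 0)
    (ne : P ∉ span K {P'}) (ne' : P' ∉ span K {P}) (a1 : P ∉ span K {v a})
    (b1 : P ∉ span K {v b}) (a2 : P' ∉ span K {v a}) (b2 : P' ∉ span K {v b}) :
    D ∉ span K {D'} := by
  intro hD
  have hD' := t3_symm (h.ne_zero h2 N M tr hP) hD
  have h0 := h
  have h0' := h'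
  rcases h with ⟨e, he, rfl, rfl⟩ | ⟨x, y, hx, hy, rfl, rfl⟩
  · exact h0'.not_el h2 N M tr he ne hD
  · rcases h' with ⟨e', he', rfl, rfl⟩ | ⟨z, s, hz, hs, rfl, rfl⟩
    · exact h0.not_el h2 N M tr he' ne' hD'
    · exact t3_lemmaA h2 N M tr hu hva hvb hab hK hx hy hz hs ne ne' a1 b1 a2 b2 hD

end t3colour

variable {K V W E : Type*} [Field K] [Fintype K] [AddCommGroup V] [Module K V]
  [FiniteDimensional K V] [AddCommGroup W] [Module K W] [FiniteDimensional K W]
  [Fintype E] [DecidableEq E] {v : E → V} {w : E → W} {u : W} {a b : E}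

theorem three_colour_base (hK : Fintype.card K = 4) (hab : rk K v {a, b} = 2)
    (h3 : rk K v univ = 3) (hw : ∀ Z, rk K w Z = rk K v Z)
    (hu : ∀ Z, u ∈ sp K w Z ↔ v a ∈ sp K v Z ∧ v b ∈ sp K v Z) :
    ∃ c : K, c ≠ 0 ∧ ∀ Z, ¬ Col K v a b c Z := by
  classical
  have h2 := t3_two hK
  obtain ⟨n, N⟩ := t3_norm h2 hab h3
  obtain ⟨m, M⟩ := t3_norm (v := w) h2 (by rw [hw]; exact hab) (by rw [hw]; exact h3)
  have tr : ∀ e Z, v e ∈ sp K v Z ↔ w e ∈ sp K w Z := by
    intro e Z
    rw [← rk_insert_eq_iff, ← rk_insert_eq_iff, hw, hw]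
  -- the two vectors of the line
  have hba' : v b ∉ span K {v a} := by
    intro h
    rw [← sp_singleton (K := K)] at h
    have h1 : rk K v (insert b {a}) = rk K v {a} := rk_insert_of_mem_sp h
    have h4 : rk K v {a} ≤ 1 := by simpa using rk_le_card (K := K) (v := v) (X := {a})
    rw [Finset.pair_comm] at h1
    omega
  have hab' : v a ∉ span K {v b} := by
    intro h
    rw [← sp_singleton (K := K)] at h
    have h1 : rk K v (insert a {b}) = rk K v {b} := rk_insert_of_mem_sp h
    have h4 : rk K v {b} ≤ 1 := by simpa using rk_le_card (K := K) (v := v) (X := {b})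
    omega
  have hva : v a ≠ 0 := fun h => hab' (by rw [h]; exact zero_mem _)
  have hvb : v b ≠ 0 := fun h => hba' (by rw [h]; exact zero_mem _)
  have haL : v a ∈ sp K v {a, b} := mem_sp (by simp)
  have hbL : v b ∈ sp K v {a, b} := mem_sp (by simp)
  -- multiples of the colour vectors
  have hca : ∀ c : K, c ≠ 0 → v a + c • v b ∉ span K {v a} := by
    intro c hc h
    apply hba'
    have := sub_mem h (mem_span_singleton_self (R := K) (v a))
    rw [add_sub_cancel_left] at this
    exact (smul_mem_iff _ hc).1 this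
  have hcb : ∀ c : K, v a + c • v b ∉ span K {v b} := by
    intro c h
    apply hab'
    have := sub_mem h (smul_mem _ c (mem_span_singleton_self (R := K) (v b)))
    rwa [add_sub_cancel_right] at this
  have hcc : ∀ c c' : K, v a + c • v b ∈ span K {v a + c' • v b} → c = c' := by
    intro c c' h
    rw [mem_span_singleton] at h
    obtain ⟨t, ht⟩ := h
    have h1 : (t - 1) • v a = (c - t * c') • v b := by
      rw [sub_smul, sub_smul, one_smul, mul_smul]
      rw [smul_add] at ht
      rw [sub_eq_sub_iff_add_eq_add, ht]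
      abel
    have h4 : t - 1 = 0 := by
      by_contra h0
      apply hab'
      rw [← smul_mem_iff _ h0, h1]
      exact smul_mem _ _ (mem_span_singleton_self _)
    rw [h4, zero_smul] at h1
    have h5 := (smul_eq_zero.1 h1.symm).resolve_right hvb
    have h6 : t = 1 := by linear_combination h4
    rw [h6] at h5
    linear_combination h5
  by_contra hcon
  push Not at hcon
  have hex : ∀ c : {c : K // c ≠ 0}, ∃ P D, T3G K v w a b n m P D ∧ P ≠ 0 ∧
      P ∈ span K {v a + c.1 • v b} := by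
    rintro ⟨c, hc⟩
    obtain ⟨Z, hZ⟩ := hcon c hc
    exact T3G.exists_of_col N hc (fun h => hca c hc (by rw [h]; exact zero_mem _)) hZ
  choose P D hG hP0 hPc using hex
  have hPc' : ∀ c, v a + c.1 • v b ∈ span K {P c} := fun c => t3_symm (hP0 c) (hPc c)
  have hPa : ∀ c, P c ∉ span K {v a} := fun c h => hca c.1 c.2 (t3_trans (hPc' c) h)
  have hPb : ∀ c, P c ∉ span K {v b} := fun c h => hcb c.1 (t3_trans (hPc' c) h)
  have haP : ∀ c, v a ∉ span K {P c} := fun c h => hPa c (t3_symm hva h)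
  have hbP : ∀ c, v b ∉ span K {P c} := fun c h => hPb c (t3_symm hvb h)
  have hPP : ∀ c c', c ≠ c' → P c ∉ span K {P c'} := fun c c' hne h =>
    hne (Subtype.ext (hcc _ _ (t3_trans (hPc' c) (t3_trans h (hPc c')))))
  have hD0 : ∀ c, D c ≠ 0 := fun c => (hG c).ne_zero h2 N M tr (hP0 c)
  have hDa : ∀ c, D c ∉ span K {w a} := fun c h =>
    (hG c).not_el h2 N M tr haL (haP c) (t3_symm (hD0 c) h)
  have hDb : ∀ c, D c ∉ span K {w b} := fun c h =>
    (hG c).not_el h2 N M tr hbL (hbP c) (t3_symm (hD0 c) h)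
  obtain ⟨i, j, hij, h⟩ := t3_four hK (p := w a) (q := w b) (ι := Option {c : K // c ≠ 0})
    (by
      rw [Fintype.card_option]
      have : Fintype.card {c : K // c ≠ 0} = 3 := by
        rw [Fintype.card_subtype_compl, hK]; simp
      omega)
    (fun o => o.elim u D)
    (by
      rintro (_ | c)
      · have := t3_uL h2 N M tr hu hva hvb hba'
        rwa [sp_pair] at this
      · exact (hG c).memL h2 N M tr)
    (by
      rintro (_ | c)
      · exact t3_uel h2 N M tr hu hva hvb hba' a
      · exact hDa c)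
    (by
      rintro (_ | c)
      · exact t3_uel h2 N M tr hu hva hvb hba' b
      · exact hDb c)
  rcases i with _ | c <;> rcases j with _ | c'
  · exact hij rfl
  · exact (hG c').not_u h2 N M tr hu hva hvb hba' h
  · exact (hG c).not_u h2 N M tr hu hva hvb hba' (t3_symm (hD0 c) h)
  · have hne : c ≠ c' := fun h => hij (by rw [h])
    exact (hG c).pair h2 N M tr hu hva hvb hba' hK (hG c') (hP0 c) (hP0 c') (hPP c c' hne)
      (hPP c' c hne.symm) (hPa c) (hPb c) (hPa c') (hPb c') h

end Ca3
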