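import Pool.Agent.Lib.MP_ca3eb1_co.ThmT
import Pool.Agent.Lib.MP_ca3eb1_co.ThmT3
import Pool.Agent.Lib.MP_ca3eb1_co.Reps

/-! # The three-colour lemma, iterated down to rank three -/

set_option linter.unusedSectionVars false

namespace Ca3

open Finset Submodule

variable {K V E : Type*} [Field K] [AddCommGroup V] [Module K V]
  [FiniteDimensional K V] [Fintype E] [DecidableEq E] {v : E → V} {a b : E} {Y Z : Finset E}

/-- the quotient configuration on the whole index set -/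
def qv (K : Type*) {V E : Type*} [Field K] [AddCommGroup V] [Module K V] (v : E → V)
    (Y : Finset E) : E → V ⧸ sp K v Y := fun e => (sp K v Y).mkQ (v e)

lemma sp_qv : sp K (qv K v Y) Z = (sp K v Z).map (sp K v Y).mkQ := by
  have h1 : sp K (qv K v Y) Z = span K (qv K v Y '' (Z : Set E)) := rfl
  have h2 : sp K v Z = span K (v '' (Z : Set E)) := rfl
  rw [h1, h2, map_span]
  congr 1
  ext x
  constructor
  · rintro ⟨r, hr, rfl⟩
    exact ⟨v r, ⟨r, hr, rfl⟩, rfl⟩
  · rintro ⟨_, ⟨e, he, rfl⟩, rfl⟩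
    exact ⟨e, he, rfl⟩

lemma mkQ_mem_sp_qv {x : V} : (sp K v Y).mkQ x ∈ sp K (qv K v Y) Z ↔ x ∈ sp K v (Z ∪ Y) := by
  rw [sp_qv]
  exact mkQ_mem_map

lemma mem_sp_qv {e : E} : qv K v Y e ∈ sp K (qv K v Y) Z ↔ v e ∈ sp K v (Z ∪ Y) :=
  mkQ_mem_sp_qv

theorem rk_qv (Z : Finset E) :
    rk K (qv K v Y) Z + rk K v Y = rk K v (Z ∪ Y) := by
  induction Z using Finset.induction_on with
  | empty => simp
  | insert r Z hr ih =>
    rw [insert_union]
    by_cases h : qv K v Y r ∈ sp K (qv K v Y) Z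
    · rw [rk_insert_of_mem_sp h, ih]
      exact (rk_insert_of_mem_sp (mem_sp_qv.1 h)).symm
    · have h' : v (r : E) ∉ sp K v (Z ∪ Y) := fun h' => h (mem_sp_qv.2 h')
      have h2 := rk_insert_of_not_mem_sp h'
      rw [rk_insert_of_not_mem_sp h, h2]
      omega

lemma col_qv {c : K} : Col K (qv K v Y) a b c Z ↔ Col K v a b c (Z ∪ Y) := by
  unfold Col
  have h : qv K v Y a + c • qv K v Y b = (sp K v Y).mkQ (v a + c • v b) := by
    simp [qv]
  rw [h, mkQ_mem_sp_qv, mem_sp_qv]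

theorem three_colour_iter [Fintype K] (hK : Fintype.card K = 4) (j : ℕ) :
    ∀ Y : Finset E, rk K v Y + j + 3 = rk K v univ → rk K v ({a, b} ∪ Y) = rk K v Y + 2 →
      (∀ c : K, c ≠ 0 → ∃ Z, Y ⊆ Z ∧ Col K v a b c Z) →
      ∃ Y', rk K v Y' + 3 = rk K v univ ∧ rk K v ({a, b} ∪ Y') = rk K v Y' + 2 ∧
        ∀ c : K, c ≠ 0 → ∃ Z, Y' ⊆ Z ∧ Col K v a b c Z := by
  induction j with
  | zero =>
    intro Y h1 h2 h3
    exact ⟨Y, by omega, h2, h3⟩
  | succ j ih =>
    intro Y h1 h2 h3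
    have h4 := rk_qv (K := K) (v := v) (Y := Y) {a, b}
    have h5 := rk_qv (K := K) (v := v) (Y := Y) univ
    have h6 : (univ : Finset E) ∪ Y = univ := by simp
    rw [h6] at h5
    obtain ⟨x, hx, hx'⟩ := three_colour (v := qv K v Y) (a := a) (b := b) hK (by omega)
      (by omega) (by
        intro c hc
        obtain ⟨Z, hZ, hZc⟩ := h3 c hc
        exact ⟨Z, col_qv.2 (by rwa [union_eq_left.2 hZ])⟩)
    rw [mem_sp_qv] at hx
    have hxY : v x ∉ sp K v Y := fun h => hx (sp_mono subset_union_right h)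
    have h7 := rk_insert_of_not_mem_sp hxY
    have h8 := rk_insert_of_not_mem_sp hx
    apply ih (insert x Y)
    · omega
    · rw [union_insert]
      omega
    · intro c hc
      obtain ⟨Z, hZ, hZc⟩ := hx' c hc
      exact ⟨Z ∪ Y, insert_subset (mem_union_left _ hZ) subset_union_right, col_qv.1 hZc⟩

/-- All three colours occur: then they occur above a set `Y` of corank three. -/
theorem exists_three_colour [Fintype K] (hK : Fintype.card K = 4) (hab : rk K v {a, b} = 2)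
    (h3 : 3 ≤ rk K v univ) (hc : ∀ c : K, c ≠ 0 → ∃ Z, Col K v a b c Z) :
    ∃ Y, rk K v Y + 3 = rk K v univ ∧ rk K v ({a, b} ∪ Y) = rk K v Y + 2 ∧
        ∀ c : K, c ≠ 0 → ∃ Z, Y ⊆ Z ∧ Col K v a b c Z := by
  apply three_colour_iter hK (rk K v univ - 3) ∅
  · simp only [rk_empty]
    omega
  · simp only [rk_empty, union_empty, hab]
  · intro c hc'
    obtain ⟨Z, hZ⟩ := hc c hc'
    exact ⟨Z, empty_subset _, hZ⟩

end Ca3
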