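import Pool.Agent.Lib.MP_ca3eb1_co.AbMem
import Pool.Agent.Lib.MP_ca3eb1_co.ThmTIter

/-! # Points lying freely on a line

If `t` is free on a member line of `N` (every member through `t` contains the line), `N` without
`t` is representable over the field with four elements, and so are all contractions `N / x`, then
`N` is representable (rank at least four). -/

set_option linter.unusedSectionVars false

namespace Ca3.Ab

open Finset

variable {E : Type*} [DecidableEq E] [Fintype E] {ι : Type*} [Fintype ι]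

variable {N : RF E} {A : ι → Finset E} {t : E} {i : ι} {X Y Z : Finset E}

/-- two points of a member different from a given one -/
theorem Fam.exists_two (h : Fam N A) (hN : Simple N) (i : ι) (t : E) :
    ∃ a b, a ≠ b ∧ a ≠ t ∧ b ≠ t ∧ a ∈ A i ∧ b ∈ A i := by
  have h1 := h.rk_lt_card i
  have h2 := h.two_le_rk hN i
  have h3 : 1 < ((A i).erase t).card := by
    have := pred_card_le_card_erase (s := A i) (a := t)
    omega
  obtain ⟨a, ha, b, hb, hab⟩ := one_lt_card.1 h3
  rw [mem_erase] at ha hb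
  exact ⟨a, b, hab, ha.1, hb.1, ha.2, hb.2⟩

theorem Fam.free_mem_sp (h : Fam N A) (hf : Free A t i) (hL : rk N (A i) = 2)
    (hN : Simple N) {a b : E} (hab : a ≠ b) (ha : a ∈ A i) (hb : b ∈ A i)
    (ht : t ∉ Z) : t ∈ sp N Z ↔ a ∈ sp N Z ∧ b ∈ sp N Z := by
  constructor
  · intro h1
    have h2 := h.free_subset hf h1 ht
    exact ⟨mem_cl.1 (h2 ha), mem_cl.1 (h2 hb)⟩
  · rintro ⟨h1, h2⟩
    have h3 : sp N {a, b} = sp N (A i) := by
      apply sp_eq_of_subset_of_rk_le
      · intro x hx
        rw [mem_insert, mem_singleton] at hx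
        rcases hx with rfl | rfl
        · exact ha
        · exact hb
      · rw [hL, hN.rk_pair hab]
    have h4 : t ∈ sp N {a, b} := by
      rw [h3]; exact mem_sp hf.1
    refine (sp_le_iff.2 ?_) h4
    intro x hx
    rw [mem_insert, mem_singleton] at hx
    rcases hx with rfl | rfl
    · exact h1
    · exact h2

section rep

variable {K : Type*} [Field K] [Fintype K]

/-- the missing colour -/
theorem exists_missing_colour (hK : Fintype.card K = 4) (h : Fam N A) (hN : Simple N)
    (hf : Free A t i) (hL : rk N (A i) = 2) (hq : RepC K N) (h4 : 4 ≤ rk N univ)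
    {n : ℕ} {v : ↥((univ : Finset E).erase t) → (Fin n → K)}
    (hv : ∀ Z, Ca3.rk K v Z = rk (N.restrict (univ.erase t)) Z)
    {a b : ↥((univ : Finset E).erase t)} (hab : a ≠ b) (ha : (a : E) ∈ A i) (hb : (b : E) ∈ A i) :
    ∃ c : K, c ≠ 0 ∧ ∀ Z, ¬ Col K v a b c Z := by
  classical
  by_contra hcon
  push Not at hcon
  have hab' : (a : E) ≠ b := fun h => hab (Subtype.ext h)
  -- ranks
  have hv' : ∀ Z : Finset ↥((univ : Finset E).erase t), Ca3.rk K v Z =
      rk N (Z.map (Function.Embedding.subtype _)) := fun Z => hv Z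
  have hmapsub : ∀ Z : Finset ↥((univ : Finset E).erase t),
      t ∉ Z.map (Function.Embedding.subtype _) := by
    intro Z h1
    obtain ⟨h2, -⟩ := mem_map_sub.1 h1
    exact notMem_erase t _ h2
  have hvsp : ∀ (e : ↥((univ : Finset E).erase t)) (Z : Finset ↥((univ : Finset E).erase t)),
      v e ∈ Ca3.sp K v Z ↔ (e : E) ∈ sp N (Z.map (Function.Embedding.subtype _)) := by
    intro e Z
    rw [← Ca3.rk_insert_eq_iff, mem_sp_iff, hv', hv', map_insert]
    rfl
  have hpair : Ca3.rk K v {a, b} = 2 := by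
    rw [hv', map_insert, map_singleton]
    exact hN.rk_pair hab'
  have huniv : Ca3.rk K v univ = rk N univ := by
    rw [hv', univ_eq_attach, attach_map_val]
    have h1 : t ∈ sp N (univ.erase t) := by
      apply sp_mono _ (h.cyclic hf.1)
      exact erase_subset_erase t (subset_univ _)
    have h2 := rk_insert_of_mem_sp h1
    rw [insert_erase (mem_univ t)] at h2
    exact h2.symm
  obtain ⟨Y, hY1, hY2, hY3⟩ := exists_three_colour hK hpair (by omega) hcon
  -- `Y` is not empty
  have hYne : Y.Nonempty := by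
    rw [nonempty_iff_ne_empty]
    rintro rfl
    rw [Ca3.rk_empty] at hY1
    omega
  obtain ⟨x, hx⟩ := hYne
  obtain ⟨m, w, hw⟩ := hq (x : E)
  set Ym : Finset E := Y.map (Function.Embedding.subtype _) with hYm
  have hxY : (x : E) ∈ Ym := mem_map_sub.2 ⟨x.2, hx⟩
  have hwr : ∀ Z : Finset E, (x : E) ∈ Z → Ca3.rk K w Z + 1 = rk N Z :=
    fun Z hZ => hw.rk_eq_one hN hZ
  -- the two quotient configurations
  have hbase := three_colour_base (K := K) (v := qv K v Y)
    (w := fun e : ↥((univ : Finset E).erase t) => (Ca3.sp K w Ym).mkQ (w e))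
    (u := (Ca3.sp K w Ym).mkQ (w t)) (a := a) (b := b) hK
    (by have := rk_qv (K := K) (v := v) (Y := Y) {a, b}; omega)
    (by
      have h1 := rk_qv (K := K) (v := v) (Y := Y) univ
      rw [union_eq_left.2 (subset_univ Y)] at h1
      omega)
  have hspw : ∀ Z : Finset ↥((univ : Finset E).erase t), Ca3.sp K
      (fun e : ↥((univ : Finset E).erase t) => (Ca3.sp K w Ym).mkQ (w e)) Z =
      (Ca3.sp K w (Z.map (Function.Embedding.subtype _))).map (Ca3.sp K w Ym).mkQ := by
    intro Z
    have h1 : Ca3.sp K (fun e : ↥((univ : Finset E).erase t) => (Ca3.sp K w Ym).mkQ (w e)) Z =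
      Submodule.span K ((fun e : ↥((univ : Finset E).erase t) => (Ca3.sp K w Ym).mkQ (w e)) ''
        (Z : Set ↥((univ : Finset E).erase t))) := rfl
    have h2 : Ca3.sp K w (Z.map (Function.Embedding.subtype _)) = Submodule.span K
      (w '' ((Z.map (Function.Embedding.subtype _) : Finset E) : Set E)) := rfl
    rw [h1, h2, Submodule.map_span]
    congr 1
    ext y
    constructor
    · rintro ⟨r, hr, rfl⟩
      exact ⟨w r, ⟨r, by simpa using hr, rfl⟩, rfl⟩
    · rintro ⟨_, ⟨e, he, rfl⟩, rfl⟩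
      rw [coe_map] at he
      obtain ⟨r, hr, rfl⟩ := he
      exact ⟨r, hr, rfl⟩
  have hmem : ∀ (y : Fin m → K) (Z : Finset ↥((univ : Finset E).erase t)),
      (Ca3.sp K w Ym).mkQ y ∈ Ca3.sp K
        (fun e : ↥((univ : Finset E).erase t) => (Ca3.sp K w Ym).mkQ (w e)) Z ↔
        y ∈ Ca3.sp K w (Z.map (Function.Embedding.subtype _) ∪ Ym) := by
    intro y Z
    rw [hspw]
    exact Ca3.mkQ_mem_map
  have hrkw : ∀ Z : Finset ↥((univ : Finset E).erase t), Ca3.rk K
      (fun e : ↥((univ : Finset E).erase t) => (Ca3.sp K w Ym).mkQ (w e)) Z + Ca3.rk K w Ym =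
      Ca3.rk K w (Z.map (Function.Embedding.subtype _) ∪ Ym) := by
    intro Z
    induction Z using Finset.induction_on with
    | empty => simp
    | insert r Z hr ih =>
      rw [map_insert, insert_union]
      by_cases h : (Ca3.sp K w Ym).mkQ (w r) ∈ Ca3.sp K
        (fun e : ↥((univ : Finset E).erase t) => (Ca3.sp K w Ym).mkQ (w e)) Z
      · have h1 := Ca3.rk_insert_of_mem_sp (K := K)
          (v := fun e : ↥((univ : Finset E).erase t) => (Ca3.sp K w Ym).mkQ (w e)) h
        rw [h1, ih]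
        exact (Ca3.rk_insert_of_mem_sp ((hmem _ _).1 h)).symm
      · have h' : w (r : E) ∉ Ca3.sp K w (Z.map (Function.Embedding.subtype _) ∪ Ym) :=
          fun h' => h ((hmem _ _).2 h')
        have h2 := Ca3.rk_insert_of_not_mem_sp h'
        have h1 := Ca3.rk_insert_of_not_mem_sp (K := K)
          (v := fun e : ↥((univ : Finset E).erase t) => (Ca3.sp K w Ym).mkQ (w e)) h
        have h3 : (Function.Embedding.subtype fun x => x ∈ univ.erase t) r = (r : E) := rfl
        rw [h1, h3, h2]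
        omega
  have hmapu : ∀ Z : Finset ↥((univ : Finset E).erase t),
      (Z ∪ Y).map (Function.Embedding.subtype _) = Z.map (Function.Embedding.subtype _) ∪ Ym :=
    fun Z => map_union ..
  obtain ⟨c, hc, hc'⟩ := hbase (by
    intro Z
    have h1 := hrkw Z
    have h2 := rk_qv (K := K) (v := v) (Y := Y) Z
    rw [hv', hv', hmapu] at h2
    have h3 := hwr Ym hxY
    have h4 := hwr (Z.map (Function.Embedding.subtype _) ∪ Ym) (mem_union_right _ hxY)
    rw [← hYm] at h2
    omega) (by
    intro Z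
    rw [hmem, hw.mem_sp_iff (mem_union_right _ hxY), mem_sp_qv, mem_sp_qv, hvsp, hvsp, hmapu]
    exact h.free_mem_sp hf hL hN hab' ha hb (by rw [← hmapu]; exact hmapsub _))
  obtain ⟨Z, hZ, hZc⟩ := hY3 c hc
  exact hc' Z (col_qv.2 (by rwa [union_eq_left.2 hZ]))

/-- A point free on a member line can be added to every representation of the rest. -/
theorem Fam.rep_of_free_line (hK : Fintype.card K = 4) (h : Fam N A) (hN : Simple N)
    (hf : Free A t i) (hL : rk N (A i) = 2) (hq : RepC K N) (h4 : 4 ≤ rk N univ)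
    (hr : Rep K (N.restrict (univ.erase t))) : Rep K N := by
  classical
  obtain ⟨n, v, hv⟩ := hr
  obtain ⟨a, b, hab, hat, hbt, ha, hb⟩ := h.exists_two hN i t
  have hma : a ∈ univ.erase t := mem_erase.2 ⟨hat, mem_univ _⟩
  have hmb : b ∈ univ.erase t := mem_erase.2 ⟨hbt, mem_univ _⟩
  obtain ⟨c, hc, hcol⟩ := exists_missing_colour hK h hN hf hL hq h4 hv (a := ⟨a, hma⟩)
    (b := ⟨b, hmb⟩) (fun h' => hab (congrArg Subtype.val h')) ha hb
  have hvsp : ∀ (e : ↥((univ : Finset E).erase t)) (Z : Finset ↥((univ : Finset E).erase t)),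
      v e ∈ Ca3.sp K v Z ↔ (e : E) ∈ sp N (Z.map (Function.Embedding.subtype _)) := by
    intro e Z
    rw [← Ca3.rk_insert_eq_iff, mem_sp_iff, hv, hv, rk_restrict, rk_restrict, map_insert]
    rfl
  -- the representation
  set w : E → (Fin n → K) := fun e => if h : e ∈ univ.erase t then v ⟨e, h⟩ else
    v ⟨a, hma⟩ + c • v ⟨b, hmb⟩ with hwdef
  have hw1 : ∀ e : ↥((univ : Finset E).erase t), w e = v e := by
    intro e
    rw [hwdef]
    simp only [e.2, dif_pos]
  have hw2 : w t = v ⟨a, hma⟩ + c • v ⟨b, hmb⟩ := by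
    rw [hwdef]
    simp only [notMem_erase, dif_neg, not_false_eq_true]
  have hspw : ∀ Z : Finset ↥((univ : Finset E).erase t),
      Ca3.sp K w (Z.map (Function.Embedding.subtype _)) = Ca3.sp K v Z := by
    intro Z
    unfold Ca3.sp
    congr 1
    ext y
    rw [coe_map]
    constructor
    · rintro ⟨_, ⟨r, hr, rfl⟩, rfl⟩
      exact ⟨r, hr, (hw1 r).symm⟩
    · rintro ⟨r, hr, rfl⟩
      exact ⟨r, ⟨r, hr, rfl⟩, hw1 r⟩
  have hrk0 : ∀ Z : Finset ↥((univ : Finset E).erase t),
      Ca3.rk K w (Z.map (Function.Embedding.subtype _)) =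
        rk N (Z.map (Function.Embedding.subtype _)) := by
    intro Z
    have h1 := hv Z
    rw [rk_restrict] at h1
    rw [← h1]
    unfold Ca3.rk
    rw [hspw]
  have hrk1 : ∀ Z : Finset E, t ∉ Z → Ca3.rk K w Z = rk N Z := by
    intro Z hZ
    have h1 : (tr (univ.erase t) Z).map (Function.Embedding.subtype _) = Z := by
      rw [map_tr, inter_erase, inter_univ, erase_eq_of_notMem hZ]
    rw [← h1]
    exact hrk0 _
  have ht : ∀ Z : Finset E, t ∉ Z → (w t ∈ Ca3.sp K w Z ↔ t ∈ sp N Z) := by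
    intro Z hZ
    have h1 : (tr (univ.erase t) Z).map (Function.Embedding.subtype _) = Z := by
      rw [map_tr, inter_erase, inter_univ, erase_eq_of_notMem hZ]
    set Z' := tr (univ.erase t) Z with hZ'
    have h2 : Ca3.sp K w Z = Ca3.sp K v Z' := by rw [← h1, hspw]
    rw [h2, h.free_mem_sp hf hL hN hab ha hb hZ, ← h1, ← hvsp ⟨a, hma⟩, ← hvsp ⟨b, hmb⟩, hw2]
    constructor
    · intro h3
      have h4 : v ⟨a, hma⟩ ∈ Ca3.sp K v Z' := by
        by_contra h5
        exact hcol Z' ⟨h3, h5⟩
      refine ⟨h4, ?_⟩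
      have h5 : c • v ⟨b, hmb⟩ ∈ Ca3.sp K v Z' := by
        have := Submodule.sub_mem _ h3 h4
        simpa using this
      exact (Submodule.smul_mem_iff _ hc).1 h5
    · rintro ⟨h3, h4⟩
      exact Submodule.add_mem _ h3 (Submodule.smul_mem _ _ h4)
  refine ⟨n, w, fun Z => ?_⟩
  by_cases hZ : t ∈ Z
  · have h1 : insert t (Z.erase t) = Z := insert_erase hZ
    have h2 : t ∉ Z.erase t := notMem_erase t Z
    have h3 := hrk1 _ h2
    have h4 := ht _ h2
    rw [← h1]
    by_cases h5 : t ∈ sp N (Z.erase t)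
    · rw [rk_insert_of_mem_sp h5, Ca3.rk_insert_of_mem_sp (h4.2 h5), h3]
    · rw [rk_insert_of_not_mem_sp h5, Ca3.rk_insert_of_not_mem_sp (fun h6 => h5 (h4.1 h6)), h3]
  · exact hrk1 Z hZ

end rep

end Ca3.Ab
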