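import Pool.Agent.Lib.MP_ca3eb1_co.Basic

/-! # Module M3: the plane case of the small complement theorem -/

set_option autoImplicit false
set_option linter.unusedSectionVars false

namespace Ca3

open Finset Submodule

/-- Counting in a projective-like plane. -/
theorem plane_count {E : Type*} [Fintype E] [DecidableEq E] (All : Finset (Finset E))
    (H : Finset E) (hH : H ∈ All) (h2 : ∀ L ∈ All, 2 ≤ L.card)
    (hint : ∀ L ∈ All, ∀ L' ∈ All, L ≠ L' → (L ∩ L').card ≤ 1)
    (hpart : ∀ e : E, ∑ L ∈ All.filter (fun L => e ∈ L), (L.card - 1) + 1 = Fintype.card E)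
    (hpen : ∀ e : E, (All.filter (fun L => e ∈ L)).card ≤ 5)
    (hsum : ∑ L ∈ All, (L.card - 2) + 3 ≤ Fintype.card E) (hH3 : 3 ≤ H.card) :
    (univ \ H).card ≤ 4 := by
  classical
  set t : Finset E → ℕ := fun L => L.card - 2 with ht
  set Ln := All.erase H with hLn
  set O := univ \ H with hO
  have hE : H.card + O.card = Fintype.card E := by
    have := card_sdiff_add_card_eq_card (subset_univ H)
    rw [hO, ← card_univ]; omega
  have htL : ∀ L ∈ All, L.card = t L + 2 := by
    intro L hL
    have := h2 L hL
    simp only [ht]; omega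
  have hF : ∀ e : E, Fintype.card E ≤ ∑ L ∈ All.filter (fun L => e ∈ L), t L + 6 := by
    intro e
    have h1 := hpart e
    have h3 := hpen e
    have h4 : ∑ L ∈ All.filter (fun L => e ∈ L), (L.card - 1)
        = ∑ L ∈ All.filter (fun L => e ∈ L), t L + (All.filter (fun L => e ∈ L)).card := by
      rw [card_eq_sum_ones, ← sum_add_distrib]
      apply sum_congr rfl
      intro L hL
      have := htL L (mem_filter.1 hL).1
      omega
    omega
  have hFy : ∀ y ∈ H, O.card ≤ ∑ L ∈ Ln.filter (fun L => y ∈ L), t L + 4 := by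
    intro y hy
    have h1 := hF y
    have h3 : All.filter (fun L => y ∈ L) = insert H (Ln.filter (fun L => y ∈ L)) := by
      ext L
      simp only [hLn, mem_filter, mem_insert, mem_erase]
      by_cases hLH : L = H
      · subst hLH; simp [hH, hy]
      · simp [hLH]
    rw [h3, sum_insert (by simp [hLn])] at h1
    have h4 := htL H hH
    omega
  have hFc : ∀ c ∈ O, H.card + O.card ≤ ∑ L ∈ Ln.filter (fun L => c ∈ L), t L + 6 := by
    intro c hc
    have h1 := hF c
    have hc' : c ∉ H := by simpa [hO] using hc
    have h3 : All.filter (fun L => c ∈ L) = Ln.filter (fun L => c ∈ L) := by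
      ext L
      simp only [hLn, mem_filter, mem_erase]
      constructor
      · rintro ⟨h5, h6⟩
        refine ⟨⟨?_, h5⟩, h6⟩
        rintro rfl; exact hc' h6
      · rintro ⟨⟨_, h5⟩, h6⟩; exact ⟨h5, h6⟩
    rw [h3] at h1
    omega
  have hW : ∑ L ∈ Ln, t L + 1 ≤ O.card := by
    have h1 : ∑ L ∈ All, t L = t H + ∑ L ∈ Ln, t L := by
      rw [hLn, add_sum_erase _ _ hH]
    have h4 := htL H hH
    have h5 : (∑ L ∈ All, t L) + 3 ≤ Fintype.card E := hsum
    omega
  have dc : ∀ X : Finset E, ∑ y ∈ X, ∑ L ∈ Ln.filter (fun L => y ∈ L), t L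
      = ∑ L ∈ Ln, (L ∩ X).card * t L := by
    intro X
    simp only [sum_filter]
    rw [sum_comm]
    apply sum_congr rfl
    intro L _
    rw [← sum_filter, sum_const, smul_eq_mul]
    congr 2
    ext a; simp [and_comm]
  have hs1 : ∀ L ∈ Ln, (L ∩ H).card ≤ 1 := by
    intro L hL
    rw [hLn, mem_erase] at hL
    exact hint L hL.2 H hH hL.1
  have hLO : ∀ L ∈ Ln, (L ∩ O).card + (L ∩ H).card = t L + 2 := by
    intro L hL
    rw [hLn, mem_erase] at hL
    rw [← htL L hL.2]
    have h5 : L ∩ O = L \ H := by ext a; simp [hO]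
    rw [h5]
    exact card_sdiff_add_card_inter L H
  by_contra hm
  have hm5 : 5 ≤ O.card := by omega
  have hy1 : H.card * (O.card - 4) ≤ ∑ L ∈ Ln, (L ∩ H).card * t L := by
    rw [← dc H, ← smul_eq_mul]
    apply card_nsmul_le_sum
    intro y hy
    have := hFy y hy
    omega
  have hy2 : ∑ L ∈ Ln, (L ∩ H).card * t L ≤ ∑ L ∈ Ln, t L := by
    apply sum_le_sum
    intro L hL
    have := hs1 L hL
    calc (L ∩ H).card * t L ≤ 1 * t L := Nat.mul_le_mul_right _ this
      _ = t L := one_mul _
  have hO5 : O.card = 5 := by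
    have h3 : 3 * (O.card - 4) ≤ H.card * (O.card - 4) := Nat.mul_le_mul_right _ hH3
    omega
  rw [hO5] at hy1 hFy hFc hW
  have hc1 : 5 * (H.card - 1) ≤ ∑ L ∈ Ln, (L ∩ O).card * t L := by
    rw [← dc O, ← hO5, ← smul_eq_mul]
    apply card_nsmul_le_sum
    intro y hy
    have := hFc y hy
    omega
  have hH4 : H.card = 3 ∨ H.card = 4 := by omega
  rcases hH4 with hh | hh
  · -- three points on the line
    by_cases ht1 : ∀ L ∈ Ln, t L ≤ 1
    · have h6 : ∑ L ∈ Ln, ((L ∩ O).card * t L + (L ∩ H).card * t L) ≤ ∑ L ∈ Ln, 3 * t L := by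
        apply sum_le_sum
        intro L hL
        have h7 := hLO L hL
        have h8 := ht1 L hL
        rw [← add_mul, h7]
        have : t L = 0 ∨ t L = 1 := by omega
        rcases this with h9 | h9 <;> rw [h9]
      rw [sum_add_distrib, ← mul_sum] at h6
      omega
    · push Not at ht1
      obtain ⟨L0, hL0, ht0⟩ := ht1
      have hsplit : ∑ L ∈ Ln, t L = t L0 + ∑ L ∈ Ln.erase L0, t L := by
        rw [add_sum_erase _ _ hL0]
      -- points of H not on L0
      have hq : ∀ y ∈ H, y ∉ L0 → ∃ L ∈ Ln.erase L0, y ∈ L ∧ 1 ≤ t L := by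
        intro y hy hyL
        have h7 := hFy y hy
        have h8 : 0 < ∑ L ∈ Ln.filter (fun L => y ∈ L), t L := by omega
        obtain ⟨L, hL, hpos⟩ := exists_ne_zero_of_sum_ne_zero (ne_of_gt h8)
        rw [mem_filter] at hL
        refine ⟨L, mem_erase.2 ⟨?_, hL.1⟩, hL.2, by omega⟩
        rintro rfl; exact hyL hL.2
      have hdist : ∀ y ∈ H, ∀ y' ∈ H, y ≠ y' → ∀ L ∈ Ln, y ∈ L → y' ∉ L := by
        intro y hy y' hy' hne L hL hyL hy'L
        have h9 := hs1 L hL
        have h10 : ({y, y'} : Finset E) ⊆ L ∩ H := by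
          intro a ha
          rw [mem_insert, mem_singleton] at ha
          rcases ha with rfl | rfl
          · exact mem_inter.2 ⟨hyL, hy⟩
          · exact mem_inter.2 ⟨hy'L, hy'⟩
        have h11 := card_le_card h10
        rw [card_pair hne] at h11
        omega
      have hHL : 2 ≤ (H \ L0).card := by
        have h7 := hs1 L0 hL0
        have h8 := card_sdiff_add_card_inter H L0
        rw [inter_comm] at h8
        omega
      obtain ⟨y2, hy2', y3, hy3', hy23⟩ := one_lt_card.1 (show 1 < (H \ L0).card by omega)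
      rw [mem_sdiff] at hy2' hy3'
      obtain ⟨L2, hL2, hyL2, ht2⟩ := hq y2 hy2'.1 hy2'.2
      obtain ⟨L3, hL3, hyL3, ht3⟩ := hq y3 hy3'.1 hy3'.2
      have hL23 : L2 ≠ L3 := by
        rintro rfl
        exact hdist y2 hy2'.1 y3 hy3'.1 hy23 L2 (mem_of_mem_erase hL2) hyL2 hyL3
      have hL3' : L3 ∈ (Ln.erase L0).erase L2 := mem_erase.2 ⟨hL23.symm, hL3⟩
      have hsp2 : ∑ L ∈ Ln.erase L0, t L
          = t L2 + (t L3 + ∑ L ∈ ((Ln.erase L0).erase L2).erase L3, t L) := by
        rw [add_sum_erase _ _ hL3', add_sum_erase _ _ hL2]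
      have ht02 : t L0 = 2 := by omega
      have hrest : ∑ L ∈ ((Ln.erase L0).erase L2).erase L3, t L = 0 := by omega
      have ht2' : t L2 = 1 := by omega
      have ht3' : t L3 = 1 := by omega
      -- L0 meets H
      have hs0 : (L0 ∩ H).card = 1 := by
        by_contra hs0
        have h0 : (L0 ∩ H).card = 0 := by have := hs1 L0 hL0; omega
        have h1 : ∑ L ∈ Ln, (L ∩ H).card * t L
            = (L0 ∩ H).card * t L0 + ∑ L ∈ Ln.erase L0, (L ∩ H).card * t L := by
          rw [add_sum_erase _ (fun L => (L ∩ H).card * t L) hL0]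
        have h3 : ∑ L ∈ Ln.erase L0, (L ∩ H).card * t L ≤ ∑ L ∈ Ln.erase L0, t L := by
          apply sum_le_sum
          intro L hL
          have := hs1 L (mem_of_mem_erase hL)
          calc (L ∩ H).card * t L ≤ 1 * t L := Nat.mul_le_mul_right _ this
            _ = t L := one_mul _
        rw [h0] at h1
        omega
      have hOL : 2 ≤ (O \ L0).card := by
        have h7 := hLO L0 hL0
        have h8 := card_sdiff_add_card_inter O L0
        rw [inter_comm] at h8
        omega
      obtain ⟨c4, hc4, c5, hc5, hc45⟩ := one_lt_card.1 (show 1 < (O \ L0).card by omega)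
      have key : ∀ c ∈ O \ L0, c ∈ L2 ∧ c ∈ L3 := by
        intro c hc
        rw [mem_sdiff] at hc
        have h7 := hFc c hc.1
        have h8 : ∑ L ∈ Ln.filter (fun L => c ∈ L), t L = ∑ L ∈ Ln, if c ∈ L then t L else 0 := by
          rw [sum_filter]
        have h9 : ∑ L ∈ Ln, (if c ∈ L then t L else 0)
            = (if c ∈ L0 then t L0 else 0) + ((if c ∈ L2 then t L2 else 0)
              + ((if c ∈ L3 then t L3 else 0)
              + ∑ L ∈ ((Ln.erase L0).erase L2).erase L3, if c ∈ L then t L else 0)) := by
          rw [add_sum_erase _ (fun L => if c ∈ L then t L else 0) hL3',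
            add_sum_erase _ (fun L => if c ∈ L then t L else 0) hL2,
            add_sum_erase _ (fun L => if c ∈ L then t L else 0) hL0]
        have h10 : ∑ L ∈ ((Ln.erase L0).erase L2).erase L3, (if c ∈ L then t L else 0) ≤
            ∑ L ∈ ((Ln.erase L0).erase L2).erase L3, t L := by
          apply sum_le_sum
          intro L _
          split_ifs <;> omega
        rw [if_neg hc.2] at h9
        by_cases hcL2 : c ∈ L2 <;> by_cases hcL3 : c ∈ L3 <;>
          simp only [hcL2, hcL3, if_true, if_false] at h9 ⊢ <;> first | exact ⟨trivial, trivial⟩ | omega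
      have k4 := key c4 hc4
      have k5 := key c5 hc5
      have h12 := hint L2 (mem_of_mem_erase (mem_of_mem_erase hL2)) L3
        (mem_of_mem_erase (mem_of_mem_erase hL3)) hL23
      have h10 : ({c4, c5} : Finset E) ⊆ L2 ∩ L3 := by
        intro a ha
        rw [mem_insert, mem_singleton] at ha
        rcases ha with rfl | rfl
        · exact mem_inter.2 k4
        · exact mem_inter.2 k5
      have h11 := card_le_card h10
      rw [card_pair hc45] at h11
      omega
  · -- four points on the line
    have h5 : ∀ L ∈ Ln, t L ≤ 1 := by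
      intro L0 hL0
      by_contra hlt
      have hlt : 2 ≤ t L0 := by omega
      have hq : ∀ y ∈ H, y ∉ L0 → 1 ≤ ∑ L ∈ (Ln.erase L0).filter (fun L => y ∈ L), t L := by
        intro y hy hyL
        have h7 := hFy y hy
        have h8 : Ln.filter (fun L => y ∈ L) = (Ln.erase L0).filter (fun L => y ∈ L) := by
          ext L
          simp only [mem_filter, mem_erase]
          constructor
          · rintro ⟨h9, h10⟩
            refine ⟨⟨?_, h9⟩, h10⟩
            rintro rfl; exact hyL h10
          · rintro ⟨⟨_, h9⟩, h10⟩; exact ⟨h9, h10⟩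
        rw [← h8]; omega
      have hHL : 3 ≤ (H \ L0).card := by
        have h7 := hs1 L0 hL0
        have h8 := card_sdiff_add_card_inter H L0
        rw [inter_comm] at h8
        omega
      have h9 : (H \ L0).card * 1 ≤
          ∑ y ∈ H \ L0, ∑ L ∈ (Ln.erase L0).filter (fun L => y ∈ L), t L := by
        rw [← smul_eq_mul]
        apply card_nsmul_le_sum
        intro y hy
        rw [mem_sdiff] at hy
        exact hq y hy.1 hy.2
      have h10 : ∑ y ∈ H \ L0, ∑ L ∈ (Ln.erase L0).filter (fun L => y ∈ L), t L
          ≤ ∑ L ∈ Ln.erase L0, t L := by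
        simp only [sum_filter]
        rw [sum_comm]
        apply sum_le_sum
        intro L hL
        rw [← sum_filter, sum_const, smul_eq_mul]
        have h11 : ((H \ L0).filter (fun y => y ∈ L)).card ≤ 1 := by
          refine le_trans (card_le_card ?_) (hs1 L (mem_of_mem_erase hL))
          intro a ha
          rw [mem_filter, mem_sdiff] at ha
          exact mem_inter.2 ⟨ha.2, ha.1.1⟩
        calc _ ≤ 1 * t L := Nat.mul_le_mul_right _ h11
          _ = t L := one_mul _
      have hsplit : ∑ L ∈ Ln, t L = t L0 + ∑ L ∈ Ln.erase L0, t L := by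
        rw [add_sum_erase _ _ hL0]
      omega
    have h6 : ∑ L ∈ Ln, ((L ∩ O).card * t L) ≤ ∑ L ∈ Ln, 3 * t L := by
      apply sum_le_sum
      intro L hL
      have h7 := hLO L hL
      have h8 := h5 L hL
      apply Nat.mul_le_mul_right
      omega
    rw [← mul_sum] at h6
    omega


variable {K V E : Type*} [Field K] [Fintype K] [AddCommGroup V] [Module K V]
  [FiniteDimensional K V] [Fintype E] [DecidableEq E]

/-- In rank 3, the points outside a line `L` through `y` lie on at most four further lines
through `y`: a set of points outside `L`, no two of them collinear with `y`, has at most four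
elements. More generally for a hyperplane pencil: flats of rank `rk F + 1` over `F` inside
rank `rk F + 2` : at most five. -/
theorem pencil_card_le (hK : Fintype.card K = 4) {v : E → V} {F X : Finset E}
    (hF : rk K v (F ∪ X) ≤ rk K v F + 2) (h1 : ∀ x ∈ X, v x ∉ sp K v F)
    (h2 : ∀ x ∈ X, ∀ y ∈ X, v x ∈ sp K v (insert y F) → x = y) : X.card ≤ 5 := by
  classical
  set S := sp K v F with hS
  set W := sp K v (F ∪ X) with hW
  have hSW : S ≤ W := sp_mono subset_union_left
  let Q := W.map S.mkQ
  have hQ : Module.finrank K Q ≤ 2 := by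
    have h3 : Module.finrank K (Submodule.map S.mkQ W) + Module.finrank K S
        = Module.finrank K W := by
      have h4 := LinearMap.finrank_range_add_finrank_ker (S.mkQ.domRestrict W)
      rw [LinearMap.range_domRestrict] at h4
      have h5 : LinearMap.ker (S.mkQ.domRestrict W) = S.comap W.subtype := by
        rw [LinearMap.domRestrict, LinearMap.ker_comp, Submodule.ker_mkQ]
      rw [h5, (Submodule.comapSubtypeEquivOfLe hSW).finrank_eq] at h4
      exact h4
    have h5 : Module.finrank K W = rk K v (F ∪ X) := rfl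
    have h6 : Module.finrank K S = rk K v F := rfl
    show Module.finrank K (Submodule.map S.mkQ W) ≤ 2
    omega
  have : Finite Q := Module.finite_of_finite K
  have : Fintype Q := Fintype.ofFinite Q
  have hcQ : Fintype.card Q ≤ 16 := by
    rw [Module.card_eq_pow_finrank (K := K), hK]
    calc 4 ^ Module.finrank K Q ≤ 4 ^ 2 := Nat.pow_le_pow_right (by norm_num) hQ
      _ = 16 := by norm_num
  -- the injection
  let f : {x // x ∈ X} × Kˣ → {q : Q // q ≠ 0} := fun p =>
    ⟨⟨S.mkQ ((p.2 : K) • v p.1.1), Submodule.mem_map_of_mem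
      (W.smul_mem _ (mem_sp (mem_union_right _ p.1.2)))⟩, by
      intro h0
      have h3 : S.mkQ ((p.2 : K) • v p.1.1) = 0 := congrArg Subtype.val h0
      rw [Submodule.mkQ_apply, Submodule.Quotient.mk_eq_zero] at h3
      apply h1 p.1.1 p.1.2
      have h4 := S.smul_mem ((p.2⁻¹ : Kˣ) : K) h3
      rwa [smul_smul, Units.inv_mul, one_smul] at h4⟩
  have hf : Function.Injective f := by
    rintro ⟨⟨x, hx⟩, a⟩ ⟨⟨y, hy⟩, b⟩ h
    have h3 : S.mkQ ((a : K) • v x) = S.mkQ ((b : K) • v y) :=
      congrArg Subtype.val (congrArg Subtype.val h)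
    rw [← sub_eq_zero, ← map_sub, Submodule.mkQ_apply, Submodule.Quotient.mk_eq_zero] at h3
    have hxy : x = y := by
      apply h2 x hx y hy
      have h5 : v x = ((a⁻¹ : Kˣ) : K) • (((a : K) • v x - (b : K) • v y) + (b : K) • v y) := by
        rw [sub_add_cancel, smul_smul, Units.inv_mul, one_smul]
      rw [h5]
      apply Submodule.smul_mem
      apply Submodule.add_mem
      · exact sp_mono (subset_insert _ _) h3
      · exact Submodule.smul_mem _ _ (mem_sp (mem_insert_self _ _))
    subst hxy
    have hab : (a : K) = b := by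
      by_contra hne
      apply h1 x hx
      rw [← sub_smul] at h3
      have h4 := S.smul_mem ((a : K) - b)⁻¹ h3
      rwa [smul_smul, inv_mul_cancel₀ (sub_ne_zero.2 hne), one_smul] at h4
    have hab' : a = b := Units.ext hab
    subst hab'
    rfl
  have hcard := Fintype.card_le_of_injective f hf
  rw [Fintype.card_prod, Fintype.card_coe, Fintype.card_units, hK] at hcard
  have h7 : Fintype.card {q : Q // q ≠ 0} = Fintype.card Q - 1 := by
    rw [Fintype.card_subtype_compl, Fintype.card_subtype_eq]
  rw [h7] at hcard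
  omega

/-- lines have at most five points over `GF(4)` -/
theorem line_card_le (hK : Fintype.card K = 4) {v : E → V} (hv : Simple K v) {X : Finset E}
    (hX : rk K v X ≤ 2) : X.card ≤ 5 := by
  apply pencil_card_le hK (v := v) (F := ∅)
  · rw [empty_union, rk_empty]; omega
  · intro x _
    rw [sp_empty, Submodule.mem_bot]
    exact hv.1 x
  · intro x _ y _ h
    apply hv.2 x y
    simpa using h

theorem C3 (hK : Fintype.card K = 4) {v : E → V} (hv : Simple K v) {ι : Type*} [Fintype ι]
    {A : ι → Finset E} (hA : IsMason K v ∅ univ A) (h3 : rk K v univ = 3) {H : Finset E}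
    (hH : IsFl K v H) (hH2 : rk K v H = 2) (hi : ∃ i, cl K v (A i) = H) :
    (univ \ H).card ≤ 4 := by
  classical
  have hB := hA.closure
  simp only [union_empty] at hB
  set B : ι → Finset E := fun i => cl K v (A i) with hBdef
  have hBfl : ∀ i, IsFl K v (B i) := fun i => isFl_cl
  set All : Finset (Finset E) := univ.filter (fun L => IsFl K v L ∧ rk K v L = 2) with hAll
  have hmemAll : ∀ L, L ∈ All ↔ IsFl K v L ∧ rk K v L = 2 := by
    intro L; simp [hAll]
  have h2 : ∀ L ∈ All, 2 ≤ L.card := by
    intro L hL
    have h4 := (hmemAll L).1 hL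
    have h5 : rk K v L ≤ L.card := rk_le_card
    omega
  have hline : ∀ e f : E, e ≠ f → cl K v {e, f} ∈ All := by
    intro e f hef
    rw [hmemAll]
    refine ⟨isFl_cl, ?_⟩
    have : rk K v (cl K v {e, f}) = rk K v {e, f} := rk_congr sp_cl
    rw [this, hv.rk_pair hef]
  have huniq : ∀ e f : E, e ≠ f → ∀ L ∈ All, e ∈ L → f ∈ L → L = cl K v {e, f} := by
    intro e f hef L hL he hf
    have h4 := (hmemAll L).1 hL
    symm
    apply h4.1.cl_eq
    · intro a ha
      rw [mem_insert, mem_singleton] at ha
      rcases ha with rfl | rfl <;> assumption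
    · rw [hv.rk_pair hef, h4.2]
  have hint : ∀ L ∈ All, ∀ L' ∈ All, L ≠ L' → (L ∩ L').card ≤ 1 := by
    intro L hL L' hL' hne
    by_contra hc
    obtain ⟨a, ha, b, hb, hab⟩ := one_lt_card.1 (show 1 < (L ∩ L').card by omega)
    rw [mem_inter] at ha hb
    exact hne ((huniq a b hab L hL ha.1 hb.1).trans (huniq a b hab L' hL' ha.2 hb.2).symm)
  have hpart : ∀ e : E, ∑ L ∈ All.filter (fun L => e ∈ L), (L.card - 1) + 1
      = Fintype.card E := by
    intro e
    have h4 : (univ.erase e : Finset E).card
        = ∑ L ∈ All.filter (fun L => e ∈ L), (L.card - 1) := by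
      rw [card_eq_sum_card_fiberwise (f := fun f => cl K v {e, f})
        (t := All.filter (fun L => e ∈ L))]
      · apply sum_congr rfl
        intro L hL
        rw [mem_filter] at hL
        have h5 : (univ.erase e).filter (fun f => cl K v {e, f} = L) = L.erase e := by
          ext f
          simp only [mem_filter, mem_erase, mem_univ, and_true]
          constructor
          · rintro ⟨h6, rfl⟩
            exact ⟨h6, subset_cl (by simp)⟩
          · rintro ⟨h6, h7⟩
            exact ⟨h6, (huniq e f (Ne.symm h6) L hL.1 hL.2 h7).symm⟩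
        rw [h5, card_erase_of_mem hL.2]
      · intro f hf
        rw [mem_coe, mem_erase] at hf
        rw [mem_coe, mem_filter]
        exact ⟨hline e f (Ne.symm hf.1), subset_cl (by simp)⟩
    rw [card_erase_of_mem (mem_univ e), card_univ] at h4
    have h5 : 0 < Fintype.card E := Fintype.card_pos_iff.2 ⟨e⟩
    omega
  have hpen : ∀ e : E, (All.filter (fun L => e ∈ L)).card ≤ 5 := by
    intro e
    have hch : ∀ L ∈ All.filter (fun L => e ∈ L), ∃ x ∈ L, x ≠ e := by
      intro L hL
      rw [mem_filter] at hL
      have h4 := h2 L hL.1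
      obtain ⟨a, ha, b, hb, hab⟩ := one_lt_card.1 (show 1 < L.card by omega)
      by_cases hae : a = e
      · exact ⟨b, hb, fun h => hab (hae.trans h.symm)⟩
      · exact ⟨a, ha, hae⟩
    have : Nonempty E := ⟨e⟩
    choose! g hg1 hg2 using hch
    set X := (All.filter (fun L => e ∈ L)).image g with hX
    have hinj : Set.InjOn g (All.filter (fun L => e ∈ L) : Finset (Finset E)) := by
      intro L hL L' hL' h
      have h5 := hg1 L hL
      have h6 := hg1 L' hL'
      have h7 := hg2 L hL
      rw [mem_coe, mem_filter] at hL hL'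
      rw [← h] at h6
      rw [huniq e (g L) (Ne.symm h7) L hL.1 hL.2 h5, huniq e (g L) (Ne.symm h7) L' hL'.1 hL'.2 h6]
    have hc : X.card = (All.filter (fun L => e ∈ L)).card := card_image_of_injOn hinj
    rw [← hc]
    apply pencil_card_le hK (v := v) (F := {e})
    · rw [hv.rk_singleton]
      have : rk K v ({e} ∪ X) ≤ rk K v univ := rk_mono (subset_univ _)
      omega
    · intro x hx
      rw [hX, mem_image] at hx
      obtain ⟨L, hL, rfl⟩ := hx
      rw [sp_singleton]
      intro h
      exact hg2 L hL (hv.2 _ _ h)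
    · intro x hx y hy h
      rw [hX, mem_image] at hx hy
      obtain ⟨L, hL, rfl⟩ := hx
      obtain ⟨L', hL', rfl⟩ := hy
      have h5 := hg1 L hL
      have h6 := hg1 L' hL'
      have h7 := hg2 L hL
      have h8 := hg2 L' hL'
      rw [mem_filter] at hL hL'
      have h9 : g L ∈ L' := by
        have h10 := huniq e (g L') (Ne.symm h8) L' hL'.1 hL'.2 h6
        rw [h10, mem_cl]
        have : ({e, g L'} : Finset E) = insert (g L') {e} := by
          ext a; simp [or_comm]
        rw [this]; exact h
      have h11 : L = L' := by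
        rw [huniq e (g L) (Ne.symm h7) L hL.1 hL.2 h5,
          huniq e (g L) (Ne.symm h7) L' hL'.1 hL'.2 h9]
      rw [h11]
  have hnB : ∀ L ∈ All, (univ.filter (fun i => B i = L)).card = L.card - 2 := by
    intro L hL
    have h4 := (hmemAll L).1 hL
    have h5 := hB.eq (empty_subset _) (subset_univ L) h4.1
    have h6 : univ.filter (fun i => B i = L) = univ.filter (fun i => B i ⊆ L) := by
      ext i
      simp only [mem_filter, mem_univ, true_and]
      constructor
      · rintro rfl; exact subset_rfl
      · intro h7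
        by_contra hne
        have h8 : B i ⊂ L := lt_of_le_of_ne h7 hne
        have h9 := (hBfl i).rk_lt_of_ssubset h8
        have h10 : (B i).card ≤ 1 := hv.card_le_one (K := K) (by omega)
        have h11 := hB.eq (empty_subset _) (subset_univ (B i)) (hBfl i)
        have h12 : (B i).card ≤ rk K v (B i) := by
          have := (hv.ind_of_card_le_two (X := B i) (by omega)).rk_eq_card
          omega
        have h13 : 0 < cnt B (B i) := by
          unfold cnt
          rw [card_pos]
          exact ⟨i, by simp⟩
        omega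
    rw [h6]
    have h7 : cnt B L = (univ.filter (fun i => B i ⊆ L)).card := rfl
    omega
  have hsum : ∑ L ∈ All, (L.card - 2) + 3 ≤ Fintype.card E := by
    have h4 := hB.le (empty_subset _) (subset_univ (univ : Finset E))
    rw [h3, card_univ] at h4
    have h5 : ∑ L ∈ All, (L.card - 2) ≤ cnt B univ := by
      rw [← sum_congr rfl hnB, ← card_biUnion]
      · apply card_le_card
        intro i hi
        rw [mem_biUnion] at hi
        simp
      · intro L _ L' _ hne
        show Disjoint _ _
        rw [disjoint_left]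
        intro i hi hi'
        simp only [mem_filter, mem_univ, true_and] at hi hi'
        exact hne (hi.symm.trans hi')
    omega
  have hHAll : H ∈ All := (hmemAll H).2 ⟨hH, hH2⟩
  have hH3 : 3 ≤ H.card := by
    obtain ⟨i, hi⟩ := hi
    have h4 := hnB H hHAll
    have h5 : 0 < (univ.filter (fun i => B i = H)).card := by
      rw [card_pos]
      exact ⟨i, by simpa [hBdef] using hi⟩
    omega
  exact plane_count All H hHAll h2 hint hpart hpen hsum hH3

end Ca3
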