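import Pool.Agent.Lib.MP_ca3eb1_co.AbMem
import Pool.Agent.Lib.MP_ca3eb1_co.C4.NoP6
import Pool.Agent.Lib.MP_ca3eb1_co.C3

/-! # Rank three over `GF(4)`: strict gammoids with a spanning member -/

set_option linter.unusedSectionVars false

namespace Ca3.Ab.PaAux

open Finset

variable {K V E : Type*} [Field K] [Fintype K] [AddCommGroup V] [Module K V]
  [FiniteDimensional K V] [Fintype E] [DecidableEq E]

theorem iv3_iff {v : E → V} {a b c : E} :
    Ca3.C4.Iv3 K v a b c ↔ Ca3.rk K v {a, b, c} = 3 := by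
  unfold Ca3.C4.Iv3 Ca3.Ind
  constructor
  · rintro ⟨h, hab, hac, hbc⟩
    rw [h]
    exact card_eq_three.2 ⟨a, b, c, hab, hac, hbc, rfl⟩
  · intro h
    have h1 : Ca3.rk K v {a, b, c} ≤ ({a, b, c} : Finset E).card := Ca3.rk_le_card
    have h2 : ({a, b, c} : Finset E).card ≤ 3 := card_le_three
    have h3 : ({a, b, c} : Finset E).card = 3 := by omega
    refine ⟨by rw [h, h3], ?_, ?_, ?_⟩
    · rintro rfl
      have : ({a, a, c} : Finset E).card ≤ 2 := by
        rw [insert_eq_of_mem (mem_insert_self _ _)]; exact card_le_two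
      omega
    · rintro rfl
      have : ({a, b, a} : Finset E).card ≤ 2 := by
        rw [insert_eq_of_mem (by simp)]; exact card_le_two
      omega
    · rintro rfl
      have : ({a, b, b} : Finset E).card ≤ 2 := by
        rw [insert_eq_of_mem (mem_singleton_self b)]; exact card_le_two
      omega

/-- no `P₆` -/
theorem p6_false {v : E → V} (hK : Fintype.card K = 4) (h3 : Ca3.rk K v univ ≤ 3)
    {p1 p2 p3 d1 d2 d3 : E} (hp : Ca3.rk K v {p1, p2, p3} ≠ 3)
    (hd : Ca3.rk K v {d1, d2, d3} = 3)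
    (h1 : ∀ d ∈ ({d1, d2, d3} : Finset E), Ca3.rk K v {p1, p2, d} = 3 ∧
      Ca3.rk K v {p1, p3, d} = 3 ∧ Ca3.rk K v {p2, p3, d} = 3)
    (h2 : ∀ p ∈ ({p1, p2, p3} : Finset E), Ca3.rk K v {p, d1, d2} = 3 ∧
      Ca3.rk K v {p, d1, d3} = 3 ∧ Ca3.rk K v {p, d2, d3} = 3) : False := by
  have e1 := h1 d1 (by simp)
  have e2 := h1 d2 (by simp)
  have e3 := h1 d3 (by simp)
  have f1 := h2 p1 (by simp)
  have f2 := h2 p2 (by simp)
  have f3 := h2 p3 (by simp)
  have hpat : Ca3.C4.patT 1 = [(0, 1, 2, 0), (0, 1, 3, 0), (0, 2, 3, 0), (1, 2, 3, 0),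
    (0, 1, 4, 0), (0, 2, 4, 0), (1, 2, 4, 0), (0, 3, 4, 0), (1, 3, 4, 0), (2, 3, 4, 0),
    (0, 1, 5, 0), (0, 2, 5, 0), (1, 2, 5, 0), (0, 3, 5, 0), (1, 3, 5, 0), (2, 3, 5, 0),
    (0, 4, 5, 1), (1, 4, 5, 0), (2, 4, 5, 0), (3, 4, 5, 0)] := by decide
  let y : ℕ → E := fun n => if n = 0 then p1 else if n = 1 then d1 else if n = 2 then d2 else
    if n = 3 then d3 else if n = 4 then p2 else p3
  have y0 : y 0 = p1 := rfl
  have y1 : y 1 = d1 := rfl
  have y2 : y 2 = d2 := rfl
  have y3 : y 3 = d3 := rfl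
  have y4 : y 4 = p2 := rfl
  have y5 : y 5 = p3 := rfl
  have s1 : ∀ a b c : E, ({a, b, c} : Finset E) = {b, a, c} := fun a b c => insert_comm a b {c}
  have s2 : ∀ a b c : E, ({a, b, c} : Finset E) = {a, c, b} := fun a b c => by
    rw [pair_comm b c]
  have s3 : ∀ a b c : E, ({a, b, c} : Finset E) = {c, a, b} := fun a b c => by
    rw [s2 a b c, s1 a c b]
  have s4 : ∀ a b c : E, ({a, b, c} : Finset E) = {b, c, a} := fun a b c => by
    rw [s1 a b c, s2 b a c]
  apply Ca3.C4.no_P6 hK h3 (y := y)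
  intro s hs
  rw [hpat] at hs
  simp only [List.mem_cons, List.not_mem_nil, or_false] at hs
  rw [iv3_iff]
  rcases hs with rfl | rfl | rfl | rfl | rfl | rfl | rfl | rfl | rfl | rfl | rfl | rfl | rfl | rfl |
    rfl | rfl | rfl | rfl | rfl | rfl
  · exact iff_of_true f1.1 rfl
  · exact iff_of_true f1.2.1 rfl
  · exact iff_of_true f1.2.2 rfl
  · exact iff_of_true hd rfl
  · refine iff_of_true ?_ rfl
    show Ca3.rk K v {p1, d1, p2} = 3
    rw [s2]; exact e1.1
  · refine iff_of_true ?_ rfl
    show Ca3.rk K v {p1, d2, p2} = 3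
    rw [s2]; exact e2.1
  · refine iff_of_true ?_ rfl
    show Ca3.rk K v {d1, d2, p2} = 3
    rw [s3]; exact f2.1
  · refine iff_of_true ?_ rfl
    show Ca3.rk K v {p1, d3, p2} = 3
    rw [s2]; exact e3.1
  · refine iff_of_true ?_ rfl
    show Ca3.rk K v {d1, d3, p2} = 3
    rw [s3]; exact f2.2.1
  · refine iff_of_true ?_ rfl
    show Ca3.rk K v {d2, d3, p2} = 3
    rw [s3]; exact f2.2.2
  · refine iff_of_true ?_ rfl
    show Ca3.rk K v {p1, d1, p3} = 3
    rw [s2]; exact e1.2.1
  · refine iff_of_true ?_ rfl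
    show Ca3.rk K v {p1, d2, p3} = 3
    rw [s2]; exact e2.2.1
  · refine iff_of_true ?_ rfl
    show Ca3.rk K v {d1, d2, p3} = 3
    rw [s3]; exact f3.1
  · refine iff_of_true ?_ rfl
    show Ca3.rk K v {p1, d3, p3} = 3
    rw [s2]; exact e3.2.1
  · refine iff_of_true ?_ rfl
    show Ca3.rk K v {d1, d3, p3} = 3
    rw [s3]; exact f3.2.1
  · refine iff_of_true ?_ rfl
    show Ca3.rk K v {d2, d3, p3} = 3
    rw [s3]; exact f3.2.2
  · exact iff_of_false hp (by decide)
  · refine iff_of_true ?_ rfl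
    show Ca3.rk K v {d1, p2, p3} = 3
    rw [s4]; exact e1.2.2
  · refine iff_of_true ?_ rfl
    show Ca3.rk K v {d2, p2, p3} = 3
    rw [s4]; exact e2.2.2
  · refine iff_of_true ?_ rfl
    show Ca3.rk K v {d3, p2, p3} = 3
    rw [s4]; exact e3.2.2

/-- no `P₆`, with sets -/
theorem p6_of {N : RF E} (hK : Fintype.card K = 4) (hr : Rep K N) (h3 : rk N univ ≤ 3)
    {S T : Finset E} (hS : S.card = 3) (hT : T.card = 3) (hST : Disjoint S T)
    (hS3 : rk N S ≠ 3) (hX : ∀ X, X ⊆ S ∪ T → X.card = 3 → ¬ X ⊆ S → rk N X = 3) : False := by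
  obtain ⟨n, w, hw⟩ := hr
  obtain ⟨p1, p2, p3, h12, h13, h23, rfl⟩ := card_eq_three.1 hS
  obtain ⟨d1, d2, d3, g12, g13, g23, rfl⟩ := card_eq_three.1 hT
  have hne : ∀ p ∈ ({p1, p2, p3} : Finset E), ∀ d ∈ ({d1, d2, d3} : Finset E), p ≠ d := by
    intro p hp d hd h
    exact (disjoint_left.1 hST hp) (h ▸ hd)
  have hns : ∀ d ∈ ({d1, d2, d3} : Finset E), d ∉ ({p1, p2, p3} : Finset E) :=
    fun d hd h => (disjoint_left.1 hST h) hd
  have key : ∀ a b c : E, a ≠ b → a ≠ c → b ≠ c → a ∈ ({p1, p2, p3} : Finset E) ∪ {d1, d2, d3} →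
      b ∈ ({p1, p2, p3} : Finset E) ∪ {d1, d2, d3} → c ∈ ({d1, d2, d3} : Finset E) →
      Ca3.rk K w {a, b, c} = 3 := by
    intro a b c hab hac hbc ha hb hc
    rw [hw]
    apply hX
    · intro z hz
      simp only [mem_insert, mem_singleton] at hz
      rcases hz with rfl | rfl | rfl
      · exact ha
      · exact hb
      · exact mem_union_right _ hc
    · exact card_eq_three.2 ⟨a, b, c, hab, hac, hbc, rfl⟩
    · intro h
      exact hns c hc (h (by simp))
  apply p6_false (v := w) hK (by rw [hw]; exact h3) (p1 := p1) (p2 := p2) (p3 := p3)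
    (d1 := d1) (d2 := d2) (d3 := d3)
  · rw [hw]; exact hS3
  · exact key d1 d2 d3 g12 g13 g23 (by simp) (by simp) (by simp)
  · intro d hd
    exact ⟨key p1 p2 d h12 (hne _ (by simp) _ hd) (hne _ (by simp) _ hd) (by simp) (by simp) hd,
      key p1 p3 d h13 (hne _ (by simp) _ hd) (hne _ (by simp) _ hd) (by simp) (by simp) hd,
      key p2 p3 d h23 (hne _ (by simp) _ hd) (hne _ (by simp) _ hd) (by simp) (by simp) hd⟩
  · intro p hp
    exact ⟨key p d1 d2 (hne _ hp _ (by simp)) (hne _ hp _ (by simp)) g12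
        (mem_union_left _ hp) (by simp) (by simp),
      key p d1 d3 (hne _ hp _ (by simp)) (hne _ hp _ (by simp)) g13
        (mem_union_left _ hp) (by simp) (by simp),
      key p d2 d3 (hne _ hp _ (by simp)) (hne _ hp _ (by simp)) g23
        (mem_union_left _ hp) (by simp) (by simp)⟩

section rank3

variable {N : RF E} {ι : Type*} [Fintype ι] {A : ι → Finset E} {L L' L1 L2 L3 X : Finset E}

/-- a line with at least three points is a member -/
theorem exists_line (hA : Fam N A) (hN : Simple N) (hL : IsFl N L) (h2 : rk N L = 2)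
    (hc : 3 ≤ L.card) : ∃ i, A i = L := by
  have h := hA.line hN hL h2
  obtain ⟨i, hi⟩ := card_pos.1 (show 0 < (univ.filter (fun i => A i = L)).card by omega)
  exact ⟨i, (mem_filter.1 hi).2⟩

/-- two different lines, one inside the other: impossible -/
theorem line_not_sub (hL' : IsFl N L') (h2 : rk N L = 2) (h2' : rk N L' = 2) (hne : L' ≠ L) :
    ¬ L' ⊆ L := fun h => hne (hL'.eq_of_subset_of_rk_le h (by omega))

/-- two points determine the line -/
theorem line_eq (hN : Simple N) (hL : IsFl N L) (hL' : IsFl N L') (h2 : rk N L = 2)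
    (h2' : rk N L' = 2) {p q : E} (hpq : p ≠ q) (hp : p ∈ L) (hq : q ∈ L) (hp' : p ∈ L')
    (hq' : q ∈ L') : L = L' := by
  have h := hN.rk_pair hpq
  have h1 : cl N {p, q} = L := hL.cl_eq (by
    intro z hz
    simp only [mem_insert, mem_singleton] at hz
    rcases hz with rfl | rfl
    · exact hp
    · exact hq) (by omega)
  have h2 : cl N {p, q} = L' := hL'.cl_eq (by
    intro z hz
    simp only [mem_insert, mem_singleton] at hz
    rcases hz with rfl | rfl
    · exact hp'
    · exact hq') (by omega)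
  rw [← h1, h2]

/-- `|E - L| ≤ 4` -/
theorem compl_line_le (hK : Fintype.card K = 4) (hr : Rep K N) (hN : Simple N) (hA : Fam N A)
    (h3 : rk N univ = 3) (hL : IsFl N L) (h2 : rk N L = 2) (hc : 3 ≤ L.card) : Lᶜ.card ≤ 4 := by
  obtain ⟨n, w, hw⟩ := hr
  have hNw : N = RF.ofVec K w := RF.ext' fun Z => (hw Z).symm
  subst hNw
  obtain ⟨i, hi⟩ := exists_line hA hN hL h2 hc
  rw [compl_eq_univ_sdiff]
  refine Ca3.C3 hK (simple_ofVec.1 hN) (isMason_ofVec.1 hA.mason) h3 (isFl_ofVec.1 hL) h2 ⟨i, ?_⟩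
  rw [← cl_ofVec]
  exact (hA.fl i).trans hi

/-- a dependent triple spans a line with at least three points -/
theorem cl_dep (hN : Simple N) (hX : X.card = 3) (h : rk N X ≠ 3) :
    IsFl N (cl N X) ∧ rk N (cl N X) = 2 ∧ 3 ≤ (cl N X).card := by
  have h1 := hN.two_le_rk (X := X) (by omega)
  have h2 : rk N X ≤ X.card := rk_le_card
  refine ⟨isFl_cl, by rw [rk_cl]; omega, ?_⟩
  rw [← hX]
  exact card_le_card subset_cl

/-- members outside a line -/
theorem card_outside (hA : Fam N A) (h3 : rk N univ = 3) (hL : IsFl N L) (h2 : rk N L = 2) :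
    (univ.filter (fun i => ¬ A i ⊆ L)).card + 1 = Lᶜ.card := by
  have := hA.not_in_flat hL
  omega

/-- (R3a) two spanning members: no line with three points -/
theorem r3_two (hK : Fintype.card K = 4) (hr : Rep K N) (hN : Simple N) (hA : Fam N A)
    (h3 : rk N univ = 3) {i j : ι} (hij : i ≠ j) (hi : A i = univ) (hj : A j = univ)
    (hL : IsFl N L) (h2 : rk N L = 2) (hc : 3 ≤ L.card) : False := by
  classical
  have hc4 := compl_line_le hK hr hN hA h3 hL h2 hc
  have hO := card_outside hA h3 hL h2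
  set O : Finset ι := univ.filter (fun i => ¬ A i ⊆ L) with hOdef
  have hLu : L ≠ univ := by
    rintro rfl
    omega
  have hmem : ∀ k : ι, A k = univ → k ∈ O := by
    intro k hk
    rw [hOdef, mem_filter, hk]
    exact ⟨mem_univ _, fun h => hLu (univ_subset_iff.1 h)⟩
  have hiO := hmem i hi
  have hjO := hmem j hj
  -- another line
  have hline : ∀ L', IsFl N L' → rk N L' = 2 → L' ≠ L → ∀ k, A k = L' →
      k ∈ O ∧ k ≠ i ∧ k ≠ j := by
    intro L' hL' h2' hne k hk
    refine ⟨?_, ?_, ?_⟩
    · rw [hOdef, mem_filter, hk]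
      exact ⟨mem_univ _, line_not_sub hL' h2 h2' hne⟩
    · rintro rfl
      rw [hi] at hk
      rw [← hk] at h2'
      omega
    · rintro rfl
      rw [hj] at hk
      rw [← hk] at h2'
      omega
  have hij2 : ({i, j} : Finset ι).card = 2 := card_pair hij
  have hsub2 : ({i, j} : Finset ι) ⊆ O := by
    intro z hz
    simp only [mem_insert, mem_singleton] at hz
    rcases hz with rfl | rfl
    · exact hiO
    · exact hjO
  have hO2 := card_le_card hsub2
  -- the set T
  obtain ⟨T, hTL, hT3, hTX⟩ : ∃ T : Finset E, T ⊆ Lᶜ ∧ T.card = 3 ∧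
      ∀ X, X ⊆ L ∪ T → X.card = 3 → ¬ X ⊆ L → rk N X = 3 := by
    by_cases hex : ∃ L', IsFl N L' ∧ rk N L' = 2 ∧ L' ≠ L ∧ 3 ≤ L'.card
    · obtain ⟨L', hL', h2', hne, hc'⟩ := hex
      obtain ⟨k, hk⟩ := exists_line hA hN hL' h2' hc'
      obtain ⟨hkO, hki, hkj⟩ := hline L' hL' h2' hne k hk
      -- `O` has exactly three elements
      have hsub3 : ({k, i, j} : Finset ι) ⊆ O := insert_subset hkO hsub2
      have hk3 : ({k, i, j} : Finset ι).card = 3 :=
        card_eq_three.2 ⟨k, i, j, hki, hkj, hij, rfl⟩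
      have hO3 := card_le_card hsub3
      have hOeq : ({k, i, j} : Finset ι) = O := eq_of_subset_of_card_le hsub3 (by omega)
      -- the other line is unique and has three points
      have huniq : ∀ L'', IsFl N L'' → rk N L'' = 2 → L'' ≠ L → 3 ≤ L''.card → L'' = L' := by
        intro L'' hL'' h2'' hne'' hc''
        obtain ⟨m, hm⟩ := exists_line hA hN hL'' h2'' hc''
        obtain ⟨hmO, hmi, hmj⟩ := hline L'' hL'' h2'' hne'' m hm
        rw [← hOeq] at hmO
        simp only [mem_insert, mem_singleton] at hmO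
        rcases hmO with rfl | rfl | rfl
        · rw [← hm, hk]
        · exact absurd rfl hmi
        · exact absurd rfl hmj
      have hL'3 : L'.card = 3 := by
        have h := hA.line hN hL' h2'
        have h1 : (univ.filter (fun i => A i = L')).card ≤ 1 := by
          rw [card_le_one]
          intro a ha b hb
          rw [mem_filter] at ha hb
          have h4 := hline L' hL' h2' hne a ha.2
          have h5 := hline L' hL' h2' hne b hb.2
          have h6 := h4.1
          have h7 := h5.1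
          rw [← hOeq] at h6 h7
          simp only [mem_insert, mem_singleton] at h6 h7
          rcases h6 with rfl | rfl | rfl
          · rcases h7 with rfl | rfl | rfl
            · rfl
            · exact absurd rfl h5.2.1
            · exact absurd rfl h5.2.2
          · exact absurd rfl h4.2.1
          · exact absurd rfl h4.2.2
        omega
      -- a point of `L'` outside `L`
      obtain ⟨z, hz, hzL⟩ := not_subset.1 (line_not_sub hL' h2 h2' hne)
      refine ⟨Lᶜ.erase z, erase_subset _ _, ?_, ?_⟩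
      · rw [card_erase_of_mem (mem_compl.2 hzL)]
        omega
      · intro X hX hX3 hXL
        by_contra hr3
        obtain ⟨g1, g2, g3⟩ := cl_dep hN hX3 hr3
        have hne' : cl N X ≠ L := fun h => hXL (subset_cl.trans h.le)
        have h5 := huniq _ g1 g2 hne' g3
        have h6 : X = L' := by
          apply eq_of_subset_of_card_le
          · rw [← h5]; exact subset_cl
          · omega
        have h7 : z ∈ X := by rw [h6]; exact hz
        rcases mem_union.1 (hX h7) with h8 | h8
        · exact hzL h8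
        · exact (notMem_erase z _) h8
    · push Not at hex
      obtain ⟨T, hT, hT3⟩ := exists_subset_card_eq (show 3 ≤ Lᶜ.card by omega)
      refine ⟨T, hT, hT3, ?_⟩
      intro X hX hX3 hXL
      by_contra hr3
      obtain ⟨g1, g2, g3⟩ := cl_dep hN hX3 hr3
      have hne' : cl N X ≠ L := fun h => hXL (subset_cl.trans h.le)
      have := hex _ g1 g2 hne'
      omega
  obtain ⟨S, hSL, hS3⟩ := exists_subset_card_eq hc
  refine p6_of hK hr h3.le hS3 hT3 ?_ ?_ ?_
  · rw [disjoint_left]
    intro z hz hz'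
    exact (mem_compl.1 (hTL hz')) (hSL hz)
  · have := rk_mono (N := N) hSL
    omega
  · intro X hX hX3 hXS
    apply hTX X (hX.trans (union_subset_union_left hSL)) hX3
    intro hXL
    apply hXS
    intro z hz
    rcases mem_union.1 (hX hz) with h8 | h8
    · exact h8
    · exact absurd (hXL hz) (mem_compl.1 (hTL h8))

/-- (R3b) one spanning member: two lines meeting in a point have three points each -/
theorem r3_meet (hK : Fintype.card K = 4) (hr : Rep K N) (hN : Simple N) (hA : Fam N A)
    (h3 : rk N univ = 3) {i : ι} (hi : A i = univ) (hL1 : IsFl N L1) (hL2 : IsFl N L2)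
    (h21 : rk N L1 = 2) (h22 : rk N L2 = 2) (hne : L1 ≠ L2) {a : E} (ha1 : a ∈ L1)
    (ha2 : a ∈ L2) (hc1 : 4 ≤ L1.card) (hc2 : 3 ≤ L2.card) : False := by
  classical
  have hc4 := compl_line_le hK hr hN hA h3 hL1 h21 (by omega)
  have hO := card_outside hA h3 hL1 h21
  set O : Finset ι := univ.filter (fun i => ¬ A i ⊆ L1) with hOdef
  have hLu : L1 ≠ univ := by
    rintro rfl
    omega
  have hiO : i ∈ O := by
    rw [hOdef, mem_filter, hi]
    exact ⟨mem_univ _, fun h => hLu (univ_subset_iff.1 h)⟩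
  -- `M` : indices of a line
  have hM : ∀ L', IsFl N L' → rk N L' = 2 → L' ≠ L1 →
      (univ.filter (fun k => A k = L')) ⊆ O ∧ i ∉ (univ.filter (fun k => A k = L')) := by
    intro L' hL' h2' hne'
    constructor
    · intro k hk
      rw [mem_filter] at hk
      rw [hOdef, mem_filter, hk.2]
      exact ⟨mem_univ _, line_not_sub hL' h21 h2' hne'⟩
    · intro h
      rw [mem_filter, hi] at h
      rw [← h.2] at h2'
      omega
  have hM2 := hM L2 hL2 h22 hne.symm
  have hl2 := hA.line hN hL2 h22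
  have hinter : ∀ z, z ∈ L1 → z ∈ L2 → z = a := by
    intro z hz1 hz2
    by_contra hza
    exact hne (line_eq hN hL1 hL2 h21 h22 hza hz1 ha1 hz2 ha2)
  -- `O` contains `i` and the indices of `L2`
  have hins : insert i (univ.filter (fun k => A k = L2)) ⊆ O := insert_subset hiO hM2.1
  have hinsc := card_le_card hins
  rw [card_insert_of_notMem hM2.2] at hinsc
  -- two points of `L2`
  have hL2a : 2 ≤ (L2.erase a).card := by
    rw [card_erase_of_mem ha2]; omega
  obtain ⟨F, hF, hF2⟩ := exists_subset_card_eq hL2a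
  have hF1 : ∀ z ∈ F, z ∈ L2 ∧ z ∉ L1 := by
    intro z hz
    have := mem_erase.1 (hF hz)
    exact ⟨this.2, fun h => this.1 (hinter z h this.2)⟩
  obtain ⟨S, hS, hS3⟩ := exists_subset_card_eq (show 3 ≤ (L1.erase a).card by
    rw [card_erase_of_mem ha1]; omega)
  have hS1 : ∀ z ∈ S, z ∈ L1 ∧ z ∉ L2 := by
    intro z hz
    have := mem_erase.1 (hS hz)
    exact ⟨this.2, fun h => this.1 (hinter z this.2 h)⟩
  -- the line through a point outside `L1 ∪ L2`
  have hB : ∀ x, x ∉ L1 → x ∉ L2 → ∃ B s f, IsFl N B ∧ rk N B = 2 ∧ x ∈ B ∧ s ∈ B ∧ f ∈ B ∧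
      s ∈ L1 ∧ s ∉ L2 ∧ f ∈ F := by
    intro x hx1 hx2
    by_contra hcon
    push Not at hcon
    have hxF : x ∉ F := fun h => hx2 (hF1 x h).1
    refine p6_of hK hr h3.le (S := S) (T := insert x F) hS3 ?_ ?_ ?_ ?_
    · rw [card_insert_of_notMem hxF, hF2]
    · rw [disjoint_left]
      intro z hz hz'
      rcases mem_insert.1 hz' with rfl | hz'
      · exact hx1 (hS1 _ hz).1
      · exact (hF1 z hz').2 (hS1 z hz).1
    · have := rk_mono (N := N) (show S ⊆ L1 from fun z hz => (hS1 z hz).1)
      omega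
    · intro X hX hX3 hXS
      by_contra hr3
      obtain ⟨g1, g2, g3⟩ := cl_dep hN hX3 hr3
      have hXc : ∀ z ∈ X, z ∈ cl N X := fun z hz => subset_cl hz
      -- at most one element in S unless the line is L1
      have hS1' : ∀ z ∈ X, ∀ z' ∈ X, z ∈ L1 → z' ∈ L1 → z ≠ z' → X ⊆ L1 := by
        intro z hz z' hz' h1 h1' hzz
        have := line_eq hN g1 hL1 g2 h21 hzz (hXc z hz) (hXc z' hz') h1 h1'
        rw [← this]; exact subset_cl
      have hF1' : ∀ z ∈ X, ∀ z' ∈ X, z ∈ L2 → z' ∈ L2 → z ≠ z' → X ⊆ L2 := by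
        intro z hz z' hz' h1 h1' hzz
        have := line_eq hN g1 hL2 g2 h22 hzz (hXc z hz) (hXc z' hz') h1 h1'
        rw [← this]; exact subset_cl
      have hXS1 : (X ∩ S).card ≤ 1 := by
        rw [card_le_one]
        intro z hz z' hz'
        rw [mem_inter] at hz hz'
        by_contra hzz
        have h5 := hS1' z hz.1 z' hz'.1 (hS1 z hz.2).1 (hS1 z' hz'.2).1 hzz
        apply hXS
        intro u hu
        rcases mem_union.1 (hX hu) with h6 | h6
        · exact h6
        · rcases mem_insert.1 h6 with h6 | h6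
          · exact absurd (h5 hu) (h6 ▸ hx1)
          · exact absurd (h5 hu) (hF1 u h6).2
      have hXF1 : (X ∩ F).card ≤ 1 := by
        rw [card_le_one]
        intro z hz z' hz'
        rw [mem_inter] at hz hz'
        by_contra hzz
        have h5 := hF1' z hz.1 z' hz'.1 (hF1 z hz.2).1 (hF1 z' hz'.2).1 hzz
        -- X inside F
        have h6 : X ⊆ F := by
          intro u hu
          rcases mem_union.1 (hX hu) with h6 | h6
          · exact absurd (h5 hu) (hS1 u h6).2
          · rcases mem_insert.1 h6 with h6 | h6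
            · exact absurd (h5 hu) (h6 ▸ hx2)
            · exact h6
        have := card_le_card h6
        omega
      have hXx : X ⊆ (X ∩ S) ∪ (X ∩ F) ∪ {x} := by
        intro u hu
        simp only [mem_union, mem_inter, mem_singleton]
        rcases mem_union.1 (hX hu) with h6 | h6
        · exact Or.inl (Or.inl ⟨hu, h6⟩)
        · rcases mem_insert.1 h6 with h6 | h6
          · exact Or.inr h6
          · exact Or.inl (Or.inr ⟨hu, h6⟩)
      have hcc := card_le_card hXx
      have hu1 := card_union_le ((X ∩ S) ∪ (X ∩ F)) {x}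
      have hu2 := card_union_le (X ∩ S) (X ∩ F)
      rw [card_singleton] at hu1
      obtain ⟨s, hs⟩ := card_pos.1 (show 0 < (X ∩ S).card by omega)
      obtain ⟨f, hf⟩ := card_pos.1 (show 0 < (X ∩ F).card by omega)
      rw [mem_inter] at hs hf
      have hxX : x ∈ X := by
        by_contra hxX
        have : X ⊆ (X ∩ S) ∪ (X ∩ F) := by
          intro u hu
          have := hXx hu
          rw [mem_union, mem_singleton] at this
          rcases this with h | h
          · exact h
          · exact absurd hu (h ▸ hxX)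
        have := card_le_card this
        omega
      exact hcon (cl N X) s f g1 g2 (hXc x hxX) (hXc s hs.1) (hXc f hf.1) (hS1 s hs.2).1
        (hS1 s hs.2).2 hf.2
  -- a point outside
  obtain ⟨x, hx1, hx2⟩ : ∃ x, x ∉ L1 ∧ x ∉ L2 := by
    by_contra hcon
    push Not at hcon
    have h5 : L1ᶜ ⊆ L2.erase a := by
      intro z hz
      rw [mem_compl] at hz
      rw [mem_erase]
      refine ⟨?_, hcon z hz⟩
      rintro rfl
      exact hz ha1
    have := card_le_card h5
    rw [card_erase_of_mem ha2] at this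
    omega
  obtain ⟨B, s, f, hBf, hB2, hxB, hsB, hfB, hs1, hs2, hfF⟩ := hB x hx1 hx2
  have hBL1 : B ≠ L1 := fun h => hx1 (h ▸ hxB)
  have hBL2 : B ≠ L2 := fun h => hx2 (h ▸ hxB)
  have hxs : x ≠ s := fun h => hx1 (h ▸ hs1)
  have hxf : x ≠ f := fun h => hx2 (h ▸ (hF1 f hfF).1)
  have hsf : s ≠ f := fun h => (hF1 f hfF).2 (h ▸ hs1)
  have hBc : 3 ≤ B.card := by
    have h5 : ({x, s, f} : Finset E) ⊆ B := by
      intro z hz
      simp only [mem_insert, mem_singleton] at hz
      rcases hz with rfl | rfl | rfl <;> assumption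
    have h6 : ({x, s, f} : Finset E).card = 3 := card_eq_three.2 ⟨x, s, f, hxs, hxf, hsf, rfl⟩
    have := card_le_card h5
    omega
  have hMB := hM B hBf hB2 hBL1
  have hlB := hA.line hN hBf hB2
  -- disjointness of the index sets
  have hdis : ∀ P Q : Finset E, P ≠ Q → Disjoint (univ.filter (fun k => A k = P))
      (univ.filter (fun k => A k = Q)) := by
    intro P Q hPQ
    rw [disjoint_left]
    intro k hk hk'
    rw [mem_filter] at hk hk'
    exact hPQ (hk.2.symm.trans hk'.2)
  have h5 : insert i ((univ.filter (fun k => A k = L2)) ∪ (univ.filter (fun k => A k = B))) ⊆ O :=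
    insert_subset hiO (union_subset hM2.1 hMB.1)
  have h6 := card_le_card h5
  rw [card_insert_of_notMem (by
    rw [mem_union, not_or]; exact ⟨hM2.2, hMB.2⟩),
    card_union_of_disjoint (hdis _ _ hBL2.symm)] at h6
  have hBc3 : B.card = 3 := by omega
  have hL2c3 : L2.card = 3 := by omega
  have hOc : O.card = 3 := by omega
  -- a second point outside
  obtain ⟨y, hy1, hy2, hyx⟩ : ∃ y, y ∉ L1 ∧ y ∉ L2 ∧ y ≠ x := by
    by_contra hcon
    push Not at hcon
    have h7 : L1ᶜ ⊆ insert x (L2.erase a) := by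
      intro z hz
      rw [mem_compl] at hz
      rw [mem_insert]
      by_cases hzx : z = x
      · exact Or.inl hzx
      · right
        rw [mem_erase]
        refine ⟨?_, ?_⟩
        · rintro rfl
          exact hz ha1
        · by_contra hz2
          exact hzx (hcon z hz hz2)
    have := card_le_card h7
    have h8 := card_insert_le x (L2.erase a)
    rw [card_erase_of_mem ha2] at h8
    omega
  obtain ⟨B', s', f', hBf', hB2', hxB', hsB', hfB', hs1', hs2', hfF'⟩ := hB y hy1 hy2
  have hBL1' : B' ≠ L1 := fun h => hy1 (h ▸ hxB')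
  have hBL2' : B' ≠ L2 := fun h => hy2 (h ▸ hxB')
  have hBB : B' = B := by
    by_contra hBB
    have hBc' : 3 ≤ B'.card := by
      have h5 : ({y, s', f'} : Finset E) ⊆ B' := by
        intro z hz
        simp only [mem_insert, mem_singleton] at hz
        rcases hz with rfl | rfl | rfl <;> assumption
      have h6 : ({y, s', f'} : Finset E).card = 3 := card_eq_three.2 ⟨y, s', f',
        fun h => hy1 (h ▸ hs1'), fun h => hy2 (h ▸ (hF1 f' hfF').1),
        fun h => (hF1 f' hfF').2 (h ▸ hs1'), rfl⟩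
      have := card_le_card h5
      omega
    have hMB' := hM B' hBf' hB2' hBL1'
    have hlB' := hA.line hN hBf' hB2'
    have h7 : insert i ((univ.filter (fun k => A k = L2)) ∪ (univ.filter (fun k => A k = B)) ∪
        (univ.filter (fun k => A k = B'))) ⊆ O :=
      insert_subset hiO (union_subset (union_subset hM2.1 hMB.1) hMB'.1)
    have h8 := card_le_card h7
    rw [card_insert_of_notMem (by
      rw [mem_union, mem_union, not_or, not_or]; exact ⟨⟨hM2.2, hMB.2⟩, hMB'.2⟩),
      card_union_of_disjoint (by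
        rw [disjoint_union_left]
        exact ⟨hdis _ _ hBL2'.symm, hdis _ _ (Ne.symm hBB)⟩),
      card_union_of_disjoint (hdis _ _ hBL2.symm)] at h8
    omega
  rw [hBB] at hxB'
  have h9 : ({y, x, s, f} : Finset E) ⊆ B := by
    intro z hz
    simp only [mem_insert, mem_singleton] at hz
    rcases hz with rfl | rfl | rfl | rfl <;> assumption
  have h10 : ({y, x, s, f} : Finset E).card = 4 := by
    rw [card_insert_of_notMem, card_eq_three.2 ⟨x, s, f, hxs, hxf, hsf, rfl⟩]
    simp only [mem_insert, mem_singleton, not_or]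
    exact ⟨hyx, fun h => hy1 (h ▸ hs1), fun h => hy2 (h ▸ (hF1 f hfF).1)⟩
  have := card_le_card h9
  omega

/-- (R3c) one spanning member: three lines with at least three points do not form a path -/
theorem r3_path (hK : Fintype.card K = 4) (hr : Rep K N) (hN : Simple N) (hA : Fam N A)
    (h3 : rk N univ = 3) {i : ι} (hi : A i = univ) (hL1 : IsFl N L1) (hL2 : IsFl N L2)
    (hL3 : IsFl N L3) (h21 : rk N L1 = 2) (h22 : rk N L2 = 2) (h23 : rk N L3 = 2)
    (hne : L1 ≠ L2) (hne' : L2 ≠ L3) {p q : E} (hpq : p ≠ q) (hp1 : p ∈ L1) (hp2 : p ∈ L2)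
    (hq2 : q ∈ L2) (hq3 : q ∈ L3) (hc1 : 3 ≤ L1.card) (hc2 : 3 ≤ L2.card) (hc3 : 3 ≤ L3.card) :
    False := by
  classical
  have hl1 : L1.card = 3 := by
    by_contra h
    exact r3_meet hK hr hN hA h3 hi hL1 hL2 h21 h22 hne hp1 hp2 (by omega) hc2
  have hl2 : L2.card = 3 := by
    by_contra h
    exact r3_meet hK hr hN hA h3 hi hL2 hL1 h22 h21 hne.symm hp2 hp1 (by omega) hc1
  have hl3 : L3.card = 3 := by
    by_contra h
    exact r3_meet hK hr hN hA h3 hi hL3 hL2 h23 h22 hne'.symm hq3 hq2 (by omega) hc2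
  have hne13 : L1 ≠ L3 := by
    rintro rfl
    exact hne (line_eq hN hL1 hL2 h21 h22 hpq hp1 hq3 hp2 hq2)
  have hp3 : p ∉ L3 := fun h => hne' (line_eq hN hL2 hL3 h22 h23 hpq hp2 hq2 h hq3)
  have hc4 := compl_line_le hK hr hN hA h3 hL2 h22 (by omega)
  have hO := card_outside hA h3 hL2 h22
  set O : Finset ι := univ.filter (fun i => ¬ A i ⊆ L2) with hOdef
  have hLu : L2 ≠ univ := by
    rintro rfl
    omega
  have hiO : i ∈ O := by
    rw [hOdef, mem_filter, hi]
    exact ⟨mem_univ _, fun h => hLu (univ_subset_iff.1 h)⟩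
  have hM : ∀ L', IsFl N L' → rk N L' = 2 → L' ≠ L2 → ∀ k, A k = L' → k ∈ O ∧ k ≠ i := by
    intro L' hL' h2' hne' k hk
    constructor
    · rw [hOdef, mem_filter, hk]
      exact ⟨mem_univ _, line_not_sub hL' h22 h2' hne'⟩
    · rintro rfl
      rw [hi] at hk
      rw [← hk] at h2'
      omega
  obtain ⟨j1, hj1⟩ := exists_line hA hN hL1 h21 hc1
  obtain ⟨j3, hj3⟩ := exists_line hA hN hL3 h23 hc3
  have m1 := hM L1 hL1 h21 hne j1 hj1
  have m3 := hM L3 hL3 h23 hne'.symm j3 hj3
  have j13 : j1 ≠ j3 := by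
    rintro rfl
    exact hne13 (hj1.symm.trans hj3)
  have hsub : ({i, j1, j3} : Finset ι) ⊆ O := by
    intro z hz
    simp only [mem_insert, mem_singleton] at hz
    rcases hz with rfl | rfl | rfl
    · exact hiO
    · exact m1.1
    · exact m3.1
  have hsubc : ({i, j1, j3} : Finset ι).card = 3 :=
    card_eq_three.2 ⟨i, j1, j3, m1.2.symm, m3.2.symm, j13, rfl⟩
  have hO3 := card_le_card hsub
  have hOeq : ({i, j1, j3} : Finset ι) = O := eq_of_subset_of_card_le hsub (by omega)
  have hall : ∀ B, IsFl N B → rk N B = 2 → 3 ≤ B.card → B = L1 ∨ B = L2 ∨ B = L3 := by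
    intro B hB hB2 hB3
    by_cases hBL : B = L2
    · exact Or.inr (Or.inl hBL)
    obtain ⟨k, hk⟩ := exists_line hA hN hB hB2 hB3
    have m := hM B hB hB2 hBL k hk
    rw [← hOeq] at m
    simp only [mem_insert, mem_singleton] at m
    rcases m.1 with h | h | h
    · exact absurd h m.2
    · left; rw [← hk, h, hj1]
    · right; right; rw [← hk, h, hj3]
  have huniv : (univ : Finset E).card = 7 := by
    have := card_add_card_compl L2
    rw [card_univ]
    omega
  have hT : ((univ \ L3).erase p).card = 3 := by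
    rw [card_erase_of_mem (mem_sdiff.2 ⟨mem_univ _, hp3⟩), card_sdiff_of_subset (subset_univ _),
      huniv, hl3]
  refine p6_of hK hr h3.le (S := L3) (T := (univ \ L3).erase p) hl3 hT ?_ (by omega) ?_
  · rw [disjoint_left]
    intro z hz hz'
    exact (mem_sdiff.1 (mem_erase.1 hz').2).2 hz
  · intro X hX hX3 hXS
    by_contra hr3
    obtain ⟨g1, g2, g3⟩ := cl_dep hN hX3 hr3
    have hpX : p ∉ X := by
      intro h
      rcases mem_union.1 (hX h) with h6 | h6
      · exact hp3 h6
      · exact (notMem_erase p _) h6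
    rcases hall _ g1 g2 g3 with h | h | h
    · apply hpX
      have : X = L1 := eq_of_subset_of_card_le (h ▸ subset_cl) (by omega)
      rw [this]; exact hp1
    · apply hpX
      have : X = L2 := eq_of_subset_of_card_le (h ▸ subset_cl) (by omega)
      rw [this]; exact hp2
    · exact hXS (h ▸ subset_cl)

end rank3

end Ca3.Ab.PaAux
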