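import Pool.Agent.Lib.MP_ca3eb1_co.AbReps
import Pool.Agent.Lib.MP_ca3eb1_co.AbRankThree

/-! # Structure of strict gammoids with a spanning member

`big_compl`: a proper member `F` of rank at least three has `r(E - F) ≤ r(E) - r(F) + 1`.
`pa_kc`: a proper member of rank at least three or of multiplicity at least two meets no other
proper member.  `no_path`: three member lines do not form a path. -/

set_option linter.unusedSectionVars false

namespace Ca3.Ab.PaAux

open Finset

variable {K E : Type*} [Field K] [Fintype K] [DecidableEq E] [Fintype E] {N : RF E}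
  {ι : Type*} [Fintype ι] {A : ι → Finset E} {X Y Z S V F : Finset E} {i j m m' : ι} {x y : E}

/-- the elements of `S` are pairwise independent over `Y` -/
def Sep (N : RF E) (Y S : Finset E) : Prop :=
  (∀ r ∈ S, r ∉ sp N Y) ∧ ∀ r ∈ S, ∀ s ∈ S, r ∈ sp N (insert s Y) → r = s

theorem Sep.subset (h : Sep N Y S) (hX : X ⊆ S) : Sep N Y X :=
  ⟨fun r hr => h.1 r (hX hr), fun r hr s hs => h.2 r (hX hr) s (hX hs)⟩

theorem Sep.rk_pair (h : Sep N Y S) {r s : E} (hr : r ∈ S) (hs : s ∈ S) (hrs : r ≠ s) :
    rk N (insert r (insert s Y)) = rk N Y + 2 := by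
  rw [rk_insert_of_not_mem_sp (fun h' => hrs (h.2 r hr s hs h')),
    rk_insert_of_not_mem_sp (h.1 s hs)]

theorem Sep.two_le (h : Sep N Y S) (hS : 2 ≤ S.card) : rk N Y + 2 ≤ rk N (S ∪ Y) := by
  obtain ⟨r, hr, s, hs, hrs⟩ := one_lt_card.1 (show 1 < S.card by omega)
  rw [← h.rk_pair hr hs hrs]
  exact rk_mono (insert_subset (mem_union_left _ hr)
    (insert_subset (mem_union_left _ hs) subset_union_right))

/-- subsets of a set which is skew to `Y` -/
theorem rk_skew (h : rk N (S ∪ Y) = rk N S + rk N Y) (hX : X ⊆ S) :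
    rk N (X ∪ Y) = rk N X + rk N Y := by
  have h1 := rk_union_add_rk_inter (N := N) (X := X ∪ Y) (Y := S)
  have h2 : rk N ((X ∪ Y) ∪ S) = rk N (S ∪ Y) := by
    congr 1
    ext z
    simp only [mem_union]
    constructor
    · rintro ((h | h) | h)
      · exact Or.inl (hX h)
      · exact Or.inr h
      · exact Or.inl h
    · rintro (h | h)
      · exact Or.inr h
      · exact Or.inl (Or.inr h)
  have h3 : rk N X ≤ rk N ((X ∪ Y) ∩ S) :=
    rk_mono (subset_inter subset_union_left hX)
  have h4 : rk N (X ∪ Y) ≤ rk N X + rk N Y := rk_union_le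
  omega

theorem sep_of_skew (hN : Simple N) (h : rk N (S ∪ Y) = rk N S + rk N Y) : Sep N Y S := by
  constructor
  · intro r hr h'
    have h1 := rk_skew h (X := {r}) (singleton_subset_iff.2 hr)
    rw [hN.rk_singleton, ← insert_eq] at h1
    rw [mem_sp_iff] at h'
    omega
  · intro r hr s hs h'
    by_contra hrs
    have h1 := rk_skew h (X := {r, s}) (by
      intro z hz
      simp only [mem_insert, mem_singleton] at hz
      rcases hz with rfl | rfl <;> assumption)
    rw [hN.rk_pair hrs] at h1
    have h2 : ({r, s} : Finset E) ∪ Y = insert r (insert s Y) := by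
      ext z; simp only [mem_union, mem_insert, mem_singleton]; tauto
    rw [h2, rk_insert_of_mem_sp h'] at h1
    have h3 : rk N (insert s Y) ≤ rk N Y + 1 := rk_insert_le
    omega

/-! ### transfer of the rank three facts -/

theorem tr_of_cl {R : Finset E} (h : cl N (Z ∪ Y) = univ) : tr R (cl N (Z ∪ Y)) = univ := by
  rw [h]
  ext r
  simp [tr]

theorem card_tr {R : Finset E} (hS : S ⊆ R) (hSF : S ⊆ F) : S.card ≤ (tr R F).card := by
  rw [← card_map (Function.Embedding.subtype fun x => x ∈ R), map_tr]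
  exact card_le_card (subset_inter hSF hS)

/-- the rank of a spanning set over `Y` -/
theorem rk_of_cl_univ (h : cl N Z = univ) : rk N Z = rk N univ := by
  rw [← rk_cl, h]

theorem rk_qc_three {R : Finset E} (hR : IsReps N Y univ R) (hY : rk N Y + 3 = rk N univ) :
    rk (N.qc Y R) univ = 3 := by
  have := hR.rk_univ (subset_univ Y)
  omega

/-- two members spanning `N / Y`: no three collinear points -/
theorem rel_two (hK4 : Fintype.card K = 4) (hq : KC K N) (hA : Fam N A) (hx : x ∈ Y)
    (hY : rk N Y + 3 = rk N univ) (hij : i ≠ j) (hi : cl N (A i ∪ Y) = univ)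
    (hj : cl N (A j ∪ Y) = univ) (hS : Sep N Y S) (hS3 : 3 ≤ S.card)
    (hr : rk N (S ∪ Y) ≤ rk N Y + 2) : False := by
  obtain ⟨R, hSR, hR⟩ := exists_isReps (T := univ) (subset_univ S) hS.1 hS.2
  have h2 := hS.two_le (by omega)
  have hF : IsFl N (cl N (S ∪ Y)) := isFl_cl
  have hYF : Y ⊆ cl N (S ∪ Y) := subset_union_right.trans subset_cl
  have hrk := hR.rk_tr hF hYF (subset_univ _)
  rw [rk_cl] at hrk
  have hi' := rk_of_cl_univ hi
  have hj' := rk_of_cl_univ hj
  refine r3_two hK4 (rep_qc hq.rep hx) hR.simple (hA.qc hR) (rk_qc_three hR hY)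
    (i := ⟨i, by omega⟩) (j := ⟨j, by omega⟩) ?_ (tr_of_cl hi) (tr_of_cl hj)
    (hR.isFl_tr hF hYF (subset_univ _)) (by omega)
    (hS3.trans (card_tr hSR (subset_union_left.trans subset_cl)))
  intro h
  exact hij (congrArg Subtype.val h)

/-- two members spanning `N / Y`: no member is a line in `N / Y` -/
theorem rel_two_mem (hK4 : Fintype.card K = 4) (hq : KC K N) (hA : Fam N A) (hx : x ∈ Y)
    (hY : rk N Y + 3 = rk N univ) (hij : i ≠ j) (hi : cl N (A i ∪ Y) = univ)
    (hj : cl N (A j ∪ Y) = univ) (hm : rk N (A m ∪ Y) = rk N Y + 2) : False := by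
  obtain ⟨R, -, hR⟩ := exists_isReps (N := N) (Y := Y) (T := univ) (subset_univ ∅)
    (by simp) (by simp)
  have hF : IsFl N (cl N (A m ∪ Y)) := isFl_cl
  have hYF : Y ⊆ cl N (A m ∪ Y) := subset_union_right.trans subset_cl
  have hrk := hR.rk_tr hF hYF (subset_univ _)
  rw [rk_cl] at hrk
  have hi' := rk_of_cl_univ hi
  have hj' := rk_of_cl_univ hj
  have hl := (hA.qc hR).line hR.simple (hR.isFl_tr hF hYF (subset_univ _)) (by omega)
  have hpos : 0 < (univ.filter (fun i : {i : ι // rk N Y + 2 ≤ rk N (A i ∪ Y)} =>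
      tr R (cl N (A i ∪ Y)) = tr R (cl N (A m ∪ Y)))).card :=
    card_pos.2 ⟨⟨m, by omega⟩, by simp⟩
  refine r3_two hK4 (rep_qc hq.rep hx) hR.simple (hA.qc hR) (rk_qc_three hR hY)
    (i := ⟨i, by omega⟩) (j := ⟨j, by omega⟩) ?_ (tr_of_cl hi) (tr_of_cl hj)
    (hR.isFl_tr hF hYF (subset_univ _)) (by omega) (by omega)
  intro h
  exact hij (congrArg Subtype.val h)

/-! ### rank four over `Y` -/

/-- The hypotheses: rank four over `Y`, the member `i` spans, the closure `V` of the member `m`
over `Y` has corank one, and the points outside `V` have rank at least three over `Y`. -/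
structure R4 (N : RF E) (A : ι → Finset E) (Y V : Finset E) (i m : ι) : Prop where
  rkY : rk N Y + 4 = rk N univ
  hi : A i = univ
  hV : cl N (A m ∪ Y) = V
  rkV : rk N V + 1 = rk N univ
  rkD : rk N Y + 3 ≤ rk N (Vᶜ ∪ Y)

theorem R4.fl (h : R4 N A Y V i m) : IsFl N V := h.hV ▸ isFl_cl

theorem R4.sub (h : R4 N A Y V i m) : Y ⊆ V := h.hV ▸ subset_union_right.trans subset_cl

theorem R4.mem (h : R4 N A Y V i m) : A m ⊆ V := h.hV ▸ subset_union_left.trans subset_cl

theorem R4.ne (h : R4 N A Y V i m) : i ≠ m := by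
  rintro rfl
  have h1 := h.mem
  rw [h.hi] at h1
  have h2 := h.rkV
  rw [univ_subset_iff.1 h1] at h2
  omega

theorem R4.cl_i (h : R4 N A Y V i m) : cl N (A i ∪ Z) = univ := by
  have h1 : (univ : Finset E) ∪ Z = univ := by ext; simp
  rw [h.hi, h1]
  exact isFl_univ

theorem R4.cl_m (h : R4 N A Y V i m) (hx : x ∉ V) : cl N (A m ∪ insert x Y) = univ := by
  have h1 : rk N (A m ∪ insert x Y) = rk N univ := by
    have h2 : A m ∪ insert x Y = insert x (A m ∪ Y) := by rw [union_insert]
    have h3 : x ∉ sp N (A m ∪ Y) := by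
      intro h3
      apply hx
      rw [← h.hV]
      exact mem_cl.2 h3
    have h4 : rk N (A m ∪ Y) = rk N V := by rw [← h.hV, rk_cl]
    rw [h2, rk_insert_of_not_mem_sp h3, h4, h.rkV]
  exact isFl_univ.cl_eq (subset_univ _) h1.ge

/-- no three collinear points -/
theorem R4.noLine (hK4 : Fintype.card K = 4) (hq : KC K N) (hA : Fam N A)
    (h : R4 N A Y V i m) (hS : Sep N Y S) (hS3 : S.card = 3) : rk N (S ∪ Y) = rk N Y + 3 := by
  have hle : rk N (S ∪ Y) ≤ rk N Y + 3 := by
    have h1 : rk N (S ∪ Y) ≤ rk N S + rk N Y := rk_union_le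
    have h2 : rk N S ≤ S.card := rk_le_card
    omega
  have hge := hS.two_le (by omega)
  by_contra hne
  have h2 : rk N (S ∪ Y) = rk N Y + 2 := by omega
  -- a point outside `V` and outside the line
  obtain ⟨x, hxV, hxL⟩ : ∃ x, x ∉ V ∧ x ∉ sp N (S ∪ Y) := by
    by_contra hc
    push Not at hc
    have h3 : rk N ((S ∪ Y) ∪ (Vᶜ ∪ Y)) = rk N (S ∪ Y) := by
      apply rk_union_of_forall_mem_sp
      intro e he
      rcases mem_union.1 he with he | he
      · exact hc e (mem_compl.1 he)
      · exact mem_sp (mem_union_right _ he)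
    have h4 := rk_mono (N := N) (subset_union_right (s₁ := S ∪ Y) (s₂ := Vᶜ ∪ Y))
    have h5 := h.rkD
    omega
  have hxY : x ∉ sp N Y := fun h' => hxL (sp_mono subset_union_right h')
  have hrY : rk N (insert x Y) = rk N Y + 1 := rk_insert_of_not_mem_sp hxY
  refine rel_two hK4 hq hA (x := x) (Y := insert x Y) (mem_insert_self _ _)
    (by rw [hrY]; have := h.rkY; omega) h.ne h.cl_i (h.cl_m hxV) (S := S) ?_ (by omega) ?_
  · constructor
    · intro r hr h'
      -- r in sp (insert x Y), r not in sp Y => x in sp (insert r Y)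
      have h6 := mem_sp_insert_exchange h' (hS.1 r hr)
      exact hxL (sp_mono (insert_subset (mem_union_left _ hr) subset_union_right) h6)
    · intro r hr s hs h'
      by_contra hrs
      rw [insert_comm] at h'
      have h6 := mem_sp_insert_exchange h' (fun h'' => hrs (hS.2 r hr s hs h''))
      exact hxL (sp_mono (insert_subset (mem_union_left _ hr)
        (insert_subset (mem_union_left _ hs) subset_union_right)) h6)
  · rw [union_insert]
    have := rk_insert_le (N := N) (e := x) (X := S ∪ Y)
    omega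

/-- four points, one of them outside `V`, are independent -/
theorem R4.noPlane (hK4 : Fintype.card K = 4) (hq : KC K N) (hA : Fam N A)
    (h : R4 N A Y V i m) (hS : Sep N Y (insert x S)) (hxS : x ∉ S) (hS3 : S.card = 3)
    (hx : x ∉ V) : rk N (insert x S ∪ Y) = rk N Y + 4 := by
  have hle : rk N (insert x S ∪ Y) ≤ rk N Y + 4 := by
    have h1 : rk N (insert x S ∪ Y) ≤ rk N (insert x S) + rk N Y := rk_union_le
    have h2 : rk N (insert x S) ≤ (insert x S).card := rk_le_card
    rw [card_insert_of_notMem hxS] at h2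
    omega
  have hS' : Sep N Y S := hS.subset (subset_insert _ _)
  have hge := h.noLine hK4 hq hA hS' hS3
  have hge2 := rk_mono (N := N) (union_subset_union_left (t := Y) (subset_insert x S))
  by_contra hne
  have h2 : rk N (insert x S ∪ Y) = rk N Y + 3 := by omega
  have hxY : x ∉ sp N Y := hS.1 x (mem_insert_self _ _)
  have hrY : rk N (insert x Y) = rk N Y + 1 := rk_insert_of_not_mem_sp hxY
  refine rel_two hK4 hq hA (x := x) (Y := insert x Y) (mem_insert_self _ _)
    (by rw [hrY]; have := h.rkY; omega) h.ne h.cl_i (h.cl_m hx) (S := S) ?_ (by omega) ?_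
  · constructor
    · intro r hr h'
      have := hS.2 r (mem_insert_of_mem hr) x (mem_insert_self _ _) h'
      exact hxS (this ▸ hr)
    · intro r hr s hs h'
      by_contra hrs
      -- the triple r, s, x is independent over Y
      have hrx : r ≠ x := fun h'' => hxS (h'' ▸ hr)
      have hsx : s ≠ x := fun h'' => hxS (h'' ▸ hs)
      have h3 : ({r, s, x} : Finset E).card = 3 :=
        card_eq_three.2 ⟨r, s, x, hrs, hrx, hsx, rfl⟩
      have h4 := h.noLine hK4 hq hA (hS.subset (X := {r, s, x}) (by
        intro z hz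
        simp only [mem_insert, mem_singleton] at hz
        rcases hz with rfl | rfl | rfl
        · exact mem_insert_of_mem hr
        · exact mem_insert_of_mem hs
        · exact mem_insert_self _ _)) h3
      have h5 : ({r, s, x} : Finset E) ∪ Y = insert r (insert s (insert x Y)) := by
        ext z; simp only [mem_union, mem_insert, mem_singleton]; tauto
      rw [h5, rk_insert_of_mem_sp h'] at h4
      have h6 : rk N (insert s (insert x Y)) ≤ rk N (insert x Y) + 1 := rk_insert_le
      omega
  · rw [union_insert, ← insert_union]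
    omega

/-- an independent triple over `Y` in a set of rank at least three over `Y` -/
theorem exists_triple {D : Finset E} (h : rk N Y + 3 ≤ rk N (D ∪ Y)) :
    ∃ T, T ⊆ D ∧ T.card = 3 ∧ rk N (T ∪ Y) = rk N Y + 3 := by
  have step : ∀ n : ℕ, n ≤ 3 → ∃ T, T ⊆ D ∧ T.card = n ∧ rk N (T ∪ Y) = rk N Y + n := by
    intro n
    induction n with
    | zero => intro _; exact ⟨∅, by simp, by simp, by simp⟩
    | succ n ih =>
      intro hn
      obtain ⟨T, hTD, hTc, hTr⟩ := ih (by omega)
      obtain ⟨d, hdD, hd⟩ : ∃ d ∈ D, d ∉ sp N (T ∪ Y) := by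
        by_contra hc
        push Not at hc
        have h3 : rk N ((T ∪ Y) ∪ (D ∪ Y)) = rk N (T ∪ Y) := by
          apply rk_union_of_forall_mem_sp
          intro e he
          rcases mem_union.1 he with he | he
          · exact hc e he
          · exact mem_sp (mem_union_right _ he)
        have h4 := rk_mono (N := N) (subset_union_right (s₁ := T ∪ Y) (s₂ := D ∪ Y))
        omega
      refine ⟨insert d T, insert_subset hdD hTD, ?_, ?_⟩
      · rw [card_insert_of_notMem (fun h' => hd (mem_sp (mem_union_left _ h'))), hTc]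
      · rw [insert_union, rk_insert_of_not_mem_sp hd, hTr]
        rfl
  exact step 3 le_rfl

/-- a set which is independent over `Y` -/
theorem sep_of_card (h : rk N (S ∪ Y) = rk N Y + S.card) : Sep N Y S := by
  have key : ∀ X ⊆ S, rk N (X ∪ Y) = rk N Y + X.card := by
    intro X hX
    have h1 : rk N (X ∪ Y) ≤ rk N X + rk N Y := rk_union_le
    have h2 : rk N X ≤ X.card := rk_le_card
    have h3 : rk N (S ∪ Y) ≤ rk N (X ∪ Y) + rk N (S \ X) := by
      have h4 : S ∪ Y = (X ∪ Y) ∪ (S \ X) := by
        ext z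
        simp only [mem_union, mem_sdiff]
        constructor
        · rintro (h | h)
          · by_cases hz : z ∈ X
            · exact Or.inl (Or.inl hz)
            · exact Or.inr ⟨h, hz⟩
          · exact Or.inl (Or.inr h)
        · rintro ((h | h) | h)
          · exact Or.inl (hX h)
          · exact Or.inr h
          · exact Or.inl h.1
      rw [h4]
      exact rk_union_le
    have h5 : rk N (S \ X) ≤ (S \ X).card := rk_le_card
    have h6 := card_sdiff_add_card_eq_card hX
    omega
  constructor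
  · intro r hr h'
    have h1 := key {r} (singleton_subset_iff.2 hr)
    rw [← insert_eq, card_singleton, rk_insert_of_mem_sp h'] at h1
    omega
  · intro r hr s hs h'
    by_contra hrs
    have h1 := key {r, s} (by
      intro z hz
      simp only [mem_insert, mem_singleton] at hz
      rcases hz with rfl | rfl <;> assumption)
    rw [card_pair hrs] at h1
    have h2 : ({r, s} : Finset E) ∪ Y = insert r (insert s Y) := by
      ext z; simp only [mem_union, mem_insert, mem_singleton]; tauto
    rw [h2, rk_insert_of_mem_sp h'] at h1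
    have h3 : rk N (insert s Y) ≤ rk N Y + 1 := rk_insert_le
    omega

theorem map_insert_subtype {R : Finset E} {X : Finset R} {d : R} (hd : d ∈ X) :
    insert (d : E) ((X.erase d).map (Function.Embedding.subtype _)) =
      X.map (Function.Embedding.subtype _) := by
  have h : (Function.Embedding.subtype fun x => x ∈ R) d = (d : E) := rfl
  rw [← h, ← map_insert, insert_erase hd]

/-- (1) the rank four lemma -/
theorem R4.false (hK4 : Fintype.card K = 4) (hq : KC K N) (hA : Fam N A)
    (h : R4 N A Y V i m) : False := by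
  classical
  have hVr : rk N V = rk N Y + 3 := by
    have := h.rkY
    have := h.rkV
    omega
  -- a point of `V`
  obtain ⟨f0, hf0V, hf0⟩ : ∃ f ∈ V, f ∉ sp N Y := by
    by_contra hc
    push Not at hc
    have h1 : rk N (Y ∪ V) = rk N Y := rk_union_of_forall_mem_sp hc
    have h2 := rk_mono (N := N) (subset_union_right (s₁ := Y) (s₂ := V))
    omega
  obtain ⟨T, hTD, hT3, hTr⟩ := exists_triple h.rkD
  have hTV : ∀ d ∈ T, d ∉ V := fun d hd => mem_compl.1 (hTD hd)
  have hTs : Sep N Y T := sep_of_card (by rw [hTr, hT3])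
  set Y2 : Finset E := insert f0 Y with hY2
  have hrY2 : rk N Y2 = rk N Y + 1 := rk_insert_of_not_mem_sp hf0
  have hY2V : Y2 ⊆ V := insert_subset hf0V h.sub
  have hf0T : ∀ d ∈ T, f0 ≠ d := by
    rintro d hd rfl
    exact hTV _ hd hf0V
  have hdV : ∀ d ∈ T, ∀ Z, Z ⊆ V → d ∉ sp N Z := fun d hd Z hZ h' =>
    hTV d hd (h.fl.mem (sp_mono hZ h'))
  -- `f0` together with elements of `T`
  have hfT : ∀ d ∈ T, f0 ∉ sp N (insert d Y) := by
    intro d hd h'
    have := mem_sp_insert_exchange h' hf0
    exact hdV d hd _ hY2V this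
  have hsT : Sep N Y (insert f0 T) := by
    constructor
    · intro r hr
      rcases mem_insert.1 hr with rfl | hr
      · exact hf0
      · exact hTs.1 r hr
    · intro r hr s hs h'
      rcases mem_insert.1 hr with hr1 | hr1 <;> rcases mem_insert.1 hs with hs1 | hs1
      · rw [hr1, hs1]
      · subst hr1
        exact absurd h' (hfT s hs1)
      · subst hs1
        exact absurd h' (hdV r hr1 _ hY2V)
      · exact hTs.2 r hr1 s hs1 h'
  have hTs2 : Sep N Y2 T := by
    constructor
    · intro r hr
      exact hdV r hr _ hY2V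
    · intro r hr s hs h'
      by_contra hrs
      have h3 : ({r, s, f0} : Finset E).card = 3 :=
        card_eq_three.2 ⟨r, s, f0, hrs, (hf0T r hr).symm, (hf0T s hs).symm, rfl⟩
      have h4 := h.noLine hK4 hq hA (hsT.subset (X := {r, s, f0}) (by
        intro z hz
        simp only [mem_insert, mem_singleton] at hz
        rcases hz with rfl | rfl | rfl
        · exact mem_insert_of_mem hr
        · exact mem_insert_of_mem hs
        · exact mem_insert_self _ _)) h3
      have h5 : ({r, s, f0} : Finset E) ∪ Y = insert r (insert s Y2) := by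
        ext z; simp only [hY2, mem_union, mem_insert, mem_singleton]; tauto
      rw [h5, rk_insert_of_mem_sp h'] at h4
      have h6 : rk N (insert s Y2) ≤ rk N Y2 + 1 := rk_insert_le
      omega
  obtain ⟨R, hTR, hR⟩ := exists_isReps (T := univ) (subset_univ T) hTs2.1 hTs2.2
  have hY3 : rk N Y2 + 3 = rk N univ := by
    have := h.rkY
    omega
  -- the line `V`
  have hVm : cl N (A m ∪ Y2) = V := by
    apply h.fl.cl_eq (union_subset h.mem hY2V)
    rw [← h.hV, rk_cl]
    exact rk_mono (union_subset_union_right (subset_insert _ _))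
  have hm2 : rk N Y2 + 2 ≤ rk N (A m ∪ Y2) := by
    rw [← rk_cl (X := A m ∪ Y2), hVm]
    omega
  have hLr := hR.rk_tr h.fl hY2V (subset_univ _)
  have hLf := hR.isFl_tr h.fl hY2V (subset_univ _)
  have hl := (hA.qc hR).line hR.simple hLf (by omega)
  have hpos : 0 < (univ.filter (fun i : {i : ι // rk N Y2 + 2 ≤ rk N (A i ∪ Y2)} =>
      tr R (cl N (A i ∪ Y2)) = tr R V)).card :=
    card_pos.2 ⟨⟨m, hm2⟩, by simp [hVm]⟩
  obtain ⟨S', hS'V, hS'3⟩ := exists_subset_card_eq (show 3 ≤ (tr R V).card by omega)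
  -- the set T in R
  set T' : Finset R := tr R T with hT'
  have hT'map : T'.map (Function.Embedding.subtype _) = T := by
    rw [hT', map_tr, inter_eq_left.2 hTR]
  have hT'3 : T'.card = 3 := by
    rw [← hT3, ← hT'map, card_map]
  refine p6_of (N := N.qc Y2 R) hK4 (rep_qc hq.rep (mem_insert_self f0 Y))
    (rk_qc_three hR hY3).le hS'3 hT'3 ?_ ?_ ?_
  · rw [disjoint_left]
    intro r hr hr'
    exact hTV r (mem_tr.1 hr') (mem_tr.1 (hS'V hr))
  · have := rk_mono (N := N.qc Y2 R) hS'V
    omega
  · intro X hX hX3 hXS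
    obtain ⟨d, hdX, hdS⟩ := not_subset.1 hXS
    have hdT : (d : E) ∈ T := by
      rcases mem_union.1 (hX hdX) with h' | h'
      · exact absurd h' hdS
      · exact mem_tr.1 h'
    have hsub : ∀ r ∈ X, (r : E) ∈ R := fun r _ => r.2
    -- X over Y together with f0
    set X' : Finset E := (X.erase d).map (Function.Embedding.subtype _) with hX'
    have hX'c : X'.card = 2 := by
      rw [hX', card_map, card_erase_of_mem hdX, hX3]
    have hmemX' : ∀ z, z ∈ X' → z ∈ R ∧ z ≠ d := by
      intro z hz
      obtain ⟨hz1, hz2⟩ := mem_map_sub.1 hz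
      refine ⟨hz1, ?_⟩
      intro h'
      apply (mem_erase.1 hz2).1
      exact Subtype.ext h'
    have hSepR : Sep N Y (insert f0 R) := by
      constructor
      · intro r hr
        rcases mem_insert.1 hr with rfl | hr
        · exact hf0
        · exact fun h' => hR.not_mem r hr (sp_mono (subset_insert _ _) h')
      · intro r hr s hs h'
        rcases mem_insert.1 hr with hr1 | hr1 <;> rcases mem_insert.1 hs with hs1 | hs1
        · rw [hr1, hs1]
        · subst hr1
          exact absurd (mem_sp_insert_exchange h' hf0) (hR.not_mem s hs1)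
        · subst hs1
          exact absurd h' (hR.not_mem r hr1)
        · exact hR.uniq r hr1 s hs1 (sp_mono (insert_subset_insert s (subset_insert _ _)) h')
    have hf0R : f0 ∉ R := fun h' => hR.not_mem f0 h' (mem_sp (mem_insert_self _ _))
    have hf0X' : f0 ∉ X' := fun h' => hf0R (hmemX' f0 h').1
    have hdne : (d : E) ∉ insert f0 X' := by
      rw [mem_insert, not_or]
      exact ⟨fun h' => hf0R (h' ▸ d.2), fun h' => (hmemX' _ h').2 rfl⟩
    have h4 := h.noPlane hK4 hq hA (x := (d : E)) (S := insert f0 X')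
      (hSepR.subset (by
        intro z hz
        rcases mem_insert.1 hz with rfl | hz
        · exact mem_insert_of_mem d.2
        · rcases mem_insert.1 hz with rfl | hz
          · exact mem_insert_self _ _
          · exact mem_insert_of_mem (hmemX' z hz).1)) hdne
      (by rw [card_insert_of_notMem hf0X', hX'c]) (hTV _ hdT)
    have h5 : insert (d : E) (insert f0 X') ∪ Y = X.map (Function.Embedding.subtype _) ∪ Y2 := by
      have h6 : X.map (Function.Embedding.subtype fun x => x ∈ R) = insert (d : E) X' := by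
        rw [hX', map_insert_subtype hdX]
      rw [h6, hY2]
      ext z; simp only [mem_union, mem_insert]; tauto
    have h6 := rk_qc (N := N) (Y := Y2) X
    rw [← h5] at h6
    omega

/-! ### (2): the complement of a big member -/

/-- rank over `Y` and over `V ⊇ Y` -/
theorem rk_over {D : Finset E} (hYV : Y ⊆ V) :
    rk N (D ∪ V) + rk N Y ≤ rk N (D ∪ Y) + rk N V := by
  have h1 := rk_union_add_rk_inter (N := N) (X := D ∪ Y) (Y := V)
  have h2 : (D ∪ Y) ∪ V = D ∪ V := by
    rw [union_assoc, union_eq_right.2 hYV]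
  have h3 : rk N Y ≤ rk N ((D ∪ Y) ∩ V) := rk_mono (subset_inter subset_union_right hYV)
  rw [h2] at h1
  omega

/-- no hyperplane contains the points outside `W ⊋ V` if there is a spanning member -/
theorem rk_compl_over (hA : Fam N A) (hi : A i = univ) {W : Finset E} (hW : IsFl N W)
    (hVW : V ⊆ W) (hr : rk N W ≤ rk N V + 1) (hne : W ≠ univ) :
    rk N (Wᶜ ∪ V) = rk N univ := by
  by_contra hc
  have h0 := rk_mono (N := N) (subset_univ (Wᶜ ∪ V))
  have hH : IsFl N (cl N (Wᶜ ∪ V)) := isFl_cl
  have hHr : rk N (cl N (Wᶜ ∪ V)) = rk N (Wᶜ ∪ V) := rk_cl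
  have hHne : cl N (Wᶜ ∪ V) ≠ univ := by
    intro h
    rw [h] at hHr
    exact hc hHr.symm
  have hcov : cl N (Wᶜ ∪ V) ∪ W = univ := by
    rw [eq_univ_iff_forall]
    intro z
    rw [mem_union]
    by_cases hz : z ∈ W
    · exact Or.inr hz
    · exact Or.inl (subset_cl (mem_union_left _ (mem_compl.2 hz)))
  have h1 := hA.guts_count hH hW hcov
  have h2 : rk N V ≤ rk N (cl N (Wᶜ ∪ V) ∩ W) :=
    rk_mono (subset_inter (subset_union_right.trans subset_cl) hVW)
  have h3 : 0 < (univ.filter (fun j => ¬ A j ⊆ cl N (Wᶜ ∪ V) ∧ ¬ A j ⊆ W)).card := by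
    apply card_pos.2
    refine ⟨i, ?_⟩
    rw [mem_filter, hi]
    exact ⟨mem_univ _, fun h => hHne (univ_subset_iff.1 h), fun h => hne (univ_subset_iff.1 h)⟩
  omega

theorem rel_compl (hK4 : Fintype.card K = 4) (hq : KC K N) (hA : Fam N A) (hi : A i = univ) :
    ∀ (n : ℕ) (Y V : Finset E), rk N Y + n = rk N univ → cl N (A m ∪ Y) = V →
      rk N Y + 3 ≤ rk N V → V ≠ univ → rk N (Vᶜ ∪ Y) + rk N V ≤ rk N univ + rk N Y + 1 := by
  intro n
  induction n with
  | zero =>
    intro Y V hn hV hV3 hne
    have := rk_mono (N := N) (subset_univ V)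
    omega
  | succ n ih =>
    intro Y V hn hV hV3 hne
    by_contra hcon
    have hVf : IsFl N V := hV ▸ isFl_cl
    have hYV : Y ⊆ V := hV ▸ subset_union_right.trans subset_cl
    have hmV : A m ⊆ V := hV ▸ subset_union_left.trans subset_cl
    have hVlt : rk N V < rk N univ := hVf.rk_lt_of_ssubset (ssubset_univ_iff.2 hne)
    by_cases hB : rk N V + 1 = rk N univ
    · by_cases h4 : rk N Y + 4 = rk N univ
      · exact R4.false hK4 hq hA ⟨h4, hi, hV, hB, by omega⟩
      · -- contract an element of `V`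
        have hex : ∃ a ∈ V, a ∉ sp N Y ∧ rk N Y + 4 ≤ rk N (Vᶜ ∪ insert a Y) := by
          by_cases h5 : rk N Y + 4 ≤ rk N (Vᶜ ∪ Y)
          · obtain ⟨a, ha, ha'⟩ : ∃ a ∈ V, a ∉ sp N Y := by
              by_contra hc
              push Not at hc
              have h6 : rk N (Y ∪ V) = rk N Y := rk_union_of_forall_mem_sp hc
              have h7 := rk_mono (N := N) (subset_union_right (s₁ := Y) (s₂ := V))
              omega
            refine ⟨a, ha, ha', h5.trans (rk_mono (union_subset_union_right (subset_insert _ _)))⟩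
          · obtain ⟨a, ha, ha'⟩ : ∃ a ∈ V, a ∉ sp N (Vᶜ ∪ Y) := by
              by_contra hc
              push Not at hc
              have h6 : rk N ((Vᶜ ∪ Y) ∪ V) = rk N (Vᶜ ∪ Y) := rk_union_of_forall_mem_sp hc
              have h7 := rk_mono (N := N) (subset_union_right (s₁ := Vᶜ ∪ Y) (s₂ := V))
              omega
            refine ⟨a, ha, fun h' => ha' (sp_mono subset_union_right h'), ?_⟩
            rw [union_insert, rk_insert_of_not_mem_sp ha']
            omega
        obtain ⟨a, haV, haY, ha4⟩ := hex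
        have h6 : rk N (insert a Y) = rk N Y + 1 := rk_insert_of_not_mem_sp haY
        have h7 : cl N (A m ∪ insert a Y) = V := by
          apply hVf.cl_eq (union_subset hmV (insert_subset haV hYV))
          rw [← hV, rk_cl]
          exact rk_mono (union_subset_union_right (subset_insert _ _))
        have := ih (insert a Y) V (by omega) h7 (by omega) hne
        omega
    · -- contract an element outside `V`
      have key : ∀ y, y ∉ V → rk N ((cl N (insert y V))ᶜ ∪ insert y Y) + rk N V ≤
          rk N univ + rk N Y + 1 ∧ rk N (cl N (insert y V)) = rk N V + 1 ∧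
          cl N (insert y V) ≠ univ := by
        intro y hy
        have h1 : y ∉ sp N V := fun h' => hy (hVf.mem h')
        have h2 : rk N (cl N (insert y V)) = rk N V + 1 := by
          rw [rk_cl, rk_insert_of_not_mem_sp h1]
        have h3 : cl N (insert y V) ≠ univ := by
          intro h'
          rw [h'] at h2
          omega
        refine ⟨?_, h2, h3⟩
        have h4 : rk N (insert y Y) = rk N Y + 1 :=
          rk_insert_of_not_mem_sp (fun h' => h1 (sp_mono hYV h'))
        have h5 : cl N (A m ∪ insert y Y) = cl N (insert y V) := by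
          rw [union_insert, ← hV]
          apply subset_antisymm
          · exact cl_mono (insert_subset_insert _ subset_cl)
          · apply isFl_cl.cl_subset
            apply insert_subset (subset_cl (mem_insert_self _ _))
            exact cl_mono (subset_insert _ _)
        have := ih (insert y Y) (cl N (insert y V)) (by omega) h5 (by omega) h3
        omega
      have hspan : ∀ y, y ∉ V → rk N ((cl N (insert y V))ᶜ ∪ V) = rk N univ := by
        intro y hy
        obtain ⟨-, h2, h3⟩ := key y hy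
        exact rk_compl_over hA hi isFl_cl ((subset_insert _ _).trans subset_cl) h2.le h3
      have hge : ∀ y, y ∉ V → rk N univ + rk N Y ≤ rk N ((cl N (insert y V))ᶜ ∪ Y) + rk N V := by
        intro y hy
        have h1 := rk_over (N := N) (D := (cl N (insert y V))ᶜ) hYV
        rw [hspan y hy] at h1
        exact h1
      have hle : ∀ y, y ∉ V → rk N ((cl N (insert y V))ᶜ ∪ Y) + rk N V ≤ rk N univ + rk N Y := by
        intro y hy
        by_contra hc
        obtain ⟨h1, h2, h3⟩ := key y hy
        have h4 : rk N (((cl N (insert y V))ᶜ ∪ Y) ∪ (Vᶜ ∪ Y)) =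
            rk N ((cl N (insert y V))ᶜ ∪ Y) := by
          apply rk_union_of_forall_mem_sp
          intro z hz
          rcases mem_union.1 hz with hz | hz
          · by_cases hzW : z ∈ cl N (insert y V)
            · have hzV : z ∉ V := mem_compl.1 hz
              obtain ⟨g1, g2, g3⟩ := key z hzV
              have h5 : cl N (insert z V) = cl N (insert y V) := by
                apply (isFl_cl (N := N) (X := insert z V)).eq_of_subset_of_rk_le
                · apply isFl_cl.cl_subset
                  exact insert_subset hzW ((subset_insert _ _).trans subset_cl)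
                · omega
              rw [h5, union_insert] at g1
              have h6 := rk_mono (N := N) (subset_insert z ((cl N (insert y V))ᶜ ∪ Y))
              rw [mem_sp_iff]
              omega
            · exact mem_sp (mem_union_left _ (mem_compl.2 hzW))
          · exact mem_sp (mem_union_right _ hz)
        have h7 := rk_mono (N := N) (subset_union_right (s₁ := (cl N (insert y V))ᶜ ∪ Y)
          (s₂ := Vᶜ ∪ Y))
        have h8 := rk_mono (N := N) (union_subset_union_right (s := (cl N (insert y V))ᶜ)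
          (subset_insert y Y))
        omega
      obtain ⟨y1, hy1⟩ : ∃ y, y ∉ V := by
        by_contra hc
        push Not at hc
        exact hne (eq_univ_iff_forall.2 hc)
      obtain ⟨g1, g2, g3⟩ := key y1 hy1
      obtain ⟨y2, hy2⟩ : ∃ y, y ∉ cl N (insert y1 V) := by
        by_contra hc
        push Not at hc
        exact g3 (eq_univ_iff_forall.2 hc)
      have hVW1 : V ⊆ cl N (insert y1 V) := (subset_insert _ _).trans subset_cl
      have hVW2 : V ⊆ cl N (insert y2 V) := (subset_insert _ _).trans subset_cl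
      have hy2V : y2 ∉ V := fun h' => hy2 (hVW1 h')
      obtain ⟨k1, k2, k3⟩ := key y2 hy2V
      set P : Finset E := (cl N (insert y1 V))ᶜ with hP
      set Q : Finset E := (cl N (insert y2 V))ᶜ with hQ
      -- the intersection
      have hint : cl N (insert y1 V) ∩ cl N (insert y2 V) = V := by
        symm
        apply hVf.eq_of_subset_of_rk_le (subset_inter hVW1 hVW2)
        by_contra hc
        have h5 := (isFl_cl.inter isFl_cl : IsFl N (cl N (insert y1 V) ∩ cl N (insert y2 V)))
        have h6 : cl N (insert y1 V) ∩ cl N (insert y2 V) = cl N (insert y2 V) :=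
          h5.eq_of_subset_of_rk_le inter_subset_right (by omega)
        apply hy2
        have h7 : y2 ∈ cl N (insert y2 V) := subset_cl (mem_insert_self _ _)
        rw [← h6] at h7
        exact (mem_inter.1 h7).1
      have hPQ : P ∪ Q = Vᶜ := by
        rw [hP, hQ, ← compl_inter, hint]
      have h1 := rk_union_add_rk_inter (N := N) (X := P ∪ Y) (Y := Q ∪ Y)
      have h2 : (P ∪ Y) ∪ (Q ∪ Y) = Vᶜ ∪ Y := by
        rw [← hPQ]
        ext z; simp only [mem_union]; tauto
      have h3 : rk N ((P ∩ Q) ∪ Y) ≤ rk N ((P ∪ Y) ∩ (Q ∪ Y)) := by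
        apply rk_mono
        intro z hz
        simp only [mem_union, mem_inter] at hz ⊢
        tauto
      rw [h2] at h1
      have h4 : rk N (P ∪ V) ≤ rk N (insert y2 ((P ∩ Q) ∪ V)) := by
        have h5 : rk N (insert y2 ((P ∩ Q) ∪ V) ∪ (P ∪ V)) = rk N (insert y2 ((P ∩ Q) ∪ V)) := by
          apply rk_union_of_forall_mem_sp
          intro z hz
          rcases mem_union.1 hz with hz | hz
          · by_cases hzQ : z ∈ Q
            · exact mem_sp (mem_insert_of_mem (mem_union_left _ (mem_inter.2 ⟨hz, hzQ⟩)))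
            · have h6 : z ∈ cl N (insert y2 V) := by
                by_contra h7
                exact hzQ (mem_compl.2 h7)
              exact sp_mono (insert_subset_insert _ subset_union_right) (mem_cl.1 h6)
          · exact mem_sp (mem_insert_of_mem (mem_union_right _ hz))
        rw [← h5]
        exact rk_mono subset_union_right
      have h5 := rk_insert_le (N := N) (e := y2) (X := (P ∩ Q) ∪ V)
      have h6 := rk_over (N := N) (D := P ∩ Q) hYV
      have h7 : rk N (P ∪ V) = rk N univ := hspan y1 hy1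
      have h8 : rk N (P ∪ Y) + rk N V ≤ rk N univ + rk N Y := hle y1 hy1
      have h9 : rk N (Q ∪ Y) + rk N V ≤ rk N univ + rk N Y := hle y2 hy2V
      omega

/-- (2) a proper member of rank at least three: the rank of its complement -/
theorem big_compl (hK4 : Fintype.card K = 4) (hq : KC K N) (hA : Fam N A) (hi : A i = univ)
    (hm : A m ≠ univ) (hm3 : 3 ≤ rk N (A m)) :
    rk N (A m)ᶜ + rk N (A m) ≤ rk N univ + 1 := by
  have h1 := rel_compl hK4 hq hA hi (m := m) (rk N univ) ∅ (A m) (by simp)
    (by rw [union_empty]; exact hA.fl m) (by simpa using hm3) hm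
  simpa using h1

/-! ### (Pa) -/

/-- for a flat `B` inside a flat `F ≠ B`, rank of `B` at least two: there is `Y` of rank `k - 3`
such that `F ∪ Y` spans and `B` is a line over `Y` -/
theorem exists_Y {B : Finset E} (hB2 : 2 ≤ rk N B) (hBF : B ⊆ F) (hlt : rk N B < rk N F) :
    ∃ Y, rk N Y + 3 = rk N univ ∧ rk N (F ∪ Y) = rk N univ ∧ rk N (B ∪ Y) = rk N Y + 2 := by
  classical
  obtain ⟨I1, -, hI1B, hI1, hI1c⟩ := exists_ind_card (N := N) (I := ∅) (X := B) (n := 2)
    ind_empty (empty_subset _) (by simp) hB2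
  obtain ⟨IB, hI1IB, hIBB, hIB, hIBs⟩ := exists_basis_extend hI1 hI1B
  obtain ⟨IF, hIBF, hIFF, hIF, hIFs⟩ := exists_basis_extend hIB (hIBB.trans hBF)
  obtain ⟨IE, hIFE, -, hIE, hIEs⟩ := exists_basis_extend hIF (subset_univ IF)
  have c1 : IB.card = rk N B := by rw [← hIB.rk_eq_card, rk_congr hIBs]
  have c2 : IF.card = rk N F := by rw [← hIF.rk_eq_card, rk_congr hIFs]
  have c3 : IE.card = rk N univ := by rw [← hIE.rk_eq_card, rk_congr hIEs]
  -- an element of `IF` outside `IB`
  obtain ⟨f, hfF, hfB⟩ : ∃ f ∈ IF, f ∉ IB := by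
    by_contra hc
    push Not at hc
    have := card_le_card (show IF ⊆ IB from hc)
    omega
  have hfI1 : f ∉ I1 := fun h => hfB (hI1IB h)
  have hsub : insert f I1 ⊆ IE := insert_subset (hIFE hfF) ((hI1IB.trans hIBF).trans hIFE)
  refine ⟨IE \ insert f I1, ?_, ?_, ?_⟩
  · have h1 : Ind N (IE \ insert f I1) := hIE.subset sdiff_subset
    rw [h1.rk_eq_card]
    have h2 := card_sdiff_add_card_eq_card hsub
    rw [card_insert_of_notMem hfI1] at h2
    omega
  · apply le_antisymm (rk_mono (subset_univ _))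
    have h1 : sp N IE ≤ sp N (F ∪ (IE \ insert f I1)) := by
      apply sp_mono
      intro z hz
      rw [mem_union, mem_sdiff]
      by_cases hzF : z ∈ F
      · exact Or.inl hzF
      · right
        refine ⟨hz, fun h => hzF ?_⟩
        rcases mem_insert.1 h with rfl | h
        · exact hIFF hfF
        · exact hBF (hI1B h)
    rw [← rk_congr hIEs]
    exact rk_le_of_sp_le h1
  · have h1 : Ind N (IE \ insert f I1) := hIE.subset sdiff_subset
    have h2 : rk N (B ∪ (IE \ insert f I1)) = rk N (IE.erase f) := by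
      apply rk_congr
      apply le_antisymm
      · rw [sp_le_iff]
        intro z hz
        rcases mem_union.1 hz with hz | hz
        · have h3 : z ∈ sp N IB := by rw [hIBs]; exact mem_sp hz
          refine sp_mono ?_ h3
          intro u hu
          rw [mem_erase]
          exact ⟨fun h => hfB (h ▸ hu), hIFE (hIBF hu)⟩
        · rw [mem_sdiff, mem_insert, not_or] at hz
          exact mem_sp (mem_erase.2 ⟨hz.2.1, hz.1⟩)
      · apply sp_mono
        intro z hz
        rw [mem_erase] at hz
        rw [mem_union, mem_sdiff]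
        by_cases hzI : z ∈ I1
        · exact Or.inl (hI1B hzI)
        · right
          refine ⟨hz.2, ?_⟩
          rw [mem_insert, not_or]
          exact ⟨hz.1, hzI⟩
    rw [h2, (hIE.subset (erase_subset _ _)).rk_eq_card, h1.rk_eq_card,
      card_erase_of_mem (hIFE hfF)]
    have h4 := card_sdiff_add_card_eq_card hsub
    rw [card_insert_of_notMem hfI1] at h4
    omega

/-- a set which contains `Y` of rank at least one is not empty -/
theorem exists_mem_of_rk {Y : Finset E} (h : 1 ≤ rk N Y) : ∃ x, x ∈ Y := by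
  rw [← Finset.Nonempty]
  rw [nonempty_iff_ne_empty]
  rintro rfl
  rw [rk_empty] at h
  omega

/-- (Pa) for members of rank at least three -/
theorem pa_big (hK4 : Fintype.card K = 4) (hq : KC K N) (hA : Fam N A) (h4 : 4 ≤ rk N univ)
    (hi : A i = univ) (hm : A m ≠ univ) (hm3 : 3 ≤ rk N (A m)) (hj : A j ≠ univ)
    (hjm : (A m ∩ A j).Nonempty) : A j = A m := by
  classical
  have hc := big_compl hK4 hq hA hi hm hm3
  by_cases hsub : A j ⊆ A m
  · by_contra hne
    have hlt : rk N (A j) < rk N (A m) :=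
      (hA.fl j).rk_lt_of_ssubset (Finset.ssubset_iff_subset_ne.2 ⟨hsub, hne⟩)
    obtain ⟨Y, hY1, hY2, hY3⟩ := exists_Y (hA.two_le_rk hq.simple j) hsub hlt
    obtain ⟨x, hx⟩ := exists_mem_of_rk (N := N) (Y := Y) (by omega)
    refine rel_two_mem hK4 hq hA hx hY1 (i := i) (j := m) (m := j) ?_ ?_ ?_ hY3
    · rintro rfl
      exact hm hi
    · rw [hi]
      exact isFl_univ.cl_eq (subset_univ _) (rk_mono (subset_union_left))
    · exact isFl_univ.cl_eq (subset_univ _) hY2.ge
  · exfalso
    have hF := hA.fl m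
    have hV' : IsFl N (cl N (A m)ᶜ) := isFl_cl
    have hV'r : rk N (cl N (A m)ᶜ) = rk N (A m)ᶜ := rk_cl
    have hV'ne : cl N (A m)ᶜ ≠ univ := by
      intro h
      rw [h] at hV'r
      omega
    have hcov : A m ∪ cl N (A m)ᶜ = univ := by
      rw [eq_univ_iff_forall]
      intro z
      rw [mem_union]
      by_cases hz : z ∈ A m
      · exact Or.inl hz
      · exact Or.inr (subset_cl (mem_compl.2 hz))
    have h1 := hA.guts_count hF hV' hcov
    set C : Finset ι := univ.filter (fun k => ¬ A k ⊆ A m ∧ ¬ A k ⊆ cl N (A m)ᶜ) with hC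
    have hiC : i ∈ C := by
      rw [hC, mem_filter, hi]
      exact ⟨mem_univ _, fun h => hm (univ_subset_iff.1 h), fun h => hV'ne (univ_subset_iff.1 h)⟩
    have hCpos : 0 < C.card := card_pos.2 ⟨i, hiC⟩
    have h0 : rk N (A m ∩ cl N (A m)ᶜ) = 0 := by omega
    have hemp : A m ∩ cl N (A m)ᶜ = ∅ := by
      by_contra hne
      obtain ⟨z, hz⟩ := nonempty_iff_ne_empty.2 hne
      have h2 := rk_mono (N := N) (singleton_subset_iff.2 hz)
      rw [hq.simple.rk_singleton] at h2
      omega
    have hjC : j ∈ C := by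
      rw [hC, mem_filter]
      refine ⟨mem_univ _, hsub, ?_⟩
      intro h2
      obtain ⟨z, hz⟩ := hjm
      rw [mem_inter] at hz
      have h3 : z ∈ A m ∩ cl N (A m)ᶜ := mem_inter.2 ⟨hz.1, h2 hz.2⟩
      rw [hemp] at h3
      exact notMem_empty z h3
    have hC1 : C.card ≤ 1 := by omega
    have := card_le_one.1 hC1 i hiC j hjC
    rw [← this] at hj
    exact hj hi

/-- `Y` skew to a set `P` of rank three -/
theorem exists_skew {P : Finset E} {r : ℕ} (hP : rk N P = r) :
    ∃ Y, rk N Y + r = rk N univ ∧ rk N (P ∪ Y) = rk N univ := by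
  classical
  obtain ⟨IP, hIPP, hIP, hIPs⟩ := exists_basis (N := N) P
  obtain ⟨IE, hIPE, -, hIE, hIEs⟩ := exists_basis_extend hIP (subset_univ IP)
  have c1 : IP.card = r := by rw [← hIP.rk_eq_card, rk_congr hIPs, hP]
  have c3 : IE.card = rk N univ := by rw [← hIE.rk_eq_card, rk_congr hIEs]
  refine ⟨IE \ IP, ?_, ?_⟩
  · rw [(hIE.subset sdiff_subset).rk_eq_card]
    have := card_sdiff_add_card_eq_card hIPE
    omega
  · apply le_antisymm (rk_mono (subset_univ _))
    rw [← rk_congr hIEs]
    apply rk_mono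
    intro z hz
    rw [mem_union, mem_sdiff]
    by_cases hzP : z ∈ IP
    · exact Or.inl (hIPP hzP)
    · exact Or.inr ⟨hz, hzP⟩

/-- closures of two sets over `Y` are different if their union spans more -/
theorem cl_ne_of_rk {P Q : Finset E} (h : rk N (P ∪ Y) < rk N (P ∪ Q ∪ Y)) :
    cl N (P ∪ Y) ≠ cl N (Q ∪ Y) := by
  intro hc
  have h1 : rk N ((P ∪ Y) ∪ (Q ∪ Y)) = rk N (P ∪ Y) := by
    apply rk_union_of_forall_mem_sp
    intro z hz
    have : z ∈ cl N (Q ∪ Y) := subset_cl hz
    rw [← hc] at this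
    exact mem_cl.1 this
  have h2 : (P ∪ Y) ∪ (Q ∪ Y) = P ∪ Q ∪ Y := by
    ext z; simp only [mem_union]; tauto
  rw [h2] at h1
  omega

/-- (Pa) for lines of multiplicity at least two -/
theorem pa_line (hK4 : Fintype.card K = 4) (hq : KC K N) (hA : Fam N A) (h4 : 4 ≤ rk N univ)
    (hi : A i = univ) (hm2 : rk N (A m) = 2) (hmm : m' ≠ m)
    (hmm' : A m' = A m) (hj : A j ≠ univ) (hj2 : rk N (A j) = 2)
    (hjm : (A m ∩ A j).Nonempty) : A j = A m := by
  classical
  by_contra hne
  obtain ⟨a, ha⟩ := hjm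
  rw [mem_inter] at ha
  have hlm := hA.line hq.simple (hA.fl m) hm2
  have hlj := hA.line hq.simple (hA.fl j) hj2
  have hm4 : 4 ≤ (A m).card := by
    have h1 : ({m, m'} : Finset ι) ⊆ univ.filter (fun k => A k = A m) := by
      intro z hz
      simp only [mem_insert, mem_singleton] at hz
      rcases hz with rfl | rfl
      · simp
      · simp [hmm']
    have h2 := card_le_card h1
    rw [card_pair hmm.symm] at h2
    omega
  have hj3 : 3 ≤ (A j).card := by
    have h1 : 0 < (univ.filter (fun k => A k = A j)).card := card_pos.2 ⟨j, by simp⟩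
    omega
  -- the plane
  have hP3 : rk N (A m ∪ A j) = 3 := by
    have h1 := rk_union_add_rk_inter (N := N) (X := A m) (Y := A j)
    have h2 : 1 ≤ rk N (A m ∩ A j) := by
      have := rk_mono (N := N) (singleton_subset_iff.2 (mem_inter.2 ha))
      rwa [hq.simple.rk_singleton] at this
    have h3 : rk N (A m) < rk N (A m ∪ A j) := by
      apply (hA.fl m).rk_lt_of_ssubset
      rw [Finset.ssubset_iff_subset_ne]
      refine ⟨subset_union_left, fun h => ?_⟩
      have h5 : A j ⊆ A m := by rw [h]; exact subset_union_right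
      exact hne ((hA.fl j).eq_of_subset_of_rk_le h5 (by omega))
    omega
  obtain ⟨Y, hY1, hY2⟩ := exists_skew hP3
  obtain ⟨x, hx⟩ := exists_mem_of_rk (N := N) (Y := Y) (by omega)
  have hsk : rk N ((A m ∪ A j) ∪ Y) = rk N (A m ∪ A j) + rk N Y := by omega
  have hSep := sep_of_skew hq.simple hsk
  obtain ⟨R, hSR, hR⟩ := exists_isReps (T := univ) (subset_univ _) hSep.1 hSep.2
  have hmY := rk_skew hsk (X := A m) subset_union_left
  have hjY := rk_skew hsk (X := A j) subset_union_right
  have sm : Y ⊆ cl N (A m ∪ Y) := subset_union_right.trans subset_cl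
  have sj : Y ⊆ cl N (A j ∪ Y) := subset_union_right.trans subset_cl
  have hrm := hR.rk_tr isFl_cl sm (subset_univ _)
  have hrj := hR.rk_tr isFl_cl sj (subset_univ _)
  rw [rk_cl] at hrm hrj
  have haR : a ∈ R := hSR (mem_union_left _ ha.1)
  have hiY : rk N (A i ∪ Y) = rk N univ := by
    rw [hi]
    exact le_antisymm (rk_mono (subset_univ _)) (rk_mono subset_union_left)
  have hicl : cl N (A i ∪ Y) = univ := isFl_univ.cl_eq (subset_univ _) hiY.ge
  refine r3_meet hK4 (rep_qc hq.rep hx) hR.simple (hA.qc hR) (rk_qc_three hR hY1)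
    (i := ⟨i, by omega⟩) (tr_of_cl hicl) (hR.isFl_tr isFl_cl sm (subset_univ _))
    (hR.isFl_tr isFl_cl sj (subset_univ _)) (by omega) (by omega) ?_ (a := ⟨a, haR⟩)
    (mem_tr.2 (subset_cl (mem_union_left _ ha.1))) (mem_tr.2 (subset_cl (mem_union_left _ ha.2)))
    ?_ ?_
  · intro he
    have h5 := hR.tr_inj isFl_cl sm (subset_univ _) isFl_cl sj (subset_univ _) he
    exact cl_ne_of_rk (by omega) h5
  · exact hm4.trans (card_tr (subset_union_left.trans hSR)
      (subset_union_left.trans subset_cl))
  · exact hj3.trans (card_tr (subset_union_right.trans hSR)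
      (subset_union_left.trans subset_cl))

/-- (Pa) -/
theorem pa_kc (hK4 : Fintype.card K = 4) (hq : KC K N) (hA : Fam N A) (h4 : 4 ≤ rk N univ)
    (hi : A i = univ) (hm : A m ≠ univ) (hm3 : 3 ≤ rk N (A m) ∨ ∃ m', m' ≠ m ∧ A m' = A m)
    (hj : A j ≠ univ) (hjm : (A m ∩ A j).Nonempty) : A j = A m := by
  by_cases h3 : 3 ≤ rk N (A m)
  · exact pa_big hK4 hq hA h4 hi hm h3 hj hjm
  by_cases h3' : 3 ≤ rk N (A j)
  · exact (pa_big hK4 hq hA h4 hi hj h3' hm (by rwa [inter_comm])).symm
  rcases hm3 with h | ⟨m', h1, h2⟩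
  · exact absurd h h3
  have h5 := hA.two_le_rk hq.simple m
  have h6 := hA.two_le_rk hq.simple j
  exact pa_line hK4 hq hA h4 hi (by omega) h1 h2 hj (by omega) hjm

theorem Rep.kc (hN : Simple N) (hr : Rep K N) (hA : Fam N A) : KC K N :=
  ⟨hN, hA.sg, hr.repC⟩

/-- `N` quaternary of rank at least four with a spanning member -/
theorem pa_rep (hK4 : Fintype.card K = 4) (hN : Simple N) (hr : Rep K N) (hA : Fam N A)
    (h4 : 4 ≤ rk N univ) (hi : A i = univ) (hm : A m ≠ univ)
    (hm3 : 3 ≤ rk N (A m) ∨ ∃ m', m' ≠ m ∧ A m' = A m) (hj : A j ≠ univ)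
    (hjm : (A m ∩ A j).Nonempty) : A j = A m :=
  pa_kc hK4 (Rep.kc hN hr hA) hA h4 hi hm hm3 hj hjm

theorem pa_eq (hK : Fintype.card K = 4) (h : KC K N) (h4 : 4 ≤ rk N univ) (hA : Fam N A)
    (ha : 1 ≤ alpha N univ) (hi : A i ≠ univ) (hj : A j ≠ univ)
    (hF : 3 ≤ rk N (A i) ∨ ∃ i', i' ≠ i ∧ A i' = A i) (hne : (A i ∩ A j).Nonempty) :
    A j = A i := by
  obtain ⟨k, hk⟩ := hA.exists_of_alpha_pos isFl_univ (by omega)
  exact pa_kc hK h hA h4 hk hi hF hj hne

/-! ### no path -/

/-- a common complement of two planes over `Y` -/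
theorem exists_common (hA : Fam N A) (hi : A i = univ) {P Q L : Finset E}
    (hP : rk N P = 3) (hQ : rk N Q = 3) (hL : rk N L = 2) (hLP : L ⊆ P) (hLQ : L ⊆ Q) :
    ∀ n, n + 3 ≤ rk N univ → ∃ Y, rk N Y = n ∧ rk N (P ∪ Y) = n + 3 ∧ rk N (Q ∪ Y) = n + 3 := by
  intro n
  induction n with
  | zero => intro _; exact ⟨∅, by simp, by simpa using hP, by simpa using hQ⟩
  | succ n ih =>
    intro hn
    obtain ⟨Y, h1, h2, h3⟩ := ih (by omega)
    have hsP : rk N (L ∪ Y) = 2 + n := by
      have := rk_skew (N := N) (S := P) (Y := Y) (by omega) hLP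
      omega
    obtain ⟨y, hyP, hyQ⟩ : ∃ y, y ∉ cl N (P ∪ Y) ∧ y ∉ cl N (Q ∪ Y) := by
      by_contra hc
      push Not at hc
      have hcov : cl N (P ∪ Y) ∪ cl N (Q ∪ Y) = univ := by
        rw [eq_univ_iff_forall]
        intro z
        rw [mem_union]
        by_cases hz : z ∈ cl N (P ∪ Y)
        · exact Or.inl hz
        · exact Or.inr (hc z hz)
      have h4 := hA.guts_count isFl_cl isFl_cl hcov
      rw [rk_cl, rk_cl] at h4
      have h5 : rk N (L ∪ Y) ≤ rk N (cl N (P ∪ Y) ∩ cl N (Q ∪ Y)) :=
        rk_mono (subset_inter ((union_subset_union_left hLP).trans subset_cl)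
          ((union_subset_union_left hLQ).trans subset_cl))
      have h6 : 0 < (univ.filter (fun k => ¬ A k ⊆ cl N (P ∪ Y) ∧
          ¬ A k ⊆ cl N (Q ∪ Y))).card := by
        apply card_pos.2
        refine ⟨i, ?_⟩
        rw [mem_filter, hi]
        refine ⟨mem_univ _, fun h => ?_, fun h => ?_⟩
        · have := rk_cl (N := N) (X := P ∪ Y)
          rw [univ_subset_iff.1 h] at this
          omega
        · have := rk_cl (N := N) (X := Q ∪ Y)
          rw [univ_subset_iff.1 h] at this
          omega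
      omega
    have hyP' : y ∉ sp N (P ∪ Y) := fun h => hyP (mem_cl.2 h)
    have hyQ' : y ∉ sp N (Q ∪ Y) := fun h => hyQ (mem_cl.2 h)
    refine ⟨insert y Y, ?_, ?_, ?_⟩
    · rw [rk_insert_of_not_mem_sp (fun h => hyP' (sp_mono subset_union_right h)), h1]
    · rw [union_insert, rk_insert_of_not_mem_sp hyP', h2]
    · rw [union_insert, rk_insert_of_not_mem_sp hyQ', h3]

/-- three member lines do not form a path -/
theorem path_false (hK4 : Fintype.card K = 4) (hq : KC K N) (hA : Fam N A)
    (h4 : 4 ≤ rk N univ) (hi : A i = univ) {a b c : ι} (hra : rk N (A a) = 2)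
    (hrb : rk N (A b) = 2) (hrc : rk N (A c) = 2) (hab : A a ≠ A b) (hbc : A b ≠ A c) {p q : E}
    (hpq : p ≠ q) (hpa : p ∈ A a) (hpb : p ∈ A b) (hqb : q ∈ A b) (hqc : q ∈ A c) : False := by
  classical
  have plane : ∀ u v : ι, rk N (A u) = 2 → rk N (A v) = 2 → A u ≠ A v → ∀ z, z ∈ A u →
      z ∈ A v → rk N (A u ∪ A v) = 3 := by
    intro u v hu hv huv z hzu hzv
    have h1 := rk_union_add_rk_inter (N := N) (X := A u) (Y := A v)
    have h2 : 1 ≤ rk N (A u ∩ A v) := by
      have := rk_mono (N := N) (singleton_subset_iff.2 (mem_inter.2 ⟨hzu, hzv⟩))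
      rwa [hq.simple.rk_singleton] at this
    have h3 : rk N (A u) < rk N (A u ∪ A v) := by
      apply (hA.fl u).rk_lt_of_ssubset
      rw [Finset.ssubset_iff_subset_ne]
      refine ⟨subset_union_left, fun h => ?_⟩
      have h5 : A v ⊆ A u := by rw [h]; exact subset_union_right
      exact huv ((hA.fl v).eq_of_subset_of_rk_le h5 (by omega)).symm
    omega
  have hP := plane a b hra hrb hab p hpa hpb
  have hQ := plane b c hrb hrc hbc q hqb hqc
  obtain ⟨Y, hY1, hY2, hY3⟩ := exists_common hA hi hP hQ hrb subset_union_right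
    subset_union_left (rk N univ - 3) (by omega)
  have hY : rk N Y + 3 = rk N univ := by omega
  obtain ⟨x, hx⟩ := exists_mem_of_rk (N := N) (Y := Y) (by omega)
  have hsP : rk N ((A a ∪ A b) ∪ Y) = rk N (A a ∪ A b) + rk N Y := by omega
  have hsQ : rk N ((A b ∪ A c) ∪ Y) = rk N (A b ∪ A c) + rk N Y := by omega
  have hsb := rk_skew hsP (X := A b) subset_union_right
  have hsa := rk_skew hsP (X := A a) subset_union_left
  have hsc := rk_skew hsQ (X := A c) subset_union_right
  have hSb : Sep N Y (A b) := sep_of_skew hq.simple hsb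
  obtain ⟨R, hSR, hR⟩ := exists_isReps (T := univ) (subset_univ _) hSb.1 hSb.2
  have hiY : rk N (A i ∪ Y) = rk N univ := by
    rw [hi]
    exact le_antisymm (rk_mono (subset_univ _)) (rk_mono subset_union_left)
  have hicl : cl N (A i ∪ Y) = univ := isFl_univ.cl_eq (subset_univ _) hiY.ge
  have s : ∀ u : ι, Y ⊆ cl N (A u ∪ Y) := fun u => subset_union_right.trans subset_cl
  have hr : ∀ u : ι, rk N (A u ∪ Y) = 2 + rk N Y → rk (N.qc Y R) (tr R (cl N (A u ∪ Y))) = 2 := by
    intro u hu
    have := hR.rk_tr isFl_cl (s u) (subset_univ _)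
    rw [rk_cl] at this
    omega
  have hc : ∀ u : ι, rk N (A u ∪ Y) = 2 + rk N Y → 3 ≤ (tr R (cl N (A u ∪ Y))).card := by
    intro u hu
    have hl := (hA.qc hR).line hR.simple (hR.isFl_tr isFl_cl (s u) (subset_univ _)) (hr u hu)
    have hpos : 0 < (univ.filter (fun i : {i : ι // rk N Y + 2 ≤ rk N (A i ∪ Y)} =>
        tr R (cl N (A i ∪ Y)) = tr R (cl N (A u ∪ Y)))).card :=
      card_pos.2 ⟨⟨u, by omega⟩, by simp⟩
    omega
  refine r3_path hK4 (rep_qc hq.rep hx) hR.simple (hA.qc hR) (rk_qc_three hR hY)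
    (i := ⟨i, by omega⟩) (tr_of_cl hicl) (hR.isFl_tr isFl_cl (s a) (subset_univ _))
    (hR.isFl_tr isFl_cl (s b) (subset_univ _)) (hR.isFl_tr isFl_cl (s c) (subset_univ _))
    (hr a (by omega)) (hr b (by omega)) (hr c (by omega)) ?_ ?_
    (p := ⟨p, hSR hpb⟩) (q := ⟨q, hSR hqb⟩) ?_
    (mem_tr.2 (subset_cl (mem_union_left _ hpa))) (mem_tr.2 (subset_cl (mem_union_left _ hpb)))
    (mem_tr.2 (subset_cl (mem_union_left _ hqb))) (mem_tr.2 (subset_cl (mem_union_left _ hqc)))
    (hc a (by omega)) (hc b (by omega)) (hc c (by omega))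
  · intro he
    have h5 := hR.tr_inj isFl_cl (s a) (subset_univ _) isFl_cl (s b) (subset_univ _) he
    exact cl_ne_of_rk (by omega) h5
  · intro he
    have h5 := hR.tr_inj isFl_cl (s b) (subset_univ _) isFl_cl (s c) (subset_univ _) he
    exact cl_ne_of_rk (by omega) h5
  · intro he
    exact hpq (congrArg Subtype.val he)

theorem no_path (hK : Fintype.card K = 4) (h : KC K N) (h4 : 4 ≤ rk N univ) (hA : Fam N A)
    (ha : 1 ≤ alpha N univ) {a b c : ι} (hra : rk N (A a) = 2) (hrb : rk N (A b) = 2)
    (hrc : rk N (A c) = 2) {p q : E} (hab : A a ∩ A b = {p}) (hbc : A b ∩ A c = {q}) :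
    p = q := by
  by_contra hpq
  obtain ⟨k, hk⟩ := hA.exists_of_alpha_pos isFl_univ (by omega)
  have hp : p ∈ A a ∩ A b := by rw [hab]; exact mem_singleton_self p
  have hq : q ∈ A b ∩ A c := by rw [hbc]; exact mem_singleton_self q
  rw [mem_inter] at hp hq
  have hne : ∀ u v : ι, rk N (A u) = 2 → ∀ z, A u ∩ A v = {z} → A u ≠ A v := by
    intro u v hu z hz he
    rw [← he, inter_self] at hz
    have := rk_le_card (N := N) (X := A u)
    rw [hz, card_singleton] at this
    rw [hz] at hu
    omega
  exact path_false hK h hA h4 hk hra hrb hrc (hne a b hra p hab) (hne b c hrb q hbc) hpq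
    hp.1 hp.2 hq.1 hq.2

end Ca3.Ab.PaAux

namespace Ca3.Ab

open Finset

variable {K E : Type*} [Field K] [Fintype K] [DecidableEq E] [Fintype E] {N : RF E}
  {ι : Type*} [Fintype ι] {A : ι → Finset E} {i j m : ι}

/-- a spanning member `A i` and a proper member `A m` of rank at least three: the complement of
`A m` has small rank -/
theorem big_compl (hK4 : Fintype.card K = 4) (hq : KC K N) (hA : Fam N A) (hi : A i = univ)
    (hm : A m ≠ univ) (hm3 : 3 ≤ rk N (A m)) :
    rk N (A m)ᶜ + rk N (A m) ≤ rk N univ + 1 :=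
  PaAux.big_compl hK4 hq hA hi hm hm3

/-- (Pa), abstract form -/
theorem pa_kc (hK4 : Fintype.card K = 4) (hq : KC K N) (hA : Fam N A) (h4 : 4 ≤ rk N univ)
    (hi : A i = univ) (hm : A m ≠ univ) (hm3 : 3 ≤ rk N (A m) ∨ ∃ m', m' ≠ m ∧ A m' = A m)
    (hj : A j ≠ univ) (hjm : (A m ∩ A j).Nonempty) : A j = A m :=
  PaAux.pa_kc hK4 hq hA h4 hi hm hm3 hj hjm

/-- (Pa): `N` quaternary of rank at least four with a spanning member -/
theorem pa_rep (hK4 : Fintype.card K = 4) (hN : Simple N) (hr : Rep K N) (hA : Fam N A)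
    (h4 : 4 ≤ rk N univ) (hi : A i = univ) (hm : A m ≠ univ)
    (hm3 : 3 ≤ rk N (A m) ∨ ∃ m', m' ≠ m ∧ A m' = A m) (hj : A j ≠ univ)
    (hjm : (A m ∩ A j).Nonempty) : A j = A m :=
  PaAux.pa_kc hK4 (PaAux.Rep.kc hN hr hA) hA h4 hi hm hm3 hj hjm

/-- (Pa) with `alpha` -/
theorem pa_eq (hK : Fintype.card K = 4) (h : KC K N) (h4 : 4 ≤ rk N univ) (hA : Fam N A)
    (ha : 1 ≤ alpha N univ) {i j : ι} (hi : A i ≠ univ) (hj : A j ≠ univ)
    (hF : 3 ≤ rk N (A i) ∨ ∃ i', i' ≠ i ∧ A i' = A i) (hne : (A i ∩ A j).Nonempty) :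
    A j = A i :=
  PaAux.pa_eq hK h h4 hA ha hi hj hF hne

/-- three member lines do not form a path if there is a spanning member -/
theorem no_path (hK : Fintype.card K = 4) (h : KC K N) (h4 : 4 ≤ rk N univ) (hA : Fam N A)
    (ha : 1 ≤ alpha N univ) {a b c : ι} (hra : rk N (A a) = 2) (hrb : rk N (A b) = 2)
    (hrc : rk N (A c) = 2) {p q : E} (hab : A a ∩ A b = {p}) (hbc : A b ∩ A c = {q}) :
    p = q :=
  PaAux.no_path hK h h4 hA ha hra hrb hrc hab hbc

end Ca3.Ab
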