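import Pool.Agent.Lib.MP_ca3eb1_co.AbVplus
import Pool.Agent.Lib.MP_ca3eb1_co.AbPa
import Pool.Agent.Lib.MP_ca3eb1_co.AbLP

/-! # Case (ii): a strict gammoid of rank at least five, all whose contractions are quaternary,
is quaternary -/

set_option linter.unusedSectionVars false

namespace Ca3.Ab

open Finset

universe u

section

variable {K E : Type*} [Field K] [Fintype K] [DecidableEq E] [Fintype E] {N : RF E}
  {ι : Type*} [Fintype ι] {A : ι → Finset E}

/-- at most one member spans -/
theorem Fam.univ_unique (hK : Fintype.card K = 4) (h : KC K N) (h5 : 5 ≤ rk N univ)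
    (hA : Fam N A) {i j : ι} (hi : A i = univ) (hj : A j = univ) : i = j := by
  by_contra hij
  have hne : (univ : Finset E).Nonempty := by
    rw [nonempty_iff_ne_empty]
    intro h0
    rw [h0, rk_empty] at h5
    omega
  obtain ⟨x, -⟩ := hne
  have hM : IsMason N {x} univ A := hA.mason.mono (empty_subset _) (Subset.refl _)
  apply spanning_le_one hK h.simple h.rep h5 hM hij
  · rw [hi, union_eq_left.2 (subset_univ _)]
    exact isFl_univ
  · rw [hj, union_eq_left.2 (subset_univ _)]
    exact isFl_univ

/-- a 3-connected member of the class with a spanning member has a free point on a member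
line -/
theorem exists_free_of_alpha (hK : Fintype.card K = 4) (h : KC K N) (h5 : 5 ≤ rk N univ)
    (hc : Conn3 N) (hA : Fam N A) (ha : 1 ≤ alpha N univ) :
    ∃ t i, Free A t i ∧ rk N (A i) = 2 := by
  classical
  have hN := h.simple
  have hE : 4 ≤ Fintype.card E := by
    have h2 : rk N univ ≤ (univ : Finset E).card := rk_le_card
    rw [card_univ] at h2
    omega
  obtain ⟨u, hu⟩ := hA.exists_of_alpha_pos isFl_univ (by omega)
  -- crossing members of a set which is crossed by `univ` only
  have hcross : ∀ W : Finset E, 2 ≤ W.card → 2 ≤ Wᶜ.card →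
      ∃ j, A j ≠ univ ∧ ¬ A j ⊆ W ∧ ¬ A j ⊆ Wᶜ := by
    intro W h1 h2
    have h3 := hA.two_le_crossing hc h1 h2
    have h4 : 1 < (univ.filter (fun i => ¬ A i ⊆ W ∧ ¬ A i ⊆ Wᶜ)).card := by omega
    obtain ⟨j, hj, hju⟩ := exists_mem_ne h4 u
    rw [mem_filter] at hj
    exact ⟨j, fun h0 => hju (hA.univ_unique hK h h5 h0 hu), hj.2⟩
  -- a proper member exists
  obtain ⟨a, b, hab⟩ : ∃ a b : E, a ≠ b := by
    have : 1 < Fintype.card E := by omega
    exact Fintype.exists_pair_of_one_lt_card this
  have hcard : ∀ {F : Finset E}, 2 ≤ rk N F → 2 ≤ F.card := fun h0 => h0.trans rk_le_card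
  obtain ⟨i, hi, -⟩ := hcross {a, b} (by rw [card_pair hab]) (by
    have h1 := card_compl_add_card ({a, b} : Finset E)
    rw [card_pair hab] at h1
    omega)
  -- proper members are simple lines
  have hline : ∀ i, A i ≠ univ → rk N (A i) = 2 ∧ ∀ i', A i' = A i → i' = i := by
    intro i hi
    by_contra hcon
    have hF : 3 ≤ rk N (A i) ∨ ∃ i', i' ≠ i ∧ A i' = A i := by
      by_contra h0
      push Not at h0
      apply hcon
      have h1 := hA.two_le_rk hN i
      refine ⟨by omega, fun i' h2 => ?_⟩
      by_contra h3
      exact h0.2 i' h3 h2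
    have h2 : rk N (A i) < rk N univ :=
      (hA.fl i).rk_lt_of_ssubset (ssubset_univ_iff.2 hi)
    have h3 := hc.three_le hE h2
    obtain ⟨j, hj, hj1, hj2⟩ := hcross (A i) (hcard (hA.two_le_rk hN i)) (by omega)
    have h4 : (A i ∩ A j).Nonempty := by
      by_contra h5
      rw [not_nonempty_iff_eq_empty] at h5
      apply hj2
      intro e he
      rw [mem_compl]
      intro he'
      have h6 : e ∈ A i ∩ A j := mem_inter.2 ⟨he', he⟩
      rw [h5] at h6
      exact notMem_empty _ h6
    exact hj1 (pa_eq hK h (by omega) hA ha hi hj hF h4).subset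
  obtain ⟨hr, hun⟩ := hline i hi
  -- otherwise every point of this line is on another line
  by_contra hcon
  push Not at hcon
  have hother : ∀ t ∈ A i, ∃ j, A j ≠ univ ∧ j ≠ i ∧ A i ∩ A j = {t} := by
    intro t ht
    by_contra h0
    push Not at h0
    apply hcon t i _ hr
    refine ⟨ht, fun j hj => ?_⟩
    by_cases hj1 : A j = univ
    · rw [hj1]
      exact subset_univ _
    by_cases hj2 : j = i
    · rw [hj2]
    exfalso
    apply h0 j hj1 hj2
    obtain ⟨hr2, hun2⟩ := hline j hj1
    apply subset_antisymm
    · intro s hs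
      rw [mem_inter] at hs
      rw [mem_singleton]
      by_contra hst
      have h3 : ({s, t} : Finset E) ⊆ A i := insert_subset hs.1 (singleton_subset_iff.2 ht)
      have h4 : ({s, t} : Finset E) ⊆ A j := insert_subset hs.2 (singleton_subset_iff.2 hj)
      have h5 := hN.rk_pair hst
      have h6 := (hA.fl i).cl_eq h3 (by omega)
      have h7 := (hA.fl j).cl_eq h4 (by omega)
      exact hj2 (hun j (by rw [← h6, ← h7]))
    · exact singleton_subset_iff.2 (mem_inter.2 ⟨ht, hj⟩)
  have h1 := hcard (hA.two_le_rk hN i)
  obtain ⟨p, hp, q, hq, hpq⟩ := one_lt_card.1 (show 1 < (A i).card by omega)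
  obtain ⟨j, hj, _, hjp⟩ := hother p hp
  obtain ⟨l, hl, _, hlq⟩ := hother q hq
  apply hpq
  exact no_path hK h (by omega) hA ha (hline j hj).1 hr (hline l hl).1
    (by rw [inter_comm]; exact hjp) hlq

end

/-- the induction on the number of elements -/
theorem case_two_aux {K : Type*} [Field K] [Fintype K] (hK : Fintype.card K = 4) (n : ℕ) :
    ∀ (E : Type u) [DecidableEq E] [Fintype E] (N : RF E), Fintype.card E = n → KC K N →
      5 ≤ rk N univ → Rep K N := by
  classical
  induction n using Nat.strong_induction_on with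
  | _ n ih =>
    intro E _ _ N hn h h5
    by_contra hrep
    have hN := h.simple
    have hc : Conn3 N := by
      rcases rep_or_threeConn hN h.rep with h1 | h1
      · exact absurd h1 hrep
      · exact h1.conn3
    have hE : 4 ≤ Fintype.card E := by
      have h2 : rk N univ ≤ (univ : Finset E).card := rk_le_card
      rw [card_univ] at h2
      omega
    obtain ⟨m, A, hA⟩ := h.sg.exists_fam
    -- there is no free point on a member line
    have hfree : ∀ t i, Free A t i → rk N (A i) ≠ 2 := by
      intro t i hf hr
      apply hrep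
      apply hA.rep_of_free_line hK hN hf hr h.rep (by omega)
      have h1 : rk N (univ.erase t) = rk N univ := by
        have h2 := hc.mem_sp_erase hE t
        rw [mem_sp_iff, insert_erase (mem_univ t)] at h2
        exact h2.symm
      have h2 : Fintype.card ↥(univ.erase t : Finset E) < n := by
        rw [Fintype.card_coe, card_erase_of_mem (mem_univ t), card_univ, hn]
        omega
      refine ih _ h2 ↥(univ.erase t : Finset E) (N.restrict (univ.erase t)) rfl
        ⟨simple_restrict hN _, (hA.delete hf).sg, h.rep.restrict _⟩ ?_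
      rw [rk_restrict, univ_eq_attach, attach_map_val, h1]
      exact h5
    have ht : NoThin N A := by
      intro z i hz hu
      by_contra h0
      have h1 := hA.two_le_rk hN i
      exact hfree z i ⟨hz, fun j hj => (congrArg A (hu j hj)).symm.subset⟩ (by omega)
    obtain ⟨u, hu⟩ := vplus hK h (fun h0 => by omega) hA hc hE (by omega) ht
    have ha : 1 ≤ alpha N univ := by
      have := hA.alpha_pos u
      rw [hu] at this
      omega
    obtain ⟨t, i, hf, hr⟩ := exists_free_of_alpha hK h h5 hc hA ha
    exact hfree t i hf hr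

/-- **Case (ii).** -/
theorem case_two {K : Type*} [Field K] [Fintype K] (hK : Fintype.card K = 4) {E : Type u}
    [DecidableEq E] [Fintype E] {N : RF E} (h : KC K N) (h5 : 5 ≤ rk N univ) : Rep K N :=
  case_two_aux hK _ E N rfl h h5

end Ca3.Ab
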