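import Pool.Agent.Lib.MP_ca3eb1_co.C3

/-! # Module M4a: the special case of rank 4 -/

set_option linter.unusedSectionVars false

namespace Ca3

open Finset Submodule

variable {K V E : Type*} [Field K] [Fintype K] [AddCommGroup V] [Module K V]
  [FiniteDimensional K V] [Fintype E] [DecidableEq E]

namespace CkFour

lemma exists_functional {W : Submodule K V} {x : V} (hx : x ∉ W) :
    ∃ f : V →ₗ[K] K, f x = 1 ∧ ∀ w ∈ W, f w = 0 := by
  obtain ⟨f, hf, hf'⟩ := Submodule.exists_dual_map_eq_bot_of_notMem hx inferInstance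
  refine ⟨(f x)⁻¹ • f, ?_, ?_⟩
  · simp [hf]
  · intro w hw
    have : f w ∈ W.map f := ⟨w, hw, rfl⟩
    rw [hf', Submodule.mem_bot] at this
    simp [this]

lemma cnt_self_pos {ι : Type*} [Fintype ι] (A : ι → Finset E) (i : ι) : 1 ≤ cnt A (A i) := by
  unfold cnt
  rw [Nat.one_le_iff_ne_zero, ← Nat.pos_iff_ne_zero, card_pos]
  exact ⟨i, by simp⟩

lemma cnt_pos_iff {ι : Type*} [Fintype ι] {A : ι → Finset E} {Z : Finset E} :
    1 ≤ cnt A Z ↔ ∃ i, A i ⊆ Z := by
  unfold cnt
  rw [Nat.one_le_iff_ne_zero, ← Nat.pos_iff_ne_zero, card_pos]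
  constructor
  · rintro ⟨i, hi⟩
    exact ⟨i, by simpa using hi⟩
  · rintro ⟨i, hi⟩
    exact ⟨i, by simpa using hi⟩

lemma cnt_univ {ι : Type*} [Fintype ι] (A : ι → Finset E) : cnt A univ = Fintype.card ι := by
  unfold cnt
  rw [filter_true_of_mem (fun i _ => subset_univ _), card_univ]

lemma two_le_rk {v : E → V} (hv : Simple K v) {ι : Type*} [Fintype ι]
    {A : ι → Finset E} (hA : IsMason K v ∅ univ A) (i : ι) : 2 ≤ rk K v (A i) := by
  by_contra hc
  have h1 := hv.card_le_one (X := A i) (by omega)
  have h2 := (hv.ind_of_card_le_two (X := A i) (by omega)).rk_eq_card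
  have h3 := hA.le (empty_subset _) (subset_univ (A i))
  have h4 := cnt_self_pos A i
  omega

/-- The combinatorial data extracted from the hypotheses. -/
theorem data {v : E → V} (hv : Simple K v) {ι : Type*} [Fintype ι]
    {A : ι → Finset E} (hA : IsMason K v ∅ univ A) (hcl : ∀ i, IsFl K v (A i))
    (h4 : rk K v univ = 4) {H : Finset E}
    (hH : IsFl K v H) (hH3 : rk K v H = 3) {i0 : ι} (hi : A i0 = H)
    (hc : H.card = 4) (hm : (univ \ H).card = 5)
    (hy : ∀ y ∈ H, ∃ c c', c ∉ H ∧ c' ∉ H ∧ c ≠ c' ∧ v c' ∈ sp K v {y, c}) :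
    ∃ (y c c' : Fin 4 → E) (τ : Fin 4 → ι), Function.Injective y ∧ (∀ m, y m ∈ H) ∧
      (∀ e ∈ H, ∃ m, e = y m) ∧
      (∀ m, c m ∉ H ∧ c' m ∉ H ∧ c m ≠ c' m ∧ v (c' m) ∈ sp K v {y m, c m}) ∧
      Function.Injective τ ∧ (∀ m, τ m ≠ i0) ∧ (∀ i, i = i0 ∨ ∃ m, i = τ m) ∧
      (∀ m, A (τ m) = {y m, c m, c' m}) ∧
      (∀ m, cl K v {y m, c m} = A (τ m)) ∧
      (∀ m, Ind K v (H.erase (y m))) := by
  have hcardι : Fintype.card ι = 5 := by
    have h1 := hA.eq (empty_subset _) (subset_univ _) isFl_univ
    rw [cnt_univ, h4] at h1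
    have h2 : (univ : Finset E).card = 9 := by
      have := card_sdiff_add_card_eq_card (subset_univ H)
      omega
    omega
  have hcntH : cnt A H = 1 := by
    have h1 := hA.eq (empty_subset _) (subset_univ _) hH
    omega
  -- uniqueness of the set inside `H`
  have huniq : ∀ i, A i ⊆ H → i = i0 := by
    intro i hi'
    unfold cnt at hcntH
    rw [card_eq_one] at hcntH
    obtain ⟨a, ha⟩ := hcntH
    have h1 : i ∈ univ.filter (fun i => A i ⊆ H) := by simpa using hi'
    have h2 : i0 ∈ univ.filter (fun i => A i ⊆ H) := by simp [hi]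
    rw [ha, mem_singleton] at h1 h2
    rw [h1, h2]
  -- enumerate `H`
  let e4 : Fin 4 ≃ H := (Finset.equivFinOfCardEq hc).symm
  let y : Fin 4 → E := fun m => (e4 m).1
  have hyinj : Function.Injective y := fun a b h => e4.injective (Subtype.ext h)
  have hyH : ∀ m, y m ∈ H := fun m => (e4 m).2
  have hysurj : ∀ e ∈ H, ∃ m, e = y m := by
    intro e he
    exact ⟨e4.symm ⟨e, he⟩, by simp [y]⟩
  choose c c' hcH hc'H hcc' hsp using fun m => hy (y m) (hyH m)
  have hne : ∀ m, y m ≠ c m := fun m h => hcH m (h ▸ hyH m)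
  have hne' : ∀ m, y m ≠ c' m := fun m h => hc'H m (h ▸ hyH m)
  -- the lines
  let L : Fin 4 → Finset E := fun m => cl K v {y m, c m}
  have hLfl : ∀ m, IsFl K v (L m) := fun m => isFl_cl
  have hLrk : ∀ m, rk K v (L m) = 2 := by
    intro m
    show rk K v (cl K v {y m, c m}) = 2
    rw [rk_cl, hv.rk_pair (hne m)]
  have hLy : ∀ m, y m ∈ L m := fun m => subset_cl (by simp)
  have hLc : ∀ m, c m ∈ L m := fun m => subset_cl (by simp)
  have hLc' : ∀ m, c' m ∈ L m := fun m => mem_cl.2 (hsp m)
  have hLH : ∀ m e, e ∈ L m → e ∈ H → e = y m := by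
    intro m e he heH
    have h1 : IsFl K v (L m ∩ H) := (hLfl m).inter hH
    have h2 : L m ∩ H ⊂ L m := by
      rw [ssubset_iff_of_subset inter_subset_left]
      exact ⟨c m, hLc m, fun h => hcH m (mem_inter.1 h).2⟩
    have h3 := h1.rk_lt_of_ssubset h2
    rw [hLrk] at h3
    have h4 := hv.card_le_one (X := L m ∩ H) (by omega)
    rw [card_le_one] at h4
    exact h4 e (mem_inter.2 ⟨he, heH⟩) (y m) (mem_inter.2 ⟨hLy m, hyH m⟩)
  have hLinj : ∀ m m', L m = L m' → m = m' := by
    intro m m' h
    have h1 : y m' ∈ L m := h ▸ hLy m'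
    exact (hyinj (hLH m _ h1 (hyH m'))).symm
  have htrip : ∀ m, ({y m, c m, c' m} : Finset E) ⊆ L m := by
    intro m e he
    simp only [mem_insert, mem_singleton] at he
    rcases he with rfl | rfl | rfl
    · exact hLy m
    · exact hLc m
    · exact hLc' m
  have hcard3 : ∀ m, ({y m, c m, c' m} : Finset E).card = 3 := by
    intro m
    rw [card_eq_three]
    exact ⟨y m, c m, c' m, hne m, hne' m, hcc' m, rfl⟩
  have hτ : ∀ m, ∃ i, A i ⊆ L m := by
    intro m
    rw [← cnt_pos_iff]
    have h1 := hA.eq (empty_subset _) (subset_univ _) (hLfl m)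
    have h2 := card_le_card (htrip m)
    rw [hcard3] at h2
    rw [hLrk] at h1
    omega
  choose τ hτ using hτ
  have hτL : ∀ m, A (τ m) = L m := by
    intro m
    apply (hcl (τ m)).eq_of_subset_of_rk_le (hτ m)
    rw [hLrk]
    exact two_le_rk hv hA _
  have hτinj : Function.Injective τ := by
    intro m m' h
    apply hLinj
    rw [← hτL, ← hτL, h]
  have hτi0 : ∀ m, τ m ≠ i0 := by
    intro m h
    have h1 : L m = H := by rw [← hτL, h, hi]
    have h2 := hLrk m
    rw [h1, hH3] at h2
    omega
  have hall : ∀ i, i = i0 ∨ ∃ m, i = τ m := by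
    let g : Option (Fin 4) → ι := fun o => o.elim i0 τ
    have hg : Function.Injective g := by
      intro a b hab
      cases a with
      | none =>
        cases b with
        | none => rfl
        | some b => exact absurd hab.symm (hτi0 b)
      | some a =>
        cases b with
        | none => exact absurd hab (hτi0 a)
        | some b => exact congrArg some (hτinj hab)
    have hb : Function.Bijective g := by
      rw [Fintype.bijective_iff_injective_and_card]
      refine ⟨hg, ?_⟩
      rw [hcardι]; rfl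
    intro i
    obtain ⟨o, ho⟩ := hb.2 i
    cases o with
    | none => left; exact ho.symm
    | some m => right; exact ⟨m, ho.symm⟩
  have hLeq : ∀ m, L m = {y m, c m, c' m} := by
    intro m
    symm
    apply eq_of_subset_of_card_le (htrip m)
    rw [hcard3]
    have h1 := hA.eq (empty_subset _) (subset_univ _) (hLfl m)
    rw [hLrk] at h1
    have h2 : cnt A (L m) ≤ 1 := by
      unfold cnt
      rw [card_le_one]
      have key : ∀ i, A i ⊆ L m → i = τ m := by
        intro i hi'
        rcases hall i with rfl | ⟨m', rfl⟩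
        · exfalso
          rw [hi] at hi'
          have := rk_mono (K := K) (v := v) hi'
          rw [hLrk, hH3] at this
          omega
        · rw [hτL] at hi'
          have := (hLfl m').eq_of_subset_of_rk_le hi' (by rw [hLrk, hLrk])
          rw [hLinj _ _ this]
      intro a ha b hb
      rw [mem_filter] at ha hb
      rw [key a ha.2, key b hb.2]
    omega
  refine ⟨y, c, c', τ, hyinj, hyH, hysurj, fun m => ⟨hcH m, hc'H m, hcc' m, hsp m⟩, hτinj, hτi0,
    hall, fun m => by rw [hτL, hLeq], fun m => (hτL m).symm, ?_⟩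
  intro m
  have h1 : (H.erase (y m)).card = 3 := by rw [card_erase_of_mem (hyH m), hc]
  unfold Ind
  rw [h1]
  by_contra hne3
  have h2 : rk K v (H.erase (y m)) ≤ (H.erase (y m)).card := rk_le_card
  have h3 : rk K v (H.erase (y m)) ≤ 2 := by omega
  set F := cl K v (H.erase (y m)) with hF
  have hFfl : IsFl K v F := isFl_cl
  have hFH : F ⊆ H := hH.cl_subset (erase_subset _ _)
  have hFcard : 3 ≤ F.card := by
    rw [← h1]; exact card_le_card subset_cl
  have h5 := hA.eq (empty_subset _) (subset_univ _) hFfl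
  have h6 : rk K v F ≤ 2 := by rw [hF, rk_cl]; exact h3
  obtain ⟨i, hi'⟩ := cnt_pos_iff.1 (show 1 ≤ cnt A F by omega)
  have h7 := huniq i (hi'.trans hFH)
  rw [h7, hi] at hi'
  have := rk_mono (K := K) (v := v) hi'
  omega

lemma relation {v : E → V} {H : Finset E} (hH3 : rk K v H = 3)
    {y : Fin 4 → E} (hyinj : Function.Injective y) (hyH : ∀ m, y m ∈ H)
    (hind : ∀ m, Ind K v (H.erase (y m))) :
    ∃ lam : Fin 4 → K, (∀ m, lam m ≠ 0) ∧ ∑ m, lam m • v (y m) = 0 := by
  have hnot : ¬ LinearIndependent K (fun m => v (y m)) := by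
    intro hli
    have h1 := linearIndependent_iff_card_eq_finrank_span.1 hli
    have h2 : Submodule.span K (Set.range fun m => v (y m)) ≤ sp K v H := by
      rw [span_le]
      rintro _ ⟨m, rfl⟩
      exact mem_sp (hyH m)
    have h3 := Submodule.finrank_mono h2
    unfold rk at hH3
    rw [Set.finrank] at h1
    rw [Fintype.card_fin] at h1
    omega
  rw [Fintype.not_linearIndependent_iff] at hnot
  obtain ⟨g, hg, m0, hm0⟩ := hnot
  refine ⟨g, ?_, hg⟩
  intro m hm
  have hne : y m0 ≠ y m := fun h => hm0 (by rw [hyinj h]; exact hm)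
  have h1 := (hind m).not_mem_sp_erase (e := y m0) (mem_erase.2 ⟨hne, hyH m0⟩)
  apply h1
  have h2 : v (y m0) = -((g m0)⁻¹ • ∑ m' ∈ univ.erase m0, g m' • v (y m')) := by
    rw [← add_sum_erase univ _ (mem_univ m0)] at hg
    have h3 : ∑ m' ∈ univ.erase m0, g m' • v (y m') = -(g m0 • v (y m0)) :=
      (neg_eq_of_add_eq_zero_right hg).symm
    rw [h3, smul_neg, neg_neg, smul_smul, inv_mul_cancel₀ hm0, one_smul]
  rw [h2]
  apply neg_mem
  apply smul_mem
  apply sum_mem
  intro m' hm'
  by_cases hmm : m' = m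
  · rw [hmm, hm, zero_smul]; exact zero_mem _
  · apply smul_mem
    apply mem_sp
    rw [mem_erase, mem_erase]
    exact ⟨fun h => (mem_erase.1 hm').1 (hyinj h), fun h => hmm (hyinj h), hyH m'⟩

theorem contra (hK : Fintype.card K = 4) {v : E → V} (hv : Simple K v) {ι : Type*} [Fintype ι]
    {A : ι → Finset E} (hA : IsMason K v ∅ univ A) (h4 : rk K v univ = 4) {H : Finset E}
    (hH : IsFl K v H) (hH3 : rk K v H = 3) {i0 : ι} (hi : A i0 = H)
    (hc : H.card = 4) (hm : (univ \ H).card = 5)
    {y c c' : Fin 4 → E} {τ : Fin 4 → ι} (hyinj : Function.Injective y) (hyH : ∀ m, y m ∈ H)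
    (hysurj : ∀ e ∈ H, ∃ m, e = y m)
    (hcc : ∀ m, c m ∉ H ∧ c' m ∉ H ∧ c m ≠ c' m ∧ v (c' m) ∈ sp K v {y m, c m})
    (hτinj : Function.Injective τ) (hall : ∀ i, i = i0 ∨ ∃ m, i = τ m)
    (hτ : ∀ m, A (τ m) = {y m, c m, c' m})
    (hind : ∀ m, Ind K v (H.erase (y m))) : False := by
  classical
  obtain ⟨lam, hlam, hrel⟩ := relation hH3 hyinj hyH hind
  -- characteristic two
  have h2 : (2 : K) = 0 := by
    have h := FiniteField.cast_card_eq_zero K
    rw [hK] at h
    have h' : (2 : K) * 2 = 0 := by
      rw [← h]; norm_num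
    rcases mul_eq_zero.1 h' with h | h <;> exact h
  have hcardE : (univ : Finset E).card = 9 := by
    have := card_sdiff_add_card_eq_card (subset_univ H)
    omega
  have hcardι : Fintype.card ι = 5 := by
    have h1 := hA.eq (empty_subset _) (subset_univ _) isFl_univ
    rw [cnt_univ, h4] at h1
    omega
  obtain ⟨χ, hχ1, hχ0⟩ := exists_functional (K := K) (W := sp K v H) (x := v (c 0))
    (fun h => (hcc 0).1 (hH.mem h))
  have hχH : ∀ e ∈ H, χ (v e) = 0 := fun e he => hχ0 _ (mem_sp he)
  have hχne : ∀ e, e ∉ H → χ (v e) ≠ 0 := by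
    intro e he h0
    have h1 : sp K v (insert e H) = sp K v univ := by
      apply sp_eq_of_subset_of_rk_le (subset_univ _)
      rw [rk_insert_of_not_mem_sp (fun h => he (hH.mem h)), hH3, h4]
    have h3 : v (c 0) ∈ sp K v (insert e H) := by rw [h1]; exact mem_sp (mem_univ _)
    have h5 : sp K v (insert e H) ≤ LinearMap.ker χ := by
      rw [sp_le_iff]
      intro g hg
      rcases mem_insert.1 hg with rfl | hg
      · exact h0
      · exact hχH g hg
    have h6 := h5 h3
    rw [LinearMap.mem_ker, hχ1] at h6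
    exact one_ne_zero h6
  obtain ⟨hat, hhat⟩ : ∃ hat : E → V, ∀ e, hat e = (χ (v e))⁻¹ • v e := ⟨_, fun _ => rfl⟩
  have hmu : ∀ m, ∃ μ : K, μ ≠ 0 ∧ hat (c' m) = hat (c m) + μ • (lam m • v (y m)) := by
    intro m
    obtain ⟨hcH, hc'H, hne, hsp⟩ := hcc m
    rw [sp_pair, mem_span_pair] at hsp
    obtain ⟨a, b, hab⟩ := hsp
    have hχc' : χ (v (c' m)) = b * χ (v (c m)) := by
      rw [← hab, map_add, map_smul, map_smul, hχH _ (hyH m)]
      simp
    have hb : b ≠ 0 := by
      rintro rfl
      apply hχne _ hc'H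
      rw [hχc', zero_mul]
    have ha : a ≠ 0 := by
      rintro rfl
      apply hne
      symm
      apply hv.2
      rw [← hab, zero_smul, zero_add]
      exact smul_mem _ _ (mem_span_singleton_self _)
    have hχc := hχne _ hcH
    refine ⟨a * (b * χ (v (c m)))⁻¹ * (lam m)⁻¹, ?_, ?_⟩
    · exact mul_ne_zero (mul_ne_zero ha (inv_ne_zero (mul_ne_zero hb hχc)))
        (inv_ne_zero (hlam m))
    · rw [hhat, hhat]
      rw [hχc', ← hab, smul_add, smul_smul, smul_smul, smul_smul]
      have e1 : (b * χ (v (c m)))⁻¹ * b = (χ (v (c m)))⁻¹ := by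
        field_simp
      have e2 : a * (b * χ (v (c m)))⁻¹ * (lam m)⁻¹ * lam m = (b * χ (v (c m)))⁻¹ * a := by
        have := hlam m
        field_simp
      rw [e1, e2, add_comm]
  choose μ hμ0 hμ using hmu
  -- pigeonhole
  obtain ⟨k, -, l, -, hkl, hμkl⟩ := exists_ne_map_eq_of_card_lt_of_maps_to
    (s := (univ : Finset (Fin 4))) (t := (univ : Finset K).erase 0)
    (by rw [card_erase_of_mem (mem_univ _), card_univ, card_univ, hK, Fintype.card_fin]; norm_num)
    (f := μ) (fun m _ => mem_coe.2 (mem_erase.2 ⟨hμ0 m, mem_univ _⟩))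
  have hk : v (y k) ∉ sp K v ((H.erase (y l)).erase (y k)) :=
    (hind l).not_mem_sp_erase (mem_erase.2 ⟨hyinj.ne hkl, hyH k⟩)
  obtain ⟨φ0, hφ1, hφ0⟩ := exists_functional hk
  obtain ⟨φ, hφ⟩ : ∃ φ : V →ₗ[K] K, φ = (lam k)⁻¹ • φ0 := ⟨_, rfl⟩
  have hφm : ∀ m, m ≠ k → m ≠ l → φ (v (y m)) = 0 := by
    intro m h1 h3
    rw [hφ, LinearMap.smul_apply, hφ0, smul_zero]
    apply mem_sp
    rw [mem_erase, mem_erase]
    exact ⟨hyinj.ne h1, hyinj.ne h3, hyH m⟩
  have hφk : φ (lam k • v (y k)) = 1 := by
    rw [map_smul, hφ, LinearMap.smul_apply, hφ1, smul_smul, mul_inv_cancel₀ (hlam k), one_smul]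
  have hφl : φ (lam l • v (y l)) = 1 := by
    have h1 : ∑ m, φ (lam m • v (y m)) = 0 := by
      rw [← map_sum, hrel, map_zero]
    have h3 : ∑ m, φ (lam m • v (y m)) = φ (lam k • v (y k)) + φ (lam l • v (y l)) := by
      apply sum_eq_add_of_mem k l (mem_univ _) (mem_univ _) hkl
      intro m _ hm'
      rw [map_smul, hφm m hm'.1 hm'.2, smul_zero]
    rw [h3, hφk] at h1
    linear_combination h1 - h2
  set g : E → K := fun e => φ (hat e) with hg
  have hgm : ∀ m, m ≠ k → m ≠ l → g (c' m) = g (c m) := by
    intro m h1 h3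
    show φ (hat (c' m)) = φ (hat (c m))
    rw [hμ, map_add, map_smul, map_smul, hφm m h1 h3, smul_zero, smul_zero, add_zero]
  have hgk : g (c' k) = g (c k) + μ k := by
    show φ (hat (c' k)) = φ (hat (c k)) + μ k
    rw [hμ, map_add, map_smul, hφk, smul_eq_mul, mul_one]
  have hgl : g (c' l) = g (c l) + μ k := by
    show φ (hat (c' l)) = φ (hat (c l)) + μ k
    rw [hμ, map_add, map_smul, hφl, smul_eq_mul, mul_one, hμkl]
  have hμμ : μ k + μ k = 0 := by
    rw [← two_mul, h2, zero_mul]
  -- the index sets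
  set M : Finset (Fin 4) := univ.filter (fun m => m ≠ k ∧ m ≠ l) with hM
  have hMcard : M.card = 2 := by
    have h1 : M = (univ.erase l).erase k := by
      ext m; simp [hM]
    rw [h1, card_erase_of_mem (mem_erase.2 ⟨hkl, mem_univ _⟩), card_erase_of_mem (mem_univ _),
      card_univ, Fintype.card_fin]
  have hMmem : ∀ m, m ∈ M ↔ m ≠ k ∧ m ≠ l := by intro m; simp [hM]
  set f : K → ℕ := fun s => ((univ \ H).filter (fun e => g e = s)).card with hf
  set e : K → ℕ := fun s => (M.filter (fun m => g (c m) = s)).card with he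
  have hfsum : ∑ s, f s = 5 := by
    rw [← hm, card_eq_sum_card_fiberwise (f := g) (t := univ) (fun _ _ => mem_coe.2 (mem_univ _))]
  have hesum : ∑ s, e s = 2 := by
    rw [← hMcard, card_eq_sum_card_fiberwise (f := fun m => g (c m)) (t := univ)
      (fun _ _ => mem_coe.2 (mem_univ _))]
  -- the planes
  have hclaim : ∀ s, f s ≠ 0 → f s = e s + 1 := by
    intro s hs
    set P := els K v (LinearMap.ker (φ - s • χ)) with hP
    have hPfl : IsFl K v P := isFl_els
    have hPmem : ∀ x, x ∈ P ↔ φ (v x) = s * χ (v x) := by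
      intro x
      rw [hP, mem_els, LinearMap.mem_ker, LinearMap.sub_apply, LinearMap.smul_apply, smul_eq_mul,
        sub_eq_zero]
    have hPy : ∀ m, y m ∈ P ↔ m ∈ M := by
      intro m
      rw [hPmem, hχH _ (hyH m), mul_zero, hMmem]
      constructor
      · intro h0
        constructor
        · rintro rfl
          rw [map_smul, h0, smul_zero] at hφk
          exact zero_ne_one hφk
        · rintro rfl
          rw [map_smul, h0, smul_zero] at hφl
          exact zero_ne_one hφl
      · rintro ⟨h1, h3⟩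
        exact hφm m h1 h3
    have hPout : ∀ x, x ∉ H → (x ∈ P ↔ g x = s) := by
      intro x hx
      rw [hPmem]
      show _ ↔ φ (hat x) = s
      have := hχne x hx
      rw [hhat, map_smul, smul_eq_mul, inv_mul_eq_iff_eq_mul₀ this, mul_comm s]
    have hPeq : P = M.image y ∪ (univ \ H).filter (fun e => g e = s) := by
      ext x
      rw [mem_union, mem_image, mem_filter, mem_sdiff]
      by_cases hx : x ∈ H
      · obtain ⟨m, rfl⟩ := hysurj x hx
        rw [hPy]
        constructor
        · intro h; left; exact ⟨m, h, rfl⟩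
        · rintro (⟨m', hm', h⟩ | h)
          · rw [← hyinj h]; exact hm'
          · exact absurd hx h.1.2
      · rw [hPout x hx]
        constructor
        · intro h; right; exact ⟨⟨mem_univ _, hx⟩, h⟩
        · rintro (⟨m', hm', h⟩ | h)
          · exact absurd (h ▸ hyH m') hx
          · exact h.2
    have hPcard : P.card = 2 + f s := by
      rw [hPeq, card_union_of_disjoint, card_image_of_injective _ hyinj, hMcard]
      rw [disjoint_left]
      intro x hx hx'
      obtain ⟨m, _, rfl⟩ := mem_image.1 hx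
      exact (mem_sdiff.1 (mem_filter.1 hx').1).2 (hyH m)
    have hPrk : rk K v P = 3 := by
      apply le_antisymm
      · have h1 : P ⊂ univ := by
          rw [ssubset_univ_iff]
          intro h
          have h3 : y k ∈ P := h ▸ mem_univ _
          rw [hPy, hMmem] at h3
          exact h3.1 rfl
        have := hPfl.rk_lt_of_ssubset h1
        omega
      · obtain ⟨x, hx⟩ := card_pos.1 (Nat.pos_of_ne_zero hs)
        rw [mem_filter, mem_sdiff] at hx
        have hxP : x ∈ P := (hPout x hx.1.2).2 hx.2
        have h1 : insert x (M.image y) ⊆ P := by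
          apply insert_subset hxP
          rw [hPeq]; exact subset_union_left
        have h3 : M.image y ⊆ H := by
          intro z hz
          obtain ⟨m, _, rfl⟩ := mem_image.1 hz
          exact hyH m
        have h5 : rk K v (M.image y) = 2 := by
          rw [(hv.ind_of_card_le_two (X := M.image y)
            (by rw [card_image_of_injective _ hyinj, hMcard])).rk_eq_card,
            card_image_of_injective _ hyinj, hMcard]
        have h6 : rk K v (insert x (M.image y)) = 3 := by
          rw [rk_insert_of_not_mem_sp, h5]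
          intro h7
          exact hx.1.2 (hH.mem (sp_mono h3 h7))
        rw [← h6]
        exact rk_mono h1
    have hPcnt : cnt A P = e s := by
      unfold cnt
      have h1 : univ.filter (fun i => A i ⊆ P) = (M.filter (fun m => g (c m) = s)).image τ := by
        ext i
        rw [mem_filter, mem_image]
        constructor
        · rintro ⟨-, hiP⟩
          rcases hall i with rfl | ⟨m, rfl⟩
          · exfalso
            rw [hi] at hiP
            have h3 := hiP (hyH k)
            rw [hPy, hMmem] at h3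
            exact h3.1 rfl
          · rw [hτ] at hiP
            refine ⟨m, ?_, rfl⟩
            rw [mem_filter]
            refine ⟨(hPy m).1 (hiP (by simp)), (hPout _ (hcc m).1).1 (hiP (by simp))⟩
        · rintro ⟨m, hm', rfl⟩
          rw [mem_filter] at hm'
          refine ⟨mem_univ _, ?_⟩
          rw [hτ]
          intro x hx
          simp only [mem_insert, mem_singleton] at hx
          have hmM := (hMmem m).1 hm'.1
          rcases hx with rfl | rfl | rfl
          · exact (hPy m).2 hm'.1
          · exact (hPout _ (hcc m).1).2 hm'.2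
          · rw [hPout _ (hcc m).2.1, hgm m hmM.1 hmM.2]
            exact hm'.2
      rw [h1, card_image_of_injective _ hτinj]
    have h1 := hA.eq (empty_subset _) (subset_univ _) hPfl
    rw [hPcnt, hPrk, hPcard] at h1
    omega
  have hcardK : (univ : Finset K).card = 4 := by rw [card_univ, hK]
  -- an empty class
  obtain ⟨s, hs⟩ : ∃ s, f s = 0 := by
    by_contra hcon
    push Not at hcon
    have h1 : ∑ s, f s = ∑ s, (e s + 1) := sum_congr rfl fun s _ => hclaim s (hcon s)
    rw [sum_add_distrib, hesum, hfsum, sum_const, hcardK] at h1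
    norm_num at h1
  set t := s + μ k with ht
  have hst : s ≠ t := by
    intro h
    apply hμ0 k
    rw [ht] at h
    exact left_eq_add.1 h
  have hft : f t ≠ 0 := by
    intro h0
    have h1 : ∀ a ∈ (univ : Finset K), f a + ((if a = s then 1 else 0) + (if a = t then 1 else 0)) ≤
        e a + 1 := by
      intro a _
      by_cases has : a = s
      · have hat' : a ≠ t := by rw [has]; exact hst
        rw [if_pos has, if_neg hat', has, hs]; omega
      · by_cases hat' : a = t
        · rw [if_neg has, if_pos hat', hat', h0]; omega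
        · rw [if_neg has, if_neg hat']
          by_cases h5 : f a = 0
          · omega
          · rw [hclaim a h5]
    have h3 := sum_le_sum h1
    rw [sum_add_distrib, sum_add_distrib, sum_add_distrib, hesum, hfsum, sum_const, hcardK,
      sum_ite_eq' univ s, sum_ite_eq' univ t, if_pos (mem_univ _), if_pos (mem_univ _)] at h3
    norm_num at h3
  have hfs : ∀ x, x ∉ H → g x ≠ s := by
    intro x hx h
    rw [hf] at hs
    have h1 := card_eq_zero.1 hs
    have h3 : x ∈ (univ \ H).filter (fun e => g e = s) := by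
      rw [mem_filter, mem_sdiff]; exact ⟨⟨mem_univ _, hx⟩, h⟩
    rw [h1] at h3
    simp at h3
  -- the set `Z`
  set U := (univ \ H).filter (fun e => g e = t) with hU
  set Z := univ \ U with hZ
  have hZcard : Z.card + f t = 9 := by
    rw [← hcardE]
    exact card_sdiff_add_card_eq_card (subset_univ U)
  have hHZ : H ⊆ Z := by
    intro x hx
    rw [hZ, mem_sdiff]
    refine ⟨mem_univ _, fun h => ?_⟩
    exact (mem_sdiff.1 (mem_filter.1 h).1).2 hx
  have hZmem : ∀ x, x ∉ H → g x ≠ t → x ∈ Z := by
    intro x _ h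
    rw [hZ, mem_sdiff]
    exact ⟨mem_univ _, fun h' => h (mem_filter.1 h').2⟩
  have hgck : g (c k) ≠ t := by
    intro h
    apply hfs _ (hcc k).2.1
    rw [hgk, h, ht, add_assoc, hμμ, add_zero]
  have hgck' : g (c' k) ≠ t := by
    intro h
    apply hfs _ (hcc k).1
    rw [hgk, ht] at h
    exact add_right_cancel h
  have hgcl : g (c l) ≠ t := by
    intro h
    apply hfs _ (hcc l).2.1
    rw [hgl, h, ht, add_assoc, hμμ, add_zero]
  have hgcl' : g (c' l) ≠ t := by
    intro h
    apply hfs _ (hcc l).1
    rw [hgl, ht] at h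
    exact add_right_cancel h
  have hZrk : rk K v Z = 4 := by
    apply le_antisymm
    · rw [← h4]; exact rk_mono (subset_univ _)
    · by_contra hcon
      have h1 := hH.eq_of_subset_of_rk_le hHZ (by omega)
      apply (hcc k).1
      rw [h1]
      exact hZmem _ (hcc k).1 hgck
  have hZcnt : 5 ≤ cnt A Z + e t := by
    have h1 : (univ.filter (fun i => ¬ A i ⊆ Z)).card ≤ e t := by
      have h3 : univ.filter (fun i => ¬ A i ⊆ Z) ⊆ (M.filter (fun m => g (c m) = t)).image τ := by
        intro i hi'
        rw [mem_filter] at hi'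
        rcases hall i with rfl | ⟨m, rfl⟩
        · exfalso
          apply hi'.2
          rw [hi]; exact hHZ
        · rw [mem_image]
          refine ⟨m, ?_, rfl⟩
          rw [mem_filter, hMmem]
          by_contra hcon
          apply hi'.2
          rw [hτ]
          intro x hx
          simp only [mem_insert, mem_singleton] at hx
          rcases hx with rfl | rfl | rfl
          · exact hHZ (hyH m)
          · apply hZmem _ (hcc m).1
            by_cases hmk : m = k
            · rw [hmk]; exact hgck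
            · by_cases hml : m = l
              · rw [hml]; exact hgcl
              · intro h; exact hcon ⟨⟨hmk, hml⟩, h⟩
          · apply hZmem _ (hcc m).2.1
            by_cases hmk : m = k
            · rw [hmk]; exact hgck'
            · by_cases hml : m = l
              · rw [hml]; exact hgcl'
              · intro h
                rw [hgm m hmk hml] at h
                exact hcon ⟨⟨hmk, hml⟩, h⟩
      refine (card_le_card h3).trans card_image_le
    have h3 := card_filter_add_card_filter_not (s := (univ : Finset ι)) (fun i => A i ⊆ Z)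
    rw [card_univ, hcardι] at h3
    unfold cnt
    omega
  have h1 := hA.le (empty_subset _) (subset_univ Z)
  have h3 := hclaim t hft
  omega

end CkFour

theorem Ck_four (hK : Fintype.card K = 4) {v : E → V} (hv : Simple K v) {ι : Type*} [Fintype ι]
    {A : ι → Finset E} (hA : IsMason K v ∅ univ A) (h4 : rk K v univ = 4) {H : Finset E}
    (hH : IsFl K v H) (hH3 : rk K v H = 3) (hi : ∃ i, cl K v (A i) = H)
    (hc : H.card = 4) (hm : (univ \ H).card = 5)
    (hy : ∀ y ∈ H, ∃ c c', c ∉ H ∧ c' ∉ H ∧ c ≠ c' ∧ v c' ∈ sp K v {y, c}) : False := by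
  obtain ⟨i0, hi0⟩ := hi
  have hA' := hA.closure
  obtain ⟨y, c, c', τ, h1, h2, h3, h5, h6, _, h8, h9, _, h11⟩ := CkFour.data hv hA'
    (fun i => isFl_cl) h4 hH hH3 (i0 := i0) (by rw [union_empty]; exact hi0) hc hm hy
  exact CkFour.contra hK hv hA' h4 hH hH3 (i0 := i0) (by rw [union_empty]; exact hi0) hc hm
    h1 h2 h3 h5 h6 h8 h9 h11

end Ca3
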