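import Pool.Agent.Lib.MP_ca3eb1_co.Transfer
import Pool.Agent.Lib.MP_ca3eb1_co.CkFour

/-! # Module M4: small complements of heavy hyperplanes, all ranks -/

set_option linter.unusedSectionVars false

namespace Ca3

open Finset Submodule

universe u w x

variable {K : Type x} [Field K] [Fintype K]

namespace CkAux

section

variable {V : Type u} {E : Type w} [AddCommGroup V] [Module K V]
    [FiniteDimensional K V] [Fintype E] [DecidableEq E]

/-- The lines through `y` which are not inside `H`. -/
noncomputable def lines (K : Type x) [Field K] {V : Type u} {E : Type w} [AddCommGroup V]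
    [Module K V] [Fintype E] [DecidableEq E] (v : E → V) (H : Finset E) (y : E) :
    Finset (Finset E) :=
  (univ \ H).image (fun e => cl K v {y, e})

lemma cl_pair_eq {v : E → V} (hv : Simple K v) {y e : E} (hye : y ≠ e) {L : Finset E}
    (hL : IsFl K v L) (hL2 : rk K v L = 2) (hy : y ∈ L) (he : e ∈ L) :
    cl K v {y, e} = L := by
  apply hL.cl_eq
  · intro z hz
    simp only [mem_insert, mem_singleton] at hz
    rcases hz with rfl | rfl
    · exact hy
    · exact he
  · rw [hL2, hv.rk_pair hye]

lemma line_inter {v : E → V} (hv : Simple K v) {H : Finset E} (hH : IsFl K v H)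
    {y : E} (hy : y ∈ H) {L : Finset E} (hL : L ∈ lines K v H y) :
    IsFl K v L ∧ rk K v L = 2 ∧ y ∈ L ∧ L \ H = L.erase y ∧
      ∀ z ∈ L, z ∈ H → z = y := by
  obtain ⟨e, he, rfl⟩ := mem_image.1 hL
  have heH : e ∉ H := (mem_sdiff.1 he).2
  have hye : y ≠ e := fun h => heH (h ▸ hy)
  have h2 : rk K v (cl K v {y, e}) = 2 := by rw [rk_cl, hv.rk_pair hye]
  have hyL : y ∈ cl K v {y, e} := subset_cl (by simp)
  have heL : e ∈ cl K v {y, e} := subset_cl (by simp)
  have h3 : ∀ z ∈ cl K v {y, e}, z ∈ H → z = y := by
    intro z hz hzH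
    by_contra hne
    have h4 := cl_pair_eq hv (Ne.symm hne) (isFl_cl (X := {y, e})) h2 hyL hz
    apply heH
    have h5 : cl K v {y, z} ⊆ H := by
      apply hH.cl_subset
      intro a ha
      simp only [mem_insert, mem_singleton] at ha
      rcases ha with rfl | rfl
      · exact hy
      · exact hzH
    exact h5 (h4 ▸ heL)
  refine ⟨isFl_cl, h2, hyL, ?_, h3⟩
  ext z
  rw [mem_sdiff, mem_erase]
  constructor
  · rintro ⟨h5, h6⟩
    exact ⟨fun h => h6 (h ▸ hy), h5⟩
  · rintro ⟨h5, h6⟩
    exact ⟨h6, fun h => h5 (h3 z h6 h)⟩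

/-- counting: points outside `H` against members of the family on the lines through `y`. -/
lemma count_y {v : E → V} (hv : Simple K v) {ι : Type*} [Fintype ι] {B : ι → Finset E}
    (hB : IsMason K v ∅ univ B) (hBcl : ∀ i, IsFl K v (B i)) {H : Finset E} (hH : IsFl K v H)
    {y : E} (hy : y ∈ H) :
    (univ \ H).card = (univ.filter (fun i => B i ∈ lines K v H y)).card +
      (lines K v H y).card := by
  classical
  have h1 : (univ \ H).card = ∑ L ∈ lines K v H y,
      ((univ \ H).filter (fun e => cl K v {y, e} = L)).card :=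
    card_eq_sum_card_fiberwise (fun e he => mem_coe.2 (mem_image_of_mem _ he))
  have h2 : (univ.filter (fun i => B i ∈ lines K v H y)).card = ∑ L ∈ lines K v H y,
      ((univ.filter (fun i => B i ∈ lines K v H y)).filter (fun i => B i = L)).card :=
    card_eq_sum_card_fiberwise (fun i hi => mem_coe.2 (mem_filter.1 hi).2)
  rw [h1, h2, card_eq_sum_ones, ← sum_add_distrib]
  apply sum_congr rfl
  intro L hL
  obtain ⟨hLfl, hL2, hyL, hsd, hLH⟩ := line_inter hv hH hy hL
  have h3 : (univ \ H).filter (fun e => cl K v {y, e} = L) = L \ H := by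
    ext e
    rw [mem_filter, mem_sdiff, mem_sdiff]
    constructor
    · rintro ⟨⟨_, heH⟩, he⟩
      refine ⟨?_, heH⟩
      rw [← he]
      exact subset_cl (by simp)
    · rintro ⟨heL, heH⟩
      refine ⟨⟨mem_univ _, heH⟩, ?_⟩
      exact cl_pair_eq hv (fun h : y = e => heH (h ▸ hy)) hLfl hL2 hyL heL
  have h4 : (univ.filter (fun i => B i ∈ lines K v H y)).filter (fun i => B i = L) =
      univ.filter (fun i => B i ⊆ L) := by
    ext i
    rw [mem_filter, mem_filter, mem_filter]
    constructor
    · rintro ⟨_, h⟩
      exact ⟨mem_univ _, h.subset⟩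
    · rintro ⟨_, h⟩
      have h5 : B i = L := by
        apply (hBcl i).eq_of_subset_of_rk_le h
        rw [hL2]
        exact CkFour.two_le_rk hv hB i
      exact ⟨⟨mem_univ _, h5 ▸ hL⟩, h5⟩
  rw [h3, h4, hsd, card_erase_of_mem hyL]
  have h5 := hB.eq (empty_subset _) (subset_univ _) hLfl
  rw [hL2] at h5
  unfold cnt at h5
  have h6 : 0 < L.card := card_pos.2 ⟨y, hyL⟩
  omega

/-- the sum over `y ∈ H` -/
lemma count_all {v : E → V} (hv : Simple K v) {ι : Type*} [Fintype ι] {B : ι → Finset E}
    (hB : IsMason K v ∅ univ B) {H : Finset E} (hH : IsFl K v H)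
    (hr : rk K v H + 1 = rk K v univ) :
    ∑ y ∈ H, (univ.filter (fun i => B i ∈ lines K v H y)).card + 1 ≤ (univ \ H).card := by
  classical
  have h1 : (H.biUnion (fun y => univ.filter (fun i => B i ∈ lines K v H y))).card =
      ∑ y ∈ H, (univ.filter (fun i => B i ∈ lines K v H y)).card := by
    apply card_biUnion
    intro y hy y' hy' hne
    show Disjoint (univ.filter (fun i => B i ∈ lines K v H y))
      (univ.filter (fun i => B i ∈ lines K v H y'))
    rw [disjoint_left]
    intro i hi hi'
    apply hne
    have h2 := line_inter hv hH hy (mem_filter.1 hi).2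
    have h3 := line_inter hv hH hy' (mem_filter.1 hi').2
    exact h3.2.2.2.2 y h2.2.2.1 hy
  have h2 : H.biUnion (fun y => univ.filter (fun i => B i ∈ lines K v H y)) ⊆
      univ.filter (fun i => ¬ B i ⊆ H) := by
    intro i hi
    rw [mem_biUnion] at hi
    obtain ⟨y, hy, hi⟩ := hi
    have h3 := (mem_filter.1 hi).2
    rw [mem_filter]
    refine ⟨mem_univ _, fun h4 => ?_⟩
    obtain ⟨e, he, heq⟩ := mem_image.1 h3
    apply (mem_sdiff.1 he).2
    apply h4
    rw [← heq]
    exact subset_cl (by simp)
  have h3 := card_le_card h2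
  rw [h1] at h3
  have h4 := card_filter_add_card_filter_not (s := (univ : Finset ι)) (fun i => B i ⊆ H)
  have h5 := hB.eq (empty_subset _) (subset_univ _) hH
  have h6 := hB.eq (empty_subset _) (subset_univ _) isFl_univ
  rw [CkFour.cnt_univ] at h6
  rw [card_univ] at h4
  have h7 := card_sdiff_add_card_eq_card (subset_univ H)
  unfold cnt at h5
  omega

end

end CkAux

open CkAux

theorem Ck (hK : Fintype.card K = 4) {V : Type u} {E : Type w} [AddCommGroup V] [Module K V]
    [FiniteDimensional K V] [Fintype E] [DecidableEq E] {v : E → V} (hv : Simple K v)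
    {n : ℕ} {A : Fin n → Finset E} (hA : IsMason K v ∅ univ A) (h3 : 3 ≤ rk K v univ)
    {H : Finset E} (hH : IsFl K v H) (hr : rk K v H + 1 = rk K v univ)
    (hi : ∃ i, cl K v (A i) = H) : (univ \ H).card ≤ 4 := by
  induction hk : rk K v univ using Nat.strong_induction_on generalizing V E n with
  | _ k ih =>
    rcases Nat.lt_or_ge k 4 with hk4 | hk4
    · exact C3 hK hv hA (by omega) hH (by omega) hi
    by_contra hm
    push Not at hm
    obtain ⟨i0, hi0⟩ := hi
    -- the closed family
    obtain ⟨B, hBdef⟩ : ∃ B : Fin n → Finset E, B = fun i => cl K v (A i ∪ ∅) := ⟨_, rfl⟩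
    have hB : IsMason K v ∅ univ B := by rw [hBdef]; exact hA.closure
    have hBcl : ∀ i, IsFl K v (B i) := by
      intro i
      rw [hBdef]
      exact isFl_cl
    -- at most four lines
    have hlines : ∀ y ∈ H, (lines K v H y).card ≤ 4 := by
      intro y hy
      obtain ⟨R, -, hR⟩ := exists_reps (K := K) (v := v) (Y := {y}) (T := univ) (R₀ := ∅)
        (empty_subset _) (by simp) (by simp)
      have hA' := hA.mono (empty_subset {y}) (subset_refl univ)
      have ht := transfer hR isFl_univ (subset_univ _) hA'
      have hyrk : rk K v {y} = 1 := hv.rk_singleton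
      have hrk1 := rk_qc_univ hR (subset_univ _)
      rw [hyrk] at hrk1
      have hyH : ({y} : Finset E) ⊆ H := singleton_subset_iff.2 hy
      have hrk2 := rk_tr hR hH hyH (subset_univ _)
      rw [hyrk] at hrk2
      have hfl := isFl_tr hR hH hyH (subset_univ _)
      have hAH : A i0 ⊆ H := by rw [← hi0]; exact subset_cl
      have hclH : cl K v (A i0 ∪ {y}) = H := by
        apply subset_antisymm
        · exact hH.cl_subset (union_subset hAH hyH)
        · rw [← hi0]; exact cl_mono subset_union_left
      have hbig : A i0 ⊆ univ ∧ rk K v {y} + 2 ≤ rk K v (A i0 ∪ {y}) := by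
        refine ⟨subset_univ _, ?_⟩
        rw [hyrk, ← rk_cl, hclH]; omega
      let b : BigIdx K v {y} univ A := ⟨i0, hbig⟩
      let σ := (Fintype.equivFin (BigIdx K v {y} univ A)).symm
      have hmas : IsMason K (qc K v {y} R) ∅ univ
          (fun i => tr R (cl K v (A (σ i).1 ∪ {y}))) := by
        intro Z hZ1 hZ2
        rw [cnt_reindex (A := fun i : BigIdx K v {y} univ A => tr R (cl K v (A i.1 ∪ {y}))) σ]
        exact ht Z hZ1 hZ2
      have h4 := ih (k - 1) (by omega) (qc_simple hR) hmas (by omega) hfl (by omega)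
        ⟨σ.symm b, by
          rw [Equiv.apply_symm_apply]
          show cl K (qc K v {y} R) (tr R (cl K v (A i0 ∪ {y}))) = tr R H
          rw [hclH]
          exact hfl⟩ (by omega)
      refine le_trans ?_ h4
      have h5 : lines K v H y ⊆ (univ \ tr R H).image (fun r : R => cl K v {y, (r : E)}) := by
        intro L hL
        obtain ⟨e, he, rfl⟩ := mem_image.1 hL
        have heH : e ∉ H := (mem_sdiff.1 he).2
        have hye : y ≠ e := fun h => heH (h ▸ hy)
        obtain ⟨r, hr1, hr2⟩ := hR.ex e (mem_univ _) (by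
          rw [sp_singleton]
          intro h
          exact hye (hv.2 _ _ h).symm)
        have hry : v r ∉ sp K v {y} := hR.not_mem r hr1
        have hre : v e ∈ sp K v (insert r {y}) := mem_sp_insert_exchange hr2 hry
        have hrH : r ∉ H := by
          intro hrH
          apply heH
          apply hH.mem
          refine sp_mono ?_ hre
          exact insert_subset hrH hyH
        have hyr : y ≠ r := fun h => hrH (h ▸ hy)
        rw [mem_image]
        refine ⟨⟨r, hr1⟩, ?_, ?_⟩
        · rw [mem_sdiff]
          refine ⟨mem_univ _, ?_⟩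
          intro h
          exact hrH (mem_filter.1 h).2
        · apply cl_pair_eq hv hyr isFl_cl
          · rw [rk_cl, hv.rk_pair hye]
          · exact subset_cl (by simp)
          · rw [mem_cl, pair_comm]
            exact hr2
      exact (card_le_card h5).trans card_image_le
    have hsum := count_all hv hB hH hr
    have hy1 : ∀ y ∈ H, (univ \ H).card ≤
        (univ.filter (fun i => B i ∈ lines K v H y)).card + 4 := by
      intro y hy
      have h1 := count_y hv hB hBcl hH hy
      have h2 := hlines y hy
      omega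
    have hsum2 : H.card * ((univ \ H).card - 4) ≤
        ∑ y ∈ H, (univ.filter (fun i => B i ∈ lines K v H y)).card := by
      rw [← smul_eq_mul, ← sum_const]
      apply sum_le_sum
      intro y hy
      have := hy1 y hy
      omega
    -- the size of `H`
    have hHcard : k ≤ H.card := by
      have h1 := hA.eq (empty_subset _) (subset_univ _) hH
      have h2 : 1 ≤ cnt A H := CkFour.cnt_pos_iff.2 ⟨i0, by rw [← hi0]; exact subset_cl⟩
      omega
    obtain ⟨j, hj⟩ : ∃ j, (univ \ H).card = 5 + j := ⟨(univ \ H).card - 5, by omega⟩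
    have hj4 : (univ \ H).card - 4 = 1 + j := by omega
    rw [hj4] at hsum2
    rw [hj] at hsum
    have h5 : H.card * (1 + j) ≤ 4 + j := by omega
    have hj0 : j = 0 := by
      have h6 : 4 * (1 + j) ≤ H.card * (1 + j) := Nat.mul_le_mul_right _ (by omega)
      omega
    subst hj0
    have hHc : H.card = 4 := by omega
    refine Ck_four hK hv hA (by omega) hH (by omega) ⟨i0, hi0⟩ hHc (by omega) ?_
    intro y hy
    -- two points outside `H` on one line through `y`
    have h7 : (lines K v H y).card < (univ \ H).card := by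
      have := hlines y hy
      omega
    obtain ⟨c, hc, c', hc', hne, heq⟩ := exists_ne_map_eq_of_card_lt_of_maps_to h7
      (f := fun e => cl K v {y, e}) (fun e he => mem_coe.2 (mem_image_of_mem _ he))
    refine ⟨c, c', (mem_sdiff.1 hc).2, (mem_sdiff.1 hc').2, hne, ?_⟩
    rw [← mem_cl]
    have heq' : cl K v {y, c} = cl K v {y, c'} := heq
    rw [heq']
    exact subset_cl (by simp)

end Ca3
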