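import Pool.Agent.Lib.MP_ca3eb1_co.AbInterface
import Pool.Agent.Lib.MP_ca3eb1_co.AbAlpha
import Pool.Agent.Lib.MP_ca3eb1_co.Ck

/-! # W7 part A: the complement of a heavy hyperplane has at most five elements -/

set_option linter.unusedSectionVars false

namespace Ca3.Ab

open Finset

variable {K E : Type*} [Field K] [Fintype K] [DecidableEq E] [Fintype E] {N : RF E}

/-- representatives of the points of the contraction `N / Y` -/
private structure ARep (N : RF E) (Y R : Finset E) : Prop where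
  not_mem : ∀ r ∈ R, r ∉ sp N Y
  ex : ∀ e ∈ (univ : Finset E), e ∉ sp N Y → ∃ r ∈ R, r ∈ sp N (insert e Y)
  uniq : ∀ r ∈ R, ∀ s ∈ R, r ∈ sp N (insert s Y) → r = s

/-- the contraction of a point of a heavy hyperplane has at most four classes outside it -/
private theorem coneA_reps (hK : Fintype.card K = 4) (hv : Simple N) (hq : RepC K N)
    (ht : Tight N) (h5 : rk N univ = 5) {H : Finset E} (hH : IsFl N H) (hr : rk N H = 4)
    (h0 : 0 < alpha N H) {y : E} (hy : y ∈ H) :
    ∃ R : Finset E, ARep N {y} R ∧ (R \ H).card ≤ 4 := by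
  classical
  obtain ⟨n, A, hA⟩ := ht.2.1 y
  obtain ⟨d, w, hw⟩ := hq y
  have hyy : y ∈ ({y} : Finset E) := mem_singleton_self y
  obtain ⟨R, -, hR⟩ := hw.exists_reps (T := univ) (R₀ := ∅) hyy
    (empty_subset _) (by simp) (by simp)
  refine ⟨R, ⟨fun r hr h => hR.not_mem r hr ((hw.mem_sp_iff hyy).2 h), fun e he h => ?_,
    fun r hr s hs h => hR.uniq r hr s hs ((hw.mem_sp_iff (mem_insert_of_mem hyy)).2 h)⟩, ?_⟩
  · obtain ⟨r, hr1, hr2⟩ := hR.ex e he (fun h' => h ((hw.mem_sp_iff hyy).1 h'))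
    exact ⟨r, hr1, (hw.mem_sp_iff (mem_insert_of_mem hyy)).1 hr2⟩
  have hne : H ≠ univ := by
    rintro rfl
    omega
  obtain ⟨i, hi⟩ := ht.heavy_point hH hne h0 hy hA
  obtain ⟨m, B, hB, hBex⟩ := hw.transfer_fin hv hyy isFl_univ (subset_univ _) hR hA
  have hy1 : rk N {y} = 1 := hv.rk_singleton
  have hyH : ({y} : Finset E) ⊆ H := singleton_subset_iff.2 hy
  have e1 := hw.rk_qc_univ hyy hR (subset_univ _)
  have e2 := hw.rk_tr hyy hR hH hyH (subset_univ _)
  have hfl := hw.isFl_tr hyy hR hH hyH (subset_univ _)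
  have hck := Ck hK (qc_simple hR) hB (by omega) hfl (by omega)
    (hBex H hH hyH (subset_univ _) (by omega) ⟨i, hi⟩)
  have hcard : (R \ H).card = (univ \ tr R H : Finset R).card := by
    have : R \ H = (univ \ tr R H : Finset R).map (Function.Embedding.subtype _) := by
      ext x
      simp only [mem_sdiff, mem_map, mem_univ, true_and, tr, mem_filter,
        Function.Embedding.subtype_apply, Subtype.exists, exists_and_right, exists_eq_right]
      constructor
      · rintro ⟨h1, h2⟩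
        exact ⟨h1, h2⟩
      · rintro ⟨h1, h2⟩
        exact ⟨h1, h2⟩
    rw [this, card_map]
  omega

private theorem coneA_sp_eq (hv : Simple N) {a b c d : E} (hab : a ≠ b)
    (ha : a ∈ sp N {c, d}) (hb : b ∈ sp N {c, d}) : sp N {a, b} = sp N {c, d} := by
  have h1 : rk N {c, d} ≤ ({c, d} : Finset E).card := rk_le_card
  have h2 : ({c, d} : Finset E).card ≤ 2 := card_le_two
  have h3 := hv.rk_pair hab
  have h4 : rk N ({c, d} ∪ {a, b}) = rk N {c, d} := by
    apply rk_union_of_forall_mem_sp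
    intro e he
    rcases mem_insert.1 he with rfl | he
    · exact ha
    · rw [mem_singleton] at he; subst he; exact hb
  have h5 : sp N {a, b} = sp N ({c, d} ∪ {a, b}) :=
    sp_eq_of_subset_of_rk_le subset_union_right (by omega)
  have h6 : sp N {c, d} = sp N ({c, d} ∪ {a, b}) :=
    sp_eq_of_subset_of_rk_le subset_union_left (by omega)
  rw [h5, h6]

private theorem coneA_uniq (hv : Simple N) {H : Finset E} (hH : IsFl N H) {y y' u u' : E}
    (hy : y ∈ H) (hy' : y' ∈ H) (hu : u ∉ H) (h1 : y ∈ sp N {u, u'})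
    (h2 : y' ∈ sp N {u, u'}) : y = y' := by
  by_contra hne
  have h3 := coneA_sp_eq hv hne h1 h2
  apply hu
  apply hH.mem
  have h4 : sp N {y, y'} ≤ sp N H := by
    rw [sp_le_iff]
    intro e he
    rcases mem_insert.1 he with rfl | he
    · exact mem_sp hy
    · rw [mem_singleton] at he; subst he; exact mem_sp hy'
  apply h4
  rw [h3]
  exact mem_sp (mem_insert_self _ _)

/-- the class map of a point of the heavy hyperplane -/
private theorem coneA_rho (hK : Fintype.card K = 4) (hv : Simple N) (hq : RepC K N) (ht : Tight N)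
    (h5 : rk N univ = 5) {H : Finset E} (hH : IsFl N H) (hr : rk N H = 4)
    (h0 : 0 < alpha N H) {y : E} (hy : y ∈ H) :
    ∃ ρ : E → E, (∀ u, u ∉ H → ρ u ∈ sp N {u, y} ∧ sp N {u, y} = sp N {ρ u, y} ∧
      ρ u ∉ H) ∧ ((univ \ H).image ρ).card ≤ 4 ∧
      (∀ u u', u ∉ H → u' ∉ H → u ≠ u' → y ∈ sp N {u, u'} → ρ u = ρ u') ∧
      (∀ u u', u ∉ H → u' ∉ H → u ≠ u' → ρ u = ρ u' → y ∈ sp N {u, u'}) := by
  classical
  obtain ⟨R, hR, hc⟩ := coneA_reps hK hv hq ht h5 hH hr h0 hy
  have hspH : sp N {y} ≤ sp N H := sp_mono (singleton_subset_iff.2 hy)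
  have hnm : ∀ u, u ∉ H → u ∉ sp N {y} := fun u hu h => hu (hH.mem (hspH h))
  have hex : ∀ u, u ∉ H → ∃ r, r ∈ R ∧ r ∈ sp N {u, y} := fun u hu =>
    hR.ex u (mem_univ _) (hnm u hu)
  have hne : ∀ u, u ∉ H → u ≠ y := fun u hu h => hu (h ▸ hy)
  have : ∀ u, ∃ r, u ∉ H → r ∈ R ∧ r ∈ sp N {u, y} := by
    intro u
    by_cases hu : u ∈ H
    · exact ⟨u, fun h => absurd hu h⟩
    · obtain ⟨r, hr⟩ := hex u hu
      exact ⟨r, fun _ => hr⟩
  choose ρ hρ using this
  have hys : ∀ u : E, y ∈ sp N {u, y} := fun u => mem_sp (by simp)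
  have hsp : ∀ u, u ∉ H → sp N {ρ u, y} = sp N {u, y} := by
    intro u hu
    obtain ⟨h1, h2⟩ := hρ u hu
    have h3 : ρ u ≠ y := by
      intro h
      have := hR.not_mem _ h1
      rw [h] at this
      exact this (mem_sp (mem_singleton_self _))
    exact coneA_sp_eq hv h3 h2 (hys u)
  have hnH : ∀ u, u ∉ H → ρ u ∉ H := by
    intro u hu h
    apply hu
    apply hH.mem
    have h1 : sp N {ρ u, y} ≤ sp N H := by
      rw [sp_le_iff]
      intro e he
      rcases mem_insert.1 he with rfl | he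
      · exact mem_sp h
      · rw [mem_singleton] at he; subst he; exact mem_sp hy
    apply h1
    rw [hsp u hu]
    exact mem_sp (mem_insert_self _ _)
  refine ⟨ρ, fun u hu => ⟨(hρ u hu).2, (hsp u hu).symm, hnH u hu⟩, ?_, ?_, ?_⟩
  · refine le_trans (card_le_card ?_) hc
    intro r hr'
    obtain ⟨u, hu, rfl⟩ := mem_image.1 hr'
    have hu' : u ∉ H := (mem_sdiff.1 hu).2
    exact mem_sdiff.2 ⟨(hρ u hu').1, hnH u hu'⟩
  · intro u u' hu hu' huu h
    apply hR.uniq _ (hρ u hu).1 _ (hρ u' hu').1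
    have e1 : sp N {u, y} = sp N {u, u'} := by
      refine coneA_sp_eq hv (hne u hu) (mem_sp (by simp)) h
    have e2 : sp N {u', y} = sp N {u, u'} :=
      coneA_sp_eq hv (hne u' hu') (mem_sp (by simp)) h
    have e3 := (hρ u hu).2
    rw [e1, ← e2, ← hsp u' hu'] at e3
    exact e3
  · intro u u' hu hu' huu h
    have e1 : u ∈ sp N {ρ u, y} := by
      rw [hsp u hu]; exact mem_sp (by simp)
    have e2 : u' ∈ sp N {ρ u, y} := by
      rw [h, hsp u' hu']; exact mem_sp (by simp)
    rw [coneA_sp_eq hv huu e1 e2]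
    exact mem_sp (by simp)

/-- steps (1) - (4): the complement has at most five elements -/
theorem cone_le_five (hK : Fintype.card K = 4) (hN : Simple N) (hq : RepC K N) (ht : Tight N)
    (h5 : rk N univ = 5) {H : Finset E} (hH : IsFl N H) (hr : rk N H = 4)
    (h0 : 0 < alpha N H) : (univ \ H).card ≤ 5 := by
  classical
  have hv := hN
  by_contra hm
  have hm6 : 6 ≤ (univ \ H).card := by omega
  have hHc : 4 ≤ H.card := by
    have : rk N H ≤ H.card := rk_le_card
    omega
  have hU : ∀ {u : E}, u ∈ univ \ H ↔ u ∉ H := by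
    intro u; simp
  -- the complement spans
  have hspan : ∀ e : E, e ∈ sp N (univ \ H) := by
    intro e
    by_cases he : e ∈ H
    · obtain ⟨ρ, h1, h2, h3, h4⟩ := coneA_rho hK hv hq ht h5 hH hr h0 he
      obtain ⟨u, hu, u', hu', hne, heq⟩ := exists_ne_map_eq_of_card_lt_of_maps_to
        (s := univ \ H) (t := (univ \ H).image ρ) (f := ρ) (by omega)
        (fun x hx => mem_image_of_mem _ hx)
      have h6 := h4 u u' (hU.1 hu) (hU.1 hu') hne heq
      refine sp_mono ?_ h6
      intro x hx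
      rcases mem_insert.1 hx with rfl | hx
      · exact hu
      · rw [mem_singleton] at hx; subst hx; exact hu'
    · exact mem_sp (hU.2 he)
  have hrU : rk N univ ≤ rk N (univ \ H) :=
    rk_le_of_sp_le (sp_le_iff.2 fun e _ => hspan e)
  -- independence of representatives
  have key : ∀ y ∈ H, ∃ ρ : E → E, (∀ u, u ∉ H → ρ u ∈ sp N {u, y} ∧
      sp N {u, y} = sp N {ρ u, y} ∧ ρ u ∉ H) ∧ ((univ \ H).image ρ).card ≤ 4 ∧
      (∀ u u', u ∉ H → u' ∉ H → u ≠ u' → y ∈ sp N {u, u'} → ρ u = ρ u') ∧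
      (∀ u u', u ∉ H → u' ∉ H → u ≠ u' → ρ u = ρ u' → y ∈ sp N {u, u'}) ∧
      ∀ X : Finset E, (∀ x ∈ X, ∃ u, u ∉ H ∧ ρ u = x) → rk N (insert y X) = X.card + 1 := by
    intro y hy
    obtain ⟨ρ, h1, h2, h3, h4⟩ := coneA_rho hK hv hq ht h5 hH hr h0 hy
    refine ⟨ρ, h1, h2, h3, h4, ?_⟩
    have hle : rk N (univ \ H) ≤ rk N (insert y ((univ \ H).image ρ)) := by
      apply rk_le_of_sp_le
      rw [sp_le_iff]
      intro u hu
      have hu' := hU.1 hu
      have e1 : u ∈ sp N {ρ u, y} := by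
        rw [← (h1 u hu').2.1]; exact mem_sp (by simp)
      refine sp_mono ?_ e1
      intro x hx
      rcases mem_insert.1 hx with rfl | hx
      · exact mem_insert_of_mem (mem_image_of_mem _ hu)
      · rw [mem_singleton] at hx; subst hx; exact mem_insert_self _ _
    have hcc : (insert y ((univ \ H).image ρ)).card ≤ ((univ \ H).image ρ).card + 1 :=
      card_insert_le _ _
    have hrc : rk N (insert y ((univ \ H).image ρ)) ≤ (insert y ((univ \ H).image ρ)).card :=
      rk_le_card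
    have hI : Ind N (insert y ((univ \ H).image ρ)) := by
      unfold Ind; omega
    intro X hX
    have hXs : insert y X ⊆ insert y ((univ \ H).image ρ) := by
      apply insert_subset_insert
      intro x hx
      obtain ⟨u, hu, rfl⟩ := hX x hx
      exact mem_image_of_mem _ (hU.2 hu)
    have hyX : y ∉ X := by
      intro hyX
      obtain ⟨u, hu, h⟩ := hX y hyX
      exact (h1 u hu).2.2 (h ▸ hy)
    have := (hI.subset hXs).rk_eq_card
    rw [this, card_insert_of_notMem hyX]
  -- no class of three elements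
  have G3 : ∀ y ∈ H, ∀ y' ∈ H, y ≠ y' → ∀ u1 u2 u3, u1 ∉ H → u2 ∉ H → u3 ∉ H → u1 ≠ u2 →
      u1 ≠ u3 → u2 ≠ u3 → y' ∈ sp N {u1, u2} → y' ∈ sp N {u1, u3} → False := by
    intro y hy y' hy' hyy u1 u2 u3 m1 m2 m3 n12 n13 n23 a1 a2
    obtain ⟨ρ, h1, h2, h3, h4, hI⟩ := key y hy
    have q1 : u1 ≠ y' := fun h => m1 (h ▸ hy')
    have e1 : sp N {u1, y'} = sp N {u1, u2} :=
      coneA_sp_eq hv q1 (mem_sp (by simp)) a1
    have e2 : sp N {u1, y'} = sp N {u1, u3} :=
      coneA_sp_eq hv q1 (mem_sp (by simp)) a2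
    have b3 : u3 ∈ sp N {u1, u2} := by
      rw [← e1, e2]; exact mem_sp (by simp)
    have d12 : ρ u1 ≠ ρ u2 := fun h =>
      hyy (coneA_uniq hv hH hy hy' m1 (h4 u1 u2 m1 m2 n12 h) a1)
    have d13 : ρ u1 ≠ ρ u3 := fun h =>
      hyy (coneA_uniq hv hH hy hy' m1 (h4 u1 u3 m1 m3 n13 h) a2)
    have d23 : ρ u2 ≠ ρ u3 := by
      intro h
      have e3 : sp N {u2, u3} = sp N {u1, u2} :=
        coneA_sp_eq hv n23 (mem_sp (by simp)) b3
      have := h4 u2 u3 m2 m3 n23 h
      rw [e3] at this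
      exact hyy (coneA_uniq hv hH hy hy' m1 this a1)
    have r1 := hI {ρ u1, ρ u2, ρ u3} (by
      intro x hx
      simp only [mem_insert, mem_singleton] at hx
      rcases hx with rfl | rfl | rfl
      · exact ⟨u1, m1, rfl⟩
      · exact ⟨u2, m2, rfl⟩
      · exact ⟨u3, m3, rfl⟩)
    rw [card_eq_three.2 ⟨_, _, _, d12, d13, d23, rfl⟩] at r1
    have r2 : rk N (insert y {ρ u1, ρ u2, ρ u3}) ≤ rk N {y, u1, u2} := by
      apply rk_le_of_sp_le
      rw [sp_le_iff]
      have s1 : sp N {u1, u2} ≤ sp N {y, u1, u2} := sp_mono (subset_insert _ _)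
      have hyin : y ∈ sp N {y, u1, u2} := mem_sp (by simp)
      have s2 : ∀ u, u ∉ H → u ∈ sp N {u1, u2} → ρ u ∈ sp N {y, u1, u2} := by
        intro u hu hu2
        have : sp N {u, y} ≤ sp N {y, u1, u2} := by
          rw [sp_le_iff]
          intro e he
          rcases mem_insert.1 he with rfl | he
          · exact s1 hu2
          · rw [mem_singleton] at he; subst he; exact hyin
        exact this (h1 u hu).1
      intro e he
      simp only [mem_insert, mem_singleton] at he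
      rcases he with rfl | rfl | rfl | rfl
      · exact hyin
      · exact s2 u1 m1 (mem_sp (by simp))
      · exact s2 u2 m2 (mem_sp (by simp))
      · exact s2 u3 m3 b3
    have r3 : rk N {y, u1, u2} ≤ ({y, u1, u2} : Finset E).card := rk_le_card
    have r4 : ({y, u1, u2} : Finset E).card ≤ 3 := card_le_three
    omega
  -- two parallel pairs
  have G4 : ∀ y ∈ H, ∀ y' ∈ H, y ≠ y' → ∀ u1 u2 u3 u4, u1 ∉ H → u2 ∉ H → u3 ∉ H → u4 ∉ H →
      u1 ≠ u2 → u1 ≠ u3 → u1 ≠ u4 → u2 ≠ u3 → u2 ≠ u4 → u3 ≠ u4 →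
      y' ∈ sp N {u1, u2} → y' ∈ sp N {u3, u4} →
      y ∈ sp N {u1, u3} ∨ y ∈ sp N {u1, u4} := by
    intro y hy y' hy' hyy u1 u2 u3 u4 m1 m2 m3 m4 n12 n13 n14 n23 n24 n34 a1 a2
    obtain ⟨ρ, h1, h2, h3, h4, hI⟩ := key y hy
    by_contra hcon
    rw [not_or] at hcon
    have d13 : ρ u1 ≠ ρ u3 := fun h => hcon.1 (h4 u1 u3 m1 m3 n13 h)
    have d14 : ρ u1 ≠ ρ u4 := fun h => hcon.2 (h4 u1 u4 m1 m4 n14 h)
    have d12 : ρ u1 ≠ ρ u2 := fun h =>
      hyy (coneA_uniq hv hH hy hy' m1 (h4 u1 u2 m1 m2 n12 h) a1)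
    have d34 : ρ u3 ≠ ρ u4 := fun h =>
      hyy (coneA_uniq hv hH hy hy' m3 (h4 u3 u4 m3 m4 n34 h) a2)
    -- a class shared by both pairs
    have sh : ∀ w z, w ∉ H → z ∉ H → w ≠ z → y' ∈ sp N {w, z} → ρ u2 = ρ w →
        ρ u1 ≠ ρ z → ρ w ≠ ρ z → False := by
      intro w z mw mz nwz aw e d1z dwz
      have r1 := hI {ρ u1, ρ u2, ρ z} (by
        intro x hx
        simp only [mem_insert, mem_singleton] at hx
        rcases hx with rfl | rfl | rfl
        · exact ⟨u1, m1, rfl⟩
        · exact ⟨u2, m2, rfl⟩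
        · exact ⟨z, mz, rfl⟩)
      rw [card_eq_three.2 ⟨_, _, _, d12, d1z, by rw [e]; exact dwz, rfl⟩] at r1
      have hyin : y ∈ sp N {y, y', ρ u2} := mem_sp (by simp)
      have hyin' : y' ∈ sp N {y, y', ρ u2} := mem_sp (by simp)
      have s0 : sp N {ρ u2, y} ≤ sp N {y, y', ρ u2} := by
        apply sp_mono
        intro x hx
        simp only [mem_insert, mem_singleton] at hx ⊢
        tauto
      -- first pair
      have t2 : u2 ∈ sp N {y, y', ρ u2} := by
        apply s0
        rw [← (h1 u2 m2).2.1]; exact mem_sp (by simp)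
      have t1 : u1 ∈ sp N {y, y', ρ u2} := by
        have e1 : sp N {u2, y'} = sp N {u1, u2} :=
          coneA_sp_eq hv (fun h => m2 (h ▸ hy')) (mem_sp (by simp)) a1
        have e2 : u1 ∈ sp N {u2, y'} := by rw [e1]; exact mem_sp (by simp)
        have e3 : sp N {u2, y'} ≤ sp N {y, y', ρ u2} := by
          rw [sp_le_iff]
          intro x hx
          rcases mem_insert.1 hx with rfl | hx
          · exact t2
          · rw [mem_singleton] at hx; subst hx; exact hyin'
        exact e3 e2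
      -- second pair
      have tw : w ∈ sp N {y, y', ρ u2} := by
        apply s0
        rw [e, ← (h1 w mw).2.1]; exact mem_sp (by simp)
      have tz : z ∈ sp N {y, y', ρ u2} := by
        have e1 : sp N {w, y'} = sp N {w, z} :=
          coneA_sp_eq hv (fun h => mw (h ▸ hy')) (mem_sp (by simp)) aw
        have e2 : z ∈ sp N {w, y'} := by rw [e1]; exact mem_sp (by simp)
        have e3 : sp N {w, y'} ≤ sp N {y, y', ρ u2} := by
          rw [sp_le_iff]
          intro x hx
          rcases mem_insert.1 hx with rfl | hx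
          · exact tw
          · rw [mem_singleton] at hx; subst hx; exact hyin'
        exact e3 e2
      have s2 : ∀ u, u ∉ H → u ∈ sp N {y, y', ρ u2} → ρ u ∈ sp N {y, y', ρ u2} := by
        intro u hu hu2
        have : sp N {u, y} ≤ sp N {y, y', ρ u2} := by
          rw [sp_le_iff]
          intro x hx
          rcases mem_insert.1 hx with rfl | hx
          · exact hu2
          · rw [mem_singleton] at hx; subst hx; exact hyin
        exact this (h1 u hu).1
      have r2 : rk N (insert y {ρ u1, ρ u2, ρ z}) ≤ rk N {y, y', ρ u2} := by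
        apply rk_le_of_sp_le
        rw [sp_le_iff]
        intro x hx
        simp only [mem_insert, mem_singleton] at hx
        rcases hx with rfl | rfl | rfl | rfl
        · exact hyin
        · exact s2 u1 m1 t1
        · exact mem_sp (by simp)
        · exact s2 z mz tz
      have r3 : rk N {y, y', ρ u2} ≤ ({y, y', ρ u2} : Finset E).card := rk_le_card
      have r4 : ({y, y', ρ u2} : Finset E).card ≤ 3 := card_le_three
      omega
    by_cases c23 : ρ u2 = ρ u3
    · exact sh u3 u4 m3 m4 n34 a2 c23 d14 d34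
    by_cases c24 : ρ u2 = ρ u4
    · refine sh u4 u3 m4 m3 n34.symm ?_ c24 d13 d34.symm
      rw [pair_comm]; exact a2
    -- four different classes
    have r1 := hI {ρ u1, ρ u2, ρ u3, ρ u4} (by
      intro x hx
      simp only [mem_insert, mem_singleton] at hx
      rcases hx with rfl | rfl | rfl | rfl
      · exact ⟨u1, m1, rfl⟩
      · exact ⟨u2, m2, rfl⟩
      · exact ⟨u3, m3, rfl⟩
      · exact ⟨u4, m4, rfl⟩)
    have hc4 : ({ρ u1, ρ u2, ρ u3, ρ u4} : Finset E).card = 4 := by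
      rw [card_insert_of_notMem, card_eq_three.2 ⟨_, _, _, c23, c24, d34, rfl⟩]
      simp only [mem_insert, mem_singleton, not_or]
      exact ⟨d12, d13, d14⟩
    rw [hc4] at r1
    have hyin : y ∈ sp N {y, u1, u2, u3} := mem_sp (by simp)
    have i1 : u1 ∈ sp N {y, u1, u2, u3} := mem_sp (by simp)
    have i2 : u2 ∈ sp N {y, u1, u2, u3} := mem_sp (by simp)
    have i3 : u3 ∈ sp N {y, u1, u2, u3} := mem_sp (by simp)
    have i4 : u4 ∈ sp N {y, u1, u2, u3} := by
      have e1 : sp N {u3, y'} = sp N {u3, u4} :=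
        coneA_sp_eq hv (fun h => m3 (h ▸ hy')) (mem_sp (by simp)) a2
      have e2 : u4 ∈ sp N {u3, y'} := by rw [e1]; exact mem_sp (by simp)
      have e3 : sp N {u3, y'} ≤ sp N {y, u1, u2, u3} := by
        rw [sp_le_iff]
        intro x hx
        rcases mem_insert.1 hx with rfl | hx
        · exact i3
        · rw [mem_singleton] at hx; subst hx
          refine sp_mono ?_ a1
          intro x hx
          simp only [mem_insert, mem_singleton] at hx ⊢
          tauto
      exact e3 e2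
    have s2 : ∀ u, u ∉ H → u ∈ sp N {y, u1, u2, u3} → ρ u ∈ sp N {y, u1, u2, u3} := by
      intro u hu hu2
      have : sp N {u, y} ≤ sp N {y, u1, u2, u3} := by
        rw [sp_le_iff]
        intro x hx
        rcases mem_insert.1 hx with rfl | hx
        · exact hu2
        · rw [mem_singleton] at hx; subst hx; exact hyin
      exact this (h1 u hu).1
    have r2 : rk N (insert y {ρ u1, ρ u2, ρ u3, ρ u4}) ≤ rk N {y, u1, u2, u3} := by
      apply rk_le_of_sp_le
      rw [sp_le_iff]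
      intro x hx
      simp only [mem_insert, mem_singleton] at hx
      rcases hx with rfl | rfl | rfl | rfl | rfl
      · exact hyin
      · exact s2 u1 m1 i1
      · exact s2 u2 m2 i2
      · exact s2 u3 m3 i3
      · exact s2 u4 m4 i4
    have r3 : rk N {y, u1, u2, u3} ≤ ({y, u1, u2, u3} : Finset E).card := rk_le_card
    have r4 : ({y, u1, u2, u3} : Finset E).card ≤ 4 := card_le_four
    omega
  -- conclusion
  obtain ⟨y0, hy0⟩ := card_pos.1 (by omega : 0 < H.card)
  have hne2 : ∃ y1 ∈ H, y1 ≠ y0 := by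
    obtain ⟨y1, h1, h2⟩ := exists_mem_ne (by omega : 1 < H.card) y0
    exact ⟨y1, h1, h2⟩
  obtain ⟨y1, hy1, hy10⟩ := hne2
  obtain ⟨ρ, h1, h2, h3, h4, hI⟩ := key y0 hy0
  obtain ⟨u1, hu1, u2, hu2, n12, heq⟩ := exists_ne_map_eq_of_card_lt_of_maps_to
    (s := univ \ H) (t := (univ \ H).image ρ) (f := ρ) (by omega)
    (fun x hx => mem_image_of_mem _ hx)
  have m1 := hU.1 hu1
  have m2 := hU.1 hu2
  have a1 := h4 u1 u2 m1 m2 n12 heq
  have hcU : 4 ≤ (((univ \ H).erase u1).erase u2).card := by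
    rw [card_erase_of_mem (mem_erase.2 ⟨n12.symm, hu2⟩), card_erase_of_mem hu1]
    omega
  have hcI : (((univ \ H).image ρ).erase (ρ u1)).card ≤ 3 := by
    rw [card_erase_of_mem (mem_image_of_mem _ hu1)]
    omega
  obtain ⟨u3, hu3, u4, hu4, n34, heq'⟩ := exists_ne_map_eq_of_card_lt_of_maps_to
    (s := ((univ \ H).erase u1).erase u2) (t := ((univ \ H).image ρ).erase (ρ u1)) (f := ρ)
    (by omega) (by
      intro x hx
      have hx' := mem_coe.1 hx
      rw [mem_erase, mem_erase] at hx'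
      refine mem_coe.2 (mem_erase.2 ⟨?_, mem_image_of_mem _ hx'.2.2⟩)
      intro h
      have mx := hU.1 hx'.2.2
      exact G3 y1 hy1 y0 hy0 hy10 u1 u2 x m1 m2 mx n12 (Ne.symm hx'.2.1) (Ne.symm hx'.1) a1
        (h4 u1 x m1 mx (Ne.symm hx'.2.1) h.symm))
  rw [mem_erase, mem_erase] at hu3 hu4
  have m3 := hU.1 hu3.2.2
  have m4 := hU.1 hu4.2.2
  have a2 := h4 u3 u4 m3 m4 n34 heq'
  have hcov : H.erase y0 ⊆ H.filter (fun y => y ∈ sp N {u1, u3}) ∪
      H.filter (fun y => y ∈ sp N {u1, u4}) := by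
    intro y hy
    obtain ⟨hyne, hyH⟩ := mem_erase.1 hy
    rcases G4 y hyH y0 hy0 hyne u1 u2 u3 u4 m1 m2 m3 m4 n12 (Ne.symm hu3.2.1)
      (Ne.symm hu4.2.1) (Ne.symm hu3.1) (Ne.symm hu4.1) n34 a1 a2 with h | h
    · exact mem_union_left _ (mem_filter.2 ⟨hyH, h⟩)
    · exact mem_union_right _ (mem_filter.2 ⟨hyH, h⟩)
  have hone : ∀ w, (H.filter (fun y => y ∈ sp N {u1, w})).card ≤ 1 := by
    intro w
    rw [card_le_one]
    intro a ha b hb
    exact coneA_uniq hv hH (mem_filter.1 ha).1 (mem_filter.1 hb).1 m1 (mem_filter.1 ha).2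
      (mem_filter.1 hb).2
  have c1 := card_le_card hcov
  have c2 := card_union_le (H.filter (fun y => y ∈ sp N {u1, u3}))
    (H.filter (fun y => y ∈ sp N {u1, u4}))
  have c3 := hone u3
  have c4 := hone u4
  rw [card_erase_of_mem hy0] at c1
  omega

end Ca3.Ab
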