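import Pool.Agent.Lib.MP_ca3eb1_co.Her3
import Pool.Agent.Lib.MP_ca3eb1_co.Ck
import Pool.Agent.Lib.MP_ca3eb1_co.T7

/-! # Module W7b: complements of heavy hyperplanes in tight configurations of rank 5 -/

set_option linter.unusedSectionVars false

namespace Ca3

open Finset Submodule

namespace ConeBAux

/-- a graph with at least as many edges as vertices has an induced cycle `X, p, q`
(`pr y` is the pair of ends of the edge `y`) -/
lemma comb {E : Type*} [DecidableEq E] {U H : Finset E} {pr : E → Finset E}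
    (h1 : ∀ y ∈ H, pr y ⊆ U) (h2 : ∀ y ∈ H, (pr y).card = 2)
    (hinj : ∀ y ∈ H, ∀ y' ∈ H, pr y = pr y' → y = y') (hc : U.card ≤ H.card)
    (hne : U.Nonempty) :
    ∃ (X : Finset E) (p q y0 : E), X ⊆ U ∧ p ∈ U ∧ q ∈ U ∧ p ∉ X ∧ q ∉ X ∧ p ≠ q ∧
      y0 ∈ H ∧ pr y0 = {p, q} ∧ (H.filter (fun y => pr y ⊆ X)).card + 1 = X.card ∧
      (H.filter (fun y => pr y ⊆ insert p X)).card = X.card ∧
      (H.filter (fun y => pr y ⊆ insert q X)).card = X.card ∧
      (H.filter (fun y => pr y ⊆ insert q (insert p X))).card = X.card + 2 := by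
  classical
  obtain ⟨W, hW, hmin⟩ := (U.powerset.filter (fun W => W.Nonempty ∧
    W.card ≤ (H.filter (fun y => pr y ⊆ W)).card)).exists_min_image card ⟨U, by
      rw [mem_filter, mem_powerset]
      refine ⟨Subset.refl _, hne, ?_⟩
      rw [filter_true_of_mem h1]
      exact hc⟩
  rw [mem_filter, mem_powerset] at hW
  obtain ⟨hWU, hWne, hWe⟩ := hW
  have hsub : ∀ W' : Finset E, W' ⊆ W → W' ≠ W → W'.Nonempty →
      (H.filter (fun y => pr y ⊆ W')).card + 1 ≤ W'.card := by
    intro W' h h' hn
    by_contra hcon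
    have := hmin W' (by
      rw [mem_filter, mem_powerset]
      exact ⟨h.trans hWU, hn, by omega⟩)
    exact h' (eq_of_subset_of_card_le h this)
  -- `W` has at least three vertices
  have h3 : 3 ≤ W.card := by
    by_contra hcon
    have hW1 : 0 < W.card := card_pos.2 hWne
    have h4 : (H.filter (fun y => pr y ⊆ W)).card ≤ 1 := by
      rw [card_le_one]
      intro y hy y' hy'
      rw [mem_filter] at hy hy'
      have e1 := eq_of_subset_of_card_le hy.2 (by rw [h2 y hy.1]; omega)
      have e2 := eq_of_subset_of_card_le hy'.2 (by rw [h2 y' hy'.1]; omega)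
      exact hinj y hy.1 y' hy'.1 (e1.trans e2.symm)
    have h5 : (H.filter (fun y => pr y ⊆ W)).card = 1 := by omega
    obtain ⟨y, hy⟩ := card_pos.1 (by omega : 0 < (H.filter (fun y => pr y ⊆ W)).card)
    rw [mem_filter] at hy
    have := card_le_card hy.2
    rw [h2 y hy.1] at this
    omega
  set F := H.filter (fun y => pr y ⊆ W) with hF
  -- degrees
  have hdeg : ∀ w ∈ W, (H.filter (fun y => pr y ⊆ W.erase w)).card +
      (F.filter (fun y => w ∈ pr y)).card = F.card := by
    intro w hw
    have e1 : H.filter (fun y => pr y ⊆ W.erase w) = F.filter (fun y => ¬ w ∈ pr y) := by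
      ext y
      simp only [hF, mem_filter, subset_erase]
      tauto
    rw [e1, add_comm]
    exact card_filter_add_card_filter_not _
  have hers : ∀ w ∈ W, (H.filter (fun y => pr y ⊆ W.erase w)).card + 2 ≤ W.card := by
    intro w hw
    have e1 := card_erase_of_mem hw
    have e2 := hsub (W.erase w) (erase_subset _ _)
      (fun h => by rw [h] at e1; omega) (by rw [← card_pos]; omega)
    omega
  have hsum : ∑ w ∈ W, (F.filter (fun y => w ∈ pr y)).card = 2 * F.card := by
    simp only [card_filter]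
    rw [sum_comm]
    have : ∀ y ∈ F, ∑ w ∈ W, (if w ∈ pr y then 1 else 0) = 2 := by
      intro y hy
      rw [hF, mem_filter] at hy
      rw [← card_filter, ← h2 y hy.1]
      congr 1
      ext w
      rw [mem_filter]
      exact ⟨fun h => h.2, fun h => ⟨hy.2 h, h⟩⟩
    rw [sum_congr rfl this, sum_const, smul_eq_mul, mul_comm]
  obtain ⟨j, hj⟩ : ∃ j, F.card = W.card + j := ⟨F.card - W.card, by omega⟩
  have hlow : ∀ w ∈ W, j + 2 ≤ (F.filter (fun y => w ∈ pr y)).card := by
    intro w hw
    have e1 := hdeg w hw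
    have e2 := hers w hw
    omega
  have hj0 : j = 0 := by
    have e1 : W.card * (j + 2) ≤ 2 * F.card := by
      rw [← hsum, ← smul_eq_mul, ← sum_const]
      exact sum_le_sum hlow
    rw [hj] at e1
    have e2 : 3 * j ≤ W.card * j := Nat.mul_le_mul_right _ h3
    rw [mul_add] at e1
    omega
  subst hj0
  have hFc : F.card = W.card := by omega
  have heq : ∀ w ∈ W, (F.filter (fun y => w ∈ pr y)).card = 2 := by
    have e1 : ∑ w ∈ W, 2 = ∑ w ∈ W, (F.filter (fun y => w ∈ pr y)).card := by
      rw [hsum, sum_const, smul_eq_mul, hFc, mul_comm]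
    intro w hw
    exact ((sum_eq_sum_iff_of_le (fun w hw => by simpa using hlow w hw)).1 e1 w hw).symm
  have hers' : ∀ w ∈ W, (H.filter (fun y => pr y ⊆ W.erase w)).card + 2 = W.card := by
    intro w hw
    have e1 := hdeg w hw
    have e2 := heq w hw
    omega
  obtain ⟨y0, hy0⟩ := card_pos.1 (by omega : 0 < F.card)
  have hy0' := hy0
  rw [hF, mem_filter] at hy0
  obtain ⟨hy0H, hy0W⟩ := hy0
  obtain ⟨p, q, hpq, hpr0⟩ := card_eq_two.1 (h2 y0 hy0H)
  have hpW : p ∈ W := hy0W (by rw [hpr0]; simp)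
  have hqW : q ∈ W := hy0W (by rw [hpr0]; simp)
  have i1 : insert p ((W.erase p).erase q) = W.erase q := by
    ext z
    simp only [mem_insert, mem_erase]
    constructor
    · rintro (rfl | h)
      · exact ⟨hpq, hpW⟩
      · exact ⟨h.1, h.2.2⟩
    · rintro ⟨h, h'⟩
      by_cases hz : z = p
      · exact Or.inl hz
      · exact Or.inr ⟨h, hz, h'⟩
  have i2 : insert q ((W.erase p).erase q) = W.erase p := by
    rw [insert_erase]
    rw [mem_erase]
    exact ⟨hpq.symm, hqW⟩
  have i3 : insert q (W.erase q) = W := insert_erase hqW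
  have hXc : ((W.erase p).erase q).card + 2 = W.card := by
    rw [card_erase_of_mem (mem_erase.2 ⟨hpq.symm, hqW⟩), card_erase_of_mem hpW]
    omega
  refine ⟨(W.erase p).erase q, p, q, y0, ((erase_subset _ _).trans (erase_subset _ _)).trans hWU,
    hWU hpW, hWU hqW, by simp, by simp, hpq, hy0H, hpr0, ?_, ?_, ?_, ?_⟩
  · have e1 := hsub ((W.erase p).erase q) ((erase_subset _ _).trans (erase_subset _ _))
      (fun h => by rw [h] at hXc; omega) (by rw [← card_pos]; omega)
    have e2 := hers' p hpW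
    have e3 := hers' q hqW
    have e4 := card_union_add_card_inter (H.filter (fun y => pr y ⊆ W.erase p))
      (H.filter (fun y => pr y ⊆ W.erase q))
    have e5 : (H.filter (fun y => pr y ⊆ W.erase p)) ∩ (H.filter (fun y => pr y ⊆ W.erase q)) =
        H.filter (fun y => pr y ⊆ (W.erase p).erase q) := by
      ext y
      simp only [mem_inter, mem_filter, subset_erase]
      tauto
    have e6 : (H.filter (fun y => pr y ⊆ W.erase p)) ∪ (H.filter (fun y => pr y ⊆ W.erase q)) ⊆
        F.erase y0 := by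
      intro y hy
      rw [mem_erase, hF, mem_filter]
      rw [mem_union, mem_filter, mem_filter, subset_erase, subset_erase] at hy
      refine ⟨?_, ?_⟩
      · rintro rfl
        rw [hpr0] at hy
        simp at hy
      · rcases hy with h | h
        · exact ⟨h.1, h.2.1⟩
        · exact ⟨h.1, h.2.1⟩
    have e7 := card_le_card e6
    rw [card_erase_of_mem hy0'] at e7
    rw [e5] at e4
    omega
  · rw [i1]
    have := hers' q hqW
    omega
  · rw [i2]
    have := hers' p hpW
    omega
  · rw [i1, i3, ← hF]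
    omega

/-- Bonferroni inequality for four sets -/
lemma cnt_four {E : Type*} [DecidableEq E] {ι : Type*} [Fintype ι] (A : ι → Finset E)
    {T G1 G2 G3 G4 : Finset E} (h1 : G1 ⊆ T) (h2 : G2 ⊆ T) (h3 : G3 ⊆ T) (h4 : G4 ⊆ T) :
    cnt A G1 + cnt A G2 + cnt A G3 + cnt A G4 ≤
      cnt A T + cnt A (G1 ∩ G2) + cnt A (G1 ∩ G3) + cnt A (G1 ∩ G4) + cnt A (G2 ∩ G3) +
        cnt A (G2 ∩ G4) + cnt A (G3 ∩ G4) := by
  unfold cnt
  simp only [card_filter]
  simp only [← sum_add_distrib]
  apply sum_le_sum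
  intro i _
  simp only [subset_inter_iff]
  have t1 : A i ⊆ G1 → A i ⊆ T := fun h => h.trans h1
  have t2 : A i ⊆ G2 → A i ⊆ T := fun h => h.trans h2
  have t3 : A i ⊆ G3 → A i ⊆ T := fun h => h.trans h3
  have t4 : A i ⊆ G4 → A i ⊆ T := fun h => h.trans h4
  by_cases a1 : A i ⊆ G1 <;> by_cases a2 : A i ⊆ G2 <;> by_cases a3 : A i ⊆ G3 <;>
    by_cases a4 : A i ⊆ G4 <;> by_cases hT : A i ⊆ T <;> simp_all

section geom

variable {K V E : Type*} [Field K] [AddCommGroup V] [Module K V]
  [FiniteDimensional K V] [Fintype E] [DecidableEq E] {v : E → V}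

/-- Bonferroni inequality for four flats of a strict gammoid -/
lemma four_flats {Y T : Finset E} (hs : SG K v Y T) (hT : IsFl K v T) {G1 G2 G3 G4 : Finset E}
    (f1 : IsFl K v G1) (f2 : IsFl K v G2) (f3 : IsFl K v G3) (f4 : IsFl K v G4)
    (y1 : Y ⊆ G1) (y2 : Y ⊆ G2) (y3 : Y ⊆ G3) (y4 : Y ⊆ G4)
    (t1 : G1 ⊆ T) (t2 : G2 ⊆ T) (t3 : G3 ⊆ T) (t4 : G4 ⊆ T) :
    G1.card + G2.card + G3.card + G4.card + rk K v T + rk K v (G1 ∩ G2) + rk K v (G1 ∩ G3) +
      rk K v (G1 ∩ G4) + rk K v (G2 ∩ G3) + rk K v (G2 ∩ G4) + rk K v (G3 ∩ G4) ≤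
    rk K v G1 + rk K v G2 + rk K v G3 + rk K v G4 + T.card + (G1 ∩ G2).card + (G1 ∩ G3).card +
      (G1 ∩ G4).card + (G2 ∩ G3).card + (G2 ∩ G4).card + (G3 ∩ G4).card := by
  obtain ⟨n, A, hA⟩ := hs
  have h := cnt_four A t1 t2 t3 t4
  have e := hA.eq (y1.trans t1) (Subset.refl _) hT
  have e1 := hA.eq y1 t1 f1
  have e2 := hA.eq y2 t2 f2
  have e3 := hA.eq y3 t3 f3
  have e4 := hA.eq y4 t4 f4
  have e12 := hA.eq (subset_inter y1 y2) (inter_subset_left.trans t1) (f1.inter f2)
  have e13 := hA.eq (subset_inter y1 y3) (inter_subset_left.trans t1) (f1.inter f3)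
  have e14 := hA.eq (subset_inter y1 y4) (inter_subset_left.trans t1) (f1.inter f4)
  have e23 := hA.eq (subset_inter y2 y3) (inter_subset_left.trans t2) (f2.inter f3)
  have e24 := hA.eq (subset_inter y2 y4) (inter_subset_left.trans t2) (f2.inter f4)
  have e34 := hA.eq (subset_inter y3 y4) (inter_subset_left.trans t3) (f3.inter f4)
  omega

/-- the elements of a flat spanned by a subset of the basis `U` -/
lemma mem_cl_iff {H U : Finset E} (hU : Ind K v U) (hUH : ∀ z, z ∈ U ↔ z ∉ H)
    {pr : E → Finset E} (hpr : ∀ y ∈ H, ∀ W ⊆ U, y ∈ cl K v W ↔ pr y ⊆ W) {W : Finset E}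
    (hW : W ⊆ U) (z : E) : z ∈ cl K v W ↔ z ∈ W ∨ (z ∈ H ∧ pr z ⊆ W) := by
  by_cases hz : z ∈ H
  · rw [hpr z hz W hW]
    constructor
    · exact fun h => Or.inr ⟨hz, h⟩
    · rintro (h | h)
      · exact absurd hz ((hUH z).1 (hW h))
      · exact h.2
  · constructor
    · intro h
      left
      by_contra hzW
      have hzU : z ∈ U := (hUH z).2 hz
      refine hU.not_mem_sp_erase hzU (sp_mono ?_ (mem_cl.1 h))
      intro w hw
      exact mem_erase.2 ⟨fun h' => hzW (h' ▸ hw), hW hw⟩
    · rintro (h | h)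
      · exact subset_cl h
      · exact absurd h.1 hz

lemma card_cl {H U : Finset E} (hU : Ind K v U) (hUH : ∀ z, z ∈ U ↔ z ∉ H)
    {pr : E → Finset E} (hpr : ∀ y ∈ H, ∀ W ⊆ U, y ∈ cl K v W ↔ pr y ⊆ W) {W : Finset E}
    (hW : W ⊆ U) : (cl K v W).card = W.card + (H.filter (fun y => pr y ⊆ W)).card := by
  rw [← card_union_of_disjoint]
  · congr 1
    ext z
    rw [mem_cl_iff hU hUH hpr hW, mem_union, mem_filter]
  · rw [disjoint_left]
    intro z hz hz'
    exact (hUH z).1 (hW hz) (mem_filter.1 hz').1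

/-- an induced cycle gives a contradiction -/
lemma no_cycle (hv : Simple K v) {H U : Finset E} (hH : IsFl K v H) (hU : Ind K v U)
    (hUH : ∀ z, z ∈ U ↔ z ∉ H) {pr : E → Finset E} (h2 : ∀ y ∈ H, (pr y).card = 2)
    (hinj : ∀ y ∈ H, ∀ y' ∈ H, pr y = pr y' → y = y')
    (hpr : ∀ y ∈ H, ∀ W ⊆ U, y ∈ cl K v W ↔ pr y ⊆ W) (hprU : ∀ y ∈ H, pr y ⊆ U)
    {X : Finset E} {p q y0 : E} (hXU : X ⊆ U) (hp : p ∈ U) (hq : q ∈ U) (hpX : p ∉ X)
    (hqX : q ∉ X) (hpq : p ≠ q) (hy0 : y0 ∈ H) (hpr0 : pr y0 = {p, q})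
    (c0 : (H.filter (fun y => pr y ⊆ X)).card + 1 = X.card)
    (c1 : (H.filter (fun y => pr y ⊆ insert p X)).card = X.card)
    (c2 : (H.filter (fun y => pr y ⊆ insert q X)).card = X.card)
    (c3 : (H.filter (fun y => pr y ⊆ insert q (insert p X))).card = X.card + 2)
    (hY : Ind K v (H.filter (fun y => pr y ⊆ X)))
    (hs : SG K v (H.filter (fun y => pr y ⊆ X)) (cl K v (insert q (insert p X)))) : False := by
  set Y := H.filter (fun y => pr y ⊆ X) with hYdef
  have hpXU : insert p X ⊆ U := insert_subset hp hXU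
  have hqXU : insert q X ⊆ U := insert_subset hq hXU
  have hTU : insert q (insert p X) ⊆ U := insert_subset hq hpXU
  have hqpX : q ∉ insert p X := by
    rw [mem_insert]
    rintro (h | h)
    · exact hpq h.symm
    · exact hqX h
  have hYH : Y ⊆ H := filter_subset _ _
  have hspH : ∀ {z : E}, z ∉ H → ∀ {Z : Finset E}, Z ⊆ H → v z ∉ sp K v Z :=
    fun hz _ hZ h => hz (hH.mem (sp_mono hZ h))
  have hYX : Y ⊆ cl K v X := by
    intro y hy
    rw [hYdef, mem_filter] at hy
    exact (hpr y hy.1 X hXU).2 hy.2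
  have hspYX : sp K v Y ≤ sp K v X := by
    rw [← sp_cl (X := X)]
    exact sp_mono hYX
  -- ranks
  have rX : rk K v X = X.card := hU.subset hXU
  have rT : rk K v (cl K v (insert q (insert p X))) = X.card + 2 := by
    have : Ind K v (insert q (insert p X)) := hU.subset hTU
    rw [rk_cl, this.rk_eq_card, card_insert_of_notMem hqpX, card_insert_of_notMem hpX]
  have r1 : rk K v (cl K v (insert p X)) = X.card + 1 := by
    have : Ind K v (insert p X) := hU.subset hpXU
    rw [rk_cl, this.rk_eq_card, card_insert_of_notMem hpX]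
  have r2 : rk K v (cl K v (insert q X)) = X.card + 1 := by
    have : Ind K v (insert q X) := hU.subset hqXU
    rw [rk_cl, this.rk_eq_card, card_insert_of_notMem hqX]
  have r3 : rk K v (cl K v (insert p (insert q Y))) ≤ X.card + 1 := by
    rw [rk_cl]
    have e1 : rk K v (insert p (insert q Y)) ≤ rk K v (insert q Y) + 1 := rk_insert_le
    have e2 : rk K v (insert q Y) ≤ rk K v Y + 1 := rk_insert_le
    have e3 := hY.rk_eq_card
    omega
  -- cards
  have cT := card_cl hU hUH hpr hTU
  rw [c3, card_insert_of_notMem hqpX, card_insert_of_notMem hpX] at cT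
  have k1 := card_cl hU hUH hpr hpXU
  rw [c1, card_insert_of_notMem hpX] at k1
  have k2 := card_cl hU hUH hpr hqXU
  rw [c2, card_insert_of_notMem hqX] at k2
  have kX := card_cl hU hUH hpr hXU
  rw [← hYdef] at kX
  -- the flats
  set T := cl K v (insert q (insert p X)) with hT
  set G1 := cl K v (insert p X) with hG1
  set G2 := cl K v (insert q X) with hG2
  set G3 := cl K v (insert p (insert q Y)) with hG3
  have hTfl : IsFl K v T := isFl_cl
  have memT := mem_cl_iff hU hUH hpr hTU
  have mem1 := mem_cl_iff hU hUH hpr hpXU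
  have mem2 := mem_cl_iff hU hUH hpr hqXU
  have memX := mem_cl_iff hU hUH hpr hXU
  have hpT : p ∈ T := subset_cl (by simp)
  have hqT : q ∈ T := subset_cl (by simp)
  have hpH : p ∉ H := (hUH p).1 hp
  have hqH : q ∉ H := (hUH q).1 hq
  have hXT : cl K v X ⊆ T := cl_mono ((subset_insert _ _).trans (subset_insert _ _))
  have hp3 : p ∈ G3 := subset_cl (by simp)
  have hq3 : q ∈ G3 := subset_cl (by simp)
  have hG3T : G3 ⊆ T := hTfl.cl_subset (insert_subset hpT (insert_subset hqT (hYX.trans hXT)))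
  have hy0W : ∀ W ⊆ U, y0 ∈ cl K v W ↔ p ∈ W ∧ q ∈ W := by
    intro W hW
    rw [hpr y0 hy0 W hW, hpr0, insert_subset_iff, singleton_subset_iff]
  have hy03 : y0 ∈ G3 := by
    have e1 : y0 ∈ cl K v ({p, q} : Finset E) := by
      rw [hy0W _ (insert_subset hp (singleton_subset_iff.2 hq))]
      simp
    refine (isFl_cl (X := insert p (insert q Y))).cl_subset ?_ e1
    exact insert_subset hp3 (singleton_subset_iff.2 hq3)
  have hy0X : v y0 ∉ sp K v X := by
    intro h
    exact hpX ((hy0W X hXU).1 (mem_cl.2 h)).1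
  have hy0Y : y0 ∉ Y := fun h => hy0X (hspYX (mem_sp h))
  -- no element of `X` is in `G3`
  have noX : ∀ x ∈ X, x ∉ G3 := by
    intro x hx hx3
    have hxH : x ∉ H := (hUH x).1 (hXU hx)
    have e1 : rk K v (insert x Y) = rk K v Y + 1 := rk_insert_of_not_mem_sp (hspH hxH hYH)
    have e2 := hY.rk_eq_card
    have e3 : sp K v (insert x Y) = sp K v (cl K v X) := by
      apply sp_eq_of_subset_of_rk_le (insert_subset (subset_cl hx) hYX)
      rw [rk_cl]
      omega
    have e4 : sp K v X ≤ sp K v G3 := by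
      rw [← sp_cl (X := X), ← e3]
      exact sp_mono (insert_subset hx3 (((subset_insert _ _).trans (subset_insert _ _)).trans
        subset_cl))
    have e5 : sp K v T ≤ sp K v G3 := by
      rw [hT, sp_cl, sp_le_iff]
      intro e he
      rcases mem_insert.1 he with rfl | he
      · exact mem_sp hq3
      rcases mem_insert.1 he with rfl | he
      · exact mem_sp hp3
      · exact e4 (mem_sp he)
    have e6 := rk_le_of_sp_le e5
    omega
  -- the elements of `H` in `G3`
  have noH : ∀ z ∈ G3, z ∈ H → z = y0 ∨ z ∈ Y := by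
    intro z hz hzH
    have hzT := (memT z).1 (hG3T hz)
    have hzpr : pr z ⊆ insert q (insert p X) := by
      rcases hzT with h | h
      · exact absurd hzH ((hUH z).1 (hTU h))
      · exact h.2
    obtain ⟨a, b, hab, hprz⟩ := card_eq_two.1 (h2 z hzH)
    have haU : a ∈ U := hprU z hzH (by rw [hprz]; simp)
    have hbU : b ∈ U := hprU z hzH (by rw [hprz]; simp)
    have hzab : z ∈ cl K v {a, b} := by
      rw [hpr z hzH _ (insert_subset haU (singleton_subset_iff.2 hbU)), hprz]
    -- if one end is in `X` and the other in `G3`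
    have key : ∀ c d : E, z ∈ cl K v {c, d} → c ∈ X → d ∈ U → d ∈ G3 → False := by
      intro c d hz' hc hd hd3
      apply noX c hc
      rw [mem_cl] at hz'
      have hzd : v z ∉ sp K v {d} := by
        rw [sp_singleton]
        intro h
        have := hv.2 _ _ h
        exact (hUH d).1 hd (this ▸ hzH)
      have h' := mem_sp_insert_exchange hz' hzd
      refine (isFl_cl (X := insert p (insert q Y))).mem (sp_mono ?_ h')
      exact insert_subset hz (singleton_subset_iff.2 hd3)
    have hend : ∀ c ∈ insert q (insert p X), c ∈ X ∨ c ∈ ({p, q} : Finset E) := by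
      intro c hc
      simp only [mem_insert, mem_singleton] at hc ⊢
      tauto
    have hpq3 : ∀ c ∈ ({p, q} : Finset E), c ∈ G3 ∧ c ∈ U := by
      intro c hc
      simp only [mem_insert, mem_singleton] at hc
      rcases hc with rfl | rfl
      · exact ⟨hp3, hp⟩
      · exact ⟨hq3, hq⟩
    have ha := hend a (hzpr (by rw [hprz]; simp))
    have hb := hend b (hzpr (by rw [hprz]; simp))
    rcases ha with ha | ha <;> rcases hb with hb | hb
    · right
      rw [hYdef, mem_filter, hprz]
      exact ⟨hzH, insert_subset ha (singleton_subset_iff.2 hb)⟩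
    · exact (key a b hzab ha hbU (hpq3 b hb).1).elim
    · rw [pair_comm] at hzab
      exact (key b a hzab hb haU (hpq3 a ha).1).elim
    · left
      apply hinj z hzH y0 hy0
      rw [hprz, hpr0]
      apply eq_of_subset_of_card_le (insert_subset ha (singleton_subset_iff.2 hb))
      rw [card_pair hab, card_pair hpq]
  have noU : ∀ z ∈ G3, z ∉ H → z = p ∨ z = q := by
    intro z hz hzH
    rcases (memT z).1 (hG3T hz) with h | h
    · simp only [mem_insert] at h
      rcases h with h | h | h
      · exact Or.inr h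
      · exact Or.inl h
      · exact absurd hz (noX z h)
    · exact absurd h.1 hzH
  -- the flat `G4`
  have m4 : T ∩ H = H.filter (fun y => pr y ⊆ insert q (insert p X)) := by
    ext z
    rw [mem_inter, mem_filter]
    constructor
    · rintro ⟨h, h'⟩
      exact ⟨h', (hpr z h' _ hTU).1 h⟩
    · rintro ⟨h, h'⟩
      exact ⟨(hpr z h _ hTU).2 h', h⟩
  have k4 : (T ∩ H).card = X.card + 2 := by rw [m4, c3]
  have f4 : IsFl K v (T ∩ H) := hTfl.inter hH
  have r4 : rk K v (T ∩ H) ≤ X.card + 1 := by
    have := f4.rk_lt_of_ssubset (G := T) (Finset.ssubset_iff_subset_ne.2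
      ⟨inter_subset_left, fun h => hpH (mem_inter.1 (by rw [h]; exact hpT : p ∈ T ∩ H)).2⟩)
    omega
  have k3 : X.card + 2 ≤ G3.card := by
    have e1 : (insert p (insert q (insert y0 Y))).card = Y.card + 3 := by
      rw [card_insert_of_notMem, card_insert_of_notMem, card_insert_of_notMem hy0Y]
      · rw [mem_insert]
        rintro (h | h)
        · exact hqH (h ▸ hy0)
        · exact hqH (hYH h)
      · rw [mem_insert, mem_insert]
        rintro (h | h | h)
        · exact hpq h
        · exact hpH (h ▸ hy0)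
        · exact hpH (hYH h)
    have e2 : insert p (insert q (insert y0 Y)) ⊆ G3 :=
      insert_subset hp3 (insert_subset hq3 (insert_subset hy03
        (((subset_insert _ _).trans (subset_insert _ _)).trans subset_cl)))
    have e3 := card_le_card e2
    omega
  -- intersections
  have k12 : G1 ∩ G2 = cl K v X := by
    ext z
    rw [mem_inter, mem1, mem2, memX]
    have e1 : ∀ W : Finset E, W ⊆ insert p X → W ⊆ insert q X → W ⊆ X := by
      intro W h h' w hw
      have a1 := h hw
      have a2 := h' hw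
      rw [mem_insert] at a1 a2
      rcases a1 with rfl | a1
      · rcases a2 with a2 | a2
        · exact absurd a2 hpq
        · exact a2
      · exact a1
    constructor
    · rintro ⟨h | h, h' | h'⟩
      · left
        have := e1 {z} (singleton_subset_iff.2 h) (singleton_subset_iff.2 h')
        exact singleton_subset_iff.1 this
      · exact absurd h'.1 ((hUH z).1 (hpXU h))
      · exact absurd h.1 ((hUH z).1 (hqXU h'))
      · exact Or.inr ⟨h.1, e1 _ h.2 h'.2⟩
    · rintro (h | h)
      · exact ⟨Or.inl (mem_insert_of_mem h), Or.inl (mem_insert_of_mem h)⟩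
      · exact ⟨Or.inr ⟨h.1, h.2.trans (subset_insert _ _)⟩,
          Or.inr ⟨h.1, h.2.trans (subset_insert _ _)⟩⟩
  have hYr := hY.rk_eq_card
  have null_of : ∀ {Z : Finset E} {z : E}, z ∈ Z → v z ∉ sp K v Y → Y ⊆ Z →
      Z.card ≤ X.card → Z.card ≤ rk K v Z := by
    intro Z z hz hz' hYZ hc
    have e1 : rk K v (insert z Y) = rk K v Y + 1 := rk_insert_of_not_mem_sp hz'
    have e2 : rk K v (insert z Y) ≤ rk K v Z := rk_mono (insert_subset hz hYZ)
    omega
  have hY1 : Y ⊆ G1 := hYX.trans (cl_mono (subset_insert _ _))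
  have hY2 : Y ⊆ G2 := hYX.trans (cl_mono (subset_insert _ _))
  have hY3 : Y ⊆ G3 := ((subset_insert _ _).trans (subset_insert _ _)).trans subset_cl
  have hY4 : Y ⊆ T ∩ H := subset_inter (hYX.trans hXT) hYH
  have hp1 : p ∈ G1 := subset_cl (by simp)
  have hq2 : q ∈ G2 := subset_cl (by simp)
  have hq1 : q ∉ G1 := by
    intro h
    rcases (mem1 q).1 h with h | h
    · exact hqpX h
    · exact hqH h.1
  have hp2 : p ∉ G2 := by
    intro h
    rcases (mem2 p).1 h with h | h
    · rcases mem_insert.1 h with h | h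
      · exact hpq h
      · exact hpX h
    · exact hpH h.1
  have hy01 : y0 ∉ G1 := by
    intro h
    exact hqpX ((hy0W _ hpXU).1 h).2
  have hy02 : y0 ∉ G2 := by
    intro h
    have := ((hy0W _ hqXU).1 h).1
    rcases mem_insert.1 this with h | h
    · exact hpq h
    · exact hpX h
  have n13 : (G1 ∩ G3).card ≤ rk K v (G1 ∩ G3) := by
    apply null_of (mem_inter.2 ⟨hp1, hp3⟩) (hspH hpH hYH) (subset_inter hY1 hY3)
    have e1 : G1 ∩ G3 ⊆ insert p Y := by
      intro z hz
      rw [mem_inter] at hz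
      by_cases hzH : z ∈ H
      · rcases noH z hz.2 hzH with h | h
        · exact absurd (h ▸ hz.1) hy01
        · exact mem_insert_of_mem h
      · rcases noU z hz.2 hzH with h | h
        · rw [h]; exact mem_insert_self _ _
        · exact absurd (h ▸ hz.1) hq1
    have e2 := card_le_card e1
    have e3 := card_insert_le p Y
    omega
  have n23 : (G2 ∩ G3).card ≤ rk K v (G2 ∩ G3) := by
    apply null_of (mem_inter.2 ⟨hq2, hq3⟩) (hspH hqH hYH) (subset_inter hY2 hY3)
    have e1 : G2 ∩ G3 ⊆ insert q Y := by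
      intro z hz
      rw [mem_inter] at hz
      by_cases hzH : z ∈ H
      · rcases noH z hz.2 hzH with h | h
        · exact absurd (h ▸ hz.1) hy02
        · exact mem_insert_of_mem h
      · rcases noU z hz.2 hzH with h | h
        · exact absurd (h ▸ hz.1) hp2
        · rw [h]; exact mem_insert_self _ _
    have e2 := card_le_card e1
    have e3 := card_insert_le q Y
    omega
  have n34 : (G3 ∩ (T ∩ H)).card ≤ rk K v (G3 ∩ (T ∩ H)) := by
    apply null_of (mem_inter.2 ⟨hy03, mem_inter.2 ⟨hG3T hy03, hy0⟩⟩)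
      (fun h => hy0X (hspYX h)) (subset_inter hY3 hY4)
    have e1 : G3 ∩ (T ∩ H) ⊆ insert y0 Y := by
      intro z hz
      rw [mem_inter, mem_inter] at hz
      rcases noH z hz.1 hz.2.2 with h | h
      · rw [h]; exact mem_insert_self _ _
      · exact mem_insert_of_mem h
    have e2 := card_le_card e1
    have e3 := card_insert_le y0 Y
    omega
  have n4 : ∀ r : E, insert r X ⊆ U → insert r X ⊆ insert q (insert p X) →
      (H.filter (fun y => pr y ⊆ insert r X)).card = X.card →
      (cl K v (insert r X) ∩ (T ∩ H)).card ≤ rk K v (cl K v (insert r X) ∩ (T ∩ H)) := by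
    intro r hrU hrT hrc
    have e1 : cl K v (insert r X) ∩ (T ∩ H) = H.filter (fun y => pr y ⊆ insert r X) := by
      ext z
      rw [mem_inter, mem_inter, mem_filter]
      constructor
      · rintro ⟨h, _, h'⟩
        exact ⟨h', (hpr z h' _ hrU).1 h⟩
      · rintro ⟨h, h'⟩
        exact ⟨(hpr z h _ hrU).2 h', (hpr z h _ hTU).2 (h'.trans hrT), h⟩
    have e2 : ∃ a ∈ H.filter (fun y => pr y ⊆ insert r X), a ∉ Y := by
      by_contra hcon
      push Not at hcon
      have := card_le_card (show H.filter (fun y => pr y ⊆ insert r X) ⊆ Y from hcon)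
      omega
    obtain ⟨a, ha, haY⟩ := e2
    rw [e1]
    apply null_of ha _ _ hrc.le
    · intro h
      apply haY
      rw [hYdef, mem_filter]
      have haH := (mem_filter.1 ha).1
      exact ⟨haH, (hpr a haH X hXU).1 (mem_cl.2 (hspYX h))⟩
    · intro y hy
      rw [hYdef, mem_filter] at hy
      exact mem_filter.2 ⟨hy.1, hy.2.trans (subset_insert _ _)⟩
  have n14 : (G1 ∩ (T ∩ H)).card ≤ rk K v (G1 ∩ (T ∩ H)) :=
    n4 p hpXU (subset_insert _ _) c1
  have n24 : (G2 ∩ (T ∩ H)).card ≤ rk K v (G2 ∩ (T ∩ H)) :=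
    n4 q hqXU (insert_subset_insert _ (subset_insert _ _)) c2
  have hfour := four_flats hs hTfl (isFl_cl (X := insert p X)) (isFl_cl (X := insert q X))
    (isFl_cl (X := insert p (insert q Y))) f4 hY1 hY2 hY3 hY4
    (cl_mono (subset_insert _ _)) (cl_mono (insert_subset_insert _ (subset_insert _ _)))
    hG3T inter_subset_left
  have rclX : rk K v (cl K v X) = X.card := by rw [rk_cl, rX]
  rw [← hG1, ← hG2, ← hG3, k12, rclX, kX, k4, r1, r2, rT, cT, k1, k2] at hfour
  omega

/-- at most four lines through a point of a heavy hyperplane leave the hyperplane -/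
lemma lines_le [Fintype K] (hK : Fintype.card K = 4) (hv : Simple K v) (ht : Tight K v)
    (h5 : rk K v univ = 5) {H : Finset E} (hH : IsFl K v H) (hr : rk K v H = 4)
    (h0 : 0 < alpha K v H) {y : E} (hy : y ∈ H) : (CkAux.lines K v H y).card ≤ 4 := by
  have hne : H ≠ univ := fun h => by rw [h, h5] at hr; omega
  obtain ⟨n, A, hA⟩ := ht.2.1 y
  obtain ⟨i0, hi0⟩ := ht.heavy_point hH hne h0 hy hA
  obtain ⟨R, -, hR⟩ := exists_reps (K := K) (v := v) (Y := {y}) (T := univ) (R₀ := ∅)
    (empty_subset _) (by simp) (by simp)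
  have htr := transfer hR isFl_univ (subset_univ _) hA
  have hyrk : rk K v {y} = 1 := hv.rk_singleton
  have hrk1 := rk_qc_univ hR (subset_univ _)
  rw [hyrk] at hrk1
  have hyH : ({y} : Finset E) ⊆ H := singleton_subset_iff.2 hy
  have hrk2 := rk_tr hR hH hyH (subset_univ _)
  rw [hyrk] at hrk2
  have hfl := isFl_tr hR hH hyH (subset_univ _)
  have hbig : A i0 ⊆ univ ∧ rk K v {y} + 2 ≤ rk K v (A i0 ∪ {y}) := by
    refine ⟨subset_univ _, ?_⟩
    rw [hyrk, ← rk_cl, hi0]
    omega
  let b : BigIdx K v {y} univ A := ⟨i0, hbig⟩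
  let σ := (Fintype.equivFin (BigIdx K v {y} univ A)).symm
  have hmas : IsMason K (qc K v {y} R) ∅ univ
      (fun i => tr R (cl K v (A (σ i).1 ∪ {y}))) := by
    intro Z hZ1 hZ2
    rw [cnt_reindex (A := fun i : BigIdx K v {y} univ A => tr R (cl K v (A i.1 ∪ {y}))) σ]
    exact htr Z hZ1 hZ2
  have h4 := Ck hK (qc_simple hR) hmas (by omega) hfl (by omega)
    ⟨σ.symm b, by
      rw [Equiv.apply_symm_apply]
      show cl K (qc K v {y} R) (tr R (cl K v (A i0 ∪ {y}))) = tr R H
      rw [hi0]
      exact hfl⟩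
  refine le_trans ?_ h4
  have h5 : CkAux.lines K v H y ⊆ (univ \ tr R H).image (fun r : R => cl K v {y, (r : E)}) := by
    intro L hL
    obtain ⟨e, he, rfl⟩ := mem_image.1 hL
    have heH : e ∉ H := (mem_sdiff.1 he).2
    have hye : y ≠ e := fun h => heH (h ▸ hy)
    obtain ⟨r, hr1, hr2⟩ := hR.ex e (mem_univ _) (by
      rw [sp_singleton]
      intro h
      exact hye (hv.2 _ _ h).symm)
    have hry : v r ∉ sp K v {y} := hR.not_mem r hr1
    have hre : v e ∈ sp K v (insert r {y}) := mem_sp_insert_exchange hr2 hry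
    have hrH : r ∉ H := by
      intro hrH
      apply heH
      apply hH.mem
      refine sp_mono ?_ hre
      exact insert_subset hrH hyH
    have hyr : y ≠ r := fun h => hrH (h ▸ hy)
    rw [mem_image]
    refine ⟨⟨r, hr1⟩, ?_, ?_⟩
    · rw [mem_sdiff]
      refine ⟨mem_univ _, ?_⟩
      intro h
      exact hrH (mem_filter.1 h).2
    · apply CkAux.cl_pair_eq hv hyr isFl_cl
      · rw [rk_cl, hv.rk_pair hye]
      · exact subset_cl (by simp)
      · rw [mem_cl, pair_comm]
        exact hr2
  exact (card_le_card h5).trans card_image_le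

end geom

end ConeBAux

open ConeBAux

variable {K V E : Type*} [Field K] [Fintype K] [AddCommGroup V] [Module K V]
  [FiniteDimensional K V] [Fintype E] [DecidableEq E] {v : E → V}

/-- step (5) -/
theorem cone_ne_five (hK : Fintype.card K = 4) (hv : Simple K v) (ht : Tight K v)
    (h5 : rk K v univ = 5) {H : Finset E} (hH : IsFl K v H) (hr : rk K v H = 4)
    (h0 : 0 < alpha K v H) : (univ \ H).card ≠ 5 := by
  classical
  intro hc
  have hne : H ≠ univ := fun h => by rw [h, h5] at hr; omega
  -- the size of `H`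
  have hHc : 5 ≤ H.card := by
    obtain ⟨n, A, hA⟩ := ht.2.2 H hH hne
    obtain ⟨i, hi⟩ := heavy_self hA hH h0
    have h1 := hA.eq (empty_subset _) (Subset.refl _) hH
    have h2 : 1 ≤ cnt A H := CkFour.cnt_pos_iff.2 ⟨i, by rw [← hi]; exact subset_cl⟩
    omega
  -- pairs
  have hpair : ∀ y ∈ H, ∃ a b, a ∉ H ∧ b ∉ H ∧ a ≠ b ∧ v y ∈ sp K v {a, b} := by
    intro y hy
    have h7 : (CkAux.lines K v H y).card < (univ \ H).card := by
      have := lines_le hK hv ht h5 hH hr h0 hy
      omega
    obtain ⟨c, hc, c', hc', hne, heq⟩ := exists_ne_map_eq_of_card_lt_of_maps_to h7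
      (f := fun e => cl K v {y, e}) (fun e he => mem_coe.2 (mem_image_of_mem _ he))
    refine ⟨c', c, (mem_sdiff.1 hc').2, (mem_sdiff.1 hc).2, hne.symm, ?_⟩
    have heq' : cl K v {y, c} = cl K v {y, c'} := heq
    have h8 : v c' ∈ sp K v {y, c} := by
      rw [← mem_cl, heq']
      exact subset_cl (by simp)
    have h9 : v c' ∉ sp K v {c} := by
      rw [sp_singleton]
      intro h
      exact hne (hv.2 _ _ h).symm
    exact mem_sp_insert_exchange h8 h9
  set U := univ \ H with hUdef
  have hUH : ∀ z, z ∈ U ↔ z ∉ H := by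
    intro z
    rw [hUdef, mem_sdiff]
    simp
  -- `U` is a basis
  have hU : Ind K v U := by
    have h1 : sp K v univ ≤ sp K v U := by
      rw [sp_le_iff]
      intro e _
      by_cases he : e ∈ H
      · obtain ⟨a, b, ha, hb, -, hab⟩ := hpair e he
        exact sp_mono (insert_subset ((hUH a).2 ha) (singleton_subset_iff.2 ((hUH b).2 hb))) hab
      · exact mem_sp ((hUH e).2 he)
    have h2 := rk_le_of_sp_le h1
    have h3 : rk K v U ≤ U.card := rk_le_card
    unfold Ind
    omega
  have hex : ∀ y, ∃ P : Finset E, y ∈ H → P ⊆ U ∧ P.card = 2 ∧ y ∈ cl K v P := by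
    intro y
    by_cases hy : y ∈ H
    · obtain ⟨a, b, ha, hb, hab, h⟩ := hpair y hy
      exact ⟨{a, b}, fun _ => ⟨insert_subset ((hUH a).2 ha)
        (singleton_subset_iff.2 ((hUH b).2 hb)), card_pair hab, mem_cl.2 h⟩⟩
    · exact ⟨∅, fun h => absurd h hy⟩
  choose pr hprs using hex
  have h2 : ∀ y ∈ H, (pr y).card = 2 := fun y hy => (hprs y hy).2.1
  have hprU : ∀ y ∈ H, pr y ⊆ U := fun y hy => (hprs y hy).1
  have hinj : ∀ y ∈ H, ∀ y' ∈ H, pr y = pr y' → y = y' := by
    intro y hy y' hy' h
    by_contra hcon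
    have h1 := (hprs y hy).2.2
    have h3 := (hprs y' hy').2.2
    rw [← h] at h3
    obtain ⟨a, b, hab, hp⟩ := card_eq_two.1 (h2 y hy)
    have h4 := CkAux.cl_pair_eq hv hcon (isFl_cl (X := pr y)) (by
      rw [rk_cl, hp, hv.rk_pair hab]) h1 h3
    have h6 : a ∈ cl K v {y, y'} := by
      rw [h4, hp]
      exact subset_cl (by simp)
    have h7 : a ∈ U := hprU y hy (by rw [hp]; simp)
    exact (hUH a).1 h7 (hH.cl_subset (insert_subset hy (singleton_subset_iff.2 hy')) h6)
  have hpr : ∀ y ∈ H, ∀ W ⊆ U, y ∈ cl K v W ↔ pr y ⊆ W := by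
    intro y hy W hW
    constructor
    · intro h
      have key : ∀ a b : E, a ≠ b → a ∈ U → b ∈ U → y ∈ cl K v {a, b} → a ∈ W := by
        intro a b hab ha hb hyab
        by_contra haW
        rw [mem_cl] at hyab h
        have hyb : v y ∉ sp K v {b} := by
          rw [sp_singleton]
          intro h'
          have := hv.2 _ _ h'
          exact (hUH b).1 hb (this ▸ hy)
        have h1 := mem_sp_insert_exchange hyab hyb
        have h3 : v a ∈ sp K v (insert b W) := by
          have h4 : sp K v (insert y {b}) ≤ sp K v (insert b W) := by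
            rw [sp_le_iff]
            intro e he
            simp only [mem_insert, mem_singleton] at he
            rcases he with rfl | rfl
            · exact sp_mono (subset_insert _ _) h
            · exact mem_sp (mem_insert_self _ _)
          exact h4 h1
        refine hU.not_mem_sp_erase ha (sp_mono ?_ h3)
        intro w hw
        rcases mem_insert.1 hw with rfl | hw
        · exact mem_erase.2 ⟨hab.symm, hb⟩
        · exact mem_erase.2 ⟨fun h' => haW (h' ▸ hw), hW hw⟩
      obtain ⟨a, b, hab, hp⟩ := card_eq_two.1 (h2 y hy)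
      have h3 := (hprs y hy).2.2
      have ha : a ∈ U := hprU y hy (by rw [hp]; simp)
      have hb : b ∈ U := hprU y hy (by rw [hp]; simp)
      rw [hp] at h3 ⊢
      refine insert_subset (key a b hab ha hb h3) (singleton_subset_iff.2 (key b a hab.symm hb ha ?_))
      rw [pair_comm]
      exact h3
    · intro h
      exact cl_mono h (hprs y hy).2.2
  obtain ⟨X, p, q, y0, hXU, hp, hq, hpX, hqX, hpq, hy0, hpr0, c0, c1, c2, c3⟩ :=
    comb hprU h2 hinj (by omega) (by rw [← card_pos]; omega)
  have hqpX : q ∉ insert p X := by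
    rw [mem_insert]
    rintro (h | h)
    · exact hpq h.symm
    · exact hqX h
  have hTU : insert q (insert p X) ⊆ U := insert_subset hq (insert_subset hp hXU)
  have hTc : (insert q (insert p X)).card = X.card + 2 := by
    rw [card_insert_of_notMem hqpX, card_insert_of_notMem hpX]
  have hX3 : X.card + 2 ≤ 5 := by
    have := card_le_card hTU
    omega
  refine no_cycle hv hH hU hUH h2 hinj hpr hprU hXU hp hq hpX hqX hpq hy0 hpr0 c0 c1 c2 c3
    (hv.ind_of_card_le_two (by omega)) ?_
  rcases (H.filter (fun y => pr y ⊆ X)).eq_empty_or_nonempty with he | ⟨z, hz⟩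
  · rw [he]
    refine ht.2.2 _ isFl_cl (fun h => ?_)
    rw [he, card_empty] at c0
    have h1 : rk K v (cl K v (insert q (insert p X))) ≤ X.card + 2 := by
      rw [rk_cl, ← hTc]
      exact rk_le_card
    rw [h, h5] at h1
    omega
  · exact (ht.2.1 z).mono (singleton_subset_iff.2 hz) (subset_univ _)

end Ca3
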