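import Pool.Agent.Lib.MP_ca3eb1_co.AbInterface
import Pool.Agent.Lib.MP_ca3eb1_co.AbAlpha
import Pool.Agent.Lib.MP_ca3eb1_co.ConeB

/-! # W7 part B: the complement of a heavy hyperplane does not have five elements -/

set_option linter.unusedSectionVars false

namespace Ca3.Ab

open Finset

namespace AbConeBAux

section geom

variable {E : Type*} [DecidableEq E] [Fintype E] {N : RF E}

/-- Bonferroni inequality for four flats of a strict gammoid -/
lemma four_flats {Y T : Finset E} (hs : SG N Y T) (hT : IsFl N T) {G1 G2 G3 G4 : Finset E}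
    (f1 : IsFl N G1) (f2 : IsFl N G2) (f3 : IsFl N G3) (f4 : IsFl N G4)
    (y1 : Y ⊆ G1) (y2 : Y ⊆ G2) (y3 : Y ⊆ G3) (y4 : Y ⊆ G4)
    (t1 : G1 ⊆ T) (t2 : G2 ⊆ T) (t3 : G3 ⊆ T) (t4 : G4 ⊆ T) :
    G1.card + G2.card + G3.card + G4.card + rk N T + rk N (G1 ∩ G2) + rk N (G1 ∩ G3) +
      rk N (G1 ∩ G4) + rk N (G2 ∩ G3) + rk N (G2 ∩ G4) + rk N (G3 ∩ G4) ≤
    rk N G1 + rk N G2 + rk N G3 + rk N G4 + T.card + (G1 ∩ G2).card + (G1 ∩ G3).card +
      (G1 ∩ G4).card + (G2 ∩ G3).card + (G2 ∩ G4).card + (G3 ∩ G4).card := by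
  obtain ⟨n, A, hA⟩ := hs
  have h := Ca3.ConeBAux.cnt_four A t1 t2 t3 t4
  have e := hA.eq (y1.trans t1) (Subset.refl _) hT
  have e1 := hA.eq y1 t1 f1
  have e2 := hA.eq y2 t2 f2
  have e3 := hA.eq y3 t3 f3
  have e4 := hA.eq y4 t4 f4
  have e12 := hA.eq (subset_inter y1 y2) (inter_subset_left.trans t1) (f1.inter f2)
  have e13 := hA.eq (subset_inter y1 y3) (inter_subset_left.trans t1) (f1.inter f3)
  have e14 := hA.eq (subset_inter y1 y4) (inter_subset_left.trans t1) (f1.inter f4)
  have e23 := hA.eq (subset_inter y2 y3) (inter_subset_left.trans t2) (f2.inter f3)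
  have e24 := hA.eq (subset_inter y2 y4) (inter_subset_left.trans t2) (f2.inter f4)
  have e34 := hA.eq (subset_inter y3 y4) (inter_subset_left.trans t3) (f3.inter f4)
  omega

/-- the elements of a flat spanned by a subset of the basis `U` -/
lemma mem_cl_iff {H U : Finset E} (hU : Ind N U) (hUH : ∀ z, z ∈ U ↔ z ∉ H)
    {pr : E → Finset E} (hpr : ∀ y ∈ H, ∀ W ⊆ U, y ∈ cl N W ↔ pr y ⊆ W) {W : Finset E}
    (hW : W ⊆ U) (z : E) : z ∈ cl N W ↔ z ∈ W ∨ (z ∈ H ∧ pr z ⊆ W) := by
  by_cases hz : z ∈ H
  · rw [hpr z hz W hW]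
    constructor
    · exact fun h => Or.inr ⟨hz, h⟩
    · rintro (h | h)
      · exact absurd hz ((hUH z).1 (hW h))
      · exact h.2
  · constructor
    · intro h
      left
      by_contra hzW
      have hzU : z ∈ U := (hUH z).2 hz
      refine hU.not_mem_sp_erase hzU (sp_mono ?_ (mem_cl.1 h))
      intro w hw
      exact mem_erase.2 ⟨fun h' => hzW (h' ▸ hw), hW hw⟩
    · rintro (h | h)
      · exact subset_cl h
      · exact absurd h.1 hz

lemma card_cl {H U : Finset E} (hU : Ind N U) (hUH : ∀ z, z ∈ U ↔ z ∉ H)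
    {pr : E → Finset E} (hpr : ∀ y ∈ H, ∀ W ⊆ U, y ∈ cl N W ↔ pr y ⊆ W) {W : Finset E}
    (hW : W ⊆ U) : (cl N W).card = W.card + (H.filter (fun y => pr y ⊆ W)).card := by
  rw [← card_union_of_disjoint]
  · congr 1
    ext z
    rw [mem_cl_iff hU hUH hpr hW, mem_union, mem_filter]
  · rw [disjoint_left]
    intro z hz hz'
    exact (hUH z).1 (hW hz) (mem_filter.1 hz').1

/-- an induced cycle gives a contradiction -/
lemma no_cycle (hv : Simple N) {H U : Finset E} (hH : IsFl N H) (hU : Ind N U)
    (hUH : ∀ z, z ∈ U ↔ z ∉ H) {pr : E → Finset E} (h2 : ∀ y ∈ H, (pr y).card = 2)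
    (hinj : ∀ y ∈ H, ∀ y' ∈ H, pr y = pr y' → y = y')
    (hpr : ∀ y ∈ H, ∀ W ⊆ U, y ∈ cl N W ↔ pr y ⊆ W) (hprU : ∀ y ∈ H, pr y ⊆ U)
    {X : Finset E} {p q y0 : E} (hXU : X ⊆ U) (hp : p ∈ U) (hq : q ∈ U) (hpX : p ∉ X)
    (hqX : q ∉ X) (hpq : p ≠ q) (hy0 : y0 ∈ H) (hpr0 : pr y0 = {p, q})
    (c0 : (H.filter (fun y => pr y ⊆ X)).card + 1 = X.card)
    (c1 : (H.filter (fun y => pr y ⊆ insert p X)).card = X.card)
    (c2 : (H.filter (fun y => pr y ⊆ insert q X)).card = X.card)
    (c3 : (H.filter (fun y => pr y ⊆ insert q (insert p X))).card = X.card + 2)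
    (hY : Ind N (H.filter (fun y => pr y ⊆ X)))
    (hs : SG N (H.filter (fun y => pr y ⊆ X)) (cl N (insert q (insert p X)))) : False := by
  set Y := H.filter (fun y => pr y ⊆ X) with hYdef
  have hpXU : insert p X ⊆ U := insert_subset hp hXU
  have hqXU : insert q X ⊆ U := insert_subset hq hXU
  have hTU : insert q (insert p X) ⊆ U := insert_subset hq hpXU
  have hqpX : q ∉ insert p X := by
    rw [mem_insert]
    rintro (h | h)
    · exact hpq h.symm
    · exact hqX h
  have hYH : Y ⊆ H := filter_subset _ _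
  have hspH : ∀ {z : E}, z ∉ H → ∀ {Z : Finset E}, Z ⊆ H → z ∉ sp N Z :=
    fun hz _ hZ h => hz (hH.mem (sp_mono hZ h))
  have hYX : Y ⊆ cl N X := by
    intro y hy
    rw [hYdef, mem_filter] at hy
    exact (hpr y hy.1 X hXU).2 hy.2
  have hspYX : sp N Y ≤ sp N X := by
    rw [← sp_cl (X := X)]
    exact sp_mono hYX
  -- ranks
  have rX : rk N X = X.card := hU.subset hXU
  have rT : rk N (cl N (insert q (insert p X))) = X.card + 2 := by
    have : Ind N (insert q (insert p X)) := hU.subset hTU
    rw [rk_cl, this.rk_eq_card, card_insert_of_notMem hqpX, card_insert_of_notMem hpX]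
  have r1 : rk N (cl N (insert p X)) = X.card + 1 := by
    have : Ind N (insert p X) := hU.subset hpXU
    rw [rk_cl, this.rk_eq_card, card_insert_of_notMem hpX]
  have r2 : rk N (cl N (insert q X)) = X.card + 1 := by
    have : Ind N (insert q X) := hU.subset hqXU
    rw [rk_cl, this.rk_eq_card, card_insert_of_notMem hqX]
  have r3 : rk N (cl N (insert p (insert q Y))) ≤ X.card + 1 := by
    rw [rk_cl]
    have e1 : rk N (insert p (insert q Y)) ≤ rk N (insert q Y) + 1 := rk_insert_le
    have e2 : rk N (insert q Y) ≤ rk N Y + 1 := rk_insert_le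
    have e3 := hY.rk_eq_card
    omega
  -- cards
  have cT := card_cl hU hUH hpr hTU
  rw [c3, card_insert_of_notMem hqpX, card_insert_of_notMem hpX] at cT
  have k1 := card_cl hU hUH hpr hpXU
  rw [c1, card_insert_of_notMem hpX] at k1
  have k2 := card_cl hU hUH hpr hqXU
  rw [c2, card_insert_of_notMem hqX] at k2
  have kX := card_cl hU hUH hpr hXU
  rw [← hYdef] at kX
  -- the flats
  set T := cl N (insert q (insert p X)) with hT
  set G1 := cl N (insert p X) with hG1
  set G2 := cl N (insert q X) with hG2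
  set G3 := cl N (insert p (insert q Y)) with hG3
  have hTfl : IsFl N T := isFl_cl
  have memT := mem_cl_iff hU hUH hpr hTU
  have mem1 := mem_cl_iff hU hUH hpr hpXU
  have mem2 := mem_cl_iff hU hUH hpr hqXU
  have memX := mem_cl_iff hU hUH hpr hXU
  have hpT : p ∈ T := subset_cl (by simp)
  have hqT : q ∈ T := subset_cl (by simp)
  have hpH : p ∉ H := (hUH p).1 hp
  have hqH : q ∉ H := (hUH q).1 hq
  have hXT : cl N X ⊆ T := cl_mono ((subset_insert _ _).trans (subset_insert _ _))
  have hp3 : p ∈ G3 := subset_cl (by simp)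
  have hq3 : q ∈ G3 := subset_cl (by simp)
  have hG3T : G3 ⊆ T := hTfl.cl_subset (insert_subset hpT (insert_subset hqT (hYX.trans hXT)))
  have hy0W : ∀ W ⊆ U, y0 ∈ cl N W ↔ p ∈ W ∧ q ∈ W := by
    intro W hW
    rw [hpr y0 hy0 W hW, hpr0, insert_subset_iff, singleton_subset_iff]
  have hy03 : y0 ∈ G3 := by
    have e1 : y0 ∈ cl N ({p, q} : Finset E) := by
      rw [hy0W _ (insert_subset hp (singleton_subset_iff.2 hq))]
      simp
    refine (isFl_cl (X := insert p (insert q Y))).cl_subset ?_ e1
    exact insert_subset hp3 (singleton_subset_iff.2 hq3)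
  have hy0X : y0 ∉ sp N X := by
    intro h
    exact hpX ((hy0W X hXU).1 (mem_cl.2 h)).1
  have hy0Y : y0 ∉ Y := fun h => hy0X (hspYX (mem_sp h))
  -- no element of `X` is in `G3`
  have noX : ∀ x ∈ X, x ∉ G3 := by
    intro x hx hx3
    have hxH : x ∉ H := (hUH x).1 (hXU hx)
    have e1 : rk N (insert x Y) = rk N Y + 1 := rk_insert_of_not_mem_sp (hspH hxH hYH)
    have e2 := hY.rk_eq_card
    have e3 : sp N (insert x Y) = sp N (cl N X) := by
      apply sp_eq_of_subset_of_rk_le (insert_subset (subset_cl hx) hYX)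
      rw [rk_cl]
      omega
    have e4 : sp N X ≤ sp N G3 := by
      rw [← sp_cl (X := X), ← e3]
      exact sp_mono (insert_subset hx3 (((subset_insert _ _).trans (subset_insert _ _)).trans
        subset_cl))
    have e5 : sp N T ≤ sp N G3 := by
      rw [hT, sp_cl, sp_le_iff]
      intro e he
      rcases mem_insert.1 he with rfl | he
      · exact mem_sp hq3
      rcases mem_insert.1 he with rfl | he
      · exact mem_sp hp3
      · exact e4 (mem_sp he)
    have e6 := rk_le_of_sp_le e5
    omega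
  -- the elements of `H` in `G3`
  have noH : ∀ z ∈ G3, z ∈ H → z = y0 ∨ z ∈ Y := by
    intro z hz hzH
    have hzT := (memT z).1 (hG3T hz)
    have hzpr : pr z ⊆ insert q (insert p X) := by
      rcases hzT with h | h
      · exact absurd hzH ((hUH z).1 (hTU h))
      · exact h.2
    obtain ⟨a, b, hab, hprz⟩ := card_eq_two.1 (h2 z hzH)
    have haU : a ∈ U := hprU z hzH (by rw [hprz]; simp)
    have hbU : b ∈ U := hprU z hzH (by rw [hprz]; simp)
    have hzab : z ∈ cl N {a, b} := by
      rw [hpr z hzH _ (insert_subset haU (singleton_subset_iff.2 hbU)), hprz]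
    -- if one end is in `X` and the other in `G3`
    have key : ∀ c d : E, z ∈ cl N {c, d} → c ∈ X → d ∈ U → d ∈ G3 → False := by
      intro c d hz' hc hd hd3
      apply noX c hc
      rw [mem_cl] at hz'
      have hzd : z ∉ sp N {d} := by
        intro h
        have := hv.2 _ _ h
        exact (hUH d).1 hd (this ▸ hzH)
      have h' := mem_sp_insert_exchange hz' hzd
      refine (isFl_cl (X := insert p (insert q Y))).mem (sp_mono ?_ h')
      exact insert_subset hz (singleton_subset_iff.2 hd3)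
    have hend : ∀ c ∈ insert q (insert p X), c ∈ X ∨ c ∈ ({p, q} : Finset E) := by
      intro c hc
      simp only [mem_insert, mem_singleton] at hc ⊢
      tauto
    have hpq3 : ∀ c ∈ ({p, q} : Finset E), c ∈ G3 ∧ c ∈ U := by
      intro c hc
      simp only [mem_insert, mem_singleton] at hc
      rcases hc with rfl | rfl
      · exact ⟨hp3, hp⟩
      · exact ⟨hq3, hq⟩
    have ha := hend a (hzpr (by rw [hprz]; simp))
    have hb := hend b (hzpr (by rw [hprz]; simp))
    rcases ha with ha | ha <;> rcases hb with hb | hb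
    · right
      rw [hYdef, mem_filter, hprz]
      exact ⟨hzH, insert_subset ha (singleton_subset_iff.2 hb)⟩
    · exact (key a b hzab ha hbU (hpq3 b hb).1).elim
    · rw [pair_comm] at hzab
      exact (key b a hzab hb haU (hpq3 a ha).1).elim
    · left
      apply hinj z hzH y0 hy0
      rw [hprz, hpr0]
      apply eq_of_subset_of_card_le (insert_subset ha (singleton_subset_iff.2 hb))
      rw [card_pair hab, card_pair hpq]
  have noU : ∀ z ∈ G3, z ∉ H → z = p ∨ z = q := by
    intro z hz hzH
    rcases (memT z).1 (hG3T hz) with h | h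
    · simp only [mem_insert] at h
      rcases h with h | h | h
      · exact Or.inr h
      · exact Or.inl h
      · exact absurd hz (noX z h)
    · exact absurd h.1 hzH
  -- the flat `G4`
  have m4 : T ∩ H = H.filter (fun y => pr y ⊆ insert q (insert p X)) := by
    ext z
    rw [mem_inter, mem_filter]
    constructor
    · rintro ⟨h, h'⟩
      exact ⟨h', (hpr z h' _ hTU).1 h⟩
    · rintro ⟨h, h'⟩
      exact ⟨(hpr z h _ hTU).2 h', h⟩
  have k4 : (T ∩ H).card = X.card + 2 := by rw [m4, c3]
  have f4 : IsFl N (T ∩ H) := hTfl.inter hH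
  have r4 : rk N (T ∩ H) ≤ X.card + 1 := by
    have := f4.rk_lt_of_ssubset (G := T) (Finset.ssubset_iff_subset_ne.2
      ⟨inter_subset_left, fun h => hpH (mem_inter.1 (by rw [h]; exact hpT : p ∈ T ∩ H)).2⟩)
    omega
  have k3 : X.card + 2 ≤ G3.card := by
    have e1 : (insert p (insert q (insert y0 Y))).card = Y.card + 3 := by
      rw [card_insert_of_notMem, card_insert_of_notMem, card_insert_of_notMem hy0Y]
      · rw [mem_insert]
        rintro (h | h)
        · exact hqH (h ▸ hy0)
        · exact hqH (hYH h)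
      · rw [mem_insert, mem_insert]
        rintro (h | h | h)
        · exact hpq h
        · exact hpH (h ▸ hy0)
        · exact hpH (hYH h)
    have e2 : insert p (insert q (insert y0 Y)) ⊆ G3 :=
      insert_subset hp3 (insert_subset hq3 (insert_subset hy03
        (((subset_insert _ _).trans (subset_insert _ _)).trans subset_cl)))
    have e3 := card_le_card e2
    omega
  -- intersections
  have k12 : G1 ∩ G2 = cl N X := by
    ext z
    rw [mem_inter, mem1, mem2, memX]
    have e1 : ∀ W : Finset E, W ⊆ insert p X → W ⊆ insert q X → W ⊆ X := by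
      intro W h h' w hw
      have a1 := h hw
      have a2 := h' hw
      rw [mem_insert] at a1 a2
      rcases a1 with rfl | a1
      · rcases a2 with a2 | a2
        · exact absurd a2 hpq
        · exact a2
      · exact a1
    constructor
    · rintro ⟨h | h, h' | h'⟩
      · left
        have := e1 {z} (singleton_subset_iff.2 h) (singleton_subset_iff.2 h')
        exact singleton_subset_iff.1 this
      · exact absurd h'.1 ((hUH z).1 (hpXU h))
      · exact absurd h.1 ((hUH z).1 (hqXU h'))
      · exact Or.inr ⟨h.1, e1 _ h.2 h'.2⟩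
    · rintro (h | h)
      · exact ⟨Or.inl (mem_insert_of_mem h), Or.inl (mem_insert_of_mem h)⟩
      · exact ⟨Or.inr ⟨h.1, h.2.trans (subset_insert _ _)⟩,
          Or.inr ⟨h.1, h.2.trans (subset_insert _ _)⟩⟩
  have hYr := hY.rk_eq_card
  have null_of : ∀ {Z : Finset E} {z : E}, z ∈ Z → z ∉ sp N Y → Y ⊆ Z →
      Z.card ≤ X.card → Z.card ≤ rk N Z := by
    intro Z z hz hz' hYZ hc
    have e1 : rk N (insert z Y) = rk N Y + 1 := rk_insert_of_not_mem_sp hz'
    have e2 : rk N (insert z Y) ≤ rk N Z := rk_mono (insert_subset hz hYZ)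
    omega
  have hY1 : Y ⊆ G1 := hYX.trans (cl_mono (subset_insert _ _))
  have hY2 : Y ⊆ G2 := hYX.trans (cl_mono (subset_insert _ _))
  have hY3 : Y ⊆ G3 := ((subset_insert _ _).trans (subset_insert _ _)).trans subset_cl
  have hY4 : Y ⊆ T ∩ H := subset_inter (hYX.trans hXT) hYH
  have hp1 : p ∈ G1 := subset_cl (by simp)
  have hq2 : q ∈ G2 := subset_cl (by simp)
  have hq1 : q ∉ G1 := by
    intro h
    rcases (mem1 q).1 h with h | h
    · exact hqpX h
    · exact hqH h.1
  have hp2 : p ∉ G2 := by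
    intro h
    rcases (mem2 p).1 h with h | h
    · rcases mem_insert.1 h with h | h
      · exact hpq h
      · exact hpX h
    · exact hpH h.1
  have hy01 : y0 ∉ G1 := by
    intro h
    exact hqpX ((hy0W _ hpXU).1 h).2
  have hy02 : y0 ∉ G2 := by
    intro h
    have := ((hy0W _ hqXU).1 h).1
    rcases mem_insert.1 this with h | h
    · exact hpq h
    · exact hpX h
  have n13 : (G1 ∩ G3).card ≤ rk N (G1 ∩ G3) := by
    apply null_of (mem_inter.2 ⟨hp1, hp3⟩) (hspH hpH hYH) (subset_inter hY1 hY3)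
    have e1 : G1 ∩ G3 ⊆ insert p Y := by
      intro z hz
      rw [mem_inter] at hz
      by_cases hzH : z ∈ H
      · rcases noH z hz.2 hzH with h | h
        · exact absurd (h ▸ hz.1) hy01
        · exact mem_insert_of_mem h
      · rcases noU z hz.2 hzH with h | h
        · rw [h]; exact mem_insert_self _ _
        · exact absurd (h ▸ hz.1) hq1
    have e2 := card_le_card e1
    have e3 := card_insert_le p Y
    omega
  have n23 : (G2 ∩ G3).card ≤ rk N (G2 ∩ G3) := by
    apply null_of (mem_inter.2 ⟨hq2, hq3⟩) (hspH hqH hYH) (subset_inter hY2 hY3)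
    have e1 : G2 ∩ G3 ⊆ insert q Y := by
      intro z hz
      rw [mem_inter] at hz
      by_cases hzH : z ∈ H
      · rcases noH z hz.2 hzH with h | h
        · exact absurd (h ▸ hz.1) hy02
        · exact mem_insert_of_mem h
      · rcases noU z hz.2 hzH with h | h
        · exact absurd (h ▸ hz.1) hp2
        · rw [h]; exact mem_insert_self _ _
    have e2 := card_le_card e1
    have e3 := card_insert_le q Y
    omega
  have n34 : (G3 ∩ (T ∩ H)).card ≤ rk N (G3 ∩ (T ∩ H)) := by
    apply null_of (mem_inter.2 ⟨hy03, mem_inter.2 ⟨hG3T hy03, hy0⟩⟩)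
      (fun h => hy0X (hspYX h)) (subset_inter hY3 hY4)
    have e1 : G3 ∩ (T ∩ H) ⊆ insert y0 Y := by
      intro z hz
      rw [mem_inter, mem_inter] at hz
      rcases noH z hz.1 hz.2.2 with h | h
      · rw [h]; exact mem_insert_self _ _
      · exact mem_insert_of_mem h
    have e2 := card_le_card e1
    have e3 := card_insert_le y0 Y
    omega
  have n4 : ∀ r : E, insert r X ⊆ U → insert r X ⊆ insert q (insert p X) →
      (H.filter (fun y => pr y ⊆ insert r X)).card = X.card →
      (cl N (insert r X) ∩ (T ∩ H)).card ≤ rk N (cl N (insert r X) ∩ (T ∩ H)) := by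
    intro r hrU hrT hrc
    have e1 : cl N (insert r X) ∩ (T ∩ H) = H.filter (fun y => pr y ⊆ insert r X) := by
      ext z
      rw [mem_inter, mem_inter, mem_filter]
      constructor
      · rintro ⟨h, _, h'⟩
        exact ⟨h', (hpr z h' _ hrU).1 h⟩
      · rintro ⟨h, h'⟩
        exact ⟨(hpr z h _ hrU).2 h', (hpr z h _ hTU).2 (h'.trans hrT), h⟩
    have e2 : ∃ a ∈ H.filter (fun y => pr y ⊆ insert r X), a ∉ Y := by
      by_contra hcon
      push Not at hcon
      have := card_le_card (show H.filter (fun y => pr y ⊆ insert r X) ⊆ Y from hcon)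
      omega
    obtain ⟨a, ha, haY⟩ := e2
    rw [e1]
    apply null_of ha _ _ hrc.le
    · intro h
      apply haY
      rw [hYdef, mem_filter]
      have haH := (mem_filter.1 ha).1
      exact ⟨haH, (hpr a haH X hXU).1 (mem_cl.2 (hspYX h))⟩
    · intro y hy
      rw [hYdef, mem_filter] at hy
      exact mem_filter.2 ⟨hy.1, hy.2.trans (subset_insert _ _)⟩
  have n14 : (G1 ∩ (T ∩ H)).card ≤ rk N (G1 ∩ (T ∩ H)) :=
    n4 p hpXU (subset_insert _ _) c1
  have n24 : (G2 ∩ (T ∩ H)).card ≤ rk N (G2 ∩ (T ∩ H)) :=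
    n4 q hqXU (insert_subset_insert _ (subset_insert _ _)) c2
  have hfour := four_flats hs hTfl (isFl_cl (X := insert p X)) (isFl_cl (X := insert q X))
    (isFl_cl (X := insert p (insert q Y))) f4 hY1 hY2 hY3 hY4
    (cl_mono (subset_insert _ _)) (cl_mono (insert_subset_insert _ (subset_insert _ _)))
    hG3T inter_subset_left
  have rclX : rk N (cl N X) = X.card := by rw [rk_cl, rX]
  rw [← hG1, ← hG2, ← hG3, k12, rclX, kX, k4, r1, r2, rT, cT, k1, k2] at hfour
  omega

/-- The lines through `y` which are not inside `H`. -/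
noncomputable def lines (N : RF E) (H : Finset E) (y : E) : Finset (Finset E) :=
  (univ \ H).image (fun e => cl N {y, e})

lemma cl_pair_eq (hv : Simple N) {y e : E} (hye : y ≠ e) {L : Finset E}
    (hL : IsFl N L) (hL2 : rk N L = 2) (hy : y ∈ L) (he : e ∈ L) :
    cl N {y, e} = L := by
  apply hL.cl_eq
  · intro z hz
    simp only [mem_insert, mem_singleton] at hz
    rcases hz with rfl | rfl
    · exact hy
    · exact he
  · rw [hL2, hv.rk_pair hye]

/-- at most four lines through a point of a heavy hyperplane leave the hyperplane -/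
lemma lines_le {K : Type*} [Field K] [Fintype K] (hK : Fintype.card K = 4) (hv : Simple N)
    (hq : RepC K N) (ht : Tight N)
    (h5 : rk N univ = 5) {H : Finset E} (hH : IsFl N H) (hr : rk N H = 4)
    (h0 : 0 < alpha N H) {y : E} (hy : y ∈ H) : (lines N H y).card ≤ 4 := by
  have hne : H ≠ univ := fun h => by rw [h, h5] at hr; omega
  obtain ⟨n, A, hA⟩ := ht.2.1 y
  obtain ⟨i0, hi0⟩ := ht.heavy_point hH hne h0 hy hA
  obtain ⟨d, w, hw⟩ := hq y
  have hyy : y ∈ ({y} : Finset E) := mem_singleton_self y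
  obtain ⟨R, -, hR⟩ := hw.exists_reps (T := univ) (R₀ := ∅) hyy
    (empty_subset _) (by simp) (by simp)
  obtain ⟨m, B, hB, hBex⟩ := hw.transfer_fin hv hyy isFl_univ (subset_univ _) hR hA
  have hyrk : rk N {y} = 1 := hv.rk_singleton
  have hrk1 := hw.rk_qc_univ hyy hR (subset_univ _)
  rw [hyrk] at hrk1
  have hyH : ({y} : Finset E) ⊆ H := singleton_subset_iff.2 hy
  have hrk2 := hw.rk_tr hyy hR hH hyH (subset_univ _)
  rw [hyrk] at hrk2
  have hfl := hw.isFl_tr hyy hR hH hyH (subset_univ _)
  have h4 := Ck hK (qc_simple hR) hB (by omega) hfl (by omega)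
    (hBex H hH hyH (subset_univ _) (by rw [hyrk]; omega) ⟨i0, hi0⟩)
  refine le_trans ?_ h4
  have h5 : lines N H y ⊆ (univ \ tr R H).image (fun r : R => cl N {y, (r : E)}) := by
    intro L hL
    obtain ⟨e, he, rfl⟩ := mem_image.1 hL
    have heH : e ∉ H := (mem_sdiff.1 he).2
    have hye : y ≠ e := fun h => heH (h ▸ hy)
    obtain ⟨r, hr1, hr2⟩ := hR.ex e (mem_univ _) (by
      rw [hw.mem_sp_iff hyy]
      intro h
      exact hye (hv.2 _ _ h).symm)
    rw [hw.mem_sp_iff (mem_insert_of_mem hyy)] at hr2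
    have hry : r ∉ sp N {y} := fun h => hR.not_mem r hr1 ((hw.mem_sp_iff hyy).2 h)
    have hre : e ∈ sp N (insert r {y}) := mem_sp_insert_exchange hr2 hry
    have hrH : r ∉ H := by
      intro hrH
      apply heH
      apply hH.mem
      refine sp_mono ?_ hre
      exact insert_subset hrH hyH
    have hyr : y ≠ r := fun h => hrH (h ▸ hy)
    rw [mem_image]
    refine ⟨⟨r, hr1⟩, ?_, ?_⟩
    · rw [mem_sdiff]
      refine ⟨mem_univ _, ?_⟩
      intro h
      exact hrH (mem_filter.1 h).2
    · apply cl_pair_eq hv hyr isFl_cl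
      · rw [rk_cl, hv.rk_pair hye]
      · exact subset_cl (by simp)
      · rw [mem_cl, pair_comm]
        exact hr2
  exact (card_le_card h5).trans card_image_le

end geom

end AbConeBAux

open AbConeBAux

variable {K E : Type*} [Field K] [Fintype K] [DecidableEq E] [Fintype E] {N : RF E}

/-- step (5) -/
theorem cone_ne_five (hK : Fintype.card K = 4) (hN : Simple N) (hq : RepC K N) (ht : Tight N)
    (h5 : rk N univ = 5) {H : Finset E} (hH : IsFl N H) (hr : rk N H = 4)
    (h0 : 0 < alpha N H) : (univ \ H).card ≠ 5 := by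
  classical
  have hv := hN
  intro hc
  have hne : H ≠ univ := fun h => by rw [h, h5] at hr; omega
  -- the size of `H`
  have hHc : 5 ≤ H.card := by
    obtain ⟨n, A, hA⟩ := ht.2.2 H hH hne
    obtain ⟨i, hi⟩ := heavy_self hA hH h0
    have h1 := hA.eq (empty_subset _) (Subset.refl _) hH
    have h2 : 1 ≤ cnt A H := CkFour.cnt_pos_iff.2 ⟨i, by rw [← hi]; exact subset_cl⟩
    omega
  -- pairs
  have hpair : ∀ y ∈ H, ∃ a b, a ∉ H ∧ b ∉ H ∧ a ≠ b ∧ y ∈ sp N {a, b} := by
    intro y hy
    have h7 : (lines N H y).card < (univ \ H).card := by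
      have := lines_le hK hv hq ht h5 hH hr h0 hy
      omega
    obtain ⟨c, hc, c', hc', hne, heq⟩ := exists_ne_map_eq_of_card_lt_of_maps_to h7
      (f := fun e => cl N {y, e}) (fun e he => mem_coe.2 (mem_image_of_mem _ he))
    refine ⟨c', c, (mem_sdiff.1 hc').2, (mem_sdiff.1 hc).2, hne.symm, ?_⟩
    have heq' : cl N {y, c} = cl N {y, c'} := heq
    have h8 : c' ∈ sp N {y, c} := by
      rw [← mem_cl, heq']
      exact subset_cl (by simp)
    have h9 : c' ∉ sp N {c} := by
      intro h
      exact hne (hv.2 _ _ h).symm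
    exact mem_sp_insert_exchange h8 h9
  set U := univ \ H with hUdef
  have hUH : ∀ z, z ∈ U ↔ z ∉ H := by
    intro z
    rw [hUdef, mem_sdiff]
    simp
  -- `U` is a basis
  have hU : Ind N U := by
    have h1 : sp N univ ≤ sp N U := by
      rw [sp_le_iff]
      intro e _
      by_cases he : e ∈ H
      · obtain ⟨a, b, ha, hb, -, hab⟩ := hpair e he
        exact sp_mono (insert_subset ((hUH a).2 ha) (singleton_subset_iff.2 ((hUH b).2 hb))) hab
      · exact mem_sp ((hUH e).2 he)
    have h2 := rk_le_of_sp_le h1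
    have h3 : rk N U ≤ U.card := rk_le_card
    unfold Ind
    omega
  have hex : ∀ y, ∃ P : Finset E, y ∈ H → P ⊆ U ∧ P.card = 2 ∧ y ∈ cl N P := by
    intro y
    by_cases hy : y ∈ H
    · obtain ⟨a, b, ha, hb, hab, h⟩ := hpair y hy
      exact ⟨{a, b}, fun _ => ⟨insert_subset ((hUH a).2 ha)
        (singleton_subset_iff.2 ((hUH b).2 hb)), card_pair hab, mem_cl.2 h⟩⟩
    · exact ⟨∅, fun h => absurd h hy⟩
  choose pr hprs using hex
  have h2 : ∀ y ∈ H, (pr y).card = 2 := fun y hy => (hprs y hy).2.1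
  have hprU : ∀ y ∈ H, pr y ⊆ U := fun y hy => (hprs y hy).1
  have hinj : ∀ y ∈ H, ∀ y' ∈ H, pr y = pr y' → y = y' := by
    intro y hy y' hy' h
    by_contra hcon
    have h1 := (hprs y hy).2.2
    have h3 := (hprs y' hy').2.2
    rw [← h] at h3
    obtain ⟨a, b, hab, hp⟩ := card_eq_two.1 (h2 y hy)
    have h4 := cl_pair_eq hv hcon (isFl_cl (X := pr y)) (by
      rw [rk_cl, hp, hv.rk_pair hab]) h1 h3
    have h6 : a ∈ cl N {y, y'} := by
      rw [h4, hp]
      exact subset_cl (by simp)
    have h7 : a ∈ U := hprU y hy (by rw [hp]; simp)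
    exact (hUH a).1 h7 (hH.cl_subset (insert_subset hy (singleton_subset_iff.2 hy')) h6)
  have hpr : ∀ y ∈ H, ∀ W ⊆ U, y ∈ cl N W ↔ pr y ⊆ W := by
    intro y hy W hW
    constructor
    · intro h
      have key : ∀ a b : E, a ≠ b → a ∈ U → b ∈ U → y ∈ cl N {a, b} → a ∈ W := by
        intro a b hab ha hb hyab
        by_contra haW
        rw [mem_cl] at hyab h
        have hyb : y ∉ sp N {b} := by
          intro h'
          have := hv.2 _ _ h'
          exact (hUH b).1 hb (this ▸ hy)
        have h1 := mem_sp_insert_exchange hyab hyb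
        have h3 : a ∈ sp N (insert b W) := by
          have h4 : sp N (insert y {b}) ≤ sp N (insert b W) := by
            rw [sp_le_iff]
            intro e he
            simp only [mem_insert, mem_singleton] at he
            rcases he with rfl | rfl
            · exact sp_mono (subset_insert _ _) h
            · exact mem_sp (mem_insert_self _ _)
          exact h4 h1
        refine hU.not_mem_sp_erase ha (sp_mono ?_ h3)
        intro w hw
        rcases mem_insert.1 hw with rfl | hw
        · exact mem_erase.2 ⟨hab.symm, hb⟩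
        · exact mem_erase.2 ⟨fun h' => haW (h' ▸ hw), hW hw⟩
      obtain ⟨a, b, hab, hp⟩ := card_eq_two.1 (h2 y hy)
      have h3 := (hprs y hy).2.2
      have ha : a ∈ U := hprU y hy (by rw [hp]; simp)
      have hb : b ∈ U := hprU y hy (by rw [hp]; simp)
      rw [hp] at h3 ⊢
      refine insert_subset (key a b hab ha hb h3) (singleton_subset_iff.2 (key b a hab.symm hb ha ?_))
      rw [pair_comm]
      exact h3
    · intro h
      exact cl_mono h (hprs y hy).2.2
  obtain ⟨X, p, q, y0, hXU, hp, hq, hpX, hqX, hpq, hy0, hpr0, c0, c1, c2, c3⟩ :=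
    Ca3.ConeBAux.comb hprU h2 hinj (by omega) (by rw [← card_pos]; omega)
  have hqpX : q ∉ insert p X := by
    rw [mem_insert]
    rintro (h | h)
    · exact hpq h.symm
    · exact hqX h
  have hTU : insert q (insert p X) ⊆ U := insert_subset hq (insert_subset hp hXU)
  have hTc : (insert q (insert p X)).card = X.card + 2 := by
    rw [card_insert_of_notMem hqpX, card_insert_of_notMem hpX]
  have hX3 : X.card + 2 ≤ 5 := by
    have := card_le_card hTU
    omega
  refine no_cycle hv hH hU hUH h2 hinj hpr hprU hXU hp hq hpX hqX hpq hy0 hpr0 c0 c1 c2 c3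
    (hv.ind_of_card_le_two (by omega)) ?_
  rcases (H.filter (fun y => pr y ⊆ X)).eq_empty_or_nonempty with he | ⟨z, hz⟩
  · rw [he]
    refine ht.2.2 _ isFl_cl (fun h => ?_)
    rw [he, card_empty] at c0
    have h1 : rk N (cl N (insert q (insert p X))) ≤ X.card + 2 := by
      rw [rk_cl, ← hTc]
      exact rk_le_card
    rw [h, h5] at h1
    omega
  · exact (ht.2.1 z).mono (singleton_subset_iff.2 hz) (subset_univ _)

end Ca3.Ab
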