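import Pool.Agent.Lib.MP_ca3eb1_co.AbBasic
import Pool.Agent.Lib.MP_ca3eb1_co.Reps

/-! # Restrict (Module M2c): restriction to a flat as a configuration on the subtype -/

set_option linter.unusedSectionVars false

namespace Ca3.Ab

open Finset

variable {E : Type*} [DecidableEq E] [Fintype E] {N : RF E} {Y T R F Z : Finset E}

private lemma re_mem_tr {F Z : Finset E} {r : F} : r ∈ tr F Z ↔ (r : E) ∈ Z := by
  simp [tr]

private lemma re_mem_map {F : Finset E} {Z : Finset F} {e : E} :
    e ∈ Z.map (Function.Embedding.subtype _) ↔ ∃ h : e ∈ F, (⟨e, h⟩ : F) ∈ Z := by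
  constructor
  · intro h
    obtain ⟨r, hr, rfl⟩ := mem_map.1 h
    exact ⟨r.2, hr⟩
  · rintro ⟨h, h'⟩
    exact mem_map.2 ⟨⟨e, h⟩, h', rfl⟩

private lemma re_map_tr {F Z : Finset E} (hZ : Z ⊆ F) :
    (tr F Z).map (Function.Embedding.subtype _) = Z := by
  ext e
  rw [re_mem_map]
  constructor
  · rintro ⟨h, h'⟩
    exact re_mem_tr.1 h'
  · intro h
    exact ⟨hZ h, re_mem_tr.2 h⟩

private lemma re_map_subset {F : Finset E} (Z : Finset F) :
    Z.map (Function.Embedding.subtype _) ⊆ F := by
  intro e he
  exact (re_mem_map.1 he).1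

private lemma re_tr_subset_iff {F A : Finset E} {Z : Finset F} (hA : A ⊆ F) :
    tr F A ⊆ Z ↔ A ⊆ Z.map (Function.Embedding.subtype _) := by
  constructor
  · intro h e he
    exact re_mem_map.2 ⟨hA he, h (re_mem_tr.2 he)⟩
  · intro h r hr
    obtain ⟨_, h'⟩ := re_mem_map.1 (h (re_mem_tr.1 hr))
    exact h'

@[simp] theorem rk_restrict {F : Finset E} (Z : Finset F) :
    rk (N.restrict F) Z = rk N (Z.map (Function.Embedding.subtype _)) := rfl

theorem mem_sp_restrict {F : Finset E} {Z : Finset F} {e : F} :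
    e ∈ sp (N.restrict F) Z ↔ (e : E) ∈ sp N (Z.map (Function.Embedding.subtype _)) := by
  rw [mem_sp_iff, mem_sp_iff, rk_restrict, rk_restrict, map_insert]
  rfl

theorem isFl_restrict {F : Finset E} (hF : IsFl N F) (Z : Finset F) :
    IsFl (N.restrict F) Z ↔ IsFl N (Z.map (Function.Embedding.subtype _)) := by
  constructor
  · intro h
    refine subset_antisymm (fun e he => ?_) subset_cl
    rw [mem_cl] at he
    have heF : e ∈ F := hF.mem (sp_mono (re_map_subset Z) he)
    refine re_mem_map.2 ⟨heF, h.mem ?_⟩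
    rw [mem_sp_restrict]
    exact he
  · intro h
    refine subset_antisymm (fun e he => ?_) subset_cl
    rw [mem_cl, mem_sp_restrict] at he
    obtain ⟨_, h'⟩ := re_mem_map.1 (h.mem he)
    exact h'

/-- Restriction of a Mason family to a flat, as a configuration on the subtype. -/
theorem SG_restrict {F : Finset E} (hF : IsFl N F) (hYF : Y ⊆ F) (hs : SG N Y F) :
    SG (N.restrict F) (tr F Y) univ := by
  classical
  obtain ⟨n, A, hA⟩ := hs
  have key : IsMason (N.restrict F) (tr F Y) univ
      (fun i : {i : Fin n // A i ⊆ F} => tr F (A i.1)) := by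
    intro Z hYZ _
    have h1 : Y ⊆ Z.map (Function.Embedding.subtype _) := (re_tr_subset_iff hYF).1 hYZ
    have hc : cnt (fun i : {i : Fin n // A i ⊆ F} => tr F (A i.1)) Z =
        cnt A (Z.map (Function.Embedding.subtype _)) := by
      unfold cnt
      apply card_bij (fun i _ => i.1)
      · intro i hi
        rw [mem_filter] at hi ⊢
        exact ⟨mem_univ _, (re_tr_subset_iff i.2).1 hi.2⟩
      · intro i _ j _ h
        exact Subtype.ext h
      · intro i hi
        rw [mem_filter] at hi
        refine ⟨⟨i, hi.2.trans (re_map_subset Z)⟩, ?_, rfl⟩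
        rw [mem_filter]
        exact ⟨mem_univ _, (re_tr_subset_iff (hi.2.trans (re_map_subset Z))).2 hi.2⟩
    rw [hc, rk_restrict, isFl_restrict hF, ← card_map (Function.Embedding.subtype _)]
    exact hA _ h1 (re_map_subset Z)
  exact key.sg

theorem SG_of_restrict {F : Finset E} (hF : IsFl N F) (hYF : Y ⊆ F)
    (hs : SG (N.restrict F) (tr F Y) univ) : SG N Y F := by
  classical
  obtain ⟨n, A, hA⟩ := hs
  refine ⟨n, fun i => (A i).map (Function.Embedding.subtype _), ?_⟩
  intro Z hYZ hZF
  have h1 : tr F Y ⊆ tr F Z := fun r hr => re_mem_tr.2 (hYZ (re_mem_tr.1 hr))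
  have hc : cnt (fun i => (A i).map (Function.Embedding.subtype _)) Z = cnt A (tr F Z) := by
    unfold cnt
    congr 1
    ext i
    rw [mem_filter, mem_filter]
    have h2 : (A i).map (Function.Embedding.subtype _) ⊆ Z ↔ A i ⊆ tr F Z := by
      conv_lhs => rw [← re_map_tr hZF]
      exact map_subset_map
    rw [h2]
  have h3 := hA (tr F Z) h1 (subset_univ _)
  rw [rk_restrict, isFl_restrict hF, ← card_map (Function.Embedding.subtype _),
    re_map_tr hZF] at h3
  rw [hc]
  exact h3

/-- Restricting a simple configuration. -/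
theorem Simple.restrict (h : Simple N) (F : Finset E) : Simple (N.restrict F) := by
  refine ⟨fun e => ?_, fun e f hef => Subtype.ext (h.2 e f ?_)⟩
  · rw [rk_restrict, map_singleton]
    exact h.1 e
  · rw [mem_sp_restrict, map_singleton] at hef
    exact hef

end Ca3.Ab
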