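import Pool.Agent.Lib.MP_ca3eb1_co.LemmaU

/-! # T8 for abstract rank functions (via `U_{4,6}`) -/

set_option linter.unusedSectionVars false

namespace Ca3.Ab

open Finset

variable {K E : Type*} [Field K] [Fintype K] [DecidableEq E] [Fintype E] {N : RF E}

/-- One more element outside a hyperplane: the rank is full. -/
theorem T8_full {H S : Finset E} (hH : IsFl N H) (hr : rk N H + 1 = rk N univ) (hS : S ⊆ H)
    (hrS : rk N S = rk N H) {a : E} (ha : a ∉ H) {W : Finset E} (hW : insert a S ⊆ W) :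
    rk N W = rk N univ := by
  have h1 : a ∉ sp N S := fun h => ha (hH.mem (sp_mono hS h))
  have h2 := rk_insert_of_not_mem_sp h1
  have h3 := rk_mono (N := N) hW
  have h4 := rk_mono (N := N) (subset_univ W)
  omega

/-- Paper, Claim of T8: some `I \ {i, j} ∪ X1 ∪ X2` does not span. -/
theorem T8_claim (hK : Fintype.card K = 4) (hN : Simple N) (hq : RepC K N)
    {H1 H2 : Finset E} (hH1 : IsFl N H1) (hH2 : IsFl N H2)
    (hr1 : rk N H1 + 1 = rk N univ) (hr2 : rk N H2 + 1 = rk N univ)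
    {I : Finset E} (hI : I ⊆ H1 ∩ H2) (hIi : Ind N I) (hIc : I.card + 2 = rk N univ)
    (hg4 : 4 ≤ I.card) {a1 b1 a2 b2 : E} (h12 : a1 ≠ b1) (h34 : a2 ≠ b2)
    (ha1 : a1 ∈ H1) (hb1 : b1 ∈ H1) (ha2 : a2 ∈ H2) (hb2 : b2 ∈ H2)
    (ha1' : a1 ∉ H2) (hb1' : b1 ∉ H2) (ha2' : a2 ∉ H1) (hb2' : b2 ∉ H1)
    (h1 : ∀ y ∈ I ∪ {a1, b1}, rk N ((I ∪ {a1, b1}).erase y) = rk N H1)
    (h2 : ∀ y ∈ I ∪ {a2, b2}, rk N ((I ∪ {a2, b2}).erase y) = rk N H2) :
    ∃ i ∈ I, ∃ j ∈ I, i ≠ j ∧ rk N ((I \ {i, j}) ∪ ({a1, b1} ∪ {a2, b2})) < rk N univ := by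
  classical
  by_contra hcon
  push Not at hcon
  have hI1 : ∀ e ∈ I, e ∈ H1 := fun e he => (mem_inter.1 (hI he)).1
  have hI2 : ∀ e ∈ I, e ∈ H2 := fun e he => (mem_inter.1 (hI he)).2
  have ha1I : a1 ∉ I := fun h => ha1' (hI2 _ h)
  have hb1I : b1 ∉ I := fun h => hb1' (hI2 _ h)
  have ha2I : a2 ∉ I := fun h => ha2' (hI1 _ h)
  have hb2I : b2 ∉ I := fun h => hb2' (hI1 _ h)
  have h13 : a1 ≠ a2 := fun h => ha1' (h ▸ ha2)
  have h14 : a1 ≠ b2 := fun h => ha1' (h ▸ hb2)
  have h23 : b1 ≠ a2 := fun h => hb1' (h ▸ ha2)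
  have h24 : b1 ≠ b2 := fun h => hb1' (h ▸ hb2)
  -- four elements of `I`
  obtain ⟨I4, hI4, hI4c⟩ := exists_subset_card_eq hg4
  obtain ⟨n, w, hw⟩ := hq a1
  obtain ⟨Z, hZ⟩ : ∃ Z, Z = insert a2 (I \ I4) := ⟨_, rfl⟩
  obtain ⟨T, hT⟩ : ∃ T, T = insert b1 (insert b2 I4) := ⟨_, rfl⟩
  have hb2I4 : b2 ∉ I4 := fun h => hb2I (hI4 h)
  have hb1I4 : b1 ∉ insert b2 I4 := by
    rw [mem_insert, not_or]
    exact ⟨h24, fun h => hb1I (hI4 h)⟩
  have hTc : T.card = 6 := by
    rw [hT, card_insert_of_notMem hb1I4, card_insert_of_notMem hb2I4, hI4c]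
  have hZc : Z.card = I.card - 3 := by
    have h3 : a2 ∉ I \ I4 := fun h => ha2I (mem_sdiff.1 h).1
    have h4 := card_sdiff_add_card_eq_card hI4
    rw [hZ, card_insert_of_notMem h3]
    omega
  have hZT : Disjoint Z T := by
    rw [disjoint_left]
    intro e he he'
    rw [hZ, mem_insert, mem_sdiff] at he
    rw [hT, mem_insert, mem_insert] at he'
    rcases he with rfl | ⟨he1, he2⟩
    · rcases he' with h | h | h
      · exact h23 h.symm
      · exact h34 h
      · exact ha2I (hI4 h)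
    · rcases he' with rfl | rfl | h
      · exact hb1I he1
      · exact hb2I he1
      · exact he2 h
  have ha1ZT : a1 ∉ Z ∪ T := by
    rw [mem_union, hZ, hT]
    simp only [mem_insert, mem_sdiff, not_or]
    exact ⟨⟨h13, fun h => ha1I h.1⟩, h12, h14, fun h => ha1I (hI4 h)⟩
  -- the rank of the large set
  have hbig : Ca3.rk K w (Z ∪ T) ≤ Z.card + 4 := by
    have h3 := hw (Z ∪ T)
    have h4 := rk_mono (N := N) (subset_univ (insert a1 (Z ∪ T)))
    rw [hN.1 a1] at h3
    omega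
  refine no_U46 hK (v := w) (Z := Z) (T := T) hTc hZT hbig ?_
  intro W hWT hWc
  have hdis : Disjoint Z W := disjoint_of_subset_right hWT hZT
  have hUc : (Z ∪ W).card + 1 = rk N univ := by
    rw [card_union_of_disjoint hdis, hZc, hWc]
    omega
  -- it suffices that the set spans
  suffices hfull : rk N (insert a1 (Z ∪ W)) = rk N univ by
    have h3 := hw (Z ∪ W)
    rw [hN.1 a1, hfull] at h3
    show Ca3.rk K w (Z ∪ W) = (Z ∪ W).card
    omega
  -- the two missing elements of `T`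
  have hmiss : (T \ W).card = 2 := by
    have := card_sdiff_add_card_eq_card hWT
    omega
  have hmem : ∀ e, e ∈ T → e ∉ T \ W → e ∈ W := by
    intro e he he'
    by_contra hc
    exact he' (mem_sdiff.2 ⟨he, hc⟩)
  have hIin : ∀ e ∈ I, e ∉ T \ W → e ∈ insert a1 (Z ∪ W) := by
    intro e he he'
    rw [mem_insert, mem_union]
    by_cases h4 : e ∈ I4
    · exact Or.inr (Or.inr (hmem e (by rw [hT]; simp [h4]) he'))
    · exact Or.inr (Or.inl (by rw [hZ, mem_insert, mem_sdiff]; exact Or.inr ⟨he, h4⟩))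
  have ha1in : a1 ∈ insert a1 (Z ∪ W) := mem_insert_self _ _
  have ha2in : a2 ∈ insert a1 (Z ∪ W) := by
    rw [mem_insert, mem_union, hZ, mem_insert]
    exact Or.inr (Or.inl (Or.inl rfl))
  have hTm : ∀ e ∈ T, e = b1 ∨ e = b2 ∨ e ∈ I4 := by
    intro e he
    rw [hT, mem_insert, mem_insert] at he
    exact he
  have hb1T : b1 ∈ T := by rw [hT]; exact mem_insert_self _ _
  have hb2T : b2 ∈ T := by rw [hT]; exact mem_insert_of_mem (mem_insert_self _ _)
  by_cases hm1 : b1 ∈ T \ W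
  · by_cases hm2 : b2 ∈ T \ W
    · -- everything of `I` is there, with `a1` and `a2`
      have hTW : T \ W = {b1, b2} := by
        symm
        apply eq_of_subset_of_card_le
        · intro e he
          rw [mem_insert, mem_singleton] at he
          rcases he with rfl | rfl
          · exact hm1
          · exact hm2
        · rw [hmiss, card_pair h24]
      have h3 := h1 b1 (by simp)
      have h4 : (I ∪ {a1, b1}).erase b1 ⊆ H1 := by
        intro e he
        rw [mem_erase, mem_union, mem_insert, mem_singleton] at he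
        rcases he.2 with h | rfl | rfl
        · exact hI1 e h
        · exact ha1
        · exact hb1
      refine T8_full hH1 hr1 h4 h3 ha2' ?_
      intro e he
      rw [mem_insert, mem_erase, mem_union, mem_insert, mem_singleton] at he
      rcases he with rfl | ⟨he1, h | rfl | rfl⟩
      · exact ha2in
      · refine hIin e h ?_
        rw [hTW, mem_insert, mem_singleton, not_or]
        exact ⟨he1, fun h' => hb2I (h' ▸ h)⟩
      · exact ha1in
      · exact absurd rfl he1
    · -- missing: `b1` and an element `i` of `I4`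
      have hb2W : b2 ∈ W := hmem b2 hb2T hm2
      obtain ⟨i, hi⟩ : ∃ i, T \ W = {b1, i} ∧ i ≠ b1 := by
        obtain ⟨x, y, hxy, hxy'⟩ := card_eq_two.1 hmiss
        rw [hxy', mem_insert, mem_singleton] at hm1
        rcases hm1 with rfl | rfl
        · exact ⟨y, hxy', hxy.symm⟩
        · exact ⟨x, by rw [hxy', pair_comm], hxy⟩
      obtain ⟨hTW, hib⟩ := hi
      have hiT : i ∈ T \ W := by rw [hTW]; simp
      have hiI4 : i ∈ I4 := by
        rcases hTm i (mem_sdiff.1 hiT).1 with h | h | h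
        · exact absurd h hib
        · exact absurd (h ▸ hiT) hm2
        · exact h
      have hiI := hI4 hiI4
      have h3 := h2 i (mem_union_left _ hiI)
      have h4 : (I ∪ {a2, b2}).erase i ⊆ H2 := by
        intro e he
        rw [mem_erase, mem_union, mem_insert, mem_singleton] at he
        rcases he.2 with h | rfl | rfl
        · exact hI2 e h
        · exact ha2
        · exact hb2
      refine T8_full hH2 hr2 h4 h3 ha1' ?_
      intro e he
      rw [mem_insert, mem_erase, mem_union, mem_insert, mem_singleton] at he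
      rcases he with rfl | ⟨he1, h | rfl | rfl⟩
      · exact ha1in
      · refine hIin e h ?_
        rw [hTW, mem_insert, mem_singleton, not_or]
        exact ⟨fun h' => hb1I (h' ▸ h), he1⟩
      · exact ha2in
      · rw [mem_insert, mem_union]
        exact Or.inr (Or.inr hb2W)
  · have hb1W : b1 ∈ W := hmem b1 hb1T hm1
    by_cases hm2 : b2 ∈ T \ W
    · obtain ⟨i, hi⟩ : ∃ i, T \ W = {b2, i} ∧ i ≠ b2 := by
        obtain ⟨x, y, hxy, hxy'⟩ := card_eq_two.1 hmiss
        rw [hxy', mem_insert, mem_singleton] at hm2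
        rcases hm2 with rfl | rfl
        · exact ⟨y, hxy', hxy.symm⟩
        · exact ⟨x, by rw [hxy', pair_comm], hxy⟩
      obtain ⟨hTW, hib⟩ := hi
      have hiT : i ∈ T \ W := by rw [hTW]; simp
      have hiI4 : i ∈ I4 := by
        rcases hTm i (mem_sdiff.1 hiT).1 with h | h | h
        · exact absurd (h ▸ hiT) hm1
        · exact absurd h hib
        · exact h
      have hiI := hI4 hiI4
      have h3 := h1 i (mem_union_left _ hiI)
      have h4 : (I ∪ {a1, b1}).erase i ⊆ H1 := by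
        intro e he
        rw [mem_erase, mem_union, mem_insert, mem_singleton] at he
        rcases he.2 with h | rfl | rfl
        · exact hI1 e h
        · exact ha1
        · exact hb1
      refine T8_full hH1 hr1 h4 h3 ha2' ?_
      intro e he
      rw [mem_insert, mem_erase, mem_union, mem_insert, mem_singleton] at he
      rcases he with rfl | ⟨he1, h | rfl | rfl⟩
      · exact ha2in
      · refine hIin e h ?_
        rw [hTW, mem_insert, mem_singleton, not_or]
        exact ⟨fun h' => hb2I (h' ▸ h), he1⟩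
      · exact ha1in
      · rw [mem_insert, mem_union]
        exact Or.inr (Or.inr hb1W)
    · -- missing: two elements of `I4`
      have hb2W : b2 ∈ W := hmem b2 hb2T hm2
      obtain ⟨i, j, hij, hTW⟩ := card_eq_two.1 hmiss
      have hiT : i ∈ T \ W := by rw [hTW]; simp
      have hjT : j ∈ T \ W := by rw [hTW]; simp
      have hiI4 : i ∈ I4 := by
        rcases hTm i (mem_sdiff.1 hiT).1 with h | h | h
        · exact absurd (h ▸ hiT) hm1
        · exact absurd (h ▸ hiT) hm2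
        · exact h
      have hjI4 : j ∈ I4 := by
        rcases hTm j (mem_sdiff.1 hjT).1 with h | h | h
        · exact absurd (h ▸ hjT) hm1
        · exact absurd (h ▸ hjT) hm2
        · exact h
      have h3 := hcon i (hI4 hiI4) j (hI4 hjI4) hij
      refine le_antisymm (rk_mono (subset_univ _)) (h3.trans (rk_mono ?_))
      intro e he
      rw [mem_union, mem_sdiff, mem_union, mem_insert, mem_singleton, mem_insert, mem_singleton,
        mem_insert, mem_singleton] at he
      rcases he with ⟨h, h'⟩ | (rfl | rfl) | (rfl | rfl)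
      · refine hIin e h ?_
        rw [hTW, mem_insert, mem_singleton]
        exact h'
      · exact ha1in
      · rw [mem_insert, mem_union]
        exact Or.inr (Or.inr hb1W)
      · exact ha2in
      · rw [mem_insert, mem_union]
        exact Or.inr (Or.inr hb2W)

/-- the hypothesis about `X1`, `X2` is the conclusion of `T7` for the heavy hyperplanes
`H1`, `H2` and `G = H1 ∩ H2`. -/
theorem T8 (hK : Fintype.card K = 4) (hN : Simple N) (hq : RepC K N)
    (hs : ∀ x, SG N {x} univ)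
    {H1 H2 : Finset E} (hH1 : IsFl N H1) (hH2 : IsFl N H2)
    (hr1 : rk N H1 + 1 = rk N univ) (hr2 : rk N H2 + 1 = rk N univ)
    (hg : rk N (H1 ∩ H2) + 2 = rk N univ) (hg4 : 4 ≤ rk N (H1 ∩ H2))
    {X1 X2 : Finset E} (hX1 : X1 ⊆ H1 \ (H1 ∩ H2)) (hX2 : X2 ⊆ H2 \ (H1 ∩ H2))
    (hc1 : X1.card = 2) (hc2 : X2.card = 2)
    (h1 : ∀ I ⊆ H1 ∩ H2, Ind N I → sp N I = sp N (H1 ∩ H2) →
        ∀ y ∈ I ∪ X1, rk N ((I ∪ X1).erase y) = rk N H1)
    (h2 : ∀ I ⊆ H1 ∩ H2, Ind N I → sp N I = sp N (H1 ∩ H2) →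
        ∀ y ∈ I ∪ X2, rk N ((I ∪ X2).erase y) = rk N H2) : False := by
  classical
  obtain ⟨a1, b1, h12, rfl⟩ := card_eq_two.1 hc1
  obtain ⟨a2, b2, h34, rfl⟩ := card_eq_two.1 hc2
  obtain ⟨I, hI, hIi, hIs⟩ := exists_basis (N := N) (H1 ∩ H2)
  have hIc : I.card = rk N (H1 ∩ H2) := by rw [← hIi.rk_eq_card, rk_congr hIs]
  have m1 : ∀ e ∈ ({a1, b1} : Finset E), e ∈ H1 ∧ e ∉ H2 := by
    intro e he
    have h3 := hX1 he
    rw [mem_sdiff, mem_inter] at h3
    exact ⟨h3.1, fun h => h3.2 ⟨h3.1, h⟩⟩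
  have m2 : ∀ e ∈ ({a2, b2} : Finset E), e ∈ H2 ∧ e ∉ H1 := by
    intro e he
    have h3 := hX2 he
    rw [mem_sdiff, mem_inter] at h3
    exact ⟨h3.1, fun h => h3.2 ⟨h, h3.1⟩⟩
  have ha1 := m1 a1 (by simp)
  have hb1 := m1 b1 (by simp)
  have ha2 := m2 a2 (by simp)
  have hb2 := m2 b2 (by simp)
  obtain ⟨i, hi, j, hj, hij, hlt⟩ := T8_claim hK hN hq hH1 hH2 hr1 hr2 hI hIi (by omega) (by omega)
    h12 h34 ha1.1 hb1.1 ha2.1 hb2.1 ha1.2 hb1.2 ha2.2 hb2.2 (h1 I hI hIi hIs) (h2 I hI hIi hIs)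
  obtain ⟨Y, hY⟩ : ∃ Y, Y = I \ {i, j} := ⟨_, rfl⟩
  rw [← hY] at hlt
  have hYI : Y ⊆ I := by rw [hY]; exact sdiff_subset
  have hYc : Y.card + 2 = I.card := by
    have h3 : ({i, j} : Finset E) ⊆ I := by
      intro e he
      rw [mem_insert, mem_singleton] at he
      rcases he with rfl | rfl
      · exact hi
      · exact hj
    have h4 := card_sdiff_add_card_eq_card h3
    rw [← hY, card_pair hij] at h4
    exact h4
  obtain ⟨Φ, hΦ⟩ : ∃ Φ, Φ = cl N (Y ∪ ({a1, b1} ∪ {a2, b2})) := ⟨_, rfl⟩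
  have hΦf : IsFl N Φ := by rw [hΦ]; exact isFl_cl
  have hΦs : Y ∪ ({a1, b1} ∪ {a2, b2}) ⊆ Φ := by rw [hΦ]; exact subset_cl
  have hΦr : rk N Φ < rk N univ := by rw [hΦ, rk_cl]; exact hlt
  -- `Y ∪ X` is independent of size `k - 2`
  have hind : ∀ a b : E, a ≠ b → a ∉ I → b ∉ I → ∀ H : Finset E, rk N H + 1 = rk N univ →
      (∀ y ∈ I ∪ {a, b}, rk N ((I ∪ {a, b}).erase y) = rk N H) → rk N (Y ∪ {a, b}) + 2 = rk N univ := by
    intro a b hab haI hbI H hH h3
    have h4 := h3 i (mem_union_left _ hi)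
    have hdis : Disjoint I {a, b} := by
      rw [disjoint_left]
      intro e he he'
      rw [mem_insert, mem_singleton] at he'
      rcases he' with rfl | rfl
      · exact haI he
      · exact hbI he
    have hc : ((I ∪ {a, b}).erase i).card + 1 = rk N univ := by
      rw [card_erase_of_mem (mem_union_left _ hi), card_union_of_disjoint hdis, card_pair hab]
      omega
    have h5 : Ind N ((I ∪ {a, b}).erase i) := by
      show rk N _ = _
      omega
    have h6 : Y ∪ {a, b} ⊆ (I ∪ {a, b}).erase i := by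
      intro e he
      rw [mem_union] at he
      rw [mem_erase]
      rcases he with he | he
      · refine ⟨?_, mem_union_left _ (hYI he)⟩
        rintro rfl
        rw [hY, mem_sdiff] at he
        exact he.2 (by simp)
      · refine ⟨?_, mem_union_right _ he⟩
        rintro rfl
        rw [mem_insert, mem_singleton] at he
        rcases he with rfl | rfl
        · exact haI hi
        · exact hbI hi
    have h7 := (h5.subset h6).rk_eq_card
    have h8 : Disjoint Y {a, b} := disjoint_of_subset_left hYI hdis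
    rw [h7, card_union_of_disjoint h8, card_pair hab]
    omega
  have hI1 : ∀ e ∈ I, e ∈ H1 := fun e he => (mem_inter.1 (hI he)).1
  have hI2 : ∀ e ∈ I, e ∈ H2 := fun e he => (mem_inter.1 (hI he)).2
  have hY1 := hind a1 b1 h12 (fun h => ha1.2 (hI2 _ h)) (fun h => hb1.2 (hI2 _ h)) H1 hr1 (h1 I hI hIi hIs)
  have hY2 := hind a2 b2 h34 (fun h => ha2.2 (hI1 _ h)) (fun h => hb2.2 (hI1 _ h)) H2 hr2 (h2 I hI hIi hIs)
  have s1 : Y ∪ {a1, b1} ⊆ H1 ∩ Φ := by
    intro e he
    rw [mem_inter]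
    rw [mem_union] at he
    rcases he with he | he
    · exact ⟨hI1 e (hYI he), hΦs (mem_union_left _ he)⟩
    · exact ⟨(m1 e he).1, hΦs (mem_union_right _ (mem_union_left _ he))⟩
  have s2 : Y ∪ {a2, b2} ⊆ H2 ∩ Φ := by
    intro e he
    rw [mem_inter]
    rw [mem_union] at he
    rcases he with he | he
    · exact ⟨hI2 e (hYI he), hΦs (mem_union_left _ he)⟩
    · exact ⟨(m2 e he).1, hΦs (mem_union_right _ (mem_union_right _ he))⟩
  have t1 := rk_mono (N := N) s1
  have t2 := rk_mono (N := N) s2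
  have ha1Φ : a1 ∈ Φ := hΦs (by simp)
  have ha2Φ : a2 ∈ Φ := hΦs (by simp)
  -- `Φ` is a hyperplane, `H1 ∩ Φ` has rank `k - 2`
  have t3 : rk N (H1 ∩ Φ) < rk N Φ := by
    apply (hH1.inter hΦf).rk_lt_of_ssubset
    rw [Finset.ssubset_iff_subset_ne]
    refine ⟨inter_subset_right, fun h => ?_⟩
    rw [← h] at ha2Φ
    exact ha2.2 (mem_inter.1 ha2Φ).1
  have t4 : rk N (H1 ∩ Φ ∩ H2) < rk N (H1 ∩ Φ) := by
    apply ((hH1.inter hΦf).inter hH2).rk_lt_of_ssubset
    rw [Finset.ssubset_iff_subset_ne]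
    refine ⟨inter_subset_left, fun h => ?_⟩
    have h3 : a1 ∈ H1 ∩ Φ := mem_inter.2 ⟨ha1.1, ha1Φ⟩
    rw [← h] at h3
    exact ha1.2 (mem_inter.1 h3).2
  have t5 : rk N (H1 ∪ H2 ∪ Φ) = rk N univ := by
    refine T8_full hH1 hr1 (subset_refl H1) rfl ha2.2 ?_
    intro e he
    rw [mem_insert] at he
    rw [mem_union, mem_union]
    rcases he with rfl | he
    · exact Or.inl (Or.inr ha2.1)
    · exact Or.inl (Or.inl he)
  obtain ⟨x, hx⟩ : ∃ x, x ∈ Y := by
    apply card_pos.1
    omega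
  have m3 := M3 (hs x) hH1 hH2 hΦf (by
      rw [singleton_subset_iff]; exact hI1 x (hYI hx)) (by
      rw [singleton_subset_iff]; exact hI2 x (hYI hx)) (by
      rw [singleton_subset_iff]; exact hΦs (mem_union_left _ hx)) (subset_univ _)
  have e1 : H1 ∩ Φ ∩ H2 = H1 ∩ H2 ∩ Φ := by
    ext e
    simp only [mem_inter]
    tauto
  rw [e1] at t4
  -- a basis of `G ∩ Φ`, extended to a basis of `G`
  obtain ⟨I', hI'1, hI'2, hI'3⟩ := exists_basis (N := N) (H1 ∩ H2 ∩ Φ)
  obtain ⟨J, hJ1, hJ2, hJ3, hJ4⟩ := exists_basis_extend hI'2 (hI'1.trans inter_subset_left)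
  have hI'c : I'.card = rk N (H1 ∩ H2 ∩ Φ) := by rw [← hI'2.rk_eq_card, rk_congr hI'3]
  have hJc : J.card = rk N (H1 ∩ H2) := by rw [← hJ3.rk_eq_card, rk_congr hJ4]
  obtain ⟨y, hy1, hy2⟩ : ∃ y ∈ J, y ∉ I' := by
    by_contra hc
    push Not at hc
    have := card_le_card (fun e he => hc e he : J ⊆ I')
    omega
  have hJI : J.erase y ⊆ I' := by
    have h3 : I' ⊆ J.erase y := fun e he => mem_erase.2 ⟨fun h => hy2 (h ▸ he), hJ1 he⟩
    have h4 : (J.erase y).card ≤ I'.card := by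
      rw [card_erase_of_mem hy1]
      omega
    rw [eq_of_subset_of_card_le h3 h4]
  have h3 := h1 J hJ2 hJ3 hJ4 y (mem_union_left _ hy1)
  have h4 : (J ∪ {a1, b1}).erase y ⊆ H1 ∩ Φ := by
    intro e he
    rw [mem_erase, mem_union] at he
    rcases he.2 with h | h
    · have h5 := hI'1 (hJI (mem_erase.2 ⟨he.1, h⟩))
      rw [mem_inter, mem_inter] at h5
      exact mem_inter.2 ⟨h5.1.1, h5.2⟩
    · exact s1 (mem_union_right _ h)
  have h5 := rk_mono (N := N) h4
  omega

end Ca3.Ab
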