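import Pool.Agent.Lib.MP_ca3eb1_co.P4lib

/-! # Module M7b: two heavy planes in rank 4 do not meet in exactly one element -/

set_option linter.unusedSectionVars false

namespace Ca3

open Finset Submodule

theorem P4o_split {E ι : Type*} [DecidableEq E] [Fintype ι] (A : ι → Finset E)
    (P1 P2 Q : Finset E) (h0 : ∀ i, A i ⊆ P1 → ¬ A i ⊆ P2) :
    cnt A Q = cnt A (Q ∩ P1) + cnt A (Q ∩ P2) +
      (univ.filter (fun i => A i ⊆ Q ∧ ¬ A i ⊆ P1 ∧ ¬ A i ⊆ P2)).card := by
  classical
  unfold cnt
  have hd1 : Disjoint (univ.filter (fun i => A i ⊆ Q ∩ P1))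
      (univ.filter (fun i => A i ⊆ Q ∩ P2)) := by
    rw [disjoint_left]
    intro i hi hi'
    rw [mem_filter, subset_inter_iff] at hi hi'
    exact h0 i hi.2.2 hi'.2.2
  have hd2 : Disjoint (univ.filter (fun i => A i ⊆ Q ∩ P1) ∪ univ.filter (fun i => A i ⊆ Q ∩ P2))
      (univ.filter (fun i => A i ⊆ Q ∧ ¬ A i ⊆ P1 ∧ ¬ A i ⊆ P2)) := by
    rw [disjoint_left]
    intro i hi hi'
    rw [mem_union, mem_filter, mem_filter, subset_inter_iff, subset_inter_iff] at hi
    rw [mem_filter] at hi'
    rcases hi with hi | hi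
    · exact hi'.2.2.1 hi.2.2
    · exact hi'.2.2.2 hi.2.2
  rw [← card_union_of_disjoint hd1, ← card_union_of_disjoint hd2]
  congr 1
  ext i
  rw [mem_union, mem_union, mem_filter, mem_filter, mem_filter, mem_filter, subset_inter_iff,
    subset_inter_iff]
  simp only [mem_univ, true_and]
  tauto

variable {K V E : Type*} [Field K] [Fintype K] [AddCommGroup V] [Module K V]
  [FiniteDimensional K V] [Fintype E] [DecidableEq E]

/-- three further elements of a heavy plane, no three collinear together with `o` -/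
theorem P4o_three {v : E → V} (hv : Simple K v) {n : ℕ} {A : Fin n → Finset E}
    (hA : IsMason K v ∅ univ A) {P : Finset E} (hP : IsFl K v P) (hr : rk K v P = 3)
    (hi : ∃ i, cl K v (A i) = P) {o : E} (ho : o ∈ P) (h4 : 4 ≤ P.card) (h5 : P.card ≤ 5) :
    ∃ T ⊆ P.erase o, T.card = 3 ∧ ∀ F, IsFl K v F → F ⊆ P → rk K v F ≤ 2 →
      (F ∩ insert o T).card ≤ 2 := by
  classical
  obtain ⟨i1, hi1⟩ := hi
  have hco : (P.erase o).card + 1 = P.card := card_erase_add_one ho
  have nP := hA.eq (empty_subset _) (subset_univ P) hP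
  have hi1P : A i1 ⊆ P := hi1 ▸ subset_cl
  have hnot : ∀ F, IsFl K v F → F ⊆ P → rk K v F ≤ 2 → ¬ A i1 ⊆ F := by
    intro F hF hFP hF2 hsub
    have h6 : cl K v (A i1) ⊆ F := hF.cl_subset hsub
    rw [hi1] at h6
    have := rk_mono (K := K) (v := v) h6
    omega
  by_cases hbad : ∃ F0, IsFl K v F0 ∧ F0 ⊆ P ∧ rk K v F0 ≤ 2 ∧ 3 ≤ F0.card
  · obtain ⟨F0, hF0, hF0P, hF02, hF03⟩ := hbad
    have mem_of : ∀ F, IsFl K v F → F ⊆ P → rk K v F ≤ 2 → 3 ≤ F.card → ∃ j, A j ⊆ F := by
      intro F hF hFP hF2 hF3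
      have h7 := hA.eq (empty_subset _) (subset_univ F) hF
      have h8 : 0 < cnt A F := by omega
      obtain ⟨j, hj⟩ := card_pos.1 h8
      exact ⟨j, (mem_filter.1 hj).2⟩
    obtain ⟨j0, hj0⟩ := mem_of F0 hF0 hF0P hF02 hF03
    have huniq : ∀ F, IsFl K v F → F ⊆ P → rk K v F ≤ 2 → ∀ j, A j ⊆ F → j = j0 := by
      intro F hF hFP hF2 j hj
      by_contra hne
      have hsub : ({i1, j, j0} : Finset (Fin n)) ⊆ univ.filter (fun i => A i ⊆ P) := by
        intro k hk
        rw [mem_insert, mem_insert, mem_singleton] at hk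
        rw [mem_filter]
        refine ⟨mem_univ _, ?_⟩
        rcases hk with rfl | rfl | rfl
        · exact hi1P
        · exact hj.trans hFP
        · exact hj0.trans hF0P
      have hc := card_le_card hsub
      have h1 : i1 ≠ j := by
        rintro rfl
        exact hnot F hF hFP hF2 hj
      have h2 : i1 ≠ j0 := by
        rintro rfl
        exact hnot F0 hF0 hF0P hF02 hj0
      rw [card_insert_of_notMem (by
        rw [mem_insert, mem_singleton]
        rintro (h | h)
        · exact h1 h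
        · exact h2 h), card_insert_of_notMem (by
        rw [mem_singleton]
        exact hne), card_singleton] at hc
      unfold cnt at nP
      omega
    have hle3 : ∀ F, IsFl K v F → F ⊆ P → rk K v F ≤ 2 → F.card ≤ 3 := by
      intro F hF hFP hF2
      have h7 := hA.eq (empty_subset _) (subset_univ F) hF
      have h8 : cnt A F ≤ 1 := by
        unfold cnt
        rw [card_le_one]
        intro a ha b hb
        rw [huniq F hF hFP hF2 a (mem_filter.1 ha).2, huniq F hF hFP hF2 b (mem_filter.1 hb).2]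
      omega
    have hP5 : P.card = 5 := by
      have hsub : ({i1, j0} : Finset (Fin n)) ⊆ univ.filter (fun i => A i ⊆ P) := by
        intro k hk
        rw [mem_insert, mem_singleton] at hk
        rw [mem_filter]
        refine ⟨mem_univ _, ?_⟩
        rcases hk with rfl | rfl
        · exact hi1P
        · exact hj0.trans hF0P
      have hc := card_le_card hsub
      have h2 : i1 ≠ j0 := by
        rintro rfl
        exact hnot F0 hF0 hF0P hF02 hj0
      rw [card_insert_of_notMem (by
        rw [mem_singleton]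
        exact h2), card_singleton] at hc
      unfold cnt at nP
      omega
    obtain ⟨a, ha, hao⟩ : ∃ a ∈ F0, a ≠ o := exists_mem_ne (by omega) o
    have haP : a ∈ P.erase o := mem_erase.2 ⟨hao, hF0P ha⟩
    refine ⟨(P.erase o).erase a, erase_subset _ _, ?_, ?_⟩
    · rw [card_erase_of_mem haP]
      omega
    · intro F hF hFP hF2
      by_cases hF3 : 3 ≤ F.card
      · obtain ⟨j, hj⟩ := mem_of F hF hFP hF2 hF3
        have hjj := huniq F hF hFP hF2 j hj
        rw [hjj] at hj
        have hc1 : 1 ≤ cnt A (F ∩ F0) :=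
          card_pos.2 ⟨j0, mem_filter.2 ⟨mem_univ _, subset_inter hj hj0⟩⟩
        have h9 := three_of_cnt hv hA (hF.inter hF0)
          ((rk_mono (K := K) (v := v) inter_subset_left).trans hF2) hc1
        have h10 := hle3 F hF hFP hF2
        have h11 := hle3 F0 hF0 hF0P hF02
        have h12 : F ∩ F0 = F := eq_of_subset_of_card_le inter_subset_left (by omega)
        have h13 : F ∩ F0 = F0 := eq_of_subset_of_card_le inter_subset_right (by omega)
        have h14 : F = F0 := h12.symm.trans h13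
        have hsub : F ∩ insert o ((P.erase o).erase a) ⊆ F0.erase a := by
          intro x hx
          rw [mem_inter] at hx
          rw [mem_erase]
          refine ⟨?_, h14 ▸ hx.1⟩
          rcases mem_insert.1 hx.2 with h | h
          · rw [h]
            exact hao.symm
          · exact (mem_erase.1 h).1
        have h15 := card_le_card hsub
        rw [card_erase_of_mem ha] at h15
        omega
      · have h16 := card_le_card (inter_subset_left (s₁ := F)
          (s₂ := insert o ((P.erase o).erase a)))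
        omega
  · obtain ⟨T, hT, hTc⟩ := exists_subset_card_eq (show 3 ≤ (P.erase o).card by omega)
    refine ⟨T, hT, hTc, ?_⟩
    intro F hF hFP hF2
    have h16 := card_le_card (inter_subset_left (s₁ := F) (s₂ := insert o T))
    by_contra hcon
    exact hbad ⟨F, hF, hFP, hF2, by omega⟩

/-- the three pairs have three different traces on `m`, none of them is `o` -/
theorem P4o_traces {v : E → V} (hv : Simple K v) {m : Submodule K V}
    (hm : Module.finrank K m = 2) {P : Finset E} (hmP : m ≤ sp K v P) (hr : rk K v P = 3)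
    (hP : IsFl K v P) {o : E} (ho : o ∈ P) {T : Finset E} (hT : T ⊆ P.erase o)
    (hTc : T.card = 3) (hTm : ∀ a ∈ T, v a ∉ m)
    (h3 : ∀ F, IsFl K v F → F ⊆ P → rk K v F ≤ 2 → (F ∩ insert o T).card ≤ 2)
    [DecidableEq (Submodule K V)] :
    ((T.powersetCard 2).image (fun p => sp K v p ⊓ m)).card = 3 ∧
    ∀ p ∈ T.powersetCard 2, Module.finrank K (sp K v p ⊓ m : Submodule K V) = 1 ∧
      sp K v p ⊓ m ≠ span K {v o} ∧ o ∉ cl K v p := by
  have hTP : T ⊆ P := hT.trans (erase_subset _ _)
  have hoT : o ∉ T := fun h => (mem_erase.1 (hT h)).1 rfl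
  have hcl : ∀ p ∈ T.powersetCard 2, o ∉ cl K v p := by
    intro p hp ho'
    obtain ⟨hp1, hp2⟩ := mem_powersetCard.1 hp
    have h4 := h3 (cl K v p) isFl_cl (hP.cl_subset (hp1.trans hTP))
      (by rw [rk_cl, ← hp2]; exact rk_le_card)
    have h5 : insert o p ⊆ cl K v p ∩ insert o T := by
      apply subset_inter
      · exact insert_subset ho' subset_cl
      · exact insert_subset_insert o hp1
    have h6 := card_le_card h5
    rw [card_insert_of_notMem (fun h => hoT (hp1 h))] at h6
    omega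
  have hf : ∀ p ∈ T.powersetCard 2,
      Module.finrank K (sp K v p ⊓ m : Submodule K V) = 1 := by
    intro p hp
    obtain ⟨hp1, hp2⟩ := mem_powersetCard.1 hp
    obtain ⟨a, ha⟩ := card_pos.1 (by omega : 0 < p.card)
    exact q_finrank hv hm hmP hr (hp1.trans hTP) hp2 ⟨a, ha, hTm a (hp1 ha)⟩
  refine ⟨?_, fun p hp => ⟨hf p hp, ?_, hcl p hp⟩⟩
  · rw [card_image_of_injOn, card_powersetCard, hTc]
    · rfl
    · intro p hp p' hp' heq
      have hp0 := mem_coe.1 hp
      have hp0' := mem_coe.1 hp'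
      obtain ⟨hp1, hp2⟩ := mem_powersetCard.1 hp0
      obtain ⟨hp1', hp2'⟩ := mem_powersetCard.1 hp0'
      by_contra hne
      have hcu : (p ∪ p').card ≤ 3 := hTc ▸ card_le_card (union_subset hp1 hp1')
      have hci := card_union_add_card_inter p p'
      obtain ⟨a, ha⟩ := card_pos.1 (by omega : 0 < (p ∩ p').card)
      obtain ⟨ha1, ha2⟩ := mem_inter.1 ha
      have hsp := q_inj hv hp2 hp2' ha1 ha2 (hTm a (hp1 ha1)) (hf p hp0) heq
      have hcu3 : 3 ≤ (p ∪ p').card := by
        by_contra hlt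
        have h7 : p = p ∪ p' := eq_of_subset_of_card_le subset_union_left (by omega)
        have h8 : p' = p ∪ p' := eq_of_subset_of_card_le subset_union_right (by omega)
        exact hne (h7.trans h8.symm)
      have h4 := h3 (cl K v p) isFl_cl (hP.cl_subset (hp1.trans hTP))
        (by rw [rk_cl, ← hp2]; exact rk_le_card)
      have h5 : p ∪ p' ⊆ cl K v p ∩ insert o T := by
        apply subset_inter
        · apply union_subset subset_cl
          have h9 : cl K v p = cl K v p' := cl_eq_cl_iff.2 hsp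
          rw [h9]
          exact subset_cl
        · exact (union_subset hp1 hp1').trans (subset_insert _ _)
      have h6 := card_le_card h5
      omega
  · intro h
    apply hcl p hp
    rw [mem_cl]
    have h9 : v o ∈ sp K v p ⊓ m := by
      rw [h]
      exact mem_span_singleton_self _
    exact h9.1

theorem P4_one (hK : Fintype.card K = 4) {v : E → V} (hv : Simple K v) {n : ℕ}
    {A : Fin n → Finset E} (hA : IsMason K v ∅ univ A) (h4 : rk K v univ = 4)
    {P1 P2 : Finset E} (hP1 : IsFl K v P1) (hP2 : IsFl K v P2)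
    (hr1 : rk K v P1 = 3) (hr2 : rk K v P2 = 3) (h1 : ∃ i, cl K v (A i) = P1)
    (h2 : ∃ i, cl K v (A i) = P2) (o : E) : P1 ∩ P2 ≠ {o} := by
  classical
  intro h0
  have hoo : o ∈ P1 ∩ P2 := by
    rw [h0]
    exact mem_singleton_self o
  have ho1 : o ∈ P1 := (mem_inter.1 hoo).1
  have ho2 : o ∈ P2 := (mem_inter.1 hoo).2
  have hint : ∀ x, x ∈ P1 → x ∈ P2 → x = o := by
    intro x hx hx'
    rw [← mem_singleton, ← h0]
    exact mem_inter.2 ⟨hx, hx'⟩
  have hne : P1 ≠ P2 := by
    rintro rfl
    rw [inter_self] at h0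
    rw [h0, hv.rk_singleton] at hr1
    omega
  have k1 := Ck hK hv hA (by omega) hP1 (by omega) h1
  have k2 := Ck hK hv hA (by omega) hP2 (by omega) h2
  set D : Finset E := univ \ (P1 ∪ P2) with hD
  have hDmem : ∀ x, x ∈ D ↔ x ∉ P1 ∧ x ∉ P2 := by
    intro x
    rw [hD, mem_sdiff, mem_union, not_or]
    simp
  have e1 : (P1.erase o).card + 1 = P1.card := card_erase_add_one ho1
  have e2 : (P2.erase o).card + 1 = P2.card := card_erase_add_one ho2
  have c1 : (univ \ P1).card = (P2.erase o).card + D.card := by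
    rw [← card_union_of_disjoint]
    · congr 1
      ext x
      rw [mem_sdiff, mem_union, mem_erase, hDmem]
      constructor
      · rintro ⟨-, hx⟩
        by_cases hx2 : x ∈ P2
        · left
          refine ⟨?_, hx2⟩
          rintro rfl
          exact hx ho1
        · right
          exact ⟨hx, hx2⟩
      · rintro (⟨hxo, hx2⟩ | ⟨hx1, -⟩)
        · refine ⟨mem_univ _, fun hx1 => hxo (hint x hx1 hx2)⟩
        · exact ⟨mem_univ _, hx1⟩
    · rw [disjoint_left]
      intro x hx hx'
      exact ((hDmem x).1 hx').2 (mem_erase.1 hx).2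
  have c2 : (univ \ P2).card = (P1.erase o).card + D.card := by
    rw [← card_union_of_disjoint]
    · congr 1
      ext x
      rw [mem_sdiff, mem_union, mem_erase, hDmem]
      constructor
      · rintro ⟨-, hx⟩
        by_cases hx2 : x ∈ P1
        · left
          refine ⟨?_, hx2⟩
          rintro rfl
          exact hx ho2
        · right
          exact ⟨hx2, hx⟩
      · rintro (⟨hxo, hx2⟩ | ⟨-, hx1⟩)
        · refine ⟨mem_univ _, fun hx1 => hxo (hint x hx2 hx1)⟩
        · exact ⟨mem_univ _, hx1⟩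
    · rw [disjoint_left]
      intro x hx hx'
      exact ((hDmem x).1 hx').1 (mem_erase.1 hx).2
  have cE : (univ \ P1).card + P1.card = (univ : Finset E).card :=
    card_sdiff_add_card_eq_card (subset_univ P1)
  have pos : ∀ P : Finset E, (∃ i, cl K v (A i) = P) → 1 ≤ cnt A P := by
    rintro P ⟨i, hi⟩
    exact card_pos.2 ⟨i, mem_filter.2 ⟨mem_univ _, hi ▸ subset_cl⟩⟩
  have n1 := hA.eq (empty_subset _) (subset_univ P1) hP1
  have n2 := hA.eq (empty_subset _) (subset_univ P2) hP2
  have nE := hA.eq (empty_subset _) (subset_univ univ) isFl_univ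
  have p1 := pos P1 h1
  have p2 := pos P2 h2
  have hsep : ∀ i, A i ⊆ P1 → ¬ A i ⊆ P2 := by
    intro i hi hi'
    have h3 : A i ⊆ {o} := h0 ▸ subset_inter hi hi'
    have h5 := hA.eq (empty_subset _) (subset_univ {o}) (hv.isFl_singleton o)
    have h6 : 1 ≤ cnt A {o} := card_pos.2 ⟨i, mem_filter.2 ⟨mem_univ _, h3⟩⟩
    rw [hv.rk_singleton, card_singleton] at h5
    omega
  -- the members inside neither plane
  set oth : Finset E → Finset (Fin n) :=
    fun Q => univ.filter (fun i => A i ⊆ Q ∧ ¬ A i ⊆ P1 ∧ ¬ A i ⊆ P2) with hoth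
  have hothmem : ∀ Q i, i ∈ oth Q ↔ A i ⊆ Q ∧ ¬ A i ⊆ P1 ∧ ¬ A i ⊆ P2 := by
    intro Q i
    rw [hoth]
    simp
  have hsplit : ∀ Q, cnt A Q = cnt A (Q ∩ P1) + cnt A (Q ∩ P2) + (oth Q).card :=
    fun Q => P4o_split A P1 P2 Q hsep
  have htot : (oth univ).card = D.card + 1 := by
    have h3 := hsplit univ
    rw [univ_inter, univ_inter] at h3
    omega
  have hothmono : ∀ Q, oth Q ⊆ oth univ := by
    intro Q i hi
    rw [hothmem] at hi ⊢
    exact ⟨subset_univ _, hi.2⟩
  set m : Submodule K V := sp K v P1 ⊓ sp K v P2 with hm_def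
  have hm : Module.finrank K m = 2 := finrank_mm h4 hP1 hP2 hr1 hr2 hne
  have hom : v o ∈ m := ⟨mem_sp ho1, mem_sp ho2⟩
  have hmo : ∀ a, v a ∈ m → a = o := fun a ha => hint a (hP1.mem ha.1) (hP2.mem ha.2)
  obtain ⟨T1, hT1, hT1c, hT13⟩ := P4o_three hv hA hP1 hr1 h1 ho1 (by omega) (by omega)
  obtain ⟨T2, hT2, hT2c, hT23⟩ := P4o_three hv hA hP2 hr2 h2 ho2 (by omega) (by omega)
  have hT1P : T1 ⊆ P1 := hT1.trans (erase_subset _ _)
  have hT2P : T2 ⊆ P2 := hT2.trans (erase_subset _ _)
  have hT1m : ∀ a ∈ T1, v a ∉ m := fun a ha h => (mem_erase.1 (hT1 ha)).1 (hmo a h)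
  have hT2m : ∀ a ∈ T2, v a ∉ m := fun a ha h => (mem_erase.1 (hT2 ha)).1 (hmo a h)
  obtain ⟨x1, y1⟩ := P4o_traces hv hm inf_le_left hr1 hP1 ho1 hT1 hT1c hT1m hT13
  obtain ⟨x2, y2⟩ := P4o_traces hv hm inf_le_right hr2 hP2 ho2 hT2 hT2c hT2m hT23
  set X1 := (T1.powersetCard 2).image (fun p => sp K v p ⊓ m) with hX1
  set X2 := (T2.powersetCard 2).image (fun p => sp K v p ⊓ m) with hX2
  have hfo : Module.finrank K (span K {v o}) = 1 := finrank_span_singleton (hv.1 o)
  have hom' : span K {v o} ≤ m := by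
    rw [span_singleton_le_iff_mem]
    exact hom
  have hW : ∀ W ∈ X1 ∪ X2, W ≤ m ∧ Module.finrank K W = 1 ∧ W ≠ span K {v o} := by
    intro W hW
    rcases mem_union.1 hW with hW | hW
    · obtain ⟨p, hp, rfl⟩ := mem_image.1 hW
      exact ⟨inf_le_right, (y1 p hp).1, (y1 p hp).2.1⟩
    · obtain ⟨p, hp, rfl⟩ := mem_image.1 hW
      exact ⟨inf_le_right, (y2 p hp).1, (y2 p hp).2.1⟩
  have h5 : (insert (span K {v o}) (X1 ∪ X2)).card ≤ 5 := by
    apply pts_card hK m hm.le
    intro W hW'
    rcases mem_insert.1 hW' with h | h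
    · rw [h]
      exact ⟨hom', hfo⟩
    · exact ⟨(hW W h).1, (hW W h).2.1⟩
  rw [card_insert_of_notMem (fun h => (hW _ h).2.2 rfl)] at h5
  have h6 := card_union_add_card_inter X1 X2
  obtain ⟨W, hWm, W', hWm', hWne⟩ := one_lt_card.1 (by omega : 1 < (X1 ∩ X2).card)
  -- the plane through a common trace
  have plane : ∀ W ∈ X1 ∩ X2, ∃ Q p, IsFl K v Q ∧ rk K v Q = 3 ∧ p ⊆ T1 ∧ p.card = 2 ∧
      sp K v p ⊓ m = W ∧ p ⊆ Q ∧ rk K v (Q ∩ P1) ≤ 2 ∧ (oth Q).card = (Q ∩ D).card + 1 := by
    intro W hW
    obtain ⟨hW1, hW2⟩ := mem_inter.1 hW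
    obtain ⟨p, hp, hpW⟩ := mem_image.1 hW1
    obtain ⟨p', hp', hpW'⟩ := mem_image.1 hW2
    obtain ⟨a1, a2⟩ := mem_powersetCard.1 hp
    obtain ⟨b1, b2⟩ := mem_powersetCard.1 hp'
    have r1 : rk K v p = 2 := by
      rw [(hv.ind_of_card_le_two (X := p) a2.le).rk_eq_card, a2]
    have r2 : rk K v p' = 2 := by
      rw [(hv.ind_of_card_le_two (X := p') b2.le).rk_eq_card, b2]
    have hinf : sp K v p ⊓ sp K v p' = sp K v p ⊓ m := by
      apply le_antisymm
      · refine le_inf inf_le_left (le_inf ?_ ?_)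
        · exact inf_le_left.trans (sp_mono (a1.trans hT1P))
        · exact inf_le_right.trans (sp_mono (b1.trans hT2P))
      · refine le_inf inf_le_left ?_
        rw [hpW, ← hpW']
        exact inf_le_left
    have hrk : rk K v (p ∪ p') = 3 := by
      have e1 := finrank_sup_add_finrank_inf_eq (sp K v p) (sp K v p')
      rw [hinf, (y1 p hp).1] at e1
      unfold rk at r1 r2 ⊢
      rw [sp_union]
      omega
    have hQ : IsFl K v (cl K v (p ∪ p')) := isFl_cl
    have hQr : rk K v (cl K v (p ∪ p')) = 3 := by rw [rk_cl, hrk]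
    have hpQ : p ⊆ cl K v (p ∪ p') := subset_union_left.trans subset_cl
    have hpQ' : p' ⊆ cl K v (p ∪ p') := subset_union_right.trans subset_cl
    set Q := cl K v (p ∪ p') with hQdef
    have t1 : rk K v (Q ∩ P1) ≤ 2 := by
      by_contra hcon
      have h7 := (hQ.inter hP1).eq_of_subset_of_rk_le (G := Q) inter_subset_left (by omega)
      have h8 := (hQ.inter hP1).eq_of_subset_of_rk_le (G := P1) inter_subset_right (by omega)
      have h9 : Q = P1 := h7.symm.trans h8
      obtain ⟨a, ha⟩ := card_pos.1 (by omega : 0 < p'.card)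
      have ha1 : a ∈ P1 := h9 ▸ hpQ' ha
      exact (mem_erase.1 (hT2 (b1 ha))).1 (hint a ha1 (hT2P (b1 ha)))
    have t2 : rk K v (Q ∩ P2) ≤ 2 := by
      by_contra hcon
      have h7 := (hQ.inter hP2).eq_of_subset_of_rk_le (G := Q) inter_subset_left (by omega)
      have h8 := (hQ.inter hP2).eq_of_subset_of_rk_le (G := P2) inter_subset_right (by omega)
      have h9 : Q = P2 := h7.symm.trans h8
      obtain ⟨a, ha⟩ := card_pos.1 (by omega : 0 < p.card)
      have ha1 : a ∈ P2 := h9 ▸ hpQ ha
      exact (mem_erase.1 (hT1 (a1 ha))).1 (hint a (hT1P (a1 ha)) ha1)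
    have t1' : rk K v (Q ∩ P1) = 2 := by
      have := rk_mono (K := K) (v := v) (subset_inter hpQ (a1.trans hT1P))
      omega
    have t2' : rk K v (Q ∩ P2) = 2 := by
      have := rk_mono (K := K) (v := v) (subset_inter hpQ' (b1.trans hT2P))
      omega
    have hoQ : o ∉ Q := by
      intro ho
      have h7 := hT13 (Q ∩ P1) (hQ.inter hP1) inter_subset_right t1
      have h8 : insert o p ⊆ (Q ∩ P1) ∩ insert o T1 := by
        apply subset_inter
        · apply insert_subset (mem_inter.2 ⟨ho, ho1⟩)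
          exact subset_inter hpQ (a1.trans hT1P)
        · exact insert_subset_insert o a1
      have h9 := card_le_card h8
      rw [card_insert_of_notMem (fun h => (mem_erase.1 (hT1 (a1 h))).1 rfl)] at h9
      omega
    have hcQ : Q.card = (Q ∩ P1).card + (Q ∩ P2).card + (Q ∩ D).card := by
      have hd1 : Disjoint (Q ∩ P1) (Q ∩ P2) := by
        rw [disjoint_left]
        intro x hx hx'
        have hxo := hint x (mem_inter.1 hx).2 (mem_inter.1 hx').2
        exact hoQ (hxo ▸ (mem_inter.1 hx).1)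
      have hd2 : Disjoint (Q ∩ P1 ∪ Q ∩ P2) (Q ∩ D) := by
        rw [disjoint_left]
        intro x hx hx'
        have hxD := (hDmem x).1 (mem_inter.1 hx').2
        rcases mem_union.1 hx with hx | hx
        · exact hxD.1 (mem_inter.1 hx).2
        · exact hxD.2 (mem_inter.1 hx).2
      rw [← card_union_of_disjoint hd1, ← card_union_of_disjoint hd2]
      congr 1
      ext x
      rw [mem_union, mem_union, mem_inter, mem_inter, mem_inter, hDmem]
      tauto
    have q1 := hA.eq (empty_subset _) (subset_univ Q) hQ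
    have q2 := hA.eq (empty_subset _) (subset_univ (Q ∩ P1)) (hQ.inter hP1)
    have q3 := hA.eq (empty_subset _) (subset_univ (Q ∩ P2)) (hQ.inter hP2)
    have q4 := hsplit Q
    refine ⟨Q, p, hQ, hQr, a1, a2, hpW, hpQ, t1, ?_⟩
    omega
  obtain ⟨Q, p, hQ, hQr, hp1, hp2, hpW, hpQ, ht, hoQ⟩ := plane W hWm
  obtain ⟨Q', p', hQ', hQr', hp1', hp2', hpW', hpQ', ht', hoQ'⟩ := plane W' hWm'
  have hpp : p ≠ p' := by
    rintro rfl
    exact hWne (hpW.symm.trans hpW')
  have hQQ : Q ≠ Q' := by
    intro h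
    have h7 := hT13 (Q ∩ P1) (hQ.inter hP1) inter_subset_right ht
    have h8 : p ∪ p' ⊆ (Q ∩ P1) ∩ insert o T1 := by
      apply subset_inter
      · apply subset_inter
        · exact union_subset hpQ (h ▸ hpQ')
        · exact union_subset (hp1.trans hT1P) (hp1'.trans hT1P)
      · exact (union_subset hp1 hp1').trans (subset_insert _ _)
    have h9 := card_le_card h8
    have hcu3 : 3 ≤ (p ∪ p').card := by
      by_contra hlt
      have h7 : p = p ∪ p' := eq_of_subset_of_card_le subset_union_left (by omega)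
      have h8 : p' = p ∪ p' := eq_of_subset_of_card_le subset_union_right (by omega)
      exact hpp (h7.trans h8.symm)
    omega
  set F := Q ∩ Q' with hFdef
  have hF : IsFl K v F := hQ.inter hQ'
  have hFr : rk K v F ≤ 2 := by
    by_contra hcon
    have h7 := hF.eq_of_subset_of_rk_le (G := Q) inter_subset_left (by omega)
    have h8 := hF.eq_of_subset_of_rk_le (G := Q') inter_subset_right (by omega)
    exact hQQ (h7.symm.trans h8)
  -- a line containing an other member
  have line : ∀ G, IsFl K v G → rk K v G ≤ 2 → ∀ i ∈ oth G, (G ∩ D).Nonempty ∧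
      G.card ≤ 2 + (G ∩ D).card := by
    intro G hG hGr i hi
    rw [hothmem] at hi
    have hc : 1 ≤ cnt A G := card_pos.2 ⟨i, mem_filter.2 ⟨mem_univ _, hi.1⟩⟩
    have h3 := (three_of_cnt hv hA hG hGr hc).2
    have g1 : (G ∩ P1).card ≤ 1 := by
      by_contra hcon
      obtain ⟨a, ha, b, hb, hab⟩ := one_lt_card.1 (by omega : 1 < (G ∩ P1).card)
      rw [mem_inter] at ha hb
      exact hi.2.1 (hi.1.trans (fl_sub_of_two hv hP1 hGr hab ha.1 hb.1 ha.2 hb.2))
    have g2 : (G ∩ P2).card ≤ 1 := by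
      by_contra hcon
      obtain ⟨a, ha, b, hb, hab⟩ := one_lt_card.1 (by omega : 1 < (G ∩ P2).card)
      rw [mem_inter] at ha hb
      exact hi.2.2 (hi.1.trans (fl_sub_of_two hv hP2 hGr hab ha.1 hb.1 ha.2 hb.2))
    have hcG : G.card ≤ (G ∩ P1).card + (G ∩ P2).card + (G ∩ D).card := by
      have hsub : G ⊆ (G ∩ P1) ∪ (G ∩ P2) ∪ (G ∩ D) := by
        intro x hx
        rw [mem_union, mem_union, mem_inter, mem_inter, mem_inter, hDmem]
        tauto
      have u1 := card_le_card hsub
      have u2 := card_union_le ((G ∩ P1) ∪ (G ∩ P2)) (G ∩ D)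
      have u3 := card_union_le (G ∩ P1) (G ∩ P2)
      omega
    refine ⟨card_pos.1 (by omega), by omega⟩
  have hD1 : D.card ≤ 1 := by omega
  have hinterF : ∀ i, i ∈ oth Q → i ∈ oth Q' → i ∈ oth F := by
    intro i hi hi'
    rw [hothmem] at hi hi' ⊢
    exact ⟨subset_inter hi.1 hi'.1, hi.2⟩
  have hne1 : (oth Q).Nonempty := card_pos.1 (by omega)
  have hne2 : (oth Q').Nonempty := card_pos.1 (by omega)
  -- if one of the two planes contains all others there is a common one, and a contradiction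
  have hfull : ¬ ((oth Q) = oth univ ∧ (oth Q') = oth univ) := by
    rintro ⟨u1, u2⟩
    have hsub : oth univ ⊆ oth F := by
      intro i hi
      exact hinterF i (u1 ▸ hi) (u2 ▸ hi)
    obtain ⟨i, hi⟩ := hne1
    have hiF : i ∈ oth F := hsub (hothmono Q hi)
    obtain ⟨l1, l2⟩ := line F hF hFr i hiF
    have l3 := card_le_card hsub
    have l4 : (F ∩ D).card ≤ D.card := card_le_card inter_subset_right
    have l5 := card_pos.2 l1
    have l6 := hA.eq (empty_subset _) (subset_univ F) hF
    have l7 := hsplit F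
    have hc : 1 ≤ cnt A F := card_pos.2 ⟨i, mem_filter.2 ⟨mem_univ _, ((hothmem F i).1 hiF).1⟩⟩
    have l8 := (three_of_cnt hv hA hF hFr hc).1
    omega
  have hallQ : ∀ R, (oth R).card = (R ∩ D).card + 1 → (R ∩ D).card = D.card →
      oth R = oth univ := by
    intro R u1 u2
    exact eq_of_subset_of_card_le (hothmono R) (by omega)
  have hmeet : ∀ x, x ∈ D → D = {x} := by
    intro x hx
    exact (eq_of_subset_of_card_le (singleton_subset_iff.2 hx)
      (by rw [card_singleton]; exact hD1)).symm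
  have hcard : ∀ R : Finset E, (R ∩ D).Nonempty → (R ∩ D).card = D.card := by
    rintro R ⟨x, hx⟩
    rw [mem_inter] at hx
    have h7 := hmeet x hx.2
    have h8 : R ∩ D = D := by
      apply subset_antisymm inter_subset_right
      intro y hy
      rw [h7, mem_singleton] at hy
      exact mem_inter.2 ⟨hy ▸ hx.1, hy ▸ hx.2⟩
    rw [h8]
  by_cases hcase : (Q ∩ D).card = D.card ∨ (Q' ∩ D).card = D.card
  · -- all others in one of the planes
    have common : ∃ i, i ∈ oth Q ∧ i ∈ oth Q' := by
      rcases hcase with hc | hc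
      · obtain ⟨i, hi⟩ := hne2
        exact ⟨i, by rw [hallQ Q hoQ hc]; exact hothmono Q' hi, hi⟩
      · obtain ⟨i, hi⟩ := hne1
        exact ⟨i, hi, by rw [hallQ Q' hoQ' hc]; exact hothmono Q hi⟩
    obtain ⟨i, hi, hi'⟩ := common
    obtain ⟨⟨x, hx⟩, -⟩ := line F hF hFr i (hinterF i hi hi')
    rw [mem_inter] at hx
    have hxQ := mem_inter.1 hx.1
    exact hfull ⟨hallQ Q hoQ (hcard Q ⟨x, mem_inter.2 ⟨hxQ.1, hx.2⟩⟩),
      hallQ Q' hoQ' (hcard Q' ⟨x, mem_inter.2 ⟨hxQ.2, hx.2⟩⟩)⟩
  · -- no plane meets D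
    rw [not_or] at hcase
    obtain ⟨hcq, hcq'⟩ := hcase
    have hQD : Q ∩ D = ∅ := by
      by_contra hcon
      exact hcq (hcard Q (nonempty_iff_ne_empty.2 hcon))
    have hQD' : Q' ∩ D = ∅ := by
      by_contra hcon
      exact hcq' (hcard Q' (nonempty_iff_ne_empty.2 hcon))
    have hDc : D.card = 1 := by
      have : D.card ≠ 0 := by
        intro h
        apply hcq
        rw [hQD, h]
        rfl
      omega
    obtain ⟨d, hd⟩ := card_eq_one.1 hDc
    have hdD : d ∈ D := by
      rw [hd]
      exact mem_singleton_self d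
    obtain ⟨hd1, hd2⟩ := (hDmem d).1 hdD
    have hclQ : ∀ R, IsFl K v R → rk K v R = 3 → R ∩ D = ∅ → ∀ i ∈ oth R,
        cl K v (A i) = R := by
      intro R hR hRr hRD i hi
      have hi' := (hothmem R i).1 hi
      apply hR.cl_eq hi'.1
      by_contra hcon
      have h7 : i ∈ oth (cl K v (A i)) := by
        rw [hothmem]
        exact ⟨subset_cl, hi'.2⟩
      obtain ⟨⟨x, hx⟩, -⟩ := line (cl K v (A i)) isFl_cl (by rw [rk_cl]; omega) i h7
      rw [mem_inter] at hx
      have h8 : x ∈ R ∩ D := mem_inter.2 ⟨hR.cl_subset hi'.1 hx.1, hx.2⟩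
      rw [hRD] at h8
      exact notMem_empty x h8
    obtain ⟨i, hi⟩ := hne1
    obtain ⟨i', hi'⟩ := hne2
    have c3 := hclQ Q hQ hQr hQD i hi
    have c4 := hclQ Q' hQ' hQr' hQD' i' hi'
    have hii : i ≠ i' := by
      rintro rfl
      exact hQQ (c3.symm.trans c4)
    have hpair : oth univ = {i, i'} := by
      symm
      apply eq_of_subset_of_card_le
      · intro k hk
        rcases mem_insert.1 hk with rfl | hk
        · exact hothmono Q hi
        · rw [mem_singleton.1 hk]
          exact hothmono Q' hi'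
      · rw [htot, hDc, card_pair hii]
    have hdn : ∀ k, d ∉ A k := by
      intro k hk
      by_cases hk1 : A k ⊆ P1
      · exact hd1 (hk1 hk)
      by_cases hk2 : A k ⊆ P2
      · exact hd2 (hk2 hk)
      have hko : k ∈ oth univ := (hothmem univ k).2 ⟨subset_univ _, hk1, hk2⟩
      rw [hpair] at hko
      rcases mem_insert.1 hko with rfl | hko
      · have h8 : d ∈ Q ∩ D := mem_inter.2 ⟨((hothmem Q k).1 hi).1 hk, hdD⟩
        rw [hQD] at h8
        exact notMem_empty d h8
      · rw [mem_singleton.1 hko] at hk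
        have h8 : d ∈ Q' ∩ D := mem_inter.2 ⟨((hothmem Q' i').1 hi').1 hk, hdD⟩
        rw [hQD'] at h8
        exact notMem_empty d h8
    have hle := hA.le (empty_subset _) (subset_univ (univ.erase d))
    have hcn : cnt A (univ.erase d) = cnt A univ := by
      unfold cnt
      congr 1
      ext k
      rw [mem_filter, mem_filter]
      constructor
      · rintro ⟨h7, h8⟩
        exact ⟨h7, subset_univ _⟩
      · rintro ⟨h7, h8⟩
        refine ⟨h7, fun x hx => mem_erase.2 ⟨?_, mem_univ _⟩⟩
        rintro rfl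
        exact hdn k hx
    have hrd : rk K v (univ.erase d) = 4 := by
      have h7 : rk K v (univ.erase d) ≤ 4 := h4 ▸ rk_mono (subset_univ _)
      have h8 : P1 ∪ P2 ⊆ univ.erase d := by
        intro x hx
        refine mem_erase.2 ⟨?_, mem_univ _⟩
        rintro rfl
        rcases mem_union.1 hx with hx | hx
        · exact hd1 hx
        · exact hd2 hx
      have h9 := rk_mono (K := K) (v := v) h8
      have h10 : ¬ rk K v (P1 ∪ P2) ≤ 3 := by
        intro h
        have e1 := hP1.eq_of_subset_of_rk_le (G := P1 ∪ P2) subset_union_left (by omega)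
        have e2 := hP2.eq_of_subset_of_rk_le (G := P1 ∪ P2) subset_union_right (by omega)
        exact hne (e1.trans e2.symm)
      omega
    rw [hcn, hrd, card_erase_of_mem (mem_univ _)] at hle
    have hpos : 0 < (univ : Finset E).card := card_pos.2 ⟨d, mem_univ d⟩
    omega

end Ca3
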