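import Pool.Agent.Lib.MP_ca3eb1_co.P4zero
import Pool.Agent.Lib.MP_ca3eb1_co.P4one

/-! # Module M7: two heavy planes in rank 4 meet in a line -/

set_option linter.unusedSectionVars false

namespace Ca3

open Finset Submodule

variable {K V E : Type*} [Field K] [Fintype K] [AddCommGroup V] [Module K V]
  [FiniteDimensional K V] [Fintype E] [DecidableEq E]

theorem P4 (hK : Fintype.card K = 4) {v : E → V} (hv : Simple K v) {n : ℕ}
    {A : Fin n → Finset E} (hA : IsMason K v ∅ univ A) (h4 : rk K v univ = 4)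
    {P1 P2 : Finset E} (hP1 : IsFl K v P1) (hP2 : IsFl K v P2)
    (hr1 : rk K v P1 = 3) (hr2 : rk K v P2 = 3) (h1 : ∃ i, cl K v (A i) = P1)
    (h2 : ∃ i, cl K v (A i) = P2) (hne : P1 ≠ P2) : rk K v (P1 ∩ P2) = 2 := by
  have ha : rk K v (P1 ∩ P2) ≤ 2 := by
    by_contra hc
    have h3 := (hP1.inter hP2).eq_of_subset_of_rk_le (inter_subset_left (s₁ := P1) (s₂ := P2))
      (by omega)
    have h4 := (hP1.inter hP2).eq_of_subset_of_rk_le (inter_subset_right (s₁ := P1) (s₂ := P2))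
      (by omega)
    exact hne (h3.symm.trans h4)
  have hb : 2 ≤ (P1 ∩ P2).card := by
    by_contra hc
    have h5 : (P1 ∩ P2).card = 0 ∨ (P1 ∩ P2).card = 1 := by omega
    rcases h5 with h5 | h5
    · exact P4_zero hK hv hA h4 hP1 hP2 hr1 hr2 h1 h2 (card_eq_zero.1 h5)
    · obtain ⟨o, ho⟩ := card_eq_one.1 h5
      exact P4_one hK hv hA h4 hP1 hP2 hr1 hr2 h1 h2 o ho
  have := hv.two_le_rk hb
  omega

end Ca3
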