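import Pool.Agent.Lib.MP_ca3eb1_co.AbT7
import Pool.Agent.Lib.MP_ca3eb1_co.AbT8
import Pool.Agent.Lib.MP_ca3eb1_co.AbExistsTight
import Pool.Agent.Lib.MP_ca3eb1_co.P4

/-! # Tight abstract rank functions have rank at most 5 -/

set_option linter.unusedSectionVars false

namespace Ca3.Ab

open Finset

variable {K E : Type*} [Field K] [Fintype K] [DecidableEq E] [Fintype E] {N : RF E}

/-- Heavy hyperplanes of a tight configuration of rank at least 6 have small complement. -/
theorem Tight.compl_le_four (hK : Fintype.card K = 4) (hN : Simple N) (hq : RepC K N)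
    (ht : Tight N) (h6 : 6 ≤ rk N univ) {H : Finset E} (hH : IsFl N H)
    (hr : rk N H + 1 = rk N univ) (h0 : 0 < alpha N H) : (univ \ H).card ≤ 4 := by
  by_contra hc
  obtain ⟨U, hUH, hU⟩ := exists_subset_card_eq (show 5 ≤ (univ \ H).card by omega)
  have hUn : ∀ e ∈ U, e ∉ H := fun e he => (mem_sdiff.1 (hUH he)).2
  have hne : H ≠ univ := by
    rintro rfl
    omega
  have key : ∀ y ∈ H, y ∈ sp N U := by
    intro y hy
    by_contra hyU
    have h1 : ∀ r ∈ U, r ∉ sp N {y} := by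
      intro r hr' hc'
      exact hUn r hr' (hH.mem (sp_mono (singleton_subset_iff.2 hy) hc'))
    have h2 : ∀ r ∈ U, ∀ s ∈ U, r ∈ sp N (insert s {y}) → r = s := by
      intro r hr' s hs hrs
      by_contra hne'
      apply hyU
      have h3 : r ∈ sp N (insert y {s}) := by
        rwa [pair_comm y s]
      have h4 : r ∉ sp N {s} := fun h' => hne' (hN.2 r s h')
      have h5 := mem_sp_insert_exchange h3 h4
      refine sp_mono ?_ h5
      intro e he
      rcases mem_insert.1 he with rfl | he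
      · exact hr'
      · rw [mem_singleton.1 he]; exact hs
    obtain ⟨d, w, hw⟩ := hq y
    have hyy : y ∈ ({y} : Finset E) := mem_singleton_self y
    obtain ⟨R, hUR, hR⟩ := hw.exists_reps (T := univ) hyy (subset_univ U) h1 h2
    obtain ⟨n, A, hA⟩ := ht.2.1 y
    obtain ⟨i, hi⟩ := ht.heavy_point hH hne h0 hy hA
    obtain ⟨m, B, hB, hBH⟩ := hw.transfer_fin hN hyy isFl_univ (subset_univ _) hR hA
    have hY1 : rk N {y} = 1 := hN.1 y
    have hyH : ({y} : Finset E) ⊆ H := singleton_subset_iff.2 hy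
    have h6' := hBH H hH hyH (subset_univ _) (by omega) ⟨i, hi⟩
    have hru := hw.rk_qc_univ hyy hR (subset_univ _)
    have hrt := hw.rk_tr hyy hR hH hyH (subset_univ _)
    have h7 := Ca3.Ck hK (Ca3.qc_simple hR) hB (by omega)
      (hw.isFl_tr hyy hR hH hyH (subset_univ _)) (by omega) h6'
    have h8 : U.card ≤ (univ \ tr R H).card := by
      have h9 : (U.attach.image (fun e => (⟨e.1, hUR e.2⟩ : R))) ⊆ univ \ tr R H := by
        intro r hr'
        obtain ⟨e, -, rfl⟩ := mem_image.1 hr'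
        refine mem_sdiff.2 ⟨mem_univ _, fun h' => hUn e.1 e.2 ?_⟩
        simpa [tr] using h'
      refine le_trans (le_of_eq ?_) (card_le_card h9)
      rw [card_image_of_injective, card_attach]
      intro a b hab
      exact Subtype.ext (congrArg (fun z : R => (z : E)) hab)
    omega
  have h9 : sp N H ≤ sp N U := sp_le_iff.2 key
  obtain ⟨e, he⟩ := card_pos.1 (show 0 < U.card by omega)
  have h10 : e ∉ sp N H := fun h' => hUn e he (hH.mem h')
  have h11 : rk N (insert e H) = rk N H + 1 := rk_insert_of_not_mem_sp h10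
  have h12 : rk N (insert e H) ≤ rk N U := by
    apply rk_le_of_sp_le
    rw [sp_le_iff]
    intro g hg
    rcases mem_insert.1 hg with rfl | hg
    · exact mem_sp he
    · exact key g hg
  have h13 : rk N U ≤ U.card := rk_le_card
  omega

theorem Tight.rk_le_five (hK : Fintype.card K = 4) (hN : Simple N) (hq : RepC K N)
    (ht : Tight N) : rk N univ ≤ 5 := by
  by_contra hc
  have h6 : 6 ≤ rk N univ := by omega
  have hne0 : (univ : Finset E).Nonempty := by
    rw [nonempty_iff_ne_empty]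
    intro h0
    rw [h0, rk_empty] at h6
    omega
  obtain ⟨x0, -⟩ := hne0
  obtain ⟨H1, hH1, hr1, -, ha1⟩ := ht.exists_heavy x0
  have hne1 : H1.Nonempty := by
    rw [nonempty_iff_ne_empty]
    intro h0
    rw [h0, rk_empty] at hr1
    omega
  obtain ⟨x, hx⟩ := hne1
  obtain ⟨H2, hH2, hr2, hx2, ha2⟩ := ht.exists_heavy x
  have hu1 : H1 ≠ univ := by rintro rfl; omega
  have hu2 : H2 ≠ univ := by rintro rfl; omega
  have hc1 := ht.compl_le_four hK hN hq h6 hH1 hr1 ha1
  have hc2 := ht.compl_le_four hK hN hq h6 hH2 hr2 ha2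
  set G := H1 ∩ H2 with hGdef
  have hG : IsFl N G := hH1.inter hH2
  have hG1 : G ≠ H1 := by
    intro h
    have : x ∈ G := by rw [h]; exact hx
    exact hx2 (mem_inter.1 this).2
  have hG2 : G ≠ H2 := by
    intro h
    have h1 : H2 ⊆ H1 := by rw [← h]; exact inter_subset_left
    have h2 := hH2.eq_of_subset_of_rk_le h1 (by omega)
    rw [h2] at hx2
    exact hx2 hx
  obtain ⟨n1, A1, hA1⟩ := ht.2.2 H1 hH1 hu1
  obtain ⟨n2, A2, hA2⟩ := ht.2.2 H2 hH2 hu2
  obtain ⟨X1, hX1, hX1c, hX1i⟩ := T7 hA1 hH1 (heavy_self hA1 hH1 ha1) hG inter_subset_left hG1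
  obtain ⟨X2, hX2, hX2c, hX2i⟩ := T7 hA2 hH2 (heavy_self hA2 hH2 ha2) hG inter_subset_right hG2
  have hX2le : X2.card ≤ 4 := by
    refine (card_le_card ?_).trans hc1
    intro e he
    have h1 := mem_sdiff.1 (hX2 he)
    refine mem_sdiff.2 ⟨mem_univ _, fun h' => h1.2 (mem_inter.2 ⟨h', h1.1⟩)⟩
  obtain ⟨Y, -, hYG, hYi, hYc⟩ := exists_ind_card (N := N) (I := ∅) (X := G)
    (n := rk N univ - 4) ind_empty (empty_subset _) (by simp) (by omega)
  have hYr : rk N Y + 4 = rk N univ := by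
    have := hYi.rk_eq_card
    omega
  obtain ⟨y, hy⟩ := card_pos.1 (show 0 < Y.card by omega)
  obtain ⟨d, w, hw⟩ := hq y
  obtain ⟨R, -, hR⟩ := hw.exists_reps (Y := Y) (T := univ) (R₀ := ∅) hy
    (empty_subset _) (by simp) (by simp)
  obtain ⟨n, A, hA⟩ := ht.2.1 y
  have hyY : ({y} : Finset E) ⊆ Y := singleton_subset_iff.2 hy
  have hYH1 : Y ⊆ H1 := hYG.trans inter_subset_left
  have hYH2 : Y ⊆ H2 := hYG.trans inter_subset_right
  have hAY : IsMason N Y univ A := hA.mono hyY subset_rfl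
  have hcl : ∀ H, IsFl N H → Y ⊆ H → H ≠ univ → 0 < alpha N H →
      ∃ i, cl N (A i ∪ Y) = H := by
    intro H hH hYH hne h0
    obtain ⟨i, hi⟩ := ht.heavy_point hH hne h0 (hYH hy) hA
    refine ⟨i, ?_⟩
    have h1 : A i ∪ Y ⊆ H := by
      refine union_subset ?_ hYH
      rw [← hi]
      exact subset_union_left.trans subset_cl
    apply hH.cl_eq h1
    rw [← hi, rk_cl]
    exact rk_mono (union_subset_union_right hyY)
  obtain ⟨m, B, hB, hBH⟩ := hw.transfer_fin hN hy isFl_univ (subset_univ _) hR hAY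
  have hb1 := hBH H1 hH1 hYH1 (subset_univ _) (by omega) (hcl H1 hH1 hYH1 hu1 ha1)
  have hb2 := hBH H2 hH2 hYH2 (subset_univ _) (by omega) (hcl H2 hH2 hYH2 hu2 ha2)
  have hru := hw.rk_qc_univ hy hR (subset_univ _)
  have hrt1 := hw.rk_tr hy hR hH1 hYH1 (subset_univ _)
  have hrt2 := hw.rk_tr hy hR hH2 hYH2 (subset_univ _)
  have hrtG := hw.rk_tr hy hR hG hYG (subset_univ _)
  have hne : tr R H1 ≠ tr R H2 := by
    intro h
    have h1 := hw.tr_inj hy hR hH1 hYH1 (subset_univ _) hH2 hYH2 (subset_univ _) h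
    rw [h1] at hx
    exact hx2 hx
  have hP := Ca3.P4 hK (Ca3.qc_simple hR) hB (by omega)
    (hw.isFl_tr hy hR hH1 hYH1 (subset_univ _)) (hw.isFl_tr hy hR hH2 hYH2 (subset_univ _))
    (by omega) (by omega) hb1 hb2 hne
  have htr : tr R H1 ∩ tr R H2 = tr R G := by
    ext r
    simp [tr, hGdef]
  rw [htr] at hP
  have hg : rk N G + 2 = rk N univ := by omega
  have hg4 : 4 ≤ rk N G := by omega
  exact T8 hK hN hq ht.2.1 hH1 hH2 hr1 hr2 hg hg4 hX1 hX2 (by omega) (by omega) hX1i hX2i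

end Ca3.Ab
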