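import Pool.Agent.Lib.MP_ca3eb1_co.AbBasic

/-! # Module M6: Hall arguments -/

set_option linter.unusedSectionVars false

namespace Ca3.Ab

open Finset

variable {E : Type*} [DecidableEq E] [Fintype E]

/-- Removing a matched set keeps the rank. -/
theorem coindep {N : RF E} {ι : Type*} [Fintype ι] {A : ι → Finset E} {Y H W : Finset E}
    (hA : IsMason N Y H A) (hH : IsFl N H) (hWH : W ⊆ H) (hYW : Y ⊆ H \ W)
    (σ : E → ι) (hσ : Set.InjOn σ W) (hm : ∀ w ∈ W, w ∈ A (σ w)) (hs : ∀ w ∈ W, A (σ w) ⊆ H) :
    rk N (H \ W) = rk N H := by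
  classical
  refine le_antisymm (rk_mono sdiff_subset) ?_
  set Z := cl N (H \ W) with hZ
  have hZH : Z ⊆ H := hH.cl_subset sdiff_subset
  have hYZ : Y ⊆ Z := hYW.trans subset_cl
  have hHZ : H \ Z ⊆ W := by
    intro w hw
    rw [mem_sdiff] at hw
    by_contra hc
    exact hw.2 (subset_cl (mem_sdiff.2 ⟨hw.1, hc⟩))
  have h1 := hA.eq (hYZ.trans hZH) (subset_refl H) hH
  have h2 := hA.eq hYZ hZH (isFl_cl (X := H \ W))
  have h3 : cnt A Z + (H \ Z).card ≤ cnt A H := by
    unfold cnt
    have e1 : (H \ Z).card = ((H \ Z).image σ).card := by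
      rw [card_image_of_injOn]
      exact hσ.mono (by exact_mod_cast hHZ)
    rw [e1, ← card_union_of_disjoint]
    · apply card_le_card
      intro i hi
      rw [mem_filter]
      refine ⟨mem_univ _, ?_⟩
      rcases mem_union.1 hi with hi | hi
      · exact (mem_filter.1 hi).2.trans hZH
      · obtain ⟨w, hw, rfl⟩ := mem_image.1 hi
        exact hs w (hHZ hw)
    · rw [disjoint_left]
      intro i hi hi'
      obtain ⟨w, hw, rfl⟩ := mem_image.1 hi'
      exact (mem_sdiff.1 hw).2 ((mem_filter.1 hi).2 (hm w (hHZ hw)))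
  have h4 : (H \ Z).card + Z.card = H.card := card_sdiff_add_card_eq_card hZH
  have h5 : rk N Z = rk N (H \ W) := rk_cl
  omega

/-- `coindep` with the matching given as an injective choice. -/
private theorem coindep_image {N : RF E} {ι : Type*} [Fintype ι] {A : ι → Finset E}
    {H : Finset E} (hA : IsMason N ∅ H A) (hH : IsFl N H) {κ : Type*} [Fintype κ] [Nonempty ι]
    (g : κ → ι) (hg : Function.Injective g) (f : κ → E) (hf : Function.Injective f)
    (hm : ∀ k, f k ∈ A (g k)) (hs : ∀ k, A (g k) ⊆ H) :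
    rk N (H \ univ.image f) = rk N H := by
  classical
  have hex : ∀ k, Function.extend f g (fun _ => Classical.arbitrary ι) (f k) = g k :=
    fun k => hf.extend_apply g _ k
  apply coindep hA hH _ (empty_subset _) (Function.extend f g fun _ => Classical.arbitrary ι)
  · intro w hw w' hw' h
    simp only [coe_image, coe_univ, Set.image_univ, Set.mem_range] at hw hw'
    obtain ⟨k, rfl⟩ := hw
    obtain ⟨k', rfl⟩ := hw'
    rw [hex, hex] at h
    rw [hg h]
  · intro w hw
    obtain ⟨k, -, rfl⟩ := mem_image.1 hw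
    rw [hex]
    exact hm k
  · intro w hw
    obtain ⟨k, -, rfl⟩ := mem_image.1 hw
    rw [hex]
    exact hs k
  · intro w hw
    obtain ⟨k, -, rfl⟩ := mem_image.1 hw
    exact hs k (hm k)

theorem T7 {N : RF E} {ι : Type*} [Fintype ι] {A : ι → Finset E} {G H : Finset E}
    (hA : IsMason N ∅ H A) (hH : IsFl N H) (hi : ∃ i, cl N (A i) = H)
    (hG : IsFl N G) (hGH : G ⊆ H) (hne : G ≠ H) :
    ∃ X, X ⊆ H \ G ∧ X.card + rk N G = rk N H + 1 ∧
      ∀ I ⊆ G, Ind N I → sp N I = sp N G →
        ∀ y ∈ I ∪ X, rk N ((I ∪ X).erase y) = rk N H := by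
  classical
  -- closed family
  obtain ⟨i₀, hi₀⟩ := hi
  have hA' := hA.closure
  set A' : ι → Finset E := fun i => cl N (A i ∪ ∅) with hA'def
  have hA'0 : A' i₀ = H := by rw [hA'def]; simpa using hi₀
  have : Nonempty ι := ⟨i₀⟩
  have hGss : ¬ H ⊆ G := fun h => hne (subset_antisymm hGH h)
  -- the two index types
  let ι₁ := {i : ι // A' i ⊆ H ∧ ¬ A' i ⊆ G ∧ i ≠ i₀}
  let ι₂ := {i : ι // A' i ⊆ G}
  have hcG : cnt A' G = Fintype.card ι₂ := by
    rw [Fintype.card_subtype]; rfl
  have hcH : cnt A' H = Fintype.card ι₁ + Fintype.card ι₂ + 1 := by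
    rw [Fintype.card_subtype, Fintype.card_subtype]
    unfold cnt
    have : (univ.filter fun i => A' i ⊆ H) =
        insert i₀ ((univ.filter fun i => A' i ⊆ H ∧ ¬ A' i ⊆ G ∧ i ≠ i₀) ∪
          (univ.filter fun i => A' i ⊆ G)) := by
      ext i
      simp only [mem_filter, mem_univ, true_and, mem_insert, mem_union]
      constructor
      · intro h
        by_cases h0 : i = i₀
        · exact Or.inl h0
        · by_cases h1 : A' i ⊆ G
          · exact Or.inr (Or.inr h1)
          · exact Or.inr (Or.inl ⟨h, h1, h0⟩)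
      · rintro (rfl | h | h)
        · exact hA'0.subset
        · exact h.1
        · exact h.trans hGH
    rw [this, card_insert_of_notMem, card_union_of_disjoint]
    · rw [disjoint_left]
      intro i hi hi'
      simp only [mem_filter, mem_univ, true_and] at hi hi'
      exact hi.2.1 hi'
    · simp only [mem_union, mem_filter, mem_univ, true_and, not_or]
      refine ⟨fun h => h.2.2 rfl, fun h => hGss ?_⟩
      rwa [hA'0] at h
  have hnG := hA'.eq (empty_subset G) hGH hG
  have hnH := hA'.eq (empty_subset H) (subset_refl H) hH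
  -- first Hall argument
  obtain ⟨τ, hτi, hτ⟩ : ∃ f : ι₁ → E, Function.Injective f ∧ ∀ i, f i ∈ A' i.1 \ G := by
    apply (Finset.all_card_le_biUnion_card_iff_exists_injective fun i : ι₁ => A' i.1 \ G).1
    intro S
    set Z := G ∪ S.biUnion (fun i : ι₁ => A' i.1) with hZ
    have hZH : Z ⊆ H := union_subset hGH (biUnion_subset.2 fun i _ => i.2.1)
    have h1 := hA'.le (empty_subset Z) hZH
    have h2 : cnt A' G + S.card ≤ cnt A' Z := by
      unfold cnt
      have e1 : S.card = (S.map (Function.Embedding.subtype _)).card := (card_map _).symm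
      rw [e1, ← card_union_of_disjoint]
      · apply card_le_card
        intro i hi
        rw [mem_filter]
        refine ⟨mem_univ _, ?_⟩
        rcases mem_union.1 hi with hi | hi
        · exact (mem_filter.1 hi).2.trans subset_union_left
        · obtain ⟨j, hj, rfl⟩ := mem_map.1 hi
          exact (subset_biUnion_of_mem (fun i : ι₁ => A' i.1) hj).trans subset_union_right
      · rw [disjoint_left]
        intro i hi hi'
        obtain ⟨j, hj, rfl⟩ := mem_map.1 hi'
        exact j.2.2.1 (mem_filter.1 hi).2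
    have h3 : (S.biUnion fun i : ι₁ => A' i.1 \ G) = Z \ G := by
      ext e
      simp only [mem_biUnion, mem_sdiff, hZ, mem_union]
      constructor
      · rintro ⟨i, hi, h, h'⟩
        exact ⟨Or.inr ⟨i, hi, h⟩, h'⟩
      · rintro ⟨h | ⟨i, hi, h⟩, h'⟩
        · exact absurd h h'
        · exact ⟨i, hi, h, h'⟩
    rw [h3]
    have h4 : (Z \ G).card + G.card = Z.card := card_sdiff_add_card_eq_card subset_union_left
    have h5 : rk N G ≤ rk N Z := rk_mono subset_union_left
    omega
  refine ⟨(H \ G) \ univ.image τ, sdiff_subset, ?_, ?_⟩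
  · have h1 : univ.image τ ⊆ H \ G := by
      intro e he
      obtain ⟨i, -, rfl⟩ := mem_image.1 he
      have := mem_sdiff.1 (hτ i)
      exact mem_sdiff.2 ⟨i.2.1 this.1, this.2⟩
    have h2 := card_sdiff_add_card_eq_card h1
    have h3 : (H \ G).card + G.card = H.card := card_sdiff_add_card_eq_card hGH
    have h4 : (univ.image τ).card = Fintype.card ι₁ := by
      rw [card_image_of_injective _ hτi]; rfl
    omega
  · intro I hIG hI hIsp y hy
    -- second Hall argument
    obtain ⟨ρ, hρi, hρ⟩ : ∃ f : ι₂ → E, Function.Injective f ∧ ∀ i, f i ∈ A' i.1 \ I := by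
      apply (Finset.all_card_le_biUnion_card_iff_exists_injective fun i : ι₂ => A' i.1 \ I).1
      intro S
      set Z := S.biUnion (fun i : ι₂ => A' i.1) with hZ
      have hZG : Z ⊆ G := biUnion_subset.2 fun i _ => i.2
      have h1 := hA'.le (empty_subset Z) (hZG.trans hGH)
      have h2 : S.card ≤ cnt A' Z := by
        unfold cnt
        rw [← card_map (Function.Embedding.subtype _)]
        apply card_le_card
        intro i hi
        obtain ⟨j, hj, rfl⟩ := mem_map.1 hi
        rw [mem_filter]
        exact ⟨mem_univ _, subset_biUnion_of_mem (fun i : ι₂ => A' i.1) hj⟩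
      have h3 : (S.biUnion fun i : ι₂ => A' i.1 \ I) = Z \ I := by
        ext e
        simp only [mem_biUnion, mem_sdiff, hZ]
        constructor
        · rintro ⟨i, hi, h, h'⟩
          exact ⟨⟨i, hi, h⟩, h'⟩
        · rintro ⟨⟨i, hi, h⟩, h'⟩
          exact ⟨i, hi, h, h'⟩
      rw [h3]
      have h4 : (Z \ I).card + (Z ∩ I).card = Z.card := card_sdiff_add_card_inter Z I
      have h5 : rk N (Z ∩ I) ≤ rk N Z := rk_mono inter_subset_left
      have h6 : rk N (Z ∩ I) = (Z ∩ I).card := hI.subset inter_subset_right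
      omega
    have hcG2 : Fintype.card ι₂ + I.card = G.card := by
      have h1 : rk N G = I.card := by rw [← hI.rk_eq_card]; exact rk_congr hIsp.symm
      omega
    have hρim : univ.image ρ = G \ I := by
      apply eq_of_subset_of_card_le
      · intro e he
        obtain ⟨i, -, rfl⟩ := mem_image.1 he
        have := mem_sdiff.1 (hρ i)
        exact mem_sdiff.2 ⟨i.2 this.1, this.2⟩
      · rw [card_image_of_injective _ hρi]
        have := card_sdiff_add_card_eq_card hIG
        change _ ≤ Fintype.card ι₂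
        omega
    have hyH : y ∈ H := by
      rcases mem_union.1 hy with h | h
      · exact hGH (hIG h)
      · exact (mem_sdiff.1 (mem_sdiff.1 h).1).1
    have hyρ : ∀ i, ρ i ≠ y := by
      intro i hi
      have h1 : y ∈ G \ I := by rw [← hρim, ← hi]; exact mem_image_of_mem _ (mem_univ _)
      rw [mem_sdiff] at h1
      rcases mem_union.1 hy with h | h
      · exact h1.2 h
      · exact (mem_sdiff.1 (mem_sdiff.1 h).1).2 h1.1
    have hyτ : ∀ i, τ i ≠ y := by
      intro i hi
      rcases mem_union.1 hy with h | h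
      · exact (mem_sdiff.1 (hτ i)).2 (hi ▸ hIG h)
      · exact (mem_sdiff.1 h).2 (hi ▸ mem_image_of_mem _ (mem_univ _))
    have hτρ : ∀ i j, τ i ≠ ρ j := by
      intro i j hij
      exact (mem_sdiff.1 (hτ i)).2 (hij ▸ j.2 (mem_sdiff.1 (hρ j)).1)
    -- the combined matching
    let g : Option (ι₁ ⊕ ι₂) → ι := fun k => k.elim i₀ (Sum.elim Subtype.val Subtype.val)
    let f : Option (ι₁ ⊕ ι₂) → E := fun k => k.elim y (Sum.elim τ ρ)
    have key := coindep_image hA' hH g (by
      rintro (_ | i | i) (_ | j | j) h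
      · rfl
      · exact absurd h.symm j.2.2.2
      · have h' : j.1 = i₀ := h.symm
        exact absurd (hA'0 ▸ h' ▸ j.2) hGss
      · exact absurd h i.2.2.2
      · have : i = j := Subtype.ext h
        rw [this]
      · have h' : i.1 = j.1 := h
        exact absurd (h' ▸ j.2) i.2.2.1
      · have h' : i.1 = i₀ := h
        exact absurd (hA'0 ▸ h' ▸ i.2) hGss
      · have h' : i.1 = j.1 := h
        exact absurd (h' ▸ i.2) j.2.2.1
      · have : i = j := Subtype.ext h
        rw [this]) f (by
      rintro (_ | i | i) (_ | j | j) h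
      · rfl
      · exact absurd h.symm (hyτ j)
      · exact absurd h.symm (hyρ j)
      · exact absurd h (hyτ i)
      · have : i = j := hτi h
        rw [this]
      · exact absurd h (hτρ i j)
      · exact absurd h (hyρ i)
      · exact absurd h.symm (hτρ j i)
      · have : i = j := hρi h
        rw [this]) (by
      rintro (_ | i | i)
      · change y ∈ A' i₀
        rw [hA'0]; exact hyH
      · exact (mem_sdiff.1 (hτ i)).1
      · exact (mem_sdiff.1 (hρ i)).1) (by
      rintro (_ | i | i)
      · exact hA'0.subset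
      · exact i.2.1
      · exact i.2.trans hGH)
    rw [← key]
    congr 1
    ext e
    have him : e ∈ univ.image f ↔ e = y ∨ e ∈ univ.image τ ∨ e ∈ univ.image ρ := by
      simp only [mem_image, mem_univ, true_and]
      constructor
      · rintro ⟨_ | i | i, rfl⟩
        · exact Or.inl rfl
        · exact Or.inr (Or.inl ⟨i, rfl⟩)
        · exact Or.inr (Or.inr ⟨i, rfl⟩)
      · rintro (rfl | ⟨i, rfl⟩ | ⟨i, rfl⟩)
        · exact ⟨none, rfl⟩
        · exact ⟨some (Sum.inl i), rfl⟩
        · exact ⟨some (Sum.inr i), rfl⟩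
    have hIH : e ∈ I → e ∈ H := fun h => hGH (hIG h)
    have hIG' : e ∈ I → e ∈ G := fun h => hIG h
    have hτ' : e ∈ univ.image τ → e ∉ G := by
      intro h
      obtain ⟨i, -, rfl⟩ := mem_image.1 h
      exact (mem_sdiff.1 (hτ i)).2
    rw [mem_erase, mem_union, mem_sdiff, mem_sdiff, mem_sdiff, him, hρim, mem_sdiff]
    constructor
    · rintro ⟨hy', hI' | ⟨⟨hH', hG'⟩, ht⟩⟩
      · refine ⟨hIH hI', ?_⟩
        rintro (h | h | h)
        · exact hy' h
        · exact hτ' h (hIG' hI')
        · exact h.2 hI'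
      · refine ⟨hH', ?_⟩
        rintro (h | h | h)
        · exact hy' h
        · exact ht h
        · exact hG' h.1
    · rintro ⟨hH', hn⟩
      refine ⟨fun h => hn (Or.inl h), ?_⟩
      by_cases hI' : e ∈ I
      · exact Or.inl hI'
      · exact Or.inr ⟨⟨hH', fun hG' => hn (Or.inr (Or.inr ⟨hG', hI'⟩))⟩,
          fun ht => hn (Or.inr (Or.inl ht))⟩

end Ca3.Ab
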