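import Pool.Agent.Lib.MP_ca3eb1_co.AbInterface
import Pool.Agent.Lib.MP_ca3eb1_co.AbT7

/-! # Lemma U: at most one member of a Mason family of a quaternary configuration spans -/

set_option linter.unusedSectionVars false

namespace Ca3.Ab

open Finset

/-- A relation modulo `Z` between the elements of `W` is trivial if `Z ∪ W` is independent. -/
theorem lu_rel {K V E : Type*} [Field K] [AddCommGroup V] [Module K V]
    [FiniteDimensional K V] [DecidableEq E] {v : E → V} {Z W : Finset E} (hZW : Disjoint Z W)
    (h : Ca3.Ind K v (Z ∪ W)) (c : E → K) (hc : ∑ w ∈ W, c w • v w ∈ Ca3.sp K v Z) :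
    ∀ w ∈ W, c w = 0 := by
  intro w hw
  by_contra hne
  refine h.not_mem_sp_erase (mem_union_right Z hw) ?_
  have hwZ : w ∉ Z := fun h' => disjoint_left.1 hZW h' hw
  have e1 : (Z ∪ W).erase w = Z ∪ W.erase w := by
    ext x
    simp only [mem_erase, mem_union]
    constructor
    · rintro ⟨h1, h2 | h2⟩
      · exact Or.inl h2
      · exact Or.inr ⟨h1, h2⟩
    · rintro (h2 | ⟨h1, h2⟩)
      · exact ⟨fun h3 => hwZ (h3 ▸ h2), Or.inl h2⟩
      · exact ⟨h1, Or.inr h2⟩
  rw [e1]
  have e2 : ∑ x ∈ W, c x • v x = c w • v w + ∑ x ∈ W.erase w, c x • v x :=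
    (add_sum_erase W (fun x => c x • v x) hw).symm
  have h1 : ∑ x ∈ W, c x • v x ∈ Ca3.sp K v (Z ∪ W.erase w) :=
    Ca3.sp_mono subset_union_left hc
  have h2 : ∑ x ∈ W.erase w, c x • v x ∈ Ca3.sp K v (Z ∪ W.erase w) :=
    Submodule.sum_mem _ fun x hx =>
      Submodule.smul_mem _ _ (Ca3.mem_sp (mem_union_right Z hx))
  have h3 : c w • v w ∈ Ca3.sp K v (Z ∪ W.erase w) := by
    have : c w • v w = ∑ x ∈ W, c x • v x - ∑ x ∈ W.erase w, c x • v x := by
      rw [e2]; abel
    rw [this]
    exact Submodule.sub_mem _ h1 h2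
  have h4 : v w = (c w)⁻¹ • (c w • v w) := by
    rw [smul_smul, inv_mul_cancel₀ hne, one_smul]
  rw [h4]
  exact Submodule.smul_mem _ _ h3

/-- `U_{4,6}` is not a minor of a configuration over a field with four elements. -/
theorem no_U46 {K V E : Type*} [Field K] [Fintype K] [AddCommGroup V] [Module K V]
    [FiniteDimensional K V] [DecidableEq E] (hK : Fintype.card K = 4) {v : E → V}
    {Z T : Finset E} (hT : T.card = 6) (hZT : Disjoint Z T)
    (hr : Ca3.rk K v (Z ∪ T) ≤ Z.card + 4)
    (h : ∀ W ⊆ T, W.card = 4 → Ca3.Ind K v (Z ∪ W)) : False := by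
  classical
  -- `Z` is independent
  obtain ⟨W₀, hW₀, hW₀c⟩ := exists_subset_card_eq (s := T) (n := 4) (by omega)
  have hZ : Ca3.rk K v Z = Z.card := (h W₀ hW₀ hW₀c).subset subset_union_left
  -- the relation map
  let L : (T → K) →ₗ[K] V ⧸ Ca3.sp K v Z :=
    (Ca3.sp K v Z).mkQ.comp (Fintype.linearCombination K (fun t : T => v t))
  have hL : ∀ c : T → K, L c = 0 ↔ ∑ t : T, c t • v t ∈ Ca3.sp K v Z := by
    intro c
    change (Ca3.sp K v Z).mkQ (Fintype.linearCombination K (fun t : T => v t) c) = 0 ↔ _
    rw [← LinearMap.mem_ker, Submodule.ker_mkQ, Fintype.linearCombination_apply]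
  -- rank of the map
  have hrange : Module.finrank K (LinearMap.range L) ≤ 4 := by
    have h1 : LinearMap.range L ≤ (Ca3.sp K v (Z ∪ T)).map (Ca3.sp K v Z).mkQ := by
      rintro _ ⟨c, rfl⟩
      refine Submodule.mem_map.2 ⟨Fintype.linearCombination K (fun t : T => v t) c, ?_, rfl⟩
      rw [Fintype.linearCombination_apply]
      exact Submodule.sum_mem _ fun t _ =>
        Submodule.smul_mem _ _ (Ca3.mem_sp (mem_union_right Z t.2))
    have h2 := Submodule.finrank_mono h1
    have h3 := LinearMap.finrank_range_add_finrank_ker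
      (((Ca3.sp K v Z).mkQ).domRestrict (Ca3.sp K v (Z ∪ T)))
    have h4 : LinearMap.range (((Ca3.sp K v Z).mkQ).domRestrict (Ca3.sp K v (Z ∪ T))) =
        (Ca3.sp K v (Z ∪ T)).map (Ca3.sp K v Z).mkQ := by
      rw [LinearMap.range_domRestrict]
    have h5 : Ca3.rk K v Z ≤ Module.finrank K
        (LinearMap.ker (((Ca3.sp K v Z).mkQ).domRestrict (Ca3.sp K v (Z ∪ T)))) := by
      have h6 : Ca3.sp K v Z ≤ (LinearMap.ker
          (((Ca3.sp K v Z).mkQ).domRestrict (Ca3.sp K v (Z ∪ T)))).map
          (Ca3.sp K v (Z ∪ T)).subtype := by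
        intro x hx
        refine Submodule.mem_map.2 ⟨⟨x, Ca3.sp_mono subset_union_left hx⟩, ?_, rfl⟩
        rw [LinearMap.mem_ker, LinearMap.domRestrict_apply]
        change (Ca3.sp K v Z).mkQ x = 0
        rw [← LinearMap.mem_ker, Submodule.ker_mkQ]
        exact hx
      have h7 := Submodule.finrank_mono h6
      have h8 := Submodule.finrank_map_subtype_eq (Ca3.sp K v (Z ∪ T)) (LinearMap.ker
          (((Ca3.sp K v Z).mkQ).domRestrict (Ca3.sp K v (Z ∪ T))))
      unfold Ca3.rk
      omega
    rw [h4] at h3
    have h9 : Module.finrank K (Ca3.sp K v (Z ∪ T)) ≤ Z.card + 4 := hr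
    omega
  have hker : 2 ≤ Module.finrank K (LinearMap.ker L) := by
    have h1 := LinearMap.finrank_range_add_finrank_ker L
    have h2 : Module.finrank K (T → K) = 6 := by
      rw [Module.finrank_fintype_fun_eq_card, Fintype.card_coe, hT]
    omega
  -- a relation which vanishes at two places is trivial
  have key : ∀ c : T → K, L c = 0 → ∀ s t : T, s ≠ t → c s = 0 → c t = 0 → c = 0 := by
    intro c hc s t hst hs ht
    have h1 := (hL c).1 hc
    let c' : E → K := fun e => if he : e ∈ T then c ⟨e, he⟩ else 0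
    have hc' : ∀ t : T, c' t = c t := fun t => by simp [c']
    set W := (T.erase s).erase t with hW
    have hWT : W ⊆ T := (erase_subset _ _).trans (erase_subset _ _)
    have htT : (t : E) ∈ T.erase s := mem_erase.2 ⟨fun h' => hst (Subtype.ext h'.symm), t.2⟩
    have hWc : W.card = 4 := by
      rw [hW, card_erase_of_mem htT, card_erase_of_mem s.2, hT]
    have h2 : ∑ w ∈ W, c' w • v w = ∑ t : T, c t • v t := by
      have e1 : ∑ t : T, c t • v t = ∑ e ∈ T, c' e • v e := by
        rw [← sum_coe_sort T (fun e => c' e • v e)]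
        exact sum_congr rfl fun t _ => by rw [hc']
      rw [e1, ← add_sum_erase T (fun e => c' e • v e) s.2,
        ← add_sum_erase (T.erase s) (fun e => c' e • v e) htT, hc', hc', hs, ht, zero_smul,
        zero_smul, zero_add, zero_add]
    have h3 := lu_rel (hZT.mono_right hWT) (h W hWT hWc) c' (h2 ▸ h1)
    funext u
    rw [← hc' u, Pi.zero_apply]
    by_cases hus : u = s
    · rw [hus, hc', hs]
    · by_cases hut : u = t
      · rw [hut, hc', ht]
      · refine h3 u ?_
        rw [hW, mem_erase, mem_erase]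
        exact ⟨fun h' => hut (Subtype.ext h'), fun h' => hus (Subtype.ext h'), u.2⟩
  -- two independent relations
  have hne : ∃ x : LinearMap.ker L, x ≠ 0 := by
    by_contra hcon
    push Not at hcon
    have : Module.finrank K (LinearMap.ker L) = 0 := by
      have : Subsingleton (LinearMap.ker L) := ⟨fun a b => by rw [hcon a, hcon b]⟩
      exact Module.finrank_zero_of_subsingleton
    omega
  obtain ⟨x, hx⟩ := hne
  obtain ⟨y, hxy⟩ := exists_linearIndependent_pair_of_one_lt_finrank
    (R := K) (M := LinearMap.ker L) (by omega) hx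
  have hli : ∀ a b : K, a • x.1 + b • y.1 = 0 → a = 0 ∧ b = 0 := by
    intro a b hab
    exact LinearIndependent.pair_iff.1 hxy a b (Subtype.ext hab)
  have hz : ∀ a b : K, L (a • x.1 + b • y.1) = 0 := by
    intro a b
    rw [map_add, map_smul, map_smul, LinearMap.mem_ker.1 x.2, LinearMap.mem_ker.1 y.2,
      smul_zero, smul_zero, add_zero]
  -- the map to the projective line
  let φ : T → Option K := fun t => if x.1 t = 0 then none else some (y.1 t / x.1 t)
  have hinj : Function.Injective φ := by
    intro s t hst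
    by_contra hne
    by_cases hs : x.1 s = 0
    · have h1 : φ s = none := by simp only [φ]; rw [if_pos hs]
      by_cases ht : x.1 t = 0
      · have := key x.1 (LinearMap.mem_ker.1 x.2) s t hne hs ht
        exact hx (Subtype.ext this)
      · have h2 : φ t = some (y.1 t / x.1 t) := by simp only [φ]; rw [if_neg ht]
        rw [h1, h2] at hst
        exact absurd hst (by simp)
    · have h1 : φ s = some (y.1 s / x.1 s) := by simp only [φ]; rw [if_neg hs]
      by_cases ht : x.1 t = 0
      · have h2 : φ t = none := by simp only [φ]; rw [if_pos ht]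
        rw [h1, h2] at hst
        exact absurd hst (by simp)
      · have h2 : φ t = some (y.1 t / x.1 t) := by simp only [φ]; rw [if_neg ht]
        rw [h1, h2, Option.some_inj] at hst
        set q := y.1 s / x.1 s with hq
        have e1 : y.1 s = q * x.1 s := by rw [hq, div_mul_cancel₀ _ hs]
        have e2 : y.1 t = q * x.1 t := by rw [hst, div_mul_cancel₀ _ ht]
        have := key ((-q) • x.1 + (1 : K) • y.1) (hz _ _) s t hne
          (by simp only [Pi.add_apply, Pi.smul_apply, smul_eq_mul]; rw [e1]; ring)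
          (by simp only [Pi.add_apply, Pi.smul_apply, smul_eq_mul]; rw [e2]; ring)
        exact one_ne_zero (hli _ _ this).2
  have h1 := Fintype.card_le_of_injective φ hinj
  rw [Fintype.card_option, hK, Fintype.card_coe, hT] at h1
  omega

variable {E : Type*} [DecidableEq E] [Fintype E] {N : RF E}

/-- `coindep` with the matching given as an injective choice. -/
theorem lu_coindep {ι : Type*} [Fintype ι] {A : ι → Finset E} {Y H : Finset E}
    (hA : IsMason N Y H A) (hH : IsFl N H) (hYH : Y ⊆ H) {κ : Type*} [Fintype κ] [Nonempty ι]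
    (g : κ → ι) (hg : Function.Injective g) (f : κ → E) (hf : Function.Injective f)
    (hm : ∀ k, f k ∈ A (g k)) (hs : ∀ k, A (g k) ⊆ H) (hfY : ∀ k, f k ∉ Y) :
    rk N (H \ univ.image f) = rk N H := by
  classical
  have hex : ∀ k, Function.extend f g (fun _ => Classical.arbitrary ι) (f k) = g k :=
    fun k => hf.extend_apply g _ k
  apply coindep hA hH _ _ (Function.extend f g fun _ => Classical.arbitrary ι)
  · intro w hw w' hw' h
    simp only [coe_image, coe_univ, Set.image_univ, Set.mem_range] at hw hw'
    obtain ⟨k, rfl⟩ := hw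
    obtain ⟨k', rfl⟩ := hw'
    rw [hex, hex] at h
    rw [hg h]
  · intro w hw
    obtain ⟨k, -, rfl⟩ := mem_image.1 hw
    rw [hex]
    exact hm k
  · intro w hw
    obtain ⟨k, -, rfl⟩ := mem_image.1 hw
    rw [hex]
    exact hs k
  · intro w hw
    obtain ⟨k, -, rfl⟩ := mem_image.1 hw
    exact hs k (hm k)
  · intro y hy
    refine mem_sdiff.2 ⟨hYH hy, fun h => ?_⟩
    obtain ⟨k, -, hk⟩ := mem_image.1 h
    exact hfY k (hk ▸ hy)

/-- Two members which span the flat `H` above an independent `Y`. -/
theorem lu_uniform {ι : Type*} [Fintype ι] {A : ι → Finset E} {Y H : Finset E}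
    (hY : Ind N Y) (hYH : Y ⊆ H) (hH : IsFl N H) (hA : IsMason N Y H A) {i j : ι} (hij : i ≠ j)
    (hi : cl N (A i ∪ Y) = H) (hj : cl N (A j ∪ Y) = H) :
    ∃ T, T ⊆ H ∧ Disjoint T Y ∧ T.card + Y.card = rk N H + 2 ∧
      ∀ W ⊆ T, W.card + Y.card = rk N H → Ind N (W ∪ Y) := by
  classical
  have hA' := hA.closure
  set A' : ι → Finset E := fun k => cl N (A k ∪ Y) with hA'def
  have hi' : A' i = H := hi
  have hj' : A' j = H := hj
  have : Nonempty ι := ⟨i⟩
  let ι₁ := {k : ι // A' k ⊆ H ∧ k ≠ i ∧ k ≠ j}
  have hcH : cnt A' H = Fintype.card ι₁ + 2 := by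
    rw [Fintype.card_subtype]
    unfold cnt
    have h1 : (univ.filter fun k => A' k ⊆ H) =
        insert i (insert j (univ.filter fun k => A' k ⊆ H ∧ k ≠ i ∧ k ≠ j)) := by
      ext k
      simp only [mem_filter, mem_univ, true_and, mem_insert]
      constructor
      · intro h
        by_cases h0 : k = i
        · exact Or.inl h0
        · by_cases h1 : k = j
          · exact Or.inr (Or.inl h1)
          · exact Or.inr (Or.inr ⟨h, h0, h1⟩)
      · rintro (rfl | rfl | h)
        · exact hi'.subset
        · exact hj'.subset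
        · exact h.1
    rw [h1, card_insert_of_notMem, card_insert_of_notMem]
    · simp
    · simp [hij]
  obtain ⟨τ, hτi, hτ⟩ : ∃ f : ι₁ → E, Function.Injective f ∧ ∀ k, f k ∈ A' k.1 \ Y := by
    apply (Finset.all_card_le_biUnion_card_iff_exists_injective fun k : ι₁ => A' k.1 \ Y).1
    intro S
    obtain ⟨Z, hZ⟩ : ∃ Z, Z = Y ∪ S.biUnion (fun k : ι₁ => A' k.1) := ⟨_, rfl⟩
    have hZH : Z ⊆ H := by
      rw [hZ]
      exact union_subset hYH (biUnion_subset.2 fun k _ => k.2.1)
    have hYZ : Y ⊆ Z := by
      rw [hZ]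
      exact subset_union_left
    have h1 := hA'.le hYZ hZH
    have h2 : S.card ≤ cnt A' Z := by
      unfold cnt
      rw [← card_map (Function.Embedding.subtype _)]
      apply card_le_card
      intro k hk
      obtain ⟨l, hl, rfl⟩ := mem_map.1 hk
      rw [mem_filter, hZ]
      exact ⟨mem_univ _, (subset_biUnion_of_mem (fun k : ι₁ => A' k.1) hl).trans
        subset_union_right⟩
    have h3 : (S.biUnion fun k : ι₁ => A' k.1 \ Y) = Z \ Y := by
      ext e
      simp only [mem_biUnion, mem_sdiff, hZ, mem_union]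
      constructor
      · rintro ⟨k, hk, h, h'⟩
        exact ⟨Or.inr ⟨k, hk, h⟩, h'⟩
      · rintro ⟨h | ⟨k, hk, h⟩, h'⟩
        · exact absurd h h'
        · exact ⟨k, hk, h, h'⟩
    rw [h3]
    have h4 : (Z \ Y).card + Y.card = Z.card := card_sdiff_add_card_eq_card hYZ
    have h5 : rk N Y ≤ rk N Z := rk_mono hYZ
    have h6 : rk N Y = Y.card := hY
    omega
  have hτH : univ.image τ ⊆ H \ Y := by
    intro e he
    obtain ⟨k, -, rfl⟩ := mem_image.1 he
    have := mem_sdiff.1 (hτ k)
    exact mem_sdiff.2 ⟨k.2.1 this.1, this.2⟩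
  have hτc : (univ.image τ).card = Fintype.card ι₁ := by
    rw [card_image_of_injective _ hτi]; rfl
  have hnH := hA'.eq hYH (subset_refl H) hH
  have c1 := card_sdiff_add_card_eq_card hτH
  have c2 := card_sdiff_add_card_eq_card hYH
  refine ⟨(H \ Y) \ univ.image τ, sdiff_subset.trans sdiff_subset, ?_, by omega, ?_⟩
  · rw [disjoint_left]
    intro e he hY'
    exact (mem_sdiff.1 (mem_sdiff.1 he).1).2 hY'
  · intro W hW hWc
    have c3 := card_sdiff_add_card_eq_card hW
    obtain ⟨t₁, t₂, ht, hTW⟩ := card_eq_two.1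
      (show ((((H \ Y) \ univ.image τ) \ W).card = 2) by omega)
    have ht₁ : t₁ ∈ ((H \ Y) \ univ.image τ) \ W := hTW ▸ mem_insert_self _ _
    have ht₂ : t₂ ∈ ((H \ Y) \ univ.image τ) \ W :=
      hTW ▸ mem_insert_of_mem (mem_singleton_self _)
    simp only [mem_sdiff] at ht₁ ht₂
    have n1 : ∀ k, τ k ≠ t₁ := fun k hk => ht₁.1.2 (hk ▸ mem_image_of_mem _ (mem_univ _))
    have n2 : ∀ k, τ k ≠ t₂ := fun k hk => ht₂.1.2 (hk ▸ mem_image_of_mem _ (mem_univ _))
    let g : Option (Option ι₁) → ι := fun k => k.elim i (fun l => l.elim j Subtype.val)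
    let f : Option (Option ι₁) → E := fun k => k.elim t₁ (fun l => l.elim t₂ τ)
    have hfi : Function.Injective f := by
      rintro (_ | _ | k) (_ | _ | l) h
      · rfl
      · exact absurd h ht
      · exact absurd (Eq.symm h) (n1 l)
      · exact absurd (Eq.symm h) ht
      · rfl
      · exact absurd (Eq.symm h) (n2 l)
      · exact absurd h (n1 k)
      · exact absurd h (n2 k)
      · have : k = l := hτi h
        rw [this]
    have key := lu_coindep hA' hH hYH g (by
      rintro (_ | _ | k) (_ | _ | l) h
      · rfl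
      · exact absurd h hij
      · exact absurd (Eq.symm h) l.2.2.1
      · exact absurd (Eq.symm h) hij
      · rfl
      · exact absurd (Eq.symm h) l.2.2.2
      · exact absurd h k.2.2.1
      · exact absurd h k.2.2.2
      · have : k = l := Subtype.ext h
        rw [this]) f hfi (by
      rintro (_ | _ | k)
      · change t₁ ∈ A' i
        rw [hi']; exact ht₁.1.1.1
      · change t₂ ∈ A' j
        rw [hj']; exact ht₂.1.1.1
      · exact (mem_sdiff.1 (hτ k)).1) (by
      rintro (_ | _ | k)
      · exact hi'.subset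
      · exact hj'.subset
      · exact k.2.1) (by
      rintro (_ | _ | k)
      · exact ht₁.1.1.2
      · exact ht₂.1.1.2
      · exact (mem_sdiff.1 (hτ k)).2)
    have hWY : H \ univ.image f = W ∪ Y := by
      symm
      apply eq_of_subset_of_card_le
      · intro e he
        rw [mem_sdiff]
        rcases mem_union.1 he with he | he
        · have h1 := hW he
          simp only [mem_sdiff] at h1
          refine ⟨h1.1.1, fun h => ?_⟩
          obtain ⟨k, -, hk⟩ := mem_image.1 h
          rcases k with _ | _ | k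
          · exact ht₁.2 (by have h5 : t₁ = e := hk; rw [h5]; exact he)
          · exact ht₂.2 (by have h5 : t₂ = e := hk; rw [h5]; exact he)
          · exact h1.2 (by
              have h5 : τ k = e := hk
              rw [← h5]
              exact mem_image_of_mem _ (mem_univ _))
        · refine ⟨hYH he, fun h => ?_⟩
          obtain ⟨k, -, hk⟩ := mem_image.1 h
          rcases k with _ | _ | k
          · exact ht₁.1.1.2 (by have h5 : t₁ = e := hk; rw [h5]; exact he)
          · exact ht₂.1.1.2 (by have h5 : t₂ = e := hk; rw [h5]; exact he)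
          · exact (mem_sdiff.1 (hτ k)).2 (by have h5 : τ k = e := hk; rw [h5]; exact he)
      · have hfH : univ.image f ⊆ H := by
          intro e he
          obtain ⟨k, -, rfl⟩ := mem_image.1 he
          rcases k with _ | _ | k
          · exact ht₁.1.1.1
          · exact ht₂.1.1.1
          · exact (mem_sdiff.1 (hτH (mem_image_of_mem τ (mem_univ k)))).1
        have h1 := card_sdiff_add_card_eq_card hfH
        have h2 : (univ.image f).card = Fintype.card ι₁ + 2 := by
          rw [card_image_of_injective _ hfi, card_univ, Fintype.card_option,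
            Fintype.card_option]
        have h3 : Disjoint W Y := by
          rw [disjoint_left]
          intro e he hY'
          have := hW he
          simp only [mem_sdiff] at this
          exact this.1.2 hY'
        rw [card_union_of_disjoint h3]
        omega
    rw [hWY] at key
    have h3 : Disjoint W Y := by
      rw [disjoint_left]
      intro e he hY'
      have := hW he
      simp only [mem_sdiff] at this
      exact this.1.2 hY'
    unfold Ind
    rw [key, card_union_of_disjoint h3, hWc]

/-- Two spanning members above an independent `Y`: a uniform restriction of corank two of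
`N / Y`. -/
theorem exists_uniform {ι : Type*} [Fintype ι] {A : ι → Finset E} {Y : Finset E}
    (hY : Ind N Y) (hA : IsMason N Y univ A) {i j : ι} (hij : i ≠ j)
    (hi : cl N (A i ∪ Y) = univ) (hj : cl N (A j ∪ Y) = univ) :
    ∃ T, Disjoint T Y ∧ T.card + Y.card = rk N univ + 2 ∧
      ∀ W ⊆ T, W.card + Y.card = rk N univ → Ind N (W ∪ Y) := by
  obtain ⟨T, -, h⟩ := lu_uniform hY (subset_univ _) isFl_univ hA hij hi hj
  exact ⟨T, h⟩

variable {K : Type*} [Field K] [Fintype K]

/-- `U_{s,s+2}`, `4 ≤ s`, is not a restriction of a configuration over a field with four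
elements. -/
theorem lu_no_uniform {V : Type*} [AddCommGroup V] [Module K V] [FiniteDimensional K V]
    (hK : Fintype.card K = 4) {v : E → V} {T : Finset E} {s : ℕ} (hs : 4 ≤ s)
    (hT : T.card = s + 2) (hr : Ca3.rk K v T ≤ s)
    (h : ∀ W ⊆ T, W.card = s → Ca3.Ind K v W) : False := by
  obtain ⟨Z, hZT, hZc⟩ := exists_subset_card_eq (s := T) (n := s - 4) (by omega)
  have c1 := card_sdiff_add_card_eq_card hZT
  refine no_U46 hK (v := v) (Z := Z) (T := T \ Z) (by omega) disjoint_sdiff ?_ ?_
  · rw [union_sdiff_of_subset hZT]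
    omega
  · intro W hW hWc
    apply h
    · exact union_subset hZT (hW.trans sdiff_subset)
    · rw [card_union_of_disjoint, hZc, hWc]
      · omega
      · exact disjoint_sdiff.mono_right hW

/-- In a contraction `N / x` of rank at least four at most one member spans. -/
theorem spanning_le_one (hK : Fintype.card K = 4) (hN : Simple N) (hq : RepC K N)
    (h5 : 5 ≤ rk N univ) {x : E} {ι : Type*} [Fintype ι] {A : ι → Finset E}
    (hA : IsMason N {x} univ A) {i j : ι} (hij : i ≠ j)
    (hi : cl N (A i ∪ {x}) = univ) (hj : cl N (A j ∪ {x}) = univ) : False := by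
  obtain ⟨n, w, hw⟩ := hq x
  have hx : Ind N {x} := by
    unfold Ind
    rw [hN.1 x, card_singleton]
  obtain ⟨T, hd, hc, hT⟩ := exists_uniform hx hA hij hi hj
  rw [card_singleton] at hc
  have hxT : x ∉ T := fun h => disjoint_left.1 hd h (mem_singleton_self x)
  refine lu_no_uniform hK (v := w) (T := T) (s := rk N univ - 1) (by omega) (by omega) ?_ ?_
  · have h1 := hw T
    have h2 := rk_mono (N := N) (subset_univ (insert x T))
    have h3 := hN.1 x
    omega
  · intro W hW hWc
    have h1 := hw W
    have h2 := hT W hW (by rw [card_singleton]; omega)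
    have h3 := hN.1 x
    have h4 : W ∪ {x} = insert x W := by rw [union_comm]; rfl
    rw [h4] at h2
    have h5' : (insert x W).card = W.card + 1 := card_insert_of_notMem fun h => hxT (hW h)
    unfold Ind at h2
    unfold Ca3.Ind
    omega

/-- `alpha ≤ 1` for proper flats of rank at least four. -/
theorem alpha_le_one (hK : Fintype.card K = 4) (hN : Simple N) (hq : RepC K N)
    {H : Finset E} (hH : IsFl N H) (hne : H ≠ univ) (h4 : 4 ≤ rk N H) (hs : SG N ∅ H) :
    alpha N H ≤ 1 := by
  classical
  by_contra hcon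
  obtain ⟨n, A, hA⟩ := hs
  have hb := beta_empty hA hH (subset_refl H)
  have hc : 1 < (univ.filter (fun i => cl N (A i) = H)).card := by
    have : (1 : ℤ) < ((univ.filter (fun i => cl N (A i) = H)).card : ℤ) := by
      rw [hb]; omega
    exact_mod_cast this
  obtain ⟨i, hi, j, hj, hij⟩ := one_lt_card.1 hc
  rw [mem_filter] at hi hj
  obtain ⟨T, hTH, -, hTc, hT⟩ := lu_uniform (ind_empty) (empty_subset H) hH hA hij
    (by rw [union_empty]; exact hi.2) (by rw [union_empty]; exact hj.2)
  obtain ⟨x, hx⟩ : ∃ x, x ∉ H := by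
    by_contra h
    push Not at h
    exact hne (eq_univ_iff_forall.2 h)
  obtain ⟨m, w, hw⟩ := hq x
  rw [card_empty] at hTc
  refine lu_no_uniform hK (v := w) (T := T) (s := rk N H) h4 (by omega) ?_ ?_
  · rw [hw.rk_off hN hH hx hTH]
    exact rk_mono hTH
  · intro W hW hWc
    have h2 := hT W hW (by rw [card_empty]; omega)
    rw [union_empty] at h2
    unfold Ca3.Ind
    rw [hw.rk_off hN hH hx (hW.trans hTH)]
    exact h2

end Ca3.Ab
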