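import Pool.Agent.Lib.MP_ca3eb1_co.Ck

/-! # Module M7: common lemmas on two planes in rank four -/

set_option linter.unusedSectionVars false

namespace Ca3

open Finset Submodule

variable {K V E : Type*} [Field K] [Fintype K] [AddCommGroup V] [Module K V]
  [FiniteDimensional K V] [Fintype E] [DecidableEq E]

/-- a projective line over `GF(4)` has at most five points -/
theorem pts_card (hK : Fintype.card K = 4) (m : Submodule K V) (hm : Module.finrank K m ≤ 2)
    (S : Finset (Submodule K V)) (hS : ∀ W ∈ S, W ≤ m ∧ Module.finrank K W = 1) :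
    S.card ≤ 5 := by
  classical
  have h1 : ∀ W : S, ∃ x : V, x ≠ 0 ∧ (W : Submodule K V) = span K {x} := by
    rintro ⟨W, hW⟩
    obtain ⟨x, hx, hx'⟩ := finrank_eq_one_iff'.1 (hS W hW).2
    refine ⟨x, fun h => hx (Subtype.ext h), le_antisymm (fun w hw => ?_) ?_⟩
    · obtain ⟨c, hc⟩ := hx' ⟨w, hw⟩
      have : c • (x : V) = w := congrArg Subtype.val hc
      rw [← this]
      exact smul_mem _ _ (mem_span_singleton_self _)
    · rw [span_singleton_le_iff_mem]; exact x.2
  choose g hg0 hg using h1
  have hsim : Simple K g := by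
    refine ⟨hg0, fun a b hab => ?_⟩
    have h2 : (a : Submodule K V) ≤ b := by
      rw [hg a, hg b, span_singleton_le_iff_mem]; exact hab
    have h3 : (a : Submodule K V) = b :=
      eq_of_le_of_finrank_le h2 (by rw [(hS a a.2).2, (hS b b.2).2])
    exact Subtype.ext h3
  have hr : rk K g univ ≤ 2 := by
    refine le_trans (finrank_mono ?_) hm
    rw [sp_le_iff]
    intro a _
    have : g a ∈ (a : Submodule K V) := by
      rw [hg a]; exact mem_span_singleton_self _
    exact (hS a a.2).1 this
  have := line_card_le hK hsim hr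
  simpa using this

/-- a flat of rank at most two containing a member of the family has rank two and at least
three elements -/
theorem three_of_cnt {v : E → V} (hv : Simple K v) {ι : Type*} [Fintype ι] {A : ι → Finset E}
    (hA : IsMason K v ∅ univ A) {F : Finset E} (hF : IsFl K v F) (hr : rk K v F ≤ 2)
    (hc : 1 ≤ cnt A F) : rk K v F = 2 ∧ 3 ≤ F.card := by
  have h1 := hA.eq (empty_subset _) (subset_univ F) hF
  have h2 : rk K v F = 0 ∨ rk K v F = 1 ∨ rk K v F = 2 := by omega
  rcases h2 with h2 | h2 | h2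
  · have := hv.card_le_one (X := F) (by omega)
    have h3 : F.card = 1 := by omega
    obtain ⟨a, rfl⟩ := card_eq_one.1 h3
    rw [hv.rk_singleton] at h2; omega
  · have := hv.card_le_one (X := F) (by omega)
    omega
  · omega

theorem sp_le_of_two {v : E → V} (hv : Simple K v) {F P : Finset E} (hr : rk K v F ≤ 2)
    {a b : E} (hab : a ≠ b) (ha : a ∈ F) (hb : b ∈ F) (ha' : a ∈ P) (hb' : b ∈ P) :
    sp K v F ≤ sp K v P := by
  have h1 : ({a, b} : Finset E) ⊆ F := by
    intro x hx
    rcases mem_insert.1 hx with rfl | hx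
    · exact ha
    · rw [mem_singleton] at hx; subst hx; exact hb
  have h2 : ({a, b} : Finset E) ⊆ P := by
    intro x hx
    rcases mem_insert.1 hx with rfl | hx
    · exact ha'
    · rw [mem_singleton] at hx; subst hx; exact hb'
  have h3 := sp_eq_of_subset_of_rk_le (K := K) (v := v) h1 (by rw [hv.rk_pair hab]; exact hr)
  rw [← h3]
  exact sp_mono h2

/-- a flat of rank at most two with two elements in a flat `P` lies in `P` -/
theorem fl_sub_of_two {v : E → V} (hv : Simple K v) {F P : Finset E} (hP : IsFl K v P)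
    (hr : rk K v F ≤ 2)
    {a b : E} (hab : a ≠ b) (ha : a ∈ F) (hb : b ∈ F) (ha' : a ∈ P) (hb' : b ∈ P) : F ⊆ P :=
  hP.sp_le_iff_subset.1 (sp_le_of_two hv hr hab ha hb ha' hb')

/-- two planes -/
theorem finrank_mm {v : E → V} (h4 : rk K v univ = 4) {P1 P2 : Finset E} (hP1 : IsFl K v P1)
    (hP2 : IsFl K v P2) (hr1 : rk K v P1 = 3) (hr2 : rk K v P2 = 3) (hne : P1 ≠ P2) :
    Module.finrank K (sp K v P1 ⊓ sp K v P2 : Submodule K V) = 2 := by
  have h1 := finrank_sup_add_finrank_inf_eq (sp K v P1) (sp K v P2)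
  have h2 : Module.finrank K (sp K v P1 ⊔ sp K v P2 : Submodule K V) = rk K v (P1 ∪ P2) := by
    unfold rk; rw [sp_union]
  have h3 : rk K v (P1 ∪ P2) ≤ 4 := h4 ▸ rk_mono (subset_univ _)
  have h4' : ¬ rk K v (P1 ∪ P2) ≤ 3 := by
    intro h
    have e1 := hP1.eq_of_subset_of_rk_le (G := P1 ∪ P2) subset_union_left (by omega)
    have e2 := hP2.eq_of_subset_of_rk_le (G := P1 ∪ P2) subset_union_right (by omega)
    exact hne (e1.trans e2.symm)
  unfold rk at *
  omega

/-- the trace of the line of a pair on the line `m` is a point -/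
theorem q_finrank {v : E → V} (hv : Simple K v) {P : Finset E} {m : Submodule K V}
    (hm : Module.finrank K m = 2) (hmP : m ≤ sp K v P) (hr : rk K v P = 3)
    {p : Finset E} (hp : p ⊆ P) (hp2 : p.card = 2) (hpm : ∃ a ∈ p, v a ∉ m) :
    Module.finrank K (sp K v p ⊓ m : Submodule K V) = 1 := by
  have h1 := finrank_sup_add_finrank_inf_eq (sp K v p) m
  have h2 : rk K v p = 2 := by
    rw [(hv.ind_of_card_le_two (X := p) hp2.le).rk_eq_card, hp2]
  have h3 : Module.finrank K (sp K v p ⊔ m : Submodule K V) ≤ rk K v P :=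
    finrank_mono (sup_le (sp_mono hp) hmP)
  have h4 : ¬ 2 ≤ Module.finrank K (sp K v p ⊓ m : Submodule K V) := by
    intro h
    have e : sp K v p ⊓ m = sp K v p :=
      eq_of_le_of_finrank_le inf_le_left (by unfold rk at h2; omega)
    obtain ⟨a, ha, ham⟩ := hpm
    have : v a ∈ sp K v p ⊓ m := by rw [e]; exact mem_sp ha
    exact ham this.2
  unfold rk at h2
  omega

/-- two pairs with a common element and the same trace on `m` span the same line -/
theorem q_inj {v : E → V} (hv : Simple K v) {m : Submodule K V}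
    {p p' : Finset E} (hp2 : p.card = 2) (hp2' : p'.card = 2) {a : E} (ha : a ∈ p)
    (ha' : a ∈ p') (ham : v a ∉ m)
    (h1 : Module.finrank K (sp K v p ⊓ m : Submodule K V) = 1)
    (he : sp K v p ⊓ m = sp K v p' ⊓ m) : sp K v p = sp K v p' := by
  have key : ∀ r : Finset E, r.card = 2 → a ∈ r → sp K v p ⊓ m ≤ sp K v r →
      span K {v a} ⊔ (sp K v p ⊓ m) = sp K v r := by
    intro r hr har hle
    have hr2 : Module.finrank K (sp K v r) = 2 := by
      have := (hv.ind_of_card_le_two (X := r) hr.le).rk_eq_card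
      unfold rk at this; omega
    refine eq_of_le_of_finrank_le (sup_le ?_ hle) ?_
    · rw [span_singleton_le_iff_mem]; exact mem_sp har
    · have h2 := finrank_sup_add_finrank_inf_eq (span K {v a}) (sp K v p ⊓ m)
      have h3 : span K {v a} ⊓ (sp K v p ⊓ m) = ⊥ := by
        rw [eq_bot_iff]
        rintro x ⟨hx1, hx2⟩
        obtain ⟨c, rfl⟩ := mem_span_singleton.1 hx1
        by_cases hc : c = 0
        · simp [hc]
        · exfalso
          apply ham
          have := smul_mem _ c⁻¹ hx2.2
          rwa [smul_smul, inv_mul_cancel₀ hc, one_smul] at this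
      rw [h3, finrank_bot, finrank_span_singleton (hv.1 a), h1] at h2
      omega
  rw [← key p hp2 ha inf_le_left, ← key p' hp2' ha' (by rw [he]; exact inf_le_left)]

end Ca3
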