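import Mathlib

/-! # Module W6b: algebra of seven points over GF(4) -/

set_option linter.unusedSectionVars false

namespace Ca3

open Submodule

variable {K V : Type*} [Field K] [Fintype K] [AddCommGroup V] [Module K V]

theorem seven_two_eq_zero (hK : Fintype.card K = 4) : (2 : K) = 0 := by
  have h := FiniteField.cast_card_eq_zero K
  rw [hK] at h
  have h4 : (2 : K) ^ 2 = 0 := by
    have : ((4 : ℕ) : K) = (2 : K) ^ 2 := by norm_num
    rw [← this]; exact h
  exact pow_eq_zero_iff (two_ne_zero) |>.1 h4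

theorem seven_root (hK : Fintype.card K = 4) {k : K} (h0 : k ≠ 0) (h1 : k ≠ 1) : k ^ 2 + k + 1 = 0 := by
  have h := FiniteField.pow_card_sub_one_eq_one k h0
  rw [hK] at h
  have h3 : (k - 1) * (k ^ 2 + k + 1) = 0 := by
    have : k ^ 3 = 1 := h
    linear_combination this
  rcases mul_eq_zero.1 h3 with h | h
  · exact absurd (sub_eq_zero.1 h) h1
  · exact h

theorem seven_scal (hK : Fintype.card K = 4) {x y z : K} (hx : x ≠ 0) (hy : y ≠ 0) (hz : z ≠ 0) :
    x = 1 ∨ y = 1 ∨ z = 1 ∨ y * (x - 1) = x ∨ z * (1 - x) = 1 ∨ y + z = 1 := by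
  by_cases x1 : x = 1
  · exact Or.inl x1
  by_cases y1 : y = 1
  · exact Or.inr (Or.inl y1)
  by_cases z1 : z = 1
  · exact Or.inr (Or.inr (Or.inl z1))
  have h2 := seven_two_eq_zero hK
  have ex := seven_root hK hx x1
  have ey := seven_root hK hy y1
  have ez := seven_root hK hz z1
  have hyx : (y - x) * (y + x + 1) = 0 := by linear_combination ey - ex
  have hzx : (z - x) * (z + x + 1) = 0 := by linear_combination ez - ex
  rcases mul_eq_zero.1 hyx with h | h
  · rcases mul_eq_zero.1 hzx with h' | h'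
    · refine Or.inr (Or.inr (Or.inr (Or.inr (Or.inl ?_))))
      have : z = x := sub_eq_zero.1 h'
      subst this
      linear_combination -ex + z * h2
    · refine Or.inr (Or.inr (Or.inr (Or.inr (Or.inr ?_))))
      have e1 : y = x := sub_eq_zero.1 h
      subst e1
      linear_combination h' - h2
  · refine Or.inr (Or.inr (Or.inr (Or.inl ?_)))
    have e1 : y = -x - 1 := by linear_combination h
    subst e1
    linear_combination -ex + h2

/-- the algebra of the seven points -/
theorem seven_points (hK : Fintype.card K = 4) {o s1 s2 s3 a1 a2 a3 : V}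
    (hi : LinearIndependent K ![o, s1, s2, s3])
    (h1 : a1 ∈ span K {o, s2, s3}) (h2 : a2 ∈ span K {o, s1, s3}) (h3 : a3 ∈ span K {o, s1, s2})
    (h1a : a1 ∉ span K {o, s2}) (h1b : a1 ∉ span K {o, s3}) (h1c : a1 ∉ span K {s2, s3})
    (h2a : a2 ∉ span K {o, s1}) (h2b : a2 ∉ span K {o, s3}) (h2c : a2 ∉ span K {s1, s3})
    (h3a : a3 ∉ span K {o, s1}) (h3b : a3 ∉ span K {o, s2}) (h3c : a3 ∉ span K {s1, s2}) :
    a2 ∈ span K {a1, s1, s2} ∨ a3 ∈ span K {a1, s1, s3} ∨ a3 ∈ span K {a2, s2, s3} ∨
    a3 ∈ span K {a1, a2, s1} ∨ a3 ∈ span K {a1, a2, s2} ∨ a3 ∈ span K {a1, a2, s3} := by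
  obtain ⟨A, p, q, rfl⟩ := mem_span_triple.1 h1
  obtain ⟨B, r, t, rfl⟩ := mem_span_triple.1 h2
  obtain ⟨C, u, v, rfl⟩ := mem_span_triple.1 h3
  have hq : q ≠ 0 := fun h => h1a (mem_span_pair.2 ⟨A, p, by rw [h]; simp⟩)
  have hp : p ≠ 0 := fun h => h1b (mem_span_pair.2 ⟨A, q, by rw [h]; simp⟩)
  have hA : A ≠ 0 := fun h => h1c (mem_span_pair.2 ⟨p, q, by rw [h]; simp⟩)
  have ht : t ≠ 0 := fun h => h2a (mem_span_pair.2 ⟨B, r, by rw [h]; simp⟩)
  have hr : r ≠ 0 := fun h => h2b (mem_span_pair.2 ⟨B, t, by rw [h]; simp⟩)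
  have hB : B ≠ 0 := fun h => h2c (mem_span_pair.2 ⟨r, t, by rw [h]; simp⟩)
  have hv : v ≠ 0 := fun h => h3a (mem_span_pair.2 ⟨C, u, by rw [h]; simp⟩)
  have hu : u ≠ 0 := fun h => h3b (mem_span_pair.2 ⟨C, v, by rw [h]; simp⟩)
  have hC : C ≠ 0 := fun h => h3c (mem_span_pair.2 ⟨u, v, by rw [h]; simp⟩)
  have hx : t * A / (B * q) ≠ 0 := div_ne_zero (mul_ne_zero ht hA) (mul_ne_zero hB hq)
  have hy : v * A / (C * p) ≠ 0 := div_ne_zero (mul_ne_zero hv hA) (mul_ne_zero hC hp)
  have hz : u * B / (C * r) ≠ 0 := div_ne_zero (mul_ne_zero hu hB) (mul_ne_zero hC hr)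
  have key := seven_scal hK hx hy hz
  rcases key with h | h | h | h | h | h
  · -- `t A = B q`
    have e : t * A = B * q := (div_eq_one_iff_eq (mul_ne_zero hB hq)).1 h
    refine Or.inl (mem_span_triple.2 ⟨B / A, r, -(B / A * p), ?_⟩)
    have e1 : B / A * A = B := div_mul_cancel₀ B hA
    have e2 : B / A * q = t := by field_simp; linear_combination -e
    linear_combination (norm := module) e1 • o + e2 • s3
  · have e : v * A = C * p := (div_eq_one_iff_eq (mul_ne_zero hC hp)).1 h
    refine Or.inr (Or.inl (mem_span_triple.2 ⟨C / A, u, -(C / A * q), ?_⟩))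
    have e1 : C / A * A = C := div_mul_cancel₀ C hA
    have e2 : C / A * p = v := by field_simp; linear_combination -e
    linear_combination (norm := module) e1 • o + e2 • s2
  · have e : u * B = C * r := (div_eq_one_iff_eq (mul_ne_zero hC hr)).1 h
    refine Or.inr (Or.inr (Or.inl (mem_span_triple.2 ⟨C / B, v, -(C / B * t), ?_⟩)))
    have e1 : C / B * B = C := div_mul_cancel₀ C hB
    have e2 : C / B * r = u := by field_simp; linear_combination -e
    linear_combination (norm := module) e1 • o + e2 • s1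
  · refine Or.inr (Or.inr (Or.inr (Or.inl (mem_span_triple.2
      ⟨v / p, -(v * q / (p * t)), u + v * q / (p * t) * r, ?_⟩))))
    have e1 : v / p * A - v * q / (p * t) * B = C := by
      field_simp at h ⊢
      linear_combination h
    have e2 : v / p * p = v := div_mul_cancel₀ v hp
    have e3 : v / p * q - v * q / (p * t) * t = 0 := by field_simp; ring
    linear_combination (norm := module) e1 • o + e2 • s2 + e3 • s3
  · refine Or.inr (Or.inr (Or.inr (Or.inr (Or.inl (mem_span_triple.2
      ⟨-(u * t / (r * q)), u / r, v + u * t / (r * q) * p, ?_⟩)))))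
    have e1 : u / r * B - u * t / (r * q) * A = C := by
      field_simp at h ⊢
      linear_combination h
    have e2 : u / r * r = u := div_mul_cancel₀ u hr
    have e3 : u / r * t - u * t / (r * q) * q = 0 := by field_simp; ring
    linear_combination (norm := module) e1 • o + e2 • s1 + e3 • s3
  · refine Or.inr (Or.inr (Or.inr (Or.inr (Or.inr (mem_span_triple.2
      ⟨v / p, u / r, -(v / p * q + u / r * t), ?_⟩)))))
    have e1 : v / p * A + u / r * B = C := by
      field_simp at h ⊢
      linear_combination h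
    have e2 : v / p * p = v := div_mul_cancel₀ v hp
    have e3 : u / r * r = u := div_mul_cancel₀ u hr
    linear_combination (norm := module) e1 • o + e2 • s2 + e3 • s1

end Ca3
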