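import Pool.Agent.Lib.MP_ca3eb1_co.Pen
import Pool.Agent.Lib.MP_ca3eb1_co.P4
import Pool.Agent.Lib.MP_ca3eb1_co.P4lib
import Pool.Agent.Lib.MP_ca3eb1_co.Seven
import Pool.Agent.Lib.MP_ca3eb1_co.T7

/-! # Module W6c: three heavy planes with a common point -/

set_option linter.unusedSectionVars false

namespace Ca3

open Finset Submodule

section tp

variable {K V E : Type*} [Field K] [Fintype K] [AddCommGroup V] [Module K V]
  [FiniteDimensional K V] [Fintype E] [DecidableEq E] {v : E → V} {n : ℕ} {A : Fin n → Finset E}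

private theorem tp_cnt_zero (hv : Simple K v) (hA : IsMason K v ∅ univ A) {S : Finset E}
    (h : S.card ≤ 2) : cnt A S = 0 := by
  have h1 := hA.le (empty_subset _) (subset_univ S)
  have h2 := (hv.ind_of_card_le_two h).rk_eq_card
  omega

private theorem tp_inter_le (hv : Simple K v) {L L' : Finset E} (hL : IsFl K v L)
    (hL' : IsFl K v L') (r : rk K v L = 2) (r' : rk K v L' = 2) (hne : L ≠ L') :
    (L ∩ L').card ≤ 1 := by
  by_contra hc
  push Not at hc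
  have h1 := hv.two_le_rk (X := L ∩ L') hc
  have h2 := (hL.inter hL').eq_of_subset_of_rk_le (G := L) inter_subset_left (by omega)
  have h3 := (hL.inter hL').eq_of_subset_of_rk_le (G := L') inter_subset_right (by omega)
  exact hne (h2.symm.trans h3)

/-- heavy lines in a heavy plane -/
private theorem tp_sum (hv : Simple K v) (hA : IsMason K v ∅ univ A) {P : Finset E}
    (hP : IsFl K v P) (hr : rk K v P = 3) (hh : ∃ i, cl K v (A i) = P)
    (LL : Finset (Finset E)) (hLL : ∀ L ∈ LL, IsFl K v L ∧ rk K v L = 2 ∧ L ⊆ P) :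
    ∑ L ∈ LL, (L.card - 2) + 4 ≤ P.card := by
  classical
  obtain ⟨i0, hi0⟩ := hh
  have h1 : ∀ L ∈ LL, L.card - 2 = cnt A L := by
    intro L hL
    have := hA.eq (empty_subset _) (subset_univ L) (hLL L hL).1
    have := (hLL L hL).2.1
    omega
  rw [sum_congr rfl h1]
  have h2 : ∑ L ∈ LL, cnt A L = (LL.biUnion (fun L => univ.filter (fun i => A i ⊆ L))).card := by
    unfold cnt
    rw [card_biUnion]
    intro L hL L' hL' hne
    show Disjoint (univ.filter (fun i => A i ⊆ L)) (univ.filter (fun i => A i ⊆ L'))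
    rw [Finset.disjoint_left]
    intro i hi hi'
    rw [mem_filter] at hi hi'
    have h3 := tp_inter_le hv (hLL L hL).1 (hLL L' hL').1 (hLL L hL).2.1 (hLL L' hL').2.1 hne
    have h4 := tp_cnt_zero hv hA (S := L ∩ L') (by omega)
    unfold cnt at h4
    rw [card_eq_zero, filter_eq_empty_iff] at h4
    exact h4 (mem_univ i) (subset_inter hi.2 hi'.2)
  have h3 : (LL.biUnion (fun L => univ.filter (fun i => A i ⊆ L))) ⊆
      (univ.filter (fun i => A i ⊆ P)).erase i0 := by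
    intro i hi
    rw [mem_biUnion] at hi
    obtain ⟨L, hL, hi⟩ := hi
    rw [mem_filter] at hi
    rw [mem_erase, mem_filter]
    refine ⟨?_, mem_univ _, hi.2.trans (hLL L hL).2.2⟩
    rintro rfl
    have h4 : cl K v (A i) ⊆ L := (hLL L hL).1.cl_subset hi.2
    rw [hi0] at h4
    have h5 := rk_mono (K := K) (v := v) h4
    have := (hLL L hL).2.1
    omega
  have h4 : i0 ∈ univ.filter (fun i => A i ⊆ P) := by
    rw [mem_filter]
    exact ⟨mem_univ _, hi0 ▸ subset_cl⟩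
  have h5 := card_le_card h3
  rw [card_erase_of_mem h4] at h5
  have h6 : 0 < (univ.filter (fun i => A i ⊆ P)).card := card_pos.2 ⟨i0, h4⟩
  have h7 := hA.eq (empty_subset _) (subset_univ P) hP
  unfold cnt at h7
  rw [h2]
  omega

private theorem tp_ie {ι : Type*} [DecidableEq ι] (X Y Z : Finset ι) :
    (X ∪ Y ∪ Z).card + (X ∩ Y).card + (X ∩ Z).card + (Y ∩ Z).card =
      X.card + Y.card + Z.card + (X ∩ Y ∩ Z).card := by
  have c1 := card_union_add_card_inter X Y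
  have c2 := card_union_add_card_inter (X ∪ Y) Z
  have c3 := card_union_add_card_inter (X ∩ Z) (Y ∩ Z)
  have c4 : (X ∪ Y) ∩ Z = (X ∩ Z) ∪ (Y ∩ Z) := union_inter_distrib_right _ _ _
  have c5 : (X ∩ Z) ∩ (Y ∩ Z) = X ∩ Y ∩ Z := by
    ext x; simp only [mem_inter]; tauto
  rw [c4] at c2
  rw [c5] at c3
  omega

private theorem tp_part (X Y Z : Finset E) :
    (univ \ X).card = ((Y ∩ Z) \ X).card + (Y \ (X ∪ Z)).card + (Z \ (X ∪ Y)).card +
        (univ \ (X ∪ Y ∪ Z)).card ∧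
      X.card + (X ∩ Y ∩ Z).card = (X ∩ Y).card + (X ∩ Z).card + (X \ (Y ∪ Z)).card ∧
      (Y ∩ Z).card = ((Y ∩ Z) \ X).card + (X ∩ Y ∩ Z).card := by
  have hc : ∀ S : Finset E, S.card = ∑ e : E, if e ∈ S then 1 else 0 := by
    intro S
    rw [← card_filter]
    congr 1
    ext e; simp
  simp only [hc]
  simp only [← sum_add_distrib]
  refine ⟨?_, ?_, ?_⟩ <;>
  · apply sum_congr rfl
    intro e _
    simp only [mem_sdiff, mem_inter, mem_union, mem_univ, true_and]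
    by_cases h1 : e ∈ X <;> by_cases h2 : e ∈ Y <;> by_cases h3 : e ∈ Z <;> simp [h1, h2, h3]

/-- the data of three heavy planes -/
private structure TP (v : E → V) (A : Fin n → Finset E) (P1 P2 P3 : Finset E) (o : E) : Prop where
  hv : Simple K v
  hA : IsMason K v ∅ univ A
  h4 : rk K v univ = 4
  f1 : IsFl K v P1
  f2 : IsFl K v P2
  f3 : IsFl K v P3
  r1 : rk K v P1 = 3
  r2 : rk K v P2 = 3
  r3 : rk K v P3 = 3
  i1 : ∃ i, cl K v (A i) = P1
  i2 : ∃ i, cl K v (A i) = P2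
  i3 : ∃ i, cl K v (A i) = P3
  r12 : rk K v (P1 ∩ P2) = 2
  r13 : rk K v (P1 ∩ P3) = 2
  r23 : rk K v (P2 ∩ P3) = 2
  ho : P1 ∩ P2 ∩ P3 = {o}

variable {P1 P2 P3 : Finset E} {o : E}

private theorem TP.swap23 (h : TP (K := K) v A P1 P2 P3 o) : TP (K := K) v A P1 P3 P2 o where
  hv := h.hv
  hA := h.hA
  h4 := h.h4
  f1 := h.f1
  f2 := h.f3
  f3 := h.f2
  r1 := h.r1
  r2 := h.r3
  r3 := h.r2
  i1 := h.i1
  i2 := h.i3
  i3 := h.i2
  r12 := h.r13
  r13 := h.r12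
  r23 := by rw [inter_comm]; exact h.r23
  ho := by
    rw [← h.ho]; ext x; simp only [mem_inter]; tauto

private theorem TP.rot (h : TP (K := K) v A P1 P2 P3 o) : TP (K := K) v A P2 P3 P1 o where
  hv := h.hv
  hA := h.hA
  h4 := h.h4
  f1 := h.f2
  f2 := h.f3
  f3 := h.f1
  r1 := h.r2
  r2 := h.r3
  r3 := h.r1
  i1 := h.i2
  i2 := h.i3
  i3 := h.i1
  r12 := h.r23
  r13 := by rw [inter_comm]; exact h.r12
  r23 := by rw [inter_comm]; exact h.r13
  ho := by
    rw [← h.ho]; ext x; simp only [mem_inter]; tauto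

private theorem TP.ne12 (h : TP (K := K) v A P1 P2 P3 o) : P1 ≠ P2 := by
  rintro rfl
  have h1 := h.r12
  rw [inter_self, h.r1] at h1
  omega

private theorem TP.rkU (h : TP (K := K) v A P1 P2 P3 o) : rk K v (P1 ∪ P2 ∪ P3) = 4 := by
  apply le_antisymm
  · rw [← h.h4]; exact rk_mono (subset_univ _)
  · by_contra hc
    push Not at hc
    have h1 : rk K v (P1 ∪ P2) ≤ 3 := by
      have := rk_mono (K := K) (v := v) (subset_union_left (s₁ := P1 ∪ P2) (s₂ := P3))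
      omega
    have e1 := h.f1.eq_of_subset_of_rk_le (G := P1 ∪ P2) subset_union_left (by rw [h.r1]; exact h1)
    have e2 := h.f2.eq_of_subset_of_rk_le (G := P1 ∪ P2) subset_union_right (by rw [h.r2]; exact h1)
    exact h.ne12 (e1.trans e2.symm)

private theorem TP.mo (h : TP (K := K) v A P1 P2 P3 o) : o ∈ P1 ∧ o ∈ P2 ∧ o ∈ P3 := by
  have : o ∈ P1 ∩ P2 ∩ P3 := by rw [h.ho]; exact mem_singleton_self o
  rw [mem_inter, mem_inter] at this
  exact ⟨this.1.1, this.1.2, this.2⟩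

private theorem TP.eq_o (h : TP (K := K) v A P1 P2 P3 o) {x : E} (h1 : x ∈ P1) (h2 : x ∈ P2)
    (h3 : x ∈ P3) : x = o := by
  have : x ∈ P1 ∩ P2 ∩ P3 := by
    rw [mem_inter, mem_inter]; exact ⟨⟨h1, h2⟩, h3⟩
  rw [h.ho] at this
  exact mem_singleton.1 this

private theorem TP.others (h : TP (K := K) v A P1 P2 P3 o) :
    (∀ i, A i ⊆ P1 ∪ P2 ∪ P3 → A i ⊆ P1 ∨ A i ⊆ P2 ∨ A i ⊆ P3) ∧
    (univ.filter (fun i => ¬ (A i ⊆ P1 ∨ A i ⊆ P2 ∨ A i ⊆ P3))).card =
      (univ \ (P1 ∪ P2 ∪ P3)).card := by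
  classical
  have e1 := h.hA.eq (empty_subset _) (subset_univ _) h.f1
  have e2 := h.hA.eq (empty_subset _) (subset_univ _) h.f2
  have e3 := h.hA.eq (empty_subset _) (subset_univ _) h.f3
  have e12 := h.hA.eq (empty_subset _) (subset_univ _) (h.f1.inter h.f2)
  have e13 := h.hA.eq (empty_subset _) (subset_univ _) (h.f1.inter h.f3)
  have e23 := h.hA.eq (empty_subset _) (subset_univ _) (h.f2.inter h.f3)
  have eo := tp_cnt_zero h.hv h.hA (S := P1 ∩ P2 ∩ P3) (by rw [h.ho]; simp)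
  have eU := h.hA.le (empty_subset _) (subset_univ (P1 ∪ P2 ∪ P3))
  have eE := h.hA.eq (empty_subset _) (subset_univ univ) isFl_univ
  rw [h.r1] at e1
  rw [h.r2] at e2
  rw [h.r3] at e3
  rw [h.r12] at e12
  rw [h.r13] at e13
  rw [h.r23] at e23
  rw [h.rkU] at eU
  rw [h.h4] at eE
  have cU := tp_ie P1 P2 P3
  rw [h.ho, card_singleton] at cU
  have cN := tp_ie (univ.filter (fun i => A i ⊆ P1)) (univ.filter (fun i => A i ⊆ P2))
    (univ.filter (fun i => A i ⊆ P3))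
  have k12 : (univ.filter (fun i => A i ⊆ P1)) ∩ (univ.filter (fun i => A i ⊆ P2)) =
      univ.filter (fun i => A i ⊆ P1 ∩ P2) := by
    ext i; simp only [mem_inter, mem_filter, mem_univ, true_and, subset_inter_iff]
  have k13 : (univ.filter (fun i => A i ⊆ P1)) ∩ (univ.filter (fun i => A i ⊆ P3)) =
      univ.filter (fun i => A i ⊆ P1 ∩ P3) := by
    ext i; simp only [mem_inter, mem_filter, mem_univ, true_and, subset_inter_iff]
  have k23 : (univ.filter (fun i => A i ⊆ P2)) ∩ (univ.filter (fun i => A i ⊆ P3)) =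
      univ.filter (fun i => A i ⊆ P2 ∩ P3) := by
    ext i; simp only [mem_inter, mem_filter, mem_univ, true_and, subset_inter_iff]
  have k123 : (univ.filter (fun i => A i ⊆ P1)) ∩ (univ.filter (fun i => A i ⊆ P2)) ∩
      (univ.filter (fun i => A i ⊆ P3)) = univ.filter (fun i => A i ⊆ P1 ∩ P2 ∩ P3) := by
    ext i; simp only [mem_inter, mem_filter, mem_univ, true_and, subset_inter_iff]
  have kU : (univ.filter (fun i => A i ⊆ P1)) ∪ (univ.filter (fun i => A i ⊆ P2)) ∪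
      (univ.filter (fun i => A i ⊆ P3)) =
      univ.filter (fun i => A i ⊆ P1 ∨ A i ⊆ P2 ∨ A i ⊆ P3) := by
    ext i; simp only [mem_union, mem_filter, mem_univ, true_and]; tauto
  rw [k123, kU, k12, k13, k23] at cN
  unfold cnt at e1 e2 e3 e12 e13 e23 eo eU eE
  have hsub : univ.filter (fun i => A i ⊆ P1 ∨ A i ⊆ P2 ∨ A i ⊆ P3) ⊆
      univ.filter (fun i => A i ⊆ P1 ∪ P2 ∪ P3) := by
    intro i hi
    rw [mem_filter] at hi ⊢
    refine ⟨mem_univ _, ?_⟩
    rcases hi.2 with hi | hi | hi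
    · exact hi.trans (subset_union_left.trans subset_union_left)
    · exact hi.trans (subset_union_right.trans subset_union_left)
    · exact hi.trans subset_union_right
  have hle := card_le_card hsub
  have heq := eq_of_subset_of_card_le hsub (by omega)
  constructor
  · intro i hi
    have : i ∈ univ.filter (fun i => A i ⊆ P1 ∪ P2 ∪ P3) := mem_filter.2 ⟨mem_univ _, hi⟩
    rw [← heq, mem_filter] at this
    exact this.2
  · have h1 := card_filter_add_card_filter_not (s := (univ : Finset (Fin n)))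
      (fun i => A i ⊆ P1 ∨ A i ⊆ P2 ∨ A i ⊆ P3)
    have h2 : (univ.filter (fun i => A i ⊆ (univ : Finset E))).card = n := by simp
    have h3 := card_sdiff_add_card_eq_card (subset_univ (P1 ∪ P2 ∪ P3))
    rw [h2] at eE
    rw [card_univ, Fintype.card_fin] at h1
    omega

/-- a plane with four elements, different from the `P_i`, all elements in the union -/
private theorem TP.plane (h : TP (K := K) v A P1 P2 P3 o) {Q : Finset E} (hQ : IsFl K v Q)
    (hr : rk K v Q = 3) (hQ1 : Q ≠ P1) (hQ2 : Q ≠ P2) (hQ3 : Q ≠ P3) (hc : 4 ≤ Q.card)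
    (hU : Q ⊆ P1 ∪ P2 ∪ P3) :
    (rk K v (Q ∩ P1) = 2 ∧ 3 ≤ (Q ∩ P1).card) ∨ (rk K v (Q ∩ P2) = 2 ∧ 3 ≤ (Q ∩ P2).card) ∨
      (rk K v (Q ∩ P3) = 2 ∧ 3 ≤ (Q ∩ P3).card) := by
  have e := h.hA.eq (empty_subset _) (subset_univ Q) hQ
  have h1 : 0 < cnt A Q := by omega
  unfold cnt at h1
  obtain ⟨i, hi⟩ := card_pos.1 h1
  rw [mem_filter] at hi
  have key : ∀ P, IsFl K v P → rk K v P = 3 → Q ≠ P → A i ⊆ P →
      rk K v (Q ∩ P) = 2 ∧ 3 ≤ (Q ∩ P).card := by
    intro P hP hrP hne hiP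
    apply three_of_cnt h.hv h.hA (hQ.inter hP)
    · by_contra hc
      have h2 := (hQ.inter hP).eq_of_subset_of_rk_le (G := Q) inter_subset_left (by omega)
      have h3 := (hQ.inter hP).eq_of_subset_of_rk_le (G := P) inter_subset_right (by omega)
      exact hne (h2.symm.trans h3)
    · unfold cnt
      apply card_pos.2
      exact ⟨i, mem_filter.2 ⟨mem_univ _, subset_inter hi.2 hiP⟩⟩
  rcases h.others.1 i (hi.2.trans hU) with h2 | h2 | h2
  · exact Or.inl (key P1 h.f1 h.r1 hQ1 h2)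
  · exact Or.inr (Or.inl (key P2 h.f2 h.r2 hQ2 h2))
  · exact Or.inr (Or.inr (key P3 h.f3 h.r3 hQ3 h2))

/-- two coplanar elements give a plane not containing `o` -/
private theorem TP.coinc (h : TP (K := K) v A P1 P2 P3 o) {s a : E} (hs1 : s ∈ P1) (hs2 : s ∈ P2)
    (hso : s ≠ o) (ha1 : a ∉ P1) (ha2 : a ∉ P2) {y y' : E}
    (hy : y = o ∨ (y ∈ P1 ∧ y ∉ P2) ∨ (y ∈ P2 ∧ y ∉ P1))
    (hy' : y' = o ∨ (y' ∈ P1 ∧ y' ∉ P2) ∨ (y' ∈ P2 ∧ y' ∉ P1))
    (hne : y ≠ y') (hc : v y ∈ sp K v (insert y' {s, a})) :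
    ∃ Q, IsFl K v Q ∧ rk K v Q = 3 ∧ s ∈ Q ∧ a ∈ Q ∧ y ∈ Q ∧ y' ∈ Q ∧ o ∉ Q ∧ 4 ≤ Q.card := by
  classical
  have hsa : s ≠ a := by rintro rfl; exact ha1 hs1
  have hy0 : y ≠ s := by
    rintro rfl
    rcases hy with h1 | h1 | h1
    · exact hso h1
    · exact h1.2 hs2
    · exact h1.2 hs1
  have hy0' : y' ≠ s := by
    rintro rfl
    rcases hy' with h1 | h1 | h1
    · exact hso h1
    · exact h1.2 hs2
    · exact h1.2 hs1
  have hP12 : ∀ z, z = o ∨ (z ∈ P1 ∧ z ∉ P2) ∨ (z ∈ P2 ∧ z ∉ P1) → z ∈ P1 ∨ z ∈ P2 := by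
    rintro z (rfl | h1 | h1)
    · exact Or.inl h.mo.1
    · exact Or.inl h1.1
    · exact Or.inr h1.1
  have hya : y ≠ a := by
    rintro rfl
    rcases hP12 _ hy with h1 | h1
    · exact ha1 h1
    · exact ha2 h1
  have hya' : y' ≠ a := by
    rintro rfl
    rcases hP12 _ hy' with h1 | h1
    · exact ha1 h1
    · exact ha2 h1
  have hns : v y' ∉ sp K v {s, a} := by
    intro h1
    have hrs : rk K v (cl K v {s, a}) ≤ 2 := by
      rw [rk_cl, h.hv.rk_pair hsa]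
    have ms : s ∈ cl K v {s, a} := subset_cl (by simp)
    have ma : a ∈ cl K v {s, a} := subset_cl (by simp)
    have my : y' ∈ cl K v {s, a} := mem_cl.2 h1
    rcases hP12 _ hy' with h2 | h2
    · exact ha1 (fl_sub_of_two h.hv h.f1 hrs hy0'.symm ms my hs1 h2 ma)
    · exact ha2 (fl_sub_of_two h.hv h.f2 hrs hy0'.symm ms my hs2 h2 ma)
  set Q := cl K v (insert y' {s, a}) with hQ
  have hQf : IsFl K v Q := isFl_cl
  have hQr : rk K v Q = 3 := by
    rw [hQ, rk_cl, rk_insert_of_not_mem_sp hns, h.hv.rk_pair hsa]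
  have mS : s ∈ Q := subset_cl (by simp)
  have mA : a ∈ Q := subset_cl (by simp)
  have mY' : y' ∈ Q := subset_cl (by simp)
  have mY : y ∈ Q := mem_cl.2 hc
  have hQ1 : Q ≠ P1 := by rintro h1; exact ha1 (h1 ▸ mA)
  have hQ2 : Q ≠ P2 := by rintro h1; exact ha2 (h1 ▸ mA)
  -- an element of P1 or P2 outside the line, together with o, s, gives the whole plane
  have key : ∀ P, IsFl K v P → rk K v P = 3 → (∀ P', IsFl K v P' → rk K v (P ∩ P') = 2 →
      s ∈ P' → o ∈ P' → s ∈ P → o ∈ P → ∀ z ∈ P, z ∉ P' → z ∈ Q → o ∈ Q → Q = P) := by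
    intro P hP hrP P' hP' hr' hs' ho' hs ho z hz hz' hzQ hoQ
    have h1 : v z ∉ sp K v {s, o} := by
      intro h2
      apply hz'
      apply hP'.mem
      have h3 : sp K v {s, o} ≤ sp K v P' := sp_mono (by
        intro x hx
        rcases mem_insert.1 hx with rfl | hx
        · exact hs'
        · rw [mem_singleton] at hx; subst hx; exact ho')
      exact h3 h2
    have h2 : rk K v (insert z {s, o}) = 3 := by
      rw [rk_insert_of_not_mem_sp h1, h.hv.rk_pair hso]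
    have h3 : (insert z {s, o} : Finset E) ⊆ Q := by
      intro x hx
      rcases mem_insert.1 hx with rfl | hx
      · exact hzQ
      · rcases mem_insert.1 hx with rfl | hx
        · exact mS
        · rw [mem_singleton] at hx; subst hx; exact hoQ
    have h4 : (insert z {s, o} : Finset E) ⊆ P := by
      intro x hx
      rcases mem_insert.1 hx with rfl | hx
      · exact hz
      · rcases mem_insert.1 hx with rfl | hx
        · exact hs
        · rw [mem_singleton] at hx; subst hx; exact ho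
    have h5 : cl K v (insert z {s, o}) = Q := hQf.cl_eq h3 (by omega)
    have h6 : cl K v (insert z {s, o}) = P := hP.cl_eq h4 (by omega)
    exact h5.symm.trans h6
  have hoQ : o ∉ Q := by
    intro hoQ
    have h1 : ∀ z, z ≠ o → (z = o ∨ (z ∈ P1 ∧ z ∉ P2) ∨ (z ∈ P2 ∧ z ∉ P1)) → z ∈ Q → False := by
      intro z hzo hz hzQ
      rcases hz with hz | hz | hz
      · exact hzo hz
      · exact hQ1 (key P1 h.f1 h.r1 P2 h.f2 h.r12 hs2 h.mo.2.1 hs1 h.mo.1 z hz.1 hz.2 hzQ hoQ)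
      · exact hQ2 (key P2 h.f2 h.r2 P1 h.f1 (by rw [inter_comm]; exact h.r12) hs1 h.mo.1 hs2
          h.mo.2.1 z hz.1 hz.2 hzQ hoQ)
    by_cases hyo : y = o
    · exact h1 y' (fun h2 => hne (hyo.trans h2.symm)) hy' mY'
    · exact h1 y hyo hy mY
  refine ⟨Q, hQf, hQr, mS, mA, mY, mY', hoQ, ?_⟩
  have h5 : ({y, y', s, a} : Finset E).card = 4 := by
    rw [card_insert_of_notMem, card_insert_of_notMem, card_pair hsa]
    · simp only [mem_insert, mem_singleton]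
      rintro (h1 | h1)
      · exact hy0' h1
      · exact hya' h1
    · simp only [mem_insert, mem_singleton]
      rintro (h1 | h1 | h1)
      · exact hne h1
      · exact hy0 h1
      · exact hya h1
  rw [← h5]
  apply card_le_card
  intro x hx
  simp only [mem_insert, mem_singleton] at hx
  rcases hx with rfl | rfl | rfl | rfl
  · exact mY
  · exact mY'
  · exact mS
  · exact mA

/-- pencil: if there are no coincidences there are at most five classes -/
private theorem TP.pencil (hK : Fintype.card K = 4) (h : TP (K := K) v A P1 P2 P3 o) {s a : E}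
    (hs1 : s ∈ P1) (hs2 : s ∈ P2) (ha1 : a ∉ P1) (ha2 : a ∉ P2) {X : Finset E}
    (hX : ∀ y ∈ X, y ∈ P1 ∨ y ∈ P2) (hXs : s ∉ X) (h6 : 6 ≤ X.card) :
    ∃ y ∈ X, ∃ y' ∈ X, y ≠ y' ∧ v y ∈ sp K v (insert y' {s, a}) := by
  classical
  by_contra hcon
  push Not at hcon
  have hsa : s ≠ a := by rintro rfl; exact ha1 hs1
  have h1 : ∀ x ∈ X, v x ∉ sp K v {s, a} := by
    intro x hx h1
    have hxs : s ≠ x := by rintro rfl; exact hXs hx
    have hrs : rk K v (cl K v {s, a}) ≤ 2 := by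
      rw [rk_cl, h.hv.rk_pair hsa]
    have ms : s ∈ cl K v {s, a} := subset_cl (by simp)
    have ma : a ∈ cl K v {s, a} := subset_cl (by simp)
    have my : x ∈ cl K v {s, a} := mem_cl.2 h1
    rcases hX x hx with h2 | h2
    · exact ha1 (fl_sub_of_two h.hv h.f1 hrs hxs ms my hs1 h2 ma)
    · exact ha2 (fl_sub_of_two h.hv h.f2 hrs hxs ms my hs2 h2 ma)
  have h2 := pencil_card_le hK (v := v) (F := {s, a}) (X := X) (by
    rw [h.hv.rk_pair hsa]
    have h7 := rk_mono (K := K) (v := v) (subset_univ ({s, a} ∪ X))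
    rw [h.h4] at h7
    exact h7) h1 (by
    intro x hx y hy hxy
    by_contra hne
    exact hcon x hx y hy hne hxy)
  omega

private theorem tp_swap (a b c : E) : ({a, b, c} : Finset E) = {b, a, c} := by
  ext x
  simp only [mem_insert, mem_singleton]
  tauto

private theorem tp_range {E V : Type*} [DecidableEq E] (v : E → V) (o s1 s2 s3 : E) :
    Set.range ![v o, v s1, v s2, v s3] = v '' ((({s1, o, s2, s3} : Finset E)) : Set E) := by
  simp only [Matrix.range_cons, Matrix.range_empty, Set.union_empty, coe_insert,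
    coe_singleton, Set.image_insert_eq, Set.image_singleton]
  ext x
  simp only [Set.mem_union, Set.mem_singleton_iff, Set.mem_insert_iff]
  tauto

/-- conclusion from four coplanar elements -/
private theorem tp_fin {S : Finset E} {x y z w : E} (hr : rk K v {x, y, z} = 3)
    (hw : v w ∈ sp K v {x, y, z}) (nxy : x ≠ y) (nxz : x ≠ z) (nxw : x ≠ w) (nyz : y ≠ z)
    (nyw : y ≠ w) (nzw : z ≠ w) (sx : x ∈ S) (sy : y ∈ S) (sz : z ∈ S) (sw : w ∈ S)
    (m1 : ¬ (x ∈ P1 ∧ y ∈ P1 ∧ z ∈ P1 ∧ w ∈ P1)) (m2 : ¬ (x ∈ P2 ∧ y ∈ P2 ∧ z ∈ P2 ∧ w ∈ P2))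
    (m3 : ¬ (x ∈ P3 ∧ y ∈ P3 ∧ z ∈ P3 ∧ w ∈ P3)) :
    ∃ Q, IsFl K v Q ∧ rk K v Q = 3 ∧ Q ≠ P1 ∧ Q ≠ P2 ∧ Q ≠ P3 ∧ 4 ≤ (Q ∩ S).card := by
  have hx : x ∈ cl K v {x, y, z} := subset_cl (by simp)
  have hy : y ∈ cl K v {x, y, z} := subset_cl (by simp)
  have hz : z ∈ cl K v {x, y, z} := subset_cl (by simp)
  have hw' : w ∈ cl K v {x, y, z} := by rw [mem_cl]; exact hw
  refine ⟨cl K v {x, y, z}, isFl_cl, by rw [rk_cl]; exact hr, ?_, ?_, ?_, ?_⟩
  · intro hh; rw [hh] at hx hy hz hw'; exact m1 ⟨hx, hy, hz, hw'⟩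
  · intro hh; rw [hh] at hx hy hz hw'; exact m2 ⟨hx, hy, hz, hw'⟩
  · intro hh; rw [hh] at hx hy hz hw'; exact m3 ⟨hx, hy, hz, hw'⟩
  · have h5 : ({x, y, z, w} : Finset E).card = 4 := by
      rw [card_insert_of_notMem, card_insert_of_notMem, card_pair nzw]
      · simp only [mem_insert, mem_singleton, not_or]; exact ⟨nyz, nyw⟩
      · simp only [mem_insert, mem_singleton, not_or]; exact ⟨nxy, nxz, nxw⟩
    rw [← h5]
    apply card_le_card
    intro u hu
    simp only [mem_insert, mem_singleton] at hu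
    rw [mem_inter]
    rcases hu with rfl | rfl | rfl | rfl
    · exact ⟨hx, sx⟩
    · exact ⟨hy, sy⟩
    · exact ⟨hz, sz⟩
    · exact ⟨hw', sw⟩

/-- the seven points -/
private theorem TP.seven (hK : Fintype.card K = 4) (h : TP (K := K) v A P1 P2 P3 o)
    {s1 s2 s3 a1 a2 a3 : E} (l12 : P1 ∩ P2 = {o, s3}) (l13 : P1 ∩ P3 = {o, s2})
    (l23 : P2 ∩ P3 = {o, s1}) (hs1 : s1 ≠ o) (hs2 : s2 ≠ o) (hs3 : s3 ≠ o)
    (ha1 : a1 ∈ P1) (ha12 : a1 ∉ P2) (ha13 : a1 ∉ P3)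
    (ha2 : a2 ∈ P2) (ha21 : a2 ∉ P1) (ha23 : a2 ∉ P3)
    (ha3 : a3 ∈ P3) (ha31 : a3 ∉ P1) (ha32 : a3 ∉ P2)
    (hc1 : v a1 ∉ sp K v {s2, s3}) (hc2 : v a2 ∉ sp K v {s1, s3}) (hc3 : v a3 ∉ sp K v {s1, s2}) :
    ∃ Q, IsFl K v Q ∧ rk K v Q = 3 ∧ Q ≠ P1 ∧ Q ≠ P2 ∧ Q ≠ P3 ∧
      4 ≤ (Q ∩ {s1, s2, s3, a1, a2, a3}).card := by
  classical
  obtain ⟨o1, o2, o3⟩ := h.mo
  have ms3 : s3 ∈ P1 ∩ P2 := by rw [l12]; simp
  have ms2 : s2 ∈ P1 ∩ P3 := by rw [l13]; simp
  have ms1 : s1 ∈ P2 ∩ P3 := by rw [l23]; simp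
  rw [mem_inter] at ms1 ms2 ms3
  obtain ⟨s12, s13⟩ := ms1
  obtain ⟨s21, s23⟩ := ms2
  obtain ⟨s31, s32⟩ := ms3
  have s11 : s1 ∉ P1 := fun hh => hs1 (h.eq_o hh s12 s13)
  have s22 : s2 ∉ P2 := fun hh => hs2 (h.eq_o s21 hh s23)
  have s33 : s3 ∉ P3 := fun hh => hs3 (h.eq_o s31 s32 hh)
  -- three elements
  have hsp3 : ∀ a b c : E, sp K v {a, b, c} = span K {v a, v b, v c} := by
    intro a b c
    unfold sp
    simp [Set.image_insert_eq]
  have hrk3 : ∀ (P : Finset E) (x y z : E), IsFl K v P → y ∈ P → z ∈ P → x ∉ P → y ≠ z →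
      rk K v {x, y, z} = 3 := by
    intro P x y z hP hy hz hx hyz
    have h1 : v x ∉ sp K v {y, z} := by
      intro h2
      apply hx
      apply hP.mem
      have h3 : sp K v {y, z} ≤ sp K v P := sp_mono (by
        intro w hw
        rcases mem_insert.1 hw with rfl | hw
        · exact hy
        · rw [mem_singleton] at hw; subst hw; exact hz)
      exact h3 h2
    have h2 := rk_insert_of_not_mem_sp h1
    rw [h.hv.rk_pair hyz] at h2
    exact h2
  have hspP : ∀ (P : Finset E) (x y z : E), IsFl K v P → rk K v P = 3 → x ∈ P → y ∈ P → z ∈ P →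
      rk K v {x, y, z} = 3 → ∀ w ∈ P, v w ∈ span K {v x, v y, v z} := by
    intro P x y z hP hr hx hy hz h3 w hw
    rw [← hsp3]
    have h5 : ({x, y, z} : Finset E) ⊆ P := by
      intro w hw
      simp only [mem_insert, mem_singleton] at hw
      rcases hw with rfl | rfl | rfl
      · exact hx
      · exact hy
      · exact hz
    rw [sp_eq_of_subset_of_rk_le (K := K) (v := v) h5 (by omega)]
    exact mem_sp hw
  -- membership of the a's in pairs
  have hpr : ∀ (L : Finset E) (a b w : E), IsFl K v L → a ∈ L → b ∈ L → w ∉ L →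
      v w ∉ span K {v a, v b} := by
    intro L a b w hL ha hb hw h1
    rw [← sp_pair] at h1
    apply hw
    apply hL.mem
    have h3 : sp K v {a, b} ≤ sp K v L := sp_mono (by
      intro x hx
      rcases mem_insert.1 hx with rfl | hx
      · exact ha
      · rw [mem_singleton] at hx; subst hx; exact hb)
    exact h3 h1
  have r1 : rk K v {o, s2, s3} = 3 := by
    have h1 := hrk3 P2 s2 o s3 h.f2 o2 s32 s22 hs3.symm
    have h2 : ({s2, o, s3} : Finset E) = {o, s2, s3} := tp_swap _ _ _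
    rwa [h2] at h1
  have r2 : rk K v {o, s1, s3} = 3 := by
    have h1 := hrk3 P1 s1 o s3 h.f1 o1 s31 s11 hs3.symm
    have h2 : ({s1, o, s3} : Finset E) = {o, s1, s3} := tp_swap _ _ _
    rwa [h2] at h1
  have r3 : rk K v {o, s1, s2} = 3 := by
    have h1 := hrk3 P1 s1 o s2 h.f1 o1 s21 s11 hs2.symm
    have h2 : ({s1, o, s2} : Finset E) = {o, s1, s2} := tp_swap _ _ _
    rwa [h2] at h1
  have r4 : rk K v {s1, o, s2, s3} = 4 := by
    have h2 : v s1 ∉ sp K v {o, s2, s3} := by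
      intro h3
      apply s11
      apply h.f1.mem
      have h5 : sp K v {o, s2, s3} ≤ sp K v P1 := sp_mono (by
        intro w hw
        simp only [mem_insert, mem_singleton] at hw
        rcases hw with rfl | rfl | rfl
        · exact o1
        · exact s21
        · exact s31)
      exact h5 h3
    rw [rk_insert_of_not_mem_sp h2, r1]
  have hi : LinearIndependent K ![v o, v s1, v s2, v s3] := by
    rw [linearIndependent_iff_card_eq_finrank_span]
    have h2 := tp_range v o s1 s2 s3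
    rw [Set.finrank, h2, Fintype.card_fin]
    exact r4.symm
  have k12 : IsFl K v (P1 ∩ P2) := h.f1.inter h.f2
  have k13 : IsFl K v (P1 ∩ P3) := h.f1.inter h.f3
  have k23 : IsFl K v (P2 ∩ P3) := h.f2.inter h.f3
  have hseven := seven_points hK hi
    (hspP P1 o s2 s3 h.f1 h.r1 o1 s21 s31 r1 a1 ha1)
    (hspP P2 o s1 s3 h.f2 h.r2 o2 s12 s32 r2 a2 ha2)
    (hspP P3 o s1 s2 h.f3 h.r3 o3 s13 s23 r3 a3 ha3)
    (hpr (P1 ∩ P3) o s2 a1 k13 (mem_inter.2 ⟨o1, o3⟩) (mem_inter.2 ⟨s21, s23⟩)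
      (fun hh => ha13 (mem_inter.1 hh).2))
    (hpr (P1 ∩ P2) o s3 a1 k12 (mem_inter.2 ⟨o1, o2⟩) (mem_inter.2 ⟨s31, s32⟩)
      (fun hh => ha12 (mem_inter.1 hh).2))
    (by rw [← sp_pair]; exact hc1)
    (hpr (P2 ∩ P3) o s1 a2 k23 (mem_inter.2 ⟨o2, o3⟩) (mem_inter.2 ⟨s12, s13⟩)
      (fun hh => ha23 (mem_inter.1 hh).2))
    (hpr (P1 ∩ P2) o s3 a2 k12 (mem_inter.2 ⟨o1, o2⟩) (mem_inter.2 ⟨s31, s32⟩)
      (fun hh => ha21 (mem_inter.1 hh).1))
    (by rw [← sp_pair]; exact hc2)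
    (hpr (P2 ∩ P3) o s1 a3 k23 (mem_inter.2 ⟨o2, o3⟩) (mem_inter.2 ⟨s12, s13⟩)
      (fun hh => ha32 (mem_inter.1 hh).1))
    (hpr (P1 ∩ P3) o s2 a3 k13 (mem_inter.2 ⟨o1, o3⟩) (mem_inter.2 ⟨s21, s23⟩)
      (fun hh => ha31 (mem_inter.1 hh).1))
    (by rw [← sp_pair]; exact hc3)
  have n12 : s1 ≠ s2 := by rintro rfl; exact s22 s12
  have n13 : s1 ≠ s3 := by rintro rfl; exact s33 s13
  have n23 : s2 ≠ s3 := by rintro rfl; exact s22 s32
  have b12 : a1 ≠ a2 := by rintro rfl; exact ha21 ha1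
  have b13 : a1 ≠ a3 := by rintro rfl; exact ha31 ha1
  have b23 : a2 ≠ a3 := by rintro rfl; exact ha32 ha2
  have c11 : a1 ≠ s1 := by rintro rfl; exact s11 ha1
  have c12 : a1 ≠ s2 := by rintro rfl; exact ha13 s23
  have c13 : a1 ≠ s3 := by rintro rfl; exact ha12 s32
  have c21 : a2 ≠ s1 := by rintro rfl; exact ha23 s13
  have c22 : a2 ≠ s2 := by rintro rfl; exact ha21 s21
  have c23 : a2 ≠ s3 := by rintro rfl; exact ha21 s31
  have c31 : a3 ≠ s1 := by rintro rfl; exact ha32 s12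
  have c32 : a3 ≠ s2 := by rintro rfl; exact ha31 s21
  have c33 : a3 ≠ s3 := by rintro rfl; exact ha31 s31
  have t1 : s1 ∈ ({s1, s2, s3, a1, a2, a3} : Finset E) := by simp
  have t2 : s2 ∈ ({s1, s2, s3, a1, a2, a3} : Finset E) := by simp
  have t3 : s3 ∈ ({s1, s2, s3, a1, a2, a3} : Finset E) := by simp
  have t4 : a1 ∈ ({s1, s2, s3, a1, a2, a3} : Finset E) := by simp
  have t5 : a2 ∈ ({s1, s2, s3, a1, a2, a3} : Finset E) := by simp
  have t6 : a3 ∈ ({s1, s2, s3, a1, a2, a3} : Finset E) := by simp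
  rw [← hsp3, ← hsp3, ← hsp3, ← hsp3, ← hsp3, ← hsp3] at hseven
  rcases hseven with hh | hh | hh | hh | hh | hh
  · exact tp_fin (hrk3 P3 a1 s1 s2 h.f3 s13 s23 ha13 n12) hh c11 c12 b12 n12 c21.symm
      c22.symm t4 t1 t2 t5 (fun q => s11 q.2.1) (fun q => ha12 q.1) (fun q => ha13 q.1)
  · exact tp_fin (hrk3 P2 a1 s1 s3 h.f2 s12 s32 ha12 n13) hh c11 c13 b13 n13 c31.symm
      c33.symm t4 t1 t3 t6 (fun q => s11 q.2.1) (fun q => ha12 q.1) (fun q => ha13 q.1)
  · exact tp_fin (hrk3 P1 a2 s2 s3 h.f1 s21 s31 ha21 n23) hh c22 c23 b23 n23 c32.symm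
      c33.symm t5 t2 t3 t6 (fun q => ha21 q.1) (fun q => s22 q.2.1) (fun q => ha23 q.1)
  · exact tp_fin (hrk3 P2 a1 a2 s1 h.f2 ha2 s12 ha12 c21) hh b12 c11 b13 c21 b23
      c31.symm t4 t5 t1 t6 (fun q => ha21 q.2.1) (fun q => ha12 q.1) (fun q => ha13 q.1)
  · have h5 : rk K v {a1, a2, s2} = 3 := by
      have h6 := hrk3 P1 a2 a1 s2 h.f1 ha1 s21 ha21 c12
      have h7 : ({a2, a1, s2} : Finset E) = {a1, a2, s2} := tp_swap _ _ _
      rwa [h7] at h6
    exact tp_fin h5 hh b12 c12 b13 c22 b23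
      c32.symm t4 t5 t2 t6 (fun q => ha21 q.2.1) (fun q => ha12 q.1) (fun q => ha13 q.1)
  · exact tp_fin (hrk3 P2 a1 a2 s3 h.f2 ha2 s32 ha12 c23) hh b12 c13 b13 c23 b23
      c33.symm t4 t5 t3 t6 (fun q => ha21 q.2.1) (fun q => ha12 q.1) (fun q => ha13 q.1)

private theorem TP.pair_ne (h : TP (K := K) v A P1 P2 P3 o) : P1 ∩ P2 ≠ P1 ∩ P3 := by
  intro h1
  have h2 : P1 ∩ P2 ∩ P3 = P1 ∩ P2 := by
    apply Subset.antisymm inter_subset_left
    intro x hx
    rw [mem_inter]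
    refine ⟨hx, ?_⟩
    rw [h1] at hx
    exact (mem_inter.1 hx).2
  have h3 := h.r12
  rw [← h2, h.ho, h.hv.rk_singleton] at h3
  omega

private theorem TP.base (h : TP (K := K) v A P1 P2 P3 o) :
    (P1 ∩ P2).card + (P1 ∩ P3).card ≤ P1.card ∧ 2 ≤ (P1 ∩ P2).card := by
  have h1 := tp_sum h.hv h.hA h.f1 h.r1 h.i1 {P1 ∩ P2, P1 ∩ P3} (by
    intro L hL
    rw [mem_insert, mem_singleton] at hL
    rcases hL with rfl | rfl
    · exact ⟨h.f1.inter h.f2, h.r12, inter_subset_left⟩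
    · exact ⟨h.f1.inter h.f3, h.r13, inter_subset_left⟩)
  rw [sum_pair h.pair_ne] at h1
  have h2 : 2 ≤ (P1 ∩ P2).card := by rw [← h.r12]; exact rk_le_card
  have h3 : 2 ≤ (P1 ∩ P3).card := by rw [← h.r13]; exact rk_le_card
  omega

/-- a further heavy line in `P1` -/
private theorem TP.line (h : TP (K := K) v A P1 P2 P3 o) {L : Finset E} (hL : IsFl K v L)
    (hr : rk K v L = 2) (hLP : L ⊆ P1) (ho : o ∉ L) :
    L.card + (P1 ∩ P2).card + (P1 ∩ P3).card ≤ P1.card + 2 := by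
  have n1 : L ≠ P1 ∩ P2 := by
    rintro rfl
    exact ho (mem_inter.2 ⟨h.mo.1, h.mo.2.1⟩)
  have n2 : L ≠ P1 ∩ P3 := by
    rintro rfl
    exact ho (mem_inter.2 ⟨h.mo.1, h.mo.2.2⟩)
  have h1 := tp_sum h.hv h.hA h.f1 h.r1 h.i1 {L, P1 ∩ P2, P1 ∩ P3} (by
    intro L' hL'
    rw [mem_insert, mem_insert, mem_singleton] at hL'
    rcases hL' with rfl | rfl | rfl
    · exact ⟨hL, hr, hLP⟩
    · exact ⟨h.f1.inter h.f2, h.r12, inter_subset_left⟩
    · exact ⟨h.f1.inter h.f3, h.r13, inter_subset_left⟩)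
  rw [sum_insert (by
    rw [mem_insert, mem_singleton, not_or]
    exact ⟨n1, n2⟩), sum_pair h.pair_ne] at h1
  have h2 : 2 ≤ (P1 ∩ P2).card := by rw [← h.r12]; exact rk_le_card
  have h3 : 2 ≤ (P1 ∩ P3).card := by rw [← h.r13]; exact rk_le_card
  have h4 : 2 ≤ L.card := by rw [← hr]; exact rk_le_card
  omega

private theorem tp_one (hv : Simple K v) (hA : IsMason K v ∅ univ A) {P : Finset E}
    (hP : IsFl K v P) (hr : rk K v P = 3) (hh : ∃ i, cl K v (A i) = P) {L : Finset E}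
    (hL : IsFl K v L) (hLr : rk K v L = 2) (hLP : L ⊆ P) : L.card + 2 ≤ P.card := by
  have h1 := tp_sum hv hA hP hr hh {L} (by
    intro L' hL'
    rw [mem_singleton] at hL'
    subst hL'
    exact ⟨hL, hLr, hLP⟩)
  rw [sum_singleton] at h1
  have h4 : 2 ≤ L.card := by rw [← hLr]; exact rk_le_card
  omega

/-- no member inside the intersection of a plane with a plane of four elements -/
private theorem tp_small (hv : Simple K v) (hA : IsMason K v ∅ univ A) {P Q : Finset E}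
    (hP : IsFl K v P) (hr : rk K v P = 3) (hh : ∃ i, cl K v (A i) = P) (hc : P.card ≤ 4)
    (hQ : IsFl K v Q) (hQr : rk K v Q = 3) (hne : Q ≠ P) : cnt A (Q ∩ P) = 0 := by
  by_contra h0
  have hrk : rk K v (Q ∩ P) ≤ 2 := by
    by_contra hc
    have h2 := (hQ.inter hP).eq_of_subset_of_rk_le (G := Q) inter_subset_left (by omega)
    have h3 := (hQ.inter hP).eq_of_subset_of_rk_le (G := P) inter_subset_right (by omega)
    exact hne (h2.symm.trans h3)
  obtain ⟨h1, h2⟩ := three_of_cnt hv hA (hQ.inter hP) hrk (by omega)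
  have := tp_one hv hA hP hr hh (hQ.inter hP) h1 inter_subset_right
  omega

/-- the members inside a plane -/
private theorem TP.cnt_plane (h : TP (K := K) v A P1 P2 P3 o) {Q : Finset E}
    (hU : Q ⊆ P1 ∪ P2 ∪ P3) (c2 : cnt A (Q ∩ P2) = 0) (c3 : cnt A (Q ∩ P3) = 0) :
    cnt A Q ≤ cnt A (Q ∩ P1) := by
  unfold cnt at c2 c3 ⊢
  apply card_le_card
  intro i hi
  rw [mem_filter] at hi ⊢
  refine ⟨mem_univ _, ?_⟩
  rcases h.others.1 i (hi.2.trans hU) with h1 | h1 | h1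
  · exact subset_inter hi.2 h1
  · exfalso
    rw [card_eq_zero, filter_eq_empty_iff] at c2
    exact c2 (mem_univ i) (subset_inter hi.2 h1)
  · exfalso
    rw [card_eq_zero, filter_eq_empty_iff] at c3
    exact c3 (mem_univ i) (subset_inter hi.2 h1)

/-- cases (a) and (b) -/
private theorem TP.fin_small (hK : Fintype.card K = 4) (h : TP (K := K) v A P1 P2 P3 o)
    {s1 s2 s3 a1 a2 a3 : E} (l12 : P1 ∩ P2 = {o, s3}) (l13 : P1 ∩ P3 = {o, s2})
    (l23 : P2 ∩ P3 = {o, s1}) (hs1 : s1 ≠ o) (hs2 : s2 ≠ o) (hs3 : s3 ≠ o)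
    (ha1 : a1 ∈ P1) (ha12 : a1 ∉ P2) (ha13 : a1 ∉ P3)
    (ha2 : a2 ∈ P2) (ha21 : a2 ∉ P1) (ha23 : a2 ∉ P3)
    (ha3 : a3 ∈ P3) (ha31 : a3 ∉ P1) (ha32 : a3 ∉ P2)
    (c1 : P1.card = 4) (c2 : P2.card = 4) (c3 : P3.card = 4)
    (hD : (univ \ (P1 ∪ P2 ∪ P3)).card ≤ 1) : False := by
  classical
  have ms3 : s3 ∈ P1 ∩ P2 := by rw [l12]; simp
  have ms2 : s2 ∈ P1 ∩ P3 := by rw [l13]; simp
  have ms1 : s1 ∈ P2 ∩ P3 := by rw [l23]; simp
  rw [mem_inter] at ms1 ms2 ms3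
  obtain ⟨s12, s13⟩ := ms1
  obtain ⟨s21, s23⟩ := ms2
  obtain ⟨s31, s32⟩ := ms3
  have s11 : s1 ∉ P1 := fun hh => hs1 (h.eq_o hh s12 s13)
  have s22 : s2 ∉ P2 := fun hh => hs2 (h.eq_o s21 hh s23)
  have s33 : s3 ∉ P3 := fun hh => hs3 (h.eq_o s31 s32 hh)
  have n12 : s1 ≠ s2 := by rintro rfl; exact s22 s12
  have n13 : s1 ≠ s3 := by rintro rfl; exact s33 s13
  have n23 : s2 ≠ s3 := by rintro rfl; exact s22 s32
  have hcol : ∀ (P : Finset E) (a s t : E), IsFl K v P → rk K v P = 3 →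
      (∃ i, cl K v (A i) = P) → P.card = 4 → s ∈ P → t ∈ P → s ≠ t → a ≠ s → a ≠ t →
      v a ∉ sp K v {s, t} := by
    intro P a s t hP hr hh hc hs ht hst has hat ha
    have h1 : cl K v {s, t} ⊆ P := hP.cl_subset (by
      intro x hx
      rcases mem_insert.1 hx with rfl | hx
      · exact hs
      · rw [mem_singleton] at hx; subst hx; exact ht)
    have h2 := tp_one h.hv h.hA hP hr hh (L := cl K v {s, t}) isFl_cl
      (by rw [rk_cl, h.hv.rk_pair hst]) h1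
    have h3 : ({a, s, t} : Finset E).card = 3 := card_eq_three.2 ⟨a, s, t, has, hat, hst, rfl⟩
    have h4 : ({a, s, t} : Finset E) ⊆ cl K v {s, t} := by
      intro x hx
      simp only [mem_insert, mem_singleton] at hx
      rcases hx with rfl | rfl | rfl
      · exact mem_cl.2 ha
      · exact subset_cl (by simp)
      · exact subset_cl (by simp)
    have h5 := card_le_card h4
    omega
  have e12 : a1 ≠ s2 := by rintro rfl; exact ha13 s23
  have e13 : a1 ≠ s3 := by rintro rfl; exact ha12 s32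
  have e21 : a2 ≠ s1 := by rintro rfl; exact ha23 s13
  have e23 : a2 ≠ s3 := by rintro rfl; exact ha21 s31
  have e31 : a3 ≠ s1 := by rintro rfl; exact ha32 s12
  have e32 : a3 ≠ s2 := by rintro rfl; exact ha31 s21
  obtain ⟨Q, hQ, hQr, hQ1, hQ2, hQ3, hQc⟩ := h.seven hK l12 l13 l23 hs1 hs2 hs3 ha1 ha12 ha13
    ha2 ha21 ha23 ha3 ha31 ha32
    (hcol P1 a1 s2 s3 h.f1 h.r1 h.i1 c1 s21 s31 n23 e12 e13)
    (hcol P2 a2 s1 s3 h.f2 h.r2 h.i2 c2 s12 s32 n13 e21 e23)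
    (hcol P3 a3 s1 s2 h.f3 h.r3 h.i3 c3 s13 s23 n12 e31 e32)
  have k1 := tp_small h.hv h.hA h.f1 h.r1 h.i1 c1.le hQ hQr hQ1
  have k2 := tp_small h.hv h.hA h.f2 h.r2 h.i2 c2.le hQ hQr hQ2
  have k3 := tp_small h.hv h.hA h.f3 h.r3 h.i3 c3.le hQ hQr hQ3
  have hQcnt := h.hA.eq (empty_subset _) (subset_univ Q) hQ
  have hQ4 := card_le_card (inter_subset_left (s₁ := Q) (s₂ := {s1, s2, s3, a1, a2, a3}))
  by_cases hU : Q ⊆ P1 ∪ P2 ∪ P3
  · have := h.cnt_plane hU k2 k3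
    omega
  · obtain ⟨d, hdQ, hdU⟩ := not_subset.1 hU
    have h5 : 5 ≤ Q.card := by
      have h6 : insert d (Q ∩ {s1, s2, s3, a1, a2, a3}) ⊆ Q :=
        insert_subset hdQ inter_subset_left
      have h7 : d ∉ Q ∩ {s1, s2, s3, a1, a2, a3} := by
        intro h8
        have h9 := (mem_inter.1 h8).2
        apply hdU
        rw [mem_union, mem_union]
        simp only [mem_insert, mem_singleton] at h9
        rcases h9 with rfl | rfl | rfl | rfl | rfl | rfl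
        · exact Or.inl (Or.inr s12)
        · exact Or.inl (Or.inl s21)
        · exact Or.inl (Or.inl s31)
        · exact Or.inl (Or.inl ha1)
        · exact Or.inl (Or.inr ha2)
        · exact Or.inr ha3
      have h8 := card_le_card h6
      rw [card_insert_of_notMem h7] at h8
      omega
    have h6 : cnt A Q ≤ (univ.filter (fun i => ¬ (A i ⊆ P1 ∨ A i ⊆ P2 ∨ A i ⊆ P3))).card := by
      unfold cnt
      apply card_le_card
      intro i hi
      rw [mem_filter] at hi ⊢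
      refine ⟨mem_univ _, ?_⟩
      unfold cnt at k1 k2 k3
      rw [card_eq_zero, filter_eq_empty_iff] at k1 k2 k3
      rintro (h7 | h7 | h7)
      · exact k1 (mem_univ i) (subset_inter hi.2 h7)
      · exact k2 (mem_univ i) (subset_inter hi.2 h7)
      · exact k3 (mem_univ i) (subset_inter hi.2 h7)
    rw [h.others.2] at h6
    omega

/-- case (c): the planes through `s, a` -/
private theorem TP.step (hK : Fintype.card K = 4) (h : TP (K := K) v A P1 P2 P3 o)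
    (hU : univ ⊆ P1 ∪ P2 ∪ P3) (c2 : P2.card = (P1 ∩ P2).card + (P2 ∩ P3).card)
    (c3 : P3.card = (P1 ∩ P3).card + (P2 ∩ P3).card) {s a : E}
    (hs1 : s ∈ P1) (hs2 : s ∈ P2) (hso : s ≠ o) (ha1 : a ∉ P1) (ha2 : a ∉ P2) {X : Finset E}
    (hX : ∀ y ∈ X, y = o ∨ (y ∈ P1 ∧ y ∉ P2) ∨ (y ∈ P2 ∧ y ∉ P1)) (h6 : 6 ≤ X.card) :
    ∃ y ∈ X, ∃ y' ∈ X, y ≠ y' ∧ ∃ Q, IsFl K v Q ∧ rk K v Q = 3 ∧ s ∈ Q ∧ a ∈ Q ∧ y ∈ Q ∧
      y' ∈ Q ∧ o ∉ Q ∧ 4 ≤ Q.card ∧ rk K v (Q ∩ P1) = 2 ∧ 3 ≤ (Q ∩ P1).card ∧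
      cnt A (Q ∩ P2) = 0 ∧ cnt A (Q ∩ P3) = 0 := by
  have hXs : s ∉ X := by
    intro h1
    rcases hX s h1 with h2 | h2 | h2
    · exact hso h2
    · exact h2.2 hs2
    · exact h2.2 hs1
  obtain ⟨y, hy, y', hy', hne, hc⟩ := h.pencil hK hs1 hs2 ha1 ha2 (X := X) (by
    intro y hy
    rcases hX y hy with rfl | h2 | h2
    · exact Or.inl h.mo.1
    · exact Or.inl h2.1
    · exact Or.inr h2.1) hXs h6
  obtain ⟨Q, hQ, hQr, m1, m2, m3, m4, hoQ, hQc⟩ := h.coinc hs1 hs2 hso ha1 ha2 (hX y hy)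
    (hX y' hy') hne hc
  have hQ1 : Q ≠ P1 := by rintro rfl; exact hoQ h.mo.1
  have hQ2 : Q ≠ P2 := by rintro rfl; exact hoQ h.mo.2.1
  have hQ3 : Q ≠ P3 := by rintro rfl; exact hoQ h.mo.2.2
  have hrk : ∀ P, IsFl K v P → rk K v P = 3 → Q ≠ P → rk K v (Q ∩ P) ≤ 2 := by
    intro P hP hr hn
    by_contra hc
    have h2 := (hQ.inter hP).eq_of_subset_of_rk_le (G := Q) inter_subset_left (by omega)
    have h3 := (hQ.inter hP).eq_of_subset_of_rk_le (G := P) inter_subset_right (by omega)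
    exact hn (h2.symm.trans h3)
  have k2 : cnt A (Q ∩ P2) = 0 := by
    by_contra h0
    obtain ⟨h1, h2⟩ := three_of_cnt h.hv h.hA (hQ.inter h.f2) (hrk P2 h.f2 h.r2 hQ2) (by omega)
    have h3 := h.rot.line (hQ.inter h.f2) h1 inter_subset_right
      (fun hh => hoQ (mem_inter.1 hh).1)
    rw [inter_comm P2 P1] at h3
    omega
  have k3 : cnt A (Q ∩ P3) = 0 := by
    by_contra h0
    obtain ⟨h1, h2⟩ := three_of_cnt h.hv h.hA (hQ.inter h.f3) (hrk P3 h.f3 h.r3 hQ3) (by omega)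
    have h3 := h.rot.rot.line (hQ.inter h.f3) h1 inter_subset_right
      (fun hh => hoQ (mem_inter.1 hh).1)
    rw [inter_comm P3 P1, inter_comm P3 P2] at h3
    omega
  refine ⟨y, hy, y', hy', hne, Q, hQ, hQr, m1, m2, m3, m4, hoQ, hQc, ?_⟩
  have e2 := h.hA.eq (empty_subset _) (subset_univ (Q ∩ P2)) (hQ.inter h.f2)
  have e3 := h.hA.eq (empty_subset _) (subset_univ (Q ∩ P3)) (hQ.inter h.f3)
  rcases h.plane hQ hQr hQ1 hQ2 hQ3 hQc ((subset_univ Q).trans hU) with h1 | h1 | h1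
  · exact ⟨h1.1, h1.2, k2, k3⟩
  · omega
  · omega

/-- case (c) -/
private theorem TP.fin_big (hK : Fintype.card K = 4) (h : TP (K := K) v A P1 P2 P3 o)
    (hU : univ ⊆ P1 ∪ P2 ∪ P3) (c1 : P1.card = 5) (c12 : (P1 ∩ P2).card = 2)
    (c13 : (P1 ∩ P3).card = 2) (c2 : P2.card = (P1 ∩ P2).card + (P2 ∩ P3).card)
    (c3 : P3.card = (P1 ∩ P3).card + (P2 ∩ P3).card)
    {a2 a3 : E} (ha2 : a2 ∈ P2) (ha21 : a2 ∉ P1) (ha23 : a2 ∉ P3)
    (ha3 : a3 ∈ P3) (ha31 : a3 ∉ P1) (ha32 : a3 ∉ P2) : False := by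
  classical
  obtain ⟨o1, o2, o3⟩ := h.mo
  have hother : ∀ L : Finset E, L.card = 2 → o ∈ L → ∃ s, s ≠ o ∧ L = {o, s} := by
    intro L hL ho
    have h1 : (L.erase o).card = 1 := by rw [card_erase_of_mem ho, hL]
    obtain ⟨s, hs⟩ := card_eq_one.1 h1
    have h2 : s ∈ L.erase o := by rw [hs]; exact mem_singleton_self s
    refine ⟨s, (mem_erase.1 h2).1, ?_⟩
    rw [← insert_erase ho, hs]
  obtain ⟨s3, hs3, l12⟩ := hother _ c12 (mem_inter.2 ⟨o1, o2⟩)
  obtain ⟨s2, hs2, l13⟩ := hother _ c13 (mem_inter.2 ⟨o1, o3⟩)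
  have ms3 : s3 ∈ P1 ∩ P2 := by rw [l12]; simp
  have ms2 : s2 ∈ P1 ∩ P3 := by rw [l13]; simp
  rw [mem_inter] at ms2 ms3
  obtain ⟨s21, s23⟩ := ms2
  obtain ⟨s31, s32⟩ := ms3
  have s22 : s2 ∉ P2 := fun hh => hs2 (h.eq_o s21 hh s23)
  have s33 : s3 ∉ P3 := fun hh => hs3 (h.eq_o s31 s32 hh)
  have n23 : s2 ≠ s3 := by rintro rfl; exact s22 s32
  have c23 : 2 ≤ (P2 ∩ P3).card := by rw [← h.r23]; exact rk_le_card
  -- heavy lines in P1 not containing o
  have hM1 : ∀ L, IsFl K v L → rk K v L = 2 → L ⊆ P1 → L.card ≤ 3 := by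
    intro L hL hr hLP
    have := tp_one h.hv h.hA h.f1 h.r1 h.i1 hL hr hLP
    omega
  have hM2 : ∀ L L', IsFl K v L → rk K v L = 2 → L ⊆ P1 → 3 ≤ L.card → IsFl K v L' →
      rk K v L' = 2 → L' ⊆ P1 → 3 ≤ L'.card → L = L' := by
    intro L L' hL hr hLP h3 hL' hr' hLP' h3'
    by_contra hne
    have h1 := tp_sum h.hv h.hA h.f1 h.r1 h.i1 {L, L'} (by
      intro L'' hL''
      rw [mem_insert, mem_singleton] at hL''
      rcases hL'' with rfl | rfl
      · exact ⟨hL, hr, hLP⟩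
      · exact ⟨hL', hr', hLP'⟩)
    rw [sum_pair hne] at h1
    omega
  -- the sets X
  have hXmem : ∀ (P P' : Finset E) (Y : Finset E), Y ⊆ P \ P' →
      ∀ y ∈ insert o (Y ∪ (P' \ P)), y = o ∨ (y ∈ P ∧ y ∉ P') ∨ (y ∈ P' ∧ y ∉ P) := by
    intro P P' Y hY y hy
    rcases mem_insert.1 hy with h1 | h1
    · exact Or.inl h1
    · rcases mem_union.1 h1 with h1 | h1
      · exact Or.inr (Or.inl (mem_sdiff.1 (hY h1)))
      · exact Or.inr (Or.inr (mem_sdiff.1 h1))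
  have hXcard : ∀ (P P' : Finset E) (Y : Finset E), Y ⊆ P \ P' → o ∈ P → o ∈ P' →
      (insert o (Y ∪ (P' \ P))).card = Y.card + (P' \ P).card + 1 := by
    intro P P' Y hY h1 h2
    rw [card_insert_of_notMem, card_union_of_disjoint]
    · rw [Finset.disjoint_left]
      intro x hx hx'
      exact (mem_sdiff.1 hx').2 (mem_sdiff.1 (hY hx)).1
    · intro h3
      rcases mem_union.1 h3 with h3 | h3
      · exact (mem_sdiff.1 (hY h3)).2 h2
      · exact (mem_sdiff.1 h3).2 h1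
  have d12 : (P1 \ P2).card = 3 := by
    have := card_sdiff_add_card_inter P1 P2
    omega
  have d13 : (P1 \ P3).card = 3 := by
    have := card_sdiff_add_card_inter P1 P3
    omega
  have d21 : (P2 \ P1).card = (P2 ∩ P3).card := by
    have := card_sdiff_add_card_inter P2 P1
    rw [inter_comm P2 P1] at this
    omega
  have d31 : (P3 \ P1).card = (P2 ∩ P3).card := by
    have := card_sdiff_add_card_inter P3 P1
    rw [inter_comm P3 P1] at this
    omega
  -- first plane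
  obtain ⟨-, -, -, -, -, Q, hQ, hQr, q1, -, -, -, hoQ, -, hr1, hc1, -, -⟩ :=
    h.step hK hU c2 c3 s31 s32 hs3 ha31 ha32 (hXmem P1 P2 (P1 \ P2) (Subset.refl _))
      (by rw [hXcard P1 P2 _ (Subset.refl _) o1 o2]; omega)
  obtain ⟨-, -, -, -, -, Q', hQ', hQr', q1', -, -, -, hoQ', -, hr1', hc1', -, -⟩ :=
    h.swap23.step hK (by
      have : P1 ∪ P3 ∪ P2 = P1 ∪ P2 ∪ P3 := by
        ext x; simp only [mem_union]; tauto
      rw [this]; exact hU) (by rw [inter_comm P3 P2]; exact c3)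
      (by rw [inter_comm P3 P2]; exact c2) s21 s23 hs2 ha21 ha23
      (hXmem P1 P3 (P1 \ P3) (Subset.refl _))
      (by rw [hXcard P1 P3 _ (Subset.refl _) o1 o3]; omega)
  have hMM := hM2 _ _ (hQ.inter h.f1) hr1 inter_subset_right hc1 (hQ'.inter h.f1) hr1'
    inter_subset_right hc1'
  set M := Q ∩ P1 with hM
  have hMf : IsFl K v M := hQ.inter h.f1
  have hMP : M ⊆ P1 := inter_subset_right
  have hoM : o ∉ M := fun hh => hoQ (mem_inter.1 hh).1
  have hMs3 : s3 ∈ M := mem_inter.2 ⟨q1, s31⟩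
  have hMs2 : s2 ∈ M := by rw [hMM]; exact mem_inter.2 ⟨q1', s21⟩
  have hMc : M.card = 3 := le_antisymm (hM1 M hMf hr1 hMP) hc1
  obtain ⟨a', ha'⟩ : (M.erase s2 |>.erase s3).Nonempty := by
    rw [← card_pos, card_erase_of_mem (mem_erase.2 ⟨n23.symm, hMs3⟩), card_erase_of_mem hMs2]
    omega
  rw [mem_erase, mem_erase] at ha'
  obtain ⟨a's3, a's2, a'M⟩ := ha'
  have hMeq : M = {s2, s3, a'} := by
    symm
    apply eq_of_subset_of_card_le
    · intro x hx
      simp only [mem_insert, mem_singleton] at hx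
      rcases hx with rfl | rfl | rfl
      · exact hMs2
      · exact hMs3
      · exact a'M
    · rw [hMc, card_eq_three.2 ⟨s2, s3, a', n23, a's2.symm, a's3.symm, rfl⟩]
  have a'o : a' ≠ o := by rintro rfl; exact hoM a'M
  have a'1 : a' ∈ P1 := hMP a'M
  have a'2 : a' ∉ P2 := by
    intro hh
    have : a' ∈ P1 ∩ P2 := mem_inter.2 ⟨a'1, hh⟩
    rw [l12, mem_insert, mem_singleton] at this
    rcases this with h1 | h1
    · exact a'o h1
    · exact a's3 h1
  have a'3 : a' ∉ P3 := by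
    intro hh
    have : a' ∈ P1 ∩ P3 := mem_inter.2 ⟨a'1, hh⟩
    rw [l13, mem_insert, mem_singleton] at this
    rcases this with h1 | h1
    · exact a'o h1
    · exact a's2 h1
  -- a plane containing M with no member in P2, P3 has four elements
  have hfour : ∀ R, IsFl K v R → rk K v R = 3 → rk K v (R ∩ P1) = 2 → 3 ≤ (R ∩ P1).card →
      cnt A (R ∩ P2) = 0 → cnt A (R ∩ P3) = 0 → R.card ≤ 4 ∧ M ⊆ R := by
    intro R hR hRr r1 r2 r3 r4
    have h1 := hM2 _ _ (hR.inter h.f1) r1 inter_subset_right r2 hMf hr1 hMP hc1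
    have h2 := h.cnt_plane ((subset_univ R).trans hU) r3 r4
    rw [h1] at h2
    have h3 := h.hA.eq (empty_subset _) (subset_univ R) hR
    have h4 := h.hA.eq (empty_subset _) (subset_univ M) hMf
    refine ⟨by omega, ?_⟩
    rw [← h1]
    exact inter_subset_left
  -- the line P2 ∩ P3 has two elements
  have c23' : (P2 ∩ P3).card = 2 := by
    by_contra hne
    have ha'mem : a' ∈ P1 \ P2 := mem_sdiff.2 ⟨a'1, a'2⟩
    obtain ⟨y, hy, y', hy', hyy, R, hR, hRr, t1, t2, t3, t4, hoR, hRc, r1, r2, r3, r4⟩ :=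
      h.step hK hU c2 c3 s31 s32 hs3 ha31 ha32 (hXmem P1 P2 ((P1 \ P2).erase a') (erase_subset _ _))
        (by rw [hXcard P1 P2 _ (erase_subset _ _) o1 o2, card_erase_of_mem ha'mem]; omega)
    obtain ⟨hR4, hMR⟩ := hfour R hR hRr r1 r2 r3 r4
    have a3M : a3 ∉ M := fun hh => ha31 (hMP hh)
    have hReq : insert a3 M = R := by
      apply eq_of_subset_of_card_le (insert_subset t2 hMR)
      rw [card_insert_of_notMem a3M]
      omega
    have hone : ∀ z ∈ insert o ((P1 \ P2).erase a' ∪ (P2 \ P1)), z ∈ R → z = s2 := by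
      intro z hz hzR
      rw [← hReq, hMeq] at hzR
      simp only [mem_insert, mem_singleton] at hzR
      have h1 := hXmem P1 P2 ((P1 \ P2).erase a') (erase_subset _ _) z hz
      rcases hzR with rfl | rfl | rfl | rfl
      · exfalso
        rcases h1 with h1 | h1 | h1
        · exact ha31 (h1 ▸ o1)
        · exact ha31 h1.1
        · exact ha32 h1.1
      · rfl
      · exfalso
        rcases h1 with h1 | h1 | h1
        · exact hs3 h1
        · exact h1.2 s32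
        · exact h1.2 s31
      · exfalso
        rcases mem_insert.1 hz with h1 | h1
        · exact a'o h1
        · rcases mem_union.1 h1 with h1 | h1
          · exact (mem_erase.1 h1).1 rfl
          · exact a'2 (mem_sdiff.1 h1).1
    exact hyy ((hone y hy t3).trans (hone y' hy' t4).symm)
  obtain ⟨s1, hs1, l23⟩ := hother _ c23' (mem_inter.2 ⟨o2, o3⟩)
  have ms1 : s1 ∈ P2 ∩ P3 := by rw [l23]; simp
  rw [mem_inter] at ms1
  obtain ⟨s12, s13⟩ := ms1
  have s11 : s1 ∉ P1 := fun hh => hs1 (h.eq_o hh s12 s13)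
  have n12 : s1 ≠ s2 := by rintro rfl; exact s22 s12
  have n13 : s1 ≠ s3 := by rintro rfl; exact s33 s13
  have c2' : P2.card = 4 := by omega
  have c3' : P3.card = 4 := by omega
  -- the other element of P1
  obtain ⟨a1, ha1⟩ : (P1 \ {o, s2, s3, a'}).Nonempty := by
    rw [← card_pos]
    have h1 : ({o, s2, s3, a'} : Finset E) ⊆ P1 := by
      intro x hx
      simp only [mem_insert, mem_singleton] at hx
      rcases hx with rfl | rfl | rfl | rfl
      · exact o1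
      · exact s21
      · exact s31
      · exact a'1
    have h2 := card_sdiff_add_card_eq_card h1
    have h3 : ({o, s2, s3, a'} : Finset E).card ≤ 4 := card_le_four
    omega
  rw [mem_sdiff] at ha1
  obtain ⟨ha1, ha1n⟩ := ha1
  simp only [mem_insert, mem_singleton, not_or] at ha1n
  obtain ⟨a1o, a1s2, a1s3, a1a'⟩ := ha1n
  have ha12 : a1 ∉ P2 := by
    intro hh
    have : a1 ∈ P1 ∩ P2 := mem_inter.2 ⟨ha1, hh⟩
    rw [l12, mem_insert, mem_singleton] at this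
    rcases this with h1 | h1
    · exact a1o h1
    · exact a1s3 h1
  have ha13 : a1 ∉ P3 := by
    intro hh
    have : a1 ∈ P1 ∩ P3 := mem_inter.2 ⟨ha1, hh⟩
    rw [l13, mem_insert, mem_singleton] at this
    rcases this with h1 | h1
    · exact a1o h1
    · exact a1s2 h1
  have hcol : ∀ (P : Finset E) (a s t : E), IsFl K v P → rk K v P = 3 →
      (∃ i, cl K v (A i) = P) → P.card = 4 → s ∈ P → t ∈ P → s ≠ t → a ≠ s → a ≠ t →
      v a ∉ sp K v {s, t} := by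
    intro P a s t hP hr hh hc hs ht hst has hat ha
    have h1 : cl K v {s, t} ⊆ P := hP.cl_subset (by
      intro x hx
      rcases mem_insert.1 hx with rfl | hx
      · exact hs
      · rw [mem_singleton] at hx; subst hx; exact ht)
    have h2 := tp_one h.hv h.hA hP hr hh (L := cl K v {s, t}) isFl_cl
      (by rw [rk_cl, h.hv.rk_pair hst]) h1
    have h3 : ({a, s, t} : Finset E).card = 3 := card_eq_three.2 ⟨a, s, t, has, hat, hst, rfl⟩
    have h4 : ({a, s, t} : Finset E) ⊆ cl K v {s, t} := by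
      intro x hx
      simp only [mem_insert, mem_singleton] at hx
      rcases hx with rfl | rfl | rfl
      · exact mem_cl.2 ha
      · exact subset_cl (by simp)
      · exact subset_cl (by simp)
    have h5 := card_le_card h4
    omega
  have e21 : a2 ≠ s1 := by rintro rfl; exact ha23 s13
  have e23 : a2 ≠ s3 := by rintro rfl; exact ha21 s31
  have e31 : a3 ≠ s1 := by rintro rfl; exact ha32 s12
  have e32 : a3 ≠ s2 := by rintro rfl; exact ha31 s21
  have hc1' : v a1 ∉ sp K v {s2, s3} := by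
    intro h1
    have h2 : a1 ∈ M := by
      apply hMf.mem
      have h3 : sp K v {s2, s3} ≤ sp K v M := sp_mono (by
        intro x hx
        rcases mem_insert.1 hx with rfl | hx
        · exact hMs2
        · rw [mem_singleton] at hx; subst hx; exact hMs3)
      exact h3 h1
    rw [hMeq] at h2
    simp only [mem_insert, mem_singleton] at h2
    rcases h2 with h2 | h2 | h2
    · exact a1s2 h2
    · exact a1s3 h2
    · exact a1a' h2
  obtain ⟨R, hR, hRr, hR1, hR2, hR3, hRc⟩ := h.seven hK l12 l13 l23 hs1 hs2 hs3 ha1 ha12 ha13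
    ha2 ha21 ha23 ha3 ha31 ha32 hc1'
    (hcol P2 a2 s1 s3 h.f2 h.r2 h.i2 c2' s12 s32 n13 e21 e23)
    (hcol P3 a3 s1 s2 h.f3 h.r3 h.i3 c3' s13 s23 n12 e31 e32)
  have k2 := tp_small h.hv h.hA h.f2 h.r2 h.i2 c2'.le hR hRr hR2
  have k3 := tp_small h.hv h.hA h.f3 h.r3 h.i3 c3'.le hR hRr hR3
  have hR4 := card_le_card (inter_subset_left (s₁ := R) (s₂ := {s1, s2, s3, a1, a2, a3}))
  have e2 := h.hA.eq (empty_subset _) (subset_univ (R ∩ P2)) (hR.inter h.f2)
  have e3 := h.hA.eq (empty_subset _) (subset_univ (R ∩ P3)) (hR.inter h.f3)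
  rcases h.plane hR hRr hR1 hR2 hR3 (by omega) ((subset_univ R).trans hU) with h1 | h1 | h1
  · obtain ⟨h2, h3⟩ := hfour R hR hRr h1.1 h1.2 k2 k3
    have h6 : insert a' (R ∩ {s1, s2, s3, a1, a2, a3}) ⊆ R :=
      insert_subset (h3 a'M) inter_subset_left
    have h7 : a' ∉ R ∩ {s1, s2, s3, a1, a2, a3} := by
      intro h8
      have h9 := (mem_inter.1 h8).2
      simp only [mem_insert, mem_singleton] at h9
      rcases h9 with h9 | h9 | h9 | h9 | h9 | h9
      · exact s11 (h9 ▸ a'1)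
      · exact a's2 h9
      · exact a's3 h9
      · exact a1a' h9.symm
      · exact ha21 (h9 ▸ a'1)
      · exact ha31 (h9 ▸ a'1)
    have h8 := card_le_card h6
    rw [card_insert_of_notMem h7] at h8
    omega
  · omega
  · omega

/-- the numbers -/
private theorem TP.nums (h : TP (K := K) v A P1 P2 P3 o) :
    P1.card + 1 = (P1 ∩ P2).card + (P1 ∩ P3).card + (P1 \ (P2 ∪ P3)).card ∧
    (univ \ P1).card + 1 = (P2 ∩ P3).card + (P2 \ (P1 ∪ P3)).card + (P3 \ (P1 ∪ P2)).card +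
        (univ \ (P1 ∪ P2 ∪ P3)).card ∧
    P2.card + 1 = (P1 ∩ P2).card + (P2 ∩ P3).card + (P2 \ (P1 ∪ P3)).card ∧
    (univ \ P2).card + 1 = (P1 ∩ P3).card + (P1 \ (P2 ∪ P3)).card + (P3 \ (P1 ∪ P2)).card +
        (univ \ (P1 ∪ P2 ∪ P3)).card ∧
    P3.card + 1 = (P1 ∩ P3).card + (P2 ∩ P3).card + (P3 \ (P1 ∪ P2)).card ∧
    (univ \ P3).card + 1 = (P1 ∩ P2).card + (P1 \ (P2 ∪ P3)).card + (P2 \ (P1 ∪ P3)).card +
        (univ \ (P1 ∪ P2 ∪ P3)).card := by
  obtain ⟨a1, a2, a3⟩ := tp_part P1 P2 P3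
  obtain ⟨b1, b2, b3⟩ := tp_part P2 P1 P3
  obtain ⟨c1, c2, c3⟩ := tp_part P3 P1 P2
  have e1 : P2 ∪ P1 = P1 ∪ P2 := union_comm _ _
  have e2 : P3 ∪ P1 = P1 ∪ P3 := union_comm _ _
  have e3 : P3 ∪ P2 = P2 ∪ P3 := union_comm _ _
  have e4 : P1 ∪ P3 ∪ P2 = P1 ∪ P2 ∪ P3 := by ext x; simp only [mem_union]; tauto
  have i1 : P2 ∩ P1 = P1 ∩ P2 := inter_comm _ _
  have i2 : P3 ∩ P1 = P1 ∩ P3 := inter_comm _ _
  have i3 : P3 ∩ P2 = P2 ∩ P3 := inter_comm _ _
  have i4 : P1 ∩ P3 ∩ P2 = P1 ∩ P2 ∩ P3 := by ext x; simp only [mem_inter]; tauto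
  rw [e1] at b1
  rw [i1] at b2 b3
  rw [e2, e3, e4] at c1
  rw [i2, i3, i4] at c2
  rw [i2, i4] at c3
  rw [h.ho, card_singleton] at a2 a3 b2 b3 c2 c3
  refine ⟨by omega, by omega, by omega, by omega, by omega, by omega⟩

private theorem TP.low (h : TP (K := K) v A P1 P2 P3 o) :
    2 ≤ (P1 ∩ P2).card ∧ 2 ≤ (P1 ∩ P3).card ∧ 2 ≤ (P2 ∩ P3).card ∧
      1 ≤ (P1 \ (P2 ∪ P3)).card ∧ 1 ≤ (P2 \ (P1 ∪ P3)).card ∧ 1 ≤ (P3 \ (P1 ∪ P2)).card := by
  obtain ⟨n1, n2, n3, n4, n5, n6⟩ := h.nums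
  have b1 := h.base
  have b2 := h.rot.base
  have b3 := h.rot.rot.base
  rw [inter_comm P2 P1] at b2
  rw [inter_comm P3 P1, inter_comm P3 P2] at b3
  refine ⟨by omega, by omega, by omega, by omega, by omega, by omega⟩

private theorem TP.exs (h : TP (K := K) v A P1 P2 P3 o) : ∃ s, s ∈ P1 ∧ s ∈ P2 ∧ s ≠ o := by
  obtain ⟨h1, -⟩ := h.low
  have h2 : 0 < ((P1 ∩ P2).erase o).card := by
    rw [card_erase_of_mem (mem_inter.2 ⟨h.mo.1, h.mo.2.1⟩)]; omega
  obtain ⟨s, hs⟩ := card_pos.1 h2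
  rw [mem_erase, mem_inter] at hs
  exact ⟨s, hs.2.1, hs.2.2, hs.1⟩

private theorem TP.exa (h : TP (K := K) v A P1 P2 P3 o) : ∃ a, a ∈ P1 ∧ a ∉ P2 ∧ a ∉ P3 := by
  obtain ⟨-, -, -, h1, -, -⟩ := h.low
  obtain ⟨a, ha⟩ := card_pos.1 (show 0 < (P1 \ (P2 ∪ P3)).card by omega)
  rw [mem_sdiff, mem_union, not_or] at ha
  exact ⟨a, ha.1, ha.2.1, ha.2.2⟩

/-- case (a): the pencil bound -/
private theorem TP.lines (hK : Fintype.card K = 4) (h : TP (K := K) v A P1 P2 P3 o)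
    (hU : univ ⊆ P1 ∪ P2 ∪ P3) (c1 : P1.card = (P1 ∩ P2).card + (P1 ∩ P3).card)
    (c2 : P2.card = (P1 ∩ P2).card + (P2 ∩ P3).card)
    (c3 : P3.card = (P1 ∩ P3).card + (P2 ∩ P3).card) :
    (P1 ∩ P3).card + (P2 ∩ P3).card ≤ 4 := by
  classical
  by_contra hc
  push Not at hc
  obtain ⟨s, hs1, hs2, hso⟩ := h.exs
  obtain ⟨a, -, ha1, ha2⟩ := h.rot.rot.exa
  have d1 := card_sdiff_add_card_inter P1 P2
  have d2 := card_sdiff_add_card_inter P2 P1
  rw [inter_comm P2 P1] at d2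
  have hX : (insert o ((P1 \ P2) ∪ (P2 \ P1))).card = (P1 \ P2).card + (P2 \ P1).card + 1 := by
    rw [card_insert_of_notMem, card_union_of_disjoint]
    · rw [Finset.disjoint_left]
      intro x hx hx'
      exact (mem_sdiff.1 hx').2 (mem_sdiff.1 hx).1
    · intro h3
      rcases mem_union.1 h3 with h3 | h3
      · exact (mem_sdiff.1 h3).2 h.mo.2.1
      · exact (mem_sdiff.1 h3).2 h.mo.1
  obtain ⟨-, -, -, -, -, Q, hQ, hQr, -, -, -, -, hoQ, -, r1, r2, -, -⟩ :=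
    h.step hK hU c2 c3 hs1 hs2 hso ha1 ha2 (X := insert o ((P1 \ P2) ∪ (P2 \ P1))) (by
      intro y hy
      rcases mem_insert.1 hy with h1 | h1
      · exact Or.inl h1
      · rcases mem_union.1 h1 with h1 | h1
        · exact Or.inr (Or.inl (mem_sdiff.1 h1))
        · exact Or.inr (Or.inr (mem_sdiff.1 h1))) (by omega)
  have h3 := h.line (hQ.inter h.f1) r1 inter_subset_right (fun hh => hoQ (mem_inter.1 hh).1)
  omega

/-- all lines have two elements and all `p_i = 1` -/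
private theorem TP.fin_small' (hK : Fintype.card K = 4) (h : TP (K := K) v A P1 P2 P3 o)
    (c12 : (P1 ∩ P2).card = 2) (c13 : (P1 ∩ P3).card = 2) (c23 : (P2 ∩ P3).card = 2)
    (c1 : P1.card = 4) (c2 : P2.card = 4) (c3 : P3.card = 4)
    (hD : (univ \ (P1 ∪ P2 ∪ P3)).card ≤ 1) : False := by
  classical
  obtain ⟨o1, o2, o3⟩ := h.mo
  have hother : ∀ L : Finset E, L.card = 2 → o ∈ L → ∃ s, s ≠ o ∧ L = {o, s} := by
    intro L hL ho
    have h1 : (L.erase o).card = 1 := by rw [card_erase_of_mem ho, hL]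
    obtain ⟨s, hs⟩ := card_eq_one.1 h1
    have h2 : s ∈ L.erase o := by rw [hs]; exact mem_singleton_self s
    refine ⟨s, (mem_erase.1 h2).1, ?_⟩
    rw [← insert_erase ho, hs]
  obtain ⟨s3, hs3, l12⟩ := hother _ c12 (mem_inter.2 ⟨o1, o2⟩)
  obtain ⟨s2, hs2, l13⟩ := hother _ c13 (mem_inter.2 ⟨o1, o3⟩)
  obtain ⟨s1, hs1, l23⟩ := hother _ c23 (mem_inter.2 ⟨o2, o3⟩)
  obtain ⟨a1, a11, a12, a13⟩ := h.exa
  obtain ⟨a2, a22, a23, a21⟩ := h.rot.exa
  obtain ⟨a3, a33, a31, a32⟩ := h.rot.rot.exa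
  exact h.fin_small hK l12 l13 l23 hs1 hs2 hs3 a11 a12 a13 a22 a21 a23 a33 a31 a32 c1 c2 c3 hD

/-- case (c) -/
private theorem TP.big (hK : Fintype.card K = 4) (h : TP (K := K) v A P1 P2 P3 o)
    (hU : univ ⊆ P1 ∪ P2 ∪ P3) (hp : 2 ≤ (P1 \ (P2 ∪ P3)).card) (k2 : (univ \ P2).card ≤ 4)
    (k3 : (univ \ P3).card ≤ 4) : False := by
  obtain ⟨n1, n2, n3, n4, n5, n6⟩ := h.nums
  obtain ⟨m1, m2, m3, m4, m5, m6⟩ := h.low
  obtain ⟨a2, a22, a23, a21⟩ := h.rot.exa
  obtain ⟨a3, a33, a31, a32⟩ := h.rot.rot.exa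
  exact h.fin_big hK hU (by omega) (by omega) (by omega) (by omega) (by omega) a22 a21 a23 a33
    a31 a32

end tp

variable {K V E : Type*} [Field K] [Fintype K] [AddCommGroup V] [Module K V]
  [FiniteDimensional K V] [Fintype E] [DecidableEq E] {v : E → V}

/-- case (II): a common point -/
theorem three_planes_point (hK : Fintype.card K = 4) (hv : Simple K v) {n : ℕ}
    {A : Fin n → Finset E} (hA : IsMason K v ∅ univ A) (h4 : rk K v univ = 4)
    {P1 P2 P3 : Finset E} (hP1 : IsFl K v P1) (hP2 : IsFl K v P2) (hP3 : IsFl K v P3)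
    (hr1 : rk K v P1 = 3) (hr2 : rk K v P2 = 3) (hr3 : rk K v P3 = 3)
    (h1 : ∃ i, cl K v (A i) = P1) (h2 : ∃ i, cl K v (A i) = P2) (h3 : ∃ i, cl K v (A i) = P3)
    (h12 : P1 ≠ P2) (h13 : P1 ≠ P3) (h23 : P2 ≠ P3)
    (hl : rk K v (P1 ∩ P2 ∩ P3) ≤ 1) : False := by
  classical
  have r12 := P4 hK hv hA h4 hP1 hP2 hr1 hr2 h1 h2 h12
  have r13 := P4 hK hv hA h4 hP1 hP3 hr1 hr3 h1 h3 h13
  have r23 := P4 hK hv hA h4 hP2 hP3 hr2 hr3 h2 h3 h23
  have hM := M3 hA.sg hP1 hP2 hP3 (empty_subset _) (empty_subset _) (empty_subset _)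
    (subset_univ _)
  have hU4 : 4 ≤ rk K v (P1 ∪ P2 ∪ P3) := by
    by_contra hc
    push Not at hc
    have h5 : rk K v (P1 ∪ P2) ≤ 3 := by
      have := rk_mono (K := K) (v := v) (subset_union_left (s₁ := P1 ∪ P2) (s₂ := P3))
      omega
    have e1 := hP1.eq_of_subset_of_rk_le (G := P1 ∪ P2) subset_union_left (by omega)
    have e2 := hP2.eq_of_subset_of_rk_le (G := P1 ∪ P2) subset_union_right (by omega)
    exact h12 (e1.trans e2.symm)
  have hle : rk K v (P1 ∩ P2 ∩ P3) ≤ (P1 ∩ P2 ∩ P3).card := rk_le_card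
  have hle2 := hv.card_le_one hl
  obtain ⟨o, ho⟩ := card_eq_one.1 (show (P1 ∩ P2 ∩ P3).card = 1 by omega)
  have T : TP (K := K) v A P1 P2 P3 o := ⟨hv, hA, h4, hP1, hP2, hP3, hr1, hr2, hr3, h1, h2, h3,
    r12, r13, r23, ho⟩
  have k1 := Ck hK hv hA (by omega) hP1 (by omega) h1
  have k2 := Ck hK hv hA (by omega) hP2 (by omega) h2
  have k3 := Ck hK hv hA (by omega) hP3 (by omega) h3
  obtain ⟨n1, n2, n3, n4, n5, n6⟩ := T.nums
  obtain ⟨m1, m2, m3, m4, m5, m6⟩ := T.low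
  by_cases hD : (univ \ (P1 ∪ P2 ∪ P3)).card = 0
  · have hU : univ ⊆ P1 ∪ P2 ∪ P3 := by
      rw [card_eq_zero, sdiff_eq_empty_iff_subset] at hD
      exact hD
    by_cases q1 : 2 ≤ (P1 \ (P2 ∪ P3)).card
    · exact T.big hK hU q1 k2 k3
    by_cases q2 : 2 ≤ (P2 \ (P1 ∪ P3)).card
    · refine T.rot.big hK ?_ ?_ k3 k1
      · have : P2 ∪ P3 ∪ P1 = P1 ∪ P2 ∪ P3 := by ext x; simp only [mem_union]; tauto
        rw [this]; exact hU
      · rw [union_comm P3 P1]; exact q2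
    by_cases q3 : 2 ≤ (P3 \ (P1 ∪ P2)).card
    · refine T.rot.rot.big hK ?_ q3 k1 k2
      have : P3 ∪ P1 ∪ P2 = P1 ∪ P2 ∪ P3 := by ext x; simp only [mem_union]; tauto
      rw [this]; exact hU
    have l1 := T.lines hK hU (by omega) (by omega) (by omega)
    have l2 := T.swap23.lines hK (by
      have : P1 ∪ P3 ∪ P2 = P1 ∪ P2 ∪ P3 := by ext x; simp only [mem_union]; tauto
      rw [this]; exact hU) (by omega) (by rw [inter_comm P3 P2]; omega)
      (by rw [inter_comm P3 P2]; omega)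
    rw [inter_comm P3 P2] at l2
    exact T.fin_small' hK (by omega) (by omega) (by omega) (by omega) (by omega) (by omega)
      (by omega)
  · exact T.fin_small' hK (by omega) (by omega) (by omega) (by omega) (by omega) (by omega)
      (by omega)

end Ca3
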