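import Pool.Agent.Lib.MP_ca3eb1_co.TPline
import Pool.Agent.Lib.MP_ca3eb1_co.TPpoint

/-! # Module W6: at most two heavy planes in rank 4 -/

set_option linter.unusedSectionVars false

namespace Ca3

open Finset Submodule

variable {K V E : Type*} [Field K] [Fintype K] [AddCommGroup V] [Module K V]
  [FiniteDimensional K V] [Fintype E] [DecidableEq E] {v : E → V}

theorem three_planes (hK : Fintype.card K = 4) (hv : Simple K v) {n : ℕ}
    {A : Fin n → Finset E} (hA : IsMason K v ∅ univ A) (h4 : rk K v univ = 4)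
    {P1 P2 P3 : Finset E} (hP1 : IsFl K v P1) (hP2 : IsFl K v P2) (hP3 : IsFl K v P3)
    (hr1 : rk K v P1 = 3) (hr2 : rk K v P2 = 3) (hr3 : rk K v P3 = 3)
    (h1 : ∃ i, cl K v (A i) = P1) (h2 : ∃ i, cl K v (A i) = P2) (h3 : ∃ i, cl K v (A i) = P3)
    (h12 : P1 ≠ P2) (h13 : P1 ≠ P3) (h23 : P2 ≠ P3) : False := by
  have h0 := P4 hK hv hA h4 hP1 hP2 hr1 hr2 h1 h2 h12
  have h5 : rk K v (P1 ∩ P2 ∩ P3) ≤ rk K v (P1 ∩ P2) := rk_mono inter_subset_left
  by_cases h6 : rk K v (P1 ∩ P2 ∩ P3) = 2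
  · exact three_planes_line hK hv hA h4 hP1 hP2 hP3 hr1 hr2 hr3 h1 h2 h3 h12 h13 h23 h6
  · exact three_planes_point hK hv hA h4 hP1 hP2 hP3 hr1 hr2 hr3 h1 h2 h3 h12 h13 h23
      (by omega)

end Ca3
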