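import Pool.Agent.Lib.MP_ca3eb1_co.Alpha

/-! # Module W8b: there is no tight configuration of rank 5 -/

set_option linter.unusedSectionVars false

namespace Ca3

open Finset Submodule

variable {K V E : Type*} [Field K] [AddCommGroup V] [Module K V]
  [FiniteDimensional K V] [Fintype E] [DecidableEq E] {v : E → V}

/-- step (g): the counting inequality. `G`, `G'` are the two planes of `H`, `y ∈ G`; `Φ` runs
over the planes through `y` in `H` which meet `G` in a line and contain at least two elements
of `G'`. -/
theorem tight_five_count (hv : Simple K v) (ht : Tight K v)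
    (h5 : rk K v univ = 5) {H G G' : Finset E} (hH : IsFl K v H) (hr : rk K v H = 4)
    (h0 : 0 < alpha K v H) (hG : IsFl K v G) (hG' : IsFl K v G') (hGr : rk K v G = 3)
    (hGr' : rk K v G' = 3) (hun : G ∪ G' = H) (hdis : G ∩ G' = ∅) {y : E} (hy : y ∈ G)
    {PP : Finset (Finset E)} (hPP : ∀ P ∈ PP, IsFl K v P ∧ rk K v P = 3 ∧ P ⊆ H ∧ y ∈ P ∧
      2 ≤ (P ∩ G).card ∧ P ≠ G) :
    alpha K v H + ∑ P ∈ PP, ((P ∩ G').card - 1 : ℕ) + 1 ≤ (G'.card : ℤ) := by
  classical
  have hGH : G ⊆ H := hun ▸ subset_union_left
  have hyH : y ∈ H := hGH hy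
  have hyG' : y ∉ G' := by
    intro h
    have : y ∈ G ∩ G' := mem_inter.2 ⟨hy, h⟩
    rw [hdis] at this
    exact absurd this (notMem_empty _)
  have hne : H ≠ univ := by
    rintro rfl
    omega
  have hsH : SG K v ∅ H := ht.2.2 H hH hne
  obtain ⟨n, A, hA⟩ := ht.2.1 y
  have cH : cnt A H + 4 = H.card := by
    have := hA.eq (singleton_subset_iff.2 hyH) (subset_univ _) hH
    omega
  have cG : cnt A G + 3 = G.card := by
    have := hA.eq (singleton_subset_iff.2 hy) (subset_univ _) hG
    omega
  have hcard : H.card = G.card + G'.card := by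
    rw [← hun, card_union_of_disjoint (disjoint_iff_inter_eq_empty.2 hdis)]
  -- members spanning `H`
  set S0 : Finset (Fin n) := univ.filter (fun i => cl K v (A i ∪ {y}) = H) with hS0
  have c0 : alpha K v H ≤ (S0.card : ℤ) := by
    rw [hS0, beta hA hH (singleton_subset_iff.2 hyH) (subset_univ _)]
    apply single_le_sum (f := fun G' => alpha K v G')
    · intro F hF
      rw [mem_filter] at hF
      exact alpha_nonneg hsH ((subset_union_left.trans subset_cl).trans hF.2.2.le)
    · rw [mem_filter]
      refine ⟨mem_univ _, hH, ?_⟩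
      have : H ∪ {y} = H := by
        rw [union_eq_left, singleton_subset_iff]
        exact hyH
      rw [this]
      exact hH
  -- members inside `P`, not inside `G`
  set T : Finset E → Finset (Fin n) := fun P => univ.filter (fun i => A i ⊆ P ∧ ¬ A i ⊆ G)
    with hT
  have cT : ∀ P, (T P).card + cnt A (P ∩ G) = cnt A P := by
    intro P
    unfold cnt
    rw [hT, ← card_union_of_disjoint]
    · congr 1
      ext i
      simp only [mem_union, mem_filter, mem_univ, true_and, subset_inter_iff]
      tauto
    · rw [disjoint_left]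
      intro i h1 h2
      simp only [mem_filter, mem_univ, true_and, subset_inter_iff] at h1 h2
      exact h1.2 h2.2
  -- the trace of `P` on `G`
  have rG : ∀ P ∈ PP, rk K v (P ∩ G) = 2 := by
    intro P hP
    obtain ⟨p1, p2, p3, p4, p5, p6⟩ := hPP P hP
    have a := hv.two_le_rk p5
    have b : P ∩ G ⊂ P := by
      rw [Finset.ssubset_iff_subset_ne]
      refine ⟨inter_subset_left, ?_⟩
      intro h
      apply p6
      have h1 : P ⊆ G := by rw [← h]; exact inter_subset_right
      exact p1.eq_of_subset_of_rk_le h1 (by omega)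
    have c := (p1.inter hG).rk_lt_of_ssubset b
    omega
  have cP : ∀ P ∈ PP, (T P).card = (P ∩ G').card - 1 := by
    intro P hP
    obtain ⟨p1, p2, p3, p4, p5, p6⟩ := hPP P hP
    have a := cT P
    have b := hA.eq (singleton_subset_iff.2 p4) (subset_univ _) p1
    have c := hA.eq (singleton_subset_iff.2 (mem_inter.2 ⟨p4, hy⟩)) (subset_univ _) (p1.inter hG)
    have d := rG P hP
    have e : P.card = (P ∩ G).card + (P ∩ G').card := by
      rw [← card_union_of_disjoint]
      · congr 1
        rw [← inter_union_distrib_left, hun]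
        exact (inter_eq_left.2 p3).symm
      · rw [disjoint_left]
        intro z h1 h2
        have : z ∈ G ∩ G' := mem_inter.2 ⟨(mem_inter.1 h1).2, (mem_inter.1 h2).2⟩
        rw [hdis] at this
        exact absurd this (notMem_empty _)
    omega
  -- a member inside two planes is inside `G`
  have hdj : ∀ P ∈ PP, ∀ P' ∈ PP, P ≠ P' → Disjoint (T P) (T P') := by
    intro P hP P' hP' hPP'
    obtain ⟨p1, p2, p3, p4, p5, p6⟩ := hPP P hP
    obtain ⟨q1, q2, q3, q4, q5, q6⟩ := hPP P' hP'
    rw [disjoint_left]
    intro i h1 h2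
    rw [hT] at h1 h2
    simp only [mem_filter, mem_univ, true_and] at h1 h2
    have hL : IsFl K v (P ∩ P') := p1.inter q1
    have hyL : y ∈ P ∩ P' := mem_inter.2 ⟨p4, q4⟩
    have hAL : A i ⊆ P ∩ P' := subset_inter h1.1 h2.1
    have hrL : rk K v (P ∩ P') ≤ 2 := by
      have b : P ∩ P' ⊂ P := by
        rw [Finset.ssubset_iff_subset_ne]
        refine ⟨inter_subset_left, ?_⟩
        intro h
        apply hPP'
        have h1 : P ⊆ P' := by rw [← h]; exact inter_subset_right
        exact p1.eq_of_subset_of_rk_le h1 (by omega)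
      have c := hL.rk_lt_of_ssubset b
      omega
    -- the line `L` has at most two elements
    obtain ⟨z, hzA, hzG⟩ := not_subset.1 h1.2
    have hzL : z ∈ P ∩ P' := hAL hzA
    have hzy : y ≠ z := by
      rintro rfl
      exact hzG hy
    have hrL2 : rk K v (P ∩ P') = 2 := by
      have a := hv.rk_pair hzy
      have b := rk_mono (K := K) (v := v)
        (show ({y, z} : Finset E) ⊆ P ∩ P' from insert_subset hyL (singleton_subset_iff.2 hzL))
      omega
    have hLG' : rk K v ((P ∩ P') ∩ G') ≤ 1 := by
      have b : (P ∩ P') ∩ G' ⊂ P ∩ P' := by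
        rw [Finset.ssubset_iff_subset_ne]
        refine ⟨inter_subset_left, ?_⟩
        intro h
        rw [← h] at hyL
        exact hyG' (mem_inter.1 hyL).2
      have c := (hL.inter hG').rk_lt_of_ssubset b
      omega
    have hLG : rk K v ((P ∩ P') ∩ G) ≤ 1 := by
      have b : (P ∩ P') ∩ G ⊂ P ∩ P' := by
        rw [Finset.ssubset_iff_subset_ne]
        refine ⟨inter_subset_left, ?_⟩
        intro h
        rw [← h] at hzL
        exact hzG (mem_inter.1 hzL).2
      have c := (hL.inter hG).rk_lt_of_ssubset b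
      omega
    have k1 := hv.card_le_one hLG'
    have k2 := hv.card_le_one hLG
    have k3 : (P ∩ P').card ≤ 2 := by
      have : P ∩ P' = ((P ∩ P') ∩ G) ∪ ((P ∩ P') ∩ G') := by
        rw [← inter_union_distrib_left, hun]
        exact (inter_eq_left.2 (inter_subset_left.trans p3)).symm
      rw [this]
      have := card_union_le ((P ∩ P') ∩ G) ((P ∩ P') ∩ G')
      omega
    have k4 := hA.eq (singleton_subset_iff.2 hyL) (subset_univ _) hL
    have k5 : 0 < cnt A (P ∩ P') := by
      unfold cnt
      rw [card_pos]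
      exact ⟨i, by rw [mem_filter]; exact ⟨mem_univ _, hAL⟩⟩
    omega
  -- members spanning `H` are not inside a plane
  have hS0P : ∀ P, IsFl K v P → rk K v P = 3 → y ∈ P → ∀ i ∈ S0, ¬ A i ⊆ P := by
    intro P hP hPr hyP i hi hAi
    rw [hS0, mem_filter] at hi
    have h1 : H ⊆ P := by
      rw [← hi.2]
      exact hP.cl_subset (union_subset hAi (singleton_subset_iff.2 hyP))
    have h2 := rk_mono (K := K) (v := v) h1
    omega
  have hsub : S0 ∪ PP.biUnion T ⊆ T H := by
    apply union_subset
    · intro i hi
      have h1 := hS0P G hG hGr hy i hi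
      rw [hS0, mem_filter] at hi
      rw [hT]
      simp only [mem_filter, mem_univ, true_and]
      exact ⟨(subset_union_left.trans subset_cl).trans hi.2.le, h1⟩
    · rw [biUnion_subset]
      intro P hP i hi
      rw [hT] at hi ⊢
      simp only [mem_filter, mem_univ, true_and] at hi ⊢
      exact ⟨hi.1.trans (hPP P hP).2.2.1, hi.2⟩
  have hdis0 : Disjoint S0 (PP.biUnion T) := by
    rw [disjoint_left]
    intro i hi hi2
    rw [mem_biUnion] at hi2
    obtain ⟨P, hP, hi2⟩ := hi2
    obtain ⟨p1, p2, p3, p4, p5, p6⟩ := hPP P hP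
    rw [hT] at hi2
    simp only [mem_filter, mem_univ, true_and] at hi2
    exact hS0P P p1 p2 p4 i hi hi2.1
  have hle := card_le_card hsub
  rw [card_union_of_disjoint hdis0, card_biUnion hdj, sum_congr rfl cP] at hle
  have cTH := cT H
  have hHG : H ∩ G = G := inter_eq_right.2 hGH
  rw [hHG] at cTH
  push_cast
  have hle' : (S0.card : ℤ) + ∑ P ∈ PP, (((P ∩ G').card - 1 : ℕ) : ℤ) ≤ ((T H).card : ℤ) := by
    exact_mod_cast hle
  omega

end Ca3
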