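import Pool.Agent.Lib.MP_ca3eb1_co.TFstruct
import Pool.Agent.Lib.MP_ca3eb1_co.TFcount
import Pool.Agent.Lib.MP_ca3eb1_co.P4lib

/-! # Module W8: there is no tight configuration of rank 5 -/

set_option linter.unusedSectionVars false

namespace Ca3

open Finset Submodule

variable {K V E : Type*} [Field K] [Fintype K] [AddCommGroup V] [Module K V]
  [FiniteDimensional K V] [Fintype E] [DecidableEq E] {v : E → V}

/-- Two disjoint planes `G`, `G'` in a flat `H`, and a common line `m` of their spans. -/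
structure TFsit (v : E → V) (H G G' : Finset E) (m : Submodule K V) : Prop where
  hv : Simple K v
  hH : IsFl K v H
  hG : IsFl K v G
  hG' : IsFl K v G'
  rG : rk K v G = 3
  rG' : rk K v G' = 3
  un : G ∪ G' = H
  dis : G ∩ G' = ∅
  mG : m ≤ sp K v G
  mG' : m ≤ sp K v G'
  fm : Module.finrank K m = 2

namespace TFsit

variable {H G G' : Finset E} {m : Submodule K V}

theorem symm (s : TFsit v H G G' m) : TFsit v H G' G m :=
  ⟨s.hv, s.hH, s.hG', s.hG, s.rG', s.rG, by rw [union_comm]; exact s.un,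
    by rw [inter_comm]; exact s.dis, s.mG', s.mG, s.fm⟩

theorem sG (s : TFsit v H G G' m) : G ⊆ H := by rw [← s.un]; exact subset_union_left

theorem not_both (s : TFsit v H G G' m) {y : E} (h1 : y ∈ G) (h2 : y ∈ G') : False := by
  have : y ∈ G ∩ G' := mem_inter.2 ⟨h1, h2⟩
  rw [s.dis] at this
  exact absurd this (notMem_empty _)

theorem not_mem (s : TFsit v H G G' m) {y : E} (hy : y ∈ G) : v y ∉ m :=
  fun h => s.not_both hy (s.hG'.mem (s.mG' h))

/-- the trace of the line of a pair -/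
def tr (v : E → V) (m : Submodule K V) (a b : E) : Submodule K V := sp K v {a, b} ⊓ m

theorem tr_comm (a b : E) : tr v m a b = tr v m b a := by
  unfold tr; rw [pair_comm]

theorem fin1 (s : TFsit v H G G' m) {a b : E} (hab : a ≠ b) (ha : a ∈ G) (hb : b ∈ G) :
    Module.finrank K (tr v m a b : Submodule K V) = 1 := by
  apply q_finrank s.hv s.fm s.mG s.rG (p := {a, b})
  · intro x hx
    rcases mem_insert.1 hx with rfl | hx
    · exact ha
    · rw [mem_singleton] at hx; subst hx; exact hb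
  · exact card_pair hab
  · exact ⟨a, mem_insert_self _ _, s.not_mem ha⟩

theorem inj (s : TFsit v H G G' m) {y a b : E} (hya : y ≠ a) (hyb : y ≠ b) (hy : y ∈ G)
    (ha : a ∈ G) (h : tr v m y a = tr v m y b) :
    sp K v {y, a} = sp K v {y, b} :=
  q_inj s.hv (card_pair hya) (card_pair hyb) (mem_insert_self _ _) (mem_insert_self _ _)
    (s.not_mem hy) (s.fin1 hya hy ha) h

/-- the directions of a triangle are different -/
theorem tri (s : TFsit v H G G' m) {a b c : E} (ha : a ∈ G) (hb : b ∈ G)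
    (hab : a ≠ b) (hc' : v c ∉ sp K v {a, b}) : tr v m a b ≠ tr v m a c := by
  intro h
  have hac : a ≠ c := by
    rintro rfl
    exact hc' (mem_sp (mem_insert_self _ _))
  have h1 := s.inj hab hac ha hb h
  apply hc'
  rw [h1]
  exact mem_sp (by simp)

/-- the plane of two pairs with the same direction -/
theorem plane (s : TFsit v H G G' m) {a b c d : E} (hab : a ≠ b) (hcd : c ≠ d) (ha : a ∈ G)
    (hb : b ∈ G) (hc : c ∈ G') (hd : d ∈ G') (h : tr v m a b = tr v m c d) :
    rk K v ({a, b} ∪ {c, d}) = 3 ∧ v c ∉ sp K v G := by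
  have hcG : v c ∉ sp K v G := fun h0 => s.not_both (s.hG.mem h0) hc
  refine ⟨?_, hcG⟩
  have h1 := finrank_sup_add_finrank_inf_eq (sp K v {a, b}) (sp K v {c, d})
  have h2 : Module.finrank K (sp K v {a, b}) = 2 := s.hv.rk_pair hab
  have h3 : Module.finrank K (sp K v {c, d}) = 2 := s.hv.rk_pair hcd
  have h4 : Module.finrank K (tr v m a b : Submodule K V) = 1 := s.fin1 hab ha hb
  have h5 : tr v m a b ≤ sp K v {a, b} ⊓ sp K v {c, d} := by
    refine le_inf inf_le_left ?_
    rw [h]
    exact inf_le_left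
  have h6 := finrank_mono h5
  have h7 : rk K v ({a, b} ∪ {c, d})
      = Module.finrank K (sp K v {a, b} ⊔ sp K v {c, d} : Submodule K V) := by
    unfold rk; rw [sp_union]
  have h8 : ¬ rk K v ({a, b} ∪ {c, d}) ≤ 2 := by
    intro h9
    have h10 := sp_eq_of_subset_of_rk_le (K := K) (v := v) (X := {a, b})
      (Y := {a, b} ∪ {c, d}) subset_union_left (by rw [s.hv.rk_pair hab]; exact h9)
    apply hcG
    have h11 : v c ∈ sp K v ({a, b} ∪ {c, d}) := mem_sp (by simp)
    rw [← h10] at h11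
    refine sp_mono ?_ h11
    intro x hx
    rcases mem_insert.1 hx with rfl | hx
    · exact ha
    · rw [mem_singleton] at hx; subst hx; exact hb
  omega

theorem cl_props (s : TFsit v H G G' m) {a b c d : E} (hab : a ≠ b) (hcd : c ≠ d) (ha : a ∈ G)
    (hb : b ∈ G) (hc : c ∈ G') (hd : d ∈ G') (h : tr v m a b = tr v m c d) :
    IsFl K v (cl K v ({a, b} ∪ {c, d})) ∧ rk K v (cl K v ({a, b} ∪ {c, d})) = 3 ∧
      cl K v ({a, b} ∪ {c, d}) ⊆ H ∧ a ∈ cl K v ({a, b} ∪ {c, d}) ∧
      2 ≤ (cl K v ({a, b} ∪ {c, d}) ∩ G).card ∧ cl K v ({a, b} ∪ {c, d}) ≠ G := by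
  have hp := s.plane hab hcd ha hb hc hd h
  have hmem : ∀ x ∈ ({a, b} ∪ {c, d} : Finset E), x ∈ cl K v ({a, b} ∪ {c, d}) :=
    fun x hx => subset_cl hx
  refine ⟨isFl_cl, by rw [rk_cl]; exact hp.1, ?_, hmem a (by simp), ?_, ?_⟩
  · apply s.hH.cl_subset
    intro x hx
    simp only [mem_union, mem_insert, mem_singleton] at hx
    rcases hx with (rfl | rfl) | (rfl | rfl)
    · exact s.sG ha
    · exact s.sG hb
    · exact s.symm.sG hc
    · exact s.symm.sG hd
  · have h1 : ({a, b} : Finset E) ⊆ cl K v ({a, b} ∪ {c, d}) ∩ G := by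
      intro x hx
      rcases mem_insert.1 hx with rfl | hx
      · exact mem_inter.2 ⟨hmem _ (by simp), ha⟩
      · rw [mem_singleton] at hx; subst hx
        exact mem_inter.2 ⟨hmem _ (by simp), hb⟩
    have h2 := card_le_card h1
    rw [card_pair hab] at h2
    exact h2
  · intro h1
    exact s.not_both (by rw [← h1]; exact hmem c (by simp)) hc

/-- two planes with different traces are different -/
theorem plane_ne (s : TFsit v H G G' m) {y a a' : E} {X X' : Finset E}
    (hya : y ≠ a) (hya' : y ≠ a') (hy : y ∈ G) (ha : a ∈ G) (ha' : a' ∈ G)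
    (hne : tr v m y a ≠ tr v m y a') {c : E} (hc : c ∈ G') (hcX : c ∈ X)
    (hX : rk K v (cl K v X) = 3) (h1 : y ∈ X) (h2 : a ∈ X) (h3 : a' ∈ X') (h4 : y ∈ X') :
    cl K v X ≠ cl K v X' := by
  intro h
  rw [rk_cl] at hX
  have hsp : sp K v X = sp K v X' := cl_eq_cl_iff.1 h
  -- the span contains both traces
  have e1 : tr v m y a ≤ sp K v X := by
    refine inf_le_left.trans (sp_mono ?_)
    intro x hx
    rcases mem_insert.1 hx with rfl | hx
    · exact h1
    · rw [mem_singleton] at hx; subst hx; exact h2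
  have e2 : tr v m y a' ≤ sp K v X := by
    rw [hsp]
    refine inf_le_left.trans (sp_mono ?_)
    intro x hx
    rcases mem_insert.1 hx with rfl | hx
    · exact h4
    · rw [mem_singleton] at hx; subst hx; exact h3
  have f1 := s.fin1 hya hy ha
  have f2 := s.fin1 hya' hy ha'
  have e3 : tr v m y a ⊔ tr v m y a' = m := by
    refine eq_of_le_of_finrank_le (sup_le inf_le_right inf_le_right) ?_
    rw [s.fm]
    by_contra hcon
    have g1 : Module.finrank K (tr v m y a ⊔ tr v m y a' : Submodule K V) ≤ 1 := by omega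
    have g2 : tr v m y a = tr v m y a ⊔ tr v m y a' :=
      eq_of_le_of_finrank_le le_sup_left (by omega)
    have g3 : tr v m y a' = tr v m y a ⊔ tr v m y a' :=
      eq_of_le_of_finrank_le le_sup_right (by omega)
    exact hne (g2.trans g3.symm)
  have e4 : m ≤ sp K v X := by rw [← e3]; exact sup_le e1 e2
  have e5 : m ⊔ span K {v y} ≤ sp K v X := by
    refine sup_le e4 ?_
    rw [span_singleton_le_iff_mem]
    exact mem_sp h1
  have e6 : m ⊔ span K {v y} ≤ sp K v G := by
    refine sup_le s.mG ?_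
    rw [span_singleton_le_iff_mem]
    exact mem_sp hy
  have e7 : 3 ≤ Module.finrank K (m ⊔ span K {v y} : Submodule K V) := by
    by_contra hcon
    have g1 : m = m ⊔ span K {v y} :=
      eq_of_le_of_finrank_le le_sup_left (by rw [s.fm]; omega)
    apply s.not_mem hy
    rw [g1]
    exact mem_sup_right (mem_span_singleton_self _)
  have e8 : m ⊔ span K {v y} = sp K v X :=
    eq_of_le_of_finrank_le e5 (by unfold rk at hX; omega)
  have e9 : m ⊔ span K {v y} = sp K v G :=
    eq_of_le_of_finrank_le e6 (by have := s.rG; unfold rk at this; omega)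
  apply s.not_both (s.hG.mem (e := c) ?_) hc
  rw [← e9, e8]
  exact mem_sp hcX

section count

variable (ht : Tight K v) (h5 : rk K v univ = 5) (hr : rk K v H = 4) (h0 : 0 < alpha K v H)

include ht h5 hr h0

/-- counting with one plane -/
theorem L1 (s : TFsit v H G G' m) {a b c d : E} (hab : a ≠ b) (hcd : c ≠ d) (ha : a ∈ G)
    (hb : b ∈ G) (hc : c ∈ G') (hd : d ∈ G') (h : tr v m a b = tr v m c d) {T : Finset E}
    (hT : T ⊆ cl K v ({a, b} ∪ {c, d}) ∩ G') :
    alpha K v H + (T.card - 1 : ℕ) + 1 ≤ (G'.card : ℤ) := by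
  have hp := s.cl_props hab hcd ha hb hc hd h
  have h1 := tight_five_count s.hv ht h5 s.hH hr h0 s.hG s.hG' s.rG s.rG' s.un s.dis ha
    (PP := {cl K v ({a, b} ∪ {c, d})}) (by
      intro P hP
      rw [mem_singleton] at hP
      subst hP
      exact hp)
  rw [sum_singleton] at h1
  have h2 := card_le_card hT
  have h3 : ((T.card - 1 : ℕ) : ℤ)
      ≤ (((cl K v ({a, b} ∪ {c, d}) ∩ G').card - 1 : ℕ) : ℤ) := by
    exact_mod_cast Nat.sub_le_sub_right h2 1
  have h4 : (((cl K v ({a, b} ∪ {c, d}) ∩ G').card - 1 : ℕ) : ℤ)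
      = ((∑ P ∈ ({cl K v ({a, b} ∪ {c, d})} : Finset (Finset E)), ((P ∩ G').card - 1) : ℕ) : ℤ) := by
    rw [sum_singleton]
  push_cast at *
  linarith

theorem L1' (s : TFsit v H G G' m) {a b c d : E} (hab : a ≠ b) (hcd : c ≠ d) (ha : a ∈ G)
    (hb : b ∈ G) (hc : c ∈ G') (hd : d ∈ G') (h : tr v m a b = tr v m c d) :
    alpha K v H + 2 ≤ (G'.card : ℤ) := by
  have h1 := s.L1 ht h5 hr h0 hab hcd ha hb hc hd h (T := {c, d}) (by
    intro x hx
    rcases mem_insert.1 hx with rfl | hx
    · exact mem_inter.2 ⟨subset_cl (by simp), hc⟩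
    · rw [mem_singleton] at hx; subst hx
      exact mem_inter.2 ⟨subset_cl (by simp), hd⟩)
  rw [card_pair hcd] at h1
  norm_num at h1
  linarith

/-- counting with two planes -/
theorem L3 (s : TFsit v H G G' m) {a b c d b' c' d' : E} (hab : a ≠ b) (hcd : c ≠ d)
    (ha : a ∈ G) (hb : b ∈ G) (hc : c ∈ G') (hd : d ∈ G') (h : tr v m a b = tr v m c d)
    (hab' : a ≠ b') (hcd' : c' ≠ d') (hb' : b' ∈ G) (hc' : c' ∈ G') (hd' : d' ∈ G')
    (h' : tr v m a b' = tr v m c' d')
    (hne : cl K v ({a, b} ∪ {c, d}) ≠ cl K v ({a, b'} ∪ {c', d'})) :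
    alpha K v H + 3 ≤ (G'.card : ℤ) := by
  have hp := s.cl_props hab hcd ha hb hc hd h
  have hp' := s.cl_props hab' hcd' ha hb' hc' hd' h'
  have h1 := tight_five_count s.hv ht h5 s.hH hr h0 s.hG s.hG' s.rG s.rG' s.un s.dis ha
    (PP := {cl K v ({a, b} ∪ {c, d}), cl K v ({a, b'} ∪ {c', d'})}) (by
      intro P hP
      rw [mem_insert, mem_singleton] at hP
      rcases hP with rfl | rfl
      · exact hp
      · exact hp')
  have h2 : 2 ≤ (cl K v ({a, b} ∪ {c, d}) ∩ G').card := by
    rw [← card_pair hcd]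
    apply card_le_card
    intro x hx
    rcases mem_insert.1 hx with rfl | hx
    · exact mem_inter.2 ⟨subset_cl (by simp), hc⟩
    · rw [mem_singleton] at hx; subst hx
      exact mem_inter.2 ⟨subset_cl (by simp), hd⟩
  have h3 : 2 ≤ (cl K v ({a, b'} ∪ {c', d'}) ∩ G').card := by
    rw [← card_pair hcd']
    apply card_le_card
    intro x hx
    rcases mem_insert.1 hx with rfl | hx
    · exact mem_inter.2 ⟨subset_cl (by simp), hc'⟩
    · rw [mem_singleton] at hx; subst hx
      exact mem_inter.2 ⟨subset_cl (by simp), hd'⟩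
  have h4 : (2 : ℤ) ≤ ∑ P ∈ ({cl K v ({a, b} ∪ {c, d}), cl K v ({a, b'} ∪ {c', d'})} :
      Finset (Finset E)), (((P ∩ G').card - 1 : ℕ) : ℤ) := by
    rw [sum_pair hne]
    have e1 : (1 : ℤ) ≤ (((cl K v ({a, b} ∪ {c, d}) ∩ G').card - 1 : ℕ) : ℤ) := by
      exact_mod_cast (by omega : 1 ≤ (cl K v ({a, b} ∪ {c, d}) ∩ G').card - 1)
    have e2 : (1 : ℤ) ≤ (((cl K v ({a, b'} ∪ {c', d'}) ∩ G').card - 1 : ℕ) : ℤ) := by
      exact_mod_cast (by omega : 1 ≤ (cl K v ({a, b'} ∪ {c', d'}) ∩ G').card - 1)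
    linarith
  push_cast at h1
  linarith

end count

open Classical in
/-- the directions of a plane -/
noncomputable def dirs (v : E → V) (m : Submodule K V) (G : Finset E) :
    Finset (Submodule K V) := G.offDiag.image (fun p => tr v m p.1 p.2)

theorem mem_dirs {d : Submodule K V} : d ∈ dirs v m G ↔
    ∃ a b, a ∈ G ∧ b ∈ G ∧ a ≠ b ∧ tr v m a b = d := by
  classical
  unfold dirs
  rw [mem_image]
  constructor
  · rintro ⟨⟨a, b⟩, h, rfl⟩
    rw [mem_offDiag] at h
    exact ⟨a, b, h.1, h.2.1, h.2.2, rfl⟩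
  · rintro ⟨a, b, h1, h2, h3, rfl⟩
    exact ⟨(a, b), mem_offDiag.2 ⟨h1, h2, h3⟩, rfl⟩

theorem dir_pt (s : TFsit v H G G' m) {d : Submodule K V} (hd : d ∈ dirs v m G) :
    d ≤ m ∧ Module.finrank K d = 1 := by
  obtain ⟨a, b, ha, hb, hab, rfl⟩ := mem_dirs.1 hd
  exact ⟨inf_le_right, s.fin1 hab ha hb⟩

/-- exchange in a triangle -/
theorem off (s : TFsit v H G G' m) {a b c : E} (hab : a ≠ b) (h : v c ∉ sp K v {a, b}) :
    v b ∉ sp K v {c, a} := by
  intro h1
  have h2 : v b ∉ sp K v ({a} : Finset E) := by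
    rw [sp_singleton]
    exact fun h' => hab (s.hv.2 b a h').symm
  have h3 := mem_sp_insert_exchange (X := {a}) (e := c) (f := b) h1 h2
  apply h
  rw [pair_comm]
  exact h3

theorem exists_tri (s : TFsit v H G G' m) : ∃ a b c, a ∈ G ∧ b ∈ G ∧ c ∈ G ∧ a ≠ b ∧
    v c ∉ sp K v {a, b} := by
  obtain ⟨B, -, hBG, hB, hc⟩ := exists_ind_card (K := K) (v := v) (I := ∅) (X := G) (n := 3)
    (by simp [Ind]) (empty_subset _) (by simp) (by rw [s.rG])
  obtain ⟨a, b, c, hab, hac, hbc, rfl⟩ := card_eq_three.1 hc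
  refine ⟨a, b, c, hBG (by simp), hBG (by simp), hBG (by simp), hab, fun h => ?_⟩
  have h1 := hB.not_mem_sp_erase (e := c) (by simp)
  apply h1
  have h2 : ({a, b, c} : Finset E).erase c = {a, b} := by
    ext x
    simp only [mem_erase, mem_insert, mem_singleton]
    constructor
    · rintro ⟨h3, h4 | h4 | h4⟩
      · exact Or.inl h4
      · exact Or.inr h4
      · exact absurd h4 h3
    · rintro (h4 | h4)
      · exact ⟨by rw [h4]; exact hac, Or.inl h4⟩
      · exact ⟨by rw [h4]; exact hbc, Or.inr (Or.inl h4)⟩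
  rw [h2]
  exact h

theorem three_le (s : TFsit v H G G' m) : 3 ≤ (dirs v m G).card := by
  classical
  obtain ⟨a, b, c, ha, hb, hc, hab, h⟩ := s.exists_tri
  have hac : a ≠ c := by rintro rfl; exact h (mem_sp (by simp))
  have hbc : b ≠ c := by rintro rfl; exact h (mem_sp (by simp))
  have e1 : tr v m a b ≠ tr v m a c := s.tri ha hb hab h
  have e2 : tr v m a b ≠ tr v m b c := by
    rw [tr_comm a b]
    exact s.tri hb ha hab.symm (by rw [pair_comm]; exact h)
  have e3 : tr v m a c ≠ tr v m b c := by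
    rw [tr_comm a c, tr_comm b c]
    exact s.tri hc ha hac.symm (s.off hab h)
  have h3 : ({tr v m a b, tr v m a c, tr v m b c} : Finset (Submodule K V)).card = 3 := by
    rw [card_eq_three]
    exact ⟨_, _, _, e1, e2, e3, rfl⟩
  rw [← h3]
  apply card_le_card
  intro d hd
  simp only [mem_insert, mem_singleton] at hd
  rcases hd with rfl | rfl | rfl
  · exact mem_dirs.2 ⟨a, b, ha, hb, hab, rfl⟩
  · exact mem_dirs.2 ⟨a, c, ha, hc, hac, rfl⟩
  · exact mem_dirs.2 ⟨b, c, hb, hc, hbc, rfl⟩

/-- the star of `e` is injective -/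
def StarInj (v : E → V) (m : Submodule K V) (G : Finset E) (e : E) : Prop :=
  ∀ x y, x ∈ G → y ∈ G → x ≠ e → y ≠ e → tr v m e x = tr v m e y → x = y

open Classical in
theorem card_star {e : E} (he : e ∈ G) (h : StarInj v m G e) (hc : G.card = 4) :
    ((G.erase e).image (fun x => tr v m e x)).card = 3 := by
  rw [card_image_of_injOn, card_erase_of_mem he, hc]
  intro x hx y hy hxy
  simp only [coe_erase, Set.mem_diff, mem_coe, Set.mem_singleton_iff] at hx hy
  exact h x y hx.1 hy.1 hx.2 hy.2 hxy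

open Classical in
theorem star_sub {e : E} (he : e ∈ G) :
    (G.erase e).image (fun x => tr v m e x) ⊆ dirs v m G := by
  intro d hd
  rw [mem_image] at hd
  obtain ⟨x, hx, rfl⟩ := hd
  rw [mem_erase] at hx
  exact mem_dirs.2 ⟨e, x, he, hx.2, hx.1.symm, rfl⟩

/-- four elements -/
theorem dich (s : TFsit v H G G' m) (hc : G.card = 4) :
    (∀ b ∈ G, StarInj v m G b) ∨ (4 ≤ (dirs v m G).card ∧ ∃ e ∈ G, StarInj v m G e) := by
  classical
  by_cases hall : ∀ b ∈ G, StarInj v m G b
  · exact Or.inl hall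
  right
  unfold StarInj at hall
  push Not at hall
  obtain ⟨b, hb, x, y, hx, hy, hxb, hyb, htr, hxy⟩ := hall
  have hsp : sp K v {b, x} = sp K v {b, y} := s.inj hxb.symm hyb.symm hb hx htr
  have h3 : ({b, x, y} : Finset E).card = 3 := by
    rw [card_eq_three]; exact ⟨b, x, y, hxb.symm, hyb.symm, hxy, rfl⟩
  have hsub : ({b, x, y} : Finset E) ⊆ G := by
    intro z hz
    simp only [mem_insert, mem_singleton] at hz
    rcases hz with rfl | rfl | rfl
    · exact hb
    · exact hx
    · exact hy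
  obtain ⟨e, heG, he3⟩ : ∃ e ∈ G, e ∉ ({b, x, y} : Finset E) := by
    by_contra hcon
    push Not at hcon
    have := card_le_card (s := G) (t := {b, x, y}) hcon
    omega
  have hG4 : G = insert e {b, x, y} := by
    symm
    apply eq_of_subset_of_card_le
    · intro z hz
      rcases mem_insert.1 hz with rfl | hz
      · exact heG
      · exact hsub hz
    · rw [card_insert_of_notMem he3, h3, hc]
  have hy' : v y ∈ sp K v {b, x} := by rw [hsp]; exact mem_sp (by simp)
  have he : v e ∉ sp K v {b, x} := by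
    intro h0
    have h1 : sp K v G ≤ sp K v {b, x} := by
      rw [sp_le_iff, hG4]
      intro z hz
      simp only [mem_insert, mem_singleton] at hz
      rcases hz with rfl | rfl | rfl | rfl
      · exact h0
      · exact mem_sp (by simp)
      · exact mem_sp (by simp)
      · exact hy'
    have h2 := rk_le_of_sp_le h1
    rw [s.rG, s.hv.rk_pair hxb.symm] at h2
    omega
  -- lines of two elements of the triple
  have hline : ∀ p q, p ∈ ({b, x, y} : Finset E) → q ∈ ({b, x, y} : Finset E) → p ≠ q →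
      v e ∉ sp K v {p, q} := by
    intro p q hp hq hpq h0
    apply he
    refine (sp_le_iff.2 ?_) h0
    have hall : ∀ z ∈ ({b, x, y} : Finset E), v z ∈ sp K v {b, x} := by
      intro z hz
      simp only [mem_insert, mem_singleton] at hz
      rcases hz with rfl | rfl | rfl
      · exact mem_sp (by simp)
      · exact mem_sp (by simp)
      · exact hy'
    intro z hz
    rcases mem_insert.1 hz with rfl | hz
    · exact hall _ hp
    · rw [mem_singleton] at hz; subst hz; exact hall _ hq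
  have hstar : StarInj v m G e := by
    intro p q hp hq hpe hqe hpq
    by_contra hne
    have hp' : p ∈ ({b, x, y} : Finset E) := by
      rw [hG4] at hp
      exact (mem_insert.1 hp).resolve_left hpe
    have hq' : q ∈ ({b, x, y} : Finset E) := by
      rw [hG4] at hq
      exact (mem_insert.1 hq).resolve_left hqe
    exact s.tri heG hp hpe.symm (s.off hne (hline p q hp' hq' hne)) hpq
  refine ⟨?_, e, heG, hstar⟩
  have hst := card_star heG hstar hc
  have hnot : tr v m b x ∉ (G.erase e).image (fun z => tr v m e z) := by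
    intro h0
    rw [mem_image] at h0
    obtain ⟨z, hz, hze⟩ := h0
    rw [mem_erase] at hz
    have hz' : z ∈ ({b, x, y} : Finset E) := by
      have := hz.2
      rw [hG4] at this
      exact (mem_insert.1 this).resolve_left hz.1
    simp only [mem_insert, mem_singleton] at hz'
    rcases hz' with rfl | rfl | rfl
    · refine s.tri hb hx hxb.symm he ?_
      rw [← hze, tr_comm]
    · refine s.tri hx hb hxb ?_ ?_ (c := e)
      · rw [pair_comm]; exact he
      · rw [tr_comm, ← hze, tr_comm]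
    · refine s.tri hy hb hyb ?_ ?_ (c := e)
      · rw [pair_comm, ← hsp]; exact he
      · rw [tr_comm, ← htr, ← hze, tr_comm]
  have h4 : (insert (tr v m b x) ((G.erase e).image (fun z => tr v m e z))).card = 4 := by
    rw [card_insert_of_notMem hnot, hst]
  rw [← h4]
  apply card_le_card
  intro d hd
  rcases mem_insert.1 hd with rfl | hd
  · exact mem_dirs.2 ⟨b, x, hb, hx, hxb.symm, rfl⟩
  · exact star_sub heG hd

section count

variable (ht : Tight K v) (h5 : rk K v univ = 5) (hr : rk K v H = 4) (h0 : 0 < alpha K v H)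

include ht h5 hr h0

/-- two different common directions at one element -/
theorem noTwo (s : TFsit v H G G' m) {y a a' : E} (hya : y ≠ a) (hya' : y ≠ a') (hy : y ∈ G)
    (ha : a ∈ G) (ha' : a' ∈ G) (hne : tr v m y a ≠ tr v m y a')
    (h1 : tr v m y a ∈ dirs v m G') (h2 : tr v m y a' ∈ dirs v m G') :
    alpha K v H + 3 ≤ (G'.card : ℤ) := by
  obtain ⟨c, d, hc, hd, hcd, e1⟩ := mem_dirs.1 h1
  obtain ⟨c', d', hc', hd', hcd', e2⟩ := mem_dirs.1 h2
  refine s.L3 ht h5 hr h0 hya hcd hy ha hc hd e1.symm hya' hcd' ha' hc' hd' e2.symm ?_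
  exact s.plane_ne hya hya' hy ha ha' hne hc (by simp)
    (s.cl_props hya hcd hy ha hc hd e1.symm).2.1 (by simp) (by simp) (by simp) (by simp)

/-- case (h) -/
theorem four (s : TFsit v H G G' m) (hK : Fintype.card K = 4) (h2 : 2 ≤ alpha K v H)
    (hG : G.card ≤ 4) (hG' : G'.card ≤ 4) : False := by
  classical
  have hun : (dirs v m G ∪ dirs v m G').card ≤ 5 := by
    refine pts_card hK m s.fm.le _ fun W hW => ?_
    rcases mem_union.1 hW with hW | hW
    · exact s.dir_pt hW
    · exact s.symm.dir_pt hW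
  have i1 := s.three_le
  have i2 := s.symm.three_le
  have hcu := card_union_add_card_inter (dirs v m G) (dirs v m G')
  obtain ⟨d, hd⟩ : (dirs v m G ∩ dirs v m G').Nonempty := by
    rw [← card_pos]; omega
  obtain ⟨hd1, hd2⟩ := mem_inter.1 hd
  obtain ⟨a, b, ha, hb, hab, e1⟩ := mem_dirs.1 hd1
  obtain ⟨c, c', hc, hc', hcc, e2⟩ := mem_dirs.1 hd2
  have j1 := s.L1' ht h5 hr h0 hab hcc ha hb hc hc' (e1.trans e2.symm)
  have j2 := s.symm.L1' ht h5 hr h0 hcc hab hc hc' ha hb (e2.trans e1.symm)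
  have k1 : G'.card = 4 := by
    have : (4 : ℤ) ≤ G'.card := by linarith
    have : 4 ≤ G'.card := by exact_mod_cast this
    omega
  have k2 : G.card = 4 := by
    have : (4 : ℤ) ≤ G.card := by linarith
    have : 4 ≤ G.card := by exact_mod_cast this
    omega
  have k1' : (G'.card : ℤ) = 4 := by rw [k1]; rfl
  -- an element with injective star
  obtain ⟨e, he, hst⟩ : ∃ e ∈ G, StarInj v m G e := by
    rcases s.dich k2 with h | h
    · exact ⟨a, ha, h a ha⟩
    · exact h.2
  have hcs := card_star he hst k2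
  have hss := star_sub (v := v) (m := m) he
  have hle1 : ((G.erase e).image (fun x => tr v m e x) ∩ dirs v m G').card ≤ 1 := by
    by_contra hcon
    push Not at hcon
    obtain ⟨p, hp, q, hq, hpq⟩ := one_lt_card.1 hcon
    rw [mem_inter, mem_image] at hp hq
    obtain ⟨⟨x, hx, rfl⟩, hp2⟩ := hp
    obtain ⟨⟨y, hy, rfl⟩, hq2⟩ := hq
    rw [mem_erase] at hx hy
    have := s.noTwo ht h5 hr h0 hx.1.symm hy.1.symm he hx.2 hy.2 hpq hp2 hq2
    rw [k1'] at this
    linarith
  have hun2 : ((G.erase e).image (fun x => tr v m e x) ∪ dirs v m G').card ≤ 5 :=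
    le_trans (card_le_card (union_subset_union hss (subset_refl _))) hun
  have hcu2 := card_union_add_card_inter ((G.erase e).image (fun x => tr v m e x)) (dirs v m G')
  have hd3 : (dirs v m G').card = 3 := by omega
  obtain ⟨δ, hδ⟩ : ((G.erase e).image (fun x => tr v m e x) ∩ dirs v m G').Nonempty := by
    rw [← card_pos]; omega
  rw [mem_inter, mem_image] at hδ
  obtain ⟨⟨z, hz, rfl⟩, hδ2⟩ := hδ
  rw [mem_erase] at hz
  have hall : ∀ w ∈ G', StarInj v m G' w := by
    rcases s.symm.dich k1 with h | h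
    · exact h
    · have := h.1
      omega
  have hhit : ∀ w ∈ G', ∃ w' ∈ G', w ≠ w' ∧ tr v m w w' = tr v m e z := by
    intro w hw
    have h3 : (G'.erase w).image (fun x => tr v m w x) = dirs v m G' := by
      apply eq_of_subset_of_card_le (star_sub hw)
      rw [card_star hw (hall w hw) k1, hd3]
    rw [← h3, mem_image] at hδ2
    obtain ⟨w', hw', e3⟩ := hδ2
    rw [mem_erase] at hw'
    exact ⟨w', hw'.2, hw'.1.symm, e3⟩
  obtain ⟨b1, hb1, hb01, t1⟩ := hhit c hc
  obtain ⟨b2, hb2, hb2'⟩ : ∃ b2 ∈ G', b2 ∉ ({c, b1} : Finset E) := by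
    by_contra hcon
    push Not at hcon
    have := card_le_card (s := G') (t := {c, b1}) hcon
    rw [card_pair hb01] at this
    omega
  simp only [mem_insert, mem_singleton, not_or] at hb2'
  obtain ⟨b3, hb3, hb23, t2⟩ := hhit b2 hb2
  have n1 : b3 ≠ c := by
    rintro rfl
    have := hall b3 hb3 b2 b1 hb2 hb1 hb23 hb01.symm (by rw [tr_comm, t2, t1])
    exact hb2'.2 this
  have n2 : b3 ≠ b1 := by
    rintro rfl
    have := hall b3 hb3 b2 c hb2 hc hb23 hb01 ((tr_comm b3 b2).trans (t2.trans (t1.symm.trans (tr_comm c b3))))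
    exact hb2'.1 this
  by_cases hpl : cl K v ({e, z} ∪ {c, b1}) = cl K v ({e, z} ∪ {b2, b3})
  · have hT := s.L1 ht h5 hr h0 hz.1.symm hb01 he hz.2 hc hb1 t1.symm
      (T := {c, b1, b2, b3}) (by
        intro x hx
        simp only [mem_insert, mem_singleton] at hx
        rcases hx with rfl | rfl | rfl | rfl
        · exact mem_inter.2 ⟨subset_cl (by simp), hc⟩
        · exact mem_inter.2 ⟨subset_cl (by simp), hb1⟩
        · exact mem_inter.2 ⟨by rw [hpl]; exact subset_cl (by simp), hb2⟩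
        · exact mem_inter.2 ⟨by rw [hpl]; exact subset_cl (by simp), hb3⟩)
    have h4 : ({c, b1, b2, b3} : Finset E).card = 4 := by
      rw [card_insert_of_notMem, card_insert_of_notMem, card_pair hb23]
      · simp only [mem_insert, mem_singleton, not_or]
        exact ⟨fun h => hb2'.2 h.symm, fun h => n2 h.symm⟩
      · simp only [mem_insert, mem_singleton, not_or]
        exact ⟨hb01, fun h => hb2'.1 h.symm, fun h => n1 h.symm⟩
    rw [h4, k1'] at hT
    norm_num at hT
    linarith
  · have := s.L3 ht h5 hr h0 hz.1.symm hb01 he hz.2 hc hb1 t1.symm hz.1.symm hb23 hz.2 hb2 hb3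
      t2.symm hpl
    rw [k1'] at this
    linarith

open Classical in
/-- case (i) -/
theorem three (s : TFsit v H G G' m) (hG : G.card = 3) (hG' : G'.card = 3) :
    (dirs v m G ∩ dirs v m G').card ≤ 1 := by
  by_contra hcon
  push Not at hcon
  obtain ⟨p, hp, q, hq, hpq⟩ := one_lt_card.1 hcon
  rw [mem_inter] at hp hq
  obtain ⟨a, b, ha, hb, hab, rfl⟩ := mem_dirs.1 hp.1
  obtain ⟨c, d, hc, hd, hcd, rfl⟩ := mem_dirs.1 hq.1
  have key : ∀ y x x', y ≠ x → y ≠ x' → y ∈ G → x ∈ G → x' ∈ G →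
      tr v m y x ≠ tr v m y x' → tr v m y x ∈ dirs v m G' → tr v m y x' ∈ dirs v m G' →
      False := by
    intro y x x' g1 g2 g3 g4 g5 g6 g7 g8
    have := s.noTwo ht h5 hr h0 g1 g2 g3 g4 g5 g6 g7 g8
    rw [hG'] at this
    norm_num at this
    linarith
  by_cases h1 : a = c
  · subst h1
    exact key a b d hab hcd ha hb hd hpq hp.2 hq.2
  by_cases h2 : a = d
  · subst h2
    rw [tr_comm c a] at hq hpq
    exact key a b c hab hcd.symm ha hb hc hpq hp.2 hq.2
  by_cases h3 : b = c
  · subst h3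
    rw [tr_comm a b] at hp hpq
    exact key b a d hab.symm hcd hb ha hd hpq hp.2 hq.2
  by_cases h4 : b = d
  · subst h4
    rw [tr_comm a b] at hp hpq
    rw [tr_comm c b] at hq hpq
    exact key b a c hab.symm hcd.symm hb ha hc hpq hp.2 hq.2
  have h5' : ({a, b, c, d} : Finset E).card = 4 := by
    rw [card_insert_of_notMem, card_insert_of_notMem, card_pair hcd]
    · simp only [mem_insert, mem_singleton, not_or]
      exact ⟨h3, h4⟩
    · simp only [mem_insert, mem_singleton, not_or]
      exact ⟨hab, h1, h2⟩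
  have h6 : ({a, b, c, d} : Finset E) ⊆ G := by
    intro x hx
    simp only [mem_insert, mem_singleton] at hx
    rcases hx with rfl | rfl | rfl | rfl
    · exact ha
    · exact hb
    · exact hc
    · exact hd
  have := card_le_card h6
  omega

end count

end TFsit


/-- the common line of three hyperplanes -/
theorem tf_line (hv : Simple K v) (h5 : rk K v univ = 5) {A B C : Finset E}
    (hA : IsFl K v A) (hB : IsFl K v B) (rA : rk K v A = 4)
    (rB : rk K v B = 4) (rAB : rk K v (A ∩ B) = 3)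
    (rAC : rk K v (A ∩ C) = 3) (hC : IsFl K v C) (h0 : A ∩ B ∩ C = ∅) :
    sp K v (A ∩ B) = sp K v A ⊓ sp K v B ∧
      (A ∩ B ∩ C = ∅ → Module.finrank K (sp K v (A ∩ B) ⊓ sp K v (A ∩ C) : Submodule K V) = 2) := by
  constructor
  · have h1 : sp K v (A ∩ B) ≤ sp K v A ⊓ sp K v B :=
      le_inf (sp_mono inter_subset_left) (sp_mono inter_subset_right)
    refine eq_of_le_of_finrank_le h1 ?_
    have h2 := finrank_sup_add_finrank_inf_eq (sp K v A) (sp K v B)
    have h3 : ¬ Module.finrank K (sp K v A ⊔ sp K v B : Submodule K V) ≤ 4 := by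
      intro h4
      have e1 : sp K v A = sp K v A ⊔ sp K v B :=
        eq_of_le_of_finrank_le le_sup_left (by unfold rk at rA; omega)
      have e2 : B ⊆ A := by
        rw [← hA.sp_le_iff_subset, e1]
        exact le_sup_right
      have e3 : A ∩ B = B := inter_eq_right.2 e2
      rw [e3] at rAB
      omega
    unfold rk at rA rB rAB
    omega
  · intro _
    have h2 := finrank_sup_add_finrank_inf_eq (sp K v (A ∩ B)) (sp K v (A ∩ C))
    have h3 : Module.finrank K (sp K v (A ∩ B) ⊔ sp K v (A ∩ C) : Submodule K V) ≤ 4 := by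
      have : sp K v (A ∩ B) ⊔ sp K v (A ∩ C) ≤ sp K v A :=
        sup_le (sp_mono inter_subset_left) (sp_mono inter_subset_left)
      have := finrank_mono this
      unfold rk at rA
      omega
    have h4 : ¬ 3 ≤ Module.finrank K (sp K v (A ∩ B) ⊓ sp K v (A ∩ C) : Submodule K V) := by
      intro h5
      have e1 : sp K v (A ∩ B) ⊓ sp K v (A ∩ C) = sp K v (A ∩ B) :=
        eq_of_le_of_finrank_le inf_le_left (by unfold rk at rAB; omega)
      have e2 : A ∩ B ⊆ A ∩ C := by
        rw [← (hA.inter hC).sp_le_iff_subset, ← e1]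
        exact inf_le_right
      have e3 : A ∩ B = ∅ := by
        rw [← subset_empty, ← h0]
        intro x hx
        exact mem_inter.2 ⟨hx, (mem_inter.1 (e2 hx)).2⟩
      rw [e3, rk_empty] at rAB
      omega
    unfold rk at rAB rAC
    omega

/-- the situation in a hyperplane without private elements -/
theorem tf_sit (hv : Simple K v) (h5 : rk K v univ = 5) {A B C : Finset E}
    (hA : IsFl K v A) (hB : IsFl K v B) (hC : IsFl K v C) (rA : rk K v A = 4)
    (rB : rk K v B = 4) (rC : rk K v C = 4) (rAB : rk K v (A ∩ B) = 3)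
    (rAC : rk K v (A ∩ C) = 3) (h0 : A ∩ B ∩ C = ∅) (hp : A \ (B ∪ C) = ∅) :
    TFsit v A (A ∩ B) (A ∩ C) (sp K v A ⊓ sp K v B ⊓ sp K v C) := by
  have h1 := tf_line hv h5 hA hB rA rB rAB rAC hC h0
  have h0' : A ∩ C ∩ B = ∅ := by
    rw [← h0]; ext x; simp only [mem_inter]; tauto
  have h2 := tf_line hv h5 hA hC rA rC rAC rAB hB h0'
  have hm : sp K v A ⊓ sp K v B ⊓ sp K v C = sp K v (A ∩ B) ⊓ sp K v (A ∩ C) := by
    rw [h1.1, h2.1]
    apply le_antisymm
    · exact le_inf inf_le_left (le_inf (inf_le_left.trans inf_le_left) inf_le_right)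
    · exact le_inf inf_le_left (inf_le_right.trans inf_le_right)
  refine ⟨hv, hA, hA.inter hB, hA.inter hC, rAB, rAC, ?_, ?_, ?_, ?_, ?_⟩
  · ext x
    have h3 : x ∉ A \ (B ∪ C) := by rw [hp]; exact notMem_empty _
    simp only [mem_sdiff, mem_union, not_and, not_not] at h3
    simp only [mem_union, mem_inter]
    constructor
    · rintro (h | h) <;> exact h.1
    · intro h
      rcases h3 h with h4 | h4
      · exact Or.inl ⟨h, h4⟩
      · exact Or.inr ⟨h, h4⟩
  · rw [← h0]; ext x; simp only [mem_inter]; tauto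
  · rw [hm]; exact inf_le_left
  · rw [hm]; exact inf_le_right
  · rw [hm]; exact h1.2 h0

theorem tf_card {A B C : Finset E} (h0 : A ∩ B ∩ C = ∅) :
    (A ∩ B).card + (A \ (B ∪ C)).card + (B \ (A ∪ C)).card + (univ \ (A ∪ B ∪ C)).card
      ≤ (univ \ C).card := by
  have h0' : ∀ x, x ∈ A → x ∈ B → x ∉ C := by
    intro x h1 h2 h3
    have : x ∈ A ∩ B ∩ C := mem_inter.2 ⟨mem_inter.2 ⟨h1, h2⟩, h3⟩
    rw [h0] at this
    exact absurd this (notMem_empty _)
  rw [← card_union_of_disjoint, ← card_union_of_disjoint, ← card_union_of_disjoint]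
  · apply card_le_card
    intro x hx
    have := h0' x
    simp only [mem_union, mem_inter, mem_sdiff, mem_univ, true_and] at hx ⊢
    tauto
  · rw [disjoint_left]
    intro x hx
    simp only [mem_union, mem_inter, mem_sdiff, mem_univ, true_and] at hx ⊢
    tauto
  · rw [disjoint_left]
    intro x hx
    simp only [mem_union, mem_inter, mem_sdiff] at hx ⊢
    tauto
  · rw [disjoint_left]
    intro x hx
    simp only [mem_union, mem_inter, mem_sdiff] at hx ⊢
    tauto

theorem tf_main (hK : Fintype.card K = 4) (hv : Simple K v) (ht : Tight K v)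
    (h5 : rk K v univ = 5) {A B C : Finset E}
    (hA : IsFl K v A) (hB : IsFl K v B) (hC : IsFl K v C) (rA : rk K v A = 4)
    (rB : rk K v B = 4) (rC : rk K v C = 4) (rAB : rk K v (A ∩ B) = 3)
    (rAC : rk K v (A ∩ C) = 3) (rBC : rk K v (B ∩ C) = 3) (h0 : A ∩ B ∩ C = ∅)
    (cA : (univ \ A).card ≤ 4) (cB : (univ \ B).card ≤ 4) (cC : (univ \ C).card ≤ 4)
    (aA : (2 : ℤ) ≤ alpha K v A + (univ \ (A ∪ B ∪ C)).card)
    (aB : (2 : ℤ) ≤ alpha K v B + (univ \ (A ∪ B ∪ C)).card)
    (aC : (2 : ℤ) ≤ alpha K v C + (univ \ (A ∪ B ∪ C)).card)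
    (pA : 0 < alpha K v A) (pB : 0 < alpha K v B) (pC : 0 < alpha K v C) : False := by
  classical
  have hBAC : B ∩ A ∩ C = ∅ := by rw [← h0]; ext x; simp only [mem_inter]; tauto
  have hCAB : C ∩ A ∩ B = ∅ := by rw [← h0]; ext x; simp only [mem_inter]; tauto
  have hACB : A ∩ C ∩ B = ∅ := by rw [← h0]; ext x; simp only [mem_inter]; tauto
  have hBCA : B ∩ C ∩ A = ∅ := by rw [← h0]; ext x; simp only [mem_inter]; tauto
  have rBA : rk K v (B ∩ A) = 3 := by rw [inter_comm]; exact rAB
  have rCA : rk K v (C ∩ A) = 3 := by rw [inter_comm]; exact rAC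
  have rCB : rk K v (C ∩ B) = 3 := by rw [inter_comm]; exact rBC
  have k1 := tf_card h0
  have k2 := tf_card hACB
  have k3 := tf_card hBCA
  have u2 : A ∪ C ∪ B = A ∪ B ∪ C := by ext x; simp only [mem_union]; tauto
  have u3 : B ∪ C ∪ A = A ∪ B ∪ C := by ext x; simp only [mem_union]; tauto
  have u4 : C ∪ B = B ∪ C := union_comm _ _
  have u5 : B ∪ A = A ∪ B := union_comm _ _
  have u6 : C ∪ A = A ∪ C := union_comm _ _
  rw [u2, u4] at k2
  rw [u3, u5, u6] at k3
  have l1 : 3 ≤ (A ∩ B).card := by rw [← rAB]; exact rk_le_card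
  have l2 : 3 ≤ (A ∩ C).card := by rw [← rAC]; exact rk_le_card
  have l3 : 3 ≤ (B ∩ C).card := by rw [← rBC]; exact rk_le_card
  have cBA : (B ∩ A).card = (A ∩ B).card := by rw [inter_comm]
  have cCA : (C ∩ A).card = (A ∩ C).card := by rw [inter_comm]
  have cCB : (C ∩ B).card = (B ∩ C).card := by rw [inter_comm]
  rcases Nat.eq_zero_or_pos (univ \ (A ∪ B ∪ C)).card with hz | hz
  · rw [hz] at aA aB aC
    norm_num at aA aB aC
    -- one of the private parts is empty
    by_cases q1 : A \ (B ∪ C) = ∅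
    · exact (tf_sit hv h5 hA hB hC rA rB rC rAB rAC h0 q1).four ht h5 rA pA hK aA
        (by omega) (by omega)
    · have q1' : 1 ≤ (A \ (B ∪ C)).card := card_pos.2 (nonempty_iff_ne_empty.2 q1)
      have q2 : B \ (A ∪ C) = ∅ := by
        rw [← card_eq_zero]; omega
      exact (tf_sit hv h5 hB hA hC rB rA rC rBA rBC hBAC q2).four ht h5 rB pB hK aB
        (by omega) (by omega)
  · have q1 : A \ (B ∪ C) = ∅ := by rw [← card_eq_zero]; omega
    have q2 : B \ (A ∪ C) = ∅ := by rw [← card_eq_zero]; omega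
    have q3 : C \ (A ∪ B) = ∅ := by rw [← card_eq_zero]; omega
    have m1 : (A ∩ B).card = 3 := by omega
    have m2 : (A ∩ C).card = 3 := by omega
    have m3 : (B ∩ C).card = 3 := by omega
    obtain ⟨m, hm⟩ : ∃ m, m = sp K v A ⊓ sp K v B ⊓ sp K v C := ⟨_, rfl⟩
    have sA := tf_sit hv h5 hA hB hC rA rB rC rAB rAC h0 q1
    have sB := tf_sit hv h5 hB hA hC rB rA rC rBA rBC hBAC q2
    have sC := tf_sit hv h5 hC hA hB rC rA rB rCA rCB hCAB q3
    have eB : sp K v B ⊓ sp K v A ⊓ sp K v C = m := by rw [hm, inf_comm (sp K v B)]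
    have eC : sp K v C ⊓ sp K v A ⊓ sp K v B = m := by
      rw [hm, inf_assoc, inf_comm]
    rw [← hm] at sA
    rw [eB] at sB
    rw [eC] at sC
    have t1 := sA.three ht h5 rA pA m1 m2
    have t2 := sB.three ht h5 rB pB (by omega) m3
    have t3 := sC.three ht h5 rC pC (by omega) (by omega)
    rw [inter_comm B A] at t2
    rw [inter_comm C A, inter_comm C B] at t3
    have w1 := sA.three_le
    have w2 := sA.symm.three_le
    have w3 := sB.symm.three_le
    have hun : (TFsit.dirs v m (A ∩ B) ∪ TFsit.dirs v m (A ∩ C)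
        ∪ TFsit.dirs v m (B ∩ C)).card ≤ 5 := by
      refine pts_card hK m sA.fm.le _ fun W hW => ?_
      rcases mem_union.1 hW with hW | hW
      · rcases mem_union.1 hW with hW | hW
        · exact sA.dir_pt hW
        · exact sA.symm.dir_pt hW
      · exact sB.symm.dir_pt hW
    have v1 := card_union_add_card_inter (TFsit.dirs v m (A ∩ B)) (TFsit.dirs v m (A ∩ C))
    have v2 := card_union_add_card_inter
      (TFsit.dirs v m (A ∩ B) ∪ TFsit.dirs v m (A ∩ C)) (TFsit.dirs v m (B ∩ C))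
    have v3 : ((TFsit.dirs v m (A ∩ B) ∪ TFsit.dirs v m (A ∩ C))
        ∩ TFsit.dirs v m (B ∩ C)).card ≤ 2 := by
      rw [union_inter_distrib_right]
      refine le_trans (card_union_le _ _) ?_
      omega
    omega

theorem tight_five (hK : Fintype.card K = 4) (hv : Simple K v) (ht : Tight K v) :
    rk K v univ ≠ 5 := by
  intro h5
  obtain ⟨H, -, h1, h2, h3, h4, h6⟩ := tight_five_structure hK hv ht h5
  exact tf_main hK hv ht h5 (h1 0).1 (h1 1).1 (h1 2).1 (h1 0).2.1 (h1 1).2.1 (h1 2).2.1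
    (h2 0 1 (by decide)) (h2 0 2 (by decide)) (h2 1 2 (by decide)) h3 (h1 0).2.2 (h1 1).2.2
    (h1 2).2.2 (h4 0) (h4 1) (h4 2) (h6 0) (h6 1) (h6 2)

end Ca3
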