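import Pool.Agent.Lib.MP_ca3eb1_co.AbConeA
import Pool.Agent.Lib.MP_ca3eb1_co.AbConeB
import Pool.Agent.Lib.MP_ca3eb1_co.AbT7
import Pool.Agent.Lib.MP_ca3eb1_co.LemmaU
import Pool.Agent.Lib.MP_ca3eb1_co.P4
import Pool.Agent.Lib.MP_ca3eb1_co.ThreePlanes
import Pool.Agent.Lib.MP_ca3eb1_co.TightFive

/-! # W8: no tight abstract rank function of rank 5 (short proof with Lemma U) -/

set_option linter.unusedSectionVars false

namespace Ca3.Ab

open Finset

variable {K E : Type*} [Field K] [Fintype K] [DecidableEq E] [Fintype E] {N : RF E}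

theorem cone (hK : Fintype.card K = 4) (hN : Simple N) (hq : RepC K N) (ht : Tight N)
    (h5 : rk N univ = 5) {H : Finset E} (hH : IsFl N H) (hr : rk N H = 4)
    (h0 : 0 < alpha N H) : (univ \ H).card ≤ 4 := by
  have h1 := cone_le_five hK hN hq ht h5 hH hr h0
  have h2 := cone_ne_five hK hN hq ht h5 hH hr h0
  omega

/-- the heavy hyperplane flats of a rank function of rank 5 -/
def TfHv (N : RF E) (H : Finset E) : Prop :=
  IsFl N H ∧ rk N H = 4 ∧ 0 < alpha N H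

theorem tf_transfer (hN : Simple N) (hq : RepC K N) (ht : Tight N) (h5 : rk N univ = 5) (y : E) :
    ∃ (R : Finset E) (k : ℕ) (w : E → (Fin k → K)) (m : ℕ) (B : Fin m → Finset R),
      RepAt K N y w ∧ IsReps K w {y} univ R ∧ Ca3.IsMason K (qc K w {y} R) ∅ univ B ∧
      ∀ H, TfHv N H → y ∈ H → ∃ j, Ca3.cl K (qc K w {y} R) (B j) = tr R H := by
  obtain ⟨k, w, hw⟩ := hq y
  obtain ⟨R, -, hR⟩ := hw.exists_reps (Y := {y}) (T := univ) (R₀ := ∅) (mem_singleton_self y)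
    (empty_subset _) (by simp) (by simp)
  obtain ⟨n, A, hA⟩ := ht.2.1 y
  obtain ⟨m, B, hB, hBH⟩ := hw.transfer_fin hN (mem_singleton_self y) isFl_univ (subset_univ _)
    hR hA
  refine ⟨R, k, w, m, B, hw, hR, hB, ?_⟩
  rintro H ⟨hH, hr, h0⟩ hy
  have hne : H ≠ univ := by rintro rfl; omega
  have hY1 : rk N {y} = 1 := hN.rk_singleton
  exact hBH H hH (singleton_subset_iff.2 hy) (subset_univ _) (by omega)
    (ht.heavy_point hH hne h0 hy hA)

theorem tf_inter (hK : Fintype.card K = 4) (hN : Simple N) (hq : RepC K N) (ht : Tight N)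
    (h5 : rk N univ = 5) {H1 H2 : Finset E} (h1 : TfHv N H1) (h2 : TfHv N H2)
    (hne : H1 ≠ H2) : rk N (H1 ∩ H2) = 3 := by
  have h1' := h1
  have h2' := h2
  obtain ⟨hH1, hr1, ha1⟩ := h1
  obtain ⟨hH2, hr2, ha2⟩ := h2
  have hu1 : H1 ≠ univ := by rintro rfl; omega
  have hG : IsFl N (H1 ∩ H2) := hH1.inter hH2
  have hG1 : H1 ∩ H2 ≠ H1 := by
    intro h
    exact hne (hH1.eq_of_subset_of_rk_le (by rw [← h]; exact inter_subset_right) (by omega))
  obtain ⟨n1, A1, hA1⟩ := ht.2.2 H1 hH1 hu1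
  obtain ⟨X1, hX1, hX1c, -⟩ := T7 hA1 hH1 (heavy_self hA1 hH1 ha1) hG inter_subset_left hG1
  have hc := cone hK hN hq ht h5 hH2 hr2 ha2
  have hX : X1.card ≤ 4 := by
    refine (card_le_card ?_).trans hc
    intro e he
    have h1 := mem_sdiff.1 (hX1 he)
    exact mem_sdiff.2 ⟨mem_univ _, fun h' => h1.2 (mem_inter.2 ⟨h1.1, h'⟩)⟩
  have hg : 1 ≤ rk N (H1 ∩ H2) := by omega
  have hgne : (H1 ∩ H2).Nonempty := by
    rw [nonempty_iff_ne_empty]
    intro h0
    rw [h0, rk_empty] at hg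
    omega
  obtain ⟨y, hy⟩ := hgne
  obtain ⟨R, k, w, m, B, hw, hR, hB, hBH⟩ := tf_transfer hN hq ht h5 y
  have hyY : y ∈ ({y} : Finset E) := mem_singleton_self y
  have hy1 := (mem_inter.1 hy).1
  have hy2 := (mem_inter.1 hy).2
  have hY1 : rk N {y} = 1 := hN.rk_singleton
  have hs1 : {y} ⊆ H1 := singleton_subset_iff.2 hy1
  have hs2 : {y} ⊆ H2 := singleton_subset_iff.2 hy2
  have hsG : {y} ⊆ H1 ∩ H2 := singleton_subset_iff.2 hy
  have hru := hw.rk_qc_univ hyY hR (subset_univ _)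
  have hrt1 := hw.rk_tr hyY hR hH1 hs1 (subset_univ _)
  have hrt2 := hw.rk_tr hyY hR hH2 hs2 (subset_univ _)
  have hrtG := hw.rk_tr hyY hR hG hsG (subset_univ _)
  have hne' : tr R H1 ≠ tr R H2 := fun h =>
    hne (hw.tr_inj hyY hR hH1 hs1 (subset_univ _) hH2 hs2 (subset_univ _) h)
  have hP := P4 hK (qc_simple hR) hB (by omega) (hw.isFl_tr hyY hR hH1 hs1 (subset_univ _))
    (hw.isFl_tr hyY hR hH2 hs2 (subset_univ _)) (by omega) (by omega) (hBH H1 h1' hy1)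
    (hBH H2 h2' hy2) hne'
  have htr : tr R H1 ∩ tr R H2 = tr R (H1 ∩ H2) := by
    ext r
    simp [tr]
  rw [htr] at hP
  omega

theorem tf_triple (hK : Fintype.card K = 4) (hN : Simple N) (hq : RepC K N) (ht : Tight N)
    (h5 : rk N univ = 5) {H1 H2 H3 : Finset E} (h1 : TfHv N H1) (h2 : TfHv N H2)
    (h3 : TfHv N H3) (h12 : H1 ≠ H2) (h13 : H1 ≠ H3) (h23 : H2 ≠ H3) :
    H1 ∩ H2 ∩ H3 = ∅ := by
  by_contra hcon
  obtain ⟨y, hy⟩ := nonempty_iff_ne_empty.2 hcon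
  obtain ⟨R, k, w, m, B, hw, hR, hB, hBH⟩ := tf_transfer hN hq ht h5 y
  have hyY : y ∈ ({y} : Finset E) := mem_singleton_self y
  have hy1 := (mem_inter.1 (mem_inter.1 hy).1).1
  have hy2 := (mem_inter.1 (mem_inter.1 hy).1).2
  have hy3 := (mem_inter.1 hy).2
  have hY1 : rk N {y} = 1 := hN.rk_singleton
  have hs1 : {y} ⊆ H1 := singleton_subset_iff.2 hy1
  have hs2 : {y} ⊆ H2 := singleton_subset_iff.2 hy2
  have hs3 : {y} ⊆ H3 := singleton_subset_iff.2 hy3
  have hru := hw.rk_qc_univ hyY hR (subset_univ _)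
  have hrt1 := hw.rk_tr hyY hR h1.1 hs1 (subset_univ _)
  have hrt2 := hw.rk_tr hyY hR h2.1 hs2 (subset_univ _)
  have hrt3 := hw.rk_tr hyY hR h3.1 hs3 (subset_univ _)
  have hr1 := h1.2.1
  have hr2 := h2.2.1
  have hr3 := h3.2.1
  exact three_planes hK (qc_simple hR) hB (by omega)
    (hw.isFl_tr hyY hR h1.1 hs1 (subset_univ _))
    (hw.isFl_tr hyY hR h2.1 hs2 (subset_univ _)) (hw.isFl_tr hyY hR h3.1 hs3 (subset_univ _))
    (by omega) (by omega) (by omega) (hBH H1 h1 hy1) (hBH H2 h2 hy2) (hBH H3 h3 hy3)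
    (fun h => h12 (hw.tr_inj hyY hR h1.1 hs1 (subset_univ _) h2.1 hs2 (subset_univ _) h))
    (fun h => h13 (hw.tr_inj hyY hR h1.1 hs1 (subset_univ _) h3.1 hs3 (subset_univ _) h))
    (fun h => h23 (hw.tr_inj hyY hR h2.1 hs2 (subset_univ _) h3.1 hs3 (subset_univ _) h))

/-- no fourth heavy hyperplane -/
theorem tf_four (hK : Fintype.card K = 4) (hN : Simple N) (hq : RepC K N) (ht : Tight N)
    (h5 : rk N univ = 5) {H1 H2 H3 : Finset E} (h1 : TfHv N H1) (h2 : TfHv N H2)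
    (h3 : TfHv N H3) (h12 : H1 ≠ H2) (h13 : H1 ≠ H3) (h23 : H2 ≠ H3) {H4 : Finset E}
    (h4 : TfHv N H4) : H4 = H1 ∨ H4 = H2 ∨ H4 = H3 := by
  by_contra hcon
  push Not at hcon
  obtain ⟨h41, h42, h43⟩ := hcon
  have hr13 := tf_inter hK hN hq ht h5 h1 h3 h13
  have hr14 := tf_inter hK hN hq ht h5 h1 h4 (Ne.symm h41)
  have e1 := tf_triple hK hN hq ht h5 h1 h2 h3 h12 h13 h23
  have e2 := tf_triple hK hN hq ht h5 h1 h2 h4 h12 (Ne.symm h41) (Ne.symm h42)
  have e3 := tf_triple hK hN hq ht h5 h1 h3 h4 h13 (Ne.symm h41) (Ne.symm h43)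
  have hc := cone hK hN hq ht h5 h2.1 h2.2.1 h2.2.2
  have c1 : rk N (H1 ∩ H3) ≤ (H1 ∩ H3).card := rk_le_card
  have c2 : rk N (H1 ∩ H4) ≤ (H1 ∩ H4).card := rk_le_card
  have hd : Disjoint (H1 ∩ H3) (H1 ∩ H4) := by
    rw [disjoint_left]
    intro e he he'
    have : e ∈ H1 ∩ H3 ∩ H4 := mem_inter.2 ⟨he, (mem_inter.1 he').2⟩
    rw [e3] at this
    exact absurd this (notMem_empty _)
  have hs : (H1 ∩ H3) ∪ (H1 ∩ H4) ⊆ univ \ H2 := by
    intro e he
    refine mem_sdiff.2 ⟨mem_univ _, fun h => ?_⟩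
    rcases mem_union.1 he with he | he
    · have : e ∈ H1 ∩ H2 ∩ H3 :=
        mem_inter.2 ⟨mem_inter.2 ⟨(mem_inter.1 he).1, h⟩, (mem_inter.1 he).2⟩
      rw [e1] at this
      exact absurd this (notMem_empty _)
    · have : e ∈ H1 ∩ H2 ∩ H4 :=
        mem_inter.2 ⟨mem_inter.2 ⟨(mem_inter.1 he).1, h⟩, (mem_inter.1 he).2⟩
      rw [e2] at this
      exact absurd this (notMem_empty _)
  have h6 := card_le_card hs
  rw [card_union_of_disjoint hd] at h6
  omega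

/-- existence of three heavy hyperplanes -/
theorem tf_exists (hK : Fintype.card K = 4) (hN : Simple N) (hq : RepC K N) (ht : Tight N)
    (h5 : rk N univ = 5) : ∃ H1 H2 H3 : Finset E, TfHv N H1 ∧ TfHv N H2 ∧
      TfHv N H3 ∧ H1 ≠ H2 ∧ H1 ≠ H3 ∧ H2 ≠ H3 := by
  have hex : ∀ x : E, ∃ H, TfHv N H ∧ x ∉ H := by
    intro x
    obtain ⟨H, hH, hr, hx, h0⟩ := ht.exists_heavy x
    exact ⟨H, ⟨hH, by omega, h0⟩, hx⟩
  have hne : ∀ H : Finset E, 1 ≤ rk N H → ∃ x, x ∈ H := by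
    intro H h
    by_contra hcon
    push Not at hcon
    have : H = ∅ := eq_empty_of_forall_notMem hcon
    rw [this, rk_empty] at h
    omega
  obtain ⟨x0, -⟩ := hne univ (by omega)
  obtain ⟨H1, h1, -⟩ := hex x0
  obtain ⟨x, hx⟩ := hne H1 (by rw [h1.2.1]; omega)
  obtain ⟨H2, h2, hx2⟩ := hex x
  have h12 : H1 ≠ H2 := by
    rintro rfl
    exact hx2 hx
  obtain ⟨y, hy⟩ := hne (H1 ∩ H2) (by rw [tf_inter hK hN hq ht h5 h1 h2 h12]; omega)
  obtain ⟨H3, h3, hy3⟩ := hex y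
  refine ⟨H1, H2, H3, h1, h2, h3, h12, ?_, ?_⟩
  · rintro rfl
    exact hy3 (mem_inter.1 hy).1
  · rintro rfl
    exact hy3 (mem_inter.1 hy).2

open Classical in
theorem tf_sum_flat {H : Finset E} (hH : IsFl N H) (hne : H ≠ univ) :
    ∑ G ∈ univ.filter (fun G => IsFl N G ∧ G ≠ univ),
      (if G ⊆ H then alpha N G else 0) = (H.card : ℤ) - rk N H := by
  rw [← alpha_sum_flat hH, ← sum_filter, filter_filter]
  refine sum_congr ?_ fun _ _ => rfl
  ext G
  simp only [mem_filter, mem_univ, true_and]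
  constructor
  · rintro ⟨⟨a, b⟩, c⟩
    exact ⟨a, c⟩
  · rintro ⟨a, b⟩
    refine ⟨⟨a, ?_⟩, b⟩
    rintro rfl
    exact hne (univ_subset_iff.1 b)

/-- the inequality for `α(E)` -/
theorem tf_alpha_univ (ht : Tight N)
    (h5 : rk N univ = 5) {H1 H2 H3 : Finset E} (h1 : TfHv N H1) (h2 : TfHv N H2)
    (h3 : TfHv N H3) (r12 : rk N (H1 ∩ H2) = 3) (r13 : rk N (H1 ∩ H3) = 3)
    (r23 : rk N (H2 ∩ H3) = 3) (h123 : H1 ∩ H2 ∩ H3 = ∅) :
    alpha N univ + 2 ≤ ((univ \ (H1 ∪ H2 ∪ H3)).card : ℤ) := by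
  classical
  have hr1 := h1.2.1
  have hr2 := h2.2.1
  have hr3 := h3.2.1
  have u1 : H1 ≠ univ := by rintro rfl; omega
  have u2 : H2 ≠ univ := by rintro rfl; omega
  have u3 : H3 ≠ univ := by rintro rfl; omega
  have u12 : H1 ∩ H2 ≠ univ := by intro h; rw [h] at r12; omega
  have u13 : H1 ∩ H3 ≠ univ := by intro h; rw [h] at r13; omega
  have u23 : H2 ∩ H3 ≠ univ := by intro h; rw [h] at r23; omega
  have s1 := tf_sum_flat h1.1 u1
  have s2 := tf_sum_flat h2.1 u2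
  have s3 := tf_sum_flat h3.1 u3
  have s12 := tf_sum_flat (h1.1.inter h2.1) u12
  have s13 := tf_sum_flat (h1.1.inter h3.1) u13
  have s23 := tf_sum_flat (h2.1.inter h3.1) u23
  have ha := alpha_eq (N := N) univ
  have hps : (univ : Finset E).powerset = univ := powerset_univ
  rw [hps] at ha
  have hle : ∑ G ∈ univ.filter (fun G => IsFl N G ∧ G ≠ univ),
      (((if G ⊆ H1 then alpha N G else 0) + (if G ⊆ H2 then alpha N G else 0) +
        (if G ⊆ H3 then alpha N G else 0)) -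
        ((if G ⊆ H1 ∩ H2 then alpha N G else 0) + (if G ⊆ H1 ∩ H3 then alpha N G else 0) +
        (if G ⊆ H2 ∩ H3 then alpha N G else 0))) ≤
      ∑ G ∈ univ.filter (fun G => IsFl N G ∧ G ≠ univ), alpha N G := by
    refine sum_le_sum ?_
    intro G hG
    have hG' := (mem_filter.1 hG).2
    have h0 : 0 ≤ alpha N G := alpha_nonneg (ht.2.2 G hG'.1 hG'.2) (Subset.refl _)
    simp only [subset_inter_iff]
    by_cases a : G ⊆ H1 <;> by_cases b : G ⊆ H2 <;> by_cases c : G ⊆ H3 <;> simp [a, b, c] <;>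
      linarith
  rw [sum_sub_distrib, sum_add_distrib, sum_add_distrib, sum_add_distrib, sum_add_distrib,
    s1, s2, s3, s12, s13, s23] at hle
  have hc1 := card_union_add_card_inter (H1 ∪ H2) H3
  have hc2 := card_union_add_card_inter H1 H2
  have hc3 : (H1 ∪ H2) ∩ H3 = (H1 ∩ H3) ∪ (H2 ∩ H3) := union_inter_distrib_right _ _ _
  have hd : Disjoint (H1 ∩ H3) (H2 ∩ H3) := by
    rw [disjoint_left]
    intro e he he'
    have : e ∈ H1 ∩ H2 ∩ H3 :=
      mem_inter.2 ⟨mem_inter.2 ⟨(mem_inter.1 he).1, (mem_inter.1 he').1⟩, (mem_inter.1 he).2⟩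
    rw [h123] at this
    exact absurd this (notMem_empty _)
  rw [hc3, card_union_of_disjoint hd] at hc1
  have hc4 := card_sdiff_add_card_eq_card (subset_univ (H1 ∪ H2 ∪ H3))
  rw [hr1, hr2, hr3, r12, r13, r23] at hle
  rw [h5] at ha
  push_cast at hle ha ⊢
  have hc1' : ((H1 ∪ H2 ∪ H3).card : ℤ) + ((H1 ∩ H3).card + (H2 ∩ H3).card) =
      (H1 ∪ H2).card + H3.card := by exact_mod_cast hc1
  have hc2' : ((H1 ∪ H2).card : ℤ) + (H1 ∩ H2).card = H1.card + H2.card := by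
    exact_mod_cast hc2
  have hc4' : ((univ \ (H1 ∪ H2 ∪ H3)).card : ℤ) + (H1 ∪ H2 ∪ H3).card =
      (univ : Finset E).card := by exact_mod_cast hc4
  linarith

open Classical in
/-- the number of spanning members above a point -/
theorem tf_spanning (hK : Fintype.card K = 4) (hN : Simple N) (hq : RepC K N) (ht : Tight N)
    (h5 : rk N univ = 5) {H1 H2 H3 : Finset E} (h1 : TfHv N H1) (h2 : TfHv N H2)
    (h3 : TfHv N H3) (h12 : H1 ≠ H2) (h13 : H1 ≠ H3) (h23 : H2 ≠ H3) {x : E}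
    {ι : Type*} [Fintype ι] {A : ι → Finset E} (hA : IsMason N {x} univ A) :
    ((univ.filter (fun i => cl N (A i ∪ {x}) = univ)).card : ℤ) =
      alpha N univ + ((if x ∈ H1 then 0 else alpha N H1) + ((if x ∈ H2 then 0 else alpha N H2) +
        (if x ∈ H3 then 0 else alpha N H3))) := by
  have hb := beta hA (isFl_univ (N := N)) (subset_univ _) (Subset.refl _)
  rw [hb]
  set P := univ.filter (fun G' : Finset E => IsFl N G' ∧ cl N (G' ∪ {x}) = univ) with hP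
  have hun : univ ∈ P := by
    rw [hP, mem_filter]
    refine ⟨mem_univ _, isFl_univ, ?_⟩
    exact univ_subset_iff.1 (subset_union_left.trans subset_cl)
  have hin : ∀ H, TfHv N H → x ∉ H → H ∈ P.erase univ := by
    rintro H ⟨hH, hr, -⟩ hx
    rw [mem_erase, hP, mem_filter]
    refine ⟨by rintro rfl; omega, mem_univ _, hH, ?_⟩
    have hxs : x ∉ sp N H := fun h => hx (hH.mem h)
    have hr' : rk N (insert x H) = 5 := by
      rw [rk_insert_of_not_mem_sp hxs, hr]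
    refine isFl_univ.cl_eq (subset_univ _) ?_
    rw [union_comm, ← insert_eq, hr', h5]
  have hrest : ∀ G ∈ P.erase univ, G ∉ ({H1, H2, H3} : Finset (Finset E)).filter (fun G => x ∉ G) →
      alpha N G = 0 := by
    intro G hG hGne
    obtain ⟨hGu, hGP⟩ := mem_erase.1 hG
    rw [hP, mem_filter] at hGP
    obtain ⟨-, hGf, hGc⟩ := hGP
    have h0 : 0 ≤ alpha N G := alpha_nonneg (ht.2.2 G hGf hGu) (Subset.refl _)
    by_contra hne
    have hpos : 0 < alpha N G := lt_of_le_of_ne h0 (Ne.symm hne)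
    have hxG : x ∉ G := by
      intro h
      rw [union_eq_left.2 (singleton_subset_iff.2 h)] at hGc
      exact hGu (hGf.symm.trans hGc)
    have hrG1 : rk N G < rk N univ :=
      hGf.rk_lt_of_ssubset (ssubset_univ_iff.2 hGu)
    have hrG2 : rk N (insert x G) ≤ rk N G + 1 := rk_insert_le
    have hrG3 : rk N (G ∪ {x}) = 5 := by
      rw [← rk_cl (X := G ∪ {x}), hGc, h5]
    rw [union_comm, ← insert_eq] at hrG3
    have hG4 : TfHv N G := ⟨hGf, by omega, hpos⟩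
    apply hGne
    rw [mem_filter]
    refine ⟨?_, hxG⟩
    rcases tf_four hK hN hq ht h5 h1 h2 h3 h12 h13 h23 hG4 with h | h | h
    · rw [h]; simp
    · rw [h]; simp
    · rw [h]; simp
  have hsub : ({H1, H2, H3} : Finset (Finset E)).filter (fun G => x ∉ G) ⊆ P.erase univ := by
    intro G hG
    rw [mem_filter] at hG
    simp only [mem_insert, mem_singleton] at hG
    rcases hG with ⟨rfl | rfl | rfl, h⟩
    · exact hin _ h1 h
    · exact hin _ h2 h
    · exact hin _ h3 h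
  rw [← add_sum_erase P _ hun, ← sum_subset hsub hrest, sum_filter, sum_insert, sum_insert,
    sum_singleton]
  · by_cases a : x ∈ H1 <;> by_cases b : x ∈ H2 <;> by_cases c : x ∈ H3 <;> simp [a, b, c]
  · rw [mem_singleton]; exact h23
  · rw [mem_insert, mem_singleton]
    rintro (h | h)
    · exact h12 h
    · exact h13 h

theorem tf_alpha_ge (hK : Fintype.card K = 4) (hN : Simple N) (hq : RepC K N) (ht : Tight N)
    (h5 : rk N univ = 5) {H1 H2 H3 : Finset E} (h1 : TfHv N H1) (h2 : TfHv N H2)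
    (h3 : TfHv N H3) (h12 : H1 ≠ H2) (h13 : H1 ≠ H3) (h23 : H2 ≠ H3) :
    0 ≤ alpha N univ + alpha N H3 := by
  classical
  have r12 := tf_inter hK hN hq ht h5 h1 h2 h12
  have e1 := tf_triple hK hN hq ht h5 h1 h2 h3 h12 h13 h23
  have hne : (H1 ∩ H2).Nonempty := by
    rw [nonempty_iff_ne_empty]
    intro h0
    rw [h0, rk_empty] at r12
    omega
  obtain ⟨x, hx⟩ := hne
  have hx1 := (mem_inter.1 hx).1
  have hx2 := (mem_inter.1 hx).2
  have hx3 : x ∉ H3 := by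
    intro h
    have : x ∈ H1 ∩ H2 ∩ H3 := mem_inter.2 ⟨hx, h⟩
    rw [e1] at this
    exact absurd this (notMem_empty _)
  obtain ⟨n, A, hA⟩ := ht.2.1 x
  have hb := tf_spanning hK hN hq ht h5 h1 h2 h3 h12 h13 h23 hA
  rw [if_pos hx1, if_pos hx2, if_neg hx3, zero_add, zero_add] at hb
  rw [← hb]
  exact Int.natCast_nonneg _

theorem tight_five (hK : Fintype.card K = 4) (hN : Simple N) (hq : RepC K N) (ht : Tight N) :
    rk N univ ≠ 5 := by
  classical
  intro h5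
  obtain ⟨H1, H2, H3, h1, h2, h3, h12, h13, h23⟩ := tf_exists hK hN hq ht h5
  have r12 := tf_inter hK hN hq ht h5 h1 h2 h12
  have r13 := tf_inter hK hN hq ht h5 h1 h3 h13
  have r23 := tf_inter hK hN hq ht h5 h2 h3 h23
  have e1 := tf_triple hK hN hq ht h5 h1 h2 h3 h12 h13 h23
  have hu := tf_alpha_univ ht h5 h1 h2 h3 r12 r13 r23 e1
  have g3 := tf_alpha_ge hK hN hq ht h5 h1 h2 h3 h12 h13 h23
  have g2 := tf_alpha_ge hK hN hq ht h5 h1 h3 h2 h13 h12 (Ne.symm h23)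
  have g1 := tf_alpha_ge hK hN hq ht h5 h2 h3 h1 h23 (Ne.symm h12) (Ne.symm h13)
  have hle : ∀ H, TfHv N H → alpha N H ≤ 1 := by
    rintro H ⟨hH, hr, -⟩
    have hne : H ≠ univ := by rintro rfl; omega
    exact alpha_le_one hK hN hq hH hne (by omega) (ht.2.2 H hH hne)
  have l1 := hle H1 h1
  have l2 := hle H2 h2
  have l3 := hle H3 h3
  have hc := cone hK hN hq ht h5 h3.1 h3.2.1 h3.2.2
  have hcard := tf_card e1
  have hc12 : rk N (H1 ∩ H2) ≤ (H1 ∩ H2).card := rk_le_card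
  have hR : (univ \ (H1 ∪ H2 ∪ H3)).card ≤ 1 := by omega
  have hR1 : (univ \ (H1 ∪ H2 ∪ H3)).card = 1 := by
    have : (1 : ℤ) ≤ (univ \ (H1 ∪ H2 ∪ H3)).card := by linarith
    have : 1 ≤ (univ \ (H1 ∪ H2 ∪ H3)).card := by exact_mod_cast this
    omega
  rw [hR1] at hu
  push_cast at hu
  obtain ⟨d, hd⟩ := card_eq_one.1 hR1
  have hd' : d ∈ univ \ (H1 ∪ H2 ∪ H3) := by rw [hd]; exact mem_singleton_self d
  simp only [mem_sdiff, mem_union, mem_univ, true_and, not_or] at hd'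
  obtain ⟨⟨d1, d2⟩, d3⟩ := hd'
  obtain ⟨n, A, hA⟩ := ht.2.1 d
  have hb := tf_spanning hK hN hq ht h5 h1 h2 h3 h12 h13 h23 hA
  rw [if_neg d1, if_neg d2, if_neg d3] at hb
  have h2c : (2 : ℤ) ≤ ((univ.filter (fun i => cl N (A i ∪ {d}) = univ)).card : ℤ) := by
    rw [hb]
    linarith
  have h2c' : 1 < (univ.filter (fun i => cl N (A i ∪ {d}) = univ)).card := by
    have : 2 ≤ (univ.filter (fun i => cl N (A i ∪ {d}) = univ)).card := by exact_mod_cast h2c
    omega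
  obtain ⟨i, hi, j, hj, hij⟩ := one_lt_card.1 h2c'
  rw [mem_filter] at hi hj
  exact spanning_le_one hK hN hq (by omega) hA hij hi.2 hj.2

end Ca3.Ab
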