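import Pool.Agent.Lib.MP_ca3eb1_co.Alpha

/-! # Module M8b: existence of a tight spanning restriction (T3) -/

set_option linter.unusedSectionVars false

namespace Ca3

open Finset Submodule

variable {K V E : Type*} [Field K] [AddCommGroup V] [Module K V] [FiniteDimensional K V]
  [Fintype E] [DecidableEq E] {v : E → V}

/-! ### sets of elements of a subtype -/

private lemma et_mem_map {Z : Finset E} {W : Finset Z} {e : E} :
    e ∈ W.map (Function.Embedding.subtype _) ↔ ∃ h : e ∈ Z, (⟨e, h⟩ : Z) ∈ W := by
  constructor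
  · intro h
    obtain ⟨r, hr, rfl⟩ := mem_map.1 h
    exact ⟨r.2, hr⟩
  · rintro ⟨h, h'⟩
    exact mem_map.2 ⟨⟨e, h⟩, h', rfl⟩

private lemma et_map_sub {Z : Finset E} (W : Finset Z) :
    W.map (Function.Embedding.subtype _) ⊆ Z := by
  intro e he
  exact (et_mem_map.1 he).1

private lemma et_map_univ {Z : Finset E} :
    (univ : Finset Z).map (Function.Embedding.subtype _) = Z := by
  ext e
  rw [et_mem_map]
  exact ⟨fun h => h.1, fun h => ⟨h, mem_univ _⟩⟩

private lemma et_map_tr {Z G : Finset E} (hG : G ⊆ Z) :
    (tr Z G).map (Function.Embedding.subtype _) = G := by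
  ext e
  rw [et_mem_map]
  simp only [tr, mem_filter, mem_univ, true_and]
  exact ⟨fun h => h.2, fun h => ⟨hG h, h⟩⟩

private lemma et_sp {Z : Finset E} (W : Finset Z) :
    sp K (fun e : Z => v e) W = sp K v (W.map (Function.Embedding.subtype _)) := by
  apply le_antisymm
  · rw [sp_le_iff]
    intro e he
    exact mem_sp (v := v) (mem_map_of_mem (Function.Embedding.subtype _) he)
  · rw [sp_le_iff]
    intro e he
    obtain ⟨h, h'⟩ := et_mem_map.1 he
    exact mem_sp (v := fun e : Z => v e) h'

private lemma et_flat_of_map {Z : Finset E} {W : Finset Z}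
    (h : IsFl K v (W.map (Function.Embedding.subtype _))) : IsFl K (fun e : Z => v e) W := by
  refine subset_antisymm (fun e he => ?_) subset_cl
  rw [mem_cl, et_sp] at he
  obtain ⟨_, h'⟩ := et_mem_map.1 (h.mem he)
  exact h'

/-- `Z` contains every proper flat of `N` in whose span it is dense. -/
private def Sat (K : Type*) {V E : Type*} [Field K] [AddCommGroup V] [Module K V]
    [Fintype E] [DecidableEq E] (v : E → V) (Z : Finset E) : Prop :=
  ∀ G, IsFl K v G → G ≠ univ → rk K v (G ∩ Z) = rk K v G → G ⊆ Z

private lemma et_flat {Z : Finset E} (hcl : Sat K v Z) {W : Finset Z} (hW : W ≠ univ)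
    (h : IsFl K (fun e : Z => v e) W) : IsFl K v (W.map (Function.Embedding.subtype _)) := by
  set F := W.map (Function.Embedding.subtype _) with hFdef
  have h1 : cl K v F ∩ Z = F := by
    apply subset_antisymm
    · intro e he
      rw [mem_inter, mem_cl] at he
      rw [hFdef, et_mem_map]
      refine ⟨he.2, h.mem ?_⟩
      rw [et_sp]
      exact he.1
    · exact subset_inter subset_cl (et_map_sub W)
  have h2 : cl K v F ≠ univ := by
    intro h3
    rw [h3, univ_inter] at h1
    apply hW
    rw [eq_univ_iff_forall]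
    intro e
    have h4 : (e : E) ∈ F := by rw [← h1]; exact e.2
    obtain ⟨_, h5⟩ := et_mem_map.1 h4
    exact h5
  have h3 := hcl _ isFl_cl h2 (by rw [h1, rk_cl])
  have h4 : cl K v F = F := by
    rw [inter_eq_left.2 h3] at h1
    exact h1
  exact h4

private lemma et_alpha {Z : Finset E} (hcl : Sat K v Z) (n : ℕ) (W : Finset Z)
    (hn : W.card = n) :
    alpha K (fun e : Z => v e) W = alpha K v (W.map (Function.Embedding.subtype _)) := by
  classical
  induction n using Nat.strong_induction_on generalizing W with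
  | _ n ih =>
    rw [alpha_eq, alpha_eq, card_map, rk_restrict]
    congr 1
    refine sum_bij (fun G _ => G.map (Function.Embedding.subtype _)) ?_ ?_ ?_ ?_
    · intro G hG
      rw [mem_filter, mem_powerset] at hG ⊢
      refine ⟨map_subset_map.2 hG.1, et_flat hcl ?_ hG.2.1, fun h => hG.2.2 ?_⟩
      · rintro rfl
        exact hG.2.2 (subset_antisymm hG.1 (subset_univ _))
      · exact map_injective _ h
    · intro G _ G' _ h
      exact map_injective _ h
    · intro G hG
      rw [mem_filter, mem_powerset] at hG
      have h1 : G ⊆ Z := hG.1.trans (et_map_sub W)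
      refine ⟨tr Z G, ?_, et_map_tr h1⟩
      rw [mem_filter, mem_powerset]
      refine ⟨?_, et_flat_of_map (by rw [et_map_tr h1]; exact hG.2.1), ?_⟩
      · rw [← map_subset_map (f := Function.Embedding.subtype _), et_map_tr h1]
        exact hG.1
      · intro h
        apply hG.2.2
        rw [← et_map_tr h1, h]
    · intro G hG
      rw [mem_filter, mem_powerset] at hG
      refine ih G.card ?_ G rfl
      rw [← hn]
      exact card_lt_card (Finset.ssubset_iff_subset_ne.2 ⟨hG.1, hG.2.2⟩)

/-- Restriction of a Mason family to a saturated set. -/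
private lemma et_SG {Z : Finset E} (hcl : Sat K v Z) {Y T : Finset Z}
    (hs : SG K v (Y.map (Function.Embedding.subtype _))
      (T.map (Function.Embedding.subtype _))) :
    SG K (fun e : Z => v e) Y T := by
  classical
  obtain ⟨n, B, hB⟩ := hs
  set k := Z.card - rk K v Z - cnt B Z with hk
  let A : {i : Fin n // B i ⊆ Z} ⊕ Fin k → Finset Z :=
    Sum.elim (fun i => tr Z (B i.1)) (fun _ => univ)
  have key : IsMason K (fun e : Z => v e) Y T A := by
    intro W hYW hWT
    have h1 : (∑ i : {i : Fin n // B i ⊆ Z}, if tr Z (B i.1) ⊆ W then 1 else 0) =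
        cnt B (W.map (Function.Embedding.subtype _)) := by
      rw [← card_filter]
      unfold cnt
      have h2 : ∀ i : {i : Fin n // B i ⊆ Z},
          tr Z (B i.1) ⊆ W ↔ B i.1 ⊆ W.map (Function.Embedding.subtype _) := by
        intro i
        rw [← map_subset_map (f := Function.Embedding.subtype _), et_map_tr i.2]
      apply card_bij (fun i _ => i.1)
      · intro i hi
        rw [mem_filter] at hi ⊢
        exact ⟨mem_univ _, (h2 i).1 hi.2⟩
      · intro i _ j _ h
        exact Subtype.ext h
      · intro i hi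
        rw [mem_filter] at hi
        refine ⟨⟨i, hi.2.trans (et_map_sub W)⟩, ?_, rfl⟩
        rw [mem_filter]
        exact ⟨mem_univ _, (h2 _).2 hi.2⟩
    have hc : cnt A W = cnt B (W.map (Function.Embedding.subtype _)) +
        (if W = univ then k else 0) := by
      rw [← h1]
      unfold cnt
      rw [card_filter, Fintype.sum_sum_type]
      congr 1
      by_cases hW : W = univ
      · rw [if_pos hW]
        have h3 : ∀ j ∈ (univ : Finset (Fin k)), (if A (Sum.inr j) ⊆ W then 1 else 0) = 1 :=
          fun j _ => if_pos (hW ▸ subset_univ _)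
        rw [sum_congr rfl h3]
        simp
      · rw [if_neg hW]
        apply sum_eq_zero
        intro j _
        exact if_neg (fun h => hW (univ_subset_iff.1 h))
    have h4 := hB (W.map (Function.Embedding.subtype _)) (map_subset_map.2 hYW)
      (map_subset_map.2 hWT)
    rw [hc, rk_restrict, ← card_map (Function.Embedding.subtype _)]
    by_cases hW : W = univ
    · subst hW
      rw [et_map_univ] at h4 ⊢
      rw [if_pos rfl]
      omega
    · rw [if_neg hW, add_zero]
      exact ⟨h4.1, fun h => h4.2 (et_flat hcl hW h)⟩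
  exact key.sg

/-! ### violating sets -/

open Classical in
/-- Sum of `α` over the proper flats inside a set. -/
private noncomputable def nn (K : Type*) {V E : Type*} [Field K] [AddCommGroup V] [Module K V]
    [Fintype E] [DecidableEq E] (v : E → V) (Z : Finset E) : ℤ :=
  ∑ G ∈ univ.filter (fun G => IsFl K v G ∧ G ⊆ Z ∧ G ≠ univ), alpha K v G

private lemma nn_span {Z : Finset E} (hZ : rk K v Z = rk K v univ) :
    alpha K v Z = (Z.card : ℤ) - rk K v univ - nn K v Z := by
  classical
  rw [alpha_eq, hZ]
  unfold nn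
  congr 1
  apply sum_congr _ (fun _ _ => rfl)
  ext G
  simp only [mem_filter, mem_powerset, mem_univ, true_and]
  constructor
  · rintro ⟨a, b, c⟩
    refine ⟨b, a, ?_⟩
    rintro rfl
    exact c (subset_antisymm a (subset_univ _))
  · rintro ⟨a, b, c⟩
    refine ⟨b, a, ?_⟩
    rintro rfl
    exact c (a.eq_of_subset_of_rk_le (subset_univ _) hZ.ge)

open Classical in
private lemma nn_proper {Z : Finset E} (hZ : Z ≠ univ) :
    nn K v Z = ∑ G ∈ univ.filter (fun G => IsFl K v G ∧ G ⊆ Z), alpha K v G := by
  unfold nn
  apply sum_congr _ (fun _ _ => rfl)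
  ext G
  simp only [mem_filter, mem_univ, true_and]
  constructor
  · rintro ⟨a, b, c⟩
    exact ⟨a, b⟩
  · rintro ⟨a, b⟩
    refine ⟨a, b, ?_⟩
    rintro rfl
    exact hZ (subset_antisymm (subset_univ _) b)

/-- T3 -/
theorem exists_tight (hv : Simple K v) (hs : ∀ x, SG K v {x} univ)
    (hF : ∀ F, IsFl K v F → F ≠ univ → SG K v ∅ F) (hn : ¬ SG K v ∅ univ) :
    ∃ X : Finset E, rk K v X = rk K v univ ∧ Tight K (fun e : X => v e) := by
  classical
  -- flats have nonnegative alpha
  have hpos : ∀ G, IsFl K v G → G ≠ univ → 0 ≤ alpha K v G := fun G h1 h2 =>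
    alpha_nonneg (hF G h1 h2) (Subset.refl _)
  -- existence of a violating set
  have hex : ∃ Z : Finset E, rk K v Z = rk K v univ ∧ alpha K v Z < 0 := by
    by_contra hc
    push Not at hc
    apply hn
    apply SG_of_alpha_nonneg
    intro Z _
    by_cases h1 : rk K v Z = rk K v univ
    · exact hc Z h1
    · have h2 : cl K v Z ≠ univ := by
        intro h3
        apply h1
        rw [← h3, rk_cl]
      exact alpha_nonneg (hF _ isFl_cl h2) subset_cl
  obtain ⟨Z, hZ, hmax⟩ := (univ.filter (fun Z : Finset E =>
    rk K v Z = rk K v univ ∧ alpha K v Z < 0)).exists_max_image card (by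
      obtain ⟨Z, h⟩ := hex
      exact ⟨Z, by simpa using h⟩)
  simp only [mem_filter, mem_univ, true_and, and_imp] at hZ hmax
  obtain ⟨hr, ha⟩ := hZ
  have hcl : Sat K v Z := by
    intro G hG hGu hrk
    -- nn of the flat G, of the intersection, of the union
    have e1 : nn K v G = (G.card : ℤ) - rk K v G := by
      rw [nn_proper hGu, alpha_sum_flat hG]
    have hGZ : G ∩ Z ≠ univ := fun h => hGu (subset_antisymm (subset_univ _)
      (h ▸ inter_subset_left))
    have e2 : nn K v (G ∩ Z) ≤ ((G ∩ Z).card : ℤ) - rk K v (G ∩ Z) := by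
      rw [nn_proper hGZ]
      by_cases h1 : IsFl K v (G ∩ Z)
      · rw [alpha_sum_flat h1]
      · rw [alpha_sum_not_flat h1]
        have := alpha_nonneg (hF G hG hGu) (Z := G ∩ Z) inter_subset_left
        omega
    have e3 : nn K v G + nn K v Z ≤ nn K v (G ∪ Z) + nn K v (G ∩ Z) := by
      unfold nn
      have i1 : (univ.filter (fun G' => IsFl K v G' ∧ G' ⊆ G ∩ Z ∧ G' ≠ univ)) =
          (univ.filter (fun G' => IsFl K v G' ∧ G' ⊆ G ∧ G' ≠ univ)) ∩
          (univ.filter (fun G' => IsFl K v G' ∧ G' ⊆ Z ∧ G' ≠ univ)) := by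
        ext G'
        simp only [mem_filter, mem_univ, true_and, mem_inter, subset_inter_iff]
        tauto
      have i2 : (univ.filter (fun G' => IsFl K v G' ∧ G' ⊆ G ∧ G' ≠ univ)) ∪
          (univ.filter (fun G' => IsFl K v G' ∧ G' ⊆ Z ∧ G' ≠ univ)) ⊆
          (univ.filter (fun G' => IsFl K v G' ∧ G' ⊆ G ∪ Z ∧ G' ≠ univ)) := by
        intro G'
        simp only [mem_filter, mem_univ, true_and, mem_union]
        rintro (⟨a, b, c⟩ | ⟨a, b, c⟩)
        · exact ⟨a, b.trans subset_union_left, c⟩
        · exact ⟨a, b.trans subset_union_right, c⟩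
      rw [i1, ← sum_union_inter]
      have i3 := sum_le_sum_of_subset_of_nonneg i2 (f := fun G' => alpha K v G')
        (fun G' h1 _ => by
          simp only [mem_filter, mem_univ, true_and] at h1
          exact hpos G' h1.1 h1.2.2)
      linarith
    have hru : rk K v (G ∪ Z) = rk K v univ :=
      le_antisymm (rk_mono (subset_univ _)) (hr ▸ rk_mono subset_union_right)
    have e4 := nn_span hru
    have e5 := nn_span hr
    have e6 := card_union_add_card_inter G Z
    have e7 : alpha K v (G ∪ Z) < 0 := by
      have : ((G ∪ Z).card : ℤ) + (G ∩ Z).card = G.card + Z.card := by exact_mod_cast e6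
      have h8 : (rk K v (G ∩ Z) : ℤ) = rk K v G := by exact_mod_cast hrk
      linarith
    have e8 := hmax _ hru e7
    have e9 : Z = G ∪ Z := eq_of_subset_of_card_le subset_union_right e8
    rw [e9]
    exact subset_union_left
  refine ⟨Z, hr, ?_, ?_, ?_⟩
  · rw [et_alpha hcl _ _ rfl, et_map_univ]
    exact ha
  · intro x
    apply et_SG hcl
    rw [et_map_univ, map_singleton]
    exact (hs x).mono (Subset.refl _) (subset_univ _)
  · intro F h1 h2
    apply et_SG hcl
    rw [map_empty]
    apply hF _ (et_flat hcl h2 h1)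
    intro h3
    apply h2
    rw [eq_univ_iff_forall]
    intro e
    have h4 : (e : E) ∈ F.map (Function.Embedding.subtype _) := by rw [h3]; exact mem_univ _
    obtain ⟨_, h5⟩ := et_mem_map.1 h4
    exact h5

end Ca3
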