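import Pool.Agent.Lib.MP_ca3eb1_co.Her3

/-! # Module W2: removing a point which is not fat keeps the strict gammoid property -/

set_option linter.unusedSectionVars false

namespace Ca3

open Finset Submodule

variable {K V E : Type*} [Field K] [AddCommGroup V] [Module K V]
  [FiniteDimensional K V] [Fintype E] [DecidableEq E] {v : E → V}

lemma fat_alpha_empty : alpha K v (∅ : Finset E) = 0 := by
  classical
  rw [alpha_eq]
  rw [sum_eq_zero]
  · simp
  · intro G hG
    rw [mem_filter, mem_powerset, subset_empty] at hG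
    exact absurd hG.1 hG.2.2

lemma fat_alpha_small (hv : Simple K v) {G : Finset E} (h : rk K v G ≤ 1) :
    alpha K v G = 0 := by
  classical
  have hc := hv.card_le_one h
  have hc' : G.card = 0 ∨ G.card = 1 := by omega
  rcases hc' with hc' | hc'
  · rw [card_eq_zero] at hc'
    rw [hc', fat_alpha_empty]
  · obtain ⟨e, rfl⟩ := card_eq_one.1 hc'
    rw [alpha_eq, sum_eq_zero]
    · rw [hv.rk_singleton]; simp
    · intro G hG
      rw [mem_filter, mem_powerset, subset_singleton_iff] at hG
      rcases hG.1 with h | h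
      · rw [h, fat_alpha_empty]
      · exact absurd h hG.2.2

lemma fat_alpha_line (hv : Simple K v) {L : Finset E} (_hL : IsFl K v L) (h2 : rk K v L = 2) :
    alpha K v L = (L.card : ℤ) - 2 := by
  classical
  rw [alpha_eq, sum_eq_zero]
  · rw [h2]; simp
  · intro G hG
    rw [mem_filter, mem_powerset] at hG
    apply fat_alpha_small hv
    have := hG.2.1.rk_lt_of_ssubset (Finset.ssubset_iff_subset_ne.2 ⟨hG.1, hG.2.2⟩)
    omega

open Classical in
lemma fat_alpha_plane (hv : Simple K v) {P : Finset E} (h3 : rk K v P = 3) :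
    alpha K v P = (P.card : ℤ) - 3 -
      ∑ L ∈ univ.filter (fun L : Finset E => (IsFl K v L ∧ rk K v L = 2) ∧ L ⊆ P),
        ((L.card : ℤ) - 2) := by
  rw [alpha_eq, h3]
  congr 1
  symm
  calc ∑ L ∈ univ.filter (fun L : Finset E => (IsFl K v L ∧ rk K v L = 2) ∧ L ⊆ P),
        ((L.card : ℤ) - 2) 
      = ∑ L ∈ univ.filter (fun L : Finset E => (IsFl K v L ∧ rk K v L = 2) ∧ L ⊆ P),
        alpha K v L := by
        apply sum_congr rfl
        intro L hL
        rw [mem_filter] at hL
        exact (fat_alpha_line hv hL.2.1.1 hL.2.1.2).symm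
    _ = _ := by
        apply sum_subset
        · intro L hL
          rw [mem_filter] at hL
          rw [mem_filter, mem_powerset]
          refine ⟨hL.2.2, hL.2.1.1, ?_⟩
          rintro rfl
          have := hL.2.1.2
          omega
        · intro G hG hG'
          rw [mem_filter, mem_powerset] at hG
          apply fat_alpha_small hv
          by_contra hc
          apply hG'
          rw [mem_filter]
          have := hG.2.1.rk_lt_of_ssubset (Finset.ssubset_iff_subset_ne.2 ⟨hG.1, hG.2.2⟩)
          exact ⟨mem_univ _, ⟨hG.2.1, by omega⟩, hG.1⟩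

open Classical in
/-- the inequality of a strict gammoid configuration at a set of rank at least 4 -/
lemma fat_four (hv : Simple K v) (hs : SG K v ∅ univ) {Z : Finset E} (hZ : rk K v Z = 4) :
    ∑ L ∈ univ.filter (fun L : Finset E => (IsFl K v L ∧ rk K v L = 2) ∧ L ⊆ Z),
        ((L.card : ℤ) - 2) +
      ∑ P ∈ univ.filter (fun P : Finset E => (IsFl K v P ∧ rk K v P = 3) ∧ P ⊆ Z),
        alpha K v P ≤ (Z.card : ℤ) - 4 := by
  have h1 := alpha_nonneg hs (subset_univ Z)
  rw [alpha_eq, hZ] at h1
  have h2 : ∑ L ∈ univ.filter (fun L : Finset E => (IsFl K v L ∧ rk K v L = 2) ∧ L ⊆ Z),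
        ((L.card : ℤ) - 2) +
      ∑ P ∈ univ.filter (fun P : Finset E => (IsFl K v P ∧ rk K v P = 3) ∧ P ⊆ Z),
        alpha K v P ≤ ∑ G ∈ Z.powerset.filter (fun G => IsFl K v G ∧ G ≠ Z), alpha K v G := by
    have h3 : ∑ L ∈ univ.filter (fun L : Finset E => (IsFl K v L ∧ rk K v L = 2) ∧ L ⊆ Z),
        ((L.card : ℤ) - 2) =
        ∑ L ∈ univ.filter (fun L : Finset E => (IsFl K v L ∧ rk K v L = 2) ∧ L ⊆ Z),
        alpha K v L := by
      apply sum_congr rfl
      intro L hL
      rw [mem_filter] at hL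
      exact (fat_alpha_line hv hL.2.1.1 hL.2.1.2).symm
    rw [h3, ← sum_union]
    · apply sum_le_sum_of_subset_of_nonneg
      · intro G hG
        rw [mem_union, mem_filter, mem_filter] at hG
        rw [mem_filter, mem_powerset]
        rcases hG with hG | hG
        · refine ⟨hG.2.2, hG.2.1.1, ?_⟩
          rintro rfl
          have := hG.2.1.2
          omega
        · refine ⟨hG.2.2, hG.2.1.1, ?_⟩
          rintro rfl
          have := hG.2.1.2
          omega
      · intro G _ _
        exact alpha_nonneg hs (subset_univ G)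
    · rw [Finset.disjoint_left]
      intro G h4 h5
      rw [mem_filter] at h4 h5
      have := h4.2.1.2
      have := h5.2.1.2
      omega
  push_cast at h1
  linarith

lemma fat_two_lines {L L' P : Finset E} (hL : IsFl K v L) (hL2 : rk K v L = 2)
    (hL'2 : rk K v L' = 2) (hne : L ≠ L') (hL' : IsFl K v L') (hLP : L ⊆ P) (hL'P : L' ⊆ P)
    (hP : rk K v P = 3) : rk K v (L ∪ L') = 3 ∧ sp K v (L ∪ L') = sp K v P := by
  have h1 : L ⊂ L ∪ L' := by
    rw [Finset.ssubset_iff_subset_ne]
    refine ⟨subset_union_left, fun h => ?_⟩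
    have h2 : L' ⊆ L := by
      rw [h]; exact subset_union_right
    exact hne (hL'.eq_of_subset_of_rk_le h2 (by omega)).symm
  have h3 := hL.rk_lt_of_ssubset h1
  have h4 : L ∪ L' ⊆ P := union_subset hLP hL'P
  have h5 := rk_mono (K := K) (v := v) h4
  exact ⟨by omega, sp_eq_of_subset_of_rk_le h4 (by omega)⟩

lemma fat_flat_eq {P P' : Finset E} (hP : IsFl K v P) (hP' : IsFl K v P')
    (h : sp K v P = sp K v P') : P = P' := by
  have := cl_eq_cl_iff.2 h
  rwa [hP, hP'] at this

open Classical in
lemma fat_main (hv : Simple K v) (h4 : rk K v univ = 4) (hs : SG K v ∅ univ) {q : E}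
    (hq : ¬ Fat K v q) {Z : Finset E} (hqZ : q ∉ Z) (hZ : rk K v Z = 4) :
    ∑ L ∈ univ.filter (fun L : Finset E => (IsFl K v L ∧ rk K v L = 2) ∧ L ⊆ insert q Z),
        (((L.erase q).card - 2 : ℕ) : ℤ) +
      ∑ P ∈ univ.filter (fun P : Finset E =>
          (IsFl K v P ∧ rk K v P = 3 ∧ rk K v (P.erase q) = 3) ∧ P ⊆ insert q Z),
        (((P.erase q).card : ℤ) - 3 -
          ∑ L ∈ univ.filter (fun L : Finset E => (IsFl K v L ∧ rk K v L = 2) ∧ L ⊆ P),
            (((L.erase q).card - 2 : ℕ) : ℤ)) ≤ (Z.card : ℤ) - 4 := by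
  have hZ' : rk K v (insert q Z) = 4 := by
    have h1 := rk_mono (K := K) (v := v) (subset_univ (insert q Z))
    have h2 := rk_mono (K := K) (v := v) (subset_insert q Z)
    omega
  have hc' : ((insert q Z).card : ℤ) = Z.card + 1 := by
    rw [card_insert_of_notMem hqZ]; push_cast; rfl
  have hl : ∀ L : Finset E, IsFl K v L → rk K v L = 2 → (((L.erase q).card - 2 : ℕ) : ℤ) =
      ((L.card : ℤ) - 2) - (if q ∈ L ∧ 3 ≤ L.card then 1 else 0) := by
    intro L hL hL2
    have h1 : rk K v L ≤ L.card := rk_le_card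
    by_cases hqL : q ∈ L
    · rw [card_erase_of_mem hqL]
      by_cases h3 : 3 ≤ L.card
      · rw [if_pos ⟨hqL, h3⟩]; omega
      · rw [if_neg (fun h => h3 h.2)]; omega
    · rw [erase_eq_of_notMem hqL, if_neg (fun h => hqL h.1)]
      omega
  set Φ : Finset (Finset E) := univ.filter (fun L : Finset E =>
    ((IsFl K v L ∧ rk K v L = 2) ∧ L ⊆ insert q Z) ∧ (q ∈ L ∧ 3 ≤ L.card)) with hΦ
  have hmemΦ : ∀ L, L ∈ Φ ↔
      ((IsFl K v L ∧ rk K v L = 2) ∧ L ⊆ insert q Z) ∧ (q ∈ L ∧ 3 ≤ L.card) := by
    intro L; rw [hΦ, mem_filter]; simp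
  set PP : Finset (Finset E) := univ.filter (fun P : Finset E =>
          (IsFl K v P ∧ rk K v P = 3 ∧ rk K v (P.erase q) = 3) ∧ P ⊆ insert q Z) with hPP
  have hmemPP : ∀ P, P ∈ PP ↔
      (IsFl K v P ∧ rk K v P = 3 ∧ rk K v (P.erase q) = 3) ∧ P ⊆ insert q Z := by
    intro L; rw [hPP, mem_filter]; simp
  have e1 : ∑ L ∈ univ.filter (fun L : Finset E => (IsFl K v L ∧ rk K v L = 2) ∧
      L ⊆ insert q Z), (((L.erase q).card - 2 : ℕ) : ℤ) =
      ∑ L ∈ univ.filter (fun L : Finset E => (IsFl K v L ∧ rk K v L = 2) ∧ L ⊆ insert q Z),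
        ((L.card : ℤ) - 2) - Φ.card := by
    have h2 : Φ =
        (univ.filter (fun L : Finset E => (IsFl K v L ∧ rk K v L = 2) ∧ L ⊆ insert q Z)).filter
          (fun L => q ∈ L ∧ 3 ≤ L.card) := by
      ext L
      rw [hmemΦ, mem_filter, mem_filter]
      simp
    rw [h2, card_filter]
    push_cast
    rw [← sum_sub_distrib]
    apply sum_congr rfl
    intro L hL
    rw [mem_filter] at hL
    exact hl L hL.2.1.1 hL.2.1.2
  have e2 : ∀ P ∈ PP, (((P.erase q).card : ℤ) - 3 -
          ∑ L ∈ univ.filter (fun L : Finset E => (IsFl K v L ∧ rk K v L = 2) ∧ L ⊆ P),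
            (((L.erase q).card - 2 : ℕ) : ℤ)) =
      alpha K v P + (((Φ.filter (fun L => L ⊆ P)).card : ℤ) - (if q ∈ P then 1 else 0)) := by
    intro P hP
    rw [hmemPP] at hP
    obtain ⟨⟨hP1, hP2, hP3⟩, hP4⟩ := hP
    rw [fat_alpha_plane hv hP2]
    have h1 : ∑ L ∈ univ.filter (fun L : Finset E => (IsFl K v L ∧ rk K v L = 2) ∧ L ⊆ P),
            (((L.erase q).card - 2 : ℕ) : ℤ) =
        ∑ L ∈ univ.filter (fun L : Finset E => (IsFl K v L ∧ rk K v L = 2) ∧ L ⊆ P),
            ((L.card : ℤ) - 2) - (Φ.filter (fun L => L ⊆ P)).card := by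
      have h2 : Φ.filter (fun L => L ⊆ P) =
          (univ.filter (fun L : Finset E => (IsFl K v L ∧ rk K v L = 2) ∧ L ⊆ P)).filter
            (fun L => q ∈ L ∧ 3 ≤ L.card) := by
        ext L
        rw [mem_filter, hmemΦ, mem_filter, mem_filter]
        constructor
        · rintro ⟨⟨⟨a, b⟩, c⟩, d⟩
          exact ⟨⟨mem_univ _, a, d⟩, c⟩
        · rintro ⟨⟨_, a, d⟩, c⟩
          exact ⟨⟨⟨a, d.trans hP4⟩, c⟩, d⟩
      rw [h2, card_filter]
      push_cast
      rw [← sum_sub_distrib]
      apply sum_congr rfl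
      intro L hL
      rw [mem_filter] at hL
      exact hl L hL.2.1.1 hL.2.1.2
    rw [h1]
    by_cases hqP : q ∈ P
    · rw [card_erase_of_mem hqP, if_pos hqP]
      have : 0 < P.card := card_pos.2 ⟨q, hqP⟩
      push_cast [this]
      ring
    · rw [erase_eq_of_notMem hqP, if_neg hqP]
      ring
  rw [e1, sum_congr rfl e2, sum_add_distrib]
  have e3 : ∑ P ∈ PP, alpha K v P ≤
      ∑ P ∈ univ.filter (fun P : Finset E => (IsFl K v P ∧ rk K v P = 3) ∧ P ⊆ insert q Z),
        alpha K v P := by
    apply sum_le_sum_of_subset_of_nonneg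
    · intro P hP
      rw [hmemPP] at hP
      rw [mem_filter]
      exact ⟨mem_univ _, ⟨hP.1.1, hP.1.2.1⟩, hP.2⟩
    · intro P _ _
      exact alpha_nonneg hs (subset_univ P)
  have e4 := fat_four hv hs hZ'
  -- planes of PP with at most one line of Φ
  have hle : ∀ P ∈ PP, (Φ.filter (fun L => L ⊆ P)).card ≤ 1 →
      (((Φ.filter (fun L => L ⊆ P)).card : ℤ) - (if q ∈ P then 1 else 0)) ≤ 0 := by
    intro P hP h1
    by_cases h0 : (Φ.filter (fun L => L ⊆ P)).card = 0
    · rw [h0]
      split_ifs <;> simp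
    · obtain ⟨L, hL⟩ := card_pos.1 (Nat.pos_of_ne_zero h0)
      rw [mem_filter, hmemΦ] at hL
      rw [if_pos (hL.2 hL.1.2.1)]
      omega
  by_cases hΦ0 : Φ = ∅
  · -- no heavy line through q
    by_cases hex : ∃ P ∈ PP, q ∈ P
    · obtain ⟨P1, hP1, hqP1⟩ := hex
      have h1 : ∑ P ∈ PP, (((Φ.filter (fun L => L ⊆ P)).card : ℤ) - (if q ∈ P then 1 else 0))
          ≤ -1 := by
        rw [← add_sum_erase _ _ hP1]
        have h2 : ∑ P ∈ PP.erase P1,
            (((Φ.filter (fun L => L ⊆ P)).card : ℤ) - (if q ∈ P then 1 else 0)) ≤ 0 := by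
          apply sum_nonpos
          intro P hP
          exact hle P (mem_of_mem_erase hP) (by rw [hΦ0]; simp)
        rw [hΦ0] at h2 ⊢
        rw [if_pos hqP1]
        simp only [filter_empty, card_empty] at h2 ⊢
        push_cast at h2 ⊢
        linarith
      linarith [(by positivity : (0:ℤ) ≤ (Φ.card : ℤ))]
    · push Not at hex
      have e5 := fat_four hv hs hZ
      have h1 : ∑ P ∈ PP, (((Φ.filter (fun L => L ⊆ P)).card : ℤ) - (if q ∈ P then 1 else 0))
          ≤ 0 := by
        apply sum_nonpos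
        intro P hP
        exact hle P hP (by rw [hΦ0]; simp)
      have h2 : ∑ P ∈ PP, alpha K v P ≤
          ∑ P ∈ univ.filter (fun P : Finset E => (IsFl K v P ∧ rk K v P = 3) ∧ P ⊆ Z),
            alpha K v P := by
        apply sum_le_sum_of_subset_of_nonneg
        · intro P hP
          have hqP := hex P hP
          rw [hmemPP] at hP
          rw [mem_filter]
          exact ⟨mem_univ _, ⟨hP.1.1, hP.1.2.1⟩, (subset_insert_iff_of_notMem hqP).1 hP.2⟩
        · intro P _ _
          exact alpha_nonneg hs (subset_univ P)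
      have h3 : ∑ L ∈ univ.filter (fun L : Finset E => (IsFl K v L ∧ rk K v L = 2) ∧
          L ⊆ insert q Z), ((L.card : ℤ) - 2) - Φ.card ≤
          ∑ L ∈ univ.filter (fun L : Finset E => (IsFl K v L ∧ rk K v L = 2) ∧ L ⊆ Z),
            ((L.card : ℤ) - 2) := by
        rw [hΦ0, card_empty, Nat.cast_zero, sub_zero]
        apply le_of_eq
        symm
        apply sum_subset
        · intro L hL
          rw [mem_filter] at hL ⊢
          exact ⟨hL.1, hL.2.1, hL.2.2.trans (subset_insert _ _)⟩
        · intro L hL hL'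
          rw [mem_filter] at hL hL'
          have h1 : rk K v L ≤ L.card := rk_le_card
          have hL2 := hL.2.1.2
          have hqL : q ∈ L := by
            by_contra hqL
            exact hL' ⟨mem_univ _, hL.2.1, (subset_insert_iff_of_notMem hqL).1 hL.2.2⟩
          have h3 : ¬ 3 ≤ L.card := by
            intro h3
            have : L ∈ Φ := (hmemΦ L).2 ⟨hL.2, hqL, h3⟩
            rw [hΦ0] at this
            exact absurd this (notMem_empty _)
          omega
      linarith
  · obtain ⟨L0, hL0⟩ := nonempty_iff_ne_empty.2 hΦ0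
    have hΦ1 : (1 : ℤ) ≤ Φ.card := by
      have := card_pos.2 ⟨L0, hL0⟩
      omega
    have h1 : ∑ P ∈ PP, (((Φ.filter (fun L => L ⊆ P)).card : ℤ) - (if q ∈ P then 1 else 0))
          ≤ (Φ.card : ℤ) - 1 := by
      by_cases hall : ∀ P ∈ PP, (Φ.filter (fun L => L ⊆ P)).card ≤ 1
      · have : ∑ P ∈ PP, (((Φ.filter (fun L => L ⊆ P)).card : ℤ) - (if q ∈ P then 1 else 0))
          ≤ 0 := sum_nonpos (fun P hP => hle P hP (hall P hP))
        linarith
      · push Not at hall
        obtain ⟨P1, hP1, hc1⟩ := hall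
        have hP1' := (hmemPP P1).1 hP1
        obtain ⟨L1, hL1, L2, hL2, hne⟩ := one_lt_card.1 hc1
        rw [mem_filter, hmemΦ] at hL1 hL2
        have htwo := fat_two_lines hL1.1.1.1.1 hL1.1.1.1.2 hL2.1.1.1.2 hne hL2.1.1.1.1
          hL1.2 hL2.2 hP1'.1.2.1
        have hqP1 : q ∈ P1 := hL1.2 hL1.1.2.1
        have hallΦ : ∀ L ∈ Φ, L ⊆ P1 := by
          intro L3 hL3
          rw [hmemΦ] at hL3
          intro e he
          by_contra heP
          apply hq
          refine ⟨L1, L2, L3, ⟨hL1.1.1.1.1, hL1.1.1.1.2, hL1.1.2.2⟩,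
            ⟨hL2.1.1.1.1, hL2.1.1.1.2, hL2.1.2.2⟩, ⟨hL3.1.1.1, hL3.1.1.2, hL3.2.2⟩,
            hL1.1.2.1, hL2.1.2.1, hL3.2.1, ?_⟩
          have h5 : v e ∉ sp K v (L1 ∪ L2) := by
            rw [htwo.2]
            exact fun h => heP (hP1'.1.1.mem h)
          have h6 := rk_insert_of_not_mem_sp h5
          have h7 : insert e (L1 ∪ L2) ⊆ L1 ∪ L2 ∪ L3 :=
            insert_subset (mem_union_right _ he) subset_union_left
          have h8 := rk_mono (K := K) (v := v) h7
          have h9 := rk_mono (K := K) (v := v) (subset_univ (L1 ∪ L2 ∪ L3))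
          omega
        rw [← add_sum_erase _ _ hP1]
        have h2 : ∑ P ∈ PP.erase P1,
            (((Φ.filter (fun L => L ⊆ P)).card : ℤ) - (if q ∈ P then 1 else 0)) ≤ 0 := by
          apply sum_nonpos
          intro P hP
          rw [mem_erase] at hP
          apply hle P hP.2
          by_contra hc
          push Not at hc
          obtain ⟨L, hL, L', hL', hne'⟩ := one_lt_card.1 hc
          rw [mem_filter] at hL hL'
          have hL1' := (hmemΦ L).1 hL.1
          have hL2' := (hmemΦ L').1 hL'.1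
          have hPm := (hmemPP P).1 hP.2
          have t1 := fat_two_lines hL1'.1.1.1 hL1'.1.1.2 hL2'.1.1.2 hne' hL2'.1.1.1
            hL.2 hL'.2 hPm.1.2.1
          have t2 := fat_two_lines hL1'.1.1.1 hL1'.1.1.2 hL2'.1.1.2 hne' hL2'.1.1.1
            (hallΦ L hL.1) (hallΦ L' hL'.1) hP1'.1.2.1
          exact hP.1 (fat_flat_eq hPm.1.1 hP1'.1.1 (t1.2.symm.trans t2.2))
        have h3 : (Φ.filter (fun L => L ⊆ P1)).card ≤ Φ.card := card_filter_le _ _
        rw [if_pos hqP1]
        omega
    linarith


section counts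

variable (K) in
open Classical in
/-- weight of the lines after the removal of `q` -/
noncomputable def fatN2 (v : E → V) (q : E) (Z : Finset E) : ℕ :=
  ∑ L ∈ univ.filter (fun L : Finset E => (IsFl K v L ∧ rk K v L = 2) ∧ L ⊆ insert q Z),
    ((L.erase q).card - 2)

variable (K) in
open Classical in
/-- number of members for a plane after the removal of `q` -/
noncomputable def fatB (v : E → V) (q : E) (P : Finset E) : ℕ :=
  (P.erase q).card - 3 -
    ∑ L ∈ univ.filter (fun L : Finset E => (IsFl K v L ∧ rk K v L = 2) ∧ L ⊆ P),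
      ((L.erase q).card - 2)

variable (K) in
open Classical in
/-- weight of the planes after the removal of `q` -/
noncomputable def fatN3 (v : E → V) (q : E) (Z : Finset E) : ℕ :=
  ∑ P ∈ univ.filter (fun P : Finset E =>
    (IsFl K v P ∧ rk K v P = 3 ∧ rk K v (P.erase q) = 3) ∧ P ⊆ insert q Z), fatB K v q P

lemma fat_line_sp (hv : Simple K v) {q : E} {L Z : Finset E} (h2 : rk K v L = 2)
    (hL : L ⊆ insert q Z) (h : (L.erase q).card - 2 ≠ 0) : sp K v L ≤ sp K v Z := by
  have h1 : 2 ≤ rk K v (L.erase q) := hv.two_le_rk (by omega)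
  have h3 : sp K v (L.erase q) = sp K v L :=
    sp_eq_of_subset_of_rk_le (erase_subset _ _) (by omega)
  rw [← h3]
  exact sp_mono (subset_insert_iff.1 hL)

lemma fat_plane_sp {q : E} {P Z : Finset E} (h3 : rk K v P = 3)
    (h3' : rk K v (P.erase q) = 3) (hP : P ⊆ insert q Z) : sp K v P ≤ sp K v Z := by
  have h3 : sp K v (P.erase q) = sp K v P :=
    sp_eq_of_subset_of_rk_le (erase_subset _ _) (by omega)
  rw [← h3]
  exact sp_mono (subset_insert_iff.1 hP)

lemma fatN3_zero {q : E} {Z : Finset E} (hZ : rk K v Z ≤ 2) : fatN3 K v q Z = 0 := by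
  classical
  unfold fatN3
  apply sum_eq_zero
  intro P hP
  rw [mem_filter] at hP
  have := rk_le_of_sp_le (fat_plane_sp hP.2.1.2.1 hP.2.1.2.2 hP.2.2)
  have := hP.2.1.2.1
  omega

lemma fatN2_zero (hv : Simple K v) {q : E} {Z : Finset E} (hZ : rk K v Z ≤ 1) :
    fatN2 K v q Z = 0 := by
  classical
  unfold fatN2
  apply sum_eq_zero
  intro L hL
  rw [mem_filter] at hL
  by_contra hc
  have := rk_le_of_sp_le (fat_line_sp hv hL.2.1.2 hL.2.2 hc)
  have := hL.2.1.2
  omega

lemma fat_erase_eq {q : E} {Z : Finset E} (hqZ : q ∉ Z) (h : cl K v Z ⊆ insert q Z) :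
    (cl K v Z).erase q = Z := by
  apply Subset.antisymm
  · exact subset_insert_iff.1 h
  · intro e he
    rw [mem_erase]
    exact ⟨fun h => hqZ (h ▸ he), subset_cl he⟩

lemma fat_two (hv : Simple K v) {q : E} {Z : Finset E} (hqZ : q ∉ Z) (hZ : rk K v Z = 2) :
    fatN2 K v q Z + 2 ≤ Z.card ∧ (cl K v Z ⊆ insert q Z → fatN2 K v q Z + 2 = Z.card) := by
  classical
  have hc : rk K v Z ≤ Z.card := rk_le_card
  have huniq : ∀ L : Finset E, (IsFl K v L ∧ rk K v L = 2) ∧ L ⊆ insert q Z →
      (L.erase q).card - 2 ≠ 0 → L = cl K v Z := by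
    intro L hL h0
    have h1 := fat_line_sp hv hL.1.2 hL.2 h0
    have h2 : sp K v L = sp K v Z := by
      apply Submodule.eq_of_le_of_finrank_le h1
      have := hL.1.2
      unfold rk at this hZ
      omega
    have h3 := cl_eq_cl_iff.2 h2
    rwa [hL.1.1] at h3
  by_cases h : cl K v Z ⊆ insert q Z
  · have h1 : fatN2 K v q Z = ((cl K v Z).erase q).card - 2 := by
      unfold fatN2
      apply sum_eq_single_of_mem
      · rw [mem_filter]
        exact ⟨mem_univ _, ⟨isFl_cl, by rw [rk_cl, hZ]⟩, h⟩
      · intro L hL hne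
        rw [mem_filter] at hL
        by_contra h0
        exact hne (huniq L hL.2 h0)
    rw [fat_erase_eq hqZ h] at h1
    exact ⟨by omega, fun _ => by omega⟩
  · have h1 : fatN2 K v q Z = 0 := by
      unfold fatN2
      apply sum_eq_zero
      intro L hL
      rw [mem_filter] at hL
      by_contra h0
      apply h
      rw [← huniq L hL.2 h0]
      exact hL.2.2
    exact ⟨by omega, fun h' => absurd h' h⟩

lemma fat_three (hv : Simple K v) (hs : SG K v ∅ univ) {q : E} {Z : Finset E} (hqZ : q ∉ Z)
    (hZ : rk K v Z = 3) :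
    fatN2 K v q Z + fatN3 K v q Z + 3 ≤ Z.card ∧
      (cl K v Z ⊆ insert q Z → fatN2 K v q Z + fatN3 K v q Z + 3 = Z.card) := by
  classical
  have hP0 : IsFl K v (cl K v Z) := isFl_cl
  have hP3 : rk K v (cl K v Z) = 3 := by rw [rk_cl, hZ]
  have hsP : SG K v ∅ (cl K v Z) := hs.mono (Subset.refl _) (subset_univ _)
  have hZS : Z ⊆ (cl K v Z).erase q := by
    intro e he
    rw [mem_erase]
    exact ⟨fun h => hqZ (h ▸ he), subset_cl he⟩
  have hS3 : rk K v ((cl K v Z).erase q) = 3 := by
    have h1 := rk_mono (K := K) (v := v) hZS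
    have h2 := rk_mono (K := K) (v := v) (erase_subset q (cl K v Z))
    omega
  have hin : ∀ L : Finset E, (IsFl K v L ∧ rk K v L = 2) ∧ L ⊆ insert q Z →
      (L.erase q).card - 2 ≠ 0 → L ⊆ cl K v Z := by
    intro L hL h0
    have h1 := fat_line_sp hv hL.1.2 hL.2 h0
    have h2 := cl_mono_sp h1
    rwa [hL.1.1] at h2
  have huniq : ∀ P : Finset E,
      (IsFl K v P ∧ rk K v P = 3 ∧ rk K v (P.erase q) = 3) ∧ P ⊆ insert q Z →
      P = cl K v Z := by
    intro P hP
    have h1 := fat_plane_sp hP.1.2.1 hP.1.2.2 hP.2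
    have h2 : sp K v P = sp K v Z := by
      apply Submodule.eq_of_le_of_finrank_le h1
      have := hP.1.2.1
      unfold rk at this hZ
      omega
    have h3 := cl_eq_cl_iff.2 h2
    rwa [hP.1.1] at h3
  by_cases h : cl K v Z ⊆ insert q Z
  · have he := fat_erase_eq hqZ h
    have h1 : fatN3 K v q Z = fatB K v q (cl K v Z) := by
      unfold fatN3
      apply sum_eq_single_of_mem
      · rw [mem_filter]
        exact ⟨mem_univ _, ⟨hP0, hP3, hS3⟩, h⟩
      · intro P hP hne
        rw [mem_filter] at hP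
        exact absurd (huniq P hP.2) hne
    have h2 : fatN2 K v q Z = ∑ L ∈ univ.filter (fun L : Finset E =>
        (IsFl K v L ∧ rk K v L = 2) ∧ L ⊆ cl K v Z), ((L.erase q).card - 2) := by
      unfold fatN2
      symm
      apply sum_subset
      · intro L hL
        rw [mem_filter] at hL ⊢
        exact ⟨hL.1, hL.2.1, hL.2.2.trans h⟩
      · intro L hL hL'
        rw [mem_filter] at hL hL'
        by_contra h0
        exact hL' ⟨mem_univ _, hL.2.1, hin L hL.2 h0⟩
    have h3 := her3_lines hv hP0 hP3 hsP (erase_subset q _) hS3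
      (LL := univ.filter (fun L : Finset E => (IsFl K v L ∧ rk K v L = 2) ∧ L ⊆ cl K v Z))
      (fun L hL => (mem_filter.1 hL).2.1)
    have h4 : ∑ L ∈ univ.filter (fun L : Finset E =>
        (IsFl K v L ∧ rk K v L = 2) ∧ L ⊆ cl K v Z), ((L ∩ (cl K v Z).erase q).card - 2) =
        ∑ L ∈ univ.filter (fun L : Finset E =>
        (IsFl K v L ∧ rk K v L = 2) ∧ L ⊆ cl K v Z), ((L.erase q).card - 2) := by
      apply sum_congr rfl
      intro L hL
      rw [mem_filter] at hL
      congr 2
      ext e
      simp only [mem_inter, mem_erase]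
      constructor
      · rintro ⟨a, b, _⟩; exact ⟨b, a⟩
      · rintro ⟨a, b⟩; exact ⟨b, a, hL.2.2 b⟩
    rw [h4, ← h2] at h3
    unfold fatB at h1
    rw [← h2] at h1
    rw [he] at h1 h3
    exact ⟨by omega, fun _ => by omega⟩
  · have h1 : fatN3 K v q Z = 0 := by
      unfold fatN3
      apply sum_eq_zero
      intro P hP
      rw [mem_filter] at hP
      exfalso
      apply h
      rw [← huniq P hP.2]
      exact hP.2.2
    have h2 := her3 hv hP0 hP3 hsP (erase_subset q _) hS3 hZS hZ
    have h3 : fatN2 K v q Z ≤ ∑ L ∈ univ.filter (fun L : Finset E =>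
        IsFl K v L ∧ rk K v L = 2 ∧ L ∩ (cl K v Z).erase q ⊆ Z),
        ((L ∩ (cl K v Z).erase q).card - 2) := by
      unfold fatN2
      calc _ ≤ ∑ L ∈ univ.filter (fun L : Finset E =>
            (IsFl K v L ∧ rk K v L = 2) ∧ L ⊆ insert q Z),
            ((L ∩ (cl K v Z).erase q).card - 2) := by
            apply sum_le_sum
            intro L hL
            rw [mem_filter] at hL
            by_cases h0 : (L.erase q).card - 2 = 0
            · omega
            · have h5 : L.erase q ⊆ L ∩ (cl K v Z).erase q := by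
                intro e he
                rw [mem_erase] at he
                rw [mem_inter, mem_erase]
                exact ⟨he.2, he.1, hin L hL.2 h0 he.2⟩
              have := card_le_card h5
              omega
        _ ≤ _ := by
            apply sum_le_sum_of_subset
            intro L hL
            rw [mem_filter] at hL ⊢
            refine ⟨mem_univ _, hL.2.1.1, hL.2.1.2, ?_⟩
            intro e he
            rw [mem_inter, mem_erase] at he
            exact (mem_insert.1 (hL.2.2 he.1)).resolve_left he.2.1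
    exact ⟨by omega, fun h' => absurd h' h⟩

open Classical in
lemma fat_b_eq (hv : Simple K v) (hs : SG K v ∅ univ) {q : E} {P : Finset E} (hP : IsFl K v P)
    (h3 : rk K v P = 3) (h3' : rk K v (P.erase q) = 3) :
    (fatB K v q P : ℤ) = ((P.erase q).card : ℤ) - 3 -
      (∑ L ∈ univ.filter (fun L : Finset E => (IsFl K v L ∧ rk K v L = 2) ∧ L ⊆ P),
            (((L.erase q).card - 2 : ℕ) : ℤ)) := by
  have hsP : SG K v ∅ P := hs.mono (Subset.refl _) (subset_univ _)
  have h5 := her3_lines hv hP h3 hsP (erase_subset q _) h3'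
      (LL := univ.filter (fun L : Finset E => (IsFl K v L ∧ rk K v L = 2) ∧ L ⊆ P))
      (fun L hL => (mem_filter.1 hL).2.1)
  have h4 : ∑ L ∈ univ.filter (fun L : Finset E =>
        (IsFl K v L ∧ rk K v L = 2) ∧ L ⊆ P), ((L ∩ P.erase q).card - 2) =
        ∑ L ∈ univ.filter (fun L : Finset E =>
        (IsFl K v L ∧ rk K v L = 2) ∧ L ⊆ P), ((L.erase q).card - 2) := by
      apply sum_congr rfl
      intro L hL
      rw [mem_filter] at hL
      congr 2
      ext e
      simp only [mem_inter, mem_erase]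
      constructor
      · rintro ⟨a, b, _⟩; exact ⟨b, a⟩
      · rintro ⟨a, b⟩; exact ⟨b, a, hL.2.2 b⟩
  rw [h4] at h5
  unfold fatB
  rw [← Nat.cast_sum]
  omega

lemma fat_four' (hv : Simple K v) (h4 : rk K v univ = 4) (hs : SG K v ∅ univ) {q : E}
    (hq : ¬ Fat K v q) {Z : Finset E} (hqZ : q ∉ Z) (hZ : rk K v Z = 4) :
    fatN2 K v q Z + fatN3 K v q Z + 4 ≤ Z.card := by
  classical
  have h1 := fat_main hv h4 hs hq hqZ hZ
  have h2 : (fatN3 K v q Z : ℤ) = ∑ P ∈ univ.filter (fun P : Finset E =>
          (IsFl K v P ∧ rk K v P = 3 ∧ rk K v (P.erase q) = 3) ∧ P ⊆ insert q Z),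
        (((P.erase q).card : ℤ) - 3 -
          ∑ L ∈ univ.filter (fun L : Finset E => (IsFl K v L ∧ rk K v L = 2) ∧ L ⊆ P),
            (((L.erase q).card - 2 : ℕ) : ℤ)) := by
    unfold fatN3
    rw [Nat.cast_sum]
    apply sum_congr rfl
    intro P hP
    rw [mem_filter] at hP
    exact fat_b_eq hv hs hP.2.1.1 hP.2.1.2.1 hP.2.1.2.2
  have h3 : (fatN2 K v q Z : ℤ) = ∑ L ∈ univ.filter (fun L : Finset E =>
      (IsFl K v L ∧ rk K v L = 2) ∧ L ⊆ insert q Z), (((L.erase q).card - 2 : ℕ) : ℤ) := by
    unfold fatN2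
    rw [Nat.cast_sum]
  rw [← h2, ← h3] at h1
  omega

end counts

lemma fat_cnt_sigma {E' β : Type*} [DecidableEq E'] [Fintype β] (a : β → ℕ) (B : β → Finset E')
    (Z : Finset E') : cnt (fun i : (Σ b : β, Fin (a b)) => B i.1) Z =
      ∑ b ∈ univ.filter (fun b => B b ⊆ Z), a b := by
  unfold cnt
  rw [card_filter, Fintype.sum_sigma, sum_filter]
  apply sum_congr rfl
  intro b _
  change (∑ _y : Fin (a b), if B b ⊆ Z then 1 else 0) = _
  rw [sum_const, card_univ, Fintype.card_fin, smul_eq_mul]
  split_ifs <;> simp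

lemma fat_cnt_sum {E' ι κ : Type*} [DecidableEq E'] [Fintype ι] [Fintype κ] (A : ι → Finset E')
    (B : κ → Finset E') (Z : Finset E') : cnt (Sum.elim A B) Z = cnt A Z + cnt B Z := by
  unfold cnt
  simp only [card_filter, Fintype.sum_sum_type, Sum.elim_inl, Sum.elim_inr]
  congr 1

theorem fat_of_not_SG (hv : Simple K v) (h4 : rk K v univ = 4) (hs : SG K v ∅ univ) {q : E}
    (hr : rk K v (univ.erase q) = 4)
    (hn : ¬ SG K (fun e : (univ.erase q : Finset E) => v e) ∅ univ) : Fat K v q := by
  classical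
  by_contra hq
  apply hn
  set a2 : Finset E → ℕ := fun L =>
    if IsFl K v L ∧ rk K v L = 2 then (L.erase q).card - 2 else 0 with ha2
  set a3 : Finset E → ℕ := fun P =>
    if IsFl K v P ∧ rk K v P = 3 ∧ rk K v (P.erase q) = 3 then fatB K v q P else 0 with ha3
  set B : Finset E → Finset (univ.erase q : Finset E) :=
    fun W => univ.filter (fun g => (g : E) ∈ W) with hB
  set N : ℕ := (univ.erase q : Finset E).card - 4 -
    (fatN2 K v q (univ.erase q) + fatN3 K v q (univ.erase q)) with hN
  have hM : IsMason K (fun e : (univ.erase q : Finset E) => v e) ∅ univ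
     (Sum.elim (Sum.elim (fun i : (Σ b : Finset E, Fin (a2 b)) => B i.1)
      (fun i : (Σ b : Finset E, Fin (a3 b)) => B i.1))
      (fun _ : Fin N => (univ : Finset (univ.erase q : Finset E)))) := by
    intro Z _ _
    rw [fat_cnt_sum, fat_cnt_sum, fat_cnt_sigma, fat_cnt_sigma, rk_restrict]
    set Zm : Finset E := Z.map (Function.Embedding.subtype _) with hZm
    have hcard : Z.card = Zm.card := by rw [hZm, card_map]
    have hmemZ : ∀ g : (univ.erase q : Finset E), (g : E) ∈ Zm ↔ g ∈ Z := by
      intro g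
      rw [hZm, mem_map]
      constructor
      · rintro ⟨a, ha, hag⟩
        have : a = g := Subtype.ext hag
        rwa [← this]
      · intro h
        exact ⟨g, h, rfl⟩
    have hqZ : q ∉ Zm := by
      rw [hZm, mem_map]
      rintro ⟨a, _, ha⟩
      have := a.2
      rw [mem_erase] at this
      exact this.1 ha
    have hsub : ∀ W : Finset E, B W ⊆ Z ↔ W ⊆ insert q Zm := by
      intro W
      rw [hB]
      constructor
      · intro h g hg
        rw [mem_insert]
        by_cases hgq : g = q
        · exact Or.inl hgq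
        · right
          exact (hmemZ ⟨g, mem_erase.2 ⟨hgq, mem_univ _⟩⟩).2 (h (by simpa using hg))
      · intro h g hg
        rw [mem_filter] at hg
        have h1 := (mem_insert.1 (h hg.2)).resolve_left (by
          have := g.2
          rw [mem_erase] at this
          exact this.1)
        exact (hmemZ g).1 h1
    have e2 : ∑ b ∈ univ.filter (fun b => B b ⊆ Z), a2 b = fatN2 K v q Zm := by
      unfold fatN2
      rw [ha2, ← sum_filter, filter_filter]
      apply sum_congr _ (fun _ _ => rfl)
      ext L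
      simp only [mem_filter, mem_univ, true_and, hsub]
      tauto
    have e3 : ∑ b ∈ univ.filter (fun b => B b ⊆ Z), a3 b = fatN3 K v q Zm := by
      unfold fatN3
      rw [ha3, ← sum_filter, filter_filter]
      apply sum_congr _ (fun _ _ => rfl)
      ext L
      simp only [mem_filter, mem_univ, true_and, hsub]
      tauto
    have hfl : IsFl K (fun g : (univ.erase q : Finset E) => v g) Z →
        cl K v Zm ⊆ insert q Zm := by
      intro hf g hg
      rw [mem_cl] at hg
      rw [mem_insert]
      by_cases hgq : g = q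
      · exact Or.inl hgq
      · right
        have hsp : sp K (fun g : (univ.erase q : Finset E) => v g) Z = sp K v Zm := by
          unfold sp
          congr 1
          ext x
          simp only [Set.mem_image, mem_coe]
          constructor
          · rintro ⟨g, hg, rfl⟩
            exact ⟨g, (hmemZ g).2 hg, rfl⟩
          · rintro ⟨g, hg, rfl⟩
            have hge : g ∈ (univ.erase q : Finset E) := by
              rw [mem_erase]
              refine ⟨?_, mem_univ _⟩
              rintro rfl; exact hqZ hg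
            exact ⟨⟨g, hge⟩, (hmemZ ⟨g, hge⟩).1 hg, rfl⟩
        have h1 := hf.mem (e := ⟨g, mem_erase.2 ⟨hgq, mem_univ _⟩⟩) (by rw [hsp]; exact hg)
        exact (hmemZ _).2 h1
    have hle : rk K v Zm ≤ Zm.card := rk_le_card
    have hle4 := rk_mono (K := K) (v := v) (subset_univ Zm)
    rw [e2, e3, hcard]
    have eN : cnt (fun _ : Fin N => (univ : Finset (univ.erase q : Finset E))) Z =
        if Z = univ then N else 0 := by
      unfold cnt
      by_cases h : Z = univ
      · rw [if_pos h, h]; simp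
      · rw [if_neg h]
        have : ¬ (univ : Finset (univ.erase q : Finset E)) ⊆ Z := fun h' =>
          h (Subset.antisymm (subset_univ _) h')
        rw [card_eq_zero, filter_eq_empty_iff]
        exact fun _ _ => this
    have hZu : rk K v Zm < 4 → Z ≠ univ := by
      rintro h rfl
      have : Zm = univ.erase q := by
        ext e
        rw [hZm, Finset.mem_map]
        constructor
        · rintro ⟨a, _, rfl⟩; exact a.2
        · intro h; exact ⟨⟨e, h⟩, mem_univ _, rfl⟩
      rw [this] at h
      omega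
    rw [eN]
    have hr' : rk K v Zm ≤ 1 ∨ rk K v Zm = 2 ∨ rk K v Zm = 3 ∨ rk K v Zm = 4 := by omega
    rcases hr' with h | h | h | h
    · rw [if_neg (hZu (by omega)), fatN2_zero hv h, fatN3_zero (by omega)]
      have h1 := hv.card_le_one h
      have h2 : Zm.card = rk K v Zm := by
        rcases Nat.eq_zero_or_pos Zm.card with h0 | h0
        · omega
        · have : Zm.card = 1 := by omega
          obtain ⟨e, he⟩ := card_eq_one.1 this
          rw [he, hv.rk_singleton]; simp
      exact ⟨by omega, fun _ => by omega⟩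
    · rw [if_neg (hZu (by omega)), fatN3_zero (by omega)]
      have h1 := fat_two hv hqZ h
      refine ⟨by omega, fun hf => ?_⟩
      have := h1.2 (hfl hf)
      omega
    · rw [if_neg (hZu (by omega))]
      have h1 := fat_three hv hs hqZ h
      refine ⟨by omega, fun hf => ?_⟩
      have := h1.2 (hfl hf)
      omega
    · have h1 := fat_four' hv h4 hs hq hqZ h
      by_cases hu : Z = univ
      · rw [if_pos hu]
        have : Zm = univ.erase q := by
          ext e
          rw [hZm, Finset.mem_map, hu]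
          constructor
          · rintro ⟨a, _, rfl⟩; exact a.2
          · intro h; exact ⟨⟨e, h⟩, mem_univ _, rfl⟩
        rw [this] at h1 h ⊢
        exact ⟨by omega, fun _ => by omega⟩
      · rw [if_neg hu]
        refine ⟨by omega, fun hf => ?_⟩
        exfalso
        apply hu
        have h2 : cl K v Zm = univ := by
          apply IsFl.eq_of_subset_of_rk_le isFl_cl (subset_univ _)
          rw [rk_cl]; omega
        have h3 := hfl hf
        rw [h2] at h3
        ext g
        rw [← hmemZ g]
        have h4 := mem_insert.1 (h3 (mem_univ (g : E)))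
        have h5 := g.2
        rw [mem_erase] at h5
        simp only [mem_univ, iff_true]
        exact h4.resolve_left h5.1
  exact hM.sg

end Ca3
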