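import Pool.Agent.Lib.MP_ca3eb1_co.E3
import Pool.Agent.Lib.MP_ca3eb1_co.Fat

/-! # Module W4: a non-gammoid hyperplane in rank 5 gives a hole -/

set_option linter.unusedSectionVars false

namespace Ca3

open Finset Submodule

section transport

variable {K V V' E E' : Type*} [Field K] [AddCommGroup V] [Module K V] [FiniteDimensional K V]
  [AddCommGroup V'] [Module K V'] [FiniteDimensional K V'] [Fintype E] [DecidableEq E]
  [Fintype E'] [DecidableEq E']

/-- the strict gammoid property depends only on the rank function -/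
theorem h5_SG_of_rk {v : E → V} {v' : E → V'} (h : ∀ Z, rk K v Z = rk K v' Z)
    (hs : SG K v ∅ univ) : SG K v' ∅ univ := by
  obtain ⟨n, A, hA⟩ := hs
  refine ⟨n, A, fun Z hY hZ => ?_⟩
  have hfl : IsFl K v' Z → IsFl K v Z := by
    intro hZ'
    apply subset_antisymm _ subset_cl
    intro e he
    rw [mem_cl, ← rk_insert_eq_iff, h, h, rk_insert_eq_iff] at he
    exact hZ'.mem he
  rw [← h Z]
  exact ⟨(hA Z hY hZ).1, fun h' => (hA Z hY hZ).2 (hfl h')⟩

theorem h5_sp_equiv {v : E → V} (σ : E' ≃ E) (Z : Finset E') :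
    sp K (fun e => v (σ e)) Z = sp K v (Z.map σ.toEmbedding) := by
  unfold sp
  congr 1
  ext y
  constructor
  · rintro ⟨z, hz, rfl⟩
    exact ⟨σ z, by simpa using hz, rfl⟩
  · rintro ⟨e, he, rfl⟩
    obtain ⟨z, hz, rfl⟩ := Finset.mem_map.1 (mem_coe.1 he)
    exact ⟨z, hz, rfl⟩

/-- the strict gammoid property is invariant under bijections of the ground set -/
theorem h5_SG_equiv {v : E → V} (σ : E' ≃ E) (hs : SG K v ∅ univ) :
    SG K (fun e => v (σ e)) ∅ univ := by
  obtain ⟨n, A, hA⟩ := hs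
  refine ⟨n, fun i => (A i).map σ.symm.toEmbedding, fun Z _ _ => ?_⟩
  have hrk : rk K (fun e => v (σ e)) Z = rk K v (Z.map σ.toEmbedding) := by
    unfold rk
    rw [h5_sp_equiv]
  have hcnt : cnt (fun i => (A i).map σ.symm.toEmbedding) Z = cnt A (Z.map σ.toEmbedding) := by
    unfold cnt
    congr 1
    ext i
    simp only [mem_filter, mem_univ, true_and]
    constructor
    · intro h e he
      have := h (mem_map_of_mem σ.symm.toEmbedding he)
      exact mem_map.2 ⟨σ.symm e, this, by simp⟩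
    · intro h e he
      obtain ⟨e', he', rfl⟩ := mem_map.1 he
      obtain ⟨z, hz, hz'⟩ := mem_map.1 (h he')
      simp only [Equiv.coe_toEmbedding] at hz' ⊢
      rw [← hz']
      simpa using hz
  have hfl : IsFl K (fun e => v (σ e)) Z → IsFl K v (Z.map σ.toEmbedding) := by
    intro hZ
    apply subset_antisymm _ subset_cl
    intro e he
    have h1 : σ.symm e ∈ Z := by
      apply hZ.mem
      rw [h5_sp_equiv]
      simpa using mem_cl.1 he
    exact mem_map.2 ⟨σ.symm e, h1, by simp⟩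
  rw [hcnt, hrk, ← card_map σ.toEmbedding (s := Z)]
  have := hA (Z.map σ.toEmbedding) (empty_subset _) (subset_univ _)
  exact ⟨this.1, fun h => this.2 (hfl h)⟩

end transport

section full

variable {K V E : Type*} [Field K] [AddCommGroup V] [Module K V]
  [FiniteDimensional K V] [Fintype E] [DecidableEq E] {v : E → V}

/-- two lines through `q` and a point outside their plane (in a contraction of rank 4) -/
theorem h5_two_full (hv : Simple K v) (h5 : rk K v univ = 5) {F : Finset E} (hF : IsFl K v F)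
    {x : E} (hx : x ∉ F) {S : Finset E} (hw : Simple K (qc K v {x} S))
    (hS4 : rk K (qc K v {x} S) univ = 4) {q : S} (hqF : (q : E) ∉ F)
    {p : V} (hp : p ∈ sp K v F) (hpq : v q - p ∈ span K {v x})
    {L L' : Finset S} (hL : IsFl K (qc K v {x} S) L) (hL2 : rk K (qc K v {x} S) L = 2)
    (hL' : IsFl K (qc K v {x} S) L') (hL2' : rk K (qc K v {x} S) L' = 2) (hne : L ≠ L')
    (hqL : q ∈ L) (hqL' : q ∈ L') {f1 f2 g1 g2 : S} (hf1 : f1 ∈ L) (hf2 : f2 ∈ L)
    (hf : f1 ≠ f2) (hg1 : g1 ∈ L') (hg2 : g2 ∈ L') (hg : g1 ≠ g2) (hf1F : (f1 : E) ∈ F)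
    (hf2F : (f2 : E) ∈ F) (hg1F : (g1 : E) ∈ F) (hg2F : (g2 : E) ∈ F) :
    ∃ (X1 X2 X3 : Finset E),
      p ∈ sp K v X1 ∧ p ∈ sp K v X2 ∧ p ∈ sp K v X3 ∧
      rk K v (X1 ∪ X2 ∪ X3) + 2 = rk K v X1 + rk K v X2 + rk K v X3 := by
  have hxs : rk K v {x} = 1 := hv.rk_singleton
  have hspL : ∀ {M : Finset S} {a b : S}, rk K (qc K v {x} S) M = 2 → a ∈ M → b ∈ M → a ≠ b →
      sp K (qc K v {x} S) {a, b} = sp K (qc K v {x} S) M := by
    intro M a b hM ha hb hab
    apply sp_eq_of_subset_of_rk_le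
    · intro c hc
      rcases mem_insert.1 hc with rfl | hc
      · exact ha
      · rw [mem_singleton.1 hc]; exact hb
    · rw [hM, hw.rk_pair hab]
  have hpf : ∀ {M : Finset S} {a b : S}, rk K (qc K v {x} S) M = 2 → a ∈ M → b ∈ M → a ≠ b →
      q ∈ M → (a : E) ∈ F → (b : E) ∈ F → p ∈ sp K v {(a : E), (b : E)} := by
    intro M a b hM ha hb hab hqM haF hbF
    have h1 : qc K v {x} S q ∈ sp K (qc K v {x} S) {a, b} := by
      rw [hspL hM ha hb hab]
      exact mem_sp hqM
    rw [mem_sp_qc, sp_union, sp_singleton, Submodule.mem_sup] at h1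
    obtain ⟨y, hy, z, hz, hyz⟩ := h1
    have hy' : y ∈ sp K v {(a : E), (b : E)} := by
      convert hy using 2
      ext c
      simp
    have hyF : y ∈ sp K v F := by
      refine sp_mono ?_ hy'
      intro c hc
      rcases mem_insert.1 hc with rfl | hc
      · exact haF
      · rw [mem_singleton.1 hc]; exact hbF
    have h2 : p - y ∈ span K {v x} := by
      have : p - y = z - (v q - p) := by rw [← hyz]; abel
      rw [this]
      exact sub_mem hz hpq
    obtain ⟨c, hc⟩ := mem_span_singleton.1 h2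
    by_cases hc0 : c = 0
    · rw [hc0, zero_smul] at hc
      have : p = y := (sub_eq_zero.1 hc.symm)
      rw [this]; exact hy'
    · exfalso
      apply hx
      apply hF.mem
      have h3 : v x = c⁻¹ • (p - y) := by rw [← hc, smul_smul, inv_mul_cancel₀ hc0, one_smul]
      rw [h3]
      exact smul_mem _ _ (sub_mem hp hyF)
  have hplane : rk K (qc K v {x} S) (L ∪ L') = 3 := by
    apply le_antisymm
    · have h1 := rk_union_add_rk_inter (K := K) (v := qc K v {x} S) (X := L) (Y := L')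
      have h2 : 1 ≤ rk K (qc K v {x} S) (L ∩ L') := by
        rw [← hw.rk_singleton (e := q)]
        exact rk_mono (singleton_subset_iff.2 (mem_inter.2 ⟨hqL, hqL'⟩))
      omega
    · by_contra hc
      apply hne
      have h1 := hL.cl_eq (X := L) (by rfl) le_rfl
      have e1 : cl K (qc K v {x} S) (L ∪ L') = L := by
        symm
        apply hL.eq_of_subset_of_rk_le (subset_union_left.trans subset_cl)
        rw [rk_cl]; omega
      have e2 : cl K (qc K v {x} S) (L ∪ L') = L' := by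
        symm
        apply hL'.eq_of_subset_of_rk_le (subset_union_right.trans subset_cl)
        rw [rk_cl]; omega
      rw [← e1, e2]
  obtain ⟨q', hq'⟩ : ∃ q' : S, qc K v {x} S q' ∉ sp K (qc K v {x} S) (L ∪ L') := by
    by_contra hc
    push Not at hc
    have : rk K (qc K v {x} S) univ ≤ rk K (qc K v {x} S) (L ∪ L') :=
      rk_le_of_sp_le (sp_le_iff.2 fun e _ => hc e)
    omega
  have hqq : q ≠ q' := by
    rintro rfl
    exact hq' (mem_sp (mem_union_left _ hqL))
  refine ⟨{(q : E), (q' : E), x}, {(f1 : E), (f2 : E)}, {(g1 : E), (g2 : E)}, ?_,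
    hpf hL2 hf1 hf2 hf hqL hf1F hf2F, hpf hL2' hg1 hg2 hg hqL' hg1F hg2F, ?_⟩
  · have h1 : p = v q - (v q - p) := by abel
    rw [h1]
    refine sub_mem (mem_sp (by simp)) ?_
    have : sp K v {x} ≤ sp K v {(q : E), (q' : E), x} := sp_mono (by simp)
    apply this
    rwa [sp_singleton]
  · have r2 : rk K v {(f1 : E), (f2 : E)} = 2 := hv.rk_pair fun h => hf (Subtype.ext h)
    have r3 : rk K v {(g1 : E), (g2 : E)} = 2 := hv.rk_pair fun h => hg (Subtype.ext h)
    have r1 : rk K v {(q : E), (q' : E), x} = 3 := by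
      have := rk_qc (K := K) (v := v) (Y := {x}) ({q, q'} : Finset S)
      rw [hw.rk_pair hqq, hxs] at this
      rw [show (3 : ℕ) = 2 + 1 by rfl, this]
      congr 1
      ext c
      simp
    have r4 : rk K v ({(q : E), (q' : E), x} ∪ {(f1 : E), (f2 : E)} ∪ {(g1 : E), (g2 : E)}) = 5 := by
      apply le_antisymm
      · rw [← h5]; exact rk_mono (subset_univ _)
      · have h1 := rk_qc (K := K) (v := v) (Y := {x}) ({q, q', f1, f2, g1, g2} : Finset S)
        have h2 : 4 ≤ rk K (qc K v {x} S) ({q, q', f1, f2, g1, g2} : Finset S) := by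
          have h3 := rk_insert_of_not_mem_sp hq'
          rw [hplane] at h3
          refine h3.symm.le.trans (rk_le_of_sp_le ?_)
          rw [sp_le_iff]
          intro e he
          rcases mem_insert.1 he with rfl | he
          · exact mem_sp (by simp)
          · rcases mem_union.1 he with he | he
            · have h4 : qc K v {x} S e ∈ sp K (qc K v {x} S) {f1, f2} := by
                rw [hspL hL2 hf1 hf2 hf]; exact mem_sp he
              refine sp_mono ?_ h4
              intro c hc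
              simp only [mem_insert, mem_singleton] at hc ⊢
              tauto
            · have h4 : qc K v {x} S e ∈ sp K (qc K v {x} S) {g1, g2} := by
                rw [hspL hL2' hg1 hg2 hg]; exact mem_sp he
              refine sp_mono ?_ h4
              intro c hc
              simp only [mem_insert, mem_singleton] at hc ⊢
              tauto
        rw [hxs] at h1
        have h5 : rk K v (({q, q', f1, f2, g1, g2} : Finset S).map
            (Function.Embedding.subtype _) ∪ {x}) ≤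
            rk K v ({(q : E), (q' : E), x} ∪ {(f1 : E), (f2 : E)} ∪ {(g1 : E), (g2 : E)}) := by
          apply rk_mono
          intro c hc
          simp only [mem_union, Finset.mem_map, mem_insert, mem_singleton] at hc ⊢
          rcases hc with ⟨d, hd, rfl⟩ | hc
          · rcases hd with rfl | rfl | rfl | rfl | rfl | rfl <;> simp
          · tauto
        omega
    omega

end full

variable {K V E : Type*} [Field K] [Fintype K] [AddCommGroup V] [Module K V]
  [FiniteDimensional K V] [Fintype E] [DecidableEq E] {v : E → V}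

theorem hole_five (hK : Fintype.card K = 4) (hv : Simple K v) (h5 : rk K v univ = 5)
    (hs : ∀ x, SG K v {x} univ) {F : Finset E} (hF : IsFl K v F) (hF4 : rk K v F = 4)
    (hn : ¬ SG K v ∅ F) (hp : ∀ P, IsFl K v P → P ⊆ F → P ≠ F → SG K v ∅ P) :
    ∃ (X1 X2 X3 : Finset E) (p : V), (∀ e, p ∉ span K {v e}) ∧
      p ∈ sp K v X1 ∧ p ∈ sp K v X2 ∧ p ∈ sp K v X3 ∧
      rk K v (X1 ∪ X2 ∪ X3) + 2 = rk K v X1 + rk K v X2 + rk K v X3 := by
  -- the centre `x`
  obtain ⟨x, hx⟩ : ∃ x, x ∉ F := by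
    by_contra hc
    push Not at hc
    have : F = univ := eq_univ_of_forall hc
    rw [this, h5] at hF4
    omega
  have hxF : v x ∉ sp K v F := fun h => hx (hF.mem h)
  have hxs : rk K v {x} = 1 := hv.rk_singleton
  -- representatives
  obtain ⟨R, hFR, hR⟩ : ∃ R, F ⊆ R ∧ IsReps K v {x} univ R := by
    apply exists_reps (subset_univ _)
    · intro r hr h
      rw [sp_singleton] at h
      have := hv.2 r x h
      rw [this] at hr
      exact hx hr
    · intro r hr s hs' h
      by_contra hne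
      apply hxF
      have h1 : v r ∉ sp K v ({s} : Finset E) := by
        rw [sp_singleton]
        exact fun h' => hne (hv.2 r s h')
      have h2 : v r ∈ sp K v (insert x ({s} : Finset E)) := by
        rwa [Finset.pair_comm] at h
      have h3 := mem_sp_insert_exchange h2 h1
      refine sp_mono ?_ h3
      intro c hc
      rcases mem_insert.1 hc with rfl | hc
      · exact hr
      · rw [mem_singleton.1 hc]; exact hs'
  have hSGR : SG K (qc K v {x} R) ∅ univ :=
    transfer_SG hR isFl_univ (subset_univ _) (hs x)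
  -- a minimal set `S`
  obtain ⟨S, hS, hmin⟩ : ∃ S : Finset E, (F ⊆ S ∧ S ⊆ R ∧ SG K (qc K v {x} S) ∅ univ) ∧
      ∀ S' : Finset E, (F ⊆ S' ∧ S' ⊆ R ∧ SG K (qc K v {x} S') ∅ univ) → S.card ≤ S'.card := by
    classical
    obtain ⟨S, hS1, hS2⟩ := ((univ : Finset (Finset E)).filter
      (fun S => F ⊆ S ∧ S ⊆ R ∧ SG K (qc K v {x} S) ∅ univ)).exists_min_image card
      ⟨R, mem_filter.2 ⟨mem_univ _, hFR, subset_rfl, hSGR⟩⟩
    refine ⟨S, (mem_filter.1 hS1).2, fun S' hS' => hS2 S' (mem_filter.2 ⟨mem_univ _, hS'⟩)⟩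
  obtain ⟨hFS, hSR, hSG⟩ := hS
  have hw : Simple K (qc K v {x} S) := by
    have := qc_simple hR
    refine ⟨fun e => this.1 ⟨e, hSR e.2⟩, fun e f hef => ?_⟩
    have h1 := this.2 ⟨e, hSR e.2⟩ ⟨f, hSR f.2⟩ hef
    exact Subtype.ext (congrArg (fun z : R => (z : E)) h1)
  have hrkF : ∀ (S' : Finset E) (Z : Finset S'), (∀ z ∈ Z, (z : E) ∈ F) →
      rk K (qc K v {x} S') Z = rk K v (Z.map (Function.Embedding.subtype _)) := by
    intro S' Z hZ
    have h1 := rk_qc (K := K) (v := v) (Y := {x}) Z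
    have h2 : v x ∉ sp K v (Z.map (Function.Embedding.subtype _)) := by
      intro h
      apply hxF
      refine sp_mono ?_ h
      intro c hc
      obtain ⟨z, hz, rfl⟩ := Finset.mem_map.1 hc
      exact hZ z hz
    have h3 := rk_insert_of_not_mem_sp h2
    rw [union_comm, ← insert_eq, h3, hxs] at h1
    omega
  have hle4 : ∀ (S' : Finset E) (Z : Finset S'), rk K (qc K v {x} S') Z ≤ 4 := by
    intro S' Z
    have h1 := rk_qc (K := K) (v := v) (Y := {x}) Z
    have h2 : rk K v (Z.map (Function.Embedding.subtype _) ∪ {x}) ≤ rk K v univ :=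
      rk_mono (subset_univ _)
    omega
  have hge4 : ∀ (S' : Finset E) (Z : Finset S'), (∀ e (he : e ∈ S'), e ∈ F → ⟨e, he⟩ ∈ Z) →
      F ⊆ S' → rk K (qc K v {x} S') Z = 4 := by
    intro S' Z hZ hFS'
    apply le_antisymm (hle4 S' Z)
    have h1 := hrkF S' (Z.filter (fun z : S' => (z : E) ∈ F)) (fun z hz => (mem_filter.1 hz).2)
    have h2 : (Z.filter (fun z : S' => (z : E) ∈ F)).map (Function.Embedding.subtype _) = F := by
      ext e
      simp only [Finset.mem_map, mem_filter, Function.Embedding.subtype_apply]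
      constructor
      · rintro ⟨z, ⟨-, hz⟩, rfl⟩; exact hz
      · intro he
        exact ⟨⟨e, hFS' he⟩, ⟨hZ e _ he, he⟩, rfl⟩
    rw [h2, hF4] at h1
    rw [← h1]
    exact rk_mono (filter_subset _ _)
  have hS4 : rk K (qc K v {x} S) univ = 4 := hge4 S univ (fun _ _ _ => mem_univ _) hFS
  -- `S` is not `F`
  have hSF : S ≠ F := by
    rintro rfl
    apply hn
    apply SG_of_restrict hF (empty_subset _)
    have : tr S ∅ = ∅ := by simp [tr]
    rw [this]
    apply h5_SG_of_rk _ hSG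
    intro Z
    rw [hrkF S Z (fun z _ => z.2), rk_restrict]
  -- every element of `S \ F` is fat
  have hfat : ∀ q : S, (q : E) ∉ F → Fat K (qc K v {x} S) q := by
    intro q hq
    apply fat_of_not_SG hw hS4 hSG
    · apply hge4 S _ _ hFS
      intro e he heF
      rw [mem_erase]
      refine ⟨fun h => hq ?_, mem_univ _⟩
      rw [← h]; exact heF
    · intro hsg
      have h1 : SG K (qc K v {x} (S.erase q)) ∅ univ := by
        let σ : (S.erase (q : E) : Finset E) ≃ (univ.erase q : Finset S) :=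
          { toFun := fun e => ⟨⟨e, mem_of_mem_erase e.2⟩, mem_erase.2
              ⟨fun h => (mem_erase.1 e.2).1 (congrArg Subtype.val h), mem_univ _⟩⟩
            invFun := fun e => ⟨e.1.1, mem_erase.2
              ⟨fun h => (mem_erase.1 e.2).1 (Subtype.ext h), e.1.2⟩⟩
            left_inv := fun e => rfl
            right_inv := fun e => rfl }
        have h2 := h5_SG_equiv (K := K)
          (v := fun e : (univ.erase q : Finset S) => qc K v {x} S e) σ hsg
        exact h2
      have h2 := hmin (S.erase q) ⟨fun e he => mem_erase.2 ⟨fun h => hq (h ▸ he), hFS he⟩,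
        (erase_subset _ _).trans hSR, h1⟩
      have h3 := card_erase_lt_of_mem q.2
      omega
  -- the point `p`
  have hpt : ∀ q : S, (q : E) ∉ F → ∃ p ∈ sp K v F, v q - p ∈ span K {v x} ∧
      ∀ e, p ∉ span K {v e} := by
    intro q hq
    have h1 : sp K v (insert x F) = sp K v univ := by
      apply sp_eq_of_subset_of_rk_le (subset_univ _)
      rw [rk_insert_of_not_mem_sp hxF, hF4, h5]
    have h2 : v q ∈ sp K v (insert x F) := by
      rw [h1]; exact mem_sp (mem_univ _)
    rw [sp_insert, Submodule.mem_sup] at h2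
    obtain ⟨y, hy, z, hz, hyz⟩ := h2
    have hyq : v q - z = y := by rw [← hyz]; abel
    refine ⟨z, hz, by rw [hyq]; exact hy, ?_⟩
    intro e he
    have hqx : v q ∉ sp K v {x} := hR.not_mem q (hSR q.2)
    have hz0 : z ≠ 0 := by
      rintro rfl
      apply hqx
      rw [sp_singleton]
      rw [sub_zero] at hyq
      rw [hyq]
      exact hy
    obtain ⟨c, hc⟩ := mem_span_singleton.1 he
    have hc0 : c ≠ 0 := by
      rintro rfl
      rw [zero_smul] at hc
      exact hz0 hc.symm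
    have heF : e ∈ F := by
      apply hF.mem
      have : v e = c⁻¹ • z := by rw [← hc, smul_smul, inv_mul_cancel₀ hc0, one_smul]
      rw [this]
      exact smul_mem _ _ hz
    have h3 : v q ∈ sp K v (insert e {x}) := by
      rw [← hyz]
      refine add_mem ?_ ?_
      · have : sp K v {x} ≤ sp K v (insert e {x}) := sp_mono (subset_insert _ _)
        apply this
        rwa [sp_singleton]
      · rw [← hc]
        exact smul_mem _ _ (mem_sp (mem_insert_self _ _))
    have h4 := hR.uniq q (hSR q.2) e (hFR heF) h3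
    rw [h4] at hq
    exact hq heF
  by_cases hfull : ∃ q : S, (q : E) ∉ F ∧ ∃ L L' : Finset S, L ≠ L' ∧
      IsFl K (qc K v {x} S) L ∧ rk K (qc K v {x} S) L = 2 ∧
      IsFl K (qc K v {x} S) L' ∧ rk K (qc K v {x} S) L' = 2 ∧ q ∈ L ∧ q ∈ L' ∧
      (∃ f1 ∈ L, ∃ f2 ∈ L, f1 ≠ f2 ∧ (f1 : E) ∈ F ∧ (f2 : E) ∈ F) ∧
      (∃ f1 ∈ L', ∃ f2 ∈ L', f1 ≠ f2 ∧ (f1 : E) ∈ F ∧ (f2 : E) ∈ F)
  · obtain ⟨q, hq, L, L', hne, hL, hL2, hL', hL2', hqL, hqL', ⟨f1, hf1, f2, hf2, hf, hf1F, hf2F⟩,
      ⟨g1, hg1, g2, hg2, hg, hg1F, hg2F⟩⟩ := hfull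
    obtain ⟨p, hpF, hpq, hpe⟩ := hpt q hq
    obtain ⟨X1, X2, X3, h⟩ := h5_two_full hv h5 hF hx hw hS4 hq hpF hpq hL hL2 hL' hL2' hne
      hqL hqL' hf1 hf2 hf hg1 hg2 hg hf1F hf2F hg1F hg2F
    exact ⟨X1, X2, X3, p, hpe, h⟩
  · exfalso
    obtain ⟨q0, hq0S, hq0F⟩ : ∃ q ∈ S, q ∉ F := by
      by_contra hc
      push Not at hc
      exact hSF (subset_antisymm hc hFS)
    obtain ⟨L1, L2, L3, h1, h2, h3, q1, q2, q3, hr⟩ := hfat ⟨q0, hq0S⟩ hq0F
    -- the lines are different
    have hne : ∀ {A B C : Finset S}, HL K (qc K v {x} S) A → HL K (qc K v {x} S) C →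
        (⟨q0, hq0S⟩ : S) ∈ A → (⟨q0, hq0S⟩ : S) ∈ C →
        A ∪ B ∪ C = A ∪ C → rk K (qc K v {x} S) (A ∪ B ∪ C) = 4 → False := by
      intro A B C hA hC hqA hqC he hr'
      rw [he] at hr'
      have h1 := rk_union_add_rk_inter (K := K) (v := qc K v {x} S) (X := A) (Y := C)
      have h2 : 1 ≤ rk K (qc K v {x} S) (A ∩ C) := by
        rw [← hw.rk_singleton (e := (⟨q0, hq0S⟩ : S))]
        exact rk_mono (singleton_subset_iff.2 (mem_inter.2 ⟨hqA, hqC⟩))
      have := hA.2.1
      have := hC.2.1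
      omega
    have h12 : L1 ≠ L2 := by
      rintro rfl
      exact hne (B := L1) h1 h3 q1 q3 (by simp) hr
    have h23 : L2 ≠ L3 := by
      rintro rfl
      exact hne (B := L2) h1 h2 q1 q2 (by rw [union_assoc, union_self]) hr
    have h13 : L1 ≠ L3 := by
      rintro rfl
      exact hne (A := L2) (B := L1) (C := L1) h2 h1 q2 q1 (by rw [union_assoc, union_self])
        (by rw [union_assoc, union_self, union_comm]; rwa [union_right_comm, union_self] at hr)
    -- a non-full line contains another element outside `F`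
    have hother : ∀ A : Finset S, HL K (qc K v {x} S) A → (⟨q0, hq0S⟩ : S) ∈ A →
        ¬ (∃ f1 ∈ A, ∃ f2 ∈ A, f1 ≠ f2 ∧ (f1 : E) ∈ F ∧ (f2 : E) ∈ F) →
        ∃ r ∈ A, r ≠ ⟨q0, hq0S⟩ ∧ (r : E) ∉ F := by
      intro A hA hqA hnf
      by_contra hc
      push Not at hc
      apply hnf
      have h3' := hA.2.2
      have : 1 < (A.erase ⟨q0, hq0S⟩).card := by
        rw [card_erase_of_mem hqA]; omega
      obtain ⟨a, ha, b, hb, hab⟩ := Finset.one_lt_card.1 this
      rw [mem_erase] at ha hb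
      exact ⟨a, ha.2, b, hb.2, hab, hc a ha.2 ha.1, hc b hb.2 hb.1⟩
    have hfin : ∀ A B : Finset S, HL K (qc K v {x} S) A → HL K (qc K v {x} S) B → A ≠ B →
        (⟨q0, hq0S⟩ : S) ∈ A → (⟨q0, hq0S⟩ : S) ∈ B →
        ¬ (∃ f1 ∈ A, ∃ f2 ∈ A, f1 ≠ f2 ∧ (f1 : E) ∈ F ∧ (f2 : E) ∈ F) →
        ¬ (∃ f1 ∈ B, ∃ f2 ∈ B, f1 ≠ f2 ∧ (f1 : E) ∈ F ∧ (f2 : E) ∈ F) → False := by
      intro A B hA hB hAB hqA hqB hnA hnB
      obtain ⟨r, hrA, hrq, hrF⟩ := hother A hA hqA hnA
      obtain ⟨s, hsB, hsq, hsF⟩ := hother B hB hqB hnB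
      exact no_three_fat hK hw hS4 hSG (hfat ⟨q0, hq0S⟩ hq0F) (hfat r hrF) (hfat s hsF)
        hA hB hAB hqA hrA hqB hsB hrq hsq
    have hpair : ∀ A B : Finset S, HL K (qc K v {x} S) A → HL K (qc K v {x} S) B → A ≠ B →
        (⟨q0, hq0S⟩ : S) ∈ A → (⟨q0, hq0S⟩ : S) ∈ B →
        (∃ f1 ∈ A, ∃ f2 ∈ A, f1 ≠ f2 ∧ (f1 : E) ∈ F ∧ (f2 : E) ∈ F) →
        (∃ f1 ∈ B, ∃ f2 ∈ B, f1 ≠ f2 ∧ (f1 : E) ∈ F ∧ (f2 : E) ∈ F) → False := by
      intro A B hA hB hAB hqA hqB hfA hfB
      exact hfull ⟨⟨q0, hq0S⟩, hq0F, A, B, hAB, hA.1, hA.2.1, hB.1, hB.2.1, hqA, hqB, hfA, hfB⟩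
    by_cases f1 : ∃ f1 ∈ L1, ∃ f2 ∈ L1, f1 ≠ f2 ∧ (f1 : E) ∈ F ∧ (f2 : E) ∈ F
    · have f2 := fun h => hpair L1 L2 h1 h2 h12 q1 q2 f1 h
      have f3 := fun h => hpair L1 L3 h1 h3 h13 q1 q3 f1 h
      exact hfin L2 L3 h2 h3 h23 q2 q3 f2 f3
    · by_cases f2 : ∃ f1 ∈ L2, ∃ f2 ∈ L2, f1 ≠ f2 ∧ (f1 : E) ∈ F ∧ (f2 : E) ∈ F
      · have f3 := fun h => hpair L2 L3 h2 h3 h23 q2 q3 f2 h
        exact hfin L1 L3 h1 h3 h13 q1 q3 f1 f3
      · exact hfin L1 L2 h1 h2 h12 q1 q2 f1 f2

end Ca3
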