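import Pool.Agent.Lib.MP_ca3eb1_co.Reps

/-! # Transfer (Module M2b): Mason families in the contraction -/

set_option linter.unusedSectionVars false

namespace Ca3

open Finset Submodule

variable {K V E : Type*} [Field K] [AddCommGroup V] [Module K V] [FiniteDimensional K V]
  [Fintype E] [DecidableEq E] {v : E → V} {Y T R F Z : Finset E}

private lemma tf_rank_one (h : IsReps K v Y T R) {z : E} (hz : z ∈ R) :
    rk K v (cl K v (insert z Y)) = rk K v Y + 1 := by
  rw [rk_cl, rk_insert_of_not_mem_sp (h.not_mem z hz)]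

/-- a flat containing `Y` in `cl (insert z Y)` -/
private lemma tf_flat_le {G : Finset E} (hG : IsFl K v G) (hYG : Y ⊆ G) {z : E}
    (hGz : G ⊆ cl K v (insert z Y)) : G ⊆ cl K v Y ∨ G = cl K v (insert z Y) := by
  by_cases hr : rk K v G ≤ rk K v Y
  · left
    rw [hG.cl_eq hYG hr]
  · right
    apply hG.eq_of_subset_of_rk_le hGz
    rw [rk_cl]
    have : rk K v (insert z Y) ≤ rk K v Y + 1 := rk_insert_le
    omega

private lemma tf_cnt_line (h : IsReps K v Y T R) {ι : Type*} [Fintype ι]
    {B : ι → Finset E} (hB : ∀ i, IsFl K v (B i)) (hYB : ∀ i, Y ⊆ B i) {z : E} (hz : z ∈ R) :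
    cnt B (cl K v (insert z Y)) =
      cnt B (cl K v Y) + (univ.filter fun i => B i = cl K v (insert z Y)).card := by
  classical
  unfold cnt
  rw [← card_union_of_disjoint]
  · congr 1
    ext i
    simp only [mem_filter, mem_univ, true_and, mem_union]
    constructor
    · exact tf_flat_le (hB i) (hYB i)
    · rintro (h' | h')
      · exact h'.trans (cl_mono (subset_insert _ _))
      · exact h'.subset
  · rw [disjoint_left]
    intro i hi hi'
    simp only [mem_filter, mem_univ, true_and] at hi hi'
    have h1 : z ∈ cl K v Y := hi (hi' ▸ subset_cl (mem_insert_self _ _))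
    exact h.not_mem z hz (mem_cl.1 h1)

/-- Lemma S: the Mason family of the simplification of `N / Y` restricted to a flat `T`. -/
theorem transfer (h : IsReps K v Y T R) (hT : IsFl K v T) (hYT : Y ⊆ T) {ι : Type*} [Fintype ι]
    {A : ι → Finset E} (hA : IsMason K v Y T A) :
    IsMason K (qc K v Y R) ∅ univ
      (fun i : BigIdx K v Y T A => tr R (cl K v (A i.1 ∪ Y))) := by
  classical
  intro Z' _ _
  have hB := hA.closure
  set B : ι → Finset E := fun i => cl K v (A i ∪ Y) with hBdef
  have hBfl : ∀ i, IsFl K v (B i) := fun i => isFl_cl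
  have hYB : ∀ i, Y ⊆ B i := fun i => subset_union_right.trans subset_cl
  have hclT : cl K v Y ⊆ T := hT.cl_subset hYT
  have hzT : ∀ z ∈ R, cl K v (insert z Y) ⊆ T := fun z hz =>
    hT.cl_subset (insert_subset (h.sub hz) hYT)
  -- the set of all elements over `Z'`
  set Z : Finset E := T.filter
    (fun e => v e ∈ sp K v Y ∨ ∃ z ∈ Z', v e ∈ sp K v (insert (z : E) Y)) with hZdef
  have hmemZ : ∀ e, e ∈ Z ↔ e ∈ cl K v Y ∨ ∃ z ∈ Z', e ∈ cl K v (insert (z : E) Y) := by
    intro e
    rw [hZdef, mem_filter]
    constructor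
    · rintro ⟨_, h1 | ⟨z, hz, h1⟩⟩
      · exact Or.inl (mem_cl.2 h1)
      · exact Or.inr ⟨z, hz, mem_cl.2 h1⟩
    · rintro (h1 | ⟨z, hz, h1⟩)
      · exact ⟨hclT h1, Or.inl (mem_cl.1 h1)⟩
      · exact ⟨hzT z z.2 h1, Or.inr ⟨z, hz, mem_cl.1 h1⟩⟩
  have hZT : Z ⊆ T := filter_subset _ _
  have hYZ : Y ⊆ Z := fun e he => (hmemZ e).2 (Or.inl (subset_cl he))
  -- rank of `Z`
  have hspZ : sp K v (Z'.map (Function.Embedding.subtype _) ∪ Y) = sp K v Z := by
    apply le_antisymm
    · apply sp_mono
      apply union_subset _ hYZ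
      intro e he
      obtain ⟨z, hz, rfl⟩ := mem_map.1 he
      exact (hmemZ _).2 (Or.inr ⟨z, hz, subset_cl (mem_insert_self _ _)⟩)
    · rw [sp_le_iff]
      intro e he
      rcases (hmemZ e).1 he with h1 | ⟨z, hz, h1⟩
      · exact sp_mono subset_union_right (mem_cl.1 h1)
      · refine sp_mono ?_ (mem_cl.1 h1)
        exact insert_subset (mem_union_left _ (mem_map_of_mem (Function.Embedding.subtype _) hz))
          subset_union_right
  have hrkZ : rk K (qc K v Y R) Z' + rk K v Y = rk K v Z := by
    rw [rk_qc]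
    exact rk_congr hspZ
  -- uniqueness of the representative
  have huniq : ∀ e, e ∉ cl K v Y → ∀ z z' : R, e ∈ cl K v (insert (z : E) Y) →
      e ∈ cl K v (insert (z' : E) Y) → z = z' := by
    intro e he z z' h1 h2
    rw [mem_cl] at he h1 h2
    apply Subtype.ext
    apply h.uniq z z.2 z' z'.2
    have h3 := mem_sp_insert_exchange h1 he
    refine (sp_le_iff.2 ?_) h3
    intro f hf
    rcases mem_insert.1 hf with rfl | hf
    · exact h2
    · exact mem_sp (mem_insert_of_mem hf)
  -- cardinality of `Z`
  have hcard : Z.card = (cl K v Y).card +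
      ∑ z ∈ Z', (cl K v (insert (z : E) Y) \ cl K v Y).card := by
    have h1 : Z = cl K v Y ∪ Z'.biUnion (fun z => cl K v (insert (z : E) Y) \ cl K v Y) := by
      ext e
      rw [hmemZ, mem_union, mem_biUnion]
      constructor
      · rintro (h1 | ⟨z, hz, h1⟩)
        · exact Or.inl h1
        · by_cases h2 : e ∈ cl K v Y
          · exact Or.inl h2
          · exact Or.inr ⟨z, hz, mem_sdiff.2 ⟨h1, h2⟩⟩
      · rintro (h1 | ⟨z, hz, h1⟩)
        · exact Or.inl h1
        · exact Or.inr ⟨z, hz, (mem_sdiff.1 h1).1⟩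
    rw [h1, card_union_of_disjoint, card_biUnion]
    · intro z _ z' _ hne
      refine disjoint_left.2 ?_
      intro e he he'
      exact hne (huniq e (mem_sdiff.1 he).2 z z' (mem_sdiff.1 he).1 (mem_sdiff.1 he').1)
    · rw [disjoint_left]
      intro e he he'
      obtain ⟨z, _, h2⟩ := mem_biUnion.1 he'
      exact (mem_sdiff.1 h2).2 he
  -- number of members with closure a point over `Y`
  have hP : ∀ z ∈ R, (univ.filter fun i => B i = cl K v (insert z Y)).card + 1 =
      (cl K v (insert z Y) \ cl K v Y).card := by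
    intro z hz
    have h1 := tf_cnt_line h hBfl hYB hz
    have h2 := hB.eq ((subset_insert z Y).trans subset_cl) (hzT z hz) isFl_cl
    have h3 := hB.eq subset_cl hclT (isFl_cl (K := K) (v := v) (X := Y))
    have h4 := tf_rank_one h hz
    have h5 : rk K v (cl K v Y) = rk K v Y := rk_cl
    have h6 := card_sdiff_add_card_eq_card
      (cl_mono (subset_insert z Y) : cl K v Y ⊆ cl K v (insert z Y))
    omega
  -- number of members in `Z`
  have hcnt : cnt B Z = cnt B (cl K v Y) +
      ∑ z ∈ Z', (univ.filter fun i => B i = cl K v (insert (z : E) Y)).card +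
      (univ.filter fun i => B i ⊆ Z ∧ rk K v Y + 2 ≤ rk K v (B i)).card := by
    have h1 : (univ.filter fun i => B i ⊆ Z) = ((univ.filter fun i => B i ⊆ cl K v Y) ∪
        Z'.biUnion (fun z => univ.filter fun i => B i = cl K v (insert (z : E) Y))) ∪
        (univ.filter fun i => B i ⊆ Z ∧ rk K v Y + 2 ≤ rk K v (B i)) := by
      ext i
      simp only [mem_filter, mem_univ, true_and, mem_union, mem_biUnion]
      constructor
      · intro hi
        by_cases hbig : rk K v Y + 2 ≤ rk K v (B i)
        · exact Or.inr ⟨hi, hbig⟩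
        left
        by_cases hsub : B i ⊆ cl K v Y
        · exact Or.inl hsub
        right
        obtain ⟨e, heB, heY⟩ := not_subset.1 hsub
        rcases (hmemZ e).1 (hi heB) with h1 | ⟨z, hz, h1⟩
        · exact absurd h1 heY
        refine ⟨z, hz, ?_⟩
        have hzB : (z : E) ∈ B i := by
          apply (hBfl i).mem
          have h3 := mem_sp_insert_exchange (mem_cl.1 h1) (fun h' => heY (mem_cl.2 h'))
          exact sp_mono (insert_subset heB (hYB i)) h3
        symm
        apply (isFl_cl (K := K) (v := v)).eq_of_subset_of_rk_le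
          ((hBfl i).cl_subset (insert_subset hzB (hYB i)))
        rw [tf_rank_one h z.2]
        omega
      · rintro ((h1 | ⟨z, hz, h1⟩) | h1)
        · exact fun e he => (hmemZ e).2 (Or.inl (h1 he))
        · rw [h1]
          exact fun e he => (hmemZ e).2 (Or.inr ⟨z, hz, he⟩)
        · exact h1.1
    unfold cnt
    rw [h1, card_union_of_disjoint, card_union_of_disjoint, card_biUnion]
    · intro z _ z' _ hne
      refine disjoint_left.2 ?_
      intro i hi hi'
      rw [mem_filter] at hi hi'
      apply hne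
      have h2 : (z : E) ∉ cl K v Y := fun h' => h.not_mem z z.2 (mem_cl.1 h')
      apply huniq z h2 z z' (subset_cl (mem_insert_self _ _))
      rw [← hi'.2, hi.2]
      exact subset_cl (mem_insert_self _ _)
    · rw [disjoint_left]
      intro i hi hi'
      obtain ⟨z, _, hz⟩ := mem_biUnion.1 hi'
      rw [mem_filter] at hi hz
      have h1 : (z : E) ∈ cl K v Y := hi.2 (hz.2 ▸ subset_cl (mem_insert_self _ _))
      exact h.not_mem z z.2 (mem_cl.1 h1)
    · rw [disjoint_left]
      intro i hi hi'
      rw [mem_filter] at hi'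
      have h2 := hi'.2.2
      rcases mem_union.1 hi with hi | hi
      · rw [mem_filter] at hi
        have h3 := rk_mono (K := K) (v := v) hi.2
        have h4 : rk K v (cl K v Y) = rk K v Y := rk_cl
        omega
      · obtain ⟨z, _, hz⟩ := mem_biUnion.1 hi
        rw [mem_filter] at hz
        rw [hz.2, tf_rank_one h z.2] at h2
        omega
  -- members of the transferred family
  have hbig : cnt (fun i : BigIdx K v Y T A => tr R (cl K v (A i.1 ∪ Y))) Z' =
      (univ.filter fun i => B i ⊆ Z ∧ rk K v Y + 2 ≤ rk K v (B i)).card := by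
    unfold cnt
    have hiff : ∀ i, B i ⊆ T → (tr R (B i) ⊆ Z' ↔ B i ⊆ Z) := by
      intro i hiT
      constructor
      · intro h1 e he
        rw [hmemZ]
        by_cases heY : e ∈ cl K v Y
        · exact Or.inl heY
        right
        rw [mem_cl] at heY
        obtain ⟨r, hr, h2⟩ := h.ex e (hiT he) heY
        have hrB : r ∈ B i := (hBfl i).mem (sp_mono (insert_subset he (hYB i)) h2)
        refine ⟨⟨r, hr⟩, h1 ?_, ?_⟩
        · unfold tr
          rw [mem_filter]
          exact ⟨mem_univ _, hrB⟩
        · rw [mem_cl]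
          exact mem_sp_insert_exchange h2 (h.not_mem r hr)
      · intro h1 r hr
        unfold tr at hr
        rw [mem_filter] at hr
        have h2 : (r : E) ∉ cl K v Y := fun h' => h.not_mem r r.2 (mem_cl.1 h')
        rcases (hmemZ r).1 (h1 hr.2) with h3 | ⟨z, hz, h3⟩
        · exact absurd h3 h2
        · rw [huniq r h2 r z (subset_cl (mem_insert_self _ _)) h3]
          exact hz
    apply card_bij (fun i _ => i.1)
    · intro i hi
      rw [mem_filter] at hi ⊢
      have h1 : B i.1 ⊆ T := hT.cl_subset (union_subset i.2.1 hYT)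
      refine ⟨mem_univ _, (hiff i.1 h1).1 hi.2, ?_⟩
      rw [hBdef]
      simp only [rk_cl]
      exact i.2.2
    · intro i _ j _ hij
      exact Subtype.ext hij
    · intro i hi
      rw [mem_filter] at hi
      have h1 : B i ⊆ T := hi.2.1.trans hZT
      have h2 : A i ⊆ T := (subset_union_left.trans subset_cl).trans h1
      have h3 : rk K v Y + 2 ≤ rk K v (A i ∪ Y) := by
        have := hi.2.2
        rw [hBdef] at this
        simpa only [rk_cl] using this
      let i' : BigIdx K v Y T A := ⟨i, h2, h3⟩
      exact ⟨i', mem_filter.2 ⟨mem_univ i', (hiff i h1).2 hi.2.1⟩, rfl⟩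
  -- conclusion
  have hsum : ∑ z ∈ Z', (cl K v (insert (z : E) Y) \ cl K v Y).card =
      ∑ z ∈ Z', (univ.filter fun i => B i = cl K v (insert (z : E) Y)).card + Z'.card := by
    rw [card_eq_sum_ones, ← sum_add_distrib]
    apply sum_congr rfl
    intro z _
    exact (hP z z.2).symm
  have h3 := hB.eq subset_cl hclT (isFl_cl (K := K) (v := v) (X := Y))
  have h5 : rk K v (cl K v Y) = rk K v Y := rk_cl
  refine ⟨?_, fun hZ' => ?_⟩
  · have h1 := hB.le hYZ hZT
    omega
  · have hZfl : IsFl K v Z := by
      refine subset_antisymm (fun e he => ?_) subset_cl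
      rw [mem_cl, ← hspZ] at he
      rw [hmemZ]
      by_cases heY : e ∈ cl K v Y
      · exact Or.inl heY
      right
      rw [mem_cl] at heY
      have heT : e ∈ T := by
        apply hT.mem
        rw [hspZ] at he
        exact sp_mono hZT he
      obtain ⟨r, hr, h2⟩ := h.ex e heT heY
      refine ⟨⟨r, hr⟩, hZ'.mem ?_, ?_⟩
      · rw [mem_sp_qc]
        refine (sp_le_iff.2 ?_) h2
        intro f hf
        rcases mem_insert.1 hf with rfl | hf
        · exact he
        · exact mem_sp (mem_union_right _ hf)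
      · rw [mem_cl]
        exact mem_sp_insert_exchange h2 (h.not_mem r hr)
    have h1 := hB.eq hYZ hZT hZfl
    omega

theorem transfer_SG (h : IsReps K v Y T R) (hT : IsFl K v T) (hYT : Y ⊆ T)
    (hs : SG K v Y T) : SG K (qc K v Y R) ∅ univ := by
  obtain ⟨n, A, hA⟩ := hs
  exact (transfer h hT hYT hA).sg

end Ca3
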