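import Pool.Agent.Lib.MP_ca3eb1_co.Her3
import Pool.Agent.Lib.MP_ca3eb1_co.Transfer

/-! # Module W5: proper planes are strict gammoids -/

set_option linter.unusedSectionVars false

namespace Ca3

open Finset Submodule

/-- A strict gammoid is carried over by a rank preserving bijection onto a subset. -/
private lemma SG_of_rank_iso {K V₁ E₁ V₂ E₂ : Type*} [Field K] [AddCommGroup V₁] [Module K V₁]
    [FiniteDimensional K V₁] [Fintype E₁] [DecidableEq E₁] [AddCommGroup V₂] [Module K V₂]
    [FiniteDimensional K V₂] [Fintype E₂] [DecidableEq E₂] {w : E₁ → V₁} {w₂ : E₂ → V₂}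
    {j : E₁ → E₂} (hj : Function.Injective j) {F : Finset E₂} (hjs : ∀ f ∈ F, ∃ e, j e = f)
    (hr : ∀ Z : Finset E₁, rk K w Z = rk K w₂ (Z.image j)) (hs : SG K w ∅ univ) :
    SG K w₂ ∅ F := by
  classical
  obtain ⟨n, A, hA⟩ := hs
  refine ⟨n, fun i => (A i).image j, ?_⟩
  intro Z _ hZF
  set Z₁ : Finset E₁ := univ.filter (fun e => j e ∈ Z) with hZ₁
  have himg : Z₁.image j = Z := by
    ext f
    constructor
    · intro hf
      obtain ⟨e, he, rfl⟩ := Finset.mem_image.1 hf
      exact (mem_filter.1 he).2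
    · intro hf
      obtain ⟨e, rfl⟩ := hjs f (hZF hf)
      exact mem_image_of_mem _ (mem_filter.2 ⟨mem_univ _, hf⟩)
  have hcard : Z₁.card = Z.card := by
    rw [← himg, card_image_of_injective _ hj]
  have hrk : rk K w Z₁ = rk K w₂ Z := by rw [hr, himg]
  have hcnt : cnt (fun i => (A i).image j) Z = cnt A Z₁ := by
    unfold cnt
    congr 1
    ext i
    simp only [mem_filter, mem_univ, true_and]
    constructor
    · intro h e he
      exact mem_filter.2 ⟨mem_univ _, h (mem_image_of_mem _ he)⟩
    · intro h f hf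
      obtain ⟨e, he, rfl⟩ := Finset.mem_image.1 hf
      exact (mem_filter.1 (h he)).2
  obtain ⟨h1, h2⟩ := hA Z₁ (empty_subset _) (subset_univ _)
  rw [hcnt, ← hrk, ← hcard]
  refine ⟨h1, fun hfl => h2 ?_⟩
  apply subset_antisymm _ subset_cl
  intro e he
  rw [mem_cl, ← rk_insert_eq_iff, hr, hr, image_insert, himg, rk_insert_eq_iff] at he
  exact mem_filter.2 ⟨mem_univ _, hfl.mem he⟩

variable {K V E : Type*} [Field K] [AddCommGroup V] [Module K V]
  [FiniteDimensional K V] [Fintype E] [DecidableEq E] {v : E → V}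

theorem SG_of_plane (hv : Simple K v) (hs : ∀ x, SG K v {x} univ) {F : Finset E}
    (hF : IsFl K v F) (hF3 : rk K v F = 3) (hne : F ≠ univ) : SG K v ∅ F := by
  classical
  obtain ⟨x, hx⟩ : ∃ x, x ∉ F := by
    by_contra hc
    push Not at hc
    exact hne (eq_univ_iff_forall.2 hc)
  have hxF : v x ∉ sp K v F := fun h => hx (hF.mem h)
  set T : Finset E := cl K v (insert x F) with hT
  have hTfl : IsFl K v T := isFl_cl
  have hxT : ({x} : Finset E) ⊆ T :=
    (singleton_subset_iff.2 (mem_insert_self _ _)).trans subset_cl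
  have hFT : F ⊆ T := (subset_insert _ _).trans subset_cl
  have hrT : rk K v T = 4 := by
    rw [hT, rk_cl, rk_insert_of_not_mem_sp hxF, hF3]
  have hrx : rk K v {x} = 1 := hv.rk_singleton
  -- representatives
  obtain ⟨R, hFR, hR⟩ := exists_reps (K := K) (v := v) (Y := {x}) (T := T) (R₀ := F) hFT
    (by
      intro r hr h
      rw [sp_singleton] at h
      exact hx (hv.2 r x h ▸ hr))
    (by
      intro r hr s hs' h
      by_contra hrs
      have h1 : v r ∉ sp K v {s} := by
        rw [sp_singleton]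
        exact fun h' => hrs (hv.2 _ _ h')
      have h2 : v r ∈ sp K v (insert x {s}) := by
        rwa [Finset.pair_comm] at h
      have h3 := mem_sp_insert_exchange h2 h1
      exact hxF (sp_mono (insert_subset hr (singleton_subset_iff.2 hs')) h3))
  have hq : Simple K (qc K v {x} R) := qc_simple hR
  have hq3 : rk K (qc K v {x} R) univ = 3 := by
    have := rk_qc_univ hR hxT
    omega
  have hqs : SG K (qc K v {x} R) ∅ univ :=
    transfer_SG hR hTfl hxT ((hs x).mono subset_rfl (subset_univ _))
  -- rank function on `F`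
  have hrank : ∀ Z : Finset E, Z ⊆ F → rk K v (Z ∪ {x}) = rk K v Z + 1 := by
    intro Z hZ
    have h1 : Z ∪ {x} = insert x Z := by
      ext y; simp
    rw [h1, rk_insert_of_not_mem_sp (fun h => hxF (sp_mono hZ h))]
  have htrmap : ∀ Z : Finset R, Z ⊆ tr R F → Z.map (Function.Embedding.subtype _) ⊆ F := by
    intro Z hZ e he
    obtain ⟨r, hr, rfl⟩ := Finset.mem_map.1 he
    have := hZ hr
    simpa [tr] using this
  have hmapF : (tr R F).map (Function.Embedding.subtype _) = F := by
    apply subset_antisymm (htrmap _ subset_rfl)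
    intro e he
    exact Finset.mem_map.2 ⟨⟨e, hFR he⟩, by simpa [tr] using he, rfl⟩
  have hS : rk K (qc K v {x} R) (tr R F) = 3 := by
    have h1 := rk_qc (K := K) (v := v) (Y := {x}) (R := R) (tr R F)
    rw [hmapF, hrank F subset_rfl] at h1
    omega
  have hsub := SG_sub3 hq hq3 hqs hS
  refine SG_of_rank_iso (j := fun e : (tr R F) => ((e : R) : E)) ?_ ?_ ?_ hsub
  · intro e f h
    exact Subtype.ext (Subtype.ext h)
  · intro f hf
    exact ⟨⟨⟨f, hFR hf⟩, by simpa [tr] using hf⟩, rfl⟩
  · intro Z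
    have h1 := rk_restrict (K := K) (v := qc K v {x} R) (F := tr R F) Z
    have h2 := rk_qc (K := K) (v := v) (Y := {x}) (R := R)
      (Z.map (Function.Embedding.subtype _))
    have h3 : (Z.map (Function.Embedding.subtype (fun r => r ∈ tr R F))).map
        (Function.Embedding.subtype _) = Z.image (fun e : (tr R F) => ((e : R) : E)) := by
      ext e
      simp only [Finset.mem_map, Finset.mem_image, Function.Embedding.coe_subtype]
      constructor
      · rintro ⟨r, ⟨z, hz, rfl⟩, rfl⟩
        exact ⟨z, hz, rfl⟩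
      · rintro ⟨z, hz, rfl⟩
        exact ⟨z, ⟨z, hz, rfl⟩, rfl⟩
    have h4 : (Z.map (Function.Embedding.subtype (fun r => r ∈ tr R F))) ⊆ tr R F := by
      intro r hr
      obtain ⟨z, hz, rfl⟩ := Finset.mem_map.1 hr
      exact z.2
    have h5 := hrank _ (htrmap _ h4)
    rw [h5, hrx] at h2
    rw [h1, ← h3]
    omega

end Ca3
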