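import Pool.Agent.Lib.MP_ca3eb1_co.Basic

/-! # Module M9a: the pigeonhole contradiction T8 -/

set_option linter.unusedSectionVars false

namespace Ca3

open Finset Submodule

section aux

variable {K V E : Type*} [Field K] [AddCommGroup V] [Module K V]
  [FiniteDimensional K V] [Fintype E] [DecidableEq E] {v : E → V}

private lemma T8_single (x : V) : Module.finrank K (span K {x}) ≤ 1 := by
  have := finrank_span_le_card (R := K) ({x} : Set V)
  simpa using this

/-- two elements of `H \ G` have a combination in `<G>` when `rk H = rk G + 1` -/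
private lemma T8_comb {G H : Finset E} (hG : IsFl K v G) (hGH : G ⊆ H)
    (hr : rk K v H = rk K v G + 1) {a b : E} (ha : a ∈ H) (ha' : a ∉ G) (hb : b ∈ H)
    (hb' : b ∉ G) : ∃ γ : K, γ ≠ 0 ∧ v b - γ • v a ∈ sp K v G := by
  have h1 : v a ∉ sp K v G := fun h => ha' (hG.mem h)
  have h2 : sp K v (insert a G) = sp K v H := by
    apply sp_eq_of_subset_of_rk_le (insert_subset ha hGH)
    rw [rk_insert_of_not_mem_sp h1, hr]
  have h3 : v b ∈ sp K v (insert a G) := h2 ▸ mem_sp hb
  rw [sp_insert, Submodule.mem_sup] at h3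
  obtain ⟨y, hy, z, hz, hyz⟩ := h3
  obtain ⟨γ, rfl⟩ := mem_span_singleton.1 hy
  refine ⟨γ, ?_, ?_⟩
  · rintro rfl
    apply hb'
    apply hG.mem
    rw [← hyz, zero_smul, zero_add]
    exact hz
  · rw [← hyz, add_sub_cancel_left]
    exact hz

/-- the combination has full support on every basis of `G` -/
private lemma T8_full {G H : Finset E} {a b : E} (haG : a ∉ G) (hbG : b ∉ G)
    (hr : rk K v H = rk K v G + 1)
    (h1 : ∀ I ⊆ G, Ind K v I → sp K v I = sp K v G →
        ∀ y ∈ I ∪ {a, b}, rk K v ((I ∪ {a, b}).erase y) = rk K v H)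
    {γ : K} {I : Finset E} (hI : I ⊆ G) (hI' : Ind K v I) (hIs : sp K v I = sp K v G) {y : E}
    (hy : y ∈ I) : v b - γ • v a ∉ sp K v (I.erase y) := by
  intro h
  have h2 := h1 I hI hI' hIs y (mem_union_left _ hy)
  have h3 : sp K v ((I ∪ {a, b}).erase y) ≤ sp K v (insert a (I.erase y)) := by
    rw [sp_le_iff]
    intro e he
    obtain ⟨hey, he⟩ := mem_erase.1 he
    rcases mem_union.1 he with he | he
    · exact mem_sp (mem_insert_of_mem (mem_erase.2 ⟨hey, he⟩))
    · rw [mem_insert, mem_singleton] at he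
      rcases he with rfl | rfl
      · exact mem_sp (mem_insert_self _ _)
      · have : v e = γ • v a + (v e - γ • v a) := by rw [add_sub_cancel]
        rw [this]
        exact add_mem (smul_mem _ _ (mem_sp (mem_insert_self _ _)))
          (sp_mono (subset_insert _ _) h)
  have h4 := rk_le_of_sp_le h3
  have h5 : rk K v (insert a (I.erase y)) ≤ rk K v (I.erase y) + 1 := rk_insert_le
  have h6 : rk K v (I.erase y) = (I.erase y).card := hI'.subset (erase_subset _ _)
  have h7 : rk K v G = I.card := by rw [← hI'.rk_eq_card]; exact rk_congr hIs.symm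
  have h8 := card_erase_add_one hy
  omega

/-- the rank of `Y ∪ {a, b}` -/
private lemma T8_rank {G Y : Finset E} (hYG : sp K v Y ≤ sp K v G) {a b : E}
    (haG : v a ∉ sp K v G) {γ : K} (hz : v b - γ • v a ∈ sp K v G)
    (hzY : v b - γ • v a ∉ sp K v Y) :
    rk K v (insert b (insert a Y)) = rk K v Y + 2 := by
  rw [rk_insert_of_not_mem_sp, rk_insert_of_not_mem_sp (fun h => haG (hYG h))]
  intro h
  apply hzY
  rw [sp_insert, Submodule.mem_sup] at h
  obtain ⟨y, hy, z, hz', hyz⟩ := h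
  obtain ⟨t, rfl⟩ := mem_span_singleton.1 hy
  have e1 : v b - γ • v a = (t - γ) • v a + z := by
    rw [← hyz, sub_smul]; abel
  have ht : t - γ = 0 := by
    by_contra hne
    apply haG
    have : v a = (t - γ)⁻¹ • ((v b - γ • v a) - z) := by
      rw [e1, add_sub_cancel_right, smul_smul, inv_mul_cancel₀ hne, one_smul]
    rw [this]
    exact smul_mem _ _ (sub_mem hz (hYG hz'))
  rw [e1, ht, zero_smul, zero_add]
  exact hz'

end aux

variable {K V E : Type*} [Field K] [Fintype K] [AddCommGroup V] [Module K V]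
  [FiniteDimensional K V] [Fintype E] [DecidableEq E]

/-- the hypothesis about `X1`, `X2` is the conclusion of `T7` for the heavy hyperplanes
`H1`, `H2` and `G = H1 ∩ H2`. -/
theorem T8 (hK : Fintype.card K = 4) {v : E → V} (hs : ∀ x, SG K v {x} univ)
    {H1 H2 : Finset E} (hH1 : IsFl K v H1) (hH2 : IsFl K v H2)
    (hr1 : rk K v H1 + 1 = rk K v univ) (hr2 : rk K v H2 + 1 = rk K v univ)
    (hg : rk K v (H1 ∩ H2) + 2 = rk K v univ) (hg4 : 4 ≤ rk K v (H1 ∩ H2))
    {X1 X2 : Finset E} (hX1 : X1 ⊆ H1 \ (H1 ∩ H2)) (hX2 : X2 ⊆ H2 \ (H1 ∩ H2))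
    (hc1 : X1.card = 2) (hc2 : X2.card = 2)
    (h1 : ∀ I ⊆ H1 ∩ H2, Ind K v I → sp K v I = sp K v (H1 ∩ H2) →
        ∀ y ∈ I ∪ X1, rk K v ((I ∪ X1).erase y) = rk K v H1)
    (h2 : ∀ I ⊆ H1 ∩ H2, Ind K v I → sp K v I = sp K v (H1 ∩ H2) →
        ∀ y ∈ I ∪ X2, rk K v ((I ∪ X2).erase y) = rk K v H2) : False := by
  classical
  set G := H1 ∩ H2 with hGdef
  have hG : IsFl K v G := hH1.inter hH2
  have hGH1 : G ⊆ H1 := inter_subset_left
  have hGH2 : G ⊆ H2 := inter_subset_right
  obtain ⟨a1, b1, hab1, rfl⟩ := card_eq_two.1 hc1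
  obtain ⟨a2, b2, hab2, rfl⟩ := card_eq_two.1 hc2
  have ha1 := mem_sdiff.1 (hX1 (mem_insert_self a1 {b1}))
  have hb1 := mem_sdiff.1 (hX1 (mem_insert_of_mem (mem_singleton_self b1)))
  have ha2 := mem_sdiff.1 (hX2 (mem_insert_self a2 {b2}))
  have hb2 := mem_sdiff.1 (hX2 (mem_insert_of_mem (mem_singleton_self b2)))
  have hrG1 : rk K v H1 = rk K v G + 1 := by omega
  have hrG2 : rk K v H2 = rk K v G + 1 := by omega
  obtain ⟨γ1, -, hz1⟩ := T8_comb hG hGH1 hrG1 ha1.1 ha1.2 hb1.1 hb1.2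
  obtain ⟨γ2, -, hz2⟩ := T8_comb hG hGH2 hrG2 ha2.1 ha2.2 hb2.1 hb2.2
  set z1 := v b1 - γ1 • v a1 with hz1def
  set z2 := v b2 - γ2 • v a2 with hz2def
  have ha1G : v a1 ∉ sp K v G := fun h => ha1.2 (hG.mem h)
  have ha2G : v a2 ∉ sp K v G := fun h => ha2.2 (hG.mem h)
  have ha2H1 : v a2 ∉ sp K v H1 := fun h => ha2.2 (mem_inter.2 ⟨hH1.mem h, ha2.1⟩)
  -- a basis of `G` and coordinates
  obtain ⟨I, hIG, hI, hIs⟩ := exists_basis (K := K) (v := v) G
  have hIc : I.card = rk K v G := by rw [← hI.rk_eq_card]; exact rk_congr hIs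
  obtain ⟨ζ1, hζ1⟩ := (Submodule.mem_span_image_finset_iff_exists_fun' K).1
    (show z1 ∈ span K (v '' (I : Set E)) from (hIs ▸ hz1 : z1 ∈ sp K v I))
  obtain ⟨ζ2, hζ2⟩ := (Submodule.mem_span_image_finset_iff_exists_fun' K).1
    (show z2 ∈ span K (v '' (I : Set E)) from (hIs ▸ hz2 : z2 ∈ sp K v I))
  have hsum : ∀ (ζ : E → K) (S : Finset E), (∀ i ∈ I, i ∉ S → ζ i = 0) → S ⊆ I →
      ∑ i ∈ I, ζ i • v i ∈ sp K v S := by
    intro ζ S hζ hS
    apply sum_mem
    intro i hi
    by_cases hiS : i ∈ S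
    · exact smul_mem _ _ (mem_sp hiS)
    · rw [hζ i hi hiS, zero_smul]; exact zero_mem _
  have hne1 : ∀ i ∈ I, ζ1 i ≠ 0 := by
    intro i hi h0
    apply T8_full ha1.2 hb1.2 hrG1 h1 hIG hI hIs hi (γ := γ1)
    rw [← hz1def, ← hζ1]
    apply hsum ζ1 _ _ (erase_subset _ _)
    intro j hj hj'
    have : j = i := by
      by_contra hji
      exact hj' (mem_erase.2 ⟨hji, hj⟩)
    rw [this, h0]
  have hne2 : ∀ i ∈ I, ζ2 i ≠ 0 := by
    intro i hi h0
    apply T8_full ha2.2 hb2.2 hrG2 h2 hIG hI hIs hi (γ := γ2)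
    rw [← hz2def, ← hζ2]
    apply hsum ζ2 _ _ (erase_subset _ _)
    intro j hj hj'
    have : j = i := by
      by_contra hji
      exact hj' (mem_erase.2 ⟨hji, hj⟩)
    rw [this, h0]
  -- pigeonhole
  obtain ⟨i, hi, j, hj, hij, hc⟩ :=
    Finset.exists_ne_map_eq_of_card_lt_of_maps_to (s := I) (t := univ.erase (0 : K))
      (f := fun i => ζ2 i / ζ1 i) (by
        rw [card_erase_of_mem (mem_univ _), card_univ, hK]; omega) (by
        intro i hi
        rw [mem_coe, mem_erase]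
        exact ⟨div_ne_zero (hne2 i hi) (hne1 i hi), mem_univ _⟩)
  replace hc : ζ2 i / ζ1 i = ζ2 j / ζ1 j := hc
  set c := ζ2 i / ζ1 i with hcdef
  set Y := (I.erase i).erase j with hYdef
  have hYI : Y ⊆ I := (erase_subset _ _).trans (erase_subset _ _)
  have hYc : Y.card + 2 = I.card := by
    have e1 := card_erase_add_one hi
    have e2 : Y.card + 1 = (I.erase i).card := card_erase_add_one (mem_erase.2 ⟨hij.symm, hj⟩)
    omega
  have hYr : rk K v Y = Y.card := hI.subset hYI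
  have hYG : sp K v Y ≤ sp K v G := sp_mono (hYI.trans hIG)
  have hz21 : z2 - c • z1 ∈ sp K v Y := by
    have : z2 - c • z1 = ∑ k ∈ I, (ζ2 k - c * ζ1 k) • v k := by
      rw [← hζ1, ← hζ2, smul_sum, ← sum_sub_distrib]
      apply sum_congr rfl
      intro k _
      rw [sub_smul, smul_smul]
    rw [this]
    apply hsum _ _ _ hYI
    intro k hk hkY
    have : k = i ∨ k = j := by
      by_contra hcon
      push Not at hcon
      exact hkY (mem_erase.2 ⟨hcon.2, mem_erase.2 ⟨hcon.1, hk⟩⟩)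
    rcases this with rfl | rfl
    · rw [hcdef, div_mul_cancel₀ _ (hne1 _ hk), sub_self]
    · rw [hc, div_mul_cancel₀ _ (hne1 _ hk), sub_self]
  have hz1Y : z1 ∉ sp K v Y := fun h =>
    T8_full ha1.2 hb1.2 hrG1 h1 hIG hI hIs hi (γ := γ1) (sp_mono (erase_subset _ _) h)
  have hz2Y : z2 ∉ sp K v Y := fun h =>
    T8_full ha2.2 hb2.2 hrG2 h2 hIG hI hIs hi (γ := γ2) (sp_mono (erase_subset _ _) h)
  -- the third flat
  set U : Submodule K V := span K {z1} ⊔ sp K v Y with hUdef
  have hYU : sp K v Y ≤ U := le_sup_right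
  have hz1U : z1 ∈ U := mem_sup_left (mem_span_singleton_self _)
  have hz2U : z2 ∈ U := by
    have : z2 = c • z1 + (z2 - c • z1) := by rw [add_sub_cancel]
    rw [this]
    exact add_mem (smul_mem _ _ hz1U) (hYU hz21)
  have hUG : U ≤ sp K v G :=
    sup_le ((span_singleton_le_iff_mem _ _).2 hz1) hYG
  have hUf : Module.finrank K U ≤ Y.card + 1 := by
    have e1 : Module.finrank K U ≤
        Module.finrank K (span K {z1}) + Module.finrank K (sp K v Y) :=
      Submodule.finrank_add_le_finrank_add_finrank (span K {z1}) (sp K v Y)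
    have e2 : Module.finrank K (span K {z1}) ≤ 1 := T8_single z1
    have e3 : Module.finrank K (sp K v Y) = Y.card := hYr
    omega
  set Φ := cl K v (insert a1 (insert b1 (insert a2 (insert b2 Y)))) with hΦdef
  have hΦ : IsFl K v Φ := isFl_cl
  have hmemΦ : ∀ e, e ∈ insert a1 (insert b1 (insert a2 (insert b2 Y))) → e ∈ Φ :=
    fun e he => subset_cl he
  have hYΦ : Y ⊆ Φ := fun e he => hmemΦ e (by simp [he])
  have ha1Φ : a1 ∈ Φ := hmemΦ _ (by simp)
  have hb1Φ : b1 ∈ Φ := hmemΦ _ (by simp)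
  have ha2Φ : a2 ∈ Φ := hmemΦ _ (by simp)
  have hb2Φ : b2 ∈ Φ := hmemΦ _ (by simp)
  have hΦle : sp K v Φ ≤ span K {v a1} ⊔ (span K {v a2} ⊔ U) := by
    rw [hΦdef, sp_cl, sp_le_iff]
    intro e he
    have m1 : v a1 ∈ span K {v a1} ⊔ (span K {v a2} ⊔ U) :=
      mem_sup_left (mem_span_singleton_self _)
    have m2 : v a2 ∈ span K {v a1} ⊔ (span K {v a2} ⊔ U) :=
      mem_sup_right (mem_sup_left (mem_span_singleton_self _))
    have m3 : U ≤ span K {v a1} ⊔ (span K {v a2} ⊔ U) := le_sup_right.trans le_sup_right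
    simp only [mem_insert] at he
    rcases he with rfl | rfl | rfl | rfl | he
    · exact m1
    · have : v e = γ1 • v a1 + z1 := by rw [hz1def, add_sub_cancel]
      rw [this]
      exact add_mem (smul_mem _ _ m1) (m3 hz1U)
    · exact m2
    · have : v e = γ2 • v a2 + z2 := by rw [hz2def, add_sub_cancel]
      rw [this]
      exact add_mem (smul_mem _ _ m2) (m3 hz2U)
    · exact m3 (hYU (mem_sp he))
  have hΦr : rk K v Φ ≤ Y.card + 3 := by
    have e1 : rk K v Φ ≤ Module.finrank K ↥(span K {v a1} ⊔ (span K {v a2} ⊔ U)) :=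
      finrank_mono hΦle
    have e2 := Submodule.finrank_add_le_finrank_add_finrank (span K {v a1})
      (span K {v a2} ⊔ U)
    have e3 := Submodule.finrank_add_le_finrank_add_finrank (span K {v a2}) U
    have e4 : Module.finrank K (span K {v a1}) ≤ 1 := T8_single _
    have e5 : Module.finrank K (span K {v a2}) ≤ 1 := T8_single _
    omega
  -- the inequality M3
  obtain ⟨x, hx⟩ : Y.Nonempty := by
    rw [← card_pos]; omega
  have hSG : SG K v Y univ := (hs x).mono (singleton_subset_iff.2 hx) (subset_refl _)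
  have hYG' : Y ⊆ G := hYI.trans hIG
  have hM := M3 hSG hH1 hH2 hΦ (hYG'.trans hGH1) (hYG'.trans hGH2) hYΦ (subset_univ _)
  rw [← hGdef] at hM
  have m12 : rk K v univ ≤ rk K v (H1 ∪ H2 ∪ Φ) := by
    have e1 : rk K v (insert a2 H1) = rk K v H1 + 1 := rk_insert_of_not_mem_sp ha2H1
    have e2 : rk K v (insert a2 H1) ≤ rk K v (H1 ∪ H2 ∪ Φ) := by
      apply rk_mono
      intro e he
      rcases mem_insert.1 he with rfl | he
      · exact mem_union_left _ (mem_union_right _ ha2.1)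
      · exact mem_union_left _ (mem_union_left _ he)
    omega
  have m13 : rk K v G ≤ rk K v (H1 ∩ Φ) := by
    have e1 := T8_rank hYG ha1G hz1 hz1Y
    have e2 : rk K v (insert b1 (insert a1 Y)) ≤ rk K v (H1 ∩ Φ) := by
      apply rk_mono
      intro e he
      simp only [mem_insert] at he
      rcases he with rfl | rfl | he
      · exact mem_inter.2 ⟨hb1.1, hb1Φ⟩
      · exact mem_inter.2 ⟨ha1.1, ha1Φ⟩
      · exact mem_inter.2 ⟨hGH1 (hYG' he), hYΦ he⟩
    omega
  have m23 : rk K v G ≤ rk K v (H2 ∩ Φ) := by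
    have e1 := T8_rank hYG ha2G hz2 hz2Y
    have e2 : rk K v (insert b2 (insert a2 Y)) ≤ rk K v (H2 ∩ Φ) := by
      apply rk_mono
      intro e he
      simp only [mem_insert] at he
      rcases he with rfl | rfl | he
      · exact mem_inter.2 ⟨hb2.1, hb2Φ⟩
      · exact mem_inter.2 ⟨ha2.1, ha2Φ⟩
      · exact mem_inter.2 ⟨hGH2 (hYG' he), hYΦ he⟩
    omega
  have hGΦ : Y.card + 1 ≤ rk K v (G ∩ Φ) := by omega
  -- the span of `G ∩ Φ`
  have hspan : sp K v (G ∩ Φ) ≤ U := by
    rw [sp_le_iff]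
    intro e he
    obtain ⟨heG, heΦ⟩ := mem_inter.1 he
    have e1 := hΦle (mem_sp heΦ)
    rw [Submodule.mem_sup] at e1
    obtain ⟨y, hy, w, hw, hyw⟩ := e1
    obtain ⟨α, rfl⟩ := mem_span_singleton.1 hy
    rw [Submodule.mem_sup] at hw
    obtain ⟨y', hy', u, hu, rfl⟩ := hw
    obtain ⟨β, rfl⟩ := mem_span_singleton.1 hy'
    have heG' : v e ∈ sp K v G := mem_sp heG
    have hβ : β = 0 := by
      by_contra hβ
      apply ha2H1
      have : v a2 = β⁻¹ • (v e - α • v a1 - u) := by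
        rw [← hyw]
        have : α • v a1 + (β • v a2 + u) - α • v a1 - u = β • v a2 := by abel
        rw [this, smul_smul, inv_mul_cancel₀ hβ, one_smul]
      rw [this]
      exact smul_mem _ _ (sub_mem (sub_mem (sp_mono hGH1 heG')
        (smul_mem _ _ (mem_sp ha1.1))) (sp_mono hGH1 (hUG hu)))
    rw [hβ, zero_smul, zero_add] at hyw
    have hα : α = 0 := by
      by_contra hα
      apply ha1G
      have : v a1 = α⁻¹ • (v e - u) := by
        rw [← hyw, add_sub_cancel_right, smul_smul, inv_mul_cancel₀ hα, one_smul]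
      rw [this]
      exact smul_mem _ _ (sub_mem heG' (hUG hu))
    rw [hα, zero_smul, zero_add] at hyw
    rw [← hyw]
    exact hu
  have hspan' : sp K v (G ∩ Φ) = U := by
    apply eq_of_le_of_finrank_le hspan
    exact hUf.trans hGΦ
  -- a basis of `G ∩ Φ` extended to `G`
  obtain ⟨I', hI'G, hI', hI's⟩ := exists_basis (K := K) (v := v) (G ∩ Φ)
  obtain ⟨J, hIJ, hJG, hJ, hJs⟩ := exists_basis_extend hI' (hI'G.trans inter_subset_left)
  have hI'c : I'.card ≤ Y.card + 1 := by
    rw [← hI'.rk_eq_card, rk_congr hI's]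
    unfold rk
    rw [hspan']
    exact hUf
  have hJc : J.card = rk K v G := by rw [← hJ.rk_eq_card]; exact rk_congr hJs
  obtain ⟨y, hyJ, hyI⟩ : ∃ y ∈ J, y ∉ I' := by
    by_contra hcon
    push Not at hcon
    have := card_le_card hcon
    omega
  apply T8_full ha1.2 hb1.2 hrG1 h1 hJG hJ hJs hyJ (γ := γ1)
  rw [← hz1def]
  have e1 : z1 ∈ sp K v I' := by rw [hI's, hspan']; exact hz1U
  exact sp_mono (fun e he => mem_erase.2 ⟨by rintro rfl; exact hyI he, hIJ he⟩) e1

end Ca3
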