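import Pool.Agent.Lib.MP_ca3eb1_co.Alpha
import Pool.Agent.Lib.MP_ca3eb1_co.Transfer
import Pool.Agent.Lib.MP_ca3eb1_co.P4
import Pool.Agent.Lib.MP_ca3eb1_co.T7
import Pool.Agent.Lib.MP_ca3eb1_co.T8

/-! # Module M9: tight configurations have rank at most 5 -/

set_option linter.unusedSectionVars false

namespace Ca3

open Finset Submodule

variable {K V E : Type*} [Field K] [Fintype K] [AddCommGroup V] [Module K V]
  [FiniteDimensional K V] [Fintype E] [DecidableEq E]

/-- The transferred Mason family, reindexed by `Fin n`, contains the traces of the flats spanned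
by members of large rank. -/
theorem transfer_fin {v : E → V} {Y R : Finset E} (h : IsReps K v Y univ R) {n : ℕ}
    {A : Fin n → Finset E} (hA : IsMason K v Y univ A) :
    ∃ (m : ℕ) (B : Fin m → Finset R), IsMason K (qc K v Y R) ∅ univ B ∧
      ∀ H, IsFl K v H → Y ⊆ H → rk K v Y + 2 ≤ rk K v H → (∃ i, cl K v (A i ∪ Y) = H) →
        ∃ j, cl K (qc K v Y R) (B j) = tr R H := by
  obtain ⟨m, B, hB, hex⟩ := (transfer h isFl_univ (subset_univ _) hA).exists_fin
  refine ⟨m, B, hB, ?_⟩
  rintro H hH hYH hr ⟨i, hi⟩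
  have hbig : A i ⊆ univ ∧ rk K v Y + 2 ≤ rk K v (A i ∪ Y) := by
    refine ⟨subset_univ _, ?_⟩
    rw [← rk_cl (X := A i ∪ Y), hi]
    exact hr
  obtain ⟨j, hj⟩ := hex ⟨i, hbig⟩
  refine ⟨j, ?_⟩
  rw [hj]
  have h1 : tr R (cl K v (A i ∪ Y)) = tr R H := by rw [hi]
  rw [h1]
  exact isFl_tr h hH hYH (subset_univ _)

/-- Heavy hyperplanes of a tight configuration of rank at least 6 have small complement. -/
theorem Tight.compl_le_four (hK : Fintype.card K = 4) {v : E → V} (hv : Simple K v)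
    (ht : Tight K v) (h6 : 6 ≤ rk K v univ) {H : Finset E} (hH : IsFl K v H)
    (hr : rk K v H + 1 = rk K v univ) (h0 : 0 < alpha K v H) : (univ \ H).card ≤ 4 := by
  by_contra hc
  obtain ⟨U, hUH, hU⟩ := exists_subset_card_eq (show 5 ≤ (univ \ H).card by omega)
  have hUn : ∀ e ∈ U, e ∉ H := fun e he => (mem_sdiff.1 (hUH he)).2
  have hne : H ≠ univ := by
    rintro rfl
    omega
  have key : ∀ y ∈ H, v y ∈ sp K v U := by
    intro y hy
    by_contra hyU
    have h1 : ∀ r ∈ U, v r ∉ sp K v {y} := by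
      intro r hr' hc'
      exact hUn r hr' (hH.mem (sp_mono (singleton_subset_iff.2 hy) hc'))
    have h2 : ∀ r ∈ U, ∀ s ∈ U, v r ∈ sp K v (insert s {y}) → r = s := by
      intro r hr' s hs hrs
      by_contra hne'
      apply hyU
      have h3 : v r ∈ sp K v (insert y {s}) := by
        rwa [pair_comm y s]
      have h4 : v r ∉ sp K v {s} := by
        rw [sp_singleton]
        exact fun h' => hne' (hv.2 r s h')
      have h5 := mem_sp_insert_exchange h3 h4
      refine sp_mono ?_ h5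
      intro e he
      rcases mem_insert.1 he with rfl | he
      · exact hr'
      · rw [mem_singleton.1 he]; exact hs
    obtain ⟨R, hUR, hR⟩ := exists_reps (T := univ) (subset_univ U) h1 h2
    obtain ⟨n, A, hA⟩ := ht.2.1 y
    obtain ⟨i, hi⟩ := ht.heavy_point hH hne h0 hy hA
    obtain ⟨m, B, hB, hBH⟩ := transfer_fin hR hA
    have hY1 : rk K v {y} = 1 := hv.rk_singleton
    have hyH : ({y} : Finset E) ⊆ H := singleton_subset_iff.2 hy
    have h6' := hBH H hH hyH (by omega) ⟨i, hi⟩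
    have hru := rk_qc_univ hR (subset_univ _)
    have hrt := rk_tr hR hH hyH (subset_univ _)
    have h7 := Ck hK (qc_simple hR) hB (by omega) (isFl_tr hR hH hyH (subset_univ _))
      (by omega) h6'
    have h8 : U.card ≤ (univ \ tr R H).card := by
      have h9 : (U.attach.image (fun e => (⟨e.1, hUR e.2⟩ : R))) ⊆ univ \ tr R H := by
        intro r hr'
        obtain ⟨e, -, rfl⟩ := mem_image.1 hr'
        refine mem_sdiff.2 ⟨mem_univ _, fun h' => hUn e.1 e.2 ?_⟩
        simpa [tr] using h'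
      refine le_trans (le_of_eq ?_) (card_le_card h9)
      rw [card_image_of_injective, card_attach]
      intro a b hab
      exact Subtype.ext (congrArg (fun z : R => (z : E)) hab)
    omega
  have h9 : sp K v H ≤ sp K v U := sp_le_iff.2 key
  obtain ⟨e, he⟩ := card_pos.1 (show 0 < U.card by omega)
  have h10 : v e ∉ sp K v H := fun h' => hUn e he (hH.mem h')
  have h11 : rk K v (insert e H) = rk K v H + 1 := rk_insert_of_not_mem_sp h10
  have h12 : rk K v (insert e H) ≤ rk K v U := by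
    apply rk_le_of_sp_le
    rw [sp_le_iff]
    intro g hg
    rcases mem_insert.1 hg with rfl | hg
    · exact mem_sp he
    · exact key g hg
  have h13 : rk K v U ≤ U.card := rk_le_card
  omega

theorem Tight.rk_le_five (hK : Fintype.card K = 4) {v : E → V} (hv : Simple K v)
    (ht : Tight K v) : rk K v univ ≤ 5 := by
  by_contra hc
  have h6 : 6 ≤ rk K v univ := by omega
  have hne0 : (univ : Finset E).Nonempty := by
    rw [nonempty_iff_ne_empty]
    intro h0
    rw [h0, rk_empty] at h6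
    omega
  obtain ⟨x0, -⟩ := hne0
  obtain ⟨H1, hH1, hr1, -, ha1⟩ := ht.exists_heavy x0
  have hne1 : H1.Nonempty := by
    rw [nonempty_iff_ne_empty]
    intro h0
    rw [h0, rk_empty] at hr1
    omega
  obtain ⟨x, hx⟩ := hne1
  obtain ⟨H2, hH2, hr2, hx2, ha2⟩ := ht.exists_heavy x
  have hu1 : H1 ≠ univ := by rintro rfl; omega
  have hu2 : H2 ≠ univ := by rintro rfl; omega
  have hc1 := ht.compl_le_four hK hv h6 hH1 hr1 ha1
  have hc2 := ht.compl_le_four hK hv h6 hH2 hr2 ha2
  set G := H1 ∩ H2 with hGdef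
  have hG : IsFl K v G := hH1.inter hH2
  have hG1 : G ≠ H1 := by
    intro h
    have : x ∈ G := by rw [h]; exact hx
    exact hx2 (mem_inter.1 this).2
  have hG2 : G ≠ H2 := by
    intro h
    have h1 : H2 ⊆ H1 := by rw [← h]; exact inter_subset_left
    have h2 := hH2.eq_of_subset_of_rk_le h1 (by omega)
    rw [h2] at hx2
    exact hx2 hx
  obtain ⟨n1, A1, hA1⟩ := ht.2.2 H1 hH1 hu1
  obtain ⟨n2, A2, hA2⟩ := ht.2.2 H2 hH2 hu2
  obtain ⟨X1, hX1, hX1c, hX1i⟩ := T7 hA1 hH1 (heavy_self hA1 hH1 ha1) hG inter_subset_left hG1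
  obtain ⟨X2, hX2, hX2c, hX2i⟩ := T7 hA2 hH2 (heavy_self hA2 hH2 ha2) hG inter_subset_right hG2
  have hX2le : X2.card ≤ 4 := by
    refine (card_le_card ?_).trans hc1
    intro e he
    have h1 := mem_sdiff.1 (hX2 he)
    refine mem_sdiff.2 ⟨mem_univ _, fun h' => h1.2 (mem_inter.2 ⟨h', h1.1⟩)⟩
  obtain ⟨Y, -, hYG, hYi, hYc⟩ := exists_ind_card (K := K) (v := v) (I := ∅) (X := G)
    (n := rk K v univ - 4) ind_empty (empty_subset _) (by simp) (by omega)
  have hYr : rk K v Y + 4 = rk K v univ := by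
    have := hYi.rk_eq_card
    omega
  obtain ⟨y, hy⟩ := card_pos.1 (show 0 < Y.card by omega)
  obtain ⟨R, -, hR⟩ := exists_reps (K := K) (v := v) (Y := Y) (T := univ) (R₀ := ∅)
    (empty_subset _) (by simp) (by simp)
  obtain ⟨n, A, hA⟩ := ht.2.1 y
  have hyY : ({y} : Finset E) ⊆ Y := singleton_subset_iff.2 hy
  have hYH1 : Y ⊆ H1 := hYG.trans inter_subset_left
  have hYH2 : Y ⊆ H2 := hYG.trans inter_subset_right
  have hAY : IsMason K v Y univ A := hA.mono hyY subset_rfl
  have hcl : ∀ H, IsFl K v H → Y ⊆ H → H ≠ univ → 0 < alpha K v H →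
      ∃ i, cl K v (A i ∪ Y) = H := by
    intro H hH hYH hne h0
    obtain ⟨i, hi⟩ := ht.heavy_point hH hne h0 (hYH hy) hA
    refine ⟨i, ?_⟩
    have h1 : A i ∪ Y ⊆ H := by
      refine union_subset ?_ hYH
      rw [← hi]
      exact subset_union_left.trans subset_cl
    apply hH.cl_eq h1
    rw [← hi, rk_cl]
    exact rk_mono (union_subset_union_right hyY)
  obtain ⟨m, B, hB, hBH⟩ := transfer_fin hR hAY
  have hb1 := hBH H1 hH1 hYH1 (by omega) (hcl H1 hH1 hYH1 hu1 ha1)
  have hb2 := hBH H2 hH2 hYH2 (by omega) (hcl H2 hH2 hYH2 hu2 ha2)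
  have hru := rk_qc_univ hR (subset_univ _)
  have hrt1 := rk_tr hR hH1 hYH1 (subset_univ _)
  have hrt2 := rk_tr hR hH2 hYH2 (subset_univ _)
  have hrtG := rk_tr hR hG hYG (subset_univ _)
  have hne : tr R H1 ≠ tr R H2 := by
    intro h
    have h1 := tr_inj hR hH1 hYH1 (subset_univ _) hH2 hYH2 (subset_univ _) h
    rw [h1] at hx
    exact hx2 hx
  have hP := P4 hK (qc_simple hR) hB (by omega) (isFl_tr hR hH1 hYH1 (subset_univ _))
    (isFl_tr hR hH2 hYH2 (subset_univ _)) (by omega) (by omega) hb1 hb2 hne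
  have htr : tr R H1 ∩ tr R H2 = tr R G := by
    ext r
    simp [tr, hGdef]
  rw [htr] at hP
  have hg : rk K v G + 2 = rk K v univ := by omega
  have hg4 : 4 ≤ rk K v G := by omega
  exact T8 hK ht.2.1 hH1 hH2 hr1 hr2 hg hg4 hX1 hX2 (by omega) (by omega) hX1i hX2i

end Ca3
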