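import Pool.Agent.Lib.MP_ca3eb1_co.TightFive
import Pool.Agent.Lib.MP_ca3eb1_co.HoleFive
import Pool.Agent.Lib.MP_ca3eb1_co.PlaneFlat
import Pool.Agent.Lib.MP_ca3eb1_co.TheoremA
import Pool.Agent.Lib.MP_ca3eb1_co.ExistsTight

/-! # Module W9: holes in all ranks at least 5 -/

set_option linter.unusedSectionVars false

namespace Ca3

open Finset Submodule

variable {K V E : Type*} [Field K] [Fintype K] [AddCommGroup V] [Module K V]
  [FiniteDimensional K V] [Fintype E] [DecidableEq E] {v : E → V}

private lemma ha_mem_tr {F Z : Finset E} {r : F} : r ∈ tr F Z ↔ (r : E) ∈ Z := by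
  simp [tr]

private lemma ha_mem_map {F : Finset E} {Z : Finset F} {e : E} :
    e ∈ Z.map (Function.Embedding.subtype _) ↔ ∃ h : e ∈ F, (⟨e, h⟩ : F) ∈ Z := by
  constructor
  · intro h
    obtain ⟨r, hr, rfl⟩ := mem_map.1 h
    exact ⟨r.2, hr⟩
  · rintro ⟨h, h'⟩
    exact mem_map.2 ⟨⟨e, h⟩, h', rfl⟩

private lemma ha_map_tr {F Z : Finset E} (hZ : Z ⊆ F) :
    (tr F Z).map (Function.Embedding.subtype _) = Z := by
  ext e
  rw [ha_mem_map]
  constructor
  · rintro ⟨h, h'⟩
    exact ha_mem_tr.1 h'
  · intro h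
    exact ⟨hZ h, ha_mem_tr.2 h⟩

private lemma ha_map_subset {F : Finset E} (Z : Finset F) :
    Z.map (Function.Embedding.subtype _) ⊆ F := by
  intro e he
  exact (ha_mem_map.1 he).1

private lemma ha_tr_subset_iff {F A : Finset E} {Z : Finset F} (hA : A ⊆ F) :
    tr F A ⊆ Z ↔ A ⊆ Z.map (Function.Embedding.subtype _) := by
  constructor
  · intro h e he
    exact ha_mem_map.2 ⟨hA he, h (ha_mem_tr.2 he)⟩
  · intro h r hr
    obtain ⟨_, h'⟩ := ha_mem_map.1 (h (ha_mem_tr.1 hr))
    exact h'

private lemma ha_sp {F : Finset E} (Z : Finset F) :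
    sp K (fun e : F => v e) Z = sp K v (Z.map (Function.Embedding.subtype _)) := by
  apply le_antisymm
  · rw [sp_le_iff]
    intro e he
    exact mem_sp (v := v) (mem_map_of_mem (Function.Embedding.subtype _) he)
  · rw [sp_le_iff]
    intro e he
    obtain ⟨h, h'⟩ := ha_mem_map.1 he
    exact mem_sp (v := fun e : F => v e) h'

/-- strict gammoid property of a subset of a flat, seen in the restriction to the flat -/
private lemma ha_sub {F : Finset E} (hF : IsFl K v F) {P : Finset F}
    (hs : SG K v ∅ (P.map (Function.Embedding.subtype _))) :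
    SG K (fun e : F => v e) ∅ P := by
  classical
  obtain ⟨n, A, hA⟩ := hs
  have key : IsMason K (fun e : F => v e) ∅ P
      (fun i : {i : Fin n // A i ⊆ F} => tr F (A i.1)) := by
    intro Z _ hZP
    have hc : cnt (fun i : {i : Fin n // A i ⊆ F} => tr F (A i.1)) Z =
        cnt A (Z.map (Function.Embedding.subtype _)) := by
      unfold cnt
      apply card_bij (fun i _ => i.1)
      · intro i hi
        rw [mem_filter] at hi ⊢
        exact ⟨mem_univ _, (ha_tr_subset_iff i.2).1 hi.2⟩
      · intro i _ j _ h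
        exact Subtype.ext h
      · intro i hi
        rw [mem_filter] at hi
        refine ⟨⟨i, hi.2.trans (ha_map_subset Z)⟩, ?_, rfl⟩
        rw [mem_filter]
        exact ⟨mem_univ _, (ha_tr_subset_iff (hi.2.trans (ha_map_subset Z))).2 hi.2⟩
    rw [hc, rk_restrict, isFl_restrict hF, ← card_map (Function.Embedding.subtype _)]
    exact hA _ (empty_subset _) (map_subset_map.2 hZP)
  exact key.sg

private lemma ha_sub' {F : Finset E} (hF : IsFl K v F) {P : Finset F}
    (hs : SG K (fun e : F => v e) ∅ P) :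
    SG K v ∅ (P.map (Function.Embedding.subtype _)) := by
  classical
  obtain ⟨n, A, hA⟩ := hs
  refine ⟨n, fun i => (A i).map (Function.Embedding.subtype _), ?_⟩
  intro Z _ hZP
  have hZF : Z ⊆ F := hZP.trans (ha_map_subset P)
  have hc : cnt (fun i => (A i).map (Function.Embedding.subtype _)) Z = cnt A (tr F Z) := by
    unfold cnt
    congr 1
    ext i
    rw [mem_filter, mem_filter]
    have h2 : (A i).map (Function.Embedding.subtype _) ⊆ Z ↔ A i ⊆ tr F Z := by
      conv_lhs => rw [← ha_map_tr hZF]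
      exact map_subset_map
    rw [h2]
  have h3 := hA (tr F Z) (empty_subset _) (by
    rw [ha_tr_subset_iff hZF]
    exact hZP)
  rw [rk_restrict, isFl_restrict hF, ← card_map (Function.Embedding.subtype _),
    ha_map_tr hZF] at h3
  rw [hc]
  exact h3

private lemma ha_point {F : Finset E} (hF : IsFl K v F) (hs : ∀ x, SG K v {x} univ) (x : F) :
    SG K (fun e : F => v e) {x} univ := by
  have h1 : SG K v {(x : E)} F := (hs x).mono subset_rfl (subset_univ _)
  have h2 := SG_restrict hF (singleton_subset_iff.2 x.2) h1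
  have h3 : tr F {(x : E)} = {x} := by
    ext r
    rw [ha_mem_tr, mem_singleton, mem_singleton, Subtype.ext_iff]
  rwa [h3] at h2

private lemma ha_univ_map (X : Finset E) :
    (univ : Finset X).map (Function.Embedding.subtype _) = X := by
  ext e
  rw [ha_mem_map]
  exact ⟨fun h => h.1, fun h => ⟨h, mem_univ _⟩⟩

private lemma ha_four (hK : Fintype.card K = 4) (hv : Simple K v)
    (hs : ∀ x, SG K v {x} univ) (hF : ∀ F, IsFl K v F → F ≠ univ → SG K v ∅ F)
    (hn : ¬ SG K v ∅ univ) : rk K v univ ≤ 4 := by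
  obtain ⟨X, hX, hT⟩ := exists_tight hv hs hF hn
  have hsim : Simple K (fun e : X => v e) := hv.restrict X
  have h6 := hT.rk_le_five hK hsim
  have h7 := tight_five hK hsim hT
  rw [rk_restrict, ha_univ_map, hX] at h6 h7
  omega

theorem exists_hole_five (hK : Fintype.card K = 4) (hv : Simple K v)
    (h5 : 5 ≤ rk K v univ) (hs : ∀ x, SG K v {x} univ) (hn : ¬ SG K v ∅ univ) :
    ∃ (X1 X2 X3 : Finset E) (p : V), (∀ e, p ∉ span K {v e}) ∧
      p ∈ sp K v X1 ∧ p ∈ sp K v X2 ∧ p ∈ sp K v X3 ∧
      rk K v (X1 ∪ X2 ∪ X3) + 2 = rk K v X1 + rk K v X2 + rk K v X3 := by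
  classical
  obtain ⟨F, hF, hmin⟩ := (univ.filter (fun F : Finset E => IsFl K v F ∧ ¬ SG K v ∅ F)).exists_min_image
    card ⟨univ, by
      rw [mem_filter]
      exact ⟨mem_univ _, isFl_univ, hn⟩⟩
  rw [mem_filter] at hF
  obtain ⟨-, hFf, hFn⟩ := hF
  have hprop : ∀ P, IsFl K v P → P ⊆ F → P ≠ F → SG K v ∅ P := by
    intro P hP hPF hne
    by_contra hc
    have h1 := hmin P (by
      rw [mem_filter]
      exact ⟨mem_univ _, hP, hc⟩)
    have h2 := card_lt_card (Finset.ssubset_iff_subset_ne.2 ⟨hPF, hne⟩)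
    omega
  -- the rank of `F` is at least 4
  have h4 : 4 ≤ rk K v F := by
    by_contra hc
    by_cases h2 : rk K v F ≤ 2
    · exact hFn (SG_of_rk_le_two hv h2)
    · exact hFn (SG_of_plane hv hs hFf (by omega) (by
        rintro rfl
        omega))
  -- the rank of `F` is at most 4
  have h4' : rk K v F ≤ 4 := by
    have h0 := ha_four (v := fun e : F => v e) hK (hv.restrict F) (ha_point hFf hs)
      (by
        intro P hP hne
        apply ha_sub hFf
        apply hprop _ ((isFl_restrict hFf P).1 hP) (ha_map_subset P)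
        intro h
        apply hne
        ext r
        have h1 : (r : E) ∈ P.map (Function.Embedding.subtype _) := by
          rw [h]
          exact r.2
        obtain ⟨_, h2⟩ := ha_mem_map.1 h1
        exact ⟨fun _ => mem_univ _, fun _ => h2⟩)
      (by
        intro h
        apply hFn
        have h1 := ha_sub' hFf h
        rwa [ha_univ_map] at h1)
    rwa [rk_restrict, ha_univ_map] at h0
  have hF4 : rk K v F = 4 := le_antisymm h4' h4
  -- an element outside
  have hx : ∃ x, v x ∉ sp K v F := by
    by_contra hc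
    push Not at hc
    have h1 : rk K v univ ≤ rk K v F := rk_le_of_sp_le (by
      rw [sp_le_iff]
      intro e _
      exact hc e)
    omega
  obtain ⟨x, hx⟩ := hx
  have hF'f : IsFl K v (cl K v (insert x F)) := isFl_cl
  have hFF' : F ⊆ cl K v (insert x F) := (subset_insert _ _).trans subset_cl
  have hF'r : rk K v (cl K v (insert x F)) = 5 := by
    rw [rk_cl, rk_insert_of_not_mem_sp hx, hF4]
  obtain ⟨G, hG⟩ : ∃ G, G = cl K v (insert x F) := ⟨_, rfl⟩
  rw [← hG] at hF'f hFF' hF'r
  have hwrk : rk K (fun e : G => v e) univ = 5 := by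
    rw [rk_restrict, ha_univ_map, hF'r]
  have hFG := ha_map_tr hFF'
  obtain ⟨X1, X2, X3, p, hp, hp1, hp2, hp3, hr⟩ := hole_five (K := K) (v := fun e : G => v e) hK
    (hv.restrict G) hwrk (ha_point hF'f hs) (F := tr G F)
    (by
      rw [isFl_restrict hF'f, hFG]
      exact hFf)
    (by
      rw [rk_restrict, hFG]
      exact hF4)
    (by
      intro h
      apply hFn
      have h1 := ha_sub' hF'f h
      rwa [hFG] at h1)
    (by
      intro P hP hPF hne
      apply ha_sub hF'f
      apply hprop _ ((isFl_restrict hF'f P).1 hP)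
      · rw [← hFG]
        exact map_subset_map.2 hPF
      · intro h
        apply hne
        rw [← hFG] at h
        exact map_injective _ h)
  refine ⟨X1.map (Function.Embedding.subtype _), X2.map (Function.Embedding.subtype _),
    X3.map (Function.Embedding.subtype _), p, ?_, ?_, ?_, ?_, ?_⟩
  · intro e he
    have hxG : x ∈ G := by
      rw [hG]
      exact subset_cl (mem_insert_self _ _)
    have hp0 : p ≠ 0 := fun h => hp ⟨x, hxG⟩ (h ▸ zero_mem _)
    obtain ⟨c, hc⟩ := mem_span_singleton.1 he
    have hc0 : c ≠ 0 := by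
      rintro rfl
      rw [zero_smul] at hc
      exact hp0 hc.symm
    have hpG : p ∈ sp K v G := by
      rw [ha_sp] at hp1
      exact sp_mono (ha_map_subset X1) hp1
    have heG : e ∈ G := by
      apply hF'f.mem
      have h1 : v e = c⁻¹ • p := by
        rw [← hc, smul_smul, inv_mul_cancel₀ hc0, one_smul]
      rw [h1]
      exact smul_mem _ _ hpG
    exact hp ⟨e, heG⟩ he
  · rw [← ha_sp]; exact hp1
  · rw [← ha_sp]; exact hp2
  · rw [← ha_sp]; exact hp3
  · rw [← map_union, ← map_union, ← rk_restrict, ← rk_restrict, ← rk_restrict, ← rk_restrict]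
    exact hr

end Ca3
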