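import Pool.Agent.Lib.MP_ca3eb1_co.AbHoleFive
import Pool.Agent.Lib.MP_ca3eb1_co.AbTheoremA
import Pool.Agent.Lib.MP_ca3eb1_co.AbTightFive
import Pool.Agent.Lib.MP_ca3eb1_co.HoleAll

/-! # Existence of a hole (abstract) -/

set_option linter.unusedSectionVars false

namespace Ca3.Ab

open Finset

variable {K E : Type*} [Field K] [Fintype K] [DecidableEq E] [Fintype E] {N : RF E}

private lemma eh_mem_map {F : Finset E} {Z : Finset F} {e : E} :
    e ∈ Z.map (Function.Embedding.subtype _) ↔ ∃ h : e ∈ F, (⟨e, h⟩ : F) ∈ Z := by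
  constructor
  · intro h
    obtain ⟨r, hr, rfl⟩ := mem_map.1 h
    exact ⟨r.2, hr⟩
  · rintro ⟨h, h'⟩
    exact mem_map.2 ⟨⟨e, h⟩, h', rfl⟩

private lemma eh_map_subset {F : Finset E} (Z : Finset F) :
    Z.map (Function.Embedding.subtype _) ⊆ F := by
  intro e he
  exact (eh_mem_map.1 he).1

private lemma eh_univ_map (X : Finset E) :
    (univ : Finset X).map (Function.Embedding.subtype _) = X := by
  ext e
  rw [eh_mem_map]
  exact ⟨fun h => h.1, fun h => ⟨h, mem_univ _⟩⟩

/-- a vector hole in a proper flat is a hole -/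
theorem hole_of_vec {V : Type*} [AddCommGroup V] [Module K V] [FiniteDimensional K V]
    (hN : Simple N) {x : E} {w : E → V} (hw : RepAt K N x w) {H : Finset E} (hH : IsFl N H)
    (hx : x ∉ H) {X1 X2 X3 : Finset H} {p : V}
    (hp : ∀ e : H, p ∉ Submodule.span K {w e})
    (h1 : p ∈ Ca3.sp K (fun e : H => w e) X1) (h2 : p ∈ Ca3.sp K (fun e : H => w e) X2)
    (h3 : p ∈ Ca3.sp K (fun e : H => w e) X3)
    (hr : Ca3.rk K (fun e : H => w e) (X1 ∪ X2 ∪ X3) + 2 =
      Ca3.rk K (fun e : H => w e) X1 + Ca3.rk K (fun e : H => w e) X2 +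
        Ca3.rk K (fun e : H => w e) X3) :
    ∃ X1 X2 X3, Hole N X1 X2 X3 := by
  have heq := hw.restrict_eq hN hH hx
  -- ranks
  have hrk : ∀ Z : Finset H, rk N (Z.map (Function.Embedding.subtype _)) =
      Ca3.rk K (fun e : H => w e) Z := by
    intro Z
    rw [← rk_restrict, heq, rk_ofVec]
  -- the point `p` is not zero
  have hp0 : p ≠ 0 := by
    intro h0
    have hemp : ∀ Z : Finset H, Ca3.rk K (fun e : H => w e) Z = 0 := by
      intro Z
      have hZ : Z = ∅ := by
        rw [eq_empty_iff_forall_notMem]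
        intro e _
        exact hp e (h0 ▸ Submodule.zero_mem _)
      rw [hZ, Ca3.rk_empty]
    have e1 := hemp (X1 ∪ X2 ∪ X3)
    have e2 := hemp X1
    have e3 := hemp X2
    have e4 := hemp X3
    omega
  -- two spans which contain `p`
  have hsup : ∀ Z W : Finset H, p ∈ Ca3.sp K (fun e : H => w e) Z →
      p ∈ Ca3.sp K (fun e : H => w e) W →
      Ca3.rk K (fun e : H => w e) (Z ∪ W) + 1 ≤
        Ca3.rk K (fun e : H => w e) Z + Ca3.rk K (fun e : H => w e) W := by
    intro Z W hZ hW
    unfold Ca3.rk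
    rw [Ca3.sp_union, ← Submodule.finrank_sup_add_finrank_inf_eq]
    have h4 : Submodule.span K {p} ≤
        Ca3.sp K (fun e : H => w e) Z ⊓ Ca3.sp K (fun e : H => w e) W := by
      rw [Submodule.span_singleton_le_iff_mem]
      exact ⟨hZ, hW⟩
    have h5 := Submodule.finrank_mono h4
    rw [finrank_span_singleton hp0] at h5
    omega
  -- rank at least two
  have htwo : ∀ Z : Finset H, p ∈ Ca3.sp K (fun e : H => w e) Z →
      2 ≤ Ca3.rk K (fun e : H => w e) Z := by
    intro Z hZ
    have hne : Z.Nonempty := by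
      rw [nonempty_iff_ne_empty]
      rintro rfl
      rw [Ca3.sp_empty, Submodule.mem_bot] at hZ
      exact hp0 hZ
    obtain ⟨e, he⟩ := hne
    have h4 : w e ∈ Ca3.sp K (fun e : H => w e) Z := Ca3.mem_sp (v := fun e : H => w e) he
    by_contra hc
    have h5 : Submodule.span K {p} ≤ Ca3.sp K (fun e : H => w e) Z := by
      rw [Submodule.span_singleton_le_iff_mem]
      exact hZ
    have he0 : w e ≠ 0 := by
      intro h0
      have h6 : Ca3.rk K w {(e : E)} = 0 := by
        rw [Ca3.rk, Ca3.sp_singleton, h0, Submodule.span_singleton_eq_bot.2 rfl, finrank_bot]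
      rw [hw.rk_off hN hH hx (singleton_subset_iff.2 e.2), hN.1] at h6
      omega
    have h6 : Submodule.span K {w e} ≤ Ca3.sp K (fun e : H => w e) Z := by
      rw [Submodule.span_singleton_le_iff_mem]
      exact h4
    have h7 : Submodule.span K {w e} = Ca3.sp K (fun e : H => w e) Z := by
      apply Submodule.eq_of_le_of_finrank_le h6
      rw [finrank_span_singleton he0]
      unfold Ca3.rk at hc
      omega
    exact hp e (h7 ▸ hZ)
  have a12 := hsup X1 X2 h1 h2
  have a13 := hsup X1 X3 h1 h3
  have a23 := hsup X2 X3 h2 h3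
  have hl : ∀ {Z W : Finset H}, p ∈ Ca3.sp K (fun e : H => w e) Z →
      p ∈ Ca3.sp K (fun e : H => w e) (Z ∪ W) := fun h => Ca3.sp_mono subset_union_left h
  have b12 := hsup (X1 ∪ X2) X3 (hl h1) h3
  have b13 := hsup (X1 ∪ X3) X2 (hl h1) h2
  have b23 := hsup (X2 ∪ X3) X1 (hl h2) h1
  have c13 : X1 ∪ X3 ∪ X2 = X1 ∪ X2 ∪ X3 := by
    ext e; simp only [mem_union]; tauto
  have c23 : X2 ∪ X3 ∪ X1 = X1 ∪ X2 ∪ X3 := by
    ext e; simp only [mem_union]; tauto
  rw [c13] at b13
  rw [c23] at b23
  refine ⟨X1.map (Function.Embedding.subtype _), X2.map (Function.Embedding.subtype _),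
    X3.map (Function.Embedding.subtype _), ?_, ?_, ?_, ?_, ?_, ?_, ?_, ?_⟩
  · rw [hrk]; exact htwo _ h1
  · rw [hrk]; exact htwo _ h2
  · rw [hrk]; exact htwo _ h3
  · rw [← map_union, hrk, hrk, hrk]; omega
  · rw [← map_union, hrk, hrk, hrk]; omega
  · rw [← map_union, hrk, hrk, hrk]; omega
  · rw [← map_union, ← map_union, hrk, hrk, hrk, hrk]; omega
  · rintro e ⟨g1, g2, -⟩
    have heH : e ∈ H := hH.mem (sp_mono (eh_map_subset X1) g1)
    have k : ∀ Z : Finset H, e ∈ sp N (Z.map (Function.Embedding.subtype _)) →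
        w e ∈ Ca3.sp K (fun e : H => w e) Z := by
      intro Z hZ
      have h4 : (⟨e, heH⟩ : H) ∈ sp (N.restrict H) Z := by
        rw [mem_sp_restrict]
        exact hZ
      rw [heq, mem_sp_ofVec] at h4
      exact h4
    have g1' := k _ g1
    have g2' := k _ g2
    have he0 : w e ≠ 0 := by
      intro h0
      have h6 : Ca3.rk K w {e} = 0 := by
        rw [Ca3.rk, Ca3.sp_singleton, h0, Submodule.span_singleton_eq_bot.2 rfl, finrank_bot]
      rw [hw.rk_off hN hH hx (singleton_subset_iff.2 heH), hN.1] at h6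
      omega
    have h5 : Module.finrank K (Ca3.sp K (fun e : H => w e) X1 ⊓
        Ca3.sp K (fun e : H => w e) X2 : Submodule K V) = 1 := by
      have h6 := Submodule.finrank_sup_add_finrank_inf_eq (Ca3.sp K (fun e : H => w e) X1)
        (Ca3.sp K (fun e : H => w e) X2)
      rw [← Ca3.sp_union] at h6
      unfold Ca3.rk at a12 b12 hr
      omega
    have h7 : Submodule.span K {w e} = (Ca3.sp K (fun e : H => w e) X1 ⊓
        Ca3.sp K (fun e : H => w e) X2 : Submodule K V) := by
      apply Submodule.eq_of_le_of_finrank_le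
      · rw [Submodule.span_singleton_le_iff_mem]
        exact ⟨g1', g2'⟩
      · rw [finrank_span_singleton he0, h5]
    apply hp ⟨e, heH⟩
    change p ∈ Submodule.span K {w e}
    rw [h7]
    exact ⟨h1, h2⟩

private lemma eh_point {F : Finset E} (hF : IsFl N F) (hs : ∀ x, SG N {x} univ) (x : F) :
    SG (N.restrict F) {x} univ := by
  have h1 : SG N {(x : E)} F := (hs x).mono subset_rfl (subset_univ _)
  have h2 := SG_restrict hF (singleton_subset_iff.2 x.2) h1
  have h3 : tr F {(x : E)} = {x} := by
    ext r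
    simp only [tr, mem_filter, mem_univ, true_and, mem_singleton, Subtype.ext_iff]
  rwa [h3] at h2

private lemma eh_of_restrict {F : Finset E} (hF : IsFl N F)
    (hs : SG (N.restrict F) ∅ univ) : SG N ∅ F := by
  apply SG_of_restrict hF (empty_subset _)
  have h3 : tr F (∅ : Finset E) = ∅ := by
    ext r
    simp [tr]
  rwa [h3]

theorem exists_hole (hK : Fintype.card K = 4) (hN : Simple N) (hq : RepC K N)
    (h5 : 5 ≤ rk N univ) (hs : ∀ x, SG N {x} univ) (hn : ¬ SG N ∅ univ) :
    ∃ X1 X2 X3, Hole N X1 X2 X3 := by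
  classical
  obtain ⟨F, hF, hmin⟩ := (univ.filter (fun F : Finset E => IsFl N F ∧
    ¬ SG N ∅ F)).exists_min_image card ⟨univ, by
      rw [mem_filter]
      exact ⟨mem_univ _, isFl_univ, hn⟩⟩
  rw [mem_filter] at hF
  obtain ⟨-, hFf, hFn⟩ := hF
  have hprop : ∀ P, IsFl N P → P ⊆ F → P ≠ F → SG N ∅ P := by
    intro P hP hPF hne
    by_contra hc
    have h1 := hmin P (by
      rw [mem_filter]
      exact ⟨mem_univ _, hP, hc⟩)
    have h2 := card_lt_card (Finset.ssubset_iff_subset_ne.2 ⟨hPF, hne⟩)
    omega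
  by_cases hFu : F = univ
  · -- all proper flats are strict gammoids: impossible
    exfalso
    subst hFu
    obtain ⟨X, hX, hT⟩ := exists_tight hN hs (fun G h1 h2 => hprop G h1 (subset_univ _) h2) hn
    have h6 := Tight.rk_le_five hK (hN.restrict X) (hq.restrict X) hT
    have h7 := tight_five hK (hN.restrict X) (hq.restrict X) hT
    rw [rk_restrict, eh_univ_map, hX] at h6 h7
    omega
  · have hFlt : rk N F < rk N univ :=
      hFf.rk_lt_of_ssubset (Finset.ssubset_iff_subset_ne.2 ⟨subset_univ _, hFu⟩)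
    by_cases h6 : rk N univ = 5
    · -- rank 5
      have h4 : rk N F = 4 := by
        by_contra hc
        by_cases h3 : rk N F = 3
        · exact hFn (SG_of_plane hN hq hs hFf h3 hFu)
        · -- rank at most two
          obtain ⟨x, hx⟩ : ∃ x, x ∉ F := by
            by_contra hc
            push Not at hc
            exact hFu (eq_univ_iff_forall.2 hc)
          obtain ⟨n, w, hw⟩ := hq x
          have heq := hw.restrict_eq hN hFf hx
          apply hFn
          apply eh_of_restrict hFf
          rw [heq, SG_ofVec]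
          have hsim : Ca3.Simple K (fun e : F => w e) := by
            rw [← simple_ofVec, ← heq]
            exact hN.restrict F
          apply Ca3.SG_of_rk_le_two hsim
          rw [← rk_ofVec, ← heq, rk_restrict, eh_univ_map]
          omega
      exact hole_five hK hN hq h6 hs hFf h4 hFn hprop
    · -- rank at least 6: a hyperplane above `F`
      obtain ⟨H, hH, hFH, hHr⟩ : ∃ H, IsFl N H ∧ F ⊆ H ∧ rk N H + 1 = rk N univ := by
        obtain ⟨B, -, hBF, hBi, hBs⟩ := exists_basis_extend (N := N) (I := ∅) (X := F)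
          ind_empty (empty_subset _)
        have hBc : B.card = rk N F := by rw [← hBi.rk_eq_card, rk_congr hBs]
        obtain ⟨C, hBC, -, hCi, hCc⟩ := exists_ind_card (n := rk N univ - 1) hBi (subset_univ B)
          (by omega) (by omega)
        refine ⟨cl N C, isFl_cl, ?_, ?_⟩
        · intro e he
          rw [mem_cl]
          apply sp_mono hBC
          rw [hBs]
          exact mem_sp he
        · rw [rk_cl, hCi.rk_eq_card, hCc]
          omega
      have hHu : H ≠ univ := by
        rintro rfl
        omega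
      obtain ⟨x, hx⟩ : ∃ x, x ∉ H := by
        by_contra hc
        push Not at hc
        exact hHu (eq_univ_iff_forall.2 hc)
      obtain ⟨n, w, hw⟩ := hq x
      have heq := hw.restrict_eq hN hH hx
      obtain ⟨X1, X2, X3, p, hp, h1, h2, h3, hr⟩ := Ca3.exists_hole_five (K := K)
        (v := fun e : H => w e) hK
        (by
          rw [← simple_ofVec, ← heq]
          exact hN.restrict H)
        (by
          rw [← rk_ofVec, ← heq, rk_restrict, eh_univ_map]
          omega)
        (by
          intro y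
          rw [← SG_ofVec, ← heq]
          exact eh_point hH hs y)
        (by
          rw [← SG_ofVec, ← heq]
          intro h
          exact hFn ((eh_of_restrict hH h).mono subset_rfl hFH))
      exact hole_of_vec hN hw hH hx hp h1 h2 h3 hr

end Ca3.Ab
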