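import Pool.Agent.Lib.MP_ca3eb1_co.AbBasic

/-! # Holes, legs and the matroid on the legs (abstract rank functions) -/

set_option linter.unusedSectionVars false

namespace Ca3.Ab

open Finset

variable {E : Type*} [DecidableEq E] {N : RF E}

/-- Three sets whose closures meet in a common point which is not an element. -/
structure Hole (N : RF E) (X1 X2 X3 : Finset E) : Prop where
  r1 : 2 ≤ rk N X1
  r2 : 2 ≤ rk N X2
  r3 : 2 ≤ rk N X3
  r12 : rk N (X1 ∪ X2) + 1 = rk N X1 + rk N X2
  r13 : rk N (X1 ∪ X3) + 1 = rk N X1 + rk N X3
  r23 : rk N (X2 ∪ X3) + 1 = rk N X2 + rk N X3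
  r123 : rk N (X1 ∪ X2 ∪ X3) + 2 = rk N X1 + rk N X2 + rk N X3
  no : ∀ e, ¬ (e ∈ sp N X1 ∧ e ∈ sp N X2 ∧ e ∈ sp N X3)

variable [Fintype E]

/-- The elements of the legs in `S`. -/
def LS {n : ℕ} (leg : E → Fin n) (S : Finset (Fin n)) : Finset E :=
  univ.filter (fun e => leg e ∈ S)

/-- The ground set is partitioned into lines with at least two elements (the legs), and any two
legs are coplanar. -/
structure Legs (N : RF E) {n : ℕ} (leg : E → Fin n) : Prop where
  two : ∀ e, ∃ f, f ≠ e ∧ leg f = leg e
  surj : ∀ i, ∃ e, leg e = i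
  rk_leg : ∀ i, rk N (LS leg {i}) = 2
  flat : ∀ i, IsFl N (LS leg {i})
  coplanar : ∀ i j, rk N (LS leg {i, j}) ≤ 3
  simple : Simple N

section

variable {n : ℕ} {leg : E → Fin n} {S T : Finset (Fin n)} {e f : E} {i j : Fin n}

@[simp] lemma mem_LS : e ∈ LS leg S ↔ leg e ∈ S := by simp [LS]

lemma LS_mono (h : S ⊆ T) : LS leg S ⊆ LS leg T := fun _ he => mem_LS.2 (h (mem_LS.1 he))

@[simp] lemma LS_empty : LS leg ∅ = ∅ := by ext; simp

@[simp] lemma LS_univ : LS leg univ = univ := by ext; simp

lemma LS_union : LS leg (S ∪ T) = LS leg S ∪ LS leg T := by ext; simp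

lemma LS_inter : LS leg (S ∩ T) = LS leg S ∩ LS leg T := by ext; simp

lemma LS_insert : LS leg (insert i S) = LS leg {i} ∪ LS leg S := by ext; simp

/-- adding a leg to a nonempty set of legs raises the rank by at most one -/
lemma Legs.rk_insert_le (h : Legs N leg) (hS : S.Nonempty) :
    rk N (LS leg (insert i S)) ≤ rk N (LS leg S) + 1 := by
  obtain ⟨j, hj⟩ := hS
  have h1 := rk_union_add_rk_inter (N := N) (X := LS leg S) (Y := LS leg {i, j})
  have h2 : LS leg S ∪ LS leg {i, j} = LS leg (insert i S) := by
    rw [← LS_union]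
    congr 1
    ext k
    simp only [mem_union, mem_insert, mem_singleton]
    constructor
    · rintro (h | h | h)
      · exact Or.inr h
      · exact Or.inl h
      · exact Or.inr (h ▸ hj)
    · rintro (h | h)
      · exact Or.inr (Or.inl h)
      · exact Or.inl h
  have h3 : rk N (LS leg {j}) ≤ rk N (LS leg S ∩ LS leg {i, j}) := by
    apply rk_mono
    rw [← LS_inter]
    apply LS_mono
    intro k hk
    rw [mem_singleton] at hk
    subst hk
    simp [hj]
  have h4 := h.coplanar i j
  have h5 := h.rk_leg j
  rw [h2] at h1
  omega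

lemma Legs.two_le (h : Legs N leg) (hS : S.Nonempty) : 2 ≤ rk N (LS leg S) := by
  obtain ⟨j, hj⟩ := hS
  have h1 : rk N (LS leg {j}) ≤ rk N (LS leg S) :=
    rk_mono (LS_mono (singleton_subset_iff.2 hj))
  have h2 := h.rk_leg j
  omega

/-- The matroid on the legs: the rank of a nonempty set of legs is the rank of its elements
minus one (the contraction of the missing point `p`). -/
def Legs.Q (h : Legs N leg) : RF (Fin n) where
  toFun S := rk N (LS leg S) - 1
  empty' := by simp
  insert_le' i S := by
    rcases S.eq_empty_or_nonempty with rfl | hS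
    · have := h.rk_leg i
      rw [insert_empty_eq]
      omega
    · have := h.rk_insert_le hS (i := i)
      omega
  mono' S T hST := by
    have := rk_mono (N := N) (LS_mono (leg := leg) hST)
    omega
  submod' S T := by
    rcases S.eq_empty_or_nonempty with rfl | hS
    · simp
    rcases T.eq_empty_or_nonempty with rfl | hT
    · simp
    have h1 := h.two_le hS
    have h2 := h.two_le hT
    change rk N (LS leg (S ∪ T)) - 1 + (rk N (LS leg (S ∩ T)) - 1) ≤
      rk N (LS leg S) - 1 + (rk N (LS leg T) - 1)
    by_cases hST : (S ∩ T).Nonempty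
    · have h3 := rk_union_add_rk_inter (N := N) (X := LS leg S) (Y := LS leg T)
      rw [← LS_union, ← LS_inter] at h3
      have h4 := h.two_le hST
      have h5 := h.two_le (hST.mono inter_subset_union)
      omega
    · rw [not_nonempty_iff_eq_empty] at hST
      rw [hST, LS_empty, rk_empty]
      obtain ⟨i, hi⟩ := hS
      have h3 := h.rk_insert_le hT (i := i)
      have h4 := rk_union_add_rk_inter (N := N) (X := LS leg S) (Y := LS leg (insert i T))
      have h5 : LS leg S ∪ LS leg (insert i T) = LS leg (S ∪ T) := by
        rw [← LS_union]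
        congr 1
        ext k
        simp only [mem_union, mem_insert]
        constructor
        · rintro (h | h | h)
          · exact Or.inl h
          · exact Or.inl (h ▸ hi)
          · exact Or.inr h
        · rintro (h | h)
          · exact Or.inl h
          · exact Or.inr (Or.inr h)
      have h6 : rk N (LS leg {i}) ≤ rk N (LS leg S ∩ LS leg (insert i T)) := by
        apply rk_mono
        rw [← LS_inter]
        apply LS_mono
        intro k hk
        rw [mem_singleton] at hk
        subst hk
        simp [hi]
      have h7 := h.rk_leg i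
      have h8 := h.two_le (S := S ∪ T) ⟨i, mem_union_left _ hi⟩
      rw [h5] at h4
      omega

lemma Legs.rk_Q (h : Legs N leg) (hS : S.Nonempty) : rk h.Q S + 1 = rk N (LS leg S) := by
  have h1 := h.two_le hS
  change rk N (LS leg S) - 1 + 1 = _
  omega

lemma Legs.rk_Q_univ (h : Legs N leg) (hn : 0 < rk N univ) : rk h.Q univ + 1 = rk N univ := by
  change rk N (LS leg univ) - 1 + 1 = _
  rw [LS_univ]
  omega

/-- membership in a closure of legs -/
lemma Legs.mem_sp_Q (h : Legs N leg) (hS : S.Nonempty) :
    leg e ∈ sp h.Q S ↔ e ∈ sp N (LS leg S) := by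
  have h1 := h.rk_Q hS
  have h2 := h.rk_Q (insert_nonempty (leg e) S)
  rw [mem_sp_iff]
  constructor
  · intro h3
    have h4 : sp N (LS leg S) = sp N (LS leg (insert (leg e) S)) :=
      sp_eq_of_subset_of_rk_le (LS_mono (subset_insert _ _)) (by omega)
    rw [h4]
    exact mem_sp (by simp)
  · intro h3
    -- the leg of `e` has a second element; if it were outside, the rank of the two legs is 4
    obtain ⟨j, hj⟩ := hS
    by_cases hej : leg e ∈ S
    · rw [insert_eq_self.2 hej]
    · have h5 : rk N (LS leg {leg e, j}) ≤ 3 := h.coplanar _ _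
      -- closure of `LS {j}` and `e` contains the leg of `e`
      have h6 : rk N (insert e (LS leg {j})) = 3 := by
        rw [rk_insert_of_not_mem_sp, h.rk_leg]
        intro h7
        have h8 := (h.flat j).mem h7
        rw [mem_LS, mem_singleton] at h8
        exact hej (h8 ▸ hj)
      have h7 : sp N (insert e (LS leg {j})) = sp N (LS leg {leg e, j}) := by
        apply sp_eq_of_subset_of_rk_le _ (by omega)
        intro g hg
        rcases mem_insert.1 hg with rfl | hg
        · simp
        · rw [mem_LS, mem_singleton] at hg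
          simp [hg]
      have h8 : ∀ g ∈ LS leg (insert (leg e) S), g ∈ sp N (LS leg S) := by
        intro g hg
        rw [mem_LS, mem_insert] at hg
        rcases hg with hg | hg
        · have h9 : g ∈ sp N (insert e (LS leg {j})) := by
            rw [h7]
            exact mem_sp (by simp [hg])
          refine mem_sp_trans ?_ h9
          intro x hx
          rcases mem_insert.1 hx with rfl | hx
          · exact h3
          · exact sp_mono (LS_mono (singleton_subset_iff.2 hj)) (mem_sp hx)
        · exact mem_sp (mem_LS.2 hg)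
      have h9 : rk N (LS leg (insert (leg e) S)) ≤ rk N (LS leg S) :=
        rk_le_of_sp_le (sp_le_iff.2 h8)
      have h10 : rk N (LS leg S) ≤ rk N (LS leg (insert (leg e) S)) :=
        rk_mono (LS_mono (subset_insert _ _))
      omega

end

end Ca3.Ab
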