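import Pool.Agent.Lib.MP_ca3eb1_co.AbInterface
import Pool.Agent.Lib.MP_ca3eb1_co.AbLegs
import Pool.Agent.Lib.MP_ca3eb1_co.HoleFive
import Pool.Agent.Lib.MP_ca3eb1_co.PlaneFlat

/-! # PlaneFlat and HoleFive for abstract rank functions -/

set_option linter.unusedSectionVars false

namespace Ca3.Ab

open Finset

/-! ### The simplified contraction `N / x` on a set `S` -/

section contraction

variable {K V E : Type*} [Field K] [AddCommGroup V] [Module K V] [FiniteDimensional K V]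
  [DecidableEq E] [Fintype E] {N : RF E} {x : E} {w : E → V} {F T S : Finset E}

theorem ahf_rk_x (h : RepAt K N x w) : Ca3.rk K w {x} = 0 := by
  have h1 := h.rk_eq (mem_singleton_self x)
  omega

/-- the rank function of the simplified contraction -/
theorem ahf_rk_qc (h : RepAt K N x w) (hN : Simple N) (Z : Finset S) :
    Ca3.rk K (qc K w {x} S) Z + 1 =
      rk N (insert x (Z.map (Function.Embedding.subtype _))) := by
  have h1 := Ca3.rk_qc (K := K) (v := w) (Y := {x}) Z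
  have h2 := h.rk_eq_one hN (Z := Z.map (Function.Embedding.subtype _) ∪ {x})
    (mem_union_right _ (mem_singleton_self x))
  rw [ahf_rk_x h] at h1
  rw [insert_eq, union_comm]
  omega

/-- the rank function of the simplified contraction on a flat which does not contain `x` -/
theorem ahf_rk_qc_off (h : RepAt K N x w) (hN : Simple N) (hF : IsFl N F) (hx : x ∉ F)
    (Z : Finset S) (hZ : ∀ z ∈ Z, (z : E) ∈ F) :
    Ca3.rk K (qc K w {x} S) Z = rk N (Z.map (Function.Embedding.subtype _)) := by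
  have h1 := ahf_rk_qc h hN Z
  have h2 : x ∉ sp N (Z.map (Function.Embedding.subtype _)) := by
    intro h'
    apply hx
    apply hF.mem
    refine sp_mono ?_ h'
    intro c hc
    obtain ⟨z, hz, rfl⟩ := Finset.mem_map.1 hc
    exact hZ z hz
  rw [rk_insert_of_not_mem_sp h2] at h1
  omega

/-- a system of representatives of `N / x` which contains a flat -/
theorem ahf_reps (h : RepAt K N x w) (hN : Simple N) (hF : IsFl N F) (hx : x ∉ F)
    (hFT : F ⊆ T) : ∃ R, F ⊆ R ∧ IsReps K w {x} T R := by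
  apply h.exists_reps (mem_singleton_self x) hFT
  · intro r hr h'
    exact hx (hN.2 r x h' ▸ hr)
  · intro r hr s hs h'
    by_contra hrs
    have h1 : r ∉ sp N {s} := fun h' => hrs (hN.2 _ _ h')
    have h2 : r ∈ sp N (insert x {s}) := by
      rwa [Finset.pair_comm] at h'
    have h3 := mem_sp_insert_exchange h2 h1
    exact hx (hF.mem (sp_mono (insert_subset hr (singleton_subset_iff.2 hs)) h3))

/-- A strict gammoid is carried over by a rank preserving bijection onto a subset. -/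
theorem ahf_SG_of_rank_iso {E₁ : Type*} [Fintype E₁] [DecidableEq E₁] {u : E₁ → V}
    {j : E₁ → E} (hj : Function.Injective j) (hjs : ∀ f ∈ F, ∃ e, j e = f)
    (hr : ∀ Z : Finset E₁, Ca3.rk K u Z = rk N (Z.image j)) (hs : Ca3.SG K u ∅ univ) :
    SG N ∅ F := by
  classical
  obtain ⟨n, A, hA⟩ := hs
  refine ⟨n, fun i => (A i).image j, ?_⟩
  intro Z _ hZF
  set Z₁ : Finset E₁ := univ.filter (fun e => j e ∈ Z) with hZ₁
  have himg : Z₁.image j = Z := by
    ext f
    constructor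
    · intro hf
      obtain ⟨e, he, rfl⟩ := Finset.mem_image.1 hf
      exact (mem_filter.1 he).2
    · intro hf
      obtain ⟨e, rfl⟩ := hjs f (hZF hf)
      exact mem_image_of_mem _ (mem_filter.2 ⟨mem_univ _, hf⟩)
  have hcard : Z₁.card = Z.card := by
    rw [← himg, card_image_of_injective _ hj]
  have hrk : Ca3.rk K u Z₁ = rk N Z := by rw [hr, himg]
  have hcnt : cnt (fun i => (A i).image j) Z = cnt A Z₁ := by
    unfold cnt
    congr 1
    ext i
    simp only [mem_filter, mem_univ, true_and]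
    constructor
    · intro h e he
      exact mem_filter.2 ⟨mem_univ _, h (mem_image_of_mem _ he)⟩
    · intro h f hf
      obtain ⟨e, he, rfl⟩ := Finset.mem_image.1 hf
      exact (mem_filter.1 (h he)).2
  obtain ⟨h1, h2⟩ := hA Z₁ (empty_subset _) (subset_univ _)
  rw [hcnt, ← hrk, ← hcard]
  refine ⟨h1, fun hfl => h2 ?_⟩
  apply subset_antisymm _ Ca3.subset_cl
  intro e he
  rw [Ca3.mem_cl, ← Ca3.rk_insert_eq_iff, hr, hr, image_insert, himg, rk_insert_eq_iff] at he
  exact mem_filter.2 ⟨mem_univ _, hfl.mem he⟩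

end contraction

section plane

variable {K E : Type*} [Field K] [Fintype K] [DecidableEq E] [Fintype E] {N : RF E}

/-- flats of rank 3 are strict gammoids -/
theorem SG_of_plane (hN : Simple N) (hq : RepC K N) (hs : ∀ x, SG N {x} univ) {F : Finset E}
    (hF : IsFl N F) (hF3 : rk N F = 3) (hne : F ≠ univ) : SG N ∅ F := by
  classical
  obtain ⟨x, hx⟩ : ∃ x, x ∉ F := by
    by_contra hc
    push Not at hc
    exact hne (eq_univ_iff_forall.2 hc)
  obtain ⟨m, w, h⟩ := hq x
  have hxF : x ∉ sp N F := fun h => hx (hF.mem h)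
  set T : Finset E := cl N (insert x F) with hT
  have hTfl : IsFl N T := isFl_cl
  have hxT : ({x} : Finset E) ⊆ T :=
    (singleton_subset_iff.2 (mem_insert_self _ _)).trans subset_cl
  have hFT : F ⊆ T := (subset_insert _ _).trans subset_cl
  have hrT : rk N T = 4 := by
    rw [hT, rk_cl, rk_insert_of_not_mem_sp hxF, hF3]
  obtain ⟨R, hFR, hR⟩ := ahf_reps h hN hF hx hFT
  have hq : Ca3.Simple K (qc K w {x} R) := qc_simple hR
  have hq3 : Ca3.rk K (qc K w {x} R) univ = 3 := by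
    have := h.rk_qc_univ (mem_singleton_self x) hR hxT
    rw [hN.1 x] at this
    omega
  have hqs : Ca3.SG K (qc K w {x} R) ∅ univ :=
    h.transfer_SG hN (mem_singleton_self x) hTfl hxT hR ((hs x).mono subset_rfl (subset_univ _))
  -- rank function on `F`
  have htrF : ∀ z ∈ tr R F, (z : E) ∈ F := by
    intro z hz
    simpa [tr] using hz
  have hmapF : (tr R F).map (Function.Embedding.subtype _) = F := by
    apply subset_antisymm
    · intro e he
      obtain ⟨r, hr, rfl⟩ := Finset.mem_map.1 he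
      exact htrF r hr
    · intro e he
      exact Finset.mem_map.2 ⟨⟨e, hFR he⟩, by simpa [tr] using he, rfl⟩
  have hS : Ca3.rk K (qc K w {x} R) (tr R F) = 3 := by
    rw [ahf_rk_qc_off h hN hF hx _ htrF, hmapF, hF3]
  have hsub := SG_sub3 hq hq3 hqs hS
  refine ahf_SG_of_rank_iso (j := fun e : (tr R F) => ((e : R) : E)) ?_ ?_ ?_ hsub
  · intro e f h
    exact Subtype.ext (Subtype.ext h)
  · intro f hf
    exact ⟨⟨⟨f, hFR hf⟩, by simpa [tr] using hf⟩, rfl⟩
  · intro Z
    have h1 := Ca3.rk_restrict (K := K) (v := qc K w {x} R) (F := tr R F) Z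
    have h3 : (Z.map (Function.Embedding.subtype (fun r => r ∈ tr R F))).map
        (Function.Embedding.subtype _) = Z.image (fun e : (tr R F) => ((e : R) : E)) := by
      ext e
      simp only [Finset.mem_map, Finset.mem_image, Function.Embedding.coe_subtype]
      constructor
      · rintro ⟨r, ⟨z, hz, rfl⟩, rfl⟩
        exact ⟨z, hz, rfl⟩
      · rintro ⟨z, hz, rfl⟩
        exact ⟨z, ⟨z, hz, rfl⟩, rfl⟩
    have h4 : ∀ r ∈ Z.map (Function.Embedding.subtype (fun r => r ∈ tr R F)), (r : E) ∈ F := by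
      intro r hr
      obtain ⟨z, hz, rfl⟩ := Finset.mem_map.1 hr
      exact htrF _ z.2
    rw [h1, ahf_rk_qc_off h hN hF hx _ h4, h3]

end plane

section full

variable {K V E : Type*} [Field K] [AddCommGroup V] [Module K V] [FiniteDimensional K V]
  [DecidableEq E] [Fintype E] {N : RF E} {x : E} {w : E → V} {F S : Finset E}

/-- two lines through `q` and a point outside their plane (in a contraction of rank 4) -/
theorem ahf_two_full (h : RepAt K N x w) (hN : Simple N) (h5 : rk N univ = 5)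
    (hF : IsFl N F) (hx : x ∉ F) (hFS : F ⊆ S) (hw : Ca3.Simple K (qc K w {x} S))
    (hS4 : Ca3.rk K (qc K w {x} S) univ = 4) {q : S} (hqF : (q : E) ∉ F)
    {L L' : Finset S} (hL : Ca3.IsFl K (qc K w {x} S) L)
    (hL2 : Ca3.rk K (qc K w {x} S) L = 2)
    (hL' : Ca3.IsFl K (qc K w {x} S) L') (hL2' : Ca3.rk K (qc K w {x} S) L' = 2) (hne : L ≠ L')
    (hqL : q ∈ L) (hqL' : q ∈ L') {f1 f2 g1 g2 : S} (hf1 : f1 ∈ L) (hf2 : f2 ∈ L)
    (hf : f1 ≠ f2) (hg1 : g1 ∈ L') (hg2 : g2 ∈ L') (hg : g1 ≠ g2) (hf1F : (f1 : E) ∈ F)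
    (hf2F : (f2 : E) ∈ F) (hg1F : (g1 : E) ∈ F) (hg2F : (g2 : E) ∈ F) :
    ∃ X1 X2 X3, Hole N X1 X2 X3 := by
  have hspL : ∀ {M : Finset S} {a b : S}, Ca3.rk K (qc K w {x} S) M = 2 → a ∈ M → b ∈ M →
      a ≠ b → Ca3.sp K (qc K w {x} S) {a, b} = Ca3.sp K (qc K w {x} S) M := by
    intro M a b hM ha hb hab
    apply Ca3.sp_eq_of_subset_of_rk_le
    · intro c hc
      rcases mem_insert.1 hc with rfl | hc
      · exact ha
      · rw [mem_singleton.1 hc]; exact hb
    · rw [hM, hw.rk_pair hab]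
  have hplane : Ca3.rk K (qc K w {x} S) (L ∪ L') = 3 := by
    apply le_antisymm
    · have h1 := Ca3.rk_union_add_rk_inter (K := K) (v := qc K w {x} S) (X := L) (Y := L')
      have h2 : 1 ≤ Ca3.rk K (qc K w {x} S) (L ∩ L') := by
        rw [← hw.rk_singleton (e := q)]
        exact Ca3.rk_mono (singleton_subset_iff.2 (mem_inter.2 ⟨hqL, hqL'⟩))
      omega
    · by_contra hc
      apply hne
      have e1 : Ca3.cl K (qc K w {x} S) (L ∪ L') = L := by
        symm
        apply hL.eq_of_subset_of_rk_le (subset_union_left.trans Ca3.subset_cl)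
        rw [Ca3.rk_cl]; omega
      have e2 : Ca3.cl K (qc K w {x} S) (L ∪ L') = L' := by
        symm
        apply hL'.eq_of_subset_of_rk_le (subset_union_right.trans Ca3.subset_cl)
        rw [Ca3.rk_cl]; omega
      rw [← e1, e2]
  obtain ⟨q', hq'⟩ : ∃ q' : S, qc K w {x} S q' ∉ Ca3.sp K (qc K w {x} S) (L ∪ L') := by
    by_contra hc
    push Not at hc
    have : Ca3.rk K (qc K w {x} S) univ ≤ Ca3.rk K (qc K w {x} S) (L ∪ L') :=
      Ca3.rk_le_of_sp_le (Ca3.sp_le_iff.2 fun e _ => hc e)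
    omega
  have hqq : q ≠ q' := by
    rintro rfl
    exact hq' (Ca3.mem_sp (mem_union_left _ hqL))
  -- ranks in the contraction
  have c4 : Ca3.rk K (qc K w {x} S) {f1, f2, g1, g2} = 3 := by
    rw [← hplane]
    apply Ca3.rk_congr
    apply le_antisymm
    · apply Ca3.sp_mono
      intro c hc
      simp only [mem_insert, mem_singleton] at hc
      rcases hc with rfl | rfl | rfl | rfl
      · exact mem_union_left _ hf1
      · exact mem_union_left _ hf2
      · exact mem_union_right _ hg1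
      · exact mem_union_right _ hg2
    · rw [Ca3.sp_le_iff]
      intro e he
      rcases mem_union.1 he with he | he
      · have h4 : qc K w {x} S e ∈ Ca3.sp K (qc K w {x} S) {f1, f2} := by
          rw [hspL hL2 hf1 hf2 hf]; exact Ca3.mem_sp he
        refine Ca3.sp_mono ?_ h4
        intro c hc
        simp only [mem_insert, mem_singleton] at hc ⊢
        tauto
      · have h4 : qc K w {x} S e ∈ Ca3.sp K (qc K w {x} S) {g1, g2} := by
          rw [hspL hL2' hg1 hg2 hg]; exact Ca3.mem_sp he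
        refine Ca3.sp_mono ?_ h4
        intro c hc
        simp only [mem_insert, mem_singleton] at hc ⊢
        tauto
  have c3 : ∀ {M : Finset S} {a b : S}, Ca3.rk K (qc K w {x} S) M = 2 → a ∈ M → b ∈ M →
      a ≠ b → q ∈ M → M ⊆ L ∪ L' → Ca3.rk K (qc K w {x} S) {q', q, a, b} = 3 := by
    intro M a b hM ha hb hab hqM hMu
    have h1 : Ca3.sp K (qc K w {x} S) {q, a, b} = Ca3.sp K (qc K w {x} S) M := by
      apply le_antisymm
      · apply Ca3.sp_mono
        intro c hc
        simp only [mem_insert, mem_singleton] at hc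
        rcases hc with rfl | rfl | rfl
        · exact hqM
        · exact ha
        · exact hb
      · rw [← hspL hM ha hb hab]
        exact Ca3.sp_mono (subset_insert _ _)
    have h2 : qc K w {x} S q' ∉ Ca3.sp K (qc K w {x} S) {q, a, b} := by
      rw [h1]
      exact fun h' => hq' (Ca3.sp_mono hMu h')
    rw [Ca3.rk_insert_of_not_mem_sp h2, Ca3.rk_congr h1, hM]
  have c6 : 4 ≤ Ca3.rk K (qc K w {x} S) ({q', q, f1, f2, g1, g2} : Finset S) := by
    have h3 := Ca3.rk_insert_of_not_mem_sp hq'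
    rw [hplane] at h3
    refine h3.symm.le.trans (Ca3.rk_le_of_sp_le ?_)
    rw [Ca3.sp_le_iff]
    intro e he
    rcases mem_insert.1 he with rfl | he
    · exact Ca3.mem_sp (by simp)
    · rcases mem_union.1 he with he | he
      · have h4 : qc K w {x} S e ∈ Ca3.sp K (qc K w {x} S) {f1, f2} := by
          rw [hspL hL2 hf1 hf2 hf]; exact Ca3.mem_sp he
        refine Ca3.sp_mono ?_ h4
        intro c hc
        simp only [mem_insert, mem_singleton] at hc ⊢
        tauto
      · have h4 : qc K w {x} S e ∈ Ca3.sp K (qc K w {x} S) {g1, g2} := by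
          rw [hspL hL2' hg1 hg2 hg]; exact Ca3.mem_sp he
        refine Ca3.sp_mono ?_ h4
        intro c hc
        simp only [mem_insert, mem_singleton] at hc ⊢
        tauto
  -- ranks in `N`
  have r2 : rk N {(f1 : E), (f2 : E)} = 2 := hN.rk_pair fun h => hf (Subtype.ext h)
  have r3 : rk N {(g1 : E), (g2 : E)} = 2 := hN.rk_pair fun h => hg (Subtype.ext h)
  have r1 : rk N {(q : E), (q' : E), x} = 3 := by
    have h1 := ahf_rk_qc h hN ({q, q'} : Finset S)
    rw [hw.rk_pair hqq] at h1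
    rw [show (3 : ℕ) = 2 + 1 by rfl, h1]
    congr 1
    ext c
    simp only [mem_insert, mem_singleton, Finset.mem_map, Function.Embedding.subtype_apply]
    constructor
    · rintro (rfl | rfl | rfl)
      · exact Or.inr ⟨q, Or.inl rfl, rfl⟩
      · exact Or.inr ⟨q', Or.inr rfl, rfl⟩
      · exact Or.inl rfl
    · rintro (rfl | ⟨d, rfl | rfl, rfl⟩) <;> simp
  have r23 : rk N ({(f1 : E), (f2 : E)} ∪ {(g1 : E), (g2 : E)}) = 3 := by
    have h1 := ahf_rk_qc_off h hN hF hx ({f1, f2, g1, g2} : Finset S) (by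
      intro z hz
      simp only [mem_insert, mem_singleton] at hz
      rcases hz with rfl | rfl | rfl | rfl <;> assumption)
    rw [c4] at h1
    rw [h1]
    congr 1
    ext c
    simp only [mem_union, mem_insert, mem_singleton, Finset.mem_map,
      Function.Embedding.subtype_apply]
    constructor
    · rintro ((rfl | rfl) | (rfl | rfl))
      · exact ⟨f1, by simp, rfl⟩
      · exact ⟨f2, by simp, rfl⟩
      · exact ⟨g1, by simp, rfl⟩
      · exact ⟨g2, by simp, rfl⟩
    · rintro ⟨d, rfl | rfl | rfl | rfl, rfl⟩ <;> simp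
  have r1M : ∀ {M : Finset S} {a b : S}, Ca3.rk K (qc K w {x} S) M = 2 → a ∈ M → b ∈ M →
      a ≠ b → q ∈ M → M ⊆ L ∪ L' →
      rk N ({(q : E), (q' : E), x} ∪ {(a : E), (b : E)}) = 4 := by
    intro M a b hM ha hb hab hqM hMu
    have h1 := ahf_rk_qc h hN ({q', q, a, b} : Finset S)
    rw [c3 hM ha hb hab hqM hMu] at h1
    rw [show (4 : ℕ) = 3 + 1 by rfl, h1]
    congr 1
    ext c
    simp only [mem_union, mem_insert, mem_singleton, Finset.mem_map,
      Function.Embedding.subtype_apply]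
    constructor
    · rintro ((rfl | rfl | rfl) | (rfl | rfl))
      · exact Or.inr ⟨q, by simp, rfl⟩
      · exact Or.inr ⟨q', by simp, rfl⟩
      · exact Or.inl rfl
      · exact Or.inr ⟨a, by simp, rfl⟩
      · exact Or.inr ⟨b, by simp, rfl⟩
    · rintro (rfl | ⟨d, rfl | rfl | rfl | rfl, rfl⟩) <;> simp
  have r12 := r1M hL2 hf1 hf2 hf hqL subset_union_left
  have r13 := r1M hL2' hg1 hg2 hg hqL' subset_union_right
  have r123 : rk N ({(q : E), (q' : E), x} ∪ {(f1 : E), (f2 : E)} ∪ {(g1 : E), (g2 : E)}) = 5 := by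
    apply le_antisymm
    · rw [← h5]; exact rk_mono (subset_univ _)
    · have h1 := ahf_rk_qc h hN ({q', q, f1, f2, g1, g2} : Finset S)
      have h2 : rk N (insert x (({q', q, f1, f2, g1, g2} : Finset S).map
          (Function.Embedding.subtype _))) ≤
          rk N ({(q : E), (q' : E), x} ∪ {(f1 : E), (f2 : E)} ∪ {(g1 : E), (g2 : E)}) := by
        apply rk_mono
        intro c hc
        simp only [mem_union, Finset.mem_map, mem_insert, mem_singleton] at hc ⊢
        rcases hc with hc | ⟨d, hd, rfl⟩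
        · tauto
        · rcases hd with rfl | rfl | rfl | rfl | rfl | rfl <;> simp
      omega
  refine ⟨{(q : E), (q' : E), x}, {(f1 : E), (f2 : E)}, {(g1 : E), (g2 : E)},
    ⟨by omega, by omega, by omega, by omega, by omega, by omega, by omega, ?_⟩⟩
  -- there is no common element
  rintro e ⟨-, he2, he3⟩
  have heF : e ∈ F := by
    apply hF.mem
    refine sp_mono ?_ he2
    intro c hc
    rcases mem_insert.1 hc with rfl | hc
    · exact hf1F
    · rw [mem_singleton.1 hc]; exact hf2F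
  obtain ⟨e', rfl⟩ : ∃ e' : S, (e' : E) = e := ⟨⟨e, hFS heF⟩, rfl⟩
  have hmem : ∀ {M : Finset S} {a b : S}, Ca3.IsFl K (qc K w {x} S) M → a ∈ M → b ∈ M →
      (e' : E) ∈ sp N {(a : E), (b : E)} → e' ∈ M := by
    intro M a b hM ha hb he
    apply hM.mem
    rw [← Ca3.rk_insert_eq_iff]
    have h1 := ahf_rk_qc h hN M
    have h2 := ahf_rk_qc h hN (insert e' M)
    have h3 : rk N (insert x ((insert e' M).map (Function.Embedding.subtype _))) =
        rk N (insert x (M.map (Function.Embedding.subtype _))) := by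
      rw [map_insert, insert_comm]
      apply rk_insert_of_mem_sp
      refine sp_mono ?_ he
      intro c hc
      apply mem_insert_of_mem
      rcases mem_insert.1 hc with rfl | hc
      · exact Finset.mem_map.2 ⟨a, ha, rfl⟩
      · rw [mem_singleton.1 hc]
        exact Finset.mem_map.2 ⟨b, hb, rfl⟩
    omega
  have h1 : e' ∈ L := hmem hL hf1 hf2 he2
  have h2 : e' ∈ L' := hmem hL' hg1 hg2 he3
  have h3 : e' ≠ q := by
    rintro rfl
    exact hqF heF
  have h4 := Ca3.rk_union_add_rk_inter (K := K) (v := qc K w {x} S) (X := L) (Y := L')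
  have h5 : 2 ≤ Ca3.rk K (qc K w {x} S) (L ∩ L') := by
    rw [← hw.rk_pair h3]
    apply Ca3.rk_mono
    intro c hc
    rcases mem_insert.1 hc with rfl | hc
    · exact mem_inter.2 ⟨h1, h2⟩
    · rw [mem_singleton.1 hc]
      exact mem_inter.2 ⟨hqL, hqL'⟩
  omega

end full

variable {K E : Type*} [Field K] [Fintype K] [DecidableEq E] [Fintype E] {N : RF E}

theorem hole_five (hK : Fintype.card K = 4) (hN : Simple N) (hq : RepC K N)
    (h5 : rk N univ = 5) (hs : ∀ x, SG N {x} univ) {F : Finset E} (hF : IsFl N F)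
    (hF4 : rk N F = 4) (hn : ¬ SG N ∅ F) (hp : ∀ P, IsFl N P → P ⊆ F → P ≠ F → SG N ∅ P) :
    ∃ X1 X2 X3, Hole N X1 X2 X3 := by
  -- the centre `x`
  obtain ⟨x, hx⟩ : ∃ x, x ∉ F := by
    by_contra hc
    push Not at hc
    have : F = univ := eq_univ_of_forall hc
    rw [this, h5] at hF4
    omega
  obtain ⟨m, w, h⟩ := hq x
  have hxF : x ∉ sp N F := fun h => hx (hF.mem h)
  -- representatives
  obtain ⟨R, hFR, hR⟩ := ahf_reps h hN hF hx (subset_univ F)
  have hSGR : Ca3.SG K (qc K w {x} R) ∅ univ :=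
    h.transfer_SG hN (mem_singleton_self x) isFl_univ (subset_univ _) hR (hs x)
  -- a minimal set `S`
  obtain ⟨S, hS, hmin⟩ : ∃ S : Finset E, (F ⊆ S ∧ S ⊆ R ∧ Ca3.SG K (qc K w {x} S) ∅ univ) ∧
      ∀ S' : Finset E, (F ⊆ S' ∧ S' ⊆ R ∧ Ca3.SG K (qc K w {x} S') ∅ univ) →
        S.card ≤ S'.card := by
    classical
    obtain ⟨S, hS1, hS2⟩ := ((univ : Finset (Finset E)).filter
      (fun S => F ⊆ S ∧ S ⊆ R ∧ Ca3.SG K (qc K w {x} S) ∅ univ)).exists_min_image card
      ⟨R, mem_filter.2 ⟨mem_univ _, hFR, subset_rfl, hSGR⟩⟩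
    refine ⟨S, (mem_filter.1 hS1).2, fun S' hS' => hS2 S' (mem_filter.2 ⟨mem_univ _, hS'⟩)⟩
  obtain ⟨hFS, hSR, hSG⟩ := hS
  have hw : Ca3.Simple K (qc K w {x} S) := by
    have := qc_simple hR
    refine ⟨fun e => this.1 ⟨e, hSR e.2⟩, fun e f hef => ?_⟩
    have h1 := this.2 ⟨e, hSR e.2⟩ ⟨f, hSR f.2⟩ hef
    exact Subtype.ext (congrArg (fun z : R => (z : E)) h1)
  have hrkF : ∀ (S' : Finset E) (Z : Finset S'), (∀ z ∈ Z, (z : E) ∈ F) →
      Ca3.rk K (qc K w {x} S') Z = rk N (Z.map (Function.Embedding.subtype _)) :=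
    fun S' Z hZ => ahf_rk_qc_off h hN hF hx Z hZ
  have hle4 : ∀ (S' : Finset E) (Z : Finset S'), Ca3.rk K (qc K w {x} S') Z ≤ 4 := by
    intro S' Z
    have h1 := ahf_rk_qc h hN Z
    have h2 : rk N (insert x (Z.map (Function.Embedding.subtype _))) ≤ rk N univ :=
      rk_mono (subset_univ _)
    omega
  have hge4 : ∀ (S' : Finset E) (Z : Finset S'), (∀ e (he : e ∈ S'), e ∈ F → ⟨e, he⟩ ∈ Z) →
      F ⊆ S' → Ca3.rk K (qc K w {x} S') Z = 4 := by
    intro S' Z hZ hFS'
    apply le_antisymm (hle4 S' Z)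
    have h1 := hrkF S' (Z.filter (fun z : S' => (z : E) ∈ F)) (fun z hz => (mem_filter.1 hz).2)
    have h2 : (Z.filter (fun z : S' => (z : E) ∈ F)).map (Function.Embedding.subtype _) = F := by
      ext e
      simp only [Finset.mem_map, mem_filter, Function.Embedding.subtype_apply]
      constructor
      · rintro ⟨z, ⟨-, hz⟩, rfl⟩; exact hz
      · intro he
        exact ⟨⟨e, hFS' he⟩, ⟨hZ e _ he, he⟩, rfl⟩
    rw [h2, hF4] at h1
    rw [← h1]
    exact Ca3.rk_mono (filter_subset _ _)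
  have hS4 : Ca3.rk K (qc K w {x} S) univ = 4 := hge4 S univ (fun _ _ _ => mem_univ _) hFS
  -- `S` is not `F`
  have hSF : S ≠ F := by
    rintro rfl
    apply hn
    refine ahf_SG_of_rank_iso (j := fun e : S => (e : E)) Subtype.val_injective
      (fun f hf => ⟨⟨f, hf⟩, rfl⟩) ?_ hSG
    intro Z
    rw [hrkF S Z (fun z _ => z.2)]
    congr 1
    ext e
    simp
  -- every element of `S \ F` is fat
  have hfat : ∀ q : S, (q : E) ∉ F → Fat K (qc K w {x} S) q := by
    intro q hq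
    apply fat_of_not_SG hw hS4 hSG
    · apply hge4 S _ _ hFS
      intro e he heF
      rw [mem_erase]
      refine ⟨fun h => hq ?_, mem_univ _⟩
      rw [← h]; exact heF
    · intro hsg
      have h1 : Ca3.SG K (qc K w {x} (S.erase q)) ∅ univ := by
        let σ : (S.erase (q : E) : Finset E) ≃ (univ.erase q : Finset S) :=
          { toFun := fun e => ⟨⟨e, mem_of_mem_erase e.2⟩, mem_erase.2
              ⟨fun h => (mem_erase.1 e.2).1 (congrArg Subtype.val h), mem_univ _⟩⟩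
            invFun := fun e => ⟨e.1.1, mem_erase.2
              ⟨fun h => (mem_erase.1 e.2).1 (Subtype.ext h), e.1.2⟩⟩
            left_inv := fun e => rfl
            right_inv := fun e => rfl }
        have h2 := h5_SG_equiv (K := K)
          (v := fun e : (univ.erase q : Finset S) => qc K w {x} S e) σ hsg
        exact h2
      have h2 := hmin (S.erase q) ⟨fun e he => mem_erase.2 ⟨fun h => hq (h ▸ he), hFS he⟩,
        (erase_subset _ _).trans hSR, h1⟩
      have h3 := card_erase_lt_of_mem q.2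
      omega
  by_cases hfull : ∃ q : S, (q : E) ∉ F ∧ ∃ L L' : Finset S, L ≠ L' ∧
      Ca3.IsFl K (qc K w {x} S) L ∧ Ca3.rk K (qc K w {x} S) L = 2 ∧
      Ca3.IsFl K (qc K w {x} S) L' ∧ Ca3.rk K (qc K w {x} S) L' = 2 ∧ q ∈ L ∧ q ∈ L' ∧
      (∃ f1 ∈ L, ∃ f2 ∈ L, f1 ≠ f2 ∧ (f1 : E) ∈ F ∧ (f2 : E) ∈ F) ∧
      (∃ f1 ∈ L', ∃ f2 ∈ L', f1 ≠ f2 ∧ (f1 : E) ∈ F ∧ (f2 : E) ∈ F)
  · obtain ⟨q, hq, L, L', hne, hL, hL2, hL', hL2', hqL, hqL', ⟨f1, hf1, f2, hf2, hf, hf1F, hf2F⟩,
      ⟨g1, hg1, g2, hg2, hg, hg1F, hg2F⟩⟩ := hfull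
    exact ahf_two_full h hN h5 hF hx hFS hw hS4 hq hL hL2 hL' hL2' hne
      hqL hqL' hf1 hf2 hf hg1 hg2 hg hf1F hf2F hg1F hg2F
  · exfalso
    obtain ⟨q0, hq0S, hq0F⟩ : ∃ q ∈ S, q ∉ F := by
      by_contra hc
      push Not at hc
      exact hSF (subset_antisymm hc hFS)
    obtain ⟨L1, L2, L3, h1, h2, h3, q1, q2, q3, hr⟩ := hfat ⟨q0, hq0S⟩ hq0F
    -- the lines are different
    have hne : ∀ {A B C : Finset S}, HL K (qc K w {x} S) A → HL K (qc K w {x} S) C →
        (⟨q0, hq0S⟩ : S) ∈ A → (⟨q0, hq0S⟩ : S) ∈ C →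
        A ∪ B ∪ C = A ∪ C → Ca3.rk K (qc K w {x} S) (A ∪ B ∪ C) = 4 → False := by
      intro A B C hA hC hqA hqC he hr'
      rw [he] at hr'
      have h1 := Ca3.rk_union_add_rk_inter (K := K) (v := qc K w {x} S) (X := A) (Y := C)
      have h2 : 1 ≤ Ca3.rk K (qc K w {x} S) (A ∩ C) := by
        rw [← hw.rk_singleton (e := (⟨q0, hq0S⟩ : S))]
        exact Ca3.rk_mono (singleton_subset_iff.2 (mem_inter.2 ⟨hqA, hqC⟩))
      have := hA.2.1
      have := hC.2.1
      omega
    have h12 : L1 ≠ L2 := by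
      rintro rfl
      exact hne (B := L1) h1 h3 q1 q3 (by simp) hr
    have h23 : L2 ≠ L3 := by
      rintro rfl
      exact hne (B := L2) h1 h2 q1 q2 (by rw [union_assoc, union_self]) hr
    have h13 : L1 ≠ L3 := by
      rintro rfl
      exact hne (A := L2) (B := L1) (C := L1) h2 h1 q2 q1 (by rw [union_assoc, union_self])
        (by rw [union_assoc, union_self, union_comm]; rwa [union_right_comm, union_self] at hr)
    -- a non-full line contains another element outside `F`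
    have hother : ∀ A : Finset S, HL K (qc K w {x} S) A → (⟨q0, hq0S⟩ : S) ∈ A →
        ¬ (∃ f1 ∈ A, ∃ f2 ∈ A, f1 ≠ f2 ∧ (f1 : E) ∈ F ∧ (f2 : E) ∈ F) →
        ∃ r ∈ A, r ≠ ⟨q0, hq0S⟩ ∧ (r : E) ∉ F := by
      intro A hA hqA hnf
      by_contra hc
      push Not at hc
      apply hnf
      have h3' := hA.2.2
      have : 1 < (A.erase ⟨q0, hq0S⟩).card := by
        rw [card_erase_of_mem hqA]; omega
      obtain ⟨a, ha, b, hb, hab⟩ := Finset.one_lt_card.1 this
      rw [mem_erase] at ha hb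
      exact ⟨a, ha.2, b, hb.2, hab, hc a ha.2 ha.1, hc b hb.2 hb.1⟩
    have hfin : ∀ A B : Finset S, HL K (qc K w {x} S) A → HL K (qc K w {x} S) B → A ≠ B →
        (⟨q0, hq0S⟩ : S) ∈ A → (⟨q0, hq0S⟩ : S) ∈ B →
        ¬ (∃ f1 ∈ A, ∃ f2 ∈ A, f1 ≠ f2 ∧ (f1 : E) ∈ F ∧ (f2 : E) ∈ F) →
        ¬ (∃ f1 ∈ B, ∃ f2 ∈ B, f1 ≠ f2 ∧ (f1 : E) ∈ F ∧ (f2 : E) ∈ F) → False := by
      intro A B hA hB hAB hqA hqB hnA hnB
      obtain ⟨r, hrA, hrq, hrF⟩ := hother A hA hqA hnA
      obtain ⟨s, hsB, hsq, hsF⟩ := hother B hB hqB hnB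
      exact no_three_fat hK hw hS4 hSG (hfat ⟨q0, hq0S⟩ hq0F) (hfat r hrF) (hfat s hsF)
        hA hB hAB hqA hrA hqB hsB hrq hsq
    have hpair : ∀ A B : Finset S, HL K (qc K w {x} S) A → HL K (qc K w {x} S) B → A ≠ B →
        (⟨q0, hq0S⟩ : S) ∈ A → (⟨q0, hq0S⟩ : S) ∈ B →
        (∃ f1 ∈ A, ∃ f2 ∈ A, f1 ≠ f2 ∧ (f1 : E) ∈ F ∧ (f2 : E) ∈ F) →
        (∃ f1 ∈ B, ∃ f2 ∈ B, f1 ≠ f2 ∧ (f1 : E) ∈ F ∧ (f2 : E) ∈ F) → False := by
      intro A B hA hB hAB hqA hqB hfA hfB
      exact hfull ⟨⟨q0, hq0S⟩, hq0F, A, B, hAB, hA.1, hA.2.1, hB.1, hB.2.1, hqA, hqB, hfA, hfB⟩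
    by_cases f1 : ∃ f1 ∈ L1, ∃ f2 ∈ L1, f1 ≠ f2 ∧ (f1 : E) ∈ F ∧ (f2 : E) ∈ F
    · have f2 := fun h => hpair L1 L2 h1 h2 h12 q1 q2 f1 h
      have f3 := fun h => hpair L1 L3 h1 h3 h13 q1 q3 f1 h
      exact hfin L2 L3 h2 h3 h23 q2 q3 f2 f3
    · by_cases f2 : ∃ f1 ∈ L2, ∃ f2 ∈ L2, f1 ≠ f2 ∧ (f1 : E) ∈ F ∧ (f2 : E) ∈ F
      · have f3 := fun h => hpair L2 L3 h2 h3 h23 q2 q3 f2 h
        exact hfin L1 L3 h1 h3 h13 q1 q3 f1 f3
      · exact hfin L1 L2 h1 h2 h12 q1 q2 f1 f2

end Ca3.Ab
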