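import Pool.Agent.Lib.MP_ca3eb1_co.Restrict

/-! # Module M8: the alpha function, tight configurations -/

set_option linter.unusedSectionVars false

namespace Ca3

open Finset Submodule

variable (K : Type*) {V E : Type*} [Field K] [AddCommGroup V] [Module K V]
  [Fintype E] [DecidableEq E]

open Classical in
/-- Mason's alpha function: `α(Z) = nullity(Z) - ∑ α(G)`, sum over flats `G` strictly inside
`Z`. -/
noncomputable def alpha (v : E → V) (Z : Finset E) : ℤ :=
  (Z.card : ℤ) - rk K v Z - ∑ G ∈ (Z.powerset.filter (fun G => IsFl K v G ∧ G ≠ Z)).attach,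
    alpha v G.1
termination_by Z.card
decreasing_by
  have h := G.2
  simp only [Finset.mem_filter, Finset.mem_powerset] at h
  exact card_lt_card (Finset.ssubset_iff_subset_ne.2 ⟨h.1, h.2.2⟩)

/-- A tight configuration: `α(E) < 0`, all contractions `N / x` are strict gammoids and all
proper flats are strict gammoids. -/
def Tight (v : E → V) : Prop :=
  alpha K v univ < 0 ∧ (∀ x, SG K v {x} univ) ∧ ∀ F, IsFl K v F → F ≠ univ → SG K v ∅ F

variable {K} [FiniteDimensional K V] {v : E → V}

open Classical in
theorem alpha_eq (Z : Finset E) :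
    alpha K v Z = (Z.card : ℤ) - rk K v Z -
      ∑ G ∈ Z.powerset.filter (fun G => IsFl K v G ∧ G ≠ Z), alpha K v G := by
  rw [alpha, sum_attach _ (fun G => alpha K v G)]

open Classical in
/-- the sum of `α` over the flats inside a flat is the nullity -/
theorem alpha_sum_flat {Z : Finset E} (hZ : IsFl K v Z) :
    ∑ G ∈ univ.filter (fun G => IsFl K v G ∧ G ⊆ Z), alpha K v G = (Z.card : ℤ) - rk K v Z := by
  have h1 := alpha_eq (K := K) (v := v) Z
  have h2 : (univ.filter (fun G => IsFl K v G ∧ G ⊆ Z)) =
      insert Z (Z.powerset.filter (fun G => IsFl K v G ∧ G ≠ Z)) := by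
    ext G
    simp only [mem_filter, mem_univ, true_and, mem_insert, mem_powerset]
    constructor
    · rintro ⟨a, b⟩
      by_cases h : G = Z
      · exact Or.inl h
      · exact Or.inr ⟨b, a, h⟩
    · rintro (h | h)
      · subst h; exact ⟨hZ, Subset.refl _⟩
      · exact ⟨h.2.1, h.1⟩
  rw [h2, sum_insert (by simp)]
  linarith

open Classical in
/-- the sum of `α` over the flats inside a set which is not a flat -/
theorem alpha_sum_not_flat {Z : Finset E} (hZ : ¬ IsFl K v Z) :
    ∑ G ∈ univ.filter (fun G => IsFl K v G ∧ G ⊆ Z), alpha K v G =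
      (Z.card : ℤ) - rk K v Z - alpha K v Z := by
  have h1 := alpha_eq (K := K) (v := v) Z
  have h2 : (univ.filter (fun G => IsFl K v G ∧ G ⊆ Z)) =
      (Z.powerset.filter (fun G => IsFl K v G ∧ G ≠ Z)) := by
    ext G
    simp only [mem_filter, mem_univ, true_and, mem_powerset]
    constructor
    · rintro ⟨a, b⟩
      refine ⟨b, a, ?_⟩
      rintro rfl
      exact hZ a
    · rintro h
      exact ⟨h.2.1, h.1⟩
  rw [h2]
  linarith

open Classical in
/-- The number of members of a Mason family spanning a flat `G` over `Y`. -/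
theorem beta {ι : Type*} [Fintype ι] {A : ι → Finset E} {Y T : Finset E}
    (hA : IsMason K v Y T A) {G : Finset E} (hG : IsFl K v G)
    (hYG : Y ⊆ G) (hGT : G ⊆ T) :
    ((univ.filter (fun i => cl K v (A i ∪ Y) = G)).card : ℤ) =
      ∑ G' ∈ univ.filter (fun G' => IsFl K v G' ∧ cl K v (G' ∪ Y) = G), alpha K v G' := by
  induction hn : G.card using Nat.strong_induction_on generalizing G with
  | _ n ih =>
    subst hn
    set S : Finset (Finset E) := univ.filter (fun F => IsFl K v F ∧ Y ⊆ F ∧ F ⊆ G) with hS
    have hGS : G ∈ S := by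
      rw [hS, mem_filter]; exact ⟨mem_univ _, hG, hYG, Subset.refl _⟩
    have e1 : (cnt A G : ℤ) = (G.card : ℤ) - rk K v G := by
      have := hA.eq hYG hGT hG
      omega
    have e2 := alpha_sum_flat (K := K) (v := v) hG
    have e3 : (cnt A G : ℤ) = ∑ F ∈ S, ((univ.filter (fun i => cl K v (A i ∪ Y) = F)).card : ℤ) := by
      unfold cnt
      rw [card_eq_sum_card_fiberwise (f := fun i => cl K v (A i ∪ Y)) (t := S)]
      · push_cast
        apply sum_congr rfl
        intro F hF
        rw [hS, mem_filter] at hF
        congr 1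
        congr 1
        ext i
        simp only [mem_filter, mem_univ, true_and, and_iff_right_iff_imp]
        intro h
        exact (subset_union_left.trans subset_cl).trans (h.le.trans hF.2.2.2)
      · intro i hi
        simp only [coe_filter, mem_univ, true_and, Set.mem_ofPred_eq] at hi
        rw [mem_coe, hS, mem_filter]
        exact ⟨mem_univ _, isFl_cl, subset_union_right.trans subset_cl,
          hG.cl_subset (union_subset hi hYG)⟩
    have e4 : ∑ G' ∈ univ.filter (fun G' => IsFl K v G' ∧ G' ⊆ G), alpha K v G' =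
        ∑ F ∈ S, ∑ G' ∈ univ.filter (fun G' => IsFl K v G' ∧ cl K v (G' ∪ Y) = F), alpha K v G' := by
      rw [← sum_fiberwise_of_maps_to (g := fun G' => cl K v (G' ∪ Y)) (t := S)]
      · apply sum_congr rfl
        intro F hF
        rw [hS, mem_filter] at hF
        apply sum_congr _ (fun _ _ => rfl)
        ext G'
        simp only [mem_filter, mem_univ, true_and]
        constructor
        · rintro ⟨⟨a, _⟩, b⟩; exact ⟨a, b⟩
        · rintro ⟨a, b⟩
          exact ⟨⟨a, (subset_union_left.trans subset_cl).trans (b.le.trans hF.2.2.2)⟩, b⟩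
      · intro G' hG'
        rw [mem_filter] at hG'
        rw [hS, mem_filter]
        exact ⟨mem_univ _, isFl_cl, subset_union_right.trans subset_cl,
          hG.cl_subset (union_subset hG'.2.2 hYG)⟩
    rw [← add_sum_erase _ _ hGS] at e3 e4
    have e5 : ∑ F ∈ S.erase G, ((univ.filter (fun i => cl K v (A i ∪ Y) = F)).card : ℤ) =
        ∑ F ∈ S.erase G, ∑ G' ∈ univ.filter (fun G' => IsFl K v G' ∧ cl K v (G' ∪ Y) = F),
          alpha K v G' := by
      apply sum_congr rfl
      intro F hF
      rw [mem_erase, hS, mem_filter] at hF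
      obtain ⟨hne, _, hF1, hF2, hF3⟩ := hF
      exact ih F.card (card_lt_card (Finset.ssubset_iff_subset_ne.2 ⟨hF3, hne⟩)) hF1 hF2
        (hF3.trans hGT) rfl
    linarith

open Classical in
/-- `beta` for `Y = ∅` -/
theorem beta_empty {ι : Type*} [Fintype ι] {A : ι → Finset E} {T : Finset E}
    (hA : IsMason K v ∅ T A) {G : Finset E} (hG : IsFl K v G) (hGT : G ⊆ T) :
    ((univ.filter (fun i => cl K v (A i) = G)).card : ℤ) = alpha K v G := by
  have h := beta hA hG (empty_subset _) hGT
  simp only [union_empty] at h
  rw [h]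
  have h1 : (univ.filter (fun G' => IsFl K v G' ∧ cl K v G' = G)) = {G} := by
    ext G'
    simp only [mem_filter, mem_univ, true_and, mem_singleton]
    constructor
    · rintro ⟨a, b⟩
      exact a.symm.trans b
    · rintro rfl
      exact ⟨hG, hG⟩
  rw [h1, sum_singleton]

theorem alpha_nonneg {T Z : Finset E} (hs : SG K v ∅ T) (hZ : Z ⊆ T) : 0 ≤ alpha K v Z := by
  classical
  obtain ⟨n, A, hA⟩ := hs
  by_cases hf : IsFl K v Z
  · rw [← beta_empty hA hf hZ]
    positivity
  · have h1 := alpha_sum_not_flat (K := K) (v := v) hf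
    have h2 : ∑ G ∈ univ.filter (fun G => IsFl K v G ∧ G ⊆ Z), alpha K v G =
        ((univ.filter (fun i => cl K v (A i) ⊆ Z)).card : ℤ) := by
      rw [card_eq_sum_card_fiberwise (f := fun i => cl K v (A i))
        (t := univ.filter (fun G => IsFl K v G ∧ G ⊆ Z))]
      · push_cast
        apply sum_congr rfl
        intro G hG
        rw [mem_filter] at hG
        rw [← beta_empty hA hG.2.1 (hG.2.2.trans hZ)]
        congr 1
        congr 1
        ext i
        simp only [mem_filter, mem_univ, true_and]
        constructor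
        · intro h
          exact ⟨h.le.trans hG.2.2, h⟩
        · exact fun h => h.2
      · intro i hi
        simp only [coe_filter, mem_univ, true_and, Set.mem_ofPred_eq] at hi
        rw [mem_coe, mem_filter]
        exact ⟨mem_univ _, isFl_cl, hi⟩
    have h3 : (univ.filter (fun i => cl K v (A i) ⊆ Z)).card ≤ cnt A Z := by
      unfold cnt
      apply card_le_card
      intro i hi
      simp only [mem_filter, mem_univ, true_and] at *
      exact subset_cl.trans hi
    have h4 := hA.le (empty_subset _) hZ
    omega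

theorem SG_of_alpha_nonneg {T : Finset E} (h : ∀ Z ⊆ T, 0 ≤ alpha K v Z) : SG K v ∅ T := by
  classical
  have hM : IsMason K v ∅ T (fun i : (Σ G : {G : Finset E // IsFl K v G ∧ G ⊆ T},
      Fin (alpha K v G.1).toNat) => i.1.1) := by
    intro Z _ hZT
    have h1 : (cnt (fun i : (Σ G : {G : Finset E // IsFl K v G ∧ G ⊆ T},
        Fin (alpha K v G.1).toNat) => i.1.1) Z : ℤ) =
        ∑ G ∈ univ.filter (fun G => IsFl K v G ∧ G ⊆ Z), alpha K v G := by
      unfold cnt
      rw [card_filter, Fintype.sum_sigma]
      have h4 : ∀ x : {G : Finset E // IsFl K v G ∧ G ⊆ T},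
          (∑ _y : Fin (alpha K v x.1).toNat, (if x.1 ⊆ Z then 1 else 0)) =
          (alpha K v x.1).toNat * (if x.1 ⊆ Z then 1 else 0) := by
        intro x
        rw [sum_const, card_univ, Fintype.card_fin, smul_eq_mul]
      rw [Finset.sum_congr rfl (fun x _ => h4 x)]
      push_cast
      have h2 : ∑ x : {G : Finset E // IsFl K v G ∧ G ⊆ T},
          ((alpha K v x.1).toNat : ℤ) * (if x.1 ⊆ Z then 1 else 0) =
          ∑ G ∈ univ.filter (fun G => IsFl K v G ∧ G ⊆ T),
            ((alpha K v G).toNat : ℤ) * (if G ⊆ Z then 1 else 0) := by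
        rw [← sum_subtype (univ.filter (fun G => IsFl K v G ∧ G ⊆ T))
          (p := fun G => IsFl K v G ∧ G ⊆ T) (by simp)
          (fun G => ((alpha K v G).toNat : ℤ) * (if G ⊆ Z then 1 else 0))]
      rw [h2]
      simp only [mul_ite, mul_one, mul_zero]
      rw [← sum_filter, filter_filter]
      have h3 : (univ.filter (fun G => (IsFl K v G ∧ G ⊆ T) ∧ G ⊆ Z)) =
          univ.filter (fun G => IsFl K v G ∧ G ⊆ Z) := by
        ext G
        simp only [mem_filter, mem_univ, true_and]
        constructor
        · rintro ⟨⟨a, _⟩, b⟩; exact ⟨a, b⟩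
        · rintro ⟨a, b⟩; exact ⟨⟨a, b.trans hZT⟩, b⟩
      rw [h3]
      apply sum_congr rfl
      intro G hG
      rw [mem_filter] at hG
      exact Int.toNat_of_nonneg (h G (hG.2.2.trans hZT))
    by_cases hf : IsFl K v Z
    · have h2 := alpha_sum_flat (K := K) (v := v) hf
      refine ⟨by omega, fun _ => by omega⟩
    · have h2 := alpha_sum_not_flat (K := K) (v := v) hf
      have h3 := h Z hZT
      exact ⟨by omega, fun hf' => absurd hf' hf⟩
  exact hM.sg

/-- Sets of nullity at most one are strict gammoids. -/
theorem SG_of_card_le {F : Finset E} (h : F.card ≤ rk K v F + 1) : SG K v ∅ F := by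
  classical
  have hle : rk K v F ≤ F.card := rk_le_card
  by_cases h0 : F.card = rk K v F
  · -- independent
    refine ⟨0, fun i => i.elim0, ?_⟩
    intro Z _ hZ
    have h1 := card_add_rk_le (K := K) (v := v) hZ
    have h2 : rk K v Z ≤ Z.card := rk_le_card
    have h3 : cnt (fun i : Fin 0 => (i.elim0 : Finset E)) Z = 0 := by
      unfold cnt
      simp
    rw [h3]
    exact ⟨by omega, fun _ => by omega⟩
  · have hnul : F.card = rk K v F + 1 := by omega
    set C : Finset E := F.filter (fun e => v e ∈ sp K v (F.erase e)) with hC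
    have hCF : C ⊆ F := filter_subset _ _
    -- the nullity of Z is 1 iff C is inside Z
    have h1 : ∀ k : ℕ, ∀ Z : Finset E, C ⊆ Z → Z ⊆ F → (F \ Z).card = k →
        Z.card = rk K v Z + 1 := by
      intro k
      induction k with
      | zero =>
        intro Z _ hZF hk
        have : F ⊆ Z := by
          rw [card_eq_zero, sdiff_eq_empty_iff_subset] at hk
          exact hk
        have hZe : Z = F := Subset.antisymm hZF this
        rw [hZe]
        exact hnul
      | succ k ih =>
        intro Z hCZ hZF hk
        obtain ⟨e, he⟩ : (F \ Z).Nonempty := by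
          rw [← card_pos]; omega
        rw [mem_sdiff] at he
        have h2 : v e ∉ sp K v Z := by
          intro h3
          apply he.2
          apply hCZ
          rw [hC, mem_filter]
          refine ⟨he.1, sp_mono ?_ h3⟩
          intro z hz
          rw [mem_erase]
          refine ⟨?_, hZF hz⟩
          rintro rfl
          exact he.2 hz
        have h3 := ih (insert e Z) (hCZ.trans (subset_insert _ _))
          (insert_subset he.1 hZF) (by
            have : F \ insert e Z = (F \ Z).erase e := by
              ext x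
              simp only [mem_sdiff, mem_insert, mem_erase]
              tauto
            rw [this, card_erase_of_mem (mem_sdiff.2 he), hk]
            rfl)
        rw [card_insert_of_notMem he.2, rk_insert_of_not_mem_sp h2] at h3
        omega
    refine ⟨1, fun _ => C, ?_⟩
    intro Z _ hZ
    by_cases hCZ : C ⊆ Z
    · have h2 : cnt (fun _ : Fin 1 => C) Z = 1 := by
        unfold cnt
        simp [hCZ]
      have h3 := h1 _ Z hCZ hZ rfl
      rw [h2]
      exact ⟨by omega, fun _ => by omega⟩
    · have h2 : cnt (fun _ : Fin 1 => C) Z = 0 := by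
        unfold cnt
        simp [hCZ]
      obtain ⟨e, heC, heZ⟩ := not_subset.1 hCZ
      rw [hC, mem_filter] at heC
      have h3 : rk K v (F.erase e) = rk K v F := by
        have := rk_insert_of_mem_sp (K := K) (v := v) heC.2
        rw [insert_erase heC.1] at this
        exact this.symm
      have h4 : (F.erase e).card = F.card - 1 := card_erase_of_mem heC.1
      have h5 : Z ⊆ F.erase e := by
        intro z hz
        rw [mem_erase]
        refine ⟨?_, hZ hz⟩
        rintro rfl
        exact heZ hz
      have h6 := card_add_rk_le (K := K) (v := v) h5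
      have h7 : rk K v Z ≤ Z.card := rk_le_card
      rw [h2]
      exact ⟨by omega, fun _ => by omega⟩

/-- T4 -/
theorem Tight.exists_heavy (ht : Tight K v) (x : E) :
    ∃ H, IsFl K v H ∧ rk K v H + 1 = rk K v univ ∧ x ∉ H ∧ 0 < alpha K v H := by
  classical
  obtain ⟨n, A, hA⟩ := ht.2.1 x
  have h1 := beta hA (isFl_univ (K := K) (v := v)) (subset_univ _) (Subset.refl _)
  have hu : (univ : Finset E) ∈ univ.filter
      (fun G' : Finset E => IsFl K v G' ∧ cl K v (G' ∪ {x}) = univ) := by
    rw [mem_filter]
    refine ⟨mem_univ _, isFl_univ, ?_⟩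
    have : (univ : Finset E) ∪ {x} = univ := by simp
    rw [this]
    exact isFl_univ
  rw [← add_sum_erase _ _ hu] at h1
  have h2 : 0 < ∑ G' ∈ (univ.filter
      (fun G' : Finset E => IsFl K v G' ∧ cl K v (G' ∪ {x}) = univ)).erase univ, alpha K v G' := by
    have := ht.1
    have h3 : (0 : ℤ) ≤ ((univ.filter (fun i => cl K v (A i ∪ {x}) = univ)).card : ℤ) := by
      positivity
    linarith
  obtain ⟨H, hH, hpos⟩ := exists_lt_of_sum_lt (s := (univ.filter
      (fun G' : Finset E => IsFl K v G' ∧ cl K v (G' ∪ {x}) = univ)).erase univ)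
      (f := fun _ => (0 : ℤ)) (g := fun G' => alpha K v G') (by simpa using h2)
  rw [mem_erase, mem_filter] at hH
  obtain ⟨hne, _, hf, hcl⟩ := hH
  have hx : x ∉ H := by
    intro hx
    apply hne
    have : H ∪ {x} = H := by
      rw [union_eq_left, singleton_subset_iff]
      exact hx
    rw [this] at hcl
    exact hf.symm.trans hcl
  refine ⟨H, hf, ?_, hx, hpos⟩
  have h3 : rk K v (cl K v (H ∪ {x})) = rk K v (H ∪ {x}) := rk_cl
  rw [hcl] at h3
  have h4 : H ∪ {x} = insert x H := by
    rw [union_comm]; rfl
  have h5 : v x ∉ sp K v H := fun h => hx (hf.mem h)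
  rw [h4, rk_insert_of_not_mem_sp h5] at h3
  exact h3.symm

theorem heavy_self {ι : Type*} [Fintype ι] {A : ι → Finset E} {H : Finset E}
    (hA : IsMason K v ∅ H A) (hH : IsFl K v H) (h0 : 0 < alpha K v H) :
    ∃ i, cl K v (A i) = H := by
  classical
  have h := beta_empty hA hH (Subset.refl _)
  rw [← h] at h0
  have h1 : 0 < (univ.filter (fun i => cl K v (A i) = H)).card := by exact_mod_cast h0
  obtain ⟨i, hi⟩ := card_pos.1 h1
  rw [mem_filter] at hi
  exact ⟨i, hi.2⟩

theorem Tight.heavy_point (ht : Tight K v) {H : Finset E} (hH : IsFl K v H) (hne : H ≠ univ)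
    (h0 : 0 < alpha K v H) {x : E} (hx : x ∈ H) {ι : Type*} [Fintype ι] {A : ι → Finset E}
    (hA : IsMason K v {x} univ A) : ∃ i, cl K v (A i ∪ {x}) = H := by
  classical
  have hs := ht.2.2 H hH hne
  have h := beta hA hH (singleton_subset_iff.2 hx) (subset_univ _)
  have h1 : alpha K v H ≤ ∑ G' ∈ univ.filter
      (fun G' => IsFl K v G' ∧ cl K v (G' ∪ {x}) = H), alpha K v G' := by
    apply single_le_sum (f := fun G' => alpha K v G')
    · intro G' hG'
      rw [mem_filter] at hG'
      exact alpha_nonneg hs ((subset_union_left.trans subset_cl).trans hG'.2.2.le)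
    · rw [mem_filter]
      refine ⟨mem_univ _, hH, ?_⟩
      have : H ∪ {x} = H := by
        rw [union_eq_left, singleton_subset_iff]
        exact hx
      rw [this]
      exact hH
  have h2 : 0 < (univ.filter (fun i => cl K v (A i ∪ {x}) = H)).card := by
    have : (0 : ℤ) < ((univ.filter (fun i => cl K v (A i ∪ {x}) = H)).card : ℤ) := by
      rw [h]; linarith
    exact_mod_cast this
  obtain ⟨i, hi⟩ := card_pos.1 h2
  rw [mem_filter] at hi
  exact ⟨i, hi.2⟩

end Ca3
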