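import Pool.Agent.Lib.MP_ca3eb1_co.AbAlpha
import Pool.Agent.Lib.MP_ca3eb1_co.AbRestrict
import Pool.Agent.Lib.MP_ca3eb1_co.Alpha
import Pool.Agent.Lib.MP_ca3eb1_co.Transfer

/-! # Interface between abstract rank functions and vector configurations

`RepAt K N x w`: the family `w` represents the contraction `N / x` (with `x` as a zero vector).
For a proper flat `F` and `x ∉ F` the family `w` restricted to `F` represents `N` restricted
to `F`. -/

set_option linter.unusedSectionVars false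

namespace Ca3.Ab

open Finset

/-! ### Rank functions of vector configurations -/

section ofVec

variable {K V E : Type*} [Field K] [AddCommGroup V] [Module K V] [FiniteDimensional K V]
  [DecidableEq E] {v : E → V} {X Y Z T F : Finset E} {e : E}

theorem RF.ext' {N N' : RF E} (h : ∀ Z, rk N Z = rk N' Z) : N = N' := by
  cases N
  cases N'
  congr
  funext Z
  exact h Z

@[simp] theorem rk_ofVec : rk (RF.ofVec K v) Z = Ca3.rk K v Z := rfl

theorem mem_sp_ofVec : e ∈ sp (RF.ofVec K v) Z ↔ v e ∈ Ca3.sp K v Z := by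
  rw [mem_sp_iff, rk_ofVec, rk_ofVec, Ca3.rk_insert_eq_iff]

theorem ind_ofVec : Ind (RF.ofVec K v) Z ↔ Ca3.Ind K v Z := Iff.rfl

theorem simple_ofVec : Simple (RF.ofVec K v) ↔ Ca3.Simple K v := by
  unfold Simple Ca3.Simple
  constructor
  · rintro ⟨h1, h2⟩
    refine ⟨fun e he => ?_, fun e f hef => h2 e f ?_⟩
    · have h3 := h1 e
      rw [rk_ofVec, Ca3.rk, Ca3.sp_singleton, he, Submodule.span_singleton_eq_bot.2 rfl,
        finrank_bot] at h3
      omega
    · rw [mem_sp_ofVec, Ca3.sp_singleton]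
      exact hef
  · rintro ⟨h1, h2⟩
    refine ⟨fun e => ?_, fun e f hef => h2 e f ?_⟩
    · exact Ca3.Simple.rk_singleton (⟨h1, h2⟩ : Ca3.Simple K v)
    · rw [mem_sp_ofVec, Ca3.sp_singleton] at hef
      exact hef

variable [Fintype E]

theorem cl_ofVec : cl (RF.ofVec K v) Z = Ca3.cl K v Z := by
  ext e
  rw [mem_cl, Ca3.mem_cl, mem_sp_ofVec]

theorem isFl_ofVec : IsFl (RF.ofVec K v) Z ↔ Ca3.IsFl K v Z := by
  unfold IsFl Ca3.IsFl
  rw [cl_ofVec]

theorem isMason_ofVec {ι : Type*} [Fintype ι] {A : ι → Finset E} :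
    IsMason (RF.ofVec K v) Y T A ↔ Ca3.IsMason K v Y T A := by
  unfold IsMason Ca3.IsMason
  simp only [rk_ofVec, isFl_ofVec]

theorem SG_ofVec : SG (RF.ofVec K v) Y T ↔ Ca3.SG K v Y T := by
  unfold SG Ca3.SG
  simp only [isMason_ofVec]

theorem alpha_ofVec : alpha (RF.ofVec K v) Z = Ca3.alpha K v Z := by
  classical
  induction hn : Z.card using Nat.strong_induction_on generalizing Z with
  | _ n ih =>
    subst hn
    rw [alpha_eq, Ca3.alpha_eq, rk_ofVec]
    congr 1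
    simp only [isFl_ofVec]
    apply sum_congr rfl
    intro G hG
    rw [mem_filter, mem_powerset] at hG
    exact ih G.card (card_lt_card (Finset.ssubset_iff_subset_ne.2 ⟨hG.1, hG.2.2⟩)) rfl

theorem tight_ofVec : Tight (RF.ofVec K v) ↔ Ca3.Tight K v := by
  unfold Tight Ca3.Tight
  simp only [alpha_ofVec, SG_ofVec, isFl_ofVec]

end ofVec

/-! ### Representations of contractions -/

section repAt

variable {K V E : Type*} [Field K] [AddCommGroup V] [Module K V] [DecidableEq E]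

variable (K) in
/-- `w` represents the contraction `N / x` over `K`; `x` itself is a zero vector. -/
def RepAt (N : RF E) (x : E) (w : E → V) : Prop :=
  ∀ Z, Ca3.rk K w Z + rk N {x} = rk N (insert x Z)

variable (K) in
/-- All contractions `N / x` are representable over `K`. -/
def RepC (N : RF E) : Prop := ∀ x : E, ∃ (n : ℕ) (w : E → (Fin n → K)), RepAt K N x w

variable [FiniteDimensional K V] {N : RF E} {x : E} {w : E → V} {X Y Z T F G R : Finset E}
  {e f : E}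

theorem RepAt.rk_eq (h : RepAt K N x w) (hx : x ∈ Z) :
    Ca3.rk K w Z + rk N {x} = rk N Z := by
  have := h Z
  rwa [insert_eq_self.2 hx] at this

/-- the rank of `N / x` for a simple `N` -/
theorem RepAt.rk_eq_one (h : RepAt K N x w) (hN : Simple N) (hx : x ∈ Z) :
    Ca3.rk K w Z + 1 = rk N Z := by
  rw [← h.rk_eq hx, hN.1 x]

theorem RepAt.mem_sp_iff' (h : RepAt K N x w) :
    w e ∈ Ca3.sp K w Z ↔ e ∈ sp N (insert x Z) := by
  rw [← Ca3.rk_insert_eq_iff, Ca3.Ab.mem_sp_iff, insert_comm e x, ← h, ← h]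
  omega

theorem RepAt.mem_sp_iff (h : RepAt K N x w) (hx : x ∈ Z) :
    w e ∈ Ca3.sp K w Z ↔ e ∈ sp N Z := by
  rw [h.mem_sp_iff', insert_eq_self.2 hx]

theorem RepAt.cl_eq' [Fintype E] (h : RepAt K N x w) : Ca3.cl K w Z = cl N (insert x Z) := by
  ext e
  rw [Ca3.mem_cl, mem_cl, h.mem_sp_iff']

theorem RepAt.cl_eq [Fintype E] (h : RepAt K N x w) (hx : x ∈ Z) : Ca3.cl K w Z = cl N Z := by
  rw [h.cl_eq', insert_eq_self.2 hx]

theorem RepAt.isFl [Fintype E] (h : RepAt K N x w) (hx : x ∈ Z) :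
    Ca3.IsFl K w Z ↔ IsFl N Z := by
  unfold IsFl Ca3.IsFl
  rw [h.cl_eq hx]

/-- The Mason family of `N` above `Y ∋ x`, with one empty set added, is one for `w`. -/
theorem RepAt.mason [Fintype E] (h : RepAt K N x w) (hN : Simple N) (hx : x ∈ Y)
    {ι : Type*} [Fintype ι] {A : ι → Finset E} (hA : IsMason N Y T A) :
    Ca3.IsMason K w Y T (fun o : Option ι => o.elim ∅ A) := by
  intro Z hYZ hZT
  have hc : cnt (fun o : Option ι => (o.elim ∅ A : Finset E)) Z = cnt A Z + 1 := by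
    unfold cnt
    rw [← card_insertNone]
    congr 1
    ext o
    cases o with
    | none => simp
    | some i => simp
  have h1 := h.rk_eq_one hN (hYZ hx)
  have h2 := hA Z hYZ hZT
  rw [hc, h.isFl (hYZ hx)]
  refine ⟨by omega, fun hf => ?_⟩
  have := h2.2 hf
  omega

theorem RepAt.sg [Fintype E] (h : RepAt K N x w) (hN : Simple N) (hx : x ∈ Y)
    (hs : SG N Y T) : Ca3.SG K w Y T := by
  obtain ⟨n, A, hA⟩ := hs
  exact (h.mason hN hx hA).sg

theorem RepAt.restrict [Fintype E] {F : Finset E} {x : F} (h : RepAt K N (x : E) w) :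
    RepAt K (N.restrict F) x (fun e : F => w e) := by
  intro Z
  rw [rk_restrict, rk_restrict, Ca3.rk_restrict, map_singleton, map_insert]
  exact h _

theorem RepC.restrict [Fintype E] (h : RepC K N) (F : Finset E) : RepC K (N.restrict F) := by
  intro x
  obtain ⟨n, w, hw⟩ := h x
  exact ⟨n, fun e : F => w e, hw.restrict⟩

/-! ### Proper flats -/

/-- below a flat which does not contain `x` the family `w` has the rank function of `N` -/
theorem RepAt.rk_off [Fintype E] (h : RepAt K N x w) (hN : Simple N) (hF : IsFl N F)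
    (hx : x ∉ F) (hZ : Z ⊆ F) : Ca3.rk K w Z = rk N Z := by
  have h1 := h Z
  have h2 : x ∉ sp N Z := fun h' => hx (hF.mem (sp_mono hZ h'))
  rw [rk_insert_of_not_mem_sp h2, hN.1 x] at h1
  omega

theorem RepAt.mem_sp_off [Fintype E] (h : RepAt K N x w) (hN : Simple N) (hF : IsFl N F)
    (hx : x ∉ F) (hZ : Z ⊆ F) (he : e ∈ F) : w e ∈ Ca3.sp K w Z ↔ e ∈ sp N Z := by
  rw [← Ca3.rk_insert_eq_iff, Ca3.Ab.mem_sp_iff, h.rk_off hN hF hx hZ,
    h.rk_off hN hF hx (insert_subset he hZ)]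

theorem RepAt.restrict_eq [Fintype E] (h : RepAt K N x w) (hN : Simple N) (hF : IsFl N F)
    (hx : x ∉ F) : N.restrict F = RF.ofVec K (fun e : F => w e) := by
  apply RF.ext'
  intro Z
  rw [rk_restrict, rk_ofVec, Ca3.rk_restrict]
  refine (h.rk_off hN hF hx ?_).symm
  intro e he
  obtain ⟨r, -, rfl⟩ := mem_map.1 he
  exact r.2

/-! ### Simplified contractions `N / Y`, `x ∈ Y` -/

theorem RepAt.exists_reps [Fintype E] (h : RepAt K N x w) (hx : x ∈ Y) {R₀ : Finset E}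
    (h0 : R₀ ⊆ T) (h1 : ∀ r ∈ R₀, r ∉ sp N Y)
    (h2 : ∀ r ∈ R₀, ∀ s ∈ R₀, r ∈ sp N (insert s Y) → r = s) :
    ∃ R, R₀ ⊆ R ∧ IsReps K w Y T R := by
  apply Ca3.exists_reps h0
  · intro r hr h'
    exact h1 r hr ((h.mem_sp_iff hx).1 h')
  · intro r hr s hs h'
    exact h2 r hr s hs ((h.mem_sp_iff (mem_insert_of_mem hx)).1 h')

/-- the rank of the simplified contraction -/
theorem RepAt.rk_qc_univ [Fintype E] (h : RepAt K N x w) (hx : x ∈ Y)
    (hR : IsReps K w Y T R) (hYT : Y ⊆ T) :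
    Ca3.rk K (qc K w Y R) univ + rk N Y = rk N T := by
  have h1 := Ca3.rk_qc_univ hR hYT
  have h2 := h.rk_eq hx
  have h3 := h.rk_eq (hYT hx)
  omega

theorem RepAt.rk_tr [Fintype E] (h : RepAt K N x w) (hx : x ∈ Y)
    (hR : IsReps K w Y T R) (hF : IsFl N F) (hYF : Y ⊆ F) (hFT : F ⊆ T) :
    Ca3.rk K (qc K w Y R) (tr R F) + rk N Y = rk N F := by
  have h1 := Ca3.rk_tr hR ((h.isFl (hYF hx)).2 hF) hYF hFT
  have h2 := h.rk_eq hx
  have h3 := h.rk_eq (hYF hx)
  omega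

theorem RepAt.isFl_tr [Fintype E] (h : RepAt K N x w) (hx : x ∈ Y)
    (hR : IsReps K w Y T R) (hF : IsFl N F) (hYF : Y ⊆ F) (hFT : F ⊆ T) :
    Ca3.IsFl K (qc K w Y R) (tr R F) :=
  Ca3.isFl_tr hR ((h.isFl (hYF hx)).2 hF) hYF hFT

theorem RepAt.tr_inj [Fintype E] (h : RepAt K N x w) (hx : x ∈ Y)
    (hR : IsReps K w Y T R) (hF : IsFl N F) (hYF : Y ⊆ F) (hFT : F ⊆ T)
    (hG : IsFl N G) (hYG : Y ⊆ G) (hGT : G ⊆ T) (he : tr R F = tr R G) : F = G :=
  Ca3.tr_inj hR ((h.isFl (hYF hx)).2 hF) hYF hFT ((h.isFl (hYG hx)).2 hG) hYG hGT he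

/-- The transferred Mason family, reindexed by `Fin n`, contains the traces of the flats spanned
by members of large rank. -/
theorem RepAt.transfer_fin [Fintype E] (h : RepAt K N x w) (hN : Simple N) (hx : x ∈ Y)
    (hT : IsFl N T) (hYT : Y ⊆ T) (hR : IsReps K w Y T R) {ι : Type*} [Fintype ι]
    {A : ι → Finset E} (hA : IsMason N Y T A) :
    ∃ (m : ℕ) (B : Fin m → Finset R), Ca3.IsMason K (qc K w Y R) ∅ univ B ∧
      ∀ H, IsFl N H → Y ⊆ H → H ⊆ T → rk N Y + 2 ≤ rk N H → (∃ i, cl N (A i ∪ Y) = H) →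
        ∃ j, Ca3.cl K (qc K w Y R) (B j) = tr R H := by
  have hT' : Ca3.IsFl K w T := (h.isFl (hYT hx)).2 hT
  obtain ⟨m, B, hB, hex⟩ := (Ca3.transfer hR hT' hYT (h.mason hN hx hA)).exists_fin
  refine ⟨m, B, hB, ?_⟩
  rintro H hH hYH hHT hr ⟨i, hi⟩
  have hxU : x ∈ A i ∪ Y := mem_union_right _ hx
  have hcl : Ca3.cl K w (A i ∪ Y) = H := by rw [h.cl_eq hxU, hi]
  have hH' : Ca3.IsFl K w H := (h.isFl (hYH hx)).2 hH
  have hbig : A i ⊆ T ∧ Ca3.rk K w Y + 2 ≤ Ca3.rk K w (A i ∪ Y) := by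
    refine ⟨?_, ?_⟩
    · refine (subset_union_left.trans Ca3.subset_cl).trans (hcl.le.trans hHT)
    · rw [← Ca3.rk_cl (X := A i ∪ Y), hcl]
      have h2 := h.rk_eq hx
      have h3 := h.rk_eq (hYH hx)
      omega
  obtain ⟨j, hj⟩ := hex ⟨some i, hbig⟩
  refine ⟨j, ?_⟩
  rw [hj]
  have h1 : tr R (Ca3.cl K w (A i ∪ Y)) = tr R H := by rw [hcl]
  have h2 : tr R (Ca3.cl K w ((fun o : Option ι => (o.elim ∅ A : Finset E)) (some i) ∪ Y)) =
      tr R H := h1
  rw [h2]
  exact Ca3.isFl_tr hR hH' hYH hHT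

theorem RepAt.transfer_SG [Fintype E] (h : RepAt K N x w) (hN : Simple N) (hx : x ∈ Y)
    (hT : IsFl N T) (hYT : Y ⊆ T) (hR : IsReps K w Y T R) (hs : SG N Y T) :
    Ca3.SG K (qc K w Y R) ∅ univ :=
  Ca3.transfer_SG hR ((h.isFl (hYT hx)).2 hT) hYT (h.sg hN hx hs)

end repAt

end Ca3.Ab
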