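import Pool.Agent.Lib.MP_ca3eb1_co.AbMemDefs

/-! # Lemma Y: a 3-connected matroid of rank at least five has an element which is in the guts
of no vertical 3-separation

Only the rank function and 3-connectivity are used (no Mason families, no hypothesis on
cocircuits). -/

set_option linter.unusedSectionVars false

namespace Ca3.Ab

open Finset

variable {E : Type*} [DecidableEq E] [Fintype E] {N : RF E} {X V V' U U' F : Finset E}
  {x a b c q : E}

/-- sets of size at most two contain no cocircuit -/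
theorem ly_rk_compl (hc : Conn3 N) (h4 : 4 ≤ rk N univ) (hX : X.card ≤ 2) :
    rk N Xᶜ = rk N univ := by
  have h5 : 4 ≤ (univ : Finset E).card := h4.trans rk_le_card
  have key : ∀ Y : Finset E, Y.card = 2 → rk N univ ≤ rk N Yᶜ := by
    intro Y hY
    have h6 : Y.card + Yᶜ.card = Fintype.card E := card_add_card_compl Y
    rw [card_univ] at h5
    have h1 := hc Y (by omega) (by omega)
    have h4 := rk_le_card (N := N) (X := Y)
    omega
  obtain ⟨Y, hXY, hY⟩ := exists_superset_card_eq hX (by rw [← card_univ]; omega)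
  exact le_antisymm (rk_mono (subset_univ _))
    ((key Y hY).trans (rk_mono (compl_subset_compl.2 hXY)))

theorem ly_three_le (hc : Conn3 N) (h4 : 4 ≤ rk N univ) (hF : IsFl N F)
    (hr : rk N F < rk N univ) : 3 ≤ Fᶜ.card := by
  by_contra h
  have := ly_rk_compl hc h4 (X := Fᶜ) (by omega)
  rw [compl_compl] at this
  omega

theorem ly_symm (h : Guts N V V') : Guts N V' V :=
  ⟨h.fl', h.fl, by rw [union_comm]; exact h.cover, by rw [add_comm]; exact h.rk_add, h.three',
    h.three⟩

theorem ly_compl_sub (h : Guts N V V') : V'ᶜ ⊆ V := by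
  intro e he
  rw [mem_compl] at he
  have : e ∈ V ∪ V' := by rw [h.cover]; exact mem_univ e
  rcases mem_union.1 this with h1 | h1
  · exact h1
  · exact absurd h1 he

theorem ly_rk_lt (h : Guts N V V') : rk N V < rk N univ := by
  have := h.rk_add
  have := h.three'
  omega

/-- (F0) -/
theorem ly_rk (h : Guts N V V') (hc : Conn3 N) (h4 : 4 ≤ rk N univ) : rk N V'ᶜ = rk N V := by
  have h1 := ly_three_le hc h4 h.fl' (ly_rk_lt (ly_symm h))
  have h2 : 2 ≤ V'.card := by
    have := rk_le_card (N := N) (X := V')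
    have := h.three'
    omega
  have h3 := hc V'ᶜ (by omega) (by rw [compl_compl]; exact h2)
  rw [compl_compl] at h3
  have h5 := h.rk_add
  have h6 := rk_mono (N := N) (ly_compl_sub h)
  omega

theorem ly_subset (h : Guts N V V') (hc : Conn3 N) (h4 : 4 ≤ rk N univ) (hF : IsFl N F)
    (hs : V'ᶜ ⊆ F) : V ⊆ F := by
  have h1 : cl N V'ᶜ = V := h.fl.cl_eq (ly_compl_sub h) (by rw [ly_rk h hc h4])
  rw [← h1]
  exact hF.cl_subset hs

/-- three non collinear points; a point on two of the lines is their common point -/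
theorem ly_meet (hN : Simple N) (h3 : rk N {a, b, c} = 3) (h1 : q ∈ sp N {a, b})
    (h2 : q ∈ sp N {a, c}) : q = a := by
  by_contra hne
  have e1 : rk N {a, q} = 2 := hN.rk_pair (Ne.symm hne)
  have e2 := rk_union_add_rk_inter (N := N) (X := insert q {a, b}) (Y := insert q {a, c})
  rw [rk_insert_of_mem_sp h1, rk_insert_of_mem_sp h2] at e2
  have e3 : rk N {a, b, c} ≤ rk N (insert q {a, b} ∪ insert q {a, c}) := by
    apply rk_mono
    intro z hz
    simp only [mem_insert, mem_singleton, mem_union] at hz ⊢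
    tauto
  have e4 : rk N {a, q} ≤ rk N (insert q {a, b} ∩ insert q {a, c}) := by
    apply rk_mono
    intro z hz
    simp only [mem_insert, mem_singleton, mem_inter] at hz ⊢
    tauto
  have e5 : rk N {a, b} ≤ 2 := rk_le_card.trans card_le_two
  have e6 : rk N {a, c} ≤ 2 := rk_le_card.trans card_le_two
  omega

/-- the plane `V` is the union of two lines through `a`, and `b`, `c` are two points of it -/
theorem ly_two (hN : Simple N) (hF : IsFl N U) (hG : IsFl N U')
    (hr : rk N U ≤ 2) (hr' : rk N U' ≤ 2) (ha : a ∈ U) (ha' : a ∈ U')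
    (hb : b ∈ U ∪ U') (hc' : c ∈ U ∪ U') (h3 : rk N {a, b, c} = 3) (hq : q ∈ U ∪ U') :
    q ∈ sp N {a, b} ∨ q ∈ sp N {a, c} := by
  have hab : a ≠ b := by
    rintro rfl
    have : rk N {a, a, c} ≤ 2 := by
      rw [insert_eq_of_mem (mem_insert_self _ _)]
      exact rk_le_card.trans card_le_two
    omega
  have hac : a ≠ c := by
    rintro rfl
    have : rk N {a, b, a} ≤ 2 := by
      rw [show ({a, b, a} : Finset E) = {a, b} by ext; simp; tauto]
      exact rk_le_card.trans card_le_two
    omega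
  have key : ∀ W : Finset E, IsFl N W → rk N W ≤ 2 → a ∈ W → ∀ z, z ∈ W → z ≠ a → ∀ q ∈ W,
      q ∈ sp N {a, z} := by
    intro W hW hr ha z hz hza q hq
    have h1 : ({a, z} : Finset E) ⊆ W := by
      intro y hy
      simp only [mem_insert, mem_singleton] at hy
      rcases hy with rfl | rfl <;> assumption
    rw [sp_eq_of_subset_of_rk_le h1 (by rw [hN.rk_pair (Ne.symm hza)]; exact hr)]
    exact mem_sp hq
  have hnot : ∀ W : Finset E, rk N W ≤ 2 → a ∈ W → b ∈ W → c ∈ W → False := by
    intro W hr ha hb hc'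
    have : rk N {a, b, c} ≤ rk N W := by
      apply rk_mono
      intro y hy
      simp only [mem_insert, mem_singleton] at hy
      rcases hy with rfl | rfl | rfl <;> assumption
    omega
  rcases mem_union.1 hb with hb | hb
  · rcases mem_union.1 hc' with hc' | hc'
    · exact absurd (hnot U hr ha hb hc') id
    · rcases mem_union.1 hq with hq | hq
      · exact Or.inl (key U hF hr ha b hb (Ne.symm hab) q hq)
      · exact Or.inr (key U' hG hr' ha' c hc' (Ne.symm hac) q hq)
  · rcases mem_union.1 hc' with hc' | hc'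
    · rcases mem_union.1 hq with hq | hq
      · exact Or.inr (key U hF hr ha c hc' (Ne.symm hac) q hq)
      · exact Or.inl (key U' hG hr' ha' b hb (Ne.symm hab) q hq)
    · exact absurd (hnot U' hr' ha' hb hc') id

/-- Lemma Y, also in rank four -/
theorem exists_not_guts' (hN : Simple N) (hc : Conn3 N) (h4 : 4 ≤ rk N univ) :
    ∃ y, ∀ V V', Guts N V V' → y ∉ V ∩ V' := by
  classical
  by_contra hcon
  push Not at hcon
  have hne : (univ : Finset E).Nonempty := by
    rw [nonempty_iff_ne_empty]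
    intro h
    rw [h, rk_empty] at h4
    omega
  obtain ⟨y0, -⟩ := hne
  -- a vertical 3-separation of minimal rank
  have hex : ∃ n, ∃ V V', Guts N V V' ∧ (V ∩ V').Nonempty ∧ rk N V = n := by
    obtain ⟨V, V', hg, hy⟩ := hcon y0
    exact ⟨rk N V, V, V', hg, ⟨y0, hy⟩, rfl⟩
  obtain ⟨V, V', hg, ⟨q, hq⟩, hn⟩ := Nat.find_spec hex
  have hmin : ∀ U U', Guts N U U' → (U ∩ U').Nonempty → rk N V ≤ rk N U := by
    intro U U' h1 h2
    rw [hn]
    exact Nat.find_min' hex ⟨U, U', h1, h2, rfl⟩
  have hVV' : rk N V ≤ rk N V' := hmin V' V (ly_symm hg) ⟨q, by rw [inter_comm]; exact hq⟩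
  -- the uncrossing
  have key : ∀ x, x ∉ V' → ∀ U U', Guts N U U' → x ∈ U ∩ U' →
      rk N (V ∩ U) ≤ 2 ∧ rk N (V ∩ U') ≤ 2 := by
    intro x hx
    have hxV : x ∈ V := ly_compl_sub hg (mem_compl.2 hx)
    have hA : ∀ U U', Guts N U U' → x ∈ U ∩ U' → ¬ V ⊆ U := by
      intro U U' hU hxU hVU
      have h1 : U' ⊆ V' := by
        refine ly_subset (ly_symm hU) hc h4 hg.fl' ?_
        exact (compl_subset_compl.2 hVU).trans (ly_compl_sub (ly_symm hg))
      exact hx (h1 (mem_inter.1 hxU).2)
    have hB : ∀ U U', Guts N U U' → x ∈ U ∩ U' → ¬ U ⊆ V := by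
      intro U U' hU hxU hUV
      have h1 := hU.fl.eq_of_subset_of_rk_le hUV (hmin U U' hU ⟨x, hxU⟩)
      exact hA U U' hU hxU (by rw [h1])
    have hC : ∀ U U', Guts N U U' → x ∈ U ∩ U' → 2 ≤ (V ∪ U)ᶜ.card → rk N (V ∩ U) ≤ 2 := by
      intro U U' hU hxU h2
      by_contra hr
      have s1 := rk_union_add_rk_inter (N := N) (X := V) (Y := U)
      have s2 := rk_union_add_rk_inter (N := N) (X := V') (Y := U')
      have s3 : 2 ≤ (V ∪ U).card := by
        have e1 := rk_le_card (N := N) (X := V)
        have e2 := card_le_card (subset_union_left (s₁ := V) (s₂ := U))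
        have := hg.three
        omega
      have s4 := hc (V ∪ U) s3 h2
      have s5 : rk N (V ∪ U)ᶜ ≤ rk N (V' ∩ U') := by
        apply rk_mono
        rw [compl_union]
        exact inter_subset_inter (ly_compl_sub (ly_symm hg)) (ly_compl_sub (ly_symm hU))
      have e1 := hg.rk_add
      have e2 := hU.rk_add
      have s6 : rk N (V ∩ U) + rk N (V' ∪ U') ≤ rk N univ + 2 := by omega
      have s7 : rk N (cl N (V' ∪ U')) = rk N (V' ∪ U') := rk_cl
      have s8 : rk N V' ≤ rk N (V' ∪ U') := rk_mono subset_union_left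
      have s9 := hg.three'
      have hS : IsFl N (cl N (V' ∪ U')) := isFl_cl
      have s10 := ly_three_le hc h4 hS (by omega)
      have s11 : (cl N (V' ∪ U'))ᶜ ⊆ V ∩ U := by
        refine (compl_subset_compl.2 (subset_cl)).trans ?_
        rw [compl_union]
        exact inter_subset_inter (ly_compl_sub hg) (ly_compl_sub hU)
      have s12 := hc (cl N (V' ∪ U'))ᶜ (by omega) (by
        rw [compl_compl]
        have := rk_le_card (N := N) (X := cl N (V' ∪ U'))
        omega)
      rw [compl_compl] at s12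
      have s13 := rk_mono (N := N) s11
      have hnew : Guts N (V ∩ U) (cl N (V' ∪ U')) := by
        refine ⟨hg.fl.inter hU.fl, hS, ?_, by omega, by omega, by omega⟩
        rw [eq_univ_iff_forall]
        intro e
        by_contra he
        rw [mem_union, not_or] at he
        exact he.1 (s11 (mem_compl.2 he.2))
      have hx2 : x ∈ (V ∩ U) ∩ cl N (V' ∪ U') := by
        rw [mem_inter, mem_inter]
        exact ⟨⟨hxV, (mem_inter.1 hxU).1⟩, subset_cl (mem_union_right _ (mem_inter.1 hxU).2)⟩
      have h3 := hmin _ _ hnew ⟨x, hx2⟩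
      have h4' := (hg.fl.inter hU.fl).eq_of_subset_of_rk_le inter_subset_left h3
      exact hA U U' hU hxU (by rw [← h4']; exact inter_subset_right)
    have hD : ∀ U U', Guts N U U' → x ∈ U ∩ U' → (V ∪ U)ᶜ.card ≠ 0 := by
      intro U U' hU hxU h0
      rw [card_eq_zero] at h0
      have h1 : Uᶜ ⊆ V := by
        intro e he
        by_contra heV
        have : e ∈ (V ∪ U)ᶜ := by
          rw [mem_compl, mem_union, not_or]
          exact ⟨heV, mem_compl.1 he⟩
        rw [h0] at this
        exact absurd this (notMem_empty _)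
      exact hB U' U (ly_symm hU) (by rw [inter_comm]; exact hxU)
        (ly_subset (ly_symm hU) hc h4 hg.fl h1)
    have hE : ∀ U U', Guts N U U' → x ∈ U ∩ U' → (V ∪ U)ᶜ.card = 1 →
        rk N U' ≤ rk N (V ∩ U') + 1 ∧ rk N (V ∩ U) + rk N univ ≤ rk N V + rk N U := by
      intro U U' hU hxU h1
      obtain ⟨e, he⟩ := card_eq_one.1 h1
      constructor
      · rw [← ly_rk (ly_symm hU) hc h4]
        refine (rk_mono (N := N) (Y := insert e (V ∩ U')) ?_).trans rk_insert_le
        intro z hz
        rw [mem_insert, mem_inter]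
        by_cases hzV : z ∈ V
        · exact Or.inr ⟨hzV, ly_compl_sub (ly_symm hU) hz⟩
        · left
          have : z ∈ (V ∪ U)ᶜ := by
            rw [mem_compl, mem_union, not_or]
            exact ⟨hzV, mem_compl.1 hz⟩
          rw [he, mem_singleton] at this
          exact this
      · have s1 := rk_union_add_rk_inter (N := N) (X := V) (Y := U)
        have s2 := ly_rk_compl hc h4 (X := (V ∪ U)ᶜ) (by omega)
        rw [compl_compl] at s2
        omega
    intro U U' hU hxU
    have hU' := ly_symm hU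
    have hxU' : x ∈ U' ∩ U := by rw [inter_comm]; exact hxU
    have d1 := hD U U' hU hxU
    have d2 := hD U' U hU' hxU'
    have hr1 : rk N (V ∩ U) < rk N V := by
      refine (hg.fl.inter hU.fl).rk_lt_of_ssubset ⟨inter_subset_left, fun h => ?_⟩
      exact hA U U' hU hxU (h.trans inter_subset_right)
    have hr2 : rk N (V ∩ U') < rk N V := by
      refine (hg.fl.inter hU'.fl).rk_lt_of_ssubset ⟨inter_subset_left, fun h => ?_⟩
      exact hA U' U hU' hxU' (h.trans inter_subset_right)
    have hU1 := hmin U U' hU ⟨x, hxU⟩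
    have hU2 := hmin U' U hU' ⟨x, hxU'⟩
    have t1 := hU.rk_add
    have t2 := hg.rk_add
    have t3 := hg.three
    have t4 := hU.three
    have t5 := hU.three'
    rcases Nat.lt_or_ge 1 (V ∪ U)ᶜ.card with c1 | c1
    · have r1 := hC U U' hU hxU c1
      rcases Nat.lt_or_ge 1 (V ∪ U')ᶜ.card with c2 | c2
      · exact ⟨r1, hC U' U hU' hxU' c2⟩
      · obtain ⟨e1, e2⟩ := hE U' U hU' hxU' (by omega)
        exact ⟨r1, by omega⟩
    · obtain ⟨e1, e2⟩ := hE U U' hU hxU (by omega)
      rcases Nat.lt_or_ge 1 (V ∪ U')ᶜ.card with c2 | c2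
      · have r2 := hC U' U hU' hxU' c2
        exact ⟨by omega, r2⟩
      · obtain ⟨e3, e4⟩ := hE U' U hU' hxU' (by omega)
        exact ⟨by omega, by omega⟩
  -- three non collinear points outside V'
  have hrV : 3 ≤ rk N V'ᶜ := by rw [ly_rk hg hc h4]; exact hg.three
  obtain ⟨B, -, hB, hBi, hB3⟩ := exists_ind_card (N := N) (I := ∅) (X := V'ᶜ) (n := 3)
    (by simp [Ind]) (by simp) (by simp) hrV
  obtain ⟨a, b, c, -, -, -, rfl⟩ := card_eq_three.1 hB3
  have hr3 : rk N {a, b, c} = 3 := by rw [hBi.rk_eq_card, hB3]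
  have ha : a ∉ V' := mem_compl.1 (hB (by simp))
  have hb : b ∉ V' := mem_compl.1 (hB (by simp))
  have hc' : c ∉ V' := mem_compl.1 (hB (by simp))
  have step : ∀ a b c : E, a ∉ V' → b ∉ V' → c ∉ V' → rk N {a, b, c} = 3 →
      q ∈ sp N {a, b} ∨ q ∈ sp N {a, c} := by
    intro a b c ha hb hc' h3
    obtain ⟨U, U', hU, haU⟩ := hcon a
    obtain ⟨r1, r2⟩ := key a ha U U' hU haU
    have hin : ∀ z, z ∈ V → z ∈ (V ∩ U) ∪ (V ∩ U') := by
      intro z hz
      rw [← inter_union_distrib_left, hU.cover, inter_univ]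
      exact hz
    refine ly_two hN (hg.fl.inter hU.fl) (hg.fl.inter hU.fl') r1 r2 ?_ ?_ ?_ ?_ h3 ?_
    · exact mem_inter.2 ⟨ly_compl_sub hg (mem_compl.2 ha), (mem_inter.1 haU).1⟩
    · exact mem_inter.2 ⟨ly_compl_sub hg (mem_compl.2 ha), (mem_inter.1 haU).2⟩
    · exact hin b (ly_compl_sub hg (mem_compl.2 hb))
    · exact hin c (ly_compl_sub hg (mem_compl.2 hc'))
    · exact hin q (mem_inter.1 hq).1
  have hqV' : q ∈ V' := (mem_inter.1 hq).2
  have e1 : rk N {b, a, c} = 3 := by rw [insert_comm]; exact hr3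
  have e2 : rk N {c, a, b} = 3 := by
    rw [show ({c, a, b} : Finset E) = {a, b, c} by ext; simp; tauto]; exact hr3
  have e3 : rk N {a, c, b} = 3 := by rw [pair_comm c b]; exact hr3
  have e4 : rk N {b, c, a} = 3 := by rw [pair_comm c a]; exact e1
  have e5 : rk N {c, b, a} = 3 := by rw [pair_comm b a]; exact e2
  rcases step a b c ha hb hc' hr3 with h1 | h1
  · rcases step c a b hc' ha hb e2 with h2 | h2
    · -- q on ab and on ca
      rw [pair_comm] at h2
      exact ha (by rw [← ly_meet hN hr3 h1 h2]; exact hqV')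
    · -- q on ab and on cb
      rw [pair_comm] at h1 h2
      exact hb (by rw [← ly_meet hN e1 h1 h2]; exact hqV')
  · rcases step b a c hb ha hc' e1 with h2 | h2
    · rw [pair_comm] at h2
      exact ha (by rw [← ly_meet hN hr3 h2 h1]; exact hqV')
    · rw [pair_comm] at h1 h2
      exact hc' (by rw [← ly_meet hN e2 h1 h2]; exact hqV')

/-- Lemma Y -/
theorem exists_not_guts (hN : Simple N) (hc : Conn3 N) (h5 : 5 ≤ rk N univ) :
    ∃ y, ∀ V V', Guts N V V' → y ∉ V ∩ V' :=
  exists_not_guts' hN hc (by omega)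

theorem lemma_Y (hN : Simple N) (hc : Conn3 N) (h5 : 5 ≤ rk N univ) :
    ∃ y, ∀ V V', Guts N V V' → y ∉ V ∩ V' :=
  exists_not_guts' hN hc (by omega)

end Ca3.Ab
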