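import Pool.Agent.Lib.MP_ca3eb1_co.AbMemDefs
import Pool.Agent.Lib.MP_ca3eb1_co.AbAlpha
import Pool.Agent.Lib.MP_ca3eb1_co.AbRestrict

/-! # Tools for E1, case (ii): counting members, free elements -/

set_option linter.unusedSectionVars false

namespace Ca3.Ab

open Finset

variable {E : Type*} [DecidableEq E] [Fintype E] {N : RF E} {ι : Type*} [Fintype ι]
  {A : ι → Finset E} {X Y Z S V V' W H F G : Finset E} {e x : E} {i i₀ : ι}

/-- every strict gammoid has a closed Mason family -/
theorem SG.exists_fam (h : SG N ∅ univ) : ∃ (n : ℕ) (A : Fin n → Finset E), Fam N A := by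
  obtain ⟨n, A, hA⟩ := h
  refine ⟨n, fun i => cl N (A i ∪ ∅), hA.closure, fun i => isFl_cl⟩

theorem Fam.sg (h : Fam N A) : SG N ∅ univ := h.mason.sg

theorem Fam.cnt_le (h : Fam N A) (Z : Finset E) : cnt A Z + rk N Z ≤ Z.card := by
  exact h.mason.le (empty_subset _) (subset_univ _)

theorem Fam.cnt_eq (h : Fam N A) (hZ : IsFl N Z) : cnt A Z + rk N Z = Z.card := by
  exact h.mason.eq (empty_subset _) (subset_univ _) hZ

/-- the number of members is the nullity of `N` -/
theorem Fam.card_index (h : Fam N A) : Fintype.card ι + rk N univ = Fintype.card E := by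
  have h1 := h.cnt_eq (isFl_univ (N := N))
  have h2 : cnt A univ = Fintype.card ι := by
    unfold cnt
    simp
  rw [h2, card_univ] at h1
  exact h1

open Classical in
/-- `alpha` of a flat is its multiplicity -/
theorem Fam.alpha_eq (h : Fam N A) (hG : IsFl N G) :
    alpha N G = ((univ.filter (fun i => A i = G)).card : ℤ) := by
  have h1 := beta_empty h.mason hG (subset_univ _)
  rw [← h1]
  congr 2
  ext i
  simp only [mem_filter, mem_univ, true_and]
  rw [h.fl i]

theorem Fam.alpha_pos (h : Fam N A) (i : ι) : 0 < alpha N (A i) := by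
  classical
  rw [h.alpha_eq (h.fl i)]
  have : 0 < (univ.filter (fun j => A j = A i)).card := card_pos.2 ⟨i, by simp⟩
  exact_mod_cast this

theorem Fam.exists_of_alpha_pos (h : Fam N A) (hG : IsFl N G) (ha : 0 < alpha N G) :
    ∃ i, A i = G := by
  classical
  rw [h.alpha_eq hG] at ha
  have h1 : 0 < (univ.filter (fun j => A j = G)).card := by exact_mod_cast ha
  obtain ⟨i, hi⟩ := card_pos.1 h1
  rw [mem_filter] at hi
  exact ⟨i, hi.2⟩

theorem Fam.ne_univ (h : Fam N A) (h0 : alpha N univ = 0) (i : ι) : A i ≠ univ := by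
  intro hi
  have := h.alpha_pos i
  rw [hi, h0] at this
  exact lt_irrefl _ this

theorem Fam.rk_lt (h : Fam N A) (h0 : alpha N univ = 0) (i : ι) : rk N (A i) < rk N univ := by
  exact (h.fl i).rk_lt_of_ssubset (ssubset_univ_iff.2 (h.ne_univ h0 i))

/-- a member has nullity at least one -/
theorem Fam.rk_lt_card (h : Fam N A) (i : ι) : rk N (A i) + 1 ≤ (A i).card := by
  have h1 := h.cnt_eq (h.fl i)
  have h2 : 0 < cnt A (A i) := by
    unfold cnt
    exact card_pos.2 ⟨i, by simp⟩
  omega

theorem Fam.nonempty (h : Fam N A) (i : ι) : (A i).Nonempty := by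
  rw [← card_pos]
  have := h.rk_lt_card i
  omega

theorem Fam.two_le_rk (h : Fam N A) (hN : Simple N) (i : ι) : 2 ≤ rk N (A i) := by
  apply hN.two_le_rk
  by_contra hc
  have h1 := h.rk_lt_card i
  have h2 := hN.ind_of_card_le_two (X := A i) (by omega)
  have h3 := h2.rk_eq_card
  omega

/-- members are cyclic flats -/
theorem Fam.cyclic (h : Fam N A) (he : e ∈ A i) : e ∈ sp N ((A i).erase e) := by
  by_contra hc
  have h1 : IsFl N ((A i).erase e) := by
    apply subset_antisymm _ subset_cl
    intro f hf
    have hfA : f ∈ A i := (h.fl i).cl_subset (erase_subset _ _) hf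
    rw [mem_erase]
    refine ⟨?_, hfA⟩
    rintro rfl
    exact hc (mem_cl.1 hf)
  have h2 := h.cnt_eq h1
  have h3 := h.cnt_eq (h.fl i)
  have h4 := rk_insert_of_not_mem_sp hc
  rw [insert_erase he] at h4
  have h5 := card_erase_of_mem he
  have h6 : 0 < (A i).card := card_pos.2 ⟨e, he⟩
  have h7 : cnt A ((A i).erase e) < cnt A (A i) := by
    unfold cnt
    apply card_lt_card
    rw [Finset.ssubset_iff_of_subset]
    · refine ⟨i, by simp, ?_⟩
      simp only [mem_filter, mem_univ, true_and]
      intro h8
      exact (notMem_erase e (A i)) (h8 he)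
    · intro j hj
      simp only [mem_filter, mem_univ, true_and] at hj ⊢
      exact hj.trans (erase_subset _ _)
  omega

/-- A flat of nullity at least one and rank two: lines with at least three points. -/
theorem Fam.line (h : Fam N A) (hN : Simple N) (hL : IsFl N F) (hr : rk N F = 2) :
    (univ.filter (fun i => A i = F)).card + 2 = F.card := by
  have h1 := h.cnt_eq hL
  have h2 : cnt A F = (univ.filter (fun i => A i = F)).card := by
    unfold cnt
    congr 1
    ext i
    simp only [mem_filter, mem_univ, true_and]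
    constructor
    · intro h3
      exact (h.fl i).eq_of_subset_of_rk_le h3 (by have := h.two_le_rk hN i; omega)
    · rintro h3
      exact h3.subset
  omega

/-- (T) inside a flat `V`: the members inside `V` which meet `S` -/
theorem Fam.meet_in (h : Fam N A) (hV : IsFl N V) (hS : S ⊆ V) :
    S.card + rk N (V \ S) ≤
      (univ.filter (fun i => A i ⊆ V ∧ ¬ Disjoint (A i) S)).card + rk N V := by
  classical
  have h1 := h.cnt_eq hV
  have h2 := h.cnt_le (V \ S)
  have h3 : cnt A V ≤ (univ.filter (fun i => A i ⊆ V ∧ ¬ Disjoint (A i) S)).card +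
      cnt A (V \ S) := by
    unfold cnt
    rw [← card_union_add_card_inter]
    refine le_trans (card_le_card ?_) (Nat.le_add_right _ _)
    intro i hi
    simp only [mem_filter, mem_univ, true_and, mem_union] at hi ⊢
    by_cases hd : Disjoint (A i) S
    · right
      intro f hf
      rw [mem_sdiff]
      exact ⟨hi hf, fun h' => (disjoint_left.1 hd) hf h'⟩
    · exact Or.inl ⟨hi, hd⟩
  have h4 := card_sdiff_add_card_eq_card hS
  omega

theorem Fam.meet (h : Fam N A) (S : Finset E) :
    S.card + rk N Sᶜ ≤ (univ.filter (fun i => ¬ Disjoint (A i) S)).card + rk N univ := by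
  have h1 := h.meet_in (isFl_univ (N := N)) (subset_univ S)
  have h2 : (univ.filter (fun i => A i ⊆ univ ∧ ¬ Disjoint (A i) S)) =
      (univ.filter (fun i => ¬ Disjoint (A i) S)) := by
    ext i
    simp
  rw [h2, ← compl_eq_univ_sdiff] at h1
  exact h1

/-- (T) a set without a cocircuit inside meets as many members as it has elements -/
theorem Fam.meet_of_spanning (h : Fam N A) (hS : rk N Sᶜ = rk N univ) :
    S.card ≤ (univ.filter (fun i => ¬ Disjoint (A i) S)).card := by
  have := h.meet S
  omega

/-- (F3) a set whose complement in the flat `V` spans `V` -/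
theorem Fam.meet_in_of_spanning (h : Fam N A) (hV : IsFl N V) (hS : S ⊆ V)
    (hr : rk N (V \ S) = rk N V) :
    S.card ≤ (univ.filter (fun i => A i ⊆ V ∧ ¬ Disjoint (A i) S)).card := by
  have := h.meet_in hV hS
  omega

/-- (D) the members not inside a flat -/
theorem Fam.not_in_flat (h : Fam N A) (hH : IsFl N H) :
    (univ.filter (fun i => ¬ A i ⊆ H)).card + rk N univ = Hᶜ.card + rk N H := by
  have h1 := h.cnt_eq hH
  have h2 := h.card_index
  have h3 : (univ.filter (fun i => ¬ A i ⊆ H)).card + cnt A H = Fintype.card ι := by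
    unfold cnt
    rw [add_comm, card_filter_add_card_filter_not, card_univ]
  have h4 := card_compl_add_card H
  omega

/-- (D) the members inside the flat `V` but not inside the flat `H` -/
theorem Fam.in_not_in (h : Fam N A) (hV : IsFl N V) (hH : IsFl N H) (hHV : H ⊆ V) :
    (univ.filter (fun i => A i ⊆ V ∧ ¬ A i ⊆ H)).card + rk N V =
      (V \ H).card + rk N H := by
  classical
  have h1 := h.cnt_eq hV
  have h2 := h.cnt_eq hH
  have h3 : (univ.filter (fun i => A i ⊆ V ∧ ¬ A i ⊆ H)).card + cnt A H = cnt A V := by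
    unfold cnt
    rw [← card_union_of_disjoint]
    · congr 1
      ext i
      simp only [mem_filter, mem_univ, true_and, mem_union]
      constructor
      · rintro (h4 | h4)
        · exact h4.1
        · exact h4.trans hHV
      · intro h4
        by_cases h5 : A i ⊆ H
        · exact Or.inr h5
        · exact Or.inl ⟨h4, h5⟩
    · rw [disjoint_left]
      intro i hi hi'
      simp only [mem_filter, mem_univ, true_and] at hi hi'
      exact hi.2 hi'
  have h4 := card_sdiff_add_card_eq_card hHV
  omega

/-- (X) `λ(W)` is at most the number of members crossing `W` -/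
theorem Fam.crossing (h : Fam N A) (W : Finset E) :
    rk N W + rk N Wᶜ ≤
      (univ.filter (fun i => ¬ A i ⊆ W ∧ ¬ A i ⊆ Wᶜ)).card + rk N univ := by
  classical
  have h1 := h.cnt_le W
  have h2 := h.cnt_le Wᶜ
  have h3 := h.card_index
  have h4 : Fintype.card ι ≤ (univ.filter (fun i => ¬ A i ⊆ W ∧ ¬ A i ⊆ Wᶜ)).card +
      (cnt A W + cnt A Wᶜ) := by
    unfold cnt
    rw [← card_univ]
    refine le_trans (card_le_card (t := (univ.filter (fun i => ¬ A i ⊆ W ∧ ¬ A i ⊆ Wᶜ)) ∪
      ((univ.filter (fun i => A i ⊆ W)) ∪ (univ.filter (fun i => A i ⊆ Wᶜ)))) ?_) ?_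
    · intro i _
      simp only [mem_filter, mem_univ, true_and, mem_union]
      tauto
    · refine (card_union_le _ _).trans ?_
      have := card_union_le (univ.filter (fun i => A i ⊆ W)) (univ.filter (fun i => A i ⊆ Wᶜ))
      omega
  have h5 := card_add_card_compl W
  omega

/-- (X) for 3-connected matroids -/
theorem Fam.two_le_crossing (h : Fam N A) (hc : Conn3 N) (h1 : 2 ≤ W.card)
    (h2 : 2 ≤ Wᶜ.card) : 2 ≤ (univ.filter (fun i => ¬ A i ⊆ W ∧ ¬ A i ⊆ Wᶜ)).card := by
  have h3 := h.crossing W
  have h4 := hc W h1 h2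
  omega

/-- members inside neither of two flats covering the ground set -/
theorem Fam.guts_count (h : Fam N A) (hV : IsFl N V) (hV' : IsFl N V') (hc : V ∪ V' = univ) :
    (univ.filter (fun i => ¬ A i ⊆ V ∧ ¬ A i ⊆ V')).card + rk N univ + rk N (V ∩ V') =
      rk N V + rk N V' := by
  classical
  have h1 := h.cnt_eq hV
  have h2 := h.cnt_eq hV'
  have h3 := h.cnt_eq (hV.inter hV')
  have h4 := h.card_index
  have h5 := card_union_add_card_inter V V'
  rw [hc, card_univ] at h5
  have h6 : (univ.filter (fun i => ¬ A i ⊆ V ∧ ¬ A i ⊆ V')).card + (cnt A V + cnt A V') =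
      Fintype.card ι + cnt A (V ∩ V') := by
    have e1 : cnt A V + cnt A V' = ((univ.filter (fun i => A i ⊆ V)) ∪
        (univ.filter (fun i => A i ⊆ V'))).card + cnt A (V ∩ V') := by
      unfold cnt
      rw [← card_union_add_card_inter]
      congr 2
      ext i
      simp only [mem_filter, mem_univ, true_and, mem_inter, subset_inter_iff]
    have e2 : (univ.filter (fun i => ¬ A i ⊆ V ∧ ¬ A i ⊆ V')).card +
        ((univ.filter (fun i => A i ⊆ V)) ∪ (univ.filter (fun i => A i ⊆ V'))).card =
        Fintype.card ι := by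
      rw [← card_union_of_disjoint]
      · rw [← card_univ]
        congr 1
        ext i
        simp only [mem_filter, mem_univ, true_and, mem_union, iff_true]
        tauto
      · rw [disjoint_left]
        intro i hi hi'
        simp only [mem_filter, mem_univ, true_and, mem_union] at hi hi'
        tauto
    omega
  omega

/-- a non-coloop of a flat is in a member inside the flat -/
theorem Fam.exists_mem_in (h : Fam N A) (hV : IsFl N V) (he : e ∈ V)
    (h' : e ∈ sp N (V.erase e)) : ∃ i, e ∈ A i ∧ A i ⊆ V := by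
  by_contra hc
  push Not at hc
  have h1 := h.cnt_eq hV
  have h2 := h.cnt_le (V.erase e)
  have h3 := rk_insert_of_mem_sp h'
  rw [insert_erase he] at h3
  have h4 := card_erase_of_mem he
  have h5 : 0 < V.card := card_pos.2 ⟨e, he⟩
  have h6 : cnt A V ≤ cnt A (V.erase e) := by
    unfold cnt
    apply card_le_card
    intro i hi
    simp only [mem_filter, mem_univ, true_and] at hi ⊢
    intro f hf
    rw [mem_erase]
    refine ⟨?_, hi hf⟩
    rintro rfl
    exact hc i hf hi
  omega

theorem Fam.exists_mem (h : Fam N A) (h' : e ∈ sp N (univ.erase e)) : ∃ i, e ∈ A i := by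
  obtain ⟨i, hi, -⟩ := h.exists_mem_in (isFl_univ (N := N)) (mem_univ e) h'
  exact ⟨i, hi⟩

/-- a free element in the closure of a set `S` not containing it -/
theorem Fam.free_subset (h : Fam N A) (hf : Free A e i) (he : e ∈ sp N S) (heS : e ∉ S) :
    A i ⊆ cl N S := by
  have h1 : e ∈ cl N S := mem_cl.2 he
  have h2 : e ∈ sp N ((cl N S).erase e) := by
    apply sp_mono _ he
    intro f hf
    rw [mem_erase]
    exact ⟨fun h' => heS (h' ▸ hf), subset_cl hf⟩
  obtain ⟨j, hj, hj'⟩ := h.exists_mem_in isFl_cl h1 h2
  exact (hf.2 j hj).trans hj'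

theorem mem_tr {F Z : Finset E} {r : F} : r ∈ tr F Z ↔ (r : E) ∈ Z := by
  simp [tr]

theorem mem_map_sub {F : Finset E} {Z : Finset F} {e : E} :
    e ∈ Z.map (Function.Embedding.subtype _) ↔ ∃ h : e ∈ F, (⟨e, h⟩ : F) ∈ Z := by
  constructor
  · intro h
    obtain ⟨r, hr, rfl⟩ := mem_map.1 h
    exact ⟨r.2, hr⟩
  · rintro ⟨h, h'⟩
    exact mem_map.2 ⟨⟨e, h⟩, h', rfl⟩

theorem map_sub_subset {F : Finset E} (Z : Finset F) :
    Z.map (Function.Embedding.subtype _) ⊆ F := by
  intro e he
  exact (mem_map_sub.1 he).1

theorem map_tr {F Z : Finset E} : (tr F Z).map (Function.Embedding.subtype _) = Z ∩ F := by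
  ext e
  rw [mem_map_sub, mem_inter]
  constructor
  · rintro ⟨h, h'⟩
    exact ⟨mem_tr.1 h', h⟩
  · rintro ⟨h, h'⟩
    exact ⟨h', mem_tr.2 h⟩

theorem tr_map {F : Finset E} (Z : Finset F) :
    tr F (Z.map (Function.Embedding.subtype _)) = Z := by
  ext r
  rw [mem_tr, mem_map_sub]
  constructor
  · rintro ⟨_, h⟩
    exact h
  · intro h
    exact ⟨r.2, h⟩

theorem tr_subset_iff {F A : Finset E} {Z : Finset F} :
    tr F A ⊆ Z ↔ A ∩ F ⊆ Z.map (Function.Embedding.subtype _) := by
  constructor
  · intro h e he
    rw [mem_inter] at he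
    exact mem_map_sub.2 ⟨he.2, h (mem_tr.2 he.1)⟩
  · intro h r hr
    obtain ⟨_, h'⟩ := mem_map_sub.1 (h (mem_inter.2 ⟨mem_tr.1 hr, r.2⟩))
    exact h'

/-- the trace of a flat is a flat -/
theorem IsFl.tr (hG : IsFl N G) (F : Finset E) : IsFl (N.restrict F) (tr F G) := by
  refine subset_antisymm (fun r hr => ?_) subset_cl
  rw [mem_cl, mem_sp_restrict, map_tr] at hr
  exact mem_tr.2 (hG.mem (sp_mono inter_subset_left hr))

/-- deleting a free element -/
theorem Fam.delete [DecidableEq ι] (h : Fam N A) (hf : Free A e i₀) :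
    Fam (N.restrict (univ.erase e)) (fun j : {j : ι // j ≠ i₀} => tr (univ.erase e) (A j)) := by
  classical
  refine ⟨?_, fun j => (h.fl j).tr _⟩
  intro Z _ _
  set Z' : Finset E := Z.map (Function.Embedding.subtype _) with hZ'
  have heZ : e ∉ Z' := by
    intro h1
    have := (mem_map_sub.1 h1).1
    exact notMem_erase e _ this
  have hcard : Z.card = Z'.card := (card_map _).symm
  have hsub : ∀ j, (tr (univ.erase e) (A j) ⊆ Z ↔ (A j).erase e ⊆ Z') := by
    intro j
    rw [tr_subset_iff, inter_erase, inter_univ]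
  have hfl : IsFl (N.restrict (univ.erase e)) Z → ∀ f, f ≠ e → f ∈ sp N Z' → f ∈ Z' := by
    intro h1 f hf hf'
    have hfm : f ∈ univ.erase e := mem_erase.2 ⟨hf, mem_univ _⟩
    exact mem_map_sub.2 ⟨hfm, h1.mem (mem_sp_restrict.2 hf')⟩
  rw [rk_restrict, ← hZ', hcard]
  by_cases hc : (A i₀).erase e ⊆ Z'
  · have heS : e ∈ sp N Z' := sp_mono hc (h.cyclic hf.1)
    have hrk := rk_insert_of_mem_sp heS
    have hcW : (insert e Z').card = Z'.card + 1 := card_insert_of_notMem heZ
    have hcnt : cnt (fun j : {j : ι // j ≠ i₀} => tr (univ.erase e) (A j)) Z + 1 =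
        cnt A (insert e Z') := by
      have h1 : (univ.filter (fun j => A j ⊆ insert e Z')) =
          insert i₀ ((univ.filter (fun j : {j : ι // j ≠ i₀} =>
            tr (univ.erase e) (A j) ⊆ Z)).map (Function.Embedding.subtype _)) := by
        ext j
        simp only [mem_filter, mem_univ, true_and, mem_insert, mem_map,
          Function.Embedding.coe_subtype, Subtype.exists, exists_and_left, exists_prop]
        constructor
        · intro h2
          by_cases hj : j = i₀
          · exact Or.inl hj
          · refine Or.inr ⟨j, ?_, hj, rfl⟩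
            rw [hsub]
            intro f hf
            rw [mem_erase] at hf
            rcases mem_insert.1 (h2 hf.2) with h3 | h3
            · exact absurd h3 hf.1
            · exact h3
        · rintro (h2 | ⟨j', h2, _, rfl⟩)
          · rw [h2]
            intro f hf
            by_cases hfe : f = e
            · rw [hfe]; exact mem_insert_self _ _
            · exact mem_insert_of_mem (hc (mem_erase.2 ⟨hfe, hf⟩))
          · rw [hsub] at h2
            intro f hf
            by_cases hfe : f = e
            · rw [hfe]; exact mem_insert_self _ _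
            · exact mem_insert_of_mem (h2 (mem_erase.2 ⟨hfe, hf⟩))
      unfold cnt
      rw [h1, card_insert_of_notMem, card_map]
      intro h2
      obtain ⟨j, -, hj⟩ := mem_map.1 h2
      exact j.2 hj
    have hle := h.cnt_le (insert e Z')
    refine ⟨by omega, fun hZ => ?_⟩
    have hW : IsFl N (insert e Z') := by
      refine subset_antisymm (fun f hf => ?_) subset_cl
      rw [mem_cl, sp_insert_of_mem_sp heS] at hf
      by_cases hfe : f = e
      · rw [hfe]; exact mem_insert_self _ _
      · exact mem_insert_of_mem (hfl hZ f hfe hf)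
    have := h.cnt_eq hW
    omega
  · have hcnt : cnt (fun j : {j : ι // j ≠ i₀} => tr (univ.erase e) (A j)) Z = cnt A Z' := by
      unfold cnt
      rw [← card_map (Function.Embedding.subtype _)]
      congr 1
      ext j
      simp only [mem_filter, mem_univ, true_and, mem_map,
          Function.Embedding.coe_subtype, Subtype.exists, exists_and_left, exists_prop]
      constructor
      · rintro ⟨j', h2, _, rfl⟩
        rw [hsub] at h2
        by_cases hej : e ∈ A j'
        · exact absurd ((erase_subset_erase e (hf.2 j' hej)).trans h2) hc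
        · rwa [erase_eq_of_notMem hej] at h2
      · intro h2
        refine ⟨j, ?_, ?_, rfl⟩
        · rw [hsub]
          exact (erase_subset _ _).trans h2
        · rintro rfl
          exact heZ (h2 hf.1)
    have hle := h.cnt_le Z'
    refine ⟨by omega, fun hZ => ?_⟩
    have hW : IsFl N Z' := by
      refine subset_antisymm (fun f hf' => ?_) subset_cl
      rw [mem_cl] at hf'
      by_cases hfe : f = e
      · exfalso
        rw [hfe] at hf'
        apply hc
        intro g hg
        rw [mem_erase] at hg
        exact hfl hZ g hg.1 (mem_cl.1 (h.free_subset hf hf' heZ hg.2))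
      · exact hfl hZ f hfe hf'
    have := h.cnt_eq hW
    omega

/-- restriction to a flat -/
theorem Fam.restrict (h : Fam N A) (hF : IsFl N F) :
    Fam (N.restrict F) (fun j : {j : ι // A j ⊆ F} => tr F (A j)) := by
  classical
  refine ⟨?_, fun j => (h.fl j).tr _⟩
  intro Z _ _
  have hc : cnt (fun i : {i : ι // A i ⊆ F} => tr F (A i.1)) Z =
      cnt A (Z.map (Function.Embedding.subtype _)) := by
    unfold cnt
    apply card_bij (fun i _ => i.1)
    · intro i hi
      rw [mem_filter] at hi ⊢
      have h1 := tr_subset_iff.1 hi.2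
      rw [inter_eq_left.2 i.2] at h1
      exact ⟨mem_univ _, h1⟩
    · intro i _ j _ h
      exact Subtype.ext h
    · intro i hi
      rw [mem_filter] at hi
      refine ⟨⟨i, hi.2.trans (map_sub_subset Z)⟩, ?_, rfl⟩
      rw [mem_filter]
      exact ⟨mem_univ _, tr_subset_iff.2 (inter_subset_left.trans hi.2)⟩
  rw [hc, rk_restrict, isFl_restrict hF, ← card_map (Function.Embedding.subtype _)]
  exact ⟨h.cnt_le _, fun h1 => h.cnt_eq h1⟩

end Ca3.Ab
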