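import Pool.Agent.Lib.MP_ca3eb1_co.AbInterface

/-! # Definitions for E1, case (ii): members, connectivity, free elements, contractions

`Fam N A` : `A` is a closed Mason family of `N` (the members, with multiplicity).
`N.qc Y R` : the contraction `N / Y` on a set `R` of representatives of its points. -/

set_option linter.unusedSectionVars false

namespace Ca3.Ab

open Finset

universe u

section defs

variable {E : Type*} [DecidableEq E] [Fintype E]

/-- A closed Mason family of `N`: the members are flats. -/
structure Fam (N : RF E) {ι : Type*} [Fintype ι] (A : ι → Finset E) : Prop where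
  mason : IsMason N ∅ univ A
  fl : ∀ i, IsFl N (A i)

/-- 3-connected (used for simple matroids with at least four elements) -/
def Conn3 (N : RF E) : Prop :=
  ∀ X : Finset E, 2 ≤ X.card → 2 ≤ Xᶜ.card → rk N univ + 2 ≤ rk N X + rk N Xᶜ

/-- every cocircuit has at least four elements -/
def Cog4 (N : RF E) : Prop := ∀ X : Finset E, X.card ≤ 3 → rk N Xᶜ = rk N univ

/-- `e` is free on the member `A i`: it is in `A i`, and every member through `e`
contains `A i` -/
def Free {ι : Type*} (A : ι → Finset E) (e : E) (i : ι) : Prop :=
  e ∈ A i ∧ ∀ j, e ∈ A j → A i ⊆ A j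

/-- two proper flats covering the ground set, of rank at least three, with `λ = 2`: a vertical
3-separation whose guts contain `V ∩ V'` -/
structure Guts (N : RF E) (V V' : Finset E) : Prop where
  fl : IsFl N V
  fl' : IsFl N V'
  cover : V ∪ V' = univ
  rk_add : rk N V + rk N V' = rk N univ + 2
  three : 3 ≤ rk N V
  three' : 3 ≤ rk N V'

/-- `R` is a set of representatives of the parallel classes of `N / Y` restricted to `T`. -/
structure IsReps (N : RF E) (Y T R : Finset E) : Prop where
  sub : R ⊆ T
  not_mem : ∀ r ∈ R, r ∉ sp N Y
  ex : ∀ e ∈ T, e ∉ sp N Y → ∃ r ∈ R, r ∈ sp N (insert e Y)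
  uniq : ∀ r ∈ R, ∀ s ∈ R, r ∈ sp N (insert s Y) → r = s

end defs

section qc

variable {E : Type*} [DecidableEq E]

/-- The contraction `N / Y` restricted to `R`, as a matroid on the subtype. -/
def RF.qc (N : RF E) (Y R : Finset E) : RF R where
  toFun Z := rk N (Z.map (Function.Embedding.subtype _) ∪ Y) - rk N Y
  empty' := by simp
  insert_le' e X := by
    rw [map_insert, insert_union]
    have := rk_insert_le (N := N) (e := (Function.Embedding.subtype (fun x => x ∈ R)) e)
      (X := X.map (Function.Embedding.subtype _) ∪ Y)
    omega
  mono' X Z h := by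
    have h1 : X.map (Function.Embedding.subtype (fun x => x ∈ R)) ∪ Y ⊆
        Z.map (Function.Embedding.subtype (fun x => x ∈ R)) ∪ Y :=
      union_subset_union_left (map_subset_map.2 h)
    have h2 := rk_mono (N := N) h1
    omega
  submod' X Z := by
    have h1 := rk_union_add_rk_inter (N := N) (X := X.map (Function.Embedding.subtype _) ∪ Y)
      (Y := Z.map (Function.Embedding.subtype _) ∪ Y)
    have h2 : (X.map (Function.Embedding.subtype (fun x => x ∈ R)) ∪ Y) ∪
        (Z.map (Function.Embedding.subtype _) ∪ Y) =
        (X ∪ Z).map (Function.Embedding.subtype _) ∪ Y := by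
      rw [map_union]
      ext e
      simp only [mem_union]
      tauto
    have h3 : (X.map (Function.Embedding.subtype (fun x => x ∈ R)) ∪ Y) ∩
        (Z.map (Function.Embedding.subtype _) ∪ Y) =
        (X ∩ Z).map (Function.Embedding.subtype _) ∪ Y := by
      rw [map_inter]
      ext e
      simp only [mem_union, mem_inter]
      tauto
    rw [h2, h3] at h1
    have h4 := rk_mono (N := N) (subset_union_right
      (s₁ := (X ∪ Z).map (Function.Embedding.subtype (fun x => x ∈ R))) (s₂ := Y))
    have h5 := rk_mono (N := N) (subset_union_right
      (s₁ := (X ∩ Z).map (Function.Embedding.subtype (fun x => x ∈ R))) (s₂ := Y))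
    have h6 := rk_mono (N := N) (subset_union_right
      (s₁ := X.map (Function.Embedding.subtype (fun x => x ∈ R))) (s₂ := Y))
    have h7 := rk_mono (N := N) (subset_union_right
      (s₁ := Z.map (Function.Embedding.subtype (fun x => x ∈ R))) (s₂ := Y))
    omega

end qc

section classes

variable (K : Type*) [Field K]

/-- `N` is representable over `K` -/
def Rep {E : Type*} [DecidableEq E] (N : RF E) : Prop :=
  ∃ (n : ℕ) (w : E → (Fin n → K)), ∀ Z, Ca3.rk K w Z = rk N Z

/-- simple strict gammoids all whose contractions `N / x` are representable over `K` -/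
structure KC {E : Type*} [DecidableEq E] [Fintype E] (N : RF E) : Prop where
  simple : Simple N
  sg : SG N ∅ univ
  rep : RepC K N

/-- no 3-connected member of rank `k` with all cocircuits of size at least four and
`α(E) = 0` -/
def TT (k : ℕ) : Prop :=
  ∀ (E : Type u) [DecidableEq E] [Fintype E] (N : RF E), KC K N → rk N univ = k →
    Conn3 N → Cog4 N → alpha N univ = 0 → False

end classes

end Ca3.Ab
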