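import Pool.Agent.Lib.MP_ca3eb1_co.AbTwoSum
import Pool.Agent.Lib.MP_ca3eb1_co.AbMem

/-! # Contractions `N.qc Y R` -/

set_option linter.unusedSectionVars false

namespace Ca3.Ab

open Finset

variable {E : Type*} [DecidableEq E] {N : RF E} {Y T R F Z : Finset E}

/-- the rank function of the contraction -/
theorem rk_qc (Z : Finset R) :
    rk (N.qc Y R) Z + rk N Y = rk N (Z.map (Function.Embedding.subtype _) ∪ Y) := by
  have h : rk N Y ≤ rk N (Z.map (Function.Embedding.subtype _) ∪ Y) :=
    rk_mono subset_union_right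
  change rk N (Z.map (Function.Embedding.subtype _) ∪ Y) - rk N Y + rk N Y = _
  omega

theorem mem_sp_qc {Z : Finset R} {r : R} :
    r ∈ sp (N.qc Y R) Z ↔ (r : E) ∈ sp N (Z.map (Function.Embedding.subtype _) ∪ Y) := by
  rw [mem_sp_iff, mem_sp_iff]
  have h1 := rk_qc (N := N) (Y := Y) Z
  have h2 := rk_qc (N := N) (Y := Y) (insert r Z)
  rw [map_insert, insert_union] at h2
  have h3 : (Function.Embedding.subtype fun x => x ∈ R) r = (r : E) := rfl
  rw [h3] at h2
  omega

variable [Fintype E]

/-- The members of a family contained in `T` with rank at least two over `Y`. -/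
def BigIdx {ι : Type*} (N : RF E) (Y T : Finset E) (A : ι → Finset E) : Type _ :=
  {i : ι // A i ⊆ T ∧ rk N Y + 2 ≤ rk N (A i ∪ Y)}

noncomputable instance {ι : Type*} [Fintype ι] (N : RF E) (Y T : Finset E) (A : ι → Finset E) :
    Fintype (BigIdx N Y T A) := by
  classical
  unfold BigIdx
  infer_instance

/-- an element is in the span of a representative of its class -/
lemma IsReps.exists_mem (h : IsReps N Y T R) {e : E} (he : e ∈ T) (he' : e ∉ sp N Y) :
    ∃ r ∈ R, r ∈ sp N (insert e Y) ∧ e ∈ sp N (insert r Y) := by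
  obtain ⟨r, hr, h1⟩ := h.ex e he he'
  exact ⟨r, hr, h1, mem_sp_insert_exchange h1 (h.not_mem r hr)⟩

lemma sp_tr (h : IsReps N Y T R) (hF : IsFl N F) (hYF : Y ⊆ F) (hFT : F ⊆ T) :
    sp N ((tr R F).map (Function.Embedding.subtype _) ∪ Y) = sp N F := by
  have hsub : (tr R F).map (Function.Embedding.subtype _) ⊆ F := by
    intro e he
    simp only [tr, mem_map, mem_filter, mem_univ, true_and] at he
    obtain ⟨r, hr, rfl⟩ := he
    exact hr
  apply le_antisymm (sp_mono (union_subset hsub hYF))
  rw [sp_le_iff]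
  intro e he
  by_cases h0 : e ∈ sp N Y
  · exact sp_mono subset_union_right h0
  obtain ⟨r, hr, h1, h2⟩ := h.exists_mem (hFT he) h0
  have hrF : r ∈ F := hF.mem (sp_mono (insert_subset he hYF) h1)
  refine sp_mono (insert_subset ?_ subset_union_right) h2
  apply mem_union_left
  rw [mem_map]
  exact ⟨⟨r, hr⟩, by simp [tr, hrF], rfl⟩

/-- a partial system of representatives extends -/
theorem exists_isReps {R₀ : Finset E} (h0 : R₀ ⊆ T) (h1 : ∀ r ∈ R₀, r ∉ sp N Y)
    (h2 : ∀ r ∈ R₀, ∀ s ∈ R₀, r ∈ sp N (insert s Y) → r = s) :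
    ∃ R, R₀ ⊆ R ∧ IsReps N Y T R := by
  classical
  obtain ⟨R, hR⟩ := ((T.powerset.filter (fun R => R₀ ⊆ R ∧ (∀ r ∈ R, r ∉ sp N Y) ∧
    ∀ r ∈ R, ∀ s ∈ R, r ∈ sp N (insert s Y) → r = s))).exists_max_image card
    ⟨R₀, by simp only [mem_filter, mem_powerset]; exact ⟨h0, Subset.refl _, h1, h2⟩⟩
  simp only [mem_filter, mem_powerset] at hR
  obtain ⟨⟨hRT, hR₀, hR1, hR2⟩, hmax⟩ := hR
  refine ⟨R, hR₀, hRT, hR1, fun e he he' => ?_, hR2⟩
  by_contra hc
  push Not at hc
  have heR : e ∉ R := fun h' => hc e h' (mem_sp (mem_insert_self _ _))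
  have := hmax (insert e R) ⟨insert_subset he hRT, hR₀.trans (subset_insert _ _), ?_, ?_⟩
  · rw [card_insert_of_notMem heR] at this
    omega
  · intro r hr
    rcases mem_insert.1 hr with rfl | hr
    · exact he'
    · exact hR1 r hr
  · intro r hr s hs hrs
    rcases mem_insert.1 hr with hr' | hr' <;> rcases mem_insert.1 hs with hs' | hs'
    · rw [hr', hs']
    · subst hr'
      exact absurd (mem_sp_insert_exchange hrs he') (hc s hs')
    · subst hs'
      exact absurd hrs (hc r hr')
    · exact hR2 r hr' s hs' hrs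

theorem IsReps.simple (h : IsReps N Y T R) : Simple (N.qc Y R) := by
  constructor
  · intro r
    have h1 := rk_insert_of_not_mem_sp (h.not_mem r r.2)
    have h2 := rk_qc (N := N) (Y := Y) ({r} : Finset R)
    rw [map_singleton] at h2
    have h3 : ({(Function.Embedding.subtype fun x => x ∈ R) r} : Finset E) ∪ Y =
        insert (r : E) Y := by rw [insert_eq]; rfl
    rw [h3] at h2
    omega
  · intro r s hrs
    rw [mem_sp_qc, map_singleton] at hrs
    have h3 : ({(Function.Embedding.subtype fun x => x ∈ R) s} : Finset E) ∪ Y =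
        insert (s : E) Y := by rw [insert_eq]; rfl
    rw [h3] at hrs
    exact Subtype.ext (h.uniq r r.2 s s.2 hrs)

theorem IsReps.rk_tr (h : IsReps N Y T R) (hF : IsFl N F) (hYF : Y ⊆ F) (hFT : F ⊆ T) :
    rk (N.qc Y R) (tr R F) + rk N Y = rk N F := by
  rw [rk_qc]
  exact rk_congr (sp_tr h hF hYF hFT)

theorem IsReps.rk_univ (h : IsReps N Y T R) (hYT : Y ⊆ T) :
    rk (N.qc Y R) univ + rk N Y = rk N T := by
  rw [rk_qc]
  apply rk_congr
  rw [univ_eq_attach, attach_map_val]
  apply le_antisymm (sp_mono (union_subset h.sub hYT))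
  rw [sp_le_iff]
  intro e he
  by_cases h0 : e ∈ sp N Y
  · exact sp_mono subset_union_right h0
  obtain ⟨r, hr, h1, h2⟩ := h.exists_mem he h0
  exact sp_mono (insert_subset (mem_union_left _ hr) subset_union_right) h2

theorem IsReps.isFl_tr (h : IsReps N Y T R) (hF : IsFl N F) (hYF : Y ⊆ F) (hFT : F ⊆ T) :
    IsFl (N.qc Y R) (tr R F) := by
  apply subset_antisymm _ subset_cl
  intro r hr
  rw [mem_cl, mem_sp_qc, sp_tr h hF hYF hFT] at hr
  simpa [tr] using hF.mem hr

theorem IsReps.tr_inj {F' : Finset E} (h : IsReps N Y T R) (hF : IsFl N F) (hYF : Y ⊆ F)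
    (hFT : F ⊆ T) (hF' : IsFl N F') (hYF' : Y ⊆ F') (hFT' : F' ⊆ T)
    (he : tr R F = tr R F') : F = F' := by
  have h1 : sp N F = sp N F' := by
    rw [← sp_tr h hF hYF hFT, ← sp_tr h hF' hYF' hFT', he]
  ext e
  rw [hF.mem_iff, hF'.mem_iff, h1]

/-- Every flat of the quotient configuration is a trace. -/
theorem IsReps.exists_flat_tr (h : IsReps N Y T R) (hT : IsFl N T) (hYT : Y ⊆ T) {Z : Finset R}
    (hZ : IsFl (N.qc Y R) Z) :
    ∃ F, IsFl N F ∧ Y ⊆ F ∧ F ⊆ T ∧ tr R F = Z := by
  refine ⟨cl N (Z.map (Function.Embedding.subtype _) ∪ Y), isFl_cl,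
    subset_union_right.trans subset_cl, hT.cl_subset (union_subset ?_ hYT), ?_⟩
  · intro e he
    rw [mem_map] at he
    obtain ⟨r, -, rfl⟩ := he
    exact h.sub r.2
  · ext r
    rw [hZ.mem_iff, mem_sp_qc]
    simp only [tr, mem_filter, mem_univ, true_and, mem_cl]


private lemma tf_rank_one (h : IsReps N Y T R) {z : E} (hz : z ∈ R) :
    rk N (cl N (insert z Y)) = rk N Y + 1 := by
  rw [rk_cl, rk_insert_of_not_mem_sp (h.not_mem z hz)]

/-- a flat containing `Y` in `cl (insert z Y)` -/
private lemma tf_flat_le {G : Finset E} (hG : IsFl N G) (hYG : Y ⊆ G) {z : E}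
    (hGz : G ⊆ cl N (insert z Y)) : G ⊆ cl N Y ∨ G = cl N (insert z Y) := by
  by_cases hr : rk N G ≤ rk N Y
  · left
    rw [hG.cl_eq hYG hr]
  · right
    apply hG.eq_of_subset_of_rk_le hGz
    rw [rk_cl]
    have : rk N (insert z Y) ≤ rk N Y + 1 := rk_insert_le
    omega

private lemma tf_cnt_line (h : IsReps N Y T R) {ι : Type*} [Fintype ι]
    {B : ι → Finset E} (hB : ∀ i, IsFl N (B i)) (hYB : ∀ i, Y ⊆ B i) {z : E} (hz : z ∈ R) :
    cnt B (cl N (insert z Y)) =
      cnt B (cl N Y) + (univ.filter fun i => B i = cl N (insert z Y)).card := by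
  classical
  unfold cnt
  rw [← card_union_of_disjoint]
  · congr 1
    ext i
    simp only [mem_filter, mem_univ, true_and, mem_union]
    constructor
    · exact tf_flat_le (hB i) (hYB i)
    · rintro (h' | h')
      · exact h'.trans (cl_mono (subset_insert _ _))
      · exact h'.subset
  · rw [disjoint_left]
    intro i hi hi'
    simp only [mem_filter, mem_univ, true_and] at hi hi'
    have h1 : z ∈ cl N Y := hi (hi' ▸ subset_cl (mem_insert_self _ _))
    exact h.not_mem z hz (mem_cl.1 h1)

/-- Lemma S: the Mason family of the simplification of `N / Y` restricted to a flat `T`. -/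
theorem transfer (h : IsReps N Y T R) (hT : IsFl N T) (hYT : Y ⊆ T) {ι : Type*} [Fintype ι]
    {A : ι → Finset E} (hA : IsMason N Y T A) :
    IsMason (N.qc Y R) ∅ univ
      (fun i : BigIdx N Y T A => tr R (cl N (A i.1 ∪ Y))) := by
  classical
  intro Z' _ _
  have hB := hA.closure
  set B : ι → Finset E := fun i => cl N (A i ∪ Y) with hBdef
  have hBfl : ∀ i, IsFl N (B i) := fun i => isFl_cl
  have hYB : ∀ i, Y ⊆ B i := fun i => subset_union_right.trans subset_cl
  have hclT : cl N Y ⊆ T := hT.cl_subset hYT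
  have hzT : ∀ z ∈ R, cl N (insert z Y) ⊆ T := fun z hz =>
    hT.cl_subset (insert_subset (h.sub hz) hYT)
  -- the set of all elements over `Z'`
  set Z : Finset E := T.filter
    (fun e => e ∈ sp N Y ∨ ∃ z ∈ Z', e ∈ sp N (insert (z : E) Y)) with hZdef
  have hmemZ : ∀ e, e ∈ Z ↔ e ∈ cl N Y ∨ ∃ z ∈ Z', e ∈ cl N (insert (z : E) Y) := by
    intro e
    rw [hZdef, mem_filter]
    constructor
    · rintro ⟨_, h1 | ⟨z, hz, h1⟩⟩
      · exact Or.inl (mem_cl.2 h1)
      · exact Or.inr ⟨z, hz, mem_cl.2 h1⟩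
    · rintro (h1 | ⟨z, hz, h1⟩)
      · exact ⟨hclT h1, Or.inl (mem_cl.1 h1)⟩
      · exact ⟨hzT z z.2 h1, Or.inr ⟨z, hz, mem_cl.1 h1⟩⟩
  have hZT : Z ⊆ T := filter_subset _ _
  have hYZ : Y ⊆ Z := fun e he => (hmemZ e).2 (Or.inl (subset_cl he))
  -- rank of `Z`
  have hspZ : sp N (Z'.map (Function.Embedding.subtype _) ∪ Y) = sp N Z := by
    apply le_antisymm
    · apply sp_mono
      apply union_subset _ hYZ
      intro e he
      obtain ⟨z, hz, rfl⟩ := mem_map.1 he
      exact (hmemZ _).2 (Or.inr ⟨z, hz, subset_cl (mem_insert_self _ _)⟩)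
    · rw [sp_le_iff]
      intro e he
      rcases (hmemZ e).1 he with h1 | ⟨z, hz, h1⟩
      · exact sp_mono subset_union_right (mem_cl.1 h1)
      · refine sp_mono ?_ (mem_cl.1 h1)
        exact insert_subset (mem_union_left _ (mem_map_of_mem (Function.Embedding.subtype _) hz))
          subset_union_right
  have hrkZ : rk (N.qc Y R) Z' + rk N Y = rk N Z := by
    rw [rk_qc]
    exact rk_congr hspZ
  -- uniqueness of the representative
  have huniq : ∀ e, e ∉ cl N Y → ∀ z z' : R, e ∈ cl N (insert (z : E) Y) →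
      e ∈ cl N (insert (z' : E) Y) → z = z' := by
    intro e he z z' h1 h2
    rw [mem_cl] at he h1 h2
    apply Subtype.ext
    apply h.uniq z z.2 z' z'.2
    have h3 := mem_sp_insert_exchange h1 he
    refine (sp_le_iff.2 ?_) h3
    intro f hf
    rcases mem_insert.1 hf with rfl | hf
    · exact h2
    · exact mem_sp (mem_insert_of_mem hf)
  -- cardinality of `Z`
  have hcard : Z.card = (cl N Y).card +
      ∑ z ∈ Z', (cl N (insert (z : E) Y) \ cl N Y).card := by
    have h1 : Z = cl N Y ∪ Z'.biUnion (fun z => cl N (insert (z : E) Y) \ cl N Y) := by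
      ext e
      rw [hmemZ, mem_union, mem_biUnion]
      constructor
      · rintro (h1 | ⟨z, hz, h1⟩)
        · exact Or.inl h1
        · by_cases h2 : e ∈ cl N Y
          · exact Or.inl h2
          · exact Or.inr ⟨z, hz, mem_sdiff.2 ⟨h1, h2⟩⟩
      · rintro (h1 | ⟨z, hz, h1⟩)
        · exact Or.inl h1
        · exact Or.inr ⟨z, hz, (mem_sdiff.1 h1).1⟩
    rw [h1, card_union_of_disjoint, card_biUnion]
    · intro z _ z' _ hne
      refine disjoint_left.2 ?_
      intro e he he'
      exact hne (huniq e (mem_sdiff.1 he).2 z z' (mem_sdiff.1 he).1 (mem_sdiff.1 he').1)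
    · rw [disjoint_left]
      intro e he he'
      obtain ⟨z, _, h2⟩ := mem_biUnion.1 he'
      exact (mem_sdiff.1 h2).2 he
  -- number of members with closure a point over `Y`
  have hP : ∀ z ∈ R, (univ.filter fun i => B i = cl N (insert z Y)).card + 1 =
      (cl N (insert z Y) \ cl N Y).card := by
    intro z hz
    have h1 := tf_cnt_line h hBfl hYB hz
    have h2 := hB.eq ((subset_insert z Y).trans subset_cl) (hzT z hz) isFl_cl
    have h3 := hB.eq subset_cl hclT (isFl_cl (N := N) (X := Y))
    have h4 := tf_rank_one h hz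
    have h5 : rk N (cl N Y) = rk N Y := rk_cl
    have h6 := card_sdiff_add_card_eq_card
      (cl_mono (subset_insert z Y) : cl N Y ⊆ cl N (insert z Y))
    omega
  -- number of members in `Z`
  have hcnt : cnt B Z = cnt B (cl N Y) +
      ∑ z ∈ Z', (univ.filter fun i => B i = cl N (insert (z : E) Y)).card +
      (univ.filter fun i => B i ⊆ Z ∧ rk N Y + 2 ≤ rk N (B i)).card := by
    have h1 : (univ.filter fun i => B i ⊆ Z) = ((univ.filter fun i => B i ⊆ cl N Y) ∪
        Z'.biUnion (fun z => univ.filter fun i => B i = cl N (insert (z : E) Y))) ∪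
        (univ.filter fun i => B i ⊆ Z ∧ rk N Y + 2 ≤ rk N (B i)) := by
      ext i
      simp only [mem_filter, mem_univ, true_and, mem_union, mem_biUnion]
      constructor
      · intro hi
        by_cases hbig : rk N Y + 2 ≤ rk N (B i)
        · exact Or.inr ⟨hi, hbig⟩
        left
        by_cases hsub : B i ⊆ cl N Y
        · exact Or.inl hsub
        right
        obtain ⟨e, heB, heY⟩ := not_subset.1 hsub
        rcases (hmemZ e).1 (hi heB) with h1 | ⟨z, hz, h1⟩
        · exact absurd h1 heY
        refine ⟨z, hz, ?_⟩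
        have hzB : (z : E) ∈ B i := by
          apply (hBfl i).mem
          have h3 := mem_sp_insert_exchange (mem_cl.1 h1) (fun h' => heY (mem_cl.2 h'))
          exact sp_mono (insert_subset heB (hYB i)) h3
        symm
        apply (isFl_cl (N := N)).eq_of_subset_of_rk_le
          ((hBfl i).cl_subset (insert_subset hzB (hYB i)))
        rw [tf_rank_one h z.2]
        omega
      · rintro ((h1 | ⟨z, hz, h1⟩) | h1)
        · exact fun e he => (hmemZ e).2 (Or.inl (h1 he))
        · rw [h1]
          exact fun e he => (hmemZ e).2 (Or.inr ⟨z, hz, he⟩)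
        · exact h1.1
    unfold cnt
    rw [h1, card_union_of_disjoint, card_union_of_disjoint, card_biUnion]
    · intro z _ z' _ hne
      refine disjoint_left.2 ?_
      intro i hi hi'
      rw [mem_filter] at hi hi'
      apply hne
      have h2 : (z : E) ∉ cl N Y := fun h' => h.not_mem z z.2 (mem_cl.1 h')
      apply huniq z h2 z z' (subset_cl (mem_insert_self _ _))
      rw [← hi'.2, hi.2]
      exact subset_cl (mem_insert_self _ _)
    · rw [disjoint_left]
      intro i hi hi'
      obtain ⟨z, _, hz⟩ := mem_biUnion.1 hi'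
      rw [mem_filter] at hi hz
      have h1 : (z : E) ∈ cl N Y := hi.2 (hz.2 ▸ subset_cl (mem_insert_self _ _))
      exact h.not_mem z z.2 (mem_cl.1 h1)
    · rw [disjoint_left]
      intro i hi hi'
      rw [mem_filter] at hi'
      have h2 := hi'.2.2
      rcases mem_union.1 hi with hi | hi
      · rw [mem_filter] at hi
        have h3 := rk_mono (N := N) hi.2
        have h4 : rk N (cl N Y) = rk N Y := rk_cl
        omega
      · obtain ⟨z, _, hz⟩ := mem_biUnion.1 hi
        rw [mem_filter] at hz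
        rw [hz.2, tf_rank_one h z.2] at h2
        omega
  -- members of the transferred family
  have hbig : cnt (fun i : BigIdx N Y T A => tr R (cl N (A i.1 ∪ Y))) Z' =
      (univ.filter fun i => B i ⊆ Z ∧ rk N Y + 2 ≤ rk N (B i)).card := by
    unfold cnt
    have hiff : ∀ i, B i ⊆ T → (tr R (B i) ⊆ Z' ↔ B i ⊆ Z) := by
      intro i hiT
      constructor
      · intro h1 e he
        rw [hmemZ]
        by_cases heY : e ∈ cl N Y
        · exact Or.inl heY
        right
        rw [mem_cl] at heY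
        obtain ⟨r, hr, h2⟩ := h.ex e (hiT he) heY
        have hrB : r ∈ B i := (hBfl i).mem (sp_mono (insert_subset he (hYB i)) h2)
        refine ⟨⟨r, hr⟩, h1 ?_, ?_⟩
        · unfold tr
          rw [mem_filter]
          exact ⟨mem_univ _, hrB⟩
        · rw [mem_cl]
          exact mem_sp_insert_exchange h2 (h.not_mem r hr)
      · intro h1 r hr
        unfold tr at hr
        rw [mem_filter] at hr
        have h2 : (r : E) ∉ cl N Y := fun h' => h.not_mem r r.2 (mem_cl.1 h')
        rcases (hmemZ r).1 (h1 hr.2) with h3 | ⟨z, hz, h3⟩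
        · exact absurd h3 h2
        · rw [huniq r h2 r z (subset_cl (mem_insert_self _ _)) h3]
          exact hz
    apply card_bij (fun i _ => i.1)
    · intro i hi
      rw [mem_filter] at hi ⊢
      have h1 : B i.1 ⊆ T := hT.cl_subset (union_subset i.2.1 hYT)
      refine ⟨mem_univ _, (hiff i.1 h1).1 hi.2, ?_⟩
      rw [hBdef]
      simp only [rk_cl]
      exact i.2.2
    · intro i _ j _ hij
      exact Subtype.ext hij
    · intro i hi
      rw [mem_filter] at hi
      have h1 : B i ⊆ T := hi.2.1.trans hZT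
      have h2 : A i ⊆ T := (subset_union_left.trans subset_cl).trans h1
      have h3 : rk N Y + 2 ≤ rk N (A i ∪ Y) := by
        have := hi.2.2
        rw [hBdef] at this
        simpa only [rk_cl] using this
      let i' : BigIdx N Y T A := ⟨i, h2, h3⟩
      exact ⟨i', mem_filter.2 ⟨mem_univ i', (hiff i h1).2 hi.2.1⟩, rfl⟩
  -- conclusion
  have hsum : ∑ z ∈ Z', (cl N (insert (z : E) Y) \ cl N Y).card =
      ∑ z ∈ Z', (univ.filter fun i => B i = cl N (insert (z : E) Y)).card + Z'.card := by
    rw [card_eq_sum_ones, ← sum_add_distrib]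
    apply sum_congr rfl
    intro z _
    exact (hP z z.2).symm
  have h3 := hB.eq subset_cl hclT (isFl_cl (N := N) (X := Y))
  have h5 : rk N (cl N Y) = rk N Y := rk_cl
  refine ⟨?_, fun hZ' => ?_⟩
  · have h1 := hB.le hYZ hZT
    omega
  · have hZfl : IsFl N Z := by
      refine subset_antisymm (fun e he => ?_) subset_cl
      rw [mem_cl, ← hspZ] at he
      rw [hmemZ]
      by_cases heY : e ∈ cl N Y
      · exact Or.inl heY
      right
      rw [mem_cl] at heY
      have heT : e ∈ T := by
        apply hT.mem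
        rw [hspZ] at he
        exact sp_mono hZT he
      obtain ⟨r, hr, h2⟩ := h.ex e heT heY
      refine ⟨⟨r, hr⟩, hZ'.mem ?_, ?_⟩
      · rw [mem_sp_qc]
        refine (sp_le_iff.2 ?_) h2
        intro f hf
        rcases mem_insert.1 hf with rfl | hf
        · exact he
        · exact mem_sp (mem_union_right _ hf)
      · rw [mem_cl]
        exact mem_sp_insert_exchange h2 (h.not_mem r hr)
    have h1 := hB.eq hYZ hZT hZfl
    omega

theorem transfer_SG (h : IsReps N Y T R) (hT : IsFl N T) (hYT : Y ⊆ T)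
    (hs : SG N Y T) : SG (N.qc Y R) ∅ univ := by
  obtain ⟨n, A, hA⟩ := hs
  exact (transfer h hT hYT hA).sg


/-- The closed Mason family of the contraction: the members spanning rank at least two over
`Y`. -/
theorem Fam.qc {ι : Type*} [Fintype ι] {A : ι → Finset E} (h : Fam N A)
    (hR : IsReps N Y univ R) :
    Fam (N.qc Y R) (fun i : {i : ι // rk N Y + 2 ≤ rk N (A i ∪ Y)} =>
      tr R (cl N (A i ∪ Y))) := by
  classical
  have hM : IsMason N Y univ A := h.mason.mono (empty_subset _) (Subset.refl _)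
  have h1 := transfer hR isFl_univ (subset_univ _) hM
  refine ⟨?_, ?_⟩
  · intro Z h2 h3
    have h4 := h1 Z h2 h3
    have h5 : cnt (fun i : {i : ι // rk N Y + 2 ≤ rk N (A i ∪ Y)} => tr R (cl N (A i ∪ Y))) Z =
        cnt (fun i : BigIdx N Y univ A => tr R (cl N (A i.1 ∪ Y))) Z := by
      unfold cnt
      apply card_bij (fun i _ => (⟨i.1, subset_univ _, i.2⟩ : BigIdx N Y univ A))
      · intro i hi
        let i' : BigIdx N Y univ A := ⟨i.1, subset_univ _, i.2⟩
        exact mem_filter.2 ⟨mem_univ i', (mem_filter.1 hi).2⟩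
      · intro i _ j _ hij
        apply Subtype.ext
        exact congrArg (fun t : BigIdx N Y univ A => t.1) hij
      · intro j hj
        let j' : {i : ι // rk N Y + 2 ≤ rk N (A i ∪ Y)} := ⟨j.1, j.2.2⟩
        exact ⟨j', mem_filter.2 ⟨mem_univ j', (mem_filter.1 hj).2⟩, rfl⟩
    rw [h5]
    exact h4
  · intro i
    exact hR.isFl_tr isFl_cl (subset_union_right.trans subset_cl) (subset_univ _)

section rep

variable {K : Type*} [Field K]

theorem Rep.repC (h : Rep K N) : RepC K N := by
  intro x
  obtain ⟨n, w, hw⟩ := h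
  obtain ⟨m, u, hu⟩ := ts_contract (K := K) w {x}
  refine ⟨m, u, fun Z => ?_⟩
  have h1 := hu Z
  rw [hw, hw, ← insert_eq] at h1
  exact h1

theorem Rep.restrict (h : Rep K N) (F : Finset E) : Rep K (N.restrict F) := by
  obtain ⟨n, w, hw⟩ := h
  refine ⟨n, fun e : F => w e, fun Z => ?_⟩
  rw [rk_restrict, Ca3.rk_restrict, hw]

/-- the contraction `N / Y`, `Y` nonempty, is representable -/
theorem rep_qc {x : E} (hq : RepC K N) (hx : x ∈ Y) : Rep K (N.qc Y R) := by
  obtain ⟨n, w, hw⟩ := hq.contract ⟨x, hx⟩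
  refine ⟨n, fun e : R => w e, fun Z => ?_⟩
  have h1 := hw (Z.map (Function.Embedding.subtype _))
  have h2 := rk_qc (N := N) (Y := Y) Z
  rw [union_comm] at h2
  rw [Ca3.rk_restrict]
  omega

/-- proper flats are representable -/
theorem rep_restrict (hN : Simple N) (hq : RepC K N) (hF : IsFl N F) (hne : F ≠ univ) :
    Rep K (N.restrict F) := by
  obtain ⟨x, hx⟩ : ∃ x, x ∉ F := by
    by_contra hc
    push Not at hc
    exact hne (univ_subset_iff.1 fun e _ => hc e)
  obtain ⟨n, w, hw⟩ := hq x
  refine ⟨n, fun e : F => w e, fun Z => ?_⟩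
  rw [hw.restrict_eq hN hF hx, rk_ofVec]

theorem KC.qc {x : E} (h : KC K N) (hR : IsReps N Y univ R) (hx : x ∈ Y) :
    KC K (N.qc Y R) :=
  ⟨hR.simple, transfer_SG hR isFl_univ (subset_univ _) (h.sg.mono (empty_subset _)
    (Subset.refl _)), (rep_qc h.rep hx).repC⟩

theorem simple_restrict (h : Simple N) (F : Finset E) : Simple (N.restrict F) := by
  constructor
  · intro e
    rw [rk_restrict, map_singleton]
    exact h.1 _
  · intro e f hef
    rw [mem_sp_restrict, map_singleton] at hef
    exact Subtype.ext (h.2 _ _ hef)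

theorem KC.restrict (h : KC K N) (hF : IsFl N F) : KC K (N.restrict F) := by
  refine ⟨simple_restrict h.simple F, ?_, h.rep.restrict F⟩
  have h1 := SG_restrict hF (empty_subset F) (h.sg.mono (Subset.refl _) (subset_univ F))
  have h2 : tr F (∅ : Finset E) = ∅ := by
    ext e
    simp [tr]
  rwa [h2] at h1

/-- no Mason hyperplane: the spanning multiplicity stays zero in `N / x` -/
theorem alpha_qc_univ {x : E} (h : SG N ∅ univ) (hN : Simple N) (hR : IsReps N {x} univ R)
    (h2 : 3 ≤ rk N univ) (h0 : alpha N univ = 0)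
    (hh : ∀ H, IsFl N H → rk N H + 1 = rk N univ → alpha N H = 0) :
    alpha (N.qc {x} R) univ = 0 := by
  obtain ⟨n, A, hA⟩ := h.exists_fam
  have h3 := (hA.qc hR).alpha_eq (isFl_univ (N := N.qc {x} R))
  rw [h3]
  rw [Nat.cast_eq_zero, card_eq_zero, filter_eq_empty_iff]
  intro i _ hi
  have h4 : tr R (cl N (A i ∪ {x})) = tr R univ := by
    rw [hi]
    ext r
    simp [tr]
  have h5 := hR.tr_inj isFl_cl (subset_union_right.trans subset_cl) (subset_univ _)
    isFl_univ (subset_univ _) (subset_univ _) h4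
  have h6 : rk N (A i ∪ {x}) = rk N univ := by
    rw [← rk_cl, h5]
  have h7 : rk N (A i ∪ {x}) ≤ rk N (A i) + 1 := by
    rw [union_comm, ← insert_eq]
    exact rk_insert_le
  have h8 := hA.rk_lt h0 i
  have h9 := hh (A i) (hA.fl i) (by omega)
  have h10 := hA.alpha_pos i
  omega

end rep

end Ca3.Ab
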