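import Pool.Agent.Lib.MP_ca3eb1_co.AbReps

/-! # Connectivity and vertical 3-separations -/

set_option linter.unusedSectionVars false

namespace Ca3.Ab

open Finset

variable {E : Type*} [DecidableEq E] [Fintype E] {N : RF E} {ι : Type*} [Fintype ι]
  {A : ι → Finset E} {X Y Z S T R V V' W H F G : Finset E} {e x y z : E} {i : ι}

theorem Conn3.rk_compl (hc : Conn3 N) (h4 : 4 ≤ Fintype.card E) (hX : X.card ≤ 2) :
    rk N Xᶜ = rk N univ := by
  obtain ⟨X', h1, -, h2⟩ := exists_subsuperset_card_eq (n := 2) (subset_univ X) hX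
    (by rw [card_univ]; omega)
  have h3 := card_compl_add_card X'
  have h5 := hc X' h2.ge (by omega)
  have h6 : rk N X' ≤ X'.card := rk_le_card
  have h7 : rk N X'ᶜ ≤ rk N Xᶜ := rk_mono (compl_subset_compl.2 h1)
  have h8 : rk N Xᶜ ≤ rk N univ := rk_mono (subset_univ _)
  omega

/-- no coloop -/
theorem Conn3.mem_sp_erase (hc : Conn3 N) (h4 : 4 ≤ Fintype.card E) (e : E) :
    e ∈ sp N (univ.erase e) := by
  have h1 := hc.rk_compl h4 (X := {e}) (by simp)
  have h2 : ({e} : Finset E)ᶜ = univ.erase e := by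
    ext f; simp
  rw [h2] at h1
  rw [mem_sp_iff, insert_erase (mem_univ e), h1]

/-- the complement of a proper flat has at least three elements -/
theorem Conn3.three_le (hc : Conn3 N) (h4 : 4 ≤ Fintype.card E) (hF : rk N F < rk N univ) :
    3 ≤ Fᶜ.card := by
  by_contra h
  have := hc.rk_compl h4 (X := Fᶜ) (by omega)
  rw [compl_compl] at this
  omega

theorem Guts.symm (h : Guts N V V') : Guts N V' V :=
  ⟨h.fl', h.fl, by rw [union_comm]; exact h.cover, by rw [add_comm]; exact h.rk_add, h.three',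
    h.three⟩

theorem Guts.rk_lt (h : Guts N V V') : rk N V < rk N univ := by
  have := h.rk_add
  have := h.three'
  omega

theorem Guts.sdiff_eq (h : Guts N V V') : V \ V' = V'ᶜ := by
  ext e
  rw [mem_sdiff, mem_compl]
  constructor
  · exact fun h' => h'.2
  · intro h'
    refine ⟨?_, h'⟩
    have := h.cover.symm ▸ mem_univ e
    rcases mem_union.1 this with h1 | h1
    · exact h1
    · exact absurd h1 h'

/-- (F0), rank form -/
theorem Guts.rk_sdiff (h : Guts N V V') (hc : Conn3 N) (h4 : 4 ≤ Fintype.card E) :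
    rk N (V \ V') = rk N V := by
  have h1 := hc.three_le h4 h.symm.rk_lt
  have h2 : rk N V' ≤ V'.card := rk_le_card
  have h3 := h.three'
  have h5 := hc V'ᶜ (by omega) (by rw [compl_compl]; omega)
  rw [compl_compl] at h5
  rw [h.sdiff_eq]
  have h6 := h.rk_add
  have h7 : rk N (V \ V') ≤ rk N V := rk_mono sdiff_subset
  rw [h.sdiff_eq] at h7
  omega

/-- (F0) -/
theorem Guts.cl_sdiff (h : Guts N V V') (hc : Conn3 N) (h4 : 4 ≤ Fintype.card E) :
    cl N (V \ V') = V :=
  h.fl.cl_eq sdiff_subset (h.rk_sdiff hc h4).ge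

/-- a point of the guts is in a member inside `V` -/
theorem Guts.exists_mem_in (h : Guts N V V') (hc : Conn3 N) (h4 : 4 ≤ Fintype.card E)
    (hA : Fam N A) (he : e ∈ V ∩ V') : ∃ i, e ∈ A i ∧ A i ⊆ V := by
  rw [mem_inter] at he
  apply hA.exists_mem_in h.fl he.1
  have h1 : e ∈ sp N (V \ V') := by
    rw [← mem_cl, h.cl_sdiff hc h4]
    exact he.1
  apply sp_mono _ h1
  intro f hf
  rw [mem_sdiff] at hf
  rw [mem_erase]
  exact ⟨fun h' => hf.2 (h' ▸ he.2), hf.1⟩

/-- (F3) for vertical 3-separations -/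
theorem Guts.meet_in (h : Guts N V V') (hc : Conn3 N) (h4 : 4 ≤ Fintype.card E)
    (hA : Fam N A) (hS : S ⊆ V ∩ V') :
    S.card ≤ (univ.filter (fun i => A i ⊆ V ∧ ¬ Disjoint (A i) S)).card := by
  apply hA.meet_in_of_spanning h.fl (hS.trans inter_subset_left)
  apply le_antisymm (rk_mono sdiff_subset)
  rw [← h.rk_sdiff hc h4]
  apply rk_mono
  intro f hf
  rw [mem_sdiff] at hf ⊢
  exact ⟨hf.1, fun h' => hf.2 (mem_inter.1 (hS h')).2⟩

theorem Guts.count (h : Guts N V V') (hA : Fam N A) :
    (univ.filter (fun i => ¬ A i ⊆ V ∧ ¬ A i ⊆ V')).card + rk N (V ∩ V') = 2 := by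
  have h1 := hA.guts_count h.fl h.fl' h.cover
  have h2 := h.rk_add
  omega

theorem Guts.rk_inter_le (h : Guts N V V') (hA : Fam N A) : rk N (V ∩ V') ≤ 2 := by
  have := h.count hA
  omega

/-- two proper flats covering the ground set of a 3-connected matroid -/
theorem Conn3.rk_add_ge (hc : Conn3 N) (h4 : 4 ≤ Fintype.card E) (hV : rk N V < rk N univ)
    (hV' : rk N V' < rk N univ) (hcov : V ∪ V' = univ) :
    rk N univ + 2 ≤ rk N V + rk N V' := by
  have h1 := hc.three_le h4 hV'
  have h0 := hc.three_le h4 hV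
  have h3 : Vᶜ ⊆ V' := by
    intro f hf
    rw [mem_compl] at hf
    have := hcov.symm ▸ mem_univ f
    rcases mem_union.1 this with h1 | h1
    · exact absurd h1 hf
    · exact h1
  have h6 : V'ᶜ ⊆ V := by
    intro f hf
    rw [mem_compl] at hf
    have := hcov.symm ▸ mem_univ f
    rcases mem_union.1 this with h1 | h1
    · exact h1
    · exact absurd h1 hf
  have h7 := card_le_card h6
  have h5 := hc V (by omega) (by omega)
  have h8 := rk_mono (N := N) h3
  omega

/-- (GUTS) if the simplification of `N / x` is not 3-connected then `x` is in the guts of a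
vertical 3-separation -/
theorem exists_guts (hc : Conn3 N) (hN : Simple N) (hR : IsReps N {x} univ R)
    (hn : ¬ Conn3 (N.qc {x} R)) : ∃ V V', Guts N V V' ∧ x ∈ V ∩ V' := by
  unfold Conn3 at hn
  push Not at hn
  obtain ⟨X, hX, hX', hr⟩ := hn
  have hsimp := hR.simple
  have hrx : rk N {x} = 1 := hN.rk_singleton
  have e1 := rk_qc (N := N) (Y := {x}) X
  have e2 := rk_qc (N := N) (Y := {x}) Xᶜ
  have e3 := hR.rk_univ (subset_univ _)
  have e4 := hsimp.two_le_rk hX
  have e5 := hsimp.two_le_rk hX'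
  have hcov : cl N (X.map (Function.Embedding.subtype _) ∪ {x}) ∪
      cl N (Xᶜ.map (Function.Embedding.subtype _) ∪ {x}) = univ := by
    rw [eq_univ_iff_forall]
    intro f
    rw [mem_union, mem_cl, mem_cl]
    by_cases hf : f ∈ sp N {x}
    · left
      exact sp_mono subset_union_right hf
    · obtain ⟨r, hrR, -, h2⟩ := hR.exists_mem (mem_univ f) hf
      by_cases hrX : (⟨r, hrR⟩ : R) ∈ X
      · left
        apply sp_mono _ h2
        intro g hg
        rcases mem_insert.1 hg with rfl | hg
        · exact mem_union_left _ (mem_map_sub.2 ⟨hrR, hrX⟩)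
        · exact mem_union_right _ hg
      · right
        apply sp_mono _ h2
        intro g hg
        rcases mem_insert.1 hg with rfl | hg
        · exact mem_union_left _ (mem_map_sub.2 ⟨hrR, mem_compl.2 hrX⟩)
        · exact mem_union_right _ hg
  have h4 : 4 ≤ Fintype.card E := by
    have h5 : X.card + Xᶜ.card = Fintype.card R := card_add_card_compl X
    have h6 : Fintype.card R ≤ Fintype.card E := Fintype.card_le_of_injective _
      Subtype.val_injective
    omega
  refine ⟨cl N (X.map (Function.Embedding.subtype _) ∪ {x}),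
    cl N (Xᶜ.map (Function.Embedding.subtype _) ∪ {x}),
    ⟨isFl_cl, isFl_cl, hcov, ?_, ?_, ?_⟩, ?_⟩
  · have h5 := hc.rk_add_ge h4 (V := cl N (X.map (Function.Embedding.subtype _) ∪ {x}))
      (V' := cl N (Xᶜ.map (Function.Embedding.subtype _) ∪ {x}))
      (by rw [rk_cl]; omega) (by rw [rk_cl]; omega) hcov
    rw [rk_cl, rk_cl] at h5 ⊢
    omega
  · rw [rk_cl]; omega
  · rw [rk_cl]; omega
  · rw [mem_inter]
    exact ⟨subset_cl (mem_union_right _ (mem_singleton_self x)),
      subset_cl (mem_union_right _ (mem_singleton_self x))⟩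

/-- the converse of `exists_guts` -/
theorem Guts.not_conn3 (h : Guts N V V') (hc : Conn3 N) (h4 : 4 ≤ Fintype.card E)
    (hN : Simple N) (hx : x ∈ V ∩ V') (hR : IsReps N {x} univ R) : ¬ Conn3 (N.qc {x} R) := by
  rw [mem_inter] at hx
  have hrx : rk N {x} = 1 := hN.rk_singleton
  intro hq
  have e1 := hR.rk_tr h.fl (singleton_subset_iff.2 hx.1) (subset_univ _)
  have e3 := hR.rk_univ (subset_univ _)
  have e6 := h.rk_add
  have e7 := h.three
  have e8 := h.three'
  -- the complement spans V'
  have e2 : rk (N.qc {x} R) (tr R V)ᶜ + 1 = rk N V' := by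
    rw [← hrx, rk_qc]
    apply le_antisymm
    · apply rk_mono
      apply union_subset _ (singleton_subset_iff.2 hx.2)
      intro f hf
      obtain ⟨hfR, hf'⟩ := mem_map_sub.1 hf
      rw [mem_compl, mem_tr] at hf'
      have := h.cover.symm ▸ mem_univ f
      rcases mem_union.1 this with h1 | h1
      · exact absurd h1 hf'
      · exact h1
    · rw [← h.symm.rk_sdiff hc h4]
      apply rk_le_of_sp_le
      rw [sp_le_iff]
      intro f hf
      rw [mem_sdiff] at hf
      by_cases hfx : f ∈ sp N {x}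
      · exact sp_mono subset_union_right hfx
      obtain ⟨r, hrR, h1, h2⟩ := hR.exists_mem (mem_univ f) hfx
      apply sp_mono _ h2
      intro g hg
      rcases mem_insert.1 hg with rfl | hg
      · refine mem_union_left _ (mem_map_sub.2 ⟨hrR, mem_compl.2 ?_⟩)
        rw [mem_tr]
        intro hgV
        exact hf.2 (h.fl.mem (sp_mono (insert_subset hgV (singleton_subset_iff.2 hx.1)) h2))
      · exact mem_union_right _ hg
  have e4 : rk (N.qc {x} R) (tr R V) ≤ (tr R V).card := rk_le_card
  have e5 : rk (N.qc {x} R) (tr R V)ᶜ ≤ (tr R V)ᶜ.card := rk_le_card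
  have := hq (tr R V) (by omega) (by omega)
  omega

/-- a free element on a member of rank at least three: `N / e` is simple -/
theorem Fam.free_rk_three (h : Fam N A) (hN : Simple N) (hf : Free A e i)
    (h3 : 3 ≤ rk N (A i)) (hy : y ≠ e) (hz : z ≠ e) (hyz : y ≠ z) : rk N {e, y, z} = 3 := by
  have h1 := hN.rk_pair hyz
  by_contra hc
  have h2 : e ∈ sp N {y, z} := by
    by_contra h2
    have := rk_insert_of_not_mem_sp h2
    omega
  have h4 := h.free_subset hf h2 (by
    simp only [mem_insert, mem_singleton, not_or]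
    exact ⟨fun h' => hy h'.symm, fun h' => hz h'.symm⟩)
  have h5 := rk_mono (N := N) h4
  rw [rk_cl] at h5
  omega

/-- a free element on a member of rank at least three: `N / e` is 3-connected -/
theorem Fam.free_conn3 (h : Fam N A) (hc : Conn3 N) (hN : Simple N)
    (h4 : 4 ≤ Fintype.card E) (hf : Free A e i) (h3 : 3 ≤ rk N (A i))
    (hR : IsReps N {e} univ R) : Conn3 (N.qc {e} R) := by
  by_contra hq
  obtain ⟨V, V', hg, he⟩ := exists_guts hc hN hR hq
  obtain ⟨j, hj, hjV⟩ := hg.exists_mem_in hc h4 h he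
  obtain ⟨j', hj', hjV'⟩ := hg.symm.exists_mem_in hc h4 h (by rwa [inter_comm])
  have h1 : A i ⊆ V ∩ V' := subset_inter ((hf.2 j hj).trans hjV) ((hf.2 j' hj').trans hjV')
  have h2 := rk_mono (N := N) h1
  have h5 := hg.rk_inter_le h
  omega

/-- an element of a 3-connected matroid which is in no vertical 3-separation -/
theorem conn3_of_no_guts (hc : Conn3 N) (hN : Simple N) (hR : IsReps N {x} univ R)
    (h : ∀ V V', Guts N V V' → x ∉ V ∩ V') : Conn3 (N.qc {x} R) := by
  by_contra hn
  obtain ⟨V, V', hg, hx⟩ := exists_guts hc hN hR hn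
  exact h V V' hg hx

end Ca3.Ab
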