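import Pool.Agent.Lib.MP_ca3eb1_co.AbMemDefs

/-! # Step 1 of V+, part F3: not all members outside a Mason hyperplane are lines -/

set_option linter.unusedSectionVars false

namespace Ca3.Ab

open Finset

variable {E : Type*} [DecidableEq E] [Fintype E] {N : RF E} {ι : Type*} [Fintype ι]
  {A : ι → Finset E} {H : Finset E}

/-- two flats of rank two which share two points are equal -/
theorem f3_line_eq {F G : Finset E} (hN : Simple N) (hF : IsFl N F) (hG : IsFl N G)
    (h1 : rk N F = 2) (h2 : rk N G = 2) (h : 2 ≤ (F ∩ G).card) : F = G := by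
  have h3 := hN.two_le_rk h
  have h4 := (hF.inter hG).eq_of_subset_of_rk_le (G := F) inter_subset_left (by omega)
  have h5 := (hF.inter hG).eq_of_subset_of_rk_le (G := G) inter_subset_right (by omega)
  rw [← h4, h5]

theorem step1_F3 (hN : Simple N) (hfl : ∀ i, IsFl N (A i))
    (hD3 : 3 ≤ Hᶜ.card) (hD4 : Hᶜ.card ≤ 4) (hr : 3 ≤ rk N Hᶜ)
    (hcnt : (univ.filter (fun i => ¬ A i ⊆ H)).card + 1 = Hᶜ.card)
    (hline : ∀ i, ¬ A i ⊆ H → rk N (A i) = 2)
    (ht : ∀ z i, z ∈ A i → rk N (A i) = 2 → ∃ j, j ≠ i ∧ z ∈ A j)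
    (hex : ∀ z, z ∉ H → ∃ i, z ∈ A i) : False := by
  classical
  set G := univ.filter (fun i => ¬ A i ⊆ H) with hG
  have hmem : ∀ z i, z ∉ H → z ∈ A i → i ∈ G := by
    intro z i hz hi
    rw [hG, mem_filter]
    exact ⟨mem_univ i, fun hs => hz (hs hi)⟩
  have hsub : ∀ z, z ∈ Hᶜ → (G.filter (fun i => z ∈ A i)).card ≥ 2 := by
    intro z hz
    rw [mem_compl] at hz
    obtain ⟨i, hi⟩ := hex z hz
    have hiG := hmem z i hz hi
    obtain ⟨j, hji, hj⟩ := ht z i hi (hline i (mem_filter.1 hiG).2)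
    have hjG := hmem z j hz hj
    rw [ge_iff_le, Nat.succ_le_iff, one_lt_card]
    exact ⟨i, mem_filter.2 ⟨hiG, hi⟩, j, mem_filter.2 ⟨hjG, hj⟩, Ne.symm hji⟩
  have hle3 : ∀ i, i ∈ G → ¬ Hᶜ ⊆ A i := by
    intro i hi hs
    have h1 := rk_mono (N := N) hs
    rw [hline i (mem_filter.1 hi).2] at h1
    omega
  have hsum : ∑ i ∈ G, (Hᶜ.filter (fun z => z ∈ A i)).card =
      ∑ z ∈ Hᶜ, (G.filter (fun i => z ∈ A i)).card := by
    have := sum_card_bipartiteAbove_eq_sum_card_bipartiteBelow (s := G) (t := Hᶜ)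
      (fun i z => z ∈ A i)
    exact this
  have hge : 2 * Hᶜ.card ≤ ∑ z ∈ Hᶜ, (G.filter (fun i => z ∈ A i)).card := by
    rw [mul_comm, ← smul_eq_mul]
    exact card_nsmul_le_sum _ _ _ (fun z hz => hsub z hz)
  have hlt : ∀ i ∈ G, (Hᶜ.filter (fun z => z ∈ A i)).card + 1 ≤ Hᶜ.card := by
    intro i hi
    have h1 : Hᶜ.filter (fun z => z ∈ A i) ⊂ Hᶜ := by
      refine (filter_subset _ _).ssubset_of_ne (fun h => hle3 i hi ?_)
      intro z hz
      rw [← h] at hz
      exact (mem_filter.1 hz).2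
    have := card_lt_card h1
    omega
  rcases Nat.lt_or_ge Hᶜ.card 4 with h4 | h4
  · have hD : Hᶜ.card = 3 := by omega
    have hG2 : G.card = 2 := by omega
    obtain ⟨i, j, hij, hGij⟩ := card_eq_two.1 hG2
    have hi := hlt i (by rw [hGij]; simp)
    have hj := hlt j (by rw [hGij]; simp)
    rw [← hsum, hGij, sum_pair hij] at hge
    omega
  · have hD : Hᶜ.card = 4 := by omega
    have hG3 : G.card = 3 := by omega
    -- two members with three points of `D`
    have two : ∀ i j, i ∈ G → j ∈ G → i ≠ j → (Hᶜ.filter (fun z => z ∈ A i)).card = 3 →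
        (Hᶜ.filter (fun z => z ∈ A j)).card = 3 → False := by
      intro i j hi hj hij h1 h2
      have h3 := card_union_add_card_inter (Hᶜ.filter (fun z => z ∈ A i))
        (Hᶜ.filter (fun z => z ∈ A j))
      have h5 : (Hᶜ.filter (fun z => z ∈ A i) ∪ Hᶜ.filter (fun z => z ∈ A j)).card ≤ Hᶜ.card :=
        card_le_card (union_subset (filter_subset _ _) (filter_subset _ _))
      have h6 : 2 ≤ (A i ∩ A j).card := by
        refine le_trans ?_ (card_le_card (s := Hᶜ.filter (fun z => z ∈ A i) ∩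
          Hᶜ.filter (fun z => z ∈ A j)) ?_)
        · omega
        · intro z hz
          rw [mem_inter, mem_filter, mem_filter] at hz
          exact mem_inter.2 ⟨hz.1.2, hz.2.2⟩
      have h7 := f3_line_eq hN (hfl i) (hfl j) (hline i (mem_filter.1 hi).2)
        (hline j (mem_filter.1 hj).2) h6
      obtain ⟨z, hz, hzi⟩ : ∃ z ∈ Hᶜ, z ∉ A i := by
        have := hle3 i hi
        rw [not_subset] at this
        exact this
      have h8 : G.filter (fun i => z ∈ A i) ⊆ (G.erase i).erase j := by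
        intro l hl
        rw [mem_filter] at hl
        rw [mem_erase, mem_erase]
        refine ⟨?_, ?_, hl.1⟩
        · rintro rfl
          exact hzi (by rw [h7]; exact hl.2)
        · rintro rfl
          exact hzi hl.2
      have h9 := card_le_card h8
      rw [card_erase_of_mem (mem_erase.2 ⟨Ne.symm hij, hj⟩), card_erase_of_mem hi] at h9
      have := hsub z hz
      omega
    obtain ⟨i, j, l, hij, hil, hjl, hGijl⟩ := card_eq_three.1 hG3
    have mi : i ∈ G := by rw [hGijl]; simp
    have mj : j ∈ G := by rw [hGijl]; simp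
    have ml : l ∈ G := by rw [hGijl]; simp
    have hi := hlt i mi
    have hj := hlt j mj
    have hl := hlt l ml
    have hs : ∑ i ∈ G, (Hᶜ.filter (fun z => z ∈ A i)).card =
        (Hᶜ.filter (fun z => z ∈ A i)).card + (Hᶜ.filter (fun z => z ∈ A j)).card +
          (Hᶜ.filter (fun z => z ∈ A l)).card := by
      rw [hGijl, sum_insert (by simp [hij, hil]), sum_insert (by simp [hjl]), sum_singleton,
        add_assoc]
    rw [← hsum, hs] at hge
    have t1 := two i j mi mj hij
    have t2 := two i l mi ml hil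
    have t3 := two j l mj ml hjl
    by_cases c1 : (Hᶜ.filter (fun z => z ∈ A i)).card = 3
    · by_cases c2 : (Hᶜ.filter (fun z => z ∈ A j)).card = 3
      · exact t1 c1 c2
      · exact t2 c1 (by omega)
    · exact t3 (by omega) (by omega)

end Ca3.Ab
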