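import Pool.Agent.Lib.MP_ca3eb1_co.AbStructureKey

/-! # Supports of the legs outside a basis of legs -/

set_option linter.unusedSectionVars false

namespace Ca3.Ab

open Finset

section aux

variable {E : Type*} [DecidableEq E] [Fintype E] {N : RF E} {n : ℕ} {leg : E → Fin n}

/-- different legs are not parallel -/
lemma Legs.sc_not_mem_sp_singleton (hl : Legs N leg) {i j : Fin n} (hij : i ≠ j) :
    i ∉ sp hl.Q {j} := by
  obtain ⟨e, rfl⟩ := hl.surj i
  rw [hl.mem_sp_Q (singleton_nonempty j), ← (hl.flat j).mem_iff, mem_LS, mem_singleton]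
  exact hij

lemma Legs.sc_not_mem_sp_empty (hl : Legs N leg) {i : Fin n} : i ∉ sp hl.Q ∅ := by
  rw [mem_sp_iff, insert_empty_eq, rk_empty]
  have h1 := hl.rk_Q (singleton_nonempty i)
  have h2 := hl.rk_leg i
  omega

lemma sc_image_leg {z : Fin n → E} (hz : ∀ i, leg (z i) = i) (U : Finset (Fin n)) :
    (U.image z).image leg = U := by
  rw [image_image]
  have : leg ∘ z = id := funext hz
  rw [this, image_id]

/-- two elements of a leg outside the closure of `U` are not parallel modulo `U` -/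
lemma Legs.sc_no_par (hl : Legs N leg) {z : Fin n → E} (hz : ∀ i, leg (z i) = i)
    {U : Finset (Fin n)} (hU : Ind hl.Q U) {i : Fin n} (hi : i ∉ sp hl.Q U) {e f : E}
    (he : leg e = i) (hf : leg f = i) (hne : e ≠ f) : e ∉ sp N (insert f (U.image z)) := by
  intro h
  have hI : Ind hl.Q (insert i U) := hU.insert hi
  have him : (insert f (U.image z)).image leg = insert i U := by
    rw [image_insert, hf, sc_image_leg hz]
  have h1 := hl.rk_of_two hne (he.trans hf.symm) h (mem_sp (mem_insert_self _ _))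
  rw [him, hI.rk_eq_card, card_insert_of_notMem (fun h' => hi (mem_sp h'))] at h1
  have h2 : rk N (insert f (U.image z)) ≤ (insert f (U.image z)).card := rk_le_card
  have h3 : (insert f (U.image z)).card ≤ (U.image z).card + 1 := card_insert_le _ _
  have h4 : (U.image z).card ≤ U.card := card_image_le
  omega

/-- the elements of a leg outside the closure of `U` are not loops modulo `U` -/
lemma Legs.sc_not_loop (hl : Legs N leg) {z : Fin n → E} (hz : ∀ i, leg (z i) = i)
    {U : Finset (Fin n)} (hU : Ind hl.Q U) {i : Fin n} (hi : i ∉ sp hl.Q U) {e : E}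
    (he : leg e = i) : e ∉ sp N (U.image z) := by
  intro h
  obtain ⟨f, hne, hf⟩ := hl.two e
  exact hl.sc_no_par hz hU hi he (hf.trans he) hne.symm
    (mem_sp_of_subset (subset_insert _ _) h)

end aux

variable {K E : Type*} [Field K] [Fintype K] [DecidableEq E] [Fintype E] {N : RF E}
  {n : ℕ} {leg : E → Fin n}

open Classical in
/-- the support of `h` over the basis `B` (the fundamental circuit of `h` without `h`) -/
noncomputable def supp (Q : RF (Fin n)) (B : Finset (Fin n)) (h : Fin n) : Finset (Fin n) :=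
  B.filter (fun u => h ∉ sp Q (B.erase u))

lemma sc_mem_supp {Q : RF (Fin n)} {B : Finset (Fin n)} {h u : Fin n} :
    u ∈ supp Q B h ↔ u ∈ B ∧ h ∉ sp Q (B.erase u) := by
  classical
  simp [supp]

lemma sc_insert_erase {B : Finset (Fin n)} {s t : Fin n} (hs : s ∈ B) (hst : s ≠ t) :
    insert s ((B.erase s).erase t) = B.erase t := by
  ext x
  simp only [mem_insert, mem_erase]
  constructor
  · rintro (rfl | ⟨h1, h2, h3⟩)
    · exact ⟨hst, hs⟩
    · exact ⟨h1, h3⟩
  · rintro ⟨h1, h2⟩
    by_cases h : x = s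
    · exact Or.inl h
    · exact Or.inr ⟨h1, h, h2⟩

lemma sc_insert_erase' {B : Finset (Fin n)} {s t : Fin n} (ht : t ∈ B) (hst : s ≠ t) :
    insert t ((B.erase s).erase t) = B.erase s := by
  rw [insert_erase]
  exact mem_erase.2 ⟨hst.symm, ht⟩

/-- the key lemma for two elements `s`, `t` of the support of `h` -/
lemma sc_key (hK : Fintype.card K = 4) (hN : Simple N) (hq : RepC K N)
    (hs : ∀ x, SG N {x} univ) (h5 : 5 ≤ rk N univ) (hl : Legs N leg)
    {B : Finset (Fin n)} (hB : Ind hl.Q B) (hBc : B.card + 1 = rk N univ)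
    {z : Fin n → E} (hz : ∀ i, leg (z i) = i)
    {s t h : Fin n} (hsB : s ∈ B) (htB : t ∈ B) (hst : s ≠ t)
    (h1 : h ∉ sp hl.Q (B.erase s)) (h2 : h ∉ sp hl.Q (B.erase t)) :
    Ind hl.Q ((B.erase s).erase t) ∧
    (∀ d, d ∈ sp hl.Q (B.erase t) ∨ d ∈ sp hl.Q (B.erase s) ∨
      d ∈ sp hl.Q (insert h ((B.erase s).erase t))) ∧
    (∀ d, (d = s ∨ d = t ∨ d = h) → d ∉ sp hl.Q ((B.erase s).erase t) ∧
      ∀ e f g : E, leg e ∈ sp hl.Q (insert d ((B.erase s).erase t)) →
      leg f ∈ sp hl.Q (insert d ((B.erase s).erase t)) →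
      leg g ∈ sp hl.Q (insert d ((B.erase s).erase t)) →
      leg e ∉ sp hl.Q ((B.erase s).erase t) →
      leg f ∉ sp hl.Q ((B.erase s).erase t) → leg g ∉ sp hl.Q ((B.erase s).erase t) →
      e ∈ sp N (insert f (((B.erase s).erase t).image z)) ∨
        e ∈ sp N (insert g (((B.erase s).erase t).image z)) ∨
        f ∈ sp N (insert g (((B.erase s).erase t).image z))) ∧
    z h ∉ sp N (B.image z) := by
  have hUs : (B.erase s).erase t ⊆ B.erase s := erase_subset _ _
  have hUt : (B.erase s).erase t ⊆ B.erase t := by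
    rw [← sc_insert_erase hsB hst]
    exact subset_insert _ _
  have hUi : Ind hl.Q ((B.erase s).erase t) := hB.subset (hUs.trans (erase_subset _ _))
  have hUc : ((B.erase s).erase t).card + 3 = rk N univ := by
    rw [card_erase_of_mem (mem_erase.2 ⟨hst.symm, htB⟩), card_erase_of_mem hsB]
    omega
  have hU : ((B.erase s).erase t).Nonempty := card_pos.1 (by omega)
  have ha : s ∉ sp hl.Q ((B.erase s).erase t) := fun h' =>
    hB.not_mem_sp_erase hsB (mem_sp_of_subset hUs h')
  have hb : t ∉ sp hl.Q ((B.erase s).erase t) := fun h' =>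
    hB.not_mem_sp_erase htB (mem_sp_of_subset hUt h')
  have hc : h ∉ sp hl.Q ((B.erase s).erase t) := fun h' => h1 (mem_sp_of_subset hUs h')
  have hk := structure_key hK hN hq hs hl hz hU hUi hUc ha hb hc
    (by rw [sc_insert_erase hsB hst]; exact hB.not_mem_sp_erase htB)
    (by rw [sc_insert_erase hsB hst]; exact h2)
    (by rw [sc_insert_erase' htB hst]; exact h1)
  rw [sc_insert_erase hsB hst, sc_insert_erase' htB hst] at hk
  obtain ⟨k1, k2, k3⟩ := hk
  refine ⟨hUi, k1, fun d hd => ⟨?_, ?_⟩, ?_⟩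
  · rcases hd with rfl | rfl | rfl
    · exact ha
    · exact hb
    · exact hc
  · exact k2 d hd
  · have : insert (z s) (insert (z t) (((B.erase s).erase t).image z)) = B.image z := by
      rw [← image_insert, ← image_insert, sc_insert_erase' htB hst, insert_erase hsB]
    rwa [this] at k3

theorem structure_core (hK : Fintype.card K = 4) (hN : Simple N) (hq : RepC K N)
    (hs : ∀ x, SG N {x} univ) (h5 : 5 ≤ rk N univ) (hl : Legs N leg)
    {B : Finset (Fin n)} (hB : Ind hl.Q B) (hBc : B.card + 1 = rk N univ) :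
    (∀ h, h ∉ B → 2 ≤ (supp hl.Q B h).card) ∧
    (∀ h, h ∉ B → ∀ h', h' ∉ B → h ≠ h' → Disjoint (supp hl.Q B h) (supp hl.Q B h')) ∧
    (∀ h, h ∉ B → (LS leg {h}).card = 2) ∧
    (∀ h, h ∉ B → ∀ u ∈ supp hl.Q B h, (LS leg {u}).card = 2) ∧
    (∀ h, h ∉ B → ∀ z : Fin n → E, (∀ i, leg (z i) = i) → z h ∉ sp N (B.image z)) := by
  classical
  -- a transversal
  choose z₀ hz₀ using hl.surj
  -- `B` spans
  have hBs : ∀ i, i ∈ sp hl.Q B := by
    have h1 : sp hl.Q B = sp hl.Q univ := by
      refine sp_eq_of_subset_of_rk_le (subset_univ _) ?_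
      have h2 := hl.rk_Q_univ (by omega)
      rw [hB.rk_eq_card]
      omega
    intro i
    rw [h1]
    exact mem_sp (mem_univ _)
  have hsub : ∀ {i : Fin n} {X : Finset (Fin n)}, X ⊆ B →
      (i ∈ sp hl.Q X ↔ supp hl.Q B i ⊆ X) := by
    intro i X hX
    rw [mem_sp_iff_supp hB (hBs i) hX]
    constructor
    · intro h u hu
      rw [sc_mem_supp] at hu
      exact h u hu.1 hu.2
    · intro h u hu hu'
      exact h (sc_mem_supp.2 ⟨hu, hu'⟩)
  -- (1)
  have p1 : ∀ h, h ∉ B → 2 ≤ (supp hl.Q B h).card := by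
    intro h hh
    by_contra hcon
    have h2 : (supp hl.Q B h).card ≤ 1 := by omega
    rcases (supp hl.Q B h).eq_empty_or_nonempty with h3 | ⟨s, hs'⟩
    · exact hl.sc_not_mem_sp_empty ((hsub (i := h) (empty_subset B)).2 h3.subset)
    · have h3 : supp hl.Q B h ⊆ {s} := by
        intro x hx
        rw [mem_singleton]
        exact card_le_one.1 h2 x hx s hs'
      have hsB : s ∈ B := (sc_mem_supp.1 hs').1
      refine hl.sc_not_mem_sp_singleton (i := h) (j := s) ?_
        ((hsub (singleton_subset_iff.2 hsB)).2 h3)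
      rintro rfl
      exact hh hsB
  have p1' : ∀ h, h ∉ B → ∃ s ∈ supp hl.Q B h, ∃ t ∈ supp hl.Q B h, s ≠ t := by
    intro h hh
    obtain ⟨s, hs', t, ht', hst⟩ := one_lt_card.1 (p1 h hh)
    exact ⟨s, hs', t, ht', hst⟩
  -- (5)
  have p5 : ∀ h, h ∉ B → ∀ z : Fin n → E, (∀ i, leg (z i) = i) → z h ∉ sp N (B.image z) := by
    intro h hh z hz
    obtain ⟨s, hs', t, ht', hst⟩ := p1' h hh
    rw [sc_mem_supp] at hs' ht'
    exact (sc_key hK hN hq hs h5 hl hB hBc hz hs'.1 ht'.1 hst hs'.2 ht'.2).2.2.2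
  -- legs of two elements
  have hleg2 : ∀ h, ∀ s ∈ supp hl.Q B h, ∀ t ∈ supp hl.Q B h, s ≠ t → ∀ i,
      (i = s ∨ i = t ∨ i = h) → (LS leg {i}).card = 2 := by
    intro h s hs' t ht' hst i hi
    rw [sc_mem_supp] at hs' ht'
    obtain ⟨hUi, -, k2, -⟩ :=
      sc_key hK hN hq hs h5 hl hB hBc hz₀ hs'.1 ht'.1 hst hs'.2 ht'.2
    obtain ⟨hi1, hi2⟩ := k2 i hi
    apply le_antisymm
    · by_contra hc
      obtain ⟨e, f, g, he, hf, hg, hef, heg, hfg⟩ := two_lt_card_iff.1 (not_le.1 hc)
      rw [mem_LS, mem_singleton] at he hf hg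
      have hii : i ∈ sp hl.Q (insert i ((B.erase s).erase t)) := mem_sp (mem_insert_self _ _)
      rcases hi2 e f g (by rwa [he]) (by rwa [hf]) (by rwa [hg]) (by rwa [he]) (by rwa [hf])
        (by rwa [hg]) with h' | h' | h'
      · exact hl.sc_no_par hz₀ hUi hi1 he hf hef h'
      · exact hl.sc_no_par hz₀ hUi hi1 he hg heg h'
      · exact hl.sc_no_par hz₀ hUi hi1 hf hg hfg h'
    · obtain ⟨e, he⟩ := hl.surj i
      obtain ⟨f, hne, hf⟩ := hl.two e
      exact one_lt_card.2 ⟨e, by rw [mem_LS, mem_singleton, he], f,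
        by rw [mem_LS, mem_singleton, hf, he], hne.symm⟩
  refine ⟨p1, ?_, ?_, ?_, p5⟩
  · intro h hh h' hh' hne
    -- equal supports
    have hB' : ∀ h, h ∉ B → ∀ h', h' ∉ B → ∀ t, t ∈ supp hl.Q B h → t ∈ supp hl.Q B h' →
        supp hl.Q B h ⊆ supp hl.Q B h' := by
      intro h hh h' hh' t ht ht' s hs'
      by_contra hcon
      have hst : s ≠ t := by rintro rfl; exact hcon ht'
      rw [sc_mem_supp] at hs' ht ht' hcon
      have hh's : h' ∈ sp hl.Q (B.erase s) := by
        by_contra h3
        exact hcon ⟨hs'.1, h3⟩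
      obtain ⟨hUi, -, k2, -⟩ :=
        sc_key hK hN hq hs h5 hl hB hBc hz₀ hs'.1 ht.1 hst hs'.2 ht.2
      obtain ⟨hi1, hi2⟩ := k2 t (Or.inr (Or.inl rfl))
      rw [sc_insert_erase' ht.1 hst] at hi2
      have hUt : (B.erase s).erase t ⊆ B.erase t := by
        rw [← sc_insert_erase hs'.1 hst]
        exact subset_insert _ _
      have htt : t ∈ sp hl.Q (B.erase s) := mem_sp (mem_erase.2 ⟨hst.symm, ht.1⟩)
      have hh'U : h' ∉ sp hl.Q ((B.erase s).erase t) := fun h3 =>
        ht'.2 (mem_sp_of_subset hUt h3)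
      obtain ⟨e, he⟩ := hl.surj t
      obtain ⟨f, hef, hf⟩ := hl.two e
      rw [he] at hf
      -- contradiction for every element of the leg `t`
      have key2 : ∀ e, leg e = t → e ∉ sp N (insert (z₀ h') (((B.erase s).erase t).image z₀)) := by
        intro e he hmem
        have h1 := hl.sc_not_loop hz₀ hUi hi1 he
        have h2 := mem_sp_insert_exchange hmem h1
        have hz : ∀ i, leg (Function.update z₀ t e i) = i := by
          intro i
          by_cases hit : i = t
          · subst hit; simp [he]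
          · simp [Function.update_of_ne hit, hz₀]
        have h3 := p5 h' hh' _ hz
        apply h3
        have hk't : h' ≠ t := by rintro rfl; exact hh' ht.1
        rw [Function.update_of_ne hk't]
        refine mem_sp_of_subset ?_ h2
        intro g hg
        rcases mem_insert.1 hg with rfl | hg
        · exact mem_image.2 ⟨t, ht.1, by simp⟩
        · obtain ⟨w, hw, rfl⟩ := mem_image.1 hg
          simp only [mem_erase] at hw
          exact mem_image.2 ⟨w, hw.2.2, by simp [Function.update_of_ne hw.1]⟩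
      rcases hi2 e f (z₀ h') (by rwa [he]) (by rwa [hf]) (by rwa [hz₀]) (by rwa [he])
        (by rwa [hf]) (by rwa [hz₀]) with h3 | h3 | h3
      · exact hl.sc_no_par hz₀ hUi hi1 he hf hef.symm h3
      · exact key2 e he h3
      · exact key2 f hf h3
    rw [disjoint_left]
    intro t ht ht'
    have hSS : supp hl.Q B h = supp hl.Q B h' :=
      subset_antisymm (hB' h hh h' hh' t ht ht') (hB' h' hh' h hh t ht' ht)
    -- the basis `insert h (B.erase t)`
    have ht0 := sc_mem_supp.1 ht
    have ht0' := sc_mem_supp.1 ht'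
    have hI : Ind hl.Q (insert h (B.erase t)) :=
      (hB.subset (erase_subset _ _)).insert ht0.2
    have hht : h ≠ t := by rintro rfl; exact hh ht0.1
    have hIs : h' ∈ sp hl.Q (insert h (B.erase t)) := by
      have h1 : t ∈ sp hl.Q (insert h (B.erase t)) := by
        apply mem_sp_insert_exchange _ ht0.2
        rw [insert_erase ht0.1]
        exact hBs h
      refine mem_sp_trans ?_ (hBs h')
      intro x hx
      by_cases hxt : x = t
      · rwa [hxt]
      · exact mem_sp (mem_insert_of_mem (mem_erase.2 ⟨hxt, hx⟩))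
    apply hl.sc_not_mem_sp_singleton hne.symm
    rw [mem_sp_iff_supp hI hIs (singleton_subset_iff.2 (mem_insert_self _ _))]
    intro u hu hu'
    rw [mem_singleton]
    by_contra huh
    apply hu'
    have huB : u ∈ B.erase t := (mem_insert.1 hu).resolve_left huh
    obtain ⟨hut, huB'⟩ := mem_erase.1 huB
    have he1 : (insert h (B.erase t)).erase u = insert h ((B.erase t).erase u) :=
      erase_insert_of_ne (Ne.symm huh)
    rw [he1]
    by_cases huS : u ∈ supp hl.Q B h
    · have hu1 := sc_mem_supp.1 huS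
      have hu1' := sc_mem_supp.1 (hSS ▸ huS)
      obtain ⟨-, k1, -, -⟩ :=
        sc_key hK hN hq hs h5 hl hB hBc hz₀ ht0.1 huB' (Ne.symm hut) ht0.2 hu1.2
      rcases k1 h' with h3 | h3 | h3
      · exact absurd h3 hu1'.2
      · exact absurd h3 ht0'.2
      · exact h3
    · have hu2 : h ∈ sp hl.Q (B.erase u) := by
        by_contra h3
        exact huS (sc_mem_supp.2 ⟨huB', h3⟩)
      have hu3 : h' ∈ sp hl.Q (B.erase u) := by
        by_contra h3
        exact huS (hSS ▸ sc_mem_supp.2 ⟨huB', h3⟩)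
      have h4 : insert t ((B.erase t).erase u) = B.erase u :=
        sc_insert_erase ht0.1 (Ne.symm hut)
      have h5' : h ∉ sp hl.Q ((B.erase t).erase u) := fun h3 =>
        ht0.2 (mem_sp_of_subset (erase_subset _ _) h3)
      have h6 : t ∈ sp hl.Q (insert h ((B.erase t).erase u)) := by
        apply mem_sp_insert_exchange _ h5'
        rw [h4]
        exact hu2
      refine mem_sp_trans ?_ hu3
      intro x hx
      rw [← h4] at hx
      rcases mem_insert.1 hx with rfl | hx
      · exact h6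
      · exact mem_sp (mem_insert_of_mem hx)
  · intro h hh
    obtain ⟨s, hs', t, ht', hst⟩ := p1' h hh
    exact hleg2 h s hs' t ht' hst h (Or.inr (Or.inr rfl))
  · intro h hh u hu
    obtain ⟨s, hs', t, ht', hst⟩ := p1' h hh
    by_cases hus : u = s
    · exact hleg2 h s hs' t ht' hst u (Or.inl hus)
    · exact hleg2 h u hu s hs' hus u (Or.inl rfl)

end Ca3.Ab
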