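import Pool.Agent.Lib.MP_ca3eb1_co.C3

/-! # Module M11a: planes with a point all of whose lines are nontrivial -/

set_option linter.unusedSectionVars false

namespace Ca3

open Finset Submodule

variable {K V E : Type*} [Field K] [Fintype K] [AddCommGroup V] [Module K V]
  [FiniteDimensional K V] [Fintype E] [DecidableEq E]

private lemma line_unique {v : E → V} (hv : Simple K v) {F G : Finset E} (hF : IsFl K v F)
    (hG : IsFl K v G) (hF2 : rk K v F ≤ 2) (hG2 : rk K v G ≤ 2) {x y : E} (hxy : x ≠ y)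
    (hxF : x ∈ F) (hyF : y ∈ F) (hxG : x ∈ G) (hyG : y ∈ G) : F = G := by
  have h1 : cl K v {x, y} = F := hF.cl_eq (by
    intro z hz
    simp only [mem_insert, mem_singleton] at hz
    rcases hz with rfl | rfl <;> assumption) (by rw [hv.rk_pair hxy]; exact hF2)
  have h2 : cl K v {x, y} = G := hG.cl_eq (by
    intro z hz
    simp only [mem_insert, mem_singleton] at hz
    rcases hz with rfl | rfl <;> assumption) (by rw [hv.rk_pair hxy]; exact hG2)
  rw [← h1, h2]

private lemma exists_member {v : E → V} (hv : Simple K v) {n : ℕ} {A : Fin n → Finset E}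
    (hA : IsMason K v ∅ univ A) {F : Finset E} (hF : IsFl K v F) (hF2 : rk K v F = 2)
    (h3 : 3 ≤ F.card) : ∃ i, cl K v (A i) = F := by
  have h := hA.eq (empty_subset _) (subset_univ _) hF
  have h1 : 0 < cnt A F := by omega
  unfold cnt at h1
  obtain ⟨i, hi⟩ := card_pos.1 h1
  simp only [mem_filter, mem_univ, true_and] at hi
  refine ⟨i, ?_⟩
  have hc := hA.eq (empty_subset _) (subset_univ _) (isFl_cl (X := A i) (K := K) (v := v))
  have h4 : 0 < cnt A (cl K v (A i)) := by
    unfold cnt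
    exact card_pos.2 ⟨i, by simp only [mem_filter, mem_univ, true_and]; exact subset_cl⟩
  have h5 : 2 ≤ rk K v (cl K v (A i)) := by
    by_contra hlt
    have h6 := hv.card_le_one (X := cl K v (A i)) (by omega)
    have hrk : rk K v (cl K v (A i)) = 0 := by omega
    have hcard : (cl K v (A i)).card = 1 := by omega
    obtain ⟨e, he⟩ := card_eq_one.1 hcard
    rw [he, hv.rk_singleton] at hrk
    omega
  exact isFl_cl.eq_of_subset_of_rk_le (hF.cl_subset hi) (by omega)

private lemma gf4_two (hK : Fintype.card K = 4) : (2 : K) = 0 := by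
  have h := FiniteField.cast_card_eq_zero K
  rw [hK] at h
  have h2 : (2 : K) * 2 = 0 := by
    have : (2 : K) * 2 = ((4 : ℕ) : K) := by norm_num
    rw [this, h]
  rcases mul_eq_zero.1 h2 with h3 | h3 <;> exact h3

private lemma gf4_sum (hK : Fintype.card K = 4) {r s t : K} (hr : r ≠ 0) (hs : s ≠ 0)
    (ht : t ≠ 0) (hrs : r ≠ s) (hrt : r ≠ t) (hst : s ≠ t) : r + s + t = 0 := by
  have h1 : ∀ x : K, x ≠ 0 → x ^ 3 = 1 := by
    intro x hx
    have := FiniteField.pow_card_sub_one_eq_one x hx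
    rwa [hK] at this
  have e1 : r ^ 2 + r * s + s ^ 2 = 0 := by
    have : (r - s) * (r ^ 2 + r * s + s ^ 2) = 0 := by
      have : (r - s) * (r ^ 2 + r * s + s ^ 2) = r ^ 3 - s ^ 3 := by ring
      rw [this, h1 r hr, h1 s hs, sub_self]
    rcases mul_eq_zero.1 this with h | h
    · exact absurd (sub_eq_zero.1 h) hrs
    · exact h
  have e2 : r ^ 2 + r * t + t ^ 2 = 0 := by
    have : (r - t) * (r ^ 2 + r * t + t ^ 2) = 0 := by
      have : (r - t) * (r ^ 2 + r * t + t ^ 2) = r ^ 3 - t ^ 3 := by ring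
      rw [this, h1 r hr, h1 t ht, sub_self]
    rcases mul_eq_zero.1 this with h | h
    · exact absurd (sub_eq_zero.1 h) hrt
    · exact h
  have e3 : (s - t) * (r + s + t) = 0 := by
    have : (s - t) * (r + s + t) = (r ^ 2 + r * s + s ^ 2) - (r ^ 2 + r * t + t ^ 2) := by ring
    rw [this, e1, e2, sub_self]
  rcases mul_eq_zero.1 e3 with h | h
  · exact absurd (sub_eq_zero.1 h) hst
  · exact h

theorem PL (hK : Fintype.card K = 4) {v : E → V} (hv : Simple K v) (hs : SG K v ∅ univ)
    (h3 : rk K v univ = 3) (p : E)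
    (hp : ∀ e, e ≠ p → ∃ f, f ≠ p ∧ f ≠ e ∧ v f ∈ sp K v {p, e})
    {a b c : E} (ha : a ≠ p) (hb : b ≠ p) (hc : c ≠ p) (hab : v b ∉ sp K v {p, a})
    (hac : v c ∉ sp K v {p, a}) (hbc : v c ∉ sp K v {p, b}) :
    (∀ e, v e ∈ sp K v {p, a} ∨ v e ∈ sp K v {p, b} ∨ v e ∈ sp K v {p, c}) ∧
      (cl K v {p, a}).card = 3 ∧ (cl K v {p, b}).card = 3 ∧ (cl K v {p, c}).card = 3 ∧
      v c ∉ sp K v {a, b} := by
  classical
  obtain ⟨n, A, hA⟩ := hs
  have hpm : ∀ e, p ∈ cl K v {p, e} := fun e => subset_cl (by simp)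
  have hem : ∀ e, e ∈ cl K v {p, e} := fun e => subset_cl (by simp)
  have hrk2 : ∀ e, e ≠ p → rk K v (cl K v {p, e}) = 2 := fun e he => by
    rw [rk_cl, hv.rk_pair (Ne.symm he)]
  have hc3 : ∀ e, e ≠ p → 3 ≤ (cl K v {p, e}).card := by
    intro e he
    obtain ⟨f, hf1, hf2, hf3⟩ := hp e he
    have h1 : ({p, e, f} : Finset E) ⊆ cl K v {p, e} := by
      intro z hz
      simp only [mem_insert, mem_singleton] at hz
      rcases hz with rfl | rfl | rfl
      · exact hpm _
      · exact hem _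
      · exact mem_cl.2 hf3
    have h2 : ({p, e, f} : Finset E).card = 3 :=
      card_eq_three.2 ⟨p, e, f, he.symm, hf1.symm, hf2.symm, rfl⟩
    calc 3 = _ := h2.symm
      _ ≤ _ := card_le_card h1
  have hsymm : ∀ e f, e ≠ p → f ≠ p → v f ∉ sp K v {p, e} → v e ∉ sp K v {p, f} := by
    intro e f he hf h h'
    apply h
    have h1 : cl K v {p, e} = cl K v {p, f} :=
      line_unique hv isFl_cl isFl_cl (hrk2 e he).le (hrk2 f hf).le he.symm (hpm e) (hem e)
        (hpm f) (mem_cl.2 h')
    rw [← mem_cl, h1]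
    exact hem f
  have hint : ∀ e f, e ≠ p → f ≠ p → v f ∉ sp K v {p, e} → ∀ x, x ∈ cl K v {p, e} →
      x ∈ cl K v {p, f} → x = p := by
    intro e f he hf h x hx1 hx2
    by_contra hx
    apply h
    have h1 : cl K v {p, e} = cl K v {p, f} :=
      line_unique hv isFl_cl isFl_cl (hrk2 e he).le (hrk2 f hf).le (Ne.symm hx) (hpm e) hx1
        (hpm f) hx2
    rw [← mem_cl, h1]
    exact hem f
  have hout : ∀ e, e ≠ p → (univ \ cl K v {p, e}).card ≤ 4 := fun e he =>
    C3 hK hv hA h3 isFl_cl (hrk2 e he) (exists_member hv hA isFl_cl (hrk2 e he) (hc3 e he))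
  have key : ∀ e f g, e ≠ p → f ≠ p → g ≠ p → v f ∉ sp K v {p, e} → v g ∉ sp K v {p, e} →
      v g ∉ sp K v {p, f} → (cl K v {p, f}).card = 3 ∧ (cl K v {p, g}).card = 3 ∧
      ∀ x, x ∈ cl K v {p, e} ∨ x ∈ cl K v {p, f} ∨ x ∈ cl K v {p, g} := by
    intro e f g he hf hg hef heg hfg
    have hS : (cl K v {p, f}).erase p ∪ (cl K v {p, g}).erase p ⊆ univ \ cl K v {p, e} := by
      intro x hx
      rw [mem_sdiff]
      refine ⟨mem_univ _, fun hx' => ?_⟩
      rcases mem_union.1 hx with hx | hx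
      · exact (mem_erase.1 hx).1 (hint e f he hf hef x hx' (mem_erase.1 hx).2)
      · exact (mem_erase.1 hx).1 (hint e g he hg heg x hx' (mem_erase.1 hx).2)
    have hd : Disjoint ((cl K v {p, f}).erase p) ((cl K v {p, g}).erase p) := by
      rw [disjoint_left]
      intro x hx hx'
      exact (mem_erase.1 hx).1 (hint f g hf hg hfg x (mem_erase.1 hx).2 (mem_erase.1 hx').2)
    have hcS := card_union_of_disjoint hd
    rw [card_erase_of_mem (hpm f), card_erase_of_mem (hpm g)] at hcS
    have h1 := card_le_card hS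
    have h2 := hout e he
    have h5 := hc3 f hf
    have h6 := hc3 g hg
    have h7 := eq_of_subset_of_card_le hS (by omega)
    refine ⟨by omega, by omega, fun x => ?_⟩
    by_cases hx : x ∈ cl K v {p, e}
    · exact Or.inl hx
    · right
      have hx' : x ∈ univ \ cl K v {p, e} := mem_sdiff.2 ⟨mem_univ _, hx⟩
      rw [← h7] at hx'
      rcases mem_union.1 hx' with h8 | h8
      · exact Or.inl (mem_erase.1 h8).2
      · exact Or.inr (mem_erase.1 h8).2
  have hba := hsymm a b ha hb hab
  have hca := hsymm a c ha hc hac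
  have hcb := hsymm b c hb hc hbc
  obtain ⟨k1, k2, k3⟩ := key a b c ha hb hc hab hac hbc
  obtain ⟨k4, -, -⟩ := key b a c hb ha hc hba hbc hac
  refine ⟨fun e => ?_, k4, k1, k2, ?_⟩
  · rcases k3 e with h | h | h
    · exact Or.inl (mem_cl.1 h)
    · exact Or.inr (Or.inl (mem_cl.1 h))
    · exact Or.inr (Or.inr (mem_cl.1 h))
  intro hcol
  -- at most four members
  have hn : n ≤ 4 := by
    have h1 := hA.le (empty_subset _) (subset_univ (univ : Finset E))
    have h2 : cnt A (univ : Finset E) = n := by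
      unfold cnt
      rw [filter_true_of_mem (fun i _ => subset_univ _)]
      simp
    have h5 := card_sdiff_add_card_eq_card (subset_univ (cl K v {p, a}))
    have h6 := hout a ha
    omega
  have hneab : a ≠ b := by
    rintro rfl
    exact hab (mem_sp (by simp))
  have hMrk : rk K v (cl K v {a, b}) = 2 := by rw [rk_cl, hv.rk_pair hneab]
  have haM : a ∈ cl K v {a, b} := subset_cl (by simp)
  have hbM : b ∈ cl K v {a, b} := subset_cl (by simp)
  have hcM : c ∈ cl K v {a, b} := mem_cl.2 hcol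
  have hMa : cl K v {a, b} ≠ cl K v {p, a} := by
    intro h; rw [h] at hbM; exact hab (mem_cl.1 hbM)
  have hMb : cl K v {a, b} ≠ cl K v {p, b} := by
    intro h; rw [h] at haM; exact hba (mem_cl.1 haM)
  have hMc : cl K v {a, b} ≠ cl K v {p, c} := by
    intro h; rw [h] at haM; exact hca (mem_cl.1 haM)
  have hLab : cl K v {p, a} ≠ cl K v {p, b} := by
    intro h; exact hab (mem_cl.1 (h ▸ hem b))
  have hLac : cl K v {p, a} ≠ cl K v {p, c} := by
    intro h; exact hac (mem_cl.1 (h ▸ hem c))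
  have hLbc : cl K v {p, b} ≠ cl K v {p, c} := by
    intro h; exact hbc (mem_cl.1 (h ▸ hem c))
  have claim : ∀ x y z, x ∈ cl K v {p, a} → x ≠ p → y ∈ cl K v {p, b} → y ≠ p →
      z ∈ cl K v {p, c} → z ≠ p → v z ∈ sp K v {x, y} → x = a ∧ y = b ∧ z = c := by
    intro x y z hx hxp hy hyp hz hzp hcoll
    by_contra hne
    have hxb : x ∉ cl K v {p, b} := fun h => hxp (hint a b ha hb hab x hx h)
    have hxc : x ∉ cl K v {p, c} := fun h => hxp (hint a c ha hc hac x hx h)
    have hya : y ∉ cl K v {p, a} := fun h => hyp (hint a b ha hb hab y h hy)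
    have hyc : y ∉ cl K v {p, c} := fun h => hyp (hint b c hb hc hbc y hy h)
    have hxy : x ≠ y := by rintro rfl; exact hxb hy
    have hxz : x ≠ z := by rintro rfl; exact hxc hz
    have hyz : y ≠ z := by rintro rfl; exact hyc hz
    have hxM : x ∈ cl K v {x, y} := subset_cl (by simp)
    have hyM : y ∈ cl K v {x, y} := subset_cl (by simp)
    have hzM : z ∈ cl K v {x, y} := mem_cl.2 hcoll
    have hM'rk : rk K v (cl K v {x, y}) = 2 := by rw [rk_cl, hv.rk_pair hxy]
    have hM'3 : 3 ≤ (cl K v {x, y}).card := by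
      have h1 : ({x, y, z} : Finset E) ⊆ cl K v {x, y} := by
        intro w hw
        simp only [mem_insert, mem_singleton] at hw
        rcases hw with rfl | rfl | rfl <;> assumption
      have h2 : ({x, y, z} : Finset E).card = 3 :=
        card_eq_three.2 ⟨x, y, z, hxy, hxz, hyz, rfl⟩
      calc 3 = _ := h2.symm
        _ ≤ _ := card_le_card h1
    have hM3 : 3 ≤ (cl K v {a, b}).card := by
      have h1 : ({a, b, c} : Finset E) ⊆ cl K v {a, b} := by
        intro w hw
        simp only [mem_insert, mem_singleton] at hw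
        rcases hw with rfl | rfl | rfl <;> assumption
      have h2 : ({a, b, c} : Finset E).card = 3 :=
        card_eq_three.2 ⟨a, b, c, hneab, (by rintro rfl; exact hac (mem_sp (by simp))),
          (by rintro rfl; exact hbc (mem_sp (by simp))), rfl⟩
      calc 3 = _ := h2.symm
        _ ≤ _ := card_le_card h1
    have d1 : cl K v {x, y} ≠ cl K v {p, a} := by intro h; rw [h] at hyM; exact hya hyM
    have d2 : cl K v {x, y} ≠ cl K v {p, b} := by intro h; rw [h] at hxM; exact hxb hxM
    have d3 : cl K v {x, y} ≠ cl K v {p, c} := by intro h; rw [h] at hxM; exact hxc hxM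
    have d4 : cl K v {x, y} ≠ cl K v {a, b} := by
      intro h
      rw [h] at hxM hyM hzM
      apply hne
      refine ⟨?_, ?_, ?_⟩
      · by_contra hh
        exact hMa (line_unique hv isFl_cl isFl_cl hMrk.le (hrk2 a ha).le hh hxM haM hx (hem a))
      · by_contra hh
        exact hMb (line_unique hv isFl_cl isFl_cl hMrk.le (hrk2 b hb).le hh hyM hbM hy (hem b))
      · by_contra hh
        exact hMc (line_unique hv isFl_cl isFl_cl hMrk.le (hrk2 c hc).le hh hzM hcM hz (hem c))
    have h5 : ({cl K v {p, a}, cl K v {p, b}, cl K v {p, c}, cl K v {a, b},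
        cl K v {x, y}} : Finset (Finset E)).card = 5 := by
      rw [card_insert_of_notMem, card_insert_of_notMem, card_insert_of_notMem,
        card_insert_of_notMem, card_singleton]
      · rw [mem_singleton]; exact d4.symm
      · simp only [mem_insert, mem_singleton, not_or]; exact ⟨hMc.symm, d3.symm⟩
      · simp only [mem_insert, mem_singleton, not_or]; exact ⟨hLbc, hMb.symm, d2.symm⟩
      · simp only [mem_insert, mem_singleton, not_or]; exact ⟨hLab, hLac, hMa.symm, d1.symm⟩
    have h6 : ({cl K v {p, a}, cl K v {p, b}, cl K v {p, c}, cl K v {a, b},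
        cl K v {x, y}} : Finset (Finset E)) ⊆
        (univ : Finset (Fin n)).image (fun i => cl K v (A i)) := by
      intro F hF
      simp only [mem_insert, mem_singleton] at hF
      rw [mem_image]
      rcases hF with rfl | rfl | rfl | rfl | rfl
      · obtain ⟨i, hi⟩ := exists_member hv hA isFl_cl (hrk2 a ha) (hc3 a ha)
        exact ⟨i, mem_univ _, hi⟩
      · obtain ⟨i, hi⟩ := exists_member hv hA isFl_cl (hrk2 b hb) (hc3 b hb)
        exact ⟨i, mem_univ _, hi⟩
      · obtain ⟨i, hi⟩ := exists_member hv hA isFl_cl (hrk2 c hc) (hc3 c hc)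
        exact ⟨i, mem_univ _, hi⟩
      · obtain ⟨i, hi⟩ := exists_member hv hA isFl_cl hMrk hM3
        exact ⟨i, mem_univ _, hi⟩
      · obtain ⟨i, hi⟩ := exists_member hv hA isFl_cl hM'rk hM'3
        exact ⟨i, mem_univ _, hi⟩
    have h7 := card_le_card h6
    have h8 := card_image_le (s := (univ : Finset (Fin n))) (f := fun i => cl K v (A i))
    rw [card_univ, Fintype.card_fin] at h8
    omega
  -- coordinates
  have h2 := gf4_two hK
  have other : ∀ e, e ≠ p → ∀ x : K, x ≠ 0 → ∃ e', e' ∈ cl K v {p, e} ∧ e' ≠ p ∧ e' ≠ e ∧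
      ∃ l t : K, l ≠ 0 ∧ t ≠ 0 ∧ l • v e' = x • v e + t • v p := by
    intro e he x hx
    obtain ⟨e', h1, h2, h3⟩ := hp e he
    refine ⟨e', mem_cl.2 h3, h1, h2, ?_⟩
    rw [sp_pair, mem_span_pair] at h3
    obtain ⟨s, t, hst⟩ := h3
    have ht : t ≠ 0 := by
      rintro rfl
      apply h1
      apply hv.2
      rw [mem_span_singleton]
      exact ⟨s, by rw [← hst]; simp⟩
    have hs' : s ≠ 0 := by
      rintro rfl
      apply h2
      apply hv.2
      rw [mem_span_singleton]
      exact ⟨t, by rw [← hst]; simp⟩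
    refine ⟨x * t⁻¹, x * t⁻¹ * s, mul_ne_zero hx (inv_ne_zero ht),
      mul_ne_zero (mul_ne_zero hx (inv_ne_zero ht)) hs', ?_⟩
    rw [← hst, smul_add, smul_smul, smul_smul, mul_assoc x t⁻¹ t, inv_mul_cancel₀ ht, mul_one,
      add_comm]
  rw [sp_pair, mem_span_pair] at hcol
  obtain ⟨x, y, hxy⟩ := hcol
  have hx : x ≠ 0 := by
    rintro rfl
    apply hbc
    rw [← hxy, zero_smul, zero_add]
    exact smul_mem _ _ (mem_sp (by simp))
  have hy : y ≠ 0 := by
    rintro rfl
    apply hac
    rw [← hxy, zero_smul, add_zero]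
    exact smul_mem _ _ (mem_sp (by simp))
  obtain ⟨a', ha1, ha2, ha3, l1, t1, hl1, ht1, e1⟩ := other a ha x hx
  obtain ⟨b', hb1, hb2, hb3, l2, t2, hl2, ht2, e2⟩ := other b hb y hy
  obtain ⟨c', hc1, hc2, hc4, l3, t3, hl3, ht3, e3⟩ := other c hc 1 one_ne_zero
  rw [one_smul] at e3
  have hmem : ∀ (z u w : E) (l s t : K), l ≠ 0 → l • v z = s • v u + t • v w →
      v z ∈ sp K v {u, w} := by
    intro z u w l s t hl h
    have h1 : v z = l⁻¹ • (s • v u + t • v w) := by
      rw [← h, smul_smul, inv_mul_cancel₀ hl, one_smul]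
    rw [h1]
    exact smul_mem _ _ (add_mem (smul_mem _ _ (mem_sp (by simp)))
      (smul_mem _ _ (mem_sp (by simp))))
  have hdbl : ∀ t : K, t + t = 0 := by
    intro t
    have : t + t = 2 * t := by ring
    rw [this, h2, zero_mul]
  by_cases h12 : t1 = t2
  · have : v c ∈ sp K v {a', b'} := by
      apply hmem c a' b' 1 l1 l2 one_ne_zero
      rw [e1, e2, ← hxy, h12, one_smul]
      have h4 : x • v a + t2 • v p + (y • v b + t2 • v p) =
          x • v a + y • v b + (t2 + t2) • v p := by
        rw [add_smul]; abel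
      rw [h4, hdbl, zero_smul, add_zero]
    exact ha3 (claim a' b' c ha1 ha2 hb1 hb2 (hem c) hc this).1
  by_cases h13 : t1 = t3
  · have : v c' ∈ sp K v {a', b} := by
      apply hmem c' a' b l3 l1 y hl3
      rw [e1, e3, ← hxy, h13]
      abel
    exact ha3 (claim a' b c' ha1 ha2 (hem b) hb hc1 hc2 this).1
  by_cases h23 : t2 = t3
  · have : v c' ∈ sp K v {a, b'} := by
      apply hmem c' a b' l3 x l2 hl3
      rw [e2, e3, ← hxy, h23]
      abel
    exact hb3 (claim a b' c' (hem a) ha hb1 hb2 hc1 hc2 this).2.1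
  have hsum := gf4_sum hK ht1 ht2 ht3 h12 h13 h23
  have ht : t1 + t2 = t3 := by
    have h4 : t1 + t2 = -t3 := eq_neg_of_add_eq_zero_left hsum
    rw [h4]
    exact (eq_neg_of_add_eq_zero_left (hdbl t3)).symm
  have : v c' ∈ sp K v {a', b'} := by
    apply hmem c' a' b' l3 l1 l2 hl3
    rw [e1, e2, e3, ← hxy, ← ht, add_smul]
    abel
  exact ha3 (claim a' b' c' ha1 ha2 hb1 hb2 hc1 hc2 this).1

end Ca3
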