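import Pool.Agent.Lib.MP_ca3eb1_co.AbLegLib
import Pool.Agent.Lib.MP_ca3eb1_co.AbInterface
import Pool.Agent.Lib.MP_ca3eb1_co.PL

/-! # The key reduction to rank 3 (abstract legs) -/

set_option linter.unusedSectionVars false

namespace Ca3.Ab

open Finset

section reps

variable {K V E : Type*} [Field K] [AddCommGroup V] [Module K V]
  [FiniteDimensional K V] [Fintype E] [DecidableEq E] {N : RF E} {x : E} {w : E → V}
  {Y T R : Finset E}

/-- every element outside `<Y>` has a representative -/
lemma key_exists_rep (h : RepAt K N x w) (hx : x ∈ Y) (hR : IsReps K w Y T R) {g : E}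
    (hg : g ∈ T) (hg' : g ∉ sp N Y) :
    ∃ r : R, sp N (insert (r : E) Y) = sp N (insert g Y) := by
  obtain ⟨r, hr, h1⟩ := hR.ex g hg (fun h2 => hg' ((h.mem_sp_iff hx).1 h2))
  have h2 : r ∈ sp N (insert g Y) := (h.mem_sp_iff (mem_insert_of_mem hx)).1 h1
  have h3 : r ∉ sp N Y := fun h4 => hR.not_mem r hr ((h.mem_sp_iff hx).2 h4)
  refine ⟨⟨r, hr⟩, le_antisymm (sp_le_iff.2 fun e he => ?_) (sp_le_iff.2 fun e he => ?_)⟩
  · rcases mem_insert.1 he with rfl | he
    · exact h2
    · exact mem_sp (mem_insert_of_mem he)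
  · rcases mem_insert.1 he with rfl | he
    · exact mem_sp_insert_exchange h2 h3
    · exact mem_sp (mem_insert_of_mem he)

/-- elements of the same class are in the same closed sets above `Y` -/
lemma key_mem_iff {X : Finset E} (hU : Y ⊆ X) {r g : E}
    (h : sp N (insert r Y) = sp N (insert g Y)) : r ∈ sp N X ↔ g ∈ sp N X := by
  have h1 : ∀ r : E, sp N (insert r Y) ≤ sp N X ↔ r ∈ sp N X := by
    intro r
    rw [sp_le_iff]
    refine ⟨fun h => h r (mem_insert_self _ _), fun h e he => ?_⟩
    rcases mem_insert.1 he with rfl | he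
    · exact h
    · exact mem_sp (hU he)
  rw [← h1, ← h1, h]

end reps

variable {K E : Type*} [Field K] [Fintype K] [DecidableEq E] [Fintype E] {N : RF E}
  {n : ℕ} {leg : E → Fin n}

/-- `e₀` a second element of a leg of the transversal `Y` of `U`: the closure of `e₀` and `Y`
consists of the legs in the closure of `U` -/
lemma key_mem_W (hl : Legs N leg) {z : Fin n → E} (hz : ∀ i, leg (z i) = i)
    {U : Finset (Fin n)} {e₀ : E} {i₀ : Fin n} (hi₀ : i₀ ∈ U) (he₀ : leg e₀ = i₀)
    (hne : e₀ ≠ z i₀) {X : Finset E} (g : E) :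
    g ∈ sp N (X ∪ insert e₀ (U.image z)) ↔ leg g ∈ sp hl.Q (X.image leg ∪ U) := by
  have him : (X ∪ insert e₀ (U.image z)).image leg = X.image leg ∪ U := by
    rw [image_union, image_insert, image_image]
    have : (leg ∘ z) = id := by
      funext i
      exact hz i
    rw [this, image_id, he₀, insert_eq_self.2 hi₀]
  have h1 : e₀ ∈ sp N (X ∪ insert e₀ (U.image z)) :=
    mem_sp (mem_union_right _ (mem_insert_self _ _))
  have h2 : z i₀ ∈ sp N (X ∪ insert e₀ (U.image z)) :=
    mem_sp (mem_union_right _ (mem_insert_of_mem (mem_image_of_mem _ hi₀)))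
  have hne' : (X.image leg ∪ U).Nonempty := ⟨i₀, mem_union_right _ hi₀⟩
  constructor
  · intro h
    rw [hl.mem_sp_Q hne']
    refine mem_sp_of_subset ?_ h
    intro e he
    rw [mem_LS, ← him]
    exact mem_image_of_mem _ he
  · intro h
    rw [← him] at h
    exact hl.mem_sp_of_two hne (by rw [he₀, hz]) h1 h2 h

theorem structure_key (hK : Fintype.card K = 4) (hN : Simple N) (hq : RepC K N)
    (hs : ∀ x, SG N {x} univ) (hl : Legs N leg) {z : Fin n → E} (hz : ∀ i, leg (z i) = i)
    {U : Finset (Fin n)} (hU : U.Nonempty) (hUi : Ind hl.Q U) (hUc : U.card + 3 = rk N univ)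
    {a b c : Fin n} (ha : a ∉ sp hl.Q U) (hb : b ∉ sp hl.Q U) (hc : c ∉ sp hl.Q U)
    (hab : b ∉ sp hl.Q (insert a U)) (hac : c ∉ sp hl.Q (insert a U))
    (hbc : c ∉ sp hl.Q (insert b U)) :
    (∀ d, d ∈ sp hl.Q (insert a U) ∨ d ∈ sp hl.Q (insert b U) ∨ d ∈ sp hl.Q (insert c U)) ∧
    (∀ d, (d = a ∨ d = b ∨ d = c) → ∀ e f g : E, leg e ∈ sp hl.Q (insert d U) →
      leg f ∈ sp hl.Q (insert d U) → leg g ∈ sp hl.Q (insert d U) → leg e ∉ sp hl.Q U →
      leg f ∉ sp hl.Q U → leg g ∉ sp hl.Q U →
      e ∈ sp N (insert f (U.image z)) ∨ e ∈ sp N (insert g (U.image z)) ∨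
        f ∈ sp N (insert g (U.image z))) ∧
    z c ∉ sp N (insert (z a) (insert (z b) (U.image z))) := by
  classical
  obtain ⟨i₀, hi₀⟩ := hU
  set Y : Finset E := U.image z with hY
  have hx₀ : z i₀ ∈ Y := mem_image_of_mem _ hi₀
  have hYi : Ind N Y := hl.ind_image hz hUi
  have hzinj : Function.Injective z := by
    intro i j hij
    rw [← hz i, hij, hz j]
  have hYc : Y.card = U.card := card_image_of_injective _ hzinj
  have hYim : Y.image leg = U := by
    rw [hY, image_image]
    have : (leg ∘ z) = id := by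
      funext i
      exact hz i
    rw [this, image_id]
  obtain ⟨m, w, hw⟩ := hq (z i₀)
  obtain ⟨e₀, hne, he₀'⟩ := hl.two (z i₀)
  have he₀ : leg e₀ = i₀ := by rw [he₀', hz]
  have hYr : rk N Y = U.card := by rw [hYi.rk_eq_card, hYc]
  -- `e₀` is a representative of the missing point
  have he₀Y : e₀ ∉ sp N Y := by
    intro h
    have h1 := hl.rk_of_two hne he₀' h (mem_sp hx₀)
    rw [hYim, hUi.rk_eq_card] at h1
    omega
  have hW : ∀ g, g ∈ sp N (insert e₀ Y) ↔ leg g ∈ sp hl.Q U := by
    intro g
    have h1 := key_mem_W hl hz hi₀ he₀ hne (X := ∅) g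
    rw [empty_union, image_empty, empty_union] at h1
    exact h1
  have hW1 : ∀ (x g : E), g ∈ sp N ({x} ∪ insert e₀ Y) ↔ leg g ∈ sp hl.Q (insert (leg x) U) := by
    intro x g
    have h1 := key_mem_W hl hz hi₀ he₀ hne (X := {x}) g
    rw [image_singleton, ← insert_eq] at h1
    exact h1
  obtain ⟨R, hR₀, hR⟩ := hw.exists_reps (Y := Y) (T := univ) hx₀ (R₀ := {e₀})
    (subset_univ _) (by simpa using he₀Y) (by
      intro r hr s hs _
      rw [mem_singleton] at hr hs
      rw [hr, hs])
  have he₀R : e₀ ∈ R := hR₀ (mem_singleton_self _)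
  have hSG : Ca3.SG K (qc K w Y R) ∅ univ :=
    hw.transfer_SG hN hx₀ isFl_univ (subset_univ _) hR
      ((hs (z i₀)).mono (singleton_subset_iff.2 hx₀) (subset_refl _))
  have hSi : Ca3.Simple K (qc K w Y R) := qc_simple hR
  have hrk : Ca3.rk K (qc K w Y R) univ = 3 := by
    have h1 := hw.rk_qc_univ hx₀ hR (subset_univ _)
    omega
  set P : R := ⟨e₀, he₀R⟩ with hP
  have hmem1 : ∀ r s : R, qc K w Y R r ∈ Ca3.sp K (qc K w Y R) {P, s} ↔
      leg r ∈ sp hl.Q (insert (leg s) U) := by
    intro r s
    rw [← hW1, Ca3.mem_sp_qc]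
    have h1 : (({P, s} : Finset R).map (Function.Embedding.subtype _)) ∪ Y =
        {(s : E)} ∪ insert e₀ Y := by
      ext e
      simp only [hP, map_insert, map_singleton, mem_union, mem_insert, mem_singleton,
        Function.Embedding.coe_subtype]
      tauto
    rw [h1, hw.mem_sp_iff (mem_union_right _ (mem_insert_of_mem hx₀))]
  have hmem2 : ∀ r s t : R, qc K w Y R r ∈ Ca3.sp K (qc K w Y R) {s, t} ↔
      (r : E) ∈ sp N (insert (s : E) (insert (t : E) Y)) := by
    intro r s t
    rw [Ca3.mem_sp_qc]
    have h1 : (({s, t} : Finset R).map (Function.Embedding.subtype _)) ∪ Y =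
        insert (s : E) (insert (t : E) Y) := by
      ext e
      simp only [map_insert, map_singleton, mem_union, mem_insert, mem_singleton,
        Function.Embedding.coe_subtype]
      tauto
    rw [h1, hw.mem_sp_iff (mem_insert_of_mem (mem_insert_of_mem hx₀))]
  have hYW : ∀ g, g ∈ sp N Y → leg g ∈ sp hl.Q U := fun g hg =>
    (hW g).1 (sp_mono (subset_insert _ _) hg)
  -- classes and legs
  have hrepl : ∀ {g r : E} {D : Finset (Fin n)}, sp N (insert r Y) = sp N (insert g Y) →
      (leg r ∈ sp hl.Q (D ∪ U) ↔ leg g ∈ sp hl.Q (D ∪ U)) := by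
    intro g r D h
    have h1 : ∀ g, g ∈ sp N (D.image z ∪ insert e₀ Y) ↔ leg g ∈ sp hl.Q (D ∪ U) := by
      intro g
      have h2 := key_mem_W hl hz hi₀ he₀ hne (X := D.image z) g
      have h3 : (D.image z).image leg = D := by
        rw [image_image]
        have : (leg ∘ z) = id := by
          funext i
          exact hz i
        rw [this, image_id]
      rw [h3] at h2
      exact h2
    rw [← h1, ← h1]
    exact key_mem_iff (subset_union_right.trans' (subset_insert _ _)) h
  have hrep0 : ∀ {g r : E}, sp N (insert r Y) = sp N (insert g Y) →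
      (leg r ∈ sp hl.Q U ↔ leg g ∈ sp hl.Q U) := by
    intro g r h
    have := hrepl (D := ∅) h
    rwa [empty_union] at this
  have hrep1 : ∀ {g r : E} {d : Fin n}, sp N (insert r Y) = sp N (insert g Y) →
      (leg r ∈ sp hl.Q (insert d U) ↔ leg g ∈ sp hl.Q (insert d U)) := by
    intro g r d h
    have := hrepl (D := {d}) h
    rwa [← insert_eq] at this
  -- the closure with `leg r` and with `leg g` agree
  have hsame : ∀ {g r : E}, sp N (insert r Y) = sp N (insert g Y) →
      sp hl.Q (insert (leg r) U) = sp hl.Q (insert (leg g) U) := by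
    intro g r h
    have h1 : leg r ∈ sp hl.Q (insert (leg g) U) := by
      rw [hrep1 h]
      exact mem_sp (mem_insert_self _ _)
    have h2 : leg g ∈ sp hl.Q (insert (leg r) U) := by
      rw [← hrep1 h]
      exact mem_sp (mem_insert_self _ _)
    apply le_antisymm
    · rw [sp_le_iff]
      intro e he
      rcases mem_insert.1 he with rfl | he
      · exact h1
      · exact mem_sp (mem_insert_of_mem he)
    · rw [sp_le_iff]
      intro e he
      rcases mem_insert.1 he with rfl | he
      · exact h2
      · exact mem_sp (mem_insert_of_mem he)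
  -- the hypothesis of `PL`
  have hlegs : ∀ e, e ≠ P → ∃ f, f ≠ P ∧ f ≠ e ∧
      qc K w Y R f ∈ Ca3.sp K (qc K w Y R) {P, e} := by
    intro e heP
    have heW : leg e ∉ sp hl.Q U := by
      rw [← hW]
      intro h
      exact heP (Subtype.ext (hR.uniq e e.2 e₀ he₀R
        ((hw.mem_sp_iff (mem_insert_of_mem hx₀)).2 h)))
    obtain ⟨e', hne', hleg'⟩ := hl.two (e : E)
    have he'W : leg e' ∉ sp hl.Q U := by rwa [hleg']
    have he'Y : e' ∉ sp N Y := fun h => he'W (hYW _ h)
    obtain ⟨f, hf⟩ := key_exists_rep hw hx₀ hR (mem_univ e') he'Y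
    refine ⟨f, ?_, ?_, ?_⟩
    · rintro rfl
      apply he'W
      rw [← hrep0 hf]
      rw [← hW]
      exact mem_sp (mem_insert_self _ _)
    · rintro rfl
      -- both elements of the leg are in the closure of `e'` and `Y`
      have h1 : (f : E) ∈ sp N (insert e' Y) := hf ▸ mem_sp (mem_insert_self _ _)
      have h2 := hl.rk_of_two hne' hleg' (mem_sp (mem_insert_self e' Y)) h1
      have h3 : rk N (insert e' Y) = U.card + 1 := by
        rw [rk_insert_of_not_mem_sp he'Y, hYr]
      have h4 : rk hl.Q (insert (leg e') U) = U.card + 1 := by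
        rw [rk_insert_of_not_mem_sp he'W, hUi.rk_eq_card]
      rw [image_insert, hYim] at h2
      omega
    · rw [hmem1, hrep1 hf, hleg']
      exact mem_sp (mem_insert_self _ _)
  -- representatives of `a`, `b`, `c`
  have hd : ∀ d : Fin n, d ∉ sp hl.Q U → ∃ d' : R, sp N (insert (d' : E) Y) =
      sp N (insert (z d) Y) := by
    intro d hd
    apply key_exists_rep hw hx₀ hR (mem_univ _)
    intro h
    have := hYW _ h
    rw [hz] at this
    exact hd this
  obtain ⟨a', ha'⟩ := hd a ha
  obtain ⟨b', hb'⟩ := hd b hb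
  obtain ⟨c', hc'⟩ := hd c hc
  have hne1 : ∀ {x : E} {x' : R}, sp N (insert (x' : E) Y) = sp N (insert x Y) →
      leg x ∉ sp hl.Q U → x' ≠ P := by
    intro x x' h hx hx'
    apply hx
    rw [← hrep0 h, hx']
    exact mem_sp (he₀ ▸ hi₀)
  have hsame' : ∀ {d : Fin n} {d' : R}, sp N (insert (d' : E) Y) = sp N (insert (z d) Y) →
      sp hl.Q (insert (leg d') U) = sp hl.Q (insert d U) := by
    intro d d' h
    have := hsame h
    rwa [hz] at this
  have ha'' := hsame' ha'
  have hb'' := hsame' hb'
  have hc'' := hsame' hc'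
  obtain ⟨k1, k2a, k2b, k2c, k3⟩ := Ca3.PL hK hSi hSG hrk P hlegs
    (hne1 ha' (by rwa [hz])) (hne1 hb' (by rwa [hz])) (hne1 hc' (by rwa [hz]))
    (by rw [hmem1, ha'', hrep1 hb', hz]; exact hab)
    (by rw [hmem1, ha'', hrep1 hc', hz]; exact hac)
    (by rw [hmem1, hb'', hrep1 hc', hz]; exact hbc)
  refine ⟨fun d => ?_, ?_, ?_⟩
  · by_cases he : d ∈ sp hl.Q U
    · exact Or.inl (sp_mono (subset_insert _ _) he)
    obtain ⟨d', hd'⟩ := hd d he
    have := k1 d'
    rwa [hmem1, hmem1, hmem1, ha'', hb'', hc'', hrep1 hd', hrep1 hd', hrep1 hd', hz] at this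
  · intro d hdd e f g he hf hg heW hfW hgW
    obtain ⟨d', hd', hd3⟩ : ∃ d' : R, sp hl.Q (insert (leg d') U) = sp hl.Q (insert d U) ∧
        (Ca3.cl K (qc K w Y R) {P, d'}).card = 3 := by
      rcases hdd with rfl | rfl | rfl
      · exact ⟨a', ha'', k2a⟩
      · exact ⟨b', hb'', k2b⟩
      · exact ⟨c', hc'', k2c⟩
    have hex : ∀ g, leg g ∉ sp hl.Q U → ∃ r : R, sp N (insert (r : E) Y) = sp N (insert g Y) :=
      fun g hg => key_exists_rep hw hx₀ hR (mem_univ g) (fun h => hg (hYW _ h))
    obtain ⟨e', he'⟩ := hex e heW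
    obtain ⟨f', hf'⟩ := hex f hfW
    obtain ⟨g', hg'⟩ := hex g hgW
    by_contra hcon
    push Not at hcon
    obtain ⟨c1, c2, c3⟩ := hcon
    have hmm : ∀ {x : E} {x' : R}, sp N (insert (x' : E) Y) = sp N (insert x Y) →
        leg x ∈ sp hl.Q (insert d U) → x' ∈ Ca3.cl K (qc K w Y R) {P, d'} := by
      intro x x' h hx
      rw [Ca3.mem_cl, hmem1, hd', hrep1 h]
      exact hx
    have hneq : ∀ {x y : E} {x' y' : R}, sp N (insert (x' : E) Y) = sp N (insert x Y) →
        sp N (insert (y' : E) Y) = sp N (insert y Y) → x ∉ sp N (insert y Y) →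
        x' ≠ y' := by
      rintro x y x' y' h1 h2 h3 rfl
      apply h3
      rw [← h2, h1]
      exact mem_sp (mem_insert_self _ _)
    have h4 : ({P, e', f', g'} : Finset R).card = 4 := by
      rw [card_insert_of_notMem, card_insert_of_notMem, card_insert_of_notMem, card_singleton]
      · simp only [mem_singleton]
        exact hneq hf' hg' c3
      · simp only [mem_insert, mem_singleton, not_or]
        exact ⟨hneq he' hf' c1, hneq he' hg' c2⟩
      · simp only [mem_insert, mem_singleton, not_or]
        exact ⟨(hne1 he' heW).symm, (hne1 hf' hfW).symm, (hne1 hg' hgW).symm⟩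
    have h5 : ({P, e', f', g'} : Finset R) ⊆ Ca3.cl K (qc K w Y R) {P, d'} := by
      intro x hx
      simp only [mem_insert, mem_singleton] at hx
      rcases hx with rfl | rfl | rfl | rfl
      · exact Ca3.subset_cl (mem_insert_self _ _)
      · exact hmm he' he
      · exact hmm hf' hf
      · exact hmm hg' hg
    have := card_le_card h5
    omega
  · rw [hmem2] at k3
    intro h
    apply k3
    -- all of `Y`, `z a`, `z b`, `z c` are in the closure of `a'`, `b'`, `Y`
    have e1 : ∀ {x y x' y' : E}, sp N (insert x' Y) = sp N (insert x Y) →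
        sp N (insert y' Y) = sp N (insert y Y) →
        sp N (insert x (insert y Y)) ≤ sp N (insert x' (insert y' Y)) := by
      intro x y x' y' h1 h2
      rw [sp_le_iff]
      intro e he
      rcases mem_insert.1 he with rfl | he
      · have h3 : e ∈ sp N (insert x' Y) := h1 ▸ mem_sp (mem_insert_self _ _)
        exact sp_mono (insert_subset_insert _ (subset_insert _ _)) h3
      rcases mem_insert.1 he with rfl | he
      · have h3 : e ∈ sp N (insert y' Y) := h2 ▸ mem_sp (mem_insert_self _ _)
        exact sp_mono (subset_insert _ _) h3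
      · exact mem_sp (mem_insert_of_mem (mem_insert_of_mem he))
    have h6 := e1 ha' hb' h
    exact (key_mem_iff ((subset_insert _ _).trans (subset_insert _ _)) hc').2 h6

/-- a leg has at most four elements -/
theorem leg_card_le_four (hK : Fintype.card K = 4) (hN : Simple N) (hq : RepC K N)
    (h3 : 3 ≤ rk N univ) (hl : Legs N leg) (i : Fin n) : (LS leg {i}).card ≤ 4 := by
  classical
  -- an element outside the leg
  obtain ⟨x, hx⟩ : ∃ x, leg x ≠ i := by
    by_contra hcon
    push Not at hcon
    have h1 : (univ : Finset E) ⊆ LS leg {i} := by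
      intro e _
      rw [mem_LS, mem_singleton]
      exact hcon e
    have h2 := rk_mono (N := N) h1
    have h4 := hl.rk_leg i
    omega
  obtain ⟨x', hne, hleg⟩ := hl.two x
  obtain ⟨m, w, hw⟩ := hq x
  have hj : ∀ g, g ∈ sp N {x', x} → leg g = leg x := by
    intro g hg
    have h1 : g ∈ sp N (LS leg {leg x}) := by
      refine mem_sp_of_subset ?_ hg
      intro e he
      rw [mem_LS, mem_singleton]
      simp only [mem_insert, mem_singleton] at he
      rcases he with rfl | rfl
      · exact hleg
      · rfl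
    have h2 := (hl.flat (leg x)).mem h1
    rwa [mem_LS, mem_singleton] at h2
  have hi : ∀ y y' : E, leg y = i → leg y' = i → x ∉ sp N {y, y'} := by
    intro y y' hy hy' h
    have h1 : x ∈ sp N (LS leg {i}) := by
      refine mem_sp_of_subset ?_ h
      intro e he
      rw [mem_LS, mem_singleton]
      simp only [mem_insert, mem_singleton] at he
      rcases he with rfl | rfl
      · exact hy
      · exact hy'
    have h2 := (hl.flat i).mem h1
    rw [mem_LS, mem_singleton] at h2
    exact hx h2
  have hnot : x' ∉ LS leg {i} := by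
    rw [mem_LS, mem_singleton, hleg]
    exact hx
  have hcard : (insert x' (LS leg {i})).card ≤ 5 := by
    apply pencil_card_le hK (v := w) (F := {x})
    · have h1 := hw.rk_eq_one hN (Z := {x} ∪ insert x' (LS leg {i}))
        (mem_union_left _ (mem_singleton_self _))
      have h2 : rk N ({x} ∪ insert x' (LS leg {i})) ≤ rk N (LS leg {i, leg x}) := by
        apply rk_mono
        intro e he
        simp only [mem_union, mem_singleton, mem_insert, mem_LS] at he ⊢
        rcases he with rfl | rfl | he
        · exact Or.inr rfl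
        · exact Or.inr hleg
        · exact Or.inl he
      have h4 := hl.coplanar i (leg x)
      omega
    · intro y hy h
      rw [hw.mem_sp_iff (mem_singleton_self _)] at h
      have h1 := hN.2 _ _ h
      rcases mem_insert.1 hy with rfl | hy
      · exact hne h1
      · rw [mem_LS, mem_singleton, h1] at hy
        exact hx hy
    · intro y hy y' hy' h
      rw [hw.mem_sp_iff (mem_insert_of_mem (mem_singleton_self _))] at h
      rcases mem_insert.1 hy with rfl | hy1
      · rcases mem_insert.1 hy' with rfl | hy1'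
        · rfl
        · exfalso
          rw [mem_LS, mem_singleton] at hy1'
          have h1 : y ∉ sp N {x} := fun h2 => hne (hN.2 _ _ h2)
          have h2 := mem_sp_insert_exchange h h1
          exact hx ((hj y' h2).symm.trans hy1')
      · rw [mem_LS, mem_singleton] at hy1
        rcases mem_insert.1 hy' with rfl | hy1'
        · exfalso
          exact hx ((hj y h).symm.trans hy1)
        · rw [mem_LS, mem_singleton] at hy1'
          by_contra hyy
          have h1 : y ∉ sp N {y'} := fun h2 => hyy (hN.2 _ _ h2)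
          have h' : y ∈ sp N (insert x {y'}) := by rwa [pair_comm] at h
          exact hi y y' hy1 hy1' (mem_sp_insert_exchange h' h1)
  rw [card_insert_of_notMem hnot] at hcard
  omega

end Ca3.Ab
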