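import Pool.Agent.Lib.MP_ca3eb1_co.AbMemDefs

/-! # Representations of separable rank functions

If all contractions of `N` are representable and `N` has a separation of order at most two
(connectivity `r(X) + r(Y) - r(E) ≤ 1`), then `N` is representable. -/

set_option linter.unusedSectionVars false

namespace Ca3.Ab

open Finset

/-! ### Linear algebra -/

section lin

variable {K V V₁ V₂ E : Type*} [Field K] [AddCommGroup V] [Module K V] [FiniteDimensional K V]
  [AddCommGroup V₁] [Module K V₁] [FiniteDimensional K V₁]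
  [AddCommGroup V₂] [Module K V₂] [FiniteDimensional K V₂] [DecidableEq E]

theorem ts_rk_map_mkQ (P W : Submodule K V) :
    Module.finrank K (W.map P.mkQ) + Module.finrank K P = Module.finrank K (W ⊔ P : Submodule K V)
    := by
  have h4 := LinearMap.finrank_range_add_finrank_ker (P.mkQ.domRestrict (W ⊔ P))
  have h5 : LinearMap.ker (P.mkQ.domRestrict (W ⊔ P)) = P.comap (W ⊔ P).subtype := by
    rw [LinearMap.domRestrict, LinearMap.ker_comp, Submodule.ker_mkQ]
  have h6 : LinearMap.range (P.mkQ.domRestrict (W ⊔ P)) = W.map P.mkQ := by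
    rw [LinearMap.range_domRestrict, Submodule.map_sup]
    rw [Submodule.mkQ_map_self, sup_bot_eq]
  have h7 : Module.finrank K (P.comap (W ⊔ P).subtype) = Module.finrank K P :=
    (Submodule.comapSubtypeEquivOfLe (le_sup_right : P ≤ W ⊔ P)).finrank_eq
  rw [h5, h6, h7] at h4
  exact h4

/-- passing to coordinates -/
theorem ts_coord (v : E → V) : ∃ (n : ℕ) (w : E → (Fin n → K)), ∀ Z, Ca3.rk K w Z =
    Ca3.rk K v Z := by
  let b := Module.finBasis K V
  refine ⟨Module.finrank K V, fun e => b.equivFun (v e), fun Z => ?_⟩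
  have h1 : Ca3.sp K (fun e => b.equivFun (v e)) Z =
      (Ca3.sp K v Z).map (b.equivFun : V →ₗ[K] (Fin (Module.finrank K V) → K)) := by
    unfold Ca3.sp
    rw [Submodule.map_span, ← Set.image_comp]
    rfl
  unfold Ca3.rk
  rw [h1]
  exact LinearEquiv.finrank_map_eq b.equivFun (Ca3.sp K v Z)

/-- contraction of a set of vectors -/
theorem ts_contract (v : E → V) (Z : Finset E) : ∃ (n : ℕ) (w : E → (Fin n → K)), ∀ W,
    Ca3.rk K w W + Ca3.rk K v Z = Ca3.rk K v (Z ∪ W) := by
  obtain ⟨n, w, hw⟩ := ts_coord (K := K) (fun e => (Ca3.sp K v Z).mkQ (v e))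
  refine ⟨n, w, fun W => ?_⟩
  rw [hw]
  have h1 : Ca3.sp K (fun e => (Ca3.sp K v Z).mkQ (v e)) W =
      (Ca3.sp K v W).map (Ca3.sp K v Z).mkQ := by
    unfold Ca3.sp
    rw [Submodule.map_span, ← Set.image_comp]
    rfl
  unfold Ca3.rk
  rw [h1, ts_rk_map_mkQ, union_comm, Ca3.sp_union]

theorem ts_finrank_prod (S : Submodule K V₁) (T : Submodule K V₂) :
    Module.finrank K (S.prod T) = Module.finrank K S + Module.finrank K T := by
  have h1 := Submodule.finrank_sup_add_finrank_inf_eq (S.map (LinearMap.inl K V₁ V₂))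
    (T.map (LinearMap.inr K V₁ V₂))
  have h2 : S.map (LinearMap.inl K V₁ V₂) ⊓ T.map (LinearMap.inr K V₁ V₂) = ⊥ := by
    rw [eq_bot_iff]
    rintro x ⟨⟨a, _, rfl⟩, ⟨b, _, hb⟩⟩
    have h3 := congrArg Prod.fst hb
    simp only [LinearMap.coe_inr, LinearMap.coe_inl] at h3
    simp [← h3]
  rw [h2, finrank_bot, add_zero, ← LinearMap.prod_eq_sup_map] at h1
  rw [h1]
  congr 1
  · exact (Submodule.equivMapOfInjective _ LinearMap.inl_injective S).symm.finrank_eq
  · exact (Submodule.equivMapOfInjective _ LinearMap.inr_injective T).symm.finrank_eq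

theorem ts_finrank_sup_span {W : Submodule K V} {c : V} (hc : c ∉ W) :
    Module.finrank K (W ⊔ Submodule.span K {c} : Submodule K V) = Module.finrank K W + 1 := by
  have h0 : c ≠ 0 := fun h => hc (h ▸ W.zero_mem)
  have h1 := Submodule.finrank_sup_add_finrank_inf_eq W (Submodule.span K {c})
  have h2 : W ⊓ Submodule.span K {c} = ⊥ :=
    ((Submodule.disjoint_span_singleton' h0).2 hc).eq_bot
  rw [h2, finrank_bot, add_zero, finrank_span_singleton h0] at h1
  exact h1

end lin

variable {K E : Type*} [Field K] [DecidableEq E] {N : RF E} {X Y Z A B : Finset E} {e : E}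

/-- all contractions `N / Z` with `Z` nonempty are representable -/
theorem RepC.contract (hq : RepC K N) (hZ : Z.Nonempty) : ∃ (n : ℕ) (w : E → (Fin n → K)),
    ∀ W, Ca3.rk K w W + rk N Z = rk N (Z ∪ W) := by
  obtain ⟨x, hx⟩ := hZ
  obtain ⟨n, w, hw⟩ := hq x
  obtain ⟨m, w', hw'⟩ := ts_contract (K := K) w Z
  refine ⟨m, w', fun W => ?_⟩
  have h1 := hw' W
  have h2 := hw.rk_eq hx
  have h3 := hw.rk_eq (mem_union_left W hx)
  omega

/-- the span of the direct sum of two configurations -/
theorem ts_sp_sum {n m : ℕ} (v : E → (Fin n → K)) (w : E → (Fin m → K)) (hd : Disjoint X Y)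
    (hA : A ⊆ X) (hB : B ⊆ Y) :
    Ca3.sp K (fun e => if e ∈ X then (v e, 0) else (0, w e) : E → (Fin n → K) × (Fin m → K))
      (A ∪ B) = (Ca3.sp K v A).prod (Ca3.sp K w B) := by
  unfold Ca3.sp
  rw [← LinearMap.span_inl_union_inr]
  congr 1
  ext z
  simp only [coe_union, Set.mem_image, Set.mem_union, mem_coe, exists_exists_and_eq_and,
    LinearMap.coe_inl, LinearMap.coe_inr]
  constructor
  · rintro ⟨e, he | he, rfl⟩
    · left
      exact ⟨e, he, by rw [if_pos (hA he)]⟩
    · right
      exact ⟨e, he, by rw [if_neg (fun h => (Finset.disjoint_left.1 hd) h (hB he))]⟩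
  · rintro (⟨e, he, rfl⟩ | ⟨e, he, rfl⟩)
    · exact ⟨e, Or.inl he, by rw [if_pos (hA he)]⟩
    · exact ⟨e, Or.inr he, by
        rw [if_neg (fun h => (Finset.disjoint_left.1 hd) h (hB he))]⟩

theorem ts_split [Fintype E] (hXY : X ∪ Y = univ) (Z : Finset E) :
    ∃ A ⊆ X, ∃ B ⊆ Y, Z = A ∪ B := by
  refine ⟨Z ∩ X, inter_subset_right, Z ∩ Y, inter_subset_right, ?_⟩
  rw [← inter_union_distrib_left, hXY, inter_univ]

/-- the direct sum -/
theorem ts_direct [Fintype E] {n m : ℕ} (hXY : X ∪ Y = univ) (hd : Disjoint X Y)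
    (v : E → (Fin n → K)) (w : E → (Fin m → K))
    (hv : ∀ A ⊆ X, Ca3.rk K v A = rk N A) (hw : ∀ B ⊆ Y, Ca3.rk K w B = rk N B)
    (h : ∀ A ⊆ X, ∀ B ⊆ Y, rk N (A ∪ B) = rk N A + rk N B) : Rep K N := by
  obtain ⟨k, u, hu⟩ := ts_coord (K := K)
    (fun e => if e ∈ X then (v e, 0) else (0, w e) : E → (Fin n → K) × (Fin m → K))
  refine ⟨k, u, fun Z => ?_⟩
  obtain ⟨A, hA, B, hB, rfl⟩ := ts_split hXY Z
  rw [hu, h A hA B hB, ← hv A hA, ← hw B hB]
  unfold Ca3.rk
  rw [ts_sp_sum v w hd hA hB, ts_finrank_prod]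

/-- the glued configuration -/
theorem ts_glue [Fintype E] {n m : ℕ} (hXY : X ∪ Y = univ) (hd : Disjoint X Y)
    (v : E → (Fin n → K)) (w : E → (Fin m → K)) {x y : E}
    (hv : ∀ A ⊆ X, Ca3.rk K v A = rk N A) (hw : ∀ B ⊆ Y, Ca3.rk K w B = rk N B)
    (hy0 : v y ≠ 0)
    (h1 : ∀ A ⊆ X, ∀ B ⊆ Y, v y ∈ Ca3.sp K v A → w x ∈ Ca3.sp K w B →
      rk N (A ∪ B) + 1 = rk N A + rk N B)
    (h2 : ∀ A ⊆ X, ∀ B ⊆ Y, ¬ (v y ∈ Ca3.sp K v A ∧ w x ∈ Ca3.sp K w B) →
      rk N (A ∪ B) = rk N A + rk N B) : Rep K N := by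
  set u : E → (Fin n → K) × (Fin m → K) := fun e => if e ∈ X then (v e, 0) else (0, w e)
    with hu
  set c : (Fin n → K) × (Fin m → K) := (v y, - w x) with hc
  have hc0 : c ≠ 0 := by
    rw [hc]
    intro h0
    exact hy0 (congrArg Prod.fst h0)
  obtain ⟨k, t, ht⟩ := ts_coord (K := K) (fun e => (Submodule.span K {c}).mkQ (u e))
  refine ⟨k, t, fun Z => ?_⟩
  obtain ⟨A, hA, B, hB, rfl⟩ := ts_split hXY Z
  rw [ht]
  have h3 : Ca3.sp K (fun e => (Submodule.span K {c}).mkQ (u e)) (A ∪ B) =
      (Ca3.sp K u (A ∪ B)).map (Submodule.span K {c}).mkQ := by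
    unfold Ca3.sp
    rw [Submodule.map_span, ← Set.image_comp]
    rfl
  have h4 := ts_rk_map_mkQ (Submodule.span K {c}) (Ca3.sp K u (A ∪ B))
  rw [finrank_span_singleton hc0, ← h3] at h4
  have h5 : Ca3.sp K u (A ∪ B) = (Ca3.sp K v A).prod (Ca3.sp K w B) := ts_sp_sum v w hd hA hB
  have h6 : Module.finrank K (Ca3.sp K u (A ∪ B)) = rk N A + rk N B := by
    rw [h5, ts_finrank_prod, ← hv A hA, ← hw B hB]
    rfl
  have h7 : c ∈ Ca3.sp K u (A ∪ B) ↔ (v y ∈ Ca3.sp K v A ∧ w x ∈ Ca3.sp K w B) := by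
    rw [h5, Submodule.mem_prod, hc]
    simp only [Submodule.neg_mem_iff]
  change Module.finrank K (Ca3.sp K (fun e => (Submodule.span K {c}).mkQ (u e)) (A ∪ B)) = _
  by_cases h8 : c ∈ Ca3.sp K u (A ∪ B)
  · have h9 := h1 A hA B hB (h7.1 h8).1 (h7.1 h8).2
    have h10 : Ca3.sp K u (A ∪ B) ⊔ Submodule.span K {c} = Ca3.sp K u (A ∪ B) :=
      sup_eq_left.2 ((Submodule.span_singleton_le_iff_mem _ _).2 h8)
    rw [h10] at h4
    omega
  · have h9 := h2 A hA B hB (fun h => h8 (h7.2 h))
    rw [ts_finrank_sup_span h8] at h4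
    omega

/-! ### Separations -/

/-- a basis of `N / X` -/
theorem ts_basis [Fintype E] (hXY : X ∪ Y = univ) : ∃ Z ⊆ Y, rk N (X ∪ Z) = rk N univ ∧
    rk N X + Z.card = rk N univ := by
  obtain ⟨I, hIX, hI, hIs⟩ := exists_basis (N := N) X
  obtain ⟨B, hIB, -, hB, hBs⟩ := exists_basis_extend hI (subset_univ I)
  have hZ : B \ I ⊆ Y := by
    intro e he
    rw [mem_sdiff] at he
    have h1 : e ∈ X ∪ Y := hXY ▸ mem_univ e
    rcases mem_union.1 h1 with h1 | h1
    · exfalso
      have h2 : e ∈ sp N I := by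
        rw [hIs]; exact mem_sp h1
      exact hB.not_mem_sp_erase he.1 (sp_mono (subset_erase.2 ⟨hIB, he.2⟩) h2)
    · exact h1
  have h3 : rk N univ = B.card := by rw [← hB.rk_eq_card, rk_congr hBs]
  have h4 : rk N X = I.card := by rw [← hI.rk_eq_card, rk_congr hIs]
  have h5 := card_sdiff_add_card_eq_card hIB
  refine ⟨B \ I, hZ, ?_, by omega⟩
  apply le_antisymm (rk_mono (subset_univ _))
  have h6 : B ⊆ cl N (X ∪ (B \ I)) := by
    intro e he
    rw [mem_cl]
    by_cases heI : e ∈ I
    · exact mem_sp (mem_union_left _ (hIX heI))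
    · exact mem_sp (mem_union_right _ (mem_sdiff.2 ⟨he, heI⟩))
  have h7 := rk_mono (N := N) h6
  rw [rk_cl, hB.rk_eq_card] at h7
  omega

section sep

variable [Fintype E]

/-- the lower bound for the rank of a union of two pieces -/
theorem ts_lower (hXY : X ∪ Y = univ) (hA : A ⊆ X) (hB : B ⊆ Y) :
    rk N univ + rk N A + rk N B ≤ rk N (A ∪ B) + rk N X + rk N Y := by
  have h1 := rk_union_add_rk_inter (N := N) (X := X) (Y := A ∪ B)
  have h2 : rk N A ≤ rk N (X ∩ (A ∪ B)) := rk_mono (subset_inter hA subset_union_left)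
  have h3 : X ∪ (A ∪ B) = X ∪ B := by
    rw [← union_assoc, union_eq_left.2 hA]
  have h4 := rk_union_add_rk_inter (N := N) (X := X ∪ B) (Y := Y)
  have h5 : X ∪ B ∪ Y = univ := by
    rw [union_assoc, union_eq_right.2 hB, hXY]
  have h6 : rk N B ≤ rk N ((X ∪ B) ∩ Y) := rk_mono (subset_inter subset_union_right hB)
  rw [h3] at h1
  rw [h5] at h4
  omega

/-- representation of one side of a separation of connectivity one -/
theorem ts_side (hq : RepC K N) (hXY : X ∪ Y = univ) (h : rk N X + rk N Y ≤ rk N univ + 1)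
    (h' : rk N univ + 1 ≤ rk N X + rk N Y) (hY : 2 ≤ rk N Y) :
    ∃ (n : ℕ) (v : E → (Fin n → K)) (y : E), (∀ A ⊆ X, Ca3.rk K v A = rk N A) ∧ v y ≠ 0 ∧
      ∀ A ⊆ X, (v y ∈ Ca3.sp K v A ↔ rk N (A ∪ Y) + 1 = rk N A + rk N Y) := by
  obtain ⟨Z, hZY, hZ1, hZ2⟩ := ts_basis (N := N) hXY
  have hne : Z.Nonempty := by
    rw [nonempty_iff_ne_empty]
    rintro rfl
    rw [card_empty] at hZ2
    omega
  obtain ⟨n, v, hv⟩ := hq.contract hne
  have hZc : rk N Z ≤ Z.card := rk_le_card
  have hsk : ∀ A ⊆ X, rk N (Z ∪ A) = rk N Z + rk N A ∧ rk N Z = Z.card := by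
    intro A hA
    have h1 := rk_union_add_rk_inter (N := N) (X := X) (Y := Z ∪ A)
    have h2 : X ∪ (Z ∪ A) = X ∪ Z := by
      rw [union_comm Z A, ← union_assoc, union_eq_left.2 hA]
    have h3 : rk N A ≤ rk N (X ∩ (Z ∪ A)) := rk_mono (subset_inter hA subset_union_right)
    have h4 := rk_union_le (N := N) (X := Z) (Y := A)
    rw [h2, hZ1] at h1
    omega
  obtain ⟨y, hyY, hyZ⟩ : ∃ y ∈ Y, y ∉ sp N Z := by
    by_contra hc
    push Not at hc
    have h1 := rk_union_of_forall_mem_sp hc
    have h2 : rk N Y ≤ rk N (Z ∪ Y) := rk_mono subset_union_right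
    omega
  refine ⟨n, v, y, ?_, ?_, ?_⟩
  · intro A hA
    have h1 := hv A
    have h2 := hsk A hA
    omega
  · intro h0
    have h1 := hv {y}
    have h2 : Ca3.rk K v {y} = 0 := by
      unfold Ca3.rk
      rw [Ca3.sp_singleton, h0, Submodule.span_singleton_eq_bot.2 rfl, finrank_bot]
    have h3 := rk_insert_of_not_mem_sp hyZ
    have h4 : Z ∪ {y} = insert y Z := by rw [union_comm]; rfl
    rw [h4] at h1
    omega
  · intro A hA
    rw [← Ca3.rk_insert_eq_iff]
    have h1 := hv A
    have h2 := hv (insert y A)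
    have h3 := hsk A hA
    have h4 : Z ∪ insert y A = insert y (Z ∪ A) := by rw [union_insert]
    have h5 := rk_insert_of_not_mem_sp hyZ
    -- `Z` and `y` span `Y`
    have h6 : sp N (insert y Z) = sp N Y :=
      sp_eq_of_subset_of_rk_le (insert_subset hyY hZY) (by omega)
    have h7 : rk N (A ∪ Y) = rk N (insert y (Z ∪ A)) := by
      apply rk_congr
      apply le_antisymm
      · rw [sp_le_iff]
        intro e he
        rcases mem_union.1 he with he | he
        · exact mem_sp (mem_insert_of_mem (mem_union_right _ he))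
        · have h8 : e ∈ sp N (insert y Z) := by rw [h6]; exact mem_sp he
          exact sp_mono (insert_subset_insert _ subset_union_left) h8
      · apply sp_mono
        apply insert_subset (mem_union_right _ hyY)
        exact union_subset (hZY.trans subset_union_right) subset_union_left
    rw [h4] at h2
    constructor
    · intro h8
      omega
    · intro h8
      omega

/-- **Separations.** A rank function with a separation of connectivity at most one whose
contractions are representable is representable. -/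
theorem rep_of_sep (hq : RepC K N) (hXY : X ∪ Y = univ) (hd : Disjoint X Y)
    (h : rk N X + rk N Y ≤ rk N univ + 1) (hX : 2 ≤ rk N X) (hY : 2 ≤ rk N Y) : Rep K N := by
  have hl : ∀ A ⊆ X, ∀ B ⊆ Y, rk N univ + rk N A + rk N B ≤ rk N (A ∪ B) + rk N X + rk N Y :=
    fun A hA B hB => ts_lower hXY hA hB
  by_cases h' : rk N univ + 1 ≤ rk N X + rk N Y
  · obtain ⟨n, v, y, hv, hy, hvy⟩ := ts_side hq hXY h h' hY
    obtain ⟨m, w, x, hw, hx, hwx⟩ := ts_side (X := Y) (Y := X) hq (by rw [union_comm, hXY])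
      (by omega) (by omega) hX
    refine ts_glue hXY hd v w hv hw hy (x := x) ?_ ?_
    · intro A hA B hB h1 h2
      rw [hvy A hA] at h1
      rw [hwx B hB] at h2
      have h3 := rk_union_add_rk_inter (N := N) (X := A ∪ Y) (Y := B ∪ X)
      have h4 : A ∪ Y ∪ (B ∪ X) = univ := by
        apply univ_subset_iff.1
        rw [← hXY]
        intro e; simp only [mem_union]; tauto
      have h5 : rk N (A ∪ B) ≤ rk N ((A ∪ Y) ∩ (B ∪ X)) := by
        apply rk_mono
        exact subset_inter (union_subset subset_union_left (hB.trans subset_union_right))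
          (union_subset (hA.trans subset_union_right) subset_union_left)
      have h6 := hl A hA B hB
      rw [h4] at h3
      omega
    · intro A hA B hB h1
      have h2 := rk_union_le (N := N) (X := A) (Y := B)
      have h6 := hl A hA B hB
      rw [hvy A hA, hwx B hB] at h1
      -- `r(A ∪ B) ≥ r(A ∪ Y) + r(B) - r(Y)`
      have h7 := rk_union_add_rk_inter (N := N) (X := A ∪ B) (Y := Y)
      have h8 : A ∪ B ∪ Y = A ∪ Y := by rw [union_assoc, union_eq_right.2 hB]
      have h9 : rk N B ≤ rk N ((A ∪ B) ∩ Y) := rk_mono (subset_inter subset_union_right hB)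
      have h10 := rk_union_add_rk_inter (N := N) (X := A ∪ B) (Y := X)
      have h11 : A ∪ B ∪ X = B ∪ X := by
        rw [union_comm A B, union_assoc, union_eq_right.2 hA]
      have h12 : rk N A ≤ rk N ((A ∪ B) ∩ X) := rk_mono (subset_inter subset_union_left hA)
      have h13 := rk_union_le (N := N) (X := A) (Y := Y)
      have h14 := rk_union_le (N := N) (X := B) (Y := X)
      have h15 := hl A hA Y (subset_refl _)
      have h16 := hl X (subset_refl _) B hB
      rw [union_comm X B] at h16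
      rw [h8] at h7
      rw [h11] at h10
      omega
  · -- direct sum
    obtain ⟨IX, hIX, hI, hIs⟩ := exists_basis (N := N) X
    obtain ⟨IY, hIY, hJ, hJs⟩ := exists_basis (N := N) Y
    have r1 : rk N IX = rk N X := rk_congr hIs
    have r2 : rk N IY = rk N Y := rk_congr hJs
    have hne : ∀ {I : Finset E}, 2 ≤ rk N I → I.Nonempty := by
      intro I hI
      rw [nonempty_iff_ne_empty]
      rintro rfl
      rw [rk_empty] at hI
      omega
    obtain ⟨n, v, hv⟩ := hq.contract (hne (I := IY) (by omega))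
    obtain ⟨m, w, hw⟩ := hq.contract (hne (I := IX) (by omega))
    refine ts_direct hXY hd v w ?_ ?_ ?_
    · intro A hA
      have h1 := hv A
      have h2 := hl A hA IY hIY
      have h3 := rk_union_le (N := N) (X := IY) (Y := A)
      rw [union_comm A IY] at h2
      omega
    · intro B hB
      have h1 := hw B
      have h2 := hl IX hIX B hB
      have h3 := rk_union_le (N := N) (X := IX) (Y := B)
      omega
    · intro A hA B hB
      have h2 := hl A hA B hB
      have h3 := rk_union_le (N := N) (X := A) (Y := B)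
      omega

/-- **Coloops.** -/
theorem rep_of_coloop (hq : RepC K N) {x : E} (hx : rk N (univ.erase x) + 1 = rk N univ) :
    Rep K N := by
  have hx1 : rk N {x} = 1 := by
    have h1 := rk_le_card (N := N) (X := {x})
    have h2 := rk_union_le (N := N) (X := {x}) (Y := univ.erase x)
    have h3 : ({x} : Finset E) ∪ univ.erase x = univ := by
      rw [← insert_eq, insert_erase (mem_univ x)]
    rw [card_singleton] at h1
    rw [h3] at h2
    omega
  have hXY : ({x} : Finset E) ∪ univ.erase x = univ := by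
    rw [← insert_eq, insert_erase (mem_univ x)]
  have hd : Disjoint ({x} : Finset E) (univ.erase x) := by
    rw [disjoint_singleton_left]
    exact notMem_erase _ _
  obtain ⟨n, w, hw⟩ := hq.contract (singleton_nonempty x)
  have hl : ∀ A ⊆ ({x} : Finset E), ∀ B ⊆ univ.erase x,
      rk N univ + rk N A + rk N B ≤ rk N (A ∪ B) + rk N {x} + rk N (univ.erase x) :=
    fun A hA B hB => ts_lower hXY hA hB
  refine ts_direct hXY hd (n := 1) (fun _ _ => 1) w ?_ ?_ ?_
  · intro A hA
    rcases subset_singleton_iff.1 hA with rfl | rfl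
    · simp
    · unfold Ca3.rk
      rw [Ca3.sp_singleton, finrank_span_singleton, hx1]
      intro h0
      have := congrFun h0 0
      simp at this
  · intro B hB
    have h1 := hw B
    have h2 := hl {x} (subset_refl _) B hB
    have h3 := rk_union_le (N := N) (X := {x}) (Y := B)
    omega
  · intro A hA B hB
    have h2 := hl A hA B hB
    have h3 := rk_union_le (N := N) (X := A) (Y := B)
    omega

/-- `N` has no separation of connectivity at most one -/
def ThreeConn (N : RF E) : Prop :=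
  (∀ X Y : Finset E, X ∪ Y = univ → Disjoint X Y → 2 ≤ X.card → 2 ≤ Y.card →
    rk N univ + 2 ≤ rk N X + rk N Y) ∧ ∀ x, rk N (univ.erase x) = rk N univ

/-- either representable or 3-connected -/
theorem rep_or_threeConn (hN : Simple N) (hq : RepC K N) : Rep K N ∨ ThreeConn N := by
  by_cases h : Rep K N
  · exact Or.inl h
  right
  refine ⟨?_, ?_⟩
  · intro X Y hXY hd hX hY
    by_contra hc
    exact h (rep_of_sep hq hXY hd (by omega) (hN.two_le_rk hX) (hN.two_le_rk hY))
  · intro x
    by_contra hc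
    apply h
    apply rep_of_coloop hq (x := x)
    have h1 : rk N (univ.erase x) ≤ rk N univ := rk_mono (subset_univ _)
    have h2 := rk_insert_le (N := N) (e := x) (X := univ.erase x)
    rw [insert_erase (mem_univ x)] at h2
    omega

theorem ThreeConn.conn3 (h : ThreeConn N) : Conn3 N :=
  fun X h1 h2 => h.1 X Xᶜ (union_compl X) disjoint_compl_right h1 h2

end sep

end Ca3.Ab
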