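import Pool.Agent.Lib.MP_ca3eb1_co.AbVY

/-! # Lemma C and (S1): a contraction which is 3-connected without thin leaf

`LC.lemmaC`: if every element is in at least two members and some element is good, then there is a
good element `x` such that every other element is in at least two members of `N / x`.
`LC.lemmaS1`: the contraction of an element in exactly one member, of rank at least three. -/

set_option linter.unusedSectionVars false

namespace Ca3.Ab

open Finset

namespace LC

variable {E : Type*} [DecidableEq E] [Fintype E] {N : RF E} {ι : Type*} [Fintype ι]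
  {A : ι → Finset E} {X Y Z S V V' W L F G : Finset E} {e x y z u : E} {i i₀ : ι}

/-- A set of rank at most two meets at least as many members as it has elements. -/
theorem line_meet (hc : Conn3 N) (hA : Fam N A) (h1 : rk N W ≤ 2) (h2 : 2 ≤ W.card)
    (h3 : 2 ≤ Wᶜ.card) : W.card ≤ (univ.filter (fun i => ¬ Disjoint (A i) W)).card := by
  apply hA.meet_of_spanning
  have h4 := hc W h2 h3
  have h5 := rk_mono (N := N) (subset_univ Wᶜ)
  omega

/-- If no member of rank two contains both `x` and `z` then the members through `z` survive. -/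
theorem single (hN : Simple N) (hA : Fam N A)
    (h : ∀ i, z ∈ A i → x ∈ A i → 3 ≤ rk N (A i)) :
    (univ.filter (fun i => z ∈ A i)).card ≤
      (univ.filter (fun i => z ∈ cl N (A i ∪ {x}) ∧ 3 ≤ rk N (A i ∪ {x}))).card := by
  apply card_le_card
  intro i hi
  simp only [mem_filter, mem_univ, true_and] at hi ⊢
  refine ⟨subset_cl (mem_union_left _ hi), ?_⟩
  by_cases hx : x ∈ A i
  · exact (h i hi hx).trans (rk_mono subset_union_left)
  · have h1 := hA.two_le_rk hN i
    have h2 : A i ∪ {x} = insert x (A i) := by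
      rw [union_comm]; rfl
    rw [h2, rk_insert_of_not_mem_sp (fun h' => hx ((hA.fl i).mem h'))]
    omega

/-- two points of a flat of rank two -/
theorem line_subset (hN : Simple N) (hL : IsFl N L) (hr : rk N L = 2) (hx : x ∈ L) (hu : u ∈ L)
    (hne : u ≠ x) (hF : IsFl N F) (hxF : x ∈ F) (huF : u ∈ F) : L ⊆ F := by
  have h1 : ({u, x} : Finset E) ⊆ L := insert_subset hu (singleton_subset_iff.2 hx)
  have h2 : cl N {u, x} = L := hL.cl_eq h1 (by rw [hN.rk_pair hne, hr])
  rw [← h2]
  exact hF.cl_subset (insert_subset huF (singleton_subset_iff.2 hxF))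

/-- (Q) -/
theorem spanQ (hN : Simple N) (hL : IsFl N L) (hr : rk N L = 2)
    (hx : x ∈ L) (hu : u ∈ L) (hne : u ≠ x) (huA : u ∈ F) (h : ¬ F ⊆ L) :
    L ⊆ cl N (F ∪ {x}) ∧ 3 ≤ rk N (F ∪ {x}) := by
  have h1 : L ⊆ cl N (F ∪ {x}) := line_subset hN hL hr hx hu hne isFl_cl
    (subset_cl (mem_union_right _ (mem_singleton_self x))) (subset_cl (mem_union_left _ huA))
  refine ⟨h1, ?_⟩
  by_contra hcon
  apply h
  have h2 : L = cl N (F ∪ {x}) := hL.eq_of_subset_of_rk_le h1 (by rw [rk_cl]; omega)
  rw [h2]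
  exact subset_union_left.trans subset_cl

theorem lemmaC (hN : Simple N) (hc : Conn3 N) (hA : Fam N A) (h5 : 4 ≤ rk N univ)
    (h2 : ∀ z, 2 ≤ (univ.filter (fun i => z ∈ A i)).card)
    (hy : ∀ V V', Guts N V V' → y ∉ V ∩ V') :
    ∃ x, (∀ V V', Guts N V V' → x ∉ V ∩ V') ∧ ∀ z, z ≠ x →
      2 ≤ (univ.filter (fun i => z ∈ cl N (A i ∪ {x}) ∧ 3 ≤ rk N (A i ∪ {x}))).card := by
  classical
  have hE : 4 ≤ Fintype.card E := by
    have h := rk_le_card (N := N) (X := univ)
    rw [card_univ] at h
    omega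
  by_cases hgood : ∀ z, z ≠ y →
      2 ≤ (univ.filter (fun i => z ∈ cl N (A i ∪ {y}) ∧ 3 ≤ rk N (A i ∪ {y}))).card
  · exact ⟨y, hy, hgood⟩
  push Not at hgood
  obtain ⟨z0, hz0, hP⟩ := hgood
  -- the line through `y` and `z0`
  obtain ⟨i0, hi1, hi2, hi3⟩ : ∃ i, z0 ∈ A i ∧ y ∈ A i ∧ rk N (A i) < 3 := by
    by_contra hcon
    push Not at hcon
    have h3 := single (x := y) (z := z0) hN hA hcon
    have h4 := h2 z0
    omega
  set L := A i0 with hLdef
  have hL : IsFl N L := hA.fl i0
  have hr : rk N L = 2 := by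
    have h6 : 2 ≤ rk N L := hA.two_le_rk hN i0
    omega
  have hLcard := hA.line hN hL hr
  set M := univ.filter (fun i => A i = L) with hM
  have hM1 : 1 ≤ M.card := card_pos.2 ⟨i0, by rw [hM, mem_filter]; exact ⟨mem_univ _, rfl⟩⟩
  set P := univ.filter (fun i => z0 ∈ cl N (A i ∪ {y}) ∧ 3 ≤ rk N (A i ∪ {y})) with hPdef
  -- members other than `L` through a point of `L` other than `y`
  have P1 : ∀ i z, z ∈ L → z ≠ y → z ∈ A i → A i ≠ L → i ∈ P := by
    intro i z hzL hzy hzA hne
    have h3 : ¬ A i ⊆ L := by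
      intro h'
      exact hne ((hA.fl i).eq_of_subset_of_rk_le h' (by
        have := hA.two_le_rk hN i
        omega))
    obtain ⟨h4, h6⟩ := spanQ hN hL hr hi2 hzL hzy hzA h3
    rw [hPdef, mem_filter]
    exact ⟨mem_univ _, h4 hi1, h6⟩
  have hLc : 2 ≤ Lᶜ.card := by
    by_contra hcon
    have h6 := hc.rk_compl (by omega) (X := Lᶜ) (by omega)
    rw [compl_compl] at h6
    omega
  have hcompl : ∀ W : Finset E, W ⊆ L → 2 ≤ Wᶜ.card := by
    intro W hW
    exact hLc.trans (card_le_card (compl_subset_compl.2 hW))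
  -- the further member `a`
  obtain ⟨a, ha, z1, hz1L, hz1y, hz1a⟩ : ∃ a, a ∈ P ∧ ∃ z1, z1 ∈ L ∧ z1 ≠ y ∧ z1 ∈ A a := by
    by_contra hcon
    push Not at hcon
    have h3 : (L.erase y).card ≤ (univ.filter (fun i => ¬ Disjoint (A i) (L.erase y))).card := by
      apply line_meet hc hA
      · exact (rk_mono (erase_subset _ _)).trans hr.le
      · rw [card_erase_of_mem hi2]; omega
      · exact hcompl _ (erase_subset _ _)
    have h4 : (univ.filter (fun i => ¬ Disjoint (A i) (L.erase y))).card ≤ M.card := by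
      apply card_le_card
      intro i hi
      rw [mem_filter] at hi
      rw [hM, mem_filter]
      refine ⟨mem_univ _, ?_⟩
      by_contra hne
      obtain ⟨z, hz, hz'⟩ := not_disjoint_iff.1 hi.2
      rw [mem_erase] at hz'
      exact hcon i (P1 i z hz'.2 hz'.1 hz hne) z hz'.2 hz'.1 hz
    rw [card_erase_of_mem hi2] at h3
    omega
  have hPa : ∀ i ∈ P, i = a := fun i hi => card_le_one.1 (by omega) i hi a ha
  have P3 : ∀ i z, z ∈ L → z ≠ y → z ∈ A i → A i = L ∨ i = a := by
    intro i z h3 h4 h6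
    by_cases h7 : A i = L
    · exact Or.inl h7
    · exact Or.inr (hPa i (P1 i z h3 h4 h6 h7))
  have hrka : 3 ≤ rk N (A a ∪ {y}) := (mem_filter.1 ha).2.2
  have haL : A a ≠ L := by
    intro h'
    rw [h'] at hrka
    have h3 : L ∪ {y} = L := union_eq_left.2 (singleton_subset_iff.2 hi2)
    rw [h3] at hrka
    omega
  have hanL : ¬ A a ⊆ L := by
    intro h'
    exact haL ((hA.fl a).eq_of_subset_of_rk_le h' (by
      have := hA.two_le_rk hN a
      omega))
  by_cases hcase : L ⊆ A a
  · -- `x = z1`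
    refine ⟨z1, ?_, ?_⟩
    · intro V V' hV hz
      have hz' := mem_inter.1 hz
      obtain ⟨j, hj1, hj2⟩ := hV.exists_mem_in hc (by omega) hA hz
      obtain ⟨l, hl1, hl2⟩ := hV.symm.exists_mem_in hc (by omega) hA
        (by rw [inter_comm]; exact hz)
      have key : ∀ i, z1 ∈ A i → y ∈ A i := by
        intro i hi
        rcases P3 i z1 hz1L hz1y hi with h3 | h3
        · rw [h3]; exact hi2
        · rw [h3]; exact hcase hi2
      exact hy V V' hV (mem_inter.2 ⟨hj2 (key j hj1), hl2 (key l hl1)⟩)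
    · intro z hz
      by_cases hs : ∀ i, z ∈ A i → z1 ∈ A i → 3 ≤ rk N (A i)
      · exact (h2 z).trans (single hN hA hs)
      · push Not at hs
        obtain ⟨i1, h3, h4, h6⟩ := hs
        have hi1L : A i1 = L := by
          rcases P3 i1 z1 hz1L hz1y h4 with h7 | h7
          · exact h7
          · exfalso
            rw [h7] at h6
            exact haL (hL.eq_of_subset_of_rk_le hcase (by omega)).symm
        have hzL : z ∈ L := hi1L ▸ h3
        have h7 := hA.two_le_crossing hc (W := L) (by omega) hLc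
        refine h7.trans (card_le_card ?_)
        intro i hi
        simp only [mem_filter, mem_univ, true_and] at hi ⊢
        obtain ⟨hi1', hi2'⟩ := hi
        obtain ⟨u, huA, huL⟩ : ∃ u, u ∈ A i ∧ u ∈ L := by
          obtain ⟨u, h8, h9⟩ := not_subset.1 hi2'
          refine ⟨u, h8, ?_⟩
          by_contra h'
          exact h9 (mem_compl.2 h')
        -- a point of `A i ∩ L` different from `z1`
        obtain ⟨u', hu'A, hu'L, hu'ne⟩ : ∃ u', u' ∈ A i ∧ u' ∈ L ∧ u' ≠ z1 := by
          by_cases hu : u = z1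
          · subst hu
            rcases P3 i u hz1L hz1y huA with h8 | h8
            · exact absurd h8.le hi1'
            · refine ⟨y, ?_, hi2, Ne.symm hz1y⟩
              rw [h8]; exact hcase hi2
          · exact ⟨u, huA, huL, hu⟩
        obtain ⟨h8, h9⟩ := spanQ hN hL hr hz1L hu'L hu'ne hu'A hi1'
        exact ⟨h8 hzL, h9⟩
  · -- `x = z2`
    have hnotwo : ∀ p q, p ∈ L → q ∈ L → p ≠ q → p ∈ A a → q ∉ A a := by
      intro p q hp hq hpq hpa hqa
      exact hcase (line_subset hN hL hr hq hp hpq (hA.fl a) hqa hpa)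
    have hya : y ∉ A a := hnotwo z1 y hz1L hi2 hz1y hz1a
    obtain ⟨z2, hz2L, hz2y, hz21⟩ : ∃ z2, z2 ∈ L ∧ z2 ≠ y ∧ z2 ≠ z1 := by
      have h3 : 1 ≤ ((L.erase y).erase z1).card := by
        rw [card_erase_of_mem (mem_erase.2 ⟨hz1y, hz1L⟩), card_erase_of_mem hi2]
        omega
      obtain ⟨z2, hz2⟩ := card_pos.1 h3
      rw [mem_erase, mem_erase] at hz2
      exact ⟨z2, hz2.2.2, hz2.2.1, hz2.1⟩
    have honly : ∀ i z, z ∈ L → z ≠ y → z ≠ z1 → z ∈ A i → A i = L := by
      intro i z h3 h4 h6 h7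
      rcases P3 i z h3 h4 h7 with h8 | h8
      · exact h8
      · rw [h8] at h7
        exact absurd h7 (hnotwo z1 z hz1L h3 (Ne.symm h6) hz1a)
    -- a member through `y`
    obtain ⟨b, hb1, hb2⟩ : ∃ b, y ∈ A b ∧ A b ≠ L := by
      by_contra hcon
      push Not at hcon
      have h3 : (L.erase z1).card ≤
          (univ.filter (fun i => ¬ Disjoint (A i) (L.erase z1))).card := by
        apply line_meet hc hA
        · exact (rk_mono (erase_subset _ _)).trans hr.le
        · rw [card_erase_of_mem hz1L]; omega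
        · exact hcompl _ (erase_subset _ _)
      have h4 : (univ.filter (fun i => ¬ Disjoint (A i) (L.erase z1))).card ≤ M.card := by
        apply card_le_card
        intro i hi
        rw [mem_filter] at hi
        rw [hM, mem_filter]
        refine ⟨mem_univ _, ?_⟩
        obtain ⟨z, hz, hz'⟩ := not_disjoint_iff.1 hi.2
        rw [mem_erase] at hz'
        by_cases hzy : z = y
        · subst hzy
          exact hcon i hz
        · exact honly i z hz'.2 hzy hz'.1 hz
      rw [card_erase_of_mem hz1L] at h3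
      omega
    have hbnL : ¬ A b ⊆ L := by
      intro h'
      exact hb2 ((hA.fl b).eq_of_subset_of_rk_le h' (by
        have := hA.two_le_rk hN b
        omega))
    have hab : a ≠ b := by
      rintro rfl
      exact hya hb1
    refine ⟨z2, ?_, ?_⟩
    · intro V V' hV hz
      obtain ⟨j, hj1, hj2⟩ := hV.exists_mem_in hc (by omega) hA hz
      obtain ⟨l, hl1, hl2⟩ := hV.symm.exists_mem_in hc (by omega) hA
        (by rw [inter_comm]; exact hz)
      have key : ∀ i, z2 ∈ A i → y ∈ A i := by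
        intro i hi
        rw [honly i z2 hz2L hz2y hz21 hi]
        exact hi2
      exact hy V V' hV (mem_inter.2 ⟨hj2 (key j hj1), hl2 (key l hl1)⟩)
    · intro z hz
      by_cases hs : ∀ i, z ∈ A i → z2 ∈ A i → 3 ≤ rk N (A i)
      · exact (h2 z).trans (single hN hA hs)
      · push Not at hs
        obtain ⟨i1, h3, h4, h6⟩ := hs
        have hi1L : A i1 = L := honly i1 z2 hz2L hz2y hz21 h4
        have hzL : z ∈ L := hi1L ▸ h3
        have h7 : ({a, b} : Finset ι) ⊆
            univ.filter (fun i => z ∈ cl N (A i ∪ {z2}) ∧ 3 ≤ rk N (A i ∪ {z2})) := by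
          intro i hi
          rw [mem_insert, mem_singleton] at hi
          rw [mem_filter]
          rcases hi with rfl | rfl
          · obtain ⟨h8, h9⟩ := spanQ hN hL hr hz2L hz1L (Ne.symm hz21) hz1a hanL
            exact ⟨mem_univ _, h8 hzL, h9⟩
          · obtain ⟨h8, h9⟩ := spanQ hN hL hr hz2L hi2 (Ne.symm hz2y) hb1 hbnL
            exact ⟨mem_univ _, h8 hzL, h9⟩
        have h8 := card_le_card h7
        rw [card_pair hab] at h8
        exact h8

theorem lemmaS1 (hN : Simple N) (hc : Conn3 N) (hA : Fam N A) (h5 : 4 ≤ rk N univ)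
    (hz : (univ.filter (fun i => z ∈ A i)).card = 1) (hzi : z ∈ A i) (hi : 3 ≤ rk N (A i))
    (hT : ∀ w j, (univ.filter (fun l => w ∈ A l)).card = 1 → w ∈ A j → 3 ≤ rk N (A j)) :
    (∀ V V', Guts N V V' → z ∉ V ∩ V') ∧
    ∀ w, w ≠ z → ∀ j,
      (univ.filter (fun l => w ∈ cl N (A l ∪ {z}) ∧ 3 ≤ rk N (A l ∪ {z}))).card = 1 →
      w ∈ cl N (A j ∪ {z}) → 3 ≤ rk N (A j ∪ {z}) → 4 ≤ rk N (A j ∪ {z}) := by
  classical
  have hE : 4 ≤ Fintype.card E := by
    have h := rk_le_card (N := N) (X := univ)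
    rw [card_univ] at h
    omega
  have hone : ∀ l, z ∈ A l → l = i := by
    intro l hl
    exact card_le_one.1 hz.le l (by simpa using hl) i (by simpa using hzi)
  constructor
  · intro V V' hV hzV
    obtain ⟨j, hj1, hj2⟩ := hV.exists_mem_in hc (by omega) hA hzV
    obtain ⟨l, hl1, hl2⟩ := hV.symm.exists_mem_in hc (by omega) hA
      (by rw [inter_comm]; exact hzV)
    rw [hone j hj1] at hj2
    rw [hone l hl1] at hl2
    have h6 := rk_mono (N := N) (subset_inter hj2 hl2)
    have h7 := hV.rk_inter_le hA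
    omega
  · intro w hwz j hcard hw hj
    by_contra hcon
    have hP : ∀ l, w ∈ cl N (A l ∪ {z}) → 3 ≤ rk N (A l ∪ {z}) → l = j := by
      intro l h1 h2
      exact card_le_one.1 hcard.le l (mem_filter.2 ⟨mem_univ _, h1, h2⟩) j
        (mem_filter.2 ⟨mem_univ _, hw, hj⟩)
    have hmem : ∀ l, w ∈ A l → l = j := by
      intro l hl
      apply hP l (subset_cl (mem_union_left _ hl))
      by_cases hzl : z ∈ A l
      · rw [hone l hzl]
        exact hi.trans (rk_mono subset_union_left)
      · have h1 := hA.two_le_rk hN l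
        have h2 : A l ∪ {z} = insert z (A l) := by
          rw [union_comm]; rfl
        rw [h2, rk_insert_of_not_mem_sp (fun h' => hzl ((hA.fl l).mem h'))]
        omega
    obtain ⟨l0, hl0⟩ : ∃ l, w ∈ A l := by
      apply hA.exists_mem
      have h1 := hc.rk_compl (by omega) (X := {w}) (by simp)
      have h2 : ({w} : Finset E)ᶜ = univ.erase w := by
        ext a; simp
      rw [h2] at h1
      rw [mem_sp_iff, insert_erase (mem_univ w)]
      exact h1.symm
    have hwj : w ∈ A j := hmem l0 hl0 ▸ hl0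
    have hcw : (univ.filter (fun l => w ∈ A l)).card = 1 := by
      rw [card_eq_one]
      refine ⟨j, ?_⟩
      ext l
      simp only [mem_filter, mem_univ, true_and, mem_singleton]
      exact ⟨fun h' => hmem l h', fun h' => h' ▸ hwj⟩
    by_cases hzj : z ∈ A j
    · -- `{z, w}` is crossed by one member only
      have hji := hone j hzj
      have h1 := hA.two_le_crossing hc (W := {z, w}) (by rw [card_pair (Ne.symm hwz)])
        (by rw [card_compl, card_pair (Ne.symm hwz)]; omega)
      have h2 : (univ.filter (fun l => ¬ A l ⊆ {z, w} ∧ ¬ A l ⊆ ({z, w} : Finset E)ᶜ)).card ≤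
          ({j} : Finset ι).card := by
        apply card_le_card
        intro l hl
        simp only [mem_filter, mem_univ, true_and] at hl
        obtain ⟨u, hu1, hu2⟩ := not_subset.1 hl.2
        have hu3 : u ∈ ({z, w} : Finset E) := by
          by_contra h'
          exact hu2 (mem_compl.2 h')
        rw [mem_singleton]
        rw [mem_insert, mem_singleton] at hu3
        rcases hu3 with rfl | rfl
        · rw [hone l hu1, hji]
        · exact hmem l hu1
      rw [card_singleton] at h2
      omega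
    · have h2 : A j ∪ {z} = insert z (A j) := by
        rw [union_comm]; rfl
      rw [h2, rk_insert_of_not_mem_sp (fun h' => hzj ((hA.fl j).mem h'))] at hcon hj
      have h3 := hT w j hcw hwj
      omega

end LC

variable {E : Type*} [DecidableEq E] [Fintype E] {N : RF E} {ι : Type*} [Fintype ι]
  {A : ι → Finset E} {z : E} {i : ι}

/-- (S1) a point in exactly one member, which has rank at least three -/
theorem good_of_leaf (hA : Fam N A) (hc : Conn3 N) (hN : Simple N) (h4 : 4 ≤ rk N univ)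
    (hnt : NoThin N A) (h0 : ∀ i, A i ≠ univ) (hz : z ∈ A i) (hz1 : ∀ j, z ∈ A j → j = i) :
    NoGuts N z ∧ GoodAt N A z := by
  have hone : (univ.filter (fun l => z ∈ A l)).card = 1 := by
    rw [card_eq_one]
    refine ⟨i, ?_⟩
    ext l
    simp only [mem_filter, mem_univ, true_and, mem_singleton]
    exact ⟨fun h' => hz1 l h', fun h' => h' ▸ hz⟩
  obtain ⟨h1, h2⟩ := LC.lemmaS1 hN hc hA h4 hone hz (hnt z i hz hz1) (by
    intro w j hw hwj
    exact hnt w j hwj fun l hl => card_le_one.1 hw.le l (mem_filter.2 ⟨mem_univ _, hl⟩) j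
      (mem_filter.2 ⟨mem_univ _, hwj⟩))
  refine ⟨h1, fun w j hw hwj hrj hu => h2 w hw j ?_ hwj hrj⟩
  rw [card_eq_one]
  refine ⟨j, ?_⟩
  ext l
  simp only [mem_filter, mem_univ, true_and, mem_singleton]
  exact ⟨fun h' => hu l h'.1 h'.2, fun h' => h' ▸ ⟨hwj, hrj⟩⟩

/-- LEMMA C: every element is in at least two members -/
theorem good_of_leafless (hA : Fam N A) (hc : Conn3 N) (hN : Simple N) (h4 : 4 ≤ rk N univ)
    (h0 : ∀ i, A i ≠ univ) (h2 : ∀ z i, z ∈ A i → ∃ j, j ≠ i ∧ z ∈ A j) :
    ∃ x, NoGuts N x ∧ GoodAt N A x := by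
  have hE : 4 ≤ Fintype.card E := by
    have h := rk_le_card (N := N) (X := univ)
    rw [card_univ] at h
    omega
  obtain ⟨y, hy⟩ := exists_noGuts (hc := hc) (hN := hN) (h4 := h4)
  obtain ⟨x, hx, hx2⟩ := LC.lemmaC hN hc hA h4 (by
    intro z
    obtain ⟨i, hi⟩ := hA.exists_mem (hc.mem_sp_erase hE z)
    obtain ⟨j, hj, hzj⟩ := h2 z i hi
    have h3 : 1 < (univ.filter (fun l => z ∈ A l)).card :=
      one_lt_card.2 ⟨j, mem_filter.2 ⟨mem_univ _, hzj⟩, i, mem_filter.2 ⟨mem_univ _, hi⟩, hj⟩
    omega) hy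
  refine ⟨x, hx, fun z i hz hzi hri hu => ?_⟩
  exfalso
  have h5 := hx2 z hz
  obtain ⟨a, ha, b, hb, hab⟩ := one_lt_card.1 (show 1 < _ from h5)
  rw [mem_filter] at ha hb
  exact hab ((hu a ha.2.1 ha.2.2).trans (hu b hb.2.1 hb.2.2).symm)

theorem exists_good (hA : Fam N A) (hc : Conn3 N) (hN : Simple N) (h4 : 4 ≤ rk N univ)
    (h0 : ∀ i, A i ≠ univ) (hnt : NoThin N A) : ∃ x, NoGuts N x ∧ GoodAt N A x := by
  by_cases h : ∃ z i, z ∈ A i ∧ ∀ j, z ∈ A j → j = i
  · obtain ⟨z, i, hz, hz1⟩ := h
    exact ⟨z, good_of_leaf hA hc hN h4 hnt h0 hz hz1⟩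
  · push Not at h
    refine good_of_leafless hA hc hN h4 h0 fun z i hz => ?_
    obtain ⟨j, hj, hne⟩ := h z i hz
    exact ⟨j, hne, hj⟩

end Ca3.Ab
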