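import Pool.Agent.Lib.MP_ca3eb1_co.AbVDefs
import Pool.Agent.Lib.MP_ca3eb1_co.Ck

/-! # Mason hyperplanes have at most four outside points -/

set_option linter.unusedSectionVars false

namespace Ca3.Ab

open Finset

namespace AbVCkAux

section

variable {E : Type*} [DecidableEq E] [Fintype E] {N : RF E}
  {ι : Type*} [Fintype ι] {A : ι → Finset E} {H L : Finset E} {y e : E}

/-- The lines through `y` which are not inside `H`. -/
noncomputable def lines (N : RF E) (H : Finset E) (y : E) : Finset (Finset E) :=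
  (univ \ H).image (fun e => cl N {y, e})

lemma cl_pair_eq (hN : Simple N) (hye : y ≠ e) (hL : IsFl N L) (hL2 : rk N L = 2)
    (hy : y ∈ L) (he : e ∈ L) : cl N {y, e} = L := by
  apply hL.cl_eq
  · intro z hz
    simp only [mem_insert, mem_singleton] at hz
    rcases hz with rfl | rfl
    · exact hy
    · exact he
  · rw [hL2, hN.rk_pair hye]

lemma line_inter (hN : Simple N) (hH : IsFl N H) (hy : y ∈ H) (hL : L ∈ lines N H y) :
    IsFl N L ∧ rk N L = 2 ∧ y ∈ L ∧ L \ H = L.erase y ∧ ∀ z ∈ L, z ∈ H → z = y := by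
  obtain ⟨e, he, rfl⟩ := mem_image.1 hL
  have heH : e ∉ H := (mem_sdiff.1 he).2
  have hye : y ≠ e := fun h => heH (h ▸ hy)
  have h2 : rk N (cl N {y, e}) = 2 := by rw [rk_cl, hN.rk_pair hye]
  have hyL : y ∈ cl N {y, e} := subset_cl (by simp)
  have heL : e ∈ cl N {y, e} := subset_cl (by simp)
  have h3 : ∀ z ∈ cl N {y, e}, z ∈ H → z = y := by
    intro z hz hzH
    by_contra hne
    have h4 := cl_pair_eq hN (Ne.symm hne) (isFl_cl (X := {y, e})) h2 hyL hz
    apply heH
    have h5 : cl N {y, z} ⊆ H := by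
      apply hH.cl_subset
      intro a ha
      simp only [mem_insert, mem_singleton] at ha
      rcases ha with rfl | rfl
      · exact hy
      · exact hzH
    exact h5 (h4 ▸ heL)
  refine ⟨isFl_cl, h2, hyL, ?_, h3⟩
  ext z
  rw [mem_sdiff, mem_erase]
  constructor
  · rintro ⟨h5, h6⟩
    exact ⟨fun h => h6 (h ▸ hy), h5⟩
  · rintro ⟨h5, h6⟩
    exact ⟨h6, fun h => h5 (h3 z h6 h)⟩

/-- counting: points outside `H` against members of the family on the lines through `y`. -/
lemma count_y (hN : Simple N) (hA : Fam N A) (hH : IsFl N H) (hy : y ∈ H) :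
    (univ \ H).card = (univ.filter (fun i => A i ∈ lines N H y)).card +
      (lines N H y).card := by
  classical
  have h1 : (univ \ H).card = ∑ L ∈ lines N H y,
      ((univ \ H).filter (fun e => cl N {y, e} = L)).card :=
    card_eq_sum_card_fiberwise (fun e he => mem_coe.2 (mem_image_of_mem _ he))
  have h2 : (univ.filter (fun i => A i ∈ lines N H y)).card = ∑ L ∈ lines N H y,
      ((univ.filter (fun i => A i ∈ lines N H y)).filter (fun i => A i = L)).card :=
    card_eq_sum_card_fiberwise (fun i hi => mem_coe.2 (mem_filter.1 hi).2)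
  rw [h1, h2, card_eq_sum_ones, ← sum_add_distrib]
  apply sum_congr rfl
  intro L hL
  obtain ⟨hLfl, hL2, hyL, hsd, hLH⟩ := line_inter hN hH hy hL
  have h3 : (univ \ H).filter (fun e => cl N {y, e} = L) = L \ H := by
    ext e
    rw [mem_filter, mem_sdiff, mem_sdiff]
    constructor
    · rintro ⟨⟨_, heH⟩, he⟩
      refine ⟨?_, heH⟩
      rw [← he]
      exact subset_cl (by simp)
    · rintro ⟨heL, heH⟩
      refine ⟨⟨mem_univ _, heH⟩, ?_⟩
      exact cl_pair_eq hN (fun h : y = e => heH (h ▸ hy)) hLfl hL2 hyL heL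
  have h4 : (univ.filter (fun i => A i ∈ lines N H y)).filter (fun i => A i = L) =
      univ.filter (fun i => A i = L) := by
    ext i
    rw [mem_filter, mem_filter, mem_filter]
    constructor
    · rintro ⟨_, h⟩
      exact ⟨mem_univ _, h⟩
    · rintro ⟨_, h⟩
      exact ⟨⟨mem_univ _, h ▸ hL⟩, h⟩
  rw [h3, h4, hsd, card_erase_of_mem hyL]
  have h5 := hA.line hN hLfl hL2
  have h6 : 0 < L.card := card_pos.2 ⟨y, hyL⟩
  omega

/-- the sum over `y ∈ H` -/
lemma count_all (hN : Simple N) (hA : Fam N A) (hH : IsFl N H)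
    (hr : rk N H + 1 = rk N univ) :
    ∑ y ∈ H, (univ.filter (fun i => A i ∈ lines N H y)).card + 1 ≤ (univ \ H).card := by
  classical
  have h1 : (H.biUnion (fun y => univ.filter (fun i => A i ∈ lines N H y))).card =
      ∑ y ∈ H, (univ.filter (fun i => A i ∈ lines N H y)).card := by
    apply card_biUnion
    intro y hy y' hy' hne
    show Disjoint (univ.filter (fun i => A i ∈ lines N H y))
      (univ.filter (fun i => A i ∈ lines N H y'))
    rw [disjoint_left]
    intro i hi hi'
    apply hne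
    have h2 := line_inter hN hH hy (mem_filter.1 hi).2
    have h3 := line_inter hN hH hy' (mem_filter.1 hi').2
    exact h3.2.2.2.2 y h2.2.2.1 hy
  have h2 : H.biUnion (fun y => univ.filter (fun i => A i ∈ lines N H y)) ⊆
      univ.filter (fun i => ¬ A i ⊆ H) := by
    intro i hi
    rw [mem_biUnion] at hi
    obtain ⟨y, hy, hi⟩ := hi
    have h3 := (mem_filter.1 hi).2
    rw [mem_filter]
    refine ⟨mem_univ _, fun h4 => ?_⟩
    obtain ⟨e, he, heq⟩ := mem_image.1 h3
    apply (mem_sdiff.1 he).2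
    apply h4
    rw [← heq]
    exact subset_cl (by simp)
  have h3 := card_le_card h2
  rw [h1] at h3
  have h4 := hA.not_in_flat hH
  rw [compl_eq_univ_sdiff] at h4
  omega

end

end AbVCkAux

open AbVCkAux

variable {K E : Type*} [Field K] [Fintype K] [DecidableEq E] [Fintype E] {N : RF E}
  {ι : Type*} [Fintype ι] {A : ι → Finset E} {i : ι}

namespace AbVCkAux

/-- rank at least four: at most four lines through `y` outside the member `A i` -/
lemma lines_le_four (hK4 : Fintype.card K = 4) (hq : KC K N) (hA : Fam N A)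
    (h4 : 4 ≤ rk N univ) (hi : rk N (A i) + 1 = rk N univ) {y : E} (hy : y ∈ A i) :
    (lines N (A i) y).card ≤ 4 := by
  have hN := hq.simple
  have hH := hA.fl i
  obtain ⟨d, w, hw⟩ := hq.rep y
  have hyy : y ∈ ({y} : Finset E) := mem_singleton_self y
  obtain ⟨R, -, hR⟩ := hw.exists_reps (Y := {y}) (T := univ) (R₀ := ∅) hyy
    (empty_subset _) (by simp) (by simp)
  obtain ⟨m, B, hB, hBH⟩ := hw.transfer_fin hN hyy isFl_univ (subset_univ _) hR
    (hA.mason.mono (empty_subset {y}) subset_rfl)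
  have hY1 : rk N {y} = 1 := hN.1 y
  have hyH : ({y} : Finset E) ⊆ A i := singleton_subset_iff.2 hy
  have hclH : cl N (A i ∪ {y}) = A i := by
    rw [union_eq_left.2 hyH]
    exact hH
  have h6 := hBH (A i) hH hyH (subset_univ _) (by omega) ⟨i, hclH⟩
  have hru := hw.rk_qc_univ hyy hR (subset_univ _)
  have hrt := hw.rk_tr hyy hR hH hyH (subset_univ _)
  have h7 := Ca3.Ck hK4 (Ca3.qc_simple hR) hB (by omega)
    (hw.isFl_tr hyy hR hH hyH (subset_univ _)) (by omega) h6
  refine le_trans ?_ h7
  have h5 : lines N (A i) y ⊆ (univ \ tr R (A i)).image (fun r : R => cl N {y, (r : E)}) := by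
    intro L hL
    obtain ⟨e, he, rfl⟩ := mem_image.1 hL
    have heH : e ∉ A i := (mem_sdiff.1 he).2
    have hye : y ≠ e := fun h => heH (h ▸ hy)
    have hey : w e ∉ Ca3.sp K w {y} := by
      rw [hw.mem_sp_iff hyy]
      intro h
      exact hye (hN.2 _ _ h).symm
    obtain ⟨r, hr1, hr2⟩ := hR.ex e (mem_univ _) hey
    have hry : w r ∉ Ca3.sp K w {y} := hR.not_mem r hr1
    rw [hw.mem_sp_iff hyy] at hry
    rw [hw.mem_sp_iff (mem_insert_of_mem hyy)] at hr2
    have hre : e ∈ sp N (insert r {y}) := mem_sp_insert_exchange hr2 hry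
    have hrH : r ∉ A i := by
      intro hrH
      apply heH
      apply hH.mem
      exact sp_mono (insert_subset hrH hyH) hre
    have hyr : y ≠ r := fun h => hrH (h ▸ hy)
    rw [mem_image]
    refine ⟨⟨r, hr1⟩, ?_, ?_⟩
    · rw [mem_sdiff]
      refine ⟨mem_univ _, ?_⟩
      intro h
      exact hrH (mem_filter.1 h).2
    · apply cl_pair_eq hN hyr isFl_cl
      · rw [rk_cl, hN.rk_pair hye]
      · exact subset_cl (by simp)
      · rw [mem_cl, pair_comm]
        exact hr2
  exact (card_le_card h5).trans card_image_le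

end AbVCkAux

theorem compl_le_four (hK4 : Fintype.card K = 4) (hq : KC K N)
    (hr : rk N univ ≤ 4 → Rep K N) (hA : Fam N A) (h3 : 3 ≤ rk N univ)
    (hi : rk N (A i) + 1 = rk N univ) : (A i)ᶜ.card ≤ 4 := by
  rw [compl_eq_univ_sdiff]
  rcases Nat.lt_or_ge 4 (rk N univ) with h5 | h5
  · by_contra hm
    have hN := hq.simple
    have hH := hA.fl i
    have hsum := count_all hN hA hH hi
    have hy1 : ∀ y ∈ A i, (univ \ A i).card - 4 ≤
        (univ.filter (fun j => A j ∈ lines N (A i) y)).card := by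
      intro y hy
      have h1 := count_y hN hA hH hy
      have h2 := lines_le_four hK4 hq hA (by omega) hi hy
      omega
    have hsum2 : (A i).card * ((univ \ A i).card - 4) ≤
        ∑ y ∈ A i, (univ.filter (fun j => A j ∈ lines N (A i) y)).card := by
      rw [← smul_eq_mul, ← sum_const]
      exact sum_le_sum hy1
    have hHcard := hA.rk_lt_card i
    obtain ⟨j, hj⟩ : ∃ j, (univ \ A i).card = 5 + j := ⟨(univ \ A i).card - 5, by omega⟩
    have hj4 : (univ \ A i).card - 4 = 1 + j := by omega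
    rw [hj4] at hsum2
    rw [hj] at hsum
    have h6 : 5 * (1 + j) ≤ (A i).card * (1 + j) := Nat.mul_le_mul_right _ (by omega)
    omega
  · obtain ⟨n, w, hw⟩ := hr h5
    have hNw : N = RF.ofVec K w := RF.ext' (fun Z => by rw [rk_ofVec, hw])
    have hH := hA.fl i
    have hm := hA.mason
    have hN := hq.simple
    rw [hNw] at h3 hi hH hm hN
    obtain ⟨m, B, hB, hex⟩ := (isMason_ofVec.1 hm).exists_fin
    obtain ⟨j, hj⟩ := hex i
    refine Ca3.Ck hK4 (simple_ofVec.1 hN) hB h3 (isFl_ofVec.1 hH) hi ⟨j, ?_⟩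
    rw [hj]
    exact isFl_ofVec.1 hH

end Ca3.Ab
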