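import Pool.Agent.Lib.MP_ca3eb1_co.AbVDefs
import Pool.Agent.Lib.MP_ca3eb1_co.AbReps2

/-! # The contraction `N / x` on representatives inside the induction -/

set_option linter.unusedSectionVars false

namespace Ca3.Ab

open Finset

variable {K E : Type*} [Field K] [DecidableEq E] [Fintype E] {N : RF E} {ι : Type*} [Fintype ι]
  {A : ι → Finset E} {R : Finset E} {x : E}

theorem conn3_qc (hc : Conn3 N) (hN : Simple N) (hx : NoGuts N x)
    (hR : IsReps N {x} univ R) : Conn3 (N.qc {x} R) := by
  by_contra hn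
  obtain ⟨V, V', h1, h2⟩ := exists_guts hc hN hR hn
  exact hx V V' h1 h2

/-- the simplification of `N / x` has at least four elements -/
theorem four_le_card_reps (hc : Conn3 N) (hN : Simple N) (h4 : 4 ≤ rk N univ)
    (hR : IsReps N {x} univ R) : 4 ≤ Fintype.card R := by
  classical
  rw [Fintype.card_coe]
  by_contra hlt
  have hcard : 4 ≤ Fintype.card E := by
    have := rk_le_card (N := N) (X := (univ : Finset E))
    rw [card_univ] at this
    omega
  have h1 := hR.rk_univ (subset_univ _)
  rw [hN.1 x] at h1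
  have h2 : rk (N.qc {x} R) univ ≤ R.card := by
    have := rk_le_card (N := N.qc {x} R) (X := univ)
    rwa [card_univ, Fintype.card_coe] at this
  obtain ⟨r, hr⟩ : R.Nonempty := by
    rw [← card_pos]
    omega
  set X : Finset E := univ.filter (fun e => e ≠ x ∧ e ∈ sp N {r, x}) with hX
  have hXr : rk N X ≤ 2 := by
    have h3 : sp N X ≤ sp N {r, x} := by
      rw [sp_le_iff]
      intro e he
      rw [hX, mem_filter] at he
      exact he.2.2
    exact (rk_le_of_sp_le h3).trans (rk_le_card.trans card_le_two)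
  have hXc : rk N Xᶜ ≤ 3 := by
    have h3 : sp N Xᶜ ≤ sp N (insert x (R.erase r)) := by
      rw [sp_le_iff]
      intro e he
      rw [mem_compl, hX, mem_filter, not_and] at he
      have he' := he (mem_univ e)
      rw [not_and_or, not_not] at he'
      rcases he' with he' | he'
      · rw [he']
        exact mem_sp (mem_insert_self _ _)
      · have hex : e ∉ sp N {x} := fun h => he' (sp_mono (by
          intro y hy
          rw [mem_singleton] at hy
          rw [hy]
          simp) h)
        obtain ⟨s, hs, -, h5⟩ := hR.exists_mem (mem_univ e) hex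
        have hsr : s ≠ r := by
          rintro rfl
          exact he' h5
        refine sp_mono ?_ h5
        intro y hy
        rw [mem_insert, mem_singleton] at hy
        rcases hy with rfl | rfl
        · exact mem_insert_of_mem (mem_erase.2 ⟨hsr, hs⟩)
        · exact mem_insert_self _ _
    refine (rk_le_of_sp_le h3).trans (rk_le_card.trans ((card_insert_le _ _).trans ?_))
    rw [card_erase_of_mem hr]
    omega
  rcases Nat.lt_or_ge X.card 3 with h3 | h3
  · have := hc.rk_compl hcard (X := X) (by omega)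
    omega
  · have h5 : 2 ≤ Xᶜ.card := by
      have hxr : x ∉ R := fun h => hR.not_mem x h (mem_sp (mem_singleton_self x))
      have h6 : insert x (R.erase r) ⊆ Xᶜ := by
        intro y hy
        rw [mem_compl, hX, mem_filter, not_and]
        rintro - ⟨hyx, hys⟩
        rcases mem_insert.1 hy with rfl | hy
        · exact hyx rfl
        · rw [mem_erase] at hy
          exact hy.1 (hR.uniq y hy.2 r hr hys)
      have h7 := card_le_card h6
      rw [card_insert_of_notMem (fun h => hxr (mem_of_mem_erase h)), card_erase_of_mem hr] at h7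
      omega
    have := hc X (by omega) h5
    omega

theorem noThin_qc (hN : Simple N) (hg : GoodAt N A x) (hR : IsReps N {x} univ R) :
    NoThin (N.qc {x} R) (fun i : {i : ι // rk N {x} + 2 ≤ rk N (A i ∪ {x})} =>
      tr R (cl N (A i ∪ {x}))) := by
  rintro z ⟨i, hi⟩ hz h1
  have hx1 := hN.1 x
  have hz' : (z : E) ∈ cl N (A i ∪ {x}) := mem_tr.1 hz
  have hzx : (z : E) ≠ x := by
    intro h
    apply hR.not_mem z z.2
    rw [h]
    exact mem_sp (mem_singleton_self x)
  have h2 := hg z i hzx hz' (by omega) (fun j hj hj3 => by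
    have h3 := h1 ⟨j, by omega⟩ (mem_tr.2 hj)
    exact congrArg Subtype.val h3)
  have h4 := hR.rk_tr (F := cl N (A i ∪ {x})) isFl_cl
    (subset_union_right.trans subset_cl) (subset_univ _)
  rw [rk_cl] at h4
  change 3 ≤ rk (N.qc {x} R) (tr R (cl N (A i ∪ {x})))
  omega

/-- a member spanning `N / x` -/
theorem spanning_of_qc (hR : IsReps N {x} univ R) {i : ι}
    (h : tr R (cl N (A i ∪ {x})) = univ) : cl N (A i ∪ {x}) = univ := by
  refine hR.tr_inj isFl_cl (subset_union_right.trans subset_cl) (subset_univ _) isFl_univ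
    (subset_univ _) (subset_univ _) ?_
  rw [h]
  ext r
  simp [mem_tr]

/-- a family of pieces of the contraction `N / d` gives `Pieces N A d` -/
theorem pieces_of_qc {d : E} (hN : Simple N) (hR : IsReps N {d} univ R)
    (h : ∀ i j : {i : ι // rk N {d} + 2 ≤ rk N (A i ∪ {d})},
      tr R (cl N (A i ∪ {d})) ≠ univ → tr R (cl N (A j ∪ {d})) ≠ univ →
      (3 ≤ rk (N.qc {d} R) (tr R (cl N (A i ∪ {d}))) ∨
        ∃ i' : {i : ι // rk N {d} + 2 ≤ rk N (A i ∪ {d})}, i' ≠ i ∧
          tr R (cl N (A i' ∪ {d})) = tr R (cl N (A i ∪ {d}))) →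
      (tr R (cl N (A i ∪ {d})) ∩ tr R (cl N (A j ∪ {d}))).Nonempty →
      tr R (cl N (A j ∪ {d})) = tr R (cl N (A i ∪ {d}))) : Pieces N A d := by
  intro i j u hi hj hi3 hj3 hor hud hui huj
  have hd1 := hN.1 d
  have hfl : ∀ k, {d} ⊆ cl N (A k ∪ {d}) := fun k => subset_union_right.trans subset_cl
  have h1 : u ∉ sp N {d} := fun h' => hud (hN.2 u d h')
  obtain ⟨r, hr, h2, -⟩ := hR.exists_mem (mem_univ u) h1
  have hrk : ∀ k, u ∈ cl N (A k ∪ {d}) → r ∈ cl N (A k ∪ {d}) := by
    intro k hk
    refine isFl_cl.mem (sp_mono ?_ h2)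
    rw [insert_subset_iff]
    exact ⟨hk, hfl k⟩
  have h3 := h ⟨i, by omega⟩ ⟨j, by omega⟩ (fun h' => hi (spanning_of_qc hR h'))
    (fun h' => hj (spanning_of_qc hR h')) ?_
    ⟨⟨r, hr⟩, mem_inter.2 ⟨mem_tr.2 (hrk i hui), mem_tr.2 (hrk j huj)⟩⟩
  · exact hR.tr_inj isFl_cl (hfl j) (subset_univ _) isFl_cl (hfl i) (subset_univ _) h3
  · rcases hor with hor | ⟨i', hi', he⟩
    · left
      have h4 := hR.rk_tr (F := cl N (A i ∪ {d})) isFl_cl (hfl i) (subset_univ _)
      rw [rk_cl] at h4
      change 3 ≤ rk (N.qc {d} R) (tr R (cl N (A i ∪ {d})))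
      omega
    · right
      have h5 : rk N (A i' ∪ {d}) = rk N (A i ∪ {d}) := by rw [← rk_cl, he, rk_cl]
      refine ⟨⟨i', by omega⟩, fun h' => hi' (congrArg Subtype.val h'), ?_⟩
      change tr R (cl N (A i' ∪ {d})) = tr R (cl N (A i ∪ {d}))
      rw [he]

end Ca3.Ab
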