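import Pool.Agent.Lib.MP_ca3eb1_co.AbReps2

/-! # Theorem V+: definitions

`NoThin N A`: no thin leaf.  A thin leaf is an element in exactly one member (with multiplicity)
of rank two.  `NoGuts N x`: `x` is in the guts of no vertical 3-separation, so that the
simplification of `N / x` is 3-connected.  `GoodAt N A x`: the contraction `N / x` has no thin
leaf.  `Pieces N A d`: the structure of `N / d` when some member spans `N / d`. -/

set_option linter.unusedSectionVars false

namespace Ca3.Ab

open Finset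

section defs

variable {E : Type*} [DecidableEq E] [Fintype E] {ι : Type*}

/-- no thin leaf: an element in exactly one member is in a member of rank at least three -/
def NoThin (N : RF E) (A : ι → Finset E) : Prop :=
  ∀ z i, z ∈ A i → (∀ j, z ∈ A j → j = i) → 3 ≤ rk N (A i)

/-- `x` is in the guts of no vertical 3-separation -/
def NoGuts (N : RF E) (x : E) : Prop := ∀ V V', Guts N V V' → x ∉ V ∩ V'

/-- the contraction `N / x` has no thin leaf -/
def GoodAt (N : RF E) (A : ι → Finset E) (x : E) : Prop :=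
  ∀ z i, z ≠ x → z ∈ cl N (A i ∪ {x}) → 3 ≤ rk N (A i ∪ {x}) →
    (∀ j, z ∈ cl N (A j ∪ {x}) → 3 ≤ rk N (A j ∪ {x}) → j = i) → 4 ≤ rk N (A i ∪ {x})

/-- Two members `i`, `j` (of the contraction `N / d`, not spanning) which meet in a point of
`N / d` have the same image if the image of `i` has rank at least three or multiplicity at
least two. -/
def Pieces (N : RF E) (A : ι → Finset E) (d : E) : Prop :=
  ∀ i j u, cl N (A i ∪ {d}) ≠ univ → cl N (A j ∪ {d}) ≠ univ →
    3 ≤ rk N (A i ∪ {d}) → 3 ≤ rk N (A j ∪ {d}) →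
    (4 ≤ rk N (A i ∪ {d}) ∨ ∃ i', i' ≠ i ∧ cl N (A i' ∪ {d}) = cl N (A i ∪ {d})) →
    u ≠ d → u ∈ cl N (A i ∪ {d}) → u ∈ cl N (A j ∪ {d}) →
    cl N (A j ∪ {d}) = cl N (A i ∪ {d})

end defs

end Ca3.Ab
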