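import Pool.Agent.Lib.MP_ca3eb1_co.AbVPieces
import Pool.Agent.Lib.MP_ca3eb1_co.AbVCk

/-! # Step 1, (F1) in rank at least five -/

set_option linter.unusedSectionVars false

namespace Ca3.Ab

open Finset

variable {K E : Type*} [Field K] [Fintype K] [DecidableEq E] [Fintype E] {N : RF E}
  {ι : Type*} [Fintype ι] {A : ι → Finset E} {i j m : ι} {H X : Finset E} {x : E}

theorem cl_eq_univ (h : rk N univ ≤ rk N X) : cl N X = univ :=
  isFl_univ.cl_eq (subset_univ _) h

theorem rk_of_cl_eq_univ (h : cl N X = univ) : rk N X = rk N univ := by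
  rw [← rk_cl, h]

/-- a hyperplane and a point outside span -/
theorem cl_insert_hyp (hH : IsFl N H) (hr : rk N H + 1 = rk N univ) (hx : x ∉ H) :
    cl N (H ∪ {x}) = univ := by
  apply cl_eq_univ
  rw [union_comm, ← insert_eq, rk_insert_of_not_mem_sp (fun h => hx (hH.mem h))]
  omega

theorem rk_union_singleton (hH : IsFl N H) (hx : x ∉ H) : rk N (H ∪ {x}) = rk N H + 1 := by
  rw [union_comm, ← insert_eq, rk_insert_of_not_mem_sp (fun h => hx (hH.mem h))]

/-- a member which leaves a flat does so in at least two points -/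
theorem Fam.exists_second (hA : Fam N A) (hH : IsFl N H) (hx : x ∈ A m) (hxH : x ∉ H) :
    ∃ y ∈ A m, y ≠ x ∧ y ∉ H := by
  by_contra hcon
  push Not at hcon
  apply hxH
  apply hH.mem
  apply sp_mono _ (hA.cyclic hx)
  intro y hy
  rw [mem_erase] at hy
  exact hcon y hy.2 hy.1

/-- the number of members not inside a hyperplane -/
theorem Fam.card_not_in (hA : Fam N A) (hH : IsFl N H) (hr : rk N H + 1 = rk N univ) :
    (univ.filter (fun i => ¬ A i ⊆ H)).card + 1 = Hᶜ.card := by
  have := hA.not_in_flat hH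
  omega

/-- two further members through `x` -/
theorem five_key (hK4 : Fintype.card K = 4) (hq : KC K N) (hA : Fam N A) (hc : Conn3 N)
    (h5 : 5 ≤ rk N univ) (hr : rk N (A i) + 1 = rk N univ)
    (hj : ¬ A j ⊆ A i) (hj3 : 3 ≤ rk N (A j)) (hxi : x ∉ A i) (hxj : x ∉ A j) :
    ∃ b c, b ≠ c ∧ x ∈ A b ∧ x ∈ A c ∧ A b ∩ cl N (A j ∪ {x}) = {x} ∧
      A c ⊆ cl N (A j ∪ {x}) := by
  classical
  set Z := cl N (A j ∪ {x}) with hZ
  have hZf : IsFl N Z := isFl_cl
  have hcard : 4 ≤ Fintype.card E := by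
    have h1 : rk N (univ : Finset E) ≤ (univ : Finset E).card := rk_le_card
    rw [card_univ] at h1
    omega
  have hi1 : cl N (A i ∪ {x}) = univ := cl_insert_hyp (hA.fl i) hr hxi
  have hP : Pieces N A x := pieces hK4 hq hA (by omega) hi1
  have hu : ∀ m, cl N (A m ∪ {x}) = univ → m = i := fun m hm =>
    spanning_unique hK4 hq hA h5 hm hi1
  have hji : j ≠ i := by
    rintro rfl
    exact hj (Subset.refl _)
  have hZu : Z ≠ univ := fun h => hji (hu j h)
  have hrZ : rk N (A j ∪ {x}) = rk N (A j) + 1 := rk_union_singleton (hA.fl j) hxj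
  have hjZ : A j ⊆ Z := subset_union_left.trans subset_cl
  have hxZ : x ∈ Z := subset_cl (mem_union_right _ (mem_singleton_self x))
  -- the dichotomy
  have key : ∀ m, m ≠ i → ∀ u, u ∈ A m → u ∈ Z → u ≠ x → A m ⊆ Z := by
    intro m hm u hum huZ hux
    have hmu : cl N (A m ∪ {x}) ≠ univ := fun h => hm (hu m h)
    have hm2 := hA.two_le_rk hq.simple m
    by_cases hbig : 3 ≤ rk N (A m ∪ {x})
    · have h1 := hP j m u hZu hmu (by omega) hbig (Or.inl (by omega)) hux huZ
        (subset_cl (mem_union_left _ hum))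
      rw [hZ, ← h1]
      exact subset_union_left.trans subset_cl
    · have hxm : x ∈ A m := by
        by_contra hxm
        have := rk_union_singleton (hA.fl m) hxm
        omega
      have h1 : rk N (A m) ≤ 2 := by
        have : rk N (A m) ≤ rk N (A m ∪ {x}) := rk_mono subset_union_left
        omega
      have h2 : cl N {u, x} = A m := by
        apply (hA.fl m).cl_eq
        · intro y hy
          rw [mem_insert, mem_singleton] at hy
          rcases hy with rfl | rfl
          · exact hum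
          · exact hxm
        · rw [hq.simple.rk_pair hux]
          exact h1
      rw [← h2]
      apply hZf.cl_subset
      intro y hy
      rw [mem_insert, mem_singleton] at hy
      rcases hy with rfl | rfl
      · exact huZ
      · exact hxZ
  have hrZu : rk N Z < rk N univ := hZf.rk_lt_of_ssubset ((ssubset_univ_iff).2 hZu)
  have hZc : 3 ≤ Zᶜ.card := hc.three_le hcard hrZu
  have hZcard : 4 ≤ Z.card := by
    have h1 : rk N Z ≤ Z.card := rk_le_card
    have h2 : rk N Z = rk N (A j ∪ {x}) := rk_cl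
    omega
  -- a member different from `i` among two
  have pick : ∀ S : Finset ι, 2 ≤ S.card → ∃ m ∈ S, m ≠ i := by
    intro S hS
    by_contra hcon
    push Not at hcon
    have : S ⊆ {i} := fun m hm => mem_singleton.2 (hcon m hm)
    have := card_le_card this
    rw [card_singleton] at this
    omega
  obtain ⟨b, hb, hbi⟩ := pick _ (hA.two_le_crossing hc (W := Z) (by omega) (by omega))
  have hW : (Z.erase x).card + 1 = Z.card := card_erase_add_one hxZ
  have hWc : Zᶜ ⊆ (Z.erase x)ᶜ := compl_subset_compl.2 (erase_subset _ _)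
  have hWc' := card_le_card hWc
  obtain ⟨c, hc', hci⟩ := pick _ (hA.two_le_crossing hc (W := Z.erase x) (by omega) (by omega))
  simp only [mem_filter, mem_univ, true_and] at hb hc'
  have hbx : ∀ u ∈ A b, u ∈ Z → u = x := by
    intro u hu1 hu2
    by_contra hne
    exact hb.1 (key b hbi u hu1 hu2 hne)
  obtain ⟨u, hub, huZ⟩ : ∃ u ∈ A b, u ∈ Z := by
    by_contra hcon
    push Not at hcon
    exact hb.2 fun u hu => mem_compl.2 (hcon u hu)
  have hux := hbx u hub huZ
  subst hux
  obtain ⟨v, hvc, hv⟩ : ∃ v ∈ A c, v ∈ Z.erase u := by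
    by_contra hcon
    push Not at hcon
    exact hc'.2 fun u hu => mem_compl.2 (hcon u hu)
  rw [mem_erase] at hv
  have hcZ : A c ⊆ Z := key c hci v hvc hv.2 hv.1
  refine ⟨b, c, ?_, hub, ?_, ?_, hcZ⟩
  · rintro rfl
    exact hb.1 hcZ
  · by_contra huc
    exact hc'.1 fun w hw => mem_erase.2 ⟨fun h => huc (h ▸ hw), hcZ hw⟩
  · ext w
    rw [mem_inter, mem_singleton]
    constructor
    · rintro ⟨h1, h2⟩
      exact hbx w h1 h2
    · rintro rfl
      exact ⟨hub, huZ⟩

/-- (F1), rank at least five -/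
theorem step_five_one (hK4 : Fintype.card K = 4) (hq : KC K N) (hA : Fam N A) (hc : Conn3 N)
    (h5 : 5 ≤ rk N univ) (hr : rk N (A i) + 1 = rk N univ)
    (hj : ¬ A j ⊆ A i) (hj3 : 3 ≤ rk N (A j)) : (A i)ᶜ ⊆ A j := by
  classical
  intro x hxi
  rw [mem_compl] at hxi
  by_contra hxj
  obtain ⟨b, c, hbc, hxb, hxc, hb, hcZ⟩ := five_key hK4 hq hA hc h5 hr hj hj3 hxi hxj
  have hcard := hA.card_not_in (hA.fl i) hr
  have h4 := compl_le_four hK4 hq (fun h => absurd h (by omega)) hA (by omega) hr
  have hnot : ∀ m y, y ∈ A m → y ∉ A i → m ∈ univ.filter (fun m => ¬ A m ⊆ A i) := by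
    intro m y h1 h2
    rw [mem_filter]
    exact ⟨mem_univ _, fun h => h2 (h h1)⟩
  have hjb : j ≠ b := by
    rintro rfl
    exact hxj hxb
  have hjc : j ≠ c := by
    rintro rfl
    exact hxj hxc
  have hsub : ({j, b, c} : Finset ι) ⊆ univ.filter (fun m => ¬ A m ⊆ A i) := by
    intro m hm
    simp only [mem_insert, mem_singleton] at hm
    rcases hm with rfl | rfl | rfl
    · rw [mem_filter]
      exact ⟨mem_univ _, hj⟩
    · exact hnot _ x hxb hxi
    · exact hnot _ x hxc hxi
  have h3 : ({j, b, c} : Finset ι).card = 3 := card_eq_three.2 ⟨j, b, c, hjb, hjc, hbc, rfl⟩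
  have heq := eq_of_subset_of_card_le hsub (by omega)
  obtain ⟨y, hyb, hyx, hyi⟩ := hA.exists_second (hA.fl i) hxb hxi
  have hyZ : y ∉ cl N (A j ∪ {x}) := by
    intro h
    have : y ∈ A b ∩ cl N (A j ∪ {x}) := mem_inter.2 ⟨hyb, h⟩
    rw [hb, mem_singleton] at this
    exact hyx this
  have hyj : y ∉ A j := fun h => hyZ (subset_cl (mem_union_left _ h))
  obtain ⟨b', c', hbc', hyb', hyc', -, -⟩ := five_key hK4 hq hA hc h5 hr hj hj3 hyi hyj
  have hm1 := hnot b' y hyb' hyi
  have hm2 := hnot c' y hyc' hyi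
  rw [← heq] at hm1 hm2
  simp only [mem_insert, mem_singleton] at hm1 hm2
  have hyc : y ∈ A c := by
    rcases hm1 with rfl | rfl | rfl
    · exact absurd hyb' hyj
    · rcases hm2 with rfl | rfl | rfl
      · exact absurd hyc' hyj
      · exact absurd rfl hbc'
      · exact hyc'
    · exact hyb'
  exact hyZ (hcZ hyc)

end Ca3.Ab
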