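import Pool.Agent.Lib.MP_ca3eb1_co.AbVFiveOne

/-! # Step 1, (F1) in rank four -/

set_option linter.unusedSectionVars false

namespace Ca3.Ab

open Finset

variable {K E : Type*} [Field K] [Fintype K] [DecidableEq E] [Fintype E] {N : RF E}
  {ι : Type*} [Fintype ι] {A : ι → Finset E} {i j m : ι} {H : Finset E}

theorem subset_of_two_points (hN : Simple N) {L F : Finset E} (hL : IsFl N L) (hr : rk N L = 2)
    (hF : IsFl N F) {x y : E} (hxy : x ≠ y) (hx : x ∈ L) (hy : y ∈ L) (hx' : x ∈ F)
    (hy' : y ∈ F) : L ⊆ F := by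
  have h1 : ({x, y} : Finset E) ⊆ L := insert_subset hx (singleton_subset_iff.2 hy)
  have h2 : ({x, y} : Finset E) ⊆ F := insert_subset hx' (singleton_subset_iff.2 hy')
  rw [← hL.cl_eq h1 (by rw [hr, hN.rk_pair hxy])]
  exact hF.cl_subset h2

/-- (F1), rank four -/
theorem step_four_one (hK4 : Fintype.card K = 4) (hq : KC K N) (hrep : Rep K N) (hA : Fam N A)
    (hc : Conn3 N) (h4 : rk N univ = 4) (h0 : ∀ i, A i ≠ univ) (hnt : NoThin N A)
    (hr : rk N (A i) = 3) (hj : ¬ A j ⊆ A i) (hj3 : rk N (A j) = 3) : (A i)ᶜ ⊆ A j := by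
  classical
  intro x hxi
  rw [mem_compl] at hxi
  by_contra hxj
  have hN := hq.simple
  have hcard : 4 ≤ Fintype.card E := by
    have h1 : rk N (univ : Finset E) ≤ (univ : Finset E).card := rk_le_card
    rw [card_univ] at h1
    omega
  have hij : i ≠ j := by
    rintro rfl
    exact hj (Subset.refl _)
  have hne : A i ≠ A j := fun h => hj h.symm.subset
  have hi' : ¬ A i ⊆ A j := fun h => hne ((hA.fl i).eq_of_subset_of_rk_le h (by omega))
  have hrk : ∀ m, rk N (A m) = 2 ∨ rk N (A m) = 3 := by
    intro m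
    have h1 := hA.two_le_rk hN m
    have h2 := (hA.fl m).rk_lt_of_ssubset ((ssubset_univ_iff).2 (h0 m))
    omega
  -- lines pass through every point outside, planes through none
  have hno : ∀ y, y ∉ A i → y ∉ A j → ∀ m, rk N (A m ∪ {y}) ≠ 3 := fun y hyi hyj =>
    r4_spanning hK4 hq hA h4 hij (cl_insert_hyp (hA.fl i) (by omega) hyi)
      (cl_insert_hyp (hA.fl j) (by omega) hyj)
  have hline : ∀ y, y ∉ A i → y ∉ A j → ∀ m, rk N (A m) = 2 → y ∈ A m := by
    intro y hyi hyj m hm
    by_contra hym
    have := rk_union_singleton (hA.fl m) hym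
    exact hno y hyi hyj m (by omega)
  have hplane : ∀ y, y ∉ A i → y ∉ A j → ∀ m, y ∈ A m → rk N (A m) = 2 := by
    intro y hyi hyj m hm
    rcases hrk m with h | h
    · exact h
    · exfalso
      apply hno y hyi hyj m
      rw [union_eq_left.2 (singleton_subset_iff.2 hm), h]
  have hthree : ∀ m, rk N (A m) = 3 → A m = A i ∨ A m = A j := fun m hm =>
    r4_three_planes hK4 hN hrep hA h4 hr hj3 hm hne
  have htwo := r4_two_planes hK4 hN hrep hA h4 hr hj3 hne
  -- the classes of members
  set T := univ.filter (fun m => rk N (A m) = 2) with hT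
  set PH := univ.filter (fun m => A m = A i) with hPH
  set PG := univ.filter (fun m => A m = A j) with hPG
  have hiPH : i ∈ PH := by simp [hPH]
  have hjPG : j ∈ PG := by simp [hPG]
  have hPH1 : 1 ≤ PH.card := card_pos.2 ⟨i, hiPH⟩
  have hPG1 : 1 ≤ PG.card := card_pos.2 ⟨j, hjPG⟩
  have hdTG : Disjoint T PG := by
    rw [disjoint_left]
    intro m h1 h2
    rw [hT, mem_filter] at h1
    rw [hPG, mem_filter] at h2
    rw [h2.2] at h1
    omega
  have hdTH : Disjoint T PH := by
    rw [disjoint_left]
    intro m h1 h2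
    rw [hT, mem_filter] at h1
    rw [hPH, mem_filter] at h2
    rw [h2.2] at h1
    omega
  have hnotH : univ.filter (fun m => ¬ A m ⊆ A i) = T ∪ PG := by
    ext m
    simp only [mem_filter, mem_univ, true_and, mem_union, hT, hPG]
    constructor
    · intro hm
      rcases hrk m with h | h
      · exact Or.inl h
      · rcases hthree m h with h' | h'
        · exact absurd h'.subset hm
        · exact Or.inr h'
    · rintro (h | h) hsub
      · exact hxi (hsub (hline x hxi hxj m h))
      · rw [h] at hsub
        exact hj hsub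
  have hnotG : univ.filter (fun m => ¬ A m ⊆ A j) = T ∪ PH := by
    ext m
    simp only [mem_filter, mem_univ, true_and, mem_union, hT, hPH]
    constructor
    · intro hm
      rcases hrk m with h | h
      · exact Or.inl h
      · rcases hthree m h with h' | h'
        · exact Or.inr h'
        · exact absurd h'.subset hm
    · rintro (h | h) hsub
      · exact hxj (hsub (hline x hxi hxj m h))
      · rw [h] at hsub
        exact hi' hsub
  have c1 := hA.card_not_in (hA.fl i) (by omega)
  have c2 := hA.card_not_in (hA.fl j) (by omega)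
  rw [hnotH, card_union_of_disjoint hdTG] at c1
  rw [hnotG, card_union_of_disjoint hdTH] at c2
  have c3 := compl_le_four hK4 hq (fun _ => hrep) hA (by omega) (i := i) (by omega)
  have c4 := compl_le_four hK4 hq (fun _ => hrep) hA (by omega) (i := j) (by omega)
  have hinH : univ.filter (fun m => A m ⊆ A i) = PH := by
    ext m
    simp only [mem_filter, mem_univ, true_and, hPH]
    constructor
    · intro hm
      rcases hrk m with h | h
      · exact absurd (hm (hline x hxi hxj m h)) hxi
      · rcases hthree m h with h' | h'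
        · exact h'
        · rw [h'] at hm
          exact absurd hm hj
    · intro h
      exact h.subset
  have hinG : univ.filter (fun m => A m ⊆ A j) = PG := by
    ext m
    simp only [mem_filter, mem_univ, true_and, hPG]
    constructor
    · intro hm
      rcases hrk m with h | h
      · exact absurd (hm (hline x hxi hxj m h)) hxj
      · rcases hthree m h with h' | h'
        · rw [h'] at hm
          exact absurd hm hi'
        · exact h'
    · intro h
      exact h.subset
  have hinHG : univ.filter (fun m => A m ⊆ A i ∩ A j) = ∅ := by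
    rw [filter_eq_empty_iff]
    intro m _ hm
    have h1 := hm.trans inter_subset_left
    have h2 := hm.trans inter_subset_right
    rcases hrk m with h | h
    · exact hxi (h1 (hline x hxi hxj m h))
    · rcases hthree m h with h' | h'
      · rw [h'] at h2
        exact hi' h2
      · rw [h'] at h1
        exact hj h1
  have c5 := hA.cnt_eq (hA.fl i)
  have c6 := hA.cnt_eq (hA.fl j)
  have c7 := hA.cnt_eq ((hA.fl i).inter (hA.fl j))
  unfold cnt at c5 c6 c7
  rw [hinH] at c5
  rw [hinG] at c6
  rw [hinHG, card_empty, htwo] at c7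
  -- two lines through `x`
  obtain ⟨m, hm⟩ := hA.exists_mem (hc.mem_sp_erase hcard x)
  have hm2 := hplane x hxi hxj m hm
  obtain ⟨m', hm', hmm⟩ : ∃ m', x ∈ A m' ∧ m' ≠ m := by
    by_contra hcon
    push Not at hcon
    have := hnt x m hm hcon
    omega
  have hm2' := hplane x hxi hxj m' hm'
  have hTsub : ({m', m} : Finset ι) ⊆ T := by
    intro n hn
    rw [mem_insert, mem_singleton] at hn
    rw [hT, mem_filter]
    rcases hn with rfl | rfl
    · exact ⟨mem_univ _, hm2'⟩
    · exact ⟨mem_univ _, hm2⟩
  have c8 := card_le_card hTsub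
  rw [card_pair hmm] at c8
  have c9 := card_compl_add_card (A i)
  have hcup := card_union_add_card_inter (A i) (A j)
  have c10 := card_compl_add_card (A i ∪ A j)
  have hxc : x ∈ (A i ∪ A j)ᶜ := by
    rw [mem_compl, mem_union]
    push Not
    exact ⟨hxi, hxj⟩
  have hcc : (A i ∪ A j)ᶜ.card = 2 := by omega
  obtain ⟨z, hz, hzx⟩ := exists_mem_ne (by omega : 1 < (A i ∪ A j)ᶜ.card) x
  rw [mem_compl, mem_union] at hz
  push Not at hz
  have hzm := hline z hz.1 hz.2 m hm2
  have hzm' := hline z hz.1 hz.2 m' hm2'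
  have hmeq : A m' = A m := by
    apply subset_antisymm
    · exact subset_of_two_points hN (hA.fl m') hm2' (hA.fl m) hzx hzm' hm' hzm hm
    · exact subset_of_two_points hN (hA.fl m) hm2 (hA.fl m') hzx hzm hm hzm' hm'
  have c11 := hA.line hN (hA.fl m) hm2
  have hsub2 : ({m', m} : Finset ι) ⊆ univ.filter (fun n => A n = A m) := by
    intro n hn
    rw [mem_insert, mem_singleton] at hn
    rw [mem_filter]
    rcases hn with rfl | rfl
    · exact ⟨mem_univ _, hmeq⟩
    · exact ⟨mem_univ _, rfl⟩
  have c12 := card_le_card hsub2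
  rw [card_pair hmm] at c12
  have hcompl : ∀ y, y ∉ A i → y ∉ A j → y = x ∨ y = z := by
    intro y hyi hyj
    by_contra hcon
    push Not at hcon
    have h1 : ({x, z, y} : Finset E) ⊆ (A i ∪ A j)ᶜ := by
      intro w hw
      simp only [mem_insert, mem_singleton] at hw
      rw [mem_compl, mem_union]
      push Not
      rcases hw with rfl | rfl | rfl
      · exact ⟨hxi, hxj⟩
      · exact hz
      · exact ⟨hyi, hyj⟩
    have h2 := card_le_card h1
    rw [card_eq_three.2 ⟨x, z, y, Ne.symm hzx, Ne.symm hcon.1, Ne.symm hcon.2, rfl⟩] at h2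
    omega
  -- a point of the line in `A i`, not in `A j`
  have hnoti : ∀ {y w}, y ∈ A m → w ∈ A m → y ∈ A i → w ∈ A i → y = w := by
    intro y w hy hw hyi hwi
    by_contra hne'
    exact hxi (subset_of_two_points hN (hA.fl m) hm2 (hA.fl i) hne' hy hw hyi hwi hm)
  have hnotj : ∀ {y w}, y ∈ A m → w ∈ A m → y ∈ A j → w ∈ A j → y = w := by
    intro y w hy hw hyi hwi
    by_contra hne'
    exact hxj (subset_of_two_points hN (hA.fl m) hm2 (hA.fl j) hne' hy hw hyi hwi hm)
  have hcA : 4 ≤ (A m).card := by omega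
  obtain ⟨a, b, hab, ham, hbm, hax, haz, hbx, hbz⟩ : ∃ a b, a ≠ b ∧ a ∈ A m ∧ b ∈ A m ∧
      a ≠ x ∧ a ≠ z ∧ b ≠ x ∧ b ≠ z := by
    have h1 : 1 < (((A m).erase x).erase z).card := by
      rw [card_erase_of_mem (mem_erase.2 ⟨hzx, hzm⟩), card_erase_of_mem hm]
      omega
    obtain ⟨a, ha, b, hb, hab⟩ := one_lt_card.1 h1
    rw [mem_erase, mem_erase] at ha hb
    exact ⟨a, b, hab, ha.2.2, hb.2.2, ha.2.1, ha.1, hb.2.1, hb.1⟩
  have hor : ∀ y, y ≠ x → y ≠ z → y ∈ A i ∨ y ∈ A j := by
    intro y h1 h2
    by_contra hcon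
    push Not at hcon
    rcases hcompl y hcon.1 hcon.2 with h | h
    · exact h1 h
    · exact h2 h
  obtain ⟨a, hami, haim, haj⟩ : ∃ a, a ∈ A m ∧ a ∈ A i ∧ a ∉ A j := by
    by_cases ha : a ∈ A i
    · refine ⟨a, ham, ha, fun haj => ?_⟩
      rcases hor b hbx hbz with h | h
      · exact hab (hnoti ham hbm ha h)
      · exact hab (hnotj ham hbm haj h)
    · have haj : a ∈ A j := (hor a hax haz).resolve_left ha
      have hbi : b ∈ A i := by
        rcases hor b hbx hbz with h | h
        · exact h
        · exact absurd (hnotj ham hbm haj h) hab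
      refine ⟨b, hbm, hbi, fun hbj => ?_⟩
      exact hab (hnotj ham hbm haj hbj)
  have hHG : 1 < (A i \ A j).card := by
    have h1 := card_sdiff_add_card_inter (A i) (A j)
    omega
  obtain ⟨a', ha', haa⟩ := exists_mem_ne hHG a
  rw [mem_sdiff] at ha'
  have ham' : a' ∉ A m := fun h => haa (hnoti h hami ha'.1 haim)
  have hspan := cl_insert_hyp (hA.fl j) (by omega) ha'.2
  have hP : Pieces N A a' := pieces hK4 hq hA (by omega) hspan
  have e1 := rk_union_singleton (hA.fl m) ham'
  have e2 : A i ∪ {a'} = A i := union_eq_left.2 (singleton_subset_iff.2 ha'.1)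
  have key := hP m i a (fun h => by
      have := rk_of_cl_eq_univ h
      omega) (by rw [e2, hA.fl i]; exact h0 i) (by omega) (by rw [e2]; omega)
    (Or.inr ⟨m', hmm, by rw [hmeq]⟩) (Ne.symm haa) (subset_cl (mem_union_left _ hami))
    (subset_cl (mem_union_left _ haim))
  rw [e2, hA.fl i] at key
  apply hxi
  rw [key]
  exact subset_cl (mem_union_left _ hm)

end Ca3.Ab
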