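import Pool.Agent.Lib.MP_ca3eb1_co.AbStep1F3
import Pool.Agent.Lib.MP_ca3eb1_co.AbVDefs
import Pool.Agent.Lib.MP_ca3eb1_co.AbReps2

/-! # Step 1, (F3): not all members outside a Mason hyperplane are lines -/

set_option linter.unusedSectionVars false

namespace Ca3.Ab

open Finset

variable {E : Type*} [DecidableEq E] [Fintype E] {N : RF E}
  {ι : Type*} [Fintype ι] {A : ι → Finset E} {H : Finset E}

/-- (F3) all members not inside `H` are lines -/
theorem step_lines (hN : Simple N) (hA : Fam N A) (hc : Conn3 N) (hcard : 4 ≤ Fintype.card E)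
    (h3 : 3 ≤ rk N univ) (hH : IsFl N H) (hr : rk N H + 1 = rk N univ) (hD : Hᶜ.card ≤ 4)
    (hnt : NoThin N A) (hl : ∀ j, ¬ A j ⊆ H → rk N (A j) ≤ 2) : False := by
  have hD3 : 3 ≤ Hᶜ.card := by
    by_contra h
    have h1 := hc.rk_compl hcard (X := Hᶜ) (by omega)
    rw [compl_compl] at h1
    omega
  have hH2 : 2 ≤ H.card := by
    have := rk_le_card (N := N) (X := H)
    omega
  have h4 := hc Hᶜ (by omega) (by rw [compl_compl]; exact hH2)
  rw [compl_compl] at h4
  have h5 := hA.not_in_flat hH
  refine step1_F3 hN hA.fl hD3 hD (by omega) (by omega)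
    (fun i hi => le_antisymm (hl i hi) (hA.two_le_rk hN i)) ?_ ?_
  · intro z i hz hi
    by_contra hcon
    push Not at hcon
    have := hnt z i hz (fun j hj => by
      by_contra hne
      exact hcon j hne hj)
    omega
  · intro z _
    exact hA.exists_mem (hc.mem_sp_erase hcard z)

end Ca3.Ab
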