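import Pool.Agent.Lib.MP_ca3eb1_co.AbVDefs
import Pool.Agent.Lib.MP_ca3eb1_co.C3
import Pool.Agent.Lib.MP_ca3eb1_co.P4
import Pool.Agent.Lib.MP_ca3eb1_co.ThreePlanes

/-! # Facts in ranks three and four -/

set_option linter.unusedSectionVars false

namespace Ca3.Ab

open Finset

variable {K E : Type*} [Field K] [Fintype K] [DecidableEq E] [Fintype E] {N : RF E}
  {ι : Type*} [Fintype ι] {A : ι → Finset E} {i j m m' : ι}

/-! ### Rank four, through the vector versions -/

/-- the closed Mason family, indexed by `Fin n`, for the representing vectors -/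
theorem r34_fin {n : ℕ} {w : E → (Fin n → K)} (hw : ∀ Z, Ca3.rk K w Z = rk N Z)
    (hA : Fam N A) :
    ∃ (k : ℕ) (B : Fin k → Finset E), Ca3.IsMason K w ∅ univ B ∧
      ∀ i, ∃ j, Ca3.cl K w (B j) = A i := by
  have hN : N = RF.ofVec K w := RF.ext' fun Z => by rw [rk_ofVec, hw]
  subst hN
  have h1 : Ca3.IsMason K w ∅ univ A := isMason_ofVec.1 hA.mason
  obtain ⟨k, B, hB, hBA⟩ := h1.exists_fin
  refine ⟨k, B, hB, fun i => ?_⟩
  obtain ⟨j, hj⟩ := hBA i
  refine ⟨j, ?_⟩
  rw [hj]
  exact isFl_ofVec.1 (hA.fl i)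

/-- two Mason planes of a quaternary strict gammoid of rank four meet in a line -/
theorem r4_two_planes (hK4 : Fintype.card K = 4) (hN : Simple N) (hr : Rep K N) (hA : Fam N A)
    (h4 : rk N univ = 4) (hi : rk N (A i) = 3) (hj : rk N (A j) = 3) (hij : A i ≠ A j) :
    rk N (A i ∩ A j) = 2 := by
  obtain ⟨n, w, hw⟩ := hr
  obtain ⟨k, B, hB, hBA⟩ := r34_fin hw hA
  have hNw : N = RF.ofVec K w := RF.ext' fun Z => by rw [rk_ofVec, hw]
  subst hNw
  have := P4 hK4 (simple_ofVec.1 hN) hB (by rw [hw]; exact h4) (isFl_ofVec.1 (hA.fl i))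
    (isFl_ofVec.1 (hA.fl j)) (by rw [hw]; exact hi) (by rw [hw]; exact hj) (hBA i) (hBA j) hij
  rw [← hw]
  exact this

/-- there are at most two Mason planes -/
theorem r4_three_planes (hK4 : Fintype.card K = 4) (hN : Simple N) (hr : Rep K N)
    (hA : Fam N A) (h4 : rk N univ = 4) (hi : rk N (A i) = 3) (hj : rk N (A j) = 3)
    (hm : rk N (A m) = 3) (hij : A i ≠ A j) : A m = A i ∨ A m = A j := by
  by_contra hc
  push Not at hc
  obtain ⟨n, w, hw⟩ := hr
  obtain ⟨k, B, hB, hBA⟩ := r34_fin hw hA
  have hNw : N = RF.ofVec K w := RF.ext' fun Z => by rw [rk_ofVec, hw]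
  subst hNw
  exact three_planes hK4 (simple_ofVec.1 hN) hB (by rw [hw]; exact h4)
    (isFl_ofVec.1 (hA.fl i)) (isFl_ofVec.1 (hA.fl j)) (isFl_ofVec.1 (hA.fl m))
    (by rw [hw]; exact hi) (by rw [hw]; exact hj) (by rw [hw]; exact hm)
    (hBA i) (hBA j) (hBA m) hij hc.1.symm hc.2.symm

/-! ### Rank three -/

/-- the sum of the multiplicities of the members of rank two through a point -/
theorem r3_pencil (hK4 : Fintype.card K = 4) (hN : Simple N) (hr : Rep K N) (hA : Fam N A)
    (h3 : rk N univ = 3) (q : E) :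
    Fintype.card E ≤ (univ.filter (fun i => q ∈ A i ∧ A i ≠ univ)).card + 6 := by
  classical
  obtain ⟨n, w, hw⟩ := hr
  set Ls : Finset (Finset E) := univ.filter (fun L => IsFl N L ∧ rk N L = 2 ∧ q ∈ L) with hLs
  have hmem : ∀ L, L ∈ Ls ↔ IsFl N L ∧ rk N L = 2 ∧ q ∈ L := by
    intro L
    simp [hLs]
  have hline : ∀ L ∈ Ls, ∀ e ∈ L, e ≠ q → L = cl N {q, e} := by
    intro L hL e he heq
    have h1 := (hmem L).1 hL
    refine (h1.1.cl_eq ?_ ?_).symm
    · intro f hf
      rw [mem_insert, mem_singleton] at hf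
      rcases hf with rfl | rfl
      · exact h1.2.2
      · exact he
    · rw [h1.2.1, hN.rk_pair (Ne.symm heq)]
  have hcl : ∀ e, e ≠ q → cl N {q, e} ∈ Ls := by
    intro e he
    rw [hmem]
    refine ⟨isFl_cl, ?_, subset_cl (by simp)⟩
    rw [rk_cl, hN.rk_pair (Ne.symm he)]
  -- the points other than `q` are partitioned by the lines
  have hpart : (univ.erase q).card = ∑ L ∈ Ls, (L.erase q).card := by
    rw [card_eq_sum_card_fiberwise (f := fun e => cl N {q, e}) (t := Ls)]
    · apply sum_congr rfl
      intro L hL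
      congr 1
      ext e
      simp only [mem_filter, mem_erase, mem_univ, and_true]
      constructor
      · rintro ⟨h1, h2⟩
        refine ⟨h1, ?_⟩
        rw [← h2]
        exact subset_cl (by simp)
      · rintro ⟨h1, h2⟩
        exact ⟨h1, (hline L hL e h2 h1).symm⟩
    · intro e he
      have : e ≠ q := by simpa using he
      exact mem_coe.2 (hcl e this)
  have hmult : ∀ L ∈ Ls, (L.erase q).card =
      (univ.filter (fun i => A i = L)).card + 1 := by
    intro L hL
    have h1 := (hmem L).1 hL
    have h2 := hA.line hN h1.1 h1.2.1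
    have h4 := card_erase_add_one h1.2.2
    omega
  have hsum : ∑ L ∈ Ls, (L.erase q).card =
      ∑ L ∈ Ls, (univ.filter (fun i => A i = L)).card + Ls.card := by
    rw [sum_congr rfl hmult, sum_add_distrib, sum_const, smul_eq_mul, mul_one]
  have hmemb : (univ.filter (fun i => q ∈ A i ∧ A i ≠ univ)).card =
      ∑ L ∈ Ls, (univ.filter (fun i => A i = L)).card := by
    rw [card_eq_sum_card_fiberwise (f := fun i => A i) (t := Ls)]
    · apply sum_congr rfl
      intro L hL
      congr 1
      ext i
      simp only [mem_filter, mem_univ, true_and]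
      constructor
      · rintro ⟨-, h2⟩
        exact h2
      · intro h2
        have h1 := (hmem L).1 hL
        refine ⟨⟨h2 ▸ h1.2.2, ?_⟩, h2⟩
        intro h5
        rw [← h2, h5] at h1
        omega
    · intro i hi
      have hi' := (mem_filter.1 (mem_coe.1 hi)).2
      rw [mem_coe, hmem]
      refine ⟨hA.fl i, ?_, hi'.1⟩
      show rk N (A i) = 2
      have h5 := hA.two_le_rk hN i
      have h6 := (hA.fl i).rk_lt_of_ssubset (ssubset_univ_iff.2 hi'.2)
      omega
  have hfive : Ls.card ≤ 5 := by
    have hex : ∀ L : Finset E, L ∈ Ls → ∃ e ∈ L, e ≠ q := by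
      intro L hL
      have h1 := hmult L hL
      have h2 : 0 < (L.erase q).card := by omega
      obtain ⟨e, he⟩ := card_pos.1 h2
      rw [mem_erase] at he
      exact ⟨e, he.2, he.1⟩
    have : Nonempty E := ⟨q⟩
    choose! x hx hxq using hex
    have hinj : Set.InjOn x (Ls : Set (Finset E)) := by
      intro L hL L' hL' h
      rw [hline L hL (x L) (hx L hL) (hxq L hL), hline L' hL' (x L') (hx L' hL') (hxq L' hL'), h]
    rw [← card_image_of_injOn hinj]
    apply pencil_card_le hK4 (v := w) (F := {q})
    · rw [hw, hw, hN.1 q]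
      have := rk_mono (N := N) (subset_univ ({q} ∪ Ls.image x))
      omega
    · intro e he h5
      obtain ⟨L, hL, rfl⟩ := mem_image.1 he
      rw [← Ca3.rk_insert_eq_iff, hw, hw] at h5
      exact hxq L hL (hN.2 _ _ h5)
    · intro e he f hf h5
      obtain ⟨L, hL, rfl⟩ := mem_image.1 he
      obtain ⟨L', hL', rfl⟩ := mem_image.1 hf
      rw [← Ca3.rk_insert_eq_iff, hw, hw] at h5
      have h6 : x L ∈ sp N {x L', q} := h5
      have h7 : x L ∈ L' := by
        apply ((hmem L').1 hL').1.mem
        apply sp_mono _ h6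
        intro f hf
        rw [mem_insert, mem_singleton] at hf
        rcases hf with rfl | rfl
        · exact hx L' hL'
        · exact ((hmem L').1 hL').2.2
      have h8 : L = L' := by
        rw [hline L hL (x L) (hx L hL) (hxq L hL), hline L' hL' (x L) h7 (hxq L hL)]
      rw [h8]
  have h9 : (univ.erase q).card + 1 = Fintype.card E := by
    rw [card_erase_add_one (mem_univ q), card_univ]
  omega

/-- rank three, a member line `A m`: the counts -/
theorem r3_count (hK4 : Fintype.card K = 4) (hN : Simple N) (hr : Rep K N) (hA : Fam N A)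
    (h3 : rk N univ = 3) (hm : rk N (A m) = 2) {q : E} (hq : q ∉ A m) :
    (univ.filter (fun i => A i = A m)).card + 2 = (A m).card ∧
    (univ.filter (fun i => A i = A m)).card + (univ.filter (fun i => A i = univ)).card +
      (univ.filter (fun i => A i ≠ A m ∧ A i ≠ univ)).card + 3 = Fintype.card E ∧
    Fintype.card E ≤ (univ.filter (fun i => q ∈ A i ∧ A i ≠ univ)).card + 6 ∧
    (univ.filter (fun i => q ∈ A i ∧ A i ≠ univ)) ⊆
      (univ.filter (fun i => A i ≠ A m ∧ A i ≠ univ)) := by
  classical
  have hmu : A m ≠ univ := by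
    intro h
    rw [h] at hm
    omega
  refine ⟨hA.line hN (hA.fl m) hm, ?_, r3_pencil hK4 hN hr hA h3 q, ?_⟩
  · have h1 := hA.card_index
    rw [← card_univ (α := ι)] at h1
    have h2 : (univ : Finset ι) = (univ.filter (fun i => A i = A m)) ∪
        ((univ.filter (fun i => A i = univ)) ∪
        (univ.filter (fun i => A i ≠ A m ∧ A i ≠ univ))) := by
      ext i
      simp only [mem_univ, mem_union, mem_filter, true_and, true_iff]
      tauto
    rw [h2, card_union_of_disjoint, card_union_of_disjoint] at h1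
    · omega
    · rw [disjoint_left]
      intro i hi hi'
      simp only [mem_filter, mem_univ, true_and] at hi hi'
      exact hi'.2 hi
    · rw [disjoint_left]
      intro i hi hi'
      simp only [mem_filter, mem_univ, true_and, mem_union] at hi hi'
      rcases hi' with hi' | hi'
      · exact hmu (hi.symm.trans hi')
      · exact hi'.1 hi
  · intro i hi
    simp only [mem_filter, mem_univ, true_and] at hi ⊢
    refine ⟨?_, hi.2⟩
    intro h
    exact hq (h ▸ hi.1)

/-- rank three, a spanning member: a line of multiplicity two meets no other member but the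
spanning ones -/
theorem r3_meet (hK4 : Fintype.card K = 4) (hN : Simple N) (hr : Rep K N) (hA : Fam N A)
    (h3 : rk N univ = 3) (hi : A i = univ) (hm : A m ≠ univ) (hmm : m' ≠ m)
    (hmm' : A m' = A m) (hj : A j ≠ univ) (hjm : (A m ∩ A j).Nonempty) : A j = A m := by
  classical
  by_contra hc
  have hrk : ∀ k, A k ≠ univ → rk N (A k) = 2 := by
    intro k hk
    have h5 := hA.two_le_rk hN k
    have h6 := (hA.fl k).rk_lt_of_ssubset (ssubset_univ_iff.2 hk)
    omega
  have hm2 := hrk m hm
  have hj2 := hrk j hj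
  have ha : 2 ≤ (univ.filter (fun k => A k = A m)).card := by
    rw [← card_pair hmm]
    apply card_le_card
    intro k hk
    rw [mem_insert, mem_singleton] at hk
    rw [mem_filter]
    rcases hk with rfl | rfl
    · exact ⟨mem_univ _, hmm'⟩
    · exact ⟨mem_univ _, rfl⟩
  have hu : 1 ≤ (univ.filter (fun k => A k = univ)).card :=
    card_pos.2 ⟨i, by simp [hi]⟩
  have hall : ∀ q, q ∉ A m → q ∈ A j := by
    intro q hq
    obtain ⟨h1, h2, h4, h5⟩ := r3_count hK4 hN hr hA h3 hm2 hq
    have h6 := eq_of_subset_of_card_le h5 (by omega)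
    have h7 : j ∈ (univ.filter (fun i => q ∈ A i ∧ A i ≠ univ)) := by
      rw [h6, mem_filter]
      exact ⟨mem_univ _, hc, hj⟩
    exact (mem_filter.1 h7).2.1
  obtain ⟨z, hz⟩ := hjm
  rw [mem_inter] at hz
  obtain ⟨q, hq⟩ : ∃ q, q ∉ A m := by
    by_contra h
    push Not at h
    exact hm (eq_univ_iff_forall.2 h)
  obtain ⟨h1, h2, h4, h5⟩ := r3_count hK4 hN hr hA h3 hm2 hq
  have h6 : (A m)ᶜ.card + 1 ≤ (A j).card := by
    have h7 : insert z (A m)ᶜ ⊆ A j := by
      intro e he
      rw [mem_insert, mem_compl] at he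
      rcases he with rfl | he
      · exact hz.2
      · exact hall e he
    have h8 := card_le_card h7
    rwa [card_insert_of_notMem (by rw [mem_compl, not_not]; exact hz.1)] at h8
  have h7 := hA.line hN (hA.fl j) hj2
  have h8 : (univ.filter (fun k => A k = A j)).card ≤
      (univ.filter (fun k => A k ≠ A m ∧ A k ≠ univ)).card := by
    apply card_le_card
    intro k hk
    rw [mem_filter] at hk ⊢
    rw [hk.2]
    exact ⟨mem_univ _, hc, hj⟩
  have h9 := card_add_card_compl (A m)
  omega

/-- `P₆` is not quaternary: three points off a line with three points, all other lines being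
trivial. -/
theorem r3_P6 (hK4 : Fintype.card K = 4) {n : ℕ} {w : E → (Fin n → K)}
    (hw : ∀ Z, Ca3.rk K w Z = rk N Z) (hN : Simple N) (h3 : rk N univ = 3)
    {M : Finset E} (hM : IsFl N M) (hM2 : rk N M = 2)
    (hcE : Fintype.card E = 6) (hcM : M.card = 3)
    (htriv : ∀ F, IsFl N F → rk N F = 2 → F ≠ M → F.card = 2) : False := by
  classical
  have hNw : N = RF.ofVec K w := RF.ext' fun Z => by rw [rk_ofVec, hw]
  have hsw : Ca3.Simple K w := by
    rw [hNw] at hN
    exact simple_ofVec.1 hN
  have hT : Mᶜ.card = 3 := by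
    have := card_add_card_compl M
    omega
  -- pairs off `M` span trivial lines
  have hpair : ∀ X : Finset E, X ⊆ Mᶜ → X.card = 2 → ∀ e, e ∈ sp N X → e ∈ X := by
    intro X hX hX2 e he
    have h1 : rk N X = 2 := by
      have := hN.ind_of_card_le_two (X := X) (by omega)
      rw [this.rk_eq_card, hX2]
    have h2 : (cl N X).card = 2 := by
      apply htriv _ isFl_cl (by rw [rk_cl, h1])
      intro h
      obtain ⟨x, hx⟩ := card_pos.1 (show 0 < X.card by omega)
      have h3 : x ∈ M := h ▸ subset_cl hx
      exact (mem_compl.1 (hX hx)) h3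
    have h3 : X = cl N X := eq_of_subset_of_card_le subset_cl (by omega)
    rw [h3]
    exact mem_cl.2 he
  have hspw : ∀ (X : Finset E) (e : E), w e ∈ Ca3.sp K w X ↔ e ∈ sp N X := by
    intro X e
    rw [← Ca3.rk_insert_eq_iff, hw, hw]
    rfl
  have hTrk : rk N Mᶜ = 3 := by
    by_contra hc
    obtain ⟨x, hx⟩ := card_pos.1 (show 0 < Mᶜ.card by omega)
    have h1 : (Mᶜ.erase x).card = 2 := by rw [card_erase_of_mem hx, hT]
    have h2 := hpair (Mᶜ.erase x) (erase_subset _ _) h1 x
    have h4 : x ∉ sp N (Mᶜ.erase x) := fun h => notMem_erase x _ (h2 h)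
    have h5 := rk_insert_of_not_mem_sp h4
    rw [insert_erase hx] at h5
    have h6 : rk N (Mᶜ.erase x) = 2 := by
      have := hN.ind_of_card_le_two (X := Mᶜ.erase x) (by omega)
      rw [this.rk_eq_card, h1]
    omega
  -- the points `x s` of the line `M`
  have hex : ∀ s : E, s ∈ Mᶜ → ∃ x : Fin n → K, x ≠ 0 ∧ x ∈ Ca3.sp K w (Mᶜ.erase s) ∧
      x ∈ Ca3.sp K w M := by
    intro s hs
    have h1 : (Mᶜ.erase s).card = 2 := by rw [card_erase_of_mem hs, hT]
    have h2 : Ca3.rk K w (Mᶜ.erase s) = 2 := by
      rw [hw, (hN.ind_of_card_le_two (X := Mᶜ.erase s) (by omega)).rk_eq_card, h1]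
    have h4 := Submodule.finrank_sup_add_finrank_inf_eq (Ca3.sp K w (Mᶜ.erase s))
      (Ca3.sp K w M)
    have h5 : Module.finrank K ↥(Ca3.sp K w (Mᶜ.erase s) ⊔ Ca3.sp K w M) ≤ 3 := by
      rw [← Ca3.sp_union]
      have := Ca3.rk_mono (K := K) (v := w) (subset_univ (Mᶜ.erase s ∪ M))
      rw [hw univ, h3] at this
      exact this
    have h6 : Module.finrank K ↥(Ca3.sp K w (Mᶜ.erase s)) = 2 := h2
    have h7 : Module.finrank K ↥(Ca3.sp K w M) = 2 := by
      have := hw M
      rw [hM2] at this
      exact this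
    have h8 : 0 < Module.finrank K ↥(Ca3.sp K w (Mᶜ.erase s) ⊓ Ca3.sp K w M) := by omega
    have h9 : Ca3.sp K w (Mᶜ.erase s) ⊓ Ca3.sp K w M ≠ ⊥ := by
      intro h
      rw [h, finrank_bot] at h8
      omega
    obtain ⟨x, hx, hx0⟩ := Submodule.exists_mem_ne_zero_of_ne_bot h9
    exact ⟨x, hx0, hx.1, hx.2⟩
  choose! x hx0 hxT hxM using hex
  let u : E → (Fin n → K) := fun e => if e ∈ M then w e else x e
  have hu1 : ∀ e ∈ M, u e = w e := fun e he => if_pos he
  have hu2 : ∀ e, e ∉ M → u e = x e := fun e he => if_neg he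
  have hmix : ∀ e f, e ∈ M → f ∉ M → w e ∈ Submodule.span K {x f} → False := by
    intro e f he hf h
    have hf' : f ∈ Mᶜ := mem_compl.2 hf
    have h1 : w e ∈ Ca3.sp K w (Mᶜ.erase f) :=
      (Submodule.span_singleton_le_iff_mem _ _).2 (hxT f hf') h
    have h2 := hpair _ (erase_subset _ _) (by rw [card_erase_of_mem hf', hT]) e ((hspw _ _).1 h1)
    exact (mem_compl.1 (mem_of_mem_erase h2)) he
  have hswap : ∀ a b : Fin n → K, a ≠ 0 → a ∈ Submodule.span K {b} →
      b ∈ Submodule.span K {a} := by
    intro a b ha h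
    obtain ⟨c, hc⟩ := Submodule.mem_span_singleton.1 h
    have hc0 : c ≠ 0 := by
      rintro rfl
      rw [zero_smul] at hc
      exact ha hc.symm
    exact Submodule.mem_span_singleton.2 ⟨c⁻¹, by rw [← hc, smul_smul, inv_mul_cancel₀ hc0, one_smul]⟩
  have hu : Ca3.Simple K u := by
    constructor
    · intro e
      by_cases he : e ∈ M
      · rw [hu1 e he]
        exact hsw.1 e
      · rw [hu2 e he]
        exact hx0 e (mem_compl.2 he)
    · intro e f hef
      by_cases he : e ∈ M
      · by_cases hf : f ∈ M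
        · rw [hu1 e he, hu1 f hf] at hef
          exact hsw.2 e f hef
        · rw [hu1 e he, hu2 f hf] at hef
          exact (hmix e f he hf hef).elim
      · have he' : e ∈ Mᶜ := mem_compl.2 he
        by_cases hf : f ∈ M
        · rw [hu2 e he, hu1 f hf] at hef
          exact (hmix f e hf he (hswap _ _ (hx0 e he') hef)).elim
        · rw [hu2 e he, hu2 f hf] at hef
          have hf' : f ∈ Mᶜ := mem_compl.2 hf
          by_contra hne
          -- the third point
          have h1 : ((Mᶜ.erase e).erase f).card = 1 := by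
            rw [card_erase_of_mem (mem_erase.2 ⟨Ne.symm hne, hf'⟩), card_erase_of_mem he', hT]
          obtain ⟨g, hg⟩ := card_eq_one.1 h1
          have hgm : g ∈ (Mᶜ.erase e).erase f := by rw [hg]; exact mem_singleton_self g
          rw [mem_erase, mem_erase] at hgm
          have h2 : x e ∈ Ca3.sp K w (Mᶜ.erase e) := hxT e he'
          have h4 : x e ∈ Ca3.sp K w (Mᶜ.erase f) :=
            (Submodule.span_singleton_le_iff_mem _ _).2 (hxT f hf') hef
          have h5 := Submodule.finrank_sup_add_finrank_inf_eq (Ca3.sp K w (Mᶜ.erase e))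
            (Ca3.sp K w (Mᶜ.erase f))
          have h6 : Mᶜ.erase e ∪ Mᶜ.erase f = Mᶜ := by
            ext z
            simp only [mem_union, mem_erase]
            constructor
            · rintro (h | h)
              · exact h.2
              · exact h.2
            · intro h
              by_cases hz : z = e
              · right
                exact ⟨fun h' => hne (hz.symm.trans h'), h⟩
              · left
                exact ⟨hz, h⟩
          have h7 : Module.finrank K ↥(Ca3.sp K w (Mᶜ.erase e) ⊔ Ca3.sp K w (Mᶜ.erase f))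
              = 3 := by
            rw [← Ca3.sp_union, h6]
            have := hw Mᶜ
            rw [hTrk] at this
            exact this
          have h8 : ∀ s ∈ Mᶜ, Module.finrank K ↥(Ca3.sp K w (Mᶜ.erase s)) = 2 := by
            intro s hs
            have h9 : (Mᶜ.erase s).card = 2 := by rw [card_erase_of_mem hs, hT]
            have h10 : Ca3.rk K w (Mᶜ.erase s) = 2 := by
              rw [hw, (hN.ind_of_card_le_two (X := Mᶜ.erase s) (by omega)).rk_eq_card, h9]
            exact h10
          have h9 := h8 e he'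
          have h10 := h8 f hf'
          have h11 : Submodule.span K {w g} ≤
              Ca3.sp K w (Mᶜ.erase e) ⊓ Ca3.sp K w (Mᶜ.erase f) := by
            rw [Submodule.span_singleton_le_iff_mem]
            exact ⟨Ca3.mem_sp (mem_erase.2 ⟨hgm.2.1, hgm.2.2⟩),
              Ca3.mem_sp (mem_erase.2 ⟨hgm.1, hgm.2.2⟩)⟩
          have h12 : Submodule.span K {w g} =
              Ca3.sp K w (Mᶜ.erase e) ⊓ Ca3.sp K w (Mᶜ.erase f) := by
            apply Submodule.eq_of_le_of_finrank_le h11
            rw [finrank_span_singleton (hsw.1 g)]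
            omega
          have h13 : x e ∈ Submodule.span K {w g} := by
            rw [h12]
            exact ⟨h2, h4⟩
          have h14 : w g ∈ Submodule.span K {x e} := hswap _ _ (hx0 e he') h13
          have h15 : w g ∈ Ca3.sp K w M :=
            (Submodule.span_singleton_le_iff_mem _ _).2 (hxM e he') h14
          exact (mem_compl.1 hgm.2.2) (hM.mem ((hspw _ _).1 h15))
  have hur : Ca3.rk K u univ ≤ 2 := by
    have h1 : Ca3.sp K u univ ≤ Ca3.sp K w M := by
      rw [Ca3.sp_le_iff]
      intro e _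
      by_cases he : e ∈ M
      · rw [hu1 e he]
        exact Ca3.mem_sp he
      · rw [hu2 e he]
        exact hxM e (mem_compl.2 he)
    have h2 := Submodule.finrank_mono h1
    have h4 := hw M
    rw [hM2] at h4
    unfold Ca3.rk at h4 ⊢
    omega
  have := line_card_le hK4 hu hur
  rw [card_univ, hcE] at this
  omega

/-- rank three, two spanning members: no member is a line -/
theorem r3_no_line (hK4 : Fintype.card K = 4) (hN : Simple N) (hr : Rep K N) (hA : Fam N A)
    (h3 : rk N univ = 3) (hij : i ≠ j) (hi : A i = univ) (hj : A j = univ) :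
    rk N (A m) ≠ 2 := by
  classical
  intro hm2
  have hmu : A m ≠ univ := by
    intro h
    rw [h] at hm2
    omega
  have ha : 1 ≤ (univ.filter (fun k => A k = A m)).card := card_pos.2 ⟨m, by simp⟩
  have hu : 2 ≤ (univ.filter (fun k => A k = univ)).card := by
    rw [← card_pair hij]
    apply card_le_card
    intro k hk
    rw [mem_insert, mem_singleton] at hk
    rw [mem_filter]
    rcases hk with rfl | rfl
    · exact ⟨mem_univ _, hi⟩
    · exact ⟨mem_univ _, hj⟩
  obtain ⟨q, hq⟩ : ∃ q, q ∉ A m := by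
    by_contra h
    push Not at h
    exact hmu (eq_univ_iff_forall.2 h)
  have h9 := card_add_card_compl (A m)
  by_cases hex : ∃ k, A k ≠ A m ∧ A k ≠ univ
  · obtain ⟨k, hk, hku⟩ := hex
    have hk2 : rk N (A k) = 2 := by
      have h5 := hA.two_le_rk hN k
      have h6 := (hA.fl k).rk_lt_of_ssubset (ssubset_univ_iff.2 hku)
      omega
    have hall : (A m)ᶜ ⊆ A k := by
      intro q hq
      rw [mem_compl] at hq
      obtain ⟨h1, h2, h4, h5⟩ := r3_count hK4 hN hr hA h3 hm2 hq
      have h6 := eq_of_subset_of_card_le h5 (by omega)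
      have h7 : k ∈ (univ.filter (fun i => q ∈ A i ∧ A i ≠ univ)) := by
        rw [h6, mem_filter]
        exact ⟨mem_univ _, hk, hku⟩
      exact (mem_filter.1 h7).2.1
    obtain ⟨h1, h2, h4, h5⟩ := r3_count hK4 hN hr hA h3 hm2 hq
    have h6 := card_le_card hall
    have h7 := hA.line hN (hA.fl k) hk2
    have h8 : (univ.filter (fun l => A l = A k)).card ≤
        (univ.filter (fun l => A l ≠ A m ∧ A l ≠ univ)).card := by
      apply card_le_card
      intro l hl
      rw [mem_filter] at hl ⊢
      rw [hl.2]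
      exact ⟨mem_univ _, hk, hku⟩
    omega
  · obtain ⟨h1, h2, h4, h5⟩ := r3_count hK4 hN hr hA h3 hm2 hq
    have h6 : (univ.filter (fun l => A l ≠ A m ∧ A l ≠ univ)) = ∅ := by
      rw [filter_eq_empty_iff]
      intro l _ hl
      exact hex ⟨l, hl⟩
    rw [h6, card_empty] at h2
    have h7 := card_le_card h5
    rw [h6, card_empty] at h7
    obtain ⟨n, w, hw⟩ := hr
    refine r3_P6 hK4 hw hN h3 (hA.fl m) hm2 (by omega) (by omega) ?_
    intro F hF hF2 hFM
    have h8 := hA.line hN hF hF2
    have h10 : (univ.filter (fun l => A l = F)) = ∅ := by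
      rw [filter_eq_empty_iff]
      intro l _ hl
      apply hex
      refine ⟨l, by rw [hl]; exact hFM, ?_⟩
      rw [hl]
      rintro rfl
      omega
    rw [h10, card_empty] at h8
    omega

end Ca3.Ab
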