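import Pool.Agent.Lib.MP_ca3eb1_co.AbPa
import Pool.Agent.Lib.MP_ca3eb1_co.AbVContr
import Pool.Agent.Lib.MP_ca3eb1_co.AbVR3
import Pool.Agent.Lib.MP_ca3eb1_co.LemmaU

/-! # The structure of `N / d` when a member spans it -/

set_option linter.unusedSectionVars false

namespace Ca3.Ab

open Finset

variable {K E : Type*} [Field K] [Fintype K] [DecidableEq E] [Fintype E] {N : RF E}
  {ι : Type*} [Fintype ι] {A : ι → Finset E} {i j m m' : ι} {d : E}

/-- the family of `N / d` -/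
theorem p71_exists (hN : Simple N) (hq : RepC K N) (hA : Fam N A) (d : E) :
    ∃ R, IsReps N {d} univ R ∧ Simple (N.qc {d} R) ∧ Rep K (N.qc {d} R) ∧
      rk (N.qc {d} R) univ + 1 = rk N univ ∧
      Fam (N.qc {d} R) (fun i : {i : ι // rk N {d} + 2 ≤ rk N (A i ∪ {d})} =>
        tr R (cl N (A i ∪ {d}))) ∧
      ∀ i, cl N (A i ∪ {d}) = univ → tr R (cl N (A i ∪ {d})) = univ := by
  obtain ⟨R, -, hR⟩ := exists_isReps (N := N) (Y := {d}) (R₀ := ∅) (T := univ)
    (empty_subset _) (by simp) (by simp)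
  have hd := hN.1 d
  have hru := hR.rk_univ (subset_univ _)
  refine ⟨R, hR, hR.simple, rep_qc hq (mem_singleton_self d), by omega, hA.qc hR, ?_⟩
  intro i hi
  rw [hi]
  ext r
  simp [mem_tr]

/-- the pieces of `N / d` -/
theorem pieces (hK4 : Fintype.card K = 4) (hq : KC K N) (hA : Fam N A) (h4 : 4 ≤ rk N univ)
    (hi : cl N (A i ∪ {d}) = univ) : Pieces N A d := by
  obtain ⟨R, hR, hs, hrep, hru, hA', hspan⟩ := p71_exists hq.simple hq.rep hA d
  have hd := hq.simple.1 d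
  have hrA : rk N (A i ∪ {d}) = rk N univ := by rw [← rk_cl, hi]
  have hi0 : rk N {d} + 2 ≤ rk N (A i ∪ {d}) := by omega
  refine pieces_of_qc hq.simple hR ?_
  have hsp := hspan i hi
  intro m j hm hj hm3 hmj
  let A' : {i : ι // rk N {d} + 2 ≤ rk N (A i ∪ {d})} → Finset R :=
    fun i => tr R (cl N (A i ∪ {d}))
  let i' : {i : ι // rk N {d} + 2 ≤ rk N (A i ∪ {d})} := ⟨i, hi0⟩
  rcases Nat.lt_or_ge (rk N univ) 5 with h5 | h5
  · have h3 : rk (N.qc {d} R) univ = 3 := by omega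
    rcases hm3 with hm3 | ⟨m', hm', he⟩
    · exfalso
      apply hm
      have hfl : IsFl (N.qc {d} R) (tr R (cl N (A m ∪ {d}))) := hA'.fl m
      exact hfl.eq_of_subset_of_rk_le (subset_univ _) (by rw [h3]; exact hm3)
    · exact r3_meet (A := A') hK4 hs hrep hA' h3 (i := i') hsp (m := m) hm hm' he (j := j) hj hmj
  · have h4' : 4 ≤ rk (N.qc {d} R) univ := by omega
    exact pa_rep (A := A') hK4 hs hrep hA' h4' (i := i') hsp (m := m) hm hm3 (j := j) hj hmj

/-- rank at least five: only one member spans `N / d` -/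
theorem spanning_unique (hK4 : Fintype.card K = 4) (hq : KC K N) (hA : Fam N A)
    (h5 : 5 ≤ rk N univ) (hi : cl N (A i ∪ {d}) = univ) (hj : cl N (A j ∪ {d}) = univ) :
    i = j := by
  by_contra hij
  have hA' : IsMason N {d} univ A := fun Z _ hZ => hA.mason Z (empty_subset Z) hZ
  exact spanning_le_one hK4 hq.simple hq.rep h5 hA' hij hi hj

/-- rank four: if two members span `N / d` then there is no line in `N / d` -/
theorem r4_spanning (hK4 : Fintype.card K = 4) (hq : KC K N) (hA : Fam N A)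
    (h4 : rk N univ = 4) (hij : i ≠ j) (hi : cl N (A i ∪ {d}) = univ)
    (hj : cl N (A j ∪ {d}) = univ) (m : ι) : rk N (A m ∪ {d}) ≠ 3 := by
  intro hm
  obtain ⟨R, hR, hs, hrep, hru, hA', hspan⟩ := p71_exists hq.simple hq.rep hA d
  have hd := hq.simple.1 d
  have hrA : rk N (A i ∪ {d}) = rk N univ := by rw [← rk_cl, hi]
  have hrB : rk N (A j ∪ {d}) = rk N univ := by rw [← rk_cl, hj]
  have hsi := hspan i hi
  have hsj := hspan j hj
  have h2 := hR.rk_tr (F := cl N (A m ∪ {d})) isFl_cl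
    (subset_union_right.trans subset_cl) (subset_univ _)
  rw [rk_cl] at h2
  have h3 : rk (N.qc {d} R) univ = 3 := by omega
  have h5 : rk (N.qc {d} R) (tr R (cl N (A m ∪ {d}))) = 2 := by omega
  let A' : {i : ι // rk N {d} + 2 ≤ rk N (A i ∪ {d})} → Finset R :=
    fun i => tr R (cl N (A i ∪ {d}))
  let i' : {i : ι // rk N {d} + 2 ≤ rk N (A i ∪ {d})} := ⟨i, by omega⟩
  let j' : {i : ι // rk N {d} + 2 ≤ rk N (A i ∪ {d})} := ⟨j, by omega⟩
  let m' : {i : ι // rk N {d} + 2 ≤ rk N (A i ∪ {d})} := ⟨m, by omega⟩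
  have hij' : i' ≠ j' := fun h => hij (congrArg Subtype.val h)
  exact r3_no_line (A := A') hK4 hs hrep hA' h3 (i := i') (j := j') (m := m') hij' hsi hsj h5

end Ca3.Ab
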