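import Pool.Agent.Lib.MP_ca3eb1_co.AbVDefs

/-! # Step 1, (F2): lines and a plane -/

set_option linter.unusedSectionVars false

namespace Ca3.Ab

open Finset

variable {E : Type*} [DecidableEq E] [Fintype E] {N : RF E}
  {ι : Type*} [Fintype ι] {A : ι → Finset E} {i j m : ι} {H : Finset E}

/-- (F2) all members not inside `H` are lines or the plane `cl D`, `D` the complement of `H` -/
theorem step_plane (hN : Simple N) (hA : Fam N A) (hc : Conn3 N) (h4 : 4 ≤ rk N univ)
    (hH : IsFl N H) (hr : rk N H + 1 = rk N univ) (hD : Hᶜ.card ≤ 4)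
    (hU : ∀ d, d ∉ H → ∀ j, cl N (A j ∪ {d}) = univ → j = i)
    (hp : ∀ d, d ∉ H → Pieces N A d)
    (hl : ∀ j, ¬ A j ⊆ H → rk N (A j) ≤ 2 ∨ rk N (A j) = 3 ∧ Hᶜ ⊆ A j)
    (hm : ¬ A m ⊆ H) (hm3 : rk N (A m) = 3) : False := by
  classical
  have hcard : 4 ≤ Fintype.card E := by
    have h1 : rk N (univ : Finset E) ≤ (univ : Finset E).card := rk_le_card
    rw [card_univ] at h1
    omega
  -- `D` has rank three and `A m` is its closure
  have hDm : Hᶜ ⊆ A m := by
    rcases hl m hm with h | h
    · omega
    · exact h.2
  have hD3 : 3 ≤ Hᶜ.card := hc.three_le hcard (by omega)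
  have hDr : 3 ≤ rk N Hᶜ := by
    have h1 : rk N H ≤ H.card := rk_le_card
    have h2 := hc H (by omega) (by omega)
    omega
  -- a member which leaves `H` has two points outside `H`
  have hsec : ∀ j x, x ∈ A j → x ∉ H → ∃ y ∈ A j, y ≠ x ∧ y ∉ H := by
    intro j x hx hxH
    by_contra hcon
    push Not at hcon
    apply hxH
    apply hH.mem
    apply sp_mono _ (hA.cyclic hx)
    intro y hy
    rw [mem_erase] at hy
    exact hcon y hy.2 hy.1
  -- all members not inside `H` are inside `A m`
  have hin : ∀ j, ¬ A j ⊆ H → A j ⊆ A m := by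
    intro j hj
    rcases hl j hj with h | h
    · obtain ⟨x, hx, hxH⟩ := not_subset.1 hj
      obtain ⟨y, hy, hyx, hyH⟩ := hsec j x hx hxH
      have h2 : cl N {y, x} = A j := by
        apply (hA.fl j).cl_eq
        · intro z hz
          rw [mem_insert, mem_singleton] at hz
          rcases hz with rfl | rfl
          · exact hy
          · exact hx
        · rw [hN.rk_pair hyx]
          exact h
      rw [← h2]
      apply (hA.fl m).cl_subset
      intro z hz
      rw [mem_insert, mem_singleton] at hz
      rcases hz with rfl | rfl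
      · exact hDm (mem_compl.2 hyH)
      · exact hDm (mem_compl.2 hxH)
    · have h1 : rk N (A m) ≤ rk N Hᶜ := by omega
      have h2 : cl N Hᶜ = A m := (hA.fl m).cl_eq hDm h1
      have h5 : cl N Hᶜ = A j := (hA.fl j).cl_eq h.2 (by omega)
      rw [← h2, h5]
  have hmu : A m ≠ univ := by
    intro h
    rw [h] at hm3
    omega
  have hself : ∀ d, d ∈ A m → cl N (A m ∪ {d}) = A m := by
    intro d hd
    rw [union_eq_left.2 (singleton_subset_iff.2 hd)]
    exact hA.fl m
  -- no other member spans `A m` in `N / d`
  have hno : ∀ d, d ∉ H → ∀ m', m' ≠ m → cl N (A m' ∪ {d}) ≠ A m := by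
    intro d hd m' hm' heq
    have hdm : d ∈ A m := hDm (mem_compl.2 hd)
    have hP := hp d hd
    -- all members but `i` are inside `A m` or disjoint from it
    have key : ∀ j, j ≠ i → A j ⊆ A m ∨ A j ⊆ (A m)ᶜ := by
      intro j hj
      by_cases hjH : A j ⊆ H
      · by_cases hdis : Disjoint (A j) (A m)
        · right
          intro z hz
          rw [mem_compl]
          exact fun h => (disjoint_left.1 hdis) hz h
        · left
          rw [not_disjoint_iff] at hdis
          obtain ⟨u, huj, hum⟩ := hdis
          have hud : u ≠ d := by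
            rintro rfl
            exact hd (hjH huj)
          have hdj : d ∉ A j := fun h => hd (hjH h)
          have h1 : rk N (A j ∪ {d}) = rk N (A j) + 1 := by
            rw [union_comm, ← insert_eq,
              rk_insert_of_not_mem_sp (fun h => hdj ((hA.fl j).mem h))]
          have h2 := hA.two_le_rk hN j
          have h3 := hP m j u (by rw [hself d hdm]; exact hmu) (fun h => hj (hU d hd j h))
            (by rw [← rk_cl, hself d hdm]; omega) (by omega)
            (Or.inr ⟨m', hm', by rw [heq, hself d hdm]⟩) hud
            (by rw [hself d hdm]; exact hum) (subset_cl (mem_union_left _ huj))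
          rw [hself d hdm] at h3
          rw [← h3]
          exact subset_union_left.trans subset_cl
      · exact Or.inl (hin j hjH)
    have h1 := hc.three_le hcard (F := A m) (by omega)
    have h2 : rk N (A m) ≤ (A m).card := rk_le_card
    have h3 := hA.two_le_crossing hc (W := A m) (by omega) (by omega)
    have h5 : (univ.filter (fun k => ¬ A k ⊆ A m ∧ ¬ A k ⊆ (A m)ᶜ)) ⊆ {i} := by
      intro k hk
      rw [mem_filter] at hk
      rw [mem_singleton]
      by_contra hki
      rcases key k hki with h | h
      · exact hk.2.1 h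
      · exact hk.2.2 h
    have h6 := card_le_card h5
    rw [card_singleton] at h6
    omega
  -- so `A m` is the only member not inside `H`
  have honly : ∀ j, ¬ A j ⊆ H → j = m := by
    intro j hj
    by_contra hjm
    have hDj : Hᶜ ⊆ A j := by
      intro d hd
      by_contra hdj
      have hdH : d ∉ H := mem_compl.1 hd
      apply hno d hdH j hjm
      apply (hA.fl m).cl_eq
      · exact union_subset (hin j hj) (singleton_subset_iff.2 (hDm hd))
      · rw [union_comm, ← insert_eq,
          rk_insert_of_not_mem_sp (fun h => hdj ((hA.fl j).mem h))]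
        have := hA.two_le_rk hN j
        omega
    have hDne : Hᶜ.Nonempty := card_pos.1 (by omega)
    obtain ⟨d, hd⟩ := hDne
    apply hno d (mem_compl.1 hd) j hjm
    apply (hA.fl m).cl_eq
    · exact union_subset (hin j hj) (singleton_subset_iff.2 (hDm hd))
    · have h1 : rk N Hᶜ ≤ rk N (A j ∪ {d}) := rk_mono (hDj.trans subset_union_left)
      omega
  have h1 := hA.not_in_flat hH
  have h2 : (univ.filter (fun k => ¬ A k ⊆ H)) ⊆ {m} := by
    intro k hk
    rw [mem_filter] at hk
    rw [mem_singleton]
    exact honly k hk.2
  have h3 := card_le_card h2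
  rw [card_singleton] at h3
  omega

end Ca3.Ab
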