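import Pool.Agent.Lib.MP_ca3eb1_co.AbVFiveOne
import Pool.Agent.Lib.MP_ca3eb1_co.AbVFourOne
import Pool.Agent.Lib.MP_ca3eb1_co.AbVLines
import Pool.Agent.Lib.MP_ca3eb1_co.AbVPlane

/-! # Step 1: no Mason hyperplane -/

set_option linter.unusedSectionVars false

namespace Ca3.Ab

open Finset

variable {K E : Type*} [Field K] [Fintype K] [DecidableEq E] [Fintype E] {N : RF E}
  {ι : Type*} [Fintype ι] {A : ι → Finset E} {i j m : ι} {H : Finset E}

theorem four_le_card (h4 : 4 ≤ rk N univ) : 4 ≤ Fintype.card E := by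
  have h1 : rk N (univ : Finset E) ≤ (univ : Finset E).card := rk_le_card
  rw [card_univ] at h1
  omega

/-- the complement of a hyperplane of a 3-connected matroid has rank at least three -/
theorem Conn3.three_le_rk_compl (hc : Conn3 N) (hN : Simple N) (h4 : 4 ≤ rk N univ)
    (hr : rk N H + 1 = rk N univ) : 3 ≤ rk N Hᶜ := by
  have h1 := hc.three_le (four_le_card h4) (F := H) (by omega)
  have h2 : rk N H ≤ H.card := rk_le_card
  have h3 := hc H (by omega) (by omega)
  omega

/-- rank at least five -/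
theorem step_five (hK4 : Fintype.card K = 4) (hq : KC K N) (hA : Fam N A) (hc : Conn3 N)
    (h5 : 5 ≤ rk N univ) (h0 : ∀ i, A i ≠ univ) (hnt : NoThin N A)
    (hr : rk N (A i) + 1 = rk N univ) : False := by
  classical
  have hD := compl_le_four hK4 hq (fun h => absurd h (by omega)) hA (by omega) hr
  have hcard := four_le_card (N := N) (by omega)
  have hD3 := hc.three_le_rk_compl hq.simple (by omega) hr
  have hD3' := hc.three_le hcard (F := A i) (by omega)
  have hspan : ∀ d, d ∉ A i → cl N (A i ∪ {d}) = univ := fun d hd => cl_insert_hyp (hA.fl i) hr hd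
  have hU : ∀ d, d ∉ A i → ∀ j, cl N (A j ∪ {d}) = univ → j = i := fun d hd j hj =>
    spanning_unique hK4 hq hA h5 hj (hspan d hd)
  have hp : ∀ d, d ∉ A i → Pieces N A d := fun d hd =>
    pieces hK4 hq hA (by omega) (hspan d hd)
  have hself : ∀ {m : ι} {d : E}, d ∈ A m → cl N (A m ∪ {d}) = A m := by
    intro m d hd
    rw [union_eq_left.2 (singleton_subset_iff.2 hd)]
    exact hA.fl m
  have hselfr : ∀ {m : ι} {d : E}, d ∈ A m → rk N (A m ∪ {d}) = rk N (A m) := by
    intro m d hd
    rw [union_eq_left.2 (singleton_subset_iff.2 hd)]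
  by_cases hall : ∀ j, ¬ A j ⊆ A i → rk N (A j) ≤ 2
  · exact step_lines hq.simple hA hc hcard (by omega) (hA.fl i) hr hD hnt hall
  push Not at hall
  obtain ⟨j, hj, hj3⟩ := hall
  by_cases hbig : ∃ j, ¬ A j ⊆ A i ∧ 4 ≤ rk N (A j)
  · obtain ⟨j, hj, hj4⟩ := hbig
    have hDj : (A i)ᶜ ⊆ A j := step_five_one hK4 hq hA hc h5 hr hj (by omega)
    have hDm : ∀ m, ¬ A m ⊆ A i → (A i)ᶜ ⊆ A m := by
      intro m hm d hd
      by_contra hdm
      have hd' : d ∉ A i := mem_compl.1 hd
      obtain ⟨y, hym, hyi⟩ : ∃ y ∈ A m, y ∉ A i := by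
        by_contra hcon
        push Not at hcon
        exact hm hcon
      have hyd : y ≠ d := by
        rintro rfl
        exact hdm hym
      have hyj : y ∈ A j := hDj (mem_compl.2 hyi)
      have hdj : d ∈ A j := hDj hd
      have hm1 : cl N (A m ∪ {d}) ≠ univ := by
        intro h
        have := hU d hd' m h
        subst this
        exact hm (Subset.refl _)
      have hm2 := rk_union_singleton (hA.fl m) hdm
      have hm3 := hA.two_le_rk hq.simple m
      have h1 := hp d hd' j m y (by rw [hself hdj]; exact h0 j) hm1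
        (by rw [hselfr hdj]; omega) (by omega) (Or.inl (by rw [hselfr hdj]; omega)) hyd
        (by rw [hself hdj]; exact hyj) (subset_cl (mem_union_left _ hym))
      have h2 : rk N (A m ∪ {d}) = rk N (A j ∪ {d}) := by rw [← rk_cl, h1, rk_cl]
      rw [hselfr hdj] at h2
      exact hdm (step_five_one hK4 hq hA hc h5 hr hm (by omega) hd)
    have hAm : ∀ m, ¬ A m ⊆ A i → A m = A j := by
      intro m hm
      obtain ⟨d, u, hd, hu, hdu⟩ : ∃ d u, d ∈ (A i)ᶜ ∧ u ∈ (A i)ᶜ ∧ u ≠ d := by
        obtain ⟨d, hd, u, hu, hne⟩ := (one_lt_card (s := (A i)ᶜ)).1 (by omega)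
        exact ⟨d, u, hd, hu, hne.symm⟩
      have hd' : d ∉ A i := mem_compl.1 hd
      have hdj := hDj hd
      have hdm := hDm m hm hd
      have h3 : 3 ≤ rk N (A m) := hD3.trans (rk_mono (hDm m hm))
      have h1 := hp d hd' j m u (by rw [hself hdj]; exact h0 j) (by rw [hself hdm]; exact h0 m)
        (by rw [hselfr hdj]; omega) (by rw [hselfr hdm]; omega)
        (Or.inl (by rw [hselfr hdj]; omega)) hdu
        (by rw [hself hdj]; exact hDj hu) (by rw [hself hdm]; exact hDm m hm hu)
      rw [hself hdj, hself hdm] at h1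
      exact h1
    have h1 := hA.card_not_in (hA.fl i) hr
    have h2 := alpha_le_one hK4 hq.simple hq.rep (hA.fl j) (h0 j) hj4 (hq.sg.mono (Subset.refl _) (subset_univ _))
    rw [hA.alpha_eq (hA.fl j)] at h2
    have h3 : (univ.filter (fun m => ¬ A m ⊆ A i)).card ≤
        (univ.filter (fun m => A m = A j)).card := by
      apply card_le_card
      intro m hm
      rw [mem_filter] at hm ⊢
      exact ⟨mem_univ _, hAm m hm.2⟩
    have h4 : ((univ.filter (fun m => A m = A j)).card : ℤ) ≤ 1 := by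
      convert h2 using 3
    omega
  · push Not at hbig
    refine step_plane hq.simple hA hc (by omega) (hA.fl i) hr hD hU hp (fun m hm => ?_) hj
      (by have := hbig j hj; omega)
    have h1 := hbig m hm
    rcases Nat.lt_or_ge (rk N (A m)) 3 with h | h
    · exact Or.inl (by omega)
    · exact Or.inr ⟨by omega, step_five_one hK4 hq hA hc h5 hr hm h⟩

/-- rank four -/
theorem step_four (hK4 : Fintype.card K = 4) (hq : KC K N) (hrep : Rep K N) (hA : Fam N A)
    (hc : Conn3 N) (h4 : rk N univ = 4) (h0 : ∀ i, A i ≠ univ) (hnt : NoThin N A)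
    (hr : rk N (A i) = 3) : False := by
  have hr' : rk N (A i) + 1 = rk N univ := by omega
  have hD := compl_le_four hK4 hq (fun _ => hrep) hA (by omega) hr'
  have hcard := four_le_card (N := N) (by omega)
  have hspan : ∀ d, d ∉ A i → cl N (A i ∪ {d}) = univ := fun d hd =>
    cl_insert_hyp (hA.fl i) hr' hd
  have h3 : ∀ m, rk N (A m) ≤ 3 := by
    intro m
    have := (hA.fl m).rk_lt_of_ssubset ((ssubset_univ_iff).2 (h0 m))
    omega
  by_cases hall : ∀ j, ¬ A j ⊆ A i → rk N (A j) ≤ 2
  · exact step_lines hq.simple hA hc hcard (by omega) (hA.fl i) hr' hD hnt hall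
  push Not at hall
  obtain ⟨j, hj, hj3⟩ := hall
  have hj3' : rk N (A j) = 3 := by
    have := h3 j
    omega
  have hDj := step_four_one hK4 hq hrep hA hc h4 h0 hnt hr hj hj3'
  refine step_plane (i := i) hq.simple hA hc (by omega) (hA.fl i) hr' hD ?_
    (fun d hd => pieces hK4 hq hA (by omega) (hspan d hd)) (fun m hm => ?_) hj hj3'
  · intro d hd m hm
    by_contra hmi
    apply r4_spanning hK4 hq hA h4 hmi hm (hspan d hd) j
    rw [union_eq_left.2 (singleton_subset_iff.2 (hDj (mem_compl.2 hd)))]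
    exact hj3'
  · have h1 := h3 m
    rcases Nat.lt_or_ge (rk N (A m)) 3 with h | h
    · exact Or.inl (by omega)
    · exact Or.inr ⟨by omega, step_four_one hK4 hq hrep hA hc h4 h0 hnt hr hm (by omega)⟩

/-- STEP 1 -/
theorem step_one (hK4 : Fintype.card K = 4) (hq : KC K N) (hrep : rk N univ ≤ 4 → Rep K N)
    (hA : Fam N A) (hc : Conn3 N) (hcard : 4 ≤ Fintype.card E) (h3 : 3 ≤ rk N univ)
    (h0 : ∀ i, A i ≠ univ) (hnt : NoThin N A) : rk N (A i) + 1 ≠ rk N univ := by
  intro hr
  rcases Nat.lt_or_ge (rk N univ) 5 with h5 | h5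
  · rcases Nat.lt_or_ge (rk N univ) 4 with h4 | h4
    · refine step_lines hq.simple hA hc hcard h3 (hA.fl i) hr
        (compl_le_four hK4 hq hrep hA h3 hr) hnt fun j _ => ?_
      have h1 := hA.fl j
      have h2 : A j ⊂ univ := (ssubset_univ_iff).2 (h0 j)
      have := h1.rk_lt_of_ssubset h2
      omega
    · exact step_four hK4 hq (hrep (by omega)) hA hc (by omega) h0 hnt (i := i) (by omega)
  · exact step_five hK4 hq hA hc h5 h0 hnt hr

end Ca3.Ab
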