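import Pool.Agent.Lib.MP_ca3eb1_co.AbLemmaY
import Pool.Agent.Lib.MP_ca3eb1_co.AbVDefs
import Pool.Agent.Lib.MP_ca3eb1_co.AbReps2

/-! # Lemma Y for V+ -/

set_option linter.unusedSectionVars false

namespace Ca3.Ab

open Finset

variable {E : Type*} [DecidableEq E] [Fintype E] {N : RF E}

/-- LEMMA Y -/
theorem exists_noGuts (hc : Conn3 N) (hN : Simple N) (h4 : 4 ≤ rk N univ) :
    ∃ x, NoGuts N x := exists_not_guts' hN hc h4

end Ca3.Ab
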