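import Pool.Agent.Lib.MP_ca3eb1_co.AbVStep
import Pool.Agent.Lib.MP_ca3eb1_co.AbVC

/-! # Theorem V+ -/

set_option linter.unusedSectionVars false

namespace Ca3.Ab

open Finset

universe u w

variable {K : Type*} [Field K] [Fintype K]

/-- THEOREM V+: a 3-connected simple strict gammoid of rank at least three without thin leaf, all
of whose contractions are quaternary (itself quaternary in ranks three and four), has a spanning
member. -/
theorem vplus (hK4 : Fintype.card K = 4) {E : Type u} [DecidableEq E] [Fintype E] {N : RF E}
    {ι : Type w} [Fintype ι] {A : ι → Finset E} (hq : KC K N) (hrep : rk N univ ≤ 4 → Rep K N)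
    (hA : Fam N A) (hc : Conn3 N) (hcard : 4 ≤ Fintype.card E) (h3 : 3 ≤ rk N univ)
    (hnt : NoThin N A) : ∃ i, A i = univ := by
  induction hk : rk N univ using Nat.strong_induction_on generalizing E ι with
  | _ k ih =>
    by_contra hcon
    push Not at hcon
    rcases Nat.lt_or_ge k 4 with hk4 | hk4
    · -- rank three
      have h0 : alpha N univ = 0 := by
        have h1 := hA.alpha_eq (isFl_univ (N := N))
        rw [h1]
        simp [hcon]
      obtain ⟨i⟩ : Nonempty ι := by
        by_contra hne
        rw [not_nonempty_iff] at hne
        have h1 := hA.card_index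
        rw [Fintype.card_eq_zero] at h1
        omega
      have h1 := hA.two_le_rk hq.simple i
      have h2 := hA.rk_lt h0 i
      exact step_one hK4 hq hrep hA hc hcard h3 hcon hnt (i := i) (by omega)
    · obtain ⟨x, hx, hg⟩ := exists_good hA hc hq.simple (by omega) hcon hnt
      obtain ⟨R, -, hR⟩ := exists_isReps (N := N) (Y := {x}) (R₀ := ∅) (T := univ)
        (empty_subset _) (by simp) (by simp)
      have hr1 := hR.rk_univ (subset_univ _)
      rw [hq.simple.1 x] at hr1
      have hrep' : Rep K (N.qc {x} R) := rep_qc hq.rep (mem_singleton_self x)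
      obtain ⟨i, hi⟩ := ih (rk (N.qc {x} R) univ) (by omega)
        (hq.qc hR (mem_singleton_self x)) (fun _ => hrep') (hA.qc hR)
        (conn3_qc hc hq.simple hx hR) (four_le_card_reps hc hq.simple (by omega) hR) (by omega)
        (noThin_qc hq.simple hg hR) rfl
      have h1 := spanning_of_qc hR hi
      have h2 : rk N (A i ∪ {x}) = rk N univ := by rw [← rk_cl, h1]
      have h4 : rk N (A i) + 1 = rk N univ := by
        have h5 : rk N (A i ∪ {x}) ≤ rk N (A i) + 1 := by
          rw [union_comm, ← insert_eq]
          exact rk_insert_le
        have h6 : rk N (A i) < rk N univ :=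
          (hA.fl i).rk_lt_of_ssubset ((ssubset_univ_iff).2 (hcon i))
        omega
      exact step_one hK4 hq hrep hA hc hcard h3 hcon hnt h4

end Ca3.Ab
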