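import Pool.Agent.Lib.MP_ca3eb1_co.Defs

/-! # Basic facts about rank, closure, flats and Mason families -/

set_option linter.unusedSectionVars false

namespace Ca3

open Finset Submodule

section span

variable {K V E : Type*} [Field K] [AddCommGroup V] [Module K V] {v : E → V}
  {X Y : Finset E} {e f : E}

lemma mem_sp (h : e ∈ X) : v e ∈ sp K v X :=
  subset_span ⟨e, by simpa using h, rfl⟩

lemma sp_le_iff {W : Submodule K V} : sp K v X ≤ W ↔ ∀ e ∈ X, v e ∈ W := by
  unfold sp
  rw [span_le]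
  constructor
  · intro h e he
    exact h ⟨e, by simpa using he, rfl⟩
  · rintro h _ ⟨e, he, rfl⟩
    exact h e (by simpa using he)

lemma sp_mono (h : X ⊆ Y) : sp K v X ≤ sp K v Y :=
  sp_le_iff.2 fun _ he => mem_sp (h he)

@[simp] lemma sp_empty : sp K v (∅ : Finset E) = ⊥ := by
  simp [sp]

@[simp] lemma sp_singleton : sp K v ({e} : Finset E) = span K {v e} := by
  simp [sp]

lemma sp_union [DecidableEq E] : sp K v (X ∪ Y) = sp K v X ⊔ sp K v Y := by
  simp only [sp, coe_union, Set.image_union, span_union]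

lemma sp_insert [DecidableEq E] : sp K v (insert e X) = span K {v e} ⊔ sp K v X := by
  rw [insert_eq, sp_union, sp_singleton]

lemma sp_pair [DecidableEq E] : sp K v {e, f} = span K {v e, v f} := by
  rw [sp_insert, sp_singleton, ← span_union]
  rfl

lemma sp_insert_of_mem_sp [DecidableEq E] (h : v e ∈ sp K v X) :
    sp K v (insert e X) = sp K v X := by
  apply le_antisymm
  · rw [sp_le_iff]
    intro g hg
    rcases mem_insert.1 hg with rfl | hg
    · exact h
    · exact mem_sp hg
  · exact sp_mono (subset_insert _ _)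

/-- exchange property -/
lemma mem_sp_insert_exchange [DecidableEq E] (h : v f ∈ sp K v (insert e X))
    (h' : v f ∉ sp K v X) : v e ∈ sp K v (insert f X) := by
  rw [sp_insert, Submodule.mem_sup] at h
  obtain ⟨y, hy, z, hz, hyz⟩ := h
  obtain ⟨c, rfl⟩ := mem_span_singleton.1 hy
  have hc : c ≠ 0 := by
    rintro rfl
    apply h'
    rw [← hyz]
    simpa using hz
  have : v e = c⁻¹ • (v f - z) := by
    rw [← hyz]
    simp [smul_smul, inv_mul_cancel₀ hc]
  rw [this]
  exact smul_mem _ _ (sub_mem (mem_sp (mem_insert_self _ _))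
    (sp_mono (subset_insert _ _) hz))

end span

section rank

variable {K V E : Type*} [Field K] [AddCommGroup V] [Module K V] [FiniteDimensional K V]
  {v : E → V} {X Y Z : Finset E} {e f : E}

lemma rk_le_of_sp_le (h : sp K v X ≤ sp K v Y) : rk K v X ≤ rk K v Y :=
  finrank_mono h

lemma rk_mono (h : X ⊆ Y) : rk K v X ≤ rk K v Y := rk_le_of_sp_le (sp_mono h)

lemma rk_congr (h : sp K v X = sp K v Y) : rk K v X = rk K v Y := by
  unfold rk; rw [h]

@[simp] lemma rk_empty : rk K v (∅ : Finset E) = 0 := by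
  simp [rk]

lemma rk_le_card : rk K v X ≤ X.card := by
  classical
  unfold rk sp
  have := finrank_span_le_card (R := K) (v '' (X : Set E))
  refine this.trans ?_
  rw [Set.toFinset_image]
  refine card_image_le.trans ?_
  simp

lemma rk_union_add_rk_inter [DecidableEq E] :
    rk K v (X ∪ Y) + rk K v (X ∩ Y) ≤ rk K v X + rk K v Y := by
  unfold rk
  rw [sp_union, ← finrank_sup_add_finrank_inf_eq (sp K v X) (sp K v Y)]
  have : sp K v (X ∩ Y) ≤ sp K v X ⊓ sp K v Y :=
    le_inf (sp_mono inter_subset_left) (sp_mono inter_subset_right)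
  have := finrank_mono this
  omega

lemma rk_insert_of_mem_sp [DecidableEq E] (h : v e ∈ sp K v X) :
    rk K v (insert e X) = rk K v X := rk_congr (sp_insert_of_mem_sp h)

lemma rk_insert_of_not_mem_sp [DecidableEq E] (h : v e ∉ sp K v X) :
    rk K v (insert e X) = rk K v X + 1 := by
  unfold rk
  rw [sp_insert, sup_comm]
  have hne : v e ≠ 0 := fun h0 => h (h0 ▸ zero_mem _)
  have h1 := finrank_sup_add_finrank_inf_eq (sp K v X) (span K {v e})
  have h2 : sp K v X ⊓ span K {v e} = ⊥ := by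
    rw [eq_bot_iff]
    rintro x ⟨hx1, hx2⟩
    obtain ⟨c, rfl⟩ := mem_span_singleton.1 hx2
    by_cases hc : c = 0
    · simp [hc]
    · exfalso
      apply h
      have := smul_mem _ c⁻¹ hx1
      rwa [smul_smul, inv_mul_cancel₀ hc, one_smul] at this
  rw [h2, finrank_bot, finrank_span_singleton hne] at h1
  omega

lemma rk_insert_le [DecidableEq E] : rk K v (insert e X) ≤ rk K v X + 1 := by
  by_cases h : v e ∈ sp K v X
  · rw [rk_insert_of_mem_sp h]; omega
  · rw [rk_insert_of_not_mem_sp h]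

lemma rk_insert_eq_iff [DecidableEq E] : rk K v (insert e X) = rk K v X ↔ v e ∈ sp K v X := by
  constructor
  · intro h
    by_contra h'
    rw [rk_insert_of_not_mem_sp h'] at h
    omega
  · exact rk_insert_of_mem_sp

lemma sp_eq_of_subset_of_rk_le (h : X ⊆ Y) (h' : rk K v Y ≤ rk K v X) :
    sp K v X = sp K v Y :=
  eq_of_le_of_finrank_le (sp_mono h) h'

/-- nullity is monotone -/
lemma card_add_rk_le (h : X ⊆ Y) : X.card + rk K v Y ≤ Y.card + rk K v X := by
  classical
  have h1 : rk K v Y ≤ rk K v X + rk K v (Y \ X) := by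
    have h2 := rk_union_add_rk_inter (K := K) (v := v) (X := X) (Y := Y \ X)
    rw [union_sdiff_of_subset h] at h2
    omega
  have h2 : rk K v (Y \ X) ≤ (Y \ X).card := rk_le_card
  have h3 := card_sdiff_add_card_eq_card h
  omega

lemma rk_union_le [DecidableEq E] : rk K v (X ∪ Y) ≤ rk K v X + rk K v Y := by
  have := rk_union_add_rk_inter (K := K) (v := v) (X := X) (Y := Y)
  omega

end rank

section closure

variable {K V E : Type*} [Field K] [AddCommGroup V] [Module K V] [FiniteDimensional K V]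
  [Fintype E] {v : E → V} {X Y Z F G : Finset E} {e f : E}

lemma mem_cl : e ∈ cl K v X ↔ v e ∈ sp K v X := by
  classical
  simp [cl]

lemma subset_cl : X ⊆ cl K v X := fun _ he => mem_cl.2 (mem_sp he)

@[simp] lemma sp_cl : sp K v (cl K v X) = sp K v X :=
  le_antisymm (sp_le_iff.2 fun _ he => mem_cl.1 he) (sp_mono subset_cl)

@[simp] lemma rk_cl : rk K v (cl K v X) = rk K v X := rk_congr sp_cl

lemma cl_mono_sp (h : sp K v X ≤ sp K v Y) : cl K v X ⊆ cl K v Y :=
  fun _ he => mem_cl.2 (h (mem_cl.1 he))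

lemma cl_mono (h : X ⊆ Y) : cl K v X ⊆ cl K v Y := cl_mono_sp (sp_mono h)

lemma isFl_cl : IsFl K v (cl K v X) := by
  unfold IsFl
  apply subset_antisymm _ subset_cl
  exact cl_mono_sp sp_cl.le

lemma isFl_univ : IsFl K v (univ : Finset E) :=
  subset_antisymm (subset_univ _) subset_cl

lemma IsFl.mem_iff (h : IsFl K v F) : e ∈ F ↔ v e ∈ sp K v F := by
  conv_lhs => rw [← h]
  exact mem_cl

lemma IsFl.mem (h : IsFl K v F) (he : v e ∈ sp K v F) : e ∈ F := h.mem_iff.2 he

lemma IsFl.cl_subset (hF : IsFl K v F) (h : X ⊆ F) : cl K v X ⊆ F := by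
  rw [← hF]; exact cl_mono h

lemma IsFl.cl_subset_iff (hF : IsFl K v F) : cl K v X ⊆ F ↔ X ⊆ F :=
  ⟨fun h => subset_cl.trans h, hF.cl_subset⟩

lemma IsFl.inter [DecidableEq E] (hF : IsFl K v F) (hG : IsFl K v G) : IsFl K v (F ∩ G) := by
  apply subset_antisymm _ subset_cl
  exact subset_inter (hF.cl_subset inter_subset_left) (hG.cl_subset inter_subset_right)

lemma IsFl.sp_le_iff_subset (hG : IsFl K v G) : sp K v X ≤ sp K v G ↔ X ⊆ G :=
  ⟨fun h _ he => hG.mem (h (mem_sp he)), sp_mono⟩

lemma IsFl.eq_of_subset_of_rk_le (hF : IsFl K v F) (h : F ⊆ G) (h' : rk K v G ≤ rk K v F) :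
    F = G := by
  apply subset_antisymm h
  rw [← hF.sp_le_iff_subset]
  exact (sp_eq_of_subset_of_rk_le h h').ge

lemma IsFl.rk_lt_of_ssubset (hF : IsFl K v F) (h : F ⊂ G) : rk K v F < rk K v G := by
  by_contra hc
  exact h.ne (hF.eq_of_subset_of_rk_le h.subset (not_lt.1 hc))

lemma IsFl.cl_eq (hF : IsFl K v F) (h : X ⊆ F) (h' : rk K v F ≤ rk K v X) : cl K v X = F :=
  isFl_cl.eq_of_subset_of_rk_le (hF.cl_subset h) (by simpa using h')

lemma cl_eq_cl_iff : cl K v X = cl K v Y ↔ sp K v X = sp K v Y := by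
  constructor
  · intro h
    rw [← sp_cl (X := X), h, sp_cl]
  · intro h
    exact subset_antisymm (cl_mono_sp h.le) (cl_mono_sp h.ge)

open Classical in
variable (K) in
/-- The elements in a subspace. -/
noncomputable def els (v : E → V) (W : Submodule K V) : Finset E := univ.filter (fun e => v e ∈ W)

lemma mem_els {W : Submodule K V} : e ∈ els K v W ↔ v e ∈ W := by
  classical
  simp [els]

lemma sp_els_le {W : Submodule K V} : sp K v (els K v W) ≤ W :=
  sp_le_iff.2 fun _ he => mem_els.1 he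

lemma isFl_els {W : Submodule K V} : IsFl K v (els K v W) := by
  apply subset_antisymm _ subset_cl
  intro e he
  exact mem_els.2 (sp_els_le (mem_cl.1 he))

lemma els_sp : els K v (sp K v X) = cl K v X := by
  ext e; rw [mem_els, mem_cl]

/-- the elements in a subspace spanned by elements span it -/
lemma sp_els {W : Submodule K V} (h : W = sp K v X) : sp K v (els K v W) = W := by
  subst h
  rw [els_sp, sp_cl]

end closure

section indep

variable {K V E : Type*} [Field K] [AddCommGroup V] [Module K V] [FiniteDimensional K V]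
  {v : E → V} {X Y Z I : Finset E} {e f : E}

@[simp] lemma ind_empty : Ind K v (∅ : Finset E) := by simp [Ind]

lemma Ind.subset (h : Ind K v Y) (hXY : X ⊆ Y) : Ind K v X := by
  have h1 := card_add_rk_le (K := K) (v := v) hXY
  have h2 : rk K v X ≤ X.card := rk_le_card
  unfold Ind at *
  omega

lemma Ind.insert [DecidableEq E] (h : Ind K v X) (he : v e ∉ sp K v X) :
    Ind K v (insert e X) := by
  unfold Ind at *
  rw [rk_insert_of_not_mem_sp he, h, card_insert_of_notMem]
  exact fun h' => he (mem_sp h')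

lemma Ind.not_mem_sp_erase [DecidableEq E] (h : Ind K v X) (he : e ∈ X) :
    v e ∉ sp K v (X.erase e) := by
  intro h'
  have h1 := rk_insert_of_mem_sp h'
  rw [insert_erase he] at h1
  have h2 : rk K v (X.erase e) ≤ (X.erase e).card := rk_le_card
  rw [card_erase_of_mem he] at h2
  have : 0 < X.card := card_pos.2 ⟨e, he⟩
  unfold Ind at h
  omega

lemma ind_iff_linearIndepOn : Ind K v X ↔ LinearIndepOn K v (X : Set E) := by
  classical
  unfold Ind rk sp LinearIndepOn
  rw [linearIndependent_iff_card_eq_finrank_span]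
  have : Set.range (fun x : (X : Set E) => v x) = v '' (X : Set E) := by
    ext y; simp
  rw [Set.finrank, this]
  simp [eq_comm]

/-- Extend an independent subset of `X` to a basis of `X`. -/
lemma exists_basis_extend (hI : Ind K v I) (h : I ⊆ X) :
    ∃ B, I ⊆ B ∧ B ⊆ X ∧ Ind K v B ∧ sp K v B = sp K v X := by
  classical
  obtain ⟨B, hB⟩ := ((X.powerset.filter (fun B => I ⊆ B ∧ Ind K v B))).exists_max_image card
    ⟨I, by simp [h, hI]⟩
  simp only [mem_filter, mem_powerset, and_imp] at hB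
  obtain ⟨⟨hBX, hIB, hB⟩, hmax⟩ := hB
  refine ⟨B, hIB, hBX, hB, le_antisymm (sp_mono hBX) (sp_le_iff.2 fun e he => ?_)⟩
  by_contra hc
  have heB : e ∉ B := fun h' => hc (mem_sp h')
  have := hmax (insert e B) (insert_subset he hBX) (hIB.trans (subset_insert _ _)) (hB.insert hc)
  rw [card_insert_of_notMem heB] at this
  omega

lemma exists_basis (X : Finset E) : ∃ B, B ⊆ X ∧ Ind K v B ∧ sp K v B = sp K v X := by
  obtain ⟨B, -, h⟩ := exists_basis_extend (K := K) (v := v) (I := ∅) (X := X) (by simp) (by simp)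
  exact ⟨B, h⟩

lemma Ind.rk_eq_card (h : Ind K v X) : rk K v X = X.card := h

/-- Extend an independent subset of `X` inside `X` to a set of any size up to the rank. -/
lemma exists_ind_card {n : ℕ} (hI : Ind K v I) (h : I ⊆ X) (h1 : I.card ≤ n)
    (h2 : n ≤ rk K v X) : ∃ B, I ⊆ B ∧ B ⊆ X ∧ Ind K v B ∧ B.card = n := by
  obtain ⟨B, hIB, hBX, hB, hs⟩ := exists_basis_extend hI h
  have hc : B.card = rk K v X := by rw [← hB.rk_eq_card, rk_congr hs]
  obtain ⟨C, hIC, hCB, hC⟩ := exists_subsuperset_card_eq hIB h1 (by omega)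
  exact ⟨C, hIC, hCB.trans hBX, hB.subset hCB, hC⟩

end indep

section simple

variable {K V E : Type*} [Field K] [AddCommGroup V] [Module K V] [FiniteDimensional K V]
  {v : E → V} {X Y Z F : Finset E} {e f : E}

lemma Simple.rk_singleton (h : Simple K v) : rk K v {e} = 1 := by
  unfold rk
  rw [sp_singleton, finrank_span_singleton (h.1 e)]

lemma Simple.rk_pair [DecidableEq E] (h : Simple K v) (hef : e ≠ f) : rk K v {e, f} = 2 := by
  rw [rk_insert_of_not_mem_sp, h.rk_singleton]
  rw [sp_singleton]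
  exact fun h' => hef (h.2 e f h')

lemma Simple.ind_of_card_le_two (h : Simple K v) (hX : X.card ≤ 2) : Ind K v X := by
  classical
  unfold Ind
  have h3 : X.card = 0 ∨ X.card = 1 ∨ X.card = 2 := by omega
  rcases h3 with h3 | h3 | h3
  · rw [card_eq_zero] at h3
    subst h3; simp
  · rw [h3]
    obtain ⟨a, rfl⟩ := card_eq_one.1 h3
    exact h.rk_singleton
  · rw [h3]
    obtain ⟨a, b, hab, rfl⟩ := card_eq_two.1 h3
    exact h.rk_pair hab

lemma Simple.two_le_rk (h : Simple K v) (hX : 2 ≤ X.card) : 2 ≤ rk K v X := by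
  classical
  obtain ⟨C, hCX, hC⟩ := exists_subset_card_eq hX
  have := (h.ind_of_card_le_two (X := C) (by omega)).rk_eq_card
  have := rk_mono (K := K) (v := v) hCX
  omega

lemma Simple.card_le_one (h : Simple K v) (hX : rk K v X ≤ 1) : X.card ≤ 1 := by
  by_contra hc
  have := h.two_le_rk (X := X) (by omega)
  omega

lemma Simple.isFl_empty [Fintype E] (h : Simple K v) : IsFl K v (∅ : Finset E) := by
  rw [IsFl, eq_empty_iff_forall_notMem]
  intro e he
  rw [mem_cl, sp_empty, Submodule.mem_bot] at he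
  exact h.1 e he

lemma Simple.isFl_singleton [Fintype E] (h : Simple K v) (e : E) : IsFl K v {e} := by
  apply subset_antisymm _ subset_cl
  intro f hf
  rw [mem_cl, sp_singleton] at hf
  rw [mem_singleton]
  exact h.2 _ _ hf

end simple

section mason

variable {K V E : Type*} [Field K] [AddCommGroup V] [Module K V] [FiniteDimensional K V]
  [Fintype E] [DecidableEq E] {v : E → V} {X Y Z F T Y' T' : Finset E} {e f : E}
  {ι κ : Type*} [Fintype ι] [Fintype κ] {A : ι → Finset E}

lemma cnt_mono (h : X ⊆ Y) : cnt A X ≤ cnt A Y := by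
  unfold cnt
  apply card_le_card
  intro i hi
  simp only [mem_filter, mem_univ, true_and] at *
  exact hi.trans h

lemma cnt_reindex (σ : κ ≃ ι) : cnt (fun k => A (σ k)) Z = cnt A Z := by
  unfold cnt
  apply card_bij (fun k _ => σ k)
  · intro k hk; simpa using hk
  · intro a _ b _ h; exact σ.injective h
  · intro i hi; exact ⟨σ.symm i, by simpa using hi, by simp⟩

lemma IsMason.sg (h : IsMason K v Y T A) : SG K v Y T := by
  refine ⟨Fintype.card ι, fun i => A ((Fintype.equivFin ι).symm i), ?_⟩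
  intro Z hYZ hZT
  rw [cnt_reindex (A := A) (Fintype.equivFin ι).symm]
  exact h Z hYZ hZT

/-- reindexing a Mason family by `Fin n` -/
lemma IsMason.exists_fin (h : IsMason K v Y T A) :
    ∃ (n : ℕ) (A' : Fin n → Finset E), IsMason K v Y T A' ∧ ∀ i, ∃ j, A' j = A i := by
  refine ⟨Fintype.card ι, fun i => A ((Fintype.equivFin ι).symm i), ?_, fun i =>
    ⟨Fintype.equivFin ι i, by simp⟩⟩
  intro Z hYZ hZT
  rw [cnt_reindex (A := A) (Fintype.equivFin ι).symm]
  exact h Z hYZ hZT

lemma IsMason.mono (h : IsMason K v Y T A) (hY : Y ⊆ Y') (hT : T' ⊆ T) :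
    IsMason K v Y' T' A :=
  fun Z h1 h2 => h Z (hY.trans h1) (h2.trans hT)

lemma SG.mono (h : SG K v Y T) (hY : Y ⊆ Y') (hT : T' ⊆ T) : SG K v Y' T' := by
  obtain ⟨n, A, hA⟩ := h
  exact ⟨n, A, hA.mono hY hT⟩

lemma IsMason.le (h : IsMason K v Y T A) (hY : Y ⊆ Z) (hT : Z ⊆ T) :
    cnt A Z + rk K v Z ≤ Z.card := (h Z hY hT).1

lemma IsMason.eq (h : IsMason K v Y T A) (hY : Y ⊆ Z) (hT : Z ⊆ T) (hZ : IsFl K v Z) :
    cnt A Z + rk K v Z = Z.card := (h Z hY hT).2 hZ

/-- Closing the members of a Mason family. -/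
lemma IsMason.closure (h : IsMason K v Y T A) :
    IsMason K v Y T (fun i => cl K v (A i ∪ Y)) := by
  intro Z hYZ hZT
  have h1 : ∀ i, cl K v (A i ∪ Y) ⊆ Z → A i ⊆ Z := fun i hi =>
    (subset_union_left.trans subset_cl).trans hi
  have h2 : cnt (fun i => cl K v (A i ∪ Y)) Z ≤ cnt A Z := by
    unfold cnt
    apply card_le_card
    intro i hi
    simp only [mem_filter, mem_univ, true_and] at *
    exact h1 i hi
  refine ⟨by have := h.le hYZ hZT; omega, fun hZ => ?_⟩
  have h3 : cnt (fun i => cl K v (A i ∪ Y)) Z = cnt A Z := by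
    apply le_antisymm h2
    unfold cnt
    apply card_le_card
    intro i hi
    simp only [mem_filter, mem_univ, true_and] at *
    exact hZ.cl_subset (union_subset hi hYZ)
  rw [h3]
  exact h.eq hYZ hZT hZ

/-- inclusion-exclusion for three sets in a Mason family -/
lemma cnt_three (A : ι → Finset E) (F1 F2 F3 : Finset E) :
    cnt A F1 + cnt A F2 + cnt A F3 + cnt A (F1 ∩ F2 ∩ F3) ≤
      cnt A (F1 ∪ F2 ∪ F3) + cnt A (F1 ∩ F2) + cnt A (F1 ∩ F3) + cnt A (F2 ∩ F3) := by
  unfold cnt
  simp only [card_filter]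
  rw [← sum_add_distrib, ← sum_add_distrib, ← sum_add_distrib, ← sum_add_distrib,
    ← sum_add_distrib, ← sum_add_distrib]
  apply sum_le_sum
  intro i _
  simp only [subset_inter_iff]
  have hU : A i ⊆ F1 ∨ A i ⊆ F2 ∨ A i ⊆ F3 → A i ⊆ F1 ∪ F2 ∪ F3 := by
    rintro (h | h | h)
    · exact h.trans (subset_union_left.trans subset_union_left)
    · exact h.trans (subset_union_right.trans subset_union_left)
    · exact h.trans subset_union_right
  by_cases h1 : A i ⊆ F1 <;> by_cases h2 : A i ⊆ F2 <;> by_cases h3 : A i ⊆ F3 <;>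
    by_cases hu : A i ⊆ F1 ∪ F2 ∪ F3 <;> simp_all

/-- M3: the inequality for three flats. -/
theorem M3 (h : SG K v Y T) {F1 F2 F3 : Finset E} (h1 : IsFl K v F1) (h2 : IsFl K v F2)
    (h3 : IsFl K v F3) (hY1 : Y ⊆ F1) (hY2 : Y ⊆ F2) (hY3 : Y ⊆ F3)
    (hT : F1 ∪ F2 ∪ F3 ⊆ T) :
    rk K v (F1 ∪ F2 ∪ F3) + rk K v (F1 ∩ F2) + rk K v (F1 ∩ F3) + rk K v (F2 ∩ F3) ≤
      rk K v F1 + rk K v F2 + rk K v F3 + rk K v (F1 ∩ F2 ∩ F3) := by
  obtain ⟨n, A, hA⟩ := h
  have e1 := hA.eq hY1 (subset_union_left.trans (subset_union_left.trans hT)) h1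
  have e2 := hA.eq hY2 (subset_union_right.trans (subset_union_left.trans hT)) h2
  have e3 := hA.eq hY3 (subset_union_right.trans hT) h3
  have e12 := hA.eq (subset_inter hY1 hY2)
    ((inter_subset_left.trans subset_union_left).trans (subset_union_left.trans hT))
    (h1.inter h2)
  have e13 := hA.eq (subset_inter hY1 hY3)
    ((inter_subset_left.trans subset_union_left).trans (subset_union_left.trans hT))
    (h1.inter h3)
  have e23 := hA.eq (subset_inter hY2 hY3)
    (inter_subset_right.trans (subset_union_right.trans hT)) (h2.inter h3)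
  have e123 := hA.eq (subset_inter (subset_inter hY1 hY2) hY3)
    (inter_subset_right.trans (subset_union_right.trans hT)) ((h1.inter h2).inter h3)
  have eU := hA.le (hY1.trans (subset_union_left.trans subset_union_left)) hT
  have hc := cnt_three A F1 F2 F3
  have hcard : (F1 ∪ F2 ∪ F3).card + (F1 ∩ F2).card + (F1 ∩ F3).card + (F2 ∩ F3).card =
      F1.card + F2.card + F3.card + (F1 ∩ F2 ∩ F3).card := by
    have c1 := card_union_add_card_inter F1 F2
    have c2 := card_union_add_card_inter (F1 ∪ F2) F3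
    have c3 := card_union_add_card_inter (F1 ∩ F3) (F2 ∩ F3)
    have c4 : (F1 ∪ F2) ∩ F3 = (F1 ∩ F3) ∪ (F2 ∩ F3) := union_inter_distrib_right _ _ _
    have c5 : (F1 ∩ F3) ∩ (F2 ∩ F3) = F1 ∩ F2 ∩ F3 := by
      ext x; simp only [mem_inter]; tauto
    rw [c4] at c2
    rw [c5] at c3
    omega
  omega

end mason

end Ca3
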