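import Pool.Agent.Lib.MP_ca3eb1_co.MDefs
import Pool.Agent.Lib.MP_ca3eb1_co.Basic

/-! # Module M14a: the dual of a representable finite matroid is representable -/

namespace Ca3

open Matroid

variable {α : Type*} {K : Type*} [Field K]

private theorem dr_lin {V : Type*} [AddCommGroup V] [Module K V] {S : Set α}
    (v : α → V) (I : Set S) :
    LinearIndepOn K v (Subtype.val '' I) ↔ LinearIndepOn K (fun e : S => v e) I := by
  constructor
  · intro h
    exact h.comp_of_image Subtype.val_injective.injOn
  · intro h
    exact LinearIndepOn.image_of_comp _ _ h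

private theorem dr_exists_finset {M : Matroid α} [Fintype M.E] {I : Set α} (hI : I ⊆ M.E) :
    ∃ J : Finset M.E, Subtype.val '' (J : Set M.E) = I := by
  classical
  refine ⟨Finset.univ.filter (fun e => (e : α) ∈ I), ?_⟩
  ext x
  simp only [Finset.coe_filter, Finset.mem_univ, true_and, Set.mem_image]
  constructor
  · rintro ⟨a, ha, rfl⟩
    exact ha
  · intro hx
    exact ⟨⟨x, hI hx⟩, hx, rfl⟩

private theorem dr_dual_indep {M : Matroid α} [Fintype M.E] [DecidableEq M.E] {V : Type*}
    [AddCommGroup V] [Module K V] [FiniteDimensional K V] {w : M.E → V}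
    (h : ∀ I : Finset M.E, M.Indep (Subtype.val '' (I : Set M.E)) ↔ Ind K w I) (I : Finset M.E) :
    M✶.Indep (Subtype.val '' (I : Set M.E)) ↔
      rk K w (Finset.univ \ I) = rk K w Finset.univ := by
  have hsub : Subtype.val '' (I : Set M.E) ⊆ M.E := by
    rintro _ ⟨e, _, rfl⟩
    exact e.2
  have hins : ∀ (e : M.E) (J : Finset M.E),
      (Subtype.val '' ((insert e J : Finset M.E) : Set M.E)) =
      insert (e : α) (Subtype.val '' (J : Set M.E)) := by
    intro e J
    rw [Finset.coe_insert, Set.image_insert_eq]
  rw [Matroid.dual_indep_iff_exists']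
  constructor
  · rintro ⟨_, B, hB, hd⟩
    obtain ⟨J, rfl⟩ := dr_exists_finset (M := M) (I := B) hB.subset_ground
    have hJ := (h J).1 hB.indep
    have hs : sp K w J = sp K w Finset.univ := by
      refine le_antisymm (sp_mono (Finset.subset_univ _)) (sp_le_iff.2 fun e _ => ?_)
      by_contra hc
      have h1 : Ind K w (insert e J) := hJ.insert hc
      rw [← h, hins] at h1
      have h3 : (e : α) ∉ Subtype.val '' (J : Set M.E) := by
        rintro ⟨a, ha, hae⟩
        have : a = e := Subtype.ext hae
        subst this
        exact hc (mem_sp ha)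
      have h4 := Matroid.IsBase.eq_of_subset_indep hB h1 (Set.subset_insert _ _)
      exact h3 (h4 ▸ Set.mem_insert _ _)
    apply le_antisymm (rk_mono (Finset.subset_univ _))
    rw [← rk_congr hs]
    apply rk_mono
    intro x hx
    rw [Finset.mem_sdiff]
    refine ⟨Finset.mem_univ _, fun hxI => ?_⟩
    exact (Set.disjoint_left.1 hd) ⟨x, hxI, rfl⟩ ⟨x, hx, rfl⟩
  · intro hr
    obtain ⟨J, hJs, hJ, hs⟩ := exists_basis (K := K) (v := w) (Finset.univ \ I)
    have hs' : sp K w J = sp K w Finset.univ := by
      rw [hs]
      exact sp_eq_of_subset_of_rk_le (Finset.subset_univ _) hr.ge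
    refine ⟨hsub, Subtype.val '' (J : Set M.E), ?_, ?_⟩
    · apply Matroid.Indep.isBase_of_forall_insert ((h J).2 hJ)
      intro e he hi
      have heE : e ∈ M.E := he.1
      rw [← hins ⟨e, heE⟩ J, h] at hi
      have hne : (⟨e, heE⟩ : M.E) ∉ J := fun hh => he.2 ⟨_, hh, rfl⟩
      have h2 := hi.not_mem_sp_erase (Finset.mem_insert_self _ _)
      rw [Finset.erase_insert hne, hs'] at h2
      exact h2 (mem_sp (Finset.mem_univ _))
    · rw [Set.disjoint_left]
      rintro _ ⟨a, ha, rfl⟩ ⟨b, hb, hab⟩
      have : b = a := Subtype.ext hab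
      subst this
      exact (Finset.mem_sdiff.1 (hJs hb)).2 ha

/-- the coordinate functionals on the space of relations -/
private theorem dr_functionals {E V : Type*} [Fintype E] [DecidableEq E] [AddCommGroup V]
    [Module K V] [FiniteDimensional K V] (v : E → V) :
    ∃ (m : ℕ) (w : E → (Fin m → K)), ∀ I : Finset E,
      rk K v (Finset.univ \ I) = rk K v Finset.univ ↔ LinearIndepOn K w (I : Set E) := by
  classical
  set L : (E → K) →ₗ[K] V := Fintype.linearCombination K v with hL
  set W := LinearMap.ker L with hW
  set w0 : E → Module.Dual K W := fun e => (LinearMap.proj e).comp W.subtype with hw0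
  have key : ∀ I : Finset E,
      rk K v (Finset.univ \ I) = rk K v Finset.univ ↔ LinearIndepOn K w0 (I : Set E) := by
    intro I
    rw [linearIndepOn_finset_iff]
    constructor
    · intro hr f hf e he
      have hs : sp K v (Finset.univ \ I) = sp K v Finset.univ :=
        sp_eq_of_subset_of_rk_le (Finset.subset_univ _) hr.ge
      have h1 : v e ∈ sp K v (Finset.univ \ I) := by
        rw [hs]; exact mem_sp (Finset.mem_univ _)
      unfold sp at h1
      rw [Submodule.mem_span_image_finset_iff_exists_fun'] at h1
      obtain ⟨c, hc⟩ := h1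
      set x : E → K := fun i => (if i = e then 1 else 0) - (if i ∈ Finset.univ \ I then c i else 0) with hx
      have hxW : x ∈ W := by
        rw [hW, LinearMap.mem_ker, hL, Fintype.linearCombination_apply]
        simp only [hx, sub_smul, ite_smul, one_smul, zero_smul]
        rw [Finset.sum_sub_distrib, Finset.sum_ite_eq' Finset.univ e (fun i => v i),
          if_pos (Finset.mem_univ _), ← Finset.sum_filter]
        have : Finset.univ.filter (fun i => i ∈ Finset.univ \ I) = Finset.univ \ I := by
          ext i; simp
        rw [this, hc, sub_self]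
      have h2 := LinearMap.congr_fun hf ⟨x, hxW⟩
      rw [LinearMap.sum_apply] at h2
      simp only [hw0, LinearMap.smul_apply, LinearMap.comp_apply, Submodule.subtype_apply,
        LinearMap.proj_apply, smul_eq_mul, LinearMap.zero_apply] at h2
      rw [Finset.sum_eq_single e] at h2
      · simpa [hx, he] using h2
      · intro i hi hie
        simp [hx, hi, hie]
      · intro h; exact absurd he h
    · intro hl
      by_contra hr
      have hne : ∃ e, v e ∉ sp K v (Finset.univ \ I) := by
        by_contra hcon
        push Not at hcon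
        apply hr
        apply rk_congr
        exact le_antisymm (sp_mono (Finset.subset_univ _)) (sp_le_iff.2 fun e _ => hcon e)
      obtain ⟨e, he⟩ := hne
      obtain ⟨φ, hφ, hker⟩ := Submodule.exists_le_ker_of_notMem he
      have heI : e ∈ I := by
        by_contra hh
        exact he (mem_sp (by simpa using hh))
      have h1 : ∑ i ∈ I, φ (v i) • w0 i = 0 := by
        apply LinearMap.ext
        rintro ⟨x, hx⟩
        rw [LinearMap.sum_apply]
        simp only [hw0, LinearMap.smul_apply, LinearMap.comp_apply, Submodule.subtype_apply,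
          LinearMap.proj_apply, smul_eq_mul, LinearMap.zero_apply]
        rw [hW, LinearMap.mem_ker, hL, Fintype.linearCombination_apply] at hx
        have h2 := congrArg φ hx
        rw [map_sum, map_zero] at h2
        simp only [map_smul, smul_eq_mul] at h2
        rw [← h2, ← Finset.sum_sdiff (Finset.subset_univ I)]
        have h3 : ∑ i ∈ Finset.univ \ I, x i * φ (v i) = 0 := by
          apply Finset.sum_eq_zero
          intro i hi
          have : φ (v i) = 0 := hker (mem_sp hi)
          rw [this, mul_zero]
        rw [h3, zero_add]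
        apply Finset.sum_congr rfl
        intro i _
        ring
      have h2 := hl (fun i => φ (v i)) h1 e heI
      exact hφ h2
  set Φ := (Module.finBasis K (Module.Dual K W)).equivFun with hΦ
  refine ⟨Module.finrank K (Module.Dual K W), fun e => Φ (w0 e), fun I => ?_⟩
  rw [key I]
  have : (fun e => Φ (w0 e)) = (Φ : Module.Dual K W →ₗ[K] _) ∘ w0 := rfl
  rw [this, LinearMap.linearIndepOn_iff_of_injOn]
  exact Φ.injective.injOn

theorem IsRepr.dual {M : Matroid α} [M.Finite] (h : IsRepr K M) : IsRepr K M✶ := by
  classical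
  have : Finite M.E := M.ground_finite
  have : Fintype M.E := Fintype.ofFinite _
  obtain ⟨n, v, hv⟩ := h
  have h1 : ∀ I : Finset M.E, M.Indep (Subtype.val '' (I : Set M.E)) ↔
      Ind K (fun e : M.E => v e) I := by
    intro I
    have hsub : Subtype.val '' (I : Set M.E) ⊆ M.E := by
      rintro _ ⟨e, _, rfl⟩
      exact e.2
    rw [hv _ hsub, dr_lin, ind_iff_linearIndepOn]
  obtain ⟨m, w, hw⟩ := dr_functionals (K := K) (fun e : M.E => v e)
  refine ⟨m, fun e => if he : e ∈ M.E then w ⟨e, he⟩ else 0, fun I hI => ?_⟩
  obtain ⟨J, rfl⟩ := dr_exists_finset (M := M) (I := I) hI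
  rw [dr_dual_indep h1 J, hw J, dr_lin]
  have : (fun e : M.E => (if he : (e : α) ∈ M.E then w ⟨e, he⟩ else 0)) = w := by
    funext e
    rw [dif_pos e.2]
  rw [this]

theorem IsRepr.delete {M : Matroid α} (h : IsRepr K M) (D : Set α) : IsRepr K (M ＼ D) := by
  obtain ⟨n, v, hv⟩ := h
  refine ⟨n, v, fun I hI => ?_⟩
  rw [Matroid.delete_ground] at hI
  rw [Matroid.delete_indep_iff, hv I (hI.trans Set.sdiff_subset)]
  constructor
  · exact fun h => h.1
  · intro h
    refine ⟨h, ?_⟩
    rw [Set.disjoint_left]
    intro x hx
    exact (hI hx).2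

theorem IsRepr.contract {M : Matroid α} [M.Finite] (h : IsRepr K M) (D : Set α) :
    IsRepr K (M ／ D) := by
  rw [← Matroid.dual_delete_dual]
  exact (h.dual.delete D).dual

end Ca3
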