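import Pool.Agent.Lib.MP_ca3eb1_co.Basic
import Pool.Agent.Lib.MP_ca3eb1_co.T7

/-! # Module M14b: Mason's theorem for configurations -/

set_option linter.unusedSectionVars false

namespace Ca3

open Finset Submodule

variable (K : Type*) {V E : Type*} [Field K] [AddCommGroup V] [Module K V]
  [Fintype E] [DecidableEq E]

/-- The dual of `N / D` is transversal (`N` the matroid represented by `v`): the sets `I`
disjoint from `D` with spanning complement are the partial transversals of a finite family. -/
def HasTrans (v : E → V) (D : Finset E) : Prop :=
  ∃ (r : ℕ) (B : Fin r → Finset E), ∀ I : Finset E, Disjoint I D →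
    (rk K v (univ \ I) = rk K v univ ↔
      ∃ f : I → Fin r, Function.Injective f ∧ ∀ e : I, (e : E) ∈ B (f e))

variable {K} [FiniteDimensional K V] {v : E → V}

omit [Fintype E] in
/-- Hall's theorem in the form: all subsets `S` of `I` meet at least `|S|` of the sets. -/
private theorem ht_hall {r : ℕ} (B : Fin r → Finset E) (I : Finset E) :
    (∃ f : I → Fin r, Function.Injective f ∧ ∀ e : I, (e : E) ∈ B (f e)) ↔
      ∀ S ⊆ I, S.card ≤ (univ.filter (fun j => ¬ Disjoint (B j) S)).card := by
  classical
  have h := Finset.all_card_le_biUnion_card_iff_exists_injective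
    (fun e : I => univ.filter (fun j => (e : E) ∈ B j))
  have h1 : (∃ f : I → Fin r, Function.Injective f ∧
      ∀ x : I, f x ∈ univ.filter (fun j => (x : E) ∈ B j)) ↔
      ∃ f : I → Fin r, Function.Injective f ∧ ∀ e : I, (e : E) ∈ B (f e) := by
    simp
  rw [← h1, ← h]
  have key : ∀ s : Finset I, (s.biUnion (fun e : I => univ.filter (fun j => (e : E) ∈ B j))) =
      univ.filter (fun j => ¬ Disjoint (B j) (s.map (Function.Embedding.subtype _))) := by
    intro s
    ext j
    simp only [mem_biUnion, mem_filter, mem_univ, true_and, Finset.not_disjoint_iff, mem_map,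
      Function.Embedding.coe_subtype]
    constructor
    · rintro ⟨a, ha, hj⟩
      exact ⟨a, hj, a, ha, rfl⟩
    · rintro ⟨x, hj, a, ha, rfl⟩
      exact ⟨a, ha, hj⟩
  constructor
  · intro hh S hS
    have h2 := hh (S.subtype (fun e => e ∈ I))
    rw [key] at h2
    have h3 : (S.subtype (fun e => e ∈ I)).map (Function.Embedding.subtype _) = S := by
      rw [Finset.subtype_map, filter_true_of_mem hS]
    rw [h3] at h2
    have h4 : (S.subtype (fun e => e ∈ I)).card = S.card := by
      rw [Finset.card_subtype, filter_true_of_mem hS]
    rwa [h4] at h2
  · intro hh s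
    rw [key]
    have h2 := hh (s.map (Function.Embedding.subtype _)) (by
      intro x hx
      rw [mem_map] at hx
      obtain ⟨a, _, rfl⟩ := hx
      exact a.2)
    rwa [card_map] at h2

theorem hasTrans_of_SG {D : Finset E} (hD : IsFl K v D) (hI : Ind K v D)
    (h : SG K v D univ) : HasTrans K v D := by
  classical
  obtain ⟨n, A, hA⟩ := h
  refine ⟨n, A, fun I hID => ?_⟩
  have hDu : ∀ S ⊆ I, D ⊆ univ \ S := by
    intro S hS x hx
    rw [mem_sdiff]
    exact ⟨mem_univ _, fun hxS => (Finset.disjoint_left.1 hID) (hS hxS) hx⟩
  constructor
  · intro hr
    rw [ht_hall]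
    intro S hS
    have h1 := hA.le (hDu S hS) (subset_univ _)
    have h2 := hA.eq (subset_univ _) (Subset.refl _) (isFl_univ (K := K) (v := v))
    have h3 : rk K v (univ \ S) = rk K v univ := by
      apply le_antisymm (rk_mono (subset_univ _))
      rw [← hr]
      exact rk_mono (sdiff_subset_sdiff (Subset.refl _) hS)
    have h4 : cnt A univ = n := by
      unfold cnt
      simp
    have h5 : cnt A (univ \ S) + (univ.filter (fun j => ¬ Disjoint (A j) S)).card = n := by
      have h6 : (univ.filter (fun j => A j ⊆ univ \ S)) = univ.filter (fun j => Disjoint (A j) S) := by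
        ext j
        simp only [mem_filter, mem_univ, true_and]
        rw [Finset.subset_sdiff]
        simp
      unfold cnt
      rw [h6, Finset.card_filter_add_card_filter_not]
      simp
    have h7 : (univ \ S).card + S.card = (univ : Finset E).card :=
      card_sdiff_add_card_eq_card (subset_univ _)
    omega
  · rintro ⟨f, hf, hm⟩
    rcases I.eq_empty_or_nonempty with rfl | ⟨e0, he0⟩
    · rw [sdiff_empty]
    · set σ : E → Fin n := fun e => if he : e ∈ I then f ⟨e, he⟩ else f ⟨e0, he0⟩ with hσ
      have hσ1 : ∀ e (he : e ∈ I), σ e = f ⟨e, he⟩ := by
        intro e he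
        simp only [hσ, he, dif_pos]
      refine coindep hA isFl_univ (subset_univ _) (hDu I (Subset.refl _)) σ ?_ ?_ ?_
      · intro a ha b hb hab
        rw [mem_coe] at ha hb
        rw [hσ1 a ha, hσ1 b hb] at hab
        have := hf hab
        exact congrArg Subtype.val this
      · intro w hw
        rw [hσ1 w hw]
        exact hm ⟨w, hw⟩
      · intro w _
        exact subset_univ _

/-- a set of the maximal possible size whose removal keeps the rank -/
private theorem ht_exists_good (Z : Finset E) : ∃ I, Disjoint I Z ∧
    rk K v (univ \ I) = rk K v univ ∧ I.card + rk K v univ + Z.card = Fintype.card E + rk K v Z := by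
  classical
  obtain ⟨B, hBZ, hB, hBs⟩ := exists_basis (K := K) (v := v) Z
  obtain ⟨C, hBC, -, hC, hCs⟩ := exists_basis_extend (K := K) (v := v) hB (subset_univ B)
  refine ⟨univ \ (Z ∪ C), ?_, ?_, ?_⟩
  · rw [Finset.disjoint_left]
    intro x hx hxZ
    rw [mem_sdiff, mem_union] at hx
    exact hx.2 (Or.inl hxZ)
  · rw [sdiff_sdiff_right_self]
    apply le_antisymm (rk_mono (subset_univ _))
    rw [← rk_congr hCs]
    apply rk_mono
    intro x hx
    simp [hx]
  · have h1 : (univ \ (Z ∪ C)).card + (Z ∪ C).card = Fintype.card E := by
      rw [card_sdiff_add_card_eq_card (subset_univ _), card_univ]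
    have h2 := card_union_add_card_inter Z C
    have h3 : (Z ∩ C).card = rk K v Z := by
      apply le_antisymm
      · have h4 : Ind K v (Z ∩ C) := hC.subset inter_subset_right
        rw [← h4.rk_eq_card]
        exact rk_mono inter_subset_left
      · rw [← rk_congr hBs, hB.rk_eq_card]
        exact card_le_card (subset_inter hBZ hBC)
    have h4 : C.card = rk K v univ := by
      rw [← hC.rk_eq_card, rk_congr hCs]
    omega

private theorem ht_good_le {I Z : Finset E} (h : Disjoint I Z)
    (hr : rk K v (univ \ I) = rk K v univ) :
    I.card + rk K v univ + Z.card ≤ Fintype.card E + rk K v Z := by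
  have h1 : Z ⊆ univ \ I := by
    intro x hx
    rw [mem_sdiff]
    exact ⟨mem_univ _, fun hxI => (Finset.disjoint_left.1 h) hxI hx⟩
  have h2 := card_add_rk_le (K := K) (v := v) h1
  have h3 : (univ \ I).card + I.card = Fintype.card E := by
    rw [card_sdiff_add_card_eq_card (subset_univ _), card_univ]
  omega

/-- exchange -/
private theorem ht_exchange {Z B : Finset E} (hZ : IsFl K v Z) {y : E} (hy : y ∉ Z)
    (hs : rk K v (Z ∪ B) = rk K v univ) :
    ∃ b ∈ B, rk K v (insert y (Z ∪ B.erase b)) = rk K v univ := by
  classical
  have hsp : sp K v (Z ∪ B) = sp K v univ :=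
    sp_eq_of_subset_of_rk_le (subset_univ _) hs.ge
  have hyB : v y ∈ sp K v (Z ∪ B) := by
    rw [hsp]; exact mem_sp (mem_univ _)
  obtain ⟨C, hC, hmin⟩ := ((B.powerset.filter (fun C => v y ∈ sp K v (Z ∪ C)))).exists_min_image card
    ⟨B, by simp [hyB]⟩
  simp only [mem_filter, mem_powerset, and_imp] at hC hmin
  have hCne : C.Nonempty := by
    rw [nonempty_iff_ne_empty]
    rintro rfl
    rw [union_empty] at hC
    exact hy (hZ.mem hC.2)
  obtain ⟨b, hb⟩ := hCne
  have h1 : v y ∉ sp K v (Z ∪ C.erase b) := by
    intro h
    have := hmin (C.erase b) ((erase_subset _ _).trans hC.1) h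
    rw [card_erase_of_mem hb] at this
    have : 0 < C.card := card_pos.2 ⟨b, hb⟩
    omega
  have h2 : insert b (Z ∪ C.erase b) = Z ∪ C := by
    ext x
    simp only [mem_insert, mem_union, mem_erase]
    constructor
    · rintro (rfl | h | h)
      · exact Or.inr hb
      · exact Or.inl h
      · exact Or.inr h.2
    · rintro (h | h)
      · exact Or.inr (Or.inl h)
      · by_cases hx : x = b
        · exact Or.inl hx
        · exact Or.inr (Or.inr ⟨hx, h⟩)
  have h3 : v b ∈ sp K v (insert y (Z ∪ C.erase b)) := by
    apply mem_sp_insert_exchange _ h1
    rw [h2]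
    exact hC.2
  refine ⟨b, hC.1 hb, ?_⟩
  apply le_antisymm (rk_mono (subset_univ _))
  rw [← hs]
  apply rk_le_of_sp_le
  rw [sp_le_iff]
  intro e he
  by_cases heb : e = b
  · subst heb
    apply sp_mono _ h3
    intro x hx
    simp only [mem_insert, mem_union, mem_erase] at hx ⊢
    rcases hx with h | h | h
    · exact Or.inl h
    · exact Or.inr (Or.inl h)
    · exact Or.inr (Or.inr ⟨h.1, hC.1 h.2⟩)
  · apply mem_sp
    simp only [mem_insert, mem_union, mem_erase] at he ⊢
    rcases he with h | h
    · exact Or.inr (Or.inl h)
    · exact Or.inr (Or.inr ⟨heb, h⟩)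

theorem SG_of_hasTrans {D : Finset E} (hD : IsFl K v D) (hI : Ind K v D)
    (h : HasTrans K v D) : SG K v D univ := by
  classical
  obtain ⟨r, B, hB⟩ := h
  -- good sets
  set good : Finset E → Prop := fun I => Disjoint I D ∧ rk K v (univ \ I) = rk K v univ with hgood
  set N : Finset E → Finset (Fin r) := fun S => univ.filter (fun j => ¬ Disjoint (B j) S) with hN
  have hmatch : ∀ I, Disjoint I D → (rk K v (univ \ I) = rk K v univ ↔
      ∀ S ⊆ I, S.card ≤ (N S).card) := by
    intro I hID
    rw [hB I hID, ht_hall]
  -- a maximal good set
  obtain ⟨B0, hB0D, hB0r, hB0c⟩ := ht_exists_good (K := K) (v := v) D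
  obtain ⟨f0, hf0, hm0⟩ := (hB B0 hB0D).1 hB0r
  have hmax : ∀ I, Disjoint I D → rk K v (univ \ I) = rk K v univ → I.card ≤ B0.card := by
    intro I h1 h2
    have := ht_good_le h1 h2
    omega
  have hrkD : rk K v D = D.card := hI
  set J0 : Finset (Fin r) := univ.image f0 with hJ0
  have hJ0c : J0.card = B0.card := by
    rw [hJ0, card_image_of_injective _ hf0, card_univ, Fintype.card_coe]
  -- the family
  have hM : IsMason K v D univ (fun j : J0 => B j) := by
    intro Z hDZ _
    set T : Finset E := univ \ Z with hT
    have hTD : Disjoint T D := by
      rw [Finset.disjoint_left]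
      intro x hx hxD
      rw [hT, mem_sdiff] at hx
      exact hx.2 (hDZ hxD)
    have hTZ : Disjoint T Z := by
      rw [Finset.disjoint_left]
      intro x hx hxD
      rw [hT, mem_sdiff] at hx
      exact hx.2 hxD
    have hTc : T.card + Z.card = Fintype.card E := by
      rw [hT, card_sdiff_add_card_eq_card (subset_univ _), card_univ]
    -- cnt
    have hc : cnt (fun j : J0 => B j) Z + (J0.filter (fun j => ¬ Disjoint (B j) T)).card = J0.card := by
      have h1 : cnt (fun j : J0 => B j) Z = (J0.filter (fun j => Disjoint (B j) T)).card := by
        unfold cnt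
        rw [← Finset.card_map (Function.Embedding.subtype _)]
        congr 1
        ext j
        simp only [mem_map, mem_filter, mem_univ, true_and, Function.Embedding.coe_subtype,
          Subtype.exists, exists_and_right, exists_eq_right]
        constructor
        · rintro ⟨h1, h2⟩
          refine ⟨h1, ?_⟩
          rw [Finset.disjoint_left]
          intro x hx hxT
          rw [hT, mem_sdiff] at hxT
          exact hxT.2 (h2 hx)
        · rintro ⟨h1, h2⟩
          refine ⟨h1, ?_⟩
          intro x hx
          by_contra hxZ
          exact (Finset.disjoint_left.1 h2) hx (by rw [hT, mem_sdiff]; exact ⟨mem_univ _, hxZ⟩)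
      rw [h1, Finset.card_filter_add_card_filter_not]
    -- maximal good subset of T
    obtain ⟨I, hIZ, hIr, hIc⟩ := ht_exists_good (K := K) (v := v) Z
    have hIT : I ⊆ T := by
      intro x hx
      rw [hT, mem_sdiff]
      exact ⟨mem_univ _, fun h => (Finset.disjoint_left.1 hIZ) hx h⟩
    have hID : Disjoint I D := hTD.mono_left hIT
    obtain ⟨g, hg, hgm⟩ := (hB I hID).1 hIr
    -- lower bound for N(T)
    have hlow : I.card ≤ (J0.filter (fun j => ¬ Disjoint (B j) T)).card := by
      by_contra hcon
      push Not at hcon
      set B2 : Finset E := (univ.filter (fun b : B0 => Disjoint (B (f0 b)) T)).map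
        (Function.Embedding.subtype _) with hB2
      have hB2T : ∀ x ∈ B2, x ∉ T := by
        intro x hx hxT
        rw [hB2, mem_map] at hx
        obtain ⟨b, hb, rfl⟩ := hx
        rw [mem_filter] at hb
        exact (Finset.disjoint_left.1 hb.2) (hm0 b) hxT
      have hB2B : ∀ x ∈ B2, x ∈ B0 := by
        intro x hx
        rw [hB2, mem_map] at hx
        obtain ⟨b, hb, rfl⟩ := hx
        exact b.2
      have hB2c : B0.card ≤ B2.card + (J0.filter (fun j => ¬ Disjoint (B j) T)).card := by
        have h1 : B2.card = (univ.filter (fun b : B0 => Disjoint (B (f0 b)) T)).card := by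
          rw [hB2, card_map]
        have h2 : (univ.filter (fun b : B0 => ¬ Disjoint (B (f0 b)) T)).card ≤
            (J0.filter (fun j => ¬ Disjoint (B j) T)).card := by
          apply card_le_card_of_injOn f0
          · intro b hb
            simp only [coe_filter, mem_univ, true_and] at hb
            rw [mem_coe, mem_filter, hJ0]
            exact ⟨mem_image_of_mem _ (mem_univ _), hb⟩
          · intro a _ b _ hab
            exact hf0 hab
        have h3 := Finset.card_filter_add_card_filter_not (s := (univ : Finset B0))
          (fun b : B0 => Disjoint (B (f0 b)) T)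
        rw [card_univ, Fintype.card_coe] at h3
        omega
      have hUD : Disjoint (I ∪ B2) D := by
        rw [Finset.disjoint_union_left]
        exact ⟨hID, Finset.disjoint_left.2 (fun x hx => (Finset.disjoint_left.1 hB0D) (hB2B x hx))⟩
      have hUc : (I ∪ B2).card = I.card + B2.card := by
        apply card_union_of_disjoint
        rw [Finset.disjoint_left]
        intro x hx hx2
        exact hB2T x hx2 (hIT hx)
      have hUg : rk K v (univ \ (I ∪ B2)) = rk K v univ := by
        rw [hmatch _ hUD]
        intro S hS
        -- split S
        have h1 : (S ∩ I).card ≤ (N (S ∩ I)).card :=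
          ((hmatch I hID).1 hIr) _ inter_subset_right
        have h2 : (S \ I).card ≤ (univ.filter (fun b : B0 => (b : E) ∈ S \ I)).card := by
          rw [← card_map (Function.Embedding.subtype _)]
          apply card_le_card
          intro x hx
          rw [mem_map]
          have hx2 : x ∈ B2 := by
            have := hS (mem_sdiff.1 hx).1
            rw [mem_union] at this
            rcases this with h | h
            · exact absurd h (mem_sdiff.1 hx).2
            · exact h
          exact ⟨⟨x, hB2B x hx2⟩, by simpa using hx, rfl⟩
        have h3 : (univ.filter (fun b : B0 => (b : E) ∈ S \ I)).card ≤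
            (((univ.filter (fun b : B0 => (b : E) ∈ S \ I)).image f0)).card := by
          rw [card_image_of_injective _ hf0]
        have h4 : Disjoint (N (S ∩ I)) ((univ.filter (fun b : B0 => (b : E) ∈ S \ I)).image f0) := by
          rw [Finset.disjoint_left]
          intro j hj hj2
          rw [mem_image] at hj2
          obtain ⟨b, hb, rfl⟩ := hj2
          rw [mem_filter] at hb
          rw [hN, mem_filter] at hj
          apply hj.2
          have hbB2 : (b : E) ∈ B2 := by
            have := hS (mem_sdiff.1 hb.2).1
            rw [mem_union] at this
            rcases this with h | h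
            · exact absurd h (mem_sdiff.1 hb.2).2
            · exact h
          rw [hB2, mem_map] at hbB2
          obtain ⟨b', hb', hbb⟩ := hbB2
          have : b' = b := Subtype.ext hbb
          subst this
          rw [mem_filter] at hb'
          exact hb'.2.mono_right ((inter_subset_right).trans hIT)
        have h5 : N (S ∩ I) ∪ ((univ.filter (fun b : B0 => (b : E) ∈ S \ I)).image f0) ⊆ N S := by
          apply union_subset
          · intro j hj
            rw [hN, mem_filter] at hj ⊢
            exact ⟨mem_univ _, fun hd => hj.2 (hd.mono_right inter_subset_left)⟩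
          · intro j hj
            rw [mem_image] at hj
            obtain ⟨b, hb, rfl⟩ := hj
            rw [mem_filter] at hb
            rw [hN, mem_filter]
            refine ⟨mem_univ _, fun hd => ?_⟩
            exact (Finset.disjoint_left.1 hd) (hm0 b) (mem_sdiff.1 hb.2).1
        have h6 := card_le_card h5
        rw [card_union_of_disjoint h4] at h6
        have h7 : (S \ I).card + (S ∩ I).card = S.card := card_sdiff_add_card_inter S I
        omega
      have := hmax _ hUD hUg
      omega
    refine ⟨by omega, fun hZ => ?_⟩
    -- equality for flats
    have hup : (J0.filter (fun j => ¬ Disjoint (B j) T)).card ≤ I.card := by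
      have h1 : (J0.filter (fun j => ¬ Disjoint (B j) T)) ⊆ univ.image g := by
        intro j hj
        rw [mem_filter] at hj
        obtain ⟨y, hyB, hyT⟩ := Finset.not_disjoint_iff.1 hj.2
        have hyZ : y ∉ Z := by
          rw [hT, mem_sdiff] at hyT
          exact hyT.2
        by_contra hjg
        -- images of subsets of I under g
        have hgS : ∀ S : Finset E, S ⊆ I →
            ((univ.filter (fun a : I => (a : E) ∈ S)).image g).card = S.card ∧
            ((univ.filter (fun a : I => (a : E) ∈ S)).image g) ⊆ N S := by
          intro S hS
          constructor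
          · rw [card_image_of_injective _ hg, ← card_map (Function.Embedding.subtype _)]
            congr 1
            ext x
            simp only [mem_map, mem_filter, mem_univ, true_and, Function.Embedding.coe_subtype,
              Subtype.exists, exists_and_left, exists_prop, exists_eq_right_right]
            exact ⟨fun h => h.1, fun h => ⟨h, hS h⟩⟩
          · intro i hi
            rw [mem_image] at hi
            obtain ⟨a, ha, rfl⟩ := hi
            rw [mem_filter] at ha
            rw [hN, mem_filter]
            exact ⟨mem_univ _, fun hd => (Finset.disjoint_left.1 hd) (hgm a) ha.2⟩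
        have hjgS : ∀ S : Finset E, j ∉ ((univ.filter (fun a : I => (a : E) ∈ S)).image g) := by
          intro S hj'
          rw [mem_image] at hj'
          obtain ⟨a, _, ha⟩ := hj'
          exact hjg (mem_image.2 ⟨a, mem_univ _, ha⟩)
        by_cases hyI : y ∈ I
        · -- exchange
          have hZu : Z ∪ (T \ I) = univ \ I := by
            ext x
            simp only [hT, mem_union, mem_sdiff, mem_univ, true_and]
            constructor
            · rintro (h | h)
              · exact fun hx => (Finset.disjoint_left.1 hIZ) hx h
              · exact h.2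
            · intro h
              by_cases hx : x ∈ Z
              · exact Or.inl hx
              · exact Or.inr ⟨hx, h⟩
          obtain ⟨b, hb, hbr⟩ := ht_exchange (B := T \ I) hZ hyZ (by rw [hZu]; exact hIr)
          rw [mem_sdiff] at hb
          have hbZ : b ∉ Z := by
            have := hb.1
            rw [hT, mem_sdiff] at this
            exact this.2
          have hyb : y ≠ b := by
            rintro rfl; exact hb.2 hyI
          have hI' : insert y (Z ∪ (T \ I).erase b) = univ \ (insert b (I.erase y)) := by
            ext x
            simp only [hT, mem_insert, mem_union, mem_erase, mem_sdiff, mem_univ, true_and]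
            constructor
            · rintro (rfl | h | h)
              · rintro (h | h)
                · exact hyb h
                · exact h.1 rfl
              · rintro (h' | h')
                · subst h'; exact hbZ h
                · exact (Finset.disjoint_left.1 hIZ) h'.2 h
              · rintro (h' | h')
                · exact h.1 h'
                · exact h.2.2 h'.2
            · intro h
              by_cases hxy : x = y
              · exact Or.inl hxy
              · by_cases hx : x ∈ Z
                · exact Or.inr (Or.inl hx)
                · refine Or.inr (Or.inr ⟨fun hxb => h (Or.inl hxb), hx, fun hxI => h (Or.inr ⟨hxy, hxI⟩)⟩)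
          rw [hI'] at hbr
          have hI'T : insert b (I.erase y) ⊆ T := by
            intro x hx
            rw [mem_insert, mem_erase] at hx
            rcases hx with rfl | hx
            · exact hb.1
            · exact hIT hx.2
          have hbIT : insert b I ⊆ T := insert_subset hb.1 hIT
          have hng : ¬ rk K v (univ \ (insert b I)) = rk K v univ := by
            intro hr
            have := ht_good_le (hTZ.mono_left hbIT) hr
            rw [card_insert_of_notMem hb.2] at this
            omega
          rw [hmatch _ (hTD.mono_left hbIT)] at hng
          push Not at hng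
          obtain ⟨S, hS, hSc⟩ := hng
          have hbS : b ∈ S := by
            by_contra hbS
            have hSI : S ⊆ I := by
              intro x hx
              rcases mem_insert.1 (hS hx) with rfl | h
              · exact absurd hx hbS
              · exact h
            have := ((hmatch I hID).1 hIr) S hSI
            omega
          have hyS : y ∈ S := by
            by_contra hyS
            have hSI : S ⊆ insert b (I.erase y) := by
              intro x hx
              rw [mem_insert, mem_erase]
              rcases mem_insert.1 (hS hx) with rfl | h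
              · exact Or.inl rfl
              · refine Or.inr ⟨?_, h⟩
                rintro rfl; exact hyS hx
            have := ((hmatch _ (hTD.mono_left hI'T)).1 hbr) S hSI
            omega
          have hSe : S.erase b ⊆ I := by
            intro x hx
            rw [mem_erase] at hx
            rcases mem_insert.1 (hS hx.2) with rfl | h
            · exact absurd rfl hx.1
            · exact h
          obtain ⟨c1, c2⟩ := hgS _ hSe
          have c3 : N (S.erase b) ⊆ N S := by
            intro i hi
            rw [hN, mem_filter] at hi ⊢
            exact ⟨mem_univ _, fun hd => hi.2 (hd.mono_right (erase_subset _ _))⟩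
          rw [card_erase_of_mem hbS] at c1
          have c4 := eq_of_subset_of_card_le (c2.trans c3) (by omega)
          apply hjgS (S.erase b)
          rw [c4, hN, mem_filter]
          exact ⟨mem_univ _, fun hd => (Finset.disjoint_left.1 hd) hyB hyS⟩
        · -- insert y I is matched
          have hyT' : insert y I ⊆ T := insert_subset hyT hIT
          have hr : rk K v (univ \ (insert y I)) = rk K v univ := by
            rw [hmatch _ (hTD.mono_left hyT')]
            intro S hS
            by_cases hyS : y ∈ S
            · have hSe : S.erase y ⊆ I := by
                intro x hx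
                rw [mem_erase] at hx
                rcases mem_insert.1 (hS hx.2) with rfl | h
                · exact absurd rfl hx.1
                · exact h
              obtain ⟨c1, c2⟩ := hgS _ hSe
              have c3 : insert j ((univ.filter (fun a : I => (a : E) ∈ S.erase y)).image g) ⊆ N S := by
                apply insert_subset
                · rw [hN, mem_filter]
                  exact ⟨mem_univ _, fun hd => (Finset.disjoint_left.1 hd) hyB hyS⟩
                · intro i hi
                  have hi' := c2 hi
                  rw [hN, mem_filter] at hi' ⊢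
                  exact ⟨mem_univ _, fun hd => hi'.2 (hd.mono_right (erase_subset _ _))⟩
              have c4 := card_le_card c3
              rw [card_insert_of_notMem (hjgS _), c1, card_erase_of_mem hyS] at c4
              omega
            · have hSI : S ⊆ I := by
                intro x hx
                rcases mem_insert.1 (hS hx) with rfl | h
                · exact absurd hx hyS
                · exact h
              exact ((hmatch I hID).1 hIr) S hSI
          have := ht_good_le (hTZ.mono_left hyT') hr
          rw [card_insert_of_notMem hyI] at this
          omega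
      refine (card_le_card h1).trans ?_
      refine card_image_le.trans ?_
      rw [card_univ, Fintype.card_coe]
    omega
  exact hM.sg

/-- Deleting one of two parallel elements `e, f` (nonloops) keeps `SG` when there are no loops. -/
theorem SG_delete_parallel (h0 : ∀ e, v e ≠ 0) (hs : SG K v ∅ univ) {e f : E} (hef : e ≠ f)
    (hp : v f ∈ span K {v e}) : SG K (fun g : (univ.erase e : Finset E) => v g) ∅ univ := by
  classical
  obtain ⟨n, A', hA'⟩ := hs
  obtain ⟨A, hAfl, hA⟩ : ∃ A : Fin n → Finset E, (∀ i, IsFl K v (A i)) ∧ IsMason K v ∅ univ A :=
    ⟨fun i => cl K v (A' i ∪ ∅), fun i => isFl_cl, hA'.closure⟩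
  set P : Finset E := cl K v {e} with hP
  have hPfl : IsFl K v P := isFl_cl
  have hePp : e ∈ P := by
    rw [hP, mem_cl, sp_singleton]
    exact mem_span_singleton_self _
  have hfP : f ∈ P := by
    rw [hP, mem_cl, sp_singleton]; exact hp
  -- parallel elements have the same span
  have hpar : ∀ g ∈ P, ∀ g' ∈ P, v g' ∈ span K {v g} := by
    intro g hg g' hg'
    rw [hP, mem_cl, sp_singleton, mem_span_singleton] at hg hg'
    obtain ⟨a, ha⟩ := hg
    obtain ⟨b, hb⟩ := hg'
    have ha0 : a ≠ 0 := by
      rintro rfl
      rw [zero_smul] at ha
      exact h0 g ha.symm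
    rw [mem_span_singleton]
    refine ⟨b * a⁻¹, ?_⟩
    rw [← ha, smul_smul, mul_assoc, inv_mul_cancel₀ ha0, mul_one, hb]
  have hPsub : ∀ F : Finset E, IsFl K v F → ∀ g ∈ P, g ∈ F → P ⊆ F := by
    intro F hF g hg hgF g' hg'
    apply hF.mem
    have h1 : span K {v g} ≤ sp K v F := by
      rw [← sp_singleton]
      exact sp_mono (singleton_subset_iff.2 hgF)
    exact h1 (hpar g hg g' hg')
  have hrP : rk K v P = 1 := by
    rw [hP, rk_cl]
    unfold rk
    rw [sp_singleton, finrank_span_singleton (h0 e)]
  have hPc : 2 ≤ P.card := by
    rw [← card_pair hef]
    apply card_le_card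
    intro x hx
    rw [mem_insert, mem_singleton] at hx
    rcases hx with rfl | rfl
    · exact hePp
    · exact hfP
  have hA0 : ∀ i, (A i).Nonempty := by
    intro i
    rw [nonempty_iff_ne_empty]
    intro hi
    have h1 := hA.le (Subset.refl _) (empty_subset univ)
    have h2 : 0 < cnt A ∅ := by
      unfold cnt
      rw [card_pos]
      exact ⟨i, by simp [hi]⟩
    rw [card_empty] at h1
    omega
  obtain ⟨i0, hi0⟩ : ∃ i, A i = P := by
    have h1 := hA.eq (empty_subset _) (subset_univ P) hPfl
    have h2 : 0 < cnt A P := by omega
    unfold cnt at h2
    obtain ⟨i, hi⟩ := card_pos.1 h2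
    rw [mem_filter] at hi
    obtain ⟨g, hg⟩ := hA0 i
    exact ⟨i, Subset.antisymm hi.2 (hPsub _ (hAfl i) g (hi.2 hg) hg)⟩
  -- the new family
  have hM : IsMason K (fun g : (univ.erase e : Finset E) => v g) ∅ univ
      (fun i : {i : Fin n // i ≠ i0} =>
        (univ.filter (fun g : (univ.erase e : Finset E) => (g : E) ∈ A i))) := by
    intro Z _ _
    set Zm : Finset E := Z.map (Function.Embedding.subtype _) with hZm
    have hmemZ : ∀ g : (univ.erase e : Finset E), (g : E) ∈ Zm ↔ g ∈ Z := by
      intro g
      rw [hZm, mem_map]
      constructor
      · rintro ⟨a, ha, hag⟩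
        have : a = g := Subtype.ext hag
        rwa [← this]
      · intro h
        exact ⟨g, h, rfl⟩
    have heZ : e ∉ Zm := by
      rw [hZm, mem_map]
      rintro ⟨a, _, ha⟩
      have := a.2
      rw [mem_erase] at this
      exact this.1 ha
    have hsp : sp K (fun g : (univ.erase e : Finset E) => v g) Z = sp K v Zm := by
      unfold sp
      congr 1
      ext x
      simp only [Set.mem_image, mem_coe]
      constructor
      · rintro ⟨g, hg, rfl⟩
        exact ⟨g, (hmemZ g).2 hg, rfl⟩
      · rintro ⟨g, hg, rfl⟩
        have hge : g ∈ (univ.erase e : Finset E) := by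
          rw [mem_erase]
          refine ⟨?_, mem_univ _⟩
          rintro rfl; exact heZ hg
        exact ⟨⟨g, hge⟩, (hmemZ ⟨g, hge⟩).1 hg, rfl⟩
    have hrk : rk K (fun g : (univ.erase e : Finset E) => v g) Z = rk K v Zm := by
      unfold rk; rw [hsp]
    have hcard : Z.card = Zm.card := by rw [hZm, card_map]
    have hfl : IsFl K (fun g : (univ.erase e : Finset E) => v g) Z →
        ∀ g, g ≠ e → v g ∈ sp K v Zm → g ∈ Zm := by
      intro hf g hg hv
      have h1 := hf.mem (e := ⟨g, mem_erase.2 ⟨hg, mem_univ _⟩⟩) (by rw [hsp]; exact hv)
      exact (hmemZ _).2 h1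
    have hsub : ∀ i : {i : Fin n // i ≠ i0},
        (univ.filter (fun g : (univ.erase e : Finset E) => (g : E) ∈ A i)) ⊆ Z ↔
          (A i).erase e ⊆ Zm := by
      intro i
      constructor
      · intro h g hg
        rw [mem_erase] at hg
        exact (hmemZ ⟨g, mem_erase.2 ⟨hg.1, mem_univ _⟩⟩).2 (h (by simpa using hg.2))
      · intro h g hg
        rw [mem_filter] at hg
        have hge := g.2
        rw [mem_erase] at hge
        exact (hmemZ g).1 (h (mem_erase.2 ⟨hge.1, hg.2⟩))
    have hcnt : cnt (fun i : {i : Fin n // i ≠ i0} =>
        (univ.filter (fun g : (univ.erase e : Finset E) => (g : E) ∈ A i))) Z =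
        ((univ.erase i0).filter (fun i => (A i).erase e ⊆ Zm)).card := by
      unfold cnt
      rw [← card_map (Function.Embedding.subtype _)]
      congr 1
      ext i
      simp only [mem_map, mem_filter, mem_univ, true_and, Function.Embedding.coe_subtype,
        mem_erase, and_true]
      constructor
      · rintro ⟨a, ha, rfl⟩
        exact ⟨a.2, (hsub a).1 ha⟩
      · rintro ⟨h1, h2⟩
        exact ⟨⟨i, h1⟩, (hsub ⟨i, h1⟩).2 h2, rfl⟩
    rw [hcnt, hrk, hcard]
    by_cases hPZ : P.erase e ⊆ Zm
    · -- Z contains the rest of the class
      have hfZ : f ∈ Zm := hPZ (mem_erase.2 ⟨hef.symm, hfP⟩)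
      have heZs : v e ∈ sp K v Zm := by
        have h1 : span K {v f} ≤ sp K v Zm := by
          rw [← sp_singleton]
          exact sp_mono (singleton_subset_iff.2 hfZ)
        exact h1 (hpar f hfP e hePp)
      have hr1 : rk K v (insert e Zm) = rk K v Zm := rk_insert_of_mem_sp heZs
      have hc1 : (insert e Zm).card = Zm.card + 1 := card_insert_of_notMem heZ
      have hc2 : ((univ.erase i0).filter (fun i => (A i).erase e ⊆ Zm)).card + 1 =
          cnt A (insert e Zm) := by
        unfold cnt
        have h1 : (univ.filter (fun i => A i ⊆ insert e Zm)) =
            insert i0 ((univ.erase i0).filter (fun i => (A i).erase e ⊆ Zm)) := by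
          ext i
          simp only [mem_filter, mem_univ, true_and, mem_insert, mem_erase, and_true]
          constructor
          · intro h
            by_cases hi : i = i0
            · exact Or.inl hi
            · refine Or.inr ⟨hi, ?_⟩
              intro g hg
              rw [mem_erase] at hg
              exact (mem_insert.1 (h hg.2)).resolve_left hg.1
          · rintro (rfl | h)
            · rw [hi0]
              intro g hg
              rw [mem_insert]
              by_cases hge : g = e
              · exact Or.inl hge
              · exact Or.inr (hPZ (mem_erase.2 ⟨hge, hg⟩))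
            · intro g hg
              rw [mem_insert]
              by_cases hge : g = e
              · exact Or.inl hge
              · exact Or.inr (h.2 (mem_erase.2 ⟨hge, hg⟩))
        rw [h1, card_insert_of_notMem]
        simp
      refine ⟨?_, fun hf => ?_⟩
      · have := hA.le (empty_subset _) (subset_univ (insert e Zm))
        omega
      · have hfl1 : IsFl K v (insert e Zm) := by
          apply Subset.antisymm _ subset_cl
          intro g hg
          rw [mem_cl, sp_insert_of_mem_sp heZs] at hg
          rw [mem_insert]
          by_cases hge : g = e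
          · exact Or.inl hge
          · exact Or.inr (hfl hf g hge hg)
        have := hA.eq (empty_subset _) (subset_univ (insert e Zm)) hfl1
        omega
    · have hc2 : ((univ.erase i0).filter (fun i => (A i).erase e ⊆ Zm)).card = cnt A Zm := by
        unfold cnt
        congr 1
        ext i
        simp only [mem_filter, mem_univ, true_and, mem_erase, and_true]
        constructor
        · rintro ⟨_, h2⟩
          have heA : e ∉ A i := by
            intro he
            apply hPZ
            intro g hg
            rw [mem_erase] at hg
            exact h2 (mem_erase.2 ⟨hg.1, hPsub _ (hAfl i) e hePp he hg.2⟩)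
          rwa [erase_eq_of_notMem heA] at h2
        · intro h
          refine ⟨?_, (erase_subset _ _).trans h⟩
          rintro rfl
          rw [hi0] at h
          exact heZ (h hePp)
      rw [hc2]
      refine ⟨hA.le (empty_subset _) (subset_univ Zm), fun hf => ?_⟩
      apply hA.eq (empty_subset _) (subset_univ Zm)
      -- Zm is a flat
      have hdis : ∀ g ∈ P, g ∉ Zm := by
        intro g hg hgZ
        apply hPZ
        intro g' hg'
        rw [mem_erase] at hg'
        apply hfl hf g' hg'.1
        have h1 : span K {v g} ≤ sp K v Zm := by
          rw [← sp_singleton]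
          exact sp_mono (singleton_subset_iff.2 hgZ)
        exact h1 (hpar g hg g' hg'.2)
      apply Subset.antisymm _ subset_cl
      intro g hg
      rw [mem_cl] at hg
      by_cases hge : g = e
      · exfalso
        subst hge
        apply hdis f hfP
        apply hfl hf f hef.symm
        have h1 : span K {v g} ≤ sp K v Zm := by
          rw [span_singleton_le_iff_mem]
          exact hg
        exact h1 (hpar g hePp f hfP)
      · exact hfl hf g hge hg
  exact hM.sg

end Ca3
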