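import Pool.Agent.Lib.MP_ca3eb1_co.MDefs
import Pool.Agent.Lib.MP_ca3eb1_co.HasTrans
import Pool.Agent.Lib.MP_ca3eb1_co.DualRepr

/-! # Module M14c: translation between matroids and configurations -/

set_option linter.unusedSectionVars false

namespace Ca3

open Matroid

variable {α : Type*} {K : Type*} [Field K]

/-- `w` represents the dual of `M` on the subtype of the ground set. -/
def RepDual (K : Type*) [Field K] {V : Type*} [AddCommGroup V] [Module K V] (M : Matroid α)
    (w : M.E → V) : Prop :=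
  ∀ I : Finset M.E, M✶.Indep (Subtype.val '' (I : Set M.E)) ↔ Ind K w I

private theorem br_lin {α : Type*} {V : Type*} [AddCommGroup V] [Module K V] {S : Set α}
    (v : α → V) (I : Set S) :
    LinearIndepOn K v (Subtype.val '' I) ↔ LinearIndepOn K (fun e : S => v e) I := by
  constructor
  · intro h
    exact h.comp_of_image Subtype.val_injective.injOn
  · intro h
    exact LinearIndepOn.image_of_comp _ _ h

theorem IsRepr.exists_repDual {M : Matroid α} [M.Finite] (h : IsRepr K M) :
    ∃ (n : ℕ) (w : M.E → (Fin n → K)), RepDual K M w := by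
  obtain ⟨n, v, hv⟩ := h.dual
  refine ⟨n, fun e => v e, fun I => ?_⟩
  have hsub : Subtype.val '' (I : Set M.E) ⊆ M✶.E := by
    rintro _ ⟨e, _, rfl⟩
    exact e.2
  rw [hv _ hsub, br_lin, ind_iff_linearIndepOn]

theorem RepDual.isRepr {M : Matroid α} [M.Finite] {n : ℕ} {w : M.E → (Fin n → K)}
    (h : RepDual K M w) : IsRepr K M := by
  classical
  have h1 : IsRepr K M✶ := by
    refine ⟨n, fun e => if he : e ∈ M.E then w ⟨e, he⟩ else 0, fun I hI => ?_⟩
    have hfin : I.Finite := (M✶).set_finite I hI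
    have hI' : I ⊆ M.E := hI
    obtain ⟨J, hJ⟩ : ∃ J : Finset M.E, Subtype.val '' (J : Set M.E) = I := by
      have hf : (Subtype.val ⁻¹' I : Set M.E).Finite := hfin.preimage Subtype.val_injective.injOn
      refine ⟨hf.toFinset, ?_⟩
      rw [Set.Finite.coe_toFinset, Set.image_preimage_eq_inter_range, Subtype.range_coe]
      exact Set.inter_eq_left.2 hI'
    rw [← hJ, h J, br_lin, ind_iff_linearIndepOn]
    have : (fun e : M.E => (if he : (e : α) ∈ M.E then w ⟨e, he⟩ else 0)) = w := by
      funext e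
      rw [dif_pos e.2]
    rw [this]
  have h2 := h1.dual
  rwa [Matroid.dual_dual] at h2

variable {V : Type*} [AddCommGroup V] [Module K V] [FiniteDimensional K V] {M : Matroid α}
  [M.Finite] [Fintype M.E] [DecidableEq M.E] {w : M.E → V}

/-- bases of the dual -/
private theorem RepDual.isBase_of (h : RepDual K M w) {J : Finset M.E} (hJ : Ind K w J)
    (hs : sp K w J = sp K w Finset.univ) : M✶.IsBase (Subtype.val '' (J : Set M.E)) := by
  apply Matroid.Indep.isBase_of_forall_insert ((h J).2 hJ)
  intro e he hi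
  have heE : e ∈ M.E := he.1
  have h1 : (Subtype.val '' ((insert ⟨e, heE⟩ J : Finset M.E) : Set M.E)) =
      insert e (Subtype.val '' (J : Set M.E)) := by
    rw [Finset.coe_insert, Set.image_insert_eq]
  rw [← h1, h] at hi
  have hne : (⟨e, heE⟩ : M.E) ∉ J := fun hh => he.2 ⟨_, hh, rfl⟩
  have h2 := hi.not_mem_sp_erase (Finset.mem_insert_self _ _)
  rw [Finset.erase_insert hne, hs] at h2
  exact h2 (mem_sp (Finset.mem_univ _))

private theorem RepDual.of_isBase (h : RepDual K M w) {J : Finset M.E}
    (hB : M✶.IsBase (Subtype.val '' (J : Set M.E))) :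
    Ind K w J ∧ sp K w J = sp K w Finset.univ := by
  have hJ := (h J).1 hB.indep
  refine ⟨hJ, le_antisymm (sp_mono (Finset.subset_univ _)) (sp_le_iff.2 fun e _ => ?_)⟩
  by_contra hc
  have h1 : Ind K w (insert e J) := hJ.insert hc
  rw [← h] at h1
  have h2 : Subtype.val '' ((insert e J : Finset M.E) : Set M.E) =
      insert (e : α) (Subtype.val '' (J : Set M.E)) := by
    rw [Finset.coe_insert, Set.image_insert_eq]
  rw [h2] at h1
  have h3 : (e : α) ∉ Subtype.val '' (J : Set M.E) := by
    rintro ⟨a, ha, hae⟩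
    have : a = e := Subtype.ext hae
    subst this
    exact hc (mem_sp ha)
  have h4 := Matroid.IsBase.eq_of_subset_indep hB h1 (Set.subset_insert _ _)
  exact h3 (h4 ▸ Set.mem_insert _ _)

private theorem br_exists_finset {I : Set α} (hI : I ⊆ M.E) :
    ∃ J : Finset M.E, Subtype.val '' (J : Set M.E) = I := by
  classical
  refine ⟨Finset.univ.filter (fun e => (e : α) ∈ I), ?_⟩
  ext x
  simp only [Finset.coe_filter, Finset.mem_univ, true_and, Set.mem_image]
  constructor
  · rintro ⟨a, ha, rfl⟩
    exact ha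
  · intro hx
    exact ⟨⟨x, hI hx⟩, hx, rfl⟩

theorem RepDual.indep_iff (h : RepDual K M w) (I : Finset M.E) :
    M.Indep (Subtype.val '' (I : Set M.E)) ↔
      rk K w (Finset.univ \ I) = rk K w Finset.univ := by
  have hsub : Subtype.val '' (I : Set M.E) ⊆ M.E := by
    rintro _ ⟨e, _, rfl⟩
    exact e.2
  have h0 := Matroid.dual_indep_iff_exists' (M := M✶) (I := Subtype.val '' (I : Set M.E))
  rw [Matroid.dual_dual] at h0
  rw [h0]
  constructor
  · rintro ⟨_, B, hB, hd⟩
    obtain ⟨J, rfl⟩ := br_exists_finset (M := M) (I := B) hB.subset_ground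
    obtain ⟨_, hs⟩ := h.of_isBase hB
    apply le_antisymm (rk_mono (Finset.subset_univ _))
    rw [← rk_congr hs]
    apply rk_mono
    intro x hx
    rw [Finset.mem_sdiff]
    refine ⟨Finset.mem_univ _, fun hxI => ?_⟩
    exact (Set.disjoint_left.1 hd) ⟨x, hxI, rfl⟩ ⟨x, hx, rfl⟩
  · intro hr
    obtain ⟨J, hJs, hJ, hs⟩ := exists_basis (K := K) (v := w) (Finset.univ \ I)
    have hs' : sp K w J = sp K w Finset.univ := by
      rw [hs]
      exact sp_eq_of_subset_of_rk_le (Finset.subset_univ _) hr.ge
    refine ⟨hsub, _, h.isBase_of hJ hs', ?_⟩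
    rw [Set.disjoint_left]
    rintro _ ⟨a, ha, rfl⟩ ⟨b, hb, hab⟩
    have : b = a := Subtype.ext hab
    subst this
    exact (Finset.mem_sdiff.1 (hJs hb)).2 ha

theorem RepDual.eRank_eq (h : RepDual K M w) : M✶.eRank = rk K w Finset.univ := by
  obtain ⟨J, _, hJ, hs⟩ := exists_basis (K := K) (v := w) Finset.univ
  rw [← (h.isBase_of hJ hs).encard_eq_eRank, Set.InjOn.encard_image Subtype.val_injective.injOn,
    Set.encard_coe_eq_coe_finsetCard, ← hJ.rk_eq_card, rk_congr hs]

/-- transport of matchings -/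
private theorem br_match {r : ℕ} (J : Finset M.E) (A : Fin r → Set α) (B : Fin r → Finset M.E)
    (hAB : ∀ i, ∀ e ∈ J, e ∈ B i ↔ (e : α) ∈ A i) :
    (∃ f : (Subtype.val '' (J : Set M.E) : Set α) → Fin r, Function.Injective f ∧
      ∀ e : (Subtype.val '' (J : Set M.E) : Set α), (e : α) ∈ A (f e)) ↔
    ∃ f : J → Fin r, Function.Injective f ∧ ∀ e : J, (e : M.E) ∈ B (f e) := by
  constructor
  · rintro ⟨f, hf, hm⟩
    refine ⟨fun e => f ⟨((e : M.E) : α), ⟨e, e.2, rfl⟩⟩, ?_, ?_⟩
    · intro a b hab
      have h1 := hf hab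
      have h2 : ((a : M.E) : α) = ((b : M.E) : α) := by
        rw [Subtype.mk.injEq] at h1
        exact h1
      exact Subtype.ext (Subtype.ext h2)
    · intro e
      rw [hAB _ _ e.2]
      exact hm ⟨((e : M.E) : α), ⟨e, e.2, rfl⟩⟩
  · rintro ⟨f, hf, hm⟩
    have hmem : ∀ s : (Subtype.val '' (J : Set M.E) : Set α), ∃ a : J, ((a : M.E) : α) = s := by
      rintro ⟨_, a, ha, rfl⟩
      exact ⟨⟨a, ha⟩, rfl⟩
    choose g hg using hmem
    refine ⟨fun s => f (g s), ?_, ?_⟩
    · intro a b hab
      have h1 := hf hab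
      apply Subtype.ext
      rw [← hg a, ← hg b, h1]
    · intro s
      have h1 := (hAB (f (g s)) _ (g s).2).1 (hm (g s))
      rwa [hg s] at h1

private theorem RepDual.transversal_delete_iff' (h : RepDual K M w) (D : Finset M.E) :
    IsTransversal (M ＼ (Subtype.val '' (D : Set M.E))) ↔ HasTrans K w D := by
  classical
  constructor
  · rintro ⟨r, A, hA, hI⟩
    refine ⟨r, fun i => Finset.univ.filter (fun e => (e : α) ∈ A i), fun I hID => ?_⟩
    rw [← h.indep_iff I]
    have hd : Disjoint (Subtype.val '' (I : Set M.E)) (Subtype.val '' (D : Set M.E)) := by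
      rw [Set.disjoint_left]
      rintro _ ⟨a, ha, rfl⟩ ⟨b, hb, hab⟩
      have : b = a := Subtype.ext hab
      subst this
      exact (Finset.disjoint_left.1 hID) ha hb
    have hsub : Subtype.val '' (I : Set M.E) ⊆ (M ＼ (Subtype.val '' (D : Set M.E))).E := by
      rw [Matroid.delete_ground]
      rintro _ ⟨e, he, rfl⟩
      exact ⟨e.2, fun h' => (Set.disjoint_left.1 hd) ⟨e, he, rfl⟩ h'⟩
    have h1 := hI _ hsub
    rw [Matroid.delete_indep_iff] at h1
    rw [← br_match I A (fun i => Finset.univ.filter (fun e => (e : α) ∈ A i)) (by simp), ← h1]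
    exact ⟨fun h' => ⟨h', hd⟩, fun h' => h'.1⟩
  · rintro ⟨r, B, hB⟩
    refine ⟨r, fun i => Subtype.val '' ((B i \ D : Finset M.E) : Set M.E), fun i => ?_, fun I hI => ?_⟩
    · rw [Matroid.delete_ground]
      rintro _ ⟨e, he, rfl⟩
      rw [Finset.mem_coe, Finset.mem_sdiff] at he
      refine ⟨e.2, ?_⟩
      rintro ⟨b, hb, hbe⟩
      have : b = e := Subtype.ext hbe
      subst this
      exact he.2 hb
    · rw [Matroid.delete_ground] at hI
      obtain ⟨J, rfl⟩ := br_exists_finset (M := M) (I := I) (hI.trans Set.sdiff_subset)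
      have hJD : Disjoint J D := by
        rw [Finset.disjoint_left]
        intro x hx hxD
        exact (hI ⟨x, hx, rfl⟩).2 ⟨x, hxD, rfl⟩
      rw [Matroid.delete_indep_iff, h.indep_iff J, hB J hJD]
      rw [← br_match J (fun i => Subtype.val '' ((B i \ D : Finset M.E) : Set M.E)) B]
      · constructor
        · exact fun h' => h'.1
        · intro h'
          refine ⟨h', ?_⟩
          rw [Set.disjoint_left]
          intro x hx hxD
          exact (hI hx).2 hxD
      · intro i e he
        constructor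
        · intro heB
          exact ⟨e, by rw [Finset.mem_coe, Finset.mem_sdiff]; exact ⟨heB, Finset.disjoint_left.1 hJD he⟩, rfl⟩
        · rintro ⟨b, hb, hbe⟩
          have : b = e := Subtype.ext hbe
          subst this
          rw [Finset.mem_coe, Finset.mem_sdiff] at hb
          exact hb.1

theorem RepDual.transversal_iff (h : RepDual K M w) : IsTransversal M ↔ HasTrans K w ∅ := by
  have h1 := h.transversal_delete_iff' ∅
  rwa [Finset.coe_empty, Set.image_empty, Matroid.delete_empty] at h1

theorem RepDual.transversal_delete_iff (h : RepDual K M w) (x : M.E) :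
    IsTransversal (M ＼ {(x : α)}) ↔ HasTrans K w {x} := by
  have h1 := h.transversal_delete_iff' {x}
  rwa [Finset.coe_singleton, Set.image_singleton] at h1

end Ca3
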