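import Pool.Agent.Lib.MP_ca3eb1_co.Bridge

/-! # Module M14e: the class `𝒬` is closed under series steps; excluded ones have simple dual -/

set_option linter.unusedSectionVars false

namespace Ca3

open Matroid

variable {α : Type*}

/-- partial transversals, with the family indexed by the naturals -/
def Tr (B : ℕ → Set α) (I : Set α) : Prop :=
  ∃ g : α → ℕ, Set.InjOn g I ∧ ∀ e ∈ I, e ∈ B (g e)

theorem isTransversal_iff_nat {M : Matroid α} :
    IsTransversal M ↔ ∃ (r : ℕ) (B : ℕ → Set α), (∀ n, B n ⊆ M.E) ∧ (∀ n, r ≤ n → B n = ∅) ∧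
      ∀ I, I ⊆ M.E → (M.Indep I ↔ Tr B I) := by
  constructor
  · rintro ⟨r, A, hA, h⟩
    refine ⟨r, fun n => if h : n < r then A ⟨n, h⟩ else ∅, ?_, ?_, ?_⟩
    · intro n
      by_cases hn : n < r
      · simpa [hn] using hA ⟨n, hn⟩
      · simp [hn]
    · intro n hn
      simp [Nat.not_lt.2 hn]
    · intro I hI
      rw [h I hI]
      constructor
      · rintro ⟨f, hf, hfA⟩
        classical
        refine ⟨fun e => if h : e ∈ I then (f ⟨e, h⟩ : ℕ) else 0, ?_, ?_⟩
        · intro x hx y hy hxy
          simp only [hx, hy, dif_pos] at hxy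
          have := hf (Fin.ext hxy)
          exact congrArg Subtype.val this
        · intro e he
          simp only [he, dif_pos, Fin.is_lt]
          exact hfA ⟨e, he⟩
      · rintro ⟨g, hg, hgB⟩
        have hlt : ∀ e : I, g e < r := by
          intro e
          by_contra hlt
          have := hgB e e.2
          simp [hlt] at this
        refine ⟨fun e => ⟨g e, hlt e⟩, ?_, ?_⟩
        · intro x y hxy
          exact Subtype.ext (hg x.2 y.2 (congrArg Fin.val hxy))
        · intro e
          have := hgB e e.2
          simpa [hlt e] using this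
  · rintro ⟨r, B, hB, hr, h⟩
    refine ⟨r, fun i => B i, fun i => hB i, ?_⟩
    intro I hI
    rw [h I hI]
    constructor
    · rintro ⟨g, hg, hgB⟩
      have hlt : ∀ e : I, g e < r := by
        intro e
        by_contra hlt
        have := hgB e e.2
        rw [hr _ (Nat.not_lt.1 hlt)] at this
        exact this
      refine ⟨fun e => ⟨g e, hlt e⟩, ?_, ?_⟩
      · intro x y hxy
        exact Subtype.ext (hg x.2 y.2 (congrArg Fin.val hxy))
      · intro e
        exact hgB e e.2
    · rintro ⟨f, hf, hfA⟩
      classical
      refine ⟨fun e => if h : e ∈ I then (f ⟨e, h⟩ : ℕ) else 0, ?_, ?_⟩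
      · intro x hx y hy hxy
        simp only [hx, hy, dif_pos] at hxy
        have := hf (Fin.ext hxy)
        exact congrArg Subtype.val this
      · intro e he
        simp only [he, dif_pos]
        exact hfA ⟨e, he⟩

/-- coloops can be added to a transversal matroid -/
theorem isTransversal_of_delete_coloop {M : Matroid α} {e : α} (he : M.IsColoop e)
    (h : IsTransversal (M ＼ {e})) : IsTransversal M := by
  classical
  rw [isTransversal_iff_nat] at h ⊢
  obtain ⟨r, B, hB, hr, h⟩ := h
  refine ⟨r + 1, fun n => Nat.casesOn n {e} B, ?_, ?_, ?_⟩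
  · intro n
    cases n with
    | zero => simpa using he.mem_ground
    | succ n => exact (hB n).trans (by simp)
  · intro n hn
    cases n with
    | zero => omega
    | succ n => exact hr n (by omega)
  · intro I hI
    have h1 : M.Indep I ↔ M.Indep (I \ {e}) := by
      constructor
      · exact fun h => h.subset Set.sdiff_subset
      · intro h
        exact (he.insert_indep_of_indep h).subset (by
          intro x hx
          by_cases hxe : x = e
          · exact Or.inl hxe
          · exact Or.inr ⟨hx, hxe⟩)
    have h2 : M.Indep (I \ {e}) ↔ (M ＼ {e}).Indep (I \ {e}) := by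
      rw [delete_indep_iff]
      exact ⟨fun h => ⟨h, Set.disjoint_sdiff_left⟩, fun h => h.1⟩
    rw [h1, h2, h _ (by
      rw [delete_ground]
      exact Set.sdiff_subset_sdiff_left hI)]
    constructor
    · rintro ⟨g, hg, hgB⟩
      refine ⟨fun x => if x = e then 0 else g x + 1, ?_, ?_⟩
      · intro x hx y hy hxy
        by_cases hxe : x = e
        · by_cases hye : y = e
          · rw [hxe, hye]
          · simp [hxe, hye] at hxy
        · by_cases hye : y = e
          · simp [hxe, hye] at hxy
          · simp only [hxe, hye, if_false, add_left_inj] at hxy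
            exact hg ⟨hx, hxe⟩ ⟨hy, hye⟩ hxy
      · intro x hx
        by_cases hxe : x = e
        · simp [hxe]
        · simp only [hxe, if_false]
          exact hgB x ⟨hx, hxe⟩
    · rintro ⟨g, hg, hgB⟩
      have hpos : ∀ x ∈ I \ {e}, ∃ n, g x = n + 1 ∧ x ∈ B n := by
        rintro x ⟨hx, hxe⟩
        have := hgB x hx
        cases hgx : g x with
        | zero =>
          rw [hgx] at this
          exact absurd this hxe
        | succ n =>
          rw [hgx] at this
          exact ⟨n, rfl, this⟩
      refine ⟨fun x => g x - 1, ?_, ?_⟩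
      · intro x hx y hy hxy
        obtain ⟨n, hn, -⟩ := hpos x hx
        obtain ⟨m, hm, -⟩ := hpos y hy
        simp only [hn, hm, Nat.add_sub_cancel] at hxy
        exact hg hx.1 hy.1 (by rw [hn, hm, hxy])
      · intro x hx
        obtain ⟨n, hn, hx'⟩ := hpos x hx
        simpa only [hn, Nat.add_sub_cancel] using hx'

theorem indep_insert_of_series {M : Matroid α} {e f : α} (hc : M.IsCocircuit {e, f})
    {K : Set α} (he : e ∉ K) (hf : f ∉ K) (hK : M.Indep K) : M.Indep (insert e K) := by
  by_contra hn
  have heE : e ∈ M.E := hc.subset_ground (by simp)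
  have hd : M.Dep (insert e K) := ⟨hn, Set.insert_subset heE hK.subset_ground⟩
  obtain ⟨C, hCK, hC⟩ := hd.exists_isCircuit_subset
  have heC : e ∈ C := by
    by_contra heC
    refine hC.not_indep (hK.subset ?_)
    intro x hx
    rcases hCK hx with rfl | h
    · exact absurd hx heC
    · exact h
  refine hC.inter_isCocircuit_ne_singleton hc (e := e) ?_
  ext x
  simp only [Set.mem_inter_iff, Set.mem_insert_iff, Set.mem_singleton_iff]
  constructor
  · rintro ⟨hx, rfl | rfl⟩
    · rfl
    · rcases hCK hx with h | h
      · exact h
      · exact absurd h hf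
  · rintro rfl
    exact ⟨heC, Or.inl rfl⟩

/-- series extension of a transversal matroid -/
theorem isTransversal_of_contract_series {M : Matroid α} {e f : α} (hef : e ≠ f)
    (hc : M.IsCocircuit {e, f}) (h : IsTransversal (M ／ {e})) : IsTransversal M := by
  classical
  rw [isTransversal_iff_nat] at h ⊢
  obtain ⟨r, B, hB, hr, h⟩ := h
  have heE : e ∈ M.E := hc.subset_ground (by simp)
  have hfE : f ∈ M.E := hc.subset_ground (by simp)
  have hc' : M.IsCocircuit {f, e} := by rwa [Set.pair_comm]
  have hnl : M.IsNonloop e := hc.isNonloop_of_mem (by simp)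
  have heB : ∀ n, e ∉ B n := fun n hn => by
    have := hB n hn
    simp at this
  refine ⟨r + 1, fun n => Nat.casesOn n {e, f} (fun m => B m ∪ {x | x = e ∧ f ∈ B m}),
    ?_, ?_, ?_⟩
  · intro n
    cases n with
    | zero => exact hc.subset_ground
    | succ n =>
      rintro x (hx | ⟨rfl, -⟩)
      · have := hB n hx
        simp at this
        exact this.1
      · exact heE
  · intro n hn
    cases n with
    | zero => omega
    | succ n =>
      simp [hr n (by omega)]
  · intro I hI
    by_cases heI : e ∈ I
    · have h1 : M.Indep I ↔ (M ／ {e}).Indep (I \ {e}) := by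
        rw [hnl.contractElem_indep_iff, Set.insert_sdiff_singleton, Set.insert_eq_of_mem heI]
        exact ⟨fun h => ⟨by simp, h⟩, fun h => h.2⟩
      rw [h1, h _ (by
        rw [contract_ground]
        exact Set.sdiff_subset_sdiff_left hI)]
      constructor
      · rintro ⟨g, hg, hgB⟩
        refine ⟨fun x => if x = e then 0 else g x + 1, ?_, ?_⟩
        · intro x hx y hy hxy
          by_cases hxe : x = e
          · by_cases hye : y = e
            · rw [hxe, hye]
            · simp [hxe, hye] at hxy
          · by_cases hye : y = e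
            · simp [hxe, hye] at hxy
            · simp only [hxe, hye, if_false, add_left_inj] at hxy
              exact hg ⟨hx, hxe⟩ ⟨hy, hye⟩ hxy
        · intro x hx
          by_cases hxe : x = e
          · simp [hxe]
          · simp only [hxe, if_false]
            exact Or.inl (hgB x ⟨hx, hxe⟩)
      · rintro ⟨g, hg, hgB⟩
        have key : ∀ x ∈ I \ {e}, (g x = 0 ∧ x = f ∧ ∃ m, g e = m + 1 ∧ f ∈ B m) ∨
            (∃ n, g x = n + 1 ∧ x ∈ B n) := by
          rintro x ⟨hx, hxe⟩
          have hxe' : x ≠ e := hxe
          have hxB := hgB x hx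
          cases hgx : g x with
          | zero =>
            left
            rw [hgx] at hxB
            have hxf : x = f := by
              rcases hxB with h | h
              · exact absurd h hxe
              · exact h
            refine ⟨rfl, hxf, ?_⟩
            have heB' := hgB e heI
            cases hge : g e with
            | zero => exact absurd (hg hx heI (by rw [hgx, hge])) hxe'
            | succ m =>
              rw [hge] at heB'
              rcases heB' with h | h
              · exact absurd h (heB m)
              · exact ⟨m, rfl, h.2⟩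
          | succ n =>
            right
            rw [hgx] at hxB
            rcases hxB with h | h
            · exact ⟨n, rfl, h⟩
            · exact absurd h.1 hxe'
        refine ⟨fun x => if g x = 0 then g e - 1 else g x - 1, ?_, ?_⟩
        · intro x hx y hy hxy
          rcases key x hx with ⟨hx0, hxf, m, hm, hfm⟩ | ⟨n, hn, hxn⟩
          · rcases key y hy with ⟨hy0, hyf, -⟩ | ⟨k, hk, hyk⟩
            · rw [hxf, hyf]
            · simp only [hx0, hk, hm, if_true, Nat.add_sub_cancel, Nat.succ_ne_zero,
                if_false] at hxy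
              exact absurd (hg hy.1 heI (by rw [hk, hm, hxy])) hy.2
          · rcases key y hy with ⟨hy0, hyf, m, hm, hfm⟩ | ⟨k, hk, hyk⟩
            · simp only [hy0, hn, hm, if_true, Nat.add_sub_cancel, Nat.succ_ne_zero,
                if_false] at hxy
              exact absurd (hg hx.1 heI (by rw [hn, hm, hxy])) hx.2
            · simp only [hn, hk, Nat.add_sub_cancel, Nat.succ_ne_zero, if_false] at hxy
              exact hg hx.1 hy.1 (by rw [hn, hk, hxy])
        · intro x hx
          rcases key x hx with ⟨hx0, hxf, m, hm, hfm⟩ | ⟨n, hn, hxn⟩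
          · simp only [hx0, hm, if_true, Nat.add_sub_cancel]
            rw [hxf]
            exact hfm
          · simp only [hn, Nat.succ_ne_zero, if_false, Nat.add_sub_cancel]
            exact hxn
    · have h1 : M.Indep I ↔ (M ／ {e}).Indep (I \ {f}) := by
        rw [hnl.contractElem_indep_iff]
        constructor
        · intro h
          refine ⟨fun h => heI h.1, indep_insert_of_series hc (fun h => heI h.1)
            (fun h => h.2 rfl) (h.subset Set.sdiff_subset)⟩
        · rintro ⟨-, h⟩
          have h2 : M.Indep (insert f (I \ {f})) :=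
            indep_insert_of_series hc' (fun h => h.2 rfl) (fun h => heI h.1)
              (h.subset (Set.subset_insert _ _))
          refine h2.subset ?_
          intro x hx
          by_cases hxf : x = f
          · exact Or.inl hxf
          · exact Or.inr ⟨hx, hxf⟩
      rw [h1, h _ (by
        rw [contract_ground]
        rintro x ⟨hx, -⟩
        exact ⟨hI hx, fun hxe => heI (by rw [Set.mem_singleton_iff] at hxe; rwa [← hxe])⟩)]
      constructor
      · rintro ⟨g, hg, hgB⟩
        refine ⟨fun x => if x = f then 0 else g x + 1, ?_, ?_⟩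
        · intro x hx y hy hxy
          by_cases hxe : x = f
          · by_cases hye : y = f
            · rw [hxe, hye]
            · simp [hxe, hye] at hxy
          · by_cases hye : y = f
            · simp [hxe, hye] at hxy
            · simp only [hxe, hye, if_false, add_left_inj] at hxy
              exact hg ⟨hx, hxe⟩ ⟨hy, hye⟩ hxy
        · intro x hx
          by_cases hxe : x = f
          · simp [hxe]
          · simp only [hxe, if_false]
            exact Or.inl (hgB x ⟨hx, hxe⟩)
      · rintro ⟨g, hg, hgB⟩
        have hpos : ∀ x ∈ I \ {f}, ∃ n, g x = n + 1 ∧ x ∈ B n := by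
          rintro x ⟨hx, hxf⟩
          have hxe : x ≠ e := fun h => heI (h ▸ hx)
          have := hgB x hx
          cases hgx : g x with
          | zero =>
            rw [hgx] at this
            rcases this with h | h
            · exact absurd h hxe
            · exact absurd h hxf
          | succ n =>
            rw [hgx] at this
            rcases this with h | h
            · exact ⟨n, rfl, h⟩
            · exact absurd h.1 hxe
        refine ⟨fun x => g x - 1, ?_, ?_⟩
        · intro x hx y hy hxy
          obtain ⟨n, hn, -⟩ := hpos x hx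
          obtain ⟨m, hm, -⟩ := hpos y hy
          simp only [hn, hm, Nat.add_sub_cancel] at hxy
          exact hg hx.1 hy.1 (by rw [hn, hm, hxy])
        · intro x hx
          obtain ⟨n, hn, hx'⟩ := hpos x hx
          simpa only [hn, Nat.add_sub_cancel] using hx'

theorem isTransversal_delete {M : Matroid α} (h : IsTransversal M) (D : Set α) :
    IsTransversal (M ＼ D) := by
  rw [isTransversal_iff_nat] at h ⊢
  obtain ⟨r, B, hB, hr, h⟩ := h
  refine ⟨r, fun n => B n ∩ (M ＼ D).E, fun n => Set.inter_subset_right, ?_, ?_⟩
  · intro n hn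
    simp [hr n hn]
  · intro I hI
    have hI' : I ⊆ M.E \ D := hI
    have h1 : (M ＼ D).Indep I ↔ M.Indep I := by
      rw [delete_indep_iff]
      exact ⟨fun h => h.1, fun h => ⟨h, Set.disjoint_left.2 fun x hx hxD => (hI' hx).2 hxD⟩⟩
    rw [h1, h I (hI'.trans Set.sdiff_subset)]
    constructor
    · rintro ⟨g, hg, hgB⟩
      exact ⟨g, hg, fun e he => ⟨hgB e he, hI he⟩⟩
    · rintro ⟨g, hg, hgB⟩
      exact ⟨g, hg, fun e he => (hgB e he).1⟩

section rep

variable {K : Type*} [Field K] {V : Type*} [AddCommGroup V] [Module K V]

theorem rk_comp_emb {E E' : Type*} (v : E → V) (ι : E' ↪ E) (I : Finset E') :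
    rk K (fun x => v (ι x)) I = rk K v (I.map ι) := by
  have hset : (fun x => v (ι x)) '' (I : Set E') = v '' ((I.map ι : Finset E) : Set E) := by
    rw [Finset.coe_map, Set.image_image]
  unfold rk sp
  rw [hset]

theorem ind_comp_emb {E E' : Type*} (v : E → V) (ι : E' ↪ E) (I : Finset E') :
    Ind K (fun x => v (ι x)) I ↔ Ind K v (I.map ι) := by
  unfold Ind
  rw [rk_comp_emb, Finset.card_map]

theorem hasTrans_comp_equiv {E E' : Type*} [Fintype E] [DecidableEq E] [Fintype E']
    [DecidableEq E'] {v : E → V} (σ : E' ≃ E) (h : HasTrans K v ∅) :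
    HasTrans K (fun x => v (σ x)) ∅ := by
  obtain ⟨r, B, hB⟩ := h
  refine ⟨r, fun i => (B i).map σ.symm.toEmbedding, ?_⟩
  intro I _
  have h1 : rk K (fun x => v (σ x)) (Finset.univ \ I) =
      rk K v (Finset.univ \ I.map σ.toEmbedding) := by
    have := rk_comp_emb (K := K) v σ.toEmbedding (Finset.univ \ I)
    refine this.trans ?_
    congr 1
    ext x
    simp only [Finset.mem_map, Finset.mem_sdiff, Finset.mem_univ, true_and,
      Equiv.coe_toEmbedding]
    constructor
    · rintro ⟨y, hy, rfl⟩ ⟨z, hz, hzy⟩
      exact hy (σ.injective hzy ▸ hz)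
    · intro hx
      exact ⟨σ.symm x, fun hy => hx ⟨_, hy, by simp⟩, by simp⟩
  have h2 : rk K (fun x => v (σ x)) Finset.univ = rk K v Finset.univ := by
    have := rk_comp_emb (K := K) v σ.toEmbedding Finset.univ
    refine this.trans ?_
    congr 1
    ext x
    simp only [Finset.mem_map, Finset.mem_univ, true_and, Equiv.coe_toEmbedding, iff_true]
    exact ⟨σ.symm x, by simp⟩
  rw [h1, h2, hB _ (Finset.disjoint_empty_right _)]
  constructor
  · rintro ⟨f, hf, hfB⟩
    refine ⟨fun x => f ⟨σ x, Finset.mem_map_of_mem _ x.2⟩, ?_, ?_⟩
    · intro x y hxy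
      have := congrArg Subtype.val (hf hxy)
      exact Subtype.ext (σ.injective this)
    · intro x
      have := hfB ⟨σ x, Finset.mem_map_of_mem _ x.2⟩
      rw [Finset.mem_map]
      exact ⟨_, this, by simp⟩
  · rintro ⟨f, hf, hfB⟩
    have hm : ∀ x : (I.map σ.toEmbedding : Finset E), σ.symm x ∈ I := by
      rintro ⟨x, hx⟩
      obtain ⟨y, hy, rfl⟩ := Finset.mem_map.1 hx
      simpa using hy
    refine ⟨fun x => f ⟨σ.symm x, hm x⟩, ?_, ?_⟩
    · intro x y hxy
      have := congrArg Subtype.val (hf hxy)
      exact Subtype.ext (σ.symm.injective this)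
    · intro x
      have := hfB ⟨σ.symm x, hm x⟩
      rw [Finset.mem_map] at this
      obtain ⟨y, hy, hyx⟩ := this
      have : y = x := σ.symm.injective hyx
      rwa [this] at hy

theorem ind_singleton_iff {E : Type*} {w : E → V} {e : E} : Ind K w {e} ↔ w e ≠ 0 := by
  unfold Ind rk
  rw [sp_singleton, Finset.card_singleton]
  constructor
  · intro h h0
    rw [h0, Submodule.span_zero_singleton, finrank_bot] at h
    exact absurd h (by norm_num)
  · exact finrank_span_singleton

theorem RepDual.isColoop_iff {M : Matroid α} {w : M.E → V} (h : RepDual K M w) {e : M.E} :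
    M.IsColoop e ↔ w e = 0 := by
  have h1 := h {e}
  rw [ind_singleton_iff, Finset.coe_singleton, Set.image_singleton, indep_singleton] at h1
  rw [← dual_isLoop_iff_isColoop, ← not_isNonloop_iff (by simp)]
  rw [h1, not_not]

theorem RepDual.isCocircuit_pair_iff {M : Matroid α} [FiniteDimensional K V]
    {w : M.E → V} (h : RepDual K M w) {e f : M.E}
    (hef : e ≠ f) (he : w e ≠ 0) (hf : w f ≠ 0) :
    M.IsCocircuit {(e : α), (f : α)} ↔ w e ∈ Submodule.span K {w f} := by
  classical
  have hne : (e : α) ≠ f := fun h => hef (Subtype.ext h)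
  have h1 := h {e, f}
  have h2 : Ind K w {e, f} ↔ w e ∉ Submodule.span K {w f} := by
    have hf' : Ind K w {f} := ind_singleton_iff.2 hf
    rw [← sp_singleton]
    constructor
    · intro hi hs
      have h3 := rk_insert_of_mem_sp hs
      unfold Ind at hi hf'
      rw [h3, hf', Finset.card_pair hef, Finset.card_singleton] at hi
      omega
    · intro hs
      exact hf'.insert hs
  rw [h2] at h1
  have h3 : (Subtype.val '' (({e, f} : Finset M.E) : Set M.E)) = {(e : α), (f : α)} := by
    ext x; simp [eq_comm]
  rw [h3] at h1
  rw [isCocircuit_def, isCircuit_iff_dep_forall_sdiff_singleton_indep]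
  have hE : {(e : α), (f : α)} ⊆ M✶.E := by
    rintro x (rfl | rfl)
    · exact e.2
    · exact f.2
  constructor
  · rintro ⟨hd, -⟩
    by_contra hs
    exact hd.not_indep (h1.2 hs)
  · intro hs
    refine ⟨⟨fun hi => h1.1 hi hs, hE⟩, ?_⟩
    have he1 : M✶.Indep {(e : α)} := by
      have := (h {e}).2 (ind_singleton_iff.2 he)
      simpa using this
    have hf1 : M✶.Indep {(f : α)} := by
      have := (h {f}).2 (ind_singleton_iff.2 hf)
      simpa using this
    rintro x (rfl | rfl)
    · refine hf1.subset ?_
      rintro y ⟨rfl | hy, hy'⟩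
      · exact absurd rfl hy'
      · exact hy
    · refine he1.subset ?_
      rintro y ⟨hy | hy, hy'⟩
      · exact hy
      · exact absurd hy hy'

end rep

/-- If `M` is quaternary and an excluded series minor then the dual is simple. -/
theorem RepDual.simple_of_excluded {V : Type*} [AddCommGroup V] [Module (GaloisField 2 2) V]
    [FiniteDimensional (GaloisField 2 2) V] {M : Matroid α} [M.Finite] {w : M.E → V}
    (h : RepDual (GaloisField 2 2) M w) (hr : IsRepr (GaloisField 2 2) M) (hM : IsExcluded M) :
    Simple (GaloisField 2 2) w := by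
  have h0 : ∀ e, w e ≠ 0 := by
    intro e he
    have hc := h.isColoop_iff.2 he
    have hQ := hM.2 _ (Relation.TransGen.single (Or.inl ⟨e, e.2, rfl⟩))
    exact hM.1 ⟨hr, isTransversal_of_delete_coloop hc hQ.2⟩
  refine ⟨h0, ?_⟩
  intro e f hs
  by_contra hef
  have hc := (h.isCocircuit_pair_iff hef (h0 e) (h0 f)).2 hs
  have hne : (e : α) ≠ f := fun h => hef (Subtype.ext h)
  have hQ := hM.2 _ (Relation.TransGen.single (Or.inr ⟨e, f, hne, hc, rfl⟩))
  exact hM.1 ⟨hr, isTransversal_of_contract_series hne hc hQ.2⟩

theorem RepDual.contractElem {K : Type*} [Field K] {V : Type*} [AddCommGroup V] [Module K V]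
    {M : Matroid α} {w : M.E → V} (h : RepDual K M w) (e : α) :
    RepDual K (M ／ {e}) (fun x => w ⟨x, x.2.1⟩) := by
  intro I
  let ι : (M ／ {e}).E ↪ M.E := ⟨fun x => ⟨x, x.2.1⟩, fun x y hxy => Subtype.ext (by
    have := congrArg Subtype.val hxy
    exact this)⟩
  have h1 := ind_comp_emb (K := K) w ι I
  refine Iff.trans ?_ h1.symm
  rw [← h (I.map ι), dual_contract, delete_indep_iff]
  have h2 : (Subtype.val '' ((I.map ι : Finset M.E) : Set M.E)) = Subtype.val '' (I : Set (M ／ {e}).E) := by
    rw [Finset.coe_map, Set.image_image]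
    rfl
  rw [h2]
  constructor
  · exact fun h => h.1
  · refine fun h => ⟨h, Set.disjoint_left.2 ?_⟩
    rintro _ ⟨x, -, rfl⟩ hx
    exact x.2.2 hx

/-- series contraction keeps representable transversal matroids transversal -/
theorem isTransversal_contract_series {K : Type*} [Field K] {M : Matroid α} [M.Finite]
    (hr : IsRepr K M) (h : IsTransversal M) {e f : α} (hef : e ≠ f)
    (hc : M.IsCocircuit {e, f}) : IsTransversal (M ／ {e}) := by
  classical
  obtain ⟨n, hn⟩ : ∃ n, M.E.ncard = n := ⟨_, rfl⟩
  induction n using Nat.strong_induction_on generalizing M with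
  | _ n ih =>
    subst hn
    by_cases hg : ∃ g, M.IsColoop g
    · obtain ⟨g, hg⟩ := hg
      have hge : g ∉ ({e, f} : Set α) := by
        intro hgm
        have h1 := hg.isCocircuit.isCircuit.eq_of_subset_isCircuit hc.isCircuit
          (Set.singleton_subset_iff.2 hgm)
        have h2 : e ∈ ({g} : Set α) := by rw [h1]; simp
        have h3 : f ∈ ({g} : Set α) := by rw [h1]; simp
        exact hef (h2.trans h3.symm)
      have hNc : (M ＼ {g}).IsCocircuit {e, f} := by
        rw [isCocircuit_def, dual_delete,
          contract_eq_delete_of_subset_loops (Set.singleton_subset_iff.2 hg.dual_isLoop),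
          delete_isCircuit_iff]
        exact ⟨hc.isCircuit, Set.disjoint_singleton_right.2 hge⟩
      have hlt : (M ＼ {g}).E.ncard < M.E.ncard := by
        rw [delete_ground]
        exact Set.ncard_lt_ncard ⟨Set.sdiff_subset, fun h => (h hg.mem_ground).2 rfl⟩
          M.ground_finite
      have h1 := ih _ hlt (hr.delete {g}) (isTransversal_delete h {g}) hNc rfl
      have heg : e ≠ g := fun h => hge (by simp [h])
      rw [← contract_delete_comm M (Set.disjoint_singleton.2 heg)] at h1
      exact isTransversal_of_delete_coloop (contract_isColoop_iff.2 ⟨hg, fun h => heg h.symm⟩) h1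
    · have hg : ∀ g, ¬ M.IsColoop g := fun g h => hg ⟨g, h⟩
      obtain ⟨n, w, hw⟩ := hr.exists_repDual
      have : Fintype M.E := M.ground_finite.fintype
      have h0 : ∀ x, w x ≠ 0 := fun x hx => hg x (hw.isColoop_iff.2 hx)
      have hfl : IsFl K w (∅ : Finset M.E) := by
        rw [IsFl, Finset.eq_empty_iff_forall_notMem]
        intro x hx
        rw [mem_cl, sp_empty, Submodule.mem_bot] at hx
        exact h0 x hx
      have hi : Ind K w (∅ : Finset M.E) := by simp
      have hs := SG_of_hasTrans hfl hi (hw.transversal_iff.1 h)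
      set e' : M.E := ⟨e, hc.subset_ground (by simp)⟩ with he'
      set f' : M.E := ⟨f, hc.subset_ground (by simp)⟩ with hf'
      have hef' : e' ≠ f' := fun h => hef (congrArg Subtype.val h)
      have hp : w f' ∈ Submodule.span K {w e'} := by
        refine (hw.isCocircuit_pair_iff hef'.symm (h0 _) (h0 _)).1 ?_
        rw [Set.pair_comm]
        exact hc
      have hs' := SG_delete_parallel h0 hs hef' hp
      have hfl' : IsFl K (fun g : (Finset.univ.erase e' : Finset M.E) => w g) ∅ := by
        rw [IsFl, Finset.eq_empty_iff_forall_notMem]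
        intro x hx
        rw [mem_cl, sp_empty, Submodule.mem_bot] at hx
        exact h0 x hx
      have hT := hasTrans_of_SG hfl' (by simp) hs'
      have : Fintype (M ／ {e}).E := (M ／ {e}).ground_finite.fintype
      let σ : (M ／ {e}).E ≃ (Finset.univ.erase e' : Finset M.E) :=
        { toFun := fun x => ⟨⟨x, x.2.1⟩, Finset.mem_erase.2
            ⟨fun h => x.2.2 (congrArg Subtype.val h), Finset.mem_univ _⟩⟩
          invFun := fun y => ⟨y.1, y.1.2, fun h =>
            (Finset.mem_erase.1 y.2).1 (Subtype.ext h)⟩
          left_inv := fun x => rfl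
          right_inv := fun y => rfl }
      have hT' := hasTrans_comp_equiv σ hT
      exact (hw.contractElem e).transversal_iff.2 hT'

theorem classQ_step {M N : Matroid α} [M.Finite] (h : ClassQ M) (hs : SeriesStep M N) :
    ClassQ N := by
  rcases hs with ⟨e, he, rfl⟩ | ⟨e, f, hef, hc, rfl⟩
  · exact ⟨h.1.delete _, isTransversal_delete h.2 _⟩
  · exact ⟨h.1.contract _, isTransversal_contract_series h.1 h.2 hef hc⟩

end Ca3
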