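import Pool.Agent.Lib.MP_ca3eb1_co.Bridge
import Pool.Agent.Lib.MP_ca3eb1_co.Ring

/-! # Module M14d: the ring family, matroid form and configuration form -/

set_option linter.unusedSectionVars false

namespace Ca3

open Matroid

variable {α : Type*}

private lemma br_ncard {S : Set α} [Fintype S] (P : α → Prop) [DecidablePred fun e : S => P e] :
    {e ∈ S | P e}.ncard = (Finset.univ.filter (fun e : S => P e)).card := by
  have h : {e ∈ S | P e} =
      Subtype.val '' ((Finset.univ.filter (fun e : S => P e) : Finset S) : Set S) := by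
    ext e
    simp only [Set.mem_ofPred_eq, Finset.coe_filter, Finset.mem_univ, true_and, Set.mem_image,
      Subtype.exists, exists_and_left, exists_prop, exists_eq_right_right]
    tauto
  rw [h, Set.ncard_image_of_injective _ Subtype.val_injective, Set.ncard_coe_finset]

private lemma br_exc {S : Set α} [Fintype S] [DecidableEq S] {n : ℕ} (leg : α → Fin n)
    (leg' : S → Fin n) (hleg : ∀ e : S, leg e = leg' e) (C : Finset (Finset (Fin n)))
    (J : Finset S) :
    ((Subtype.val '' (J : Set S)).ncard +
        {c | c ∈ C ∧ ∀ i ∈ c, ∃ e ∈ Subtype.val '' (J : Set S), leg e = i}.ncard ≤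
      (leg '' (Subtype.val '' (J : Set S))).ncard + 1) ↔ ExcLe leg' C J := by
  have h1 : (Subtype.val '' (J : Set S)).ncard = J.card := by
    rw [Set.ncard_image_of_injective _ Subtype.val_injective, Set.ncard_coe_finset]
  have h2 : {c | c ∈ C ∧ ∀ i ∈ c, ∃ e ∈ Subtype.val '' (J : Set S), leg e = i} =
      ((C.filter (fun c => c ⊆ J.image leg') : Finset (Finset (Fin n))) :
        Set (Finset (Fin n))) := by
    ext c
    simp only [Set.mem_ofPred_eq, Finset.coe_filter]
    apply and_congr_right
    intro _
    constructor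
    · intro h i hi
      obtain ⟨e, he, hei⟩ := h i hi
      obtain ⟨x, hx, rfl⟩ := he
      rw [Finset.mem_image]
      exact ⟨x, hx, by rw [← hleg, hei]⟩
    · intro h i hi
      obtain ⟨x, hx, hxi⟩ := Finset.mem_image.1 (h hi)
      exact ⟨x, ⟨x, hx, rfl⟩, by rw [hleg, hxi]⟩
  have h3 : leg '' (Subtype.val '' (J : Set S)) = ((J.image leg' : Finset (Fin n)) :
      Set (Fin n)) := by
    ext i
    simp only [Set.mem_image, Finset.coe_image]
    constructor
    · rintro ⟨_, ⟨x, hx, rfl⟩, rfl⟩
      exact ⟨x, hx, (hleg x).symm⟩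
    · rintro ⟨x, hx, rfl⟩
      exact ⟨x, ⟨x, hx, rfl⟩, hleg x⟩
  rw [h1, h2, h3, Set.ncard_coe_finset, Set.ncard_coe_finset]
  rfl

/-- the ring condition on the subtype of the ground set (no vectors) -/
theorem isRing_iff {M : Matroid α} [M.Finite] [Fintype M.E] [DecidableEq M.E]
    (hne : M.E.Nonempty) : IsRing M ↔
    ∃ (n : ℕ) (leg : M.E → Fin n) (C : Finset (Finset (Fin n))), IsRingData leg C ∧
      ∀ I : Finset M.E, M✶.Indep (Subtype.val '' (I : Set M.E)) ↔ ExcLe leg C I := by
  classical
  constructor
  · rintro ⟨n, leg, C, h1, h2, h3, h4, h5⟩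
    refine ⟨n, fun e => leg e, C, ⟨h1, h2, ?_, ?_, ?_⟩, ?_⟩
    · intro i
      have := (h3 i).1
      rwa [br_ncard (fun e => leg e = i)] at this
    · intro i
      have := (h3 i).2
      rwa [br_ncard (fun e => leg e = i)] at this
    · intro c hc i hi
      have := h4 c hc i hi
      rwa [br_ncard (fun e => leg e = i)] at this
    · intro I
      rw [h5 _ (by rintro _ ⟨x, _, rfl⟩; exact x.2)]
      exact br_exc leg _ (fun _ => rfl) C I
  · rintro ⟨n, leg', C, hd, h5⟩
    obtain ⟨e0, he0⟩ := hne
    let leg : α → Fin n := fun e => if h : e ∈ M.E then leg' ⟨e, h⟩ else leg' ⟨e0, he0⟩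
    have hleg : ∀ e : M.E, leg e = leg' e := by
      intro e
      simp [leg]
    have hcard : ∀ i, {e ∈ M.E | leg e = i}.ncard =
        (Finset.univ.filter (fun e : M.E => leg' e = i)).card := by
      intro i
      rw [br_ncard (fun e => leg e = i)]
      congr 1
      apply Finset.filter_congr
      intro e _
      rw [hleg]
    refine ⟨n, leg, C, hd.three_le, hd.disj, ?_, ?_, ?_⟩
    · intro i
      rw [hcard]
      exact ⟨hd.two_le_leg i, hd.leg_le_four i⟩
    · intro c hc i hi
      rw [hcard]
      exact hd.leg_eq_two c hc i hi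
    · intro I hI
      have hIJ : I = Subtype.val '' ((Finset.univ.filter (fun e : M.E => (e : α) ∈ I) :
          Finset M.E) : Set M.E) := by
        ext e
        constructor
        · intro he
          exact ⟨⟨e, hI he⟩, by simpa using he, rfl⟩
        · rintro ⟨x, hx, rfl⟩
          simpa using hx
      rw [hIJ, h5]
      exact (br_exc leg leg' hleg C _).symm

end Ca3
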