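import Mathlib

/-! # Matroid definitions of the final theorem

Representable and transversal matroids, series minors, excluded series minors, the family. -/

namespace Ca3

open Matroid

variable {α : Type*}

/-- `M` is representable over the field `K`: there is a map from the ground set to a space `K^n`
such that a set of elements is independent in `M` iff its image vectors are linearly independent
(as an indexed family). -/
def IsRepr (K : Type*) [Field K] (M : Matroid α) : Prop :=
  ∃ (n : ℕ) (v : α → (Fin n → K)), ∀ I, I ⊆ M.E → (M.Indep I ↔ LinearIndepOn K v I)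

/-- Transversal matroids: there is a finite family `A` of subsets of the ground set such that a
subset `I` of the ground set is independent iff it is a partial transversal of `A`. -/
def IsTransversal (M : Matroid α) : Prop :=
  ∃ (r : ℕ) (A : Fin r → Set α), (∀ i, A i ⊆ M.E) ∧
    ∀ I, I ⊆ M.E → (M.Indep I ↔ ∃ f : I → Fin r, Function.Injective f ∧ ∀ e : I, (e : α) ∈ A (f e))

/-- The class `𝒬` of quaternary transversal matroids. -/
def ClassQ (M : Matroid α) : Prop := IsRepr (GaloisField 2 2) M ∧ IsTransversal M

/-- `N` arises from `M` by deleting one element or by contracting one element `e` which lies in a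
2-element cocircuit `{e, f}`. -/
def SeriesStep (M N : Matroid α) : Prop :=
  (∃ e ∈ M.E, N = M ＼ {e}) ∨ ∃ e f, e ≠ f ∧ M.IsCocircuit {e, f} ∧ N = M ／ {e}

/-- Excluded series minors for `𝒬`: `M` is not in `𝒬`, every proper series minor is. -/
def IsExcluded (M : Matroid α) : Prop :=
  ¬ ClassQ M ∧ ∀ N, Relation.TransGen SeriesStep M N → ClassQ N

/-- The family: the ground set is partitioned into `n` legs, each of size 2, 3 or 4; `C` is a
family of pairwise disjoint sets of at least three legs of size 2; a subset `I` of the ground set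
is independent in the dual of `M` iff
`|I| - #(legs met by I) + #(members of C all of whose legs are met by I) ≤ 1`. -/
def IsRing (M : Matroid α) : Prop :=
  ∃ (n : ℕ) (leg : α → Fin n) (C : Finset (Finset (Fin n))),
    (∀ c ∈ C, 3 ≤ c.card) ∧ (∀ c ∈ C, ∀ d ∈ C, c ≠ d → Disjoint c d) ∧
    (∀ i, 2 ≤ {e ∈ M.E | leg e = i}.ncard ∧ {e ∈ M.E | leg e = i}.ncard ≤ 4) ∧
    (∀ c ∈ C, ∀ i ∈ c, {e ∈ M.E | leg e = i}.ncard = 2) ∧
    ∀ I, I ⊆ M.E → (M✶.Indep I ↔
      I.ncard + {c | c ∈ C ∧ ∀ i ∈ c, ∃ e ∈ I, leg e = i}.ncard ≤ (leg '' I).ncard + 1)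

end Ca3
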