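import Pool.Agent.Lib.MP_ca3eb1_co.Ring

/-! # Module M13b: the ring matroids: simple, contractions are strict gammoids, the matroid is
not -/

set_option linter.unusedSectionVars false

namespace Ca3

open Finset Submodule

variable {K V E : Type*} [Field K] [AddCommGroup V] [Module K V]
  [FiniteDimensional K V] [Fintype E] [DecidableEq E] {n : ℕ} {leg : E → Fin n}
  {C : Finset (Finset (Fin n))} {v : E → V}

private theorem cnt_sum' {ι κ : Type*} [Fintype ι] [Fintype κ] (A : ι → Finset E) (B : κ → Finset E)
    (Z : Finset E) : cnt (Sum.elim A B) Z = cnt A Z + cnt B Z := by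
  unfold cnt
  rw [card_filter, card_filter, card_filter, Fintype.sum_sum_type]
  rfl

private theorem cnt_sigma' {ι : Type*} [Fintype ι] {β : ι → Type} [∀ i, Fintype (β i)]
    (A : ι → Finset E) (Z : Finset E) :
    cnt (fun i : (Σ i, β i) => A i.1) Z = ∑ i, if A i ⊆ Z then Fintype.card (β i) else 0 := by
  unfold cnt
  rw [card_filter, Fintype.sum_sigma]
  apply sum_congr rfl
  intro i _
  by_cases h : A i ⊆ Z
  · simp [h]
  · simp [h]

private theorem cnt_const' (m : ℕ) (S Z : Finset E) (h : S ⊆ Z) :
    cnt (fun _ : Fin m => S) Z = m := by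
  unfold cnt
  simp [h]

/-- number of circuits inside a set of legs -/
private def gam (C : Finset (Finset (Fin n))) (S : Finset (Fin n)) : ℕ :=
  (C.filter (fun c => c ⊆ S)).card

/-- the excess -/
private def rex (leg : E → Fin n) (C : Finset (Finset (Fin n))) (X : Finset E) : ℤ :=
  (X.card : ℤ) - (X.image leg).card + gam C (X.image leg)

private theorem excLe_iff (X : Finset E) : ExcLe leg C X ↔ rex leg C X ≤ 1 := by
  unfold ExcLe rex gam
  constructor <;> intro h <;> omega

private theorem gam_insert (hd : IsRingData leg C) (S : Finset (Fin n)) (g : Fin n) :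
    gam C (insert g S) ≤ gam C S + 1 := by
  unfold gam
  have h1 : C.filter (fun c => c ⊆ insert g S) ⊆
      C.filter (fun c => c ⊆ S) ∪ C.filter (fun c => g ∈ c) := by
    intro c hc
    rw [mem_filter] at hc
    rw [mem_union, mem_filter, mem_filter]
    by_cases hg : g ∈ c
    · exact Or.inr ⟨hc.1, hg⟩
    · refine Or.inl ⟨hc.1, ?_⟩
      intro x hx
      rcases mem_insert.1 (hc.2 hx) with rfl | h
      · exact absurd hx hg
      · exact h
  have h2 : (C.filter (fun c => g ∈ c)).card ≤ 1 := by
    rw [card_le_one]
    intro c hc d hd'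
    rw [mem_filter] at hc hd'
    by_contra hne
    exact (Finset.disjoint_left.1 (hd.disj c hc.1 d hd'.1 hne)) hc.2 hd'.2
  exact (card_le_card h1).trans ((card_union_le _ _).trans (by omega))

private theorem gam_mono {S T : Finset (Fin n)} (h : S ⊆ T) : gam C S ≤ gam C T := by
  unfold gam
  apply card_le_card
  intro c hc
  rw [mem_filter] at hc ⊢
  exact ⟨hc.1, hc.2.trans h⟩

private theorem gam_small (hd : IsRingData leg C) {S : Finset (Fin n)} (h : S.card ≤ 2) :
    gam C S = 0 := by
  unfold gam
  rw [card_eq_zero, filter_eq_empty_iff]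
  intro c hc hcS
  have := hd.three_le c hc
  have := card_le_card hcS
  omega

private theorem rex_insert_le (hd : IsRingData leg C) (X : Finset E) (x : E) :
    rex leg C (insert x X) ≤ rex leg C X + 1 := by
  by_cases hx : x ∈ X
  · rw [insert_eq_of_mem hx]; omega
  · unfold rex
    rw [card_insert_of_notMem hx, image_insert]
    by_cases hl : leg x ∈ X.image leg
    · rw [insert_eq_of_mem hl]
      push_cast
      omega
    · rw [card_insert_of_notMem hl]
      have := gam_insert hd (X.image leg) (leg x)
      push_cast
      omega

private theorem rex_insert_same (X : Finset E) {x : E} (hx : x ∉ X)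
    (hl : leg x ∈ X.image leg) : rex leg C (insert x X) = rex leg C X + 1 := by
  unfold rex
  rw [card_insert_of_notMem hx, image_insert, insert_eq_of_mem hl]
  push_cast
  omega

private theorem rex_union_le (hd : IsRingData leg C) (B D : Finset E) :
    rex leg C (D ∪ B) ≤ rex leg C B + D.card := by
  induction D using Finset.induction_on with
  | empty => simp
  | insert x D hx ih =>
    rw [insert_union, card_insert_of_notMem hx]
    have := rex_insert_le hd (D ∪ B) x
    push_cast
    omega

private theorem rex_erase (hd : IsRingData leg C) (X : Finset E) (h : 1 ≤ rex leg C X) :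
    ∃ x ∈ X, rex leg C (X.erase x) = rex leg C X - 1 := by
  by_cases hinj : ∃ x ∈ X, ∃ y ∈ X, x ≠ y ∧ leg x = leg y
  · obtain ⟨x, hx, y, hy, hxy, hl⟩ := hinj
    refine ⟨x, hx, ?_⟩
    have h1 := rex_insert_same (C := C) (leg := leg) (X.erase x) (x := x) (by simp) (by
      rw [mem_image]
      exact ⟨y, mem_erase.2 ⟨hxy.symm, hy⟩, hl.symm⟩)
    rw [insert_erase hx] at h1
    omega
  · push Not at hinj
    have hI : Set.InjOn leg X := by
      intro x hx y hy hxy
      by_contra hne
      exact hinj x hx y hy hne hxy
    have hc : (X.image leg).card = X.card := card_image_of_injOn hI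
    have hg : 1 ≤ gam C (X.image leg) := by
      unfold rex at h
      omega
    unfold gam at hg
    obtain ⟨c, hcm⟩ := card_pos.1 (show 0 < (C.filter (fun c => c ⊆ X.image leg)).card by omega)
    rw [mem_filter] at hcm
    obtain ⟨hcC, hcX⟩ := hcm
    have h3 := hd.three_le c hcC
    obtain ⟨g, hgc⟩ : c.Nonempty := by
      rw [← card_pos]; omega
    obtain ⟨x, hx, hxg⟩ := mem_image.1 (hcX hgc)
    refine ⟨x, hx, ?_⟩
    have him : (X.erase x).image leg = (X.image leg).erase (leg x) := by
      ext g'
      simp only [mem_image, mem_erase]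
      constructor
      · rintro ⟨y, ⟨hyx, hy⟩, rfl⟩
        exact ⟨fun h => hyx (hI hy hx h), y, hy, rfl⟩
      · rintro ⟨hne, y, hy, rfl⟩
        exact ⟨y, ⟨fun h => hne (by rw [h]), hy⟩, rfl⟩
    have hgam : gam C ((X.image leg).erase (leg x)) + 1 = gam C (X.image leg) := by
      unfold gam
      have h4 : C.filter (fun c => c ⊆ X.image leg) =
          insert c (C.filter (fun c => c ⊆ (X.image leg).erase (leg x))) := by
        ext d
        simp only [mem_filter, mem_insert]
        constructor
        · rintro ⟨h5, h6⟩
          by_cases hdc : d = c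
          · exact Or.inl hdc
          · refine Or.inr ⟨h5, ?_⟩
            intro g' hg'
            rw [mem_erase]
            refine ⟨?_, h6 hg'⟩
            rintro rfl
            rw [hxg] at hg'
            exact (Finset.disjoint_left.1 (hd.disj d h5 c hcC hdc)) hg' hgc
        · rintro (rfl | ⟨h5, h6⟩)
          · exact ⟨hcC, hcX⟩
          · exact ⟨h5, h6.trans (erase_subset _ _)⟩
      rw [h4, card_insert_of_notMem]
      rw [mem_filter]
      rintro ⟨_, h6⟩
      have := h6 hgc
      rw [mem_erase, hxg] at this
      exact this.1 rfl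
    unfold rex
    rw [him, card_erase_of_mem hx, card_erase_of_mem (mem_image_of_mem leg hx)]
    have hXp : 0 < X.card := card_pos.2 ⟨x, hx⟩
    have hSp : 0 < (X.image leg).card := by omega
    omega

/-- rank of the ring configurations -/
private theorem ring_rk (hd : IsRingData leg C) (hI : ∀ I, Ind K v I ↔ ExcLe leg C I)
    (X : Finset E) : (rex leg C X ≤ 1 → (rk K v X : ℤ) = X.card) ∧
      (1 ≤ rex leg C X → (rk K v X : ℤ) = X.card - rex leg C X + 1) := by
  have h1 : ∀ X : Finset E, rex leg C X ≤ 1 → (rk K v X : ℤ) = X.card := by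
    intro X hX
    have := (hI X).2 ((excLe_iff X).2 hX)
    unfold Ind at this
    omega
  refine ⟨h1 X, fun hX => ?_⟩
  apply le_antisymm
  · obtain ⟨B, hBX, hB, hs⟩ := exists_basis (K := K) (v := v) X
    have h2 : rex leg C B ≤ 1 := (excLe_iff B).1 ((hI B).1 hB)
    have h3 := rex_union_le hd B (X \ B)
    rw [sdiff_union_of_subset hBX] at h3
    have h4 := card_sdiff_add_card_eq_card hBX
    have h5 : rk K v X = B.card := by rw [← rk_congr hs, hB.rk_eq_card]
    rw [h5]
    omega
  · -- lower bound by induction
    have h2 : ∀ m : ℕ, ∀ X : Finset E, X.card = m → 1 ≤ rex leg C X →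
        (X.card : ℤ) - rex leg C X + 1 ≤ rk K v X := by
      intro m
      induction m with
      | zero =>
        intro X hc hX
        rw [card_eq_zero] at hc
        subst hc
        unfold rex at hX
        rw [image_empty, gam_small hd (by simp)] at hX
        simp at hX
      | succ m ih =>
        intro X hc hX
        by_cases h2 : rex leg C X ≤ 1
        · rw [h1 X h2]; omega
        · obtain ⟨x, hx, hxe⟩ := rex_erase hd X hX
          have h3 := ih (X.erase x) (by rw [card_erase_of_mem hx, hc]; rfl) (by omega)
          have h4 : rk K v (X.erase x) ≤ rk K v X := rk_mono (erase_subset _ _)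
          rw [card_erase_of_mem hx, hxe] at h3
          omega
    exact h2 _ X rfl hX

private theorem mem_of_flat (hd : IsRingData leg C) (hI : ∀ I, Ind K v I ↔ ExcLe leg C I)
    {Z : Finset E} (hZ : IsFl K v Z) (h1 : 1 ≤ rex leg C Z) {y : E} (hy : leg y ∈ Z.image leg) :
    y ∈ Z := by
  by_contra hyZ
  have h2 := rex_insert_same (C := C) Z hyZ hy
  have h3 := (ring_rk hd hI Z).2 h1
  have h4 := (ring_rk hd hI (insert y Z)).2 (by omega)
  rw [card_insert_of_notMem hyZ, h2] at h4
  have h5 : rk K v (insert y Z) = rk K v Z := by
    push_cast at h4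
    omega
  exact hyZ (hZ.mem (rk_insert_eq_iff.1 h5))

theorem ring_simple (hd : IsRingData leg C) (hI : ∀ I, Ind K v I ↔ ExcLe leg C I) :
    Simple K v := by
  have h1 : ∀ X : Finset E, X.Nonempty → X.card ≤ 2 → Ind K v X := by
    intro X hX hc
    rw [hI, excLe_iff]
    unfold rex
    have h2 : (X.image leg).card ≤ X.card := card_image_le
    have h3 : 0 < (X.image leg).card := card_pos.2 (hX.image leg)
    rw [gam_small hd (by omega)]
    push_cast
    omega
  have h0 : ∀ e, v e ≠ 0 := by
    intro e h
    have h2 := h1 {e} (singleton_nonempty e) (by simp)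
    unfold Ind rk at h2
    rw [sp_singleton, h, span_zero_singleton, finrank_bot, card_singleton] at h2
    omega
  refine ⟨h0, fun e f hef => ?_⟩
  by_contra hne
  have h2 := h1 {e, f} ⟨e, by simp⟩ card_le_two
  have h3 := h2.not_mem_sp_erase (mem_insert_self e {f})
  apply h3
  rw [erase_insert (by simpa using hne), sp_singleton]
  exact hef

theorem ring_SG (hd : IsRingData leg C) (hI : ∀ I, Ind K v I ↔ ExcLe leg C I) (x : E) :
    SG K v {x} univ := by
  classical
  set L : Fin n → Finset E := fun g => univ.filter (fun e => leg e = g) with hL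
  have hmL : ∀ g e, e ∈ L g ↔ leg e = g := by
    intro g e; simp [hL]
  have hL2 : ∀ g, 2 ≤ (L g).card := hd.two_le_leg
  have hLne : ∀ g, (L g).Nonempty := by
    intro g; rw [← card_pos]; have := hL2 g; omega
  set g0 := leg x with hg0
  have hM : IsMason K v {x} univ (Sum.elim
      (fun i : (Σ g : {g : Fin n // g ≠ g0}, Fin ((L g).card - 1)) => L i.1 ∪ L g0)
      (Sum.elim (fun _ : Fin ((L g0).card - 2) => L g0)
        (fun c : C => (univ.filter (fun e => leg e ∈ c.1)) ∪ L g0))) := by
    intro Z hxZ _
    rw [singleton_subset_iff] at hxZ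
    have hg0Z : g0 ∈ Z.image leg := mem_image_of_mem leg hxZ
    by_cases hE : L g0 ⊆ Z
    · -- Z contains the leg of x
      have hex : 1 ≤ rex leg C Z := by
        have h1 : 1 ≤ rex leg C (L g0) := by
          unfold rex
          have h2 : (L g0).image leg = {g0} := by
            apply Subset.antisymm
            · intro g hg
              obtain ⟨e, he, rfl⟩ := mem_image.1 hg
              rw [mem_singleton]
              exact (hmL _ _).1 he
            · rw [singleton_subset_iff]
              obtain ⟨e, he⟩ := hLne g0
              exact mem_image.2 ⟨e, he, (hmL _ _).1 he⟩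
          rw [h2, card_singleton]
          have := hL2 g0
          push_cast
          omega
        have h2 : rex leg C (L g0) ≤ rex leg C Z := by
          unfold rex
          have h3 : (Z.image leg).card ≤ ((L g0).image leg).card + (Z \ L g0).card := by
            have h4 : Z.image leg ⊆ (L g0).image leg ∪ (Z \ L g0).image leg := by
              rw [← image_union, union_sdiff_of_subset hE]
            exact (card_le_card h4).trans ((card_union_le _ _).trans
              (Nat.add_le_add_left card_image_le _))
          have h4 := card_sdiff_add_card_eq_card hE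
          have h5 := gam_mono (C := C) (image_subset_image (f := leg) hE)
          omega
        omega
      have hrk := (ring_rk hd hI Z).2 hex
      -- the count
      have hcnt : (cnt (Sum.elim
          (fun i : (Σ g : {g : Fin n // g ≠ g0}, Fin ((L g).card - 1)) => L i.1 ∪ L g0)
          (Sum.elim (fun _ : Fin ((L g0).card - 2) => L g0)
            (fun c : C => (univ.filter (fun e => leg e ∈ c.1)) ∪ L g0))) Z) =
          (∑ g ∈ univ.filter (fun g => g ≠ g0 ∧ L g ⊆ Z), ((L g).card - 1)) +
            (((L g0).card - 2) +
              (C.filter (fun c => ∀ g ∈ c, L g ⊆ Z)).card) := by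
        rw [cnt_sum', cnt_sum', cnt_sigma' (fun g : {g : Fin n // g ≠ g0} => L g ∪ L g0),
          cnt_const' _ _ _ hE]
        congr 1
        · have h1 : ∀ g : {g : Fin n // g ≠ g0},
              (if L g ∪ L g0 ⊆ Z then Fintype.card (Fin ((L g).card - 1)) else 0) =
              (if L g ⊆ Z then (L g).card - 1 else 0) := by
            intro g
            rw [Fintype.card_fin]
            by_cases hg : L g ⊆ Z
            · rw [if_pos (union_subset hg hE), if_pos hg]
            · rw [if_neg (fun h => hg (subset_union_left.trans h)), if_neg hg]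
          rw [Finset.sum_congr rfl (fun g _ => h1 g)]
          rw [← sum_subtype (univ.filter (fun g => g ≠ g0)) (by simp)
            (fun g => if L g ⊆ Z then (L g).card - 1 else 0), ← sum_filter, filter_filter]
        · congr 1
          unfold cnt
          rw [← card_map (Function.Embedding.subtype _)]
          congr 1
          ext c
          simp only [mem_map, mem_filter, mem_univ, true_and, Function.Embedding.coe_subtype,
            Subtype.exists, exists_and_right, exists_eq_right]
          constructor
          · rintro ⟨hcC, h⟩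
            refine ⟨hcC, fun g hg e he => ?_⟩
            rw [hmL] at he
            exact h (mem_union_left _ (mem_filter.2 ⟨mem_univ _, by rw [he]; exact hg⟩))
          · rintro ⟨hcC, h⟩
            refine ⟨hcC, union_subset ?_ hE⟩
            intro e he
            rw [mem_filter] at he
            exact h _ he.2 ((hmL _ _).2 rfl)
      rw [hcnt]
      -- |Z| as a sum over the legs
      have hZc : Z.card = ∑ g ∈ Z.image leg, (Z ∩ L g).card := by
        rw [card_eq_sum_card_image leg Z]
        apply sum_congr rfl
        intro g _
        congr 1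
        ext e
        simp [hmL]
      have hZpos : ∀ g ∈ Z.image leg, 1 ≤ (Z ∩ L g).card := by
        intro g hg
        obtain ⟨e, he, rfl⟩ := mem_image.1 hg
        exact card_pos.2 ⟨e, mem_inter.2 ⟨he, (hmL _ _).2 rfl⟩⟩
      have hZg0 : (Z ∩ L g0).card = (L g0).card := by
        rw [inter_eq_right.2 hE]
      have hsum : Z.card = (L g0).card + ∑ g ∈ (Z.image leg).erase g0, (Z ∩ L g).card := by
        rw [hZc, ← add_sum_erase _ _ hg0Z, hZg0]
      have hsum2 : ∑ g ∈ (Z.image leg).erase g0, (Z ∩ L g).card =
          (∑ g ∈ (Z.image leg).erase g0, ((Z ∩ L g).card - 1)) + ((Z.image leg).card - 1) := by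
        rw [← card_erase_of_mem hg0Z, card_eq_sum_ones, ← sum_add_distrib]
        apply sum_congr rfl
        intro g hg
        have := hZpos g (mem_of_mem_erase hg)
        omega
      have hSpos : 0 < (Z.image leg).card := card_pos.2 ⟨g0, hg0Z⟩
      have hsub1 : (univ.filter (fun g => g ≠ g0 ∧ L g ⊆ Z)) ⊆ (Z.image leg).erase g0 := by
        intro g hg
        rw [mem_filter] at hg
        rw [mem_erase]
        refine ⟨hg.2.1, ?_⟩
        obtain ⟨e, he⟩ := hLne g
        exact mem_image.2 ⟨e, hg.2.2 he, (hmL _ _).1 he⟩
      have hle1 : (∑ g ∈ univ.filter (fun g => g ≠ g0 ∧ L g ⊆ Z), ((L g).card - 1)) ≤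
          ∑ g ∈ (Z.image leg).erase g0, ((Z ∩ L g).card - 1) := by
        calc _ = ∑ g ∈ univ.filter (fun g => g ≠ g0 ∧ L g ⊆ Z), ((Z ∩ L g).card - 1) := by
              apply sum_congr rfl
              intro g hg
              rw [mem_filter] at hg
              rw [inter_eq_right.2 hg.2.2]
          _ ≤ _ := sum_le_sum_of_subset hsub1
      have hle2 : (C.filter (fun c => ∀ g ∈ c, L g ⊆ Z)).card ≤ gam C (Z.image leg) := by
        unfold gam
        apply card_le_card
        intro c hc
        rw [mem_filter] at hc ⊢
        refine ⟨hc.1, fun g hg => ?_⟩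
        obtain ⟨e, he⟩ := hLne g
        exact mem_image.2 ⟨e, hc.2 g hg he, (hmL _ _).1 he⟩
      have hnul : (rk K v Z : ℤ) = (Z.image leg).card - gam C (Z.image leg) + 1 := by
        rw [hrk]; unfold rex; ring
      have hL0 := hL2 g0
      constructor
      · omega
      · intro hZ
        have hfull : ∀ g ∈ Z.image leg, L g ⊆ Z := by
          intro g hg e he
          rw [hmL] at he
          exact mem_of_flat hd hI hZ hex (by rw [he]; exact hg)
        have heq1 : (∑ g ∈ univ.filter (fun g => g ≠ g0 ∧ L g ⊆ Z), ((L g).card - 1)) =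
            ∑ g ∈ (Z.image leg).erase g0, ((Z ∩ L g).card - 1) := by
          have h1 : (univ.filter (fun g => g ≠ g0 ∧ L g ⊆ Z)) = (Z.image leg).erase g0 := by
            apply Subset.antisymm hsub1
            intro g hg
            rw [mem_erase] at hg
            rw [mem_filter]
            exact ⟨mem_univ _, hg.1, hfull g hg.2⟩
          rw [h1]
          apply sum_congr rfl
          intro g hg
          rw [inter_eq_right.2 (hfull g (mem_of_mem_erase hg))]
        have heq2 : (C.filter (fun c => ∀ g ∈ c, L g ⊆ Z)).card = gam C (Z.image leg) := by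
          apply le_antisymm hle2
          unfold gam
          apply card_le_card
          intro c hc
          rw [mem_filter] at hc ⊢
          exact ⟨hc.1, fun g hg => hfull g (hc.2 hg)⟩
        omega
    · -- Z does not contain the leg of x
      have hcnt : (cnt (Sum.elim
          (fun i : (Σ g : {g : Fin n // g ≠ g0}, Fin ((L g).card - 1)) => L i.1 ∪ L g0)
          (Sum.elim (fun _ : Fin ((L g0).card - 2) => L g0)
            (fun c : C => (univ.filter (fun e => leg e ∈ c.1)) ∪ L g0))) Z) = 0 := by
        unfold cnt
        rw [card_eq_zero, filter_eq_empty_iff]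
        rintro (i | i | i) _ hi
        · exact hE (subset_union_right.trans hi)
        · exact hE hi
        · exact hE (subset_union_right.trans hi)
      rw [hcnt]
      have hle : rk K v Z ≤ Z.card := rk_le_card
      refine ⟨by omega, fun hZ => ?_⟩
      have hex : rex leg C Z ≤ 1 := by
        by_contra hc
        push Not at hc
        apply hE
        intro e he
        rw [hmL] at he
        exact mem_of_flat hd hI hZ (by omega) (by rw [he]; exact hg0Z)
      have := (ring_rk hd hI Z).1 hex
      omega
  exact hM.sg

theorem ring_not_SG (hd : IsRingData leg C) (hI : ∀ I, Ind K v I ↔ ExcLe leg C I)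
    (h4 : 4 ≤ rk K v univ) : ¬ SG K v ∅ univ := by
  classical
  intro hs
  set L : Fin n → Finset E := fun g => univ.filter (fun e => leg e = g) with hL
  have hmL : ∀ g e, e ∈ L g ↔ leg e = g := by
    intro g e; simp [hL]
  have hL2 : ∀ g, 2 ≤ (L g).card := hd.two_le_leg
  have hLne : ∀ g, (L g).Nonempty := by
    intro g; rw [← card_pos]; have := hL2 g; omega
  -- the union of the legs of a nonempty set S
  set U : Finset (Fin n) → Finset E := fun S => univ.filter (fun e => leg e ∈ S) with hU
  have hmU : ∀ S e, e ∈ U S ↔ leg e ∈ S := by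
    intro S e; simp [hU]
  have hUim : ∀ S, (U S).image leg = S := by
    intro S
    ext g
    rw [mem_image]
    constructor
    · rintro ⟨e, he, rfl⟩
      exact (hmU _ _).1 he
    · intro hg
      obtain ⟨e, he⟩ := hLne g
      have := (hmL _ _).1 he
      exact ⟨e, (hmU _ _).2 (by rw [this]; exact hg), this⟩
  have hUc : ∀ S, 2 * S.card ≤ (U S).card := by
    intro S
    have h1 : (U S).card = ∑ g ∈ S, (L g).card := by
      rw [card_eq_sum_card_fiberwise (f := leg) (t := S)]
      · apply sum_congr rfl
        intro g hg
        congr 1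
        ext e
        rw [mem_filter, hmU, hmL]
        constructor
        · exact fun h => h.2
        · intro h; exact ⟨by rw [h]; exact hg, h⟩
      · intro e he
        exact (hmU _ _).1 he
    rw [h1, mul_comm, ← smul_eq_mul, ← sum_const]
    exact sum_le_sum (fun g _ => hL2 g)
  have hUrk : ∀ S : Finset (Fin n), S.Nonempty → (rk K v (U S) : ℤ) = S.card - gam C S + 1 := by
    intro S hS
    have h1 : 1 ≤ rex leg C (U S) := by
      unfold rex
      rw [hUim]
      have := hUc S
      have := card_pos.2 hS
      omega
    rw [(ring_rk hd hI (U S)).2 h1]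
    unfold rex
    rw [hUim]
    ring
  have hUex : ∀ S : Finset (Fin n), S.Nonempty → ∀ X, U S ⊆ X → 1 ≤ rex leg C X := by
    intro S hS X hX
    have h1 : 1 ≤ rex leg C (U S) := by
      unfold rex
      rw [hUim]
      have := hUc S
      have := card_pos.2 hS
      omega
    have h2 : rex leg C (U S) ≤ rex leg C X := by
      unfold rex
      have h3 : (X.image leg).card ≤ ((U S).image leg).card + (X \ U S).card := by
        have h4 : X.image leg ⊆ (U S).image leg ∪ (X \ U S).image leg := by
          rw [← image_union, union_sdiff_of_subset hX]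
        exact (card_le_card h4).trans ((card_union_le _ _).trans
          (Nat.add_le_add_left card_image_le _))
      have h4 := card_sdiff_add_card_eq_card hX
      have h5 := gam_mono (C := C) (image_subset_image (f := leg) hX)
      omega
    omega
  have hUu : U univ = univ := by
    ext e; simp [hU]
  -- three legs which do not form a circuit
  have hn : 3 ≤ n ∧ (n = 3 → gam C univ = 0) := by
    have hne : (univ : Finset (Fin n)).Nonempty := by
      by_contra hne
      rw [not_nonempty_iff_eq_empty] at hne
      have : (univ : Finset E) = ∅ := by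
        rw [← hUu, hne]
        ext e; simp [hU]
      rw [this, rk_empty] at h4
      omega
    have h1 := hUrk univ hne
    rw [hUu, card_univ, Fintype.card_fin] at h1
    constructor
    · omega
    · intro h; omega
  obtain ⟨g1, g2, g3, h12, h13, h23, hC⟩ : ∃ g1 g2 g3 : Fin n, g1 ≠ g2 ∧ g1 ≠ g3 ∧ g2 ≠ g3 ∧
      ({g1, g2, g3} : Finset (Fin n)) ∉ C := by
    by_cases hn3 : n = 3
    · subst hn3
      refine ⟨0, 1, 2, by decide, by decide, by decide, ?_⟩
      intro hc
      have h1 := hn.2 rfl
      unfold gam at h1
      rw [card_eq_zero, filter_eq_empty_iff] at h1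
      exact h1 hc (subset_univ _)
    · have hn4 : 4 ≤ n := by omega
      set a : Fin n := ⟨0, by omega⟩
      set b : Fin n := ⟨1, by omega⟩
      set c : Fin n := ⟨2, by omega⟩
      set d : Fin n := ⟨3, by omega⟩
      have hab : a ≠ b := by simp [a, b]
      have hac : a ≠ c := by simp [a, c]
      have had : a ≠ d := by simp [a, d]
      have hbc : b ≠ c := by simp [b, c]
      have hbd : b ≠ d := by simp [b, d]
      have hcd : c ≠ d := by simp [c, d]
      by_cases h1 : ({a, b, c} : Finset (Fin n)) ∈ C
      · refine ⟨a, b, d, hab, had, hbd, fun h2 => ?_⟩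
        have hne : ({a, b, c} : Finset (Fin n)) ≠ {a, b, d} := by
          intro h
          have : c ∈ ({a, b, d} : Finset (Fin n)) := by rw [← h]; simp
          simp only [mem_insert, mem_singleton] at this
          rcases this with h | h | h
          · exact hac h.symm
          · exact hbc h.symm
          · exact hcd h
        exact (Finset.disjoint_left.1 (hd.disj _ h1 _ h2 hne)) (a := a) (by simp) (by simp)
      · exact ⟨a, b, c, hab, hac, hbc, h1⟩
  -- pairs
  have hpair : ∀ a b : Fin n, a ≠ b → rk K v (cl K v (U {a, b})) = 3 := by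
    intro a b hab
    rw [rk_cl]
    have h1 := hUrk {a, b} ⟨a, by simp⟩
    rw [card_pair hab, gam_small hd (by rw [card_pair hab])] at h1
    omega
  -- elements of the closure of a pair
  have hmem : ∀ a b : Fin n, a ≠ b → ∀ z, z ∈ cl K v (U {a, b}) →
      leg z = a ∨ leg z = b ∨ ({a, b, leg z} : Finset (Fin n)) ∈ C := by
    intro a b hab z hz
    by_cases h1 : leg z = a
    · exact Or.inl h1
    by_cases h2 : leg z = b
    · exact Or.inr (Or.inl h2)
    right; right
    have hzU : z ∉ U {a, b} := by
      rw [hmU]; simp [h1, h2]
    have h3 : rk K v (insert z (U {a, b})) = rk K v (U {a, b}) :=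
      rk_insert_of_mem_sp (mem_cl.1 hz)
    have h4 := (ring_rk hd hI (insert z (U {a, b}))).2
      (hUex {a, b} ⟨a, by simp⟩ _ (subset_insert _ _))
    have h5 := hUrk {a, b} ⟨a, by simp⟩
    rw [card_pair hab, gam_small hd (by rw [card_pair hab])] at h5
    unfold rex at h4
    have h6 : (insert z (U {a, b})).image leg = insert (leg z) {a, b} := by
      rw [image_insert, hUim]
    have hnm : leg z ∉ ({a, b} : Finset (Fin n)) := by simp [h1, h2]
    rw [h6, card_insert_of_notMem hzU, card_insert_of_notMem hnm, card_pair hab] at h4
    have h7 : gam C (insert (leg z) {a, b}) = 1 := by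
      push_cast at h4 h5
      omega
    unfold gam at h7
    obtain ⟨c, hc⟩ := card_pos.1 (show 0 < (C.filter (fun c => c ⊆ insert (leg z) {a, b})).card by omega)
    rw [mem_filter] at hc
    have h8 := hd.three_le c hc.1
    have h9 : (insert (leg z) {a, b} : Finset (Fin n)).card = 3 := by
      rw [card_insert_of_notMem hnm, card_pair hab]
    have h10 := eq_of_subset_of_card_le hc.2 (by omega)
    have h11 : ({a, b, leg z} : Finset (Fin n)) = insert (leg z) {a, b} := by
      ext g; simp only [mem_insert, mem_singleton]; tauto
    rw [h11, ← h10]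
    exact hc.1
  set F12 := cl K v (U {g1, g2}) with hF12
  set F13 := cl K v (U {g1, g3}) with hF13
  set F23 := cl K v (U {g2, g3}) with hF23
  have hM3 := M3 hs (F1 := F12) (F2 := F13) (F3 := F23) isFl_cl isFl_cl isFl_cl (empty_subset _)
    (empty_subset _) (empty_subset _) (subset_univ _)
  have hr12 : rk K v F12 = 3 := hpair g1 g2 h12
  have hr13 : rk K v F13 = 3 := hpair g1 g3 h13
  have hr23 : rk K v F23 = 3 := hpair g2 g3 h23
  -- legs in the intersections
  have hleg : ∀ g : Fin n, 2 ≤ rk K v (U {g}) := by
    intro g
    have h1 := hUrk {g} ⟨g, by simp⟩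
    rw [card_singleton, gam_small hd (by simp)] at h1
    omega
  have hsubU : ∀ S T : Finset (Fin n), S ⊆ T → U S ⊆ cl K v (U T) := by
    intro S T hST e he
    apply subset_cl
    rw [hmU] at he ⊢
    exact hST he
  have hi1 : 2 ≤ rk K v (F12 ∩ F13) := (hleg g1).trans (rk_mono (subset_inter
    (hsubU _ _ (by simp)) (hsubU _ _ (by simp))))
  have hi2 : 2 ≤ rk K v (F12 ∩ F23) := (hleg g2).trans (rk_mono (subset_inter
    (hsubU _ _ (by simp)) (hsubU _ _ (by simp))))
  have hi3 : 2 ≤ rk K v (F13 ∩ F23) := (hleg g3).trans (rk_mono (subset_inter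
    (hsubU _ _ (by simp)) (hsubU _ _ (by simp))))
  have hun : 4 ≤ rk K v (F12 ∪ F13 ∪ F23) := by
    have h1 := hUrk {g1, g2, g3} ⟨g1, by simp⟩
    have h2 : ({g1, g2, g3} : Finset (Fin n)).card = 3 := card_eq_three.2 ⟨g1, g2, g3, h12, h13, h23, rfl⟩
    have h3 : gam C {g1, g2, g3} = 0 := by
      unfold gam
      rw [card_eq_zero, filter_eq_empty_iff]
      intro c hc hcS
      have h5 := hd.three_le c hc
      have h6 := eq_of_subset_of_card_le hcS (by omega)
      rw [h6] at hc
      exact hC hc
    rw [h2, h3] at h1
    have h5 : rk K v (U {g1, g2, g3}) ≤ rk K v (F12 ∪ F13 ∪ F23) := by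
      apply rk_mono
      intro e he
      rw [hmU] at he
      simp only [mem_insert, mem_singleton] at he
      rw [mem_union, mem_union]
      rcases he with h | h | h
      · exact Or.inl (Or.inl (subset_cl ((hmU _ _).2 (by simp [h]))))
      · exact Or.inl (Or.inl (subset_cl ((hmU _ _).2 (by simp [h]))))
      · exact Or.inl (Or.inr (subset_cl ((hmU _ _).2 (by simp [h]))))
    omega
  have htri : F12 ∩ F13 ∩ F23 = ∅ := by
    rw [eq_empty_iff_forall_notMem]
    intro z hz
    rw [mem_inter, mem_inter] at hz
    obtain ⟨⟨hz1, hz2⟩, hz3⟩ := hz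
    have a1 := hmem g1 g2 h12 z hz1
    have a2 := hmem g1 g3 h13 z hz2
    have a3 := hmem g2 g3 h23 z hz3
    by_cases b1 : leg z = g1
    · rw [b1] at a3
      rcases a3 with h | h | h
      · exact h12 h
      · exact h13 h
      · apply hC
        have : ({g1, g2, g3} : Finset (Fin n)) = {g2, g3, g1} := by
          ext g; simp only [mem_insert, mem_singleton]; tauto
        rw [this]; exact h
    by_cases b2 : leg z = g2
    · rw [b2] at a2
      rcases a2 with h | h | h
      · exact h12 h.symm
      · exact h23 h
      · apply hC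
        have : ({g1, g2, g3} : Finset (Fin n)) = {g1, g3, g2} := by
          ext g; simp only [mem_insert, mem_singleton]; tauto
        rw [this]; exact h
    have c1 : ({g1, g2, leg z} : Finset (Fin n)) ∈ C := by
      rcases a1 with h | h | h
      · exact absurd h b1
      · exact absurd h b2
      · exact h
    by_cases b3 : leg z = g3
    · rw [b3] at c1
      exact hC c1
    have c2 : ({g1, g3, leg z} : Finset (Fin n)) ∈ C := by
      rcases a2 with h | h | h
      · exact absurd h b1
      · exact absurd h b3
      · exact h
    have hne : ({g1, g2, leg z} : Finset (Fin n)) ≠ {g1, g3, leg z} := by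
      intro h
      have : g2 ∈ ({g1, g3, leg z} : Finset (Fin n)) := by rw [← h]; simp
      simp only [mem_insert, mem_singleton] at this
      rcases this with h | h | h
      · exact h12 h.symm
      · exact h23 h
      · exact b2 h.symm
    exact (Finset.disjoint_left.1 (hd.disj _ c1 _ c2 hne)) (a := g1) (by simp) (by simp)
  rw [htri, rk_empty] at hM3
  omega

end Ca3
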