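import Pool.Agent.Lib.MP_ca3eb1_co.RingRule

/-! # Module M13a: representation of the ring matroids over GF(4) -/

set_option linter.unusedSectionVars false

namespace Ca3

open Finset Submodule

variable {K : Type*} [Field K] [Fintype K] {E : Type*} [Fintype E] [DecidableEq E]

private lemma two_eq_zero_of_card (hK : Fintype.card K = 4) : (1 : K) + 1 = 0 := by
  have h := FiniteField.cast_card_eq_zero K
  rw [hK] at h
  have h2 : ((1 : K) + 1) * (1 + 1) = 0 := by
    rw [← h]; norm_num
  exact mul_self_eq_zero.1 h2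

private lemma exists_omega (hK : Fintype.card K = 4) : ∃ w : K, w ≠ 0 ∧ w ≠ 1 := by
  classical
  by_contra hc
  push Not at hc
  have h1 : (univ : Finset K) ⊆ {0, 1} := by
    intro x _
    by_cases hx : x = 0
    · simp [hx]
    · simp [hc x hx]
  have h2 := card_le_card h1
  have h3 := card_le_two (a := (0 : K)) (b := 1)
  rw [card_univ, hK] at h2
  omega

private lemma sum_mem_zero_one (h2 : (1 : K) + 1 = 0) {ι : Type*} (s : Finset ι) (f : ι → K)
    (hf : ∀ i ∈ s, f i = 0 ∨ f i = 1) : (∑ i ∈ s, f i) = 0 ∨ (∑ i ∈ s, f i) = 1 := by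
  classical
  induction s using Finset.induction_on with
  | empty => left; simp
  | insert a s ha ih =>
    rw [sum_insert ha]
    have h3 := ih fun i hi => hf i (mem_insert_of_mem hi)
    rcases hf a (mem_insert_self _ _) with h | h <;> rcases h3 with h3 | h3 <;>
      rw [h, h3] <;> simp [h2]

/-- The choice of the coefficients of `p`. -/
private lemma exists_coeff (hK : Fintype.card K = 4) {n : ℕ} {leg : E → Fin n}
    {C : Finset (Finset (Fin n))} (hd : IsRingData leg C) (hsel : Finset (Fin n) → Fin n)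
    (hs : ∀ c ∈ C, hsel c ∈ c) :
    ∃ s : E → K, (∀ e f, e ≠ f → leg e = leg f → s e ≠ s f) ∧
      (∀ c ∈ C, ∀ e, leg e ∈ c → leg e ≠ hsel c → s e = 0 ∨ s e = 1) ∧
      (∀ c ∈ C, ∀ e, leg e = hsel c → s e ≠ 0 ∧ s e ≠ 1) := by
  classical
  have h2 := two_eq_zero_of_card hK
  obtain ⟨w, hw0, hw1⟩ := exists_omega hK
  have hw2 : w + 1 ≠ 0 := by
    intro h
    apply hw1
    have : w = w + (1 + 1) := by rw [h2, add_zero]
    rw [← add_assoc, h, zero_add] at this
    exact this
  have hw3 : w + 1 ≠ 1 := by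
    intro h
    exact hw0 (by simpa using h)
  -- allowed sets
  have key : ∀ i : Fin n, ∃ A : Finset K, (univ.filter (fun e => leg e = i)).card ≤ A.card ∧
      (∀ c ∈ C, i ∈ c → i ≠ hsel c → ∀ x ∈ A, x = 0 ∨ x = 1) ∧
      (∀ c ∈ C, i = hsel c → ∀ x ∈ A, x ≠ 0 ∧ x ≠ 1) := by
    intro i
    by_cases hi : ∃ c ∈ C, i ∈ c
    · obtain ⟨c, hc, hic⟩ := hi
      have hu : ∀ d ∈ C, i ∈ d → d = c := by
        intro d hdC hid
        by_contra hne
        exact (Finset.disjoint_left.1 (hd.disj d hdC c hc hne)) hid hic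
      rw [hd.leg_eq_two c hc i hic]
      by_cases hih : i = hsel c
      · refine ⟨{w, w + 1}, ?_, ?_, ?_⟩
        · rw [card_pair]
          intro h
          have : (1 : K) = 0 := by
            have h' : w + 0 = w + 1 := by rw [add_zero]; exact h
            exact (add_left_cancel h').symm
          exact one_ne_zero this
        · intro d hdC hid hne
          rw [hu d hdC hid] at hne
          exact absurd hih hne
        · intro d _ _ x hx
          rw [mem_insert, mem_singleton] at hx
          rcases hx with rfl | rfl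
          · exact ⟨hw0, hw1⟩
          · exact ⟨hw2, hw3⟩
      · refine ⟨{0, 1}, ?_, ?_, ?_⟩
        · rw [card_pair zero_ne_one]
        · intro d _ _ _ x hx
          rw [mem_insert, mem_singleton] at hx
          exact hx
        · intro d hdC hid
          exfalso
          apply hih
          have : i ∈ d := by rw [hid]; exact hs d hdC
          rw [hid, hu d hdC this]
    · refine ⟨univ, ?_, ?_, ?_⟩
      · rw [card_univ, hK]
        exact hd.leg_le_four i
      · intro d hdC hid
        exact absurd ⟨d, hdC, hid⟩ hi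
      · intro d hdC hid
        exact absurd ⟨d, hdC, by rw [hid]; exact hs d hdC⟩ hi
  choose A hA1 hA2 hA3 using key
  have hemb : ∀ i : Fin n, Nonempty ({e // leg e = i} ↪ {x // x ∈ A i}) := by
    intro i
    apply Function.Embedding.nonempty_of_card_le
    rw [Fintype.card_subtype, Fintype.card_coe]
    exact hA1 i
  let φ : ∀ i : Fin n, {e // leg e = i} ↪ {x // x ∈ A i} := fun i => (hemb i).some
  let s : E → K := fun e => (φ (leg e) ⟨e, rfl⟩ : K)
  have hsA : ∀ e, s e ∈ A (leg e) := fun e => (φ (leg e) ⟨e, rfl⟩).2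
  have hsi : ∀ i e (he : leg e = i), s e = (φ i ⟨e, he⟩ : K) := by
    rintro i e rfl
    rfl
  refine ⟨s, ?_, ?_, ?_⟩
  · intro e f hef hl h
    rw [hsi _ e hl, hsi _ f rfl] at h
    have h' := (φ (leg f)).injective (Subtype.ext h)
    exact hef (congrArg Subtype.val h')
  · intro c hc e he hne
    exact hA2 _ c hc he hne _ (hsA e)
  · intro c hc e he
    exact hA3 _ c hc he _ (hsA e)

theorem exists_std (hK : Fintype.card K = 4) {n : ℕ} {leg : E → Fin n}
    {C : Finset (Finset (Fin n))} (hd : IsRingData leg C) :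
    ∃ v : E → (Fin (n + 1) → K), ∀ I, Ind K v I ↔ ExcLe leg C I := by
  classical
  by_cases hn : Nonempty (Fin n)
  swap
  · -- no legs, no elements
    have hE : ∀ I : Finset E, I = ∅ := by
      intro I
      rw [eq_empty_iff_forall_notMem]
      intro e _
      exact hn ⟨leg e⟩
    have hC : C = ∅ := by
      rw [eq_empty_iff_forall_notMem]
      intro c hc
      have := hd.three_le c hc
      obtain ⟨i, -⟩ := card_pos.1 (by omega : 0 < c.card)
      exact hn ⟨i⟩
    refine ⟨fun _ => 0, fun I => ?_⟩
    rw [hE I, hC]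
    simp [ExcLe]
  -- selection of an element of each circuit
  have hsel : ∃ hsel : Finset (Fin n) → Fin n, ∀ c ∈ C, hsel c ∈ c := by
    have : ∀ c : Finset (Fin n), ∃ i, c ∈ C → i ∈ c := by
      intro c
      by_cases hc : c ∈ C
      · have := hd.three_le c hc
        obtain ⟨i, hi⟩ := card_pos.1 (by omega : 0 < c.card)
        exact ⟨i, fun _ => hi⟩
      · exact ⟨hn.some, fun h => absurd h hc⟩
    choose f hf using this
    exact ⟨f, hf⟩
  obtain ⟨hsel, hs⟩ := hsel
  have huniq : ∀ c ∈ C, ∀ d ∈ C, ∀ i, i ∈ c → i ∈ d → c = d := by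
    intro c hc d hdC i hic hid
    by_contra hne
    exact (Finset.disjoint_left.1 (hd.disj c hc d hdC hne)) hic hid
  -- the circuit of a leg
  have hcof : ∀ i : Fin n, ∃ c : Finset (Fin n), ∀ d ∈ C, i ∈ d → c = d := by
    intro i
    by_cases h : ∃ c ∈ C, i ∈ c
    · obtain ⟨c, hc, hic⟩ := h
      exact ⟨c, fun d hdC hid => huniq c hc d hdC i hic hid⟩
    · exact ⟨∅, fun d hdC hid => absurd ⟨d, hdC, hid⟩ h⟩
  choose cof hcof using hcof
  set H : Finset (Fin n) := C.image hsel with hH
  set B : Finset (Fin n) := univ.filter (fun i => i ∉ H) with hBdef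
  have hBmem : ∀ i, i ∈ B ↔ i ∉ H := by intro i; simp [hBdef]
  have hBmem' : ∀ i, i ∉ B ↔ i ∈ H := by intro i; simp [hBdef]
  have hHmem : ∀ i, i ∈ H → ∃ c ∈ C, hsel c = i ∧ i ∈ c ∧ cof i = c := by
    intro i hi
    obtain ⟨c, hc, rfl⟩ := mem_image.1 hi
    exact ⟨c, hc, rfl, hs c hc, hcof _ c hc (hs c hc)⟩
  have hcB : ∀ c ∈ C, ∀ u ∈ c, u ≠ hsel c → u ∈ B := by
    intro c hc u hu hne
    rw [hBmem]
    intro h
    obtain ⟨d, hdC, h1, h2, -⟩ := hHmem u h
    rw [← huniq c hc d hdC u hu h2] at h1
    exact hne h1.symm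
  let g : Fin (n + 1) → (Fin (n + 1) → K) := fun j => Pi.single j 1
  let p : Fin (n + 1) → K := g (Fin.last n)
  let q : Fin n → (Fin (n + 1) → K) := fun i =>
    if i ∈ H then ∑ u ∈ (cof i).erase i, g (Fin.castSucc u) else g (Fin.castSucc i)
  let a : Fin n → Fin n → K := fun h u => if u ∈ (cof h).erase h then 1 else 0
  have hqB : ∀ u ∈ B, q u = g (Fin.castSucc u) := by
    intro u hu
    exact if_neg ((hBmem u).1 hu)
  have hqH : ∀ c ∈ C, q (hsel c) = ∑ u ∈ c.erase (hsel c), q u := by
    intro c hc
    have h1 : hsel c ∈ H := mem_image_of_mem _ hc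
    have h2 : cof (hsel c) = c := hcof _ c hc (hs c hc)
    have h3 : q (hsel c) = ∑ u ∈ (cof (hsel c)).erase (hsel c), g (Fin.castSucc u) := if_pos h1
    rw [h3, h2]
    apply sum_congr rfl
    intro u hu
    rw [hqB u (hcB c hc u (mem_of_mem_erase hu) (ne_of_mem_erase hu))]
  obtain ⟨s, hs1, hs2, hs3⟩ := exists_coeff hK hd hsel hs
  have h2 := two_eq_zero_of_card hK
  refine ⟨fun e => q (leg e) + s e • p, ?_⟩
  have hlin : LinearIndependent K g := by
    have := (Pi.basisFun K (Fin (n + 1))).linearIndependent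
    convert this using 1
    ext j k
    simp [g]
  -- the rank formula
  have h1 : ∀ S : Finset (Fin n), Module.finrank K (span K (insert p (q '' (S : Set (Fin n))))) +
      (C.filter (fun c => c ⊆ S)).card = S.card + 1 := by
    intro S
    refine leg_rank (B := B) (a := a) (b := fun _ => 0) ?_ ?_ ?_ ?_ ?_ S
    · have e1 : insert p (q '' (B : Set (Fin n))) =
          g '' ((insert (Fin.last n) (B.map Fin.castSuccEmb) : Finset (Fin (n + 1))) :
            Set (Fin (n + 1))) := by
        ext x
        simp only [Set.mem_insert_iff, Set.mem_image, coe_insert, coe_map, mem_coe]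
        constructor
        · rintro (rfl | ⟨u, hu, rfl⟩)
          · exact ⟨Fin.last n, Or.inl rfl, rfl⟩
          · exact ⟨Fin.castSucc u, Or.inr ⟨u, hu, rfl⟩, (hqB u hu).symm⟩
        · rintro ⟨j, (rfl | ⟨u, hu, rfl⟩), rfl⟩
          · exact Or.inl rfl
          · exact Or.inr ⟨u, hu, hqB u hu⟩
      have e2 : Ind K g (insert (Fin.last n) (B.map Fin.castSuccEmb)) := by
        rw [ind_iff_linearIndepOn]
        exact hlin.linearIndepOn _
      have e3 : (insert (Fin.last n) (B.map Fin.castSuccEmb)).card = B.card + 1 := by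
        rw [card_insert_of_notMem, card_map]
        rw [Finset.mem_map]
        rintro ⟨u, -, hu⟩
        exact (Fin.castSucc_lt_last u).ne hu
      rw [e1, ← e3]
      exact e2
    · intro h hh
      obtain ⟨c, hc, h3, h4, h5⟩ := hHmem h ((hBmem' h).1 hh)
      subst h3
      rw [hqH c hc, zero_smul, add_zero]
      simp only [a, h5, ite_smul, one_smul, zero_smul]
      rw [← sum_filter]
      apply sum_congr _ fun _ _ => rfl
      ext u
      simp only [mem_erase, mem_filter, ne_eq]
      constructor
      · rintro ⟨hu1, hu2⟩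
        exact ⟨hcB c hc u hu2 hu1, hu1, hu2⟩
      · exact fun hu => hu.2
    · intro h hh
      obtain ⟨c, hc, h3, h4, h5⟩ := hHmem h ((hBmem' h).1 hh)
      have h6 := hd.three_le c hc
      have h7 : 0 < (c.erase h).card := by
        rw [card_erase_of_mem h4]; omega
      obtain ⟨u, hu⟩ := card_pos.1 h7
      refine ⟨u, hcB c hc u (mem_of_mem_erase hu) (by rw [h3]; exact ne_of_mem_erase hu), ?_⟩
      simp only [a, h5]
      rw [if_pos hu]
      exact one_ne_zero
    · intro h hh h' hh' hne u _
      obtain ⟨c, hc, h3, h4, h5⟩ := hHmem h ((hBmem' h).1 hh)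
      obtain ⟨d, hdC, h3', h4', h5'⟩ := hHmem h' ((hBmem' h').1 hh')
      simp only [a, h5, h5']
      by_cases hu : u ∈ c.erase h
      · right
        rw [if_neg]
        intro hu'
        have := huniq c hc d hdC u (mem_of_mem_erase hu) (mem_of_mem_erase hu')
        rw [← h3, ← h3', this] at hne
        exact hne rfl
      · left
        rw [if_neg hu]
    · intro c
      have key : ∀ d ∈ C, ∀ u, u ∈ d ↔ u = hsel d ∨ (u ∈ B ∧ a (hsel d) u ≠ 0) := by
        intro d hdC u
        have h5 : cof (hsel d) = d := hcof _ d hdC (hs d hdC)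
        simp only [a, h5]
        constructor
        · intro hu
          by_cases hne : u = hsel d
          · exact Or.inl hne
          · refine Or.inr ⟨hcB d hdC u hu hne, ?_⟩
            rw [if_pos (mem_erase.2 ⟨hne, hu⟩)]
            exact one_ne_zero
        · rintro (rfl | ⟨_, hu⟩)
          · exact hs d hdC
          · by_contra hc'
            apply hu
            rw [if_neg]
            exact fun h => hc' (mem_of_mem_erase h)
      constructor
      · intro hc
        exact ⟨hsel c, (hBmem' _).2 (mem_image_of_mem _ hc), key c hc⟩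
      · rintro ⟨h, hh, hu⟩
        obtain ⟨d, hdC, h3, h4, h5⟩ := hHmem h ((hBmem' h).1 hh)
        subst h3
        have : c = d := by
          ext u
          rw [hu u, key d hdC u]
        rw [this]
        exact hdC
  refine ring_rule (q := q) (p := p) h1 ?_ ?_ ?_ ?_
  · -- h2
    intro e f hef hl
    have h3 := hs1 e f hef hl
    have h4 : s e - s f ≠ 0 := sub_ne_zero.2 h3
    have h5 : p = (s e - s f)⁻¹ • ((q (leg e) + s e • p) - (q (leg f) + s f • p)) := by
      rw [hl, add_sub_add_left_eq_sub, ← sub_smul, smul_smul, inv_mul_cancel₀ h4, one_smul]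
    have m1 : q (leg e) + s e • p ∈ span K {q (leg e) + s e • p, q (leg f) + s f • p} :=
      subset_span (Or.inl rfl)
    have m2 : q (leg f) + s f • p ∈ span K {q (leg e) + s e • p, q (leg f) + s f • p} :=
      subset_span (Or.inr rfl)
    have m3 := smul_mem _ (s e - s f)⁻¹ (sub_mem m1 m2)
    rwa [← h5] at m3
  · -- h3
    intro c hc z hz
    have hzh := hz (hsel c) (hs c hc)
    obtain ⟨h3, h4⟩ := hs3 c hc (z (hsel c)) hzh
    have h5 := sum_mem_zero_one h2 (c.erase (hsel c)) (fun u => s (z u)) (by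
      intro u hu
      have hzu := hz u (mem_of_mem_erase hu)
      exact hs2 c hc (z u) (by rw [hzu]; exact mem_of_mem_erase hu)
        (by rw [hzu]; exact ne_of_mem_erase hu))
    have h6 : s (z (hsel c)) - ∑ u ∈ c.erase (hsel c), s (z u) ≠ 0 := by
      rw [sub_ne_zero]
      rcases h5 with h5 | h5 <;> rw [h5] <;> assumption
    have h7 : p = (s (z (hsel c)) - ∑ u ∈ c.erase (hsel c), s (z u))⁻¹ •
        ((q (leg (z (hsel c))) + s (z (hsel c)) • p) -
          ∑ u ∈ c.erase (hsel c), (q (leg (z u)) + s (z u) • p)) := by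
      have h8 : ∑ u ∈ c.erase (hsel c), (q (leg (z u)) + s (z u) • p) =
          q (hsel c) + (∑ u ∈ c.erase (hsel c), s (z u)) • p := by
        rw [sum_add_distrib, hqH c hc, sum_smul]
        congr 1
        apply sum_congr rfl
        intro u hu
        rw [hz u (mem_of_mem_erase hu)]
      rw [h8, hzh, add_sub_add_left_eq_sub, ← sub_smul, smul_smul, inv_mul_cancel₀ h6, one_smul]
    have m1 : ∀ u ∈ c, (q (leg (z u)) + s (z u) • p) ∈
        span K ((fun u => q (leg (z u)) + s (z u) • p) '' (c : Set (Fin n))) :=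
      fun u hu => subset_span ⟨u, hu, rfl⟩
    have m2 : ∑ u ∈ c.erase (hsel c), (q (leg (z u)) + s (z u) • p) ∈
        span K ((fun u => q (leg (z u)) + s (z u) • p) '' (c : Set (Fin n))) :=
      sum_mem fun u hu => m1 u (mem_of_mem_erase hu)
    have m3 := smul_mem _ (s (z (hsel c)) - ∑ u ∈ c.erase (hsel c), s (z u))⁻¹
      (sub_mem (m1 _ (hs c hc)) m2)
    rwa [← h7] at m3
  · -- h4
    intro e
    exact add_mem (subset_span (by simp)) (smul_mem _ _ (subset_span (by simp)))
  · -- h5
    intro e
    have h5 : q (leg e) = (q (leg e) + s e • p) - s e • p := by rw [add_sub_cancel_right]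
    have m1 : q (leg e) + s e • p ∈ span K {q (leg e) + s e • p, p} := subset_span (Or.inl rfl)
    have m2 : p ∈ span K {q (leg e) + s e • p, p} := subset_span (Or.inr rfl)
    have m3 := sub_mem m1 (smul_mem _ (s e) m2)
    rwa [← h5] at m3

end Ca3
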