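import Pool.Agent.Lib.MP_ca3eb1_co.Transfer
import Pool.Agent.Lib.MP_ca3eb1_co.C3

/-! # Module M5: a simple strict gammoid over GF(4) of rank k has at most 4k - 3 elements -/

set_option linter.unusedSectionVars false

namespace Ca3

open Finset Submodule

universe u w x

variable {K : Type x} [Field K] [Fintype K]

section aux

variable {V : Type u} {E : Type w} [AddCommGroup V]
    [Module K V] [FiniteDimensional K V] [Fintype E] [DecidableEq E] {v : E → V}

/-- no member of a Mason family of a simple configuration is inside a flat of rank at most one -/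
private lemma cb_cnt_zero (hv : Simple K v) {n : ℕ} {A : Fin n → Finset E}
    (hA : IsMason K v ∅ univ A) {F : Finset E} (hF : IsFl K v F) (hr : rk K v F ≤ 1) :
    cnt A F = 0 := by
  have h1 := hv.card_le_one hr
  have h2 : Ind K v F := hv.ind_of_card_le_two (by omega)
  have h3 := hA.eq (empty_subset F) (subset_univ F) hF
  unfold Ind at h2
  omega

private lemma cb_two_le (hv : Simple K v) {n : ℕ} {A : Fin n → Finset E}
    (hA : IsMason K v ∅ univ A) (i : Fin n) : 2 ≤ rk K v (A i) := by
  by_contra hc
  have h1 : rk K v (cl K v (A i)) ≤ 1 := by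
    rw [rk_cl]
    omega
  have h2 := cb_cnt_zero hv hA isFl_cl h1
  unfold cnt at h2
  rw [card_eq_zero, filter_eq_empty_iff] at h2
  exact h2 (mem_univ i) subset_cl

private lemma cb_point (hv : Simple K v) {n : ℕ} {A : Fin n → Finset E}
    (hA : IsMason K v ∅ univ A) (y : E) {R : Finset E} (hR : IsReps K v {y} univ R) :
    Fintype.card E ≤
      (univ.filter (fun i => rk K v (A i) = 2 ∧ y ∈ cl K v (A i))).card + 1 + R.card := by
  have hL : ∀ r ∈ R, rk K v (cl K v (insert r {y})) = 2 := by
    intro r hr
    rw [rk_cl, rk_insert_of_not_mem_sp (hR.not_mem r hr), hv.rk_singleton]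
  have hcnt : ∀ r ∈ R, cnt A (cl K v (insert r {y})) + 2 = (cl K v (insert r {y})).card := by
    intro r hr
    have := hA.eq (empty_subset _) (subset_univ (cl K v (insert r {y}))) isFl_cl
    rwa [hL r hr] at this
  have hy : ∀ r : E, y ∈ cl K v (insert r {y}) := fun r =>
    subset_cl (mem_insert_of_mem (mem_singleton_self y))
  -- covering
  have hcov : (univ.erase y : Finset E) ⊆
      R.biUnion (fun r => (cl K v (insert r {y})).erase y) := by
    intro e he
    have hey : e ≠ y := ne_of_mem_erase he
    have h1 : v e ∉ sp K v {y} := by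
      rw [sp_singleton]
      exact fun h => hey (hv.2 e y h)
    obtain ⟨r, hr, h2⟩ := hR.ex e (mem_univ e) h1
    rw [mem_biUnion]
    refine ⟨r, hr, mem_erase.2 ⟨hey, mem_cl.2 ?_⟩⟩
    exact mem_sp_insert_exchange h2 (hR.not_mem r hr)
  have h1 : Fintype.card E - 1 ≤ ∑ r ∈ R, (cnt A (cl K v (insert r {y})) + 1) := by
    have h2 := card_le_card hcov
    rw [card_erase_of_mem (mem_univ y), card_univ] at h2
    refine h2.trans (card_biUnion_le.trans (sum_le_sum fun r hr => ?_))
    rw [card_erase_of_mem (hy r)]
    have := hcnt r hr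
    omega
  rw [sum_add_distrib] at h1
  have h2 : ∑ r ∈ R, cnt A (cl K v (insert r {y})) ≤
      (univ.filter (fun i => rk K v (A i) = 2 ∧ y ∈ cl K v (A i))).card := by
    have hdis : Set.PairwiseDisjoint (R : Set E)
        (fun r => univ.filter (fun i => A i ⊆ cl K v (insert r {y}))) := by
      intro r hr s hs hrs
      rw [Function.onFun, disjoint_left]
      intro i hi hi'
      simp only [mem_filter, mem_univ, true_and] at hi hi'
      have hfl : IsFl K v (cl K v (insert r {y}) ∩ cl K v (insert s {y})) :=
        isFl_cl.inter isFl_cl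
      have h3 : 2 ≤ rk K v (cl K v (insert r {y}) ∩ cl K v (insert s {y})) :=
        (cb_two_le hv hA i).trans (rk_mono (subset_inter hi hi'))
      have h4 := hfl.eq_of_subset_of_rk_le inter_subset_left
        (by rw [hL r (by simpa using hr)]; exact h3)
      have h5 : r ∈ cl K v (insert s {y}) := by
        have : r ∈ cl K v (insert r {y}) := subset_cl (mem_insert_self _ _)
        rw [← h4] at this
        exact (mem_inter.1 this).2
      exact hrs (hR.uniq r (by simpa using hr) s (by simpa using hs) (mem_cl.1 h5))
    have h3 : ∑ r ∈ R, cnt A (cl K v (insert r {y})) =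
        (R.biUnion (fun r => univ.filter (fun i => A i ⊆ cl K v (insert r {y})))).card := by
      rw [card_biUnion hdis]
      rfl
    rw [h3]
    refine card_le_card (fun i hi => ?_)
    simp only [mem_biUnion, mem_filter, mem_univ, true_and] at hi ⊢
    obtain ⟨r, hr, hi⟩ := hi
    have h4 := cb_two_le hv hA i
    have h5 := rk_mono (K := K) (v := v) hi
    rw [hL r hr] at h5
    refine ⟨le_antisymm h5 h4, ?_⟩
    rw [isFl_cl.cl_eq hi (by rw [hL r hr]; exact h4)]
    exact hy r
  have h3 : ∑ r ∈ R, 1 = R.card := by simp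
  omega

private lemma cb_ineq (hK : Fintype.card K = 4) (hv : Simple K v) {n : ℕ} {A : Fin n → Finset E}
    (hA : IsMason K v ∅ univ A) (c : ℕ)
    (hc : ∀ (y : E) (R : Finset E), IsReps K v {y} univ R → R.card ≤ c) :
    Fintype.card E * Fintype.card E + 5 * rk K v univ ≤
      5 * Fintype.card E + Fintype.card E * (1 + c) := by
  have hn : n + rk K v univ = Fintype.card E := by
    have := hA.eq (empty_subset univ) (subset_univ univ) isFl_univ
    rw [card_univ] at this
    unfold cnt at this
    simpa using this
  have h1 : ∀ y : E, Fintype.card E ≤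
      (univ.filter (fun i => rk K v (A i) = 2 ∧ y ∈ cl K v (A i))).card + (1 + c) := by
    intro y
    obtain ⟨R, -, hR⟩ := exists_reps (K := K) (v := v) (Y := {y}) (T := univ) (R₀ := ∅)
      (by simp) (by simp) (by simp)
    have h2 := cb_point hv hA y hR
    have h3 := hc y R hR
    omega
  have h2 : ∑ y : E, (univ.filter (fun i => rk K v (A i) = 2 ∧ y ∈ cl K v (A i))).card
      ≤ 5 * n := by
    simp only [card_filter]
    rw [sum_comm]
    have : ∀ i ∈ (univ : Finset (Fin n)),
        (∑ y : E, if rk K v (A i) = 2 ∧ y ∈ cl K v (A i) then 1 else 0) ≤ 5 := by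
      intro i _
      rw [← card_filter]
      by_cases h : rk K v (A i) = 2
      · refine le_trans (card_le_card (fun y hy => ?_))
          (line_card_le hK hv (X := cl K v (A i)) (by rw [rk_cl, h]))
        simp only [mem_filter, mem_univ, true_and] at hy
        exact hy.2
      · simp [h]
    refine (sum_le_sum this).trans ?_
    simp [mul_comm]
  have h3 : ∑ _y : E, Fintype.card E ≤
      ∑ y : E, ((univ.filter (fun i => rk K v (A i) = 2 ∧ y ∈ cl K v (A i))).card + (1 + c)) :=
    sum_le_sum (fun y _ => h1 y)
  rw [sum_add_distrib, sum_const, sum_const, card_univ, smul_eq_mul, smul_eq_mul] at h3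
  nlinarith [h2, h3, hn]

end aux

private theorem cb_step1 (hK : Fintype.card K = 4) (k : ℕ) : ∀ {V : Type u} {E : Type w}
    [AddCommGroup V] [Module K V] [FiniteDimensional K V] [Fintype E] [DecidableEq E] {v : E → V}
    (_ : Simple K v) (_ : SG K v ∅ univ) (_ : rk K v univ = k + 2),
    Fintype.card E + 5 ≤ 5 * (k + 2) := by
  induction k with
  | zero =>
    intro V E _ _ _ _ _ v hv hs h2
    have := line_card_le hK hv (X := univ) (by omega)
    rw [card_univ] at this
    omega
  | succ k ih =>
    intro V E _ _ _ _ _ v hv hs h2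
    obtain ⟨n, A, hA⟩ := id hs
    have hc : ∀ (y : E) (R : Finset E), IsReps K v {y} univ R → R.card ≤ 5 * (k + 2) - 5 := by
      intro y R hR
      have h3 := rk_qc_univ hR (subset_univ _)
      rw [h2, hv.rk_singleton] at h3
      have hsg : SG K v {y} univ := hs.mono (empty_subset _) le_rfl
      have h4 := ih (qc_simple hR) (transfer_SG hR isFl_univ (subset_univ _) hsg) (by omega)
      rw [Fintype.card_coe] at h4
      omega
    have h3 := cb_ineq hK hv hA _ hc
    rw [h2] at h3
    by_contra hcon
    push Not at hcon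
    have h4 : 5 * (k + 2) - 5 = 5 * k + 5 := by omega
    rw [h4] at h3
    have h5 : 5 * k + 11 ≤ Fintype.card E := by omega
    nlinarith [Nat.mul_le_mul_left (Fintype.card E) h5]

private theorem cb_step2 (hK : Fintype.card K = 4) (k : ℕ) : ∀ {V : Type u} {E : Type w}
    [AddCommGroup V] [Module K V] [FiniteDimensional K V] [Fintype E] [DecidableEq E] {v : E → V}
    (_ : Simple K v) (_ : SG K v ∅ univ) (_ : rk K v univ = k + 2),
    Fintype.card E + 3 ≤ 4 * (k + 2) := by
  induction k with
  | zero =>
    intro V E _ _ _ _ _ v hv hs h2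
    have := line_card_le hK hv (X := univ) (by omega)
    rw [card_univ] at this
    omega
  | succ k ih =>
    intro V E _ _ _ _ _ v hv hs h2
    have h0 := cb_step1 hK (k + 1) hv hs h2
    obtain ⟨n, A, hA⟩ := id hs
    have hc : ∀ (y : E) (R : Finset E), IsReps K v {y} univ R → R.card ≤ 4 * (k + 2) - 3 := by
      intro y R hR
      have h3 := rk_qc_univ hR (subset_univ _)
      rw [h2, hv.rk_singleton] at h3
      have hsg : SG K v {y} univ := hs.mono (empty_subset _) le_rfl
      have h4 := ih (qc_simple hR) (transfer_SG hR isFl_univ (subset_univ _) hsg) (by omega)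
      rw [Fintype.card_coe] at h4
      omega
    have h3 := cb_ineq hK hv hA _ hc
    rw [h2] at h3
    by_contra hcon
    push Not at hcon
    have h4 : 4 * (k + 2) - 3 = 4 * k + 5 := by omega
    rw [h4] at h3
    have h5 : 4 * k + 10 ≤ Fintype.card E := by omega
    nlinarith [Nat.mul_le_mul_left (Fintype.card E) h5]

theorem card_add_three_le (hK : Fintype.card K = 4) {V : Type u} {E : Type w} [AddCommGroup V]
    [Module K V] [FiniteDimensional K V] [Fintype E] [DecidableEq E] {v : E → V}
    (hv : Simple K v) (hs : SG K v ∅ univ) (h2 : 2 ≤ rk K v univ) :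
    Fintype.card E + 3 ≤ 4 * rk K v univ := by
  obtain ⟨k, hk⟩ := Nat.exists_eq_add_of_le h2
  rw [hk, add_comm 2 k]
  exact cb_step2 hK k hv hs (by omega)

end Ca3
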