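import Pool.Agent.Lib.MP_ca3eb1_co.Reps

/-! # Restrict (Module M2c): restriction to a flat as a configuration on the subtype -/

set_option linter.unusedSectionVars false

namespace Ca3

open Finset Submodule

variable {K V E : Type*} [Field K] [AddCommGroup V] [Module K V] [FiniteDimensional K V]
  [Fintype E] [DecidableEq E] {v : E → V} {Y T R F Z : Finset E}

private lemma re_mem_tr {F Z : Finset E} {r : F} : r ∈ tr F Z ↔ (r : E) ∈ Z := by
  simp [tr]

private lemma re_mem_map {F : Finset E} {Z : Finset F} {e : E} :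
    e ∈ Z.map (Function.Embedding.subtype _) ↔ ∃ h : e ∈ F, (⟨e, h⟩ : F) ∈ Z := by
  constructor
  · intro h
    obtain ⟨r, hr, rfl⟩ := mem_map.1 h
    exact ⟨r.2, hr⟩
  · rintro ⟨h, h'⟩
    exact mem_map.2 ⟨⟨e, h⟩, h', rfl⟩

private lemma re_map_tr {F Z : Finset E} (hZ : Z ⊆ F) :
    (tr F Z).map (Function.Embedding.subtype _) = Z := by
  ext e
  rw [re_mem_map]
  constructor
  · rintro ⟨h, h'⟩
    exact re_mem_tr.1 h'
  · intro h
    exact ⟨hZ h, re_mem_tr.2 h⟩

private lemma re_map_subset {F : Finset E} (Z : Finset F) :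
    Z.map (Function.Embedding.subtype _) ⊆ F := by
  intro e he
  exact (re_mem_map.1 he).1

private lemma re_tr_subset_iff {F A : Finset E} {Z : Finset F} (hA : A ⊆ F) :
    tr F A ⊆ Z ↔ A ⊆ Z.map (Function.Embedding.subtype _) := by
  constructor
  · intro h e he
    exact re_mem_map.2 ⟨hA he, h (re_mem_tr.2 he)⟩
  · intro h r hr
    obtain ⟨_, h'⟩ := re_mem_map.1 (h (re_mem_tr.1 hr))
    exact h'

private lemma re_sp {F : Finset E} (Z : Finset F) :
    sp K (fun e : F => v e) Z = sp K v (Z.map (Function.Embedding.subtype _)) := by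
  apply le_antisymm
  · rw [sp_le_iff]
    intro e he
    exact mem_sp (v := v) (mem_map_of_mem (Function.Embedding.subtype _) he)
  · rw [sp_le_iff]
    intro e he
    obtain ⟨h, h'⟩ := re_mem_map.1 he
    exact mem_sp (v := fun e : F => v e) h'

theorem rk_restrict {F : Finset E} (Z : Finset F) :
    rk K (fun e : F => v e) Z = rk K v (Z.map (Function.Embedding.subtype _)) := by
  unfold rk
  rw [re_sp]

theorem isFl_restrict {F : Finset E} (hF : IsFl K v F) (Z : Finset F) :
    IsFl K (fun e : F => v e) Z ↔ IsFl K v (Z.map (Function.Embedding.subtype _)) := by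
  constructor
  · intro h
    refine subset_antisymm (fun e he => ?_) subset_cl
    rw [mem_cl] at he
    have heF : e ∈ F := hF.mem (sp_mono (re_map_subset Z) he)
    refine re_mem_map.2 ⟨heF, h.mem ?_⟩
    rw [re_sp]
    exact he
  · intro h
    refine subset_antisymm (fun e he => ?_) subset_cl
    rw [mem_cl, re_sp] at he
    obtain ⟨_, h'⟩ := re_mem_map.1 (h.mem he)
    exact h'

/-- Restriction of a Mason family to a flat, as a configuration on the subtype. -/
theorem SG_restrict {F : Finset E} (hF : IsFl K v F) (hYF : Y ⊆ F) (hs : SG K v Y F) :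
    SG K (fun e : F => v e) (tr F Y) univ := by
  classical
  obtain ⟨n, A, hA⟩ := hs
  have key : IsMason K (fun e : F => v e) (tr F Y) univ
      (fun i : {i : Fin n // A i ⊆ F} => tr F (A i.1)) := by
    intro Z hYZ _
    have h1 : Y ⊆ Z.map (Function.Embedding.subtype _) := (re_tr_subset_iff hYF).1 hYZ
    have hc : cnt (fun i : {i : Fin n // A i ⊆ F} => tr F (A i.1)) Z =
        cnt A (Z.map (Function.Embedding.subtype _)) := by
      unfold cnt
      apply card_bij (fun i _ => i.1)
      · intro i hi
        rw [mem_filter] at hi ⊢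
        exact ⟨mem_univ _, (re_tr_subset_iff i.2).1 hi.2⟩
      · intro i _ j _ h
        exact Subtype.ext h
      · intro i hi
        rw [mem_filter] at hi
        refine ⟨⟨i, hi.2.trans (re_map_subset Z)⟩, ?_, rfl⟩
        rw [mem_filter]
        exact ⟨mem_univ _, (re_tr_subset_iff (hi.2.trans (re_map_subset Z))).2 hi.2⟩
    rw [hc, rk_restrict, isFl_restrict hF, ← card_map (Function.Embedding.subtype _)]
    exact hA _ h1 (re_map_subset Z)
  exact key.sg

theorem SG_of_restrict {F : Finset E} (hF : IsFl K v F) (hYF : Y ⊆ F)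
    (hs : SG K (fun e : F => v e) (tr F Y) univ) : SG K v Y F := by
  classical
  obtain ⟨n, A, hA⟩ := hs
  refine ⟨n, fun i => (A i).map (Function.Embedding.subtype _), ?_⟩
  intro Z hYZ hZF
  have h1 : tr F Y ⊆ tr F Z := fun r hr => re_mem_tr.2 (hYZ (re_mem_tr.1 hr))
  have hc : cnt (fun i => (A i).map (Function.Embedding.subtype _)) Z = cnt A (tr F Z) := by
    unfold cnt
    congr 1
    ext i
    rw [mem_filter, mem_filter]
    have h2 : (A i).map (Function.Embedding.subtype _) ⊆ Z ↔ A i ⊆ tr F Z := by
      conv_lhs => rw [← re_map_tr hZF]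
      exact map_subset_map
    rw [h2]
  have h3 := hA (tr F Z) h1 (subset_univ _)
  rw [rk_restrict, isFl_restrict hF, ← card_map (Function.Embedding.subtype _),
    re_map_tr hZF] at h3
  rw [hc]
  exact h3

/-- Restricting a simple configuration. -/
theorem Simple.restrict (h : Simple K v) (F : Finset E) : Simple K (fun e : F => v e) :=
  ⟨fun e => h.1 e, fun e f hef => Subtype.ext (h.2 e f hef)⟩

end Ca3
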