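import Pool.Agent.Lib.MP_ca3eb1_co.TheoremA
import Pool.Agent.Lib.MP_ca3eb1_co.ExistsTight
import Pool.Agent.Lib.MP_ca3eb1_co.CardBound
import Pool.Agent.Lib.MP_ca3eb1_co.Restrict
import Pool.Agent.Lib.MP_ca3eb1_co.C3

/-! # Module M12: existence of a hole in rank at least 16 -/

set_option linter.unusedSectionVars false

namespace Ca3

open Finset Submodule

variable {K V E : Type*} [Field K] [Fintype K] [AddCommGroup V] [Module K V]
  [FiniteDimensional K V] [Fintype E] [DecidableEq E]

private lemma td_mem_map {F : Finset E} {Z : Finset F} {e : E} :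
    e ∈ Z.map (Function.Embedding.subtype _) ↔ ∃ h : e ∈ F, (⟨e, h⟩ : F) ∈ Z := by
  constructor
  · intro h
    obtain ⟨r, hr, rfl⟩ := mem_map.1 h
    exact ⟨r.2, hr⟩
  · rintro ⟨h, hz⟩
    exact mem_map.2 ⟨⟨e, h⟩, hz, rfl⟩

private lemma td_map_subset {F : Finset E} (Z : Finset F) :
    Z.map (Function.Embedding.subtype _) ⊆ F := by
  intro e he
  exact (td_mem_map.1 he).1

/-- restriction to a proper flat of a restriction -/
private lemma td_restrict_flat {v : E → V} {F : Finset E} (hF : IsFl K v F) {G : Finset F}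
    (hne : G ≠ univ)
    (hs : SG K v ∅ (G.map (Function.Embedding.subtype _))) :
    SG K (fun e : F => v e) ∅ G := by
  classical
  obtain ⟨n, A, hA⟩ := hs
  refine ⟨n, fun i => if A i ⊆ G.map (Function.Embedding.subtype _) then tr F (A i) else univ, ?_⟩
  intro Z _ hZG
  have hmap : Z.map (Function.Embedding.subtype _) ⊆ G.map (Function.Embedding.subtype _) :=
    map_subset_map.2 hZG
  have hcnt : cnt (fun i => if A i ⊆ G.map (Function.Embedding.subtype _) then tr F (A i)
      else univ) Z = cnt A (Z.map (Function.Embedding.subtype _)) := by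
    unfold cnt
    congr 1
    apply filter_congr
    intro i _
    by_cases h : A i ⊆ G.map (Function.Embedding.subtype _)
    · simp only [h, if_true]
      constructor
      · intro h1 e he
        have heF : e ∈ F := td_map_subset G (h he)
        exact td_mem_map.2 ⟨heF, h1 (by simp [tr, he])⟩
      · intro h1 e he
        simp only [tr, mem_filter, mem_univ, true_and] at he
        obtain ⟨_, h3⟩ := td_mem_map.1 (h1 he)
        exact h3
    · simp only [h, if_false]
      constructor
      · intro h1
        exact absurd (univ_subset_iff.1 (h1.trans hZG)) hne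
      · intro h1
        exact absurd (h1.trans hmap) h
  have h1 := hA (Z.map (Function.Embedding.subtype _)) (empty_subset _) hmap
  rw [hcnt, rk_restrict, isFl_restrict hF]
  rw [card_map] at h1
  exact h1

/-- the rank of a minimal bad flat is at most five -/
private lemma td_rk_le (hK : Fintype.card K = 4) {v : E → V} (hv : Simple K v)
    (hs : ∀ x, SG K v {x} univ) {F : Finset E} (hF : IsFl K v F)
    (hmin : ∀ G, IsFl K v G → G ⊂ F → SG K v ∅ G) (hn : ¬ SG K v ∅ F) : rk K v F ≤ 5 := by
  have h1 : ∀ x : F, SG K (fun e : F => v e) {x} univ := by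
    intro x
    have h := SG_restrict hF (singleton_subset_iff.2 x.2)
      ((hs x).mono (Subset.refl _) (subset_univ F))
    have h2 : tr F {(x : E)} = {x} := by
      ext r
      simp only [tr, mem_filter, mem_univ, true_and, mem_singleton]
      exact Subtype.coe_inj
    rwa [h2] at h
  have h2 : ∀ G : Finset F, IsFl K (fun e : F => v e) G → G ≠ univ →
      SG K (fun e : F => v e) ∅ G := by
    intro G hG hne
    apply td_restrict_flat hF hne
    apply hmin _ ((isFl_restrict hF G).1 hG)
    refine (td_map_subset G).ssubset_of_ne ?_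
    intro he
    apply hne
    rw [eq_univ_iff_forall]
    intro r
    have : (r : E) ∈ G.map (Function.Embedding.subtype _) := he.ge r.2
    obtain ⟨_, h3⟩ := td_mem_map.1 this
    exact h3
  have h3 : ¬ SG K (fun e : F => v e) ∅ univ := by
    intro h
    apply hn
    apply SG_of_restrict hF (empty_subset _)
    have h4 : tr F (∅ : Finset E) = ∅ := by
      ext r
      simp [tr]
    rwa [h4]
  obtain ⟨X, hX, hT⟩ := exists_tight (hv.restrict F) h1 h2 h3
  have h5 := hT.rk_le_five hK ((hv.restrict F).restrict X)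
  have h6 := rk_restrict (K := K) (v := fun e : F => v e) (F := X) univ
  rw [univ_eq_attach, attach_map_val] at h6
  have h7 : rk K (fun e : F => v e) univ = rk K v F := by
    rw [rk_restrict, univ_eq_attach, attach_map_val]
  have h8 : rk K (fun e : X => v e) univ = rk K (fun e : F => v e) X := h6
  rw [h8] at h5
  omega

/-- for an element outside a bad flat there is a second element on a line through it meeting the
span of the flat in a point which is not an element -/
private lemma td_extra {v : E → V} (hv : Simple K v)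
    (hs : ∀ x, SG K v {x} univ) {F : Finset E} (hF : IsFl K v F) (hn : ¬ SG K v ∅ F)
    {x : E} (hx : x ∉ F) : ∃ (e : E) (q : V), q ∈ sp K v {x, e} ∧ q ∈ sp K v F ∧
      ∀ g, q ∉ span K {v g} := by
  by_contra hcon
  push Not at hcon
  apply hn
  have hxF : v x ∉ sp K v F := fun h => hx (hF.mem h)
  have hreps : IsReps K v {x} (cl K v (insert x F)) F := by
    refine ⟨(subset_insert _ _).trans subset_cl, ?_, ?_, ?_⟩
    · intro r hr h
      rw [sp_singleton] at h
      exact hx ((hv.2 _ _ h) ▸ hr)
    · intro e he he'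
      by_cases heF : e ∈ F
      · exact ⟨e, heF, mem_sp (mem_insert_self _ _)⟩
      rw [mem_cl, sp_insert, Submodule.mem_sup] at he
      obtain ⟨y, hy, q, hq, hyq⟩ := he
      obtain ⟨c, rfl⟩ := mem_span_singleton.1 hy
      have hq' : q = v e - c • v x := by rw [← hyq]; simp
      have hq1 : q ∈ sp K v {x, e} := by
        rw [hq']
        exact sub_mem (mem_sp (by simp)) (smul_mem _ _ (mem_sp (by simp)))
      obtain ⟨g, hg⟩ := hcon e q hq1 hq
      have hq0 : q ≠ 0 := by
        rintro rfl
        apply he'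
        rw [sp_singleton, mem_span_singleton]
        exact ⟨c, by rw [← hyq]; simp⟩
      obtain ⟨d, rfl⟩ := mem_span_singleton.1 hg
      have hd : d ≠ 0 := by
        rintro rfl
        simp at hq0
      have hg1 : v g ∈ span K {d • v g} := by
        rw [mem_span_singleton]
        exact ⟨d⁻¹, by rw [smul_smul, inv_mul_cancel₀ hd, one_smul]⟩
      have hgF : g ∈ F := hF.mem ((span_singleton_le_iff_mem _ _).2 hq hg1)
      refine ⟨g, hgF, ?_⟩
      have : insert e {x} = ({x, e} : Finset E) := by
        ext z; simp [or_comm]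
      rw [this]
      exact (span_singleton_le_iff_mem _ _).2 hq1 hg1
    · intro r hr s hs' h
      rw [sp_insert, sp_singleton, Submodule.mem_sup] at h
      obtain ⟨y, hy, z, hz, hyz⟩ := h
      obtain ⟨c, rfl⟩ := mem_span_singleton.1 hz
      have hc : c = 0 := by
        by_contra hc
        apply hxF
        have h1 : v x = c⁻¹ • (v r - y) := by
          rw [← hyz]
          simp [smul_smul, inv_mul_cancel₀ hc]
        rw [h1]
        refine smul_mem _ _ (sub_mem (mem_sp hr) ?_)
        exact (span_singleton_le_iff_mem _ _).2 (mem_sp hs') hy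
      subst hc
      rw [zero_smul, add_zero] at hyz
      exact hv.2 _ _ (hyz ▸ hy)
  have hxT : ({x} : Finset E) ⊆ cl K v (insert x F) :=
    singleton_subset_iff.2 (subset_cl (mem_insert_self _ _))
  have hsg := transfer_SG hreps isFl_cl hxT ((hs x).mono (Subset.refl _) (subset_univ _))
  have hrk : ∀ Z : Finset F, rk K (qc K v {x} F) Z = rk K (fun e : F => v e) Z := by
    intro Z
    have h1 := rk_qc (K := K) (v := v) (Y := {x}) (R := F) Z
    rw [hv.rk_singleton, union_comm, ← insert_eq, rk_insert_of_not_mem_sp] at h1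
    · rw [rk_restrict]
      omega
    · exact fun h => hxF (sp_mono (td_map_subset Z) h)
  have hfl : ∀ Z : Finset F, IsFl K (fun e : F => v e) Z ↔ IsFl K (qc K v {x} F) Z := by
    intro Z
    have : cl K (fun e : F => v e) Z = cl K (qc K v {x} F) Z := by
      ext r
      rw [mem_cl, mem_cl, ← rk_insert_eq_iff, ← rk_insert_eq_iff, hrk, hrk]
    unfold IsFl
    rw [this]
  obtain ⟨n, A, hA⟩ := hsg
  apply SG_of_restrict hF (empty_subset _)
  have h4 : tr F (∅ : Finset E) = ∅ := by
    ext r
    simp [tr]
  rw [h4]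
  refine ⟨n, A, ?_⟩
  intro Z h1 h2
  have h3 := hA Z h1 h2
  rw [hrk, ← hfl] at h3
  exact h3

/-- comparison of the projections of two elements -/
private lemma td_cmp {v : E → V} {F S : Finset E} (hdis : ∀ y, y ∈ sp K v F → y ∈ sp K v S → y = 0)
    {r s : E} {u u' : V} {c d : K} (hu : u ∈ sp K v F) (hu' : u' ∈ sp K v F) (hc : c ≠ 0)
    (h1 : v r - c • u ∈ sp K v S) (h2 : v s - d • u' ∈ sp K v S)
    (h : v r ∈ sp K v (insert s S)) : u ∈ span K {u'} := by
  rw [sp_insert, Submodule.mem_sup] at h
  obtain ⟨y, hy, z, hz, hyz⟩ := h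
  obtain ⟨a, rfl⟩ := mem_span_singleton.1 hy
  have h3 : c • u - (a * d) • u' = 0 := by
    apply hdis
    · exact sub_mem (smul_mem _ _ hu) (smul_mem _ _ hu')
    · have : c • u - (a * d) • u' = a • (v s - d • u') - (v r - c • u) + z := by
        rw [← hyz, smul_sub, smul_smul]
        abel
      rw [this]
      exact add_mem (sub_mem (smul_mem _ _ h2) h1) hz
  rw [sub_eq_zero] at h3
  rw [mem_span_singleton]
  refine ⟨c⁻¹ * (a * d), ?_⟩
  rw [mul_smul, ← h3, smul_smul, inv_mul_cancel₀ hc, one_smul]

theorem exists_hole (hK : Fintype.card K = 4) {v : E → V} (hv : Simple K v)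
    (h16 : 16 ≤ rk K v univ) (hs : ∀ x, SG K v {x} univ) (hn : ¬ SG K v ∅ univ) :
    ∃ (X1 X2 X3 : Finset E) (p : V), (∀ e, p ∉ span K {v e}) ∧
      p ∈ sp K v X1 ∧ p ∈ sp K v X2 ∧ p ∈ sp K v X3 ∧
      rk K v (X1 ∪ X2 ∪ X3) + 2 = rk K v X1 + rk K v X2 + rk K v X3 := by
  classical
  -- minimal bad flat
  obtain ⟨F, hF, hmin⟩ := ((univ : Finset (Finset E)).filter
    (fun F => IsFl K v F ∧ ¬ SG K v ∅ F)).exists_min_image card
    ⟨univ, by simp [isFl_univ, hn]⟩
  rw [mem_filter] at hF
  obtain ⟨-, hF, hnF⟩ := hF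
  have hmin' : ∀ G, IsFl K v G → G ⊂ F → SG K v ∅ G := by
    intro G hG hGF
    by_contra hc
    have h1 := hmin G (by simp [hG, hc])
    have h2 := card_lt_card hGF
    omega
  have h5 := td_rk_le hK hv hs hF hmin' hnF
  have hcard : rk K v F + 2 ≤ F.card := by
    by_contra hc
    exact hnF (SG_of_card_le (by omega))
  have h2 : 2 ≤ rk K v F := hv.two_le_rk (by omega)
  -- a basis of F extended to a basis
  obtain ⟨I, hIF, hI, hIs⟩ := exists_basis (K := K) (v := v) F
  obtain ⟨B, hIB, -, hB, hBs⟩ := exists_basis_extend hI (subset_univ I)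
  have hIc : I.card = rk K v F := by rw [← hI.rk_eq_card, rk_congr hIs]
  have hBc : B.card = rk K v univ := by rw [← hB.rk_eq_card, rk_congr hBs]
  set S := B \ I with hS
  have hSc : S.card + rk K v F = rk K v univ := by
    have : S.card + I.card = B.card := card_sdiff_add_card_eq_card hIB
    omega
  have hSI : Disjoint I S := disjoint_sdiff
  have hrkF : ∀ S' ⊆ S, rk K v (S' ∪ F) = S'.card + rk K v F := by
    intro S' hS'
    have h1 : sp K v (S' ∪ F) = sp K v (S' ∪ I) := by
      rw [sp_union, sp_union, hIs]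
    rw [rk_congr h1]
    have h3 : Ind K v (S' ∪ I) := hB.subset (union_subset (hS'.trans sdiff_subset) hIB)
    rw [h3.rk_eq_card, card_union_of_disjoint (hSI.symm.mono_left hS'), hIc]
  have hrkS : rk K v S = S.card := (hB.subset sdiff_subset).rk_eq_card
  have hdis : ∀ y, y ∈ sp K v F → y ∈ sp K v S → y = 0 := by
    intro y hy1 hy2
    have h1 := hrkF S (Subset.refl _)
    unfold rk at h1 hrkS
    rw [sp_union] at h1
    have h3 := finrank_sup_add_finrank_inf_eq (sp K v S) (sp K v F)
    have h4 : Module.finrank K ↥(sp K v S ⊓ sp K v F) = 0 := by omega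
    have h6 : sp K v S ⊓ sp K v F = ⊥ := Submodule.finrank_eq_zero.1 h4
    have h7 : y ∈ sp K v S ⊓ sp K v F := ⟨hy2, hy1⟩
    rw [h6] at h7
    simpa using h7
  have hSF : ∀ x ∈ S, x ∉ F := by
    intro x hx hxF
    exact hv.1 x (hdis _ (mem_sp hxF) (mem_sp hx))
  have hSne : S.Nonempty := by
    rw [← card_pos]
    omega
  -- the extra elements
  have hex : ∀ x, ∃ (e : E) (q : V), x ∈ S → q ∈ sp K v {x, e} ∧ q ∈ sp K v F ∧
      ∀ g, q ∉ span K {v g} := by
    intro x
    by_cases hx : x ∈ S
    · obtain ⟨e, q, h⟩ := td_extra hv hs hF hnF (hSF x hx)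
      exact ⟨e, q, fun _ => h⟩
    · exact ⟨x, 0, fun h => absurd h hx⟩
  choose e q heq using hex
  have hq0 : ∀ x ∈ S, q x ≠ 0 := by
    intro x hx h0
    apply (heq x hx).2.2 x
    rw [h0]
    exact zero_mem _
  have hex' : ∀ x ∈ S, ∃ a b : K, b ≠ 0 ∧ q x = a • v x + b • v (e x) := by
    intro x hx
    obtain ⟨h1, h3, h4⟩ := heq x hx
    rw [sp_pair, mem_span_pair] at h1
    obtain ⟨a, b, hab⟩ := h1
    refine ⟨a, b, ?_, hab.symm⟩
    rintro rfl
    apply h4 x
    rw [← hab, zero_smul, add_zero, mem_span_singleton]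
    exact ⟨a, rfl⟩
  have hne : ∀ x ∈ S, e x ≠ x := by
    intro x hx h
    obtain ⟨h1, h3, h4⟩ := heq x hx
    apply h4 x
    rw [h] at h1
    simpa using h1
  have hexF : ∀ x ∈ S, e x ∉ F := by
    intro x hx hF'
    obtain ⟨h1, h3, h4⟩ := heq x hx
    obtain ⟨a, b, hb, hab⟩ := hex' x hx
    have ha : a = 0 := by
      by_contra ha
      apply hSF x hx
      apply hF.mem
      have : v x = a⁻¹ • (q x - b • v (e x)) := by
        rw [hab]
        simp [smul_smul, inv_mul_cancel₀ ha]
      rw [this]
      exact smul_mem _ _ (sub_mem h3 (smul_mem _ _ (mem_sp hF')))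
    apply h4 (e x)
    rw [hab, ha, zero_smul, zero_add, mem_span_singleton]
    exact ⟨b, rfl⟩
  have hproj : ∀ x ∈ S, ∃ c : K, c ≠ 0 ∧ v (e x) - c • q x ∈ sp K v S := by
    intro x hx
    obtain ⟨a, b, hb, hab⟩ := hex' x hx
    refine ⟨b⁻¹, inv_ne_zero hb, ?_⟩
    have : v (e x) - b⁻¹ • q x = (-(b⁻¹ * a)) • v x := by
      rw [hab, smul_add, smul_smul, smul_smul, inv_mul_cancel₀ hb, one_smul, neg_smul]
      abel
    rw [this]
    exact smul_mem _ _ (mem_sp hx)
  have hesp : ∀ x ∈ S, v (e x) ∈ sp K v (insert x F) := by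
    intro x hx
    obtain ⟨a, b, hb, hab⟩ := hex' x hx
    have : v (e x) = b⁻¹ • (q x - a • v x) := by
      rw [hab]
      simp [smul_smul, inv_mul_cancel₀ hb]
    rw [this]
    exact smul_mem _ _ (sub_mem (sp_mono (subset_insert _ _) (heq x hx).2.1)
      (smul_mem _ _ (mem_sp (mem_insert_self _ _))))
  by_cases hcase : ∃ x ∈ S, ∃ y ∈ S, x ≠ y ∧ q x ∈ span K {q y}
  · obtain ⟨x, hx, y, hy, hxy, hqq⟩ := hcase
    refine ⟨{x, e x}, {y, e y}, F, q x, (heq x hx).2.2, (heq x hx).1, ?_, (heq x hx).2.1, ?_⟩
    · exact (span_singleton_le_iff_mem _ _).2 (heq y hy).1 hqq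
    · rw [hv.rk_pair (hne x hx).symm, hv.rk_pair (hne y hy).symm]
      have h1 : sp K v ({x, e x} ∪ {y, e y} ∪ F) = sp K v ({x, y} ∪ F) := by
        apply le_antisymm
        · rw [sp_le_iff]
          intro g hg
          simp only [mem_union, mem_insert, mem_singleton] at hg
          rcases hg with ((rfl | rfl) | (rfl | rfl)) | hg
          · exact mem_sp (by simp)
          · exact sp_mono (insert_subset (by simp) subset_union_right) (hesp x hx)
          · exact mem_sp (by simp)
          · exact sp_mono (insert_subset (by simp) subset_union_right) (hesp y hy)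
          · exact mem_sp (mem_union_right _ hg)
        · apply sp_mono
          intro g hg
          simp only [mem_union, mem_insert, mem_singleton] at *
          tauto
      rw [rk_congr h1, hrkF {x, y} (by
        intro g hg
        simp only [mem_insert, mem_singleton] at hg
        rcases hg with rfl | rfl <;> assumption), card_pair hxy]
      omega
  · exfalso
    push Not at hcase
    have hinj : ∀ x ∈ S, ∀ y ∈ S, q x ∈ span K {q y} → x = y := by
      intro x hx y hy h
      by_contra hc
      exact hcase x hx y hy hc h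
    -- uniform projection
    have hP : ∀ r ∈ F ∪ S.image e, ∃ (u : V) (c : K), u ∈ sp K v F ∧ u ≠ 0 ∧ c ≠ 0 ∧
        v r - c • u ∈ sp K v S := by
      intro r hr
      rw [mem_union, mem_image] at hr
      rcases hr with hr | ⟨x, hx, rfl⟩
      · exact ⟨v r, 1, mem_sp hr, hv.1 r, one_ne_zero, by simp⟩
      · obtain ⟨c, hc, h1⟩ := hproj x hx
        exact ⟨q x, c, (heq x hx).2.1, hq0 x hx, hc, h1⟩
    have h1 : ∀ r ∈ F ∪ S.image e, v r ∉ sp K v S := by
      intro r hr h
      obtain ⟨u, c, hu, hu0, hc, h3⟩ := hP r hr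
      apply hu0
      apply hdis u hu
      have : u = c⁻¹ • (v r - (v r - c • u)) := by
        simp [smul_smul, inv_mul_cancel₀ hc]
      rw [this]
      exact smul_mem _ _ (sub_mem h h3)
    have hnm : ∀ x ∈ S, ∀ r, v r ∉ span K {q x} := by
      intro x hx r h
      obtain ⟨a, ha⟩ := mem_span_singleton.1 h
      have ha0 : a ≠ 0 := by
        rintro rfl
        rw [zero_smul] at ha
        exact hv.1 r ha.symm
      apply (heq x hx).2.2 r
      rw [mem_span_singleton]
      exact ⟨a⁻¹, by rw [← ha, smul_smul, inv_mul_cancel₀ ha0, one_smul]⟩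
    have h3 : ∀ r ∈ F ∪ S.image e, ∀ s ∈ F ∪ S.image e, v r ∈ sp K v (insert s S) → r = s := by
      intro r hr s hs' h
      rw [mem_union, mem_image] at hr hs'
      rcases hr with hr | ⟨x, hx, rfl⟩ <;> rcases hs' with hs' | ⟨y, hy, rfl⟩
      · have := td_cmp hdis (r := r) (s := s) (u := v r) (u' := v s) (c := 1) (d := 1) (mem_sp hr)
          (mem_sp hs') one_ne_zero (by simp) (by simp) h
        exact hv.2 _ _ this
      · obtain ⟨d, hd, h4⟩ := hproj y hy
        have := td_cmp hdis (r := r) (s := e y) (u := v r) (u' := q y) (c := 1) (d := d)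
          (mem_sp hr) (heq y hy).2.1 one_ne_zero (by simp) h4 h
        exact absurd this (hnm y hy r)
      · obtain ⟨c, hc, h4⟩ := hproj x hx
        have := td_cmp hdis (r := e x) (s := s) (u := q x) (u' := v s) (c := c) (d := 1)
          (heq x hx).2.1 (mem_sp hs') hc h4 (by simp) h
        exact absurd this ((heq x hx).2.2 s)
      · obtain ⟨c, hc, h4⟩ := hproj x hx
        obtain ⟨d, hd, h5⟩ := hproj y hy
        have := td_cmp hdis (r := e x) (s := e y) (u := q x) (u' := q y) (c := c) (d := d)
          (heq x hx).2.1 (heq y hy).2.1 hc h4 h5 h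
        rw [hinj x hx y hy this]
    have heinj : Set.InjOn e S := by
      intro x hx y hy hxy
      obtain ⟨c, hc, h4⟩ := hproj x hx
      obtain ⟨d, hd, h5⟩ := hproj y hy
      have := td_cmp hdis (r := e x) (s := e y) (u := q x) (u' := q y) (c := c) (d := d)
        (heq x hx).2.1 (heq y hy).2.1 hc h4 h5 (by rw [hxy]; exact mem_sp (mem_insert_self _ _))
      exact hinj x hx y hy this
    have hc0 : (F ∪ S.image e).card = F.card + S.card := by
      rw [card_union_of_disjoint, card_image_of_injOn heinj]
      rw [disjoint_left]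
      intro g hg hg'
      obtain ⟨x, hx, rfl⟩ := mem_image.1 hg'
      exact hexF x hx hg
    obtain ⟨R, hR0, hR⟩ := exists_reps (K := K) (v := v) (Y := S) (T := univ) (subset_univ _) h1 h3
    have hsgS : SG K v S univ := by
      obtain ⟨x, hx⟩ := hSne
      exact (hs x).mono (singleton_subset_iff.2 hx) (Subset.refl _)
    have hsg := transfer_SG hR isFl_univ (subset_univ _) hsgS
    have hrk := rk_qc_univ hR (subset_univ _)
    have h6 := card_add_three_le hK (qc_simple hR) hsg (by omega)
    rw [Fintype.card_coe] at h6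
    have h7 := card_le_card hR0
    omega

/-- number of elements when all contractions are strict gammoids -/
theorem card_le_of_contract (hK : Fintype.card K = 4) {v : E → V} (hv : Simple K v)
    (h3 : 3 ≤ rk K v univ) (hs : ∀ x, SG K v {x} univ) :
    Fintype.card E + 27 ≤ 16 * rk K v univ := by
  classical
  have hne : (univ : Finset E).Nonempty := by
    rw [nonempty_iff_ne_empty]
    intro h0
    rw [h0, rk_empty] at h3
    omega
  obtain ⟨x, -⟩ := hne
  obtain ⟨R, -, hR⟩ := exists_reps (K := K) (v := v) (Y := {x}) (T := univ) (R₀ := ∅)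
    (subset_univ _) (by simp) (by simp)
  have hsg := transfer_SG hR isFl_univ (subset_univ _) (hs x)
  have hrk := rk_qc_univ hR (subset_univ _)
  rw [hv.rk_singleton] at hrk
  have h6 := card_add_three_le hK (qc_simple hR) hsg (by omega)
  rw [Fintype.card_coe] at h6
  have hcov : (univ : Finset E) ⊆ insert x (R.biUnion (fun r => (cl K v {r, x}).erase x)) := by
    intro f _
    rw [mem_insert]
    by_cases hfx : f = x
    · exact Or.inl hfx
    right
    have hf : v f ∉ sp K v {x} := by
      rw [sp_singleton]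
      exact fun h => hfx (hv.2 _ _ h)
    obtain ⟨r, hr, h1⟩ := hR.ex f (mem_univ _) hf
    rw [mem_biUnion]
    refine ⟨r, hr, mem_erase.2 ⟨hfx, mem_cl.2 ?_⟩⟩
    exact mem_sp_insert_exchange h1 (hR.not_mem r hr)
  have hline : ∀ r ∈ R, ((cl K v {r, x}).erase x).card ≤ 4 := by
    intro r hr
    have h1 : rk K v (cl K v {r, x}) ≤ 2 := by
      rw [rk_cl]
      exact rk_le_card.trans card_le_two
    have h2 := line_card_le hK hv h1
    rw [card_erase_of_mem (subset_cl (by simp))]
    omega
  have h8 := card_le_card hcov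
  have h9 := card_insert_le x (R.biUnion (fun r => (cl K v {r, x}).erase x))
  have h10 := card_biUnion_le_card_mul R (fun r => (cl K v {r, x}).erase x) 4 hline
  rw [card_univ] at h8
  omega

end Ca3
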