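import Pool.Agent.Lib.MP_ca3eb1_co.Config5
import Pool.Agent.Lib.MP_ca3eb1_co.TheoremD
import Pool.Agent.Lib.MP_ca3eb1_co.BridgeRing
import Pool.Agent.Lib.MP_ca3eb1_co.BridgeQ
import Pool.Agent.Lib.MP_ca3eb1_co.Std
import Pool.Agent.Lib.MP_ca3eb1_co.RingSG

/-! # Assembly of the final theorem -/

set_option linter.unusedSectionVars false

namespace Ca3

open Matroid

variable {α : Type*}

noncomputable instance fintypeGF4 : Fintype (GaloisField 2 2) := Fintype.ofFinite _

theorem card_GF4 : Fintype.card (GaloisField 2 2) = 4 := by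
  rw [Fintype.card_eq_nat_card, GaloisField.card 2 2 (by norm_num)]
  norm_num

section forward

variable {V : Type*} [AddCommGroup V] [Module (GaloisField 2 2) V]
  [FiniteDimensional (GaloisField 2 2) V] {M : Matroid α}
  [M.Finite] [Fintype M.E] [DecidableEq M.E] {w : M.E → V}

theorem excluded_not_SG (h : RepDual (GaloisField 2 2) M w)
    (hr : IsRepr (GaloisField 2 2) M) (hM : IsExcluded M) (hv : Simple (GaloisField 2 2) w) :
    ¬ SG (GaloisField 2 2) w ∅ Finset.univ := by
  intro hs
  apply hM.1
  refine ⟨hr, h.transversal_iff.2 ?_⟩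
  exact hasTrans_of_SG hv.isFl_empty ind_empty hs

theorem excluded_SG (h : RepDual (GaloisField 2 2) M w) (hM : IsExcluded M)
    (hv : Simple (GaloisField 2 2) w) (x : M.E) :
    SG (GaloisField 2 2) w {x} Finset.univ := by
  have h1 : ClassQ (M ＼ {(x : α)}) :=
    hM.2 _ (Relation.TransGen.single (Or.inl ⟨x, x.2, rfl⟩))
  have h2 := (h.transversal_delete_iff x).1 h1.2
  refine SG_of_hasTrans (hv.isFl_singleton x) ?_ h2
  exact hv.ind_of_card_le_two (by simp)

end forward

theorem forward_main {M : Matroid α} [M.Finite] (hr : IsRepr (GaloisField 2 2) M)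
    (hM : IsExcluded M) :
    (5 ≤ M✶.eRank ∨ 38 ≤ M.E.encard) → IsRing M := by
  classical
  intro h16
  have : Fintype M.E := M.ground_finite.fintype
  obtain ⟨n, w, hw⟩ := hr.exists_repDual
  have hv := hw.simple_of_excluded hr hM
  have hn := excluded_not_SG hw hr hM hv
  have hs := fun x => excluded_SG hw hM hv x
  have hrk : 5 ≤ rk (GaloisField 2 2) w Finset.univ := by
    rcases h16 with h16 | h16
    · rw [hw.eRank_eq] at h16
      exact_mod_cast h16
    · by_contra hc
      have hcard : (Fintype.card M.E : ℕ∞) = M.E.encard := by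
        rw [Set.encard_eq_coe_toFinset_card, Set.toFinset_card]
      rw [← hcard] at h16
      have h214 : 38 ≤ Fintype.card M.E := by exact_mod_cast h16
      by_cases h3 : 3 ≤ rk (GaloisField 2 2) w Finset.univ
      · have := card_le_of_contract card_GF4 hv h3 hs
        omega
      · have := line_card_le card_GF4 hv (X := Finset.univ) (by omega)
        rw [Finset.card_univ] at this
        omega
  obtain ⟨m, leg, C, hd, hI⟩ := config_main card_GF4 hv hrk hs hn
  have hne : M.E.Nonempty := by
    by_contra hc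
    rw [Set.not_nonempty_iff_eq_empty] at hc
    have : rk (GaloisField 2 2) w Finset.univ ≤ (Finset.univ : Finset M.E).card := rk_le_card
    have h0 : (Finset.univ : Finset M.E).card = 0 := by
      rw [Finset.card_univ, Fintype.card_eq_zero_iff]
      exact ⟨fun x => (Set.eq_empty_iff_forall_notMem.1 hc) x x.2⟩
    omega
  rw [isRing_iff hne]
  exact ⟨m, leg, C, hd, fun I => (hw I).trans (hI I)⟩

theorem TransGen_classQ {M N : Matroid α} [M.Finite]
    (h1 : ∀ N, SeriesStep M N → ClassQ N) (h : Relation.TransGen SeriesStep M N) :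
    ClassQ N ∧ N.Finite := by
  have hfin : ∀ {M N : Matroid α}, M.Finite → SeriesStep M N → N.Finite := by
    rintro M N hM (⟨e, -, rfl⟩ | ⟨e, f, -, -, rfl⟩)
    · infer_instance
    · infer_instance
  induction h with
  | single h => exact ⟨h1 _ h, hfin inferInstance h⟩
  | tail h hs ih =>
    have := ih.2
    exact ⟨classQ_step ih.1 hs, hfin inferInstance hs⟩

theorem backward_main {M : Matroid α} [M.Finite] (h4 : 4 ≤ M✶.eRank) (hR : IsRing M) :
    IsRepr (GaloisField 2 2) M ∧ IsExcluded M := by
  classical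
  have : Fintype M.E := M.ground_finite.fintype
  have hne : M.E.Nonempty := by
    by_contra hc
    rw [Set.not_nonempty_iff_eq_empty] at hc
    have h5 : M✶.eRank ≤ M✶.E.encard := M✶.eRank_le_encard_ground
    rw [dual_ground, hc, Set.encard_empty] at h5
    have := h4.trans h5
    exact absurd this (by decide)
  obtain ⟨n, leg, C, hd, hI⟩ := (isRing_iff hne).1 hR
  obtain ⟨v, hv⟩ := exists_std (K := GaloisField 2 2) card_GF4 hd
  have hw : RepDual (GaloisField 2 2) M v := fun I => (hI I).trans (hv I).symm
  have hr : IsRepr (GaloisField 2 2) M := hw.isRepr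
  have hsimple : Simple (GaloisField 2 2) v := ring_simple hd hv
  have hrk : 4 ≤ rk (GaloisField 2 2) v Finset.univ := by
    rw [hw.eRank_eq] at h4
    exact_mod_cast h4
  refine ⟨hr, fun hQ => ?_, fun N hN => ?_⟩
  · have h1 := hw.transversal_iff.1 hQ.2
    exact ring_not_SG hd hv hrk (SG_of_hasTrans hsimple.isFl_empty ind_empty h1)
  · refine (TransGen_classQ ?_ hN).1
    rintro N (⟨e, he, rfl⟩ | ⟨e, f, hef, hc, rfl⟩)
    · refine ⟨hr.delete _, ?_⟩
      have h2 := hasTrans_of_SG (hsimple.isFl_singleton ⟨e, he⟩)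
        (hsimple.ind_of_card_le_two (by simp)) (ring_SG hd hv ⟨e, he⟩)
      exact (hw.transversal_delete_iff ⟨e, he⟩).2 h2
    · exfalso
      have hsub := hc.subset_ground
      have he : e ∈ M.E := hsub (by simp)
      have hf : f ∈ M.E := hsub (by simp)
      have h3 := (hw {⟨e, he⟩, ⟨f, hf⟩}).2
        (hsimple.ind_of_card_le_two (Finset.card_le_two))
      have h4 : (Subtype.val '' ((({⟨e, he⟩, ⟨f, hf⟩} : Finset M.E) : Set M.E)) : Set α) =
          {e, f} := by
        simp [Set.image_pair]
      rw [h4] at h3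
      exact hc.isCircuit.not_indep h3

end Ca3
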