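import Pool.Agent.Lib.MP_ca3eb1_co.E1Bridge
import Pool.Agent.Lib.MP_ca3eb1_co.AbCaseI
import Pool.Agent.Lib.MP_ca3eb1_co.Final5

/-! # E1: excluded series minors of corank at least five are quaternary

`case_two` is a hypothesis here (file AbCaseII). -/

set_option linter.unusedSectionVars false

namespace Ca3.Ab

open Matroid

universe u

variable {α : Type u}

/-- An excluded series minor of corank at least five is quaternary (given case (ii)). -/
theorem repr_of_excluded_of
    (case_two : ∀ (E : Type u) [DecidableEq E] [Fintype E] (N : RF E),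
      KC (GaloisField 2 2) N → 5 ≤ rk N Finset.univ → Rep (GaloisField 2 2) N)
    {M : Matroid α} [M.Finite] (hM : IsExcluded M) (h5 : 5 ≤ M✶.eRank) :
    IsRepr (GaloisField 2 2) M := by
  classical
  have : Fintype M.E := M.ground_finite.fintype
  have hrk : 5 ≤ rk (dualRF M) Finset.univ := by
    rw [eRank_dualRF] at h5
    exact_mod_cast h5
  by_cases hs : SG (dualRF M) ∅ Finset.univ
  · exact isRepr_of_rep
      (case_two M.E (dualRF M) ⟨simple_dualRF hM, hs, repC_dualRF hM⟩ hrk)
  · obtain ⟨n, leg, C, hd, hI⟩ := case_one card_GF4 (simple_dualRF hM) (repC_dualRF hM) hrk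
      (sg_dualRF hM) hs
    have hne : M.E.Nonempty := by
      by_contra hc
      rw [Set.not_nonempty_iff_eq_empty] at hc
      have h1 : rk (dualRF M) Finset.univ ≤ (Finset.univ : Finset M.E).card := rk_le_card
      have h0 : (Finset.univ : Finset M.E).card = 0 := by
        rw [Finset.card_univ, Fintype.card_eq_zero_iff]
        exact ⟨fun x => (Set.eq_empty_iff_forall_notMem.1 hc) x x.2⟩
      omega
    have h4 : 4 ≤ M✶.eRank := (by norm_num : (4 : ℕ∞) ≤ 5).trans h5
    exact (backward_main h4 (isRing_of_dualRF hne hd hI)).1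

end Ca3.Ab
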