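import Pool.Agent.Lib.MP_ca3eb1_co.Alpha
import Pool.Agent.Lib.MP_ca3eb1_co.Restrict

/-! # Module W1: planes, hereditary inequality -/

set_option linter.unusedSectionVars false

namespace Ca3

open Finset Submodule

section defs

variable (K : Type*) {V E : Type*} [Field K] [AddCommGroup V] [Module K V]
  [Fintype E] [DecidableEq E]

/-- heavy line: a flat of rank 2 with at least three elements -/
def HL (v : E → V) (L : Finset E) : Prop := IsFl K v L ∧ rk K v L = 2 ∧ 3 ≤ L.card

/-- `q` is fat (rank 4): three heavy lines through `q` whose union has rank 4 -/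
def Fat (v : E → V) (q : E) : Prop :=
  ∃ L1 L2 L3 : Finset E, HL K v L1 ∧ HL K v L2 ∧ HL K v L3 ∧ q ∈ L1 ∧ q ∈ L2 ∧ q ∈ L3 ∧
    rk K v (L1 ∪ L2 ∪ L3) = 4

/-- the number of lines through `z` inside the flat `W` containing `z` -/
noncomputable def pen (v : E → V) (z : E) (W : Finset E) : ℕ :=
  ((W.erase z).image (fun e => cl K v {z, e})).card

end defs

variable {K V E : Type*} [Field K] [AddCommGroup V] [Module K V]
  [FiniteDimensional K V] [Fintype E] [DecidableEq E] {v : E → V}

/-! ## alpha in small rank -/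

theorem alpha_of_card_le_one (hv : Simple K v) {Z : Finset E} (hZ : Z.card ≤ 1) :
    alpha K v Z = 0 := by
  classical
  have hr : rk K v Z = Z.card := (hv.ind_of_card_le_two (by omega)).rk_eq_card
  induction hn : Z.card using Nat.strong_induction_on generalizing Z with
  | _ n ih =>
    subst hn
    rw [alpha_eq, sum_eq_zero, hr]
    · simp
    · intro G hG
      rw [mem_filter, mem_powerset] at hG
      have hlt : G.card < Z.card := card_lt_card (Finset.ssubset_iff_subset_ne.2 ⟨hG.1, hG.2.2⟩)
      exact ih _ hlt (Z := G) (by omega)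
        ((hv.ind_of_card_le_two (by omega)).rk_eq_card) rfl

theorem alpha_of_rk_le_one (hv : Simple K v) {Z : Finset E} (hZ : rk K v Z ≤ 1) :
    alpha K v Z = 0 :=
  alpha_of_card_le_one hv (hv.card_le_one hZ)

theorem alpha_of_rk_two (hv : Simple K v) {Z : Finset E} (hZ : rk K v Z = 2) :
    alpha K v Z = (Z.card : ℤ) - 2 := by
  classical
  rw [alpha_eq, sum_eq_zero, hZ]
  · simp
  · intro G hG
    rw [mem_filter, mem_powerset] at hG
    have hlt : rk K v G < rk K v Z :=
      hG.2.1.rk_lt_of_ssubset (Finset.ssubset_iff_subset_ne.2 ⟨hG.1, hG.2.2⟩)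
    exact alpha_of_rk_le_one hv (by omega)

/-- two different elements determine the line -/
theorem line_unique (hv : Simple K v) {L L' : Finset E} (h : IsFl K v L ∧ rk K v L = 2)
    (h' : IsFl K v L' ∧ rk K v L' = 2) {a b : E} (hab : a ≠ b) (ha : a ∈ L) (hb : b ∈ L)
    (ha' : a ∈ L') (hb' : b ∈ L') : L = L' := by
  have h1 : cl K v {a, b} = L :=
    h.1.cl_eq (insert_subset ha (singleton_subset_iff.2 hb)) (by rw [hv.rk_pair hab, h.2])
  have h2 : cl K v {a, b} = L' :=
    h'.1.cl_eq (insert_subset ha' (singleton_subset_iff.2 hb')) (by rw [hv.rk_pair hab, h'.2])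
  rw [← h1, h2]

open Classical in
/-- the base case of the hereditary inequality -/
theorem her3_base (hv : Simple K v) {T : Finset E} (hT : IsFl K v T)
    (hs : SG K v ∅ T) {Z : Finset E} (hZT : Z ⊆ T) (hZ : rk K v Z = 3) :
    ∑ L ∈ univ.filter (fun L : Finset E => IsFl K v L ∧ rk K v L = 2 ∧ L ∩ T ⊆ Z),
      ((L ∩ T).card - 2) + 3 ≤ Z.card := by
  -- sum over all flats inside `Z`
  have h1 : ∑ G ∈ univ.filter (fun G => IsFl K v G ∧ G ⊆ Z), alpha K v G ≤ (Z.card : ℤ) - 3 := by
    by_cases hf : IsFl K v Z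
    · rw [alpha_sum_flat hf, hZ]; simp
    · rw [alpha_sum_not_flat hf, hZ]
      have := alpha_nonneg hs hZT
      push_cast
      linarith
  have h2 : ∑ L ∈ univ.filter (fun L : Finset E => IsFl K v L ∧ rk K v L = 2 ∧ L ⊆ Z),
      alpha K v L ≤ ∑ G ∈ univ.filter (fun G => IsFl K v G ∧ G ⊆ Z), alpha K v G := by
    apply sum_le_sum_of_subset_of_nonneg
    · intro L hL
      rw [mem_filter] at hL ⊢
      exact ⟨mem_univ _, hL.2.1, hL.2.2.2⟩
    · intro G hG _
      rw [mem_filter] at hG
      exact alpha_nonneg hs (hG.2.2.trans hZT)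
  have h3 : ((∑ L ∈ univ.filter (fun L : Finset E => IsFl K v L ∧ rk K v L = 2 ∧ L ∩ T ⊆ Z),
      ((L ∩ T).card - 2) : ℕ) : ℤ) =
      ∑ L ∈ univ.filter (fun L : Finset E => IsFl K v L ∧ rk K v L = 2 ∧ L ⊆ Z),
      alpha K v L := by
    rw [Nat.cast_sum]
    symm
    apply sum_subset_zero_on_sdiff
    · intro L hL
      rw [mem_filter] at hL ⊢
      exact ⟨mem_univ _, hL.2.1, hL.2.2.1, inter_subset_left.trans hL.2.2.2⟩
    · intro L hL
      rw [mem_sdiff, mem_filter, mem_filter] at hL
      obtain ⟨⟨-, hf, h2, hLZ⟩, hn⟩ := hL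
      have hLT : ¬ L ⊆ T := by
        intro hLT
        apply hn
        refine ⟨mem_univ _, hf, h2, ?_⟩
        rwa [inter_eq_left.2 hLT] at hLZ
      have hlt : rk K v (L ∩ T) < rk K v L := by
        apply (hf.inter hT).rk_lt_of_ssubset
        rw [Finset.ssubset_iff_subset_ne]
        refine ⟨inter_subset_left, ?_⟩
        intro h
        exact hLT (inter_eq_left.1 h)
      have hc : (L ∩ T).card ≤ 1 := hv.card_le_one (by omega)
      have : (L ∩ T).card - 2 = 0 := by omega
      rw [this]; simp
    · intro L hL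
      rw [mem_filter] at hL
      obtain ⟨-, hf, h2, hLZ⟩ := hL
      have hLT : L ∩ T = L := inter_eq_left.2 (hLZ.trans hZT)
      have hc : 2 ≤ L.card := by
        have := rk_le_card (K := K) (v := v) (X := L)
        omega
      rw [alpha_of_rk_two hv h2, hLT]
      push_cast [hc]
      ring
  have h4 := h2.trans h1
  rw [← h3] at h4
  omega

open Classical in
theorem her3 (hv : Simple K v) {T : Finset E} (hT : IsFl K v T) (h3 : rk K v T = 3)
    (hs : SG K v ∅ T) {S : Finset E} (hST : S ⊆ T) (hS : rk K v S = 3) {Z : Finset E}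
    (hZS : Z ⊆ S) (hZ : rk K v Z = 3) :
    ∑ L ∈ univ.filter (fun L : Finset E => IsFl K v L ∧ rk K v L = 2 ∧ L ∩ S ⊆ Z),
      ((L ∩ S).card - 2) + 3 ≤ Z.card := by
  induction hn : (T \ S).card generalizing S Z with
  | zero =>
    rw [card_eq_zero, sdiff_eq_empty_iff_subset] at hn
    obtain rfl : S = T := Subset.antisymm hST hn
    exact her3_base hv hT hs hZS hZ
  | succ n ih =>
    obtain ⟨q, hq⟩ : (T \ S).Nonempty := by
      rw [← card_pos]; omega
    rw [mem_sdiff] at hq
    have hqZ : q ∉ Z := fun h => hq.2 (hZS h)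
    have hS' : insert q S ⊆ T := insert_subset hq.1 hST
    have hrS' : rk K v (insert q S) = 3 := by
      have a := rk_mono (K := K) (v := v) hS'
      have b := rk_mono (K := K) (v := v) (subset_insert q S)
      omega
    have hcard : (T \ insert q S).card = n := by
      have : T \ insert q S = (T \ S).erase q := by
        ext x
        simp only [mem_sdiff, mem_insert, mem_erase]
        tauto
      rw [this, card_erase_of_mem (mem_sdiff.2 hq), hn]
      rfl
    have hiff : ∀ L : Finset E, (L ∩ insert q S ⊆ insert q Z ↔ L ∩ S ⊆ Z) := by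
      intro L
      constructor
      · intro h x hx
        rw [mem_inter] at hx
        have := h (mem_inter.2 ⟨hx.1, mem_insert_of_mem hx.2⟩)
        rcases mem_insert.1 this with rfl | h'
        · exact absurd hx.2 hq.2
        · exact h'
      · intro h x hx
        rw [mem_inter, mem_insert] at hx
        rcases hx.2 with rfl | h'
        · exact mem_insert_self _ _
        · exact mem_insert_of_mem (h (mem_inter.2 ⟨hx.1, h'⟩))
    have hle : ∀ L : Finset E, (L ∩ S).card ≤ (L ∩ insert q S).card := fun L =>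
      card_le_card (inter_subset_inter_left (subset_insert _ _))
    have hqL : ∀ L : Finset E, q ∈ L → (L ∩ insert q S).card = (L ∩ S).card + 1 := by
      intro L hqL
      have : L ∩ insert q S = insert q (L ∩ S) := by
        ext x
        simp only [mem_inter, mem_insert]
        constructor
        · rintro ⟨a, b | b⟩
          · exact Or.inl b
          · exact Or.inr ⟨a, b⟩
        · rintro (rfl | ⟨a, b⟩)
          · exact ⟨hqL, Or.inl rfl⟩
          · exact ⟨a, Or.inr b⟩
      rw [this, card_insert_of_notMem]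
      intro h
      exact hq.2 (mem_inter.1 h).2
    have hnqL : ∀ L : Finset E, q ∉ L → L ∩ insert q S = L ∩ S := by
      intro L hqL
      ext x
      simp only [mem_inter, mem_insert]
      constructor
      · rintro ⟨a, rfl | b⟩
        · exact absurd a hqL
        · exact ⟨a, b⟩
      · rintro ⟨a, b⟩
        exact ⟨a, Or.inr b⟩
    by_cases hex : ∃ L : Finset E, (IsFl K v L ∧ rk K v L = 2 ∧ L ∩ S ⊆ Z) ∧ q ∈ L ∧
        2 ≤ (L ∩ S).card
    · obtain ⟨L0, hL0, hqL0, hc0⟩ := hex
      have hZ' : rk K v (insert q Z) = 3 := by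
        have a := rk_mono (K := K) (v := v) (insert_subset_insert q hZS)
        have b := rk_mono (K := K) (v := v) (subset_insert q Z)
        omega
      have key := ih hS' hrS' (insert_subset_insert q hZS) hZ' hcard
      have hfil : univ.filter (fun L : Finset E => IsFl K v L ∧ rk K v L = 2 ∧
          L ∩ insert q S ⊆ insert q Z) =
          univ.filter (fun L : Finset E => IsFl K v L ∧ rk K v L = 2 ∧ L ∩ S ⊆ Z) := by
        ext L
        simp only [mem_filter, mem_univ, true_and, hiff]
      rw [hfil, card_insert_of_notMem hqZ] at key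
      have hlt : ∑ L ∈ univ.filter (fun L : Finset E => IsFl K v L ∧ rk K v L = 2 ∧ L ∩ S ⊆ Z),
          ((L ∩ S).card - 2) <
          ∑ L ∈ univ.filter (fun L : Finset E => IsFl K v L ∧ rk K v L = 2 ∧ L ∩ S ⊆ Z),
          ((L ∩ insert q S).card - 2) := by
        apply sum_lt_sum
        · intro L _
          have := hle L
          omega
        · refine ⟨L0, ?_, ?_⟩
          · rw [mem_filter]
            exact ⟨mem_univ _, hL0⟩
          · have := hqL L0 hqL0
            omega
      omega
    · push Not at hex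
      have key := ih hS' hrS' (hZS.trans (subset_insert _ _)) hZ hcard
      have hle2 : ∑ L ∈ univ.filter (fun L : Finset E => IsFl K v L ∧ rk K v L = 2 ∧ L ∩ S ⊆ Z),
          ((L ∩ S).card - 2) ≤
          ∑ L ∈ univ.filter (fun L : Finset E => IsFl K v L ∧ rk K v L = 2 ∧
            L ∩ insert q S ⊆ Z), ((L ∩ insert q S).card - 2) := by
        calc ∑ L ∈ univ.filter (fun L : Finset E => IsFl K v L ∧ rk K v L = 2 ∧ L ∩ S ⊆ Z),
              ((L ∩ S).card - 2)
            = ∑ L ∈ univ.filter (fun L : Finset E => IsFl K v L ∧ rk K v L = 2 ∧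
              L ∩ insert q S ⊆ Z), ((L ∩ S).card - 2) := by
              symm
              apply sum_subset
              · intro L hL
                rw [mem_filter] at hL ⊢
                exact ⟨mem_univ _, hL.2.1, hL.2.2.1,
                  (inter_subset_inter_left (subset_insert _ _)).trans hL.2.2.2⟩
              · intro L hL hn
                rw [mem_filter] at hL hn
                by_cases hqL' : q ∈ L
                · have := hex L hL.2 hqL'
                  omega
                · exfalso
                  apply hn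
                  refine ⟨mem_univ _, hL.2.1, hL.2.2.1, ?_⟩
                  rw [hnqL L hqL']
                  exact hL.2.2.2
          _ ≤ _ := by
              apply sum_le_sum
              intro L _
              have := hle L
              omega
      omega

theorem her3_lines (hv : Simple K v) {T : Finset E} (hT : IsFl K v T) (h3 : rk K v T = 3)
    (hs : SG K v ∅ T) {S : Finset E} (hST : S ⊆ T) (hS : rk K v S = 3)
    {LL : Finset (Finset E)} (hL : ∀ L ∈ LL, IsFl K v L ∧ rk K v L = 2) :
    ∑ L ∈ LL, ((L ∩ S).card - 2) + 3 ≤ S.card := by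
  classical
  have key := her3 hv hT h3 hs hST hS (Subset.refl S) hS
  have : ∑ L ∈ LL, ((L ∩ S).card - 2) ≤
      ∑ L ∈ univ.filter (fun L : Finset E => IsFl K v L ∧ rk K v L = 2 ∧ L ∩ S ⊆ S),
      ((L ∩ S).card - 2) := by
    apply sum_le_sum_of_subset
    intro L h
    rw [mem_filter]
    exact ⟨mem_univ _, (hL L h).1, (hL L h).2, inter_subset_right⟩
  omega

/-- the complete quadrilateral is not contained in a plane which is a strict gammoid -/
theorem no_K4 (hv : Simple K v) {T : Finset E} (hT : IsFl K v T) (h3 : rk K v T = 3)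
    (hs : SG K v ∅ T) {L1 L2 L3 L4 : Finset E} (h1 : IsFl K v L1 ∧ rk K v L1 = 2)
    (h2 : IsFl K v L2 ∧ rk K v L2 = 2) (h3' : IsFl K v L3 ∧ rk K v L3 = 2)
    (h4 : IsFl K v L4 ∧ rk K v L4 = 2) (hne : L1 ≠ L2) {a12 a13 a14 a23 a24 a34 : E}
    (m12 : a12 ∈ L1 ∩ L2) (m13 : a13 ∈ L1 ∩ L3) (m14 : a14 ∈ L1 ∩ L4) (m23 : a23 ∈ L2 ∩ L3)
    (m24 : a24 ∈ L2 ∩ L4) (m34 : a34 ∈ L3 ∩ L4)
    (hT' : ({a12, a13, a14, a23, a24, a34} : Finset E) ⊆ T)
    (hc : ({a12, a13, a14, a23, a24, a34} : Finset E).card = 6) : False := by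
  classical
  set P : Finset E := {a12, a13, a14, a23, a24, a34} with hP
  rw [mem_inter] at m12 m13 m14 m23 m24 m34
  -- the six points are different
  have hf : Function.Injective (![a12, a13, a14, a23, a24, a34] : Fin 6 → E) := by
    have him : (univ : Finset (Fin 6)).image (![a12, a13, a14, a23, a24, a34] : Fin 6 → E) = P := by
      ext x
      simp only [mem_image, mem_univ, true_and, Fin.exists_fin_succ, hP, mem_insert,
        mem_singleton]
      simp [eq_comm]
    have hcard : ((univ : Finset (Fin 6)).image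
        (![a12, a13, a14, a23, a24, a34] : Fin 6 → E)).card = (univ : Finset (Fin 6)).card := by
      rw [him, hc]; simp
    have := card_image_iff.1 hcard
    intro x y hxy
    exact this (mem_coe.2 (mem_univ x)) (mem_coe.2 (mem_univ y)) hxy
  have d1 : a12 ≠ a13 := hf.ne (a₁ := 0) (a₂ := 1) (by decide)
  have d2 : a12 ≠ a14 := hf.ne (a₁ := 0) (a₂ := 2) (by decide)
  have d3 : a12 ≠ a23 := hf.ne (a₁ := 0) (a₂ := 3) (by decide)
  have d4 : a12 ≠ a24 := hf.ne (a₁ := 0) (a₂ := 4) (by decide)
  have d6 : a13 ≠ a14 := hf.ne (a₁ := 1) (a₂ := 2) (by decide)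
  have d7 : a13 ≠ a23 := hf.ne (a₁ := 1) (a₂ := 3) (by decide)
  have d8 : a13 ≠ a34 := hf.ne (a₁ := 1) (a₂ := 5) (by decide)
  have d9 : a14 ≠ a24 := hf.ne (a₁ := 2) (a₂ := 4) (by decide)
  have d10 : a14 ≠ a34 := hf.ne (a₁ := 2) (a₂ := 5) (by decide)
  have d11 : a23 ≠ a24 := hf.ne (a₁ := 3) (a₂ := 4) (by decide)
  have d12 : a23 ≠ a34 := hf.ne (a₁ := 3) (a₂ := 5) (by decide)
  have d13 : a24 ≠ a34 := hf.ne (a₁ := 4) (a₂ := 5) (by decide)
  -- the lines are different
  have n13 : L1 ≠ L3 := by
    rintro rfl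
    exact hne (line_unique hv h1 h2 d3 m12.1 m23.2 m12.2 m23.1)
  have n14 : L1 ≠ L4 := by
    rintro rfl
    exact hne (line_unique hv h1 h2 d4 m12.1 m24.2 m12.2 m24.1)
  have n23 : L2 ≠ L3 := by
    rintro rfl
    exact hne (line_unique hv h1 h2 d1 m12.1 m13.1 m12.2 m13.2)
  have n24 : L2 ≠ L4 := by
    rintro rfl
    exact hne (line_unique hv h1 h2 d2 m12.1 m14.1 m12.2 m14.2)
  have n34 : L3 ≠ L4 := by
    rintro rfl
    exact n13 (line_unique hv h1 h3' d6 m13.1 m14.1 m13.2 m14.2)
  -- rank
  have mP12 : a12 ∈ P := by simp [hP]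
  have mP13 : a13 ∈ P := by simp [hP]
  have mP14 : a14 ∈ P := by simp [hP]
  have mP23 : a23 ∈ P := by simp [hP]
  have mP24 : a24 ∈ P := by simp [hP]
  have mP34 : a34 ∈ P := by simp [hP]
  have hr : rk K v P = 3 := by
    have hle := rk_mono (K := K) (v := v) hT'
    by_contra hcon
    have hle2 : rk K v P ≤ 2 := by omega
    have e1 : sp K v {a12, a13} = sp K v P :=
      sp_eq_of_subset_of_rk_le (insert_subset mP12 (singleton_subset_iff.2 mP13))
        (by rw [hv.rk_pair d1]; exact hle2)
    have c1 : cl K v {a12, a13} = L1 :=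
      h1.1.cl_eq (insert_subset m12.1 (singleton_subset_iff.2 m13.1))
        (by rw [hv.rk_pair d1, h1.2])
    have h23 : a23 ∈ L1 := by
      rw [← c1, mem_cl, e1]
      exact mem_sp mP23
    exact hne (line_unique hv h1 h2 d3 m12.1 h23 m12.2 m23.1)
  -- three points on each line
  have three : ∀ {a b c : E} {L : Finset E}, a ≠ b → a ≠ c → b ≠ c → a ∈ L → b ∈ L → c ∈ L →
      a ∈ P → b ∈ P → c ∈ P → 3 ≤ (L ∩ P).card := by
    intro a b c L hab hac hbc ha hb hc' haP hbP hcP
    have hsub : ({a, b, c} : Finset E) ⊆ L ∩ P := by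
      intro x hx
      simp only [mem_insert, mem_singleton] at hx
      rcases hx with rfl | rfl | rfl
      · exact mem_inter.2 ⟨ha, haP⟩
      · exact mem_inter.2 ⟨hb, hbP⟩
      · exact mem_inter.2 ⟨hc', hcP⟩
    have := card_le_card hsub
    rwa [card_eq_three.2 ⟨a, b, c, hab, hac, hbc, rfl⟩] at this
  have t1 := three d1 d2 d6 m12.1 m13.1 m14.1 mP12 mP13 mP14
  have t2 := three d3 d4 d11 m12.2 m23.1 m24.1 mP12 mP23 mP24
  have t3 := three d7 d8 d12 m13.2 m23.2 m34.1 mP13 mP23 mP34
  have t4 := three d9 d10 d13 m14.2 m24.2 m34.2 mP14 mP24 mP34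
  have hLL : ∀ L ∈ ({L1, L2, L3, L4} : Finset (Finset E)), IsFl K v L ∧ rk K v L = 2 := by
    intro L hL
    simp only [mem_insert, mem_singleton] at hL
    rcases hL with rfl | rfl | rfl | rfl
    · exact h1
    · exact h2
    · exact h3'
    · exact h4
  have key := her3_lines hv hT h3 hs hT' hr hLL
  rw [sum_insert (by simp [hne, n13, n14]), sum_insert (by simp [n23, n24]),
    sum_insert (by simp [n34]), sum_singleton, hc] at key
  omega

theorem SG_sub3 (hv : Simple K v) (h3 : rk K v univ = 3) (hs : SG K v ∅ univ) {S : Finset E}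
    (hS : rk K v S = 3) : SG K (fun e : S => v e) ∅ univ := by
  classical
  have hw := hv.restrict S
  apply SG_of_alpha_nonneg
  intro Z _
  set w : S → V := fun e => v e with hwdef
  set m : Finset S → Finset E := fun G => G.map (Function.Embedding.subtype _) with hm
  have hmS : ∀ G : Finset S, m G ⊆ S := by
    intro G e he
    obtain ⟨r, -, rfl⟩ := mem_map.1 he
    exact r.2
  have hmc : ∀ G : Finset S, (m G).card = G.card := fun G => card_map _
  have hrm : ∀ G : Finset S, rk K w G = rk K v (m G) := fun G => rk_restrict G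
  have hle3 : rk K w Z ≤ 3 := by
    rw [hrm, ← h3]
    exact rk_mono (subset_univ _)
  have hcases : rk K w Z ≤ 1 ∨ rk K w Z = 2 ∨ rk K w Z = 3 := by omega
  rcases hcases with h | h | h
  · rw [alpha_of_rk_le_one hw h]
  · rw [alpha_of_rk_two hw h]
    have := rk_le_card (K := K) (v := w) (X := Z)
    have : 2 ≤ Z.card := by omega
    have : (2 : ℤ) ≤ Z.card := by exact_mod_cast this
    linarith
  · -- the sum over proper flats
    have hsum : ∑ G ∈ Z.powerset.filter (fun G => IsFl K w G ∧ G ≠ Z), alpha K w G =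
        ((∑ G ∈ univ.filter (fun G : Finset S => IsFl K w G ∧ rk K w G = 2 ∧ G ⊆ Z),
          (G.card - 2) : ℕ) : ℤ) := by
      rw [Nat.cast_sum]
      symm
      apply sum_subset_zero_on_sdiff
      · intro G hG
        rw [mem_filter] at hG
        rw [mem_filter, mem_powerset]
        refine ⟨hG.2.2.2, hG.2.1, ?_⟩
        rintro rfl
        omega
      · intro G hG
        rw [mem_sdiff, mem_filter, mem_filter, mem_powerset] at hG
        obtain ⟨⟨hGZ, hf, hne⟩, hn⟩ := hG
        have hlt : rk K w G < rk K w Z :=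
          hf.rk_lt_of_ssubset (Finset.ssubset_iff_subset_ne.2 ⟨hGZ, hne⟩)
        apply alpha_of_rk_le_one hw
        by_contra hcon
        exact hn ⟨mem_univ _, hf, by omega, hGZ⟩
      · intro G hG
        rw [mem_filter] at hG
        have hc : 2 ≤ G.card := by
          have := rk_le_card (K := K) (v := w) (X := G)
          omega
        rw [alpha_of_rk_two hw hG.2.2.1]
        push_cast [hc]
        ring
    rw [alpha_eq, hsum, h]
    have key := her3 hv (isFl_univ) h3 hs (subset_univ S) hS (hmS Z) (by rw [← hrm]; exact h)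
    -- lines of the restriction are the traces of lines
    have htr : ∀ G : Finset S, IsFl K w G → cl K v (m G) ∩ S = m G := by
      intro G hG
      apply Subset.antisymm
      · intro e he
        rw [mem_inter, mem_cl] at he
        obtain ⟨he1, heS⟩ := he
        have : (⟨e, heS⟩ : S) ∈ G := by
          apply hG.mem
          rw [show sp K w G = sp K v (m G) from ?_]
          · exact he1
          · apply le_antisymm
            · rw [sp_le_iff]
              intro r hr
              exact mem_sp (v := v) (mem_map_of_mem (Function.Embedding.subtype _) hr)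
            · rw [sp_le_iff]
              intro r hr
              obtain ⟨r', hr', rfl⟩ := mem_map.1 hr
              exact mem_sp (v := w) hr'
        exact mem_map.2 ⟨⟨e, heS⟩, this, rfl⟩
      · exact subset_inter subset_cl (hmS G)
    have hinj : Set.InjOn (fun G : Finset S => cl K v (m G))
        (univ.filter (fun G : Finset S => IsFl K w G ∧ rk K w G = 2 ∧ G ⊆ Z) :
          Finset (Finset S)) := by
      intro G hG G' hG' hGG
      rw [mem_coe, mem_filter] at hG hG'
      have a := htr G hG.2.1
      have b := htr G' hG'.2.1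
      simp only at hGG
      rw [hGG] at a
      have hmm : m G = m G' := a.symm.trans b
      exact map_injective _ hmm
    have hle : ∑ G ∈ univ.filter (fun G : Finset S => IsFl K w G ∧ rk K w G = 2 ∧ G ⊆ Z),
        (G.card - 2) ≤
        ∑ L ∈ univ.filter (fun L : Finset E => IsFl K v L ∧ rk K v L = 2 ∧ L ∩ S ⊆ m Z),
        ((L ∩ S).card - 2) := by
      calc ∑ G ∈ univ.filter (fun G : Finset S => IsFl K w G ∧ rk K w G = 2 ∧ G ⊆ Z),
            (G.card - 2)
          = ∑ G ∈ univ.filter (fun G : Finset S => IsFl K w G ∧ rk K w G = 2 ∧ G ⊆ Z),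
            ((cl K v (m G) ∩ S).card - 2) := by
            apply sum_congr rfl
            intro G hG
            rw [mem_filter] at hG
            rw [htr G hG.2.1, hmc]
        _ = ∑ L ∈ (univ.filter (fun G : Finset S => IsFl K w G ∧ rk K w G = 2 ∧ G ⊆ Z)).image
              (fun G => cl K v (m G)), ((L ∩ S).card - 2) := by
            rw [sum_image hinj]
        _ ≤ _ := by
            apply sum_le_sum_of_subset
            intro L hL
            obtain ⟨G, hG, rfl⟩ := mem_image.1 hL
            rw [mem_filter] at hG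
            rw [mem_filter]
            refine ⟨mem_univ _, isFl_cl, ?_, ?_⟩
            · rw [rk_cl, ← hrm]; exact hG.2.2.1
            · rw [htr G hG.2.1]
              exact map_subset_map.2 hG.2.2.2
    have hfin := (add_le_add_left hle 3).trans key
    rw [hmc] at hfin
    have : (((∑ G ∈ univ.filter (fun G : Finset S => IsFl K w G ∧ rk K w G = 2 ∧ G ⊆ Z),
        (G.card - 2)) : ℕ) : ℤ) + 3 ≤ Z.card := by exact_mod_cast (by omega)
    push_cast at this ⊢
    linarith

/-- simple configurations of rank at most two are strict gammoids -/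
theorem SG_of_rk_le_two (hv : Simple K v) {F : Finset E} (hF : rk K v F ≤ 2) : SG K v ∅ F := by
  classical
  apply SG_of_alpha_nonneg
  intro Z hZ
  have h1 : rk K v Z ≤ 2 := (rk_mono hZ).trans hF
  by_cases h2 : rk K v Z = 2
  · rw [alpha_of_rk_two hv h2]
    have := rk_le_card (K := K) (v := v) (X := Z)
    have : 2 ≤ Z.card := by omega
    have : (2 : ℤ) ≤ Z.card := by exact_mod_cast this
    linarith
  · rw [alpha_of_rk_le_one hv (by omega)]

end Ca3
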