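import Pool.Agent.Lib.MP_ca3eb1_co.ConeA
import Pool.Agent.Lib.MP_ca3eb1_co.ConeB

/-! # Module W7: complements of heavy hyperplanes in tight configurations of rank 5 -/

set_option linter.unusedSectionVars false

namespace Ca3

open Finset Submodule

variable {K V E : Type*} [Field K] [Fintype K] [AddCommGroup V] [Module K V]
  [FiniteDimensional K V] [Fintype E] [DecidableEq E] {v : E → V}

theorem cone (hK : Fintype.card K = 4) (hv : Simple K v) (ht : Tight K v)
    (h5 : rk K v univ = 5) {H : Finset E} (hH : IsFl K v H) (hr : rk K v H = 4)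
    (h0 : 0 < alpha K v H) : (univ \ H).card ≤ 4 := by
  have h1 := cone_le_five hK hv ht h5 hH hr h0
  have h2 := cone_ne_five hK hv ht h5 hH hr h0
  omega

end Ca3
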