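import Pool.Agent.Lib.MP_ca3eb1_co.Basic

/-! # Module M10: holes -/

set_option linter.unusedSectionVars false

namespace Ca3

open Finset Submodule

variable {K V E : Type*} [Field K] [AddCommGroup V] [Module K V]
  [FiniteDimensional K V] [Fintype E] [DecidableEq E]

lemma span_pair_le {W : Submodule K V} {a b : V} (ha : a ∈ W) (hb : b ∈ W) :
    span K {a, b} ≤ W := by
  rw [span_le]
  rintro y (rfl | hy)
  · exact ha
  · rw [Set.mem_singleton_iff] at hy
    rw [hy]; exact hb

lemma two_le_finrank_span_pair {a b : V} (ha : a ≠ 0) (hb : b ∉ span K {a}) :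
    2 ≤ Module.finrank K (span K {a, b}) := by
  have h1 : span K {a} < span K {a, b} := by
    refine lt_of_le_of_ne (span_mono (by simp)) ?_
    intro h
    apply hb
    rw [h]
    exact subset_span (by simp)
  have h2 := finrank_lt_finrank_of_lt h1
  rw [finrank_span_singleton ha] at h2
  omega

/-- Hole lemma. -/
theorem hole_lemma {v : E → V} {x : E} (hs : SG K v {x} univ) {X1 X2 X3 : Finset E} {p : V}
    (hx1 : v x ∈ sp K v X1) (hx2 : v x ∈ sp K v X2) (hx3 : v x ∈ sp K v X3)
    (hp1 : p ∈ sp K v X1) (hp2 : p ∈ sp K v X2) (hp3 : p ∈ sp K v X3)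
    (hp : p ∉ span K {v x}) (hx0 : v x ≠ 0)
    (hr : rk K v (X1 ∪ X2 ∪ X3) + 4 = rk K v X1 + rk K v X2 + rk K v X3) :
    ∃ e, v e ∉ span K {v x} ∧ v e ∈ span K {v x, p} := by
  have hL : 2 ≤ Module.finrank K (span K {v x, p}) := two_le_finrank_span_pair hx0 hp
  set L := span K {v x, p} with hLdef
  have hS12 := sp_union (K := K) (v := v) (X := X1) (Y := X2)
  have hS13 := sp_union (K := K) (v := v) (X := X1) (Y := X3)
  have hS23 := sp_union (K := K) (v := v) (X := X2) (Y := X3)
  have hS123 := sp_union (K := K) (v := v) (X := X1 ∪ X2) (Y := X3)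
  rw [hS12] at hS123
  unfold rk at hr
  rw [hS123] at hr
  have hr1 : rk K v X1 = Module.finrank K (sp K v X1) := rfl
  have hr2 : rk K v X2 = Module.finrank K (sp K v X2) := rfl
  have hr3 : rk K v X3 = Module.finrank K (sp K v X3) := rfl
  set S1 := sp K v X1 with hS1
  set S2 := sp K v X2 with hS2
  set S3 := sp K v X3 with hS3
  have l1 : L ≤ S1 := span_pair_le hx1 hp1
  have l2 : L ≤ S2 := span_pair_le hx2 hp2
  have l3 : L ≤ S3 := span_pair_le hx3 hp3
  have i12 : Module.finrank K L ≤ Module.finrank K (S1 ⊓ S2 : Submodule K V) :=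
    finrank_mono (le_inf l1 l2)
  have i13 : Module.finrank K L ≤ Module.finrank K (S1 ⊓ S3 : Submodule K V) :=
    finrank_mono (le_inf l1 l3)
  have i23 : Module.finrank K L ≤ Module.finrank K (S2 ⊓ S3 : Submodule K V) :=
    finrank_mono (le_inf l2 l3)
  have j3 : Module.finrank K L ≤ Module.finrank K ((S1 ⊔ S2) ⊓ S3 : Submodule K V) :=
    finrank_mono (le_inf (l1.trans le_sup_left) l3)
  have j2 : Module.finrank K L ≤ Module.finrank K ((S1 ⊔ S3) ⊓ S2 : Submodule K V) :=
    finrank_mono (le_inf (l1.trans le_sup_left) l2)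
  have j1 : Module.finrank K L ≤ Module.finrank K ((S2 ⊔ S3) ⊓ S1 : Submodule K V) :=
    finrank_mono (le_inf (l2.trans le_sup_left) l1)
  have d12 := finrank_sup_add_finrank_inf_eq S1 S2
  have d13 := finrank_sup_add_finrank_inf_eq S1 S3
  have d23 := finrank_sup_add_finrank_inf_eq S2 S3
  have e3 := finrank_sup_add_finrank_inf_eq (S1 ⊔ S2) S3
  have e2 := finrank_sup_add_finrank_inf_eq (S1 ⊔ S3) S2
  have e1 := finrank_sup_add_finrank_inf_eq (S2 ⊔ S3) S1
  have p2 : S1 ⊔ S3 ⊔ S2 = S1 ⊔ S2 ⊔ S3 := sup_right_comm _ _ _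
  have p1 : S2 ⊔ S3 ⊔ S1 = S1 ⊔ S2 ⊔ S3 := by rw [sup_comm, sup_assoc]
  rw [p2] at e2
  rw [p1] at e1
  -- the intersection of the first two flats
  have q := finrank_sup_add_finrank_inf_eq (S2 ⊔ S3) (S1 ⊔ S3)
  have q1 : (S2 ⊔ S3) ⊔ (S1 ⊔ S3) = S1 ⊔ S2 ⊔ S3 := by
    rw [← sup_sup_distrib_right, sup_comm S2 S1]
  rw [q1] at q
  have q2 : S3 = (S2 ⊔ S3) ⊓ (S1 ⊔ S3) :=
    eq_of_le_of_finrank_le (le_inf le_sup_right le_sup_right) (by omega)
  have q3 : L = (S1 ⊔ S2) ⊓ S3 :=
    eq_of_le_of_finrank_le (le_inf (l1.trans le_sup_left) l3) (by omega)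
  -- flats
  have f1 : sp K v (els K v (S2 ⊔ S3)) = S2 ⊔ S3 := sp_els hS23.symm
  have f2 : sp K v (els K v (S1 ⊔ S3)) = S1 ⊔ S3 := sp_els hS13.symm
  have f3 : sp K v (els K v (S1 ⊔ S2)) = S1 ⊔ S2 := sp_els hS12.symm
  have x1 : ({x} : Finset E) ⊆ els K v (S2 ⊔ S3) :=
    singleton_subset_iff.2 (mem_els.2 (le_sup_left (a := S2) hx2))
  have x2 : ({x} : Finset E) ⊆ els K v (S1 ⊔ S3) :=
    singleton_subset_iff.2 (mem_els.2 (le_sup_left (a := S1) hx1))
  have x3 : ({x} : Finset E) ⊆ els K v (S1 ⊔ S2) :=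
    singleton_subset_iff.2 (mem_els.2 (le_sup_left (a := S1) hx1))
  have hM := M3 hs (isFl_els (W := S2 ⊔ S3)) (isFl_els (W := S1 ⊔ S3)) (isFl_els (W := S1 ⊔ S2))
    x1 x2 x3 (subset_univ _)
  have g12 : els K v (S2 ⊔ S3) ∩ els K v (S1 ⊔ S3) = els K v S3 := by
    ext e
    rw [mem_inter, mem_els, mem_els, mem_els, ← Submodule.mem_inf, ← q2]
  have g123 : els K v (S2 ⊔ S3) ∩ els K v (S1 ⊔ S3) ∩ els K v (S1 ⊔ S2) = els K v L := by
    rw [g12]
    ext e
    rw [mem_inter, mem_els, mem_els, mem_els, ← Submodule.mem_inf, q3, inf_comm]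
  have g13 : els K v S2 ⊆ els K v (S2 ⊔ S3) ∩ els K v (S1 ⊔ S2) := by
    intro e he
    rw [mem_els] at he
    rw [mem_inter, mem_els, mem_els]
    exact ⟨le_sup_left (a := S2) he, le_sup_right (b := S2) he⟩
  have g23 : els K v S1 ⊆ els K v (S1 ⊔ S3) ∩ els K v (S1 ⊔ S2) := by
    intro e he
    rw [mem_els] at he
    rw [mem_inter, mem_els, mem_els]
    exact ⟨le_sup_left (a := S1) he, le_sup_left (a := S1) he⟩
  have r1 : rk K v (els K v (S2 ⊔ S3)) = Module.finrank K (S2 ⊔ S3 : Submodule K V) := by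
    unfold rk; rw [f1]
  have r2 : rk K v (els K v (S1 ⊔ S3)) = Module.finrank K (S1 ⊔ S3 : Submodule K V) := by
    unfold rk; rw [f2]
  have r3 : rk K v (els K v (S1 ⊔ S2)) = Module.finrank K (S1 ⊔ S2 : Submodule K V) := by
    unfold rk; rw [f3]
  have rU : rk K v (els K v (S2 ⊔ S3) ∪ els K v (S1 ⊔ S3) ∪ els K v (S1 ⊔ S2)) =
      Module.finrank K (S1 ⊔ S2 ⊔ S3 : Submodule K V) := by
    unfold rk
    have hle : S1 ⊔ S2 ⊔ S3 ⊔ (S1 ⊔ S2) = S1 ⊔ S2 ⊔ S3 := sup_eq_left.2 le_sup_left
    rw [sp_union, sp_union, f1, f2, f3, q1, hle]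
  have rS1 : rk K v (els K v S1) = rk K v X1 := by
    unfold rk; rw [sp_els hS1]
  have rS2 : rk K v (els K v S2) = rk K v X2 := by
    unfold rk; rw [sp_els hS2]
  have rS3 : rk K v (els K v S3) = rk K v X3 := by
    unfold rk; rw [sp_els hS3]
  have m13 := rk_mono (K := K) (v := v) g13
  have m23 := rk_mono (K := K) (v := v) g23
  rw [g123, g12, r1, r2, r3, rU, rS3] at hM
  rw [rS2] at m13
  rw [rS1] at m23
  have hrL : 2 ≤ rk K v (els K v L) := by omega
  by_contra hc
  push_neg at hc
  have hle : sp K v (els K v L) ≤ span K {v x} := by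
    rw [sp_le_iff]
    intro e he
    by_contra h'
    exact hc e h' (mem_els.1 he)
  have := finrank_mono hle
  rw [finrank_span_singleton hx0] at this
  unfold rk at hrL
  omega

/-- `x` is good: a second element on the line through `x` and `p`. -/
def Good (K : Type*) {V E : Type*} [Field K] [AddCommGroup V] [Module K V] (v : E → V) (p : V)
    (x : E) : Prop := ∃ e, e ≠ x ∧ v e ∈ span K {v x, p}

lemma good_of {v : E → V} {p : V} {x : E}
    (h : ∃ e, v e ∉ span K {v x} ∧ v e ∈ span K {v x, p}) : Good K v p x := by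
  obtain ⟨e, h1, h2⟩ := h
  refine ⟨e, ?_, h2⟩
  rintro rfl
  exact h1 (mem_span_singleton_self _)

lemma good_outside {v : E → V} (hv : Simple K v) (hs : ∀ x, SG K v {x} univ)
    {X1 X2 X3 : Finset E} {p : V} (hp : ∀ e, p ∉ span K {v e})
    (hp1 : p ∈ sp K v X1) (hp2 : p ∈ sp K v X2) (hp3 : p ∈ sp K v X3)
    (hr : rk K v (X1 ∪ X2 ∪ X3) + 2 = rk K v X1 + rk K v X2 + rk K v X3) {x : E}
    (hx : v x ∉ sp K v (X1 ∪ X2 ∪ X3)) : Good K v p x := by
  have n1 : v x ∉ sp K v X1 := fun h => hx (sp_mono (by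
    intro e he; simp [he]) h)
  have n2 : v x ∉ sp K v X2 := fun h => hx (sp_mono (by
    intro e he; simp [he]) h)
  have n3 : v x ∉ sp K v X3 := fun h => hx (sp_mono (by
    intro e he; simp [he]) h)
  apply good_of
  apply hole_lemma (hs x) (X1 := insert x X1) (X2 := insert x X2) (X3 := insert x X3)
    (mem_sp (mem_insert_self _ _)) (mem_sp (mem_insert_self _ _)) (mem_sp (mem_insert_self _ _))
    (sp_mono (subset_insert _ _) hp1) (sp_mono (subset_insert _ _) hp2)
    (sp_mono (subset_insert _ _) hp3) (hp x) (hv.1 x)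
  have hU : insert x X1 ∪ insert x X2 ∪ insert x X3 = insert x (X1 ∪ X2 ∪ X3) := by
    ext e; simp only [mem_union, mem_insert]; tauto
  rw [hU, rk_insert_of_not_mem_sp hx, rk_insert_of_not_mem_sp n1, rk_insert_of_not_mem_sp n2,
    rk_insert_of_not_mem_sp n3]
  omega

lemma good_inside {v : E → V} (hv : Simple K v) (hs : ∀ x, SG K v {x} univ)
    {X1 X2 X3 : Finset E} {p : V} (hp : ∀ e, p ∉ span K {v e})
    (hp1 : p ∈ sp K v X1) (hp2 : p ∈ sp K v X2) (hp3 : p ∈ sp K v X3)
    (hr : rk K v (X1 ∪ X2 ∪ X3) + 2 = rk K v X1 + rk K v X2 + rk K v X3) {x : E}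
    (hx : v x ∈ sp K v X1) : Good K v p x := by
  have hp0 : p ≠ 0 := fun h => hp x (h ▸ zero_mem _)
  have hone : Module.finrank K (span K {p}) = 1 := finrank_span_singleton hp0
  have hS12 := sp_union (K := K) (v := v) (X := X1) (Y := X2)
  have hS13 := sp_union (K := K) (v := v) (X := X1) (Y := X3)
  have hS123 := sp_union (K := K) (v := v) (X := X1 ∪ X2) (Y := X3)
  rw [hS12] at hS123
  have hr' := hr
  unfold rk at hr'
  rw [hS123] at hr'
  have le1 : span K {p} ≤ sp K v X1 := by
    rw [span_singleton_le_iff_mem]; exact hp1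
  have le2 : span K {p} ≤ sp K v X2 := by
    rw [span_singleton_le_iff_mem]; exact hp2
  have le3 : span K {p} ≤ sp K v X3 := by
    rw [span_singleton_le_iff_mem]; exact hp3
  have d12 := finrank_sup_add_finrank_inf_eq (sp K v X1) (sp K v X2)
  have d13 := finrank_sup_add_finrank_inf_eq (sp K v X1) (sp K v X3)
  have e3 := finrank_sup_add_finrank_inf_eq (sp K v X1 ⊔ sp K v X2) (sp K v X3)
  have e2 := finrank_sup_add_finrank_inf_eq (sp K v X1 ⊔ sp K v X3) (sp K v X2)
  have p2 : sp K v X1 ⊔ sp K v X3 ⊔ sp K v X2 = sp K v X1 ⊔ sp K v X2 ⊔ sp K v X3 :=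
    sup_right_comm _ _ _
  rw [p2] at e2
  have i12 := finrank_mono (le_inf le1 le2)
  have i13 := finrank_mono (le_inf le1 le3)
  have j3 := finrank_mono (le_inf (le1.trans (le_sup_left (b := sp K v X2))) le3)
  have j2 := finrank_mono (le_inf (le1.trans (le_sup_left (b := sp K v X3))) le2)
  rw [hone] at i12 i13 j3 j2
  have q12 : span K {p} = sp K v X1 ⊓ sp K v X2 :=
    eq_of_le_of_finrank_le (le_inf le1 le2) (by omega)
  have q13 : span K {p} = sp K v X1 ⊓ sp K v X3 :=
    eq_of_le_of_finrank_le (le_inf le1 le3) (by omega)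
  have hxp : v x ∉ span K {p} := by
    intro h
    obtain ⟨c, hc⟩ := mem_span_singleton.1 h
    have hc0 : c ≠ 0 := by
      rintro rfl
      rw [zero_smul] at hc
      exact hv.1 x hc.symm
    apply hp x
    rw [mem_span_singleton]
    refine ⟨c⁻¹, ?_⟩
    rw [← hc, smul_smul, inv_mul_cancel₀ hc0, one_smul]
  have n2 : v x ∉ sp K v X2 := fun h => hxp (by rw [q12]; exact ⟨hx, h⟩)
  have n3 : v x ∉ sp K v X3 := fun h => hxp (by rw [q13]; exact ⟨hx, h⟩)
  apply good_of
  apply hole_lemma (hs x) (X1 := X1) (X2 := insert x X2) (X3 := insert x X3)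
    hx (mem_sp (mem_insert_self _ _)) (mem_sp (mem_insert_self _ _))
    hp1 (sp_mono (subset_insert _ _) hp2)
    (sp_mono (subset_insert _ _) hp3) (hp x) (hv.1 x)
  have hU : X1 ∪ insert x X2 ∪ insert x X3 = insert x (X1 ∪ X2 ∪ X3) := by
    ext e; simp only [mem_union, mem_insert]; tauto
  have hxU : v x ∈ sp K v (X1 ∪ X2 ∪ X3) :=
    sp_mono (by intro e he; simp [he]) hx
  rw [hU, rk_insert_of_mem_sp hxU, rk_insert_of_not_mem_sp n2, rk_insert_of_not_mem_sp n3]
  omega

/-- the family with the extra vector `p` -/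
def vo (v : E → V) (p : V) : Option E → V := fun o => o.elim p v

omit [FiniteDimensional K V] [Fintype E] [DecidableEq E] in
lemma sp_vo (v : E → V) (p : V) (X : Finset E) :
    sp K (vo v p) (X.map Function.Embedding.some) = sp K v X := by
  unfold sp
  congr 1
  ext y
  simp [vo]

/-- Hole theorem. -/
theorem hole {v : E → V} (hv : Simple K v) (hs : ∀ x, SG K v {x} univ)
    (h5 : 5 ≤ rk K v univ) {X1 X2 X3 : Finset E} {p : V} (hp : ∀ e, p ∉ span K {v e})
    (hp1 : p ∈ sp K v X1) (hp2 : p ∈ sp K v X2) (hp3 : p ∈ sp K v X3)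
    (hr : rk K v (X1 ∪ X2 ∪ X3) + 2 = rk K v X1 + rk K v X2 + rk K v X3) :
    ∀ x, ∃ e, e ≠ x ∧ v e ∈ span K {v x, p} := by
  classical
  intro x
  change Good K v p x
  have hp0 : p ≠ 0 := fun h => hp x (h ▸ zero_mem _)
  -- all elements of the three spans are good
  have hin1 : ∀ y, v y ∈ sp K v X1 → Good K v p y := fun y hy =>
    good_inside hv hs hp hp1 hp2 hp3 hr hy
  have hin2 : ∀ y, v y ∈ sp K v X2 → Good K v p y := fun y hy =>
    good_inside hv hs hp hp2 hp1 hp3 (by
      rw [union_comm X2 X1]; omega) hy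
  have hin3 : ∀ y, v y ∈ sp K v X3 → Good K v p y := fun y hy =>
    good_inside hv hs hp hp3 hp1 hp2 (by
      rw [union_assoc, union_comm X3]; omega) hy
  -- the set of good elements
  set G : Finset E := univ.filter (fun e => Good K v p e) with hG
  have hGm : ∀ e, e ∈ G ↔ Good K v p e := fun e => by simp [hG]
  set w := vo v p with hw
  set XG : Finset (Option E) := insert none (G.map Function.Embedding.some) with hXG
  have hnone : w none = p := rfl
  have hsome : ∀ e, w (some e) = v e := fun e => rfl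
  have hspG : sp K v G ≤ sp K w XG := by
    rw [← sp_vo v p G]
    exact sp_mono (subset_insert _ _)
  have hall : ∀ e, v e ∈ sp K w XG := by
    intro e
    by_cases he : Good K v p e
    · exact hspG (mem_sp ((hGm e).2 he))
    · have hmem : v e ∈ sp K v (X1 ∪ X2 ∪ X3) := by
        by_contra h
        exact he (good_outside hv hs hp hp1 hp2 hp3 hr h)
      have hsub : X1 ∪ X2 ∪ X3 ⊆ G := by
        intro y hy
        rw [hGm]
        rcases mem_union.1 hy with hy | hy
        · rcases mem_union.1 hy with hy | hy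
          · exact hin1 y (mem_sp hy)
          · exact hin2 y (mem_sp hy)
        · exact hin3 y (mem_sp hy)
      exact hspG (sp_mono hsub hmem)
  have hrk : 5 ≤ rk K w XG := by
    refine h5.trans ?_
    apply finrank_mono
    rw [sp_le_iff]
    intro e _
    exact hall e
  have hI0 : Ind K w {none} := by
    unfold Ind rk
    rw [sp_singleton, hnone, finrank_span_singleton hp0, card_singleton]
  obtain ⟨B, hB1, hB2, hBi, hBs⟩ := exists_basis_extend hI0
    (X := XG) (by rw [hXG]; simp)
  have hBn : none ∈ B := hB1 (mem_singleton_self _)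
  have hBc : 5 ≤ B.card := by
    rw [← hBi.rk_eq_card, rk_congr hBs]; exact hrk
  have hxB : w (some x) ∈ sp K w B := by
    rw [hBs]; exact hall x
  -- minimal subset spanning x
  obtain ⟨C, hC, hCmin⟩ := (B.powerset.filter
    (fun C => none ∈ C ∧ w (some x) ∈ sp K w C)).exists_min_image card
    ⟨B, by simp only [mem_filter, mem_powerset]; exact ⟨subset_rfl, hBn, hxB⟩⟩
  simp only [mem_filter, mem_powerset, and_imp] at hC hCmin
  obtain ⟨hCB, hCn, hCx⟩ := hC
  have hxp : w (some x) ∉ sp K w ({none} : Finset (Option E)) := by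
    rw [sp_singleton, hnone, hsome]
    intro h
    obtain ⟨c, hc⟩ := mem_span_singleton.1 h
    have hc0 : c ≠ 0 := by
      rintro rfl
      rw [zero_smul] at hc
      exact hv.1 x hc.symm
    apply hp x
    rw [mem_span_singleton]
    refine ⟨c⁻¹, ?_⟩
    rw [← hc, smul_smul, inv_mul_cancel₀ hc0, one_smul]
  have hs' : ∃ s ∈ C, s ≠ none := by
    by_contra hc
    push_neg at hc
    apply hxp
    exact sp_mono (by intro y hy; rw [mem_singleton]; exact hc y hy) hCx
  obtain ⟨s, hsC, hsn⟩ := hs'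
  have hnC : w (some x) ∉ sp K w (C.erase s) := by
    intro h
    have h1 := hCmin (C.erase s) ((erase_subset _ _).trans hCB)
      (mem_erase.2 ⟨hsn.symm, hCn⟩) h
    rw [card_erase_of_mem hsC] at h1
    have : 0 < C.card := card_pos.2 ⟨s, hsC⟩
    omega
  have hnB : w (some x) ∉ sp K w (B.erase s) := by
    intro h
    have h1 : w s ∈ sp K w (insert (some x) (C.erase s)) := by
      apply mem_sp_insert_exchange _ hnC
      rw [insert_erase hsC]; exact hCx
    have h2 : sp K w (insert (some x) (C.erase s)) ≤ sp K w (B.erase s) := by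
      rw [sp_le_iff]
      intro y hy
      rcases mem_insert.1 hy with rfl | hy
      · exact h
      · exact mem_sp (erase_subset_erase _ hCB hy)
    exact hBi.not_mem_sp_erase (hCB hsC) (h2 h1)
  -- three other members
  have hcard : 3 ≤ ((B.erase s).erase none).card := by
    rw [card_erase_of_mem (mem_erase.2 ⟨hsn.symm, hBn⟩), card_erase_of_mem (hCB hsC)]
    omega
  obtain ⟨T, hT, hTc⟩ := exists_subset_card_eq hcard
  obtain ⟨a, b, c, hab, hac, hbc, rfl⟩ := card_eq_three.1 hTc
  have key : ∀ o ∈ ({a, b, c} : Finset (Option E)), ∃ g e : E, o = some g ∧ e ≠ g ∧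
      v e ∈ span K {v g, p} := by
    intro o ho
    have h1 := hT ho
    rw [mem_erase, mem_erase] at h1
    have h2 := hB2 h1.2.2
    rw [hXG, mem_insert] at h2
    rcases h2 with h2 | h2
    · exact absurd h2 h1.1
    · rw [mem_map] at h2
      obtain ⟨g, hg, rfl⟩ := h2
      obtain ⟨e, he1, he2⟩ := (hGm g).1 hg
      exact ⟨g, e, rfl, he1, he2⟩
  have line : ∀ g e : E, e ≠ g → v e ∈ span K {v g, p} → sp K v {g, e} = span K {v g, p} := by
    intro g e hne he
    apply eq_of_le_of_finrank_le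
    · rw [sp_pair]
      exact span_pair_le (subset_span (by simp)) he
    · have h1 : rk K v {g, e} = 2 := hv.rk_pair (Ne.symm hne)
      unfold rk at h1
      rw [h1]
      have h2 : Module.finrank K (span K {v g, p}) ≤ 2 := by
        have := finrank_span_le_card (R := K) ({v g, p} : Set V)
        refine this.trans ?_
        rw [Set.toFinset_insert, Set.toFinset_singleton]
        exact card_le_two
      exact h2
  obtain ⟨g1, e1, rfl, hne1, hl1⟩ := key a (by simp)
  obtain ⟨g2, e2, rfl, hne2, hl2⟩ := key b (by simp)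
  obtain ⟨g3, e3, rfl, hne3, hl3⟩ := key c (by simp)
  have L1 := line g1 e1 hne1 hl1
  have L2 := line g2 e2 hne2 hl2
  have L3 := line g3 e3 hne3 hl3
  have hpm : ∀ g : E, p ∈ span K {v g, p} := fun g => subset_span (by simp)
  have hgm : ∀ g : E, v g ∈ span K {v g, p} := fun g => subset_span (by simp)
  -- the span of the union
  have hUs : sp K v ({g1, e1} ∪ {g2, e2} ∪ {g3, e3}) =
      sp K w {none, some g1, some g2, some g3} := by
    rw [sp_union, sp_union, L1, L2, L3]
    apply le_antisymm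
    · apply sup_le
      · apply sup_le
        · exact span_pair_le (mem_sp (v := w) (e := some g1) (by simp))
            (mem_sp (v := w) (e := none) (by simp))
        · exact span_pair_le (mem_sp (v := w) (e := some g2) (by simp))
            (mem_sp (v := w) (e := none) (by simp))
      · exact span_pair_le (mem_sp (v := w) (e := some g3) (by simp))
          (mem_sp (v := w) (e := none) (by simp))
    · rw [sp_le_iff]
      intro o ho
      simp only [mem_insert, mem_singleton] at ho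
      rcases ho with rfl | rfl | rfl | rfl
      · exact le_sup_right (a := span K {v g1, p} ⊔ span K {v g2, p}) (hpm g3)
      · exact le_sup_left (b := span K {v g3, p})
          (le_sup_left (b := span K {v g2, p}) (hgm g1))
      · exact le_sup_left (b := span K {v g3, p})
          (le_sup_right (a := span K {v g1, p}) (hgm g2))
      · exact le_sup_right (a := span K {v g1, p} ⊔ span K {v g2, p}) (hgm g3)
  have hsub : ({none, some g1, some g2, some g3} : Finset (Option E)) ⊆ B.erase s := by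
    intro o ho
    rw [mem_insert] at ho
    rcases ho with rfl | ho
    · exact mem_erase.2 ⟨hsn.symm, hBn⟩
    · exact mem_of_mem_erase (hT ho)
  have hUr : rk K v ({g1, e1} ∪ {g2, e2} ∪ {g3, e3}) = 4 := by
    have h1 : Ind K w {none, some g1, some g2, some g3} :=
      hBi.subset (hsub.trans (erase_subset _ _))
    have h2 := h1.rk_eq_card
    unfold rk at h2 ⊢
    rw [hUs, h2]
    have hg12 : g1 ≠ g2 := fun h => hab (by rw [h])
    have hg13 : g1 ≠ g3 := fun h => hac (by rw [h])
    have hg23 : g2 ≠ g3 := fun h => hbc (by rw [h])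
    rw [card_insert_of_notMem, card_insert_of_notMem, card_insert_of_notMem, card_singleton]
    · simp [hg23]
    · simp [hg12, hg13]
    · simp
  apply good_outside hv hs hp (X1 := {g1, e1}) (X2 := {g2, e2}) (X3 := {g3, e3})
  · rw [L1]; exact hpm g1
  · rw [L2]; exact hpm g2
  · rw [L3]; exact hpm g3
  · rw [hUr, hv.rk_pair hne1.symm, hv.rk_pair hne2.symm, hv.rk_pair hne3.symm]
  · rw [hUs]
    intro h
    exact hnB (sp_mono hsub h)

end Ca3
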