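import Pool.Agent.Lib.MP_ca3eb1_co.Ring

/-! # Module M11c: rank of sets of legs and the excess rule -/

set_option linter.unusedSectionVars false

namespace Ca3

open Finset Submodule

variable {K V E : Type*} [Field K] [AddCommGroup V] [Module K V]
  [FiniteDimensional K V] [Fintype E] [DecidableEq E] {n : ℕ}

private lemma rr_finrank_le (q : Fin n → V) (p : V) (S : Finset (Fin n)) :
    Module.finrank K (span K (insert p (q '' (S : Set (Fin n))))) ≤ S.card + 1 := by
  classical
  have h := finrank_span_finset_le_card (R := K) (insert p (S.image q))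
  have h2 : ((insert p (S.image q) : Finset V) : Set V) = insert p (q '' (S : Set (Fin n))) := by
    simp
  rw [h2] at h
  refine h.trans ((card_insert_le _ _).trans ?_)
  have := card_image_le (s := S) (f := q)
  omega

private lemma rr_finrank_union (q : Fin n → V) (p : V) (S T : Finset (Fin n)) :
    Module.finrank K (span K (insert p (q '' ((S ∪ T : Finset (Fin n)) : Set (Fin n))))) ≤
      Module.finrank K (span K (insert p (q '' (S : Set (Fin n))))) + T.card := by
  classical
  have h1 : span K (insert p (q '' ((S ∪ T : Finset (Fin n)) : Set (Fin n)))) =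
      span K (insert p (q '' (S : Set (Fin n)))) ⊔ span K (q '' (T : Set (Fin n))) := by
    rw [← span_union, coe_union, Set.image_union, Set.insert_union]
  rw [h1]
  refine (Submodule.finrank_add_le_finrank_add_finrank _ _).trans ?_
  have h2 : Module.finrank K (span K (q '' (T : Set (Fin n)))) ≤ T.card := by
    have h := finrank_span_finset_le_card (R := K) (T.image q)
    rw [coe_image] at h
    exact h.trans card_image_le
  omega

private lemma rr_sum_mem (q : Fin n → V) (p : V) (a : Fin n → K) (b : K)
    (B X : Finset (Fin n)) (h : ∀ u ∈ B, a u ≠ 0 → u ∈ X) :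
    ∑ u ∈ B, a u • q u + b • p ∈ span K (insert p (q '' (X : Set (Fin n)))) := by
  refine add_mem (sum_mem fun u hu => ?_) (smul_mem _ _ (subset_span (Set.mem_insert _ _)))
  by_cases ha : a u = 0
  · rw [ha, zero_smul]; exact zero_mem _
  · exact smul_mem _ _ (subset_span (Set.mem_insert_of_mem _ ⟨u, by simpa using h u hu ha, rfl⟩))

/-- The rank of a set of legs together with `p`. -/
theorem leg_rank {q : Fin n → V} {p : V} {B : Finset (Fin n)}
    (hB : Module.finrank K (span K (insert p (q '' (B : Set (Fin n))))) = B.card + 1)
    {a : Fin n → Fin n → K} {b : Fin n → K} {C : Finset (Finset (Fin n))}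
    (ha : ∀ h, h ∉ B → q h = ∑ u ∈ B, a h u • q u + b h • p)
    (hne : ∀ h, h ∉ B → ∃ u ∈ B, a h u ≠ 0)
    (hdisj : ∀ h, h ∉ B → ∀ h', h' ∉ B → h ≠ h' → ∀ u ∈ B, a h u = 0 ∨ a h' u = 0)
    (hC : ∀ c, c ∈ C ↔ ∃ h, h ∉ B ∧ ∀ u, u ∈ c ↔ u = h ∨ (u ∈ B ∧ a h u ≠ 0))
    (S : Finset (Fin n)) :
    Module.finrank K (span K (insert p (q '' (S : Set (Fin n))))) +
      (C.filter (fun c => c ⊆ S)).card = S.card + 1 := by
  classical
  set supp : Fin n → Finset (Fin n) := fun h => B.filter (fun u => a h u ≠ 0) with hsupp
  set H1 : Finset (Fin n) := (S \ B).filter (fun h => supp h ⊆ S) with hH1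
  set H2 : Finset (Fin n) := (S \ B).filter (fun h => ¬ supp h ⊆ S) with hH2
  have hcard : (S ∩ B).card + (H1.card + H2.card) = S.card := by
    rw [hH1, hH2, card_filter_add_card_filter_not, card_inter_add_card_sdiff]
  -- the number of circuits
  have hcirc : (C.filter (fun c => c ⊆ S)).card = H1.card := by
    symm
    apply card_bij (fun h _ => insert h (supp h))
    · intro h hh
      simp only [hH1, mem_filter, mem_sdiff] at hh
      rw [mem_filter, hC]
      refine ⟨⟨h, hh.1.2, fun u => ?_⟩, insert_subset hh.1.1 hh.2⟩
      simp only [mem_insert, hsupp, mem_filter]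
    · intro h hh h' hh' he
      simp only [hH1, mem_filter, mem_sdiff] at hh hh'
      have : h ∈ insert h' (supp h') := by rw [← he]; exact mem_insert_self _ _
      rcases mem_insert.1 this with h1 | h1
      · exact h1
      · exact absurd (mem_filter.1 h1).1 hh.1.2
    · intro c hc
      rw [mem_filter, hC] at hc
      obtain ⟨⟨h, hhB, hu⟩, hcS⟩ := hc
      have hc' : c = insert h (supp h) := by
        ext u
        rw [hu]
        simp only [mem_insert, hsupp, mem_filter]
      subst hc'
      refine ⟨h, ?_, rfl⟩
      simp only [hH1, mem_filter, mem_sdiff]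
      exact ⟨⟨hcS (mem_insert_self _ _), hhB⟩, (subset_insert _ _).trans hcS⟩
  -- upper bound
  have hup : Module.finrank K (span K (insert p (q '' (S : Set (Fin n))))) ≤
      (S ∩ B).card + H2.card + 1 := by
    have h1 : span K (insert p (q '' (S : Set (Fin n)))) ≤
        span K (insert p (q '' (((S ∩ B) ∪ H2 : Finset (Fin n)) : Set (Fin n)))) := by
      rw [span_le]
      rintro x (rfl | ⟨u, hu, rfl⟩)
      · exact subset_span (Set.mem_insert _ _)
      · have hu : u ∈ S := by simpa using hu
        by_cases huB : u ∈ B
        · exact subset_span (Set.mem_insert_of_mem _ ⟨u, by simp [hu, huB], rfl⟩)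
        by_cases hs : supp u ⊆ S
        · change q u ∈ _
          rw [ha u huB]
          apply rr_sum_mem
          intro w hw haw
          have : w ∈ supp u := by simp only [hsupp, mem_filter]; exact ⟨hw, haw⟩
          exact mem_union_left _ (mem_inter.2 ⟨hs this, hw⟩)
        · refine subset_span (Set.mem_insert_of_mem _ ⟨u, ?_, rfl⟩)
          rw [mem_coe]
          exact mem_union_right _ (mem_filter.2 ⟨mem_sdiff.2 ⟨hu, huB⟩, hs⟩)
    refine (finrank_mono h1).trans ((rr_finrank_le q p _).trans ?_)
    have := card_union_le (S ∩ B) H2
    omega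
  -- lower bound
  have hlow : (S ∩ B).card + H2.card + 1 ≤
      Module.finrank K (span K (insert p (q '' (S : Set (Fin n))))) := by
    have hex : ∀ h : Fin n, h ∈ H2 → ∃ w, w ∈ B ∧ a h w ≠ 0 ∧ w ∉ S := by
      intro h hh
      simp only [hH2, mem_filter, mem_sdiff] at hh
      obtain ⟨w, hw, hwS⟩ := not_subset.1 hh.2
      simp only [hsupp, mem_filter] at hw
      exact ⟨w, hw.1, hw.2, hwS⟩
    choose! w hwB hwa hwS using hex
    have hH2B : ∀ h ∈ H2, h ∉ B := by
      intro h hh
      simp only [hH2, mem_filter, mem_sdiff] at hh
      exact hh.1.2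
    have hH2S : ∀ h ∈ H2, h ∈ S := by
      intro h hh
      simp only [hH2, mem_filter, mem_sdiff] at hh
      exact hh.1.1
    have hinj : Set.InjOn w (H2 : Set (Fin n)) := by
      intro h hh h' hh' he
      by_contra hne'
      have hh : h ∈ H2 := by simpa using hh
      have hh' : h' ∈ H2 := by simpa using hh'
      rcases hdisj h (hH2B h hh) h' (hH2B h' hh') hne' (w h) (hwB h hh) with h0 | h0
      · exact hwa h hh h0
      · rw [he] at h0
        exact hwa h' hh' h0
    have himg : (H2.image w).card = H2.card := card_image_of_injOn hinj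
    have hsub : H2.image w ⊆ B \ S := by
      intro x hx
      obtain ⟨h, hh, rfl⟩ := mem_image.1 hx
      exact mem_sdiff.2 ⟨hwB h hh, hwS h hh⟩
    set T : Finset (Fin n) := (B \ S) \ H2.image w with hT
    have hTc : T.card + H2.card + (S ∩ B).card = B.card := by
      have h1 := card_sdiff_add_card_eq_card hsub
      have h2 := card_inter_add_card_sdiff B S
      rw [himg, ← hT] at h1
      rw [inter_comm] at h2
      omega
    have hle : span K (insert p (q '' (B : Set (Fin n)))) ≤
        span K (insert p (q '' ((S ∪ T : Finset (Fin n)) : Set (Fin n)))) := by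
      rw [span_le]
      rintro x (rfl | ⟨u, hu, rfl⟩)
      · exact subset_span (Set.mem_insert _ _)
      · have hu : u ∈ B := by simpa using hu
        by_cases huS : u ∈ S
        · exact subset_span (Set.mem_insert_of_mem _ ⟨u, by simp [huS], rfl⟩)
        by_cases huW : u ∈ H2.image w
        · obtain ⟨h, hh, rfl⟩ := mem_image.1 huW
          have hqh := ha h (hH2B h hh)
          rw [← add_sum_erase B (fun u => a h u • q u) (hwB h hh)] at hqh
          have hmem : q h ∈ span K (insert p (q '' ((S ∪ T : Finset (Fin n)) : Set (Fin n)))) :=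
            subset_span (Set.mem_insert_of_mem _ ⟨h, by simp [hH2S h hh], rfl⟩)
          have hmem2 : ∑ u ∈ B.erase (w h), a h u • q u + b h • p ∈
              span K (insert p (q '' ((S ∪ T : Finset (Fin n)) : Set (Fin n)))) := by
            apply rr_sum_mem
            intro x hx hax
            rw [mem_erase] at hx
            by_cases hxS : x ∈ S
            · exact mem_union_left _ hxS
            · refine mem_union_right _ ?_
              rw [hT, mem_sdiff, mem_sdiff]
              refine ⟨⟨hx.2, hxS⟩, fun hxi => ?_⟩
              obtain ⟨h', hh', rfl⟩ := mem_image.1 hxi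
              have hne' : h ≠ h' := by
                rintro rfl
                exact hx.1 rfl
              rcases hdisj h (hH2B h hh) h' (hH2B h' hh') hne' (w h') (hwB h' hh') with h0 | h0
              · exact hax h0
              · exact hwa h' hh' h0
          have e1 : q (w h) = (a h (w h))⁻¹ • (q h - (∑ u ∈ B.erase (w h), a h u • q u + b h • p)) := by
            rw [hqh]
            rw [show a h (w h) • q (w h) + ∑ x ∈ B.erase (w h), a h x • q x + b h • p -
              (∑ x ∈ B.erase (w h), a h x • q x + b h • p) = a h (w h) • q (w h) by abel]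
            rw [smul_smul, inv_mul_cancel₀ (hwa h hh), one_smul]
          change q (w h) ∈ _
          rw [e1]
          exact smul_mem _ _ (sub_mem hmem hmem2)
        · refine subset_span (Set.mem_insert_of_mem _ ⟨u, ?_, rfl⟩)
          rw [mem_coe]
          refine mem_union_right _ ?_
          rw [hT, mem_sdiff, mem_sdiff]
          exact ⟨⟨hu, huS⟩, huW⟩
    have h3 := (finrank_mono hle).trans (rr_finrank_union (K := K) q p S T)
    rw [hB] at h3
    omega
  omega

/-- The excess rule. -/
theorem ring_rule {v : E → V} {p : V} {leg : E → Fin n} {C : Finset (Finset (Fin n))}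
    {q : Fin n → V}
    (h1 : ∀ S : Finset (Fin n), Module.finrank K (span K (insert p (q '' (S : Set (Fin n))))) +
      (C.filter (fun c => c ⊆ S)).card = S.card + 1)
    (h2 : ∀ e f, e ≠ f → leg e = leg f → p ∈ span K {v e, v f})
    (h3 : ∀ c ∈ C, ∀ z : Fin n → E, (∀ u ∈ c, leg (z u) = u) →
      p ∈ span K ((fun u => v (z u)) '' (c : Set (Fin n))))
    (h4 : ∀ e, v e ∈ span K {q (leg e), p}) (h5 : ∀ e, q (leg e) ∈ span K {v e, p})
    (I : Finset E) : Ind K v I ↔ ExcLe leg C I := by
  classical
  have hS := h1 (I.image leg)
  set S := I.image leg with hSdef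
  have hSI : S.card ≤ I.card := card_image_le
  -- the span with p
  have hspan : span K (insert p (q '' (S : Set (Fin n)))) = span K {p} ⊔ sp K v I := by
    apply le_antisymm
    · rw [span_le]
      rintro x (rfl | ⟨u, hu, rfl⟩)
      · exact mem_sup_left (mem_span_singleton_self _)
      · have hu : u ∈ S := by simpa using hu
        obtain ⟨e, he, rfl⟩ := mem_image.1 hu
        have := h5 e
        have hle : span K {v e, p} ≤ span K {p} ⊔ sp K v I := by
          rw [span_le]
          rintro x (rfl | rfl)
          · exact mem_sup_right (mem_sp he)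
          · exact mem_sup_left (mem_span_singleton_self _)
        exact hle this
    · apply sup_le
      · rw [span_le, Set.singleton_subset_iff]
        exact subset_span (Set.mem_insert _ _)
      · rw [sp_le_iff]
        intro e he
        have hle : span K {q (leg e), p} ≤ span K (insert p (q '' (S : Set (Fin n)))) := by
          rw [span_le]
          rintro x (rfl | rfl)
          · refine subset_span (Set.mem_insert_of_mem _ ⟨leg e, ?_, rfl⟩)
            rw [mem_coe]
            exact mem_image_of_mem _ he
          · exact subset_span (Set.mem_insert _ _)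
        exact hle (h4 e)
  rw [hspan] at hS
  have hrk : rk K v I ≤ I.card := rk_le_card
  unfold ExcLe
  by_cases hp : p ∈ sp K v I
  · have e1 : span K {p} ⊔ sp K v I = sp K v I := by
      rw [sup_eq_right, span_le, Set.singleton_subset_iff]
      exact hp
    rw [e1] at hS
    change rk K v I + _ = _ at hS
    unfold Ind
    rw [← hSdef]
    omega
  · -- p not in the span
    have hinj : Set.InjOn leg (I : Set E) := by
      intro e he f hf hef
      by_contra hne
      have he : e ∈ I := by simpa using he
      have hf : f ∈ I := by simpa using hf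
      apply hp
      have hle : span K {v e, v f} ≤ sp K v I := by
        rw [span_le]
        rintro x (rfl | rfl)
        · exact mem_sp he
        · exact mem_sp hf
      exact hle (h2 e f hne hef)
    have hcI : S.card = I.card := card_image_of_injOn hinj
    have hN : (C.filter (fun c => c ⊆ S)).card = 0 := by
      by_contra hN
      obtain ⟨c, hc⟩ := card_pos.1 (Nat.pos_of_ne_zero hN)
      rw [mem_filter] at hc
      rcases I.eq_empty_or_nonempty with hI | ⟨e0, he0⟩
      · -- then p = 0
        have hS0 : S = ∅ := by rw [hSdef, hI]; simp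
        have hpos : 0 < (C.filter (fun c => c ⊆ S)).card := Nat.pos_of_ne_zero hN
        rw [hS0, card_empty] at hS
        rw [hS0] at hpos
        have hz : Module.finrank K (↥(span K {p} ⊔ sp K v I)) = 0 := by omega
        rw [Submodule.finrank_eq_zero] at hz
        have : p ∈ span K {p} ⊔ sp K v I := mem_sup_left (mem_span_singleton_self _)
        rw [hz, Submodule.mem_bot] at this
        apply hp
        rw [this]
        exact zero_mem _
      · have hz : ∀ u : Fin n, ∃ e, u ∈ S → (e ∈ I ∧ leg e = u) := by
          intro u
          by_cases hu : u ∈ S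
          · obtain ⟨e, he, rfl⟩ := mem_image.1 hu
            exact ⟨e, fun _ => ⟨he, rfl⟩⟩
          · exact ⟨e0, fun h => absurd h hu⟩
        choose z hz using hz
        have h6 := h3 c hc.1 z (fun u hu => (hz u (hc.2 hu)).2)
        apply hp
        have hle : span K ((fun u => v (z u)) '' (c : Set (Fin n))) ≤ sp K v I := by
          rw [span_le]
          rintro x ⟨u, hu, rfl⟩
          have hu : u ∈ c := by simpa using hu
          exact mem_sp (hz u (hc.2 hu)).1
        exact hle h6
    rw [hN] at hS
    have h7 := Submodule.finrank_add_le_finrank_add_finrank (span K {p}) (sp K v I)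
    have h8 : Module.finrank K (span K {p}) ≤ 1 := by
      have := finrank_span_finset_le_card (R := K) ({p} : Finset V)
      rw [coe_singleton, card_singleton] at this
      exact this
    have h9 : I.card ≤ rk K v I := by
      unfold rk
      omega
    unfold Ind
    rw [← hSdef, hN]
    omega

end Ca3
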