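import Pool.Agent.Lib.MP_ca3eb1_co.StructureCore
import Pool.Agent.Lib.MP_ca3eb1_co.RingRule

/-! # Module M11: the structure theorem -/

set_option linter.unusedSectionVars false

namespace Ca3

open Finset Submodule

variable {K V E : Type*} [Field K] [Fintype K] [AddCommGroup V] [Module K V]
  [FiniteDimensional K V] [Fintype E] [DecidableEq E]

/-- coordinates of an element on a `p`-line -/
private lemma st_coord {v : E → V} {p : V} (hp : ∀ e, p ∉ span K {v e}) {e f : E}
    (hv : v f ≠ 0) (h : v f ∈ span K {v e, p}) : ∃ α β : K, α ≠ 0 ∧ v f = α • v e + β • p := by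
  obtain ⟨α, β, h1⟩ := mem_span_pair.1 h
  refine ⟨α, β, ?_, h1.symm⟩
  rintro rfl
  rw [zero_smul, zero_add] at h1
  by_cases hβ : β = 0
  · rw [hβ, zero_smul] at h1
    exact hv h1.symm
  · apply hp f
    rw [← h1, mem_span_singleton]
    exact ⟨β⁻¹, by rw [smul_smul, inv_mul_cancel₀ hβ, one_smul]⟩

private lemma st_symm {v : E → V} {p : V} (hp : ∀ e, p ∉ span K {v e}) {e f : E}
    (hv : v f ≠ 0) (h : v f ∈ span K {v e, p}) : v e ∈ span K {v f, p} := by
  obtain ⟨α, β, hα, h1⟩ := st_coord hp hv h
  rw [mem_span_pair]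
  refine ⟨α⁻¹, -(α⁻¹ * β), ?_⟩
  rw [h1, smul_add, smul_smul, smul_smul, inv_mul_cancel₀ hα, one_smul, neg_smul]
  abel

private lemma st_line {v : E → V} {p : V} (hp : ∀ e, p ∉ span K {v e}) {e f : E}
    (hv : v f ≠ 0) : v f ∈ span K {v e, p} ↔ span K {v f, p} = span K {v e, p} := by
  constructor
  · intro h
    have h' := st_symm hp hv h
    apply le_antisymm
    · rw [span_le]
      rintro x (rfl | rfl)
      · exact h
      · exact subset_span (by simp)
    · rw [span_le]
      rintro x (rfl | rfl)
      · exact h'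
      · exact subset_span (by simp)
  · intro h
    rw [← h]
    exact subset_span (by simp)

theorem ring_structure (hK : Fintype.card K = 4) {v : E → V} (hv : Simple K v)
    (hs : ∀ x, SG K v {x} univ) (h5 : 5 ≤ rk K v univ) {p : V} (hp : ∀ e, p ∉ span K {v e})
    (hl : ∀ x, ∃ e, e ≠ x ∧ v e ∈ span K {v x, p}) :
    ∃ (n : ℕ) (leg : E → Fin n) (C : Finset (Finset (Fin n))), IsRingData leg C ∧
      ∀ I, Ind K v I ↔ ExcLe leg C I := by
  classical
  -- the legs
  obtain ⟨n, leg, hsurj, hleg⟩ : ∃ (n : ℕ) (leg : E → Fin n), Function.Surjective leg ∧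
      ∀ e f, leg e = leg f ↔ v f ∈ span K {v e, p} := by
    let P : Finset (Submodule K V) := univ.image (fun e => span K {v e, p})
    have hm : ∀ e, span K {v e, p} ∈ P := fun e => mem_image_of_mem _ (mem_univ e)
    refine ⟨P.card, fun e => P.equivFin ⟨span K {v e, p}, hm e⟩, ?_, ?_⟩
    · intro i
      obtain ⟨e, -, he⟩ := mem_image.1 (P.equivFin.symm i).2
      refine ⟨e, ?_⟩
      apply P.equivFin.symm.injective
      rw [Equiv.symm_apply_apply]
      exact Subtype.ext he
    · intro e f
      rw [st_line hp (hv.1 f)]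
      constructor
      · intro h
        have h1 := congrArg Subtype.val (P.equivFin.injective h)
        exact h1.symm
      · intro h
        exact congrArg P.equivFin (Subtype.ext h.symm)
  choose z₀ hz₀ using hsurj
  have hE : Nonempty E := by
    by_contra hne
    rw [not_nonempty_iff] at hne
    have : (univ : Finset E) = ∅ := univ_eq_empty
    rw [this, rk_empty] at h5
    omega
  have hp0 : p ≠ 0 := by
    rintro rfl
    obtain ⟨e⟩ := hE
    exact hp e (zero_mem _)
  -- `p` is spanned by two elements of a leg
  have h2 : ∀ e f, e ≠ f → leg e = leg f → p ∈ span K {v e, v f} := by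
    intro e f hef h
    obtain ⟨α, β, hα, h1⟩ := st_coord hp (hv.1 f) ((hleg e f).1 h)
    have hβ : β ≠ 0 := by
      rintro rfl
      rw [zero_smul, add_zero] at h1
      apply hef
      symm
      apply hv.2 f e
      rw [h1]
      exact smul_mem _ _ (mem_span_singleton_self _)
    rw [mem_span_pair]
    refine ⟨-(β⁻¹ * α), β⁻¹, ?_⟩
    rw [h1, smul_add, smul_smul, smul_smul, inv_mul_cancel₀ hβ, one_smul, neg_smul]
    abel
  have hpall : p ∈ sp K v univ := by
    obtain ⟨x⟩ := hE
    obtain ⟨e, hex, he⟩ := hl x
    have h3 := h2 x e hex.symm ((hleg x e).2 he)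
    refine (span_mono ?_) h3
    rintro y (rfl | rfl)
    · exact ⟨x, by simp, rfl⟩
    · exact ⟨e, by simp, rfl⟩
  set q : Fin n → V := fun i => v (z₀ i) with hq
  have h4 : ∀ e, v e ∈ span K {q (leg e), p} := fun e => (hleg _ _).1 (hz₀ (leg e))
  have h5' : ∀ e, q (leg e) ∈ span K {v e, p} := fun e => (hleg _ _).1 (hz₀ (leg e)).symm
  -- the basis of legs
  obtain ⟨B, hBc, hBf, hsp⟩ : ∃ B : Finset (Fin n), B.card + 1 = rk K v univ ∧
      Module.finrank K (span K (insert p (q '' (B : Set (Fin n))))) = B.card + 1 ∧
      ∀ e, v e ∈ span K (insert p (q '' (B : Set (Fin n)))) := by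
    let w : Option (Fin n) → V := fun o => o.elim p q
    have hI : Ind K w {none} := by
      unfold Ind rk
      rw [sp_singleton]
      exact finrank_span_singleton hp0
    obtain ⟨B', h1, -, h3, h4'⟩ := exists_basis_extend (X := univ) hI (subset_univ _)
    have hn : none ∈ B' := h1 (mem_singleton_self _)
    let B : Finset (Fin n) := univ.filter (fun i => some i ∈ B')
    have hB' : B' = insert none (B.map Function.Embedding.some) := by
      ext o
      rcases o with _ | i
      · simp [hn]
      · simp [B]
    have hcard : B'.card = B.card + 1 := by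
      rw [hB', card_insert_of_notMem (by simp), card_map]
    have hspan : sp K w B' = span K (insert p (q '' (B : Set (Fin n)))) := by
      unfold sp
      congr 1
      ext y
      constructor
      · rintro ⟨o, ho, rfl⟩
        rcases o with _ | i
        · left; rfl
        · right
          refine ⟨i, ?_, rfl⟩
          simpa [B] using ho
      · rintro (rfl | ⟨i, hi, rfl⟩)
        · exact ⟨none, by simpa using hn, rfl⟩
        · refine ⟨some i, ?_, rfl⟩
          simpa [B] using hi
    have huniv : sp K w univ = sp K v univ := by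
      apply le_antisymm
      · rw [sp_le_iff]
        rintro (_ | i) -
        · exact hpall
        · exact mem_sp (mem_univ _)
      · rw [sp_le_iff]
        intro e _
        have h6 : span K {q (leg e), p} ≤ sp K w univ := by
          rw [span_le]
          rintro y (rfl | rfl)
          · exact subset_span ⟨some (leg e), by simp, rfl⟩
          · exact subset_span ⟨none, by simp, rfl⟩
        exact h6 (h4 e)
    have hrk : rk K w B' = B.card + 1 := by rw [← hcard]; exact h3
    refine ⟨B, ?_, ?_, ?_⟩
    · rw [← hrk]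
      unfold rk
      rw [h4', huniv]
    · rw [← hspan]
      exact hrk
    · intro e
      rw [← hspan, h4', huniv]
      exact mem_sp (mem_univ _)
  -- coordinates
  have hab : ∀ h : Fin n, ∃ (a : Fin n → K) (b : K), q h = ∑ u ∈ B, a u • q u + b • p := by
    intro h
    obtain ⟨b, y, hy, h6⟩ := mem_span_insert.1 (hsp (z₀ h))
    obtain ⟨a, ha⟩ := (Submodule.mem_span_image_finset_iff_exists_fun K).1 hy
    refine ⟨fun i => if hi : i ∈ B then a ⟨i, hi⟩ else 0, b, ?_⟩
    have h7 : ∑ u ∈ B, (if hi : u ∈ B then a ⟨u, hi⟩ else 0) • q u = y := by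
      rw [← ha, ← Finset.sum_coe_sort B (fun u => (if hi : u ∈ B then a ⟨u, hi⟩ else 0) • q u)]
      refine Finset.sum_congr rfl fun u _ => ?_
      rw [dif_pos u.2]
    rw [h7, add_comm]
    exact h6
  choose a b hab' using hab
  have ha : ∀ h, h ∉ B → q h = ∑ u ∈ B, a h u • q u + b h • p := fun h _ => hab' h
  obtain ⟨c1, c2, c3, c4, c5⟩ := structure_core hK hv hs h5 hp hl hleg hz₀ hBc hsp ha
  set supp : Fin n → Finset (Fin n) := fun h => B.filter (fun u => a h u ≠ 0) with hsupp
  let C : Finset (Finset (Fin n)) := (univ.filter (fun h => h ∉ B)).image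
    (fun h => insert h (supp h))
  have hCmem : ∀ c, c ∈ C ↔ ∃ h, h ∉ B ∧ insert h (supp h) = c := by
    intro c
    simp only [C, mem_image, mem_filter, mem_univ, true_and]
  have hC : ∀ c, c ∈ C ↔ ∃ h, h ∉ B ∧ ∀ u, u ∈ c ↔ u = h ∨ (u ∈ B ∧ a h u ≠ 0) := by
    intro c
    rw [hCmem]
    refine exists_congr fun h => and_congr_right fun _ => ?_
    rw [Finset.ext_iff]
    refine forall_congr' fun u => ?_
    rw [mem_insert, hsupp, mem_filter]
    exact ⟨fun h => h.symm, fun h => h.symm⟩
  refine ⟨n, leg, C, ⟨?_, ?_, ?_, ?_, ?_⟩, ?_⟩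
  · -- at least three legs
    intro c hc
    obtain ⟨h, hh, rfl⟩ := (hCmem c).1 hc
    have hns : h ∉ supp h := fun h' => hh (mem_filter.1 h').1
    rw [card_insert_of_notMem hns]
    obtain ⟨s, hs1, t, ht1, hst, has, hat⟩ := c1 h hh
    have h7 : ({s, t} : Finset (Fin n)) ⊆ supp h := by
      intro u hu
      rcases mem_insert.1 hu with rfl | hu
      · exact mem_filter.2 ⟨hs1, has⟩
      · rw [mem_singleton.1 hu]
        exact mem_filter.2 ⟨ht1, hat⟩
    have h8 := card_le_card h7
    rw [card_pair hst] at h8
    omega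
  · -- disjointness
    intro c hc d hd hcd
    obtain ⟨h, hh, rfl⟩ := (hCmem c).1 hc
    obtain ⟨h', hh', rfl⟩ := (hCmem d).1 hd
    have hne : h ≠ h' := fun h0 => hcd (by rw [h0])
    rw [Finset.disjoint_left]
    intro u hu hu'
    rcases mem_insert.1 hu with rfl | hu
    · rcases mem_insert.1 hu' with h0 | hu'
      · exact hne h0
      · exact hh (mem_filter.1 hu').1
    · rcases mem_insert.1 hu' with rfl | hu'
      · exact hh' (mem_filter.1 hu).1
      · rcases c2 h hh h' hh' hne u (mem_filter.1 hu).1 with h0 | h0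
        · exact (mem_filter.1 hu).2 h0
        · exact (mem_filter.1 hu').2 h0
  · -- at least two elements
    intro i
    obtain ⟨e, he1, he2⟩ := hl (z₀ i)
    have h7 : ({z₀ i, e} : Finset E) ⊆ univ.filter (fun e => leg e = i) := by
      intro x hx
      rcases mem_insert.1 hx with rfl | hx
      · exact mem_filter.2 ⟨mem_univ _, hz₀ i⟩
      · rw [mem_singleton.1 hx]
        refine mem_filter.2 ⟨mem_univ _, ?_⟩
        rw [← (hleg _ _).2 he2, hz₀]
    have h8 := card_le_card h7
    rw [card_pair he1.symm] at h8
    exact h8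
  · -- at most four elements
    intro i
    have h7 : ∀ e, ∃ αβ : K × K, leg e = i → αβ.1 ≠ 0 ∧ v e = αβ.1 • q i + αβ.2 • p := by
      intro e
      by_cases he : leg e = i
      · obtain ⟨α, β, hα, h1⟩ := st_coord hp (hv.1 e)
          ((hleg (z₀ i) e).1 (by rw [hz₀, he]))
        exact ⟨(α, β), fun _ => ⟨hα, h1⟩⟩
      · exact ⟨(0, 0), fun h => absurd h he⟩
    choose αβ hαβ using h7
    have h8 : (univ.filter (fun e => leg e = i)).card ≤ (univ : Finset K).card := by
      apply card_le_card_of_injOn (fun e => (αβ e).2 * ((αβ e).1)⁻¹)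
      · intro x _
        simp
      · intro e he f hf hef
        have he' : leg e = i := (mem_filter.1 (mem_coe.1 he)).2
        have hf' : leg f = i := (mem_filter.1 (mem_coe.1 hf)).2
        obtain ⟨h9, h10⟩ := hαβ e he'
        obtain ⟨h11, h12⟩ := hαβ f hf'
        apply hv.2 e f
        rw [mem_span_singleton]
        refine ⟨(αβ e).1 * ((αβ f).1)⁻¹, ?_⟩
        simp only at hef
        rw [h12, h10, smul_add, smul_smul, smul_smul, mul_assoc, inv_mul_cancel₀ h11, mul_one]
        congr 1
        congr 1
        rw [mul_assoc, mul_comm ((αβ f).1)⁻¹, ← hef, mul_comm, mul_assoc, inv_mul_cancel₀ h9,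
          mul_one]
    rw [Finset.card_univ, hK] at h8
    exact h8
  · -- legs of circuits
    intro c hc i hi
    obtain ⟨h, hh, rfl⟩ := (hCmem c).1 hc
    rcases mem_insert.1 hi with rfl | hi
    · exact c3 i hh
    · exact c4 h hh i (mem_filter.1 hi).1 (mem_filter.1 hi).2
  · -- the rule
    intro I
    refine ring_rule (q := q) (leg_rank hBf ha ?_ c2 hC) h2 ?_ h4 h5' I
    · intro h hh
      obtain ⟨s, hs1, t, ht1, hst, has, hat⟩ := c1 h hh
      exact ⟨s, hs1, has⟩
    · intro c hc z hz
      obtain ⟨h, hh, rfl⟩ := (hCmem c).1 hc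
      let z' : Fin n → E := fun i => if i ∈ insert h (supp h) then z i else z₀ i
      have hz' : ∀ i, leg (z' i) = i := by
        intro i
        by_cases hi : i ∈ insert h (supp h)
        · simp only [z', hi, if_true]
          exact hz i hi
        · simp only [z', hi, if_false]
          exact hz₀ i
      have hzz : ∀ i ∈ insert h (supp h), z' i = z i := by
        intro i hi
        simp only [z', hi, if_true]
      have h6 := c5 h hh z' hz'
      set W := span K ((fun u => v (z u)) '' ((insert h (supp h) : Finset (Fin n)) : Set (Fin n)))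
        with hW
      have hzW : ∀ i ∈ insert h (supp h), v (z i) ∈ W := fun i hi =>
        subset_span ⟨i, by exact_mod_cast hi, rfl⟩
      set W1 := span K ((fun u => v (z u)) '' ((supp h : Finset (Fin n)) : Set (Fin n)))
        with hW1
      have hW1W : W1 ≤ W := span_mono (Set.image_mono (by simp))
      have hW1B : W1 ≤ span K ((fun u => v (z' u)) '' (B : Set (Fin n))) := by
        rw [hW1, span_le]
        rintro _ ⟨u, hu, rfl⟩
        have hu' : u ∈ supp h := by exact_mod_cast hu
        refine subset_span ⟨u, ?_, ?_⟩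
        · exact_mod_cast (mem_filter.1 hu').1
        · simp only
          rw [hzz u (mem_insert_of_mem hu')]
      -- `v (z h)` in the span of `W1` and `p`
      have h7 : q h ∈ W1 ⊔ span K {p} := by
        rw [hab' h]
        refine add_mem (sum_mem fun u hu => ?_)
          (smul_mem _ _ ((le_sup_right : span K {p} ≤ W1 ⊔ span K {p})
            (mem_span_singleton_self p)))
        by_cases hau : a h u = 0
        · rw [hau, zero_smul]
          exact zero_mem _
        · have hus : u ∈ supp h := mem_filter.2 ⟨hu, hau⟩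
          refine smul_mem _ _ ?_
          have h8 : q u ∈ span K {v (z u), p} := by
            have h9 := h5' (z u)
            rwa [hz u (mem_insert_of_mem hus)] at h9
          refine (span_le.2 ?_ : span K {v (z u), p} ≤ W1 ⊔ span K {p}) h8
          rintro y (rfl | rfl)
          · exact (le_sup_left : W1 ≤ W1 ⊔ span K {p})
              (subset_span ⟨u, by exact_mod_cast hus, rfl⟩)
          · exact (le_sup_right : span K {y} ≤ W1 ⊔ span K {y}) (mem_span_singleton_self y)
      have h8 : v (z h) ∈ W1 ⊔ span K {p} := by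
        have h9 : v (z h) ∈ span K {q h, p} := by
          have h9 := h4 (z h)
          rwa [hz h (mem_insert_self _ _)] at h9
        refine (span_le.2 ?_ : span K {q h, p} ≤ W1 ⊔ span K {p}) h9
        rintro y (rfl | rfl)
        · exact h7
        · exact (le_sup_right : span K {y} ≤ W1 ⊔ span K {y}) (mem_span_singleton_self y)
      obtain ⟨y, hy, y', hy', h9⟩ := Submodule.mem_sup.1 h8
      obtain ⟨γ, rfl⟩ := mem_span_singleton.1 hy'
      have hγ : γ ≠ 0 := by
        rintro rfl
        rw [zero_smul, add_zero] at h9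
        apply h6
        rw [hzz h (mem_insert_self _ _), ← h9]
        exact hW1B hy
      have h10 : p = γ⁻¹ • (v (z h) - y) := by
        rw [← h9, add_sub_cancel_left, smul_smul, inv_mul_cancel₀ hγ, one_smul]
      rw [h10]
      exact smul_mem _ _ (sub_mem (hzW h (mem_insert_self _ _)) (hW1W hy))

end Ca3
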