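import Pool.Agent.Lib.MP_ca3eb1_co.HoleAll
import Pool.Agent.Lib.MP_ca3eb1_co.Hole
import Pool.Agent.Lib.MP_ca3eb1_co.Structure

/-! # The forward theorem for configurations of rank at least 5 -/

namespace Ca3

open Finset Submodule

variable {K V E : Type*} [Field K] [Fintype K] [AddCommGroup V] [Module K V]
  [FiniteDimensional K V] [Fintype E] [DecidableEq E]

theorem config_main (hK : Fintype.card K = 4) {v : E → V} (hv : Simple K v)
    (h5 : 5 ≤ rk K v univ) (hs : ∀ x, SG K v {x} univ) (hn : ¬ SG K v ∅ univ) :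
    ∃ (n : ℕ) (leg : E → Fin n) (C : Finset (Finset (Fin n))), IsRingData leg C ∧
      ∀ I, Ind K v I ↔ ExcLe leg C I := by
  obtain ⟨X1, X2, X3, p, hp, h1, h2, h3, hr⟩ := exists_hole_five hK hv h5 hs hn
  exact ring_structure hK hv hs (by omega) hp (hole hv hs (by omega) hp h1 h2 h3 hr)

end Ca3
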