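import Mathlib

/-!
# MP_ca3eb1_co: configurations of vectors, flats and Mason families

`v : E → V` is a finite family of vectors; `rk`, `cl`, `IsFl` are rank, closure and flats of the
represented matroid `N`.  `IsMason K v Y T A` says that the family `A` of subsets satisfies
Mason's conditions for the contraction `N / Y` restricted to `T` (counted on sets containing `Y`).
-/

namespace Ca3

open Finset

section defs

variable (K : Type*) {V E : Type*} [Field K] [AddCommGroup V] [Module K V]

/-- The span of a finite set of elements. -/
def sp (v : E → V) (X : Finset E) : Submodule K V := Submodule.span K (v '' (X : Set E))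

/-- The rank of a finite set of elements. -/
noncomputable def rk (v : E → V) (X : Finset E) : ℕ := Module.finrank K (sp K v X)

/-- Independent finite sets. -/
def Ind (v : E → V) (X : Finset E) : Prop := rk K v X = X.card

/-- No zero vector, no two parallel elements. -/
def Simple (v : E → V) : Prop :=
  (∀ e, v e ≠ 0) ∧ ∀ e f, v e ∈ Submodule.span K {v f} → e = f

variable [Fintype E]

open Classical in
/-- Closure. -/
noncomputable def cl (v : E → V) (X : Finset E) : Finset E :=
  univ.filter (fun e => v e ∈ sp K v X)

/-- Flats. -/
def IsFl (v : E → V) (X : Finset E) : Prop := cl K v X = X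

end defs

/-- The number of members of the family `A` contained in `Z`. -/
def cnt {E ι : Type*} [DecidableEq E] [Fintype ι] (A : ι → Finset E) (Z : Finset E) : ℕ :=
  (univ.filter (fun i => A i ⊆ Z)).card

section mason

variable (K : Type*) {V E : Type*} [Field K] [AddCommGroup V] [Module K V]
  [Fintype E] [DecidableEq E]

/-- Mason family for `Y ⊆ Z ⊆ T`: the number of `A i` inside `Z` is at most the nullity
of `Z`, with equality for flats `Z`. -/
def IsMason (v : E → V) (Y T : Finset E) {ι : Type*} [Fintype ι] (A : ι → Finset E) : Prop :=
  ∀ Z : Finset E, Y ⊆ Z → Z ⊆ T →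
    cnt A Z + rk K v Z ≤ Z.card ∧ (IsFl K v Z → cnt A Z + rk K v Z = Z.card)

/-- `N / Y` restricted to `T` is a strict gammoid (Mason's criterion). -/
def SG (v : E → V) (Y T : Finset E) : Prop :=
  ∃ (n : ℕ) (A : Fin n → Finset E), IsMason K v Y T A

end mason

end Ca3
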