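import Pool.Agent.Lib.MP_ca3eb1_co.AbMemDefs
import Pool.Agent.Lib.MP_ca3eb1_co.BridgeQ
import Pool.Agent.Lib.MP_ca3eb1_co.BridgeRing

/-! # E1Bridge: from excluded series minors to rank functions

`dualRF M` : the rank function of the dual of `M` on the ground set.  If `M` is an excluded series
minor then `dualRF M` is simple, its contractions `N / x` are representable over `GF(4)` and strict
gammoids. -/

set_option linter.unusedSectionVars false

namespace Ca3.Ab

open Matroid

variable {α : Type*}

/-! ### The rank function of a matroid -/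

theorem eb_ne_top (D : Matroid α) {S : Set α} (Z : Finset S) :
    D.eRk (Subtype.val '' (Z : Set S)) ≠ ⊤ := by
  have h1 := D.eRk_le_encard (Subtype.val '' (Z : Set S))
  have h2 : (Subtype.val '' (Z : Set S)).encard < ⊤ :=
    Set.Finite.encard_lt_top (Z.finite_toSet.image _)
  exact (lt_of_le_of_lt h1 h2).ne

/-- The rank function of the matroid `D` on the finite subsets of `S`. -/
noncomputable def mRF (D : Matroid α) (S : Set α) [DecidableEq S] : RF S where
  toFun Z := (D.eRk (Subtype.val '' (Z : Set S))).toNat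
  empty' := by simp
  insert_le' e X := by
    have h1 := D.eRk_insert_le_add_one (e : α) (Subtype.val '' (X : Set S))
    have h2 : Subtype.val '' ((insert e X : Finset S) : Set S) =
        insert (e : α) (Subtype.val '' (X : Set S)) := by
      rw [Finset.coe_insert, Set.image_insert_eq]
    have h3 := ENat.natCast_toNat (eb_ne_top D X)
    have h4 := ENat.natCast_toNat (eb_ne_top D (insert e X))
    rw [h2] at h4 ⊢
    rw [← h3, ← h4] at h1
    exact_mod_cast h1
  mono' X Y h := by
    have h1 : D.eRk (Subtype.val '' (X : Set S)) ≤ D.eRk (Subtype.val '' (Y : Set S)) :=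
      D.eRk_mono (Set.image_mono (Finset.coe_subset.2 h))
    have h3 := ENat.natCast_toNat (eb_ne_top D X)
    have h4 := ENat.natCast_toNat (eb_ne_top D Y)
    rw [← h3, ← h4] at h1
    exact_mod_cast h1
  submod' X Y := by
    have h1 := D.eRk_inter_add_eRk_union_le (Subtype.val '' (X : Set S))
      (Subtype.val '' (Y : Set S))
    have h2 : Subtype.val '' ((X ∪ Y : Finset S) : Set S) =
        Subtype.val '' (X : Set S) ∪ Subtype.val '' (Y : Set S) := by
      rw [Finset.coe_union, Set.image_union]
    have h2' : Subtype.val '' ((X ∩ Y : Finset S) : Set S) =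
        Subtype.val '' (X : Set S) ∩ Subtype.val '' (Y : Set S) := by
      rw [Finset.coe_inter, Set.image_inter Subtype.val_injective]
    rw [← h2, ← h2'] at h1
    have h3 := ENat.natCast_toNat (eb_ne_top D X)
    have h4 := ENat.natCast_toNat (eb_ne_top D Y)
    have h5 := ENat.natCast_toNat (eb_ne_top D (X ∪ Y))
    have h6 := ENat.natCast_toNat (eb_ne_top D (X ∩ Y))
    rw [← h3, ← h4, ← h5, ← h6] at h1
    have h7 : (D.eRk (Subtype.val '' ((X ∩ Y : Finset S) : Set S))).toNat +
      (D.eRk (Subtype.val '' ((X ∪ Y : Finset S) : Set S))).toNat ≤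
      (D.eRk (Subtype.val '' (X : Set S))).toNat +
      (D.eRk (Subtype.val '' (Y : Set S))).toNat := by exact_mod_cast h1
    omega

theorem rk_mRF (D : Matroid α) {S : Set α} [DecidableEq S] (Z : Finset S) :
    (rk (mRF D S) Z : ℕ∞) = D.eRk (Subtype.val '' (Z : Set S)) :=
  ENat.natCast_toNat (eb_ne_top D Z)

theorem ind_mRF (D : Matroid α) {S : Set α} [DecidableEq S] (Z : Finset S) :
    Ind (mRF D S) Z ↔ D.Indep (Subtype.val '' (Z : Set S)) := by
  rw [indep_iff_eRk_eq_encard_of_finite (Z.finite_toSet.image _), ← rk_mRF,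
    Subtype.val_injective.encard_image, Set.encard_coe_eq_coe_finsetCard]
  unfold Ind
  exact (Nat.cast_inj (R := ℕ∞)).symm

/-- Rank functions with the same independent sets are equal. -/
theorem rk_eq_of_ind_iff {E : Type*} [DecidableEq E] {N N' : RF E}
    (h : ∀ Z, Ind N Z ↔ Ind N' Z) (Z : Finset E) : rk N Z = rk N' Z := by
  have key : ∀ {N N' : RF E}, (∀ Z, Ind N Z ↔ Ind N' Z) → rk N Z ≤ rk N' Z := by
    intro N N' h
    obtain ⟨B, hB, hi, hs⟩ := exists_basis (N := N) Z
    rw [← rk_congr hs, hi.rk_eq_card, ← ((h B).1 hi).rk_eq_card]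
    exact rk_mono hB
  exact le_antisymm (key h) (key fun Z => (h Z).symm)

/-! ### The dual of a finite matroid -/

/-- The rank function of the dual of `M` on the ground set of `M`. -/
noncomputable def dualRF (M : Matroid α) [DecidableEq M.E] : RF M.E := mRF M✶ M.E

section rep

variable {K : Type*} [Field K] {V : Type*} [AddCommGroup V] [Module K V] [FiniteDimensional K V]
  {M : Matroid α} [DecidableEq M.E]

theorem repDual_iff {w : M.E → V} :
    RepDual K M w ↔ ∀ Z, Ca3.rk K w Z = rk (dualRF M) Z := by
  constructor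
  · intro h Z
    have := rk_eq_of_ind_iff (N := RF.ofVec K w) (N' := dualRF M)
      (fun I => (h I).symm.trans (ind_mRF M✶ I).symm) Z
    rw [← this, rk_ofVec]
  · intro h I
    rw [← ind_mRF M✶ I]
    unfold Ind Ca3.Ind
    rw [h I]
    rfl

theorem isRepr_of_rep [M.Finite] (h : Rep K (dualRF M)) : IsRepr K M := by
  obtain ⟨n, w, hw⟩ := h
  exact RepDual.isRepr (repDual_iff.2 hw)

end rep

theorem ind_dualRF (M : Matroid α) [DecidableEq M.E] (Z : Finset M.E) :
    Ind (dualRF M) Z ↔ M✶.Indep (Subtype.val '' (Z : Set M.E)) := ind_mRF _ _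

theorem eRank_dualRF (M : Matroid α) [DecidableEq M.E] [Fintype M.E] :
    M✶.eRank = rk (dualRF M) Finset.univ := by
  unfold dualRF
  rw [rk_mRF, Finset.coe_univ, Set.image_univ, Subtype.range_coe]
  exact (M✶.eRk_ground).symm

/-! ### Deletion of an element of `M` = contraction of the dual -/

section del

variable {K : Type*} [Field K] {V : Type*} [AddCommGroup V] [Module K V] [FiniteDimensional K V]
  {M : Matroid α} [DecidableEq M.E]

/-- the inclusion of ground sets -/
def ebDel (M : Matroid α) (x : α) : (M ＼ {x}).E ↪ M.E :=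
  ⟨fun y => ⟨y, y.2.1⟩, fun _ _ h => Subtype.ext (by
    have := congrArg Subtype.val h
    exact this)⟩

theorem ebDel_ne (x : M.E) (y : (M ＼ {(x : α)}).E) : ebDel M x y ≠ x := by
  intro h
  exact y.2.2 (congrArg Subtype.val h)

theorem not_mem_map_ebDel (x : M.E) (Z : Finset (M ＼ {(x : α)}).E) :
    x ∉ Z.map (ebDel M x) := by
  rw [Finset.mem_map]
  rintro ⟨y, -, hy⟩
  exact ebDel_ne x y hy

theorem ind_del_iff {x : M.E} (hx : rk (dualRF M) {x} = 1)
    {w : (M ＼ {(x : α)}).E → V} (h : RepDual K (M ＼ {(x : α)}) w)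
    (Z : Finset (M ＼ {(x : α)}).E) :
    Ca3.Ind K w Z ↔ Ind (dualRF M) (insert x (Z.map (ebDel M x))) := by
  rw [← h Z, ind_dualRF, dual_delete]
  have hnl : M✶.IsNonloop (x : α) := by
    rw [← indep_singleton]
    have h1 : Ind (dualRF M) {x} := by
      unfold Ind
      rw [hx, Finset.card_singleton]
    rw [ind_dualRF] at h1
    simpa using h1
  rw [hnl.contractElem_indep_iff]
  have h2 : Subtype.val '' ((insert x (Z.map (ebDel M x)) : Finset M.E) : Set M.E) =
      insert (x : α) (Subtype.val '' (Z : Set (M ＼ {(x : α)}).E)) := by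
    rw [Finset.coe_insert, Set.image_insert_eq, Finset.coe_map, Set.image_image]
    rfl
  rw [h2]
  constructor
  · exact fun h => h.2
  · refine fun h => ⟨?_, h⟩
    rintro ⟨y, -, hy⟩
    exact y.2.2 hy

theorem rk_del {x : M.E} (hx : rk (dualRF M) {x} = 1)
    {w : (M ＼ {(x : α)}).E → V} (h : RepDual K (M ＼ {(x : α)}) w)
    (Z : Finset (M ＼ {(x : α)}).E) :
    Ca3.rk K w Z + 1 = rk (dualRF M) (insert x (Z.map (ebDel M x))) := by
  classical
  apply le_antisymm
  · obtain ⟨B, hB, hi, hs⟩ := Ca3.exists_basis (K := K) (v := w) Z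
    have h1 := (ind_del_iff hx h B).1 hi
    have h2 : rk (dualRF M) (insert x (B.map (ebDel M x))) ≤
        rk (dualRF M) (insert x (Z.map (ebDel M x))) :=
      rk_mono (Finset.insert_subset_insert _ (Finset.map_subset_map.2 hB))
    rw [h1.rk_eq_card, Finset.card_insert_of_notMem (not_mem_map_ebDel x B),
      Finset.card_map] at h2
    have h3 : Ca3.rk K w Z = B.card := by
      rw [← hi.rk_eq_card]
      unfold Ca3.rk
      rw [hs]
    omega
  · have hi0 : Ind (dualRF M) {x} := by
      unfold Ind
      rw [hx, Finset.card_singleton]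
    obtain ⟨B, hxB, hBZ, hi, hs⟩ := exists_basis_extend hi0
      (X := insert x (Z.map (ebDel M x))) (by simp)
    rw [Finset.singleton_subset_iff] at hxB
    have h1 : B.erase x ⊆ Z.map (ebDel M x) := by
      intro y hy
      rw [Finset.mem_erase] at hy
      rcases Finset.mem_insert.1 (hBZ hy.2) with h' | h'
      · exact absurd h' hy.1
      · exact h'
    obtain ⟨C, hC, hBC⟩ := Finset.subset_map_iff.1 h1
    have h2 : insert x (C.map (ebDel M x)) = B := by
      rw [← hBC, Finset.insert_erase hxB]
    have h3 : Ca3.Ind K w C := by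
      rw [ind_del_iff hx h, h2]
      exact hi
    have h4 : Ca3.rk K w C ≤ Ca3.rk K w Z := Ca3.rk_mono hC
    rw [h3.rk_eq_card] at h4
    have h5 : B.card = C.card + 1 := by
      rw [← h2, Finset.card_insert_of_notMem (not_mem_map_ebDel x C), Finset.card_map]
    rw [← rk_congr hs, hi.rk_eq_card]
    omega

/-- the preimage of a set under `ebDel` -/
theorem exists_ebDel [Fintype M.E] (x : M.E) (Z : Finset M.E) :
    ∃ Z' : Finset (M ＼ {(x : α)}).E, insert x Z = insert x (Z'.map (ebDel M x)) ∧
      Z'.map (ebDel M x) = Z.erase x := by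
  classical
  have hsub : Z.erase x ⊆ (Finset.univ : Finset M.E).erase x :=
    Finset.erase_subset_erase _ (Finset.subset_univ _)
  have : Fintype (M ＼ {(x : α)}).E := by
    have : Fintype (M.E \ {(x : α)} : Set α) := Fintype.ofFinite _
    exact this
  refine ⟨Finset.univ.filter (fun y => ebDel M x y ∈ Z), ?_⟩
  have h1 : (Finset.univ.filter (fun y => ebDel M x y ∈ Z)).map (ebDel M x) = Z.erase x := by
    ext e
    rw [Finset.mem_map, Finset.mem_erase]
    constructor
    · rintro ⟨y, hy, rfl⟩
      rw [Finset.mem_filter] at hy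
      exact ⟨ebDel_ne x y, hy.2⟩
    · rintro ⟨h1, h2⟩
      refine ⟨⟨e, e.2, fun h => h1 (Subtype.ext h)⟩, ?_, rfl⟩
      rw [Finset.mem_filter]
      exact ⟨Finset.mem_univ _, h2⟩
  refine ⟨?_, h1⟩
  rw [h1]
  ext e
  simp only [Finset.mem_insert, Finset.mem_erase]
  tauto

theorem repAt_of_delete [Fintype M.E] {x : M.E} (hx : rk (dualRF M) {x} = 1)
    {w : (M ＼ {(x : α)}).E → V} (h : RepDual K (M ＼ {(x : α)}) w) :
    RepAt K (dualRF M) x (fun e : M.E => if he : e = x then (0 : V) else
      w ⟨e, e.2, fun h => he (Subtype.ext h)⟩) := by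
  classical
  intro Z
  set u : M.E → V := fun e : M.E => if he : e = x then (0 : V) else
      w ⟨e, e.2, fun h => he (Subtype.ext h)⟩ with hu
  obtain ⟨Z', h1, h2⟩ := exists_ebDel x Z
  have hux : u x = 0 := by simp [hu]
  have h3 : ∀ Y : Finset M.E, Ca3.rk K u (insert x Y) = Ca3.rk K u Y := by
    intro Y
    rw [Ca3.rk_insert_eq_iff, hux]
    exact Submodule.zero_mem _
  have h4 : (fun y => u (ebDel M x y)) = w := by
    funext y
    have : ebDel M x y ≠ x := ebDel_ne x y
    simp only [hu, dif_neg this]
    rfl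
  have h5 := Ca3.rk_comp_emb (K := K) u (ebDel M x) Z'
  rw [h4] at h5
  have h6 := rk_del hx h Z'
  rw [← h3 Z, h1, h3, ← h5, hx, h6]

theorem sg_of_delete [Fintype M.E] {x : M.E} (hx : rk (dualRF M) {x} = 1)
    {w : (M ＼ {(x : α)}).E → V} (h : RepDual K (M ＼ {(x : α)}) w)
    [Fintype (M ＼ {(x : α)}).E] [DecidableEq (M ＼ {(x : α)}).E]
    (hs : Ca3.SG K w ∅ Finset.univ) : SG (dualRF M) {x} Finset.univ := by
  classical
  obtain ⟨n, A, hA⟩ := hs
  refine ⟨n, fun i => (A i).map (ebDel M x), ?_⟩
  intro Z hZ _
  rw [Finset.singleton_subset_iff] at hZ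
  obtain ⟨Z', h1, h2⟩ := exists_ebDel x Z
  rw [Finset.insert_eq_self.2 hZ] at h1
  have h3 := hA Z' (Finset.empty_subset _) (Finset.subset_univ _)
  have hr := rk_del hx h Z'
  rw [← h1] at hr
  have hc : Z.card = Z'.card + 1 := by
    rw [h1, Finset.card_insert_of_notMem (not_mem_map_ebDel x Z'), Finset.card_map]
  have hcnt : cnt (fun i => (A i).map (ebDel M x)) Z = cnt A Z' := by
    unfold cnt
    congr 1
    apply Finset.filter_congr
    intro i _
    constructor
    · intro h'
      rw [← Finset.map_subset_map (f := ebDel M x), h2]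
      intro y hy
      refine Finset.mem_erase.2 ⟨?_, h' hy⟩
      rintro rfl
      exact not_mem_map_ebDel _ _ hy
    · intro h'
      have h4 := Finset.map_subset_map (f := ebDel M x) |>.2 h'
      rw [h2] at h4
      exact h4.trans (Finset.erase_subset _ _)
  rw [hcnt]
  refine ⟨by omega, fun hf => ?_⟩
  have hfl : Ca3.IsFl K w Z' := by
    unfold Ca3.IsFl
    apply Finset.Subset.antisymm _ Ca3.subset_cl
    intro y hy
    rw [Ca3.mem_cl, ← Ca3.rk_insert_eq_iff] at hy
    have h4 := rk_del hx h (insert y Z')
    rw [hy, hr, Finset.map_insert, Finset.insert_comm, ← h1] at h4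
    have h5 : ebDel M x y ∈ Z := hf.mem h4.symm
    have h6 : ebDel M x y ∈ Z'.map (ebDel M x) := by
      rw [h2]
      exact Finset.mem_erase.2 ⟨ebDel_ne x y, h5⟩
    obtain ⟨z, hz, hzy⟩ := Finset.mem_map.1 h6
    rwa [← (ebDel M x).injective hzy]
  have := h3.2 hfl
  omega

end del

/-! ### Excluded series minors -/

section excluded

variable {M : Matroid α} [M.Finite] [DecidableEq M.E] [Fintype M.E]

theorem finset_image_pair {S : Set α} [DecidableEq S] (e f : S) :
    Subtype.val '' (({e, f} : Finset S) : Set S) = {(e : α), (f : α)} := by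
  rw [Finset.coe_insert, Finset.coe_singleton, Set.image_pair]

/-- a coloop deletion: representability of `M` -/
theorem isRepr_of_delete_coloop {K : Type*} [Field K] {e : M.E}
    (h0 : rk (dualRF M) {e} = 0) (hr : IsRepr K (M ＼ {(e : α)})) : IsRepr K M := by
  classical
  obtain ⟨n, w, hw⟩ := hr.exists_repDual
  apply isRepr_of_rep
  set u : M.E → (Fin n → K) := fun y : M.E => if he : y = e then 0 else
      w ⟨y, y.2, fun h => he (Subtype.ext h)⟩ with hu
  refine ⟨n, u, repDual_iff.1 fun I => ?_⟩
  rw [← ind_dualRF]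
  by_cases he : e ∈ I
  · constructor
    · intro h
      have h1 : Ind (dualRF M) {e} := h.subset (Finset.singleton_subset_iff.2 he)
      unfold Ind at h1
      rw [h0, Finset.card_singleton] at h1
      exact absurd h1 (by norm_num)
    · intro h
      have h1 : Ca3.Ind K u {e} := h.subset (Finset.singleton_subset_iff.2 he)
      rw [Ca3.ind_singleton_iff] at h1
      exact absurd (by simp [hu]) h1
  · obtain ⟨Z', -, h2⟩ := exists_ebDel e I
    rw [Finset.erase_eq_of_notMem he] at h2
    have h4 : (fun y => u (ebDel M e y)) = w := by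
      funext y
      have : ebDel M e y ≠ e := ebDel_ne e y
      simp only [hu, dif_neg this]
      rfl
    have h5 := Ca3.ind_comp_emb (K := K) u (ebDel M e) Z'
    rw [h4, ← hw Z', h2] at h5
    rw [← h5, ind_dualRF, dual_delete]
    have hl : M✶.IsLoop (e : α) := by
      rw [← not_isNonloop_iff (by exact e.2)]
      intro hn
      rw [← indep_singleton] at hn
      have h6 : Ind (dualRF M) {e} := by
        rw [ind_dualRF]
        simpa using hn
      unfold Ind at h6
      rw [h0, Finset.card_singleton] at h6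
      exact absurd h6 (by norm_num)
    rw [contract_eq_delete_of_subset_loops (Set.singleton_subset_iff.2 hl), delete_indep_iff]
    have h7 : Subtype.val '' (I : Set M.E) =
        Subtype.val '' (Z' : Set (M ＼ {(e : α)}).E) := by
      rw [← h2, Finset.coe_map, Set.image_image]
      rfl
    rw [h7]
    constructor
    · refine fun h => ⟨h, Set.disjoint_left.2 ?_⟩
      rintro _ ⟨y, -, rfl⟩ hy
      exact y.2.2 hy
    · exact fun h => h.1

theorem rk_singleton_of_excluded (hM : IsExcluded M) (e : M.E) : rk (dualRF M) {e} = 1 := by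
  by_contra hc
  have h1 : rk (dualRF M) {e} ≤ ({e} : Finset M.E).card := rk_le_card
  rw [Finset.card_singleton] at h1
  have h0 : rk (dualRF M) {e} = 0 := by omega
  have hl : M✶.IsLoop (e : α) := by
    rw [← not_isNonloop_iff (by exact e.2)]
    intro hn
    rw [← indep_singleton] at hn
    have h6 : Ind (dualRF M) {e} := by
      rw [ind_dualRF]
      simpa using hn
    unfold Ind at h6
    rw [h0, Finset.card_singleton] at h6
    exact absurd h6 (by norm_num)
  have hco : M.IsColoop (e : α) := dual_isLoop_iff_isColoop.1 hl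
  have hQ := hM.2 _ (Relation.TransGen.single (Or.inl ⟨e, e.2, rfl⟩))
  exact hM.1 ⟨isRepr_of_delete_coloop h0 hQ.1, isTransversal_of_delete_coloop hco hQ.2⟩

/-- a series contraction: representability of `M` -/
theorem isRepr_of_contract_series {K : Type*} [Field K] {e f : M.E} (hef : e ≠ f)
    (h1 : e ∈ sp (dualRF M) {f}) (h2 : f ∈ sp (dualRF M) {e})
    (hr : IsRepr K (M ／ {(e : α)})) : IsRepr K M := by
  classical
  obtain ⟨n, w, hw⟩ := hr.exists_repDual
  apply isRepr_of_rep
  let ι : (M ／ {(e : α)}).E ↪ M.E := ⟨fun x => ⟨x, x.2.1⟩, fun x y hxy => Subtype.ext (by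
    have := congrArg Subtype.val hxy
    exact this)⟩
  have hfe : (f : α) ∉ ({(e : α)} : Set α) := fun h => hef (Subtype.ext h.symm)
  set f' : (M ／ {(e : α)}).E := ⟨f, f.2, hfe⟩ with hf'
  set u : M.E → (Fin n → K) := fun y : M.E => if he : y = e then w f' else
      w ⟨y, y.2, fun h => he (Subtype.ext h)⟩ with hu
  have hue : u e = w f' := by simp [hu]
  have huf : u f = w f' := by
    simp only [hu, dif_neg hef.symm]
    rfl
  refine ⟨n, u, repDual_iff.1 fun I => ?_⟩
  rw [← ind_dualRF]
  have key : ∀ I : Finset M.E, e ∉ I → (Ind (dualRF M) I ↔ Ca3.Ind K u I) := by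
    intro I he
    obtain ⟨Z', hZ'⟩ : ∃ Z' : Finset (M ／ {(e : α)}).E, Z'.map ι = I := by
      have : Fintype (M ／ {(e : α)}).E := by
        have : Fintype (M.E \ {(e : α)} : Set α) := Fintype.ofFinite _
        exact this
      refine ⟨Finset.univ.filter (fun y => ι y ∈ I), ?_⟩
      ext y
      rw [Finset.mem_map]
      constructor
      · rintro ⟨z, hz, rfl⟩
        exact (Finset.mem_filter.1 hz).2
      · intro hy
        refine ⟨⟨y, y.2, fun h => he ?_⟩, Finset.mem_filter.2 ⟨Finset.mem_univ _, hy⟩, rfl⟩
        rw [← Subtype.ext (a1 := y) (a2 := e) h]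
        exact hy
    have h4 : (fun y => u (ι y)) = w := by
      funext y
      have : ι y ≠ e := fun h => y.2.2 (congrArg Subtype.val h)
      simp only [hu, dif_neg this]
      rfl
    have h5 := Ca3.ind_comp_emb (K := K) u ι Z'
    rw [h4, ← hw Z', hZ'] at h5
    rw [← h5, ind_dualRF, dual_contract, delete_indep_iff]
    have h7 : Subtype.val '' (I : Set M.E) =
        Subtype.val '' (Z' : Set (M ／ {(e : α)}).E) := by
      rw [← hZ', Finset.coe_map, Set.image_image]
      rfl
    rw [h7]
    constructor
    · refine fun h => ⟨h, Set.disjoint_left.2 ?_⟩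
      rintro _ ⟨y, -, rfl⟩ hy
      exact y.2.2 hy
    · exact fun h => h.1
  by_cases he : e ∈ I
  · by_cases hf : f ∈ I
    · have hsub : ({e, f} : Finset M.E) ⊆ I := by
        intro y hy
        rw [Finset.mem_insert, Finset.mem_singleton] at hy
        rcases hy with rfl | rfl
        · exact he
        · exact hf
      constructor
      · intro h
        have h3 : Ind (dualRF M) {e, f} := h.subset hsub
        unfold Ind at h3
        have h4 : rk (dualRF M) {f} ≤ ({f} : Finset M.E).card := rk_le_card
        rw [rk_insert_of_mem_sp h1, Finset.card_pair hef] at h3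
        rw [Finset.card_singleton] at h4
        omega
      · intro h
        have h3 : Ca3.Ind K u {e, f} := h.subset hsub
        unfold Ca3.Ind at h3
        have h4 : Ca3.rk K u {f} ≤ ({f} : Finset M.E).card := Ca3.rk_le_card
        have h5 : u e ∈ Ca3.sp K u {f} := by
          rw [hue, ← huf]
          exact Ca3.mem_sp (Finset.mem_singleton_self f)
        rw [Ca3.rk_insert_of_mem_sp h5, Finset.card_pair hef] at h3
        rw [Finset.card_singleton] at h4
        omega
    · have hI : I = insert e (I.erase e) := (Finset.insert_erase he).symm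
      have hf0 : f ∉ I.erase e := fun h => hf (Finset.mem_of_mem_erase h)
      have he0 : e ∉ I.erase e := Finset.notMem_erase e I
      have he1 : e ∉ insert f (I.erase e) := by
        rw [Finset.mem_insert]
        rintro (h | h)
        · exact hef h
        · exact he0 h
      have hk := key (insert f (I.erase e)) he1
      have hA : rk (dualRF M) (insert e (I.erase e)) =
          rk (dualRF M) (insert f (I.erase e)) := by
        have e1 : rk (dualRF M) (insert f (insert e (I.erase e))) =
            rk (dualRF M) (insert e (I.erase e)) :=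
          rk_insert_of_mem_sp (mem_sp_of_subset (by
            intro y hy
            rw [Finset.mem_singleton] at hy
            rw [hy]
            exact Finset.mem_insert_self _ _) h2)
        have e2 : rk (dualRF M) (insert e (insert f (I.erase e))) =
            rk (dualRF M) (insert f (I.erase e)) :=
          rk_insert_of_mem_sp (mem_sp_of_subset (by
            intro y hy
            rw [Finset.mem_singleton] at hy
            rw [hy]
            exact Finset.mem_insert_self _ _) h1)
        rw [← e1, ← e2, Finset.insert_comm]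
      have hB : Ca3.rk K u (insert e (I.erase e)) = Ca3.rk K u (insert f (I.erase e)) := by
        unfold Ca3.rk Ca3.sp
        rw [Finset.coe_insert, Finset.coe_insert, Set.image_insert_eq, Set.image_insert_eq,
          hue, huf]
      rw [hI]
      unfold Ind Ca3.Ind at hk ⊢
      rw [hA, hB, Finset.card_insert_of_notMem he0]
      rw [Finset.card_insert_of_notMem hf0] at hk
      exact hk
  · exact key I he

theorem simple_dualRF (hM : IsExcluded M) : Simple (dualRF M) := by
  have h0 := rk_singleton_of_excluded hM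
  refine ⟨h0, ?_⟩
  intro e f hs
  by_contra hef
  have hne : (e : α) ≠ f := fun h => hef (Subtype.ext h)
  have hr2 : rk (dualRF M) {e, f} = 1 := by
    rw [rk_insert_of_mem_sp hs]
    exact h0 f
  have hfs : f ∈ sp (dualRF M) {e} := by
    rw [mem_sp_iff]
    rw [Finset.pair_comm] at hr2
    rw [hr2, h0 e]
  have hnl : ∀ g : M.E, M✶.Indep {(g : α)} := by
    intro g
    have h1 : Ind (dualRF M) {g} := by
      unfold Ind
      rw [h0 g, Finset.card_singleton]
    rw [ind_dualRF] at h1
    simpa using h1
  have hc : M.IsCocircuit {(e : α), (f : α)} := by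
    rw [isCocircuit_def, isCircuit_iff_dep_forall_sdiff_singleton_indep]
    have hE : {(e : α), (f : α)} ⊆ M✶.E := by
      rintro x (rfl | rfl)
      · exact e.2
      · exact f.2
    refine ⟨⟨fun hi => ?_, hE⟩, ?_⟩
    · have h1 : Ind (dualRF M) {e, f} := by
        rw [ind_dualRF, finset_image_pair]
        exact hi
      unfold Ind at h1
      rw [hr2, Finset.card_pair hef] at h1
      omega
    · rintro x (rfl | rfl)
      · refine (hnl f).subset ?_
        rintro y ⟨rfl | hy, hy'⟩
        · exact absurd rfl hy'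
        · exact hy
      · refine (hnl e).subset ?_
        rintro y ⟨hy | hy, hy'⟩
        · exact hy
        · exact absurd hy hy'
  have hQ := hM.2 _ (Relation.TransGen.single (Or.inr ⟨e, f, hne, hc, rfl⟩))
  exact hM.1 ⟨isRepr_of_contract_series hef hs hfs hQ.1,
    isTransversal_of_contract_series hne hc hQ.2⟩

theorem repC_dualRF (hM : IsExcluded M) : RepC (GaloisField 2 2) (dualRF M) := by
  intro x
  have hQ : ClassQ (M ＼ {(x : α)}) :=
    hM.2 _ (Relation.TransGen.single (Or.inl ⟨x, x.2, rfl⟩))
  obtain ⟨n, w, hw⟩ := hQ.1.exists_repDual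
  exact ⟨n, _, repAt_of_delete (rk_singleton_of_excluded hM x) hw⟩

theorem sg_dualRF (hM : IsExcluded M) (x : M.E) : SG (dualRF M) {x} Finset.univ := by
  classical
  have hQ : ClassQ (M ＼ {(x : α)}) :=
    hM.2 _ (Relation.TransGen.single (Or.inl ⟨x, x.2, rfl⟩))
  obtain ⟨n, w, hw⟩ := hQ.1.exists_repDual
  have hS := simple_dualRF hM
  have hx := hS.1 x
  have : Fintype (M ＼ {(x : α)}).E := (M ＼ {(x : α)}).ground_finite.fintype
  refine sg_of_delete hx hw ?_
  have hfl : Ca3.IsFl (GaloisField 2 2) w ∅ := by
    unfold Ca3.IsFl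
    rw [Finset.eq_empty_iff_forall_notMem]
    intro y hy
    rw [Ca3.mem_cl, ← Ca3.rk_insert_eq_iff] at hy
    have h1 := rk_del hx hw (insert y ∅)
    rw [hy, Finset.map_insert, Finset.map_empty, Ca3.rk_empty] at h1
    have h2 := hS.rk_pair (ebDel_ne x y).symm
    rw [insert_empty_eq] at h1
    omega
  exact Ca3.SG_of_hasTrans hfl Ca3.ind_empty (hw.transversal_iff.1 hQ.2)

/-- the ring data of `case_one` is the family -/
theorem isRing_of_dualRF (hne : M.E.Nonempty) {n : ℕ} {leg : M.E → Fin n}
    {C : Finset (Finset (Fin n))} (hd : IsRingData leg C)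
    (h : ∀ I, Ind (dualRF M) I ↔ ExcLe leg C I) : IsRing M := by
  rw [isRing_iff hne]
  exact ⟨n, leg, C, hd, fun I => (ind_dualRF M I).symm.trans (h I)⟩

end excluded

end Ca3.Ab
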