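import Pool.Agent.Lib.MP_ca3eb1_co.E3a

/-! # Module W3: three fat points -/

set_option linter.unusedSectionVars false

namespace Ca3

open Finset Submodule

section alg

variable {K V : Type*} [Field K] [Fintype K] [AddCommGroup V] [Module K V]

private theorem e3_two (hK : Fintype.card K = 4) : (2 : K) = 0 := by
  have h := FiniteField.cast_card_eq_zero K
  rw [hK] at h
  have h2 : (2 : K) * 2 = 0 := by
    push_cast at h
    linear_combination h
  rcases mul_eq_zero.1 h2 with h | h <;> exact h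

private theorem e3_field (hK : Fintype.card K = 4) {α β δ : K} (a0 : α ≠ 0) (b0 : β ≠ 0)
    (d0 : δ ≠ 0) (a1 : α ≠ 1) (b1 : β ≠ 1) (d1 : δ ≠ 1) (h1 : β ≠ α * δ) (h2 : α * δ ≠ 1)
    (h4 : α ≠ β) : False := by
  have key : ∀ x : K, x ≠ 0 → x ≠ 1 → x ^ 2 + x + 1 = 0 := by
    intro x hx hx1
    have h := FiniteField.pow_card x
    rw [hK] at h
    have h' : x * (x - 1) * (x ^ 2 + x + 1) = 0 := by linear_combination h
    rcases mul_eq_zero.1 h' with h | h
    · rcases mul_eq_zero.1 h with h | h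
      · exact absurd h hx
      · exact absurd (sub_eq_zero.1 h) hx1
    · exact h
  have ka := key α a0 a1
  have kb := key β b0 b1
  have kd := key δ d0 d1
  have e1 : α = δ := by
    have h : (α - δ) * (α + δ + 1) = 0 := by linear_combination ka - kd
    rcases mul_eq_zero.1 h with h | h
    · exact sub_eq_zero.1 h
    · exfalso
      apply h2
      linear_combination α * h - ka
  subst e1
  have h : (β - α) * (β + α + 1) = 0 := by linear_combination kb - ka
  rcases mul_eq_zero.1 h with h | h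
  · exact h4 (sub_eq_zero.1 h).symm
  · apply h1
    linear_combination h - ka

private theorem e3_conv2 {x y z x' y' z' : V} (hx : span K {x} = span K {x'})
    (hy : span K {y} = span K {y'}) (hz : span K {z} = span K {z'})
    (h : x' ∈ span K {y', z'}) : x ∈ span K {y, z} := by
  rw [← span_singleton_le_iff_mem, hx, span_insert, hy, hz, ← span_insert,
    span_singleton_le_iff_mem]
  exact h

private theorem e3_conv3 {x y z w x' y' z' w' : V} (hx : span K {x} = span K {x'})
    (hy : span K {y} = span K {y'}) (hz : span K {z} = span K {z'})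
    (hw : span K {w} = span K {w'})
    (h : x' ∈ span K {y', z', w'}) : x ∈ span K {y, z, w} := by
  rw [← span_singleton_le_iff_mem, hx, span_insert, span_insert, hy, hz, hw, ← span_insert,
    ← span_insert, span_singleton_le_iff_mem]
  exact h

private theorem e3_tet (hK : Fintype.card K = 4) {e1 e2 e3 e4 : V} {α β δ : K} (a0 : α ≠ 0)
    (b0 : β ≠ 0) (d0 : δ ≠ 0) {xa xb xc xd xm xn : V}
    (ha : span K {xa} = span K {e1 + α • e2}) (hb : span K {xb} = span K {e1 + β • e3})
    (hc : span K {xc} = span K {e1 + e4}) (hd : span K {xd} = span K {e2 + δ • e3})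
    (hm : span K {xm} = span K {e2 + e4}) (hn : span K {xn} = span K {e3 + e4})
    (f1 : xa ∉ span K {xc, xm}) (f2 : xb ∉ span K {xc, xn}) (f3 : xd ∉ span K {xm, xn})
    (f4 : xd ∉ span K {xa, xb}) (g1 : xd ∉ span K {xc, xa, xn})
    (g3 : xm ∉ span K {xb, xa, xn}) : False := by
  have h2 := e3_two hK
  have t : ∀ x : V, x + x = 0 := fun x => by rw [← two_smul K x, h2, zero_smul]
  refine e3_field hK a0 b0 d0 ?_ ?_ ?_ ?_ ?_ ?_
  · rintro rfl
    apply f1
    refine e3_conv2 ha hc hm ?_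
    rw [mem_span_pair]
    refine ⟨1, 1, ?_⟩
    linear_combination (norm := module) t e4
  · rintro rfl
    apply f2
    refine e3_conv2 hb hc hn ?_
    rw [mem_span_pair]
    refine ⟨1, 1, ?_⟩
    linear_combination (norm := module) t e4
  · rintro rfl
    apply f3
    refine e3_conv2 hd hm hn ?_
    rw [mem_span_pair]
    refine ⟨1, 1, ?_⟩
    linear_combination (norm := module) t e4
  · rintro rfl
    apply f4
    refine e3_conv2 hd ha hb ?_
    rw [mem_span_pair]
    refine ⟨α⁻¹, α⁻¹, ?_⟩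
    have h := inv_mul_cancel₀ a0
    linear_combination (norm := module) α⁻¹ • t e1 + h • e2 + (δ * h) • e3
  · intro had
    apply g1
    refine e3_conv3 hd hc ha hn ?_
    rw [mem_span_triple]
    refine ⟨α⁻¹, α⁻¹, α⁻¹, ?_⟩
    have h := inv_mul_cancel₀ a0
    have h' : α⁻¹ = δ := by
      rw [inv_eq_iff_eq_inv]
      exact eq_inv_of_mul_eq_one_left had
    linear_combination (norm := module) α⁻¹ • t e1 + α⁻¹ • t e4 + h • e2 + h' • e3
  · rintro rfl
    apply g3
    refine e3_conv3 hm hb ha hn ?_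
    rw [mem_span_triple]
    refine ⟨α⁻¹, α⁻¹, 1, ?_⟩
    have h := inv_mul_cancel₀ a0
    linear_combination (norm := module) α⁻¹ • t e1 + h • e2 + h • e3 + t e3
end alg

section lines

variable {K V E : Type*} [Field K] [AddCommGroup V] [Module K V]
  [FiniteDimensional K V] [Fintype E] [DecidableEq E] {v : E → V}

/-- a functional separating an element from a span -/
private theorem e3_dual {X : Finset E} {e : E} (h : v e ∉ sp K v X) :
    ∃ f : V →ₗ[K] K, f (v e) = 1 ∧ ∀ x ∈ X, f (v x) = 0 := by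
  obtain ⟨f, hf, hX⟩ := Submodule.exists_le_ker_of_notMem h
  refine ⟨(f (v e))⁻¹ • f, by simp [inv_mul_cancel₀ hf], fun x hx => ?_⟩
  have : f (v x) = 0 := hX (mem_sp hx)
  simp [this]

private theorem e3_dual4 {p1 p2 p3 p4 : E} (hp : rk K v {p1, p2, p3, p4} = 4) :
    ∃ f : V →ₗ[K] K, f (v p1) = 1 ∧ f (v p2) = 0 ∧ f (v p3) = 0 ∧ f (v p4) = 0 := by
  have h : v p1 ∉ sp K v {p2, p3, p4} := by
    intro h
    have h1 := rk_insert_of_mem_sp h
    have h2 : rk K v ({p2, p3, p4} : Finset E) ≤ 3 := rk_le_card.trans card_le_three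
    omega
  obtain ⟨f, hf, hX⟩ := e3_dual h
  exact ⟨f, hf, hX _ (by simp), hX _ (by simp), hX _ (by simp)⟩

private theorem e3_dual3 {p1 p2 p3 : E} (hp : rk K v {p1, p2, p3} = 3) :
    ∃ f : V →ₗ[K] K, f (v p1) = 1 ∧ f (v p2) = 0 ∧ f (v p3) = 0 := by
  have h : v p1 ∉ sp K v {p2, p3} := by
    intro h
    have h1 := rk_insert_of_mem_sp h
    have h2 : rk K v ({p2, p3} : Finset E) ≤ 2 := rk_le_card.trans card_le_two
    omega
  obtain ⟨f, hf, hX⟩ := e3_dual h
  exact ⟨f, hf, hX _ (by simp), hX _ (by simp)⟩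

private theorem e3_ne {f : V →ₗ[K] K} {a b : E} (h : f (v a) ≠ f (v b)) : a ≠ b := by
  rintro rfl
  exact h rfl

private theorem e3_nm1 {f : V →ₗ[K] K} {z a b : E} (hz : f (v z) = 0) (ha : f (v a) = 0)
    (hb : f (v b) ≠ 0) : v b ∉ sp K v {z, a} := by
  rw [sp_pair, mem_span_pair]
  rintro ⟨s, t, h⟩
  apply hb
  rw [← h]
  simp [hz, ha]

private theorem e3_nm2 (hv : Simple K v) {f : V →ₗ[K] K} {z a b : E} (hz : f (v z) = 0)
    (ha : f (v a) ≠ 0) (hb : f (v b) = 0) (hbz : b ≠ z) : v b ∉ sp K v {z, a} := by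
  rw [sp_pair, mem_span_pair]
  rintro ⟨s, t, h⟩
  have h1 := congrArg f h
  simp only [map_add, map_smul, smul_eq_mul, hz, hb, mul_zero, zero_add] at h1
  have h2 : t = 0 := (mul_eq_zero.1 h1).resolve_right ha
  rw [h2, zero_smul, add_zero] at h
  exact hbz (hv.2 b z (mem_span_singleton.2 ⟨s, h⟩))

private theorem e3_nm3 (hv : Simple K v) {f : V →ₗ[K] K} {z a b : E} (hz : f (v z) ≠ 0)
    (ha : f (v a) = 0) (hb : f (v b) = 0) (hba : b ≠ a) : v b ∉ sp K v {z, a} := by
  have := e3_nm2 hv (z := a) (a := z) (b := b) ha hz hb hba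
  rwa [Finset.pair_comm] at this

/-- coordinates of an element of a line -/
private theorem e3_edge (hv : Simple K v) {p q x : E} (hx : v x ∈ sp K v {p, q}) (hp : x ≠ p)
    (hq : x ≠ q) : ∃ a b : K, a ≠ 0 ∧ b ≠ 0 ∧ v x = a • v p + b • v q := by
  rw [sp_pair, mem_span_pair] at hx
  obtain ⟨a, b, h⟩ := hx
  refine ⟨a, b, ?_, ?_, h.symm⟩
  · rintro rfl
    rw [zero_smul, zero_add] at h
    exact hq (hv.2 x q (mem_span_singleton.2 ⟨b, h⟩))
  · rintro rfl
    rw [zero_smul, add_zero] at h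
    exact hp (hv.2 x p (mem_span_singleton.2 ⟨a, h⟩))

private theorem e3_hl (hv : Simple K v) {p q x : E} (hpq : p ≠ q) (hx : v x ∈ sp K v {p, q})
    (hp : x ≠ p) (hq : x ≠ q) : HL K v (cl K v {p, q}) := by
  refine ⟨isFl_cl, by rw [rk_cl, hv.rk_pair hpq], ?_⟩
  have h : ({x, p, q} : Finset E) ⊆ cl K v {p, q} := by
    intro y hy
    simp only [mem_insert, mem_singleton] at hy
    rcases hy with rfl | rfl | rfl
    · exact mem_cl.2 hx
    · exact subset_cl (by simp)
    · exact subset_cl (by simp)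
  have h3 : ({x, p, q} : Finset E).card = 3 := by
    rw [card_insert_of_notMem (by simp [hp, hq]), card_pair hpq]
  rw [← h3]
  exact card_le_card h

/-- in a face of a tetrahedron three elements on the three edges are not collinear -/
private theorem e3_face (hv : Simple K v) (hs : SG K v ∅ univ) {p1 p2 p3 x12 x13 x23 : E}
    (hp : rk K v {p1, p2, p3} = 3) (h12 : v x12 ∈ sp K v {p1, p2}) (n12 : x12 ≠ p1)
    (m12 : x12 ≠ p2) (h13 : v x13 ∈ sp K v {p1, p3}) (n13 : x13 ≠ p1) (m13 : x13 ≠ p3)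
    (h23 : v x23 ∈ sp K v {p2, p3}) (n23 : x23 ≠ p2) (m23 : x23 ≠ p3) :
    v x23 ∉ sp K v {x12, x13} := by
  intro hc
  obtain ⟨a1, a2, a10, a20, ha⟩ := e3_edge hv h12 n12 m12
  obtain ⟨b1, b3, b10, b30, hb⟩ := e3_edge hv h13 n13 m13
  obtain ⟨d2, d3, d20, d30, hd⟩ := e3_edge hv h23 n23 m23
  obtain ⟨f1, f11, f12, f13⟩ := e3_dual3 hp
  obtain ⟨f2, f22, f21, f23⟩ := e3_dual3 (v := v) (K := K) (p1 := p2) (p2 := p1) (p3 := p3)
    (by rw [← hp]; congr 1; ext; simp only [mem_insert, mem_singleton]; tauto)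
  obtain ⟨f3, f33, f31, f32⟩ := e3_dual3 (v := v) (K := K) (p1 := p3) (p2 := p1) (p3 := p2)
    (by rw [← hp]; congr 1; ext; simp only [mem_insert, mem_singleton]; tauto)
  have g12 : p1 ≠ p2 := e3_ne (v := v) (f := f1) (by rw [f11, f12]; simp)
  have g13 : p1 ≠ p3 := e3_ne (v := v) (f := f1) (by rw [f11, f13]; simp)
  have g23 : p2 ≠ p3 := e3_ne (v := v) (f := f2) (by rw [f22, f23]; simp)
  have gab : x12 ≠ x13 := e3_ne (v := v) (f := f2) (by rw [ha, hb]; simp [f21, f22, f23, a20])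
  have ga3 : x12 ≠ p3 := e3_ne (v := v) (f := f2) (by rw [ha]; simp [f21, f22, f23, a20])
  have gb2 : x13 ≠ p2 := e3_ne (v := v) (f := f3) (by rw [hb]; simp [f31, f32, f33, b30])
  have gd1 : x23 ≠ p1 := e3_ne (v := v) (f := f2) (by rw [hd]; simp [f21, f22, f23, d20])
  have gad : x23 ≠ x12 := e3_ne (v := v) (f := f3) (by rw [ha, hd]; simp [f31, f32, f33, d30])
  have gbd : x23 ≠ x13 := e3_ne (v := v) (f := f2) (by rw [hb, hd]; simp [f21, f22, f23, d20])
  have hL12 : cl K v {p1, p2} ≠ cl K v {p1, p3} := by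
    intro h
    have hp3 : p3 ∈ cl K v {p1, p2} := by rw [h]; exact subset_cl (by simp)
    refine e3_nm1 (K := K) (v := v) f31 f32 (by rw [f33]; exact one_ne_zero) (mem_cl.1 hp3)
  refine no_K4 hv (hne := hL12) (T := cl K v {p1, p2, p3}) isFl_cl (by rw [rk_cl, hp])
    (hs.mono (empty_subset _) (subset_univ _)) (L1 := cl K v {p1, p2}) (L2 := cl K v {p1, p3})
    (L3 := cl K v {p2, p3}) (L4 := cl K v {x12, x13}) ⟨isFl_cl, by rw [rk_cl, hv.rk_pair g12]⟩
    ⟨isFl_cl, by rw [rk_cl, hv.rk_pair g13]⟩ ⟨isFl_cl, by rw [rk_cl, hv.rk_pair g23]⟩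
    ⟨isFl_cl, by rw [rk_cl, hv.rk_pair gab]⟩ (a12 := p1) (a13 := p2) (a14 := x12) (a23 := p3)
    (a24 := x13) (a34 := x23) ?_ ?_ ?_ ?_ ?_ ?_ ?_ ?_
  · exact mem_inter.2 ⟨subset_cl (by simp), subset_cl (by simp)⟩
  · exact mem_inter.2 ⟨subset_cl (by simp), subset_cl (by simp)⟩
  · exact mem_inter.2 ⟨mem_cl.2 h12, subset_cl (by simp)⟩
  · exact mem_inter.2 ⟨subset_cl (by simp), subset_cl (by simp)⟩
  · exact mem_inter.2 ⟨mem_cl.2 h13, subset_cl (by simp)⟩
  · exact mem_inter.2 ⟨mem_cl.2 h23, mem_cl.2 hc⟩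
  · intro y hy
    simp only [mem_insert, mem_singleton] at hy
    rcases hy with rfl | rfl | rfl | rfl | rfl | rfl
    · exact subset_cl (by simp)
    · exact subset_cl (by simp)
    · exact mem_cl.2 (sp_mono (by intro u; simp; tauto) h12)
    · exact subset_cl (by simp)
    · exact mem_cl.2 (sp_mono (by intro u; simp; tauto) h13)
    · exact mem_cl.2 (sp_mono (by intro u; simp; tauto) h23)
  · rw [card_insert_of_notMem, card_insert_of_notMem, card_insert_of_notMem,
      card_insert_of_notMem, card_pair gbd.symm]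
    · simp only [mem_insert, mem_singleton, not_or]
      exact ⟨m13.symm, m23.symm⟩
    · simp only [mem_insert, mem_singleton, not_or]
      exact ⟨ga3, gab, gad.symm⟩
    · simp only [mem_insert, mem_singleton, not_or]
      exact ⟨m12.symm, g23, gb2.symm, n23.symm⟩
    · simp only [mem_insert, mem_singleton, not_or]
      exact ⟨g12, n12.symm, g13, n13.symm, gd1.symm⟩

end lines

section gf4

variable {K V E : Type*} [Field K] [Fintype K] [AddCommGroup V] [Module K V]
  [FiniteDimensional K V] [Fintype E] [DecidableEq E] {v : E → V}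

private theorem e3_ker {f : V →ₗ[K] K} {X : Finset E} (h : ∀ x ∈ X, f (v x) = 0) {e : E}
    (he : e ∈ cl K v X) : f (v e) = 0 := by
  have h1 : sp K v X ≤ LinearMap.ker f := sp_le_iff.2 fun x hx => by
    rw [LinearMap.mem_ker]; exact h x hx
  exact LinearMap.mem_ker.1 (h1 (mem_cl.1 he))

/-- four edge elements of a four-cycle of a tetrahedron are independent -/
private theorem e3_cyc (hK : Fintype.card K = 4) (hv : Simple K v) (h4 : rk K v univ = 4)
    (hs : SG K v ∅ univ) {p1 p2 p3 p4 x12 x13 x14 x23 x24 x34 : E}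
    (hp : rk K v {p1, p2, p3, p4} = 4)
    (h12 : v x12 ∈ sp K v {p1, p2}) (n12 : x12 ≠ p1) (m12 : x12 ≠ p2)
    (h13 : v x13 ∈ sp K v {p1, p3}) (n13 : x13 ≠ p1) (m13 : x13 ≠ p3)
    (h14 : v x14 ∈ sp K v {p1, p4}) (n14 : x14 ≠ p1) (m14 : x14 ≠ p4)
    (h23 : v x23 ∈ sp K v {p2, p3}) (n23 : x23 ≠ p2) (m23 : x23 ≠ p3)
    (h24 : v x24 ∈ sp K v {p2, p4}) (n24 : x24 ≠ p2) (m24 : x24 ≠ p4)
    (h34 : v x34 ∈ sp K v {p3, p4}) (n34 : x34 ≠ p3) (m34 : x34 ≠ p4) :
    v x23 ∉ sp K v {x14, x12, x34} := by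
  intro hc
  obtain ⟨a1, a2, a10, a20, ha⟩ := e3_edge hv h12 n12 m12
  obtain ⟨c1, c4, c10, c40, hc'⟩ := e3_edge hv h14 n14 m14
  obtain ⟨d2, d3, d20, d30, hd⟩ := e3_edge hv h23 n23 m23
  obtain ⟨m2, m4, m20, m40, hm⟩ := e3_edge hv h24 n24 m24
  obtain ⟨n3, n4, n30, n40, hn⟩ := e3_edge hv h34 n34 m34
  obtain ⟨f1, f11, f12, f13, f14⟩ := e3_dual4 hp
  obtain ⟨f2, f22, f21, f23, f24⟩ := e3_dual4 (v := v) (K := K) (p1 := p2) (p2 := p1) (p3 := p3)
    (p4 := p4) (by rw [← hp]; congr 1; ext; simp only [mem_insert, mem_singleton]; tauto)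
  obtain ⟨f3, f33, f31, f32, f34⟩ := e3_dual4 (v := v) (K := K) (p1 := p3) (p2 := p1) (p3 := p2)
    (p4 := p4) (by rw [← hp]; congr 1; ext; simp only [mem_insert, mem_singleton]; tauto)
  obtain ⟨f4, f44, f41, f42, f43⟩ := e3_dual4 (v := v) (K := K) (p1 := p4) (p2 := p1) (p3 := p2)
    (p4 := p3) (by rw [← hp]; congr 1; ext; simp only [mem_insert, mem_singleton]; tauto)
  have g12 : p1 ≠ p2 := e3_ne (v := v) (f := f1) (by rw [f11, f12]; simp)
  have g13 : p1 ≠ p3 := e3_ne (v := v) (f := f1) (by rw [f11, f13]; simp)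
  have g14 : p1 ≠ p4 := e3_ne (v := v) (f := f1) (by rw [f11, f14]; simp)
  have g23 : p2 ≠ p3 := e3_ne (v := v) (f := f2) (by rw [f22, f23]; simp)
  have g24 : p2 ≠ p4 := e3_ne (v := v) (f := f2) (by rw [f22, f24]; simp)
  have g34 : p3 ≠ p4 := e3_ne (v := v) (f := f3) (by rw [f33, f34]; simp)
  -- values of the functionals
  have z1 : f1 (v x14) = c1 := by rw [hc']; simp [f11, f14]
  have z2 : f2 (v x14) = 0 := by rw [hc']; simp [f21, f24]
  have z3 : f3 (v x14) = 0 := by rw [hc']; simp [f31, f34]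
  have z4 : f4 (v x14) = c4 := by rw [hc']; simp [f41, f44]
  have A1 : f1 (v x12) = a1 := by rw [ha]; simp [f11, f12]
  have A2 : f2 (v x12) = a2 := by rw [ha]; simp [f21, f22]
  have A3 : f3 (v x12) = 0 := by rw [ha]; simp [f31, f32]
  have A4 : f4 (v x12) = 0 := by rw [ha]; simp [f41, f42]
  have D1 : f1 (v x23) = 0 := by rw [hd]; simp [f12, f13]
  have D2 : f2 (v x23) = d2 := by rw [hd]; simp [f22, f23]
  have D3 : f3 (v x23) = d3 := by rw [hd]; simp [f32, f33]
  have D4 : f4 (v x23) = 0 := by rw [hd]; simp [f42, f43]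
  have M1 : f1 (v x24) = 0 := by rw [hm]; simp [f12, f14]
  have M2 : f2 (v x24) = m2 := by rw [hm]; simp [f22, f24]
  have M3 : f3 (v x24) = 0 := by rw [hm]; simp [f32, f34]
  have M4 : f4 (v x24) = m4 := by rw [hm]; simp [f42, f44]
  have N1 : f1 (v x34) = 0 := by rw [hn]; simp [f13, f14]
  have N2 : f2 (v x34) = 0 := by rw [hn]; simp [f23, f24]
  have N3 : f3 (v x34) = n3 := by rw [hn]; simp [f33, f34]
  have N4 : f4 (v x34) = n4 := by rw [hn]; simp [f43, f44]
  -- heavy lines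
  have hA := e3_hl hv g12 h12 n12 m12
  have hB := e3_hl hv g13 h13 n13 m13
  have hC := e3_hl hv g14 h14 n14 m14
  have hr : rk K v (cl K v {p1, p2} ∪ cl K v {p1, p3} ∪ cl K v {p1, p4}) = 4 := by
    refine le_antisymm (h4 ▸ rk_mono (subset_univ _)) ?_
    rw [← hp]
    refine rk_mono ?_
    intro y hy
    simp only [mem_insert, mem_singleton] at hy
    simp only [mem_union]
    rcases hy with rfl | rfl | rfl | rfl
    · exact Or.inl (Or.inl (subset_cl (by simp)))
    · exact Or.inl (Or.inl (subset_cl (by simp)))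
    · exact Or.inl (Or.inr (subset_cl (by simp)))
    · exact Or.inr (subset_cl (by simp))
  obtain ⟨o, -, ho, -, -, -, hsum⟩ := frame hK hv h4 hs hA hB hC (q := p1) (subset_cl (by simp))
    (subset_cl (by simp)) (subset_cl (by simp)) hr (z := x14) (mem_cl.2 h14) n14
  set A' := cl K v (insert x14 (cl K v {p1, p2})) with hA'
  set B' := cl K v (insert x14 (cl K v {p1, p3})) with hB'
  have kA : ∀ e ∈ A', f3 (v e) = 0 := by
    intro e he
    refine e3_ker (fun x hx => ?_) he
    rcases mem_insert.1 hx with rfl | hx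
    · exact z3
    · refine e3_ker (fun y hy => ?_) hx
      simp only [mem_insert, mem_singleton] at hy
      rcases hy with rfl | rfl
      · exact f31
      · exact f32
  have kB : ∀ e ∈ B', f2 (v e) = 0 := by
    intro e he
    refine e3_ker (fun x hx => ?_) he
    rcases mem_insert.1 hx with rfl | hx
    · exact z2
    · refine e3_ker (fun y hy => ?_) hx
      simp only [mem_insert, mem_singleton] at hy
      rcases hy with rfl | rfl
      · exact f21
      · exact f23
  have iA1 : p1 ∈ A' := subset_cl (mem_insert_of_mem (subset_cl (by simp)))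
  have iA2 : p2 ∈ A' := subset_cl (mem_insert_of_mem (subset_cl (by simp)))
  have iA3 : x12 ∈ A' := subset_cl (mem_insert_of_mem (mem_cl.2 h12))
  have iAz : x14 ∈ A' := subset_cl (mem_insert_self _ _)
  -- p4 lies in A'
  have iA4 : p4 ∈ A' := by
    refine mem_cl.2 ?_
    have : v p4 ∈ sp K v {x14, p1} := by
      rw [sp_pair, mem_span_pair]
      refine ⟨c4⁻¹, -(c4⁻¹ * c1), ?_⟩
      rw [hc', smul_add, smul_smul, smul_smul, inv_mul_cancel₀ c40]
      module
    refine sp_le_iff.2 (fun x hx => ?_) this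
    simp only [mem_insert, mem_singleton] at hx
    rcases hx with rfl | rfl
    · exact mem_sp (mem_insert_self _ _)
    · exact mem_sp (mem_insert_of_mem (subset_cl (by simp)))
  have iA5 : x24 ∈ A' := by
    refine isFl_cl.mem ?_
    refine sp_le_iff.2 (fun x hx => ?_) h24
    simp only [mem_insert, mem_singleton] at hx
    rcases hx with rfl | rfl
    · exact mem_sp iA2
    · exact mem_sp iA4
  -- four classes in A'
  have hp3 : rk K v {p1, p2, p4} = 3 := by
    have h1 : rk K v ({p3, p1, p2, p4} : Finset E) = 4 := by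
      rw [← hp]; congr 1; ext; simp only [mem_insert, mem_singleton]; tauto
    have h2 : rk K v (insert p3 ({p1, p2, p4} : Finset E)) ≤ rk K v {p1, p2, p4} + 1 :=
      rk_insert_le
    have h3 : rk K v ({p1, p2, p4} : Finset E) ≤ 3 := rk_le_card.trans card_le_three
    omega
  have face1 : v x24 ∉ sp K v {x14, x12} := by
    rw [Finset.pair_comm]
    exact e3_face hv hs hp3 h12 n12 m12 h14 n14 m14 h24 n24 m24
  have face2 : v x12 ∉ sp K v {x14, x24} := by
    intro h
    apply face1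
    have h5 : v x12 ∉ sp K v ({x14} : Finset E) := by
      rw [sp_singleton]
      intro h6
      have := hv.2 _ _ h6
      rw [this, z2] at A2
      exact a20 A2.symm
    rw [Finset.pair_comm] at h
    have := mem_sp_insert_exchange h h5
    rwa [Finset.pair_comm] at this
  have hpen4 : 4 ≤ pen K v x14 A' := by
    have hcard : ({p1, p2, x12, x24} : Finset E).card = 4 := by
      rw [card_insert_of_notMem, card_insert_of_notMem, card_pair]
      · exact e3_ne (v := v) (f := f4) (by rw [A4, M4]; exact m40.symm)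
      · simp only [mem_insert, mem_singleton, not_or]
        exact ⟨m12.symm, n24.symm⟩
      · simp only [mem_insert, mem_singleton, not_or]
        exact ⟨g12, n12.symm, e3_ne (v := v) (f := f1) (by rw [f11, M1]; exact one_ne_zero)⟩
    rw [← hcard]
    refine card_le_pen hv ?_ ?_ ?_
    · intro y hy
      simp only [mem_insert, mem_singleton] at hy
      rcases hy with rfl | rfl | rfl | rfl
      · exact iA1
      · exact iA2
      · exact iA3
      · exact iA5
    · simp only [mem_insert, mem_singleton, not_or]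
      refine ⟨n14, ?_, ?_, ?_⟩
      · exact e3_ne (v := v) (f := f2) (by rw [z2, f22]; exact zero_ne_one)
      · exact e3_ne (v := v) (f := f2) (by rw [z2, A2]; exact a20.symm)
      · exact e3_ne (v := v) (f := f2) (by rw [z2, M2]; exact m20.symm)
    · intro a haS b hbS hab
      simp only [mem_insert, mem_singleton] at haS hbS
      rcases haS with rfl | rfl | rfl | rfl <;> rcases hbS with rfl | rfl | rfl | rfl
      · exact absurd rfl hab
      · exact e3_nm1 z2 f21 (by rw [f22]; exact one_ne_zero)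
      · exact e3_nm1 z2 f21 (by rw [A2]; exact a20)
      · exact e3_nm1 z2 f21 (by rw [M2]; exact m20)
      · exact e3_nm2 hv z2 (by rw [f22]; exact one_ne_zero) f21 n14.symm
      · exact absurd rfl hab
      · exact e3_nm3 hv (f := f4) (by rw [z4]; exact c40) f42 A4 m12
      · exact e3_nm3 hv (f := f1) (by rw [z1]; exact c10) f12 M1 n24
      · exact e3_nm2 hv z2 (by rw [A2]; exact a20) f21 n14.symm
      · exact e3_nm3 hv (f := f4) (by rw [z4]; exact c40) A4 f42 m12.symm
      · exact absurd rfl hab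
      · exact face1
      · exact e3_nm2 hv z2 (by rw [M2]; exact m20) f21 n14.symm
      · exact e3_nm3 hv (f := f1) (by rw [z1]; exact c10) M1 f12 n24.symm
      · exact face2
      · exact absurd rfl hab
  -- two further planes
  have zp2 : x14 ≠ p2 := e3_ne (v := v) (f := f2) (by rw [z2, f22]; exact zero_ne_one)
  have zp3 : x14 ≠ p3 := e3_ne (v := v) (f := f3) (by rw [z3, f33]; exact zero_ne_one)
  have zx23 : x14 ≠ x23 := e3_ne (v := v) (f := f3) (by rw [z3, D3]; exact d30.symm)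
  have zx12 : x14 ≠ x12 := e3_ne (v := v) (f := f2) (by rw [z2, A2]; exact a20.symm)
  have zx34 : x14 ≠ x34 := e3_ne (v := v) (f := f3) (by rw [z3, N3]; exact n30.symm)
  set D' := cl K v {x14, p2, p3} with hD'
  set P := cl K v {x14, x12, x34} with hP
  have iD1 : x14 ∈ D' := subset_cl (by simp)
  have iD2 : p2 ∈ D' := subset_cl (by simp)
  have iD3 : p3 ∈ D' := subset_cl (by simp)
  have iD4 : x23 ∈ D' := mem_cl.2 (sp_mono (by intro u; simp; tauto) h23)
  have iP1 : x14 ∈ P := subset_cl (by simp)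
  have iP2 : x12 ∈ P := subset_cl (by simp)
  have iP3 : x34 ∈ P := subset_cl (by simp)
  have iP4 : x23 ∈ P := mem_cl.2 hc
  have rD : rk K v D' = 3 := by
    rw [hD', rk_cl]
    have h1 : v p2 ∉ sp K v ({x14, p3} : Finset E) :=
      e3_nm1 z2 f23 (by rw [f22]; exact one_ne_zero)
    have h2 := rk_insert_of_not_mem_sp h1
    rw [hv.rk_pair zp3] at h2
    have e : ({x14, p2, p3} : Finset E) = insert p2 {x14, p3} := Finset.insert_comm _ _ _
    rw [e, h2]
  have rP : rk K v P = 3 := by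
    rw [hP, rk_cl]
    have h1 : v x12 ∉ sp K v ({x14, x34} : Finset E) :=
      e3_nm1 z2 N2 (by rw [A2]; exact a20)
    have h2 := rk_insert_of_not_mem_sp h1
    rw [hv.rk_pair zx34] at h2
    have e : ({x14, x12, x34} : Finset E) = insert x12 {x14, x34} := Finset.insert_comm _ _ _
    rw [e, h2]
  have nDA : D' ≠ A' := by
    intro h
    have := kA p3 (h ▸ iD3)
    rw [f33] at this
    exact one_ne_zero this
  have nDB : D' ≠ B' := by
    intro h
    have := kB p2 (h ▸ iD2)
    rw [f22] at this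
    exact one_ne_zero this
  have nPA : P ≠ A' := by
    intro h
    have := kA x34 (h ▸ iP3)
    rw [N3] at this
    exact n30 this
  have nPB : P ≠ B' := by
    intro h
    have := kB x12 (h ▸ iP2)
    rw [A2] at this
    exact a20 this
  have nDP : D' ≠ P := by
    intro h
    have j2 : v p2 ∈ sp K v P := mem_sp (h ▸ iD2)
    have j3 : v p3 ∈ sp K v P := mem_sp (h ▸ iD3)
    have j1 : v p1 ∈ sp K v P := by
      have e : v p1 = a1⁻¹ • (v x12 - a2 • v p2) := by
        rw [ha, add_sub_cancel_right, smul_smul, inv_mul_cancel₀ a10, one_smul]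
      rw [e]
      exact smul_mem _ _ (sub_mem (mem_sp iP2) (smul_mem _ _ j2))
    have j4 : v p4 ∈ sp K v P := by
      have e : v p4 = c4⁻¹ • (v x14 - c1 • v p1) := by
        rw [hc', add_sub_cancel_left, smul_smul, inv_mul_cancel₀ c40, one_smul]
      rw [e]
      exact smul_mem _ _ (sub_mem (mem_sp iP1) (smul_mem _ _ j1))
    have : sp K v {p1, p2, p3, p4} ≤ sp K v P := by
      rw [sp_le_iff]
      intro x hx
      simp only [mem_insert, mem_singleton] at hx
      rcases hx with rfl | rfl | rfl | rfl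
      · exact j1
      · exact j2
      · exact j3
      · exact j4
    have := rk_le_of_sp_le this
    omega
  have penD : 3 ≤ pen K v x14 D' := by
    have hcard : ({p2, p3, x23} : Finset E).card = 3 := by
      rw [card_insert_of_notMem, card_pair m23.symm]
      simp only [mem_insert, mem_singleton, not_or]
      exact ⟨g23, n23.symm⟩
    rw [← hcard]
    refine card_le_pen hv ?_ ?_ ?_
    · intro y hy
      simp only [mem_insert, mem_singleton] at hy
      rcases hy with rfl | rfl | rfl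
      · exact iD2
      · exact iD3
      · exact iD4
    · simp only [mem_insert, mem_singleton, not_or]
      exact ⟨zp2, zp3, zx23⟩
    · intro a haS b hbS hab
      simp only [mem_insert, mem_singleton] at haS hbS
      rcases haS with rfl | rfl | rfl <;> rcases hbS with rfl | rfl | rfl
      · exact absurd rfl hab
      · exact e3_nm1 z3 f32 (by rw [f33]; exact one_ne_zero)
      · exact e3_nm1 z3 f32 (by rw [D3]; exact d30)
      · exact e3_nm1 z2 f23 (by rw [f22]; exact one_ne_zero)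
      · exact absurd rfl hab
      · exact e3_nm1 z2 f23 (by rw [D2]; exact d20)
      · exact e3_nm2 hv z3 (by rw [D3]; exact d30) f32 zp2.symm
      · exact e3_nm2 hv z2 (by rw [D2]; exact d20) f23 zp3.symm
      · exact absurd rfl hab
  have penP : 3 ≤ pen K v x14 P := by
    have hcard : ({x12, x34, x23} : Finset E).card = 3 := by
      rw [card_insert_of_notMem, card_pair]
      · exact e3_ne (v := v) (f := f2) (by rw [N2, D2]; exact d20.symm)
      simp only [mem_insert, mem_singleton, not_or]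
      exact ⟨e3_ne (v := v) (f := f2) (by rw [N2, A2]; exact a20),
        e3_ne (v := v) (f := f3) (by rw [A3, D3]; exact d30.symm)⟩
    rw [← hcard]
    refine card_le_pen hv ?_ ?_ ?_
    · intro y hy
      simp only [mem_insert, mem_singleton] at hy
      rcases hy with rfl | rfl | rfl
      · exact iP2
      · exact iP3
      · exact iP4
    · simp only [mem_insert, mem_singleton, not_or]
      exact ⟨zx12, zx34, zx23⟩
    · intro a haS b hbS hab
      simp only [mem_insert, mem_singleton] at haS hbS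
      rcases haS with rfl | rfl | rfl <;> rcases hbS with rfl | rfl | rfl
      · exact absurd rfl hab
      · exact e3_nm1 z3 A3 (by rw [N3]; exact n30)
      · exact e3_nm1 z3 A3 (by rw [D3]; exact d30)
      · exact e3_nm1 z2 N2 (by rw [A2]; exact a20)
      · exact absurd rfl hab
      · exact e3_nm1 z2 N2 (by rw [D2]; exact d20)
      · exact e3_nm2 hv z3 (by rw [D3]; exact d30) A3 zx12.symm
      · exact e3_nm2 hv z2 (by rw [D2]; exact d20) N2 zx34.symm
      · exact absurd rfl hab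
  have h5 := hsum {D', P} (by
    intro Q hQ
    simp only [mem_insert, mem_singleton] at hQ
    rcases hQ with rfl | rfl
    · exact ⟨isFl_cl, rD, iD1, nDA, nDB⟩
    · exact ⟨isFl_cl, rP, iP1, nPA, nPB⟩)
  rw [sum_pair nDP] at h5
  omega

private theorem e3_r3 {p1 p2 p3 p4 : E} (hp : rk K v {p1, p2, p3, p4} = 4) :
    rk K v {p2, p3, p4} = 3 := by
  have h2 : rk K v (insert p1 ({p2, p3, p4} : Finset E)) ≤ rk K v {p2, p3, p4} + 1 :=
    rk_insert_le
  have h3 : rk K v ({p2, p3, p4} : Finset E) ≤ 3 := rk_le_card.trans card_le_three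
  omega

omit [Fintype K] [FiniteDimensional K V] in
private theorem e3_sc {x y : V} {r : K} (hr : r ≠ 0) (h : x = r • y) :
    span K {x} = span K {y} := by
  rw [h]
  exact Submodule.span_singleton_smul_eq (IsUnit.mk0 r hr) y

omit [Fintype K] [FiniteDimensional K V] in
private theorem e3_sc2 {s t u w : K} (hs : s ≠ 0) (ht : t ≠ 0) (hu : u ≠ 0) (hw : w ≠ 0)
    {x y z : V} (hz : z = s • x + t • y) :
    span K {z} = span K {u • x + (t * u / (s * w)) • (w • y)} := by
  refine e3_sc (r := s / u) (div_ne_zero hs hu) ?_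
  rw [hz]
  match_scalars <;> field_simp

private theorem e3_triple {e f g : E} : sp K v {e, f, g} = span K {v e, v f, v g} := by
  unfold sp
  congr 1
  simp [Set.image_insert_eq]

/-- the tetrahedron with all edges heavy does not exist -/
private theorem e3_tetra (hK : Fintype.card K = 4) (hv : Simple K v) (h4 : rk K v univ = 4)
    (hs : SG K v ∅ univ) {q1 q2 q3 g a b c d m n : E}
    (hp : rk K v {q1, q2, q3, g} = 4)
    (ha : v a ∈ sp K v {q1, q2}) (ha1 : a ≠ q1) (ha2 : a ≠ q2)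
    (hb : v b ∈ sp K v {q1, q3}) (hb1 : b ≠ q1) (hb2 : b ≠ q3)
    (hc : v c ∈ sp K v {q1, g}) (hc1 : c ≠ q1) (hc2 : c ≠ g)
    (hd : v d ∈ sp K v {q2, q3}) (hd1 : d ≠ q2) (hd2 : d ≠ q3)
    (hm : v m ∈ sp K v {q2, g}) (hm1 : m ≠ q2) (hm2 : m ≠ g)
    (hn : v n ∈ sp K v {q3, g}) (hn1 : n ≠ q3) (hn2 : n ≠ g) : False := by
  have hp' : ∀ X : Finset E, X = {q1, q2, q3, g} → rk K v X = 4 := fun X hX => by rw [hX, hp]
  have f1 : v a ∉ sp K v {c, m} :=
    e3_face hv hs (p1 := g) (p2 := q1) (p3 := q2)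
      (e3_r3 (hp' {q3, g, q1, q2} (by ext; simp only [mem_insert, mem_singleton]; tauto)))
      (by rwa [Finset.pair_comm]) hc2 hc1 (by rwa [Finset.pair_comm]) hm2 hm1 ha ha1 ha2
  have f2 : v b ∉ sp K v {c, n} :=
    e3_face hv hs (p1 := g) (p2 := q1) (p3 := q3)
      (e3_r3 (hp' {q2, g, q1, q3} (by ext; simp only [mem_insert, mem_singleton]; tauto)))
      (by rwa [Finset.pair_comm]) hc2 hc1 (by rwa [Finset.pair_comm]) hn2 hn1 hb hb1 hb2
  have f3 : v d ∉ sp K v {m, n} :=
    e3_face hv hs (p1 := g) (p2 := q2) (p3 := q3)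
      (e3_r3 (hp' {q1, g, q2, q3} (by ext; simp only [mem_insert, mem_singleton]; tauto)))
      (by rwa [Finset.pair_comm]) hm2 hm1 (by rwa [Finset.pair_comm]) hn2 hn1 hd hd1 hd2
  have f4 : v d ∉ sp K v {a, b} :=
    e3_face hv hs (p1 := q1) (p2 := q2) (p3 := q3)
      (e3_r3 (hp' {g, q1, q2, q3} (by ext; simp only [mem_insert, mem_singleton]; tauto)))
      ha ha1 ha2 hb hb1 hb2 hd hd1 hd2
  have g1 : v d ∉ sp K v {c, a, n} :=
    e3_cyc hK hv h4 hs hp ha ha1 ha2 hb hb1 hb2 hc hc1 hc2 hd hd1 hd2 hm hm1 hm2 hn hn1 hn2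
  have g3 : v m ∉ sp K v {b, a, n} :=
    e3_cyc hK hv h4 hs (p1 := q1) (p2 := q2) (p3 := g) (p4 := q3)
      (hp' _ (by ext; simp only [mem_insert, mem_singleton]; tauto)) ha ha1 ha2 hc hc1 hc2
      hb hb1 hb2 hm hm1 hm2 hd hd1 hd2 (by rwa [Finset.pair_comm]) hn2 hn1
  obtain ⟨a1, a2, a10, a20, ea⟩ := e3_edge hv ha ha1 ha2
  obtain ⟨b1, b3, b10, b30, eb⟩ := e3_edge hv hb hb1 hb2
  obtain ⟨c1, c4, c10, c40, ec⟩ := e3_edge hv hc hc1 hc2
  obtain ⟨d2, d3, d20, d30, ed⟩ := e3_edge hv hd hd1 hd2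
  obtain ⟨m2, m4, m20, m40, em⟩ := e3_edge hv hm hm1 hm2
  obtain ⟨n3, n4, n30, n40, en⟩ := e3_edge hv hn hn1 hn2
  rw [sp_pair] at f1 f2 f3 f4
  rw [e3_triple] at g1 g3
  have u1 : c1 / c4 ≠ 0 := div_ne_zero c10 c40
  have u2 : m2 / m4 ≠ 0 := div_ne_zero m20 m40
  have u3 : n3 / n4 ≠ 0 := div_ne_zero n30 n40
  refine e3_tet hK (e1 := (c1 / c4) • v q1) (e2 := (m2 / m4) • v q2) (e3 := (n3 / n4) • v q3)
    (e4 := v g) ?_ ?_ ?_ (e3_sc2 a10 a20 u1 u2 ea) (e3_sc2 b10 b30 u1 u3 eb)
    (e3_sc (r := c4) c40 ?_) (e3_sc2 d20 d30 u2 u3 ed) (e3_sc (r := m4) m40 ?_)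
    (e3_sc (r := n4) n40 ?_) f1 f2 f3 f4 g1 g3
  · exact div_ne_zero (mul_ne_zero a20 u1) (mul_ne_zero a10 u2)
  · exact div_ne_zero (mul_ne_zero b30 u1) (mul_ne_zero b10 u3)
  · exact div_ne_zero (mul_ne_zero d30 u2) (mul_ne_zero d20 u3)
  · rw [ec]; match_scalars <;> field_simp
  · rw [em]; match_scalars <;> field_simp
  · rw [en]; match_scalars <;> field_simp

private theorem e3_sub {L : Finset E} (hv : Simple K v) (hL : HL K v L) {x y : E} (hxy : x ≠ y)
    (hx : x ∈ L) (hy : y ∈ L) : cl K v {x, y} = L := by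
  refine hL.1.cl_eq ?_ (by rw [hL.2.1, hv.rk_pair hxy])
  intro e he
  simp only [mem_insert, mem_singleton] at he
  rcases he with rfl | rfl
  · exact hx
  · exact hy

private theorem e3_line {L L' : Finset E} (hv : Simple K v) (hL : HL K v L) (hL' : HL K v L')
    {x y : E} (hxy : x ≠ y) (hx : x ∈ L) (hy : y ∈ L) (hx' : x ∈ L') (hy' : y ∈ L') :
    L = L' := by
  rw [← e3_sub hv hL hxy hx hy, ← e3_sub hv hL' hxy hx' hy']

private theorem e3_third {L : Finset E} (hL : 3 ≤ L.card) (x y : E) :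
    ∃ z ∈ L, z ≠ x ∧ z ≠ y := by
  have h : ({x, y} : Finset E).card < L.card := lt_of_le_of_lt card_le_two (by omega)
  obtain ⟨z, hz, hz'⟩ := exists_mem_notMem_of_card_lt_card h
  simp only [mem_insert, mem_singleton, not_or] at hz'
  exact ⟨z, hz, hz'.1, hz'.2⟩

/-- two lines through a point -/
private theorem e3_two_lines {A B : Finset E} (hv : Simple K v) (hA : HL K v A) (hB : HL K v B)
    {q : E} (hqA : q ∈ A) (hqB : q ∈ B) (hAB : A ≠ B) : rk K v (A ∪ B) = 3 := by
  have h1 := rk_union_add_rk_inter (K := K) (v := v) (X := A) (Y := B)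
  have h2 : 1 ≤ rk K v (A ∩ B) := by
    rw [← hv.rk_singleton (e := q)]
    exact rk_mono (by simp [hqA, hqB])
  have h3 : A ⊂ A ∪ B := by
    refine ssubset_of_subset_of_ne subset_union_left ?_
    intro h
    have h5 : B ⊆ A := by rw [h]; exact subset_union_right
    exact hAB (hB.1.eq_of_subset_of_rk_le h5 (by rw [hA.2.1, hB.2.1])).symm
  have h4 := hA.1.rk_lt_of_ssubset h3
  have := hA.2.1
  have := hB.2.1
  omega

private theorem e3_exch (hv : Simple K v) {z a b : E} (hbz : b ≠ z) (h : v b ∈ sp K v {z, a}) :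
    v a ∈ sp K v {z, b} := by
  have h1 : v b ∉ sp K v ({z} : Finset E) := by
    rw [sp_singleton]
    exact fun h => hbz (hv.2 _ _ h)
  rw [Finset.pair_comm] at h
  have := mem_sp_insert_exchange h h1
  rwa [Finset.pair_comm] at this

private theorem e3_basis {A B C : Finset E} (hv : Simple K v) (hA : HL K v A) (hB : HL K v B)
    (hC : HL K v C) {q1 q2 q3 z : E} (h1A : q1 ∈ A) (h1B : q1 ∈ B) (h1C : q1 ∈ C) (h2A : q2 ∈ A)
    (h3B : q3 ∈ B) (hz : z ∈ C) (h21 : q2 ≠ q1) (h31 : q3 ≠ q1) (hz1 : z ≠ q1)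
    (hr : rk K v (A ∪ B ∪ C) = 4) : rk K v {q1, q2, q3, z} = 4 := by
  refine le_antisymm (rk_le_card.trans card_le_four) ?_
  rw [← hr]
  refine rk_le_of_sp_le (sp_le_iff.2 fun e he => ?_)
  simp only [mem_union] at he
  rcases he with (he | he) | he
  · rw [← e3_sub hv hA h21.symm h1A h2A] at he
    exact sp_mono (by intro u; simp; tauto) (mem_cl.1 he)
  · rw [← e3_sub hv hB h31.symm h1B h3B] at he
    exact sp_mono (by intro u; simp; tauto) (mem_cl.1 he)
  · rw [← e3_sub hv hC hz1.symm h1C hz] at he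
    exact sp_mono (by intro u; simp; tauto) (mem_cl.1 he)

private theorem e3_z (hK : Fintype.card K = 4) (hv : Simple K v) (h4 : rk K v univ = 4)
    (hs : SG K v ∅ univ) {q1 q2 q3 : E} {A B C D M : Finset E} (hA : HL K v A) (hB : HL K v B)
    (hC : HL K v C) (hD : HL K v D) (hM : HL K v M) (h1A : q1 ∈ A) (h1B : q1 ∈ B) (h1C : q1 ∈ C)
    (h2A : q2 ∈ A) (h3B : q3 ∈ B) (h21 : q2 ≠ q1) (h31 : q3 ≠ q1) (h2D : q2 ∈ D) (h3D : q3 ∈ D)
    (h2M : q2 ∈ M) (hr : rk K v (A ∪ B ∪ C) = 4) (hMS : M ⊆ cl K v (A ∪ C)) (h1M : q1 ∉ M)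
    (hCM : ∀ g ∈ C, g ∉ M) {z : E} (hz : z ∈ C) (hzq : z ≠ q1) :
    M.card = 3 ∧ ∀ l ∈ A, l ≠ q1 → l ≠ q2 → ∃ m ∈ M, m ≠ q2 ∧ v m ∈ sp K v {z, l} := by
  have hp := e3_basis hv hA hB hC h1A h1B h1C h2A h3B hz h21 h31 hzq hr
  obtain ⟨f1, f11, f12, f13, f1z⟩ := e3_dual4 hp
  obtain ⟨f2, f22, f21, f23, f2z⟩ := e3_dual4 (v := v) (K := K) (p1 := q2) (p2 := q1) (p3 := q3)
    (p4 := z) (by rw [← hp]; congr 1; ext; simp only [mem_insert, mem_singleton]; tauto)
  obtain ⟨f3, f33, f31, f32, f3z⟩ := e3_dual4 (v := v) (K := K) (p1 := q3) (p2 := q1) (p3 := q2)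
    (p4 := z) (by rw [← hp]; congr 1; ext; simp only [mem_insert, mem_singleton]; tauto)
  obtain ⟨f4, f4z, f41, f42, f43⟩ := e3_dual4 (v := v) (K := K) (p1 := z) (p2 := q1) (p3 := q2)
    (p4 := q3) (by rw [← hp]; congr 1; ext; simp only [mem_insert, mem_singleton]; tauto)
  have g23 : q2 ≠ q3 := e3_ne (v := v) (f := f2) (by rw [f22, f23]; exact one_ne_zero)
  have zq2 : z ≠ q2 := e3_ne (v := v) (f := f2) (by rw [f2z, f22]; exact zero_ne_one)
  have zq3 : z ≠ q3 := e3_ne (v := v) (f := f3) (by rw [f3z, f33]; exact zero_ne_one)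
  obtain ⟨d, hd, hd2, hd3⟩ := e3_third hD.2.2 q2 q3
  have hdsp : v d ∈ sp K v {q2, q3} := by
    rw [← e3_sub hv hD g23 h2D h3D] at hd
    exact mem_cl.1 hd
  obtain ⟨d2, d3, d20, d30, ed⟩ := e3_edge hv hdsp hd2 hd3
  have D2 : f2 (v d) = d2 := by rw [ed]; simp [f22, f23]
  have D3 : f3 (v d) = d3 := by rw [ed]; simp [f32, f33]
  obtain ⟨o, -, ho, -, -, -, hsum⟩ := frame hK hv h4 hs hA hB hC h1A h1B h1C hr hz hzq
  set A' := cl K v (insert z A) with hA'
  set B' := cl K v (insert z B) with hB'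
  have eA : ∀ e ∈ A, v e ∈ sp K v {q1, q2} := by
    intro e he
    rw [← e3_sub hv hA h21.symm h1A h2A] at he
    exact mem_cl.1 he
  have eB : ∀ e ∈ B, v e ∈ sp K v {q1, q3} := by
    intro e he
    rw [← e3_sub hv hB h31.symm h1B h3B] at he
    exact mem_cl.1 he
  have kA : ∀ e ∈ A', f3 (v e) = 0 := by
    intro e he
    refine e3_ker (fun x hx => ?_) he
    rcases mem_insert.1 hx with rfl | hx
    · exact f3z
    · refine e3_ker (X := {q1, q2}) (fun y hy => ?_) (mem_cl.2 (eA x hx))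
      simp only [mem_insert, mem_singleton] at hy
      rcases hy with rfl | rfl
      · exact f31
      · exact f32
  have kB : ∀ e ∈ B', f2 (v e) = 0 := by
    intro e he
    refine e3_ker (fun x hx => ?_) he
    rcases mem_insert.1 hx with rfl | hx
    · exact f2z
    · refine e3_ker (X := {q1, q3}) (fun y hy => ?_) (mem_cl.2 (eB x hx))
      simp only [mem_insert, mem_singleton] at hy
      rcases hy with rfl | rfl
      · exact f21
      · exact f23
  -- the plane spanned by z and D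
  set D' := cl K v {z, q2, q3} with hD'
  have iD1 : z ∈ D' := subset_cl (by simp)
  have iD2 : q2 ∈ D' := subset_cl (by simp)
  have iD3 : q3 ∈ D' := subset_cl (by simp)
  have iD4 : d ∈ D' := mem_cl.2 (sp_mono (by intro u; simp; tauto) hdsp)
  have zd : z ≠ d := e3_ne (v := v) (f := f3) (by rw [f3z, D3]; exact d30.symm)
  have rD : rk K v D' = 3 := by
    rw [hD', rk_cl]
    have h1 : v q2 ∉ sp K v ({z, q3} : Finset E) :=
      e3_nm1 f2z f23 (by rw [f22]; exact one_ne_zero)
    have h2 := rk_insert_of_not_mem_sp h1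
    rw [hv.rk_pair zq3] at h2
    have e : ({z, q2, q3} : Finset E) = insert q2 {z, q3} := Finset.insert_comm _ _ _
    rw [e, h2]
  have nDA : D' ≠ A' := by
    intro h
    have := kA q3 (h ▸ iD3)
    rw [f33] at this
    exact one_ne_zero this
  have nDB : D' ≠ B' := by
    intro h
    have := kB q2 (h ▸ iD2)
    rw [f22] at this
    exact one_ne_zero this
  have penD : 3 ≤ pen K v z D' := by
    have hcard : ({q2, q3, d} : Finset E).card = 3 := by
      rw [card_insert_of_notMem, card_pair hd3.symm]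
      simp only [mem_insert, mem_singleton, not_or]
      exact ⟨g23, hd2.symm⟩
    rw [← hcard]
    refine card_le_pen hv ?_ ?_ ?_
    · intro y hy
      simp only [mem_insert, mem_singleton] at hy
      rcases hy with rfl | rfl | rfl
      · exact iD2
      · exact iD3
      · exact iD4
    · simp only [mem_insert, mem_singleton, not_or]
      exact ⟨zq2, zq3, zd⟩
    · intro a haS b hbS hab
      simp only [mem_insert, mem_singleton] at haS hbS
      rcases haS with rfl | rfl | rfl <;> rcases hbS with rfl | rfl | rfl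
      · exact absurd rfl hab
      · exact e3_nm1 f3z f32 (by rw [f33]; exact one_ne_zero)
      · exact e3_nm1 f3z f32 (by rw [D3]; exact d30)
      · exact e3_nm1 f2z f23 (by rw [f22]; exact one_ne_zero)
      · exact absurd rfl hab
      · exact e3_nm1 f2z f23 (by rw [D2]; exact d20)
      · exact e3_nm2 hv f3z (by rw [D3]; exact d30) f32 zq2.symm
      · exact e3_nm2 hv f2z (by rw [D2]; exact d20) f23 zq3.symm
      · exact absurd rfl hab
  have h5 := hsum {D'} (by
    intro Q hQ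
    rw [mem_singleton] at hQ
    subst hQ
    exact ⟨isFl_cl, rD, iD1, nDA, nDB⟩)
  rw [sum_singleton] at h5
  have hpen : pen K v z A' ≤ 4 := by omega
  -- M inside A'
  have iz : z ∈ A' := subset_cl (mem_insert_self _ _)
  have iA : A ⊆ A' := fun e he => subset_cl (mem_insert_of_mem he)
  have iC : C ⊆ A' := by
    rw [← e3_sub hv hC hzq.symm h1C hz]
    refine isFl_cl.cl_subset ?_
    intro e he
    simp only [mem_insert, mem_singleton] at he
    rcases he with rfl | rfl
    · exact iA h1A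
    · exact iz
  have iM : M ⊆ A' := hMS.trans (isFl_cl.cl_subset (union_subset iA iC))
  have zM : z ∉ M := hCM z hz
  have zA : z ∉ A := by
    intro h
    have := e3_ker (v := v) (f := f4) (X := {q1, q2}) (fun y hy => by
      simp only [mem_insert, mem_singleton] at hy
      rcases hy with rfl | rfl
      · exact f41
      · exact f42) (mem_cl.2 (eA z h))
    rw [f4z] at this
    exact one_ne_zero this
  have pair1 : ∀ b ∈ M, v b ∉ sp K v {z, q1} := by
    intro b hb h
    refine hCM b ?_ hb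
    rw [← e3_sub hv hC hzq.symm h1C hz, Finset.pair_comm]
    exact mem_cl.2 h
  have pair2 : ∀ b ∈ M, v q1 ∉ sp K v {z, b} := fun b hb h =>
    pair1 b hb (e3_exch hv hzq.symm h)
  have pair3 : ∀ a ∈ M, ∀ b ∈ M, a ≠ b → v b ∉ sp K v {z, a} := by
    intro a ha b hb hab h
    apply zM
    have h1 : v z ∈ sp K v {a, b} := by
      rw [Finset.pair_comm] at h
      exact e3_exch hv hab.symm h
    rw [← e3_sub hv hM hab ha hb]
    exact mem_cl.2 h1
  have hcard1 : (insert q1 M).card = M.card + 1 := card_insert_of_notMem h1M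
  have hpairS : ∀ a ∈ insert q1 M, ∀ b ∈ insert q1 M, a ≠ b → v b ∉ sp K v {z, a} := by
    intro a ha b hb hab
    rcases mem_insert.1 ha with ha' | ha' <;> rcases mem_insert.1 hb with hb' | hb'
    · exact absurd (ha'.trans hb'.symm) hab
    · rw [ha']; exact pair1 b hb'
    · rw [hb']; exact pair2 a ha'
    · exact pair3 a ha' b hb' hab
  have hsubS : insert q1 M ⊆ A' := insert_subset (iA h1A) iM
  have hzS : z ∉ insert q1 M := by
    rw [mem_insert, not_or]
    exact ⟨hzq, zM⟩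
  have hMc : M.card = 3 := by
    have := card_le_pen hv hsubS hzS hpairS
    have := hM.2.2
    omega
  refine ⟨hMc, fun l hl hl1 hl2 => ?_⟩
  by_contra hcon
  push Not at hcon
  have hlsp := eA l hl
  obtain ⟨l1, l2, l10, l20, el⟩ := e3_edge hv hlsp hl1 hl2
  have L2 : f2 (v l) = l2 := by rw [el]; simp [f21, f22]
  have L4 : f4 (v l) = 0 := by rw [el]; simp [f41, f42]
  have zl : z ≠ l := fun h => zA (h ▸ hl)
  have hlM : l ∉ M := by
    intro h
    have := e3_line hv hA hM hl2 hl h2A h h2M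
    exact h1M (this ▸ h1A)
  have c1 : ∀ m ∈ M, v m ∉ sp K v {z, l} := by
    intro m hm
    by_cases hmq : m = q2
    · subst hmq
      exact e3_nm3 hv (f := f4) (by rw [f4z]; exact one_ne_zero) L4 f42 hl2.symm
    · exact hcon m hm hmq
  have c2 : ∀ m ∈ M, v l ∉ sp K v {z, m} := fun m hm h => c1 m hm (e3_exch hv zl.symm h)
  have c3 : v q1 ∉ sp K v {z, l} := e3_nm2 hv f2z (by rw [L2]; exact l20) f21 hzq.symm
  have c4 : v l ∉ sp K v {z, q1} := e3_nm1 f2z f21 (by rw [L2]; exact l20)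
  have hcard2 : (insert l (insert q1 M)).card = M.card + 2 := by
    rw [card_insert_of_notMem, hcard1]
    rw [mem_insert, not_or]
    exact ⟨hl1, hlM⟩
  have := card_le_pen hv (z := z) (S := insert l (insert q1 M)) (W := A')
    (insert_subset (iA hl) hsubS) (by rw [mem_insert, not_or]; exact ⟨zl, hzS⟩) (by
      intro a ha b hb hab
      rcases mem_insert.1 ha with ha' | ha' <;> rcases mem_insert.1 hb with hb' | hb'
      · exact absurd (ha'.trans hb'.symm) hab
      · rw [ha']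
        rcases mem_insert.1 hb' with hb' | hb'
        · rw [hb']; exact c3
        · exact c1 b hb'
      · rw [hb']
        rcases mem_insert.1 ha' with ha' | ha'
        · rw [ha']; exact c4
        · exact c2 a ha'
      · exact hpairS a ha' b hb' hab)
  omega

private theorem e3_three_le {X : Finset E} {x y w : E} (hx : x ∈ X) (hy : y ∈ X) (hw : w ∈ X)
    (hxy : x ≠ y) (hxw : x ≠ w) (hyw : y ≠ w) : 1 ≤ X.card - 2 := by
  have h3 : ({x, y, w} : Finset E).card = 3 := by
    rw [card_insert_of_notMem (by simp [hxy, hxw]), card_pair hyw]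
  have : ({x, y, w} : Finset E) ⊆ X := by
    intro u hu
    simp only [mem_insert, mem_singleton] at hu
    rcases hu with rfl | rfl | rfl
    · exact hx
    · exact hy
    · exact hw
  have := card_le_card this
  omega

private theorem e3_disj (hK : Fintype.card K = 4) (hv : Simple K v) (h4 : rk K v univ = 4)
    (hs : SG K v ∅ univ) {q1 q2 q3 : E} {A B C D M : Finset E} (hA : HL K v A) (hB : HL K v B)
    (hC : HL K v C) (hD : HL K v D) (hM : HL K v M) (h1A : q1 ∈ A) (h1B : q1 ∈ B) (h1C : q1 ∈ C)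
    (h2A : q2 ∈ A) (h3B : q3 ∈ B) (h21 : q2 ≠ q1) (h31 : q3 ≠ q1) (h2D : q2 ∈ D) (h3D : q3 ∈ D)
    (h2M : q2 ∈ M) (hr : rk K v (A ∪ B ∪ C) = 4) (hMS : M ⊆ cl K v (A ∪ C)) (h1M : q1 ∉ M)
    (hCM : ∀ g ∈ C, g ∉ M) : False := by
  obtain ⟨z, hz, hz1, -⟩ := e3_third hC.2.2 q1 q1
  obtain ⟨z', hz', hz1', hzz⟩ := e3_third hC.2.2 q1 z
  obtain ⟨l, hl, hl1, hl2⟩ := e3_third hA.2.2 q1 q2
  obtain ⟨hMc, k1⟩ := e3_z hK hv h4 hs hA hB hC hD hM h1A h1B h1C h2A h3B h21 h31 h2D h3D h2M hr
    hMS h1M hCM hz hz1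
  obtain ⟨-, k2⟩ := e3_z hK hv h4 hs hA hB hC hD hM h1A h1B h1C h2A h3B h21 h31 h2D h3D h2M hr
    hMS h1M hCM hz' hz1'
  obtain ⟨m, hm, hm2, hmz⟩ := k1 l hl hl1 hl2
  obtain ⟨m', hm', hm2', hmz'⟩ := k2 l hl hl1 hl2
  have hp := e3_basis hv hA hB hC h1A h1B h1C h2A h3B hz h21 h31 hz1 hr
  obtain ⟨f2, f22, f21, f23, f2z⟩ := e3_dual4 (v := v) (K := K) (p1 := q2) (p2 := q1) (p3 := q3)
    (p4 := z) (by rw [← hp]; congr 1; ext; simp only [mem_insert, mem_singleton]; tauto)
  obtain ⟨f4, f4z, f41, f42, f43⟩ := e3_dual4 (v := v) (K := K) (p1 := z) (p2 := q1) (p3 := q2)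
    (p4 := q3) (by rw [← hp]; congr 1; ext; simp only [mem_insert, mem_singleton]; tauto)
  have eA : ∀ e ∈ A, v e ∈ sp K v {q1, q2} := by
    intro e he
    rw [← e3_sub hv hA h21.symm h1A h2A] at he
    exact mem_cl.1 he
  have eC : ∀ e ∈ C, v e ∈ sp K v {q1, z} := by
    intro e he
    rw [← e3_sub hv hC hz1.symm h1C hz] at he
    exact mem_cl.1 he
  have kC : ∀ e ∈ C, f2 (v e) = 0 := by
    intro e he
    refine e3_ker (X := {q1, z}) (fun y hy => ?_) (mem_cl.2 (eC e he))
    simp only [mem_insert, mem_singleton] at hy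
    rcases hy with rfl | rfl
    · exact f21
    · exact f2z
  have AC : ∀ e ∈ A, e ∈ C → e = q1 := by
    intro e he he'
    by_contra h
    have hAC := e3_line hv hA hC h he h1A he' h1C
    have := kC q2 (hAC ▸ h2A)
    rw [f22] at this
    exact one_ne_zero this
  have AM : ∀ e ∈ A, e ∈ M → e = q2 := by
    intro e he he'
    by_contra h
    have hAM := e3_line hv hA hM h he h2A he' h2M
    exact h1M (hAM ▸ h1A)
  obtain ⟨l1, l2, l10, l20, el⟩ := e3_edge hv (eA l hl) hl1 hl2
  have L2 : f2 (v l) ≠ 0 := by rw [el]; simpa [f21, f22] using l20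
  have zA : z ∉ A := fun h => hz1 (AC z h hz)
  have zA' : z' ∉ A := fun h => hz1' (AC z' h hz')
  have zM : z ∉ M := hCM z hz
  have zM' : z' ∉ M := hCM z' hz'
  have lC : l ∉ C := fun h => hl1 (AC l hl h)
  have lM : l ∉ M := fun h => hl2 (AM l hl h)
  have zl : z ≠ l := fun h => zA (h ▸ hl)
  have zl' : z' ≠ l := fun h => zA' (h ▸ hl)
  have hAC : A ≠ C := fun h => zA (h ▸ hz)
  set S : Finset E := insert q1 (insert l (insert z (insert z' M))) with hS
  have hScard : S.card = 7 := by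
    rw [hS, card_insert_of_notMem, card_insert_of_notMem, card_insert_of_notMem,
      card_insert_of_notMem zM', hMc]
    · simp only [mem_insert, not_or]
      exact ⟨hzz.symm, zM⟩
    · simp only [mem_insert, not_or]
      exact ⟨zl.symm, zl'.symm, lM⟩
    · simp only [mem_insert, not_or]
      exact ⟨hl1.symm, hz1.symm, hz1'.symm, h1M⟩
  have s1 : q1 ∈ S := by simp [hS]
  have sl : l ∈ S := by simp [hS]
  have sz : z ∈ S := by simp [hS]
  have sz' : z' ∈ S := by simp [hS]
  have sM : ∀ e ∈ M, e ∈ S := by intro e he; simp [hS, he]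
  have hT3 : rk K v (cl K v (A ∪ C)) = 3 := by
    rw [rk_cl]; exact e3_two_lines hv hA hC h1A h1C hAC
  have hST : S ⊆ cl K v (A ∪ C) := by
    intro e he
    simp only [hS, mem_insert] at he
    rcases he with rfl | rfl | rfl | rfl | he
    · exact subset_cl (mem_union_left _ h1A)
    · exact subset_cl (mem_union_left _ hl)
    · exact subset_cl (mem_union_right _ hz)
    · exact subset_cl (mem_union_right _ hz')
    · exact hMS he
  have hS3 : rk K v S = 3 := by
    refine le_antisymm (hT3 ▸ rk_mono hST) ?_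
    have h3 : rk K v ({q1, q2, z} : Finset E) = 3 := e3_r3 (p1 := q3) (by
      rw [← hp]; congr 1; ext; simp only [mem_insert, mem_singleton]; tauto)
    rw [← h3]
    refine rk_mono ?_
    intro e he
    simp only [mem_insert, mem_singleton] at he
    rcases he with rfl | rfl | rfl
    · exact s1
    · exact sM _ h2M
    · exact sz
  have mz : m ≠ z := fun h => zM (h ▸ hm)
  have ml : m ≠ l := fun h => lM (h ▸ hm)
  have mz' : m' ≠ z' := fun h => zM' (h ▸ hm')
  have ml' : m' ≠ l := fun h => lM (h ▸ hm')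
  have hZ : HL K v (cl K v {z, l}) := e3_hl hv zl hmz mz ml
  have hZ' : HL K v (cl K v {z', l}) := e3_hl hv zl' hmz' mz' ml'
  have lZ : l ∈ cl K v {z, l} := subset_cl (by simp)
  have lZ' : l ∈ cl K v {z', l} := subset_cl (by simp)
  have zZ : z ∈ cl K v {z, l} := subset_cl (by simp)
  have zZ' : z' ∈ cl K v {z', l} := subset_cl (by simp)
  have z'Z : z' ∉ cl K v {z, l} := by
    rw [mem_cl]
    exact e3_nm2 hv f2z L2 (kC z' hz') hzz
  have hLL := her3_lines hv (T := cl K v (A ∪ C)) isFl_cl hT3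
    (hs.mono (empty_subset _) (subset_univ _)) hST hS3
    (LL := {A, C, M, cl K v {z, l}, cl K v {z', l}}) (by
      intro L hL
      simp only [mem_insert, mem_singleton] at hL
      rcases hL with rfl | rfl | rfl | rfl | rfl
      · exact ⟨hA.1, hA.2.1⟩
      · exact ⟨hC.1, hC.2.1⟩
      · exact ⟨hM.1, hM.2.1⟩
      · exact ⟨hZ.1, hZ.2.1⟩
      · exact ⟨hZ'.1, hZ'.2.1⟩)
  have hone : ∀ L ∈ ({A, C, M, cl K v {z, l}, cl K v {z', l}} : Finset (Finset E)),
      1 ≤ (L ∩ S).card - 2 := by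
    intro L hL
    simp only [mem_insert, mem_singleton] at hL
    rcases hL with rfl | rfl | rfl | rfl | rfl
    · exact e3_three_le (mem_inter.2 ⟨h1A, s1⟩) (mem_inter.2 ⟨h2A, sM _ h2M⟩)
        (mem_inter.2 ⟨hl, sl⟩) h21.symm hl1.symm hl2.symm
    · exact e3_three_le (mem_inter.2 ⟨h1C, s1⟩) (mem_inter.2 ⟨hz, sz⟩)
        (mem_inter.2 ⟨hz', sz'⟩) hz1.symm hz1'.symm hzz.symm
    · have : L ∩ S = L := inter_eq_left.2 fun e he => sM e he
      rw [this]; omega
    · exact e3_three_le (mem_inter.2 ⟨zZ, sz⟩) (mem_inter.2 ⟨lZ, sl⟩)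
        (mem_inter.2 ⟨mem_cl.2 hmz, sM _ hm⟩) zl mz.symm ml.symm
    · exact e3_three_le (mem_inter.2 ⟨zZ', sz'⟩) (mem_inter.2 ⟨lZ', sl⟩)
        (mem_inter.2 ⟨mem_cl.2 hmz', sM _ hm'⟩) zl' mz'.symm ml'.symm
  have hcard5 : ({A, C, M, cl K v {z, l}, cl K v {z', l}} : Finset (Finset E)).card = 5 := by
    rw [card_insert_of_notMem, card_insert_of_notMem, card_insert_of_notMem, card_pair]
    · intro h; exact z'Z (h ▸ zZ')
    · simp only [mem_insert, mem_singleton, not_or]
      exact ⟨fun h => zM (h ▸ zZ), fun h => zM' (h ▸ zZ')⟩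
    · simp only [mem_insert, mem_singleton, not_or]
      exact ⟨fun h => zM (h ▸ hz), fun h => lC (h ▸ lZ), fun h => lC (h ▸ lZ')⟩
    · simp only [mem_insert, mem_singleton, not_or]
      exact ⟨hAC, fun h => h1M (h ▸ h1A), fun h => zA (h ▸ zZ), fun h => zA' (h ▸ zZ')⟩
  have h5 := card_nsmul_le_sum _ _ 1 hone
  rw [hcard5] at h5
  simp only [smul_eq_mul, mul_one] at h5
  omega

/-- a third line through a fat element -/
private theorem e3_exC (hv : Simple K v) (h4 : rk K v univ = 4) {q : E} (h : Fat K v q)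
    {A B : Finset E} (hA : HL K v A) (hB : HL K v B) (hqA : q ∈ A) (hqB : q ∈ B) (hAB : A ≠ B) :
    ∃ C, HL K v C ∧ q ∈ C ∧ rk K v (A ∪ B ∪ C) = 4 := by
  obtain ⟨L1, L2, L3, hL1, hL2, hL3, q1, q2, q3, hr⟩ := h
  have h3 := e3_two_lines hv hA hB hqA hqB hAB
  have key : ∀ L, HL K v L → q ∈ L → (L ⊆ cl K v (A ∪ B)) ∨
      ∃ C, HL K v C ∧ q ∈ C ∧ rk K v (A ∪ B ∪ C) = 4 := by
    intro L hL hqL
    by_cases hs : L ⊆ cl K v (A ∪ B)
    · exact Or.inl hs
    · right
      refine ⟨L, hL, hqL, le_antisymm (h4 ▸ rk_mono (subset_univ _)) ?_⟩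
      by_contra hc
      apply hs
      have h5 : sp K v (A ∪ B) = sp K v (A ∪ B ∪ L) :=
        sp_eq_of_subset_of_rk_le subset_union_left (by omega)
      intro e he
      rw [mem_cl, h5]
      exact mem_sp (mem_union_right _ he)
  rcases key L1 hL1 q1 with k1 | k
  · rcases key L2 hL2 q2 with k2 | k
    · rcases key L3 hL3 q3 with k3 | k
      · exfalso
        have h6 : rk K v (L1 ∪ L2 ∪ L3) ≤ rk K v (cl K v (A ∪ B)) :=
          rk_mono (union_subset (union_subset k1 k2) k3)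
        rw [rk_cl] at h6
        omega
      · exact k
    · exact k
  · exact k

/-- two further lines through a fat element -/
private theorem e3_exMM (hv : Simple K v) (h4 : rk K v univ = 4) {q : E} (h : Fat K v q)
    {A : Finset E} (hA : HL K v A) (hqA : q ∈ A) :
    ∃ M M', HL K v M ∧ HL K v M' ∧ q ∈ M ∧ q ∈ M' ∧ rk K v (A ∪ M ∪ M') = 4 := by
  have h' := h
  obtain ⟨L1, L2, L3, hL1, hL2, hL3, q1, q2, q3, hr⟩ := h
  by_cases h1 : L1 = A
  · have h12 : L2 ≠ L1 := by
      intro h2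
      have h3 : rk K v (L1 ∪ L2 ∪ L3) ≤ 3 := by
        rw [h2, union_self]
        by_cases h13 : L1 = L3
        · rw [h13, union_self]
          have := hL3.2.1
          omega
        · exact (e3_two_lines hv hL1 hL3 q1 q3 h13).le
      omega
    obtain ⟨C, hC, hqC, hr'⟩ := e3_exC hv h4 h' hA hL2 hqA q2 (fun h => h12 (h1.trans h).symm)
    exact ⟨L2, C, hL2, hC, q2, hqC, hr'⟩
  · obtain ⟨C, hC, hqC, hr'⟩ := e3_exC hv h4 h' hA hL1 hqA q1 (fun h => h1 h.symm)
    exact ⟨L1, C, hL1, hC, q1, hqC, hr'⟩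

private theorem e3_ne_of_rk (hv : Simple K v) {A B C : Finset E} (hA : HL K v A) (hB : HL K v B)
    (hC : HL K v C) {q : E} (hqA : q ∈ A) (hqC : q ∈ C) (h : rk K v (A ∪ B ∪ C) = 4) :
    A ≠ B := by
  rintro rfl
  rw [union_self] at h
  by_cases h13 : A = C
  · rw [← h13, union_self] at h
    have := hA.2.1
    omega
  · have := e3_two_lines hv hA hC hqA hqC h13
    omega

theorem no_three_fat (hK : Fintype.card K = 4) (hv : Simple K v) (h4 : rk K v univ = 4)
    (hs : SG K v ∅ univ) {q1 q2 q3 : E} (h1 : Fat K v q1) (h2 : Fat K v q2) (h3 : Fat K v q3)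
    {A B : Finset E} (hA : HL K v A) (hB : HL K v B) (hAB : A ≠ B) (h1A : q1 ∈ A)
    (h2A : q2 ∈ A) (h1B : q1 ∈ B) (h3B : q3 ∈ B) (h21 : q2 ≠ q1) (h31 : q3 ≠ q1) : False := by
  have h23 : q2 ≠ q3 := by
    rintro rfl
    exact hAB (e3_line hv hA hB h21 h2A h1A h3B h1B)
  obtain ⟨C, hC, h1C, hr1⟩ := e3_exC hv h4 h1 hA hB h1A h1B hAB
  obtain ⟨M0, M0', hM0, hM0', h2M0, h2M0', hr2⟩ := e3_exMM hv h4 h2 hA h2A
  obtain ⟨N0, N0', hN0, hN0', h3N0, h3N0', hr3⟩ := e3_exMM hv h4 h3 hB h3B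
  obtain ⟨D, hD, -, h2D, h3D, hMM, hNN⟩ := E3a hK hv h4 hs hA hB hC hM0 hM0' hN0 hN0' h21 h31
    h1A h1B h1C h2A h3B h2M0 h2M0' h3N0 h3N0' hr1 hr2 hr3
  -- the lines M and N
  obtain ⟨M, hM, h2M, hMS, hrM⟩ : ∃ M, HL K v M ∧ q2 ∈ M ∧ M ⊆ cl K v (A ∪ C) ∧
      rk K v (A ∪ D ∪ M) = 4 := by
    rcases hMM with ⟨h, h'⟩ | ⟨h, h'⟩
    · exact ⟨M0', hM0', h2M0', h', by rw [← h]; exact hr2⟩
    · refine ⟨M0, hM0, h2M0, h', ?_⟩
      rw [← h, union_right_comm]; exact hr2
  obtain ⟨N, hN, h3N, hNS, hrN⟩ : ∃ N, HL K v N ∧ q3 ∈ N ∧ N ⊆ cl K v (B ∪ C) ∧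
      rk K v (B ∪ D ∪ N) = 4 := by
    rcases hNN with ⟨h, h'⟩ | ⟨h, h'⟩
    · exact ⟨N0', hN0', h3N0', h', by rw [← h]; exact hr3⟩
    · refine ⟨N0, hN0, h3N0, h', ?_⟩
      rw [← h, union_right_comm]; exact hr3
  have hAD : A ≠ D := e3_ne_of_rk hv hA hD hM h2A h2M hrM
  have hAM : A ≠ M := e3_ne_of_rk hv hA hM hD h2A h2D (by rw [union_right_comm]; exact hrM)
  have hDM : D ≠ M := e3_ne_of_rk hv hD hM hA h2D h2A (by
    rw [← hrM]; congr 1; ext; simp only [mem_union]; tauto)
  have hBN : B ≠ N := e3_ne_of_rk hv hB hN hD h3B h3D (by rw [union_right_comm]; exact hrN)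
  have hAC : A ≠ C := e3_ne_of_rk hv hA hC hB h1A h1B (by rw [union_right_comm]; exact hr1)
  have hBC : B ≠ C := e3_ne_of_rk hv hB hC hA h1B h1A (by
    rw [← hr1]; congr 1; ext; simp only [mem_union]; tauto)
  have h1M : q1 ∉ M := fun h => hAM (e3_line hv hA hM h21 h2A h1A h2M h)
  by_cases hCM : ∀ g ∈ C, g ∉ M
  · exact e3_disj hK hv h4 hs hA hB hC hD hM h1A h1B h1C h2A h3B h21 h31 h2D h3D h2M hr1 hMS h1M
      hCM
  push Not at hCM
  obtain ⟨g, hgC, hgM⟩ := hCM
  have g1 : g ≠ q1 := fun h => h1M (h ▸ hgM)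
  have g2 : g ≠ q2 := fun h => hAC (e3_line hv hA hC h21 h2A h1A (h ▸ hgC) h1C)
  have g3 : g ≠ q3 := fun h => hBC (e3_line hv hB hC h31 h3B h1B (h ▸ hgC) h1C)
  -- N lies in the plane of D and M
  have hNO : N ⊆ cl K v (D ∪ M) := by
    obtain ⟨D', hD', -, h1D', h3D', -, hN'⟩ := E3a hK hv h4 hs (q := q2) (q2 := q1) (q3 := q3)
      (A := A) (B := D) (C := M) (M := B) (M' := C) (N := B) (N' := N) hA hD hM hB hC hB hN
      h21.symm h23.symm h2A h2D h2M h1A h3D h1B h1C h3B h3N hrM hr1 (by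
        rw [union_comm D B]; exact hrN)
    rcases hN' with ⟨-, h⟩ | ⟨h, -⟩
    · exact h
    · exfalso
      subst h
      exact hBN (e3_line hv hB hN h31 h3B h1B h3D' h1D')
  have hgN : g ∈ N := by
    have rS : rk K v (cl K v (B ∪ C)) = 3 := by
      rw [rk_cl]; exact e3_two_lines hv hB hC h1B h1C hBC
    have rO : rk K v (cl K v (D ∪ M)) = 3 := by
      rw [rk_cl]; exact e3_two_lines hv hD hM h2D h2M hDM
    have q2S : q2 ∉ cl K v (B ∪ C) := by
      intro h
      have hAS : A ⊆ cl K v (B ∪ C) := by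
        rw [← e3_sub hv hA h21 h2A h1A]
        refine isFl_cl.cl_subset ?_
        intro e he
        simp only [mem_insert, mem_singleton] at he
        rcases he with rfl | rfl
        · exact h
        · exact subset_cl (mem_union_left _ h1B)
      have : A ∪ B ∪ C ⊆ cl K v (B ∪ C) := by
        refine union_subset (union_subset hAS ?_) ?_
        · exact subset_union_left.trans subset_cl
        · exact subset_union_right.trans subset_cl
      have := rk_mono (K := K) (v := v) this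
      omega
    have hne : cl K v (B ∪ C) ≠ cl K v (D ∪ M) := by
      intro h
      apply q2S
      rw [h]
      exact subset_cl (mem_union_left _ h2D)
    have hN2 : N = cl K v (B ∪ C) ∩ cl K v (D ∪ M) := by
      refine hN.1.eq_of_subset_of_rk_le (subset_inter hNS hNO) ?_
      have e1 := rk_union_add_rk_inter (K := K) (v := v) (X := cl K v (B ∪ C))
        (Y := cl K v (D ∪ M))
      have e2 : cl K v (B ∪ C) ⊂ cl K v (B ∪ C) ∪ cl K v (D ∪ M) := by
        refine ssubset_of_subset_of_ne subset_union_left ?_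
        intro h
        have h5 : cl K v (D ∪ M) ⊆ cl K v (B ∪ C) := by
          conv_rhs => rw [h]
          exact subset_union_right
        exact hne (isFl_cl.eq_of_subset_of_rk_le h5 (by rw [rS, rO])).symm
      have e3 := isFl_cl.rk_lt_of_ssubset e2
      have := hN.2.1
      omega
    rw [hN2]
    exact mem_inter.2 ⟨subset_cl (mem_union_right _ hgC), subset_cl (mem_union_right _ hgM)⟩
  obtain ⟨a, ha, ha1, ha2⟩ := e3_third hA.2.2 q1 q2
  obtain ⟨b, hb, hb1, hb2⟩ := e3_third hB.2.2 q1 q3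
  obtain ⟨c, hc, hc1, hc2⟩ := e3_third hC.2.2 q1 g
  obtain ⟨d, hd, hd1, hd2⟩ := e3_third hD.2.2 q2 q3
  obtain ⟨m, hm, hm1, hm2⟩ := e3_third hM.2.2 q2 g
  obtain ⟨n, hn, hn1, hn2⟩ := e3_third hN.2.2 q3 g
  rw [← e3_sub hv hA h21.symm h1A h2A, mem_cl] at ha
  rw [← e3_sub hv hB h31.symm h1B h3B, mem_cl] at hb
  rw [← e3_sub hv hC g1.symm h1C hgC, mem_cl] at hc
  rw [← e3_sub hv hD h23 h2D h3D, mem_cl] at hd
  rw [← e3_sub hv hM g2.symm h2M hgM, mem_cl] at hm
  rw [← e3_sub hv hN g3.symm h3N hgN, mem_cl] at hn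
  exact e3_tetra hK hv h4 hs
    (e3_basis hv hA hB hC h1A h1B h1C h2A h3B hgC h21 h31 g1 hr1)
    ha ha1 ha2 hb hb1 hb2 hc hc1 hc2 hd hd1 hd2 hm hm1 hm2 hn hn1 hn2

end gf4

end Ca3
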