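import Pool.Agent.Lib.MP_ca3eb1_co.E3aIIb

/-! # Module W3a: three fat points, first part -/

set_option linter.unusedSectionVars false

namespace Ca3

open Finset Submodule

variable {K V E : Type*} [Field K] [Fintype K] [AddCommGroup V] [Module K V]
  [FiniteDimensional K V] [Fintype E] [DecidableEq E] {v : E → V}

private lemma ea_u3 {A B C : Finset E} : A ∪ B ∪ C = A ∪ C ∪ B := by
  ext x; simp only [mem_union]; tauto

private lemma ea_u3' {A B C : Finset E} : A ∪ B ∪ C = B ∪ C ∪ A := by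
  ext x; simp only [mem_union]; tauto

private lemma ea_sum_three {f : Finset E → ℕ} {P Q R : Finset E} (h : P ≠ Q) (h' : P ≠ R)
    (h'' : Q ≠ R) : ∑ X ∈ ({P, Q, R} : Finset (Finset E)), f X = f P + (f Q + f R) := by
  rw [sum_insert, sum_pair h'']
  simp [h, h']

/-- case I -/
private theorem ea_caseI (hK : Fintype.card K = 4) (hv : Simple K v) (h4 : rk K v univ = 4)
    (hs : SG K v ∅ univ) {q q2 q3 : E} {A B C M M' N N' : Finset E}
    (hA : HL K v A) (hB : HL K v B) (hC : HL K v C) (hM : HL K v M) (hM' : HL K v M')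
    (hN : HL K v N) (hN' : HL K v N') (h2 : q2 ≠ q) (h3 : q3 ≠ q)
    (hqA : q ∈ A) (hqB : q ∈ B) (hqC : q ∈ C) (h2A : q2 ∈ A) (h3B : q3 ∈ B)
    (h2M : q2 ∈ M) (h2M' : q2 ∈ M') (h3N : q3 ∈ N) (h3N' : q3 ∈ N')
    (hr1 : rk K v (A ∪ B ∪ C) = 4) (hr2 : rk K v (A ∪ M ∪ M') = 4)
    (hr3 : rk K v (B ∪ N ∪ N') = 4)
    (nM : ¬ M ⊆ cl K v (A ∪ C)) (nM' : ¬ M' ⊆ cl K v (A ∪ C))
    (nN : ¬ N ⊆ cl K v (B ∪ C)) (nN' : ¬ N' ⊆ cl K v (B ∪ C)) : False := by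
  classical
  obtain ⟨hAB, hP3, hCP⟩ := eb_frame hv hA hB hC hqA hqB hqC hr1
  obtain ⟨hAC, hS13, hBS1⟩ := eb_frame hv hA hC hB hqA hqC hqB (by rw [← ea_u3]; exact hr1)
  obtain ⟨hBC, hS23, hAS2⟩ := eb_frame hv hB hC hA hqB hqC hqA (by rw [← ea_u3']; exact hr1)
  obtain ⟨hMM', -, -⟩ := eb_frame hv hM hM' hA h2M h2M' h2A (by rw [← ea_u3']; exact hr2)
  obtain ⟨hNN', hNN3, hBNN⟩ := eb_frame hv hN hN' hB h3N h3N' h3B
    (by rw [← ea_u3']; exact hr3)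
  set P := cl K v (A ∪ B) with hPdef
  set S1 := cl K v (A ∪ C) with hS1def
  set S2 := cl K v (B ∪ C) with hS2def
  have hPf : IsFl K v P := isFl_cl
  have hS1f : IsFl K v S1 := isFl_cl
  have hS2f : IsFl K v S2 := isFl_cl
  have hAP : A ⊆ P := subset_union_left.trans subset_cl
  have hBP : B ⊆ P := subset_union_right.trans subset_cl
  have hAS1 : A ⊆ S1 := subset_union_left.trans subset_cl
  have hCS1 : C ⊆ S1 := subset_union_right.trans subset_cl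
  have hBS2 : B ⊆ S2 := subset_union_left.trans subset_cl
  have hCS2 : C ⊆ S2 := subset_union_right.trans subset_cl
  have h2S2 : q2 ∉ S2 := fun h => hAS2 (eb_line_sub hv hA.1 hA.2.1 hS2f hqA h2A (Ne.symm h2)
    (hCS2 hqC) h)
  have h3S1 : q3 ∉ S1 := fun h => hBS1 (eb_line_sub hv hB.1 hB.2.1 hS1f hqB h3B (Ne.symm h3)
    (hCS1 hqC) h)
  have h23 : q2 ≠ q3 := fun h => h3S1 (hAS1 (h ▸ h2A))
  have hCNN : ¬ C ⊆ cl K v (N ∪ N') := by
    intro h
    apply hBNN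
    exact eb_line_sub hv hB.1 hB.2.1 isFl_cl hqB h3B (Ne.symm h3) (h hqC)
      (subset_cl (mem_union_left _ h3N))
  -- choice of `z`
  obtain ⟨z, hzC, hzq, hzNN⟩ : ∃ z ∈ C, z ≠ q ∧ z ∉ cl K v (N ∪ N') := by
    by_contra hcon
    push Not at hcon
    have h6 : (C.erase q).card ≤ 1 := by
      rw [card_le_one]
      intro a ha b hb
      rw [mem_erase] at ha hb
      exact eb_unique hv hC.1 hC.2.1 isFl_cl hCNN ha.2 (hcon a ha.2 ha.1) hb.2
        (hcon b hb.2 hb.1)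
    have h7 := card_erase_add_one hqC
    have h8 := hC.2.2
    omega
  have hzP : z ∉ P := fun h => hzq (eb_unique hv hC.1 hC.2.1 hPf hCP hzC h hqC (hAP hqA))
  have hz2 : z ≠ q2 := fun h => hzP (h ▸ hAP h2A)
  have hz3 : z ≠ q3 := fun h => hzP (h ▸ hBP h3B)
  have hzA : z ∉ A := fun h => hzP (hAP h)
  have hzB : z ∉ B := fun h => hzP (hBP h)
  have hzM : z ∉ M := fun h =>
    hz2 (eb_unique hv hM.1 hM.2.1 hS1f nM h (hCS1 hzC) h2M (hAS1 h2A))
  have hzM' : z ∉ M' := fun h =>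
    hz2 (eb_unique hv hM'.1 hM'.2.1 hS1f nM' h (hCS1 hzC) h2M' (hAS1 h2A))
  have hzN : z ∉ N := fun h =>
    hz3 (eb_unique hv hN.1 hN.2.1 hS2f nN h (hCS2 hzC) h3N (hBS2 h3B))
  have hzN' : z ∉ N' := fun h =>
    hz3 (eb_unique hv hN'.1 hN'.2.1 hS2f nN' h (hCS2 hzC) h3N' (hBS2 h3B))
  obtain ⟨o, -, hA5, hB5, hA3, hB3, hPP⟩ := frame hK hv h4 hs hA hB hC hqA hqB hqC hr1 hzC hzq
  have eA : cl K v (insert z A) = S1 :=
    eb_star_eq hA.1 hA.2.1 hzA hS1f hS13 hAS1 (hCS1 hzC)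
  have eB : cl K v (insert z B) = S2 :=
    eb_star_eq hB.1 hB.2.1 hzB hS2f hS23 hBS2 (hCS2 hzC)
  rw [eA] at hA5 hA3 hPP
  rw [eB] at hPP
  have nNN : cl K v (insert z N) ≠ cl K v (insert z N') :=
    eb_star_ne hN.1 hN.2.1 hN'.1 hN'.2.1 hNN' isFl_cl hNN3
      (subset_union_left.trans subset_cl) (subset_union_right.trans subset_cl) hzNN
  have gN : IsFl K v (cl K v (insert z N)) ∧ rk K v (cl K v (insert z N)) = 3 ∧
      z ∈ cl K v (insert z N) ∧ cl K v (insert z N) ≠ S1 ∧ cl K v (insert z N) ≠ S2 :=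
    ⟨isFl_cl, eb_star hN.1 hN.2.1 hzN, eb_star_self, fun h => h3S1 (h ▸ eb_star_sub h3N),
      fun h => nN (h ▸ eb_star_sub)⟩
  have gN' : IsFl K v (cl K v (insert z N')) ∧ rk K v (cl K v (insert z N')) = 3 ∧
      z ∈ cl K v (insert z N') ∧ cl K v (insert z N') ≠ S1 ∧ cl K v (insert z N') ≠ S2 :=
    ⟨isFl_cl, eb_star hN'.1 hN'.2.1 hzN', eb_star_self, fun h => h3S1 (h ▸ eb_star_sub h3N'),
      fun h => nN' (h ▸ eb_star_sub)⟩
  have pN : 3 ≤ pen K v z (cl K v (insert z N)) :=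
    hN.2.2.trans (eb_card_le_pen hv hN.1 hzN eb_star_sub)
  have pN' : 3 ≤ pen K v z (cl K v (insert z N')) :=
    hN'.2.2.trans (eb_card_le_pen hv hN'.1 hzN' eb_star_sub)
  have hsumN := hPP {cl K v (insert z N), cl K v (insert z N')} (by
    intro Q hQ
    rw [mem_insert, mem_singleton] at hQ
    rcases hQ with rfl | rfl
    · exact gN
    · exact gN')
  rw [sum_pair nNN] at hsumN
  -- each of the planes over `M`, `M'` is one of the planes over `N`, `N'`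
  have key : ∀ L : Finset E, HL K v L → z ∉ L → q2 ∈ L → ¬ L ⊆ S1 →
      cl K v (insert z L) = cl K v (insert z N) ∨ cl K v (insert z L) = cl K v (insert z N') := by
    intro L hL hzL h2L nL
    by_contra hcon
    push Not at hcon
    have pL : 3 ≤ pen K v z (cl K v (insert z L)) :=
      hL.2.2.trans (eb_card_le_pen hv hL.1 hzL eb_star_sub)
    have h5 := hPP {cl K v (insert z L), cl K v (insert z N), cl K v (insert z N')} (by
      intro Q hQ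
      rw [mem_insert, mem_insert, mem_singleton] at hQ
      rcases hQ with rfl | rfl | rfl
      · exact ⟨isFl_cl, eb_star hL.1 hL.2.1 hzL, eb_star_self, fun h => nL (h ▸ eb_star_sub),
          fun h => h2S2 (h ▸ eb_star_sub h2L)⟩
      · exact gN
      · exact gN')
    rw [ea_sum_three hcon.1 hcon.2 nNN] at h5
    omega
  have kM := key M hM hzM h2M nM
  have kM' := key M' hM' hzM' h2M' nM'
  have hr23 : 3 ≤ rk K v ({z, q2, q3} : Finset E) := by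
    have h5 : v z ∉ sp K v {q2, q3} := by
      intro h
      apply hzP
      apply hPf.mem
      refine sp_mono ?_ h
      exact insert_subset (hAP h2A) (singleton_subset_iff.2 (hBP h3B))
    rw [rk_insert_of_not_mem_sp h5, hv.rk_pair h23]
  have hin3 : ∀ L : Finset E, (cl K v (insert z L) = cl K v (insert z N) ∨
      cl K v (insert z L) = cl K v (insert z N')) → q3 ∈ cl K v (insert z L) := by
    rintro L (h | h)
    · rw [h]; exact eb_star_sub h3N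
    · rw [h]; exact eb_star_sub h3N'
  have hMM : cl K v (insert z M) = cl K v (insert z M') := by
    apply eb_plane_eq isFl_cl (eb_star hM.1 hM.2.1 hzM) isFl_cl (eb_star hM'.1 hM'.2.1 hzM')
      (X := {z, q2, q3}) _ _ hr23
    · intro x hx
      simp only [mem_insert, mem_singleton] at hx
      rcases hx with rfl | rfl | rfl
      · exact eb_star_self
      · exact eb_star_sub h2M
      · exact hin3 M kM
    · intro x hx
      simp only [mem_insert, mem_singleton] at hx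
      rcases hx with rfl | rfl | rfl
      · exact eb_star_self
      · exact eb_star_sub h2M'
      · exact hin3 M' kM'
  have hpen : pen K v z (cl K v (insert z M)) ≤ 3 := by
    rcases kM with h | h
    · rw [h]; omega
    · rw [h]; omega
  exact eb_two_lines hv hs hM hM' hMM' isFl_cl (eb_star hM.1 hM.2.1 hzM) eb_star_sub
    (hMM ▸ eb_star_sub) eb_star_self hzM hzM' hpen

/-- case II a -/
private theorem ea_caseIIa (hK : Fintype.card K = 4) (hv : Simple K v) (h4 : rk K v univ = 4)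
    (hs : SG K v ∅ univ) {q q2 q3 : E} {A B C M N N' : Finset E}
    (hA : HL K v A) (hB : HL K v B) (hC : HL K v C) (hM : HL K v M)
    (hN : HL K v N) (hN' : HL K v N') (h2 : q2 ≠ q) (h3 : q3 ≠ q)
    (hqA : q ∈ A) (hqB : q ∈ B) (hqC : q ∈ C) (h2A : q2 ∈ A) (h3B : q3 ∈ B)
    (h2M : q2 ∈ M) (h3N : q3 ∈ N) (h3N' : q3 ∈ N') (hAM : A ≠ M)
    (hr1 : rk K v (A ∪ B ∪ C) = 4) (hr3 : rk K v (B ∪ N ∪ N') = 4)
    (hMS : M ⊆ cl K v (A ∪ C))
    (nN : ¬ N ⊆ cl K v (B ∪ C)) (nN' : ¬ N' ⊆ cl K v (B ∪ C)) : False := by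
  classical
  obtain ⟨hAB, hP3, hCP⟩ := eb_frame hv hA hB hC hqA hqB hqC hr1
  obtain ⟨hAC, hS13, hBS1⟩ := eb_frame hv hA hC hB hqA hqC hqB (by rw [← ea_u3]; exact hr1)
  obtain ⟨hBC, hS23, hAS2⟩ := eb_frame hv hB hC hA hqB hqC hqA (by rw [← ea_u3']; exact hr1)
  obtain ⟨hNN', -, -⟩ := eb_frame hv hN hN' hB h3N h3N' h3B (by rw [← ea_u3']; exact hr3)
  set P := cl K v (A ∪ B) with hPdef
  set S1 := cl K v (A ∪ C) with hS1def
  set S2 := cl K v (B ∪ C) with hS2def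
  have hPf : IsFl K v P := isFl_cl
  have hS1f : IsFl K v S1 := isFl_cl
  have hS2f : IsFl K v S2 := isFl_cl
  have hAP : A ⊆ P := subset_union_left.trans subset_cl
  have hBP : B ⊆ P := subset_union_right.trans subset_cl
  have hAS1 : A ⊆ S1 := subset_union_left.trans subset_cl
  have hCS1 : C ⊆ S1 := subset_union_right.trans subset_cl
  have hBS2 : B ⊆ S2 := subset_union_left.trans subset_cl
  have hCS2 : C ⊆ S2 := subset_union_right.trans subset_cl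
  have h2S2 : q2 ∉ S2 := fun h => hAS2 (eb_line_sub hv hA.1 hA.2.1 hS2f hqA h2A (Ne.symm h2)
    (hCS2 hqC) h)
  have h3S1 : q3 ∉ S1 := fun h => hBS1 (eb_line_sub hv hB.1 hB.2.1 hS1f hqB h3B (Ne.symm h3)
    (hCS1 hqC) h)
  have hMC : M ≠ C := fun h => h2S2 (hCS2 (h ▸ h2M))
  have hMnC : ¬ M ⊆ C := by
    intro h
    exact hMC (hM.1.eq_of_subset_of_rk_le h (by rw [hC.2.1, hM.2.1]))
  obtain ⟨z, hzC, hzq, hzM⟩ : ∃ z ∈ C, z ≠ q ∧ z ∉ M := by
    by_contra hcon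
    push Not at hcon
    have h6 : (C.erase q).card ≤ 1 := by
      rw [card_le_one]
      intro a ha b hb
      rw [mem_erase] at ha hb
      exact eb_unique hv hM.1 hM.2.1 hC.1 hMnC (hcon a ha.2 ha.1) ha.2 (hcon b hb.2 hb.1) hb.2
    have h7 := card_erase_add_one hqC
    have h8 := hC.2.2
    omega
  have hzP : z ∉ P := fun h => hzq (eb_unique hv hC.1 hC.2.1 hPf hCP hzC h hqC (hAP hqA))
  have hz3 : z ≠ q3 := fun h => hzP (h ▸ hBP h3B)
  have hzA : z ∉ A := fun h => hzP (hAP h)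
  have hzB : z ∉ B := fun h => hzP (hBP h)
  have hzN : z ∉ N := fun h =>
    hz3 (eb_unique hv hN.1 hN.2.1 hS2f nN h (hCS2 hzC) h3N (hBS2 h3B))
  have hzN' : z ∉ N' := fun h =>
    hz3 (eb_unique hv hN'.1 hN'.2.1 hS2f nN' h (hCS2 hzC) h3N' (hBS2 h3B))
  obtain ⟨o, -, hA5, hB5, hA3, hB3, hPP⟩ := frame hK hv h4 hs hA hB hC hqA hqB hqC hr1 hzC hzq
  have eA : cl K v (insert z A) = S1 :=
    eb_star_eq hA.1 hA.2.1 hzA hS1f hS13 hAS1 (hCS1 hzC)
  have eB : cl K v (insert z B) = S2 :=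
    eb_star_eq hB.1 hB.2.1 hzB hS2f hS23 hBS2 (hCS2 hzC)
  rw [eA] at hA5 hA3 hPP
  rw [eB] at hPP
  have ha4 : 4 ≤ pen K v z S1 := eb_four hv hs hA hC hM h2 hqA hqC h2A h2M hAC hAM hS1f hS13
    hAS1 hCS1 hMS hzC hzq hzM
  have gN : IsFl K v (cl K v (insert z N)) ∧ rk K v (cl K v (insert z N)) = 3 ∧
      z ∈ cl K v (insert z N) ∧ cl K v (insert z N) ≠ S1 ∧ cl K v (insert z N) ≠ S2 :=
    ⟨isFl_cl, eb_star hN.1 hN.2.1 hzN, eb_star_self, fun h => h3S1 (h ▸ eb_star_sub h3N),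
      fun h => nN (h ▸ eb_star_sub)⟩
  have gN' : IsFl K v (cl K v (insert z N')) ∧ rk K v (cl K v (insert z N')) = 3 ∧
      z ∈ cl K v (insert z N') ∧ cl K v (insert z N') ≠ S1 ∧ cl K v (insert z N') ≠ S2 :=
    ⟨isFl_cl, eb_star hN'.1 hN'.2.1 hzN', eb_star_self, fun h => h3S1 (h ▸ eb_star_sub h3N'),
      fun h => nN' (h ▸ eb_star_sub)⟩
  have pN : 3 ≤ pen K v z (cl K v (insert z N)) :=
    hN.2.2.trans (eb_card_le_pen hv hN.1 hzN eb_star_sub)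
  have pN' : 3 ≤ pen K v z (cl K v (insert z N')) :=
    hN'.2.2.trans (eb_card_le_pen hv hN'.1 hzN' eb_star_sub)
  by_cases nNN : cl K v (insert z N) = cl K v (insert z N')
  · have h5 := hPP {cl K v (insert z N)} (by
      intro Q hQ
      rw [mem_singleton] at hQ
      rw [hQ]
      exact gN)
    rw [sum_singleton] at h5
    exact eb_two_lines hv hs hN hN' hNN' isFl_cl (eb_star hN.1 hN.2.1 hzN) eb_star_sub
      (nNN ▸ eb_star_sub) eb_star_self hzN hzN' (by omega)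
  · have h5 := hPP {cl K v (insert z N), cl K v (insert z N')} (by
      intro Q hQ
      rw [mem_insert, mem_singleton] at hQ
      rcases hQ with rfl | rfl
      · exact gN
      · exact gN')
    rw [sum_pair nNN] at h5
    omega

theorem E3a (hK : Fintype.card K = 4) (hv : Simple K v) (h4 : rk K v univ = 4)
    (hs : SG K v ∅ univ) {q q2 q3 : E} {A B C M M' N N' : Finset E}
    (hA : HL K v A) (hB : HL K v B) (hC : HL K v C) (hM : HL K v M) (hM' : HL K v M')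
    (hN : HL K v N) (hN' : HL K v N') (h2 : q2 ≠ q) (h3 : q3 ≠ q)
    (hqA : q ∈ A) (hqB : q ∈ B) (hqC : q ∈ C) (h2A : q2 ∈ A) (h3B : q3 ∈ B)
    (h2M : q2 ∈ M) (h2M' : q2 ∈ M') (h3N : q3 ∈ N) (h3N' : q3 ∈ N')
    (hr1 : rk K v (A ∪ B ∪ C) = 4) (hr2 : rk K v (A ∪ M ∪ M') = 4)
    (hr3 : rk K v (B ∪ N ∪ N') = 4) :
    ∃ D : Finset E, HL K v D ∧ D.card = 3 ∧ q2 ∈ D ∧ q3 ∈ D ∧
      ((M = D ∧ M' ⊆ cl K v (A ∪ C)) ∨ (M' = D ∧ M ⊆ cl K v (A ∪ C))) ∧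
      ((N = D ∧ N' ⊆ cl K v (B ∪ C)) ∨ (N' = D ∧ N ⊆ cl K v (B ∪ C))) := by
  classical
  have hr2' : rk K v (A ∪ M' ∪ M) = 4 := by rw [← ea_u3]; exact hr2
  have hr3' : rk K v (B ∪ N' ∪ N) = 4 := by rw [← ea_u3]; exact hr3
  have hr1' : rk K v (B ∪ A ∪ C) = 4 := by rw [union_comm B A]; exact hr1
  obtain ⟨hAM, -, -⟩ := eb_frame hv hA hM hM' h2A h2M h2M' hr2
  obtain ⟨hAM', -, -⟩ := eb_frame hv hA hM' hM h2A h2M' h2M hr2'
  obtain ⟨hBN, -, -⟩ := eb_frame hv hB hN hN' h3B h3N h3N' hr3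
  obtain ⟨hBN', -, -⟩ := eb_frame hv hB hN' hN h3B h3N' h3N hr3'
  by_cases m1 : M ⊆ cl K v (A ∪ C)
  · by_cases n1 : N ⊆ cl K v (B ∪ C)
    · obtain ⟨e1, e2⟩ := E3a_IIb hK hv h4 hs hA hB hC hM hM' hN hN' h2 h3 hqA hqB hqC h2A h3B
        h2M h2M' h3N h3N' hr1 hr2 hr3 m1 n1
      exact ⟨M', hM', e2, h2M', e1 ▸ h3N', Or.inr ⟨rfl, m1⟩, Or.inr ⟨e1.symm, n1⟩⟩
    · by_cases n2 : N' ⊆ cl K v (B ∪ C)
      · obtain ⟨e1, e2⟩ := E3a_IIb hK hv h4 hs hA hB hC hM hM' hN' hN h2 h3 hqA hqB hqC h2A h3B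
          h2M h2M' h3N' h3N hr1 hr2 hr3' m1 n2
        exact ⟨M', hM', e2, h2M', e1 ▸ h3N, Or.inr ⟨rfl, m1⟩, Or.inl ⟨e1.symm, n2⟩⟩
      · exact (ea_caseIIa hK hv h4 hs hA hB hC hM hN hN' h2 h3 hqA hqB hqC h2A h3B h2M h3N h3N'
          hAM hr1 hr3 m1 n1 n2).elim
  · by_cases m2 : M' ⊆ cl K v (A ∪ C)
    · by_cases n1 : N ⊆ cl K v (B ∪ C)
      · obtain ⟨e1, e2⟩ := E3a_IIb hK hv h4 hs hA hB hC hM' hM hN hN' h2 h3 hqA hqB hqC h2A h3B
          h2M' h2M h3N h3N' hr1 hr2' hr3 m2 n1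
        exact ⟨M, hM, e2, h2M, e1 ▸ h3N', Or.inl ⟨rfl, m2⟩, Or.inr ⟨e1.symm, n1⟩⟩
      · by_cases n2 : N' ⊆ cl K v (B ∪ C)
        · obtain ⟨e1, e2⟩ := E3a_IIb hK hv h4 hs hA hB hC hM' hM hN' hN h2 h3 hqA hqB hqC h2A
            h3B h2M' h2M h3N' h3N hr1 hr2' hr3' m2 n2
          exact ⟨M, hM, e2, h2M, e1 ▸ h3N, Or.inl ⟨rfl, m2⟩, Or.inl ⟨e1.symm, n2⟩⟩
        · exact (ea_caseIIa hK hv h4 hs hA hB hC hM' hN hN' h2 h3 hqA hqB hqC h2A h3B h2M' h3N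
            h3N' hAM' hr1 hr3 m2 n1 n2).elim
    · by_cases n1 : N ⊆ cl K v (B ∪ C)
      · exact (ea_caseIIa hK hv h4 hs hB hA hC hN hM hM' h3 h2 hqB hqA hqC h3B h2A h3N h2M h2M'
          hBN hr1' hr2 n1 m1 m2).elim
      · by_cases n2 : N' ⊆ cl K v (B ∪ C)
        · exact (ea_caseIIa hK hv h4 hs hB hA hC hN' hM hM' h3 h2 hqB hqA hqC h3B h2A h3N' h2M
            h2M' hBN' hr1' hr2 n2 m1 m2).elim
        · exact (ea_caseI hK hv h4 hs hA hB hC hM hM' hN hN' h2 h3 hqA hqB hqC h2A h3B h2M h2M'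
            h3N h3N' hr1 hr2 hr3 m1 m2 n1 n2).elim

end Ca3
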