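import Pool.Agent.Lib.MP_ca3eb1_co.Pen

/-! # Module W3a': plane geometry for heavy lines, case II b of E3a -/

set_option linter.unusedSectionVars false

namespace Ca3

open Finset Submodule

section geometry

variable {K V E : Type*} [Field K] [Fintype K] [AddCommGroup V] [Module K V]
  [FiniteDimensional K V] [Fintype E] [DecidableEq E] {v : E → V}

lemma eb_unique (hv : Simple K v) {L F : Finset E} (hL : IsFl K v L) (h2 : rk K v L = 2)
    (hF : IsFl K v F) (h : ¬ L ⊆ F) {x y : E} (hx : x ∈ L) (hx' : x ∈ F) (hy : y ∈ L)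
    (hy' : y ∈ F) : x = y := by
  have h1 : L ∩ F ⊂ L := by
    refine ⟨inter_subset_left, fun h' => h (h'.trans inter_subset_right)⟩
  have h3 := (hL.inter hF).rk_lt_of_ssubset h1
  have h4 := hv.card_le_one (X := L ∩ F) (by omega)
  exact card_le_one.1 h4 x (mem_inter.2 ⟨hx, hx'⟩) y (mem_inter.2 ⟨hy, hy'⟩)

lemma eb_line_eq (hv : Simple K v) {L : Finset E} (hL : IsFl K v L) (h2 : rk K v L = 2)
    {x y : E} (hx : x ∈ L) (hy : y ∈ L) (hxy : x ≠ y) : cl K v {x, y} = L := by
  apply hL.cl_eq (insert_subset hx (singleton_subset_iff.2 hy))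
  rw [hv.rk_pair hxy, h2]

lemma eb_line_sub (hv : Simple K v) {L F : Finset E} (hL : IsFl K v L) (h2 : rk K v L = 2)
    (hF : IsFl K v F) {x y : E} (hx : x ∈ L) (hy : y ∈ L) (hxy : x ≠ y) (hx' : x ∈ F)
    (hy' : y ∈ F) : L ⊆ F := by
  rw [← eb_line_eq hv hL h2 hx hy hxy]
  exact hF.cl_subset (insert_subset hx' (singleton_subset_iff.2 hy'))

lemma eb_rk_two_lines {L L' : Finset E} (hL : IsFl K v L) (h2 : rk K v L = 2)
    (hL' : IsFl K v L') (h2' : rk K v L' = 2) (hne : L ≠ L') : 3 ≤ rk K v (L ∪ L') := by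
  by_contra hc
  have h1 : L = L ∪ L' := hL.eq_of_subset_of_rk_le subset_union_left (by omega)
  have h3 : L' = L ∪ L' := hL'.eq_of_subset_of_rk_le subset_union_right (by omega)
  exact hne (h1.trans h3.symm)

lemma eb_plane_eq {P P' : Finset E} (hP : IsFl K v P) (h3 : rk K v P = 3) (hP' : IsFl K v P')
    (h3' : rk K v P' = 3) {X : Finset E} (hX : X ⊆ P) (hX' : X ⊆ P') (hr : 3 ≤ rk K v X) :
    P = P' := by
  have h1 : cl K v X = P := hP.cl_eq hX (by omega)
  have h2 : cl K v X = P' := hP'.cl_eq hX' (by omega)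
  rw [← h1, h2]

/-- the plane spanned by a line and a point outside -/
lemma eb_star {L : Finset E} (hL : IsFl K v L) (h2 : rk K v L = 2) {z : E} (hz : z ∉ L) :
    rk K v (cl K v (insert z L)) = 3 := by
  have hz' : v z ∉ sp K v L := fun h' => hz (hL.mem h')
  rw [rk_cl, rk_insert_of_not_mem_sp hz', h2]

lemma eb_star_self {L : Finset E} {z : E} : z ∈ cl K v (insert z L) :=
  subset_cl (mem_insert_self _ _)

lemma eb_star_sub {L : Finset E} {z : E} : L ⊆ cl K v (insert z L) :=
  (subset_insert _ _).trans subset_cl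

lemma eb_star_eq {L P : Finset E} (hL : IsFl K v L) (h2 : rk K v L = 2) {z : E} (hz : z ∉ L)
    (hP : IsFl K v P) (h3 : rk K v P = 3) (hLP : L ⊆ P) (hzP : z ∈ P) :
    cl K v (insert z L) = P := by
  apply hP.cl_eq (insert_subset hzP hLP)
  have := eb_star hL h2 hz
  rw [rk_cl] at this
  omega

/-- the planes from `z` to different lines of a plane not containing `z` are different -/
lemma eb_star_ne {L L' P : Finset E} (hL : IsFl K v L) (h2 : rk K v L = 2)
    (hL' : IsFl K v L') (h2' : rk K v L' = 2) (hne : L ≠ L') {z : E} (hP : IsFl K v P)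
    (h3 : rk K v P = 3) (hLP : L ⊆ P) (hLP' : L' ⊆ P) (hz : z ∉ P) :
    cl K v (insert z L) ≠ cl K v (insert z L') := by
  intro he
  have h4 : cl K v (insert z L) = P := by
    apply eb_plane_eq isFl_cl (eb_star hL h2 (fun h => hz (hLP h))) hP h3 (X := L ∪ L')
      (union_subset eb_star_sub (he ▸ eb_star_sub)) (union_subset hLP hLP')
    exact eb_rk_two_lines hL h2 hL' h2' hne
  exact hz (h4 ▸ eb_star_self)

lemma eb_noncol (hv : Simple K v) {L : Finset E} (hL : IsFl K v L) {z a b : E}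
    (hz : z ∉ L) (ha : a ∈ L) (hb : b ∈ L) (hab : a ≠ b) : v b ∉ sp K v {z, a} := by
  intro h
  apply hz
  have h1 : v b ∉ sp K v {a} := by
    rw [sp_singleton]
    exact fun h' => hab (hv.2 b a h').symm
  have h2 := mem_sp_insert_exchange (X := {a}) (e := z) (f := b) h h1
  apply hL.mem
  refine (sp_le_iff.2 ?_) h2
  intro f hf
  rw [mem_insert, mem_singleton] at hf
  rcases hf with rfl | rfl
  · exact mem_sp hb
  · exact mem_sp ha

lemma eb_card_le_pen (hv : Simple K v) {L W : Finset E} (hL : IsFl K v L) {z : E}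
    (hz : z ∉ L) (hW : L ⊆ W) : L.card ≤ pen K v z W :=
  card_le_pen hv hW hz fun _ ha _ hb hab => eb_noncol hv hL hz ha hb hab

/-- when a set meets as many classes as there are, it meets every class -/
lemma eb_classes (hv : Simple K v) {z : E} {S W : Finset E} (hSW : S ⊆ W) (hz : z ∉ S)
    (h : ∀ a ∈ S, ∀ b ∈ S, a ≠ b → v b ∉ sp K v {z, a}) (hc : pen K v z W ≤ S.card) {x : E}
    (hx : x ∈ W) (hxz : x ≠ z) : ∃ s ∈ S, cl K v {z, s} = cl K v {z, x} := by
  have hinj : Set.InjOn (fun e => cl K v {z, e}) (S : Set E) := by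
    intro a ha b hb hab
    by_contra hne
    apply h a ha b hb hne
    rw [← mem_cl]
    have : cl K v {z, a} = cl K v {z, b} := hab
    rw [this]
    exact subset_cl (by simp)
  have h1 : S.image (fun e => cl K v {z, e}) = (W.erase z).image (fun e => cl K v {z, e}) := by
    apply eq_of_subset_of_card_le
    · apply image_subset_image
      intro e he
      exact mem_erase.2 ⟨fun h0 => hz (h0 ▸ he), hSW he⟩
    · rw [card_image_of_injOn hinj]
      exact hc
  have h2 : cl K v {z, x} ∈ S.image (fun e => cl K v {z, e}) := by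
    rw [h1]
    exact mem_image_of_mem _ (mem_erase.2 ⟨hxz, hx⟩)
  obtain ⟨s, hs, h3⟩ := mem_image.1 h2
  exact ⟨s, hs, h3⟩

/-- two heavy lines in a plane cannot meet the same three classes of a point `z` -/
theorem eb_two_lines (hv : Simple K v) (hs : SG K v ∅ univ) {M N O : Finset E}
    (hM : HL K v M) (hN : HL K v N) (hMN : M ≠ N) (hO : IsFl K v O) (hO3 : rk K v O = 3)
    (hMO : M ⊆ O) (hNO : N ⊆ O) {z : E} (hzO : z ∈ O) (hzM : z ∉ M) (hzN : z ∉ N)
    (hp : pen K v z O ≤ 3) : False := by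
  classical
  have hMc : M.card = 3 := le_antisymm ((eb_card_le_pen hv hM.1 hzM hMO).trans hp) hM.2.2
  have hNc : N.card = 3 := le_antisymm ((eb_card_le_pen hv hN.1 hzN hNO).trans hp) hN.2.2
  set S := insert z (M ∪ N) with hS
  have hSO : S ⊆ O := insert_subset hzO (union_subset hMO hNO)
  have hMS : M ⊆ S := subset_union_left.trans (subset_insert _ _)
  have hNS : N ⊆ S := subset_union_right.trans (subset_insert _ _)
  have hSr : rk K v S = 3 := by
    apply le_antisymm (hO3 ▸ rk_mono hSO)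
    have h1 := eb_star hM.1 hM.2.1 hzM
    rw [rk_cl] at h1
    rw [← h1]
    exact rk_mono (insert_subset (mem_insert_self _ _) hMS)
  have hline : ∀ m ∈ M, IsFl K v (cl K v {z, m}) ∧ rk K v (cl K v {z, m}) = 2 := by
    intro m hm
    refine ⟨isFl_cl, ?_⟩
    rw [rk_cl, hv.rk_pair (fun h => hzM (by rw [h]; exact hm))]
  have hinj : Set.InjOn (fun m => cl K v {z, m}) (M : Set E) := by
    intro a ha b hb hab
    by_contra hne
    apply eb_noncol hv hM.1 hzM ha hb hne
    rw [← mem_cl]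
    have : cl K v {z, a} = cl K v {z, b} := hab
    rw [this]
    exact subset_cl (by simp)
  have h := her3_lines hv hO hO3 (hs.mono (empty_subset _) (subset_univ _)) hSO hSr
    (LL := insert M (insert N (M.image fun m => cl K v {z, m}))) (by
      intro L hL
      rw [mem_insert, mem_insert] at hL
      rcases hL with rfl | rfl | hL
      · exact ⟨hM.1, hM.2.1⟩
      · exact ⟨hN.1, hN.2.1⟩
      · obtain ⟨m, hm, rfl⟩ := mem_image.1 hL
        exact hline m hm)
  have hz' : ∀ m, z ∈ cl K v {z, m} := fun m => subset_cl (mem_insert_self _ _)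
  rw [sum_insert, sum_insert, sum_image hinj] at h
  · have e1 : (M ∩ S).card = 3 := by rw [inter_eq_left.2 hMS, hMc]
    have e2 : (N ∩ S).card = 3 := by rw [inter_eq_left.2 hNS, hNc]
    have e3 : (M \ N).card ≤ ∑ m ∈ M, ((cl K v {z, m} ∩ S).card - 2) := by
      rw [card_eq_sum_ones, ← sum_filter_add_sum_filter_not M (fun m => m ∉ N)]
      have : M \ N = M.filter (fun m => m ∉ N) := by
        ext m; rw [mem_sdiff, mem_filter]
      rw [this]
      refine le_trans (sum_le_sum ?_) (Nat.le_add_right _ _)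
      intro m hm
      rw [mem_filter] at hm
      obtain ⟨s, hs1, hs2⟩ := eb_classes hv hNO hzN
        (fun _ ha _ hb hab => eb_noncol hv hN.1 hzN ha hb hab) (by omega)
        (hMO hm.1) (fun h => hzM (h ▸ hm.1))
      have hsub : ({z, m, s} : Finset E) ⊆ cl K v {z, m} ∩ S := by
        intro x hx
        rw [mem_insert, mem_insert, mem_singleton] at hx
        rw [mem_inter]
        rcases hx with rfl | rfl | rfl
        · exact ⟨hz' m, mem_insert_self _ _⟩
        · exact ⟨subset_cl (by simp), hMS hm.1⟩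
        · exact ⟨hs2 ▸ subset_cl (by simp), hNS hs1⟩
      have hc3 : ({z, m, s} : Finset E).card = 3 := by
        rw [card_insert_of_notMem, card_insert_of_notMem, card_singleton]
        · rw [mem_singleton]
          exact fun h => hm.2 (h ▸ hs1)
        · rw [mem_insert, mem_singleton, not_or]
          exact ⟨fun h => hzM (h ▸ hm.1), fun h => hzN (h ▸ hs1)⟩
      have := card_le_card hsub
      omega
    have e4 : S.card = (M ∪ N).card + 1 := by
      rw [hS, card_insert_of_notMem]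
      rw [mem_union, not_or]
      exact ⟨hzM, hzN⟩
    have e5 := card_union_add_card_inter M N
    have e6 := card_sdiff_add_card_inter M N
    omega
  · intro hmem
    obtain ⟨m, hm, he⟩ := mem_image.1 hmem
    exact hzN (he ▸ hz' m)
  · rw [mem_insert, not_or]
    refine ⟨hMN, fun hmem => ?_⟩
    obtain ⟨m, hm, he⟩ := mem_image.1 hmem
    exact hzM (he ▸ hz' m)

/-- facts about three heavy lines through `q` with union of rank 4 -/
lemma eb_frame (hv : Simple K v) {q : E} {A B C : Finset E} (hA : HL K v A) (hB : HL K v B)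
    (hC : HL K v C) (hqA : q ∈ A) (hqB : q ∈ B) (hqC : q ∈ C) (hr : rk K v (A ∪ B ∪ C) = 4) :
    A ≠ B ∧ rk K v (cl K v (A ∪ B)) = 3 ∧ ¬ C ⊆ cl K v (A ∪ B) := by
  have h1 : rk K v (A ∪ B) ≤ 3 := by
    have h := rk_union_add_rk_inter (K := K) (v := v) (X := A) (Y := B)
    have h1 : rk K v {q} ≤ rk K v (A ∩ B) :=
      rk_mono (singleton_subset_iff.2 (mem_inter.2 ⟨hqA, hqB⟩))
    rw [hv.rk_singleton] at h1
    have h2 := hA.2.1
    have h3 := hB.2.1
    omega
  have h2 : ¬ C ⊆ cl K v (A ∪ B) := by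
    intro h
    have h3 : A ∪ B ∪ C ⊆ cl K v (A ∪ B) := union_subset subset_cl h
    have h4 := rk_mono (K := K) (v := v) h3
    rw [rk_cl] at h4
    omega
  have h3 : A ≠ B := by
    intro h
    have h4 : rk K v (A ∪ B ∪ C) ≤ 3 := by
      rw [← h, union_self]
      have h := rk_union_add_rk_inter (K := K) (v := v) (X := A) (Y := C)
      have h1 : rk K v {q} ≤ rk K v (A ∩ C) :=
        rk_mono (singleton_subset_iff.2 (mem_inter.2 ⟨hqA, hqC⟩))
      rw [hv.rk_singleton] at h1
      have h2 := hA.2.1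
      have h3 := hC.2.1
      omega
    omega
  refine ⟨h3, ?_, h2⟩
  rw [rk_cl]
  exact le_antisymm h1 (eb_rk_two_lines hA.1 hA.2.1 hB.1 hB.2.1 h3)

end geometry

section caseIIb

variable {K V E : Type*} [Field K] [Fintype K] [AddCommGroup V] [Module K V]
  [FiniteDimensional K V] [Fintype E] [DecidableEq E] {v : E → V}

private lemma eb_u3 {A B C : Finset E} : A ∪ B ∪ C = A ∪ C ∪ B := by
  ext x; simp only [mem_union]; tauto

private lemma eb_u3' {A B C : Finset E} : A ∪ B ∪ C = B ∪ C ∪ A := by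
  ext x; simp only [mem_union]; tauto

private lemma eb_sum_two {f : Finset E → ℕ} {P Q : Finset E} (h : P ≠ Q) :
    ∑ X ∈ ({P, Q} : Finset (Finset E)), f X = f P + f Q := sum_pair h

private lemma eb_sum_three {f : Finset E → ℕ} {P Q R : Finset E} (h : P ≠ Q) (h' : P ≠ R)
    (h'' : Q ≠ R) : ∑ X ∈ ({P, Q, R} : Finset (Finset E)), f X = f P + (f Q + f R) := by
  rw [sum_insert, sum_pair h'']
  simp [h, h']

/-- the claim of case II b: `M'` lies in the plane of `A` and `B` -/
private theorem eb_claim (hK : Fintype.card K = 4) (hv : Simple K v) (h4 : rk K v univ = 4)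
    (hs : SG K v ∅ univ) {q q2 q3 : E} {A B C M M' N : Finset E}
    (hA : HL K v A) (hB : HL K v B) (hC : HL K v C) (hM : HL K v M) (hM' : HL K v M')
    (hN : HL K v N) (h2 : q2 ≠ q) (h3 : q3 ≠ q)
    (hqA : q ∈ A) (hqB : q ∈ B) (hqC : q ∈ C) (h2A : q2 ∈ A) (h3B : q3 ∈ B)
    (h2M : q2 ∈ M) (h2M' : q2 ∈ M') (h3N : q3 ∈ N) (hNB : N ≠ B)
    (hr1 : rk K v (A ∪ B ∪ C) = 4) (hr2 : rk K v (A ∪ M ∪ M') = 4)
    (hMS : M ⊆ cl K v (A ∪ C)) (hNS : N ⊆ cl K v (B ∪ C)) : M' ⊆ cl K v (A ∪ B) := by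
  classical
  obtain ⟨hAB, hP3, hCP⟩ := eb_frame hv hA hB hC hqA hqB hqC hr1
  obtain ⟨hAC, hS13, hBS1⟩ := eb_frame hv hA hC hB hqA hqC hqB (by rw [← eb_u3]; exact hr1)
  obtain ⟨hBC, hS23, hAS2⟩ := eb_frame hv hB hC hA hqB hqC hqA (by rw [← eb_u3']; exact hr1)
  obtain ⟨hAM, -, hM'AM⟩ := eb_frame hv hA hM hM' h2A h2M h2M' hr2
  set P := cl K v (A ∪ B) with hPdef
  set S1 := cl K v (A ∪ C) with hS1def
  set S2 := cl K v (B ∪ C) with hS2def
  have hPf : IsFl K v P := isFl_cl
  have hS1f : IsFl K v S1 := isFl_cl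
  have hS2f : IsFl K v S2 := isFl_cl
  have hAP : A ⊆ P := subset_union_left.trans subset_cl
  have hBP : B ⊆ P := subset_union_right.trans subset_cl
  have hAS1 : A ⊆ S1 := subset_union_left.trans subset_cl
  have hCS1 : C ⊆ S1 := subset_union_right.trans subset_cl
  have hBS2 : B ⊆ S2 := subset_union_left.trans subset_cl
  have hCS2 : C ⊆ S2 := subset_union_right.trans subset_cl
  have h2S2 : q2 ∉ S2 := fun h => hAS2 (eb_line_sub hv hA.1 hA.2.1 hS2f hqA h2A (Ne.symm h2)
    (hCS2 hqC) h)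
  have h3S1 : q3 ∉ S1 := fun h => hBS1 (eb_line_sub hv hB.1 hB.2.1 hS1f hqB h3B (Ne.symm h3)
    (hCS1 hqC) h)
  have hM'S1 : ¬ M' ⊆ S1 := by
    intro h
    have h5 : A ∪ M ∪ M' ⊆ S1 := union_subset (union_subset hAS1 hMS) h
    have := rk_mono (K := K) (v := v) h5
    omega
  have hNC : N ≠ C := fun h => h3S1 (hCS1 (h ▸ h3N))
  have hCM : C ≠ M := by
    intro h
    have h5 : q2 ∈ C := h ▸ h2M
    exact h2S2 (hCS2 h5)
  by_contra hM'P
  -- choice of `z`
  obtain ⟨z, hzM', hz2, hzS2⟩ : ∃ z ∈ M', z ≠ q2 ∧ z ∉ S2 := by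
    by_contra hcon
    push Not at hcon
    have h5 : ¬ M' ⊆ S2 := fun h => h2S2 (h h2M')
    have h6 : (M'.erase q2).card ≤ 1 := by
      rw [card_le_one]
      intro a ha b hb
      rw [mem_erase] at ha hb
      exact eb_unique hv hM'.1 hM'.2.1 hS2f h5 ha.2 (hcon a ha.2 ha.1) hb.2 (hcon b hb.2 hb.1)
    have h7 := card_erase_add_one h2M'
    have h8 := hM'.2.2
    omega
  have hzS1 : z ∉ S1 := fun h =>
    hz2 (eb_unique hv hM'.1 hM'.2.1 hS1f hM'S1 hzM' h h2M' (hAS1 h2A))
  have hzP : z ∉ P := fun h =>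
    hz2 (eb_unique hv hM'.1 hM'.2.1 hPf hM'P hzM' h h2M' (hAP h2A))
  have hzA : z ∉ A := fun h => hzP (hAP h)
  have hzB : z ∉ B := fun h => hzP (hBP h)
  have hzC : z ∉ C := fun h => hzS1 (hCS1 h)
  have hzM : z ∉ M := fun h => hzS1 (hMS h)
  have hzN : z ∉ N := fun h => hzS2 (hNS h)
  obtain ⟨o, -, hA5, hM5, hA3, hM3, hPP⟩ := frame hK hv h4 hs hA hM hM' h2A h2M h2M' hr2 hzM' hz2
  have nBC := eb_star_ne hB.1 hB.2.1 hC.1 hC.2.1 hBC hS2f hS23 hBS2 hCS2 hzS2
  have nBN := eb_star_ne hB.1 hB.2.1 hN.1 hN.2.1 (Ne.symm hNB) hS2f hS23 hBS2 hNS hzS2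
  have nCN := eb_star_ne hC.1 hC.2.1 hN.1 hN.2.1 (Ne.symm hNC) hS2f hS23 hCS2 hNS hzS2
  have nBA := eb_star_ne hB.1 hB.2.1 hA.1 hA.2.1 (Ne.symm hAB) hPf hP3 hBP hAP hzP
  have nCA := eb_star_ne hC.1 hC.2.1 hA.1 hA.2.1 (Ne.symm hAC) hS1f hS13 hCS1 hAS1 hzS1
  have nCM := eb_star_ne hC.1 hC.2.1 hM.1 hM.2.1 hCM hS1f hS13 hCS1 hMS hzS1
  have nBM : cl K v (insert z B) ≠ cl K v (insert z M) := by
    intro he
    have h5 : A ⊆ cl K v (insert z M) := by
      apply eb_line_sub hv hA.1 hA.2.1 isFl_cl hqA h2A (Ne.symm h2) _ (eb_star_sub h2M)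
      rw [← he]
      exact eb_star_sub hqB
    have h6 : cl K v (insert z M) = S1 := by
      apply eb_plane_eq isFl_cl (eb_star hM.1 hM.2.1 hzM) hS1f hS13 (X := A ∪ M)
        (union_subset h5 eb_star_sub) (union_subset hAS1 hMS)
      exact eb_rk_two_lines hA.1 hA.2.1 hM.1 hM.2.1 hAM
    exact hzS1 (h6 ▸ eb_star_self)
  have nNA : cl K v (insert z N) ≠ cl K v (insert z A) := by
    intro he
    have h5 : B ⊆ cl K v (insert z A) := by
      apply eb_line_sub hv hB.1 hB.2.1 isFl_cl hqB h3B (Ne.symm h3) (eb_star_sub hqA)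
      rw [← he]
      exact eb_star_sub h3N
    have h6 : cl K v (insert z A) = P := by
      apply eb_plane_eq isFl_cl (eb_star hA.1 hA.2.1 hzA) hPf hP3 (X := A ∪ B)
        (union_subset eb_star_sub h5) (union_subset hAP hBP)
      exact eb_rk_two_lines hA.1 hA.2.1 hB.1 hB.2.1 hAB
    exact hzP (h6 ▸ eb_star_self)
  have pB : 3 ≤ pen K v z (cl K v (insert z B)) :=
    hB.2.2.trans (eb_card_le_pen hv hB.1 hzB eb_star_sub)
  have pC : 3 ≤ pen K v z (cl K v (insert z C)) :=
    hC.2.2.trans (eb_card_le_pen hv hC.1 hzC eb_star_sub)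
  have pN : 3 ≤ pen K v z (cl K v (insert z N)) :=
    hN.2.2.trans (eb_card_le_pen hv hN.1 hzN eb_star_sub)
  by_cases nNM : cl K v (insert z N) = cl K v (insert z M)
  · have h5 := hPP {cl K v (insert z B), cl K v (insert z C)} (by
      intro Q hQ
      rw [mem_insert, mem_singleton] at hQ
      rcases hQ with rfl | rfl
      · exact ⟨isFl_cl, eb_star hB.1 hB.2.1 hzB, eb_star_self, nBA, nBM⟩
      · exact ⟨isFl_cl, eb_star hC.1 hC.2.1 hzC, eb_star_self, nCA, nCM⟩)
    rw [eb_sum_two nBC] at h5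
    have hMN : M ≠ N := fun h => h3S1 (hMS (h ▸ h3N))
    exact eb_two_lines hv hs hM hN hMN isFl_cl (eb_star hM.1 hM.2.1 hzM) eb_star_sub
      (nNM ▸ eb_star_sub) eb_star_self hzM hzN (by omega)
  · have h5 := hPP {cl K v (insert z B), cl K v (insert z C), cl K v (insert z N)} (by
      intro Q hQ
      rw [mem_insert, mem_insert, mem_singleton] at hQ
      rcases hQ with rfl | rfl | rfl
      · exact ⟨isFl_cl, eb_star hB.1 hB.2.1 hzB, eb_star_self, nBA, nBM⟩
      · exact ⟨isFl_cl, eb_star hC.1 hC.2.1 hzC, eb_star_self, nCA, nCM⟩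
      · exact ⟨isFl_cl, eb_star hN.1 hN.2.1 hzN, eb_star_self, nNA, nNM⟩)
    rw [eb_sum_three nBC nBN nCN] at h5
    omega

/-- if `M` lies in the plane `S1` of `A` and `C` then a point `z` of `C` outside `M` sees at
least four classes in `S1` -/
theorem eb_four (hv : Simple K v) (hs : SG K v ∅ univ) {q q2 : E} {A C M S1 : Finset E}
    (hA : HL K v A) (hC : HL K v C) (hM : HL K v M) (h2 : q2 ≠ q)
    (hqA : q ∈ A) (hqC : q ∈ C) (h2A : q2 ∈ A) (h2M : q2 ∈ M) (hAC : A ≠ C) (hAM : A ≠ M)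
    (hS1f : IsFl K v S1) (hS13 : rk K v S1 = 3) (hAS1 : A ⊆ S1) (hCS1 : C ⊆ S1)
    (hMS : M ⊆ S1) {z : E} (hzC : z ∈ C) (hzq : z ≠ q) (hzM : z ∉ M) :
    4 ≤ pen K v z S1 := by
  classical
  have hC2 : q2 ∉ C := by
    intro h
    apply hAC
    rw [← eb_line_eq hv hA.1 hA.2.1 hqA h2A (Ne.symm h2),
      eb_line_eq hv hC.1 hC.2.1 hqC h (Ne.symm h2)]
  have hMC : M ≠ C := fun h => hC2 (h ▸ h2M)
  have hMnC : ¬ M ⊆ C := by
    intro h
    exact hMC (hM.1.eq_of_subset_of_rk_le h (by rw [hC.2.1, hM.2.1]))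
  have hqM : q ∉ M := by
    intro h
    apply hAM
    rw [← eb_line_eq hv hA.1 hA.2.1 hqA h2A (Ne.symm h2),
      eb_line_eq hv hM.1 hM.2.1 h h2M (Ne.symm h2)]
  have hzqC : cl K v {z, q} = C := eb_line_eq hv hC.1 hC.2.1 hzC hqC hzq
  have hzA : z ∉ A := by
    intro h
    apply hAC
    rw [← eb_line_eq hv hA.1 hA.2.1 h hqA hzq, hzqC]
  by_cases hmc : ∃ m ∈ M, m ∈ C
  · obtain ⟨m, hmM, hmC⟩ := hmc
    have hm2 : m ≠ q2 := fun h => hC2 (h ▸ hmC)
    have hmq : m ≠ q := fun h => hqM (h ▸ hmM)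
    have hmz : m ≠ z := fun h => hzM (h ▸ hmM)
    obtain ⟨m1, hm1M, hm12, hm1m⟩ : ∃ m1 ∈ M, m1 ≠ q2 ∧ m1 ≠ m := by
      by_contra hcon
      push Not at hcon
      have h6 : M ⊆ {q2, m} := by
        intro x hx
        rw [mem_insert, mem_singleton]
        by_cases h : x = q2
        · exact Or.inl h
        · exact Or.inr (hcon x hx h)
      have h7 := card_le_card h6
      have h8 := card_le_two (a := q2) (b := m)
      have h9 := hM.2.2
      omega
    have hm1C : m1 ∉ C := fun h =>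
      hm1m (eb_unique hv hM.1 hM.2.1 hC.1 hMnC hm1M h hmM hmC)
    have hMnA : ¬ M ⊆ A := by
      intro h
      exact hAM (hM.1.eq_of_subset_of_rk_le h (by rw [hA.2.1, hM.2.1])).symm
    have hm1A : m1 ∉ A := fun h =>
      hm12 (eb_unique hv hM.1 hM.2.1 hA.1 hMnA hm1M h h2M h2A)
    have hm1z : m1 ≠ z := fun h => hzM (h ▸ hm1M)
    have hcol : ∀ a ∈ A, m1 ∉ cl K v {z, a} := by
      intro a haA hcl
      have haz : a ≠ z := fun h => hzA (h ▸ haA)
      have ham1 : a ≠ m1 := fun h => hm1A (h ▸ haA)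
      set L4 := cl K v {z, a} with hL4
      have hL4f : IsFl K v L4 := isFl_cl
      have hL42 : rk K v L4 = 2 := by rw [hL4, rk_cl, hv.rk_pair (Ne.symm haz)]
      have hzL4 : z ∈ L4 := subset_cl (by simp)
      have haL4 : a ∈ L4 := subset_cl (by simp)
      have haq : a ≠ q := by
        rintro rfl
        rw [hL4, hzqC] at hcl
        exact hm1C hcl
      have ha2 : a ≠ q2 := by
        rintro rfl
        apply hzM
        rw [← eb_line_eq hv hM.1 hM.2.1 h2M hm1M (Ne.symm hm12),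
          eb_line_eq hv hL4f hL42 haL4 hcl (Ne.symm hm12)]
        exact hzL4
      have ham : a ≠ m := by
        rintro rfl
        exact hm2 (eb_unique hv hM.1 hM.2.1 hA.1 hMnA hmM haA h2M h2A)
      have dAC : A ≠ C := hAC
      have dL4A : L4 ≠ A := fun h => hzA (h ▸ hzL4)
      have dL4C : L4 ≠ C := fun h => hm1C (h ▸ hcl)
      have dL4M : L4 ≠ M := fun h => hzM (h ▸ hzL4)
      set S : Finset E := {q, q2, a, m, z, m1} with hS
      have hSS1 : S ⊆ S1 := by
        intro x hx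
        simp only [hS, mem_insert, mem_singleton] at hx
        rcases hx with rfl | rfl | rfl | rfl | rfl | rfl
        · exact hAS1 hqA
        · exact hAS1 h2A
        · exact hAS1 haA
        · exact hMS hmM
        · exact hCS1 hzC
        · exact hMS hm1M
      have three : ∀ {L : Finset E} {x y w : E}, x ∈ L → y ∈ L → w ∈ L → x ∈ S → y ∈ S →
          w ∈ S → x ≠ y → x ≠ w → y ≠ w → 1 ≤ (L ∩ S).card - 2 := by
        intro L x y w hx hy hw hx' hy' hw' hxy hxw hyw
        have h6 : ({x, y, w} : Finset E) ⊆ L ∩ S := by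
          intro u hu
          simp only [mem_insert, mem_singleton] at hu
          rcases hu with rfl | rfl | rfl
          · exact mem_inter.2 ⟨hx, hx'⟩
          · exact mem_inter.2 ⟨hy, hy'⟩
          · exact mem_inter.2 ⟨hw, hw'⟩
        have h7 : ({x, y, w} : Finset E).card = 3 := by
          rw [card_insert_of_notMem, card_insert_of_notMem, card_singleton]
          · simpa using hyw
          · simpa using ⟨hxy, hxw⟩
        have h8 := card_le_card h6
        omega
      have hSr : rk K v S = 3 := by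
        apply le_antisymm (hS13 ▸ rk_mono hSS1)
        have h6 : rk K v (insert z {q, q2}) = rk K v {q, q2} + 1 := by
          apply rk_insert_of_not_mem_sp
          intro h
          apply hzA
          rw [← eb_line_eq hv hA.1 hA.2.1 hqA h2A (Ne.symm h2)]
          exact mem_cl.2 h
        rw [hv.rk_pair (Ne.symm h2)] at h6
        have h7 : rk K v (insert z {q, q2}) ≤ rk K v S := by
          apply rk_mono
          intro x hx
          simp only [mem_insert, mem_singleton] at hx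
          simp only [hS, mem_insert, mem_singleton]
          tauto
        omega
      have h := her3_lines hv hS1f hS13 (hs.mono (empty_subset _) (subset_univ _)) hSS1 hSr
        (LL := {A, C, M, L4}) (by
          intro L hL
          simp only [mem_insert, mem_singleton] at hL
          rcases hL with rfl | rfl | rfl | rfl
          · exact ⟨hA.1, hA.2.1⟩
          · exact ⟨hC.1, hC.2.1⟩
          · exact ⟨hM.1, hM.2.1⟩
          · exact ⟨hL4f, hL42⟩)
      rw [sum_insert, sum_insert, sum_pair (Ne.symm dL4M)] at h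
      · have s1 := three (L := A) hqA h2A haA (by simp [hS]) (by simp [hS]) (by simp [hS])
          (Ne.symm h2) (Ne.symm haq) (Ne.symm ha2)
        have s2 := three (L := C) hqC hmC hzC (by simp [hS]) (by simp [hS]) (by simp [hS])
          (Ne.symm hmq) (Ne.symm hzq) hmz
        have s3 := three (L := M) h2M hmM hm1M (by simp [hS]) (by simp [hS]) (by simp [hS])
          (Ne.symm hm2) (Ne.symm hm12) (Ne.symm hm1m)
        have s4 := three (L := L4) haL4 hzL4 hcl (by simp [hS]) (by simp [hS]) (by simp [hS])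
          haz ham1 (Ne.symm hm1z)
        have hSc : S.card ≤ 6 := card_le_six
        omega
      · simp only [mem_insert, mem_singleton, not_or]
        exact ⟨Ne.symm hMC, Ne.symm dL4C⟩
      · simp only [mem_insert, mem_singleton, not_or]
        exact ⟨hAC, hAM, Ne.symm dL4A⟩
    have h6 : (insert m1 A).card ≤ pen K v z S1 := by
      apply card_le_pen hv (insert_subset (hMS hm1M) hAS1)
      · rw [mem_insert, not_or]
        exact ⟨Ne.symm hm1z, hzA⟩
      · intro a ha b hb hab h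
        rcases mem_insert.1 ha with ha' | ha'
        · rcases mem_insert.1 hb with hb' | hb'
          · exact hab (ha'.trans hb'.symm)
          · rw [ha'] at h
            apply hcol b hb'
            rw [mem_cl]
            have h7 : v b ∉ sp K v {z} := by
              rw [sp_singleton]
              exact fun h8 => hzA (hv.2 b z h8 ▸ hb')
            have e1 : ({z, m1} : Finset E) = insert m1 {z} := by
              ext x; simp only [mem_insert, mem_singleton]; tauto
            rw [e1] at h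
            have h9 := mem_sp_insert_exchange h h7
            have e2 : ({z, b} : Finset E) = insert b {z} := by
              ext x; simp only [mem_insert, mem_singleton]; tauto
            rw [e2]
            exact h9
        · rcases mem_insert.1 hb with hb' | hb'
          · rw [hb'] at h
            exact hcol a ha' (mem_cl.2 h)
          · exact eb_noncol hv hA.1 hzA ha' hb' hab h
    rw [card_insert_of_notMem hm1A] at h6
    have h7 := hA.2.2
    omega
  · push Not at hmc
    have h6 : (insert q M).card ≤ pen K v z S1 := by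
      apply card_le_pen hv (insert_subset (hAS1 hqA) hMS)
      · rw [mem_insert, not_or]
        exact ⟨hzq, hzM⟩
      · intro a ha b hb hab h
        rcases mem_insert.1 ha with ha' | ha'
        · rcases mem_insert.1 hb with hb' | hb'
          · exact hab (ha'.trans hb'.symm)
          · rw [ha'] at h
            apply hmc b hb'
            rw [← hzqC]
            exact mem_cl.2 h
        · rcases mem_insert.1 hb with hb' | hb'
          · rw [hb'] at h
            apply hmc a ha'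
            have h7 : v q ∉ sp K v {z} := by
              rw [sp_singleton]
              exact fun h8 => hzq (hv.2 q z h8).symm
            have e1 : ({z, a} : Finset E) = insert a {z} := by
              ext x; simp only [mem_insert, mem_singleton]; tauto
            rw [e1] at h
            have h9 := mem_sp_insert_exchange h h7
            have e2 : (insert q {z} : Finset E) = {z, q} := by
              ext x; simp only [mem_insert, mem_singleton]; tauto
            rw [e2] at h9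
            rw [← hzqC]
            exact mem_cl.2 h9
          · exact eb_noncol hv hM.1 hzM ha' hb' hab h
    rw [card_insert_of_notMem hqM] at h6
    have h7 := hM.2.2
    omega

/-- case II b of E3a -/
theorem E3a_IIb (hK : Fintype.card K = 4) (hv : Simple K v) (h4 : rk K v univ = 4)
    (hs : SG K v ∅ univ) {q q2 q3 : E} {A B C M M' N N' : Finset E}
    (hA : HL K v A) (hB : HL K v B) (hC : HL K v C) (hM : HL K v M) (hM' : HL K v M')
    (hN : HL K v N) (hN' : HL K v N') (h2 : q2 ≠ q) (h3 : q3 ≠ q)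
    (hqA : q ∈ A) (hqB : q ∈ B) (hqC : q ∈ C) (h2A : q2 ∈ A) (h3B : q3 ∈ B)
    (h2M : q2 ∈ M) (h2M' : q2 ∈ M') (h3N : q3 ∈ N) (h3N' : q3 ∈ N')
    (hr1 : rk K v (A ∪ B ∪ C) = 4) (hr2 : rk K v (A ∪ M ∪ M') = 4)
    (hr3 : rk K v (B ∪ N ∪ N') = 4)
    (hMS : M ⊆ cl K v (A ∪ C)) (hNS : N ⊆ cl K v (B ∪ C)) : M' = N' ∧ M'.card = 3 := by
  classical
  obtain ⟨hAB, hP3, hCP⟩ := eb_frame hv hA hB hC hqA hqB hqC hr1
  obtain ⟨hAC, hS13, hBS1⟩ := eb_frame hv hA hC hB hqA hqC hqB (by rw [← eb_u3]; exact hr1)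
  obtain ⟨hBC, hS23, hAS2⟩ := eb_frame hv hB hC hA hqB hqC hqA (by rw [← eb_u3']; exact hr1)
  obtain ⟨hAM, -, hM'AM⟩ := eb_frame hv hA hM hM' h2A h2M h2M' hr2
  obtain ⟨hAM', -, -⟩ := eb_frame hv hA hM' hM h2A h2M' h2M (by rw [← eb_u3]; exact hr2)
  obtain ⟨hBN, -, hN'BN⟩ := eb_frame hv hB hN hN' h3B h3N h3N' hr3
  obtain ⟨hBN', -, -⟩ := eb_frame hv hB hN' hN h3B h3N' h3N (by rw [← eb_u3]; exact hr3)
  have hM'P := eb_claim hK hv h4 hs hA hB hC hM hM' hN h2 h3 hqA hqB hqC h2A h3B h2M h2M' h3N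
    (Ne.symm hBN) hr1 hr2 hMS hNS
  have hN'P : N' ⊆ cl K v (A ∪ B) := by
    rw [union_comm A B]
    exact eb_claim hK hv h4 hs hB hA hC hN hN' hM h3 h2 hqB hqA hqC h3B h2A h3N h3N' h2M
      (Ne.symm hAM) (by rw [union_comm B A]; exact hr1) hr3 hNS hMS
  set P := cl K v (A ∪ B) with hPdef
  set S1 := cl K v (A ∪ C) with hS1def
  set S2 := cl K v (B ∪ C) with hS2def
  have hPf : IsFl K v P := isFl_cl
  have hS1f : IsFl K v S1 := isFl_cl
  have hS2f : IsFl K v S2 := isFl_cl
  have hAP : A ⊆ P := subset_union_left.trans subset_cl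
  have hBP : B ⊆ P := subset_union_right.trans subset_cl
  have hAS1 : A ⊆ S1 := subset_union_left.trans subset_cl
  have hCS1 : C ⊆ S1 := subset_union_right.trans subset_cl
  have hBS2 : B ⊆ S2 := subset_union_left.trans subset_cl
  have hCS2 : C ⊆ S2 := subset_union_right.trans subset_cl
  have h2S2 : q2 ∉ S2 := fun h => hAS2 (eb_line_sub hv hA.1 hA.2.1 hS2f hqA h2A (Ne.symm h2)
    (hCS2 hqC) h)
  have h3S1 : q3 ∉ S1 := fun h => hBS1 (eb_line_sub hv hB.1 hB.2.1 hS1f hqB h3B (Ne.symm h3)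
    (hCS1 hqC) h)
  have hMC : M ≠ C := by
    intro h
    exact h2S2 (hCS2 (h ▸ h2M))
  have hMnC : ¬ M ⊆ C := by
    intro h
    exact hMC (hM.1.eq_of_subset_of_rk_le h (by rw [hC.2.1, hM.2.1]))
  -- choice of `z`
  obtain ⟨z, hzC, hzq, hzM⟩ : ∃ z ∈ C, z ≠ q ∧ z ∉ M := by
    by_contra hcon
    push Not at hcon
    have h6 : (C.erase q).card ≤ 1 := by
      rw [card_le_one]
      intro a ha b hb
      rw [mem_erase] at ha hb
      exact eb_unique hv hM.1 hM.2.1 hC.1 hMnC (hcon a ha.2 ha.1) ha.2 (hcon b hb.2 hb.1) hb.2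
    have h7 := card_erase_add_one hqC
    have h8 := hC.2.2
    omega
  have hzP : z ∉ P := fun h => hzq (eb_unique hv hC.1 hC.2.1 hPf hCP hzC h hqC (hAP hqA))
  have hzA : z ∉ A := fun h => hzP (hAP h)
  have hzB : z ∉ B := fun h => hzP (hBP h)
  have hzM' : z ∉ M' := fun h => hzP (hM'P h)
  have hzN' : z ∉ N' := fun h => hzP (hN'P h)
  obtain ⟨o, -, hA5, hB5, hA3, hB3, hPP⟩ := frame hK hv h4 hs hA hB hC hqA hqB hqC hr1 hzC hzq
  have eA : cl K v (insert z A) = S1 :=
    eb_star_eq hA.1 hA.2.1 hzA hS1f hS13 hAS1 (hCS1 hzC)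
  have eB : cl K v (insert z B) = S2 :=
    eb_star_eq hB.1 hB.2.1 hzB hS2f hS23 hBS2 (hCS2 hzC)
  have ha4 : 4 ≤ pen K v z S1 := eb_four hv hs hA hC hM h2 hqA hqC h2A h2M hAC hAM hS1f hS13
    hAS1 hCS1 hMS hzC hzq hzM
  rw [eA] at hA5 hPP
  rw [eB] at hPP
  have pM' : M'.card ≤ pen K v z (cl K v (insert z M')) := eb_card_le_pen hv hM'.1 hzM' eb_star_sub
  have pN' : N'.card ≤ pen K v z (cl K v (insert z N')) := eb_card_le_pen hv hN'.1 hzN' eb_star_sub
  have nM'A : cl K v (insert z M') ≠ S1 := by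
    rw [← eA]
    exact eb_star_ne hM'.1 hM'.2.1 hA.1 hA.2.1 (Ne.symm hAM') hPf hP3 hM'P hAP hzP
  have nM'B : cl K v (insert z M') ≠ S2 := fun h => h2S2 (h ▸ eb_star_sub h2M')
  have nN'A : cl K v (insert z N') ≠ S1 := fun h => h3S1 (h ▸ eb_star_sub h3N')
  have nN'B : cl K v (insert z N') ≠ S2 := by
    rw [← eB]
    exact eb_star_ne hN'.1 hN'.2.1 hB.1 hB.2.1 (Ne.symm hBN') hPf hP3 hN'P hBP hzP
  have cM' := hM'.2.2
  have cN' := hN'.2.2
  have hMN' : M' = N' := by
    by_contra hne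
    have nn := eb_star_ne hM'.1 hM'.2.1 hN'.1 hN'.2.1 hne hPf hP3 hM'P hN'P hzP
    have h5 := hPP {cl K v (insert z M'), cl K v (insert z N')} (by
      intro Q hQ
      rw [mem_insert, mem_singleton] at hQ
      rcases hQ with rfl | rfl
      · exact ⟨isFl_cl, eb_star hM'.1 hM'.2.1 hzM', eb_star_self, nM'A, nM'B⟩
      · exact ⟨isFl_cl, eb_star hN'.1 hN'.2.1 hzN', eb_star_self, nN'A, nN'B⟩)
    rw [eb_sum_two nn] at h5
    omega
  refine ⟨hMN', ?_⟩
  have h5 := hPP {cl K v (insert z M')} (by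
    intro Q hQ
    rw [mem_singleton] at hQ
    rw [hQ]
    exact ⟨isFl_cl, eb_star hM'.1 hM'.2.1 hzM', eb_star_self, nM'A, nM'B⟩)
  rw [sum_singleton] at h5
  omega

end caseIIb

end Ca3
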