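import Pool.Agent.Lib.MP_ca3eb1_co.P4lib

/-! # Module M7a: two heavy planes in rank 4 are not disjoint -/

set_option linter.unusedSectionVars false

namespace Ca3

open Finset Submodule

/-- coincidence counting: two families of six items in at most five classes, at most two items
of each family in a class -/
theorem P4z_count {β γ : Type*} [DecidableEq β] [DecidableEq γ] (X Y : Finset β) (q : β → γ)
    (hX : X.card = 6) (hY : Y.card = 6) (hS : (X.image q ∪ Y.image q).card ≤ 5)
    (h1 : ∀ w, (X.filter (fun p => q p = w)).card ≤ 2)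
    (h2 : ∀ w, (Y.filter (fun p => q p = w)).card ≤ 2) :
    4 ≤ ((X ×ˢ Y).filter (fun c => q c.1 = q c.2)).card := by
  set S := X.image q ∪ Y.image q with hSdef
  have e1 : X.card = ∑ w ∈ S, (X.filter (fun p => q p = w)).card :=
    card_eq_sum_card_fiberwise (fun p hp => mem_union_left _ (mem_image_of_mem _ hp))
  have e2 : Y.card = ∑ w ∈ S, (Y.filter (fun p => q p = w)).card :=
    card_eq_sum_card_fiberwise (fun p hp => mem_union_right _ (mem_image_of_mem _ hp))
  have e3 : ((X ×ˢ Y).filter (fun c => q c.1 = q c.2)).card =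
      ∑ w ∈ S, (X.filter (fun p => q p = w)).card * (Y.filter (fun p => q p = w)).card := by
    rw [card_eq_sum_card_fiberwise (f := fun c : β × β => q c.1) (t := S)]
    · apply sum_congr rfl
      intro w _
      rw [← card_product]
      congr 1
      ext c
      simp only [mem_filter, mem_product]
      constructor
      · rintro ⟨⟨⟨a, b⟩, c1⟩, d⟩
        exact ⟨⟨a, d⟩, b, c1 ▸ d⟩
      · rintro ⟨⟨a, d⟩, b, c1⟩
        exact ⟨⟨⟨a, b⟩, d.trans c1.symm⟩, d⟩
    · intro c hc
      have := (mem_product.1 (mem_filter.1 hc).1).1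
      exact mem_union_left _ (mem_image_of_mem _ this)
  have e4 : ∀ w ∈ S, 2 * (X.filter (fun p => q p = w)).card +
      2 * (Y.filter (fun p => q p = w)).card ≤
      (X.filter (fun p => q p = w)).card * (Y.filter (fun p => q p = w)).card + 4 := by
    intro w _
    have a1 := h1 w
    have a2 := h2 w
    generalize (X.filter (fun p => q p = w)).card = s at *
    generalize (Y.filter (fun p => q p = w)).card = t at *
    interval_cases s <;> interval_cases t <;> omega
  have e5 := sum_le_sum e4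
  rw [sum_add_distrib, sum_add_distrib, ← mul_sum, ← mul_sum, ← e1, ← e2, ← e3, sum_const,
    smul_eq_mul] at e5
  omega

variable {K V E : Type*} [Field K] [Fintype K] [AddCommGroup V] [Module K V]
  [FiniteDimensional K V] [Fintype E] [DecidableEq E]

/-- flats of rank at most two inside a heavy plane with four elements have at most two elements -/
theorem P4z_small {v : E → V} {n : ℕ} {A : Fin n → Finset E} (hA : IsMason K v ∅ univ A)
    {P : Finset E} (hP : IsFl K v P) (hr : rk K v P = 3) (hc : P.card = 4)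
    (hi : ∃ i, cl K v (A i) = P) {F : Finset E} (hF : IsFl K v F) (hFP : F ⊆ P)
    (hF2 : rk K v F ≤ 2) : F.card ≤ 2 := by
  obtain ⟨i, hi⟩ := hi
  have h1 := hA.eq (empty_subset _) (subset_univ P) hP
  have h2 := hA.eq (empty_subset _) (subset_univ F) hF
  have h3 : cnt A F = 0 := by
    by_contra h
    obtain ⟨j, hj⟩ := card_pos.1 (Nat.pos_of_ne_zero h)
    have hj' : A j ⊆ F := (mem_filter.1 hj).2
    have h5 : cnt A P = 1 := by omega
    obtain ⟨k, hk⟩ := card_eq_one.1 h5
    have hik : i = k := by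
      rw [← mem_singleton, ← hk]
      exact mem_filter.2 ⟨mem_univ _, hi ▸ subset_cl⟩
    have hjk : j = k := by
      rw [← mem_singleton, ← hk]
      exact mem_filter.2 ⟨mem_univ _, hj'.trans hFP⟩
    rw [hjk, ← hik] at hj'
    have h6 : cl K v (A i) ⊆ F := hF.cl_subset hj'
    rw [hi] at h6
    have := rk_mono (K := K) (v := v) h6
    omega
  omega

/-- two pairs in the plane with the same trace on `m` are equal or disjoint; at most two -/
theorem P4z_fibre {v : E → V} (hv : Simple K v) {m : Submodule K V}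
    (hm : Module.finrank K m = 2) {P : Finset E} (hmP : m ≤ sp K v P) (hr : rk K v P = 3)
    (hP : IsFl K v P) (hc : P.card = 4) (hPm : ∀ a ∈ P, v a ∉ m)
    (hsm : ∀ F, IsFl K v F → F ⊆ P → rk K v F ≤ 2 → F.card ≤ 2)
    [DecidableEq (Submodule K V)] (W : Submodule K V) :
    ((P.powersetCard 2).filter (fun p => sp K v p ⊓ m = W)).card ≤ 2 := by
  set T := (P.powersetCard 2).filter (fun p => sp K v p ⊓ m = W) with hT
  have hmem : ∀ p ∈ T, p ⊆ P ∧ p.card = 2 ∧ sp K v p ⊓ m = W := by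
    intro p hp
    have h1 := mem_filter.1 hp
    have h2 := mem_powersetCard.1 h1.1
    exact ⟨h2.1, h2.2, h1.2⟩
  have hdisj : (T : Set (Finset E)).PairwiseDisjoint id := by
    intro p hp p' hp' hne
    obtain ⟨a1, a2, a3⟩ := hmem p hp
    obtain ⟨b1, b2, b3⟩ := hmem p' hp'
    show Disjoint p p'
    rw [disjoint_left]
    intro a ha ha'
    apply hne
    have h1 : Module.finrank K (sp K v p ⊓ m : Submodule K V) = 1 :=
      q_finrank hv hm hmP hr a1 a2 ⟨a, ha, hPm a (a1 ha)⟩
    have h2 : sp K v p = sp K v p' :=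
      q_inj hv a2 b2 ha ha' (hPm a (a1 ha)) h1 (a3.trans b3.symm)
    have h3 : (cl K v p).card ≤ 2 := by
      apply hsm _ isFl_cl (hP.cl_subset a1)
      rw [rk_cl, ← a2]
      exact rk_le_card
    have h4 : p' ⊆ cl K v p := by
      have : cl K v p = cl K v p' := cl_eq_cl_iff.2 h2
      rw [this]; exact subset_cl
    have h5 : p = cl K v p := eq_of_subset_of_card_le subset_cl (by omega)
    have h6 : p' = cl K v p := eq_of_subset_of_card_le h4 (by omega)
    exact h5.trans h6.symm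
  have hcard : (T.biUnion id).card = ∑ p ∈ T, p.card := card_biUnion hdisj
  rw [sum_congr rfl (fun p hp => (hmem p hp).2.1), sum_const, smul_eq_mul] at hcard
  have hsub : T.biUnion id ⊆ P := biUnion_subset.2 fun p hp => (hmem p hp).1
  have := card_le_card hsub
  omega

theorem P4_zero (hK : Fintype.card K = 4) {v : E → V} (hv : Simple K v) {n : ℕ}
    {A : Fin n → Finset E} (hA : IsMason K v ∅ univ A) (h4 : rk K v univ = 4)
    {P1 P2 : Finset E} (hP1 : IsFl K v P1) (hP2 : IsFl K v P2)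
    (hr1 : rk K v P1 = 3) (hr2 : rk K v P2 = 3) (h1 : ∃ i, cl K v (A i) = P1)
    (h2 : ∃ i, cl K v (A i) = P2) : P1 ∩ P2 ≠ ∅ := by
  classical
  intro h0
  have hdis : Disjoint P1 P2 := disjoint_iff_inter_eq_empty.2 h0
  have k1 := Ck hK hv hA (by omega) hP1 (by omega) h1
  have k2 := Ck hK hv hA (by omega) hP2 (by omega) h2
  have s1 : P1 ⊆ univ \ P2 := fun x hx => mem_sdiff.2 ⟨mem_univ _, disjoint_left.1 hdis hx⟩
  have s2 : P2 ⊆ univ \ P1 := fun x hx => mem_sdiff.2 ⟨mem_univ _, disjoint_right.1 hdis hx⟩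
  have c1 := card_le_card s1
  have c2 := card_le_card s2
  have pos : ∀ P : Finset E, (∃ i, cl K v (A i) = P) → 1 ≤ cnt A P := by
    rintro P ⟨i, hi⟩
    exact card_pos.2 ⟨i, mem_filter.2 ⟨mem_univ _, hi ▸ subset_cl⟩⟩
  have n1 := hA.eq (empty_subset _) (subset_univ P1) hP1
  have n2 := hA.eq (empty_subset _) (subset_univ P2) hP2
  have p1 := pos P1 h1
  have p2 := pos P2 h2
  have d1 : P1.card = 4 := by omega
  have d2 : P2.card = 4 := by omega
  have hU : univ \ P1 = P2 := (eq_of_subset_of_card_le s2 (by omega)).symm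
  have hcov : ∀ x : E, x ∈ P1 ∨ x ∈ P2 := by
    intro x
    by_cases hx : x ∈ P1
    · exact Or.inl hx
    · right; rw [← hU]; exact mem_sdiff.2 ⟨mem_univ _, hx⟩
  have hne : P1 ≠ P2 := by
    rintro rfl
    rw [inter_self] at h0
    rw [h0] at d1; simp at d1
  have hcU : (univ : Finset E).card = 8 := by
    have := card_sdiff_add_card_eq_card (subset_univ P1)
    rw [hU] at this; omega
  have hn : n = 4 := by
    have := hA.eq (empty_subset _) (subset_univ univ) isFl_univ
    have hc : cnt A univ = n := by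
      unfold cnt
      rw [filter_true_of_mem (fun i _ => subset_univ _)]
      simp
    omega
  set m : Submodule K V := sp K v P1 ⊓ sp K v P2 with hm_def
  have hm : Module.finrank K m = 2 := finrank_mm h4 hP1 hP2 hr1 hr2 hne
  have hm1 : ∀ a ∈ P1, v a ∉ m := fun a ha h =>
    disjoint_left.1 hdis ha (hP2.mem h.2)
  have hm2 : ∀ a ∈ P2, v a ∉ m := fun a ha h =>
    disjoint_right.1 hdis ha (hP1.mem h.1)
  have sm1 : ∀ F, IsFl K v F → F ⊆ P1 → rk K v F ≤ 2 → F.card ≤ 2 := fun F hF hFP hF2 =>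
    P4z_small hA hP1 hr1 d1 h1 hF hFP hF2
  have sm2 : ∀ F, IsFl K v F → F ⊆ P2 → rk K v F ≤ 2 → F.card ≤ 2 := fun F hF hFP hF2 =>
    P4z_small hA hP2 hr2 d2 h2 hF hFP hF2
  set X := P1.powersetCard 2 with hX_def
  set Y := P2.powersetCard 2 with hY_def
  have hXm : ∀ p ∈ X, p ⊆ P1 ∧ p.card = 2 := fun p hp => mem_powersetCard.1 hp
  have hYm : ∀ p ∈ Y, p ⊆ P2 ∧ p.card = 2 := fun p hp => mem_powersetCard.1 hp
  have fX : ∀ p ∈ X, Module.finrank K (sp K v p ⊓ m : Submodule K V) = 1 := by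
    intro p hp
    obtain ⟨a1, a2⟩ := hXm p hp
    obtain ⟨a, ha⟩ := card_pos.1 (by omega : 0 < p.card)
    exact q_finrank hv hm inf_le_left hr1 a1 a2 ⟨a, ha, hm1 a (a1 ha)⟩
  have fY : ∀ p ∈ Y, Module.finrank K (sp K v p ⊓ m : Submodule K V) = 1 := by
    intro p hp
    obtain ⟨a1, a2⟩ := hYm p hp
    obtain ⟨a, ha⟩ := card_pos.1 (by omega : 0 < p.card)
    exact q_finrank hv hm inf_le_right hr2 a1 a2 ⟨a, ha, hm2 a (a1 ha)⟩
  have hC := P4z_count X Y (fun p => sp K v p ⊓ m)
    (by rw [hX_def, card_powersetCard, d1]; rfl) (by rw [hY_def, card_powersetCard, d2]; rfl)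
    (by
      apply pts_card hK m hm.le
      intro W hW
      rcases mem_union.1 hW with hW | hW
      · obtain ⟨p, hp, rfl⟩ := mem_image.1 hW
        exact ⟨inf_le_right, fX p hp⟩
      · obtain ⟨p, hp, rfl⟩ := mem_image.1 hW
        exact ⟨inf_le_right, fY p hp⟩)
    (fun W => P4z_fibre hv hm inf_le_left hr1 hP1 d1 hm1 sm1 W)
    (fun W => P4z_fibre hv hm inf_le_right hr2 hP2 d2 hm2 sm2 W)
  set C := (X ×ˢ Y).filter (fun c => sp K v c.1 ⊓ m = sp K v c.2 ⊓ m) with hC_def
  have key : ∀ c ∈ C, rk K v (c.1 ∪ c.2) = 3 ∧ cl K v (c.1 ∪ c.2) = c.1 ∪ c.2 ∧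
      c.1 ⊆ P1 ∧ c.2 ⊆ P2 ∧ c.1.card = 2 ∧ c.2.card = 2 := by
    rintro ⟨p, p'⟩ hc
    obtain ⟨hc1, hc2⟩ := mem_filter.1 hc
    obtain ⟨hp, hp'⟩ := mem_product.1 hc1
    simp only at hc2 hp hp' ⊢
    obtain ⟨a1, a2⟩ := hXm p hp
    obtain ⟨b1, b2⟩ := hYm p' hp'
    have r1 : rk K v p = 2 := by
      rw [(hv.ind_of_card_le_two (X := p) a2.le).rk_eq_card, a2]
    have r2 : rk K v p' = 2 := by
      rw [(hv.ind_of_card_le_two (X := p') b2.le).rk_eq_card, b2]
    have hinf : sp K v p ⊓ sp K v p' = sp K v p ⊓ m := by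
      apply le_antisymm
      · refine le_inf inf_le_left (le_inf ?_ ?_)
        · exact inf_le_left.trans (sp_mono a1)
        · exact inf_le_right.trans (sp_mono b1)
      · refine le_inf inf_le_left ?_
        rw [hc2]
        exact inf_le_left
    have hrk : rk K v (p ∪ p') = 3 := by
      have e1 := finrank_sup_add_finrank_inf_eq (sp K v p) (sp K v p')
      rw [hinf, fX p hp] at e1
      unfold rk at r1 r2 ⊢
      rw [sp_union]
      omega
    refine ⟨hrk, ?_, a1, b1, a2, b2⟩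
    have hQ : IsFl K v (cl K v (p ∪ p')) := isFl_cl
    have hpQ : p ⊆ cl K v (p ∪ p') := subset_union_left.trans subset_cl
    have hpQ' : p' ⊆ cl K v (p ∪ p') := subset_union_right.trans subset_cl
    have t1 : (cl K v (p ∪ p') ∩ P1).card ≤ 2 := by
      apply sm1 _ (hQ.inter hP1) inter_subset_right
      by_contra hcon
      have := (hQ.inter hP1).eq_of_subset_of_rk_le (G := cl K v (p ∪ p')) inter_subset_left
        (by rw [rk_cl, hrk]; omega)
      obtain ⟨a, ha⟩ := card_pos.1 (by omega : 0 < p'.card)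
      have ha' : a ∈ cl K v (p ∪ p') ∩ P1 := by rw [this]; exact hpQ' ha
      exact disjoint_left.1 hdis (mem_inter.1 ha').2 (b1 ha)
    have t2 : (cl K v (p ∪ p') ∩ P2).card ≤ 2 := by
      apply sm2 _ (hQ.inter hP2) inter_subset_right
      by_contra hcon
      have := (hQ.inter hP2).eq_of_subset_of_rk_le (G := cl K v (p ∪ p')) inter_subset_left
        (by rw [rk_cl, hrk]; omega)
      obtain ⟨a, ha⟩ := card_pos.1 (by omega : 0 < p.card)
      have ha' : a ∈ cl K v (p ∪ p') ∩ P2 := by rw [this]; exact hpQ ha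
      exact disjoint_left.1 hdis (a1 ha) (mem_inter.1 ha').2
    have u1 : p = cl K v (p ∪ p') ∩ P1 :=
      eq_of_subset_of_card_le (subset_inter hpQ a1) (by omega)
    have u2 : p' = cl K v (p ∪ p') ∩ P2 :=
      eq_of_subset_of_card_le (subset_inter hpQ' b1) (by omega)
    apply subset_antisymm _ subset_cl
    intro x hx
    rcases hcov x with hx' | hx'
    · exact mem_union_left _ (by rw [u1]; exact mem_inter.2 ⟨hx, hx'⟩)
    · exact mem_union_right _ (by rw [u2]; exact mem_inter.2 ⟨hx, hx'⟩)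
  have hdc : ∀ c ∈ C, (c.1 ∪ c.2).card = 4 := by
    intro c hc
    obtain ⟨-, -, a1, b1, a2, b2⟩ := key c hc
    rw [card_union_of_disjoint (hdis.mono a1 b1), a2, b2]
  have hex : ∀ c ∈ C, ∃ j, A j ⊆ c.1 ∪ c.2 := by
    intro c hc
    obtain ⟨a1, a2, -⟩ := key c hc
    have e1 := hA.eq (empty_subset _) (subset_univ (c.1 ∪ c.2)) a2
    have e2 := hdc c hc
    obtain ⟨j, hj⟩ := card_pos.1 (by unfold cnt at e1; omega :
      0 < (univ.filter (fun i => A i ⊆ c.1 ∪ c.2)).card)
    exact ⟨j, (mem_filter.1 hj).2⟩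
  have hpart1 : ∀ c ∈ C, ∀ x, x ∈ c.1 ∪ c.2 → x ∈ P1 → x ∈ c.1 := by
    intro c hc x hx hx1
    obtain ⟨-, -, a1, b1, a2, b2⟩ := key c hc
    rcases mem_union.1 hx with h | h
    · exact h
    · exact absurd (b1 h) (disjoint_left.1 hdis hx1)
  have hpart2 : ∀ c ∈ C, ∀ x, x ∈ c.1 ∪ c.2 → x ∈ P2 → x ∈ c.2 := by
    intro c hc x hx hx1
    obtain ⟨-, -, a1, b1, a2, b2⟩ := key c hc
    rcases mem_union.1 hx with h | h
    · exact absurd (a1 h) (disjoint_right.1 hdis hx1)
    · exact h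
  obtain ⟨i1, hi1⟩ := h1
  obtain ⟨i2, hi2⟩ := h2
  have : Nonempty (Fin n) := ⟨i1⟩
  choose! J hJ using hex
  have hi12 : i1 ≠ i2 := by
    rintro rfl
    exact hne (hi1.symm.trans hi2)
  have hJ1 : ∀ c ∈ C, J c ≠ i1 := by
    intro c hc h
    have e1 := hJ c hc
    rw [h] at e1
    obtain ⟨-, a2, a3, -, a5, -⟩ := key c hc
    have e2 : P1 ⊆ c.1 ∪ c.2 := by
      rw [← hi1, ← a2]; exact cl_mono e1
    have e3 : P1 ⊆ c.1 := fun x hx => hpart1 c hc x (e2 hx) hx
    have := card_le_card e3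
    omega
  have hJ2 : ∀ c ∈ C, J c ≠ i2 := by
    intro c hc h
    have e1 := hJ c hc
    rw [h] at e1
    obtain ⟨-, a2, -, a4, -, a6⟩ := key c hc
    have e2 : P2 ⊆ c.1 ∪ c.2 := by
      rw [← hi2, ← a2]; exact cl_mono e1
    have e3 : P2 ⊆ c.2 := fun x hx => hpart2 c hc x (e2 hx) hx
    have := card_le_card e3
    omega
  have hinj : Set.InjOn J C := by
    intro c hc d hd hcd
    by_contra hne'
    have hc' := mem_coe.1 hc
    have hd' := mem_coe.1 hd
    obtain ⟨r1, f1, a1, b1, a2, b2⟩ := key c hc'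
    obtain ⟨r2, f2, a3, b3, a4, b4⟩ := key d hd'
    have hF : IsFl K v ((c.1 ∪ c.2) ∩ (d.1 ∪ d.2)) := IsFl.inter f1 f2
    have hQne : c.1 ∪ c.2 ≠ d.1 ∪ d.2 := by
      intro h
      apply hne'
      apply Prod.ext
      · apply eq_of_subset_of_card_le _ (by omega)
        intro x hx
        exact hpart1 d hd' x (h ▸ mem_union_left _ hx) (a1 hx)
      · apply eq_of_subset_of_card_le _ (by omega)
        intro x hx
        exact hpart2 d hd' x (h ▸ mem_union_right _ hx) (b1 hx)
    have hrk : rk K v ((c.1 ∪ c.2) ∩ (d.1 ∪ d.2)) ≤ 2 := by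
      by_contra hcon
      have g1 := hF.eq_of_subset_of_rk_le (G := c.1 ∪ c.2) inter_subset_left (by omega)
      have g2 := hF.eq_of_subset_of_rk_le (G := d.1 ∪ d.2) inter_subset_right (by omega)
      exact hQne (g1.symm.trans g2)
    have hcnt : 1 ≤ cnt A ((c.1 ∪ c.2) ∩ (d.1 ∪ d.2)) := by
      refine card_pos.2 ⟨J c, mem_filter.2 ⟨mem_univ _, subset_inter (hJ c hc') ?_⟩⟩
      rw [hcd]; exact hJ d hd'
    obtain ⟨-, h3⟩ := three_of_cnt hv hA hF hrk hcnt
    set F := (c.1 ∪ c.2) ∩ (d.1 ∪ d.2) with hF_def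
    -- two elements in one of the planes
    have hsplit : F.card = (F.filter (fun x => x ∈ P1)).card +
        (F.filter (fun x => ¬ x ∈ P1)).card :=
      (card_filter_add_card_filter_not (s := F) (fun x => x ∈ P1)).symm
    rcases (by omega : 1 < (F.filter (fun x => x ∈ P1)).card ∨
        1 < (F.filter (fun x => ¬ x ∈ P1)).card) with h | h
    · obtain ⟨a, ha, b, hb, hab⟩ := one_lt_card.1 h
      have ha' := mem_filter.1 ha
      have hb' := mem_filter.1 hb
      have hsub := fl_sub_of_two hv hP1 hrk hab ha'.1 hb'.1 ha'.2 hb'.2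
      have := sm1 F hF hsub hrk
      omega
    · obtain ⟨a, ha, b, hb, hab⟩ := one_lt_card.1 h
      have ha' := mem_filter.1 ha
      have hb' := mem_filter.1 hb
      have hsub := fl_sub_of_two hv hP2 hrk hab ha'.1 hb'.1
        ((hcov a).resolve_left ha'.2) ((hcov b).resolve_left hb'.2)
      have := sm2 F hF hsub hrk
      omega
  have hmap : ∀ c ∈ C, J c ∈ (univ.erase i1).erase i2 := by
    intro c hc
    exact mem_erase.2 ⟨hJ2 c hc, mem_erase.2 ⟨hJ1 c hc, mem_univ _⟩⟩
  have hle := card_le_card_of_injOn J hmap hinj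
  rw [card_erase_of_mem (mem_erase.2 ⟨hi12.symm, mem_univ _⟩), card_erase_of_mem (mem_univ _),
    card_univ, Fintype.card_fin, hn] at hle
  omega

end Ca3
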