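import Pool.Agent.Lib.MP_ca3eb1_co.Her3
import Pool.Agent.Lib.MP_ca3eb1_co.Transfer
import Pool.Agent.Lib.MP_ca3eb1_co.C3

/-! # Module W1b: counting lines through a point in rank 4 -/

set_option linter.unusedSectionVars false

namespace Ca3

open Finset Submodule

variable {K V E : Type*} [Field K] [Fintype K] [AddCommGroup V] [Module K V]
  [FiniteDimensional K V] [Fintype E] [DecidableEq E] {v : E → V}

private lemma pn_not_mem (hv : Simple K v) {z e : E} (h : e ≠ z) : v e ∉ sp K v {z} := by
  rw [sp_singleton]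
  exact fun h' => h (hv.2 e z h')

private lemma pn_pair_comm {z e : E} : (insert e {z} : Finset E) = {z, e} := by
  ext x; simp [or_comm]

/-- classes of the flat `W` modulo `z` -/
theorem card_tr_eq_pen (hv : Simple K v) {z : E} {T R W : Finset E}
    (hR : IsReps K v {z} T R) (hW : IsFl K v W) (hz : z ∈ W) (hWT : W ⊆ T) :
    (tr R W).card = pen K v z W := by
  unfold pen
  apply card_bij (fun (r : R) _ => cl K v {z, (r : E)})
  · intro r hr
    have hrW : (r : E) ∈ W := by simpa [tr] using hr
    refine mem_image.2 ⟨r, mem_erase.2 ⟨?_, hrW⟩, rfl⟩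
    intro h0
    apply hR.not_mem r r.2
    rw [h0]
    exact mem_sp (mem_singleton_self z)
  · intro r _ s _ hrs
    apply Subtype.ext
    apply hR.uniq r r.2 s s.2
    rw [pn_pair_comm, ← mem_cl, ← hrs]
    exact subset_cl (by simp)
  · intro L hL
    obtain ⟨e, he, rfl⟩ := mem_image.1 hL
    rw [mem_erase] at he
    obtain ⟨r, hr, h1, h2⟩ := hR.exists_mem (hWT he.2) (pn_not_mem hv he.1)
    have hrW : r ∈ W := by
      apply hW.mem
      refine (sp_le_iff.2 ?_) h1
      intro f hf
      rw [mem_insert, mem_singleton] at hf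
      rcases hf with rfl | rfl
      · exact mem_sp he.2
      · exact mem_sp hz
    refine ⟨⟨r, hr⟩, by simpa [tr] using hrW, ?_⟩
    rw [pn_pair_comm] at h1 h2
    rw [cl_eq_cl_iff]
    apply le_antisymm
    · rw [sp_le_iff]
      intro f hf
      rw [mem_insert, mem_singleton] at hf
      rcases hf with rfl | rfl
      · exact mem_sp (by simp)
      · exact h1
    · rw [sp_le_iff]
      intro f hf
      rw [mem_insert, mem_singleton] at hf
      rcases hf with rfl | rfl
      · exact mem_sp (by simp)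
      · exact h2

theorem pen_mono (hv : Simple K v) {z : E} {W W' : Finset E} (h : W ⊆ W') :
    pen K v z W ≤ pen K v z W' := by
  unfold pen
  exact card_le_card (image_subset_image (erase_subset_erase z h))

theorem card_le_pen (hv : Simple K v) {z : E} {S W : Finset E} (hSW : S ⊆ W) (hz : z ∉ S)
    (h : ∀ a ∈ S, ∀ b ∈ S, a ≠ b → v b ∉ sp K v {z, a}) : S.card ≤ pen K v z W := by
  unfold pen
  apply card_le_card_of_injOn (fun e => cl K v {z, e})
  · intro e he
    rw [mem_coe] at he
    exact mem_image_of_mem _ (mem_erase.2 ⟨fun h0 => hz (h0 ▸ he), hSW he⟩)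
  · intro a ha b hb hab
    by_contra hne
    apply h a ha b hb hne
    rw [← mem_cl]
    have : cl K v {z, a} = cl K v {z, b} := hab
    rw [this]
    exact subset_cl (by simp)

/-- two planes through `z` share at most the line which is their intersection -/
theorem pen_add_le (hv : Simple K v) {z : E} {P P' : Finset E} (hP : IsFl K v P)
    (hP' : IsFl K v P') (h3 : rk K v P = 3) (h3' : rk K v P' = 3) (hne : P ≠ P')
    (hz : z ∈ P) (hz' : z ∈ P') : pen K v z P + pen K v z P' ≤ pen K v z univ + 1 := by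
  unfold pen
  set f : E → Finset E := fun e => cl K v {z, e} with hf
  have h1 := card_union_add_card_inter ((P.erase z).image f) ((P'.erase z).image f)
  have h2 : ((P.erase z).image f ∪ (P'.erase z).image f).card ≤ ((univ.erase z).image f).card := by
    apply card_le_card
    apply union_subset
    · exact image_subset_image (erase_subset_erase z (subset_univ _))
    · exact image_subset_image (erase_subset_erase z (subset_univ _))
  have hrk : rk K v (P ∩ P') ≤ 2 := by
    by_contra hc
    apply hne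
    have h4 : P ∩ P' = P :=
      (hP.inter hP').eq_of_subset_of_rk_le inter_subset_left (by omega)
    have h5 : P ∩ P' = P' :=
      (hP.inter hP').eq_of_subset_of_rk_le inter_subset_right (by omega)
    rw [← h4, h5]
  have hmem : ∀ L ∈ (P.erase z).image f ∩ (P'.erase z).image f, L = P ∩ P' := by
    intro L hL
    rw [mem_inter] at hL
    obtain ⟨e, he, rfl⟩ := mem_image.1 hL.1
    obtain ⟨e', he', hee'⟩ := mem_image.1 hL.2
    rw [mem_erase] at he he'
    have s1 : f e ⊆ P := hP.cl_subset (insert_subset hz (singleton_subset_iff.2 he.2))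
    have s2 : f e ⊆ P' := by
      rw [← hee']
      exact hP'.cl_subset (insert_subset hz' (singleton_subset_iff.2 he'.2))
    have hfl : IsFl K v (f e) := isFl_cl
    apply hfl.eq_of_subset_of_rk_le (subset_inter s1 s2)
    have : rk K v (f e) = 2 := by
      show rk K v (cl K v {z, e}) = 2
      rw [rk_cl, hv.rk_pair (Ne.symm he.1)]
    omega
  have h3 : ((P.erase z).image f ∩ (P'.erase z).image f).card ≤ 1 := by
    rw [card_le_one]
    intro a ha b hb
    rw [hmem a ha, hmem b hb]
  omega

private lemma pn_reps (hv : Simple K v) (z : E) :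
    ∃ R, IsReps K v {z} univ R := by
  obtain ⟨R, -, hR⟩ := exists_reps (K := K) (v := v) (Y := {z}) (T := univ) (R₀ := ∅)
    (empty_subset _) (by simp) (by simp)
  exact ⟨R, hR⟩

private lemma pn_card_univ (hv : Simple K v) {z : E} {R : Finset E}
    (hR : IsReps K v {z} univ R) : (univ : Finset R).card = pen K v z univ := by
  rw [← card_tr_eq_pen hv hR isFl_univ (mem_univ z) (subset_refl _)]
  congr 1
  ext r
  simp [tr]

theorem pen_C3 (hK : Fintype.card K = 4) (hv : Simple K v) (h4 : rk K v univ = 4)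
    (hs : SG K v ∅ univ) {z : E} {P : Finset E} (hP : IsFl K v P) (h3 : rk K v P = 3)
    (hz : z ∈ P) (hp : 3 ≤ pen K v z P) : pen K v z univ ≤ pen K v z P + 4 := by
  classical
  obtain ⟨R, hR⟩ := pn_reps hv z
  obtain ⟨n, A, hA⟩ := hs.mono (Y' := {z}) (T' := univ) (empty_subset _) (subset_refl _)
  have hT := transfer hR isFl_univ (subset_univ _) hA
  have hz1 : rk K v {z} = 1 := hv.rk_singleton
  have hzP : ({z} : Finset E) ⊆ P := singleton_subset_iff.2 hz
  have hru := rk_qc_univ hR (subset_univ _)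
  have hrP := rk_tr hR hP hzP (subset_univ _)
  have hcP := card_tr_eq_pen hv hR hP hz (subset_univ _)
  have hflP := isFl_tr hR hP hzP (subset_univ _)
  have hcU := pn_card_univ hv hR
  have heq := hT.eq (empty_subset _) (subset_univ _) hflP
  have hpos : 0 < cnt (fun i : BigIdx K v {z} univ A => tr R (cl K v (A i.1 ∪ {z})))
      (tr R P) := by omega
  unfold cnt at hpos
  obtain ⟨i, hi⟩ := card_pos.1 hpos
  rw [mem_filter] at hi
  have hfi : IsFl K (qc K v {z} R) (tr R (cl K v (A i.1 ∪ {z}))) :=
    isFl_tr hR isFl_cl (subset_union_right.trans subset_cl) (subset_univ _)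
  have hri := rk_tr hR (isFl_cl (K := K) (v := v) (X := A i.1 ∪ {z}))
    (subset_union_right.trans subset_cl) (subset_univ _)
  have hi2 := i.2.2
  rw [rk_cl] at hri
  have hii : tr R (cl K v (A i.1 ∪ {z})) = tr R P := by
    apply hfi.eq_of_subset_of_rk_le hi.2
    omega
  have hC := C3 hK (qc_simple hR) hT (by omega) hflP (by omega) ⟨i, by
    rw [hii]; exact hflP⟩
  have hcs := card_sdiff_add_card_eq_card (subset_univ (tr R P))
  omega

theorem pen_sum (hv : Simple K v) (h4 : rk K v univ = 4)
    (hs : SG K v ∅ univ) {z : E} {PP : Finset (Finset E)}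
    (hP : ∀ P ∈ PP, IsFl K v P ∧ rk K v P = 3 ∧ z ∈ P) :
    ∑ P ∈ PP, (pen K v z P - 2) + 3 ≤ pen K v z univ := by
  classical
  obtain ⟨R, hR⟩ := pn_reps hv z
  have hs' : SG K v {z} univ := hs.mono (empty_subset _) (subset_refl _)
  have hS := transfer_SG hR isFl_univ (subset_univ _) hs'
  have hz1 : rk K v {z} = 1 := hv.rk_singleton
  have hru := rk_qc_univ hR (subset_univ _)
  have hru3 : rk K (qc K v {z} R) univ = 3 := by omega
  have h := her3_lines (qc_simple hR) isFl_univ hru3 hS (S := univ) (subset_refl _) hru3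
    (LL := PP.image (tr R)) (by
      intro L hL
      obtain ⟨P, hPP, rfl⟩ := mem_image.1 hL
      obtain ⟨h1, h2, h3⟩ := hP P hPP
      have hrP := rk_tr hR h1 (singleton_subset_iff.2 h3) (subset_univ _)
      exact ⟨isFl_tr hR h1 (singleton_subset_iff.2 h3) (subset_univ _), by omega⟩)
  rw [sum_image, pn_card_univ hv hR] at h
  · refine le_trans (le_of_eq ?_) h
    congr 1
    apply sum_congr rfl
    intro P hPP
    obtain ⟨h1, h2, h3⟩ := hP P hPP
    rw [inter_univ, card_tr_eq_pen hv hR h1 h3 (subset_univ _)]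
  · intro P hPP P' hPP' he
    obtain ⟨h1, h2, h3⟩ := hP P hPP
    obtain ⟨h1', h2', h3'⟩ := hP P' hPP'
    exact tr_inj hR h1 (singleton_subset_iff.2 h3) (subset_univ _) h1'
      (singleton_subset_iff.2 h3') (subset_univ _) he

/-- the plane over a heavy line in the frame -/
private lemma pn_star (hv : Simple K v) {z : E} {A : Finset E} (hA : HL K v A) (hz : z ∉ A) :
    rk K v (cl K v (insert z A)) = 3 ∧ 3 ≤ pen K v z (cl K v (insert z A)) := by
  obtain ⟨hf, hr, hc⟩ := hA
  have hz' : v z ∉ sp K v A := fun h' => hz (hf.mem h')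
  refine ⟨by rw [rk_cl, rk_insert_of_not_mem_sp hz', hr], ?_⟩
  refine hc.trans (card_le_pen hv ((subset_insert z A).trans subset_cl) hz ?_)
  intro a ha b hb hab h
  apply hz'
  have h1 : v b ∉ sp K v {a} := pn_not_mem hv (Ne.symm hab)
  have h2 := mem_sp_insert_exchange (X := {a}) (e := z) (f := b) h h1
  refine (sp_le_iff.2 ?_) h2
  intro f hf
  rw [mem_insert, mem_singleton] at hf
  rcases hf with rfl | rfl
  · exact mem_sp hb
  · exact mem_sp ha

private lemma pn_line_eq (hv : Simple K v) {A : Finset E} (hA : HL K v A) {q z : E}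
    (hq : q ∈ A) (hz : z ∈ A) (hqz : z ≠ q) : cl K v {q, z} = A := by
  apply hA.1.cl_eq
  · exact insert_subset hq (singleton_subset_iff.2 hz)
  · rw [hv.rk_pair (Ne.symm hqz), hA.2.1]

private lemma pn_rk_two (hv : Simple K v) {A B : Finset E} (hA : HL K v A) (hB : HL K v B)
    {q : E} (hqA : q ∈ A) (hqB : q ∈ B) : rk K v (A ∪ B) ≤ 3 := by
  have h := rk_union_add_rk_inter (K := K) (v := v) (X := A) (Y := B)
  have h1 : rk K v {q} ≤ rk K v (A ∩ B) :=
    rk_mono (singleton_subset_iff.2 (mem_inter.2 ⟨hqA, hqB⟩))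
  rw [hv.rk_singleton] at h1
  have h2 := hA.2.1
  have h3 := hB.2.1
  omega

/-- frame lemma -/
theorem frame (hK : Fintype.card K = 4) (hv : Simple K v) (h4 : rk K v univ = 4)
    (hs : SG K v ∅ univ) {q : E} {A B C : Finset E} (hA : HL K v A) (hB : HL K v B)
    (hC : HL K v C) (hqA : q ∈ A) (hqB : q ∈ B) (hqC : q ∈ C) (hr : rk K v (A ∪ B ∪ C) = 4)
    {z : E} (hz : z ∈ C) (hzq : z ≠ q) :
    ∃ o : ℕ, pen K v z univ + 1 = pen K v z (cl K v (insert z A)) +
        pen K v z (cl K v (insert z B)) + o ∧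
      pen K v z (cl K v (insert z A)) + o ≤ 5 ∧ pen K v z (cl K v (insert z B)) + o ≤ 5 ∧
      3 ≤ pen K v z (cl K v (insert z A)) ∧ 3 ≤ pen K v z (cl K v (insert z B)) ∧
      ∀ PP : Finset (Finset E), (∀ P ∈ PP, IsFl K v P ∧ rk K v P = 3 ∧ z ∈ P ∧
        P ≠ cl K v (insert z A) ∧ P ≠ cl K v (insert z B)) →
        ∑ P ∈ PP, (pen K v z P - 2) ≤ o := by
  classical
  have hCl := pn_line_eq hv hC hqC hz hzq
  have hzA : z ∉ A := by
    intro h
    have hAC : A = C := by rw [← pn_line_eq hv hA hqA h hzq, hCl]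
    have h1 := pn_rk_two hv hA hB hqA hqB
    have h2 : A ∪ B ∪ C = A ∪ B := by
      rw [← hAC]
      ext x; simp only [mem_union]; tauto
    rw [h2] at hr
    omega
  have hzB : z ∉ B := by
    intro h
    have hBC : B = C := by rw [← pn_line_eq hv hB hqB h hzq, hCl]
    have h1 := pn_rk_two hv hA hB hqA hqB
    have h2 : A ∪ B ∪ C = A ∪ B := by
      rw [← hBC]
      ext x; simp only [mem_union]; tauto
    rw [h2] at hr
    omega
  obtain ⟨hA3, hAp⟩ := pn_star hv hA hzA
  obtain ⟨hB3, hBp⟩ := pn_star hv hB hzB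
  have hAz : z ∈ cl K v (insert z A) := subset_cl (mem_insert_self _ _)
  have hBz : z ∈ cl K v (insert z B) := subset_cl (mem_insert_self _ _)
  have hAB : cl K v (insert z A) ≠ cl K v (insert z B) := by
    intro he
    have h1 : A ∪ B ∪ C ⊆ cl K v (insert z A) := by
      apply union_subset (union_subset ((subset_insert z A).trans subset_cl) _)
      · rw [← hCl]
        apply isFl_cl.cl_subset
        apply insert_subset (subset_cl (mem_insert_of_mem hqA))
        exact singleton_subset_iff.2 hAz
      · rw [he]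
        exact (subset_insert z B).trans subset_cl
    have h2 := rk_mono (K := K) (v := v) h1
    omega
  have h1 := pen_add_le hv isFl_cl isFl_cl hA3 hB3 hAB hAz hBz
  have h2 := pen_C3 hK hv h4 hs isFl_cl hA3 hAz hAp
  have h3 := pen_C3 hK hv h4 hs isFl_cl hB3 hBz hBp
  refine ⟨pen K v z univ + 1 - (pen K v z (cl K v (insert z A)) +
    pen K v z (cl K v (insert z B))), by omega, by omega, by omega, hAp, hBp, ?_⟩
  intro PP hPP
  have h5 := pen_sum hv h4 hs (z := z)
    (PP := insert (cl K v (insert z A)) (insert (cl K v (insert z B)) PP)) (by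
      intro P hP
      rw [mem_insert, mem_insert] at hP
      rcases hP with rfl | rfl | hP
      · exact ⟨isFl_cl, hA3, hAz⟩
      · exact ⟨isFl_cl, hB3, hBz⟩
      · obtain ⟨a1, a2, a3, -⟩ := hPP P hP
        exact ⟨a1, a2, a3⟩)
  rw [sum_insert, sum_insert] at h5
  · omega
  · intro h
    exact (hPP _ h).2.2.2.2 rfl
  · rw [mem_insert]
    rintro (h | h)
    · exact hAB h
    · exact (hPP _ h).2.2.2.1 rfl

end Ca3
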