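import Pool.Agent.Lib.MP_ca3eb1_co.StructureKey

/-! # Module M11b: the core of the structure theorem (parts (1), (2)) -/

set_option linter.unusedSectionVars false

namespace Ca3

open Finset Submodule

section coords

variable {K V E : Type*} [Field K] [AddCommGroup V] [Module K V]
  [FiniteDimensional K V] [Fintype E] [DecidableEq E]

/-- Coordinates with respect to `p` and the `v (z₀ u)`, `u ∈ B`. -/
lemma exists_coords {v : E → V} {p : V} {n : ℕ} {z₀ : Fin n → E} {B : Finset (Fin n)}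
    (hpU : p ∈ sp K v univ) (hBc : B.card + 1 = rk K v univ)
    (hsp : ∀ e, v e ∈ span K (insert p ((fun i => v (z₀ i)) '' (B : Set (Fin n))))) :
    ∃ φ : Fin n → (V →ₗ[K] K), (∀ u ∈ B, φ u p = 0) ∧
      (∀ u ∈ B, ∀ w ∈ B, φ u (v (z₀ w)) = if w = u then 1 else 0) ∧
      (∀ x ∈ sp K v univ, ∃ β : K, x = ∑ u ∈ B, φ u x • v (z₀ u) + β • p) := by
  classical
  have hne : ∀ u ∈ B, v (z₀ u) ∉
      span K (insert p ((fun i => v (z₀ i)) '' ((B.erase u : Finset (Fin n)) : Set (Fin n)))) := by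
    intro u hu hx
    have h1 : sp K v univ ≤
        span K (insert p ((fun i => v (z₀ i)) '' ((B.erase u : Finset (Fin n)) :
          Set (Fin n)))) := by
      rw [sp_le_iff]
      intro e _
      refine (span_le.2 ?_) (hsp e)
      rintro y (rfl | ⟨w, hw, rfl⟩)
      · exact subset_span (Set.mem_insert _ _)
      · by_cases hwu : w = u
        · subst hwu; exact hx
        · refine subset_span (Set.mem_insert_of_mem _ ⟨w, ?_, rfl⟩)
          simp only [coe_erase, Set.mem_sdiff, Set.mem_singleton_iff]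
          exact ⟨hw, hwu⟩
    have h2 := finrank_mono h1
    have h3 : insert p ((fun i => v (z₀ i)) '' ((B.erase u : Finset (Fin n)) : Set (Fin n))) =
        ((insert p ((B.erase u).image (fun i => v (z₀ i))) : Finset V) : Set V) := by
      simp
    rw [h3] at h2
    have h4 := finrank_span_finset_le_card (R := K)
      (insert p ((B.erase u).image (fun i => v (z₀ i))))
    have h5 : (insert p ((B.erase u).image (fun i => v (z₀ i)))).card ≤ B.card := by
      have h6 := card_insert_le p ((B.erase u).image (fun i => v (z₀ i)))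
      have h7 : ((B.erase u).image (fun i => v (z₀ i))).card ≤ (B.erase u).card :=
        card_image_le
      have h8 := card_erase_of_mem hu
      have h9 : 0 < B.card := card_pos.2 ⟨u, hu⟩
      omega
    unfold rk at hBc
    unfold Set.finrank at h4
    omega
  have hex : ∀ u : Fin n, ∃ f : V →ₗ[K] K, u ∈ B → f p = 0 ∧
      ∀ w ∈ B, f (v (z₀ w)) = if w = u then 1 else 0 := by
    intro u
    by_cases hu : u ∈ B
    · obtain ⟨f, hf, hk⟩ := exists_le_ker_of_notMem (hne u hu)
      refine ⟨(f (v (z₀ u)))⁻¹ • f, fun _ => ⟨?_, ?_⟩⟩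
      · have : f p = 0 := hk (subset_span (Set.mem_insert _ _))
        simp [this]
      · intro w hw
        split_ifs with hwu
        · subst hwu
          simp [inv_mul_cancel₀ hf]
        · have : f (v (z₀ w)) = 0 := by
            refine hk (subset_span (Set.mem_insert_of_mem _ ⟨w, ?_, rfl⟩))
            simp only [coe_erase, Set.mem_sdiff, Set.mem_singleton_iff]
            exact ⟨hw, hwu⟩
          simp [this]
    · exact ⟨0, fun h => absurd h hu⟩
  choose φ hφ using hex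
  refine ⟨φ, fun u hu => (hφ u hu).1, fun u hu => (hφ u hu).2, ?_⟩
  intro x hx
  have hx' : x ∈ span K (insert p ((fun i => v (z₀ i)) '' (B : Set (Fin n)))) :=
    (sp_le_iff.2 fun e _ => hsp e) hx
  obtain ⟨β, y, hy, rfl⟩ := mem_span_insert.1 hx'
  have hc : ∃ c : Fin n → K, ∑ u ∈ B, c u • v (z₀ u) = y := by
    clear hx hx'
    induction hy using span_induction with
    | mem y hy =>
      obtain ⟨w, hw, rfl⟩ := hy
      refine ⟨fun u => if u = w then 1 else 0, ?_⟩
      rw [sum_eq_single w]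
      · simp
      · intro u _ huw; simp [huw]
      · intro h; exact absurd hw h
    | zero => exact ⟨fun _ => 0, by simp⟩
    | add y₁ y₂ _ _ h1 h2 =>
      obtain ⟨c₁, rfl⟩ := h1
      obtain ⟨c₂, rfl⟩ := h2
      exact ⟨fun u => c₁ u + c₂ u, by simp [add_smul, sum_add_distrib]⟩
    | smul r y _ h1 =>
      obtain ⟨c₁, rfl⟩ := h1
      exact ⟨fun u => r * c₁ u, by simp [mul_smul, smul_sum]⟩
  obtain ⟨c, rfl⟩ := hc
  refine ⟨β, ?_⟩
  rw [add_comm]
  congr 1
  apply sum_congr rfl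
  intro u hu
  congr 1
  rw [map_add, map_smul, (hφ u hu).1, smul_zero, add_zero, map_sum]
  symm
  rw [sum_eq_single u]
  · rw [map_smul, (hφ u hu).2 u hu]; simp
  · intro w hw hwu
    rw [map_smul, (hφ u hu).2 w hw]; simp [hwu]
  · intro h; exact absurd hu h

end coords

section SC

variable {K V E : Type*} [Field K] [AddCommGroup V] [Module K V]
  [FiniteDimensional K V] [Fintype E] [DecidableEq E]

/-- The data of the structure theorem with coordinates. -/
structure SC (v : E → V) (p : V) {n : ℕ} (leg : E → Fin n) (z₀ : Fin n → E)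
    (B : Finset (Fin n)) (φ : Fin n → (V →ₗ[K] K)) : Prop where
  simple : Simple K v
  hp : ∀ e, p ∉ span K {v e}
  hleg : ∀ e f, leg e = leg f ↔ v f ∈ span K {v e, p}
  hz₀ : ∀ i, leg (z₀ i) = i
  hBc : B.card + 1 = rk K v univ
  φp : ∀ u ∈ B, φ u p = 0
  φz : ∀ u ∈ B, ∀ w ∈ B, φ u (v (z₀ w)) = if w = u then 1 else 0
  dec : ∀ x ∈ sp K v univ, ∃ β : K, x = ∑ u ∈ B, φ u x • v (z₀ u) + β • p

variable {v : E → V} {p : V} {n : ℕ} {leg : E → Fin n} {z₀ : Fin n → E}
    {B : Finset (Fin n)} {φ : Fin n → (V →ₗ[K] K)}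

lemma SC.same (h : SC v p leg z₀ B φ) {e f : E} (hef : leg e = leg f) :
    ∃ c d : K, c ≠ 0 ∧ v f = c • v e + d • p := by
  obtain ⟨c, d, hcd⟩ := mem_span_pair.1 ((h.hleg e f).1 hef)
  refine ⟨c, d, ?_, hcd.symm⟩
  rintro rfl
  rw [zero_smul, zero_add] at hcd
  have hd : d ≠ 0 := by
    rintro rfl
    rw [zero_smul] at hcd
    exact h.simple.1 f hcd.symm
  apply h.hp f
  rw [mem_span_singleton]
  exact ⟨d⁻¹, by rw [← hcd, smul_smul, inv_mul_cancel₀ hd, one_smul]⟩

lemma SC.same_ne (h : SC v p leg z₀ B φ) {e f : E} (hef : leg e = leg f) (hne : e ≠ f) :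
    p ∈ span K {v e, v f} := by
  obtain ⟨c, d, hc, hcd⟩ := h.same hef
  have hd : d ≠ 0 := by
    rintro rfl
    rw [zero_smul, add_zero] at hcd
    exact hne (h.simple.2 f e (by rw [mem_span_singleton]; exact ⟨c, hcd.symm⟩)).symm
  rw [mem_span_pair]
  refine ⟨-(d⁻¹ * c), d⁻¹, ?_⟩
  rw [hcd, smul_add, smul_smul, smul_smul, inv_mul_cancel₀ hd, one_smul, neg_smul]
  abel

lemma SC.phi_same (h : SC v p leg z₀ B φ) {e f : E} (hef : leg e = leg f) :
    ∃ c : K, c ≠ 0 ∧ ∀ u ∈ B, φ u (v f) = c * φ u (v e) := by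
  obtain ⟨c, d, hc, hcd⟩ := h.same hef
  refine ⟨c, hc, fun u hu => ?_⟩
  rw [hcd, map_add, map_smul, map_smul, h.φp u hu]
  simp

lemma SC.phi_eq_zero_iff (h : SC v p leg z₀ B φ) {e f : E} (hef : leg e = leg f) {u : Fin n}
    (hu : u ∈ B) : φ u (v f) = 0 ↔ φ u (v e) = 0 := by
  obtain ⟨c, hc, hcd⟩ := h.phi_same hef
  rw [hcd u hu]
  simp [hc]

/-- coordinates of elements of a leg in `B` -/
lemma SC.phi_leg (h : SC v p leg z₀ B φ) {e : E} {w u : Fin n} (he : leg e = w) (hw : w ∈ B)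
    (hu : u ∈ B) : φ u (v e) = 0 ↔ w ≠ u := by
  rw [h.phi_eq_zero_iff (e := z₀ w) (by rw [h.hz₀, he]) hu, h.φz u hu w hw]
  by_cases hwu : w = u <;> simp [hwu]

lemma SC.mem_of_section (h : SC v p leg z₀ B φ) {z : Fin n → E} (hz : ∀ i, leg (z i) = i)
    (u : Fin n) : v (z₀ u) ∈ span K {v (z u), p} := by
  rw [← h.hleg, hz, h.hz₀]

lemma SC.p_ne (h : SC v p leg z₀ B φ) (e : E) : p ≠ 0 := by
  rintro rfl
  exact h.hp e (zero_mem _)

/-- `⟨Y, p⟩` for the set `Y` of the `z u`, `u ∈ B \ {s, t}`. -/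
lemma SC.mem_W (h : SC v p leg z₀ B φ) {z : Fin n → E} (hz : ∀ i, leg (z i) = i)
    {s t : Fin n} (hs : s ∈ B) (ht : t ∈ B) {x : V} (hx : x ∈ sp K v univ) :
    x ∈ sp K v (((B.erase s).erase t).image z) ⊔ span K {p} ↔ φ s x = 0 ∧ φ t x = 0 := by
  constructor
  · intro hxW
    have h1 : sp K v (((B.erase s).erase t).image z) ⊔ span K {p} ≤
        LinearMap.ker (φ s) ⊓ LinearMap.ker (φ t) := by
      rw [sup_le_iff, sp_le_iff, span_le, Set.singleton_subset_iff]
      refine ⟨?_, h.φp s hs, h.φp t ht⟩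
      intro e he
      obtain ⟨w, hw, rfl⟩ := mem_image.1 he
      simp only [mem_erase] at hw
      refine ⟨?_, ?_⟩
      · exact (h.phi_leg (hz w) hw.2.2 hs).2 hw.2.1
      · exact (h.phi_leg (hz w) hw.2.2 ht).2 hw.1
    exact h1 hxW
  · rintro ⟨h1, h2⟩
    obtain ⟨β, hβ⟩ := h.dec x hx
    rw [hβ]
    refine add_mem (sum_mem fun u hu => ?_)
      (smul_mem _ _ (mem_sup_right (mem_span_singleton_self p)))
    by_cases hus : u = s
    · subst hus; rw [h1, zero_smul]; exact zero_mem _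
    by_cases hut : u = t
    · subst hut; rw [h2, zero_smul]; exact zero_mem _
    refine smul_mem _ _ ?_
    have h3 : span K {v (z u), p} ≤ sp K v (((B.erase s).erase t).image z) ⊔ span K {p} := by
      rw [span_le]
      rintro y (rfl | rfl)
      · refine mem_sup_left (mem_sp (mem_image_of_mem z ?_))
        simp only [mem_erase]
        exact ⟨hut, hus, hu⟩
      · exact mem_sup_right (mem_span_singleton_self _)
    exact h3 (h.mem_of_section hz u)

lemma SC.mem_W_sup (h : SC v p leg z₀ B φ) {z : Fin n → E} (hz : ∀ i, leg (z i) = i)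
    {s t : Fin n} (hs : s ∈ B) (ht : t ∈ B) {x y : V} (hx : x ∈ sp K v univ)
    (hy : y ∈ sp K v univ) :
    x ∈ sp K v (((B.erase s).erase t).image z) ⊔ span K {p} ⊔ span K {y} ↔
      ∃ c : K, φ s x = c * φ s y ∧ φ t x = c * φ t y := by
  rw [Submodule.mem_sup]
  constructor
  · rintro ⟨w, hw, y', hy', hxy⟩
    obtain ⟨c, rfl⟩ := mem_span_singleton.1 hy'
    have hwU : w ∈ sp K v univ := by
      have : w = x - c • y := by rw [← hxy]; abel
      rw [this]
      exact sub_mem hx (smul_mem _ _ hy)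
    obtain ⟨h1, h2⟩ := (h.mem_W hz hs ht hwU).1 hw
    refine ⟨c, ?_, ?_⟩
    · rw [← hxy, map_add, h1, map_smul, zero_add, smul_eq_mul]
    · rw [← hxy, map_add, h2, map_smul, zero_add, smul_eq_mul]
  · rintro ⟨c, h1, h2⟩
    refine ⟨x - c • y, ?_, c • y, smul_mem _ _ (mem_span_singleton_self y), by abel⟩
    rw [h.mem_W hz hs ht (sub_mem hx (smul_mem _ _ hy))]
    rw [map_sub, map_smul, map_sub, map_smul, h1, h2]
    simp

lemma finrank_sup_singleton_le (W : Submodule K V) (x : V) :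
    Module.finrank K (W ⊔ span K {x} : Submodule K V) ≤ Module.finrank K W + 1 := by
  have h1 := Submodule.finrank_add_le_finrank_add_finrank W (span K {x})
  have h2 : Module.finrank K (span K {x}) ≤ 1 := by
    have := finrank_span_le_card (R := K) ({x} : Set V)
    simpa using this
  omega

lemma SC.card_Y (h : SC v p leg z₀ B φ) {z : Fin n → E} (hz : ∀ i, leg (z i) = i)
    {s t : Fin n} (hs : s ∈ B) (ht : t ∈ B) (hst : s ≠ t) :
    (((B.erase s).erase t).image z).card + 3 = rk K v univ := by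
  have hinj : Function.Injective z := fun i j hij => by rw [← hz i, ← hz j, hij]
  rw [card_image_of_injective _ hinj, card_erase_of_mem, card_erase_of_mem hs]
  · have h1 := h.hBc
    have h2 : 2 ≤ B.card := by
      have : ({s, t} : Finset (Fin n)) ⊆ B := by
        intro x hx
        simp only [mem_insert, mem_singleton] at hx
        rcases hx with rfl | rfl <;> assumption
      have := card_le_card this
      rwa [card_pair hst] at this
    omega
  · simp [ht, hst.symm]

lemma SC.le_sup (h : SC v p leg z₀ B φ) {z : Fin n → E} (hz : ∀ i, leg (z i) = i)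
    {s t : Fin n} (hs : s ∈ B) (ht : t ∈ B) (hst : s ≠ t) :
    sp K v univ ≤ sp K v (((B.erase s).erase t).image z) ⊔ span K {p} ⊔ span K {v (z s)} ⊔
      span K {v (z t)} := by
  intro x hx
  have e1 : φ t (v (z s)) = 0 := (h.phi_leg (hz s) hs ht).2 hst
  have e2 : φ s (v (z s)) ≠ 0 := fun h' => (h.phi_leg (hz s) hs hs).1 h' rfl
  have e3 : φ t (v (z t)) ≠ 0 := fun h' => (h.phi_leg (hz t) ht ht).1 h' rfl
  have hzt : v (z t) ∈ sp K v univ := mem_sp (mem_univ _)
  have hzs : v (z s) ∈ sp K v univ := mem_sp (mem_univ _)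
  rw [Submodule.mem_sup]
  refine ⟨x - (φ t x / φ t (v (z t))) • v (z t), ?_, (φ t x / φ t (v (z t))) • v (z t),
    smul_mem _ _ (mem_span_singleton_self _), by abel⟩
  rw [h.mem_W_sup hz hs ht (sub_mem hx (smul_mem _ _ hzt)) hzs]
  refine ⟨φ s (x - (φ t x / φ t (v (z t))) • v (z t)) / φ s (v (z s)), ?_, ?_⟩
  · rw [div_mul_cancel₀ _ e2]
  · rw [e1, mul_zero, map_sub, map_smul, smul_eq_mul, div_mul_cancel₀ _ e3, sub_self]

lemma SC.ind_Y (h : SC v p leg z₀ B φ) {z : Fin n → E} (hz : ∀ i, leg (z i) = i)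
    {s t : Fin n} (hs : s ∈ B) (ht : t ∈ B) (hst : s ≠ t) :
    Ind K v (((B.erase s).erase t).image z) ∧ p ∉ sp K v (((B.erase s).erase t).image z) := by
  have h0 := h.card_Y hz hs ht hst
  have h1 := finrank_mono (h.le_sup hz hs ht hst)
  have h2 := finrank_sup_singleton_le (sp K v (((B.erase s).erase t).image z) ⊔ span K {p} ⊔
    span K {v (z s)}) (v (z t))
  have h3 := finrank_sup_singleton_le (sp K v (((B.erase s).erase t).image z) ⊔ span K {p})
    (v (z s))
  have h4 := finrank_sup_singleton_le (sp K v (((B.erase s).erase t).image z)) p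
  have h5 : rk K v (((B.erase s).erase t).image z) ≤ (((B.erase s).erase t).image z).card :=
    rk_le_card
  constructor
  · unfold Ind
    unfold rk at *
    omega
  · intro hmem
    have h6 : sp K v (((B.erase s).erase t).image z) ⊔ span K {p} =
        sp K v (((B.erase s).erase t).image z) := by
      rw [sup_eq_left, span_le, Set.singleton_subset_iff]
      exact hmem
    rw [h6] at h3 h2 h1
    unfold rk at *
    omega

/-- two elements of a leg are not parallel over `Y` -/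
lemma SC.no_par (h : SC v p leg z₀ B φ) {z : Fin n → E} (hz : ∀ i, leg (z i) = i)
    {s t : Fin n} (hs : s ∈ B) (ht : t ∈ B) (hst : s ≠ t) {e f : E} (hef : leg e = leg f)
    (hne : e ≠ f) (hst' : φ s (v f) ≠ 0 ∨ φ t (v f) ≠ 0) :
    v e ∉ sp K v (insert f (((B.erase s).erase t).image z)) := by
  intro hmem
  have h1 : span K {v e, v f} ≤ sp K v (insert f (((B.erase s).erase t).image z)) := by
    rw [span_le]
    rintro y (rfl | rfl)
    · exact hmem
    · exact mem_sp (mem_insert_self _ _)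
  have h2 := h1 (h.same_ne hef hne)
  rw [sp_insert, Submodule.mem_sup] at h2
  obtain ⟨y, hy, w, hw, hyw⟩ := h2
  obtain ⟨α, rfl⟩ := mem_span_singleton.1 hy
  have hwU : w ∈ sp K v univ := sp_mono (subset_univ _) hw
  obtain ⟨e1, e2⟩ := (h.mem_W hz hs ht hwU).1 (mem_sup_left hw)
  have e3 : α * φ s (v f) = 0 := by
    have := congrArg (φ s) hyw
    rwa [map_add, map_smul, e1, add_zero, h.φp s hs, smul_eq_mul] at this
  have e4 : α * φ t (v f) = 0 := by
    have := congrArg (φ t) hyw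
    rwa [map_add, map_smul, e2, add_zero, h.φp t ht, smul_eq_mul] at this
  have hα : α = 0 := by
    rcases hst' with h' | h'
    · exact (mul_eq_zero.1 e3).resolve_right h'
    · exact (mul_eq_zero.1 e4).resolve_right h'
  rw [hα, zero_smul, zero_add] at hyw
  exact (h.ind_Y hz hs ht hst).2 (hyw ▸ hw)

variable [Fintype K]

lemma SC.key (h : SC v p leg z₀ B φ) (hK : Fintype.card K = 4)
    (hS : ∀ x, SG K v {x} univ) (hl : ∀ x, ∃ e, e ≠ x ∧ v e ∈ span K {v x, p})
    (h4 : 4 ≤ B.card) {z : Fin n → E} (hz : ∀ i, leg (z i) = i)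
    {s t k : Fin n} (hs : s ∈ B) (ht : t ∈ B) (hst : s ≠ t) (hks : φ s (v (z k)) ≠ 0)
    (hkt : φ t (v (z k)) ≠ 0) :
    (∀ e, φ t (v e) = 0 ∨ φ s (v e) = 0 ∨
      ∃ c : K, φ s (v e) = c * φ s (v (z k)) ∧ φ t (v e) = c * φ t (v (z k))) ∧
    (∀ i, i = s ∨ i = t ∨ i = k → ∀ e f, leg e = i → leg f = i → e ≠ f → ∀ g,
      (∃ c : K, φ s (v g) = c * φ s (v (z i)) ∧ φ t (v g) = c * φ t (v (z i))) →
      (φ s (v g) ≠ 0 ∨ φ t (v g) ≠ 0) →
      v e ∈ sp K v (insert g (((B.erase s).erase t).image z)) ∨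
      v f ∈ sp K v (insert g (((B.erase s).erase t).image z))) ∧
    v (z k) ∉ sp K v (insert (z s) (insert (z t) (((B.erase s).erase t).image z))) := by
  have hU : ∀ e, v e ∈ sp K v univ := fun e => mem_sp (mem_univ _)
  have e1 : φ t (v (z s)) = 0 := (h.phi_leg (hz s) hs ht).2 hst
  have e2 : φ s (v (z s)) ≠ 0 := fun h' => (h.phi_leg (hz s) hs hs).1 h' rfl
  have e3 : φ t (v (z t)) ≠ 0 := fun h' => (h.phi_leg (hz t) ht ht).1 h' rfl
  have e4 : φ s (v (z t)) = 0 := (h.phi_leg (hz t) ht hs).2 hst.symm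
  have hY : (((B.erase s).erase t).image z).Nonempty := by
    rw [image_nonempty, ← card_pos, card_erase_of_mem, card_erase_of_mem hs]
    · omega
    · simp [ht, hst.symm]
  obtain ⟨hYi, hpY⟩ := h.ind_Y hz hs ht hst
  obtain ⟨k1, k2, k3⟩ := structure_key hK hS h.hp hl h.simple hY hYi (h.card_Y hz hs ht hst) hpY
    (W := sp K v (((B.erase s).erase t).image z) ⊔ span K {p}) rfl (a := z s) (b := z t)
    (c := z k)
    (by rw [h.mem_W hz hs ht (hU _)]; exact fun h' => e2 h'.1)
    (by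
      rw [h.mem_W_sup hz hs ht (hU _) (hU _)]
      rintro ⟨c, -, hc⟩
      rw [e1, mul_zero] at hc
      exact e3 hc)
    (by
      rw [h.mem_W_sup hz hs ht (hU _) (hU _)]
      rintro ⟨c, -, hc⟩
      rw [e1, mul_zero] at hc
      exact hkt hc)
    (by
      rw [h.mem_W_sup hz hs ht (hU _) (hU _)]
      rintro ⟨c, hc, -⟩
      rw [e4, mul_zero] at hc
      exact hks hc)
  refine ⟨?_, ?_, k3⟩
  · intro e
    rcases k1 e with h1 | h1 | h1
    · left
      obtain ⟨c, -, hc⟩ := (h.mem_W_sup hz hs ht (hU _) (hU _)).1 h1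
      rw [hc, e1, mul_zero]
    · right; left
      obtain ⟨c, hc, -⟩ := (h.mem_W_sup hz hs ht (hU _) (hU _)).1 h1
      rw [hc, e4, mul_zero]
    · right; right
      exact (h.mem_W_sup hz hs ht (hU _) (hU _)).1 h1
  · intro i hi e f he hf hne g hg hg'
    have hd : z i = z s ∨ z i = z t ∨ z i = z k := by
      rcases hi with rfl | rfl | rfl <;> simp
    have hi' : φ s (v (z i)) ≠ 0 ∨ φ t (v (z i)) ≠ 0 := by
      rcases hi with rfl | rfl | rfl
      · exact Or.inl e2
      · exact Or.inr e3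
      · exact Or.inl hks
    have hmem : ∀ e', leg e' = i → v e' ∈ sp K v (((B.erase s).erase t).image z) ⊔
        span K {p} ⊔ span K {v (z i)} ∧ v e' ∉ sp K v (((B.erase s).erase t).image z) ⊔
        span K {p} := by
      intro e' he'
      rw [h.mem_W_sup hz hs ht (hU _) (hU _), h.mem_W hz hs ht (hU _)]
      obtain ⟨c, hc, hcc⟩ := h.phi_same (e := z i) (f := e') (by rw [hz, he'])
      refine ⟨⟨c, hcc s hs, hcc t ht⟩, ?_⟩
      rw [hcc s hs, hcc t ht]
      rintro ⟨h1, h2⟩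
      rcases hi' with h' | h'
      · exact h' ((mul_eq_zero.1 h1).resolve_left hc)
      · exact h' ((mul_eq_zero.1 h2).resolve_left hc)
    have hgm : v g ∈ sp K v (((B.erase s).erase t).image z) ⊔
        span K {p} ⊔ span K {v (z i)} := by
      rw [h.mem_W_sup hz hs ht (hU _) (hU _)]
      exact hg
    have hgn : v g ∉ sp K v (((B.erase s).erase t).image z) ⊔ span K {p} := by
      rw [h.mem_W hz hs ht (hU _)]
      tauto
    rcases k2 (z i) hd e f g (hmem e he).1 (hmem f hf).1 hgm (hmem e he).2 (hmem f hf).2 hgn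
      with h1 | h1 | h1
    · exfalso
      refine h.no_par hz hs ht hst (by rw [he, hf]) hne ?_ h1
      rw [Ne, Ne, h.phi_eq_zero_iff (e := z i) (by rw [hz, hf]) hs,
        h.phi_eq_zero_iff (e := z i) (by rw [hz, hf]) ht]
      exact hi'
    · exact Or.inl h1
    · exact Or.inr h1

/-- the legs `s`, `t`, `k` have exactly two elements -/
lemma SC.leg_two (h : SC v p leg z₀ B φ) (hK : Fintype.card K = 4)
    (hS : ∀ x, SG K v {x} univ) (hl : ∀ x, ∃ e, e ≠ x ∧ v e ∈ span K {v x, p})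
    (h4 : 4 ≤ B.card) {s t k : Fin n} (hs : s ∈ B) (ht : t ∈ B) (hst : s ≠ t)
    (hks : φ s (v (z₀ k)) ≠ 0) (hkt : φ t (v (z₀ k)) ≠ 0) {i : Fin n}
    (hi : i = s ∨ i = t ∨ i = k) : (univ.filter (fun e => leg e = i)).card = 2 := by
  obtain ⟨-, k2, -⟩ := h.key hK hS hl h4 h.hz₀ hs ht hst hks hkt
  have hi' : φ s (v (z₀ i)) ≠ 0 ∨ φ t (v (z₀ i)) ≠ 0 := by
    rcases hi with rfl | rfl | rfl
    · exact Or.inl fun h' => (h.phi_leg (h.hz₀ _) hs hs).1 h' rfl
    · exact Or.inr fun h' => (h.phi_leg (h.hz₀ _) ht ht).1 h' rfl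
    · exact Or.inl hks
  apply le_antisymm
  · by_contra hc
    obtain ⟨e, f, g, he, hf, hg, hef, heg, hfg⟩ := two_lt_card_iff.1 (not_le.1 hc)
    simp only [mem_filter, mem_univ, true_and] at he hf hg
    obtain ⟨c, hc, hcc⟩ := h.phi_same (e := z₀ i) (f := g) (by rw [h.hz₀, hg])
    have hg' : φ s (v g) ≠ 0 ∨ φ t (v g) ≠ 0 := by
      rw [hcc s hs, hcc t ht]
      rcases hi' with h' | h'
      · exact Or.inl (mul_ne_zero hc h')
      · exact Or.inr (mul_ne_zero hc h')
    rcases k2 i hi e f he hf hef g ⟨c, hcc s hs, hcc t ht⟩ hg' with h1 | h1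
    · exact h.no_par h.hz₀ hs ht hst (by rw [he, hg]) heg hg' h1
    · exact h.no_par h.hz₀ hs ht hst (by rw [hf, hg]) hfg hg' h1
  · obtain ⟨e, he, hep⟩ := hl (z₀ i)
    have hle : leg e = i := by
      rw [← (h.hleg _ _).2 hep, h.hz₀]
    have : ({z₀ i, e} : Finset E) ⊆ univ.filter (fun e => leg e = i) := by
      intro x hx
      simp only [mem_insert, mem_singleton] at hx
      rcases hx with rfl | rfl <;> simp [hle, h.hz₀]
    have h2 := card_le_card this
    rwa [card_pair he.symm] at h2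

/-- part (b): transversals of `B ∪ {k}` avoid the relation -/
lemma SC.not_mem (h : SC v p leg z₀ B φ) (hK : Fintype.card K = 4)
    (hS : ∀ x, SG K v {x} univ) (hl : ∀ x, ∃ e, e ≠ x ∧ v e ∈ span K {v x, p})
    (h4 : 4 ≤ B.card) {s t k : Fin n} (hs : s ∈ B) (ht : t ∈ B) (hst : s ≠ t)
    (hks : φ s (v (z₀ k)) ≠ 0) (hkt : φ t (v (z₀ k)) ≠ 0) {z : Fin n → E}
    (hz : ∀ i, leg (z i) = i) :
    v (z k) ∉ span K ((fun u => v (z u)) '' (B : Set (Fin n))) := by
  have hzk : leg (z₀ k) = leg (z k) := by rw [h.hz₀, hz]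
  obtain ⟨-, -, k3⟩ := h.key hK hS hl h4 hz hs ht hst (k := k)
    (by rwa [Ne, h.phi_eq_zero_iff hzk hs]) (by rwa [Ne, h.phi_eq_zero_iff hzk ht])
  intro hmem
  apply k3
  refine (span_le.2 ?_) hmem
  rintro _ ⟨u, hu, rfl⟩
  apply mem_sp
  by_cases hus : u = s
  · subst hus; exact mem_insert_self _ _
  by_cases hut : u = t
  · subst hut; exact mem_insert_of_mem (mem_insert_self _ _)
  · refine mem_insert_of_mem (mem_insert_of_mem (mem_image_of_mem z ?_))
    simp only [mem_erase]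
    exact ⟨hut, hus, hu⟩

end SC

variable {K V E : Type*} [Field K] [Fintype K] [AddCommGroup V] [Module K V]
  [FiniteDimensional K V] [Fintype E] [DecidableEq E]

theorem structure_core (hK : Fintype.card K = 4) {v : E → V} (hv : Simple K v)
    (hs : ∀ x, SG K v {x} univ) (h5 : 5 ≤ rk K v univ) {p : V} (hp : ∀ e, p ∉ span K {v e})
    (hl : ∀ x, ∃ e, e ≠ x ∧ v e ∈ span K {v x, p}) {n : ℕ} {leg : E → Fin n}
    (hleg : ∀ e f, leg e = leg f ↔ v f ∈ span K {v e, p})
    {z₀ : Fin n → E} (hz₀ : ∀ i, leg (z₀ i) = i) {B : Finset (Fin n)}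
    (hBc : B.card + 1 = rk K v univ)
    (hsp : ∀ e, v e ∈ span K (insert p ((fun i => v (z₀ i)) '' (B : Set (Fin n)))))
    {a : Fin n → Fin n → K} {b : Fin n → K}
    (ha : ∀ h, h ∉ B → v (z₀ h) = ∑ u ∈ B, a h u • v (z₀ u) + b h • p) :
    (∀ h, h ∉ B → ∃ s ∈ B, ∃ t ∈ B, s ≠ t ∧ a h s ≠ 0 ∧ a h t ≠ 0) ∧
    (∀ h, h ∉ B → ∀ h', h' ∉ B → h ≠ h' → ∀ u ∈ B, a h u = 0 ∨ a h' u = 0) ∧
    (∀ h, h ∉ B → (univ.filter (fun e => leg e = h)).card = 2) ∧
    (∀ h, h ∉ B → ∀ u ∈ B, a h u ≠ 0 → (univ.filter (fun e => leg e = u)).card = 2) ∧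
    (∀ h, h ∉ B → ∀ z : Fin n → E, (∀ i, leg (z i) = i) →
      v (z h) ∉ span K ((fun u => v (z u)) '' (B : Set (Fin n)))) := by
  have h4 : 4 ≤ B.card := by omega
  have hBne : B.Nonempty := card_pos.1 (by omega)
  have hpU : p ∈ sp K v univ := by
    obtain ⟨u, -⟩ := hBne
    obtain ⟨e, he, hep⟩ := hl (z₀ u)
    obtain ⟨c, d, hcd⟩ := mem_span_pair.1 hep
    have hd : d ≠ 0 := by
      rintro rfl
      rw [zero_smul, add_zero] at hcd
      exact he (hv.2 e (z₀ u) (by rw [mem_span_singleton]; exact ⟨c, hcd⟩))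
    have : p = d⁻¹ • (v e - c • v (z₀ u)) := by
      rw [← hcd, add_sub_cancel_left, smul_smul, inv_mul_cancel₀ hd, one_smul]
    rw [this]
    exact smul_mem _ _ (sub_mem (mem_sp (mem_univ _)) (smul_mem _ _ (mem_sp (mem_univ _))))
  obtain ⟨φ, hφp, hφz, hdec⟩ := exists_coords hpU hBc hsp
  have h : SC v p leg z₀ B φ := ⟨hv, hp, hleg, hz₀, hBc, hφp, hφz, hdec⟩
  have hφa : ∀ k, k ∉ B → ∀ u ∈ B, φ u (v (z₀ k)) = a k u := by
    intro k hk u hu
    rw [ha k hk, map_add, map_smul, hφp u hu, smul_zero, add_zero, map_sum, sum_eq_single u]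
    · rw [map_smul, hφz u hu u hu]; simp
    · intro w hw hwu
      rw [map_smul, hφz u hu w hw]; simp [hwu]
    · intro h; exact absurd hu h
  have p1 : ∀ h, h ∉ B → ∃ s ∈ B, ∃ t ∈ B, s ≠ t ∧ a h s ≠ 0 ∧ a h t ≠ 0 := by
    intro k hk
    by_contra hcon
    push Not at hcon
    by_cases hex : ∃ s ∈ B, a k s ≠ 0
    · obtain ⟨s, hs', hsk⟩ := hex
      have h1 : v (z₀ k) = a k s • v (z₀ s) + b k • p := by
        rw [ha k hk, sum_eq_single s]
        · intro w hw hws
          rw [hcon s hs' w hw hws.symm hsk, zero_smul]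
        · intro h'; exact absurd hs' h'
      have h2 : leg (z₀ s) = leg (z₀ k) := by
        rw [hleg, mem_span_pair]
        exact ⟨_, _, h1.symm⟩
      rw [hz₀, hz₀] at h2
      exact hk (h2 ▸ hs')
    · push Not at hex
      have h1 : v (z₀ k) = b k • p := by
        rw [ha k hk, sum_eq_zero, zero_add]
        intro w hw
        rw [hex w hw, zero_smul]
      have hb : b k ≠ 0 := by
        intro h0
        rw [h0, zero_smul] at h1
        exact hv.1 _ h1
      apply hp (z₀ k)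
      rw [mem_span_singleton]
      exact ⟨(b k)⁻¹, by rw [h1, smul_smul, inv_mul_cancel₀ hb, one_smul]⟩
  refine ⟨p1, ?_, ?_, ?_, ?_⟩
  · intro k hk k' hk' hkk u hu
    by_contra hcon
    push Not at hcon
    obtain ⟨hu1, hu2⟩ := hcon
    -- ratios
    have hA : ∀ s ∈ B, ∀ t ∈ B, s ≠ t → a k s ≠ 0 → a k t ≠ 0 → a k' s ≠ 0 → a k' t ≠ 0 →
        a k s * a k' t = a k t * a k' s := by
      intro s hs' t ht' hst h1 h2 h3 h4'
      obtain ⟨k1, -, -⟩ := h.key hK hs hl h4 hz₀ hs' ht' hst (k := k)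
        (by rwa [hφa k hk s hs']) (by rwa [hφa k hk t ht'])
      rcases k1 (z₀ k') with h5' | h5' | ⟨c, hc1, hc2⟩
      · rw [hφa k' hk' t ht'] at h5'; exact absurd h5' h4'
      · rw [hφa k' hk' s hs'] at h5'; exact absurd h5' h3
      · rw [hφa k' hk' s hs', hφa k hk s hs'] at hc1
        rw [hφa k' hk' t ht', hφa k hk t ht'] at hc2
        rw [hc1, hc2]; ring
    -- supports
    have hB' : ∀ k, k ∉ B → ∀ k', k' ∉ B → ∀ t ∈ B, a k t ≠ 0 → a k' t ≠ 0 → ∀ s ∈ B,
        a k s ≠ 0 → a k' s ≠ 0 := by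
      intro k hk k' hk' t ht' hkt hkt' s hs' hks hks'
      have hst : s ≠ t := by rintro rfl; exact hkt' hks'
      obtain ⟨-, k2, -⟩ := h.key hK hs hl h4 hz₀ hs' ht' hst (k := k)
        (by rwa [hφa k hk s hs']) (by rwa [hφa k hk t ht'])
      obtain ⟨f, hf, hfp⟩ := hl (z₀ t)
      have hlf : leg f = t := by rw [← (hleg _ _).2 hfp, hz₀]
      have ezs : φ s (v (z₀ t)) = 0 := by
        rw [hφz s hs' t ht']; simp [hst.symm]
      have ezt : φ t (v (z₀ t)) = 1 := by
        rw [hφz t ht' t ht']; simp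
      -- contradiction for every element of leg `t`
      have key2 : ∀ e, leg e = t →
          v e ∉ sp K v (insert (z₀ k') (((B.erase s).erase t).image z₀)) := by
        intro e he hmem
        have h1 : v e ∉ sp K v (((B.erase s).erase t).image z₀) := by
          intro h'
          have h2 := ((h.mem_W hz₀ hs' ht' (mem_sp (mem_univ _))).1 (mem_sup_left h')).2
          exact (h.phi_leg he ht' ht').1 h2 rfl
        have h2 := mem_sp_insert_exchange hmem h1
        obtain ⟨s1, hs1, t1, ht1, hst1, hne1, hne2⟩ := p1 k' hk'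
        have hz : ∀ i, leg (Function.update z₀ t e i) = i := by
          intro i
          by_cases hit : i = t
          · subst hit; simp [he]
          · simp [Function.update_of_ne hit, hz₀]
        have h3 := h.not_mem hK hs hl h4 hs1 ht1 hst1 (k := k')
          (by rwa [hφa k' hk' s1 hs1]) (by rwa [hφa k' hk' t1 ht1]) hz
        apply h3
        have hk't : k' ≠ t := by rintro rfl; exact hk' ht'
        rw [Function.update_of_ne hk't]
        refine (sp_le_iff.2 ?_) h2
        intro g hg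
        rcases mem_insert.1 hg with rfl | hg
        · exact subset_span ⟨t, ht', by simp⟩
        · obtain ⟨w, hw, rfl⟩ := mem_image.1 hg
          simp only [mem_erase] at hw
          refine subset_span ⟨w, hw.2.2, ?_⟩
          simp [Function.update_of_ne hw.1]
      rcases k2 t (Or.inr (Or.inl rfl)) (z₀ t) f (hz₀ t) hlf hf.symm (z₀ k')
        ⟨a k' t, by rw [ezs, hφa k' hk' s hs', hks', mul_zero],
          by rw [ezt, hφa k' hk' t ht', mul_one]⟩
        (Or.inr (by rwa [hφa k' hk' t ht'])) with h1 | h1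
      · exact key2 _ (hz₀ t) h1
      · exact key2 _ hlf h1
    -- now the two vectors are proportional modulo `p`
    have hC : ∀ s ∈ B, a k' s = (a k' u / a k u) * a k s := by
      intro s hs'
      by_cases hks : a k s = 0
      · have : a k' s = 0 := by
          by_contra h'
          exact hB' k' hk' k hk u hu hu2 hu1 s hs' h' hks
        rw [this, hks, mul_zero]
      · by_cases hsu : s = u
        · subst hsu; rw [div_mul_cancel₀ _ hks]
        · have h1 := hA s hs' u hu hsu hks hu1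
            (hB' k hk k' hk' u hu hu1 hu2 s hs' hks) hu2
          field_simp
          rw [mul_comm (a k' s), ← h1, mul_comm]
    apply hkk
    rw [← hz₀ k, ← hz₀ k', hleg, mem_span_pair]
    refine ⟨a k' u / a k u, b k' - (a k' u / a k u) * b k, ?_⟩
    rw [ha k hk, ha k' hk', smul_add, smul_sum]
    rw [sum_congr rfl (fun s hs' => by rw [hC s hs', mul_smul] :
      ∀ s ∈ B, a k' s • v (z₀ s) = (a k' u / a k u) • a k s • v (z₀ s))]
    rw [sub_smul, smul_smul]
    abel
  · intro k hk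
    obtain ⟨s, hs', t, ht', hst, h1, h2⟩ := p1 k hk
    exact h.leg_two hK hs hl h4 hs' ht' hst (by rwa [hφa k hk s hs'])
      (by rwa [hφa k hk t ht']) (Or.inr (Or.inr rfl))
  · intro k hk u hu hku
    obtain ⟨s, hs', t, ht', hst, h1, h2⟩ := p1 k hk
    by_cases hus : u = s
    · exact h.leg_two hK hs hl h4 hs' ht' hst (k := k) (by rwa [hφa k hk s hs'])
        (by rwa [hφa k hk t ht']) (Or.inl hus)
    · exact h.leg_two hK hs hl h4 hu hs' hus (k := k) (by rwa [hφa k hk u hu])
        (by rwa [hφa k hk s hs']) (Or.inl rfl)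
  · intro k hk z hz
    obtain ⟨s, hs', t, ht', hst, h1, h2⟩ := p1 k hk
    exact h.not_mem hK hs hl h4 hs' ht' hst (by rwa [hφa k hk s hs'])
      (by rwa [hφa k hk t ht']) hz

end Ca3
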