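import Pool.Agent.Lib.MP_ca3eb1_co.PL
import Pool.Agent.Lib.MP_ca3eb1_co.Transfer

/-! # Module M11b': the key lemma of the structure theorem (PL in the contraction) -/

set_option linter.unusedSectionVars false

namespace Ca3

open Finset Submodule

section rep

variable {K V E : Type*} [Field K] [AddCommGroup V] [Module K V]
  [FiniteDimensional K V] [Fintype E] [DecidableEq E] {v : E → V} {Y T R : Finset E}

/-- every element outside `<Y>` has a representative -/
lemma IsReps.exists_rep (h : IsReps K v Y T R) {x : E} (hx : x ∈ T) (hx' : v x ∉ sp K v Y) :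
    ∃ r : R, sp K v (insert (r : E) Y) = sp K v (insert x Y) := by
  obtain ⟨r, hr, h1⟩ := h.ex x hx hx'
  refine ⟨⟨r, hr⟩, le_antisymm (sp_le_iff.2 fun e he => ?_) (sp_le_iff.2 fun e he => ?_)⟩
  · rcases mem_insert.1 he with rfl | he
    · exact h1
    · exact mem_sp (mem_insert_of_mem he)
  · rcases mem_insert.1 he with rfl | he
    · exact mem_sp_insert_exchange h1 (h.not_mem _ hr)
    · exact mem_sp (mem_insert_of_mem he)

lemma sp_insert_le_iff {U : Submodule K V} (hU : sp K v Y ≤ U) {x : E} :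
    sp K v (insert x Y) ≤ U ↔ v x ∈ U := by
  rw [sp_insert, sup_le_iff, span_singleton_le_iff_mem]
  exact ⟨fun h => h.1, fun h => ⟨h, hU⟩⟩

lemma mem_iff_of_rep {U : Submodule K V} (hU : sp K v Y ≤ U) {r x : E}
    (h : sp K v (insert r Y) = sp K v (insert x Y)) : v r ∈ U ↔ v x ∈ U := by
  rw [← sp_insert_le_iff hU, ← sp_insert_le_iff hU, h]

end rep

section key

variable {K V E : Type*} [Field K] [Fintype K] [AddCommGroup V] [Module K V]
  [FiniteDimensional K V] [Fintype E] [DecidableEq E]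

/-- the second element of a leg -/
lemma exists_leg_mate {v : E → V} (hv : Simple K v) {p : V} (hp : ∀ e, p ∉ span K {v e})
    (hl : ∀ x, ∃ e, e ≠ x ∧ v e ∈ span K {v x, p}) (x : E) :
    ∃ (e : E) (α β : K), e ≠ x ∧ α ≠ 0 ∧ β ≠ 0 ∧ v e = α • v x + β • p := by
  obtain ⟨e, hex, he⟩ := hl x
  obtain ⟨α, β, h⟩ := mem_span_pair.1 he
  refine ⟨e, α, β, hex, ?_, ?_, h.symm⟩
  · rintro rfl
    rw [zero_smul, zero_add] at h
    by_cases hβ : β = 0
    · rw [hβ, zero_smul] at h
      exact hv.1 e h.symm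
    · apply hp e
      rw [← h, mem_span_singleton]
      exact ⟨β⁻¹, by rw [smul_smul, inv_mul_cancel₀ hβ, one_smul]⟩
  · rintro rfl
    rw [zero_smul, add_zero] at h
    exact hex (hv.2 e x (mem_span_singleton.2 ⟨α, h⟩))

theorem structure_key (hK : Fintype.card K = 4) {v : E → V}
    (hs : ∀ x, SG K v {x} univ) {p : V} (hp : ∀ e, p ∉ span K {v e})
    (hl : ∀ x, ∃ e, e ≠ x ∧ v e ∈ span K {v x, p}) (hv : Simple K v) {Y : Finset E}
    (hY : Y.Nonempty) (hYi : Ind K v Y) (hYc : Y.card + 3 = rk K v univ)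
    (hpY : p ∉ sp K v Y) {W : Submodule K V} (hW : W = sp K v Y ⊔ span K {p}) {a b c : E}
    (ha : v a ∉ W) (hab : v b ∉ W ⊔ span K {v a}) (hac : v c ∉ W ⊔ span K {v a})
    (hbc : v c ∉ W ⊔ span K {v b}) :
    (∀ e, v e ∈ W ⊔ span K {v a} ∨ v e ∈ W ⊔ span K {v b} ∨ v e ∈ W ⊔ span K {v c}) ∧
    (∀ d, (d = a ∨ d = b ∨ d = c) → ∀ e f g, v e ∈ W ⊔ span K {v d} →
      v f ∈ W ⊔ span K {v d} → v g ∈ W ⊔ span K {v d} → v e ∉ W → v f ∉ W → v g ∉ W →
      v e ∈ sp K v (insert f Y) ∨ v e ∈ sp K v (insert g Y) ∨ v f ∈ sp K v (insert g Y)) ∧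
    v c ∉ sp K v (insert a (insert b Y)) := by
  classical
  obtain ⟨x₀, hx₀⟩ := hY
  obtain ⟨e₀, α₀, β₀, -, -, hβ₀, he₀⟩ := exists_leg_mate hv hp hl x₀
  -- `e₀` is a representative of `p`
  have he₀Y : v e₀ ∉ sp K v Y := by
    intro h
    apply hpY
    have : p = β₀⁻¹ • (v e₀ - α₀ • v x₀) := by
      rw [he₀, add_sub_cancel_left, smul_smul, inv_mul_cancel₀ hβ₀, one_smul]
    rw [this]
    exact smul_mem _ _ (sub_mem h (smul_mem _ _ (mem_sp hx₀)))
  have hWe : W = sp K v (insert e₀ Y) := by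
    rw [hW, sp_insert, sup_comm]
    apply le_antisymm
    · refine sup_le ?_ le_sup_right
      rw [span_singleton_le_iff_mem]
      have : p = β₀⁻¹ • (v e₀ - α₀ • v x₀) := by
        rw [he₀, add_sub_cancel_left, smul_smul, inv_mul_cancel₀ hβ₀, one_smul]
      rw [this]
      exact smul_mem _ _ (sub_mem (mem_sup_left (mem_span_singleton_self _))
        (mem_sup_right (smul_mem _ _ (mem_sp hx₀))))
    · refine sup_le ?_ le_sup_right
      rw [span_singleton_le_iff_mem, he₀]
      exact add_mem (mem_sup_right (smul_mem _ _ (mem_sp hx₀)))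
        (mem_sup_left (smul_mem _ _ (mem_span_singleton_self _)))
  have hYW : sp K v Y ≤ W := hW ▸ le_sup_left
  have hpW : p ∈ W := hW ▸ mem_sup_right (mem_span_singleton_self p)
  obtain ⟨R, hR₀, hR⟩ := exists_reps (K := K) (v := v) (Y := Y) (T := univ) (R₀ := {e₀})
    (subset_univ _) (by simpa using he₀Y) (by
      intro r hr s hs _
      rw [mem_singleton] at hr hs
      rw [hr, hs])
  have he₀R : e₀ ∈ R := hR₀ (mem_singleton_self _)
  have hSG : SG K (qc K v Y R) ∅ univ :=
    transfer_SG hR isFl_univ (subset_univ _)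
      ((hs x₀).mono (singleton_subset_iff.2 hx₀) (subset_refl _))
  have hSi : Simple K (qc K v Y R) := qc_simple hR
  have hrk : rk K (qc K v Y R) univ = 3 := by
    have h1 := rk_qc_univ hR (subset_univ _)
    have h2 := hYi.rk_eq_card
    omega
  -- spans of `p` and one element
  have hpair : ∀ x y : E, sp K v (({x, y} : Finset E) ∪ Y) =
      span K {v x} ⊔ (span K {v y} ⊔ sp K v Y) := by
    intro x y
    rw [sp_union, sp_insert, sp_singleton, sup_assoc]
  have hpr : ∀ x : E, sp K v (({e₀, x} : Finset E) ∪ Y) = W ⊔ span K {v x} := by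
    intro x
    rw [hpair, hWe, sp_insert]
    ac_rfl
  set P : R := ⟨e₀, he₀R⟩ with hP
  have hmem1 : ∀ r s : R, qc K v Y R r ∈ sp K (qc K v Y R) {P, s} ↔ v r ∈ W ⊔ span K {v s} := by
    intro r s
    rw [mem_sp_qc, ← hpr]
    simp [hP, map_insert]
  have hmem2 : ∀ r s t : R, qc K v Y R r ∈ sp K (qc K v Y R) {s, t} ↔
      v r ∈ sp K v (insert (s : E) (insert (t : E) Y)) := by
    intro r s t
    rw [mem_sp_qc]
    simp [map_insert]
  -- the hypothesis of `PL`
  have hlegs : ∀ e, e ≠ P → ∃ f, f ≠ P ∧ f ≠ e ∧ qc K v Y R f ∈ sp K (qc K v Y R) {P, e} := by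
    intro e heP
    have heW : v e ∉ W := by
      rw [hWe]
      intro h
      exact heP (Subtype.ext (hR.uniq e e.2 e₀ he₀R h))
    obtain ⟨e', α, β, -, hα, hβ, he'⟩ := exists_leg_mate hv hp hl (e : E)
    have he'W : v e' ∉ W := by
      intro h
      apply heW
      have : v e = α⁻¹ • (v e' - β • p) := by
        rw [he', add_sub_cancel_right, smul_smul, inv_mul_cancel₀ hα, one_smul]
      rw [this]
      exact smul_mem _ _ (sub_mem h (smul_mem _ _ hpW))
    have he'Y : v e' ∉ sp K v Y := fun h => he'W (hYW h)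
    obtain ⟨f, hf⟩ := hR.exists_rep (mem_univ e') he'Y
    refine ⟨f, ?_, ?_, ?_⟩
    · rintro rfl
      apply he'W
      rw [hWe]
      exact (mem_iff_of_rep (sp_mono (subset_insert _ _)) hf).1 (mem_sp (mem_insert_self _ _))
    · rintro rfl
      apply he'W
      -- `v f ∈ <e', Y>` gives `p ∈ <e', Y>`
      have h1 : v f ∈ sp K v (insert e' Y) := hf ▸ mem_sp (mem_insert_self _ _)
      have h2 : p ∈ sp K v (insert e' Y) := by
        have : p = β⁻¹ • (v e' - α • v f) := by
          rw [he', add_sub_cancel_left, smul_smul, inv_mul_cancel₀ hβ, one_smul]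
        rw [this]
        exact smul_mem _ _ (sub_mem (mem_sp (mem_insert_self _ _)) (smul_mem _ _ h1))
      rw [sp_insert, Submodule.mem_sup] at h2
      obtain ⟨y, hy, z, hz, hyz⟩ := h2
      obtain ⟨γ, rfl⟩ := mem_span_singleton.1 hy
      have hγ : γ ≠ 0 := by
        rintro rfl
        apply hpY
        rw [← hyz, zero_smul, zero_add]
        exact hz
      have : v e' = γ⁻¹ • (p - z) := by
        rw [← hyz, add_sub_cancel_right, smul_smul, inv_mul_cancel₀ hγ, one_smul]
      rw [this]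
      exact smul_mem _ _ (sub_mem hpW (hYW hz))
    · rw [hmem1, mem_iff_of_rep (hYW.trans le_sup_left) hf, he']
      exact add_mem (mem_sup_right (smul_mem _ _ (mem_span_singleton_self _)))
        (mem_sup_left (smul_mem _ _ hpW))
  -- representatives of `a`, `b`, `c`
  have hbW : v b ∉ W := fun h => hab (mem_sup_left h)
  have hcW : v c ∉ W := fun h => hac (mem_sup_left h)
  obtain ⟨a', ha'⟩ := hR.exists_rep (mem_univ a) (fun h => ha (hYW h))
  obtain ⟨b', hb'⟩ := hR.exists_rep (mem_univ b) (fun h => hbW (hYW h))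
  obtain ⟨c', hc'⟩ := hR.exists_rep (mem_univ c) (fun h => hcW (hYW h))
  have hrep : ∀ {x : E} {x' : R}, sp K v (insert (x' : E) Y) = sp K v (insert x Y) →
      W ⊔ span K {v x'} = W ⊔ span K {v x} := by
    intro x x' h
    have e1 : ∀ y : E, W ⊔ span K {v y} = W ⊔ sp K v (insert y Y) := by
      intro y
      rw [sp_insert, sup_left_comm, sup_eq_left.2 hYW, sup_comm]
    rw [e1, e1, h]
  have hne : ∀ {x : E} {x' : R}, sp K v (insert (x' : E) Y) = sp K v (insert x Y) →
      v x ∉ W → x' ≠ P := by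
    intro x x' h hx hx'
    apply hx
    rw [← mem_iff_of_rep hYW h, hx', hWe]
    exact mem_sp (mem_insert_self _ _)
  have hUY : ∀ x : E, sp K v Y ≤ W ⊔ span K {v x} := fun x => hYW.trans le_sup_left
  obtain ⟨k1, k2a, k2b, k2c, k3⟩ := PL hK hSi hSG hrk P hlegs (hne ha' ha) (hne hb' hbW)
    (hne hc' hcW)
    (by rw [hmem1, hrep ha', mem_iff_of_rep (hUY a) hb']; exact hab)
    (by rw [hmem1, hrep ha', mem_iff_of_rep (hUY a) hc']; exact hac)
    (by rw [hmem1, hrep hb', mem_iff_of_rep (hUY b) hc']; exact hbc)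
  refine ⟨fun e => ?_, ?_, ?_⟩
  · by_cases he : v e ∈ W
    · exact Or.inl (mem_sup_left he)
    obtain ⟨e', he'⟩ := hR.exists_rep (mem_univ e) (fun h => he (hYW h))
    have := k1 e'
    rwa [hmem1, hmem1, hmem1, hrep ha', hrep hb', hrep hc', mem_iff_of_rep (hUY a) he',
      mem_iff_of_rep (hUY b) he', mem_iff_of_rep (hUY c) he'] at this
  · intro d hd e f g he hf hg heW hfW hgW
    obtain ⟨d', hd', hd3⟩ : ∃ d' : R, sp K v (insert (d' : E) Y) = sp K v (insert d Y) ∧
        (cl K (qc K v Y R) {P, d'}).card = 3 := by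
      rcases hd with rfl | rfl | rfl
      · exact ⟨a', ha', k2a⟩
      · exact ⟨b', hb', k2b⟩
      · exact ⟨c', hc', k2c⟩
    obtain ⟨e', he'⟩ := hR.exists_rep (mem_univ e) (fun h => heW (hYW h))
    obtain ⟨f', hf'⟩ := hR.exists_rep (mem_univ f) (fun h => hfW (hYW h))
    obtain ⟨g', hg'⟩ := hR.exists_rep (mem_univ g) (fun h => hgW (hYW h))
    by_contra hcon
    push Not at hcon
    obtain ⟨c1, c2, c3⟩ := hcon
    have hmm : ∀ {x : E} {x' : R}, sp K v (insert (x' : E) Y) = sp K v (insert x Y) →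
        v x ∈ W ⊔ span K {v d} → x' ∈ cl K (qc K v Y R) {P, d'} := by
      intro x x' h hx
      rw [mem_cl, hmem1, hrep hd', mem_iff_of_rep (hUY d) h]
      exact hx
    have hneq : ∀ {x y : E} {x' y' : R}, sp K v (insert (x' : E) Y) = sp K v (insert x Y) →
        sp K v (insert (y' : E) Y) = sp K v (insert y Y) → v x ∉ sp K v (insert y Y) →
        x' ≠ y' := by
      rintro x y x' y' h1 h2 h3 rfl
      apply h3
      rw [← h2, h1]
      exact mem_sp (mem_insert_self _ _)
    have h4 : ({P, e', f', g'} : Finset R).card = 4 := by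
      rw [card_insert_of_notMem, card_insert_of_notMem, card_insert_of_notMem, card_singleton]
      · simp only [mem_singleton]
        exact hneq hf' hg' c3
      · simp only [mem_insert, mem_singleton, not_or]
        exact ⟨hneq he' hf' c1, hneq he' hg' c2⟩
      · simp only [mem_insert, mem_singleton, not_or]
        exact ⟨(hne he' heW).symm, (hne hf' hfW).symm, (hne hg' hgW).symm⟩
    have h5 : ({P, e', f', g'} : Finset R) ⊆ cl K (qc K v Y R) {P, d'} := by
      intro x hx
      simp only [mem_insert, mem_singleton] at hx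
      rcases hx with rfl | rfl | rfl | rfl
      · exact subset_cl (mem_insert_self _ _)
      · exact hmm he' he
      · exact hmm hf' hf
      · exact hmm hg' hg
    have := card_le_card h5
    omega
  · rw [hmem2] at k3
    intro h
    apply k3
    have e1 : ∀ x y : E, sp K v (insert x (insert y Y)) =
        sp K v (insert x Y) ⊔ sp K v (insert y Y) := by
      intro x y
      rw [sp_insert, sp_insert, sp_insert, sup_assoc, ← sup_assoc (sp K v Y), sup_comm (sp K v Y),
        sup_assoc (span K {v y}), sup_idem]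
    rw [e1, ha', hb', ← e1]
    exact (mem_iff_of_rep (sp_mono ((subset_insert _ _).trans (subset_insert _ _))) hc').2 h

end key

end Ca3
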