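import Pool.Agent.Lib.MP_ca3eb1_co.Cone
import Pool.Agent.Lib.MP_ca3eb1_co.ThreePlanes
import Pool.Agent.Lib.MP_ca3eb1_co.TheoremA

/-! # Module W8a: there is no tight configuration of rank 5 -/

set_option linter.unusedSectionVars false

namespace Ca3

open Finset Submodule

/-- the heavy hyperplane flats of a configuration of rank 5 -/
def TfHv (K : Type*) {V E : Type*} [Field K] [AddCommGroup V] [Module K V]
    [Fintype E] [DecidableEq E] (v : E → V) (H : Finset E) : Prop :=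
  IsFl K v H ∧ rk K v H = 4 ∧ 0 < alpha K v H

variable {K V E : Type*} [Field K] [Fintype K] [AddCommGroup V] [Module K V]
  [FiniteDimensional K V] [Fintype E] [DecidableEq E] {v : E → V}

theorem tf_transfer (hv : Simple K v) (ht : Tight K v) (h5 : rk K v univ = 5) (y : E) :
    ∃ (R : Finset E) (m : ℕ) (B : Fin m → Finset R), IsReps K v {y} univ R ∧
      IsMason K (qc K v {y} R) ∅ univ B ∧
      ∀ H, TfHv K v H → y ∈ H → ∃ j, cl K (qc K v {y} R) (B j) = tr R H := by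
  obtain ⟨R, -, hR⟩ := exists_reps (K := K) (v := v) (Y := {y}) (T := univ) (R₀ := ∅)
    (empty_subset _) (by simp) (by simp)
  obtain ⟨n, A, hA⟩ := ht.2.1 y
  obtain ⟨m, B, hB, hBH⟩ := transfer_fin hR hA
  refine ⟨R, m, B, hR, hB, ?_⟩
  rintro H ⟨hH, hr, h0⟩ hy
  have hne : H ≠ univ := by rintro rfl; omega
  have hY1 : rk K v {y} = 1 := hv.rk_singleton
  exact hBH H hH (singleton_subset_iff.2 hy) (by omega) (ht.heavy_point hH hne h0 hy hA)

theorem tf_inter (hK : Fintype.card K = 4) (hv : Simple K v) (ht : Tight K v)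
    (h5 : rk K v univ = 5) {H1 H2 : Finset E} (h1 : TfHv K v H1) (h2 : TfHv K v H2)
    (hne : H1 ≠ H2) : rk K v (H1 ∩ H2) = 3 := by
  have h1' := h1
  have h2' := h2
  obtain ⟨hH1, hr1, ha1⟩ := h1
  obtain ⟨hH2, hr2, ha2⟩ := h2
  have hu1 : H1 ≠ univ := by rintro rfl; omega
  have hG : IsFl K v (H1 ∩ H2) := hH1.inter hH2
  have hG1 : H1 ∩ H2 ≠ H1 := by
    intro h
    exact hne (hH1.eq_of_subset_of_rk_le (by rw [← h]; exact inter_subset_right) (by omega))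
  obtain ⟨n1, A1, hA1⟩ := ht.2.2 H1 hH1 hu1
  obtain ⟨X1, hX1, hX1c, -⟩ := T7 hA1 hH1 (heavy_self hA1 hH1 ha1) hG inter_subset_left hG1
  have hc := cone hK hv ht h5 hH2 hr2 ha2
  have hX : X1.card ≤ 4 := by
    refine (card_le_card ?_).trans hc
    intro e he
    have h1 := mem_sdiff.1 (hX1 he)
    exact mem_sdiff.2 ⟨mem_univ _, fun h' => h1.2 (mem_inter.2 ⟨h1.1, h'⟩)⟩
  have hg : 1 ≤ rk K v (H1 ∩ H2) := by omega
  have hgne : (H1 ∩ H2).Nonempty := by
    rw [nonempty_iff_ne_empty]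
    intro h0
    rw [h0, rk_empty] at hg
    omega
  obtain ⟨y, hy⟩ := hgne
  obtain ⟨R, m, B, hR, hB, hBH⟩ := tf_transfer hv ht h5 y
  have hy1 := (mem_inter.1 hy).1
  have hy2 := (mem_inter.1 hy).2
  have hY1 : rk K v {y} = 1 := hv.rk_singleton
  have hs1 : {y} ⊆ H1 := singleton_subset_iff.2 hy1
  have hs2 : {y} ⊆ H2 := singleton_subset_iff.2 hy2
  have hsG : {y} ⊆ H1 ∩ H2 := singleton_subset_iff.2 hy
  have hru := rk_qc_univ hR (subset_univ _)
  have hrt1 := rk_tr hR hH1 hs1 (subset_univ _)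
  have hrt2 := rk_tr hR hH2 hs2 (subset_univ _)
  have hrtG := rk_tr hR hG hsG (subset_univ _)
  have hne' : tr R H1 ≠ tr R H2 := fun h =>
    hne (tr_inj hR hH1 hs1 (subset_univ _) hH2 hs2 (subset_univ _) h)
  have hP := P4 hK (qc_simple hR) hB (by omega) (isFl_tr hR hH1 hs1 (subset_univ _))
    (isFl_tr hR hH2 hs2 (subset_univ _)) (by omega) (by omega) (hBH H1 h1' hy1)
    (hBH H2 h2' hy2) hne'
  have htr : tr R H1 ∩ tr R H2 = tr R (H1 ∩ H2) := by
    ext r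
    simp [tr]
  rw [htr] at hP
  omega

theorem tf_triple (hK : Fintype.card K = 4) (hv : Simple K v) (ht : Tight K v)
    (h5 : rk K v univ = 5) {H1 H2 H3 : Finset E} (h1 : TfHv K v H1) (h2 : TfHv K v H2)
    (h3 : TfHv K v H3) (h12 : H1 ≠ H2) (h13 : H1 ≠ H3) (h23 : H2 ≠ H3) :
    H1 ∩ H2 ∩ H3 = ∅ := by
  by_contra hcon
  obtain ⟨y, hy⟩ := nonempty_iff_ne_empty.2 hcon
  obtain ⟨R, m, B, hR, hB, hBH⟩ := tf_transfer hv ht h5 y
  have hy1 := (mem_inter.1 (mem_inter.1 hy).1).1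
  have hy2 := (mem_inter.1 (mem_inter.1 hy).1).2
  have hy3 := (mem_inter.1 hy).2
  have hY1 : rk K v {y} = 1 := hv.rk_singleton
  have hs1 : {y} ⊆ H1 := singleton_subset_iff.2 hy1
  have hs2 : {y} ⊆ H2 := singleton_subset_iff.2 hy2
  have hs3 : {y} ⊆ H3 := singleton_subset_iff.2 hy3
  have hru := rk_qc_univ hR (subset_univ _)
  have hrt1 := rk_tr hR h1.1 hs1 (subset_univ _)
  have hrt2 := rk_tr hR h2.1 hs2 (subset_univ _)
  have hrt3 := rk_tr hR h3.1 hs3 (subset_univ _)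
  have hr1 := h1.2.1
  have hr2 := h2.2.1
  have hr3 := h3.2.1
  exact three_planes hK (qc_simple hR) hB (by omega) (isFl_tr hR h1.1 hs1 (subset_univ _))
    (isFl_tr hR h2.1 hs2 (subset_univ _)) (isFl_tr hR h3.1 hs3 (subset_univ _))
    (by omega) (by omega) (by omega) (hBH H1 h1 hy1) (hBH H2 h2 hy2) (hBH H3 h3 hy3)
    (fun h => h12 (tr_inj hR h1.1 hs1 (subset_univ _) h2.1 hs2 (subset_univ _) h))
    (fun h => h13 (tr_inj hR h1.1 hs1 (subset_univ _) h3.1 hs3 (subset_univ _) h))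
    (fun h => h23 (tr_inj hR h2.1 hs2 (subset_univ _) h3.1 hs3 (subset_univ _) h))

/-- no fourth heavy hyperplane -/
theorem tf_four (hK : Fintype.card K = 4) (hv : Simple K v) (ht : Tight K v)
    (h5 : rk K v univ = 5) {H1 H2 H3 : Finset E} (h1 : TfHv K v H1) (h2 : TfHv K v H2)
    (h3 : TfHv K v H3) (h12 : H1 ≠ H2) (h13 : H1 ≠ H3) (h23 : H2 ≠ H3) {H4 : Finset E}
    (h4 : TfHv K v H4) : H4 = H1 ∨ H4 = H2 ∨ H4 = H3 := by
  by_contra hcon
  push Not at hcon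
  obtain ⟨h41, h42, h43⟩ := hcon
  have hr13 := tf_inter hK hv ht h5 h1 h3 h13
  have hr14 := tf_inter hK hv ht h5 h1 h4 (Ne.symm h41)
  have e1 := tf_triple hK hv ht h5 h1 h2 h3 h12 h13 h23
  have e2 := tf_triple hK hv ht h5 h1 h2 h4 h12 (Ne.symm h41) (Ne.symm h42)
  have e3 := tf_triple hK hv ht h5 h1 h3 h4 h13 (Ne.symm h41) (Ne.symm h43)
  have hc := cone hK hv ht h5 h2.1 h2.2.1 h2.2.2
  have c1 : rk K v (H1 ∩ H3) ≤ (H1 ∩ H3).card := rk_le_card
  have c2 : rk K v (H1 ∩ H4) ≤ (H1 ∩ H4).card := rk_le_card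
  have hd : Disjoint (H1 ∩ H3) (H1 ∩ H4) := by
    rw [disjoint_left]
    intro e he he'
    have : e ∈ H1 ∩ H3 ∩ H4 := mem_inter.2 ⟨he, (mem_inter.1 he').2⟩
    rw [e3] at this
    exact absurd this (notMem_empty _)
  have hs : (H1 ∩ H3) ∪ (H1 ∩ H4) ⊆ univ \ H2 := by
    intro e he
    refine mem_sdiff.2 ⟨mem_univ _, fun h => ?_⟩
    rcases mem_union.1 he with he | he
    · have : e ∈ H1 ∩ H2 ∩ H3 :=
        mem_inter.2 ⟨mem_inter.2 ⟨(mem_inter.1 he).1, h⟩, (mem_inter.1 he).2⟩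
      rw [e1] at this
      exact absurd this (notMem_empty _)
    · have : e ∈ H1 ∩ H2 ∩ H4 :=
        mem_inter.2 ⟨mem_inter.2 ⟨(mem_inter.1 he).1, h⟩, (mem_inter.1 he).2⟩
      rw [e2] at this
      exact absurd this (notMem_empty _)
  have h6 := card_le_card hs
  rw [card_union_of_disjoint hd] at h6
  omega

/-- existence of three heavy hyperplanes -/
theorem tf_exists (hK : Fintype.card K = 4) (hv : Simple K v) (ht : Tight K v)
    (h5 : rk K v univ = 5) : ∃ H1 H2 H3 : Finset E, TfHv K v H1 ∧ TfHv K v H2 ∧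
      TfHv K v H3 ∧ H1 ≠ H2 ∧ H1 ≠ H3 ∧ H2 ≠ H3 := by
  have hex : ∀ x : E, ∃ H, TfHv K v H ∧ x ∉ H := by
    intro x
    obtain ⟨H, hH, hr, hx, h0⟩ := ht.exists_heavy x
    exact ⟨H, ⟨hH, by omega, h0⟩, hx⟩
  have hne : ∀ H : Finset E, 1 ≤ rk K v H → ∃ x, x ∈ H := by
    intro H h
    by_contra hcon
    push Not at hcon
    have : H = ∅ := eq_empty_of_forall_notMem hcon
    rw [this, rk_empty] at h
    omega
  obtain ⟨x0, -⟩ := hne univ (by omega)
  obtain ⟨H1, h1, -⟩ := hex x0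
  obtain ⟨x, hx⟩ := hne H1 (by rw [h1.2.1]; omega)
  obtain ⟨H2, h2, hx2⟩ := hex x
  have h12 : H1 ≠ H2 := by
    rintro rfl
    exact hx2 hx
  obtain ⟨y, hy⟩ := hne (H1 ∩ H2) (by rw [tf_inter hK hv ht h5 h1 h2 h12]; omega)
  obtain ⟨H3, h3, hy3⟩ := hex y
  refine ⟨H1, H2, H3, h1, h2, h3, h12, ?_, ?_⟩
  · rintro rfl
    exact hy3 (mem_inter.1 hy).1
  · rintro rfl
    exact hy3 (mem_inter.1 hy).2

open Classical in
theorem tf_sum_flat {H : Finset E} (hH : IsFl K v H) (hne : H ≠ univ) :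
    ∑ G ∈ univ.filter (fun G => IsFl K v G ∧ G ≠ univ),
      (if G ⊆ H then alpha K v G else 0) = (H.card : ℤ) - rk K v H := by
  rw [← alpha_sum_flat hH, ← sum_filter, filter_filter]
  refine sum_congr ?_ fun _ _ => rfl
  ext G
  simp only [mem_filter, mem_univ, true_and]
  constructor
  · rintro ⟨⟨a, b⟩, c⟩
    exact ⟨a, c⟩
  · rintro ⟨a, b⟩
    refine ⟨⟨a, ?_⟩, b⟩
    rintro rfl
    exact hne (univ_subset_iff.1 b)

/-- the inequality for `α(E)` -/
theorem tf_alpha_univ (hv : Simple K v) (ht : Tight K v)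
    (h5 : rk K v univ = 5) {H1 H2 H3 : Finset E} (h1 : TfHv K v H1) (h2 : TfHv K v H2)
    (h3 : TfHv K v H3) (r12 : rk K v (H1 ∩ H2) = 3) (r13 : rk K v (H1 ∩ H3) = 3)
    (r23 : rk K v (H2 ∩ H3) = 3) (h123 : H1 ∩ H2 ∩ H3 = ∅) :
    alpha K v univ + 2 ≤ ((univ \ (H1 ∪ H2 ∪ H3)).card : ℤ) := by
  classical
  have hr1 := h1.2.1
  have hr2 := h2.2.1
  have hr3 := h3.2.1
  have u1 : H1 ≠ univ := by rintro rfl; omega
  have u2 : H2 ≠ univ := by rintro rfl; omega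
  have u3 : H3 ≠ univ := by rintro rfl; omega
  have u12 : H1 ∩ H2 ≠ univ := by intro h; rw [h] at r12; omega
  have u13 : H1 ∩ H3 ≠ univ := by intro h; rw [h] at r13; omega
  have u23 : H2 ∩ H3 ≠ univ := by intro h; rw [h] at r23; omega
  have s1 := tf_sum_flat h1.1 u1
  have s2 := tf_sum_flat h2.1 u2
  have s3 := tf_sum_flat h3.1 u3
  have s12 := tf_sum_flat (h1.1.inter h2.1) u12
  have s13 := tf_sum_flat (h1.1.inter h3.1) u13
  have s23 := tf_sum_flat (h2.1.inter h3.1) u23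
  have ha := alpha_eq (K := K) (v := v) univ
  have hps : (univ : Finset E).powerset = univ := powerset_univ
  rw [hps] at ha
  have hle : ∑ G ∈ univ.filter (fun G => IsFl K v G ∧ G ≠ univ),
      (((if G ⊆ H1 then alpha K v G else 0) + (if G ⊆ H2 then alpha K v G else 0) +
        (if G ⊆ H3 then alpha K v G else 0)) -
        ((if G ⊆ H1 ∩ H2 then alpha K v G else 0) + (if G ⊆ H1 ∩ H3 then alpha K v G else 0) +
        (if G ⊆ H2 ∩ H3 then alpha K v G else 0))) ≤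
      ∑ G ∈ univ.filter (fun G => IsFl K v G ∧ G ≠ univ), alpha K v G := by
    refine sum_le_sum ?_
    intro G hG
    have hG' := (mem_filter.1 hG).2
    have h0 : 0 ≤ alpha K v G := alpha_nonneg (ht.2.2 G hG'.1 hG'.2) (Subset.refl _)
    simp only [subset_inter_iff]
    by_cases a : G ⊆ H1 <;> by_cases b : G ⊆ H2 <;> by_cases c : G ⊆ H3 <;> simp [a, b, c] <;>
      linarith
  rw [sum_sub_distrib, sum_add_distrib, sum_add_distrib, sum_add_distrib, sum_add_distrib,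
    s1, s2, s3, s12, s13, s23] at hle
  have hc1 := card_union_add_card_inter (H1 ∪ H2) H3
  have hc2 := card_union_add_card_inter H1 H2
  have hc3 : (H1 ∪ H2) ∩ H3 = (H1 ∩ H3) ∪ (H2 ∩ H3) := union_inter_distrib_right _ _ _
  have hd : Disjoint (H1 ∩ H3) (H2 ∩ H3) := by
    rw [disjoint_left]
    intro e he he'
    have : e ∈ H1 ∩ H2 ∩ H3 :=
      mem_inter.2 ⟨mem_inter.2 ⟨(mem_inter.1 he).1, (mem_inter.1 he').1⟩, (mem_inter.1 he).2⟩
    rw [h123] at this
    exact absurd this (notMem_empty _)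
  rw [hc3, card_union_of_disjoint hd] at hc1
  have hc4 := card_sdiff_add_card_eq_card (subset_univ (H1 ∪ H2 ∪ H3))
  rw [hr1, hr2, hr3, r12, r13, r23] at hle
  rw [h5] at ha
  push_cast at hle ha ⊢
  have hc1' : ((H1 ∪ H2 ∪ H3).card : ℤ) + ((H1 ∩ H3).card + (H2 ∩ H3).card) =
      (H1 ∪ H2).card + H3.card := by exact_mod_cast hc1
  have hc2' : ((H1 ∪ H2).card : ℤ) + (H1 ∩ H2).card = H1.card + H2.card := by
    exact_mod_cast hc2
  have hc4' : ((univ \ (H1 ∪ H2 ∪ H3)).card : ℤ) + (H1 ∪ H2 ∪ H3).card =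
      (univ : Finset E).card := by exact_mod_cast hc4
  linarith

theorem tf_alpha_ge (hK : Fintype.card K = 4) (hv : Simple K v) (ht : Tight K v)
    (h5 : rk K v univ = 5) {H1 H2 H3 : Finset E} (h1 : TfHv K v H1) (h2 : TfHv K v H2)
    (h3 : TfHv K v H3) (h12 : H1 ≠ H2) (h13 : H1 ≠ H3) (h23 : H2 ≠ H3) :
    0 ≤ alpha K v univ + alpha K v H3 := by
  classical
  have r12 := tf_inter hK hv ht h5 h1 h2 h12
  have e1 := tf_triple hK hv ht h5 h1 h2 h3 h12 h13 h23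
  have hne : (H1 ∩ H2).Nonempty := by
    rw [nonempty_iff_ne_empty]
    intro h0
    rw [h0, rk_empty] at r12
    omega
  obtain ⟨x, hx⟩ := hne
  have hx1 := (mem_inter.1 hx).1
  have hx2 := (mem_inter.1 hx).2
  have hx3 : x ∉ H3 := by
    intro h
    have : x ∈ H1 ∩ H2 ∩ H3 := mem_inter.2 ⟨hx, h⟩
    rw [e1] at this
    exact absurd this (notMem_empty _)
  obtain ⟨n, A, hA⟩ := ht.2.1 x
  have hb := beta hA (isFl_univ (K := K) (v := v)) (subset_univ _) (Subset.refl _)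
  have hr3 := h3.2.1
  have u3 : H3 ≠ univ := by rintro rfl; omega
  set P := univ.filter (fun G' => IsFl K v G' ∧ cl K v (G' ∪ {x}) = univ) with hP
  have hun : univ ∈ P := by
    rw [hP, mem_filter]
    refine ⟨mem_univ _, isFl_univ, ?_⟩
    exact univ_subset_iff.1 (subset_union_left.trans subset_cl)
  have hH3 : H3 ∈ P := by
    rw [hP, mem_filter]
    refine ⟨mem_univ _, h3.1, ?_⟩
    have hxs : v x ∉ sp K v H3 := fun h => hx3 (h3.1.mem h)
    have hr : rk K v (insert x H3) = 5 := by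
      rw [rk_insert_of_not_mem_sp hxs, hr3]
    refine isFl_univ.cl_eq (subset_univ _) ?_
    rw [union_comm, ← insert_eq, hr, h5]
  have hrest : ∀ G ∈ P.erase univ, G ≠ H3 → alpha K v G = 0 := by
    intro G hG hGne
    obtain ⟨hGu, hGP⟩ := mem_erase.1 hG
    rw [hP, mem_filter] at hGP
    obtain ⟨-, hGf, hGc⟩ := hGP
    have h0 : 0 ≤ alpha K v G := alpha_nonneg (ht.2.2 G hGf hGu) (Subset.refl _)
    by_contra hne
    have hpos : 0 < alpha K v G := lt_of_le_of_ne h0 (Ne.symm hne)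
    have hxG : x ∉ G := by
      intro h
      rw [union_eq_left.2 (singleton_subset_iff.2 h)] at hGc
      exact hGu (hGf.symm.trans hGc)
    have hrG1 : rk K v G < rk K v univ :=
      hGf.rk_lt_of_ssubset (ssubset_univ_iff.2 hGu)
    have hrG2 : rk K v (insert x G) ≤ rk K v G + 1 := rk_insert_le
    have hrG3 : rk K v (G ∪ {x}) = 5 := by
      rw [← rk_cl (X := G ∪ {x}), hGc, h5]
    rw [union_comm, ← insert_eq] at hrG3
    have hG4 : TfHv K v G := ⟨hGf, by omega, hpos⟩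
    rcases tf_four hK hv ht h5 h1 h2 h3 h12 h13 h23 hG4 with h | h | h
    · exact hxG (h ▸ hx1)
    · exact hxG (h ▸ hx2)
    · exact hGne h
  have hsum : ∑ G' ∈ P, alpha K v G' = alpha K v univ + alpha K v H3 := by
    rw [← add_sum_erase P _ hun]
    congr 1
    refine sum_eq_single H3 hrest ?_
    intro h
    exact absurd (mem_erase.2 ⟨u3, hH3⟩) h
  rw [hsum] at hb
  rw [← hb]
  exact Int.natCast_nonneg _

/-- steps (a) - (f): the three heavy hyperplanes -/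
theorem tight_five_structure (hK : Fintype.card K = 4) (hv : Simple K v) (ht : Tight K v)
    (h5 : rk K v univ = 5) :
    ∃ H : Fin 3 → Finset E, Function.Injective H ∧
      (∀ i, IsFl K v (H i) ∧ rk K v (H i) = 4 ∧ (univ \ H i).card ≤ 4) ∧
      (∀ i j, i ≠ j → rk K v (H i ∩ H j) = 3) ∧
      H 0 ∩ H 1 ∩ H 2 = ∅ ∧
      (∀ i, (2 : ℤ) ≤ alpha K v (H i) + (univ \ (H 0 ∪ H 1 ∪ H 2)).card) ∧
      (∀ i, 0 < alpha K v (H i)) := by
  obtain ⟨H1, H2, H3, h1, h2, h3, h12, h13, h23⟩ := tf_exists hK hv ht h5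
  have r12 := tf_inter hK hv ht h5 h1 h2 h12
  have r13 := tf_inter hK hv ht h5 h1 h3 h13
  have r23 := tf_inter hK hv ht h5 h2 h3 h23
  have e1 := tf_triple hK hv ht h5 h1 h2 h3 h12 h13 h23
  have hu := tf_alpha_univ hv ht h5 h1 h2 h3 r12 r13 r23 e1
  have g3 := tf_alpha_ge hK hv ht h5 h1 h2 h3 h12 h13 h23
  have g2 := tf_alpha_ge hK hv ht h5 h1 h3 h2 h13 h12 (Ne.symm h23)
  have g1 := tf_alpha_ge hK hv ht h5 h2 h3 h1 h23 (Ne.symm h12) (Ne.symm h13)
  refine ⟨![H1, H2, H3], ?_, ?_, ?_, ?_, ?_, ?_⟩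
  · intro i j hij
    fin_cases i <;> fin_cases j <;> simp_all
  · intro i
    fin_cases i
    · exact ⟨h1.1, h1.2.1, cone hK hv ht h5 h1.1 h1.2.1 h1.2.2⟩
    · exact ⟨h2.1, h2.2.1, cone hK hv ht h5 h2.1 h2.2.1 h2.2.2⟩
    · exact ⟨h3.1, h3.2.1, cone hK hv ht h5 h3.1 h3.2.1 h3.2.2⟩
  · intro i j hij
    fin_cases i <;> fin_cases j <;> first | exact absurd rfl hij | assumption |
      (show rk K v (_ ∩ _) = 3; rw [inter_comm]; assumption)
  · exact e1
  · intro i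
    fin_cases i
    · show (2 : ℤ) ≤ alpha K v H1 + (univ \ (H1 ∪ H2 ∪ H3)).card
      linarith
    · show (2 : ℤ) ≤ alpha K v H2 + (univ \ (H1 ∪ H2 ∪ H3)).card
      linarith
    · show (2 : ℤ) ≤ alpha K v H3 + (univ \ (H1 ∪ H2 ∪ H3)).card
      linarith
  · intro i
    fin_cases i
    · exact h1.2.2
    · exact h2.2.2
    · exact h3.2.2

end Ca3
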