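import Pool.Agent.Lib.MP_ca3eb1_co.Pen
import Pool.Agent.Lib.MP_ca3eb1_co.P4
import Pool.Agent.Lib.MP_ca3eb1_co.PL
import Pool.Agent.Lib.MP_ca3eb1_co.T7

/-! # Module W6a: three heavy planes with a common line -/

set_option linter.unusedSectionVars false

namespace Ca3

open Finset Submodule

variable {K V E : Type*} [Field K] [Fintype K] [AddCommGroup V] [Module K V]
  [FiniteDimensional K V] [Fintype E] [DecidableEq E] {v : E → V}

private lemma char_two (hK : Fintype.card K = 4) : (2 : K) = 0 := by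
  have h := FiniteField.cast_card_eq_zero K
  rw [hK] at h
  have h2 : (2 : K) * 2 = 0 := by
    have : (2 : K) * 2 = ((4 : ℕ) : K) := by norm_num
    rw [this, h]
  rcases mul_eq_zero.1 h2 with h3 | h3 <;> exact h3

/-- over a field with four elements a vector space of dimension two over the prime field is
everything -/
private lemma cover (hK : Fintype.card K = 4) {x y : K} (hx : x ≠ 0) (hy : y ≠ 0) (hxy : x ≠ y)
    (t : K) : t = 0 ∨ t + x = 0 ∨ t + y = 0 ∨ t + x + y = 0 := by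
  classical
  have h2 := char_two hK
  have hS : ({0, x, y, x + y} : Finset K) = univ := by
    apply eq_univ_of_card
    rw [hK]
    have hxy0 : x + y ≠ 0 := by
      intro h
      apply hxy
      have : x = x + y - 2 * y + y - 0 := by ring
      rw [this, h, h2]; ring
    have h3 : x + y ≠ x := fun h => hy (by linear_combination h)
    have h4 : x + y ≠ y := fun h => hx (by linear_combination h)
    rw [card_insert_of_notMem, card_insert_of_notMem, card_insert_of_notMem, card_singleton]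
    · simp only [mem_singleton]; exact fun h => h4 h.symm
    · simp only [mem_insert, mem_singleton, not_or]
      exact ⟨hxy, fun h => h3 h.symm⟩
    · simp only [mem_insert, mem_singleton, not_or]
      exact ⟨hx.symm, hy.symm, hxy0.symm⟩
  have ht : t ∈ ({0, x, y, x + y} : Finset K) := by rw [hS]; exact mem_univ _
  simp only [mem_insert, mem_singleton] at ht
  rcases ht with h | h | h | h
  · exact Or.inl h
  · right; left; rw [h]; linear_combination x * h2
  · right; right; left; rw [h]; linear_combination y * h2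
  · right; right; right; rw [h]; linear_combination (x + y) * h2

/-- the vector of the second element of the pair, relative to the first -/
private lemma pair_relation {P l : Finset E} (hl : IsFl K v l) (hlP : l ⊆ P)
    (hrP : rk K v P = 3) (hrl : rk K v l = 2) {a b : E} (haP : a ∈ P) (hbP : b ∈ P)
    (hal : a ∉ l) (hbl : b ∉ l) (hy : ∀ y ∈ l, v b ∉ sp K v {y, a}) {c : K} (hc : c ≠ 0) :
    ∃ (r : K) (d : V), r ≠ 0 ∧ d ∈ sp K v l ∧ r • v b = c • v a + d ∧
      ∀ y ∈ l, d ∉ span K {v y} := by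
  have hal' : v a ∉ sp K v l := fun h => hal (hl.mem h)
  have hbl' : v b ∉ sp K v l := fun h => hbl (hl.mem h)
  have h1 : sp K v (insert a l) = sp K v P := by
    apply sp_eq_of_subset_of_rk_le (insert_subset haP hlP)
    rw [rk_insert_of_not_mem_sp hal', hrl, hrP]
  have h2 : v b ∈ sp K v (insert a l) := by rw [h1]; exact mem_sp hbP
  rw [sp_insert, Submodule.mem_sup] at h2
  obtain ⟨u, hu, w, hw, huw⟩ := h2
  obtain ⟨s, rfl⟩ := mem_span_singleton.1 hu
  have hs : s ≠ 0 := by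
    rintro rfl
    rw [zero_smul, zero_add] at huw
    exact hbl' (huw ▸ hw)
  have e : (c * s⁻¹) • v b = c • v a + (c * s⁻¹) • w := by
    rw [← huw, smul_add, smul_smul, mul_assoc, inv_mul_cancel₀ hs, mul_one]
  refine ⟨c * s⁻¹, (c * s⁻¹) • w, mul_ne_zero hc (inv_ne_zero hs), smul_mem _ _ hw, e, ?_⟩
  intro y hyl hd
  apply hy y hyl
  have h3 : v b = (c * s⁻¹)⁻¹ • (c • v a + (c * s⁻¹) • w) := by
    rw [← e, smul_smul, inv_mul_cancel₀ (mul_ne_zero hc (inv_ne_zero hs)), one_smul]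
  rw [h3]
  refine smul_mem _ _ (add_mem (smul_mem _ _ (mem_sp (by simp))) ?_)
  have h4 : span K {v y} ≤ sp K v {y, a} := by
    rw [span_singleton_le_iff_mem]; exact mem_sp (by simp)
  exact h4 hd

/-- `T7` for a plane and a line in it with only two elements outside the line -/
private lemma pair_data (hv : Simple K v) {n : ℕ} {A : Fin n → Finset E}
    (hA : IsMason K v ∅ univ A) {P l : Finset E} (hP : IsFl K v P) (hr : rk K v P = 3)
    (hi : ∃ i, cl K v (A i) = P) (hl : IsFl K v l) (hrl : rk K v l = 2) (hlP : l ⊆ P) :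
    2 ≤ (P \ l).card ∧ ((P \ l).card ≤ 2 → ∃ a b, a ≠ b ∧ P \ l = {a, b} ∧
      ∀ y ∈ l, v b ∉ sp K v {y, a}) := by
  have hne : l ≠ P := by rintro rfl; omega
  obtain ⟨X, hX, hXc, hXr⟩ := T7 (hA.mono (subset_refl _) (subset_univ P)) hP hi hl hlP hne
  have hX2 : X.card = 2 := by omega
  have hle := card_le_card hX
  refine ⟨by omega, fun h => ?_⟩
  have hXe : X = P \ l := eq_of_subset_of_card_le hX (by omega)
  obtain ⟨a, b, hab, hXab⟩ := card_eq_two.1 hX2
  refine ⟨a, b, hab, by rw [← hXe, hXab], fun y hy hb => ?_⟩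
  -- a second element of the line
  have hlc : 2 ≤ l.card := by
    by_contra hc
    have := (hv.ind_of_card_le_two (X := l) (by omega)).rk_eq_card
    omega
  obtain ⟨y', hy', hyy'⟩ := exists_mem_ne (by omega : 1 < l.card) y
  have hI : Ind K v {y', y} := hv.ind_of_card_le_two (by rw [card_pair hyy'])
  have hIl : ({y', y} : Finset E) ⊆ l := by
    intro z hz
    rcases mem_insert.1 hz with rfl | hz
    · exact hy'
    · rw [mem_singleton] at hz; rwa [hz]
  have hsp : sp K v ({y', y} : Finset E) = sp K v l :=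
    sp_eq_of_subset_of_rk_le hIl (by rw [hv.rk_pair hyy', hrl])
  have h1 := hXr _ hIl hI hsp y' (by simp)
  have haP : a ∈ P \ l := hX (by rw [hXab]; simp)
  have hbP : b ∈ P \ l := hX (by rw [hXab]; simp)
  rw [mem_sdiff] at haP hbP
  have h2 : (({y', y} : Finset E) ∪ X).erase y' ⊆ {b, y, a} := by
    intro z hz
    rw [mem_erase, mem_union, hXab] at hz
    simp only [mem_insert, mem_singleton] at hz ⊢
    tauto
  have h3 := rk_mono (K := K) (v := v) h2
  have h4 : rk K v ({b, y, a} : Finset E) = rk K v ({y, a} : Finset E) := rk_insert_of_mem_sp hb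
  have h5 : y ≠ a := by rintro rfl; exact haP.2 hy
  rw [hv.rk_pair h5] at h4
  omega

private lemma cross {P Q l : Finset E} (hQ : IsFl K v Q) (hPQ : P ∩ Q = l) {r s y : E}
    (hs : s ∈ Q) (hy : y ∈ Q) (hr : r ∈ P) (hrl : r ∉ l) : v r ∉ sp K v {s, y} := by
  intro h
  apply hrl
  rw [← hPQ]
  refine mem_inter.2 ⟨hr, hQ.mem (sp_mono ?_ h)⟩
  intro z hz
  simp only [mem_insert, mem_singleton] at hz
  rcases hz with rfl | rfl <;> assumption

/-- the projective line argument in `N / y` -/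
private lemma no_transversal (hK : Fintype.card K = 4) (hv : Simple K v)
    (hs : SG K v ∅ univ) (h4 : rk K v univ = 4)
    {P1 P2 P3 l : Finset E} (hP1 : IsFl K v P1) (hP2 : IsFl K v P2) (hP3 : IsFl K v P3)
    (hr1 : rk K v P1 = 3) (hr2 : rk K v P2 = 3) (hr3 : rk K v P3 = 3)
    (hl : IsFl K v l) (hrl : rk K v l = 2) (hl1 : l ⊆ P1) (hl2 : l ⊆ P2) (hl3 : l ⊆ P3)
    (h12 : P1 ∩ P2 = l) (h13 : P1 ∩ P3 = l) (h23 : P2 ∩ P3 = l)
    (huniv : ∀ e, e ∉ l → e ∈ P1 \ l ∨ e ∈ P2 \ l ∨ e ∈ P3 \ l)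
    (hX1 : ∀ e ∈ P1 \ l, ∃ f ∈ P1 \ l, ∀ y ∈ l, v f ∉ sp K v {e, y})
    (hX2 : ∀ e ∈ P2 \ l, ∃ f ∈ P2 \ l, ∀ y ∈ l, v f ∉ sp K v {e, y})
    (hX3 : ∀ e ∈ P3 \ l, ∃ f ∈ P3 \ l, ∀ y ∈ l, v f ∉ sp K v {e, y})
    {y y' : E} (hy : y ∈ l) (hy' : y' ∈ l) (hyy' : y ≠ y') {e1 e2 e3 : E}
    (he1 : e1 ∈ P1 \ l) (he2 : e2 ∈ P2 \ l) (he3 : e3 ∈ P3 \ l) :
    v e3 ∉ sp K v {e1, e2, y} := by
  rw [mem_sdiff] at he1 he2 he3
  have h21 : P2 ∩ P1 = l := by rw [inter_comm]; exact h12
  have h31 : P3 ∩ P1 = l := by rw [inter_comm]; exact h13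
  have h32 : P3 ∩ P2 = l := by rw [inter_comm]; exact h23
  -- elements of the line
  have F2 : ∀ r, r ∉ l → v r ∉ sp K v {y', y} := by
    intro r hr h
    apply hr
    refine hl.mem (sp_mono ?_ h)
    intro z hz
    simp only [mem_insert, mem_singleton] at hz
    rcases hz with rfl | rfl <;> assumption
  have F0 : v y' ∉ sp K v {y} := by
    rw [sp_singleton]
    exact fun h => hyy' (hv.2 _ _ h).symm
  have F1 : ∀ s, s ∉ l → v y' ∉ sp K v {s, y} := by
    intro s hs' h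
    exact F2 s hs' (mem_sp_insert_exchange h F0)
  have Fy : ∀ r, r ∉ l → v r ∉ sp K v {y} := fun r hr h =>
    F2 r hr (sp_mono (by simp) h)
  -- representatives
  obtain ⟨R, hR0, hR⟩ := exists_reps (K := K) (v := v) (Y := {y}) (T := univ)
    (R₀ := {y', e1, e2, e3}) (subset_univ _) (by
      intro r hr
      simp only [mem_insert, mem_singleton] at hr
      rcases hr with rfl | rfl | rfl | rfl
      · exact F0
      · exact Fy _ he1.2
      · exact Fy _ he2.2
      · exact Fy _ he3.2) (by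
      intro r hr s hs' h
      simp only [mem_insert, mem_singleton] at hr hs'
      rcases hr with rfl | rfl | rfl | rfl <;> rcases hs' with rfl | rfl | rfl | rfl
      · rfl
      · exact absurd h (F1 _ he1.2)
      · exact absurd h (F1 _ he2.2)
      · exact absurd h (F1 _ he3.2)
      · exact absurd h (F2 _ he1.2)
      · rfl
      · exact absurd h (cross hP2 h12 he2.1 (hl2 hy) he1.1 he1.2)
      · exact absurd h (cross hP3 h13 he3.1 (hl3 hy) he1.1 he1.2)
      · exact absurd h (F2 _ he2.2)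
      · exact absurd h (cross hP1 h21 he1.1 (hl1 hy) he2.1 he2.2)
      · rfl
      · exact absurd h (cross hP3 h23 he3.1 (hl3 hy) he2.1 he2.2)
      · exact absurd h (F2 _ he3.2)
      · exact absurd h (cross hP1 h31 he1.1 (hl1 hy) he3.1 he3.2)
      · exact absurd h (cross hP2 h32 he2.1 (hl2 hy) he3.1 he3.2)
      · rfl)
  have m0 : y' ∈ R := hR0 (by simp)
  have m1 : e1 ∈ R := hR0 (by simp)
  have m2 : e2 ∈ R := hR0 (by simp)
  have m3 : e3 ∈ R := hR0 (by simp)
  have hq : ∀ p q r : R, qc K v {y} R r ∈ sp K (qc K v {y} R) {p, q} ↔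
      v r ∈ sp K v {(p : E), (q : E), y} := by
    intro p q r
    rw [mem_sp_qc]
    have : (({p, q} : Finset R).map (Function.Embedding.subtype _) ∪ {y} : Finset E) =
        {(p : E), (q : E), y} := by
      ext z
      simp
    rw [this]
  have hSG := transfer_SG hR isFl_univ (subset_univ _) (hs.mono (empty_subset _) (subset_refl _))
  have hrk : rk K (qc K v {y} R) univ = 3 := by
    have := rk_qc_univ hR (subset_univ _)
    rw [hv.rk_singleton, h4] at this
    omega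
  -- the plane spanned by the line and an element
  have span3 : ∀ (P : Finset E), l ⊆ P → rk K v P = 3 → ∀ e ∈ P, e ∉ l →
      sp K v {y', e, y} = sp K v P := by
    intro P hlP hrP e heP hel
    apply sp_eq_of_subset_of_rk_le
    · intro z hz
      simp only [mem_insert, mem_singleton] at hz
      rcases hz with rfl | rfl | rfl
      · exact hlP hy'
      · exact heP
      · exact hlP hy
    · rw [rk_insert_of_not_mem_sp (F1 e hel), hv.rk_pair, hrP]
      rintro rfl
      exact hel hy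
  have side : ∀ (P : Finset E), IsFl K v P → l ⊆ P → rk K v P = 3 →
      (∀ e ∈ P \ l, ∃ f ∈ P \ l, ∀ y ∈ l, v f ∉ sp K v {e, y}) → ∀ e : R, (e : E) ∈ P \ l →
      ∃ f : R, f ≠ ⟨y', m0⟩ ∧ f ≠ e ∧
        qc K v {y} R f ∈ sp K (qc K v {y} R) {⟨y', m0⟩, e} := by
    intro P hP hlP hrP hX e he
    obtain ⟨g, hg, hg'⟩ := hX e he
    rw [mem_sdiff] at he hg
    obtain ⟨f, hf, h5⟩ := hR.ex g (mem_univ _) (Fy g hg.2)
    have hfg : v g ∈ sp K v {f, y} := mem_sp_insert_exchange h5 (hR.not_mem f hf)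
    refine ⟨⟨f, hf⟩, ?_, ?_, ?_⟩
    · intro h
      have : f = y' := congrArg Subtype.val h
      subst this
      exact F2 g hg.2 hfg
    · rintro rfl
      exact hg' y hy hfg
    · rw [hq]
      show v f ∈ sp K v {y', (e : E), y}
      rw [span3 P hlP hrP e he.1 he.2]
      refine sp_mono ?_ h5
      intro z hz
      simp only [mem_insert, mem_singleton] at hz
      rcases hz with rfl | rfl
      · exact hg.1
      · exact hlP hy
  have hp : ∀ e : R, e ≠ ⟨y', m0⟩ → ∃ f, f ≠ (⟨y', m0⟩ : R) ∧ f ≠ e ∧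
      qc K v {y} R f ∈ sp K (qc K v {y} R) {⟨y', m0⟩, e} := by
    intro e he
    have hel : (e : E) ∉ l := by
      intro hel
      apply he
      have h5 : sp K v {y', y} = sp K v l := by
        apply sp_eq_of_subset_of_rk_le
        · intro z hz
          simp only [mem_insert, mem_singleton] at hz
          rcases hz with rfl | rfl <;> assumption
        · rw [hv.rk_pair hyy'.symm, hrl]
      have h6 : v e ∈ sp K v (insert y' {y}) := by
        show v e ∈ sp K v {y', y}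
        rw [h5]; exact mem_sp hel
      exact Subtype.ext (hR.uniq _ e.2 _ m0 h6)
    rcases huniv e hel with h | h | h
    · exact side P1 hP1 hl1 hr1 hX1 e h
    · exact side P2 hP2 hl2 hr2 hX2 e h
    · exact side P3 hP3 hl3 hr3 hX3 e h
  have ne : ∀ e (he : e ∈ R), e ∉ l → (⟨e, he⟩ : R) ≠ ⟨y', m0⟩ := by
    intro e he hel h
    have : e = y' := congrArg Subtype.val h
    exact hel (this ▸ hy')
  have key := PL hK (qc_simple hR) hSG hrk ⟨y', m0⟩ hp (a := ⟨e1, m1⟩) (b := ⟨e2, m2⟩)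
    (c := ⟨e3, m3⟩) (ne _ _ he1.2) (ne _ _ he2.2) (ne _ _ he3.2)
    (by
      rw [hq]
      show v e2 ∉ sp K v {y', e1, y}
      rw [span3 P1 hl1 hr1 e1 he1.1 he1.2]
      intro h
      exact he2.2 (by rw [← h12]; exact mem_inter.2 ⟨hP1.mem h, he2.1⟩))
    (by
      rw [hq]
      show v e3 ∉ sp K v {y', e1, y}
      rw [span3 P1 hl1 hr1 e1 he1.1 he1.2]
      intro h
      exact he3.2 (by rw [← h13]; exact mem_inter.2 ⟨hP1.mem h, he3.1⟩))
    (by
      rw [hq]
      show v e3 ∉ sp K v {y', e2, y}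
      rw [span3 P2 hl2 hr2 e2 he2.1 he2.2]
      intro h
      exact he3.2 (by rw [← h23]; exact mem_inter.2 ⟨hP2.mem h, he3.1⟩))
  have k := key.2.2.2.2
  rw [hq] at k
  exact k

/-- case (I): a common line -/
theorem three_planes_line (hK : Fintype.card K = 4) (hv : Simple K v) {n : ℕ}
    {A : Fin n → Finset E} (hA : IsMason K v ∅ univ A) (h4 : rk K v univ = 4)
    {P1 P2 P3 : Finset E} (hP1 : IsFl K v P1) (hP2 : IsFl K v P2) (hP3 : IsFl K v P3)
    (hr1 : rk K v P1 = 3) (hr2 : rk K v P2 = 3) (hr3 : rk K v P3 = 3)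
    (h1 : ∃ i, cl K v (A i) = P1) (h2 : ∃ i, cl K v (A i) = P2) (h3 : ∃ i, cl K v (A i) = P3)
    (h12 : P1 ≠ P2) (h13 : P1 ≠ P3) (h23 : P2 ≠ P3)
    (hl : rk K v (P1 ∩ P2 ∩ P3) = 2) : False := by
  have hSG : SG K v ∅ univ := ⟨n, A, hA⟩
  -- the common line
  have inter2 : ∀ {P Q : Finset E}, IsFl K v P → IsFl K v Q → rk K v P = 3 → rk K v Q = 3 →
      P ≠ Q → rk K v (P ∩ Q) ≤ 2 := by
    intro P Q hP hQ hrP hrQ hne
    by_contra hc
    have e1 := (hP.inter hQ).eq_of_subset_of_rk_le (inter_subset_left (s₁ := P) (s₂ := Q))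
      (by omega)
    have e2 := (hP.inter hQ).eq_of_subset_of_rk_le (inter_subset_right (s₁ := P) (s₂ := Q))
      (by omega)
    exact hne (e1.symm.trans e2)
  obtain ⟨l, hldef⟩ : ∃ l, l = P1 ∩ P2 ∩ P3 := ⟨_, rfl⟩
  rw [← hldef] at hl
  have hlfl : IsFl K v l := by rw [hldef]; exact (hP1.inter hP2).inter hP3
  have hl1 : l ⊆ P1 := by rw [hldef]; exact inter_subset_left.trans inter_subset_left
  have hl2 : l ⊆ P2 := by rw [hldef]; exact inter_subset_left.trans inter_subset_right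
  have hl3 : l ⊆ P3 := by rw [hldef]; exact inter_subset_right
  have i12 : P1 ∩ P2 = l := (hlfl.eq_of_subset_of_rk_le (subset_inter hl1 hl2)
    (by have := inter2 hP1 hP2 hr1 hr2 h12; omega)).symm
  have i13 : P1 ∩ P3 = l := (hlfl.eq_of_subset_of_rk_le (subset_inter hl1 hl3)
    (by have := inter2 hP1 hP3 hr1 hr3 h13; omega)).symm
  have i23 : P2 ∩ P3 = l := (hlfl.eq_of_subset_of_rk_le (subset_inter hl2 hl3)
    (by have := inter2 hP2 hP3 hr2 hr3 h23; omega)).symm
  have i21 : P2 ∩ P1 = l := by rw [inter_comm]; exact i12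
  have i31 : P3 ∩ P1 = l := by rw [inter_comm]; exact i13
  have i32 : P3 ∩ P2 = l := by rw [inter_comm]; exact i23
  -- pairs
  obtain ⟨c1, d1⟩ := pair_data hv hA hP1 hr1 h1 hlfl hl hl1
  obtain ⟨c2, d2⟩ := pair_data hv hA hP2 hr2 h2 hlfl hl hl2
  obtain ⟨c3, d3⟩ := pair_data hv hA hP3 hr3 h3 hlfl hl hl3
  have hout : ∀ {P Q R : Finset E}, P ∩ Q = l → P ∩ R = l → Q ∩ R = l → l ⊆ P →
      (univ \ P).card ≤ 4 → 2 ≤ (Q \ l).card → 2 ≤ (R \ l).card →
      (Q \ l).card ≤ 2 ∧ (R \ l).card ≤ 2 ∧ ∀ e, e ∉ P → e ∈ Q \ l ∨ e ∈ R \ l := by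
    intro P Q R hPQ hPR hQR hlP hc hQ hR
    have hsub : (Q \ l) ∪ (R \ l) ⊆ univ \ P := by
      intro e he
      rw [mem_sdiff]
      refine ⟨mem_univ _, fun heP => ?_⟩
      rcases mem_union.1 he with he | he <;> rw [mem_sdiff] at he
      · exact he.2 (by rw [← hPQ]; exact mem_inter.2 ⟨heP, he.1⟩)
      · exact he.2 (by rw [← hPR]; exact mem_inter.2 ⟨heP, he.1⟩)
    have hdis : Disjoint (Q \ l) (R \ l) := by
      rw [disjoint_left]
      intro e he he'
      rw [mem_sdiff] at he he'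
      exact he.2 (by rw [← hQR]; exact mem_inter.2 ⟨he.1, he'.1⟩)
    have h5 := card_union_of_disjoint hdis
    have h6 := card_le_card hsub
    have h7 := eq_of_subset_of_card_le hsub (by omega)
    refine ⟨by omega, by omega, fun e he => ?_⟩
    have : e ∈ univ \ P := mem_sdiff.2 ⟨mem_univ _, he⟩
    rw [← h7] at this
    exact mem_union.1 this
  have k1 : (univ \ P1).card ≤ 4 := Ck hK hv hA (by omega) hP1 (by omega) h1
  have k2 : (univ \ P2).card ≤ 4 := Ck hK hv hA (by omega) hP2 (by omega) h2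
  obtain ⟨g2, g3, hun⟩ := hout i12 i13 i23 hl1 k1 c2 c3
  obtain ⟨g1, -, -⟩ := hout i21 i23 i13 hl2 k2 c1 c3
  obtain ⟨a1, b1, hab1, hX1, hy1⟩ := d1 g1
  obtain ⟨a2, b2, hab2, hX2, hy2⟩ := d2 g2
  obtain ⟨a3, b3, hab3, hX3, hy3⟩ := d3 g3
  have huniv : ∀ e, e ∉ l → e ∈ P1 \ l ∨ e ∈ P2 \ l ∨ e ∈ P3 \ l := by
    intro e he
    by_cases h : e ∈ P1
    · exact Or.inl (mem_sdiff.2 ⟨h, he⟩)
    · exact Or.inr (hun e h)
  have ma1 : a1 ∈ P1 \ l := by rw [hX1]; simp
  have mb1 : b1 ∈ P1 \ l := by rw [hX1]; simp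
  have ma2 : a2 ∈ P2 \ l := by rw [hX2]; simp
  have mb2 : b2 ∈ P2 \ l := by rw [hX2]; simp
  have ma3 : a3 ∈ P3 \ l := by rw [hX3]; simp
  have mb3 : b3 ∈ P3 \ l := by rw [hX3]; simp
  have hpair : ∀ {P : Finset E} {a b : E}, P \ l = {a, b} → a ∉ l →
      (∀ y ∈ l, v b ∉ sp K v {y, a}) → ∀ e ∈ P \ l, ∃ f ∈ P \ l, ∀ y ∈ l, v f ∉ sp K v {e, y} := by
    intro P a b hX ha hy e he
    have hay : ∀ y ∈ l, v a ∉ sp K v {y} := by
      intro y hyl h
      exact ha (hlfl.mem (sp_mono (by simpa using hyl) h))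
    rw [hX] at he
    simp only [mem_insert, mem_singleton] at he
    rcases he with rfl | rfl
    · refine ⟨b, by rw [hX]; simp, fun y hyl h => hy y hyl ?_⟩
      rwa [pair_comm]
    · refine ⟨a, by rw [hX]; simp, fun y hyl h => hy y hyl ?_⟩
      have h5 : v e ∈ sp K v {a, y} := mem_sp_insert_exchange h (hay y hyl)
      rwa [pair_comm]
  have P1' := mem_sdiff.1 ma1
  have P2' := mem_sdiff.1 ma2
  have P3' := mem_sdiff.1 ma3
  have Q1' := mem_sdiff.1 mb1
  have Q2' := mem_sdiff.1 mb2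
  have nt := fun {y y' : E} (hy : y ∈ l) (hy' : y' ∈ l) (hyy' : y ≠ y') {e1 e2 e3 : E}
    (he1 : e1 ∈ P1 \ l) (he2 : e2 ∈ P2 \ l) (he3 : e3 ∈ P3 \ l) =>
    no_transversal hK hv hSG h4 hP1 hP2 hP3 hr1 hr2 hr3 hlfl hl hl1 hl2 hl3 i12 i13 i23 huniv
      (hpair hX1 P1'.2 hy1) (hpair hX2 P2'.2 hy2) (hpair hX3 P3'.2 hy3) hy hy' hyy' he1 he2 he3
  -- a relation modulo the line
  obtain ⟨s1, s2, w, hs1, hs2, hw, hrel⟩ : ∃ (s1 s2 : K) (w : V), s1 ≠ 0 ∧ s2 ≠ 0 ∧
      w ∈ sp K v l ∧ v a3 = s1 • v a1 + s2 • v a2 + w := by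
    have e1 : v a1 ∉ sp K v l := fun h => P1'.2 (hlfl.mem h)
    have e2 : v a2 ∉ sp K v (insert a1 l) := by
      intro h
      have : v a2 ∈ sp K v P1 := sp_mono (insert_subset P1'.1 hl1) h
      exact P2'.2 (by rw [← i12]; exact mem_inter.2 ⟨hP1.mem this, P2'.1⟩)
    have e3 : sp K v (insert a2 (insert a1 l)) = sp K v univ := by
      apply sp_eq_of_subset_of_rk_le (subset_univ _)
      rw [rk_insert_of_not_mem_sp e2, rk_insert_of_not_mem_sp e1, hl, h4]
    have e4 : v a3 ∈ sp K v (insert a2 (insert a1 l)) := by rw [e3]; exact mem_sp (mem_univ _)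
    rw [sp_insert, Submodule.mem_sup] at e4
    obtain ⟨u, hu, u', hu', huu⟩ := e4
    obtain ⟨s2, rfl⟩ := mem_span_singleton.1 hu
    rw [sp_insert, Submodule.mem_sup] at hu'
    obtain ⟨u, hu, w, hw, rfl⟩ := hu'
    obtain ⟨s1, rfl⟩ := mem_span_singleton.1 hu
    refine ⟨s1, s2, w, ?_, ?_, hw, by rw [← huu]; abel⟩
    · rintro rfl
      rw [zero_smul, zero_add] at huu
      have : v a3 ∈ sp K v P2 := by
        rw [← huu]
        exact add_mem (smul_mem _ _ (mem_sp P2'.1)) (sp_mono hl2 hw)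
      exact P3'.2 (by rw [← i23]; exact mem_inter.2 ⟨hP2.mem this, P3'.1⟩)
    · rintro rfl
      rw [zero_smul, zero_add] at huu
      have : v a3 ∈ sp K v P1 := by
        rw [← huu]
        exact add_mem (smul_mem _ _ (mem_sp P1'.1)) (sp_mono hl1 hw)
      exact P3'.2 (by rw [← i13]; exact mem_inter.2 ⟨hP1.mem this, P3'.1⟩)
  obtain ⟨r1, z1, hr1', hz1, hrel1, hz1'⟩ := pair_relation hlfl hl1 hr1 hl P1'.1 Q1'.1 P1'.2 Q1'.2
    hy1 hs1
  obtain ⟨r2, z2, hr2', hz2, hrel2, hz2'⟩ := pair_relation hlfl hl2 hr2 hl P2'.1 Q2'.1 P2'.2 Q2'.2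
    hy2 hs2
  -- coordinates
  have coord : ∀ y ∈ l, ∀ y' ∈ l, y ≠ y' → z1 - z2 ∈ span K {v y} := by
    intro y hy y' hy' hyy'
    have hny : v y' ∉ span K {v y} := fun h => hyy' (hv.2 _ _ h).symm
    obtain ⟨φ, hφ1, hφ0⟩ := CkFour.exists_functional hny
    have hφy : φ (v y) = 0 := hφ0 _ (mem_span_singleton_self _)
    have hsp : sp K v {y, y'} = sp K v l := by
      apply sp_eq_of_subset_of_rk_le
      · intro z hz
        simp only [mem_insert, mem_singleton] at hz
        rcases hz with rfl | rfl <;> assumption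
      · rw [hv.rk_pair hyy', hl]
    have hker : ∀ u ∈ sp K v l, φ u = 0 → u ∈ span K {v y} := by
      intro u hu h0
      rw [← hsp, sp_pair, mem_span_pair] at hu
      obtain ⟨al, be, rfl⟩ := hu
      rw [map_add, map_smul, map_smul, hφy, hφ1, smul_zero, zero_add, smul_eq_mul, mul_one] at h0
      rw [h0, zero_smul, add_zero]
      exact smul_mem _ _ (mem_span_singleton_self _)
    by_contra hcon
    have n1 : φ z1 ≠ 0 := fun h => hz1' y hy (hker z1 hz1 h)
    have n2 : φ z2 ≠ 0 := fun h => hz2' y hy (hker z2 hz2 h)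
    have n12 : φ z1 ≠ φ z2 := fun h => hcon (hker _ (sub_mem hz1 hz2) (by rw [map_sub, h, sub_self]))
    have hmem : ∀ {e1 e2 : E} {t1 t2 : K}, e1 ∈ P1 \ l → e2 ∈ P2 \ l →
        (∃ u ∈ span K {v y}, v a3 = t1 • v e1 + t2 • v e2 + u) → False := by
      rintro e1 e2 t1 t2 he1 he2 ⟨u, hu, hu'⟩
      apply nt hy hy' hyy' he1 he2 ma3
      rw [hu']
      refine add_mem (add_mem (smul_mem _ _ (mem_sp (by simp))) (smul_mem _ _ (mem_sp (by simp)))) ?_
      have : span K {v y} ≤ sp K v {e1, e2, y} := by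
        rw [span_singleton_le_iff_mem]; exact mem_sp (by simp)
      exact this hu
    rcases cover hK n1 n2 n12 (φ (-w)) with h | h | h | h
    · exact hmem ma1 ma2 ⟨w, hker w hw (by rw [map_neg, neg_eq_zero] at h; exact h), hrel⟩
    · refine hmem mb1 ma2 ⟨w - z1, hker _ (sub_mem hw hz1) ?_, ?_⟩ (t1 := r1) (t2 := s2)
      · rw [map_neg] at h; rw [map_sub]; linear_combination -h
      · rw [hrel, hrel1]; abel
    · refine hmem ma1 mb2 ⟨w - z2, hker _ (sub_mem hw hz2) ?_, ?_⟩ (t1 := s1) (t2 := r2)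
      · rw [map_neg] at h; rw [map_sub]; linear_combination -h
      · rw [hrel, hrel2]; abel
    · refine hmem mb1 mb2 ⟨w - z1 - z2, hker _ (sub_mem (sub_mem hw hz1) hz2) ?_, ?_⟩
        (t1 := r1) (t2 := r2)
      · rw [map_neg] at h; rw [map_sub, map_sub]; linear_combination -h
      · rw [hrel, hrel1, hrel2]; abel
  -- two elements of the line
  have hlc : 2 ≤ l.card := by
    by_contra hc
    have := (hv.ind_of_card_le_two (X := l) (by omega)).rk_eq_card
    omega
  obtain ⟨y, y', hy, hy', hyy'⟩ : ∃ y y', y ∈ l ∧ y' ∈ l ∧ y ≠ y' := by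
    obtain ⟨y, hy, y', hy', h⟩ := one_lt_card.1 (by omega : 1 < l.card)
    exact ⟨y, y', hy, hy', h⟩
  have hz : z1 = z2 := by
    have e1 := coord y hy y' hy' hyy'
    have e2 := coord y' hy' y hy hyy'.symm
    obtain ⟨al, hal⟩ := mem_span_singleton.1 e1
    by_cases h0 : al = 0
    · rw [h0, zero_smul] at hal
      exact sub_eq_zero.1 hal.symm
    · exfalso
      apply hyy'
      apply hv.2
      have : v y = al⁻¹ • (z1 - z2) := by rw [← hal, smul_smul, inv_mul_cancel₀ h0, one_smul]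
      rw [this]
      exact smul_mem _ _ e2
  -- the fourth plane
  subst hz
  have hz0 : z1 ≠ 0 := fun h => hz1' y hy (h ▸ zero_mem _)
  have hb2 : v b2 ∈ sp K v {a1, b1, a2} := by
    have : v b2 = r2⁻¹ • (s2 • v a2 + (r1 • v b1 - s1 • v a1)) := by
      have : s2 • v a2 + (r1 • v b1 - s1 • v a1) = r2 • v b2 := by rw [hrel1, hrel2]; abel
      rw [this, smul_smul, inv_mul_cancel₀ hr2', one_smul]
    rw [this]
    exact smul_mem _ _ (add_mem (smul_mem _ _ (mem_sp (by simp))) (sub_mem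
      (smul_mem _ _ (mem_sp (by simp))) (smul_mem _ _ (mem_sp (by simp)))))
  set Φ := cl K v {a1, b1, a2} with hΦ
  have fa1 : a1 ∈ Φ := subset_cl (by simp)
  have fb1 : b1 ∈ Φ := subset_cl (by simp)
  have fa2 : a2 ∈ Φ := subset_cl (by simp)
  have fb2 : b2 ∈ Φ := mem_cl.2 hb2
  have hΦ3 : rk K v Φ ≤ 3 := by
    rw [hΦ, rk_cl]
    exact rk_le_card.trans (card_le_three (a := a1) (b := b1) (c := a2))
  have m3 := M3 hSG hP1 hP2 (isFl_cl (X := {a1, b1, a2}) (K := K) (v := v)) (empty_subset _)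
    (empty_subset _) (empty_subset _) (subset_univ _)
  rw [← hΦ] at m3
  have u4 : rk K v (P1 ∪ P2 ∪ Φ) = 4 := by
    have e1 : rk K v (P1 ∪ P2) ≤ rk K v (P1 ∪ P2 ∪ Φ) := rk_mono subset_union_left
    have e2 : rk K v (P1 ∪ P2 ∪ Φ) ≤ 4 := h4 ▸ rk_mono (subset_univ _)
    have e3 : ¬ rk K v (P1 ∪ P2) ≤ 3 := by
      intro h
      have e1 := hP1.eq_of_subset_of_rk_le (G := P1 ∪ P2) subset_union_left (by omega)
      have e2 := hP2.eq_of_subset_of_rk_le (G := P1 ∪ P2) subset_union_right (by omega)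
      exact h12 (e1.trans e2.symm)
    omega
  have v1 : 2 ≤ rk K v (P1 ∩ Φ) := by
    rw [← hv.rk_pair hab1]
    apply rk_mono
    intro z hz
    simp only [mem_insert, mem_singleton] at hz
    rcases hz with rfl | rfl
    · exact mem_inter.2 ⟨P1'.1, fa1⟩
    · exact mem_inter.2 ⟨Q1'.1, fb1⟩
  have v2 : 2 ≤ rk K v (P2 ∩ Φ) := by
    rw [← hv.rk_pair hab2]
    apply rk_mono
    intro z hz
    simp only [mem_insert, mem_singleton] at hz
    rcases hz with rfl | rfl
    · exact mem_inter.2 ⟨P2'.1, fa2⟩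
    · exact mem_inter.2 ⟨Q2'.1, fb2⟩
  have v3 : 1 ≤ rk K v (P1 ∩ P2 ∩ Φ) := by
    rw [u4, hr1, hr2] at m3
    have : rk K v (P1 ∩ P2) = 2 := by rw [i12, hl]
    omega
  obtain ⟨x, hx⟩ : (P1 ∩ P2 ∩ Φ).Nonempty := by
    rw [nonempty_iff_ne_empty]
    intro h
    rw [h, rk_empty] at v3
    omega
  rw [mem_inter, i12] at hx
  obtain ⟨hxl, hxΦ⟩ := hx
  have hxs : v x ∈ sp K v {a2, a1, b1} := by
    have := mem_cl.1 hxΦ
    refine sp_mono ?_ this
    intro z hz
    simp only [mem_insert, mem_singleton] at hz ⊢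
    tauto
  rw [sp_insert, Submodule.mem_sup] at hxs
  obtain ⟨u, hu, u', hu', huu⟩ := hxs
  obtain ⟨ga, rfl⟩ := mem_span_singleton.1 hu
  have hu'1 : u' ∈ sp K v P1 := by
    refine sp_mono ?_ hu'
    intro z hz
    simp only [mem_insert, mem_singleton] at hz
    rcases hz with rfl | rfl
    · exact P1'.1
    · exact Q1'.1
  have hga : ga = 0 := by
    by_contra h0
    have : v a2 ∈ sp K v P1 := by
      have e : v a2 = ga⁻¹ • (v x - u') := by
        rw [← huu, add_sub_cancel_right, smul_smul, inv_mul_cancel₀ h0, one_smul]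
      rw [e]
      exact smul_mem _ _ (sub_mem (mem_sp (hl1 hxl)) hu'1)
    exact P2'.2 (by rw [← i12]; exact mem_inter.2 ⟨hP1.mem this, P2'.1⟩)
  rw [hga, zero_smul, zero_add] at huu
  rw [sp_pair, mem_span_pair] at hu'
  obtain ⟨al, be, hab⟩ := hu'
  have hb1' : v b1 = r1⁻¹ • (s1 • v a1 + z1) := by
    rw [← hrel1, smul_smul, inv_mul_cancel₀ hr1', one_smul]
  have hx' : v x = (al + be * r1⁻¹ * s1) • v a1 + (be * r1⁻¹) • z1 := by
    rw [← huu, ← hab, hb1']
    module
  have hal : al + be * r1⁻¹ * s1 = 0 := by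
    by_contra h0
    apply P1'.2
    apply hlfl.mem
    have e : v a1 = (al + be * r1⁻¹ * s1)⁻¹ • (v x - (be * r1⁻¹) • z1) := by
      rw [hx', add_sub_cancel_right, smul_smul, inv_mul_cancel₀ h0, one_smul]
    rw [e]
    exact smul_mem _ _ (sub_mem (mem_sp hxl) (smul_mem _ _ hz1))
  rw [hal, zero_smul, zero_add] at hx'
  have hbe : be * r1⁻¹ ≠ 0 := by
    intro h
    rw [h, zero_smul] at hx'
    exact hv.1 x hx'
  apply hz1' x hxl
  rw [mem_span_singleton]
  exact ⟨(be * r1⁻¹)⁻¹, by rw [hx', smul_smul, inv_mul_cancel₀ hbe, one_smul]⟩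

end Ca3
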