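import Pool.Agent.Lib.MP_ca3eb1_co.ThmTDefs

/-! # Theorem T, part 1: colour change

A coloured set shares an independent set of size `rk univ - 2` with a set of another colour. -/

set_option linter.unusedSectionVars false

namespace Ca3

open Finset Submodule

variable {K V E : Type*} [Field K] [Fintype K] [AddCommGroup V] [Module K V]
  [FiniteDimensional K V] [Fintype E] [DecidableEq E] {v : E → V} {a b : E}

theorem adj_two (hK : Fintype.card K = 4) : (2 : K) = 0 := by
  have h1 : ((Fintype.card K : ℕ) : K) = 0 := Nat.cast_card_eq_zero K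
  rw [hK] at h1
  have h2 : (2 : K) * 2 = 0 := by
    have : ((4 : ℕ) : K) = 2 * 2 := by norm_num
    rw [← this]; exact h1
  rcases mul_eq_zero.1 h2 with h | h <;> exact h

theorem adj_neg (hK : Fintype.card K = 4) (x : K) : -x = x := by
  have h := adj_two hK
  have h2 : x + x = 0 := by rw [← two_mul, h, zero_mul]
  exact (eq_neg_of_add_eq_zero_left h2).symm

theorem adj_sum_sq (hK : Fintype.card K = 4) {ι : Type*} (s : Finset ι) (f : ι → K) :
    (∑ i ∈ s, f i) ^ 2 = ∑ i ∈ s, f i ^ 2 := by
  classical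
  induction s using Finset.induction_on with
  | empty => simp
  | insert i s hi ih =>
    rw [sum_insert hi, sum_insert hi, ← ih]
    have h := adj_two hK
    linear_combination (f i * ∑ j ∈ s, f j) * h

/-- dual functionals of an independent set -/
theorem exists_dual {B : Finset E} (hB : Ind K v B) :
    ∃ δ : E → (V →ₗ[K] K), ∀ e ∈ B, ∀ f ∈ B, δ e (v f) = if e = f then 1 else 0 := by
  have key : ∀ e : E, ∃ d : V →ₗ[K] K, e ∈ B → ∀ f ∈ B, d (v f) = if e = f then 1 else 0 := by
    intro e
    by_cases he : e ∈ B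
    · obtain ⟨g, hg, hg'⟩ := exists_dual_map_eq_bot_of_notMem (hB.not_mem_sp_erase he)
        inferInstance
      refine ⟨(g (v e))⁻¹ • g, fun _ f hf => ?_⟩
      by_cases hef : e = f
      · subst hef
        rw [if_pos rfl, LinearMap.smul_apply, smul_eq_mul, inv_mul_cancel₀ hg]
      · rw [if_neg hef, LinearMap.smul_apply]
        have h1 : v f ∈ sp K v (B.erase e) := mem_sp (mem_erase.2 ⟨Ne.symm hef, hf⟩)
        have h2 : g (v f) ∈ (sp K v (B.erase e)).map g := mem_map_of_mem h1
        rw [hg'] at h2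
        rw [(Submodule.mem_bot K).1 h2, smul_zero]
    · exact ⟨0, fun h => absurd h he⟩
  choose δ hδ using key
  exact ⟨δ, fun e he => hδ e he⟩

theorem dual_expand {B : Finset E} {δ : E → (V →ₗ[K] K)}
    (hδ : ∀ e ∈ B, ∀ f ∈ B, δ e (v f) = if e = f then 1 else 0) {w : V}
    (hw : w ∈ sp K v B) : w = ∑ e ∈ B, δ e w • v e := by
  have h1 : sp K v B ≤ LinearMap.ker
      (LinearMap.id - ∑ e ∈ B, (δ e).smulRight (v e)) := by
    rw [sp_le_iff]
    intro f hf
    rw [LinearMap.mem_ker, LinearMap.sub_apply, LinearMap.id_apply, LinearMap.sum_apply,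
      sub_eq_zero]
    rw [sum_eq_single f]
    · rw [LinearMap.smulRight_apply, hδ f hf f hf, if_pos rfl, one_smul]
    · intro e he hne
      rw [LinearMap.smulRight_apply, hδ e he f hf, if_neg hne, zero_smul]
    · intro h; exact absurd hf h
  have h2 := h1 hw
  rw [LinearMap.mem_ker, LinearMap.sub_apply, LinearMap.id_apply, LinearMap.sum_apply,
    sub_eq_zero] at h2
  calc w = ∑ e ∈ B, ((δ e).smulRight (v e)) w := h2
    _ = ∑ e ∈ B, δ e w • v e := by simp only [LinearMap.smulRight_apply]

/-- an independent subset of a coloured set extends to an independent set of the same colour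
spanning a hyperplane -/
theorem Col.extend {c : K} {F Z : Finset E} (hF : Ind K v F) (hFZ : F ⊆ Z)
    (hZ : Col K v a b c Z) : ∃ I, F ⊆ I ∧ a ∉ I ∧ Ind K v (insert a I) ∧
      (insert a I).card = rk K v univ ∧ Col K v a b c I := by
  obtain ⟨J, hFJ, hJZ, hJ, hs⟩ := exists_basis_extend hF hFZ
  have ha : v a ∉ sp K v J := by rw [hs]; exact hZ.2
  have haJ : a ∉ J := fun h => ha (mem_sp h)
  obtain ⟨B, hJB, -, hB, hs'⟩ := exists_basis_extend (hJ.insert ha) (subset_univ _)
  have haB : a ∈ B := hJB (mem_insert_self _ _)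
  refine ⟨B.erase a, ?_, notMem_erase _ _, ?_, ?_, ?_, ?_⟩
  · intro f hf
    exact mem_erase.2 ⟨fun h => haJ (h ▸ hFJ hf), hJB (mem_insert_of_mem (hFJ hf))⟩
  · rw [insert_erase haB]; exact hB
  · rw [insert_erase haB, ← hB.rk_eq_card]; exact rk_congr hs'
  · have h1 : J ⊆ B.erase a := fun f hf =>
      mem_erase.2 ⟨fun h => haJ (h ▸ hf), hJB (mem_insert_of_mem hf)⟩
    exact sp_mono h1 (by rw [hs]; exact hZ.1)
  · exact hB.not_mem_sp_erase haB

/-- the pencil argument: exchanging `x` for `h` gives a coloured set -/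
theorem adj_exchange (hK : Fintype.card K = 4) {c1 : K} (h1 : c1 ≠ 0) {I : Finset E}
    (haI : a ∉ I) (hI : Ind K v (insert a I)) (hcard : (insert a I).card = rk K v univ)
    (hcol : Col K v a b c1 I) {δ : E → (V →ₗ[K] K)}
    (hδ : ∀ e ∈ insert a I, ∀ f ∈ insert a I, δ e (v f) = if e = f then 1 else 0)
    {x h : E} (hx : x ∈ I) (hne : δ x (v h) ≠ 0)
    (hne' : δ x (v h) ≠ δ a (v h) * δ x (v a + c1 • v b)) :
    ∃ c', c' ≠ 0 ∧ Col K v a b c' (insert h (I.erase x)) := by
  classical
  set β := δ x (v h) with hβ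
  set α := δ a (v h) with hα
  set γ := δ x (v a + c1 • v b) with hγ
  have hxa : x ≠ a := fun hh => haI (hh ▸ hx)
  have hspan : ∀ w, w ∈ sp K v univ → w ∈ sp K v (insert a I) := by
    intro w hw
    have := sp_eq_of_subset_of_rk_le (K := K) (v := v) (subset_univ (insert a I))
      (by rw [hI.rk_eq_card, hcard])
    rw [this]; exact hw
  -- the value of `δ x` vanishes on the span of `I.erase x` and `a`
  have hker : sp K v (insert a (I.erase x)) ≤ LinearMap.ker (δ x) := by
    rw [sp_le_iff]
    intro f hf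
    rw [LinearMap.mem_ker]
    rcases mem_insert.1 hf with rfl | hf
    · rw [hδ x (mem_insert_of_mem hx) f (mem_insert_self _ _), if_neg hxa]
    · rw [hδ x (mem_insert_of_mem hx) f (mem_insert_of_mem (mem_of_mem_erase hf)),
        if_neg (ne_of_mem_erase hf).symm]
  have hexp : ∀ w, w ∈ sp K v univ → w - δ a w • v a - δ x w • v x ∈ sp K v (I.erase x) := by
    intro w hw
    have e1 := dual_expand hδ (hspan w hw)
    rw [sum_insert haI, ← add_sum_erase _ _ hx] at e1
    have e2 : w - δ a w • v a - δ x w • v x = ∑ e ∈ I.erase x, δ e w • v e := by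
      nth_rewrite 1 [e1]
      abel
    rw [e2]
    exact sum_mem fun e he => smul_mem _ _ (mem_sp he)
  have hh := hexp (v h) (mem_sp (mem_univ _))
  rw [← hα, ← hβ] at hh
  have hq1 : v a + c1 • v b ∈ sp K v I := hcol.1
  have hq := hexp (v a + c1 • v b) (sp_mono (subset_univ I) hq1)
  have hqa : δ a (v a + c1 • v b) = 0 := by
    have h2 : sp K v I ≤ LinearMap.ker (δ a) := by
      rw [sp_le_iff]
      intro f hf
      rw [LinearMap.mem_ker, hδ a (mem_insert_self _ _) f (mem_insert_of_mem hf),
        if_neg (fun hh : a = f => haI (hh ▸ hf))]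
    exact LinearMap.mem_ker.1 (h2 hq1)
  rw [hqa, zero_smul, sub_zero, ← hγ] at hq
  -- the colour
  have hden : β + γ * α ≠ 0 := by
    intro h0
    apply hne'
    have : β = -(γ * α) := eq_neg_of_add_eq_zero_left h0
    rw [adj_neg hK] at this
    rw [this, mul_comm]
  set t := β / (β + γ * α) with ht
  have ht0 : t ≠ 0 := div_ne_zero hne hden
  refine ⟨c1 * t, mul_ne_zero h1 ht0, ?_, ?_⟩
  · -- `v a + (c1 t) v b = (1 - t) v a + t q1`
    have e1 : v a + (c1 * t) • v b = (t * γ * β⁻¹) • v h +
        (t • ((v a + c1 • v b) - γ • v x) - (t * γ * β⁻¹) • (v h - α • v a - β • v x)) := by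
      have e2 : t * (β + γ * α) = β := by rw [ht]; field_simp
      have e3 : 1 - t = t * γ * β⁻¹ * α := by
        field_simp
        linear_combination -e2
      have e4 : t * γ * β⁻¹ * β = t * γ := by field_simp
      have e5 : v a = t • v a + (t * γ * β⁻¹ * α) • v a := by
        rw [← e3, ← add_smul]; simp
      have e6 : (t * γ * β⁻¹) • (v h - α • v a - β • v x) = (t * γ * β⁻¹) • v h -
          (t * γ * β⁻¹ * α) • v a - (t * γ) • v x := by
        rw [smul_sub, smul_sub, smul_smul, smul_smul, e4]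
      rw [e6]
      nth_rewrite 1 [e5]
      rw [smul_sub, smul_add, smul_smul, smul_smul, mul_comm c1 t]
      abel
    rw [e1]
    refine add_mem (smul_mem _ _ (mem_sp (mem_insert_self _ _))) (sub_mem ?_ ?_)
    · exact smul_mem _ _ (sp_mono (subset_insert _ _) hq)
    · exact smul_mem _ _ (sp_mono (subset_insert _ _) hh)
  · intro ha
    have h2 : v a ∉ sp K v (I.erase x) := fun hh' => hcol.2 (sp_mono (erase_subset _ _) hh')
    have h3 := mem_sp_insert_exchange ha h2
    exact hne (LinearMap.mem_ker.1 (hker h3))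

/-- COLOUR CHANGE -/
theorem colour_change (hK : Fintype.card K = 4) {c1 c2 : K} (h1 : c1 ≠ 0) (h2 : c2 ≠ 0)
    (h12 : c2 ≠ c1) {Z1 Z2 : Finset E} (hZ1 : Col K v a b c1 Z1) (hZ2 : Col K v a b c2 Z2) :
    ∃ (F : Finset E) (y y' : E) (c : K), c ≠ 0 ∧ c ≠ c1 ∧ F.card + 2 = rk K v univ ∧
      y ∉ F ∧ y' ∉ F ∧ Ind K v (insert y F) ∧ Ind K v (insert y' F) ∧
      Col K v a b c1 (insert y F) ∧ Col K v a b c (insert y' F) := by
  classical
  let P : Finset E → Prop := fun F => Ind K v F ∧ (∃ Z, F ⊆ Z ∧ Col K v a b c1 Z) ∧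
    ∃ Z c, F ⊆ Z ∧ c ≠ 0 ∧ c ≠ c1 ∧ Col K v a b c Z
  obtain ⟨F, hF⟩ := (univ.filter (fun F => P F)).exists_max_image card
    ⟨∅, mem_filter.2 ⟨mem_univ _, ind_empty, ⟨Z1, empty_subset _, hZ1⟩,
      Z2, c2, empty_subset _, h2, h12, hZ2⟩⟩
  obtain ⟨hFP, hmax'⟩ := hF
  have hmax : ∀ G, P G → G.card ≤ F.card := fun G hG =>
    hmax' G (mem_filter.2 ⟨mem_univ _, hG⟩)
  obtain ⟨-, hFi, ⟨Y1, hFY1, hY1⟩, Y2, c, hFY2, hc0, hcc, hY2⟩ := mem_filter.1 hFP
  obtain ⟨I, hFI, haI, hI, hcard, hcol⟩ := hY1.extend hFi hFY1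
  obtain ⟨J, hFJ, haJ, hJ, hcardJ, hcolJ⟩ := hY2.extend hFi hFY2
  have hcI : I.card + 1 = rk K v univ := by rw [← hcard, card_insert_of_notMem haI]
  have hcJ : J.card + 1 = rk K v univ := by rw [← hcardJ, card_insert_of_notMem haJ]
  have hiI : Ind K v I := hI.subset (subset_insert _ _)
  have hiJ : Ind K v J := hJ.subset (subset_insert _ _)
  -- upper bound
  have hle : F.card + 2 ≤ rk K v univ := by
    by_contra hcon
    have e1 : F = I := eq_of_subset_of_card_le hFI (by omega)
    have e2 : F = J := eq_of_subset_of_card_le hFJ (by omega)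
    have q1 : v a + c1 • v b ∈ sp K v F := by rw [e1]; exact hcol.1
    have q2 : v a + c • v b ∈ sp K v F := by rw [e2]; exact hcolJ.1
    have hb : (c1 - c) • v b ∈ sp K v F := by
      have : (c1 - c) • v b = (v a + c1 • v b) - (v a + c • v b) := by
        rw [sub_smul]; abel
      rw [this]; exact sub_mem q1 q2
    have hb' : v b ∈ sp K v F := by
      have h3 : c1 - c ≠ 0 := sub_ne_zero.2 (Ne.symm hcc)
      have := smul_mem _ (c1 - c)⁻¹ hb
      rwa [smul_smul, inv_mul_cancel₀ h3, one_smul] at this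
    apply hcol.2
    rw [← e1]
    have : v a = (v a + c1 • v b) - c1 • v b := by abel
    rw [this]
    exact sub_mem q1 (smul_mem _ _ hb')
  rcases Nat.lt_or_ge (F.card + 2) (rk K v univ) with hlt | hge
  · exfalso
    obtain ⟨δ, hδ⟩ := exists_dual hI
    -- functional for `Y2`
    obtain ⟨g, hg, hg'⟩ := exists_dual_map_eq_bot_of_notMem hcolJ.2 inferInstance
    set φ : V →ₗ[K] K := (g (v a))⁻¹ • g with hφ
    have hφa : φ (v a) = 1 := by
      rw [hφ, LinearMap.smul_apply, smul_eq_mul, inv_mul_cancel₀ hg]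
    have hφJ : ∀ w ∈ sp K v J, φ w = 0 := by
      intro w hw
      have h3 : g w ∈ (sp K v J).map g := mem_map_of_mem hw
      rw [hg'] at h3
      rw [hφ, LinearMap.smul_apply, (Submodule.mem_bot K).1 h3, smul_zero]
    set q1 : V := v a + c1 • v b with hq1
    set ψ : V →ₗ[K] K := δ a + ∑ x ∈ I \ F, (δ x q1 * φ (v x) ^ 2) • δ x with hψ
    have hspan : ∀ w, w ∈ sp K v univ → w ∈ sp K v (insert a I) := by
      intro w hw
      have := sp_eq_of_subset_of_rk_le (K := K) (v := v) (subset_univ (insert a I))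
        (by rw [hI.rk_eq_card, hcard])
      rw [this]; exact hw
    have hψw : ∀ w, ψ w = δ a w + ∑ x ∈ I \ F, (δ x q1 * φ (v x) ^ 2) * δ x w := by
      intro w
      rw [hψ, LinearMap.add_apply, LinearMap.sum_apply]
      simp only [LinearMap.smul_apply, smul_eq_mul]
    have hφw : ∀ w, w ∈ sp K v univ → φ w = δ a w + ∑ x ∈ I \ F, δ x w * φ (v x) := by
      intro w hw
      have e1 := dual_expand hδ (hspan w hw)
      rw [sum_insert haI, ← sum_sdiff hFI] at e1
      have e2 : φ w = φ (δ a w • v a + (∑ x ∈ I \ F, δ x w • v x + ∑ x ∈ F, δ x w • v x)) := by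
        rw [← e1]
      rw [e2]
      simp only [map_add, map_sum, map_smul, smul_eq_mul, hφa, mul_one]
      have e3 : ∑ x ∈ F, δ x w * φ (v x) = 0 := by
        apply sum_eq_zero
        intro x hx
        rw [hφJ _ (mem_sp (hFJ hx)), mul_zero]
      rw [e3, add_zero]
    -- `ψ` vanishes on `J`
    have hψJ : ∀ h ∈ J, ψ (v h) = 0 := by
      intro h hh
      have hrel : ∀ x ∈ I \ F, δ x (v h) ^ 2 = δ x (v h) * (δ a (v h) * δ x q1) := by
        intro x hx
        rw [mem_sdiff] at hx
        by_contra hcon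
        have hne : δ x (v h) ≠ 0 := by
          intro h0; rw [h0] at hcon; exact hcon (by ring)
        have hne' : δ x (v h) ≠ δ a (v h) * δ x q1 := by
          intro h0
          apply hcon
          rw [sq]
          nth_rewrite 2 [h0]
          rfl
        obtain ⟨c', hc', hcol'⟩ := adj_exchange hK h1 haI hI hcard hcol hδ hx.1 hne hne'
        have hFx : F ⊆ I.erase x := fun f hf => mem_erase.2 ⟨fun hh' => hx.2 (hh' ▸ hf), hFI hf⟩
        by_cases hcc' : c' = c1
        · -- `insert h F`
          have hhF : v h ∉ sp K v F := by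
            intro h3
            apply hne
            have h4 : sp K v F ≤ LinearMap.ker (δ x) := by
              rw [sp_le_iff]
              intro f hf
              rw [LinearMap.mem_ker, hδ x (mem_insert_of_mem hx.1) f
                (mem_insert_of_mem (hFI hf)), if_neg (fun hh' : x = f => hx.2 (hh' ▸ hf))]
            exact LinearMap.mem_ker.1 (h4 h3)
          have h5 := hmax (insert h F) ⟨hFi.insert hhF,
            ⟨_, insert_subset_insert h hFx, hcc' ▸ hcol'⟩,
            J, c, insert_subset hh hFJ, hc0, hcc, hcolJ⟩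
          rw [card_insert_of_notMem (fun h' => hhF (mem_sp h'))] at h5
          omega
        · have h5 := hmax (I.erase x) ⟨hiI.subset (erase_subset _ _),
            ⟨I, erase_subset _ _, hcol⟩, _, c', subset_insert h _, hc', hcc', hcol'⟩
          rw [card_erase_of_mem hx.1] at h5
          omega
      have hmul : δ a (v h) * ψ (v h) = 0 := by
        have e1 : φ (v h) ^ 2 = 0 := by rw [hφJ _ (mem_sp hh)]; ring
        rw [hφw _ (mem_sp (mem_univ _))] at e1
        have e2 : (δ a (v h) + ∑ x ∈ I \ F, δ x (v h) * φ (v x)) ^ 2 =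
            δ a (v h) ^ 2 + ∑ x ∈ I \ F, (δ x (v h) * φ (v x)) ^ 2 := by
          rw [← adj_sum_sq hK]
          linear_combination (δ a (v h) * ∑ x ∈ I \ F, δ x (v h) * φ (v x)) * adj_two hK
        rw [e2] at e1
        rw [hψw, mul_add, mul_sum, ← e1, sq]
        congr 1
        apply sum_congr rfl
        intro x hx
        rw [mul_pow, hrel x hx]
        ring
      rcases mul_eq_zero.1 hmul with h0 | h0
      · rw [hψw, h0, zero_add]
        apply sum_eq_zero
        intro x hx
        have h3 := hrel x hx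
        rw [h0, zero_mul, mul_zero] at h3
        rw [pow_eq_zero_iff (by norm_num) |>.1 h3, mul_zero]
      · exact h0
    have hψJ' : ∀ w ∈ sp K v J, ψ w = 0 := by
      intro w hw
      have h3 : sp K v J ≤ LinearMap.ker ψ := by
        rw [sp_le_iff]
        intro f hf
        rw [LinearMap.mem_ker]; exact hψJ f hf
      exact LinearMap.mem_ker.1 (h3 hw)
    have haB : a ∈ insert a I := mem_insert_self _ _
    have hψa : ψ (v a) = 1 := by
      rw [hψw, hδ a haB a haB, if_pos rfl, sum_eq_zero, add_zero]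
      intro x hx
      rw [mem_sdiff] at hx
      rw [hδ x (mem_insert_of_mem hx.1) a haB, if_neg (fun hh : x = a => haI (hh ▸ hx.1)), mul_zero]
    -- `φ` and `ψ` agree at `b`
    have hcb : c * φ (v b) = c * ψ (v b) := by
      have e1 := hφJ _ hcolJ.1
      have e2 := hψJ' _ hcolJ.1
      rw [map_add, map_smul, smul_eq_mul] at e1 e2
      rw [hφa] at e1
      rw [hψa] at e2
      linear_combination e1 - e2
    have hb' : φ (v b) = ψ (v b) := mul_left_cancel₀ hc0 hcb
    have hq : φ q1 = ψ q1 := by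
      rw [hq1, map_add, map_add, map_smul, map_smul, hφa, hψa, hb']
    have hq1I : q1 ∈ sp K v I := hcol.1
    have hδa : δ a q1 = 0 := by
      have h3 : sp K v I ≤ LinearMap.ker (δ a) := by
        rw [sp_le_iff]
        intro f hf
        rw [LinearMap.mem_ker, hδ a haB f (mem_insert_of_mem hf),
          if_neg (fun hh : a = f => haI (hh ▸ hf))]
      exact LinearMap.mem_ker.1 (h3 hq1I)
    have hsq : ψ q1 = φ q1 ^ 2 := by
      rw [hψw, hφw q1 (sp_mono (subset_univ I) hq1I), hδa, zero_add, zero_add, adj_sum_sq hK]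
      apply sum_congr rfl
      intro x _
      ring
    rw [← hq] at hsq
    -- `φ q1 = 1 + c1 / c`
    have e1 := hφJ _ hcolJ.1
    rw [map_add, map_smul, smul_eq_mul, hφa] at e1
    have e2 : φ q1 = 1 + c1 * φ (v b) := by
      rw [hq1, map_add, map_smul, smul_eq_mul, hφa]
    have h01 : φ q1 = 0 ∨ φ q1 = 1 := by
      have : φ q1 * (φ q1 - 1) = 0 := by linear_combination -hsq
      rcases mul_eq_zero.1 this with h | h
      · exact Or.inl h
      · exact Or.inr (sub_eq_zero.1 h)
    rcases h01 with h | h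
    · -- `c1 = c`
      apply hcc
      rw [e2] at h
      have h3 : (c - c1) * φ (v b) = 0 := by linear_combination e1 - h
      rcases mul_eq_zero.1 h3 with h4 | h4
      · exact sub_eq_zero.1 h4
      · rw [h4, mul_zero, add_zero] at e1
        exact absurd e1 one_ne_zero
    · rw [e2] at h
      have h3 : c1 * φ (v b) = 0 := by linear_combination h
      rcases mul_eq_zero.1 h3 with h4 | h4
      · exact h1 h4
      · rw [h4, mul_zero, add_zero] at e1
        exact absurd e1 one_ne_zero
  · -- the hyperline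
    have hcF : F.card + 2 = rk K v univ := by omega
    have hone : ∀ G : Finset E, F ⊆ G → G.card = F.card + 1 → ∃ y, y ∉ F ∧ insert y F = G := by
      intro G hFG hG
      have e1 := card_sdiff_add_card_eq_card hFG
      obtain ⟨y, hy⟩ := card_eq_one.1 (by omega : (G \ F).card = 1)
      have hyG : y ∈ G \ F := by rw [hy]; exact mem_singleton_self _
      refine ⟨y, (mem_sdiff.1 hyG).2, ?_⟩
      rw [insert_eq, ← hy, sdiff_union_of_subset hFG]
    obtain ⟨y, hyF, hy⟩ := hone I hFI (by omega)
    obtain ⟨y', hyF', hy'⟩ := hone J hFJ (by omega)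
    refine ⟨F, y, y', c, hc0, hcc, hcF, hyF, hyF', ?_, ?_, ?_, ?_⟩
    · rw [hy]; exact hiI
    · rw [hy']; exact hiJ
    · rw [hy]; exact hcol
    · rw [hy']; exact hcolJ

end Ca3
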