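import Pool.Agent.Lib.MP_ca3eb1_co.ThmTCore
import Pool.Agent.Lib.MP_ca3eb1_co.ThmTAdj

/-! # Theorem T: the three-colour lemma in rank at least four -/

set_option linter.unusedSectionVars false

namespace Ca3

open Finset Submodule

section sub

variable {K V E : Type*} [Field K] [AddCommGroup V] [Module K V]

theorem mem_sp_sub {v : E → V} {W : Submodule K V} (hW : ∀ e, v e ∈ W) (Z : Finset E) (w : W) :
    w ∈ sp K (fun e => (⟨v e, hW e⟩ : W)) Z ↔ (w : V) ∈ sp K v Z := by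
  have h1 : (sp K (fun e => (⟨v e, hW e⟩ : W)) Z).map W.subtype = sp K v Z := by
    unfold sp
    rw [Submodule.map_span, ← Set.image_comp]
    rfl
  rw [← h1]
  constructor
  · intro h
    exact mem_map_of_mem h
  · rintro ⟨w', hw', h⟩
    have : w' = w := Subtype.ext h
    rwa [← this]

theorem col_sub {v : E → V} {W : Submodule K V} (hW : ∀ e, v e ∈ W) {a b : E} {c : K}
    {Z : Finset E} : Col K (fun e => (⟨v e, hW e⟩ : W)) a b c Z ↔ Col K v a b c Z := by
  unfold Col
  rw [mem_sp_sub hW, mem_sp_sub hW]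
  rfl

/-- a nonzero element on the line has at most one colour -/
theorem col_line_unique {v : E → V} {a b x : E} {c c' : K} {Z Z' : Finset E}
    (hZ : Col K v a b c Z) (hZ' : Col K v a b c' Z') (hx : x ∈ Z) (hx' : x ∈ Z')
    (h : ∃ r s : K, r • v a + s • v b = v x) (hx0 : v x ≠ 0) : c = c' := by
  obtain ⟨r, s, hrs⟩ := h
  have key : ∀ d : K, ∀ W : Finset E, Col K v a b d W → v x ∈ sp K v W → d * r = s := by
    intro d W hW hxW
    by_contra hne
    apply hW.2
    have e1 : (d * r - s) • v a ∈ sp K v W := by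
      have : (d * r - s) • v a = d • v x - s • (v a + d • v b) := by
        rw [← hrs, smul_add, smul_smul, smul_smul, smul_add, smul_smul, sub_smul, mul_comm s d]
        abel
      rw [this]
      exact sub_mem (smul_mem _ _ hxW) (smul_mem _ _ hW.1)
    have := smul_mem _ (d * r - s)⁻¹ e1
    rwa [smul_smul, inv_mul_cancel₀ (sub_ne_zero.2 hne), one_smul] at this
  have e1 := key c Z hZ (subset_span ⟨x, hx, rfl⟩)
  have e2 := key c' Z' hZ' (subset_span ⟨x, hx', rfl⟩)
  by_contra hcc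
  have e3 : (c - c') * r = 0 := by linear_combination e1 - e2
  rcases mul_eq_zero.1 e3 with h | h
  · exact hcc (sub_eq_zero.1 h)
  · rw [h, mul_zero] at e1
    apply hx0
    rw [← hrs, h, ← e1, zero_smul, zero_smul, add_zero]

end sub

variable {K V E : Type*} [Field K] [Fintype K] [AddCommGroup V] [Module K V]
  [FiniteDimensional K V] [Fintype E] [DecidableEq E] {v : E → V} {a b : E}

/-- If all three colours occur and the rank is at least four then some element off the line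
through `v a` and `v b` lies in sets of all three colours. -/
theorem three_colour (hK : Fintype.card K = 4) (hab : rk K v {a, b} = 2)
    (h4 : 4 ≤ rk K v univ) (hc : ∀ c : K, c ≠ 0 → ∃ Z, Col K v a b c Z) :
    ∃ x, v x ∉ sp K v {a, b} ∧ ∀ c : K, c ≠ 0 → ∃ Z, x ∈ Z ∧ Col K v a b c Z := by
  classical
  by_contra hno
  push Not at hno
  obtain ⟨p, q, r, hp, hq, hr, hpq, hpr, hqr⟩ := exists_of_card_four hK
  have hall : ∀ x : K, x ≠ 0 → x = p ∨ x = q ∨ x = r := fun x hx =>
    mem_of_card_four hK hp hq hr hpq hpr hqr hx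
  -- every nonzero element misses a colour
  have m : ∀ x, v x ≠ 0 → ∃ c : K, c ≠ 0 ∧ ∀ Z, x ∈ Z → ¬ Col K v a b c Z := by
    intro x hx0
    by_cases hx : v x ∈ sp K v {a, b}
    · by_contra hcon
      push Not at hcon
      obtain ⟨Z, hxZ, hZ⟩ := hcon p hp
      obtain ⟨Z', hxZ', hZ'⟩ := hcon q hq
      rw [sp_pair, mem_span_pair] at hx
      exact hpq (col_line_unique hZ hZ' hxZ hxZ' hx hx0)
    · exact hno x hx
  -- adjacency of colours
  let adj : K → K → Prop := fun c c' => ∃ (F : Finset E) (y y' : E),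
    F.card + 2 = rk K v univ ∧ y ∉ F ∧ y' ∉ F ∧ Ind K v (insert y F) ∧ Ind K v (insert y' F) ∧
      Col K v a b c (insert y F) ∧ Col K v a b c' (insert y' F)
  have hex : ∀ c : K, c ≠ 0 → ∃ c', c' ≠ 0 ∧ c' ≠ c ∧ adj c c' := by
    intro c hc0
    obtain ⟨c2, hc2, hcc⟩ : ∃ c2 : K, c2 ≠ 0 ∧ c2 ≠ c := by
      by_cases h : p = c
      · exact ⟨q, hq, fun h' => hpq (h.trans h'.symm)⟩
      · exact ⟨p, hp, h⟩
    obtain ⟨Z1, hZ1⟩ := hc c hc0
    obtain ⟨Z2, hZ2⟩ := hc c2 hc2
    obtain ⟨F, y, y', c', h1, h2, h3, h5, h6, h7, h8, h9, h10⟩ :=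
      colour_change hK hc0 hc2 hcc hZ1 hZ2
    exact ⟨c', h1, h2, F, y, y', h3, h5, h6, h7, h8, h9, h10⟩
  have hsymm : ∀ c c', adj c c' → adj c' c := by
    rintro c c' ⟨F, y, y', h1, h2, h3, h4, h5, h6, h7⟩
    exact ⟨F, y', y, h1, h3, h2, h5, h4, h7, h6⟩
  -- the middle colour
  have hmid : ∃ c1 c2 c3 : K, c1 ≠ 0 ∧ c2 ≠ 0 ∧ c3 ≠ 0 ∧ c1 ≠ c2 ∧ c1 ≠ c3 ∧ c2 ≠ c3 ∧
      adj c1 c2 ∧ adj c3 c2 := by
    obtain ⟨p', hp'0, hp'p, hap⟩ := hex p hp
    obtain ⟨q', hq'0, hq'q, haq⟩ := hex q hq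
    obtain ⟨r', hr'0, hr'r, har⟩ := hex r hr
    rcases hall p' hp'0 with h | h | h
    · exact absurd h hp'p
    · subst h
      -- `p ~ q`
      rcases hall r' hr'0 with h | h | h
      · subst h
        exact ⟨p', r', r, hq, hp, hr, hpq.symm, hqr, hpr, hsymm _ _ hap, har⟩
      · subst h
        exact ⟨p, r', r, hp, hq, hr, hpq, hpr, hqr, hap, har⟩
      · exact absurd h hr'r
    · subst h
      -- `p ~ r`
      rcases hall q' hq'0 with h | h | h
      · subst h
        exact ⟨p', q', q, hr, hp, hq, hpr.symm, hqr.symm, hpq, hsymm _ _ hap, haq⟩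
      · exact absurd h hq'q
      · subst h
        exact ⟨p, q', q, hp, hr, hq, hpr, hpq, hqr.symm, hap, haq⟩
  obtain ⟨c1, c2, c3, h1, h2, h3, h12, h13, h23, ⟨L, u, w, hLc, huL, hwL, hIu, hIw, hcu, hcw⟩,
    ⟨L', u', w', hLc', huL', hwL', hIu', hIw', hcu', hcw'⟩⟩ := hmid
  -- reduction to the span
  have hW : ∀ e, v e ∈ sp K v univ := fun e => mem_sp (mem_univ e)
  have hrk : ∀ Z : Finset E, rk K (fun e => (⟨v e, hW e⟩ : sp K v univ)) Z = rk K v Z := by
    intro Z
    unfold rk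
    have h5 : (sp K (fun e => (⟨v e, hW e⟩ : sp K v univ)) Z).map (sp K v univ).subtype =
        sp K v Z := by
      unfold sp
      rw [Submodule.map_span, ← Set.image_comp]
      rfl
    rw [← h5]
    exact (Submodule.equivMapOfInjective _ (sp K v univ).subtype_injective _).finrank_eq
  refine thmT_core (v := fun e => (⟨v e, hW e⟩ : sp K v univ)) (a := a) (b := b) hK
    (L := L) (L' := L') (u := u) (u' := u') (w := w) (w' := w') (c₁ := c1) (c₂ := c2) (c₃ := c3)
    ?_ h1 h2 h3 h12 h13 h23 (by omega) (by omega) huL huL' ?_ ?_ ((col_sub hW).2 hcu)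
    ((col_sub hW).2 hcw) ((col_sub hW).2 hcu') ((col_sub hW).2 hcw') ?_
  · show Module.finrank K (sp K v univ) = L.card + 2
    rw [hLc]; rfl
  · unfold Ind
    rw [hrk]; exact hIu
  · unfold Ind
    rw [hrk]; exact hIu'
  · intro x hx
    obtain ⟨c, hc0, hcx⟩ := m x (fun h => hx (Subtype.ext h))
    exact ⟨c, hc0, fun Z hxZ hZ => hcx Z hxZ ((col_sub hW).1 hZ)⟩

end Ca3
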