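import Pool.Agent.Lib.MP_ca3eb1_co.ThmTFrame

/-! # Three-colour lemma: the small submatrices -/

set_option linter.unusedSectionVars false

namespace Ca3

open Finset Submodule

variable {K V E : Type*} [Field K] [Fintype K] [AddCommGroup V] [Module K V]
  [FiniteDimensional K V] [DecidableEq E] {v : E → V} {a b : E} {c₁ c₂ c₃ : K}
  {L L' I I₃ : Finset E}

namespace Frame

variable (F : Frame K v a b c₁ c₃ I)

/-- the matrix entry: `v y = α y • (q₃ + ∑ A y i • bas (some i))` -/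
noncomputable def A (y : E) (i : {x // x ∈ I}) : K := F.β i (v y) / F.α (v y)

lemma β_eq {y : E} (hy : F.α (v y) ≠ 0) (i) : F.β i (v y) = F.α (v y) * F.A y i := by
  unfold A
  field_simp

variable {F}

lemma A_eq_of (F : Frame K v a b c₁ c₃ I) {y : E} (hy : F.α (v y) ≠ 0)
    {i : {x // x ∈ I}} {p : K} (h : F.A y i = p) : F.β i (v y) = F.α (v y) * p := by
  rw [F.β_eq hy, h]

/-- entry zero: colour `c₃` -/
lemma col_zero (h1 : c₁ ≠ 0) (h3 : c₃ ≠ 0) {y : E} (hy : F.α (v y) ≠ 0) {i : {x // x ∈ I}}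
    (h : F.A y i = 0) : Col K v a b c₃ ((I \ {(i : E)}) ∪ {y}) := by
  have hb : F.β i (v y) = 0 := by rw [A_eq_of F hy h, mul_zero]
  refine F.col (y := v y) (mem_sp (by simp)) rfl (t := 0) ?_ h3 hy ?_ (F.β i) ?_ ?_
    (c' := c₁) (by rw [F.β_q1]; exact one_ne_zero)
  · intro j hj
    have hj' : j = i := Subtype.ext (by simpa using hj)
    rw [hj', hb]
  · rw [zero_smul, add_zero]
  · intro e he hei
    exact F.β_mem_ne he (fun h => hei (by simp [h]))
  · intro e he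
    rw [mem_singleton.1 he, hb]

/-- entry `t` with `q₃ + t q₁` of colour `c₂` -/
lemma col_two (h2 : c₂ ≠ 0) (h1 : c₁ ≠ 0) {y : E} (hy : F.α (v y) ≠ 0) {i : {x // x ∈ I}}
    (h12 : c₁ ≠ c₂) (h13 : c₁ ≠ c₃) (h : F.A y i * (c₁ - c₂) = c₂ - c₃) :
    Col K v a b c₂ ((I \ {(i : E)}) ∪ {y}) := by
  have hb := A_eq_of F hy rfl (i := i)
  have h12' : c₁ - c₂ ≠ 0 := sub_ne_zero.2 h12
  have hz : (1 : K) + F.A y i ≠ 0 := by
    intro h0
    have h5 : c₁ - c₃ = 0 := by linear_combination (c₁ - c₂) * h0 - h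
    exact h13 (sub_eq_zero.1 h5)
  refine F.col (y := (F.α (v y))⁻¹ • v y) (smul_mem _ _ (mem_sp (by simp))) (x := 1)
    (t := F.A y i) ?_ ?_ h2 hz ?_ (F.β i - F.A y i • F.α) ?_ ?_ (c' := c₁) ?_
  · rw [map_smul, smul_eq_mul, inv_mul_cancel₀ hy]
  · intro j hj
    have hj' : j = i := Subtype.ext (by simpa using hj)
    rw [hj', map_smul, smul_eq_mul, hb, ← mul_assoc, inv_mul_cancel₀ hy, one_mul]
  · have e1 : c₃ + F.A y i * c₁ = (1 + F.A y i) * c₂ := by linear_combination h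
    have e2 : (1 : K) • (v a + c₃ • v b) + F.A y i • (v a + c₁ • v b) =
        (1 + F.A y i) • v a + (c₃ + F.A y i * c₁) • v b := by module
    rw [e2, e1]
    module
  · intro e he hei
    rw [mem_singleton] at hei
    simp only [LinearMap.sub_apply, LinearMap.smul_apply, F.α_mem he,
      F.β_mem_ne he (Ne.symm hei), smul_zero, sub_zero]
  · intro e he
    rw [mem_singleton.1 he]
    simp only [LinearMap.sub_apply, LinearMap.smul_apply, hb, smul_eq_mul]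
    ring
  · simp only [LinearMap.sub_apply, LinearMap.smul_apply, F.α_q1, F.β_q1, smul_zero, sub_zero]
    exact one_ne_zero

/-- block `(p q / q p)`: colour `c₁` -/
lemma col_block_one (hK : Fintype.card K = 4) (h1 : c₁ ≠ 0) {y₁ y₂ : E} (hy₁ : F.α (v y₁) ≠ 0)
    (hy₂ : F.α (v y₂) ≠ 0) {i₁ i₂ : {x // x ∈ I}} (hi : i₁ ≠ i₂) {p q : K} (hpq : p ≠ q)
    (h11 : F.A y₁ i₁ = p) (h12 : F.A y₁ i₂ = q) (h21 : F.A y₂ i₁ = q) (h22 : F.A y₂ i₂ = p) :
    Col K v a b c₁ ((I \ {(i₁ : E), (i₂ : E)}) ∪ {y₁, y₂}) := by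
  have h2 := gf4_two hK
  have b11 := A_eq_of F hy₁ h11
  have b12 := A_eq_of F hy₁ h12
  have b21 := A_eq_of F hy₂ h21
  have b22 := A_eq_of F hy₂ h22
  have hpq' : p - q ≠ 0 := sub_ne_zero.2 hpq
  have e1 : (p - q)⁻¹ * (p - q) = 1 := inv_mul_cancel₀ hpq'
  refine F.col (c' := c₃) (y := (F.α (v y₁))⁻¹ • v y₁ - (F.α (v y₂))⁻¹ • v y₂)
    (sub_mem (smul_mem _ _ (mem_sp (by simp))) (smul_mem _ _ (mem_sp (by simp)))) (x := 0)
    (t := p - q) ?_ ?_ h1 hpq' ?_ (F.α + (p - q)⁻¹ • F.β i₁ + (p - q)⁻¹ • F.β i₂) ?_ ?_ ?_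
  · simp only [map_sub, map_smul, smul_eq_mul, inv_mul_cancel₀ hy₁, inv_mul_cancel₀ hy₂, sub_self]
  · intro j hj
    rw [mem_insert, mem_singleton] at hj
    rcases hj with hj | hj
    · rw [Subtype.ext hj]
      simp only [map_sub, map_smul, smul_eq_mul, b11, b21]
      field_simp
    · rw [Subtype.ext hj]
      simp only [map_sub, map_smul, smul_eq_mul, b12, b22]
      field_simp
      linear_combination (q - p) * h2
  · rw [zero_smul, zero_add]
  · intro e he hei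
    rw [mem_insert, mem_singleton, not_or] at hei
    simp only [LinearMap.add_apply, LinearMap.smul_apply, F.α_mem he,
      F.β_mem_ne he (Ne.symm hei.1), F.β_mem_ne he (Ne.symm hei.2), smul_zero, add_zero]
  · intro e he
    rw [mem_insert, mem_singleton] at he
    rcases he with rfl | rfl
    · simp only [LinearMap.add_apply, LinearMap.smul_apply, b11, b12, smul_eq_mul]
      linear_combination -(F.α (v e)) * e1 + (p - q)⁻¹ * (F.α (v e)) * p * h2
    · simp only [LinearMap.add_apply, LinearMap.smul_apply, b21, b22, smul_eq_mul]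
      linear_combination -(F.α (v e)) * e1 + (p - q)⁻¹ * (F.α (v e)) * p * h2
  · simp only [LinearMap.add_apply, LinearMap.smul_apply, F.α_q3, F.β_q3, smul_zero, add_zero]
    exact one_ne_zero

/-- block `(p q / r s)` with determinant zero: colour `c₃` -/
lemma col_block_two (h3 : c₃ ≠ 0) {y₁ y₂ : E} (hy₁ : F.α (v y₁) ≠ 0)
    (hy₂ : F.α (v y₂) ≠ 0) {i₁ i₂ : {x // x ∈ I}} (hi : i₁ ≠ i₂) {p q r s : K} (hpq : p ≠ q)
    (hpr : p ≠ r) (hd : p * s = q * r)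
    (h11 : F.A y₁ i₁ = p) (h12 : F.A y₁ i₂ = q) (h21 : F.A y₂ i₁ = r) (h22 : F.A y₂ i₂ = s) :
    Col K v a b c₃ ((I \ {(i₁ : E), (i₂ : E)}) ∪ {y₁, y₂}) := by
  have b11 := A_eq_of F hy₁ h11
  have b12 := A_eq_of F hy₁ h12
  have b21 := A_eq_of F hy₂ h21
  have b22 := A_eq_of F hy₂ h22
  have hrp : r - p ≠ 0 := sub_ne_zero.2 hpr.symm
  refine F.col (c' := c₁)
    (y := (r * (F.α (v y₁))⁻¹) • v y₁ - (p * (F.α (v y₂))⁻¹) • v y₂)
    (sub_mem (smul_mem _ _ (mem_sp (by simp))) (smul_mem _ _ (mem_sp (by simp)))) (x := r - p)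
    (t := 0) ?_ ?_ h3 hrp ?_ (q • F.β i₁ - p • F.β i₂) ?_ ?_ ?_
  · simp only [map_sub, map_smul, smul_eq_mul]
    field_simp
  · intro j hj
    rw [mem_insert, mem_singleton] at hj
    rcases hj with hj | hj
    · rw [Subtype.ext hj]
      simp only [map_sub, map_smul, smul_eq_mul, b11, b21]
      field_simp
      ring
    · rw [Subtype.ext hj]
      simp only [map_sub, map_smul, smul_eq_mul, b12, b22]
      field_simp
      linear_combination -hd
  · rw [zero_smul, add_zero]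
  · intro e he hei
    rw [mem_insert, mem_singleton, not_or] at hei
    simp only [LinearMap.sub_apply, LinearMap.smul_apply,
      F.β_mem_ne he (Ne.symm hei.1), F.β_mem_ne he (Ne.symm hei.2), smul_zero, sub_zero]
  · intro e he
    rw [mem_insert, mem_singleton] at he
    rcases he with rfl | rfl
    · simp only [LinearMap.sub_apply, LinearMap.smul_apply, b11, b12, smul_eq_mul]
      ring
    · simp only [LinearMap.sub_apply, LinearMap.smul_apply, b21, b22, smul_eq_mul]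
      linear_combination -(F.α (v e)) * hd
  · simp only [LinearMap.sub_apply, LinearMap.smul_apply, F.β_q1, smul_eq_mul, mul_one]
    exact sub_ne_zero.2 hpq.symm

/-- block `THETA`: colour `c₁` -/
lemma col_block_theta (hK : Fintype.card K = 4) (h1 : c₁ ≠ 0) {y₁ y₂ y₃ : E}
    (hy₁ : F.α (v y₁) ≠ 0) (hy₂ : F.α (v y₂) ≠ 0) (hy₃ : F.α (v y₃) ≠ 0)
    {i₁ i₂ i₃ : {x // x ∈ I}} (hi12 : i₁ ≠ i₂) (hi13 : i₁ ≠ i₃) (hi23 : i₂ ≠ i₃) {p q r : K}
    (hp : p ≠ 0) (hq : q ≠ 0) (hr : r ≠ 0) (hpq : p ≠ q) (hpr : p ≠ r) (hqr : q ≠ r)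
    (h11 : F.A y₁ i₁ = q) (h12 : F.A y₁ i₂ = q) (h13 : F.A y₁ i₃ = r)
    (h21 : F.A y₂ i₁ = p) (h22 : F.A y₂ i₂ = r) (h23 : F.A y₂ i₃ = r)
    (h31 : F.A y₃ i₁ = p) (h32 : F.A y₃ i₂ = q) (h33 : F.A y₃ i₃ = p) :
    Col K v a b c₁ ((I \ {(i₁ : E), (i₂ : E), (i₃ : E)}) ∪ {y₁, y₂, y₃}) := by
  have h2 := gf4_two hK
  have hs := gf4_sum hK hp hq hr hpq hpr hqr
  have hi := gf4_inv_sum hK hp hq hr hpq hpr hqr
  have b11 := A_eq_of F hy₁ h11
  have b12 := A_eq_of F hy₁ h12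
  have b13 := A_eq_of F hy₁ h13
  have b21 := A_eq_of F hy₂ h21
  have b22 := A_eq_of F hy₂ h22
  have b23 := A_eq_of F hy₂ h23
  have b31 := A_eq_of F hy₃ h31
  have b32 := A_eq_of F hy₃ h32
  have b33 := A_eq_of F hy₃ h33
  have ip : p * p⁻¹ = 1 := mul_inv_cancel₀ hp
  have iq : q * q⁻¹ = 1 := mul_inv_cancel₀ hq
  have ir : r * r⁻¹ = 1 := mul_inv_cancel₀ hr
  have j1 : F.α (v y₁) * (F.α (v y₁))⁻¹ = 1 := mul_inv_cancel₀ hy₁
  have j2 : F.α (v y₂) * (F.α (v y₂))⁻¹ = 1 := mul_inv_cancel₀ hy₂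
  have j3 : F.α (v y₃) * (F.α (v y₃))⁻¹ = 1 := mul_inv_cancel₀ hy₃
  refine F.col (c' := c₃)
    (y := (r⁻¹ * (F.α (v y₁))⁻¹) • v y₁ + (p⁻¹ * (F.α (v y₂))⁻¹) • v y₂ +
      (q⁻¹ * (F.α (v y₃))⁻¹) • v y₃)
    (add_mem (add_mem (smul_mem _ _ (mem_sp (by simp))) (smul_mem _ _ (mem_sp (by simp))))
      (smul_mem _ _ (mem_sp (by simp)))) (x := 0)
    (t := 1) ?_ ?_ h1 (z := 1) one_ne_zero ?_
    (F.α + q⁻¹ • F.β i₁ + r⁻¹ • F.β i₂ + p⁻¹ • F.β i₃) ?_ ?_ ?_
  · simp only [map_add, map_smul, smul_eq_mul]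
    linear_combination hi + r⁻¹ * j1 + p⁻¹ * j2 + q⁻¹ * j3
  · intro j hj
    rw [mem_insert, mem_insert, mem_singleton] at hj
    rcases hj with hj | hj | hj
    · rw [Subtype.ext hj]
      simp only [map_add, map_smul, smul_eq_mul, b11, b21, b31]
      linear_combination r⁻¹ * q * j1 + p⁻¹ * p * j2 + q⁻¹ * p * j3 + p * hi + r⁻¹ * hs - ir - r⁻¹ * p * h2 - h2
    · rw [Subtype.ext hj]
      simp only [map_add, map_smul, smul_eq_mul, b12, b22, b32]
      linear_combination r⁻¹ * q * j1 + p⁻¹ * r * j2 + q⁻¹ * q * j3 + q * hi + p⁻¹ * hs - ip - p⁻¹ * q * h2 - h2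
    · rw [Subtype.ext hj]
      simp only [map_add, map_smul, smul_eq_mul, b13, b23, b33]
      linear_combination r⁻¹ * r * j1 + p⁻¹ * r * j2 + q⁻¹ * p * j3 + r * hi + q⁻¹ * hs - iq - q⁻¹ * r * h2 - h2
  · rw [zero_smul, zero_add, one_smul]
  · intro e he hei
    rw [mem_insert, mem_insert, mem_singleton, not_or, not_or] at hei
    simp only [LinearMap.add_apply, LinearMap.smul_apply, F.α_mem he,
      F.β_mem_ne he (Ne.symm hei.1), F.β_mem_ne he (Ne.symm hei.2.1),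
      F.β_mem_ne he (Ne.symm hei.2.2), smul_zero, add_zero]
  · intro e he
    rw [mem_insert, mem_insert, mem_singleton] at he
    rcases he with rfl | rfl | rfl
    · simp only [LinearMap.add_apply, LinearMap.smul_apply, b11, b12, b13, smul_eq_mul]
      linear_combination (F.α (v e)) * (q * hi + p⁻¹ * hs - ip - q * p⁻¹ * h2)
    · simp only [LinearMap.add_apply, LinearMap.smul_apply, b21, b22, b23, smul_eq_mul]
      linear_combination (F.α (v e)) * (r * hi + q⁻¹ * hs - iq - r * q⁻¹ * h2)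
    · simp only [LinearMap.add_apply, LinearMap.smul_apply, b31, b32, b33, smul_eq_mul]
      linear_combination (F.α (v e)) * (p * hi + r⁻¹ * hs - ir - p * r⁻¹ * h2)
  · simp only [LinearMap.add_apply, LinearMap.smul_apply, F.α_q3, F.β_q3, smul_zero, add_zero]
    exact one_ne_zero

/-- no constant row -/
lemma row_not_const (G : Frame K v a b c₃ c₁ I₃) {S : Finset E}
    (hS : ∀ i ∈ I, i ∉ S → G.α (v i) = 0) {y : E} (hy : F.α (v y) ≠ 0) (hyI : y ∈ I₃)
    (h0 : ∀ i : {x // x ∈ I}, (i : E) ∈ S → F.A y i ≠ 0) :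
    ∃ i j : {x // x ∈ I}, (i : E) ∈ S ∧ (j : E) ∈ S ∧ F.A y i ≠ F.A y j := by
  by_contra hcon
  push Not at hcon
  have hsum : ∑ i, G.α (F.bas (some i)) = 1 := by
    rw [← map_sum, F.h1, G.α_q3]
  have hz : ∀ i : {x // x ∈ I}, (i : E) ∉ S → G.α (F.bas (some i)) = 0 := by
    intro i hi
    rw [F.hv, map_smul, hS i i.2 hi, smul_zero]
  obtain ⟨i₀, hi₀⟩ : ∃ i₀ : {x // x ∈ I}, (i₀ : E) ∈ S := by
    by_contra hc
    push Not at hc
    rw [sum_eq_zero (fun i _ => hz i (hc i))] at hsum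
    exact zero_ne_one hsum
  have h5 : G.α (v y) = 0 := G.α_mem hyI
  rw [F.expand (v y), map_add, map_smul, G.α_q1, smul_zero, zero_add, map_sum] at h5
  have h6 : ∀ i ∈ (univ : Finset {x // x ∈ I}), G.α (F.β i (v y) • F.bas (some i)) =
      F.α (v y) * F.A y i₀ * G.α (F.bas (some i)) := by
    intro i _
    rw [map_smul, smul_eq_mul]
    by_cases hi : (i : E) ∈ S
    · rw [F.β_eq hy, hcon i i₀ hi hi₀]
    · rw [hz i hi, mul_zero, mul_zero]
  rw [sum_congr rfl h6, ← mul_sum, hsum, mul_one] at h5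
  rcases mul_eq_zero.1 h5 with h | h
  · exact hy h
  · exact h0 i₀ hi₀ h

/-- no constant column -/
lemma col_not_const (G : Frame K v a b c₃ c₁ I₃) {R : Finset E} {i : {x // x ∈ I}}
    (hR : ∀ y ∈ R, F.α (v y) ≠ 0) (hR' : ∀ y ∈ I₃, y ∉ R → F.α (v y) = 0 ∧ F.β i (v y) = 0)
    (h0 : ∀ y ∈ R, F.A y i ≠ 0) : ∃ y ∈ R, ∃ z ∈ R, F.A y i ≠ F.A z i := by
  by_contra hcon
  push Not at hcon
  have hα := F.α_q3
  have hβ := F.β_q3 i
  rw [G.q1_eq, map_sum] at hα hβ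
  obtain ⟨y₀, hy₀⟩ : ∃ y₀, y₀ ∈ R := by
    by_contra hc
    push Not at hc
    rw [sum_eq_zero (fun y _ => by
      rw [map_smul, (hR' y y.2 (hc y)).1, smul_zero])] at hα
    exact zero_ne_one hα
  have h6 : ∀ y ∈ (univ : Finset {x // x ∈ I₃}), F.β i (G.γ y • v (y : E)) =
      F.A y₀ i * F.α (G.γ y • v (y : E)) := by
    intro y _
    rw [map_smul, map_smul, smul_eq_mul, smul_eq_mul]
    by_cases hyR : (y : E) ∈ R
    · rw [F.β_eq (hR y hyR), hcon y hyR y₀ hy₀]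
      ring
    · rw [(hR' y y.2 hyR).1, (hR' y y.2 hyR).2]
      ring
  rw [sum_congr rfl h6, ← mul_sum, hα, mul_one] at hβ
  exact h0 y₀ hy₀ hβ

end Frame

end Ca3
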