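import Pool.Agent.Lib.MP_ca3eb1_co.ThmTBlocks

/-! # Three-colour lemma: the matrix argument -/

set_option linter.unusedSectionVars false

namespace Ca3

open Finset Submodule

variable {K V E : Type*} [Field K] [Fintype K] [AddCommGroup V] [Module K V]
  [FiniteDimensional K V] [DecidableEq E] {v : E → V} {a b : E} {c₁ c₂ c₃ : K}
  {L L' I I₁ I₃ : Finset E} {u u' w w' : E}

omit [Fintype K] in
/-- the basis of the frame has colour `c₁` -/
lemma Frame.col_self (F : Frame K v a b c₁ c₃ I) (h1 : c₁ ≠ 0) : Col K v a b c₁ I := by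
  refine col_of (c' := c₃) h1 ?_ F.α (fun e he => F.α_mem he) (by rw [F.α_q3]; exact one_ne_zero)
  exact F.mem_sp_of_α_eq_zero F.α_q1

omit [Fintype K] in
lemma Frame.α_ne (F : Frame K v a b c₁ c₃ I) (h1 : c₁ ≠ 0) {y : E}
    (m : ∀ Z, y ∈ Z → ¬ Col K v a b c₁ Z) : F.α (v y) ≠ 0 := by
  intro h
  exact m (insert y I) (mem_insert_self _ _)
    ((F.col_self h1).congr (sp_insert_of_mem_sp (F.mem_sp_of_α_eq_zero h)))

/-- The common part: only a `2 × 2` submatrix with determinant zero whose columns contain `L`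
remains. -/
theorem thmT_aux (hK : Fintype.card K = 4) (h1 : c₁ ≠ 0) (h3 : c₃ ≠ 0)
    (F : Frame K v a b c₁ c₃ I₁) (G : Frame K v a b c₃ c₁ I₃) (hLI : L ⊆ I₁) (hL2 : 2 ≤ L.card)
    (hL'I : L' ⊆ I₃) (hL' : I₃.card ≤ L'.card + 1)
    (m3 : ∀ x ∈ L, ∀ Z, x ∈ Z → ¬ Col K v a b c₃ Z)
    (m1 : ∀ y ∈ L', ∀ Z, y ∈ Z → ¬ Col K v a b c₁ Z)
    {R S : Finset E} (hRI : R ⊆ I₃) (hSI : S ⊆ I₁) (hR : ∀ y ∈ R, F.α (v y) ≠ 0)
    (hR' : ∀ y ∈ I₃, y ∉ R → F.α (v y) = 0 ∧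
      ∀ i : {x // x ∈ I₁}, (i : E) ∈ S → F.β i (v y) = 0)
    (hS' : ∀ i ∈ I₁, i ∉ S → G.α (v i) = 0) :
    ∃ (y₁ y₂ : E) (i₁ i₂ : {x // x ∈ I₁}), y₁ ∈ R ∧ y₂ ∈ R ∧ (i₁ : E) ∈ S ∧ (i₂ : E) ∈ S ∧
      y₁ ≠ y₂ ∧ i₁ ≠ i₂ ∧ L ⊆ {(i₁ : E), (i₂ : E)} ∧
      F.A y₁ i₁ ≠ 0 ∧ F.A y₁ i₂ ≠ 0 ∧ F.A y₂ i₁ ≠ 0 ∧ F.A y₂ i₂ ≠ 0 ∧
      F.A y₁ i₁ ≠ F.A y₁ i₂ ∧ F.A y₁ i₂ ≠ F.A y₂ i₂ ∧ F.A y₂ i₂ ≠ F.A y₂ i₁ ∧
      F.A y₂ i₁ ≠ F.A y₁ i₁ ∧ F.A y₁ i₁ * F.A y₂ i₂ = F.A y₁ i₂ * F.A y₂ i₁ := by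
  classical
  have h0 : ∀ y ∈ R, ∀ i : {x // x ∈ I₁}, F.A y i ≠ 0 := by
    intro y hy i h
    obtain ⟨x, hx, hxi⟩ : ∃ x ∈ L, x ≠ (i : E) := by
      by_contra hcon
      push Not at hcon
      have h5 : L ⊆ {(i : E)} := fun x hx => by simpa using hcon x hx
      have h6 := card_le_card h5
      simp only [card_singleton] at h6
      omega
    exact m3 x hx _ (mem_union_left _ (mem_sdiff.2 ⟨hLI hx, by simpa using hxi⟩))
      (Frame.col_zero h1 h3 (hR y hy) h)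
  have hin : ∀ y ∈ R, ∀ z ∈ R, y ≠ z → y ∈ L' ∨ z ∈ L' := by
    intro y hy z hz hyz
    by_contra hcon
    push Not at hcon
    have h5 : insert y (insert z L') ⊆ I₃ := insert_subset (hRI hy) (insert_subset (hRI hz) hL'I)
    have h6 := card_le_card h5
    rw [card_insert_of_notMem (by simp [hyz, hcon.1]), card_insert_of_notMem hcon.2] at h6
    omega
  have hRne : R.Nonempty := by
    by_contra hcon
    rw [not_nonempty_iff_eq_empty] at hcon
    have h5 : F.α (v a + c₃ • v b) = 0 := by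
      rw [G.q1_eq, map_sum]
      refine sum_eq_zero fun y _ => ?_
      rw [map_smul, (hR' y y.2 (by simp [hcon])).1, smul_zero]
    rw [F.α_q3] at h5
    exact one_ne_zero h5
  have : Nonempty {y // y ∈ R} := by
    obtain ⟨y, hy⟩ := hRne
    exact ⟨⟨y, hy⟩⟩
  let B : {y // y ∈ R} → {i : {x // x ∈ I₁} // (i : E) ∈ S} → K := fun y i => F.A y i
  by_cases hnp : NoProper B
  · exfalso
    obtain ⟨p, q, r, y₁, y₂, y₃, i₁, i₂, i₃, hp, hq, hr, hpq, hpr, hqr, hy12, hy13, hy23, hi12,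
      hi13, hi23, e11, e12, e13, e21, e22, e23, e31, e32, e33⟩ := mat_block hK B
      (fun y i => h0 y y.2 i)
      (fun y => by
        obtain ⟨i, j, hi, hj, hij⟩ := Frame.row_not_const (F := F) G hS' (hR y y.2) (hRI y.2)
          (fun i _ => h0 y y.2 i)
        exact ⟨⟨i, hi⟩, ⟨j, hj⟩, hij⟩)
      (fun i => by
        obtain ⟨y, hy, z, hz, hyz⟩ := Frame.col_not_const (F := F) G hR
          (fun y hy hyR => ⟨(hR' y hy hyR).1, (hR' y hy hyR).2 i i.2⟩) (fun y hy => h0 y hy i)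
        exact ⟨⟨y, hy⟩, ⟨z, hz⟩, hyz⟩) hnp
    have hy12' : (y₁ : E) ≠ y₂ := fun h => hy12 (Subtype.ext h)
    have hcol := Frame.col_block_theta (F := F) hK h1 (hR _ y₁.2) (hR _ y₂.2) (hR _ y₃.2)
      (fun h => hi12 (Subtype.ext h)) (fun h => hi13 (Subtype.ext h))
      (fun h => hi23 (Subtype.ext h)) hp hq hr hpq hpr hqr e11 e12 e13 e21 e22 e23 e31 e32 e33
    rcases hin y₁ y₁.2 y₂ y₂.2 hy12' with h | h
    · exact m1 _ h _ (by simp) hcol
    · exact m1 _ h _ (by simp) hcol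
  · unfold NoProper at hnp
    push Not at hnp
    obtain ⟨y₁, y₂, i₁, i₂, e1, e2, e3, e4⟩ := hnp
    have hy12 : (y₁ : E) ≠ y₂ := by
      intro h
      have h' : y₁ = y₂ := Subtype.ext h
      subst h'
      exact e4 rfl
    have hi12 : (i₁ : {x // x ∈ I₁}) ≠ i₂ := by
      intro h
      have h' : i₁ = i₂ := Subtype.ext h
      subst h'
      exact e1 rfl
    rcases gf4_proper hK (h0 _ y₁.2 i₁) (h0 _ y₁.2 i₂) (h0 _ y₂.2 i₁) (h0 _ y₂.2 i₂)
      e1 e2 e3 e4 with ⟨e5, e6⟩ | e5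
    · exfalso
      have hcol := Frame.col_block_one (F := F) hK h1 (hR _ y₁.2) (hR _ y₂.2) hi12 e1 rfl rfl e6 e5
      rcases hin y₁ y₁.2 y₂ y₂.2 hy12 with h | h
      · exact m1 _ h _ (by simp) hcol
      · exact m1 _ h _ (by simp) hcol
    · have hcol := Frame.col_block_two (F := F) h3 (hR _ y₁.2) (hR _ y₂.2) hi12 e1
        (Ne.symm e4) e5 rfl rfl rfl rfl
      refine ⟨y₁, y₂, i₁, i₂, y₁.2, y₂.2, i₁.2, i₂.2, hy12, hi12, ?_, h0 _ y₁.2 _, h0 _ y₁.2 _,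
        h0 _ y₂.2 _, h0 _ y₂.2 _, e1, e2, e3, e4, e5⟩
      intro x hx
      by_contra hcon
      exact m3 x hx _ (mem_union_left _ (mem_sdiff.2 ⟨hLI hx, hcon⟩)) hcol

/-- Case A: the two bases of hyperplanes do not meet the other hyperplane. -/
theorem thmT_caseA (hK : Fintype.card K = 4) (h1 : c₁ ≠ 0) (h3 : c₃ ≠ 0)
    (F : Frame K v a b c₁ c₃ (insert u L)) (G : Frame K v a b c₃ c₁ (insert u' L'))
    (huL : u ∉ L) (huL' : u' ∉ L') (hL2 : 2 ≤ L.card) (hLL : L.card = L'.card)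
    (m3 : ∀ x ∈ L, ∀ Z, x ∈ Z → ¬ Col K v a b c₃ Z)
    (m1 : ∀ y ∈ L', ∀ Z, y ∈ Z → ¬ Col K v a b c₁ Z)
    (hu' : v u' ∉ sp K v (insert u L)) (hu : v u ∉ sp K v (insert u' L')) : False := by
  classical
  obtain ⟨y₁, y₂, i₁, i₂, hy₁, hy₂, hi₁, hi₂, hy12, hi12, hsub, -, -, -, -, e1, e2, e3, e4, e5⟩ :=
    thmT_aux hK h1 h3 F G (subset_insert _ _) hL2 (subset_insert _ _)
      (by rw [card_insert_of_notMem huL']) m3 m1 (R := insert u' L') (S := insert u L)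
      (Subset.refl _) (Subset.refl _)
      (by
        intro y hy
        rcases mem_insert.1 hy with rfl | hy
        · exact fun h => hu' (F.mem_sp_of_α_eq_zero h)
        · exact F.α_ne h1 (m1 y hy))
      (fun y hy hy' => absurd hy hy') (fun i hi hi' => absurd hi hi')
  have hR : ∀ y ∈ insert u' L', F.α (v y) ≠ 0 := by
    intro y hy
    rcases mem_insert.1 hy with rfl | hy
    · exact fun h => hu' (F.mem_sp_of_α_eq_zero h)
    · exact F.α_ne h1 (m1 y hy)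
  have hcol := Frame.col_block_two (F := F) h3 (hR _ hy₁) (hR _ hy₂) hi12 e1
    (Ne.symm e4) e5 rfl rfl rfl rfl
  have hLeq : L = {(i₁ : E), (i₂ : E)} := by
    refine eq_of_subset_of_card_le hsub ?_
    exact (card_le_two).trans hL2
  have hL2' : L.card = 2 := by
    refine le_antisymm ?_ hL2
    rw [hLeq]
    exact card_le_two
  -- the third element of `insert u' L'`
  obtain ⟨y₀, hy₀, hy01, hy02⟩ : ∃ y₀ ∈ insert u' L', y₀ ≠ y₁ ∧ y₀ ≠ y₂ := by
    by_contra hcon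
    push Not at hcon
    have h5 : insert u' L' ⊆ {y₁, y₂} := by
      intro y hy
      by_cases h : y = y₁
      · simp [h]
      · simp [hcon y hy h]
    have h6 := card_le_card h5
    rw [card_insert_of_notMem huL'] at h6
    have h7 : ({y₁, y₂} : Finset E).card ≤ 2 := card_le_two
    omega
  have hq : v a + c₃ • v b ∈ sp K v (insert u {y₁, y₂}) := by
    refine sp_mono ?_ hcol.1
    intro x hx
    rcases mem_union.1 hx with hx | hx
    · rw [mem_sdiff, mem_insert, ← hLeq] at hx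
      rcases hx.1 with rfl | h
      · exact mem_insert_self _ _
      · exact absurd h hx.2
    · exact mem_insert_of_mem hx
  rw [sp_insert, Submodule.mem_sup] at hq
  obtain ⟨x, hx, z, hz, hxz⟩ := hq
  obtain ⟨s, rfl⟩ := mem_span_singleton.1 hx
  have hzI : z ∈ sp K v (insert u' L') :=
    sp_mono (insert_subset hy₁ (singleton_subset_iff.2 hy₂)) hz
  have hqI : v a + c₃ • v b ∈ sp K v (insert u' L') := G.mem_sp_of_α_eq_zero G.α_q1
  by_cases hs : s = 0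
  · rw [hs, zero_smul, zero_add] at hxz
    have hk : sp K v ({y₁, y₂} : Finset E) ≤ LinearMap.ker (G.β ⟨y₀, hy₀⟩) := by
      rw [sp_le_iff]
      intro e he
      rw [LinearMap.mem_ker]
      rcases mem_insert.1 he with rfl | he
      · exact G.β_mem_ne hy₁ hy01
      · rw [mem_singleton.1 he]
        exact G.β_mem_ne hy₂ hy02
    have h5 := hk hz
    rw [LinearMap.mem_ker, hxz, G.β_q1] at h5
    exact one_ne_zero h5
  · apply hu
    have h5 : v u = s⁻¹ • ((v a + c₃ • v b) - z) := by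
      rw [← hxz]
      simp [smul_smul, inv_mul_cancel₀ hs]
    rw [h5]
    exact smul_mem _ _ (sub_mem hqI hzI)

/-- Case B: the two hyperplanes have the element `u` in common. -/
theorem thmT_caseB (hK : Fintype.card K = 4) (h1 : c₁ ≠ 0) (h2 : c₂ ≠ 0) (h3 : c₃ ≠ 0)
    (h12 : c₁ ≠ c₂) (h13 : c₁ ≠ c₃) (h23 : c₂ ≠ c₃)
    (F : Frame K v a b c₁ c₃ (insert u L)) (G : Frame K v a b c₃ c₁ (insert u L'))
    (huL : u ∉ L) (huL' : u ∉ L') (hL2 : 2 ≤ L.card) (hLL : L.card = L'.card)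
    (m3 : ∀ x ∈ L, ∀ Z, x ∈ Z → ¬ Col K v a b c₃ Z)
    (m1 : ∀ y ∈ L', ∀ Z, y ∈ Z → ¬ Col K v a b c₁ Z)
    (mu : ∃ c : K, c ≠ 0 ∧ ∀ Z, u ∈ Z → ¬ Col K v a b c Z) : False := by
  classical
  have hR : ∀ y ∈ L', F.α (v y) ≠ 0 := fun y hy => F.α_ne h1 (m1 y hy)
  obtain ⟨y₁, y₂, i₁, i₂, hy₁, hy₂, hi₁, hi₂, hy12, hi12, hsub, n1, n2, n3, n4, e1, e2, e3, e4,
    e5⟩ :=
    thmT_aux hK h1 h3 F G (subset_insert _ _) hL2 (subset_insert _ _)
      (by rw [card_insert_of_notMem huL']) m3 m1 (R := L') (S := L)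
      (subset_insert _ _) (subset_insert _ _) hR
      (by
        intro y hy hy'
        have hyu : y = u := (mem_insert.1 hy).resolve_right hy'
        subst hyu
        refine ⟨F.α_mem (mem_insert_self _ _), fun i hi => F.β_mem_ne (mem_insert_self _ _) ?_⟩
        intro h
        exact huL (h ▸ hi))
      (by
        intro i hi hi'
        have hiu : i = u := (mem_insert.1 hi).resolve_right hi'
        subst hiu
        exact G.α_mem (mem_insert_self _ _))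
  have h12' : c₁ - c₂ ≠ 0 := sub_ne_zero.2 h12
  have ht : (c₂ - c₃) / (c₁ - c₂) ≠ 0 := div_ne_zero (sub_ne_zero.2 h23) h12'
  have hc2 : ∃ Z, u ∈ Z ∧ Col K v a b c₂ Z := by
    have key : ∀ y ∈ L', ∀ i : {x // x ∈ insert u L}, (i : E) ∈ L →
        F.A y i = (c₂ - c₃) / (c₁ - c₂) → ∃ Z, u ∈ Z ∧ Col K v a b c₂ Z := by
      intro y hy i hi h
      refine ⟨_, ?_, Frame.col_two (F := F) h2 h1 (hR y hy) (i := i) h12 h13 ?_⟩
      · refine mem_union_left _ (mem_sdiff.2 ⟨mem_insert_self _ _, ?_⟩)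
        rw [mem_singleton]
        intro h
        exact huL (h ▸ hi)
      · rw [h, div_mul_cancel₀ _ h12']
    rcases gf4_all hK n1 n2 n3 n4 ht e1 e2 e3 e4 e5 with h | h | h | h
    · exact key y₁ hy₁ i₁ hi₁ h
    · exact key y₁ hy₁ i₂ hi₂ h
    · exact key y₂ hy₂ i₁ hi₁ h
    · exact key y₂ hy₂ i₂ hi₂ h
  obtain ⟨c, hc, hcu⟩ := mu
  rcases mem_of_card_four hK h1 h2 h3 h12 h13 h23 hc with rfl | rfl | rfl
  · exact hcu _ (mem_insert_self _ _) (F.col_self h1)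
  · obtain ⟨Z, hZ, hZ'⟩ := hc2
    exact hcu _ hZ hZ'
  · exact hcu _ (mem_insert_self _ _) (G.col_self h3)

/-- exchange of the last basis element -/
theorem thmT_swap (hK : Fintype.card K = 4) (hV : Module.finrank K V = L.card + 2)
    (h1 : c₁ ≠ 0) (h2 : c₂ ≠ 0) (h3 : c₃ ≠ 0) (h12 : c₁ ≠ c₂) (h13 : c₁ ≠ c₃) (h23 : c₂ ≠ c₃)
    (hLL : L.card = L'.card) (hI : Ind K v (insert u L))
    (hcu : Col K v a b c₁ (insert u L)) (hcw : Col K v a b c₂ (insert w L))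
    (hr : rk K v (insert b (insert a L')) = L'.card + 2)
    (m3 : ∀ x ∈ L, ∀ Z, x ∈ Z → ¬ Col K v a b c₃ Z)
    (m1 : ∀ y ∈ L', ∀ Z, y ∈ Z → ¬ Col K v a b c₁ Z)
    (hmem : v u' ∈ sp K v (insert u L)) (hcu' : ∃ Z, u' ∈ Z ∧ Col K v a b c₃ Z)
    (mu : ∃ c : K, c ≠ 0 ∧ ∀ Z, u' ∈ Z → ¬ Col K v a b c Z) :
    u' ∉ L ∧ Nonempty (Frame K v a b c₁ c₃ (insert u' L)) := by
  classical
  have hu'L : u' ∉ L := by
    intro h
    obtain ⟨Z, hZ, hZ'⟩ := hcu'
    exact m3 u' h Z hZ hZ'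
  have hns : v u' ∉ sp K v L := by
    intro h
    obtain ⟨c, hc, hcc⟩ := mu
    have hA : Col K v a b c₁ (insert u' (insert u L)) := hcu.congr (sp_insert_of_mem_sp hmem)
    have hB : Col K v a b c₂ (insert u' (insert w L)) :=
      hcw.congr (sp_insert_of_mem_sp (sp_mono (subset_insert _ _) h))
    rcases mem_of_card_four hK h1 h2 h3 h12 h13 h23 hc with rfl | rfl | rfl
    · exact hcc _ (mem_insert_self _ _) hA
    · exact hcc _ (mem_insert_self _ _) hB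
    · obtain ⟨Z, hZ, hZ'⟩ := hcu'
      exact hcc _ hZ hZ'
  have hLi : Ind K v L := hI.subset (subset_insert _ _)
  have hI' : Ind K v (insert u' L) := hLi.insert hns
  have hsp : sp K v (insert u' L) = sp K v (insert u L) := by
    apply le_antisymm
    · rw [sp_le_iff]
      intro e he
      rcases mem_insert.1 he with rfl | he
      · exact hmem
      · exact mem_sp (mem_insert_of_mem he)
    · rw [sp_le_iff]
      intro e he
      rcases mem_insert.1 he with rfl | he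
      · exact mem_sp_insert_exchange hmem hns
      · exact mem_sp (mem_insert_of_mem he)
  have hcol : Col K v a b c₁ (insert u' L) := hcu.congr hsp
  refine ⟨hu'L, exists_frame ?_ hI' hcol ?_ h13.symm⟩
  · rw [card_insert_of_notMem hu'L, hV]
  · intro i hi
    refine full_support (L' := L') h1 ?_ hcol m1 hi
    rw [card_insert_of_notMem hu'L, hr, hLL]

/-- Steps (2) and (3) together, for vectors spanning the space. -/
theorem thmT_core (hK : Fintype.card K = 4) (hV : Module.finrank K V = L.card + 2)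
    (h1 : c₁ ≠ 0) (h2 : c₂ ≠ 0) (h3 : c₃ ≠ 0) (h12 : c₁ ≠ c₂) (h13 : c₁ ≠ c₃) (h23 : c₂ ≠ c₃)
    (hL2 : 2 ≤ L.card) (hLL : L.card = L'.card)
    (huL : u ∉ L) (huL' : u' ∉ L') (hI : Ind K v (insert u L)) (hI' : Ind K v (insert u' L'))
    (hcu : Col K v a b c₁ (insert u L)) (hcw : Col K v a b c₂ (insert w L))
    (hcu' : Col K v a b c₃ (insert u' L')) (hcw' : Col K v a b c₂ (insert w' L'))
    (m : ∀ x, v x ≠ 0 → ∃ c : K, c ≠ 0 ∧ ∀ Z, x ∈ Z → ¬ Col K v a b c Z) : False := by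
  classical
  have hL0 : Ind K v L := hI.subset (subset_insert _ _)
  have hL0' : Ind K v L' := hI'.subset (subset_insert _ _)
  have hnz : ∀ {X : Finset E} {x : E}, Ind K v X → x ∈ X → v x ≠ 0 := by
    intro X x hX hx h0
    apply hX.not_mem_sp_erase hx
    rw [h0]
    exact zero_mem _
  have m3 : ∀ x ∈ L, ∀ Z, x ∈ Z → ¬ Col K v a b c₃ Z := by
    intro x hx
    obtain ⟨c, hc, hcc⟩ := m x (hnz hL0 hx)
    rcases mem_of_card_four hK h1 h2 h3 h12 h13 h23 hc with rfl | rfl | rfl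
    · exact absurd hcu (hcc _ (mem_insert_of_mem hx))
    · exact absurd hcw (hcc _ (mem_insert_of_mem hx))
    · exact hcc
  have m1 : ∀ y ∈ L', ∀ Z, y ∈ Z → ¬ Col K v a b c₁ Z := by
    intro x hx
    obtain ⟨c, hc, hcc⟩ := m x (hnz hL0' hx)
    rcases mem_of_card_four hK h1 h2 h3 h12 h13 h23 hc with rfl | rfl | rfl
    · exact hcc
    · exact absurd hcw' (hcc _ (mem_insert_of_mem hx))
    · exact absurd hcu' (hcc _ (mem_insert_of_mem hx))
  have hr : rk K v (insert b (insert a L)) = L.card + 2 := by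
    rw [rk_insert_insert hcu hcw h12, hL0.rk_eq_card]
  have hr' : rk K v (insert b (insert a L')) = L'.card + 2 := by
    rw [rk_insert_insert hcu' hcw' h23.symm, hL0'.rk_eq_card]
  have hF : Nonempty (Frame K v a b c₁ c₃ (insert u L)) := by
    refine exists_frame ?_ hI hcu ?_ h13.symm
    · rw [card_insert_of_notMem huL, hV]
    · intro i hi
      refine full_support (L' := L') h1 ?_ hcu m1 hi
      rw [card_insert_of_notMem huL, hr', hLL]
  have hG : Nonempty (Frame K v a b c₃ c₁ (insert u' L')) := by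
    refine exists_frame ?_ hI' hcu' ?_ h13
    · rw [card_insert_of_notMem huL', hV, hLL]
    · intro i hi
      refine full_support (L' := L) h3 ?_ hcu' m3 hi
      rw [card_insert_of_notMem huL', hr, hLL]
  obtain ⟨F⟩ := hF
  obtain ⟨G⟩ := hG
  by_cases hu' : v u' ∈ sp K v (insert u L)
  · obtain ⟨hn, ⟨F'⟩⟩ := thmT_swap hK hV h1 h2 h3 h12 h13 h23 hLL hI hcu hcw hr' m3 m1 hu'
      ⟨_, mem_insert_self _ _, hcu'⟩ (m u' (hnz hI' (mem_insert_self _ _)))
    exact thmT_caseB hK h1 h2 h3 h12 h13 h23 F' G hn huL' hL2 hLL m3 m1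
      (m u' (hnz hI' (mem_insert_self _ _)))
  by_cases hu : v u ∈ sp K v (insert u' L')
  · obtain ⟨hn, ⟨G'⟩⟩ := thmT_swap hK (hLL ▸ hV) h3 h2 h1 h23.symm h13.symm h12.symm hLL.symm hI'
      hcu' hcw' hr m1 m3 hu ⟨_, mem_insert_self _ _, hcu⟩ (m u (hnz hI (mem_insert_self _ _)))
    exact thmT_caseB hK h1 h2 h3 h12 h13 h23 F G' huL hn hL2 hLL m3 m1
      (m u (hnz hI (mem_insert_self _ _)))
  · exact thmT_caseA hK h1 h3 F G huL huL' hL2 hLL m3 m1 hu' hu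

end Ca3
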