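import Pool.Agent.Lib.MP_ca3eb1_co.Basic

/-! # Three-colour lemma: definitions

`Col K v a b c Z`: the span of `Z` contains the point `v a + c • v b` of the line through `v a`
and `v b`, but not `v a` (and so not `v b`, if `c ≠ 0`).  Over a field with four elements the
three values `c ≠ 0` are the three colours. -/

set_option linter.unusedSectionVars false

namespace Ca3

open Finset Submodule

/-- The span of `Z` has colour `c`: it contains `v a + c • v b` and not `v a`. -/
def Col (K : Type*) {V E : Type*} [Field K] [AddCommGroup V] [Module K V] (v : E → V) (a b : E)
    (c : K) (Z : Finset E) : Prop :=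
  v a + c • v b ∈ sp K v Z ∧ v a ∉ sp K v Z

end Ca3
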