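import Pool.Agent.Lib.MP_ca3eb1_co.ThmTMat

/-! # Three-colour lemma: identities in the field with four elements -/

namespace Ca3

variable {K : Type*} [Field K] [Fintype K]

lemma gf4_two (hK : Fintype.card K = 4) : (2 : K) = 0 := by
  have h := FiniteField.cast_card_eq_zero K
  rw [hK] at h
  have h2 : (2 : K) * 2 = 0 := by
    push_cast at h
    linear_combination h
  rcases mul_eq_zero.1 h2 with h | h <;> exact h

/-- the sum of the three nonzero elements -/
lemma gf4_sum (hK : Fintype.card K = 4) {x y z : K} (hx : x ≠ 0) (hy : y ≠ 0) (hz : z ≠ 0)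
    (hxy : x ≠ y) (hxz : x ≠ z) (hyz : y ≠ z) : x + y + z = 0 := by
  classical
  have h2 := gf4_two hK
  have h0 : x + y ≠ 0 := by
    intro h
    apply hxy
    linear_combination h - y * h2
  rcases mem_of_card_four hK hx hy hz hxy hxz hyz h0 with h | h | h
  · exact absurd (by linear_combination h) hy
  · exact absurd (by linear_combination h) hx
  · linear_combination h + z * h2

lemma gf4_inv_sum (hK : Fintype.card K = 4) {x y z : K} (hx : x ≠ 0) (hy : y ≠ 0) (hz : z ≠ 0)
    (hxy : x ≠ y) (hxz : x ≠ z) (hyz : y ≠ z) : x⁻¹ + y⁻¹ + z⁻¹ = 0 :=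
  gf4_sum hK (inv_ne_zero hx) (inv_ne_zero hy) (inv_ne_zero hz) (fun h => hxy (inv_injective h))
    (fun h => hxz (inv_injective h)) (fun h => hyz (inv_injective h))

/-- the product of two of the three nonzero elements is the square of the third -/
lemma gf4_mul (hK : Fintype.card K = 4) {x y z : K} (hx : x ≠ 0) (hy : y ≠ 0) (hz : z ≠ 0)
    (hxy : x ≠ y) (hxz : x ≠ z) (hyz : y ≠ z) : x * y = z * z := by
  have h1 := gf4_sum hK hx hy hz hxy hxz hyz
  have h2 := gf4_inv_sum hK hx hy hz hxy hxz hyz
  have h3 : x * y + x * z + y * z = 0 := by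
    have h4 : x * y * z * (x⁻¹ + y⁻¹ + z⁻¹) = x * y + x * z + y * z := by
      field_simp
      ring
    rw [← h4, h2, mul_zero]
  linear_combination h3 - z * h1

/-- a proper `2 × 2` matrix is `(p q / q p)` or has determinant zero -/
lemma gf4_proper (hK : Fintype.card K = 4) {p q r s : K} (hp : p ≠ 0) (hq : q ≠ 0) (hr : r ≠ 0)
    (hs : s ≠ 0) (h1 : p ≠ q) (h2 : q ≠ s) (h3 : s ≠ r) (h4 : r ≠ p) :
    (s = p ∧ r = q) ∨ p * s = q * r := by
  classical
  by_cases h5 : s = p
  · by_cases h6 : r = q
    · exact Or.inl ⟨h5, h6⟩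
    · right
      rw [h5]
      exact (gf4_mul hK hq hr hp (fun h => h6 h.symm) (fun h => h1 h.symm) h4).symm
  · right
    -- `p, q, s` are the three nonzero elements, so `r = q`
    rcases mem_of_card_four hK hp hq hs h1 (fun h => h5 h.symm) h2 hr with h | h | h
    · exact absurd h h4
    · rw [h]
      exact gf4_mul hK hp hs hq (fun h => h5 h.symm) h1 (fun h => h2 h.symm)
    · exact absurd h.symm h3

/-- a proper `2 × 2` matrix with determinant zero has all three nonzero entries -/
lemma gf4_all (hK : Fintype.card K = 4) {p q r s t : K} (hp : p ≠ 0) (hq : q ≠ 0) (hr : r ≠ 0)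
    (hs : s ≠ 0) (ht : t ≠ 0) (h1 : p ≠ q) (h2 : q ≠ s) (h3 : s ≠ r) (h4 : r ≠ p)
    (h : p * s = q * r) : p = t ∨ q = t ∨ r = t ∨ s = t := by
  classical
  by_contra hcon
  push Not at hcon
  obtain ⟨c1, c2, c3, c4⟩ := hcon
  have h5 : s = p := by
    rcases mem_of_card_four hK hp hq ht h1 c1 c2 hs with h' | h' | h'
    · exact h'
    · exact absurd h'.symm h2
    · exact absurd h' c4
  have h6 : r = q := by
    rcases mem_of_card_four hK hp hq ht h1 c1 c2 hr with h' | h' | h'
    · exact absurd h' h4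
    · exact h'
    · exact absurd h' c3
  have h7 : (p - q) * (p - q) = 0 := by
    rw [h5, h6] at h
    linear_combination h - (p * q - q * q) * gf4_two hK
  rcases mul_eq_zero.1 h7 with h8 | h8 <;> exact h1 (sub_eq_zero.1 h8)

end Ca3
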