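import Pool.Agent.Lib.MP_ca3eb1_co.ThmTFull

/-! # Three-colour lemma: coordinates -/

set_option linter.unusedSectionVars false

namespace Ca3

open Finset Submodule

/-- Coordinates: `I` is a basis of a hyperplane of colour `c₁` in which the point of colour `c₁`
has full support (after scaling, all coordinates are `1`), and `bas none` is the point of
colour `c₃`. -/
structure Frame (K : Type*) {V E : Type*} [Field K] [AddCommGroup V] [Module K V] (v : E → V)
    (a b : E) (c₁ c₃ : K) (I : Finset E) where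
  bas : Module.Basis (Option {x // x ∈ I}) K V
  γ : {x // x ∈ I} → K
  hγ : ∀ i, γ i ≠ 0
  h3 : bas none = v a + c₃ • v b
  h1 : ∑ i, bas (some i) = v a + c₁ • v b
  hv : ∀ i : {x // x ∈ I}, bas (some i) = γ i • v i

variable {K V E : Type*} [Field K] [AddCommGroup V] [Module K V]
  [FiniteDimensional K V] [DecidableEq E] {v : E → V} {a b : E} {c c' c₁ c₂ c₃ : K}
  {Z Z' L L' I : Finset E} {u w : E}

theorem exists_frame (hV : Module.finrank K V = I.card + 1) (hI : Ind K v I)
    (hcol : Col K v a b c₁ I) (hf : ∀ i ∈ I, v a + c₁ • v b ∉ sp K v (I.erase i))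
    (hne : c₃ ≠ c₁) : Nonempty (Frame K v a b c₁ c₃ I) := by
  classical
  have hlin : LinearIndependent K (fun i : {x // x ∈ I} => v i) :=
    (ind_iff_linearIndepOn.1 hI)
  have hrange : Set.range (fun i : {x // x ∈ I} => v i) = v '' (I : Set E) := by
    ext x
    simp
  -- the coefficients of the point of colour `c₁`
  obtain ⟨γ, hγ⟩ : ∃ γ : {x // x ∈ I} → K, ∑ i, γ i • v (i : E) = v a + c₁ • v b := by
    have h1 := hcol.1
    unfold sp at h1
    rw [← hrange] at h1
    exact (Submodule.mem_span_range_iff_exists_fun K).1 h1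
  have hγ0 : ∀ i, γ i ≠ 0 := by
    intro i hi
    apply hf i i.2
    rw [← hγ]
    refine Submodule.sum_mem _ fun j _ => ?_
    by_cases hj : j = i
    · rw [hj, hi, zero_smul]
      exact Submodule.zero_mem _
    · refine Submodule.smul_mem _ _ (mem_sp (mem_erase.2 ⟨fun h => hj (Subtype.ext h), j.2⟩))
  have hq3 : v a + c₃ • v b ∉ sp K v I := by
    intro h
    apply hcol.2
    have h1 : (c₃ - c₁) • v b ∈ sp K v I := by
      have h2 := Submodule.sub_mem _ h hcol.1
      have h3 : (c₃ - c₁) • v b = v a + c₃ • v b - (v a + c₁ • v b) := by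
        rw [sub_smul]
        abel
      rwa [h3]
    have h2 : v b ∈ sp K v I := (Submodule.smul_mem_iff _ (sub_ne_zero.2 hne)).1 h1
    have h3 := Submodule.sub_mem _ hcol.1 (Submodule.smul_mem _ c₁ h2)
    rwa [add_sub_cancel_right] at h3
  let f : Option {x // x ∈ I} → V := fun o => o.elim (v a + c₃ • v b) (fun i => γ i • v i)
  have hf2 : LinearIndependent K (fun i : {x // x ∈ I} => γ i • v i) := by
    have h1 := hlin.units_smul (fun i => Units.mk0 (γ i) (hγ0 i))
    exact h1
  have hsp : Submodule.span K (Set.range (fun i : {x // x ∈ I} => γ i • v i)) ≤ sp K v I := by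
    rw [Submodule.span_le]
    rintro _ ⟨i, rfl⟩
    exact Submodule.smul_mem _ _ (mem_sp i.2)
  have hlinf : LinearIndependent K f := by
    rw [linearIndependent_option]
    exact ⟨hf2, fun h => hq3 (hsp h)⟩
  have hcard : Fintype.card (Option {x // x ∈ I}) = Module.finrank K V := by
    rw [hV, Fintype.card_option, Fintype.card_coe]
  let B := basisOfLinearIndependentOfCardEqFinrank hlinf hcard
  refine ⟨⟨B, γ, hγ0, ?_, ?_, ?_⟩⟩
  · simp [B, f]
  · rw [← hγ]
    exact Finset.sum_congr rfl fun i _ => by simp [B, f]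
  · intro i
    simp [B, f]

namespace Frame

variable (F : Frame K v a b c₁ c₃ I)

/-- the coordinate of `bas none` -/
noncomputable def α : V →ₗ[K] K := F.bas.coord none

/-- the coordinate of `bas (some i)` -/
noncomputable def β (i : {x // x ∈ I}) : V →ₗ[K] K := F.bas.coord (some i)

lemma α_q3 : F.α (v a + c₃ • v b) = 1 := by
  rw [← F.h3, α, Module.Basis.coord_apply, Module.Basis.repr_self, Finsupp.single_eq_same]

lemma α_q1 : F.α (v a + c₁ • v b) = 0 := by
  rw [← F.h1, map_sum]
  refine Finset.sum_eq_zero fun i _ => ?_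
  rw [α, Module.Basis.coord_apply, Module.Basis.repr_self, Finsupp.single_eq_of_ne (by simp)]

lemma β_q3 (i) : F.β i (v a + c₃ • v b) = 0 := by
  rw [← F.h3, β, Module.Basis.coord_apply, Module.Basis.repr_self,
    Finsupp.single_eq_of_ne (by simp)]

lemma β_q1 (i) : F.β i (v a + c₁ • v b) = 1 := by
  classical
  rw [← F.h1, map_sum, Finset.sum_eq_single i]
  · rw [β, Module.Basis.coord_apply, Module.Basis.repr_self, Finsupp.single_eq_same]
  · intro j _ hj
    rw [β, Module.Basis.coord_apply, Module.Basis.repr_self,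
      Finsupp.single_eq_of_ne (by simpa using fun h => hj h.symm)]
  · intro h
    exact absurd (Finset.mem_univ i) h

lemma α_mem {e : E} (he : e ∈ I) : F.α (v e) = 0 := by
  have h := F.hv ⟨e, he⟩
  have h1 : F.α (F.bas (some ⟨e, he⟩)) = 0 := by
    rw [α, Module.Basis.coord_apply, Module.Basis.repr_self, Finsupp.single_eq_of_ne (by simp)]
  rw [h, map_smul, smul_eq_mul] at h1
  exact (mul_eq_zero.1 h1).resolve_left (F.hγ _)

lemma β_mem_ne {e : E} (he : e ∈ I) {i : {x // x ∈ I}} (hne : (i : E) ≠ e) : F.β i (v e) = 0 := by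
  have h := F.hv ⟨e, he⟩
  have h1 : F.β i (F.bas (some ⟨e, he⟩)) = 0 := by
    rw [β, Module.Basis.coord_apply, Module.Basis.repr_self,
      Finsupp.single_eq_of_ne]
    intro h2
    exact hne (congrArg Subtype.val (Option.some.inj h2))
  rw [h, map_smul, smul_eq_mul] at h1
  exact (mul_eq_zero.1 h1).resolve_left (F.hγ _)

lemma expand (w : V) :
    w = F.α w • (v a + c₃ • v b) + ∑ i, F.β i w • F.bas (some i) := by
  conv_lhs => rw [← F.bas.sum_repr w]
  rw [Fintype.sum_option, F.h3]
  rfl

lemma mem_sp_of_α_eq_zero {w : V} (h : F.α w = 0) : w ∈ sp K v I := by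
  rw [F.expand w, h, zero_smul, zero_add]
  refine Submodule.sum_mem _ fun i _ => Submodule.smul_mem _ _ ?_
  rw [F.hv i]
  exact Submodule.smul_mem _ _ (mem_sp i.2)

/-- `q₁` as a combination of the elements of `I` -/
lemma q1_eq : v a + c₁ • v b = ∑ i, F.γ i • v (i : E) := by
  rw [← F.h1]
  exact Finset.sum_congr rfl fun i _ => F.hv i

lemma mem_key {W : Submodule K V} {U : Finset E} (hI : ∀ e ∈ I, e ∉ U → v e ∈ W) {y : V}
    (hy : y ∈ W) {x t : K} (hx : F.α y = x) (ht : ∀ i : {x // x ∈ I}, (i : E) ∈ U → F.β i y = t) :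
    x • (v a + c₃ • v b) + t • (v a + c₁ • v b) ∈ W := by
  have h1 : x • (v a + c₃ • v b) + t • (v a + c₁ • v b) =
      y + ∑ i, (t - F.β i y) • F.bas (some i) := by
    have h0 := F.expand y
    rw [hx] at h0
    have h2 : ∑ i, (t - F.β i y) • F.bas (some i) =
        t • (v a + c₁ • v b) - ∑ i, F.β i y • F.bas (some i) := by
      rw [← F.h1, Finset.smul_sum, ← Finset.sum_sub_distrib]
      exact Finset.sum_congr rfl fun i _ => sub_smul _ _ _
    rw [h2]
    have h3 : x • (v a + c₃ • v b) = y - ∑ i, F.β i y • F.bas (some i) :=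
      eq_sub_of_add_eq h0.symm
    rw [h3]
    abel
  rw [h1]
  refine W.add_mem hy (Submodule.sum_mem _ fun i _ => ?_)
  by_cases hi : (i : E) ∈ U
  · rw [ht i hi, sub_self, zero_smul]
    exact W.zero_mem
  · refine W.smul_mem _ ?_
    rw [F.hv i]
    exact W.smul_mem _ (hI i i.2 hi)

/-- the way all colours are certified -/
lemma col {U Y : Finset E} {y : V} (hy : y ∈ sp K v ((I \ U) ∪ Y)) {x t : K} (hx : F.α y = x)
    (ht : ∀ i : {x // x ∈ I}, (i : E) ∈ U → F.β i y = t) {z : K} (hc : c ≠ 0) (hz : z ≠ 0)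
    (hq : x • (v a + c₃ • v b) + t • (v a + c₁ • v b) = z • (v a + c • v b)) (g : V →ₗ[K] K)
    (hgI : ∀ e ∈ I, e ∉ U → g (v e) = 0) (hgY : ∀ e ∈ Y, g (v e) = 0)
    (hg' : g (v a + c' • v b) ≠ 0) : Col K v a b c ((I \ U) ∪ Y) := by
  refine col_of (c' := c') hc ?_ g ?_ hg'
  · have h1 : z • (v a + c • v b) ∈ sp K v ((I \ U) ∪ Y) := by
      rw [← hq]
      exact F.mem_key (U := U)
        (fun e he heU => mem_sp (mem_union_left _ (mem_sdiff.2 ⟨he, heU⟩))) hy hx ht
    exact (Submodule.smul_mem_iff _ hz).1 h1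
  · intro e he
    rcases mem_union.1 he with he | he
    · exact hgI e (mem_sdiff.1 he).1 (mem_sdiff.1 he).2
    · exact hgY e he

end Frame

end Ca3
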