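import Pool.Agent.Lib.MP_ca3eb1_co.ThmTDefs
import Pool.Agent.Lib.MP_ca3eb1_co.ThmTField

/-! # Three-colour lemma: certificates for colours, full support -/

set_option linter.unusedSectionVars false

namespace Ca3

open Finset Submodule

variable {K V E : Type*} [Field K] [AddCommGroup V] [Module K V]
  [FiniteDimensional K V] [DecidableEq E] {v : E → V} {a b : E} {c c' c₁ c₂ c₃ : K}
  {Z Z' L L' I : Finset E} {u w : E}

lemma Col.congr (h : Col K v a b c Z) (hs : sp K v Z' = sp K v Z) : Col K v a b c Z' := by
  unfold Col at *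
  rwa [hs]

/-- a functional vanishing on `T` certifies the colour -/
lemma col_of (hc : c ≠ 0) {T : Finset E} (hq : v a + c • v b ∈ sp K v T) (g : V →ₗ[K] K)
    (hg : ∀ e ∈ T, g (v e) = 0) (h' : g (v a + c' • v b) ≠ 0) : Col K v a b c T := by
  refine ⟨hq, fun ha => h' ?_⟩
  have hk : sp K v T ≤ LinearMap.ker g := sp_le_iff.2 (fun e he => by simpa using hg e he)
  have h1 : g (v a) = 0 := by simpa using hk ha
  have h2 : g (v a + c • v b) = 0 := by simpa using hk hq
  rw [map_add, map_smul, h1, zero_add, smul_eq_zero] at h2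
  have h3 := h2.resolve_left hc
  rw [map_add, map_smul, h1, h3]
  simp

lemma Col.eq (h : Col K v a b c Z) (h' : v a + c' • v b ∈ sp K v Z) : c' = c := by
  by_contra hne
  apply h.2
  have h5 : (c - c') • v b ∈ sp K v Z := by
    have h6 := sub_mem h.1 h'
    have h7 : v a + c • v b - (v a + c' • v b) = (c - c') • v b := by module
    rwa [h7] at h6
  have hc : c - c' ≠ 0 := sub_ne_zero.2 (Ne.symm hne)
  have h8 : v b ∈ sp K v Z := by
    have h9 := smul_mem _ (c - c')⁻¹ h5
    rwa [smul_smul, inv_mul_cancel₀ hc, one_smul] at h9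
  have h9 := sub_mem h.1 (smul_mem _ c h8)
  rwa [add_sub_cancel_right] at h9

/-- two colours through `L`: the span of `L` misses the line -/
lemma rk_insert_insert (h1 : Col K v a b c₁ (insert u L)) (h2 : Col K v a b c₂ (insert w L))
    (hc : c₁ ≠ c₂) : rk K v (insert b (insert a L)) = rk K v L + 2 := by
  have ha : v a ∉ sp K v L := fun h => h1.2 (sp_mono (subset_insert _ _) h)
  have hb : v b ∉ sp K v (insert a L) := by
    intro h
    rw [sp_insert, Submodule.mem_sup] at h
    obtain ⟨x, hx, l, hl, hxl⟩ := h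
    obtain ⟨s, rfl⟩ := mem_span_singleton.1 hx
    have key : ∀ {c : K} {Z : Finset E}, Col K v a b c Z → L ⊆ Z → 1 + c * s = 0 := by
      intro c Z hc hLZ
      by_contra hne
      apply hc.2
      have hl' : l ∈ sp K v Z := sp_mono hLZ hl
      have h6 := sub_mem hc.1 (smul_mem _ c hl')
      have h7 : v a + c • v b - c • l = (1 + c * s) • v a := by
        rw [← hxl]
        module
      rw [h7] at h6
      have h9 := smul_mem _ (1 + c * s)⁻¹ h6
      rwa [smul_smul, inv_mul_cancel₀ hne, one_smul] at h9
    have k1 := key h1 (subset_insert _ _)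
    have k2 := key h2 (subset_insert _ _)
    have k3 : (c₁ - c₂) * s = 0 := by linear_combination k1 - k2
    rcases mul_eq_zero.1 k3 with h | h
    · exact hc (sub_eq_zero.1 h)
    · rw [h, mul_zero, add_zero] at k1
      exact one_ne_zero k1
  rw [rk_insert_of_not_mem_sp hb, rk_insert_of_not_mem_sp ha]

/-- full support -/
lemma full_support (hc : c ≠ 0) (hcard : I.card + 1 = rk K v (insert b (insert a L')))
    (hcol : Col K v a b c I) (hm : ∀ y ∈ L', ∀ Z, y ∈ Z → ¬ Col K v a b c Z) {i : E}
    (hi : i ∈ I) : v a + c • v b ∉ sp K v (I.erase i) := by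
  intro hq
  have ha : v a ∉ sp K v (I.erase i) := fun h => hcol.2 (sp_mono (erase_subset _ _) h)
  have hL : ∀ y ∈ L', v y ∈ sp K v (insert a (I.erase i)) := by
    intro y hy
    have h5 := hm y hy (insert y (I.erase i)) (mem_insert_self _ _)
    have h6 : v a ∈ sp K v (insert y (I.erase i)) := by
      by_contra h
      exact h5 ⟨sp_mono (subset_insert _ _) hq, h⟩
    exact mem_sp_insert_exchange h6 ha
  have ha' : v a ∈ sp K v (insert a (I.erase i)) := mem_sp (mem_insert_self _ _)
  have hb' : v b ∈ sp K v (insert a (I.erase i)) := by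
    have h5 := sub_mem (sp_mono (subset_insert a _) hq) ha'
    rw [add_sub_cancel_left] at h5
    have h9 := smul_mem _ c⁻¹ h5
    rwa [smul_smul, inv_mul_cancel₀ hc, one_smul] at h9
  have hle : rk K v (insert b (insert a L')) ≤ rk K v (insert a (I.erase i)) := by
    apply rk_le_of_sp_le
    rw [sp_le_iff]
    intro e he
    rcases mem_insert.1 he with rfl | he
    · exact hb'
    rcases mem_insert.1 he with rfl | he
    · exact ha'
    · exact hL e he
  have h7 : rk K v (insert a (I.erase i)) ≤ (insert a (I.erase i)).card := rk_le_card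
  have h8 := card_insert_le a (I.erase i)
  rw [card_erase_of_mem hi] at h8
  have h9 : 0 < I.card := card_pos.2 ⟨i, hi⟩
  omega

end Ca3
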