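import Mathlib

/-! # Three-colour lemma: the matrix part

A matrix with entries in `K*`, `|K| = 4`, without constant row and without constant column has a
proper `2 × 2` submatrix (cyclically adjacent entries differ) or a `3 × 3` submatrix
`(b b c / a c c / a b a)` with `{a, b, c} = K*`. -/

namespace Ca3

section mat

variable {I J C : Type*}

/-- no proper `2 × 2` submatrix -/
def NoProper (A : I → J → C) : Prop :=
  ∀ i i' j j', A i j = A i j' ∨ A i j' = A i' j' ∨ A i' j' = A i' j ∨ A i' j = A i j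

lemma NoProper.transpose {A : I → J → C} (h : NoProper A) : NoProper (fun j i => A i j) := by
  intro j j' i i'
  rcases h i i' j j' with h | h | h | h
  · exact Or.inr (Or.inr (Or.inr h.symm))
  · exact Or.inr (Or.inr (Or.inl h.symm))
  · exact Or.inr (Or.inl h.symm)
  · exact Or.inl h.symm

/-- the classes of a value are nested, so some row avoids the value -/
lemma NoProper.exists_row {A : I → J → C} (h : NoProper A) [Fintype I] [Fintype J] [Nonempty I]
    (hcol : ∀ j, ∃ i i', A i j ≠ A i' j) (c : C) : ∃ i, ∀ j, A i j ≠ c := by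
  classical
  obtain ⟨i, -, hi⟩ := Finset.exists_min_image (Finset.univ : Finset I)
    (fun i => (Finset.univ.filter (fun j => A i j = c)).card) Finset.univ_nonempty
  refine ⟨i, fun j hj => ?_⟩
  obtain ⟨i₁, i₂, h12⟩ := hcol j
  obtain ⟨i', hi'⟩ : ∃ i', A i' j ≠ c := by
    by_contra hcon
    push Not at hcon
    exact h12 ((hcon i₁).trans (hcon i₂).symm)
  -- the class of row `i'` is not contained in the class of row `i` minus `j`
  have hle := hi i' (Finset.mem_univ _)
  obtain ⟨j', hj', hj''⟩ : ∃ j', A i' j' = c ∧ A i j' ≠ c := by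
    by_contra hcon
    push Not at hcon
    have hsub : Finset.univ.filter (fun j => A i' j = c) ⊂ Finset.univ.filter (fun j => A i j = c) := by
      refine (Finset.ssubset_iff_of_subset ?_).2 ⟨j, by simpa using hj, by simpa using hi'⟩
      intro j' hj'
      simpa using hcon j' (by simpa using hj')
    exact absurd (Finset.card_lt_card hsub) (by simpa using hle)
  rcases h i i' j j' with h | h | h | h
  · exact hj'' (h.symm.trans hj)
  · exact hj'' (h.trans hj')
  · exact hi' (h.symm.trans hj')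
  · exact hi' (h.trans hj)

end mat

section field

variable {K : Type*} [Field K] [Fintype K] [DecidableEq K]

/-- three different nonzero elements of a field with four elements exhaust the nonzero ones -/
lemma mem_of_card_four (hK : Fintype.card K = 4) {a b c x : K} (ha : a ≠ 0) (hb : b ≠ 0)
    (hc : c ≠ 0) (hab : a ≠ b) (hac : a ≠ c) (hbc : b ≠ c) (hx : x ≠ 0) : x = a ∨ x = b ∨ x = c := by
  by_contra hcon
  push Not at hcon
  have h5 : ({0, a, b, c, x} : Finset K).card = 5 := by
    rw [Finset.card_insert_of_notMem, Finset.card_insert_of_notMem, Finset.card_insert_of_notMem,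
      Finset.card_insert_of_notMem, Finset.card_singleton]
    · simpa using hcon.2.2.symm
    · simp [hbc, hcon.2.1.symm]
    · simp [hab, hac, hcon.1.symm]
    · simp [ha.symm, hb.symm, hc.symm, hx.symm]
  have := Finset.card_le_univ ({0, a, b, c, x} : Finset K)
  omega

lemma exists_of_card_four (hK : Fintype.card K = 4) :
    ∃ a b c : K, a ≠ 0 ∧ b ≠ 0 ∧ c ≠ 0 ∧ a ≠ b ∧ a ≠ c ∧ b ≠ c := by
  have h3 : (Finset.univ.erase (0 : K)).card = 3 := by
    rw [Finset.card_erase_of_mem (Finset.mem_univ _), Finset.card_univ, hK]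
  obtain ⟨a, b, c, hab, hac, hbc, he⟩ := Finset.card_eq_three.1 h3
  have hm : ∀ x ∈ ({a, b, c} : Finset K), x ≠ 0 := by
    intro x hx
    rw [← he] at hx
    exact Finset.ne_of_mem_erase hx
  exact ⟨a, b, c, hm a (by simp), hm b (by simp), hm c (by simp), hab, hac, hbc⟩

variable {I J : Type*} [Fintype I] [Fintype J] [Nonempty I]

/-- **Matrix lemma.** -/
theorem mat_block (hK : Fintype.card K = 4) (A : I → J → K) (h0 : ∀ i j, A i j ≠ 0)
    (hrow : ∀ i, ∃ j j', A i j ≠ A i j') (hcol : ∀ j, ∃ i i', A i j ≠ A i' j)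
    (hnp : NoProper A) :
    ∃ (a b c : K) (i₁ i₂ i₃ : I) (j₁ j₂ j₃ : J), a ≠ 0 ∧ b ≠ 0 ∧ c ≠ 0 ∧ a ≠ b ∧ a ≠ c ∧ b ≠ c ∧
      i₁ ≠ i₂ ∧ i₁ ≠ i₃ ∧ i₂ ≠ i₃ ∧ j₁ ≠ j₂ ∧ j₁ ≠ j₃ ∧ j₂ ≠ j₃ ∧
      A i₁ j₁ = b ∧ A i₁ j₂ = b ∧ A i₁ j₃ = c ∧
      A i₂ j₁ = a ∧ A i₂ j₂ = c ∧ A i₂ j₃ = c ∧
      A i₃ j₁ = a ∧ A i₃ j₂ = b ∧ A i₃ j₃ = a := by
  obtain ⟨x, y, z, hx, hy, hz, hxy, hxz, hyz⟩ := exists_of_card_four hK
  have : Nonempty J := by
    obtain ⟨i⟩ := ‹Nonempty I›
    obtain ⟨j, -⟩ := hrow i
    exact ⟨j⟩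
  obtain ⟨rx, hrx⟩ := hnp.exists_row hcol x
  obtain ⟨ry, hry⟩ := hnp.exists_row hcol y
  obtain ⟨rz, hrz⟩ := hnp.exists_row hcol z
  obtain ⟨cx, hcx⟩ := hnp.transpose.exists_row hrow x
  obtain ⟨cy, hcy⟩ := hnp.transpose.exists_row hrow y
  obtain ⟨cz, hcz⟩ := hnp.transpose.exists_row hrow z
  have key := fun i j => mem_of_card_four hK hx hy hz hxy hxz hyz (h0 i j)
  -- the off-diagonal entries
  have exy : A rx cy = z := by
    rcases key rx cy with h | h | h
    · exact absurd h (hrx _)
    · exact absurd h (hcy _)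
    · exact h
  have exz : A rx cz = y := by
    rcases key rx cz with h | h | h
    · exact absurd h (hrx _)
    · exact h
    · exact absurd h (hcz _)
  have eyx : A ry cx = z := by
    rcases key ry cx with h | h | h
    · exact absurd h (hcx _)
    · exact absurd h (hry _)
    · exact h
  have eyz : A ry cz = x := by
    rcases key ry cz with h | h | h
    · exact h
    · exact absurd h (hry _)
    · exact absurd h (hcz _)
  have ezx : A rz cx = y := by
    rcases key rz cx with h | h | h
    · exact absurd h (hcx _)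
    · exact h
    · exact absurd h (hrz _)
  have ezy : A rz cy = x := by
    rcases key rz cy with h | h | h
    · exact h
    · exact absurd h (hcy _)
    · exact absurd h (hrz _)
  have r1 : rx ≠ ry := fun h => hxy (by rw [← eyz, ← h, exz])
  have r2 : rx ≠ rz := fun h => hxz (by rw [← ezy, ← h, exy])
  have r3 : ry ≠ rz := fun h => hyz (by rw [← ezx, ← h, eyx])
  have c1 : cx ≠ cy := fun h => hxy (by rw [← ezy, ← h, ezx])
  have c2 : cx ≠ cz := fun h => hxz (by rw [← eyz, ← h, eyx])
  have c3 : cy ≠ cz := fun h => hyz (by rw [← exz, ← h, exy])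
  have d1 : A rx cx = z ∨ A ry cy = z := by
    rcases hnp rx ry cx cy with h | h | h | h
    · exact Or.inl (h.trans exy)
    · exact Or.inr (h.symm.trans exy)
    · exact Or.inr (h.trans eyx)
    · exact Or.inl (h.symm.trans eyx)
  have d2 : A rx cx = y ∨ A rz cz = y := by
    rcases hnp rx rz cx cz with h | h | h | h
    · exact Or.inl (h.trans exz)
    · exact Or.inr (h.symm.trans exz)
    · exact Or.inr (h.trans ezx)
    · exact Or.inl (h.symm.trans ezx)
  have d3 : A ry cy = x ∨ A rz cz = x := by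
    rcases hnp ry rz cy cz with h | h | h | h
    · exact Or.inl (h.trans eyz)
    · exact Or.inr (h.symm.trans eyz)
    · exact Or.inr (h.trans ezy)
    · exact Or.inl (h.symm.trans ezy)
  rcases key rx cx with h | h | h
  · exact absurd h (hrx _)
  · have h1 : A ry cy = z := d1.resolve_left (fun h' => hyz (h.symm.trans h'))
    have h2 : A rz cz = x := d3.resolve_left (fun h' => hxz (h'.symm.trans h1))
    exact ⟨y, z, x, ry, rz, rx, cx, cy, cz, hy, hz, hx, hyz, hxy.symm, hxz.symm, r3, r1.symm,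
      r2.symm, c1, c2, c3, eyx, h1, eyz, ezx, ezy, h2, h, exy, exz⟩
  · have h1 : A rz cz = y := d2.resolve_left (fun h' => hyz (h'.symm.trans h))
    have h2 : A ry cy = x := d3.resolve_right (fun h' => hxy (h'.symm.trans h1))
    exact ⟨x, z, y, rx, rz, ry, cy, cx, cz, hx, hz, hy, hxz, hxy, hyz.symm, r2, r1, r3.symm,
      c1.symm, c3, c2, exy, h, exz, ezy, ezx, h1, h2, eyx, eyz⟩

end field

end Ca3
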